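import Mathlib

/-! The parts of this file: FQ.Avg, FQ.Cnt, H71.FJ.Artin, H71.FQ.KQ, H71.FQ.Pow, H95.KM.Stab. -/

section

/-!
# Averaging of a homogeneous cocycle (PROJECT FQ, note 4122, step (3))

A group `Z` acts on `X`, `σ` is a permutation of `X` commuting with `Z`, and for every `x` the set of
all `z` with `z x = σ ^ k x` for some `k` is finite with a number of elements dividing `D ≠ 0`. Then
every homogeneous cocycle of `Z` gives a homogeneous cocycle on `X`, invariant under `Z` and `σ`, whose
restriction to an orbit is `D ^ (n + 1)` times the given one up to an invariant coboundary.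
-/

open Finset

namespace FQ

section prism

variable {Z L : Type*} [CommRing L]

/-- extension of a tuple to a sequence -/
def ext [Inhabited Z] {n : ℕ} (z : Fin n → Z) (k : ℕ) : Z := if h : k < n then z ⟨k, h⟩ else default

end prism

section av

variable {Z L : Type*} [Group Z] [CommRing L]

end av

section main

variable {Z X L : Type*} [Group Z] [MulAction Z X] [CommRing L]

/-- the elements which move `x` inside its `σ`-orbit -/
def stb (Z : Type*) {X : Type*} [Group Z] [MulAction Z X] (σ : Equiv.Perm X) (x : X) : Set Z :=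
  {z | ∃ k : ℤ, z • x = (σ ^ k) x}

theorem zpow_smul_comm {σ : Equiv.Perm X} (hσ : ∀ (g : Z) (x : X), σ (g • x) = g • σ x) (k : ℤ) (g : Z)
    (x : X) : (σ ^ k) (g • x) = g • (σ ^ k) x := by
  have hinv : ∀ (g : Z) (x : X), σ⁻¹ (g • x) = g • σ⁻¹ x := by
    intro g x
    rw [Equiv.Perm.inv_eq_iff_eq, hσ]
    congr 1
    exact (σ.apply_symm_apply x).symm
  have hpow : ∀ (τ : Equiv.Perm X), (∀ (g : Z) (x : X), τ (g • x) = g • τ x) →
      ∀ (n : ℕ) (x : X), (τ ^ n) (g • x) = g • (τ ^ n) x := by
    intro τ hτ n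
    induction n with
    | zero => intro x; simp
    | succ n ih => intro x; rw [pow_succ, Equiv.Perm.mul_apply, hτ, ih, Equiv.Perm.mul_apply]
  obtain ⟨n, rfl | rfl⟩ := k.eq_nat_or_neg
  · simpa using hpow σ hσ n x
  · have h := hpow σ⁻¹ hinv n x
    simpa using h

theorem exists_mset {σ : Equiv.Perm X} (hσ : ∀ (g : Z) (x : X), σ (g • x) = g • σ x) {D : ℕ}
    (hfin : ∀ x : X, (stb Z σ x).Finite) (hcard : ∀ x : X, (stb Z σ x).ncard ∣ D) :
    ∃ M : X → Finset Z, (∀ (g : Z) (x : X), M (g • x) = (M x).map (Equiv.mulLeft g).toEmbedding) ∧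
      (∀ x, M (σ x) = M x) ∧ (∀ x, (M x).card ∣ D) ∧ ∀ x, (M x).Nonempty := by
  classical
  have hc := zpow_smul_comm hσ
  let S : Setoid X :=
    { r := fun x y => ∃ (g : Z) (k : ℤ), y = (σ ^ k) (g • x)
      iseqv := by
        refine ⟨fun x => ⟨1, 0, by simp⟩, ?_, ?_⟩
        · rintro x y ⟨g, k, rfl⟩
          refine ⟨g⁻¹, -k, ?_⟩
          rw [hc, hc, hc, ← Equiv.Perm.mul_apply, ← zpow_add, inv_smul_smul]
          simp
        · rintro x y z ⟨g, k, rfl⟩ ⟨h, l, rfl⟩
          refine ⟨h * g, l + k, ?_⟩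
          rw [zpow_add, Equiv.Perm.mul_apply, hc k, hc k, mul_smul] }
  let r : X → X := fun x => (Quotient.mk S x).out
  have hr : ∀ x, ∃ (g : Z) (k : ℤ), x = (σ ^ k) (g • r x) := fun x =>
    Quotient.exact (Quotient.out_eq (Quotient.mk S x))
  have hrg : ∀ (g : Z) (x : X), r (g • x) = r x := by
    intro g x
    have : Quotient.mk S (g • x) = Quotient.mk S x :=
      Quotient.sound (S.symm ⟨g, 0, by simp⟩)
    simp only [r, this]
  have hrs : ∀ x : X, r (σ x) = r x := by
    intro x
    have : Quotient.mk S (σ x) = Quotient.mk S x :=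
      Quotient.sound (S.symm ⟨1, 1, by simp⟩)
    simp only [r, this]
  let M' : X → Set Z := fun x => {g | ∃ k : ℤ, x = (σ ^ k) (g • r x)}
  have hM' : ∀ x, ∃ g0 : Z, M' x = (Equiv.mulLeft g0) '' (stb Z σ (r x)) := by
    intro x
    obtain ⟨g0, k0, h0⟩ := hr x
    refine ⟨g0, ?_⟩
    ext h
    rw [Equiv.image_eq_preimage_symm]
    simp only [M', Set.mem_setOf_eq, Set.mem_preimage, stb, Equiv.mulLeft_symm, Equiv.coe_mulLeft]
    constructor
    · rintro ⟨k, hk⟩
      refine ⟨k0 - k, ?_⟩
      have h1 : (σ ^ k) (h • r x) = (σ ^ k0) (g0 • r x) := by rw [← hk, ← h0]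
      rw [sub_eq_add_neg, add_comm, zpow_add, Equiv.Perm.mul_apply, mul_smul, inv_smul_eq_iff, ← hc,
        ← hc, ← h1, ← Equiv.Perm.mul_apply, ← zpow_add]
      simp
    · rintro ⟨k, hk⟩
      refine ⟨k0 - k, ?_⟩
      rw [mul_smul, inv_smul_eq_iff, ← hc] at hk
      rw [hk, ← Equiv.Perm.mul_apply, ← zpow_add, sub_add_cancel, ← h0]
  have hfin' : ∀ x, (M' x).Finite := by
    intro x
    obtain ⟨g0, h0⟩ := hM' x
    rw [h0]
    exact (hfin _).image _
  refine ⟨fun x => (hfin' x).toFinset, ?_, ?_, ?_, ?_⟩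
  · intro g x
    ext h
    simp only [Set.Finite.mem_toFinset, mem_map_equiv, Equiv.mulLeft_symm, Equiv.coe_mulLeft, M',
      Set.mem_setOf_eq, hrg]
    constructor
    · rintro ⟨k, hk⟩
      exact ⟨k, by rw [mul_smul, hc, ← hk, inv_smul_smul]⟩
    · rintro ⟨k, hk⟩
      refine ⟨k, ?_⟩
      rw [mul_smul, hc] at hk
      nth_rw 1 [hk]
      rw [smul_inv_smul]
  · intro x
    ext h
    simp only [Set.Finite.mem_toFinset, M', Set.mem_setOf_eq, hrs]
    constructor
    · rintro ⟨k, hk⟩
      refine ⟨k - 1, ?_⟩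
      rw [sub_eq_add_neg, add_comm, zpow_add, Equiv.Perm.mul_apply, ← hk]
      simp
    · rintro ⟨k, hk⟩
      refine ⟨1 + k, ?_⟩
      rw [zpow_add, Equiv.Perm.mul_apply, ← hk]
      simp
  · intro x
    obtain ⟨g0, h0⟩ := hM' x
    rw [← Set.ncard_eq_toFinset_card _ (hfin' x), h0,
      Set.ncard_image_of_injective _ (Equiv.injective _)]
    exact hcard _
  · intro x
    obtain ⟨g0, k0, h0⟩ := hr x
    exact ⟨g0, by rw [Set.Finite.mem_toFinset]; exact ⟨k0, h0⟩⟩

end main

end FQ

end

section

/-!
# The counting lemma of PROJECT FQ (note 4122, step (1))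

`I` is a finite set with `p ^ m` elements, `s` a permutation of `I` for which every element is
`s ^ k i0`, and `T` a function of finite subsets of `I` with values in a commutative ring `L` without
`p`-torsion in which the natural numbers prime to `p` are units. If `T (s S) = T S` for all `S`, then
`p ^ (m + 1)` divides `∑_S p ^ |S| T S - T ∅`.
-/

open Finset

namespace FQ

section

variable {L : Type*} [CommRing L] {I : Type*} [Fintype I] [DecidableEq I]

/-- invariance under all powers of `s` -/
theorem inv_pow (s : Equiv.Perm I) (T : Finset I → L)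
    (hT : ∀ S : Finset I, T (S.map s.toEmbedding) = T S) (k : ℕ) (S : Finset I) :
    T (S.map (s ^ k).toEmbedding) = T S := by
  induction k generalizing S with
  | zero =>
      congr 1
      ext x
      simp only [pow_zero, mem_map_equiv]
      exact Iff.rfl
  | succ k ih =>
      have : S.map (s ^ (k + 1)).toEmbedding = (S.map (s ^ k).toEmbedding).map s.toEmbedding := by
        ext x
        simp only [pow_succ', mem_map_equiv]
        exact Iff.rfl
      rw [this, hT, ih]

/-- the sum over the sets with `j` elements which contain `i` does not depend on `i` -/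
theorem sum_mem_eq (s : Equiv.Perm I) (T : Finset I → L)
    (hT : ∀ S : Finset I, T (S.map s.toEmbedding) = T S) (j : ℕ) (i0 i : I)
    (hi : ∃ k : ℕ, (s ^ k) i0 = i) :
    ∑ S ∈ (powersetCard j (univ : Finset I)).filter (fun S => i ∈ S), T S
      = ∑ S ∈ (powersetCard j (univ : Finset I)).filter (fun S => i0 ∈ S), T S := by
  obtain ⟨k, rfl⟩ := hi
  symm
  refine Finset.sum_bij' (fun S _ => S.map (s ^ k).toEmbedding)
    (fun S _ => S.map (s ^ k).symm.toEmbedding) ?_ ?_ ?_ ?_ ?_
  · intro S hS
    simp only [mem_filter, mem_powersetCard, subset_univ, true_and, card_map] at hS ⊢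
    exact ⟨hS.1, mem_map_of_mem _ hS.2⟩
  · intro S hS
    simp only [mem_filter, mem_powersetCard, subset_univ, true_and, card_map] at hS ⊢
    refine ⟨hS.1, ?_⟩
    rw [mem_map]
    exact ⟨_, hS.2, by simp⟩
  · intro S _
    ext x
    simp
  · intro S _
    ext x
    simp
  · intro S _
    exact (inv_pow s T hT k S).symm

/-- double counting: `j c_j = |I| * (the part of the sets containing i0)` -/
theorem mul_sum_card (s : Equiv.Perm I) (T : Finset I → L)
    (hT : ∀ S : Finset I, T (S.map s.toEmbedding) = T S) (i0 : I)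
    (hs : ∀ i : I, ∃ k : ℕ, (s ^ k) i0 = i) (j : ℕ) :
    (j : L) * ∑ S ∈ powersetCard j (univ : Finset I), T S
      = (Fintype.card I : L) *
        ∑ S ∈ (powersetCard j (univ : Finset I)).filter (fun S => i0 ∈ S), T S := by
  have h1 : (j : L) * ∑ S ∈ powersetCard j (univ : Finset I), T S
      = ∑ S ∈ powersetCard j (univ : Finset I), ∑ i : I, if i ∈ S then T S else 0 := by
    rw [mul_sum]
    refine sum_congr rfl fun S hS => ?_
    rw [mem_powersetCard] at hS
    rw [← Finset.sum_filter, sum_const, nsmul_eq_mul]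
    congr 2
    rw [← hS.2]
    congr 1
    ext x
    simp
  rw [h1, sum_comm]
  have h2 : ∀ i ∈ (univ : Finset I),
      (∑ S ∈ powersetCard j (univ : Finset I), if i ∈ S then T S else 0)
        = ∑ S ∈ (powersetCard j (univ : Finset I)).filter (fun S => i0 ∈ S), T S := by
    intro i _
    rw [← Finset.sum_filter]
    exact sum_mem_eq s T hT j i0 i (hs i)
  rw [sum_congr rfl h2, sum_const, nsmul_eq_mul, card_univ]

end

end FQ

end

section

/-!
# Artin type induction theorem for `K₀(k[F]) ⊗ ℚ`, `F` finite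
-/

set_option autoImplicit false

open Matrix
open scoped Classical

universe u v w

namespace Pool.Agent.H71.FJ

/-- Möbius type coefficients on a finite partially ordered set. -/
theorem exists_nu {α : Type*} [PartialOrder α] (s : Finset α) (f : α → ℤ) :
    ∃ ν : α → ℤ, ∀ E ∈ s, ∑ D ∈ s.filter (fun D => E ≤ D), ν D = f E := by
  induction s using Finset.strongInduction with
  | H s ih =>
    by_cases hs : s.Nonempty
    · obtain ⟨E₀, hE₀⟩ := s.exists_minimal hs
      obtain ⟨ν, hν⟩ := ih (s.erase E₀) (Finset.erase_ssubset hE₀.1)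
      have hmin : ∀ E ∈ s, E ≤ E₀ → E = E₀ := fun E hE hle => le_antisymm hle (hE₀.2 hE hle)
      refine ⟨fun D => if D = E₀ then f E₀ - ∑ D ∈ (s.erase E₀).filter (fun D => E₀ ≤ D), ν D
        else ν D, ?_⟩
      intro E hE
      by_cases hEE : E = E₀
      · subst hEE
        have h1 : s.filter (fun D => E ≤ D) =
            insert E ((s.erase E).filter (fun D => E ≤ D)) := by
          ext D
          simp only [Finset.mem_filter, Finset.mem_insert, Finset.mem_erase]
          constructor
          · rintro ⟨h1, h2⟩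
            by_cases h3 : D = E
            · exact Or.inl h3
            · exact Or.inr ⟨⟨h3, h1⟩, h2⟩
          · rintro (rfl | ⟨⟨_, h1⟩, h2⟩)
            · exact ⟨hE, le_rfl⟩
            · exact ⟨h1, h2⟩
        rw [h1, Finset.sum_insert (by simp), if_pos rfl]
        have h2 : ∑ D ∈ (s.erase E).filter (fun D => E ≤ D), (if D = E then f E -
            ∑ D ∈ (s.erase E).filter (fun D => E ≤ D), ν D else ν D) =
            ∑ D ∈ (s.erase E).filter (fun D => E ≤ D), ν D := by
          apply Finset.sum_congr rfl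
          intro D hD
          rw [Finset.mem_filter, Finset.mem_erase] at hD
          rw [if_neg hD.1.1]
        rw [h2]
        ring
      · have h1 : s.filter (fun D => E ≤ D) = (s.erase E₀).filter (fun D => E ≤ D) := by
          ext D
          simp only [Finset.mem_filter, Finset.mem_erase]
          constructor
          · rintro ⟨h1, h2⟩
            refine ⟨⟨?_, h1⟩, h2⟩
            rintro rfl
            exact hEE (hmin E hE h2)
          · rintro ⟨⟨_, h1⟩, h2⟩
            exact ⟨h1, h2⟩
        rw [h1, ← hν E (Finset.mem_erase.2 ⟨hEE, hE⟩)]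
        apply Finset.sum_congr rfl
        intro D hD
        rw [Finset.mem_filter, Finset.mem_erase] at hD
        exact if_neg hD.1.1
    · rw [Finset.not_nonempty_iff_eq_empty] at hs
      subst hs
      exact ⟨fun _ => 0, by simp⟩

section Sum

variable {F : Type v} [Group F] [Fintype F]

theorem sum_out {M : Type*} [AddCommMonoid M] (D : Subgroup F) (g : F → M)
    (hg : ∀ y, ∀ d ∈ D, g (y * d) = g y) :
    ∑ y : F, g y = Nat.card D • ∑ x : F ⧸ D, g x.out := by
  let E : (F ⧸ D) × D → F := fun p => p.1.out * p.2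
  have hE : Function.Bijective E := by
    constructor
    · rintro ⟨x, d⟩ ⟨x', d'⟩ h
      simp only [E] at h
      have h1 : x = x' := by
        have := congrArg (fun z : F => (z : F ⧸ D)) h
        change ((x.out * (d : F) : F) : F ⧸ D) = ((x'.out * (d' : F) : F) : F ⧸ D) at this
        rw [QuotientGroup.mk_mul_of_mem _ d.2, QuotientGroup.mk_mul_of_mem _ d'.2,
          QuotientGroup.out_eq', QuotientGroup.out_eq'] at this
        exact this
      subst h1
      rw [mul_right_inj] at h
      rw [Subtype.ext h]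
    · intro y
      refine ⟨⟨(y : F ⧸ D), ⟨(y : F ⧸ D).out⁻¹ * y, ?_⟩⟩, ?_⟩
      · rw [← QuotientGroup.eq, QuotientGroup.out_eq']
      · simp [E]
  rw [← (Equiv.ofBijective E hE).sum_comp g, Fintype.sum_prod_type, Finset.smul_sum]
  apply Finset.sum_congr rfl
  intro x _
  have : ∀ d : D, g ((Equiv.ofBijective E hE) (x, d)) = g x.out := fun d => hg _ _ d.2
  simp only [this, Finset.sum_const, Finset.card_univ, Nat.card_eq_fintype_card]

end Sum

section Vanish

variable {B : Type u} [CommRing B] {K : Type w} [Field K] {F : Type v} [Group F] [Fintype F]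

/-- indicator function of the elements of order zero in `K` -/
noncomputable def sing (B : Type u) [CommRing B] (K : Type w) [Field K] {F : Type v} [Group F]
    (h : F) : B := if (orderOf h : K) = 0 then 1 else 0

omit [Fintype F] in
theorem orderOf_conj' (y h : F) : orderOf (y⁻¹ * h * y) = orderOf h := by
  have h1 : y⁻¹ * h * y = MulAut.conj y⁻¹ h := by simp
  rw [h1]
  exact orderOf_injective (MulAut.conj y⁻¹).toMonoidHom (MulAut.conj y⁻¹).injective h

omit [Fintype F] in
theorem sing_comm (x y : F) : sing B K (x * y) = sing B K (y * x) := by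
  unfold sing
  have : orderOf (x * y) = orderOf (y * x) := by
    rw [← orderOf_conj' x (x * y)]
    congr 1
    group
  rw [this]

/-- the induced function of the indicator function of `c` -/
noncomputable def psi (B : Type u) [CommRing B] {F : Type v} [Group F] [Fintype F] (c h : F) : B :=
  ∑ x : F ⧸ Subgroup.zpowers c, if x.out⁻¹ * h * x.out = c then 1 else 0

theorem card_mul_psi (c h : F) : (Nat.card (Subgroup.zpowers c) : B) * psi B c h =
    ∑ y : F, if y⁻¹ * h * y = c then 1 else 0 := by
  rw [sum_out (Subgroup.zpowers c) (fun y => if y⁻¹ * h * y = c then (1 : B) else 0), nsmul_eq_mul]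
  · rfl
  · intro y d hd
    obtain ⟨n, rfl⟩ := Subgroup.mem_zpowers_iff.1 hd
    have : (y * c ^ n)⁻¹ * h * (y * c ^ n) = c ↔ y⁻¹ * h * y = c := by
      have e : (y * c ^ n)⁻¹ * h * (y * c ^ n) = (c ^ n)⁻¹ * (y⁻¹ * h * y) * c ^ n := by group
      rw [e]
      constructor
      · intro h1
        have h2 : y⁻¹ * h * y = c ^ n * ((c ^ n)⁻¹ * (y⁻¹ * h * y) * c ^ n) * (c ^ n)⁻¹ := by group
        rw [h2, h1]
        group
      · intro h1
        rw [h1]
        group
    simp only [this]

omit [Fintype F] in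
theorem zc_comm (c : F) (a b : Subgroup.zpowers c) : a * b = b * a := by
  obtain ⟨a, ha⟩ := a
  obtain ⟨b, hb⟩ := b
  obtain ⟨m, rfl⟩ := Subgroup.mem_zpowers_iff.1 ha
  obtain ⟨n, rfl⟩ := Subgroup.mem_zpowers_iff.1 hb
  apply Subtype.ext
  exact ((Commute.refl c).zpow_zpow m n)

/-- cyclic subgroups as commutative groups -/
abbrev zcComm (c : F) : CommGroup (Subgroup.zpowers c) :=
  { (inferInstance : Group (Subgroup.zpowers c)) with mul_comm := zc_comm c }

end Vanish

section Rank

/-- The augmentation. -/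
noncomputable def aug (R : Type u) [CommRing R] (F : Type v) [Group F] :
    MonoidAlgebra R F →ₐ[R] R := MonoidAlgebra.lift R R F 1

theorem aug_single (R : Type u) [CommRing R] {F : Type v} [Group F] (h : F) (r : R) :
    aug R F (MonoidAlgebra.single h r) = r := by
  rw [aug, MonoidAlgebra.lift_single]
  simp

variable {F : Type v} [Group F] [Fintype F]

/-- number of fixed points of `h` on `F/D` -/
noncomputable def fixN (D : Subgroup F) (h : F) : ℕ :=
  (Finset.univ.filter fun x : F ⧸ D => x = h • x).card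

end Rank

end Pool.Agent.H71.FJ

end

section

/-!
# Project FQ: rational algebraic K-groups through the homology of linear groups

`KQ A n` is the sum over `N` of the groups `H_{n+1}(GL_N(A); ℤ)` modulo the relations
`[w] = [pr₁ w] + [pr₂ w]`, `w ∈ H_{n+1}(GL_N(A) × GL_M(A); ℤ)`, where `[w]` is the class of the image of `w` in the
homology of `GL_{N+M}(A)` under the block sum.
-/

set_option autoImplicit false

open Matrix

universe u v w

namespace Pool.Agent.H71.FQ

/-- The group `GL_N(A)`. -/
abbrev GLm (N : ℕ) (A : Type u) [Ring A] : Type u := (Matrix (Fin N) (Fin N) A)ˣ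

section

variable {A : Type u} [Ring A]

/-- The block sum of two matrices. -/
def blkM {N M : ℕ} (X : Matrix (Fin N) (Fin N) A) (Y : Matrix (Fin M) (Fin M) A) :
    Matrix (Fin (N + M)) (Fin (N + M)) A :=
  (fromBlocks X 0 0 Y).submatrix finSumFinEquiv.symm finSumFinEquiv.symm

theorem blkM_mul {N M : ℕ} (X X' : Matrix (Fin N) (Fin N) A) (Y Y' : Matrix (Fin M) (Fin M) A) :
    blkM X Y * blkM X' Y' = blkM (X * X') (Y * Y') := by
  rw [blkM, blkM, submatrix_mul_equiv, fromBlocks_multiply, blkM]
  simp

theorem blkM_one (N M : ℕ) :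
    blkM (1 : Matrix (Fin N) (Fin N) A) (1 : Matrix (Fin M) (Fin M) A) = 1 := by
  rw [blkM, fromBlocks_one, submatrix_one_equiv]

/-- The block sum `GL_N(A) × GL_M(A) → GL_{N+M}(A)`. -/
def blk (N M : ℕ) (A : Type u) [Ring A] : GLm N A × GLm M A →* GLm (N + M) A where
  toFun w := ⟨blkM w.1.val w.2.val, blkM w.1.inv w.2.inv, by
    rw [blkM_mul, Units.val_inv, Units.val_inv, blkM_one], by
    rw [blkM_mul, Units.inv_val, Units.inv_val, blkM_one]⟩
  map_one' := Units.ext (blkM_one N M)
  map_mul' w w' := Units.ext (blkM_mul w.1.val w'.1.val w.2.val w'.2.val).symm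

theorem blk_val {N M : ℕ} (w : GLm N A × GLm M A) : (blk N M A w).val = blkM w.1.val w.2.val := rfl

end

section

end

section

variable {A : Type u} [Ring A] {n : ℕ}

/-- The homomorphism of the groups of matrices induced by a homomorphism of rings. -/
def mapGL {A' : Type v} [Ring A'] (f : A →+* A') (N : ℕ) : GLm N A →* GLm N A' :=
  Units.map f.mapMatrix.toMonoidHom

theorem mapGL_val {A' : Type v} [Ring A'] (f : A →+* A') (N : ℕ) (X : GLm N A) :
    (mapGL f N X).val = X.val.map f := rfl

theorem blkM_map {A' : Type v} [Ring A'] (f : A →+* A') {N M : ℕ} (X : Matrix (Fin N) (Fin N) A)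
    (Y : Matrix (Fin M) (Fin M) A) : (blkM X Y).map f = blkM (X.map f) (Y.map f) := by
  rw [blkM, blkM, ← submatrix_map, fromBlocks_map, Matrix.map_zero f (map_zero f),
    Matrix.map_zero f (map_zero f)]

theorem mapGL_comp_blk {A' : Type v} [Ring A'] (f : A →+* A') (N M : ℕ) :
    (mapGL f (N + M)).comp (blk N M A) =
      (blk N M A').comp (((mapGL f N).comp (MonoidHom.fst (GLm N A) (GLm M A))).prod
        ((mapGL f M).comp (MonoidHom.snd (GLm N A) (GLm M A)))) := by
  refine MonoidHom.ext fun w => Units.ext ?_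
  exact blkM_map f w.1.val w.2.val

variable {Γ : Type w} [Group Γ]

/-- a matrix over `Fin N ⊕ Fin M` as a matrix over `Fin (N + M)` -/
def toFin {N M : ℕ} (W : (Matrix (Fin N ⊕ Fin M) (Fin N ⊕ Fin M) A)ˣ) : GLm (N + M) A where
  val := W.val.submatrix finSumFinEquiv.symm finSumFinEquiv.symm
  inv := W.inv.submatrix finSumFinEquiv.symm finSumFinEquiv.symm
  val_inv := by rw [submatrix_mul_equiv, Units.val_inv, submatrix_one_equiv]
  inv_val := by rw [submatrix_mul_equiv, Units.inv_val, submatrix_one_equiv]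

end

end Pool.Agent.H71.FQ

end

section

/-!
# Project FQ: powers and trace functionals

`lam` is a function on a ring `A` with the trace property on a subring `S`, with values in a ring `B` in which
`p ^ (m + 1) = 0`. Then `lam ((x + p y) ^ (p ^ m)) = lam (x ^ (p ^ m))`.

PROOF. Expand the product in subsets of `Fin q`, `q = p ^ m`; `lam` of the word of a subset is invariant under the
cyclic shift. Then `j c_j = q e_j` for the sum `c_j` of the words of the subsets with `j` elements
(`FQ.mul_sum_card`). Write `j = p ^ v u`; `u` is a unit of `B`, so `p ^ v c_j ∈ p ^ m B`, and `v < j` gives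
`p ^ j c_j = 0` for `j ≥ 1`.
-/

set_option autoImplicit false

namespace Pool.Agent.H71.FQ

open Finset

/-- the word of a subset: `y` at the places of `S`, `x` elsewhere -/
noncomputable def wordOf {A : Type*} [Ring A] (q : ℕ) (x y : A) (S : Finset (Fin q)) : A :=
  (List.ofFn (S.piecewise (fun _ => y) (fun _ => x))).prod

theorem add_pow_words {A : Type*} [Ring A] (q : ℕ) (x y : A) :
    (x + y) ^ q = ∑ S : Finset (Fin q), wordOf q x y S := by
  have h := (MultilinearMap.mkPiAlgebraFin ℤ q A).map_add_univ (fun _ => y) (fun _ => x)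
  simp only [MultilinearMap.mkPiAlgebraFin_apply, Pi.add_apply] at h
  have h2 : (List.ofFn ((fun _ => y) + (fun _ => x) : Fin q → A)).prod = (x + y) ^ q := by
    have : ((fun _ => y) + (fun _ => x) : Fin q → A) = fun _ => x + y := by
      funext i
      simp [add_comm]
    rw [this, List.ofFn_const, List.prod_replicate]
  rw [h2] at h
  exact h

theorem wordOf_nsmul {A : Type*} [Ring A] (q : ℕ) (x y : A) (p : ℕ) (S : Finset (Fin q)) :
    wordOf q x (p • y) S = (p ^ S.card) • wordOf q x y S := by
  have h := (MultilinearMap.mkPiAlgebraFin ℤ q A).map_piecewise_smul (fun _ => (p : ℤ))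
    (S.piecewise (fun _ => y) (fun _ => x)) S
  simp only [MultilinearMap.mkPiAlgebraFin_apply, prod_const] at h
  have h2 : S.piecewise (fun i => (p : ℤ) • (S.piecewise (fun _ => y) (fun _ => x) : Fin q → A) i)
      (S.piecewise (fun _ => y) (fun _ => x)) = S.piecewise (fun _ => p • y) (fun _ => x) := by
    funext i
    by_cases hi : i ∈ S
    · simp [Finset.piecewise, hi]
    · simp [Finset.piecewise, hi]
  rw [h2] at h
  rw [wordOf, wordOf, h, ← Nat.cast_pow, natCast_zsmul]

/-- cyclic invariance of the words under a trace function -/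
theorem lam_word_rotate {A B : Type*} [Ring A] [CommRing B] (lam : A →+ B) (S : Subring A)
    (h : ∀ x ∈ S, ∀ y ∈ S, lam (x * y) = lam (y * x)) (k : ℕ) (f : Fin (k + 1) → A)
    (hf : ∀ i, f i ∈ S) :
    lam (List.ofFn (fun i => f (finRotate (k + 1) i))).prod = lam (List.ofFn f).prod := by
  have h1 : (List.ofFn f).prod = f 0 * (List.ofFn fun i : Fin k => f i.succ).prod := by
    rw [List.ofFn_succ, List.prod_cons]
  have h2 : (List.ofFn (fun i => f (finRotate (k + 1) i))).prod
      = (List.ofFn fun i : Fin k => f i.succ).prod * f 0 := by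
    rw [List.ofFn_succ', List.concat_eq_append, List.prod_append, List.prod_singleton]
    congr 2
    · congr 1
      congr 1
      funext i
      congr 1
      simp [finRotate_succ_apply, Fin.ext_iff]
    · simp
  rw [h1, h2]
  refine (h _ (hf 0) _ ?_).symm
  refine Subring.list_prod_mem S ?_
  intro a ha
  rw [List.mem_ofFn] at ha
  obtain ⟨i, rfl⟩ := ha
  exact hf _

theorem isUnit_of_not_dvd {B : Type*} [CommRing B] {p : ℕ} (hp : p.Prime) {m : ℕ}
    (hB : (p : B) ^ (m + 1) = 0) {u : ℕ} (hu : ¬ p ∣ u) : IsUnit (u : B) := by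
  have hc : IsCoprime (u : ℤ) ((p : ℤ) ^ (m + 1)) := by
    have : Nat.Coprime u (p ^ (m + 1)) :=
      Nat.Coprime.pow_right _ ((hp.coprime_iff_not_dvd.mpr hu).symm)
    have h2 := Nat.isCoprime_iff_coprime.mpr this
    simpa using h2
  obtain ⟨a, b, hab⟩ := hc
  have h3 : (a : B) * (u : B) + (b : B) * (p : B) ^ (m + 1) = 1 := by
    have := congrArg (fun z : ℤ => (z : B)) hab
    simpa using this
  rw [hB, mul_zero, add_zero] at h3
  exact IsUnit.of_mul_eq_one_right _ h3

theorem lam_pow {A B : Type*} [Ring A] [CommRing B] (lam : A →+ B) (S : Subring A)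
    (h : ∀ x ∈ S, ∀ y ∈ S, lam (x * y) = lam (y * x)) {p : ℕ} (hp : p.Prime) {m : ℕ}
    (hB : (p : B) ^ (m + 1) = 0) {x y : A} (hx : x ∈ S) (hy : y ∈ S) :
    lam ((x + p • y) ^ p ^ m) = lam (x ^ p ^ m) := by
  obtain ⟨k, hk⟩ : ∃ k, p ^ m = k + 1 := Nat.exists_eq_succ_of_ne_zero (pow_pos hp.pos m).ne'
  set T : Finset (Fin (p ^ m)) → B := fun S => lam (wordOf (p ^ m) x y S) with hTdef
  have h1 : lam ((x + p • y) ^ p ^ m) = ∑ S : Finset (Fin (p ^ m)), (p : B) ^ S.card * T S := by
    rw [add_pow_words, map_sum]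
    refine sum_congr rfl fun U _ => ?_
    rw [wordOf_nsmul, map_nsmul, nsmul_eq_mul, Nat.cast_pow]
  have h2 : lam (x ^ p ^ m) = T ∅ := by
    rw [hTdef]
    simp only [wordOf, Finset.piecewise_empty]
    rw [List.ofFn_const, List.prod_replicate]
  have hrot : ∀ U : Finset (Fin (p ^ m)), T (U.map (finRotate (p ^ m)).toEmbedding) = T U := by
    rw [hTdef]
    clear_value T
    rw [hk]
    intro U
    simp only [wordOf]
    have h3 : (U.piecewise (fun _ => y) (fun _ => x) : Fin (k + 1) → A) = fun i =>
        ((U.map (finRotate (k + 1)).toEmbedding).piecewise (fun _ => y) (fun _ => x) :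
          Fin (k + 1) → A) (finRotate (k + 1) i) := by
      funext i
      simp only [Finset.piecewise, mem_map_equiv, Equiv.symm_apply_apply]
    rw [h3]
    refine (lam_word_rotate lam S h k _ ?_).symm
    intro i
    simp only [Finset.piecewise]
    split_ifs
    · exact hy
    · exact hx
  have htr : ∀ i : Fin (p ^ m), ∃ j : ℕ, ((finRotate (p ^ m)) ^ j) ⟨0, pow_pos hp.pos m⟩ = i := by
    intro i
    refine ⟨i, ?_⟩
    have h5 : ∀ (j : ℕ) (hj : j < p ^ m), ((finRotate (p ^ m)) ^ j) ⟨0, pow_pos hp.pos m⟩ = ⟨j, hj⟩ := by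
      intro j
      induction j with
      | zero => intro hj; simp
      | succ j ih =>
          intro hj
          rw [pow_succ', Equiv.Perm.mul_apply, ih (by omega)]
          have h6 : ∀ (N : ℕ) (hN : N = k + 1) (h7 : j < N) (h8 : j + 1 < N),
              finRotate N ⟨j, h7⟩ = ⟨j + 1, h8⟩ := by
            rintro N rfl h7 h8
            exact finRotate_of_lt (by omega)
          exact h6 _ hk _ _
    exact h5 i i.2
  have hcard : Fintype.card (Fin (p ^ m)) = p ^ m := Fintype.card_fin _
  have h0 : (∑ S : Finset (Fin (p ^ m)), (p : B) ^ S.card * T S)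
      = ∑ j ∈ range (Fintype.card (Fin (p ^ m)) + 1),
          (p : B) ^ j * ∑ S ∈ powersetCard j (univ : Finset (Fin (p ^ m))), T S := by
    have h1 := Finset.sum_powerset (univ : Finset (Fin (p ^ m))) (fun S => (p : B) ^ S.card * T S)
    rw [Finset.powerset_univ, card_univ] at h1
    rw [h1]
    refine sum_congr rfl fun j _ => ?_
    rw [mul_sum]
    refine sum_congr rfl fun S hS => ?_
    rw [mem_powersetCard] at hS
    rw [hS.2]
  rw [h1, h2, h0, sum_range_succ']
  have h3 : (p : B) ^ 0 * ∑ S ∈ powersetCard 0 (univ : Finset (Fin (p ^ m))), T S = T ∅ := by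
    simp
  rw [h3]
  convert zero_add _
  refine sum_eq_zero fun j _ => ?_
  have h4 := FQ.mul_sum_card (finRotate (p ^ m)) T hrot _ htr (j + 1)
  rw [hcard, Nat.cast_pow] at h4
  obtain ⟨v, u, hpu, hju⟩ := Nat.exists_eq_pow_mul_and_not_dvd (Nat.succ_ne_zero j) p hp.ne_one
  have hv : v + 1 ≤ j + 1 := by
    have h5 : p ^ v ≤ j + 1 := by
      rw [← Nat.succ_eq_add_one, hju]
      exact Nat.le_mul_of_pos_right _ (Nat.pos_of_ne_zero (by rintro rfl; simp at hpu))
    exact (Nat.lt_pow_self hp.one_lt).trans_le h5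
  obtain ⟨U, hU⟩ := isUnit_of_not_dvd hp hB hpu
  set c := ∑ S ∈ powersetCard (j + 1) (univ : Finset (Fin (p ^ m))), T S with hc
  have h6 : (p : B) ^ v * c = (p : B) ^ m * (((U⁻¹ : Bˣ) : B) *
      ∑ S ∈ (powersetCard (j + 1) (univ : Finset (Fin (p ^ m)))).filter
        (fun S => ⟨0, pow_pos hp.pos m⟩ ∈ S), T S) := by
    have h7 : ((j + 1 : ℕ) : B) = (p : B) ^ v * (u : B) := by
      rw [← Nat.succ_eq_add_one, hju]; push_cast; ring
    rw [h7, ← hU] at h4
    calc (p : B) ^ v * c = ((U⁻¹ : Bˣ) : B) * ((p : B) ^ v * (U : B) * c) := by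
          rw [show ((U⁻¹ : Bˣ) : B) * ((p : B) ^ v * (U : B) * c)
            = (((U⁻¹ : Bˣ) : B) * (U : B)) * ((p : B) ^ v * c) by ring, Units.inv_mul, one_mul]
      _ = _ := by rw [h4]; ring
  obtain ⟨r, hr⟩ := Nat.exists_eq_add_of_le hv
  rw [show j + 1 = r + 1 + v by omega, pow_add, mul_assoc, h6, ← mul_assoc, ← pow_add,
    show r + 1 + m = r + (m + 1) by omega, pow_add, hB, mul_zero, zero_mul]

end Pool.Agent.H71.FQ

end

section

/-!
# Project KM, module Stab: equality in `K₀` is stable equivalence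

`K0 R`, `K0.cls`, `MatEquiv`, `K0.lift`, `K0.cls_fromBlocks`, ... are in
`Pool/Agent/H71/FJ/Defs.lean`, `Pool/Agent/H71/FJ/K0.lean`, `Pool/Agent/H71/FJ/Rank.lean`.

PROOF of `exists_stab`.  Let `Mo` be the quotient of `IdemMat R` by `a ≈ b :↔ MatEquiv a.mat b.mat`
(an equivalence relation: `K0.matEquiv_refl/symm/trans`).  Block sum makes it a commutative
additive monoid (`K0.matEquiv_fromBlocks`, `K0.matEquiv_submatrix`, `finSumFinEquiv`,
`Equiv.sumComm`, `Equiv.sumAssoc`; zero is the `0 × 0` matrix).  Let `Gr` be its Grothendieck group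
(`AddLocalization (⊤ : AddSubmonoid Mo)` or `Algebra.GrothendieckAddGroup Mo`, or any direct
construction).  `K0.lift` gives `K0 R →+ Gr` with `K0.mk a ↦ [a]`.  So if `K0.cls E = K0.cls F`
then `[toFin E] = [toFin F]` in `Gr`, so there is an idempotent matrix `c` (size `k`) with
`E ⊕ c ≈ F ⊕ c`.  Adding `1 - c` on both sides and using `c ⊕ (1 - c) ≈ 1_k`
(take `x = fromRows c (1 - c)`, `y = fromCols c (1 - c)`: `y * x = c + (1 - c) = 1`,
`x * y = fromBlocks c 0 0 (1 - c)`) gives `E ⊕ 1_k ≈ F ⊕ 1_k`.  Alternatively avoid the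
Grothendieck group: define on pairs of idempotent matrices `(a, b) ~ (a', b')` iff
`∃ k, a ⊕ b' ⊕ 1_k ≈ a' ⊕ b ⊕ 1_k`.

PROOF of `exists_sub_one`.  `K0.exists_sub` gives `x = mk a - mk b`; add `[1 - b.mat]` to both:
`x = ([a] + [1 - b]) - ([b] + [1 - b]) = [a ⊕ (1 - b)] - [1_{b.n}]`, and reindex `a ⊕ (1 - b)` to
`Fin (a.n + b.n)` (`K0.matEquiv_submatrix`).
-/

set_option autoImplicit false

open Matrix
open scoped LaurentPolynomial

universe u v w

namespace Pool.Agent.H95.KM

variable {R : Type u} [Ring R]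

theorem one_idem {R : Type u} [Ring R] {n : Type*} [Fintype n] [DecidableEq n] :
    (1 : Matrix n n R) * 1 = 1 := one_mul 1

/-! ### Block sums up to equivalence -/

/-! ### The monoid of equivalence classes of idempotent matrices -/

end Pool.Agent.H95.KM

end
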