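import Mathlib

/-! The parts of this file: H71.FJ.Nil, H71.KP.Skew. -/

section

/-!
# Nilpotent kernels: lifting of idempotent matrices
-/

set_option autoImplicit false

open Matrix

universe u v w

namespace Pool.Agent.H71.FJ

variable {R : Type u} [Ring R] {S : Type v} [Ring S]

/-- A ring homomorphism with nilpotent kernel, witnessed by a filtration. -/
def NilKer (φ : R →+* S) : Prop :=
  ∃ (N : ℕ) (J : ℕ → AddSubgroup R), (∀ x, x ∈ J 0) ∧ (∀ x ∈ J N, x = 0) ∧
    ∀ j x y, φ x = 0 → y ∈ J j → x * y ∈ J (j + 1)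

theorem NilKer.isNilpotent {φ : R →+* S} (h : NilKer φ) {x : R} (hx : φ x = 0) :
    IsNilpotent x := by
  obtain ⟨N, J, h0, hN, hJ⟩ := h
  have key : ∀ j : ℕ, x ^ j ∈ J j := by
    intro j
    induction j with
    | zero => exact h0 _
    | succ j ih =>
      rw [pow_succ']
      exact hJ j x _ hx ih
  exact ⟨N, hN _ (key N)⟩

theorem NilKer.mono {φ : R →+* S} {T : Type w} [Ring T] {ψ : R →+* T} (h : NilKer φ)
    (hle : ∀ x, ψ x = 0 → φ x = 0) : NilKer ψ := by
  obtain ⟨N, J, h0, hN, hJ⟩ := h
  exact ⟨N, J, h0, hN, fun j x y hx hy => hJ j x y (hle x hx) hy⟩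

theorem NilKer.matrix {φ : R →+* S} (h : NilKer φ) (ι : Type*) [Fintype ι] [DecidableEq ι] :
    NilKer (φ.mapMatrix : Matrix ι ι R →+* Matrix ι ι S) := by
  obtain ⟨N, J, h0, hN, hJ⟩ := h
  refine ⟨N, fun j =>
    { carrier := {X | ∀ i k, X i k ∈ J j}
      add_mem' := fun {a b} ha hb i k => (J j).add_mem (ha i k) (hb i k)
      zero_mem' := fun i k => (J j).zero_mem
      neg_mem' := fun {a} ha i k => (J j).neg_mem (ha i k) }, ?_, ?_, ?_⟩
  · intro x i k
    exact h0 _
  · intro x hx
    ext i k
    exact hN _ (hx i k)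
  · intro j x y hx hy i k
    rw [Matrix.mul_apply]
    refine AddSubgroup.sum_mem _ (fun l _ => hJ j _ _ ?_ (hy l k))
    have := congrFun (congrFun hx i) l
    simpa using this

theorem NilKer.monoidAlgebra {φ : R →+* S} (h : NilKer φ) (G : Type*) [Monoid G] :
    NilKer (MonoidAlgebra.mapRingHom G φ) := by
  classical
  obtain ⟨N, J, h0, hN, hJ⟩ := h
  refine ⟨N, fun j =>
    { carrier := {X | ∀ g, X.coeff g ∈ J j}
      add_mem' := fun {a b} ha hb g => by
        rw [MonoidAlgebra.coeff_add]
        exact (J j).add_mem (ha g) (hb g)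
      zero_mem' := fun g => by
        rw [MonoidAlgebra.coeff_zero]
        exact (J j).zero_mem
      neg_mem' := fun {a} ha g => by
        rw [MonoidAlgebra.coeff_neg]
        exact (J j).neg_mem (ha g) }, ?_, ?_, ?_⟩
  · intro x g
    exact h0 _
  · intro x hx
    ext g
    exact hN _ (hx g)
  · intro j x y hx hy g
    rw [MonoidAlgebra.coeff_mul]
    refine AddSubgroup.sum_mem _ (fun a _ => AddSubgroup.sum_mem _ (fun b _ => ?_))
    simp only
    split_ifs
    · refine hJ j _ _ ?_ (hy b)
      have := congrArg (fun z => MonoidAlgebra.coeff z a) hx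
      simpa using this
    · exact (J (j + 1)).zero_mem

/-- Idempotents lift. -/
theorem exists_lift_idem {φ : R →+* S} (hs : Function.Surjective φ) (h : NilKer φ) {ι : Type*}
    [Fintype ι] [DecidableEq ι] (e : Matrix ι ι S) (he : e * e = e) :
    ∃ f : Matrix ι ι R, f * f = f ∧ f.map φ = e := by
  have hsurj : Function.Surjective (φ.mapMatrix : Matrix ι ι R →+* Matrix ι ι S) := by
    intro X
    choose g hg using hs
    exact ⟨X.map g, by ext i j; simp [hg]⟩
  obtain ⟨f, hf1, hf2⟩ := exists_isIdempotentElem_eq_of_ker_isNilpotent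
    (φ.mapMatrix : Matrix ι ι R →+* Matrix ι ι S)
    (fun x hx => (h.matrix ι).isNilpotent (RingHom.mem_ker.1 hx)) e
    (RingHom.mem_range.2 (hsurj e)) he
  exact ⟨f, hf1, hf2⟩

theorem idem_nilpotent {A : Type*} [Ring A] {x : A} (h : x * x = x) (hn : IsNilpotent x) :
    x = 0 := by
  obtain ⟨n, hn⟩ := hn
  have key : ∀ k : ℕ, x ^ (k + 1) = x := by
    intro k
    induction k with
    | zero => simp
    | succ k ih => rw [pow_succ, ih, h]
  rcases n with _ | n
  · rw [pow_zero] at hn
    calc x = x * 1 := (mul_one x).symm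
      _ = 0 := by rw [hn, mul_zero]
  · rw [key] at hn
    exact hn

namespace K0

end K0

end Pool.Agent.H71.FJ

end

section

/-!
# The skew ring and the homomorphism `lam`

Let `C_p` act on a ring `M` and let `κ : M → ℤ_[p]` satisfy `κ (a b) = κ (b α(a))`, `α` the action of
the generator. The skew ring `M * C_p` is realised as a ring of matrices. The homomorphism
`θ(σ) = σ s` to the group ring `(M * C_p)[C_p]` gives the homomorphism
`lam (v) = τ₁ (log (v⁻¹ θ(v)))` on the units of `M * C_p`.
-/

set_option autoImplicit false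
set_option linter.unusedSectionVars false

open Matrix

universe u v

namespace Pool.Agent.H71.KP

section Central

end Central

/-- A ring with an action of `C_p` and a twisted trace. -/
structure TwTr (p : ℕ) [Fact p.Prime] (M : Type u) [Ring M] where
  /-- the action -/
  act : ZMod p → M →+* M
  act_zero : ∀ a, act 0 a = a
  act_add : ∀ i j a, act (i + j) a = act i (act j a)
  /-- the twisted trace -/
  κ : M →+ ℤ_[p]
  tw : ∀ a b, κ (a * b) = κ (b * act 1 a)

namespace TwTr

variable {p : ℕ} [hp : Fact p.Prime] {M : Type u} [Ring M] (t : TwTr p M)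

theorem κ_one (a : M) : t.κ (t.act 1 a) = t.κ a := by
  have := t.tw a 1
  rw [mul_one, one_mul] at this
  exact this.symm

theorem κ_act (i : ZMod p) (a : M) : t.κ (t.act i a) = t.κ a := by
  have h : ∀ n : ℕ, t.κ (t.act (n : ZMod p) a) = t.κ a := by
    intro n
    induction n with
    | zero => rw [Nat.cast_zero, t.act_zero]
    | succ n ih => rw [Nat.cast_succ, add_comm, t.act_add, t.κ_one, ih]
  have := h i.val
  rwa [ZMod.natCast_zmod_val] at this

section Sk

variable {A : Type} [AddCommGroup A] [Fintype A] [DecidableEq A] (π : A →+ ZMod p)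

/-- The skew ring as a ring of matrices. -/
def sk : Subring (Matrix A A M) where
  carrier := {V | ∀ a b l, V (a + l) (b + l) = t.act (π l) (V a b)}
  mul_mem' := by
    intro V W hV hW a b l
    rw [Matrix.mul_apply, Matrix.mul_apply, map_sum,
      ← Equiv.sum_comp (Equiv.addRight l) (fun x => V (a + l) x * W x (b + l))]
    apply Finset.sum_congr rfl
    intro x _
    rw [Equiv.coe_addRight, hV, hW, map_mul]
  add_mem' := by
    intro V W hV hW a b l
    rw [Matrix.add_apply, Matrix.add_apply, hV, hW, map_add]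
  neg_mem' := by
    intro V hV a b l
    rw [Matrix.neg_apply, Matrix.neg_apply, hV, map_neg]
  one_mem' := by
    intro a b l
    rw [Matrix.one_apply, Matrix.one_apply]
    simp only [add_left_inj]
    split_ifs <;> simp
  zero_mem' := by
    intro a b l
    rw [Matrix.zero_apply, Matrix.zero_apply, map_zero]

/-- the trace -/
noncomputable def tr0 (x : A) : t.sk π →+ ℤ_[p] where
  toFun V := t.κ (V.1 0 x)
  map_zero' := by
    change t.κ (0 : M) = 0
    rw [map_zero]
  map_add' V W := by
    change t.κ (V.1 0 x + W.1 0 x) = _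
    rw [map_add]

theorem tr0_comm {x : A} (hx : π x = 1) (V W : t.sk π) :
    t.tr0 π x (V * W) = t.tr0 π x (W * V) := by
  change t.κ ((V.1 * W.1) 0 x) = t.κ ((W.1 * V.1) 0 x)
  rw [Matrix.mul_apply, Matrix.mul_apply, map_sum, map_sum]
  rw [← Equiv.sum_comp (Equiv.subLeft x) (fun y => t.κ (V.1 0 y * W.1 y x))]
  apply Finset.sum_congr rfl
  intro a _
  rw [Equiv.subLeft_apply]
  have h1 : W.1 x (a + x) = t.act 1 (W.1 0 a) := by
    have := W.2 0 a x
    rwa [zero_add, hx] at this
  have h2 : V.1 a x = t.act (π a) (V.1 0 (x - a)) := by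
    have := V.2 0 (x - a) a
    rwa [zero_add, sub_add_cancel] at this
  have h3 : W.1 x (a + x) = t.act (π a) (W.1 (x - a) x) := by
    have := W.2 (x - a) x a
    rwa [sub_add_cancel, add_comm x a] at this
  rw [t.tw (W.1 0 a), ← h1, h2, h3, ← map_mul, t.κ_act]

end Sk

/-- the skew ring -/
abbrev S : Subring (Matrix (ZMod p) (ZMod p) M) := t.sk (AddMonoidHom.id (ZMod p))

/-- the group ring of `C_p` over the skew ring -/
abbrev B : Subring (Matrix (ZMod p × ZMod p) (ZMod p × ZMod p) M) :=
  t.sk (AddMonoidHom.fst (ZMod p) (ZMod p))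

/-- the trace of the skew ring -/
noncomputable def τ : t.S →+ ℤ_[p] := t.tr0 _ 1

/-- the trace of the group ring -/
noncomputable def τ₁ : t.B →+ ℤ_[p] := t.tr0 _ (1, 1)

theorem τ₁_comm (V W : t.B) : t.τ₁ (V * W) = t.τ₁ (W * V) := t.tr0_comm _ rfl V W

/-- the inclusion -/
def ι : t.S →+* t.B where
  toFun V := ⟨Matrix.of fun a b => if b.2 = a.2 then V.1 a.1 b.1 else 0, by
    rintro a b l
    simp only [Matrix.of_apply, Prod.fst_add, Prod.snd_add, add_left_inj]
    split_ifs
    · exact V.2 _ _ _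
    · rw [map_zero]⟩
  map_one' := by
    apply Subtype.ext
    ext a b
    change (if b.2 = a.2 then (1 : Matrix (ZMod p) (ZMod p) M) a.1 b.1 else 0) =
      (1 : Matrix (ZMod p × ZMod p) (ZMod p × ZMod p) M) a b
    rw [Matrix.one_apply, Matrix.one_apply]
    by_cases h : a = b
    · subst h
      simp
    · by_cases h2 : b.2 = a.2
      · have h1 : a.1 ≠ b.1 := fun h1 => h (Prod.ext h1 h2.symm)
        simp [h, h1]
      · simp [h, h2]
  map_zero' := by
    apply Subtype.ext
    ext a b
    change (if b.2 = a.2 then (0 : M) else 0) = 0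
    split_ifs <;> rfl
  map_add' V W := by
    apply Subtype.ext
    ext a b
    change (if b.2 = a.2 then V.1 a.1 b.1 + W.1 a.1 b.1 else 0) =
      (if b.2 = a.2 then V.1 a.1 b.1 else 0) + (if b.2 = a.2 then W.1 a.1 b.1 else 0)
    split_ifs <;> simp
  map_mul' V W := by
    apply Subtype.ext
    ext a b
    change (if b.2 = a.2 then (V.1 * W.1) a.1 b.1 else 0) = ((Matrix.of fun a b =>
      if b.2 = a.2 then V.1 a.1 b.1 else 0) * (Matrix.of fun a b =>
      if b.2 = a.2 then W.1 a.1 b.1 else 0) : Matrix (ZMod p × ZMod p) (ZMod p × ZMod p) M) a b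
    rw [Matrix.mul_apply, Matrix.mul_apply, Fintype.sum_prod_type]
    split_ifs with h
    · apply Finset.sum_congr rfl
      intro x _
      rw [Finset.sum_eq_single a.2]
      · simp [h]
      · intro y _ hy
        simp [hy]
      · intro h1
        exact absurd (Finset.mem_univ _) h1
    · symm
      apply Finset.sum_eq_zero
      intro x _
      apply Finset.sum_eq_zero
      intro y _
      simp only [Matrix.of_apply]
      by_cases h1 : y = a.2
      · subst h1
        simp [h]
      · simp [h1]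

theorem ι_apply (V : t.S) (a b : ZMod p × ZMod p) :
    (t.ι V).1 a b = if b.2 = a.2 then V.1 a.1 b.1 else 0 := rfl

/-- the homomorphism `σ ↦ σ s` -/
def θ : t.S →+* t.B where
  toFun V := ⟨Matrix.of fun a b => if b.2 - a.2 = b.1 - a.1 then V.1 a.1 b.1 else 0, by
    rintro a b l
    simp only [Matrix.of_apply, Prod.fst_add, Prod.snd_add, add_sub_add_right_eq_sub]
    split_ifs
    · exact V.2 _ _ _
    · rw [map_zero]⟩
  map_one' := by
    apply Subtype.ext
    ext a b
    change (if b.2 - a.2 = b.1 - a.1 then (1 : Matrix (ZMod p) (ZMod p) M) a.1 b.1 else 0) =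
      (1 : Matrix (ZMod p × ZMod p) (ZMod p × ZMod p) M) a b
    rw [Matrix.one_apply, Matrix.one_apply]
    by_cases h : a = b
    · subst h
      simp
    · by_cases h1 : a.1 = b.1
      · have h2 : a.2 ≠ b.2 := fun h2 => h (Prod.ext h1 h2)
        have h3 : ¬ (b.2 - a.2 = b.1 - a.1) := by
          rw [h1, sub_self, sub_eq_zero]
          exact fun h4 => h2 h4.symm
        simp [h, h3]
      · simp [h, h1]
  map_zero' := by
    apply Subtype.ext
    ext a b
    change (if b.2 - a.2 = b.1 - a.1 then (0 : M) else 0) = 0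
    split_ifs <;> rfl
  map_add' V W := by
    apply Subtype.ext
    ext a b
    change (if b.2 - a.2 = b.1 - a.1 then V.1 a.1 b.1 + W.1 a.1 b.1 else 0) =
      (if b.2 - a.2 = b.1 - a.1 then V.1 a.1 b.1 else 0) +
      (if b.2 - a.2 = b.1 - a.1 then W.1 a.1 b.1 else 0)
    split_ifs <;> simp
  map_mul' V W := by
    apply Subtype.ext
    ext a b
    change (if b.2 - a.2 = b.1 - a.1 then (V.1 * W.1) a.1 b.1 else 0) = ((Matrix.of fun a b =>
      if b.2 - a.2 = b.1 - a.1 then V.1 a.1 b.1 else 0) * (Matrix.of fun a b =>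
      if b.2 - a.2 = b.1 - a.1 then W.1 a.1 b.1 else 0) :
      Matrix (ZMod p × ZMod p) (ZMod p × ZMod p) M) a b
    rw [Matrix.mul_apply, Matrix.mul_apply, Fintype.sum_prod_type]
    split_ifs with h
    · apply Finset.sum_congr rfl
      intro x _
      rw [Finset.sum_eq_single (a.2 + (x - a.1))]
      · have h1 : b.2 - (a.2 + (x - a.1)) = b.1 - x := by
          linear_combination h
        simp [h1]
      · intro y _ hy
        have h1 : ¬ (y - a.2 = x - a.1) := by
          intro h1
          apply hy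
          rw [← h1]
          ring
        simp [h1]
      · intro h1
        exact absurd (Finset.mem_univ _) h1
    · symm
      apply Finset.sum_eq_zero
      intro x _
      apply Finset.sum_eq_zero
      intro y _
      simp only [Matrix.of_apply]
      by_cases h1 : y - a.2 = x - a.1
      · have h2 : ¬ (b.2 - y = b.1 - x) := by
          intro h2
          apply h
          linear_combination h1 + h2
        simp [h2]
      · simp [h1]

theorem θ_apply (V : t.S) (a b : ZMod p × ZMod p) :
    (t.θ V).1 a b = if b.2 - a.2 = b.1 - a.1 then V.1 a.1 b.1 else 0 := rfl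

theorem τ₁_ι (V : t.S) : t.τ₁ (t.ι V) = 0 := by
  change t.κ ((t.ι V).1 0 (1, 1)) = 0
  rw [ι_apply, if_neg, map_zero]
  exact one_ne_zero

theorem τ₁_θ (V : t.S) : t.τ₁ (t.θ V) = t.τ V := by
  change t.κ ((t.θ V).1 0 (1, 1)) = t.κ (V.1 0 1)
  rw [θ_apply, if_pos]
  · rfl
  · rfl

/-- the central element `s` -/
def s : t.B := ⟨Matrix.of fun a b => if b.1 = a.1 ∧ b.2 = a.2 + 1 then 1 else 0, by
  intro a b l
  simp only [Matrix.of_apply, Prod.fst_add, Prod.snd_add, add_left_inj]
  have : (b.2 + l.2 = a.2 + l.2 + 1) = (b.2 = a.2 + 1) := by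
    rw [add_right_comm, add_left_inj]
  simp only [this]
  split_ifs <;> simp⟩

theorem s_apply (a b : ZMod p × ZMod p) :
    (t.s).1 a b = if b.1 = a.1 ∧ b.2 = a.2 + 1 then 1 else 0 := rfl

theorem s_mul (V : t.B) (a b : ZMod p × ZMod p) : (t.s * V).1 a b = V.1 (a.1, a.2 + 1) b := by
  change ((t.s).1 * V.1) a b = _
  rw [Matrix.mul_apply, Finset.sum_eq_single (a.1, a.2 + 1)]
  · rw [s_apply, if_pos ⟨rfl, rfl⟩, one_mul]
  · intro x _ hx
    rw [s_apply, if_neg, zero_mul]
    rintro ⟨h1, h2⟩
    exact hx (Prod.ext h1 h2)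
  · intro h
    exact absurd (Finset.mem_univ _) h

theorem mul_s (V : t.B) (a b : ZMod p × ZMod p) : (V * t.s).1 a b = V.1 a (b.1, b.2 - 1) := by
  change (V.1 * (t.s).1) a b = _
  rw [Matrix.mul_apply, Finset.sum_eq_single (b.1, b.2 - 1)]
  · rw [s_apply, if_pos ⟨rfl, by ring⟩, mul_one]
  · intro x _ hx
    rw [s_apply, if_neg, mul_zero]
    rintro ⟨h1, h2⟩
    apply hx
    refine Prod.ext h1.symm ?_
    change x.2 = b.2 - 1
    rw [h2]
    ring
  · intro h
    exact absurd (Finset.mem_univ _) h

theorem s_comm (V : t.B) : t.s * V = V * t.s := by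
  apply Subtype.ext
  ext a b
  rw [s_mul, mul_s]
  have h := V.2 a (b.1, b.2 - 1) (0, 1)
  have h1 : (a + (0, 1) : ZMod p × ZMod p) = (a.1, a.2 + 1) := Prod.ext (add_zero _) rfl
  have h2 : ((b.1, b.2 - 1) + (0, 1) : ZMod p × ZMod p) = b :=
    Prod.ext (add_zero _) (sub_add_cancel _ _)
  rw [h1, h2] at h
  rw [h]
  exact t.act_zero _

theorem s_pow (n : ℕ) (a b : ZMod p × ZMod p) :
    (t.s ^ n).1 a b = if b.1 = a.1 ∧ b.2 = a.2 + n then 1 else 0 := by
  induction n generalizing a b with
  | zero =>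
    rw [pow_zero]
    change (1 : Matrix (ZMod p × ZMod p) (ZMod p × ZMod p) M) a b = _
    rw [Matrix.one_apply, Nat.cast_zero, add_zero]
    by_cases h : a = b
    · subst h
      simp
    · rw [if_neg h, if_neg]
      rintro ⟨h1, h2⟩
      exact h (Prod.ext h1.symm h2.symm)
  | succ n ih =>
    rw [pow_succ', s_mul, ih]
    have : a.2 + 1 + (n : ZMod p) = a.2 + ((n + 1 : ℕ) : ZMod p) := by
      push_cast
      ring
    simp only [this]

theorem s_pow_p : t.s ^ p = 1 := by
  apply Subtype.ext
  ext a b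
  rw [s_pow]
  change _ = (1 : Matrix (ZMod p × ZMod p) (ZMod p × ZMod p) M) a b
  rw [Matrix.one_apply, ZMod.natCast_self, add_zero]
  by_cases h : a = b
  · subst h
    simp
  · rw [if_neg h, if_neg]
    rintro ⟨h1, h2⟩
    exact h (Prod.ext h1.symm h2.symm)

/-- the central element `s - 1` -/
def c : t.B := t.s - 1

theorem val_sub_one {m : ZMod p} (hm : m ≠ 0) : (m - 1).val = m.val - 1 := by
  have h1 : (1 : ZMod p).val = 1 := by
    have : Fact (1 < p) := ⟨hp.out.one_lt⟩
    exact ZMod.val_one p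
  have h2 : 0 < m.val := Nat.pos_of_ne_zero (fun h => hm ((ZMod.val_eq_zero m).1 h))
  rw [ZMod.val_sub (by rw [h1]; omega), h1]

theorem val_neg_one' : ((0 : ZMod p) - 1).val = p - 1 := by
  have : (0 : ZMod p) - 1 = ((p - 1 : ℕ) : ZMod p) := by
    rw [Nat.cast_sub hp.out.one_le, ZMod.natCast_self, Nat.cast_one]
  rw [this, ZMod.val_natCast, Nat.mod_eq_of_lt]
  have := hp.out.pos
  omega

theorem ite_aux (x : M) (m n : ZMod p) :
    (if (m - 1).val < n.val then x else 0) - (if m.val < n.val then x else 0) =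
      (if m = n then x else 0) - (if m = 0 then x else 0) := by
  have hn := ZMod.val_lt n
  by_cases hm : m = 0
  · subst hm
    rw [val_neg_one', if_neg (by omega), if_pos (rfl : (0 : ZMod p) = 0), ZMod.val_zero]
    by_cases h : n = 0
    · subst h
      simp
    · have h2 : 0 < n.val := Nat.pos_of_ne_zero (fun h' => h ((ZMod.val_eq_zero n).1 h'))
      rw [if_pos h2, if_neg (fun h' => h h'.symm)]
  · rw [val_sub_one hm, if_neg hm, sub_zero]
    have h2 : 0 < m.val := Nat.pos_of_ne_zero (fun h => hm ((ZMod.val_eq_zero m).1 h))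
    by_cases h : m = n
    · subst h
      rw [if_pos (by omega), if_neg (lt_irrefl _), if_pos rfl, sub_zero]
    · have h3 : m.val ≠ n.val := fun h' => h (ZMod.val_injective p h')
      rw [if_neg h]
      by_cases h4 : m.val < n.val
      · rw [if_pos (by omega), if_pos h4, sub_self]
      · rw [if_neg (by omega), if_neg h4, sub_self]

/-- the quotient of `θ V - ι V` by `c` -/
def quo (V : t.S) : t.B :=
  ⟨Matrix.of fun a b => if (b.2 - a.2).val < (b.1 - a.1).val then V.1 a.1 b.1 else 0, by
    intro a b l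
    simp only [Matrix.of_apply, Prod.fst_add, Prod.snd_add, add_sub_add_right_eq_sub]
    split_ifs
    · exact V.2 _ _ _
    · rw [map_zero]⟩

theorem θ_sub_ι (V : t.S) : t.θ V - t.ι V = t.c * t.quo V := by
  rw [c, sub_mul, one_mul]
  apply Subtype.ext
  ext a b
  change (t.θ V).1 a b - (t.ι V).1 a b = (t.s * t.quo V).1 a b - (t.quo V).1 a b
  rw [s_mul, θ_apply, ι_apply]
  change _ = (if (b.2 - (a.2 + 1)).val < (b.1 - a.1).val then V.1 a.1 b.1 else 0) -
    (if (b.2 - a.2).val < (b.1 - a.1).val then V.1 a.1 b.1 else 0)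
  rw [← sub_sub, ite_aux]
  simp only [sub_eq_zero]

end TwTr

end Pool.Agent.H71.KP

end
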