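import Mathlib

/-! The parts of this file: H71.WH.Skew, H71.WH.Skew2. -/

section

/-!
# The skew ring and the homomorphism `Lam`

Let `s` be an involutive automorphism of a ring `M` and `κ : M → ℤ` with `κ (a b) = κ (b s(a))`. For
a unit `g = 1 + z + s(z)` of `M` the element `v = 1 + z (1 + σ)` of the skew ring `M * C₂` is a unit
and `v⁻¹ θ(v)` is congruent to `1` modulo `2`, where `θ(σ) = - σ`.
-/

set_option autoImplicit false

open Matrix

universe u v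

namespace Pool.Agent.H71.WH

/-- A ring with an involution and a twisted trace. -/
structure TwTr (M : Type u) [Ring M] where
  /-- the involutive automorphism -/
  s : M →+* M
  inv : ∀ a, s (s a) = a
  /-- the twisted trace -/
  κ : M →+ ℤ
  tw : ∀ a b, κ (a * b) = κ (b * s a)

namespace TwTr

variable {M : Type u} [Ring M] (t : TwTr M)

theorem κ_s (a : M) : t.κ (t.s a) = t.κ a := by
  have := t.tw a 1
  rw [mul_one, one_mul] at this
  exact this.symm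

/-- `a + b σ` as a matrix -/
def mkS (a b : M) : Matrix (Fin 2) (Fin 2) M := !![a, b; t.s b, t.s a]

theorem mkS_mul (a b c d : M) :
    t.mkS a b * t.mkS c d = t.mkS (a * c + b * t.s d) (a * d + b * t.s c) := by
  ext i j
  fin_cases i <;> fin_cases j <;>
    simp [mkS, Matrix.mul_apply, Fin.sum_univ_two, t.inv, add_comm]

theorem mkS_add (a b c d : M) : t.mkS a b + t.mkS c d = t.mkS (a + c) (b + d) := by
  ext i j
  fin_cases i <;> fin_cases j <;> simp [mkS]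

theorem mkS_neg (a b : M) : -t.mkS a b = t.mkS (-a) (-b) := by
  ext i j
  fin_cases i <;> fin_cases j <;> simp [mkS]

theorem mkS_one : t.mkS 1 0 = 1 := by
  ext i j
  fin_cases i <;> fin_cases j <;> simp [mkS]

theorem mkS_zero : t.mkS 0 0 = 0 := by
  ext i j
  fin_cases i <;> fin_cases j <;> simp [mkS]

/-- The skew ring `M * C₂` as a ring of matrices. -/
def skew : Subring (Matrix (Fin 2) (Fin 2) M) where
  carrier := {V | ∃ a b, V = t.mkS a b}
  mul_mem' := by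
    rintro _ _ ⟨a, b, rfl⟩ ⟨c, d, rfl⟩
    exact ⟨_, _, t.mkS_mul a b c d⟩
  add_mem' := by
    rintro _ _ ⟨a, b, rfl⟩ ⟨c, d, rfl⟩
    exact ⟨_, _, t.mkS_add a b c d⟩
  neg_mem' := by
    rintro _ ⟨a, b, rfl⟩
    exact ⟨_, _, t.mkS_neg a b⟩
  one_mem' := ⟨1, 0, t.mkS_one.symm⟩
  zero_mem' := ⟨0, 0, t.mkS_zero.symm⟩

/-- The element `a + b σ`. -/
def el (a b : M) : t.skew := ⟨t.mkS a b, a, b, rfl⟩

theorem exists_el (V : t.skew) : ∃ a b, V = t.el a b := by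
  obtain ⟨V, a, b, rfl⟩ := V
  exact ⟨a, b, rfl⟩

theorem el_mul (a b c d : M) :
    t.el a b * t.el c d = t.el (a * c + b * t.s d) (a * d + b * t.s c) :=
  Subtype.ext (t.mkS_mul a b c d)

theorem el_add (a b c d : M) : t.el a b + t.el c d = t.el (a + c) (b + d) :=
  Subtype.ext (t.mkS_add a b c d)

theorem el_neg (a b : M) : -t.el a b = t.el (-a) (-b) := Subtype.ext (t.mkS_neg a b)

theorem el_one : t.el 1 0 = 1 := Subtype.ext t.mkS_one

theorem el_zero : t.el 0 0 = 0 := Subtype.ext t.mkS_zero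

theorem el_sub (a b c d : M) : t.el a b - t.el c d = t.el (a - c) (b - d) := by
  rw [sub_eq_add_neg, el_neg, el_add, ← sub_eq_add_neg, ← sub_eq_add_neg]

/-- the first component -/
def re (V : t.skew) : M := V.1 0 0

/-- the `σ`-component -/
def im (V : t.skew) : M := V.1 0 1

theorem re_el (a b : M) : t.re (t.el a b) = a := by simp [re, el, mkS]

theorem im_el (a b : M) : t.im (t.el a b) = b := by simp [im, el, mkS]

/-- the trace of the skew ring -/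
def τ : t.skew →+ ℤ where
  toFun V := t.κ (t.im V)
  map_zero' := by
    rw [← el_zero, im_el, map_zero]
  map_add' V W := by
    obtain ⟨a, b, rfl⟩ := t.exists_el V
    obtain ⟨c, d, rfl⟩ := t.exists_el W
    rw [el_add, im_el, im_el, im_el, map_add]

theorem τ_el (a b : M) : t.τ (t.el a b) = t.κ b := by
  change t.κ (t.im (t.el a b)) = _
  rw [im_el]

theorem τ_comm (V W : t.skew) : t.τ (V * W) = t.τ (W * V) := by
  obtain ⟨a, b, rfl⟩ := t.exists_el V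
  obtain ⟨c, d, rfl⟩ := t.exists_el W
  rw [el_mul, el_mul, τ_el, τ_el, map_add, map_add, t.tw a d, ← t.tw c b, add_comm]

/-- the automorphism `σ ↦ -σ` -/
def θ : t.skew →+* t.skew where
  toFun V := t.el (t.re V) (-t.im V)
  map_one' := by
    rw [← el_one, re_el, im_el, neg_zero]
  map_zero' := by
    rw [← el_zero, re_el, im_el, neg_zero]
  map_mul' V W := by
    obtain ⟨a, b, rfl⟩ := t.exists_el V
    obtain ⟨c, d, rfl⟩ := t.exists_el W
    rw [el_mul, re_el, im_el, re_el, im_el, re_el, im_el, el_mul]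
    congr 1
    · rw [map_neg]
      noncomm_ring
    · noncomm_ring
  map_add' V W := by
    obtain ⟨a, b, rfl⟩ := t.exists_el V
    obtain ⟨c, d, rfl⟩ := t.exists_el W
    rw [el_add, re_el, im_el, re_el, im_el, re_el, im_el, el_add, neg_add]

theorem θ_el (a b : M) : t.θ (t.el a b) = t.el a (-b) := by
  change t.el (t.re (t.el a b)) (-t.im (t.el a b)) = _
  rw [re_el, im_el]

theorem τ_θ (V : t.skew) : t.τ (t.θ V) = -t.τ V := by
  obtain ⟨a, b, rfl⟩ := t.exists_el V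
  rw [θ_el, τ_el, τ_el, map_neg]

theorem s_self (z : M) : t.s (1 + z + t.s z) = 1 + z + t.s z := by
  rw [map_add, map_add, map_one, t.inv]
  abel

theorem s_inv {g : Mˣ} (h : t.s g = g) : t.s ((g⁻¹ : Mˣ) : M) = (g⁻¹ : Mˣ) := by
  have h1 : t.s ((g⁻¹ : Mˣ) : M) * g = 1 := by
    conv_lhs => rw [← h]
    rw [← map_mul, Units.inv_mul, map_one]
  calc t.s ((g⁻¹ : Mˣ) : M) = t.s ((g⁻¹ : Mˣ) : M) * (g * (g⁻¹ : Mˣ)) := by
        rw [Units.mul_inv, mul_one]
    _ = (g⁻¹ : Mˣ) := by rw [← mul_assoc, h1, one_mul]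

/-- the unit `1 + z (1 + σ)` of the skew ring, for a unit `g = 1 + z + s z` -/
def vU (z : M) (g : Mˣ) (h : (g : M) = 1 + z + t.s z) : t.skewˣ where
  val := t.el (1 + z) z
  inv := t.el (1 - z * (g⁻¹ : Mˣ)) (-(z * (g⁻¹ : Mˣ)))
  val_inv := by
    have hs : t.s ((g⁻¹ : Mˣ) : M) = (g⁻¹ : Mˣ) := t.s_inv (by rw [h]; exact t.s_self z)
    have h1 : (1 + z + t.s z) * ((g⁻¹ : Mˣ) : M) = 1 := by rw [← h, Units.mul_inv]
    rw [el_mul, ← el_one]
    congr 1
    · rw [map_neg, map_mul, hs]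
      calc (1 + z) * (1 - z * ((g⁻¹ : Mˣ) : M)) + z * -(t.s z * ((g⁻¹ : Mˣ) : M))
          = 1 + z - z * ((1 + z + t.s z) * ((g⁻¹ : Mˣ) : M)) := by noncomm_ring
        _ = 1 := by rw [h1]; noncomm_ring
    · rw [map_sub, map_one, map_mul, hs]
      calc (1 + z) * -(z * ((g⁻¹ : Mˣ) : M)) + z * (1 - t.s z * ((g⁻¹ : Mˣ) : M))
          = z - z * ((1 + z + t.s z) * ((g⁻¹ : Mˣ) : M)) := by noncomm_ring
        _ = 0 := by rw [h1]; noncomm_ring
  inv_val := by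
    have hs : t.s ((g⁻¹ : Mˣ) : M) = (g⁻¹ : Mˣ) := t.s_inv (by rw [h]; exact t.s_self z)
    have h1 : ((g⁻¹ : Mˣ) : M) * (1 + z + t.s z) = 1 := by rw [← h, Units.inv_mul]
    rw [el_mul, ← el_one]
    congr 1
    · calc (1 - z * ((g⁻¹ : Mˣ) : M)) * (1 + z) + -(z * ((g⁻¹ : Mˣ) : M)) * t.s z
          = 1 + z - z * (((g⁻¹ : Mˣ) : M) * (1 + z + t.s z)) := by noncomm_ring
        _ = 1 := by rw [h1]; noncomm_ring
    · rw [map_add, map_one]
      calc (1 - z * ((g⁻¹ : Mˣ) : M)) * z + -(z * ((g⁻¹ : Mˣ) : M)) * (1 + t.s z)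
          = z - z * (((g⁻¹ : Mˣ) : M) * (1 + z + t.s z)) := by noncomm_ring
        _ = 0 := by rw [h1]; noncomm_ring

theorem vU_val (z : M) (g : Mˣ) (h : (g : M) = 1 + z + t.s z) :
    (t.vU z g h : t.skew) = t.el (1 + z) z := rfl

theorem vU_mul {z1 z2 : M} {g1 g2 : Mˣ} (h1 : (g1 : M) = 1 + z1 + t.s z1)
    (h2 : (g2 : M) = 1 + z2 + t.s z2)
    (h : ((g1 * g2 : Mˣ) : M) = 1 + (z1 * g2 + z2) + t.s (z1 * g2 + z2)) :
    t.vU z1 g1 h1 * t.vU z2 g2 h2 = t.vU (z1 * g2 + z2) (g1 * g2) h := by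
  apply Units.ext
  rw [Units.val_mul, vU_val, vU_val, vU_val, el_mul, h2]
  congr 1
  · noncomm_ring
  · rw [map_add, map_one]
    noncomm_ring

theorem mul_add_cond {z1 z2 : M} {g1 g2 : Mˣ} (h1 : (g1 : M) = 1 + z1 + t.s z1)
    (h2 : (g2 : M) = 1 + z2 + t.s z2) :
    ((g1 * g2 : Mˣ) : M) = 1 + (z1 * g2 + z2) + t.s (z1 * g2 + z2) := by
  have hs : t.s (g2 : M) = g2 := by rw [h2]; exact t.s_self z2
  rw [map_add, map_mul, hs, Units.val_mul, h1]
  calc (1 + z1 + t.s z1) * (g2 : M) = (g2 : M) + z1 * g2 + t.s z1 * g2 := by noncomm_ring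
    _ = (1 + z2 + t.s z2) + z1 * g2 + t.s z1 * g2 := by rw [← h2]
    _ = _ := by abel

theorem inv_θ (z : M) (g : Mˣ) (h : (g : M) = 1 + z + t.s z) :
    (((t.vU z g h)⁻¹ : t.skewˣ) : t.skew) * t.θ (t.vU z g h) =
      1 + 2 * t.el (z * (g⁻¹ : Mˣ) * t.s z) (-(z * (g⁻¹ : Mˣ) * (1 + t.s z))) := by
  have h1 : ((g⁻¹ : Mˣ) : M) * (1 + z + t.s z) = 1 := by rw [← h, Units.inv_mul]
  have e1 : (((t.vU z g h)⁻¹ : t.skewˣ) : t.skew) =
    t.el (1 - z * (g⁻¹ : Mˣ)) (-(z * (g⁻¹ : Mˣ))) := rfl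
  rw [e1, vU_val, θ_el, el_mul, two_mul, el_add, ← el_one, el_add]
  congr 1
  · rw [map_neg]
    calc (1 - z * ((g⁻¹ : Mˣ) : M)) * (1 + z) + -(z * ((g⁻¹ : Mˣ) : M)) * -t.s z
        = 1 + z - z * (((g⁻¹ : Mˣ) : M) * (1 + z + t.s z)) +
          (z * ((g⁻¹ : Mˣ) : M) * t.s z + z * ((g⁻¹ : Mˣ) : M) * t.s z) := by noncomm_ring
      _ = _ := by rw [h1]; noncomm_ring
  · rw [map_add, map_one]
    calc (1 - z * ((g⁻¹ : Mˣ) : M)) * -z + -(z * ((g⁻¹ : Mˣ) : M)) * (1 + t.s z)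
        = z * (((g⁻¹ : Mˣ) : M) * (1 + z + t.s z)) - z + (-(z * ((g⁻¹ : Mˣ) : M) * (1 + t.s z)) +
          -(z * ((g⁻¹ : Mˣ) : M) * (1 + t.s z))) := by noncomm_ring
      _ = _ := by rw [h1]; noncomm_ring

end TwTr

end Pool.Agent.H71.WH

end

section

/-!
# Independence of the choice of `z`
-/

set_option autoImplicit false

open Matrix

universe u v

namespace Pool.Agent.H71.WH

namespace TwTr

variable {M : Type u} [Ring M] (t : TwTr M)

theorem cond_one {y : M} (hy : y + t.s y = 0) : ((1 : Mˣ) : M) = 1 + y + t.s y := by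
  rw [add_assoc, hy, add_zero, Units.val_one]

theorem pow_cond {y : M} (hy : y + t.s y = 0) (k : ℕ) : (2 ^ k * y) + t.s (2 ^ k * y) = 0 := by
  rw [map_mul, map_pow, map_ofNat, ← mul_add, hy, mul_zero]

theorem κ_eq_zero {y : M} (hy : y + t.s y = 0) : t.κ y = 0 := by
  have h1 := t.κ_s y
  rw [eq_neg_of_add_eq_zero_right hy, map_neg] at h1
  omega

theorem κ_sq_eq_zero {y : M} (hy : y + t.s y = 0) : t.κ (y * y) = 0 := by
  have h1 := t.tw y y
  rw [eq_neg_of_add_eq_zero_right hy, mul_neg, map_neg] at h1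
  omega

theorem norm_half : ‖(-(1 / 2) : ℚ_[2])‖ = 2 := by
  rw [norm_neg, norm_div, norm_one]
  have : ‖(2 : ℚ_[2])‖ = (2 : ℝ)⁻¹ := by
    have := Padic.norm_p (p := 2)
    exact_mod_cast this
  rw [this]
  norm_num

theorem norm_two_pow (k : ℕ) : ‖(2 : ℚ_[2]) ^ k‖ = ((2 : ℝ) ^ k)⁻¹ := by
  have : ‖(2 : ℚ_[2])‖ = (2 : ℝ)⁻¹ := by
    have := Padic.norm_p (p := 2)
    exact_mod_cast this
  rw [norm_pow, this, inv_pow]

/-- units of the form `1 + z + s z` -/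
def Adm (g : Mˣ) : Prop := ∃ z, (g : M) = 1 + z + t.s z

theorem conj_cond {z : M} {g w : Mˣ} (hz : (g : M) = 1 + z + t.s z) (hw : t.s w = w) :
    ((w⁻¹ * g * w : Mˣ) : M) = 1 + ((w⁻¹ : Mˣ) * z * w) + t.s ((w⁻¹ : Mˣ) * z * w) := by
  rw [map_mul, map_mul, t.s_inv hw, hw, Units.val_mul, Units.val_mul, hz]
  have : ((w⁻¹ : Mˣ) : M) * (1 + z + t.s z) * w = (w⁻¹ : Mˣ) * w + (w⁻¹ : Mˣ) * z * w +
    (w⁻¹ : Mˣ) * t.s z * w := by noncomm_ring
  rw [this, Units.inv_mul]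

theorem Adm.conj {g w : Mˣ} (h : t.Adm g) (hw : t.s w = w) : t.Adm (w⁻¹ * g * w) := by
  obtain ⟨z, hz⟩ := h
  exact ⟨_, t.conj_cond hz hw⟩

/-- a unit of `M` as a unit of the skew ring -/
def ofU (w : Mˣ) : t.skewˣ where
  val := t.el w 0
  inv := t.el (w⁻¹ : Mˣ) 0
  val_inv := by rw [el_mul, ← el_one]; simp
  inv_val := by rw [el_mul, ← el_one]; simp

end TwTr

end Pool.Agent.H71.WH

end
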