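import Pool.Agent.H13.TFQ.H95.WH.Defs
import Pool.Agent.H13.TFQ.M01
import Pool.Agent.H13.TFQ.M06
import Pool.Agent.H13.TFQ.M08

/-! The parts of this file: H71.KP.Ten, H71.WH.Skew3, H71.WH.Skew3_1, H71.DO.Defs, H95.WH.ArtKR. -/

section

/-!
# The `p`-th tensor power of an algebra with a trace
-/

set_option autoImplicit false
set_option linter.unusedSectionVars false

open scoped TensorProduct

universe u v

namespace Pool.Agent.H71.KP

variable (p : ℕ) [hp : Fact p.Prime] (A : Type u) [Ring A] [Algebra ℤ_[p] A]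

/-- the `p`-th tensor power -/
abbrev TP : Type u := PiTensorProduct ℤ_[p] (fun _ : ZMod p => A)

variable {A}

/-- pure tensors -/
noncomputable abbrev tp (m : ZMod p → A) : TP p A := PiTensorProduct.tprod ℤ_[p] m

theorem tp_mul (m n : ZMod p → A) : tp p m * tp p n = tp p (fun i => m i * n i) :=
  PiTensorProduct.tprod_mul_tprod m n

/-- the cyclic shift -/
noncomputable def sh (i : ZMod p) : TP p A →ₐ[ℤ_[p]] TP p A :=
  PiTensorProduct.liftAlgHom
    ((PiTensorProduct.tprod ℤ_[p] (s := fun _ : ZMod p => A)).domDomCongr (Equiv.addRight i))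
    rfl (by
      intro x y
      change tp p (fun j => x (j + i) * y (j + i)) =
        tp p (fun j => x (j + i)) * tp p (fun j => y (j + i))
      rw [tp_mul])

theorem sh_tp (i : ZMod p) (m : ZMod p → A) : sh p i (tp p m) = tp p (fun j => m (j + i)) := by
  change PiTensorProduct.lift _ (PiTensorProduct.tprod ℤ_[p] m) = _
  rw [PiTensorProduct.lift.tprod]
  rfl

variable {p} in
theorem tp_induction {P : TP p A → Prop} (h1 : ∀ (r : ℤ_[p]) (m : ZMod p → A), P (r • tp p m))
    (h2 : ∀ x y, P x → P y → P (x + y)) (x : TP p A) : P x :=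
  PiTensorProduct.induction_on x h1 h2

theorem sh_zero (x : TP p A) : sh p 0 x = x := by
  induction x using tp_induction with
  | h1 r m =>
    rw [map_smul, sh_tp]
    simp
  | h2 x y hx hy => rw [map_add, hx, hy]

theorem sh_add (i j : ZMod p) (x : TP p A) : sh p (i + j) x = sh p i (sh p j x) := by
  induction x using tp_induction with
  | h1 r m =>
    rw [map_smul, map_smul, map_smul, sh_tp, sh_tp, sh_tp]
    simp only [add_assoc]
  | h2 x y hx hy => rw [map_add, map_add, map_add, hx, hy]

/-- the bijection of `Fin p` and `ZMod p` -/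
def fz : Fin p ≃ ZMod p where
  toFun i := ((i.val : ℕ) : ZMod p)
  invFun j := ⟨j.val, ZMod.val_lt j⟩
  left_inv i := Fin.ext (by
    change ((i.val : ℕ) : ZMod p).val = i.val
    rw [ZMod.val_natCast, Nat.mod_eq_of_lt i.2])
  right_inv j := ZMod.natCast_zmod_val j

/-- ordered products -/
def oprod (f : ℕ → A) (n : ℕ) : A := (List.ofFn (fun i : Fin n => f i.val)).prod

theorem oprod_zero (f : ℕ → A) : oprod f 0 = 1 := by simp [oprod]

theorem oprod_succ (f : ℕ → A) (n : ℕ) : oprod f (n + 1) = oprod f n * f n := by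
  rw [oprod, List.ofFn_succ_last, List.prod_append, List.prod_singleton, oprod]
  rfl

theorem oprod_pred (f : ℕ → A) {n : ℕ} (hn : 0 < n) :
    oprod f n = oprod f (n - 1) * f (n - 1) := by
  obtain ⟨q, rfl⟩ : ∃ q, n = q + 1 := ⟨n - 1, by omega⟩
  exact oprod_succ f q

theorem oprod_shift (a b : ℕ → A) (n : ℕ) :
    oprod (fun i => a i * b i) n * a n = a 0 * oprod (fun i => b i * a (i + 1)) n := by
  induction n with
  | zero => rw [oprod_zero, oprod_zero, one_mul, mul_one]
  | succ n ih =>
    rw [oprod_succ, oprod_succ, ← mul_assoc, ih]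
    simp only [mul_assoc]

theorem oprod_const (a : A) (n : ℕ) : oprod (fun _ => a) n = a ^ n := by
  induction n with
  | zero => rw [oprod_zero, pow_zero]
  | succ n ih => rw [oprod_succ, ih, pow_succ]

/-- the functional `a₀ ⊗ ... ⊗ a_{p-1} ↦ τ (a₀ ... a_{p-1})` -/
noncomputable def kap (τ : A →ₗ[ℤ_[p]] ℤ_[p]) : TP p A →ₗ[ℤ_[p]] ℤ_[p] :=
  PiTensorProduct.lift (τ.compMultilinearMap
    ((MultilinearMap.mkPiAlgebraFin ℤ_[p] p A).domDomCongr (fz p)))

theorem kap_tp (τ : A →ₗ[ℤ_[p]] ℤ_[p]) (m : ZMod p → A) :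
    kap p τ (tp p m) = τ (oprod (fun n => m n) p) := by
  rw [kap, PiTensorProduct.lift.tprod]
  rfl

theorem kap_tw (τ : A →ₗ[ℤ_[p]] ℤ_[p]) (hτ : ∀ a b, τ (a * b) = τ (b * a)) (x y : TP p A) :
    kap p τ (x * y) = kap p τ (y * sh p 1 x) := by
  induction x using tp_induction with
  | h1 r m =>
    induction y using tp_induction with
    | h1 s n =>
      rw [map_smul, smul_mul_assoc, smul_mul_assoc, mul_smul_comm, mul_smul_comm, map_smul,
        map_smul, map_smul, map_smul, sh_tp, tp_mul, tp_mul, kap_tp, kap_tp,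
        smul_comm r s]
      congr 2
      have e1 := oprod_shift (fun i => m (i : ZMod p)) (fun i => n (i : ZMod p)) (p - 1)
      have e2 : oprod (fun i => m (i : ZMod p) * n (i : ZMod p)) p =
          m 0 * (oprod (fun i => n (i : ZMod p) * m ((i + 1 : ℕ) : ZMod p)) (p - 1) *
            n ((p - 1 : ℕ) : ZMod p)) := by
        rw [oprod_pred _ hp.out.pos, ← mul_assoc, e1]
        simp only [Nat.cast_zero, mul_assoc]
      have e3 : oprod (fun i => n (i : ZMod p) * m ((i : ZMod p) + 1)) p =
          oprod (fun i => n (i : ZMod p) * m ((i + 1 : ℕ) : ZMod p)) (p - 1) *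
            n ((p - 1 : ℕ) : ZMod p) * m 0 := by
        rw [oprod_pred _ hp.out.pos]
        have : (((p - 1 : ℕ) : ZMod p) + 1) = 0 := by
          have h : ((p - 1 + 1 : ℕ) : ZMod p) = 0 := by
            rw [Nat.sub_add_cancel hp.out.pos]; exact ZMod.natCast_self p
          rwa [Nat.cast_succ] at h
        rw [this, mul_assoc]
        simp only [Nat.cast_succ]
      rw [e2, e3, hτ]
    | h2 y y' hy hy' => rw [mul_add, map_add, hy, hy', add_mul, map_add]
  | h2 x x' hx hx' => rw [add_mul, map_add, hx, hx', map_add, mul_add, map_add]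

/-- The structure on the tensor power. -/
noncomputable def tG (τ : A →ₗ[ℤ_[p]] ℤ_[p]) (hτ : ∀ a b, τ (a * b) = τ (b * a)) :
    TwTr p (TP p A) where
  act i := (sh p i).toRingHom
  act_zero := sh_zero p
  act_add := sh_add p
  κ := (kap p τ).toAddMonoidHom
  tw := kap_tw p τ hτ

theorem tG_act (τ : A →ₗ[ℤ_[p]] ℤ_[p]) (hτ : ∀ a b, τ (a * b) = τ (b * a)) (i : ZMod p)
    (x : TP p A) : (tG p τ hτ).act i x = sh p i x := rfl

/-- `a ↦ a ⊗ ... ⊗ a` -/
noncomputable def TT (a : A) : TP p A := tp p (fun _ => a)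

theorem TT_mul (a b : A) : TT p (a * b) = TT p a * TT p b := (tp_mul p _ _).symm

theorem TT_one : TT p (1 : A) = 1 := rfl

theorem sh_TT (i : ZMod p) (a : A) : sh p i (TT p a) = TT p a := sh_tp p i _

theorem TT_smul (r : ℤ_[p]) (a : A) : TT p (r • a) = r ^ p • TT p a := by
  have h := (PiTensorProduct.tprod ℤ_[p] (s := fun _ : ZMod p => A)).map_smul_univ
    (fun _ => r) (fun _ => a)
  rw [Finset.prod_const, Finset.card_univ, ZMod.card] at h
  exact h

/-- `TT` on units -/
noncomputable def TU : Aˣ →* (TP p A)ˣ where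
  toFun u :=
    { val := TT p (u : A)
      inv := TT p ((u⁻¹ : Aˣ) : A)
      val_inv := by rw [← TT_mul, Units.mul_inv, TT_one]
      inv_val := by rw [← TT_mul, Units.inv_mul, TT_one] }
  map_one' := Units.ext (TT_one p)
  map_mul' u w := Units.ext (TT_mul p _ _)

theorem TU_val (u : Aˣ) : (TU p u : TP p A) = TT p (u : A) := rfl

end Pool.Agent.H71.KP

end

section

/-!
# Naturality and values of `Lam`
-/

set_option autoImplicit false

open Matrix

universe u v

namespace Pool.Agent.H71.WH

theorem nonUnital_pow {R : Type u} {S : Type v} [Ring R] [Ring S] (J : R →ₙ+* S) (x : R) (k : ℕ) :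
    J x ^ (k + 1) = J (x ^ (k + 1)) := by
  induction k with
  | zero => simp
  | succ k ih => rw [pow_succ, ih, pow_succ x (k + 1), map_mul]

theorem tl_nonUnital {R : Type u} {S : Type v} [Ring R] [Ring S] (J : R →ₙ+* S) (τ : R →+ ℤ)
    (τ' : S →+ ℤ) (h : ∀ x, τ' (J x) = τ x) (x : R) : tl τ' (J x) = tl τ x := by
  apply tl_congr
  intro k
  rw [nonUnital_pow, h]

namespace TwTr

end TwTr

end Pool.Agent.H71.WH

end

section

/-!
# Naturality and values of `Lam`
-/

set_option autoImplicit false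

open Matrix

universe u v

namespace Pool.Agent.H71.WH

namespace TwTr

variable {M : Type u} [Ring M] (t : TwTr M) {M' : Type v} [Ring M'] (t' : TwTr M')

/-- the extension of a morphism to the skew rings -/
def skewMap (j : M →ₙ+* M') (hs : ∀ x, j (t.s x) = t'.s (j x)) : t.skew →ₙ+* t'.skew where
  toFun V := t'.el (j (t.re V)) (j (t.im V))
  map_mul' V W := by
    obtain ⟨a, b, rfl⟩ := t.exists_el V
    obtain ⟨c, d, rfl⟩ := t.exists_el W
    rw [el_mul, re_el, im_el, re_el, im_el, re_el, im_el, el_mul]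
    simp only [map_add, map_mul, hs]
  map_zero' := by
    rw [← el_zero, re_el, im_el, map_zero, el_zero]
  map_add' V W := by
    obtain ⟨a, b, rfl⟩ := t.exists_el V
    obtain ⟨c, d, rfl⟩ := t.exists_el W
    rw [el_add, re_el, im_el, re_el, im_el, re_el, im_el, el_add, map_add, map_add]

theorem skewMap_el (j : M →ₙ+* M') (hs : ∀ x, j (t.s x) = t'.s (j x)) (a b : M) :
    t.skewMap t' j hs (t.el a b) = t'.el (j a) (j b) := by
  change t'.el (j (t.re (t.el a b))) (j (t.im (t.el a b))) = _
  rw [re_el, im_el]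

end TwTr

end Pool.Agent.H71.WH

end

section

/-!
# The assembly map in degree one for the family of finite subgroups

For a commutative ring `R` and a group `G`, `Wh R G` is the quotient of `K₁(R[G])` by the classes of
`-1` and of the elements of `G`. For a family `𝓕` of subgroups of `G`, `ColimWh R G 𝓕` is the
colimit of the groups `Wh(R; F)` over the subgroups `F` in `𝓕`, the morphisms `F → F'` being the
restrictions of the conjugations `x ↦ g x g⁻¹` with `g F g⁻¹ ⊆ F'`, and `assembly R G 𝓕` is the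
natural map from it to `Wh R G`.
-/

set_option autoImplicit false

open Matrix

universe u v w

namespace Pool.Agent.H71.DO

open Pool.Agent.H95.WH (K1 K1.mk K1.unit K1.map K1.map_unit K1.map_map K1_map_conj FamSub conjHom)

section Wh

variable (R : Type u) [CommRing R]

/-- The element `g` of the group as a unit of the group ring. -/
noncomputable def grpUnit (G : Type v) [Group G] : G →* (MonoidAlgebra R G)ˣ :=
  (Units.map (MonoidAlgebra.of R G)).comp toUnits.toMonoidHom

/-- The subgroup of `K₁(R[G])` generated by the classes of `-1` and of the elements of `G`. -/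
noncomputable def WhRel (G : Type v) [Group G] : AddSubgroup (K1 (MonoidAlgebra R G)) :=
  AddSubgroup.closure ({K1.unit (-1)} ∪ Set.range fun g : G => K1.unit (grpUnit R G g))

/-- The quotient of `K₁(R[G])` by the classes of `-1` and of the elements of `G`. -/
def Wh (G : Type v) [Group G] : Type (max u v) := K1 (MonoidAlgebra R G) ⧸ WhRel R G

noncomputable instance instWh (G : Type v) [Group G] : AddCommGroup (Wh R G) :=
  QuotientAddGroup.Quotient.addCommGroup (WhRel R G)

variable {G : Type v} [Group G] {H : Type v} [Group H] {L : Type v} [Group L]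

/-- The homomorphism `K₁(R[G]) → K₁(R[H])` induced by a group homomorphism `G → H`. -/
noncomputable def ind (φ : G →* H) : K1 (MonoidAlgebra R G) →+ K1 (MonoidAlgebra R H) :=
  K1.map (MonoidAlgebra.mapDomainRingHom R φ)

theorem ind_grpUnit (φ : G →* H) (g : G) :
    ind R φ (K1.unit (grpUnit R G g)) = K1.unit (grpUnit R H (φ g)) := by
  rw [ind, K1.map_unit]
  congr 1
  apply Units.ext
  change MonoidAlgebra.mapDomain φ (MonoidAlgebra.single g 1) = MonoidAlgebra.single (φ g) 1
  rw [MonoidAlgebra.mapDomain_single]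

theorem ind_neg_one (φ : G →* H) : ind R φ (K1.unit (-1)) = K1.unit (-1) := by
  rw [ind, K1.map_unit]
  congr 1
  apply Units.ext
  change (MonoidAlgebra.mapDomainRingHom R φ) (-1) = -1
  rw [map_neg, map_one]

/-- The homomorphism `Wh(R; G) → Wh(R; H)` induced by a group homomorphism `G → H`. -/
noncomputable def Wh.map (φ : G →* H) : Wh R G →+ Wh R H :=
  QuotientAddGroup.lift (WhRel R G) ((QuotientAddGroup.mk' (WhRel R H)).comp (ind R φ)) (by
    rw [WhRel, AddSubgroup.closure_le]
    rintro z (hz | ⟨g, rfl⟩)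
    · change QuotientAddGroup.mk' (WhRel R H) (ind R φ z) = 0
      rw [Set.mem_singleton_iff] at hz
      rw [hz, ind_neg_one]
      exact (QuotientAddGroup.eq_zero_iff _).2
        (AddSubgroup.subset_closure (Or.inl (Set.mem_singleton _)))
    · change QuotientAddGroup.mk' (WhRel R H) (ind R φ (K1.unit (grpUnit R G g))) = 0
      rw [ind_grpUnit]
      exact (QuotientAddGroup.eq_zero_iff _).2
        (AddSubgroup.subset_closure (Or.inr ⟨φ g, rfl⟩)))

/-- The projection `K₁(R[G]) → Wh(R; G)`. -/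
noncomputable def Wh.mk (G : Type v) [Group G] : K1 (MonoidAlgebra R G) →+ Wh R G :=
  QuotientAddGroup.mk' (WhRel R G)

theorem Wh.map_mk (φ : G →* H) (x : K1 (MonoidAlgebra R G)) :
    Wh.map R φ (Wh.mk R G x) = Wh.mk R H (ind R φ x) := rfl

theorem Wh.mk_surjective : Function.Surjective (Wh.mk R G) := QuotientAddGroup.mk_surjective

end Wh

section Assembly

variable (R : Type u) [CommRing R] (G : Type v) [Group G] (𝓕 : Subgroup G → Prop)

/-- `⨁_F Wh(R; F)` over the subgroups `F` in the family `𝓕`. -/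
abbrev SumWh : Type (max u v) := DirectSum (FamSub G 𝓕) (fun F => Wh R F.1)

/-- The inclusion of the summand of `F`. -/
noncomputable def inc (F : FamSub G 𝓕) : Wh R F.1 →+ SumWh R G 𝓕 :=
  open scoped Classical in DirectSum.of (fun F : FamSub G 𝓕 => Wh R F.1) F

/-- The relation `c_g(x) - x` of the colimit. -/
noncomputable def rel (F F' : FamSub G 𝓕) (g : G) (h : ∀ x ∈ F.1, g * x * g⁻¹ ∈ F'.1)
    (x : Wh R F.1) : SumWh R G 𝓕 :=
  inc R G 𝓕 F' (Wh.map R (conjHom g F.1 F'.1 h) x) - inc R G 𝓕 F x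

/-- The relations of the colimit: `c_g(x) = x` for `x ∈ Wh(R; F)`, `g F g⁻¹ ⊆ F'`. -/
noncomputable def colimRel : AddSubgroup (SumWh R G 𝓕) :=
  AddSubgroup.closure {z | ∃ F F' g h x, z = rel R G 𝓕 F F' g h x}

/-- The colimit of `Wh(R; F)` over the subgroups `F` in the family `𝓕`. -/
def ColimWh : Type (max u v) := SumWh R G 𝓕 ⧸ colimRel R G 𝓕

noncomputable instance instColimWh : AddCommGroup (ColimWh R G 𝓕) :=
  QuotientAddGroup.Quotient.addCommGroup (colimRel R G 𝓕)

/-- The assembly map on the direct sum, given by the inclusions `F → G`. -/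
noncomputable def assemblySum : SumWh R G 𝓕 →+ Wh R G :=
  open scoped Classical in
  DirectSum.toAddMonoid fun F : FamSub G 𝓕 => Wh.map R F.1.subtype

theorem assemblySum_inc (F : FamSub G 𝓕) (x : Wh R F.1) :
    assemblySum R G 𝓕 (inc R G 𝓕 F x) = Wh.map R F.1.subtype x := by
  classical
  rw [assemblySum, inc, DirectSum.toAddMonoid_of]

end Assembly

theorem single_inv' (R : Type u) [CommRing R] {G : Type v} [Group G] (g : G) :
    (MonoidAlgebra.single g (1 : R)) * MonoidAlgebra.single g⁻¹ 1 = 1 := by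
  rw [MonoidAlgebra.single_mul_single, mul_inv_cancel, one_mul]
  rfl

theorem single_inv (R : Type u) [CommRing R] {G : Type v} [Group G] (g : G) :
    (MonoidAlgebra.single g⁻¹ (1 : R)) * MonoidAlgebra.single g 1 = 1 := by
  rw [MonoidAlgebra.single_mul_single, inv_mul_cancel, one_mul]
  rfl

theorem ind_conj (R : Type u) [CommRing R] {G : Type v} [Group G] (g : G) (F F' : Subgroup G)
    (h : ∀ x ∈ F, g * x * g⁻¹ ∈ F') (x : K1 (MonoidAlgebra R F)) :
    ind R F'.subtype (ind R (conjHom g F F' h) x) = ind R F.subtype x := by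
  rw [ind, ind, ind, K1.map_map]
  apply K1_map_conj _ _ (MonoidAlgebra.single g 1) (MonoidAlgebra.single g⁻¹ 1)
    (single_inv' R g) (single_inv R g)
  intro r
  induction r using MonoidAlgebra.induction_linear with
  | zero => simp
  | add a b ha hb => rw [map_add, ha, hb, map_add, mul_add, add_mul]
  | single s t =>
    change MonoidAlgebra.mapDomain F'.subtype (MonoidAlgebra.mapDomain (conjHom g F F' h)
      (MonoidAlgebra.single s t)) = MonoidAlgebra.single g 1 *
        MonoidAlgebra.mapDomain F.subtype (MonoidAlgebra.single s t) *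
        MonoidAlgebra.single g⁻¹ 1
    rw [MonoidAlgebra.mapDomain_single, MonoidAlgebra.mapDomain_single,
      MonoidAlgebra.mapDomain_single, MonoidAlgebra.single_mul_single,
      MonoidAlgebra.single_mul_single, one_mul, mul_one]
    rfl

section Assembly2

variable (R : Type u) [CommRing R] (G : Type v) [Group G] (𝓕 : Subgroup G → Prop)

theorem colimRel_le : colimRel R G 𝓕 ≤ (assemblySum R G 𝓕).ker := by
  rw [colimRel, AddSubgroup.closure_le]
  rintro z ⟨F, F', g, h, x, rfl⟩
  change assemblySum R G 𝓕 _ = 0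
  rw [rel, map_sub, assemblySum_inc, assemblySum_inc]
  obtain ⟨x, rfl⟩ := Wh.mk_surjective R x
  rw [Wh.map_mk, Wh.map_mk, Wh.map_mk, ind_conj, sub_self]

/-- The assembly map for the family `𝓕`. -/
noncomputable def assembly : ColimWh R G 𝓕 →+ Wh R G :=
  QuotientAddGroup.lift (colimRel R G 𝓕) (assemblySum R G 𝓕) (colimRel_le R G 𝓕)

/-- The class in the colimit of an element of `Wh(R; F)`. -/
noncomputable def cl (F : FamSub G 𝓕) : Wh R F.1 →+ ColimWh R G 𝓕 :=
  (QuotientAddGroup.mk' (colimRel R G 𝓕)).comp (inc R G 𝓕 F)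

theorem assembly_cl (F : FamSub G 𝓕) (x : Wh R F.1) :
    assembly R G 𝓕 (cl R G 𝓕 F x) = Wh.map R F.1.subtype x := by
  change assemblySum R G 𝓕 (inc R G 𝓕 F x) = _
  rw [assemblySum_inc]

theorem cl_conj (F F' : FamSub G 𝓕) (g : G) (h : ∀ x ∈ F.1, g * x * g⁻¹ ∈ F'.1)
    (x : Wh R F.1) :
    cl R G 𝓕 F' (Wh.map R (conjHom g F.1 F'.1 h) x) = cl R G 𝓕 F x := by
  have h1 : rel R G 𝓕 F F' g h x ∈ colimRel R G 𝓕 :=
    AddSubgroup.subset_closure ⟨F, F', g, h, x, rfl⟩
  have h2 : QuotientAddGroup.mk' (colimRel R G 𝓕) (rel R G 𝓕 F F' g h x) = 0 :=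
    (QuotientAddGroup.eq_zero_iff _).2 h1
  rw [rel, map_sub, sub_eq_zero] at h2
  exact h2

end Assembly2

end Pool.Agent.H71.DO

end

section

/-!
# Artin induction for `K₁(R[F]) ⊗ ℚ`

`R` is a commutative ring such that `R/nR` is finite for all `n ≥ 1`.
-/

set_option autoImplicit false

open Matrix
open scoped Classical

universe u v w

namespace Pool.Agent.H95.WH

variable (R : Type u) [CommRing R] (F : Type v) [Group F]

/-- The power condition. -/
def PowMod (A : Type w) [Ring A] : Prop :=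
  ∀ n : ℕ, n ≠ 0 → ∀ (k : ℕ) (U : (Matrix (Fin k) (Fin k) A)ˣ),
    ∃ (m : ℕ) (Z : Matrix (Fin k) (Fin k) A), 0 < m ∧
      ((U ^ m : (Matrix (Fin k) (Fin k) A)ˣ) : Matrix (Fin k) (Fin k) A) = 1 + (n : ℤ) • Z

private theorem artR_div (n : ℕ) (r : MonoidAlgebra R F)
    (h : MonoidAlgebra.mapRingHom F (Ideal.Quotient.mk (Ideal.span {(n : R)})) r = 0) :
    ∃ z : MonoidAlgebra R F, r = (n : ℤ) • z := by
  have h0 : ∀ t : R, ∃ z : R, Ideal.Quotient.mk (Ideal.span {(n : R)}) t = 0 → t = (n : R) * z := by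
    intro t
    by_cases ht : Ideal.Quotient.mk (Ideal.span {(n : R)}) t = 0
    · rw [Ideal.Quotient.eq_zero_iff_mem, Ideal.mem_span_singleton] at ht
      obtain ⟨z, hz⟩ := ht
      exact ⟨z, fun _ => hz⟩
    · exact ⟨0, fun h => absurd h ht⟩
  choose f hf using h0
  let g : R → R := fun t => if t = 0 then 0 else f t
  refine ⟨MonoidAlgebra.ofCoeff (r.coeff.mapRange g (by simp [g])), ?_⟩
  ext x
  have h1 : (MonoidAlgebra.mapRingHom F (Ideal.Quotient.mk (Ideal.span {(n : R)})) r).coeff x = 0 := by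
    rw [h]
    rfl
  rw [MonoidAlgebra.coeff_mapRingHom] at h1
  change r.coeff x = (n : ℤ) • (g (r.coeff x))
  by_cases h2 : r.coeff x = 0
  · simp [h2, g]
  · simp only [g, if_neg h2, natCast_zsmul, nsmul_eq_mul]
    exact hf _ h1

theorem powMod_of_finite [Finite F] (hR : ∀ n : ℕ, n ≠ 0 → Finite (R ⧸ Ideal.span {(n : R)})) :
    PowMod (MonoidAlgebra R F) := by
  intro n hn k U
  have hfin := hR n hn
  let f := MonoidAlgebra.mapRingHom F (Ideal.Quotient.mk (Ideal.span {(n : R)}))
  have h1 : Finite (MonoidAlgebra (R ⧸ Ideal.span {(n : R)}) F) :=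
    Finite.of_injective (fun x : MonoidAlgebra (R ⧸ Ideal.span {(n : R)}) F =>
      (⇑x.coeff : F → R ⧸ Ideal.span {(n : R)}))
      (DFunLike.coe_injective.comp MonoidAlgebra.coeff_injective)
  have h2 : Finite (Matrix (Fin k) (Fin k) (MonoidAlgebra (R ⧸ Ideal.span {(n : R)}) F)) :=
    inferInstanceAs (Finite (Fin k → Fin k → MonoidAlgebra (R ⧸ Ideal.span {(n : R)}) F))
  let u := K1.mapU f U
  have hm : 0 < orderOf u := orderOf_pos u
  have hu : u ^ orderOf u = 1 := pow_orderOf_eq_one u
  have hu2 : K1.mapU f (U ^ orderOf u) = 1 := by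
    rw [map_pow]
    exact hu
  have hu3 : ((U ^ orderOf u : (Matrix (Fin k) (Fin k) (MonoidAlgebra R F))ˣ) :
      Matrix (Fin k) (Fin k) (MonoidAlgebra R F)).map f = 1 := congrArg Units.val hu2
  have hu4 : ∀ i j, ∃ z : MonoidAlgebra R F,
      (((U ^ orderOf u : (Matrix (Fin k) (Fin k) (MonoidAlgebra R F))ˣ) :
      Matrix (Fin k) (Fin k) (MonoidAlgebra R F)) - 1) i j = (n : ℤ) • z := by
    intro i j
    apply artR_div
    change f _ = 0
    have e := congrFun (congrFun hu3 i) j
    rw [Matrix.map_apply] at e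
    rw [Matrix.sub_apply, map_sub, e, Matrix.one_apply, Matrix.one_apply]
    split_ifs
    · rw [map_one, sub_self]
    · rw [map_zero, sub_zero]
  choose Z hZ using hu4
  refine ⟨orderOf u, Matrix.of Z, hm, ?_⟩
  rw [← sub_eq_iff_eq_add']
  refine Matrix.ext fun i j => ?_
  exact hZ i j

end Pool.Agent.H95.WH

end
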