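import Pool.Agent.H13.TFQ.H95.WH.Defs
import Pool.Agent.H13.TFQ.M07

/-! The parts of this file: H95.WH.K1B, H71.DB.Bass. -/

section

/-!
# Basic facts on `K₁`

`K1.cls U` is the class of an invertible matrix `U` indexed by any finite type.

## Paper proofs

`cls_reindex`: two enumerations of the index type differ by a permutation `σ` of `Fin n`; the two
matrices are conjugate by a permutation matrix `P`, and `mk (P U P⁻¹) = mk U` by `mk_mul`.
`cls_stab`: `cls (fromBlocks U 0 0 1) = cls U` by induction on the number of elements of the second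
index type (`mk_stab`, `cls_reindex`).
`cls_unip`: `fromBlocks 1 X 0 1` has class `0`: after adding a third block `κ` (`cls_stab`) it is the
commutator of `e₁₃(X)` and `e₃₂(1)`.
`cls_upper`: `fromBlocks U B 0 W = fromBlocks U 0 0 1 * fromBlocks 1 0 0 W * fromBlocks 1 (U⁻¹ B) 0 1`
and `fromBlocks 1 0 0 W` is a reindexing of `fromBlocks W 0 0 1`. `cls_lower` likewise (or by
reindexing along `Sum.swap`).
`cls_vas` (Vaserstein): `fromBlocks (1+ab) a 0 1 * fromBlocks 1 0 (-b) 1 = fromBlocks 1 a (-b) 1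
= fromBlocks 1 0 (-b) 1 * fromBlocks 1 a 0 (1+ba)`.
`cls_conj`: `U = 1 + P ((U' - 1) Q)`, `U' = 1 + ((U' - 1) Q) P` and `cls_vas` (here `U = P U' Q`,
`P Q = 1`, `Q P = 1`).
`exists_mk`: the set of the elements `mk U` is closed under addition (blocks) and negation
(inverses), contains `0`, and generates.
-/

set_option autoImplicit false

open Matrix

universe u v

namespace Pool.Agent.H95.WH

variable {R : Type u} [Ring R] {S : Type v} [Ring S]
  {ι κ : Type*} [Fintype ι] [DecidableEq ι] [Fintype κ] [DecidableEq κ]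

/-- Reindexing of invertible matrices. -/
def reU (e : ι ≃ κ) : (Matrix ι ι R)ˣ →* (Matrix κ κ R)ˣ where
  toFun U :=
    { val := U.val.submatrix e.symm e.symm
      inv := U.inv.submatrix e.symm e.symm
      val_inv := by rw [Matrix.submatrix_mul_equiv, U.val_inv, Matrix.submatrix_one_equiv]
      inv_val := by rw [Matrix.submatrix_mul_equiv, U.inv_val, Matrix.submatrix_one_equiv] }
  map_one' := by
    apply Units.ext
    exact Matrix.submatrix_one_equiv e.symm
  map_mul' U V := by
    apply Units.ext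
    exact (Matrix.submatrix_mul_equiv _ _ _ _ _).symm

theorem reU_val (e : ι ≃ κ) (U : (Matrix ι ι R)ˣ) :
    (reU e U : Matrix κ κ R) = (U : Matrix ι ι R).submatrix e.symm e.symm := rfl

/-- The block diagonal matrix `diag(U, W)`. -/
private def diagU (U : (Matrix ι ι R)ˣ) (W : (Matrix κ κ R)ˣ) :
    (Matrix (ι ⊕ κ) (ι ⊕ κ) R)ˣ where
  val := Matrix.fromBlocks U.val 0 0 W.val
  inv := Matrix.fromBlocks U.inv 0 0 W.inv
  val_inv := by
    rw [Matrix.fromBlocks_multiply]
    simp only [add_zero, zero_add, Matrix.mul_zero, Matrix.zero_mul,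
      U.val_inv, W.val_inv, Matrix.fromBlocks_one]
  inv_val := by
    rw [Matrix.fromBlocks_multiply]
    simp only [add_zero, zero_add, Matrix.mul_zero, Matrix.zero_mul,
      U.inv_val, W.inv_val, Matrix.fromBlocks_one]

private theorem diagU_val (U : (Matrix ι ι R)ˣ) (W : (Matrix κ κ R)ˣ) :
    (diagU U W).val = Matrix.fromBlocks U.val 0 0 W.val := rfl

private theorem diagU_mul (U U' : (Matrix ι ι R)ˣ) (W W' : (Matrix κ κ R)ˣ) :
    diagU (U * U') (W * W') = diagU U W * diagU U' W' := by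
  apply Units.ext
  rw [Units.val_mul, diagU_val, diagU_val, diagU_val, Matrix.fromBlocks_multiply]
  simp only [Units.val_mul, Matrix.mul_zero, Matrix.zero_mul, add_zero, zero_add]

/-- The unipotent matrix `(1 X; 0 1)`. -/
private def unipU (X : Matrix ι κ R) : (Matrix (ι ⊕ κ) (ι ⊕ κ) R)ˣ where
  val := Matrix.fromBlocks 1 X 0 1
  inv := Matrix.fromBlocks 1 (-X) 0 1
  val_inv := by
    rw [Matrix.fromBlocks_multiply]
    simp only [Matrix.mul_zero, Matrix.zero_mul, Matrix.mul_one, Matrix.one_mul, add_zero,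
      zero_add, neg_add_cancel, Matrix.fromBlocks_one]
  inv_val := by
    rw [Matrix.fromBlocks_multiply]
    simp only [Matrix.mul_zero, Matrix.zero_mul, Matrix.mul_one, Matrix.one_mul, add_zero,
      zero_add, add_neg_cancel, Matrix.fromBlocks_one]

private theorem unipU_val (X : Matrix ι κ R) :
    (unipU X).val = Matrix.fromBlocks 1 X 0 1 := rfl

/-- The unipotent matrix `(1 0; X 1)`. -/
private def unilU (X : Matrix κ ι R) : (Matrix (ι ⊕ κ) (ι ⊕ κ) R)ˣ where
  val := Matrix.fromBlocks 1 0 X 1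
  inv := Matrix.fromBlocks 1 0 (-X) 1
  val_inv := by
    rw [Matrix.fromBlocks_multiply]
    simp only [Matrix.mul_zero, Matrix.zero_mul, Matrix.mul_one, Matrix.one_mul, add_zero,
      zero_add, add_neg_cancel, Matrix.fromBlocks_one]
  inv_val := by
    rw [Matrix.fromBlocks_multiply]
    simp only [Matrix.mul_zero, Matrix.zero_mul, Matrix.mul_one, Matrix.one_mul, add_zero,
      zero_add, neg_add_cancel, Matrix.fromBlocks_one]

private theorem unilU_val (X : Matrix κ ι R) :
    (unilU X).val = Matrix.fromBlocks 1 0 X 1 := rfl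

/-- A permutation matrix. -/
private def permU {n : ℕ} (σ : Fin n ≃ Fin n) : (Matrix (Fin n) (Fin n) R)ˣ where
  val := (1 : Matrix (Fin n) (Fin n) R).submatrix σ.symm id
  inv := (1 : Matrix (Fin n) (Fin n) R).submatrix id σ.symm
  val_inv := by
    rw [← Matrix.submatrix_mul _ _ _ id _ Function.bijective_id, Matrix.one_mul,
      Matrix.submatrix_one_equiv]
  inv_val := by
    rw [← Matrix.submatrix_mul _ _ _ _ _ σ.symm.bijective, Matrix.one_mul,
      Matrix.submatrix_id_id]

private theorem mk_perm {n : ℕ} (σ : Fin n ≃ Fin n) (U : (Matrix (Fin n) (Fin n) R)ˣ) :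
    K1.mk (reU σ U) = K1.mk U := by
  have h1 : reU σ U = permU σ * U * (permU σ)⁻¹ := by
    apply Units.ext
    change U.val.submatrix σ.symm σ.symm =
      (1 : Matrix (Fin n) (Fin n) R).submatrix σ.symm id * U.val *
        (1 : Matrix (Fin n) (Fin n) R).submatrix id σ.symm
    have h2 : (1 : Matrix (Fin n) (Fin n) R).submatrix σ.symm id * U.val =
        U.val.submatrix σ.symm id := by
      have h3 := Matrix.submatrix_mul (1 : Matrix (Fin n) (Fin n) R) U.val σ.symm id id
        Function.bijective_id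
      rw [Matrix.one_mul, Matrix.submatrix_id_id] at h3
      exact h3.symm
    have h4 : U.val.submatrix σ.symm id * (1 : Matrix (Fin n) (Fin n) R).submatrix id σ.symm =
        U.val.submatrix σ.symm σ.symm := by
      have h3 := Matrix.submatrix_mul U.val (1 : Matrix (Fin n) (Fin n) R) σ.symm id σ.symm
        Function.bijective_id
      rw [Matrix.mul_one] at h3
      exact h3.symm
    rw [h2, h4]
  have h2 : K1.mk (permU σ : (Matrix (Fin n) (Fin n) R)ˣ) +
      K1.mk (permU σ : (Matrix (Fin n) (Fin n) R)ˣ)⁻¹ = 0 := by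
    rw [← K1.mk_mul, mul_inv_cancel]
    have h3 : (K1.mk (1 : (Matrix (Fin n) (Fin n) R)ˣ)) =
        K1.mk (1 : (Matrix (Fin n) (Fin n) R)ˣ) + K1.mk (1 : (Matrix (Fin n) (Fin n) R)ˣ) := by
      rw [← K1.mk_mul, one_mul]
    exact left_eq_add.1 h3
  rw [h1, K1.mk_mul, K1.mk_mul, add_right_comm, h2, zero_add]

private theorem mk_equiv {m n : ℕ} (e : Fin m ≃ Fin n) (U : (Matrix (Fin m) (Fin m) R)ˣ) :
    K1.mk (reU e U) = K1.mk U := by
  obtain rfl : m = n := by simpa using Fintype.card_congr e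
  exact mk_perm e U

private theorem reU_trans {μ : Type*} [Fintype μ] [DecidableEq μ] (e : ι ≃ κ) (f : κ ≃ μ)
    (U : (Matrix ι ι R)ˣ) : reU (e.trans f) U = reU f (reU e U) := by
  apply Units.ext
  rfl

private theorem reU_trans_symm_aux (e : ι ≃ κ) (U : (Matrix κ κ R)ˣ) :
    reU e (reU e.symm U) = U := by
  apply Units.ext
  rw [reU_val, reU_val]
  ext i j
  simp

private theorem reU_diagU {ι' κ' : Type*} [Fintype ι'] [DecidableEq ι'] [Fintype κ']
    [DecidableEq κ'] (e : ι ≃ ι') (f : κ ≃ κ') (U : (Matrix ι ι R)ˣ) (W : (Matrix κ κ R)ˣ) :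
    reU (Equiv.sumCongr e f) (diagU U W) = diagU (reU e U) (reU f W) := by
  apply Units.ext
  rw [reU_val, diagU_val, diagU_val]
  ext i j
  rcases i with i | i <;> rcases j with j | j <;> rfl

private theorem reU_assoc {μ : Type*} [Fintype μ] [DecidableEq μ] (U : (Matrix ι ι R)ˣ)
    (V : (Matrix κ κ R)ˣ) (W : (Matrix μ μ R)ˣ) :
    reU (Equiv.sumAssoc ι κ μ) (diagU (diagU U V) W) = diagU U (diagU V W) := by
  apply Units.ext
  rw [reU_val, diagU_val, diagU_val]
  ext i j
  rcases i with i | i | i <;> rcases j with j | j | j <;> rfl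

private theorem reU_comm (U : (Matrix ι ι R)ˣ) (V : (Matrix κ κ R)ˣ) :
    reU (Equiv.sumComm ι κ) (diagU U V) = diagU V U := by
  apply Units.ext
  rw [reU_val, diagU_val, diagU_val]
  ext i j
  rcases i with i | i <;> rcases j with j | j <;> rfl

private theorem diagU_one_one : diagU (1 : (Matrix ι ι R)ˣ) (1 : (Matrix κ κ R)ˣ) = 1 := by
  apply Units.ext
  exact Matrix.fromBlocks_one

namespace K1

/-- The class of an invertible matrix. -/
noncomputable def cls (U : (Matrix ι ι R)ˣ) : K1 R := mk (reU (Fintype.equivFin ι) U)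

theorem cls_mk {n : ℕ} (U : (Matrix (Fin n) (Fin n) R)ˣ) : cls U = mk U := by
  rw [cls]
  exact mk_equiv _ U

theorem cls_mul (U V : (Matrix ι ι R)ˣ) : cls (U * V) = cls U + cls V := by
  rw [cls, map_mul, mk_mul]
  rfl

theorem cls_one : cls (1 : (Matrix ι ι R)ˣ) = 0 := by
  have h := cls_mul (1 : (Matrix ι ι R)ˣ) 1
  rw [one_mul] at h
  exact left_eq_add.1 h

theorem cls_inv (U : (Matrix ι ι R)ˣ) : cls U⁻¹ = - cls U := by
  have h := cls_mul U⁻¹ U
  rw [inv_mul_cancel, cls_one] at h
  exact eq_neg_of_add_eq_zero_left h.symm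

theorem cls_pow (U : (Matrix ι ι R)ˣ) (m : ℕ) : cls (U ^ m) = m • cls U := by
  induction m with
  | zero => rw [pow_zero, cls_one, zero_smul]
  | succ m ih => rw [pow_succ, cls_mul, ih, succ_nsmul]

theorem cls_reindex (e : ι ≃ κ) (U : (Matrix ι ι R)ˣ) : cls (reU e U) = cls U := by
  have h : (Fintype.equivFin ι).trans (((Fintype.equivFin ι).symm.trans e).trans
      (Fintype.equivFin κ)) = e.trans (Fintype.equivFin κ) := by
    apply Equiv.ext
    intro i
    simp
  rw [cls, cls, ← mk_equiv (((Fintype.equivFin ι).symm.trans e).trans (Fintype.equivFin κ))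
    (reU (Fintype.equivFin ι) U), ← reU_trans, ← reU_trans, h]

private theorem cls_diagU_fin_one (U : (Matrix ι ι R)ˣ) :
    cls (diagU U (1 : (Matrix (Fin 1) (Fin 1) R)ˣ)) = cls U := by
  have h1 : cls U = mk (stab (reU (Fintype.equivFin ι) U)) := by
    rw [mk_stab, cls]
  have h2 : stab (reU (Fintype.equivFin ι) U) =
      reU ((Equiv.sumCongr (Fintype.equivFin ι) (Equiv.refl (Fin 1))).trans finSumFinEquiv)
        (diagU U (1 : (Matrix (Fin 1) (Fin 1) R)ˣ)) := by
    rw [reU_trans, reU_diagU]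
    apply Units.ext
    rfl
  rw [h1, h2, ← cls_mk, cls_reindex]

private theorem cls_diagU_fin (U : (Matrix ι ι R)ˣ) (k : ℕ) :
    cls (diagU U (1 : (Matrix (Fin k) (Fin k) R)ˣ)) = cls U := by
  induction k with
  | zero =>
    have h : diagU U (1 : (Matrix (Fin 0) (Fin 0) R)ˣ) =
        reU (Equiv.sumEmpty ι (Fin 0)).symm U := by
      apply Units.ext
      rw [reU_val, diagU_val]
      ext i j
      rcases i with i | i
      · rcases j with j | j
        · rfl
        · exact j.elim0
      · exact i.elim0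
    rw [h, cls_reindex]
  | succ k ih =>
    have h : diagU U (1 : (Matrix (Fin (k + 1)) (Fin (k + 1)) R)ˣ) =
        reU ((Equiv.sumAssoc ι (Fin k) (Fin 1)).trans
          (Equiv.sumCongr (Equiv.refl ι) finSumFinEquiv))
          (diagU (diagU U (1 : (Matrix (Fin k) (Fin k) R)ˣ))
            (1 : (Matrix (Fin 1) (Fin 1) R)ˣ)) := by
      rw [reU_trans, reU_assoc, diagU_one_one, reU_diagU, map_one]
      rfl
    rw [h, cls_reindex, cls_diagU_fin_one, ih]

private theorem cls_diagU_one (U : (Matrix ι ι R)ˣ) :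
    cls (diagU U (1 : (Matrix κ κ R)ˣ)) = cls U := by
  have h : reU (Equiv.sumCongr (Equiv.refl ι) (Fintype.equivFin κ))
      (diagU U (1 : (Matrix κ κ R)ˣ)) =
      diagU U (1 : (Matrix (Fin (Fintype.card κ)) (Fin (Fintype.card κ)) R)ˣ) := by
    rw [reU_diagU, map_one]
    rfl
  rw [← cls_reindex (Equiv.sumCongr (Equiv.refl ι) (Fintype.equivFin κ)), h, cls_diagU_fin]

private theorem cls_diagU (U : (Matrix ι ι R)ˣ) (W : (Matrix κ κ R)ˣ) :
    cls (diagU U W) = cls U + cls W := by
  have h : diagU U W = diagU U 1 * diagU 1 W := by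
    rw [← diagU_mul, mul_one, one_mul]
  rw [h, cls_mul, cls_diagU_one, ← reU_comm W 1, cls_reindex, cls_diagU_one]

private theorem cls_com {μ : Type*} [Fintype μ] [DecidableEq μ] (C : Matrix μ κ R)
    (D : Matrix κ μ R) (hDC : D * C = 0) (W : (Matrix μ μ R)ˣ) (hW : W.val = 1 + C * D) :
    cls W = 0 := by
  have h : diagU W (1 : (Matrix κ κ R)ˣ) =
      unipU C * unilU D * (unipU C)⁻¹ * (unilU D)⁻¹ := by
    rw [eq_mul_inv_iff_mul_eq, eq_mul_inv_iff_mul_eq]
    apply Units.ext
    rw [Units.val_mul, Units.val_mul, Units.val_mul, diagU_val, unilU_val, unipU_val,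
      Matrix.fromBlocks_multiply, Matrix.fromBlocks_multiply, Matrix.fromBlocks_multiply, hW]
    simp only [Units.val_one, Matrix.mul_zero, Matrix.zero_mul, Matrix.mul_one, Matrix.one_mul,
      add_zero, zero_add, Matrix.add_mul, Matrix.mul_assoc, hDC]
  rw [← cls_diagU_one (κ := κ) W, h, cls_mul, cls_mul, cls_mul, cls_inv, cls_inv]
  abel

theorem cls_stab (U : (Matrix ι ι R)ˣ) (V : (Matrix (ι ⊕ κ) (ι ⊕ κ) R)ˣ)
    (hV : V.val = Matrix.fromBlocks U.val 0 0 1) : cls V = cls U := by
  have h : V = diagU U (1 : (Matrix κ κ R)ˣ) := Units.ext hV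
  rw [h, cls_diagU_one]

theorem cls_unip (X : Matrix ι κ R) (V : (Matrix (ι ⊕ κ) (ι ⊕ κ) R)ˣ)
    (hV : V.val = Matrix.fromBlocks 1 X 0 1) : cls V = 0 := by
  refine cls_com (Matrix.fromRows X (0 : Matrix κ κ R)) (Matrix.fromCols (0 : Matrix κ ι R) 1)
    ?_ V ?_
  · rw [Matrix.fromCols_mul_fromRows, Matrix.zero_mul, Matrix.mul_zero, add_zero]
  · rw [hV, Matrix.fromRows_mul_fromCols, ← Matrix.fromBlocks_one, Matrix.fromBlocks_add]
    simp only [Matrix.mul_zero, Matrix.mul_one, add_zero, zero_add]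

theorem cls_upper (U : (Matrix ι ι R)ˣ) (W : (Matrix κ κ R)ˣ) (B : Matrix ι κ R)
    (V : (Matrix (ι ⊕ κ) (ι ⊕ κ) R)ˣ) (hV : V.val = Matrix.fromBlocks U.val B 0 W.val) :
    cls V = cls U + cls W := by
  have h : V = diagU U W * unipU ((U⁻¹).val * B) := by
    apply Units.ext
    rw [Units.val_mul, hV, diagU_val, unipU_val, Matrix.fromBlocks_multiply]
    simp only [Matrix.mul_zero, Matrix.zero_mul, Matrix.mul_one, add_zero, zero_add]
    rw [← Matrix.mul_assoc, Units.mul_inv, Matrix.one_mul]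
  rw [h, cls_mul, cls_diagU, cls_unip _ _ (unipU_val _), add_zero]

theorem cls_lower (U : (Matrix ι ι R)ˣ) (W : (Matrix κ κ R)ˣ) (B : Matrix κ ι R)
    (V : (Matrix (ι ⊕ κ) (ι ⊕ κ) R)ˣ) (hV : V.val = Matrix.fromBlocks U.val 0 B W.val) :
    cls V = cls U + cls W := by
  rw [← cls_reindex (Equiv.sumComm ι κ) V, add_comm]
  refine cls_upper W U B _ ?_
  rw [reU_val, hV]
  ext i j
  rcases i with i | i <;> rcases j with j | j <;> rfl

/-- Vaserstein's identity. -/
theorem cls_vas (a : Matrix ι κ R) (b : Matrix κ ι R) (U : (Matrix ι ι R)ˣ)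
    (V : (Matrix κ κ R)ˣ) (hU : U.val = 1 + a * b) (hV : V.val = 1 + b * a) :
    cls U = cls V := by
  have h1 : diagU U (1 : (Matrix κ κ R)ˣ) * unipU ((U⁻¹).val * a) * unilU (-b) =
      unilU (-b) * (diagU (1 : (Matrix ι ι R)ˣ) V * unipU a) := by
    apply Units.ext
    simp only [Units.val_mul, diagU_val, unipU_val, unilU_val, Matrix.fromBlocks_multiply,
      Units.val_one, Matrix.mul_zero, Matrix.zero_mul, Matrix.mul_one, Matrix.one_mul, add_zero,
      zero_add, hV, Matrix.mul_neg, Matrix.neg_mul]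
    rw [← Matrix.mul_assoc U.val, Units.mul_inv, Matrix.one_mul, hU, add_neg_cancel_right,
      ← add_assoc, neg_add_cancel_comm]
  have h2 := congrArg cls h1
  have h3 : cls (unipU ((U⁻¹).val * a)) = 0 := cls_unip _ _ (unipU_val _)
  have h4 : cls (unipU a) = 0 := cls_unip _ _ (unipU_val _)
  have h5 : cls (unilU (-b)) = 0 := by
    have h6 := cls_lower (1 : (Matrix ι ι R)ˣ) (1 : (Matrix κ κ R)ˣ) (-b) (unilU (-b))
      (unilU_val _)
    rw [h6, cls_one, cls_one, add_zero]
  rw [cls_mul, cls_mul, cls_mul, cls_mul, cls_diagU, cls_diagU, cls_one, cls_one, h3, h4, h5] at h2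
  simpa using h2

theorem cls_conj (P : Matrix ι κ R) (Q : Matrix κ ι R) (hPQ : P * Q = 1) (hQP : Q * P = 1)
    (U : (Matrix ι ι R)ˣ) (V : (Matrix κ κ R)ˣ) (h : U.val = P * V.val * Q) :
    cls U = cls V := by
  refine cls_vas P ((V.val - 1) * Q) U V ?_ ?_
  · rw [h, Matrix.sub_mul, Matrix.mul_sub, Matrix.one_mul, hPQ, ← Matrix.mul_assoc]
    abel
  · rw [Matrix.mul_assoc, hQP, Matrix.mul_one]
    abel

theorem map_cls (f : R →+* S) (U : (Matrix ι ι R)ˣ) : map f (cls U) = cls (mapU f U) := by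
  rw [cls, map_mk, cls]
  rfl

/-- The elementary matrix `1 + x E_{ij}`, `i ≠ j`, has class zero. -/
theorem cls_transvection {i j : ι} (hij : i ≠ j) (x : R) (U : (Matrix ι ι R)ˣ)
    (hU : U.val = 1 + Matrix.single i j x) : cls U = 0 := by
  refine cls_com (κ := Fin 1) (Matrix.single i 0 x) (Matrix.single 0 j 1) ?_ U ?_
  · exact Matrix.single_mul_single_of_ne _ _ _ _ hij.symm _
  · rw [Matrix.single_mul_single_same, mul_one, hU]

/-- The class of a diagonal matrix. -/
theorem cls_diagonal (d : ι → Rˣ) (U : (Matrix ι ι R)ˣ)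
    (hU : U.val = Matrix.diagonal fun i => (d i : R)) : cls U = ∑ i, unit (d i) := by
  have key : ∀ (n : ℕ) (d : Fin n → Rˣ) (U : (Matrix (Fin n) (Fin n) R)ˣ)
      (_ : U.val = Matrix.diagonal fun i => (d i : R)), cls U = ∑ i, unit (d i) := by
    intro n
    induction n with
    | zero =>
      intro d U _
      have h : U = 1 := Units.ext (Subsingleton.elim _ _)
      rw [h, cls_one, Finset.univ_eq_empty, Finset.sum_empty]
    | succ n ih =>
      intro d U hU
      let U1 : (Matrix (Fin n) (Fin n) R)ˣ :=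
        { val := Matrix.diagonal fun i => (d i.castSucc : R)
          inv := Matrix.diagonal fun i => ((d i.castSucc)⁻¹ : Rˣ)
          val_inv := by
            rw [Matrix.diagonal_mul_diagonal, ← Matrix.diagonal_one]
            congr 1
            funext i
            exact Units.mul_inv _
          inv_val := by
            rw [Matrix.diagonal_mul_diagonal, ← Matrix.diagonal_one]
            congr 1
            funext i
            exact Units.inv_mul _ }
      let W : (Matrix (Fin 1) (Fin 1) R)ˣ :=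
        Units.map (Matrix.scalar (Fin 1)).toMonoidHom (d (Fin.last n))
      have h1 : reU (finSumFinEquiv (m := n) (n := 1)) (diagU U1 W) = U := by
        rw [← reU_trans_symm_aux (finSumFinEquiv (m := n) (n := 1)) U]
        congr 1
        apply Units.ext
        rw [diagU_val, reU_val, hU]
        ext i j
        rcases i with i | i
        · rcases j with j | j
          · change Matrix.diagonal (fun i => (d i.castSucc : R)) i j =
              Matrix.diagonal (fun i => (d i : R)) i.castSucc j.castSucc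
            rw [Matrix.diagonal_apply, Matrix.diagonal_apply]
            simp only [Fin.castSucc_inj]
          · change (0 : R) = Matrix.diagonal (fun i => (d i : R)) i.castSucc (Fin.natAdd n j)
            rw [Matrix.diagonal_apply_ne]
            intro h
            have := congrArg Fin.val h
            simp at this
            omega
        · rcases j with j | j
          · change (0 : R) = Matrix.diagonal (fun i => (d i : R)) (Fin.natAdd n i) j.castSucc
            rw [Matrix.diagonal_apply_ne]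
            intro h
            have := congrArg Fin.val h
            simp at this
            omega
          · change Matrix.diagonal (fun _ => (d (Fin.last n) : R)) i j =
              Matrix.diagonal (fun i => (d i : R)) (Fin.natAdd n i) (Fin.natAdd n j)
            obtain rfl : i = 0 := Subsingleton.elim _ _
            obtain rfl : j = 0 := Subsingleton.elim _ _
            rw [Matrix.diagonal_apply_eq, Matrix.diagonal_apply_eq]
            rfl
      rw [← h1, cls_reindex, cls_diagU, Fin.sum_univ_castSucc, ih _ U1 rfl, cls_mk]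
      rfl
  rw [← cls_reindex (Fintype.equivFin ι) U,
    key _ (fun i => d ((Fintype.equivFin ι).symm i)) _ ?_]
  · exact Equiv.sum_comp (Fintype.equivFin ι).symm fun i => unit (d i)
  · rw [reU_val, hU]
    ext i j
    rw [Matrix.submatrix_apply, Matrix.diagonal_apply, Matrix.diagonal_apply]
    simp only [EmbeddingLike.apply_eq_iff_eq]

theorem exists_mk (x : K1 R) : ∃ (n : ℕ) (U : (Matrix (Fin n) (Fin n) R)ˣ), x = mk U := by
  obtain ⟨y, rfl⟩ := QuotientAddGroup.mk'_surjective (K1Rel R) x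
  induction y using FreeAbelianGroup.induction_on with
  | zero =>
    refine ⟨0, 1, ?_⟩
    rw [← cls_mk, cls_one, map_zero]
    rfl
  | of z => exact ⟨z.1, z.2, rfl⟩
  | neg z ih =>
    obtain ⟨n, U, hU⟩ := ih
    refine ⟨n, U⁻¹, ?_⟩
    rw [← cls_mk, cls_inv, cls_mk, ← hU, map_neg]
    rfl
  | add y z ihy ihz =>
    obtain ⟨n, U, hU⟩ := ihy
    obtain ⟨m, V, hV⟩ := ihz
    refine ⟨_, reU (Fintype.equivFin _) (diagU U V), ?_⟩
    change _ = cls (diagU U V)
    rw [cls_diagU, cls_mk, cls_mk, ← hU, ← hV, map_add]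
    rfl

end K1

end Pool.Agent.H95.WH

end

section

/-!
# The product `K₀(B) → K₁(A)` with a unit of `A` commuting with the image of `B`

For a ring homomorphism `φ : B → A` and a unit `z` of `A` which commutes with the image of `φ` the
class `[e]` of an idempotent matrix `e` is sent to the class of `1 + φ(e) (z - 1)`.
-/

set_option autoImplicit false

open Matrix

universe u v w

namespace Pool.Agent.H71.DB

open Pool.Agent.H71.FJ (MatEquiv IdemMat K0 K0.mk K0.lift K0.lift_mk K0.hom_ext K0.map)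
open Pool.Agent.H95.WH (K1 K1.mk K1.cls K1.cls_mk K1.cls_mul K1.cls_vas K1.cls_upper K1.cls_reindex K1.cls_conj K1.map K1.map_mk K1.map_cls)

section

variable {A : Type u} [Ring A] {B : Type v} [Ring B]

/-- The matrix `1 + φ(e) (w - 1)`. -/
def bmat (φ : B →+* A) {ι : Type*} [DecidableEq ι] (e : Matrix ι ι B) (w : A) :
    Matrix ι ι A := 1 + e.map fun b => φ b * (w - 1)

theorem map_mul_map (φ : B →+* A) {ι κ μ : Type*} [Fintype κ]
    (X : Matrix ι κ B) (Y : Matrix κ μ B) (s t : A) (hs : ∀ b, φ b * s = s * φ b) :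
    (X.map fun b => φ b * s) * (Y.map fun b => φ b * t) =
      (X * Y).map fun b => φ b * (s * t) := by
  refine Matrix.ext fun i j => ?_
  rw [Matrix.mul_apply, Matrix.map_apply, Matrix.mul_apply, map_sum, Finset.sum_mul]
  refine Finset.sum_congr rfl fun k _ => ?_
  rw [Matrix.map_apply, Matrix.map_apply, map_mul]
  calc φ (X i k) * s * (φ (Y k j) * t) = φ (X i k) * (s * φ (Y k j)) * t := by
        simp only [mul_assoc]
    _ = _ := by
      rw [← hs]
      simp only [mul_assoc]

theorem comm_sub_one {φ : B →+* A} {w : A} (hw : ∀ b, φ b * w = w * φ b) (b : B) :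
    φ b * (w - 1) = (w - 1) * φ b := by
  rw [mul_sub, sub_mul, hw, mul_one, one_mul]

theorem comm_inv {φ : B →+* A} {z : Aˣ} (hz : ∀ b, φ b * z = z * φ b) (b : B) :
    φ b * ((z⁻¹ : Aˣ) : A) = ((z⁻¹ : Aˣ) : A) * φ b := by
  have h := congrArg (fun a => ((z⁻¹ : Aˣ) : A) * a * ((z⁻¹ : Aˣ) : A)) (hz b)
  beta_reduce at h
  rw [← mul_assoc, mul_assoc _ (z : A), Units.mul_inv, mul_one, ← mul_assoc, Units.inv_mul,
    one_mul] at h
  exact h.symm

theorem bmat_mul (φ : B →+* A) {ι : Type*} [Fintype ι] [DecidableEq ι] (e : Matrix ι ι B)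
    (he : e * e = e) (w w' : A) (hw : ∀ b, φ b * w = w * φ b) :
    bmat φ e w * bmat φ e w' = bmat φ e (w * w') := by
  rw [bmat, bmat, bmat, add_mul, mul_add, mul_add, one_mul, mul_one, one_mul,
    map_mul_map φ e e (w - 1) (w' - 1) (comm_sub_one hw), he]
  refine Matrix.ext fun i j => ?_
  simp only [Matrix.add_apply, Matrix.map_apply]
  have e1 : φ (e i j) * (w * w' - 1) = φ (e i j) * (w' - 1) + (φ (e i j) * (w - 1) +
      φ (e i j) * ((w - 1) * (w' - 1))) := by
    rw [← mul_add, ← mul_add]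
    congr 1
    noncomm_ring
  rw [e1, add_assoc]

theorem bmat_one (φ : B →+* A) {ι : Type*} [DecidableEq ι] (e : Matrix ι ι B) :
    bmat φ e 1 = 1 := by
  refine Matrix.ext fun i j => ?_
  simp [bmat]

/-- The invertible matrix `1 + φ(e) (z - 1)`. -/
def bU (φ : B →+* A) {ι : Type*} [Fintype ι] [DecidableEq ι] (e : Matrix ι ι B)
    (he : e * e = e) (z : Aˣ) (hz : ∀ b, φ b * z = z * φ b) : (Matrix ι ι A)ˣ where
  val := bmat φ e z
  inv := bmat φ e ((z⁻¹ : Aˣ) : A)
  val_inv := by rw [bmat_mul φ e he _ _ hz, Units.mul_inv, bmat_one]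
  inv_val := by rw [bmat_mul φ e he _ _ (comm_inv hz), Units.inv_mul, bmat_one]

theorem bU_congr (φ : B →+* A) (z : Aˣ) (hz : ∀ b, φ b * z = z * φ b) {ι κ : Type*} [Fintype ι]
    [DecidableEq ι] [Fintype κ] [DecidableEq κ] {e : Matrix ι ι B} {f : Matrix κ κ B}
    (he : e * e = e) (hf : f * f = f) (h : MatEquiv e f) :
    K1.cls (bU φ e he z hz) = K1.cls (bU φ f hf z hz) := by
  obtain ⟨x, y, h1, h2⟩ := h
  apply K1.cls_vas (x.map fun b => φ b * ((z : A) - 1)) (y.map fun b => φ b * 1)
  · rw [map_mul_map φ x y _ _ (comm_sub_one hz), h1, mul_one]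
    rfl
  · rw [map_mul_map φ y x _ _ (fun b => by rw [mul_one, one_mul]), h2, one_mul]
    rfl

theorem bU_sum (φ : B →+* A) (z : Aˣ) (hz : ∀ b, φ b * z = z * φ b) (a b : IdemMat B) :
    K1.cls (bU φ (a.sum b).mat (a.sum b).idem z hz) =
      K1.cls (bU φ a.mat a.idem z hz) + K1.cls (bU φ b.mat b.idem z hz) := by
  have h1 : K1.cls (bU φ (Matrix.fromBlocks a.mat 0 0 b.mat)
      (Pool.Agent.H71.FJ.K0.fromBlocks_idem a.idem b.idem) z hz) =
      K1.cls (bU φ a.mat a.idem z hz) + K1.cls (bU φ b.mat b.idem z hz) := by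
    refine K1.cls_upper _ _ 0 _ ?_
    change bmat φ _ _ = Matrix.fromBlocks (bmat φ _ _) 0 0 (bmat φ _ _)
    rw [bmat, bmat, bmat, Matrix.fromBlocks_map, ← Matrix.fromBlocks_one, Matrix.fromBlocks_add]
    congr 1
    · rw [zero_add]
      refine Matrix.ext fun i j => ?_
      simp
    · rw [zero_add]
      refine Matrix.ext fun i j => ?_
      simp
  rw [← h1]
  exact bU_congr φ z hz _ _ (Pool.Agent.H71.FJ.K0.matEquiv_submatrix _
    (Pool.Agent.H71.FJ.K0.fromBlocks_idem a.idem b.idem) _)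

/-- The homomorphism `K₀(B) → K₁(A)`, `[e] ↦ [1 + φ(e) (z - 1)]`. -/
noncomputable def bass (φ : B →+* A) (z : Aˣ) (hz : ∀ b, φ b * z = z * φ b) : K0 B →+ K1 A :=
  K0.lift (fun a => K1.mk (bU φ a.mat a.idem z hz))
    (fun a b h => by
      rw [← K1.cls_mk, ← K1.cls_mk]
      exact bU_congr φ z hz a.idem b.idem h)
    (fun a b => by
      rw [← K1.cls_mk, ← K1.cls_mk, ← K1.cls_mk]
      exact bU_sum φ z hz a b)

theorem bass_mk (φ : B →+* A) (z : Aˣ) (hz : ∀ b, φ b * z = z * φ b) (a : IdemMat B) :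
    bass φ z hz (K0.mk a) = K1.mk (bU φ a.mat a.idem z hz) := K0.lift_mk _ _ _ a

theorem bass_mul (φ : B →+* A) (z z' : Aˣ) (hz : ∀ b, φ b * z = z * φ b)
    (hz' : ∀ b, φ b * z' = z' * φ b) (h : ∀ b, φ b * ((z * z' : Aˣ) : A) = ((z * z' : Aˣ) : A) * φ b)
    (x : K0 B) : bass φ (z * z') h x = bass φ z hz x + bass φ z' hz' x := by
  suffices H : bass φ (z * z') h = bass φ z hz + bass φ z' hz' from DFunLike.congr_fun H x
  apply K0.hom_ext
  intro a
  rw [AddMonoidHom.add_apply, bass_mk, bass_mk, bass_mk, ← Pool.Agent.H95.WH.K1.mk_mul]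
  congr 1
  apply Units.ext
  rw [Units.val_mul]
  change bmat φ _ _ = bmat φ _ _ * bmat φ _ _
  rw [bmat_mul φ a.mat a.idem _ _ hz, Units.val_mul]

theorem bass_comp {C : Type w} [Ring C] (φ : B →+* A) (ψ : C →+* B) (z : Aˣ)
    (hz : ∀ b, φ b * z = z * φ b) (x : K0 C) :
    bass φ z hz (K0.map ψ x) = bass (φ.comp ψ) z (fun c => hz (ψ c)) x := by
  suffices H : (bass φ z hz).comp (K0.map ψ) = bass (φ.comp ψ) z (fun c => hz (ψ c)) from
    DFunLike.congr_fun H x
  apply K0.hom_ext
  intro a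
  rw [AddMonoidHom.comp_apply, Pool.Agent.H71.FJ.K0.map_mk', bass_mk, bass_mk]
  rfl

/-- Conjugation invariance. -/
theorem bass_conj (φ φ' : B →+* A) (z z' g : Aˣ) (hz : ∀ b, φ b * z = z * φ b)
    (hz' : ∀ b, φ' b * z' = z' * φ' b) (h : ∀ b, φ' b = g * φ b * ((g⁻¹ : Aˣ) : A))
    (hzz : (z' : A) = g * z * ((g⁻¹ : Aˣ) : A)) (x : K0 B) :
    bass φ' z' hz' x = bass φ z hz x := by
  suffices H : bass φ' z' hz' = bass φ z hz from DFunLike.congr_fun H x
  apply K0.hom_ext
  intro a
  rw [bass_mk, bass_mk, ← K1.cls_mk, ← K1.cls_mk]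
  apply K1.cls_conj (Matrix.diagonal fun _ => (g : A)) (Matrix.diagonal fun _ => ((g⁻¹ : Aˣ) : A))
  · rw [Matrix.diagonal_mul_diagonal, ← Matrix.diagonal_one]
    simp
  · rw [Matrix.diagonal_mul_diagonal, ← Matrix.diagonal_one]
    simp
  · change bmat φ' _ _ = _ * bmat φ _ _ * _
    refine Matrix.ext fun i j => ?_
    rw [Matrix.mul_diagonal, Matrix.diagonal_mul, bmat, bmat, Matrix.add_apply, Matrix.add_apply,
      Matrix.map_apply, Matrix.map_apply, mul_add, add_mul]
    congr 1
    · by_cases hij : i = j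
      · rw [hij, Matrix.one_apply_eq, mul_one, Units.mul_inv]
      · rw [Matrix.one_apply_ne hij, mul_zero, zero_mul]
    · rw [h, hzz]
      have e1 : (g : A) * (z : A) * ((g⁻¹ : Aˣ) : A) - 1 =
          g * ((z : A) - 1) * ((g⁻¹ : Aˣ) : A) := by
        rw [mul_sub, sub_mul, mul_one, Units.mul_inv]
      rw [e1]
      calc (g : A) * φ (a.mat i j) * ((g⁻¹ : Aˣ) : A) * (g * ((z : A) - 1) * ((g⁻¹ : Aˣ) : A))
          = g * φ (a.mat i j) * (((g⁻¹ : Aˣ) : A) * g) * ((z : A) - 1) * ((g⁻¹ : Aˣ) : A) := by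
            simp only [mul_assoc]
        _ = _ := by
          rw [Units.inv_mul, mul_one]
          simp only [mul_assoc]

theorem map_bass {C : Type w} [Ring C] (φ : B →+* A) (z : Aˣ) (hz : ∀ b, φ b * z = z * φ b)
    (f : A →+* C) (h : ∀ b, (f.comp φ) b * (Units.map (f : A →* C) z : Cˣ) =
      (Units.map (f : A →* C) z : Cˣ) * (f.comp φ) b) (x : K0 B) :
    K1.map f (bass φ z hz x) = bass (f.comp φ) (Units.map (f : A →* C) z) h x := by
  suffices H : (K1.map f).comp (bass φ z hz) = bass (f.comp φ) (Units.map (f : A →* C) z) h from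
    DFunLike.congr_fun H x
  apply K0.hom_ext
  intro a
  rw [AddMonoidHom.comp_apply, bass_mk, bass_mk, K1.map_mk]
  congr 1
  apply Units.ext
  refine Matrix.ext fun i j => ?_
  change f (bmat φ a.mat z i j) = bmat (f.comp φ) a.mat _ i j
  rw [bmat, bmat, Matrix.add_apply, Matrix.add_apply, Matrix.map_apply, Matrix.map_apply, map_add,
    map_mul, map_sub, map_one]
  congr 1
  by_cases hij : i = j
  · rw [hij, Matrix.one_apply_eq, Matrix.one_apply_eq, map_one]
  · rw [Matrix.one_apply_ne hij, Matrix.one_apply_ne hij, map_zero]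

end

end Pool.Agent.H71.DB

end
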