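import Pool.Agent.H13.TFQ.H71.WH.Formal
import Pool.Agent.H13.TFQ.M08

/-! The parts of this file: H71.WH.Log_1, H71.WH.Log2_2, H71.WH.Log2_1. -/

section

/-!
# The trace of the `2`-adic logarithm

For a ring `R`, a homomorphism `τ : R → ℤ` and `x ∈ 2 R` let
`tl τ x = ∑ (-1)^k τ(x^(k+1)) / (k+1)`, the value of `τ` on `log (1 + x)`. If `τ` is a trace then
`tl τ` is additive: `tl τ (x + y + x y) = tl τ x + tl τ y`.
-/

set_option autoImplicit false

open Polynomial

universe u v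

namespace Pool.Agent.H71.WH

variable {R : Type u} [Ring R]

theorem dbl_zero (τ : R →+ ℤ) {A : R[X]} (h : A.coeff 0 = 0) (m k : ℕ) (hk : m < k) :
    dbl τ A (m, k) = 0 := by
  have : (A ^ (k + 1)).coeff (m + 1) = 0 := van_pow (n := k) h (m + 1) (by omega)
  simp [dbl, this]

theorem summable_dbl (τ : R →+ ℤ) {A : R[X]} (h : A.coeff 0 = 0) : Summable (dbl τ A) := by
  have h1 : Summable fun k : ℕ => ((k : ℝ) + 1) * (3 / 4) ^ k := by
    have h1 := summable_pow_mul_geometric_of_norm_lt_one (R := ℝ) 1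
      (show ‖(3 / 4 : ℝ)‖ < 1 by norm_num)
    have h2 := summable_pow_mul_geometric_of_norm_lt_one (R := ℝ) 0
      (show ‖(3 / 4 : ℝ)‖ < 1 by norm_num)
    refine (h1.add h2).congr ?_
    intro k
    ring
  have h2 : Summable fun k : ℕ => ((3 : ℝ) / 4) ^ k :=
    summable_geometric_of_lt_one (by norm_num) (by norm_num)
  have h3 := h1.mul_of_nonneg h2 (fun k => by positivity) (fun k => by positivity)
  refine Summable.of_norm_bounded h3 ?_
  rintro ⟨m, k⟩
  by_cases hk : m < k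
  · rw [dbl_zero τ h m k hk, norm_zero]
    positivity
  · push Not at hk
    have hle := norm_term_le (z := 2 ^ (m + 1) * τ ((A ^ (k + 1)).coeff (m + 1))) (m := m + 1)
      (k := k) (dvd_mul_right _ _)
    refine hle.trans ?_
    have e1 : ((2 : ℝ) ^ (m + 1))⁻¹ * (2 * (k + 1)) = (1 / 2) ^ m * (k + 1) := by
      rw [pow_succ, mul_inv, one_div, inv_pow]
      ring
    rw [e1]
    have e2 : ((1 : ℝ) / 2) ^ m ≤ (3 / 4) ^ m * (3 / 4) ^ m := by
      rw [← mul_pow]
      exact pow_le_pow_left₀ (by norm_num) (by norm_num) m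
    have e3 : ((3 : ℝ) / 4) ^ m ≤ (3 / 4) ^ k :=
      pow_le_pow_of_le_one (by norm_num) (by norm_num) hk
    have e4 : ((k : ℝ) + 1) ≤ (m : ℝ) + 1 := by
      have : (k : ℝ) ≤ m := by exact_mod_cast hk
      linarith
    calc ((1 : ℝ) / 2) ^ m * (k + 1) ≤ ((3 / 4) ^ m * (3 / 4) ^ k) * (m + 1) := by
          apply mul_le_mul (e2.trans _) e4 (by positivity) (by positivity)
          exact mul_le_mul_of_nonneg_left e3 (by positivity)
      _ = ((m : ℝ) + 1) * (3 / 4) ^ m * (3 / 4) ^ k := by ring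

theorem inner_sum (τ : R →+ ℤ) (x y : R) (k : ℕ) : ∑' m, dbl τ (poly x y) (m, k) =
    tlTerm τ (2 * x + 2 * y + 2 * x * (2 * y)) k := by
  rw [tlTerm, ← ev_poly, ← map_pow]
  have e1 : ev R (poly x y ^ (k + 1)) =
      ∑ i ∈ Finset.range ((poly x y ^ (k + 1)).natDegree + 1),
        (poly x y ^ (k + 1)).coeff i * 2 ^ i := eval₂_eq_sum_range (RingHom.id R) 2
  rw [Finset.sum_range_succ'] at e1
  have e2 : (poly x y ^ (k + 1)).coeff 0 = 0 := van_pow (n := k) (poly_zero x y) 0 (Nat.zero_le _)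
  rw [e2, zero_mul, add_zero] at e1
  rw [e1, map_sum]
  have e3 : ∀ i, τ ((poly x y ^ (k + 1)).coeff (i + 1) * 2 ^ (i + 1)) =
      2 ^ (i + 1) * τ ((poly x y ^ (k + 1)).coeff (i + 1)) := by
    intro i
    rw [← two_pow_comm, map_two_pow_mul]
  simp only [e3]
  rw [tsum_eq_sum (s := Finset.range (poly x y ^ (k + 1)).natDegree)]
  · push_cast
    rw [Finset.mul_sum, Finset.sum_div]
    apply Finset.sum_congr rfl
    intro i _
    simp only [dbl]
    push_cast
    rfl
  · intro m hm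
    have : (poly x y ^ (k + 1)).coeff (m + 1) = 0 := by
      apply coeff_eq_zero_of_natDegree_lt
      have : ¬ m < (poly x y ^ (k + 1)).natDegree := fun h => hm (Finset.mem_range.2 h)
      omega
    simp [dbl, this]

theorem outer_sum (τ : R →+ ℤ) (hτ : ∀ a b, τ (a * b) = τ (b * a)) (x y : R) (m : ℕ) :
    ∑' k, dbl τ (poly x y) (m, k) = tlTerm τ (2 * x) m + tlTerm τ (2 * y) m := by
  rw [tsum_eq_sum (s := Finset.range (m + 1))]
  · have h := congrArg (fun q : ℚ => (q : ℚ_[2])) (formal_identity τ hτ x y m)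
    push_cast at h
    have e1 : ∑ k ∈ Finset.range (m + 1), dbl τ (poly x y) (m, k) = 2 ^ (m + 1) *
        ∑ j ∈ Finset.range (m + 1), (-1 : ℚ_[2]) ^ j *
          (τ (((C x * X + C y * X + C (x * y) * X ^ 2) ^ (j + 1)).coeff (m + 1)) : ℚ_[2]) /
            (j + 1) := by
      rw [Finset.mul_sum]
      apply Finset.sum_congr rfl
      intro k _
      simp only [dbl, poly]
      push_cast
      ring
    rw [e1, h, tlTerm, tlTerm, two_mul_pow, two_mul_pow, map_two_pow_mul, map_two_pow_mul]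
    push_cast
    ring
  · intro k hk
    apply dbl_zero τ (poly_zero x y)
    have : ¬ k < m + 1 := fun h => hk (Finset.mem_range.2 h)
    omega

theorem tl_mul' (τ : R →+ ℤ) (hτ : ∀ a b, τ (a * b) = τ (b * a)) (x y : R) :
    tl τ (2 * x + 2 * y + 2 * x * (2 * y)) = tl τ (2 * x) + tl τ (2 * y) := by
  have hs := summable_dbl τ (poly_zero x y)
  have hcomm : ∑' (k) (m), dbl τ (poly x y) (m, k) = ∑' (m) (k), dbl τ (poly x y) (m, k) :=
    hs.tsum_comm' (f := fun m k => dbl τ (poly x y) (m, k))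
      (fun b => hs.comp_injective (Prod.mk_right_injective b))
      (fun c => hs.comp_injective (Prod.mk_left_injective c))
  simp only [inner_sum, outer_sum τ hτ] at hcomm
  rw [tl, tl, tl, hcomm, (tl_summable τ x).tsum_add (tl_summable τ y)]

end Pool.Agent.H71.WH

end

section

/-!
# Further properties of the trace of the logarithm
-/

set_option autoImplicit false

universe u v

namespace Pool.Agent.H71.WH

variable {R : Type u} [Ring R]

theorem L_mul (τ : R →+ ℤ) (hτ : ∀ a b, τ (a * b) = τ (b * a)) {w w' : R} (h : Cong w)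
    (h' : Cong w') : L τ (w * w') = L τ w + L τ w' := by
  obtain ⟨x, rfl⟩ := h
  obtain ⟨y, rfl⟩ := h'
  have e1 : (1 + 2 * x) * (1 + 2 * y) - 1 = 2 * x + 2 * y + 2 * x * (2 * y) := by noncomm_ring
  rw [L, L, L, e1, add_sub_cancel_left, add_sub_cancel_left, tl_mul' τ hτ]

end Pool.Agent.H71.WH

end

section

/-!
# Further properties of the trace of the logarithm
-/

set_option autoImplicit false

universe u v

namespace Pool.Agent.H71.WH

variable {R : Type u} [Ring R]

theorem Cong.one : Cong (1 : R) := ⟨0, by simp⟩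

theorem Cong.mul {w w' : R} (h : Cong w) (h' : Cong w') : Cong (w * w') := by
  obtain ⟨x, rfl⟩ := h
  obtain ⟨y, rfl⟩ := h'
  refine ⟨x + y + x * (2 * y), ?_⟩
  noncomm_ring

theorem Cong.of_mul_eq_one {w w' : R} (h : Cong w) (h' : w' * w = 1) : Cong w' := by
  obtain ⟨x, rfl⟩ := h
  refine ⟨-(w' * x), ?_⟩
  have : w' * (1 + 2 * x) = w' + 2 * (w' * x) := by noncomm_ring
  rw [this] at h'
  rw [mul_neg, ← h']
  abel

theorem tl_zero (τ : R →+ ℤ) : tl τ 0 = 0 := by
  have : tlTerm τ (0 : R) = fun _ => 0 := by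
    funext k
    simp [tlTerm]
  rw [tl, this, tsum_zero]

theorem L_one (τ : R →+ ℤ) : L τ 1 = 0 := by rw [L, sub_self, tl_zero]

theorem L_inv (τ : R →+ ℤ) (hτ : ∀ a b, τ (a * b) = τ (b * a)) {w w' : R} (h : Cong w)
    (h1 : w' * w = 1) : L τ w' = -L τ w := by
  have := L_mul τ hτ (h.of_mul_eq_one h1) h
  rw [h1, L_one] at this
  exact (neg_eq_of_add_eq_zero_left this.symm).symm

theorem tl_neg (τ : R →+ ℤ) (x : R) : tl (-τ) x = -tl τ x := by
  have : tlTerm (-τ) x = fun k => -tlTerm τ x k := by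
    funext k
    simp only [tlTerm, AddMonoidHom.neg_apply, Int.cast_neg]
    ring
  rw [tl, tl, this, tsum_neg]

theorem tl_zsmul (τ τ' : R →+ ℤ) (x : R) (n : ℤ) (h : ∀ r, τ' r = n * τ r) :
    tl τ' x = n * tl τ x := by
  have : tlTerm τ' x = fun k => (n : ℚ_[2]) * tlTerm τ x k := by
    funext k
    simp only [tlTerm, h, Int.cast_mul]
    ring
  rw [tl, tl, this, tsum_mul_left]

/-- Restriction of additive functions along a ring homomorphism. -/
def pull {S : Type v} [Ring S] (φ : R →+* S) (τ : S →+ ℤ) : R →+ ℤ :=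
  τ.comp φ.toAddMonoidHom

theorem pull_apply {S : Type v} [Ring S] (φ : R →+* S) (τ : S →+ ℤ) (r : R) :
    pull φ τ r = τ (φ r) := rfl

theorem L_map {S : Type v} [Ring S] (φ : R →+* S) (τ : S →+ ℤ) (w : R) :
    L τ (φ w) = L (pull φ τ) w := by
  rw [L, L]
  apply tl_congr
  intro k
  rw [pull_apply, map_pow φ, map_sub φ, map_one φ]

theorem Cong.map {S : Type v} [Ring S] (φ : R →+* S) {w : R} (h : Cong w) : Cong (φ w) := by
  obtain ⟨x, rfl⟩ := h
  refine ⟨φ x, ?_⟩
  rw [map_add, map_mul, map_one, map_ofNat]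

/-- additivity for commuting elements and arbitrary functionals -/
theorem L_mul_of_commute (τ : R →+ ℤ) {x y : R} (h : Commute x y) :
    L τ ((1 + 2 * x) * (1 + 2 * y)) = L τ (1 + 2 * x) + L τ (1 + 2 * y) := by
  let S : Subring R := Subring.closure {x, y}
  have hS : ∀ a ∈ S, ∀ b ∈ S, a * b = b * a := by
    intro a ha b hb
    have hcl : ∀ p ∈ ({x, y} : Set R), ∀ q ∈ ({x, y} : Set R), p * q = q * p := by
      rintro p (rfl | rfl) q (rfl | rfl)
      · rfl
      · exact h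
      · exact h.symm
      · rfl
    let _ := Subring.closureCommRingOfComm hcl
    have := mul_comm (⟨a, ha⟩ : Subring.closure {x, y}) ⟨b, hb⟩
    exact congrArg Subtype.val this
  let x' : S := ⟨x, Subring.subset_closure (by simp)⟩
  let y' : S := ⟨y, Subring.subset_closure (by simp)⟩
  have key := L_mul (pull S.subtype τ) (by
    intro a b
    rw [pull_apply, pull_apply]
    exact congrArg τ (hS _ a.2 _ b.2)) (w := 1 + 2 * x') (w' := 1 + 2 * y') ⟨x', rfl⟩ ⟨y', rfl⟩
  rw [← L_map, ← L_map, ← L_map] at key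
  exact key

theorem tl_ne_zero (τ : R →+ ℤ) (r : R) (a : ℕ) (ha : 3 ≤ a) (h : ¬ (2 : ℤ) ∣ τ r) :
    tl τ (2 ^ a * r) ≠ 0 := by
  obtain ⟨n, rfl⟩ : ∃ n, a = n + 1 := ⟨a - 1, by omega⟩
  have hsum : Summable (tlTerm τ (2 ^ (n + 1) * r)) := by
    have : (2 : R) ^ (n + 1) * r = 2 * (2 ^ n * r) := by rw [pow_succ', mul_assoc]
    rw [this]
    exact tl_summable τ _
  intro h0
  rw [tl, hsum.tsum_eq_zero_add] at h0
  have h1 : ‖∑' b, tlTerm τ (2 ^ (n + 1) * r) (b + 1)‖ ≤ ((2 : ℝ) ^ (2 * n))⁻¹ :=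
    IsUltrametricDist.norm_tsum_le_of_forall_le (fun j => term_le_aux τ r n j)
  rw [← norm_neg, ← eq_neg_of_add_eq_zero_left h0] at h1
  have h2 : tlTerm τ (2 ^ (n + 1) * r) 0 = (((2 ^ (n + 1) * τ r : ℤ)) : ℚ_[2]) := by
    rw [tlTerm, zero_add, pow_one, map_two_pow_mul]
    simp
  rw [h2] at h1
  have h3 : ‖((2 ^ (n + 1) * τ r : ℤ) : ℚ_[2])‖ ≤ ((2 : ℕ) : ℝ) ^ (-((2 * n : ℕ) : ℤ)) := by
    rw [zpow_neg, zpow_natCast]
    exact_mod_cast h1
  rw [Padic.norm_int_le_pow_iff_dvd] at h3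
  have h4 : (2 ^ (n + 1 + 1) : ℤ) ∣ 2 ^ (n + 1) * τ r := by
    refine dvd_trans ?_ h3
    exact_mod_cast pow_dvd_pow 2 (by omega : n + 1 + 1 ≤ 2 * n)
  rw [pow_succ] at h4
  exact h ((mul_dvd_mul_iff_left (by positivity)).1 h4)

end Pool.Agent.H71.WH

end
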