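import Pool.Agent.H13.TFQ.H71.FQ.HG
import Pool.Agent.H13.TFQ.H95.WH.Defs
import Pool.Agent.H13.TFQ.M07
import Pool.Agent.H13.TFQ.M10

/-! The parts of this file: H71.WH.U1, H71.WH.U2, H71.FQ.Defs. -/

section

/-!
# Units of integral group rings congruent to `1` modulo `8`, logarithm of determinants
-/

set_option autoImplicit false
set_option linter.unusedSectionVars false
set_option linter.unusedSimpArgs false

open Matrix

universe u v w

namespace Pool.Agent.H71.WH

section C8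

variable {R : Type u} [Ring R]

/-- `w` is congruent to `1` modulo `8` -/
def C8 (w : R) : Prop := ∃ x : R, w = 1 + 8 * x

theorem C8.cong {w : R} (h : C8 w) : Cong w := by
  obtain ⟨x, rfl⟩ := h
  exact ⟨4 * x, by noncomm_ring⟩

theorem C8.map {S : Type v} [Ring S] (φ : R →+* S) {w : R} (h : C8 w) : C8 (φ w) := by
  obtain ⟨x, rfl⟩ := h
  refine ⟨φ x, ?_⟩
  rw [map_add, map_mul, map_one, map_ofNat]

end C8

section LogDet

theorem norm_tl_sub_le {R : Type u} [Ring R] (τ : R →+ ℤ) (r : R) (n : ℕ) :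
    ‖tl τ (2 ^ (n + 1) * r) - ((2 ^ (n + 1) * τ r : ℤ) : ℚ_[2])‖ ≤ ((2 : ℝ) ^ (2 * n))⁻¹ := by
  have hsum : Summable (tlTerm τ (2 ^ (n + 1) * r)) := by
    have : (2 : R) ^ (n + 1) * r = 2 * (2 ^ n * r) := by rw [pow_succ', mul_assoc]
    rw [this]
    exact tl_summable τ _
  have h2 : tlTerm τ (2 ^ (n + 1) * r) 0 = (((2 ^ (n + 1) * τ r : ℤ)) : ℚ_[2]) := by
    rw [tlTerm, zero_add, pow_one, map_two_pow_mul]
    simp
  rw [tl, hsum.tsum_eq_zero_add, h2, add_sub_cancel_left]
  exact IsUltrametricDist.norm_tsum_le_of_forall_le (fun j => term_le_aux τ r n j)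

variable {B : Type u} [CommRing B] {ι : Type v} [Fintype ι] [DecidableEq ι] (τ : B →+ ℤ)

/-- `τ ∘ tr` -/
def ttr (τ : B →+ ℤ) (ι : Type v) [Fintype ι] : Matrix ι ι B →+ ℤ :=
  τ.comp (Matrix.traceAddMonoidHom ι B)

theorem ttr_apply (W : Matrix ι ι B) : ttr τ ι W = τ (trace W) := rfl

theorem ttr_comm (V W : Matrix ι ι B) : ttr τ ι (V * W) = ttr τ ι (W * V) := by
  rw [ttr_apply, ttr_apply, trace_mul_comm]

theorem det_two_pow (n : ℕ) (X : Matrix ι ι B) :
    ∃ y : B, det (1 + 2 ^ n * X) = 1 + 2 ^ n * (trace X + 2 ^ n * y) := by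
  have h := det_one_add_smul ((2 : B) ^ n) X
  have h1 : (2 : B) ^ n • X = 2 ^ n * X := by
    have : (2 : Matrix ι ι B) ^ n = (2 : B) ^ n • (1 : Matrix ι ι B) := by
      have h2 : (2 : Matrix ι ι B) = (2 : B) • (1 : Matrix ι ι B) := by
        rw [two_smul, one_add_one_eq_two]
      rw [h2, smul_pow, one_pow]
    rw [this, smul_mul_assoc, one_mul]
  rw [h1] at h
  exact ⟨(det (1 + (Polynomial.X : Polynomial B) • X.map Polynomial.C)).divX.divX.eval (2 ^ n),
    by rw [h]; ring⟩

theorem det_cong {W : Matrix ι ι B} (h : Cong W) : Cong (det W) := by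
  obtain ⟨X, rfl⟩ := h
  obtain ⟨y, hy⟩ := det_two_pow 1 X
  rw [pow_one, pow_one] at hy
  exact ⟨_, hy⟩

theorem det_C8 {W : Matrix ι ι B} (h : C8 W) : C8 (det W) := by
  obtain ⟨X, rfl⟩ := h
  obtain ⟨y, hy⟩ := det_two_pow 3 X
  refine ⟨trace X + 2 ^ 3 * y, ?_⟩
  have e1 : (2 : Matrix ι ι B) ^ 3 = 8 := by norm_num
  have e2 : (2 : B) ^ 3 = 8 := by norm_num
  rw [e1] at hy
  rw [hy, e2]

/-- the defect -/
noncomputable def dd (W : Matrix ι ι B) : ℚ_[2] := L (ttr τ ι) W - L τ (det W)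

theorem dd_mul {V W : Matrix ι ι B} (hV : Cong V) (hW : Cong W) :
    dd τ (V * W) = dd τ V + dd τ W := by
  rw [dd, dd, dd, det_mul, L_mul (ttr τ ι) (ttr_comm τ) hV hW,
    L_mul τ (fun a b => by rw [mul_comm]) (det_cong hV) (det_cong hW)]
  ring

theorem dd_pow {W : Matrix ι ι B} (hW : Cong W) (k : ℕ) :
    Cong (W ^ 2 ^ k) ∧ dd τ (W ^ 2 ^ k) = 2 ^ k * dd τ W := by
  induction k with
  | zero => exact ⟨by rw [pow_zero, pow_one]; exact hW, by simp⟩
  | succ k ih =>
    have e : W ^ 2 ^ (k + 1) = W ^ 2 ^ k * W ^ 2 ^ k := by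
      rw [← pow_add, pow_succ]
      congr 1
      ring
    rw [e]
    refine ⟨ih.1.mul ih.1, ?_⟩
    rw [dd_mul τ ih.1 ih.1, ih.2]
    ring

theorem pow_form {R : Type u} [Ring R] (x : R) (k : ℕ) :
    ∃ y : R, (1 + 2 * x) ^ 2 ^ k = 1 + 2 ^ (k + 1) * y := by
  induction k with
  | zero => exact ⟨x, by simp⟩
  | succ k ih =>
    obtain ⟨y, hy⟩ := ih
    refine ⟨y + 2 ^ k * (y * y), ?_⟩
    have e : (1 + 2 * x) ^ 2 ^ (k + 1) = (1 + 2 * x) ^ 2 ^ k * (1 + 2 * x) ^ 2 ^ k := by
      rw [← pow_add, pow_succ]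
      congr 1
      ring
    rw [e, hy]
    have h1 : (1 + 2 ^ (k + 1) * y) * (1 + 2 ^ (k + 1) * y) =
        1 + 2 * (2 ^ (k + 1) * y) + 2 ^ (k + 1) * (y * 2 ^ (k + 1)) * y := by noncomm_ring
    rw [h1, ← two_pow_comm, mul_add, ← mul_assoc 2, ← pow_succ', add_assoc]
    congr 2
    rw [pow_succ' (2 : R) (k + 1), pow_succ' (2 : R) k]
    simp only [mul_assoc]
    rw [← mul_assoc ((2 : R) ^ k) 2, ← pow_succ, pow_succ', mul_assoc]

theorem norm_sub_max (a b : ℚ_[2]) : ‖a - b‖ ≤ max ‖a‖ ‖b‖ := by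
  rw [sub_eq_add_neg, ← norm_neg b]
  exact IsUltrametricDist.norm_add_le_max _ _

end LogDet

end Pool.Agent.H71.WH

end

section

/-!
# Detection of units of integral group rings of finite groups
-/

set_option autoImplicit false
set_option linter.unusedSectionVars false
set_option linter.unusedSimpArgs false

open Matrix
open scoped Classical

universe u v w

namespace Pool.Agent.H71.WH

section Div

variable {C : Type u} [Group C]

/-- the coefficient at `c` -/
noncomputable def dlt (c g : C) : ℤ := if g = c then 1 else 0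

theorem exists_eq_mul (n : ℤ) (x : MonoidAlgebra ℤ C) (h : ∀ c, n ∣ x.coeff c) :
    ∃ y : MonoidAlgebra ℤ C, x = (n : MonoidAlgebra ℤ C) * y := by
  refine ⟨MonoidAlgebra.ofCoeff (x.coeff.mapRange (· / n) (by simp)), ?_⟩
  rw [← zsmul_eq_mul]
  ext c
  rw [MonoidAlgebra.coeff_smul, Finsupp.smul_apply, MonoidAlgebra.coeff_ofCoeff,
    Finsupp.mapRange_apply, smul_eq_mul]
  exact (Int.mul_ediv_cancel' (h c)).symm

end Div

section Pow

variable {C : Type u} [Group C] [Finite C]

/-- reduction modulo `8` -/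
noncomputable abbrev red8 (C : Type u) [Group C] :
    MonoidAlgebra ℤ C →+* MonoidAlgebra (ZMod 8) C :=
  MonoidAlgebra.mapRingHom C (Int.castRingHom (ZMod 8))

theorem finite_red : Finite (MonoidAlgebra (ZMod 8) C) := by
  apply Finite.of_injective (fun (x : MonoidAlgebra (ZMod 8) C) (c : C) => x.coeff c)
  intro x y h
  ext c
  exact congrFun h c

theorem C8_of_red {w : MonoidAlgebra ℤ C} (h : red8 C w = 1) : C8 w := by
  obtain ⟨y, hy⟩ := exists_eq_mul 8 (w - 1) (fun c => by
    have h1 : red8 C (w - 1) = 0 := by rw [map_sub, map_one, h, sub_self]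
    have h2 : (red8 C (w - 1)).coeff c = (((w - 1).coeff c : ℤ) : ZMod 8) := by
      rfl
    rw [h1] at h2
    exact (ZMod.intCast_zmod_eq_zero_iff_dvd _ 8).1 h2.symm)
  refine ⟨y, ?_⟩
  have h3 : w = 1 + (w - 1) := by abel
  rw [h3, hy]
  norm_cast

/-- an exponent for the units modulo `8` -/
noncomputable def N8 (C : Type u) [Group C] : ℕ := Nat.card (MonoidAlgebra (ZMod 8) C)ˣ

theorem N8_ne_zero : N8 C ≠ 0 := by
  have := finite_red (C := C)
  have : Finite (MonoidAlgebra (ZMod 8) C)ˣ := inferInstance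
  exact Nat.card_pos.ne'

theorem C8_pow_N8 (δ : (MonoidAlgebra ℤ C)ˣ) :
    C8 ((δ ^ N8 C : (MonoidAlgebra ℤ C)ˣ) : MonoidAlgebra ℤ C) := by
  have := finite_red (C := C)
  apply C8_of_red
  have h1 : Units.map (red8 C).toMonoidHom δ ^ N8 C = 1 := pow_card_eq_one'
  rw [← map_pow] at h1
  exact congrArg Units.val h1

end Pow

end Pool.Agent.H71.WH

end

section

/-!
# The assembly map on the `K₀`-part of the rational source

For a ring `R`, a group `G` and `n`:

* `HnK0 R G n` is the abelian group generated by the symbols `[F, x, z]` with `F` a finite subgroup of `G`,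
  `x ∈ K₀(R[F])` and `z ∈ H_{n+1}(Z_G(F); ℤ)`, modulo additivity in `x` and in `z` and
  `[F', c_g(x), z'] = [F, x, c_{g⁻¹}(z')]` for `g F g⁻¹ ⊆ F'`, `z' ∈ H_{n+1}(Z_G(F'); ℤ)`;
* `assemblyN R G n : HnK0 R G n → KQ (R[G]) n` sends `[F, [e], z]` to the class of the image of `z` under the
  homomorphism `Z_G(F) → GL_N(R[G])`, `γ ↦ 1 + e (γ - 1)`.
-/

set_option autoImplicit false

open Matrix

universe u v w

namespace Pool.Agent.H71.FQ

open Pool.Agent.H71.FJ (MatEquiv IdemMat K0 K0.mk K0.hom_ext K0.map)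
open Pool.Agent.H95.WH (FamSub conjHom FinSub)

section

variable {G : Type v} [Group G]

theorem centConj_mem (g : G) (F F' : Subgroup G) (h : ∀ x ∈ F, g * x * g⁻¹ ∈ F')
    (z : Subgroup.centralizer (F' : Set G)) :
    g⁻¹ * z * g ∈ Subgroup.centralizer (F : Set G) := by
  rw [Subgroup.mem_centralizer_iff]
  intro a ha
  have h1 := Subgroup.mem_centralizer_iff.1 z.2 _ (h a ha)
  calc a * (g⁻¹ * z * g) = g⁻¹ * (g * a * g⁻¹ * z) * g := by group
    _ = g⁻¹ * (z * (g * a * g⁻¹)) * g := by rw [h1]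
    _ = _ := by group

/-- The homomorphism `Z_G(F') → Z_G(F)`, `z ↦ g⁻¹ z g`, for `g F g⁻¹ ⊆ F'`. -/
def centConj (g : G) (F F' : Subgroup G) (h : ∀ x ∈ F, g * x * g⁻¹ ∈ F') :
    Subgroup.centralizer (F' : Set G) →* Subgroup.centralizer (F : Set G) where
  toFun z := ⟨g⁻¹ * z * g, centConj_mem g F F' h z⟩
  map_one' := by
    apply Subtype.ext
    change g⁻¹ * 1 * g = 1
    group
  map_mul' x y := by
    apply Subtype.ext
    change g⁻¹ * (x * y : G) * g = g⁻¹ * x * g * (g⁻¹ * y * g)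
    group

end

section

variable (R : Type u) [Ring R] (G : Type v) [Group G] (n : ℕ)

/-- The symbols `[F, x, z]`. -/
structure Sym where
  /-- a finite subgroup -/
  F : FamSub G FinSub
  /-- a class in `K₀` of its group ring -/
  x : K0 (MonoidAlgebra R F.1)
  /-- a homology class of its centralizer -/
  z : HG (Subgroup.centralizer (F.1 : Set G)) n

/-- The symbol `[F, x, z]`. -/
noncomputable def symOf (F : FamSub G FinSub) (x : K0 (MonoidAlgebra R F.1))
    (z : HG (Subgroup.centralizer (F.1 : Set G)) n) : FreeAbelianGroup (Sym R G n) :=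
  FreeAbelianGroup.of ⟨F, x, z⟩

/-- The relation of additivity in `x`. -/
noncomputable def symX (F : FamSub G FinSub) (x y : K0 (MonoidAlgebra R F.1))
    (z : HG (Subgroup.centralizer (F.1 : Set G)) n) : FreeAbelianGroup (Sym R G n) :=
  symOf R G n F (x + y) z - (symOf R G n F x z + symOf R G n F y z)

/-- The relation of additivity in `z`. -/
noncomputable def symZ (F : FamSub G FinSub) (x : K0 (MonoidAlgebra R F.1))
    (z z' : HG (Subgroup.centralizer (F.1 : Set G)) n) : FreeAbelianGroup (Sym R G n) :=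
  symOf R G n F x (z + z') - (symOf R G n F x z + symOf R G n F x z')

/-- The relation `[F', c_g(x), z'] = [F, x, c_{g⁻¹}(z')]`. -/
noncomputable def symC (F F' : FamSub G FinSub) (g : G) (h : ∀ x ∈ F.1, g * x * g⁻¹ ∈ F'.1)
    (x : K0 (MonoidAlgebra R F.1)) (z : HG (Subgroup.centralizer (F'.1 : Set G)) n) :
    FreeAbelianGroup (Sym R G n) :=
  symOf R G n F' (K0.map (MonoidAlgebra.mapDomainRingHom R (conjHom g F.1 F'.1 h)) x) z -
    symOf R G n F x (HG.map n (centConj g F.1 F'.1 h) z)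

/-- The relations. -/
noncomputable def SymRel : AddSubgroup (FreeAbelianGroup (Sym R G n)) :=
  AddSubgroup.closure
    ({w | ∃ F x y z, w = symX R G n F x y z} ∪ {w | ∃ F x z z', w = symZ R G n F x z z'} ∪
      {w | ∃ F F' g h x z, w = symC R G n F F' g h x z})

/-- The group generated by the symbols `[F, x, z]`. -/
def HnK0 : Type (max u v) := FreeAbelianGroup (Sym R G n) ⧸ SymRel R G n

noncomputable instance instHnK0 : AddCommGroup (HnK0 R G n) :=
  QuotientAddGroup.Quotient.addCommGroup (SymRel R G n)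

end

section

variable (R : Type u) [Ring R] (n : ℕ) {G : Type v} [Group G]

theorem cent_comm (F : Subgroup G) (z : Subgroup.centralizer (F : Set G)) (a : F) :
    F.subtype a * (Subgroup.centralizer (F : Set G)).subtype z =
      (Subgroup.centralizer (F : Set G)).subtype z * F.subtype a :=
  Subgroup.mem_centralizer_iff.1 z.2 a a.2

end

section Rational

/-- The homomorphism `f` becomes injective after tensoring with `ℚ` over `ℤ`. -/
def RatInj {A : Type u} [AddCommGroup A] {B : Type v} [AddCommGroup B] (f : A →+ B) : Prop :=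
  Function.Injective (LinearMap.lTensor ℚ f.toIntLinearMap)

/-- Every element of `H_{n+1}(Γ; ℤ)` which is killed by all homomorphisms to `ℤ_p` has finite order. -/
def PSep (p : ℕ) [Fact p.Prime] (Γ : Type v) [Group Γ] (n : ℕ) : Prop :=
  ∀ x : HG Γ n, (∀ f : HG Γ n →+ ℤ_[p], f x = 0) → ∃ m : ℤ, m ≠ 0 ∧ m • x = 0

end Rational

end Pool.Agent.H71.FQ

end
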