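import Pool.Agent.H13.TFQ.M06

/-! The parts of this file: H71.WH.GR, H71.WH.Mat, H71.WH.Gam. -/

section

/-!
# Integral group rings

The maps `i1, i2, Δ : ℤ[G] → ℤ[G × G]`, the exchange `σ` and the functionals given by functions.
-/

set_option autoImplicit false

open Matrix

universe u v w

namespace Pool.Agent.H71.WH

section Fn

variable {G : Type u} [Group G]

/-- The functional `∑ a_g g ↦ ∑ a_g f(g)` on a group ring. -/
noncomputable def fn (f : G → ℤ) : MonoidAlgebra ℤ G →+ ℤ where
  toFun a := a.coeff.sum fun g b => b * f g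
  map_zero' := by simp
  map_add' x y := by
    classical
    rw [MonoidAlgebra.coeff_add, Finsupp.sum_add_index'] <;> simp [add_mul]

omit [Group G] in
theorem fn_single (f : G → ℤ) (g : G) (b : ℤ) :
    fn f (MonoidAlgebra.single g b) = b * f g := by
  change (MonoidAlgebra.single g b).coeff.sum (fun g b => b * f g) = _
  rw [MonoidAlgebra.coeff_single, Finsupp.sum_single_index (by simp)]

omit [Group G] in
theorem hom_ext {B : Type v} [AddCommGroup B] {φ ψ : MonoidAlgebra ℤ G →+ B}
    (h : ∀ (g : G) (n : ℤ), φ (MonoidAlgebra.single g n) = ψ (MonoidAlgebra.single g n)) :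
    φ = ψ := by
  ext g
  simp only [AddMonoidHom.comp_apply, MonoidAlgebra.singleAddHom_apply]
  exact h g _

/-- the ring homomorphism induced by a group homomorphism -/
noncomputable abbrev gr {H : Type v} [Group H] (φ : G →* H) :
    MonoidAlgebra ℤ G →+* MonoidAlgebra ℤ H := MonoidAlgebra.mapDomainRingHom ℤ φ

theorem gr_single {H : Type v} [Group H] (φ : G →* H) (g : G) (n : ℤ) :
    gr φ (MonoidAlgebra.single g n) = MonoidAlgebra.single (φ g) n := by
  change MonoidAlgebra.mapDomain φ (MonoidAlgebra.single g n) = _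
  rw [MonoidAlgebra.mapDomain_single]

theorem fn_gr {H : Type v} [Group H] (φ : G →* H) (f : H → ℤ) (a : MonoidAlgebra ℤ G) :
    fn f (gr φ a) = fn (fun g => f (φ g)) a := by
  induction a using MonoidAlgebra.induction_linear with
  | zero => simp
  | add x y hx hy => rw [map_add, map_add, map_add, hx, hy]
  | single g n => rw [gr_single, fn_single, fn_single]

end Fn

section Two

variable (G : Type u) [Group G]

/-- `g ↦ (g, 1)` -/
noncomputable def i1 : MonoidAlgebra ℤ G →+* MonoidAlgebra ℤ (G × G) := gr (MonoidHom.inl G G)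

/-- `g ↦ (1, g)` -/
noncomputable def i2 : MonoidAlgebra ℤ G →+* MonoidAlgebra ℤ (G × G) := gr (MonoidHom.inr G G)

/-- `g ↦ (g, g)` -/
noncomputable def Del : MonoidAlgebra ℤ G →+* MonoidAlgebra ℤ (G × G) :=
  gr ((MonoidHom.id G).prod (MonoidHom.id G))

/-- `(g, h) ↦ (h, g)` -/
noncomputable def sw : MonoidAlgebra ℤ (G × G) →+* MonoidAlgebra ℤ (G × G) :=
  gr (MulEquiv.prodComm : G × G ≃* G × G).toMonoidHom

variable {G}

theorem i1_single (g : G) (n : ℤ) : i1 G (MonoidAlgebra.single g n) =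
    MonoidAlgebra.single (g, 1) n := gr_single _ _ _

theorem i2_single (g : G) (n : ℤ) : i2 G (MonoidAlgebra.single g n) =
    MonoidAlgebra.single (1, g) n := gr_single _ _ _

theorem Del_single (g : G) (n : ℤ) : Del G (MonoidAlgebra.single g n) =
    MonoidAlgebra.single (g, g) n := gr_single _ _ _

theorem sw_single (p : G × G) (n : ℤ) : sw G (MonoidAlgebra.single p n) =
    MonoidAlgebra.single p.swap n := gr_single _ _ _

theorem sw_sw (a : MonoidAlgebra ℤ (G × G)) : sw G (sw G a) = a := by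
  induction a using MonoidAlgebra.induction_linear with
  | zero => simp
  | add x y hx hy => rw [map_add, map_add, hx, hy]
  | single g n => rw [sw_single, sw_single, Prod.swap_swap]

theorem sw_i1 (a : MonoidAlgebra ℤ G) : sw G (i1 G a) = i2 G a := by
  induction a using MonoidAlgebra.induction_linear with
  | zero => simp
  | add x y hx hy => rw [map_add, map_add, map_add, hx, hy]
  | single g n => rw [i1_single, sw_single, i2_single]; rfl

theorem sw_i2 (a : MonoidAlgebra ℤ G) : sw G (i2 G a) = i1 G a := by rw [← sw_i1, sw_sw]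

theorem sw_Del (a : MonoidAlgebra ℤ G) : sw G (Del G a) = Del G a := by
  induction a using MonoidAlgebra.induction_linear with
  | zero => simp
  | add x y hx hy => rw [map_add, map_add, hx, hy]
  | single g n => rw [Del_single, sw_single]; rfl

theorem i1_i2_comm (a b : MonoidAlgebra ℤ G) : i1 G a * i2 G b = i2 G b * i1 G a := by
  induction a using MonoidAlgebra.induction_linear with
  | zero => simp
  | add x y hx hy => rw [map_add, add_mul, mul_add, hx, hy]
  | single g n =>
    induction b using MonoidAlgebra.induction_linear with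
    | zero => simp
    | add x y hx hy => rw [map_add, add_mul, mul_add, hx, hy]
    | single h m =>
      rw [i1_single, i2_single, MonoidAlgebra.single_mul_single, MonoidAlgebra.single_mul_single,
        Prod.mk_mul_mk, Prod.mk_mul_mk, mul_one, one_mul, one_mul, mul_one, mul_comm n m]

/-- `a ⊗ a` and `Δ(a)` are congruent modulo norms. -/
theorem exists_norm (a : MonoidAlgebra ℤ G) :
    ∃ z, i1 G a * i2 G a - Del G a = z + sw G z := by
  induction a using MonoidAlgebra.induction_linear with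
  | zero => exact ⟨0, by simp⟩
  | add x y hx hy =>
    obtain ⟨z, hz⟩ := hx
    obtain ⟨w, hw⟩ := hy
    refine ⟨z + w + i1 G x * i2 G y, ?_⟩
    have e1 : sw G (i1 G x * i2 G y) = i1 G y * i2 G x := by
      rw [map_mul, sw_i1, sw_i2, i1_i2_comm]
    rw [map_add (sw G) (z + w), map_add (sw G) z w, e1, map_add (i1 G), map_add (i2 G),
      map_add (Del G)]
    have e2 : (i1 G x + i1 G y) * (i2 G x + i2 G y) - (Del G x + Del G y) =
      (i1 G x * i2 G x - Del G x) + (i1 G y * i2 G y - Del G y) + i1 G x * i2 G y +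
        i1 G y * i2 G x := by noncomm_ring
    rw [e2, hz, hw]
    abel
  | single g n =>
    obtain ⟨m, hm⟩ : ∃ m : ℤ, n * n - n = m + m := by
      obtain ⟨m, hm⟩ := (Int.even_mul_pred_self n)
      exact ⟨m, by rw [← hm]; ring⟩
    refine ⟨MonoidAlgebra.single (g, g) m, ?_⟩
    rw [i1_single, i2_single, Del_single, sw_single, MonoidAlgebra.single_mul_single,
      Prod.mk_mul_mk, mul_one, one_mul, ← MonoidAlgebra.single_sub, hm, Prod.swap_prod_mk,
      ← MonoidAlgebra.single_add]

/-- the functional `(g, h) ↦ f (g h)` -/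
noncomputable def k0 (f : G → ℤ) : MonoidAlgebra ℤ (G × G) →+ ℤ := fn fun p => f (p.1 * p.2)

theorem k0_tw (f : G → ℤ) (hf : ∀ x y, f (x * y) = f (y * x)) (a b : MonoidAlgebra ℤ (G × G)) :
    k0 f (a * b) = k0 f (b * sw G a) := by
  induction a using MonoidAlgebra.induction_linear with
  | zero => simp
  | add x y hx hy => rw [add_mul, map_add, map_add, mul_add, map_add, hx, hy]
  | single p n =>
    induction b using MonoidAlgebra.induction_linear with
    | zero => simp
    | add x y hx hy => rw [mul_add, map_add, add_mul, map_add, hx, hy]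
    | single q m =>
      rw [sw_single, MonoidAlgebra.single_mul_single, MonoidAlgebra.single_mul_single, k0,
        fn_single, fn_single]
      obtain ⟨g, h⟩ := p
      obtain ⟨g', h'⟩ := q
      simp only [Prod.swap_prod_mk, Prod.mk_mul_mk]
      have : f (g * g' * (h * h')) = f (g' * h * (h' * g)) := by
        rw [mul_assoc, hf]
        congr 1
        group
      rw [this, mul_comm n m]

theorem k0_i1 (f : G → ℤ) (a : MonoidAlgebra ℤ G) : k0 f (i1 G a) = fn f a := by
  rw [k0, i1, fn_gr]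
  simp

theorem k0_Del (f : G → ℤ) (a : MonoidAlgebra ℤ G) :
    k0 f (Del G a) = fn (fun g => f (g * g)) a := by
  rw [k0, Del, fn_gr]
  simp

/-- The twisted trace on `ℤ[G × G]`. -/
noncomputable def t0 (f : G → ℤ) (hf : ∀ x y, f (x * y) = f (y * x)) :
    TwTr (MonoidAlgebra ℤ (G × G)) where
  s := sw G
  inv := sw_sw
  κ := k0 f
  tw := k0_tw f hf

end Two

end Pool.Agent.H71.WH

end

section

/-!
# The twisted trace on matrices over `ℤ[G × G]`
-/

set_option autoImplicit false
set_option linter.unusedSectionVars false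

open Matrix

universe u v w

namespace Pool.Agent.H71.WH

section Emb

variable {R : Type u} [Ring R] {ι κ μ : Type*} [Fintype ι] [DecidableEq ι] [Fintype κ]
  [DecidableEq κ] [Fintype μ] [DecidableEq μ]

/-- the matrix of an injective map -/
def vm (R : Type u) [Ring R] {ι κ : Type*} [DecidableEq κ] (ε : ι ↪ κ) : Matrix κ ι R :=
  Matrix.of fun a i => if a = ε i then 1 else 0

theorem vm_mul (ε : ι ↪ κ) : (vm R ε)ᵀ * vm R ε = 1 := by
  ext i k
  simp only [vm, Matrix.mul_apply, transpose_apply, of_apply]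
  rw [Finset.sum_eq_single (ε i)]
  · rw [if_pos rfl, one_mul, Matrix.one_apply]
    simp only [EmbeddingLike.apply_eq_iff_eq]
  · intro b _ hb
    rw [if_neg hb, zero_mul]
  · intro h
    exact absurd (Finset.mem_univ _) h

/-- Extension of matrices by zero along an injective map of the index sets. -/
def emb (ε : ι ↪ κ) : Matrix ι ι R →ₙ+* Matrix κ κ R where
  toFun w := vm R ε * w * (vm R ε)ᵀ
  map_zero' := by rw [Matrix.mul_zero, Matrix.zero_mul]
  map_add' w w' := by rw [Matrix.mul_add, Matrix.add_mul]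
  map_mul' w w' := by
    calc vm R ε * (w * w') * (vm R ε)ᵀ =
        vm R ε * w * (1 : Matrix ι ι R) * w' * (vm R ε)ᵀ := by
          rw [Matrix.mul_one]; simp only [Matrix.mul_assoc]
      _ = _ := by rw [← vm_mul ε]; simp only [Matrix.mul_assoc]

theorem emb_apply (ε : ι ↪ κ) (w : Matrix ι ι R) (i k : ι) : emb ε w (ε i) (ε k) = w i k := by
  change (vm R ε * w * (vm R ε)ᵀ) (ε i) (ε k) = _
  rw [Matrix.mul_apply, Finset.sum_eq_single k]
  · rw [Matrix.mul_apply, Finset.sum_eq_single i]
    · simp [vm]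
    · intro b _ hb
      have : ε i ≠ ε b := fun h => hb (ε.injective h).symm
      simp [vm, this]
    · intro h
      exact absurd (Finset.mem_univ _) h
  · intro b _ hb
    have : ε k ≠ ε b := fun h => hb (ε.injective h).symm
    simp [vm, this]
  · intro h
    exact absurd (Finset.mem_univ _) h

theorem emb_zero_left (ε : ι ↪ κ) (w : Matrix ι ι R) {a : κ} (h : ∀ i, a ≠ ε i) (b : κ) :
    emb ε w a b = 0 := by
  change (vm R ε * w * (vm R ε)ᵀ) a b = _
  rw [Matrix.mul_apply]
  apply Finset.sum_eq_zero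
  intro k _
  rw [Matrix.mul_apply, Finset.sum_eq_zero, zero_mul]
  intro i _
  simp [vm, h i]

theorem emb_zero_right (ε : ι ↪ κ) (w : Matrix ι ι R) (a : κ) {b : κ} (h : ∀ i, b ≠ ε i) :
    emb ε w a b = 0 := by
  change (vm R ε * w * (vm R ε)ᵀ) a b = _
  rw [Matrix.mul_apply]
  apply Finset.sum_eq_zero
  intro k _
  simp [vm, h k]

/-- Matrices of the form `emb ε w` are determined by their entries. -/
theorem eq_emb (ε : ι ↪ κ) (w : Matrix ι ι R) (F : Matrix κ κ R)
    (h1 : ∀ i k, F (ε i) (ε k) = w i k) (h2 : ∀ a b, (∀ i, a ≠ ε i) → F a b = 0)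
    (h3 : ∀ a b, (∀ i, b ≠ ε i) → F a b = 0) : F = emb ε w := by
  ext a b
  by_cases ha : ∃ i, a = ε i
  · obtain ⟨i, rfl⟩ := ha
    by_cases hb : ∃ k, b = ε k
    · obtain ⟨k, rfl⟩ := hb
      rw [h1, emb_apply]
    · push Not at hb
      rw [h3 _ _ hb, emb_zero_right _ _ _ hb]
  · push Not at ha
    rw [h2 _ _ ha, emb_zero_left _ _ ha]

/-- A non-unital homomorphism extended to the units. -/
def unitExt {S : Type v} [Ring S] (J : R →ₙ+* S) : Rˣ →* Sˣ where
  toFun u :=
    { val := J u + (1 - J 1)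
      inv := J (u⁻¹ : Rˣ) + (1 - J 1)
      val_inv := by
        have he : ∀ x : R, J x * (1 - J 1) = 0 := by
          intro x
          rw [mul_sub, mul_one, ← map_mul, mul_one, sub_self]
        have he' : ∀ x : R, (1 - J 1) * J x = 0 := by
          intro x
          rw [sub_mul, one_mul, ← map_mul, one_mul, sub_self]
        rw [add_mul, mul_add, mul_add, ← map_mul, Units.mul_inv, he, he', mul_sub, mul_one,
          he' 1]
        abel
      inv_val := by
        have he : ∀ x : R, J x * (1 - J 1) = 0 := by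
          intro x
          rw [mul_sub, mul_one, ← map_mul, mul_one, sub_self]
        have he' : ∀ x : R, (1 - J 1) * J x = 0 := by
          intro x
          rw [sub_mul, one_mul, ← map_mul, one_mul, sub_self]
        rw [add_mul, mul_add, mul_add, ← map_mul, Units.inv_mul, he, he', mul_sub, mul_one,
          he' 1]
        abel }
  map_one' := by
    apply Units.ext
    change J ((1 : Rˣ) : R) + (1 - J 1) = 1
    rw [Units.val_one]
    abel
  map_mul' u w := by
    apply Units.ext
    change J ((u * w : Rˣ) : R) + (1 - J 1) = (J u + (1 - J 1)) * (J w + (1 - J 1))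
    have he : ∀ x : R, J x * (1 - J 1) = 0 := by
      intro x
      rw [mul_sub, mul_one, ← map_mul, mul_one, sub_self]
    have he' : ∀ x : R, (1 - J 1) * J x = 0 := by
      intro x
      rw [sub_mul, one_mul, ← map_mul, one_mul, sub_self]
    rw [add_mul, mul_add, mul_add, ← map_mul, Units.val_mul, he, he', mul_sub, mul_one,
      he' 1]
    abel

theorem unitExt_val {S : Type v} [Ring S] (J : R →ₙ+* S) (u : Rˣ) :
    (unitExt J u : S) = J u + (1 - J 1) := rfl

end Emb

section Tw

variable {R : Type u} [Ring R] (t : TwTr R) (ι : Type v) [Fintype ι] [DecidableEq ι]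

/-- The involution on matrices. -/
def sMat : Matrix (ι × ι) (ι × ι) R →+* Matrix (ι × ι) (ι × ι) R where
  toFun F := Matrix.of fun P Q => t.s (F P.swap Q.swap)
  map_zero' := by ext P Q; simp
  map_one' := by
    ext P Q
    rw [of_apply, Matrix.one_apply, Matrix.one_apply]
    have : P.swap = Q.swap ↔ P = Q := Prod.swap_injective.eq_iff
    simp only [this]
    split_ifs <;> simp
  map_add' F F' := by ext P Q; simp
  map_mul' F F' := by
    ext P Q
    simp only [of_apply, Matrix.mul_apply, map_sum, map_mul]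
    exact ((Equiv.prodComm ι ι).sum_comp (fun X => t.s (F P.swap X) * t.s (F' X Q.swap))).symm

theorem sMat_apply (F : Matrix (ι × ι) (ι × ι) R) (P Q : ι × ι) :
    sMat t ι F P Q = t.s (F P.swap Q.swap) := rfl

/-- The twisted trace on matrices. -/
def kMat : Matrix (ι × ι) (ι × ι) R →+ ℤ where
  toFun F := ∑ P, t.κ (F P P.swap)
  map_zero' := by simp
  map_add' F F' := by simp [Finset.sum_add_distrib]

theorem kMat_apply (F : Matrix (ι × ι) (ι × ι) R) : kMat t ι F = ∑ P, t.κ (F P P.swap) := rfl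

theorem kMat_tw (F F' : Matrix (ι × ι) (ι × ι) R) :
    kMat t ι (F * F') = kMat t ι (F' * sMat t ι F) := by
  rw [kMat_apply, kMat_apply]
  simp only [Matrix.mul_apply, map_sum, sMat_apply, Prod.swap_swap]
  rw [Finset.sum_comm]
  apply Finset.sum_congr rfl
  intro Q _
  rw [← (Equiv.prodComm ι ι).sum_comp]
  apply Finset.sum_congr rfl
  intro P _
  rw [t.tw]
  rfl

/-- The structure on matrices. -/
def mat : TwTr (Matrix (ι × ι) (ι × ι) R) where
  s := sMat t ι
  inv F := by
    ext P Q
    rw [sMat_apply, sMat_apply, t.inv, Prod.swap_swap, Prod.swap_swap]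
  κ := kMat t ι
  tw := kMat_tw t ι

/-- Matrices fixed by the involution are norms if the entries fixed by the exchange are. -/
theorem exists_half (F : Matrix (ι × ι) (ι × ι) R) (hF : (mat t ι).s F = F)
    (h : ∀ i k, ∃ x, F (i, i) (k, k) = x + t.s x) : ∃ Z, F = Z + (mat t ι).s Z := by
  classical
  let e := Fintype.equivFin ((ι × ι) × (ι × ι))
  choose x hx using h
  let Z : Matrix (ι × ι) (ι × ι) R := Matrix.of fun P Q =>
    if e (P, Q) < e (P.swap, Q.swap) then F P Q
    else if e (P, Q) = e (P.swap, Q.swap) then x P.1 Q.1 else 0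
  refine ⟨Z, ?_⟩
  ext P Q
  have hF' : t.s (F P.swap Q.swap) = F P Q := congrFun (congrFun hF P) Q
  change F P Q = Z P Q + t.s (Z P.swap Q.swap)
  simp only [Z, of_apply, Prod.swap_swap]
  rcases lt_trichotomy (e (P, Q)) (e (P.swap, Q.swap)) with h1 | h1 | h1
  · rw [if_pos h1, if_neg (not_lt.2 h1.le), if_neg h1.ne', map_zero, add_zero]
  · rw [if_neg (by rw [h1]; exact lt_irrefl _), if_pos h1, if_neg (by rw [h1]; exact lt_irrefl _),
      if_pos h1.symm]
    have h2 := e.injective h1
    have hP : P = P.swap := congrArg Prod.fst h2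
    have hQ : Q = Q.swap := congrArg Prod.snd h2
    obtain ⟨i, j⟩ := P
    obtain ⟨k, l⟩ := Q
    simp only [Prod.swap_prod_mk, Prod.mk.injEq] at hP hQ
    obtain ⟨rfl, -⟩ := hP
    obtain ⟨rfl, -⟩ := hQ
    exact hx i k
  · rw [if_neg (not_lt.2 h1.le), if_neg h1.ne', if_pos h1, zero_add, hF']

end Tw

end Pool.Agent.H71.WH

end

section

/-!
# The homomorphism `Gam : GL(ℤ[G]) → ℚ₂`
-/

set_option autoImplicit false
set_option linter.unusedSectionVars false

open Matrix

universe u v w

namespace Pool.Agent.H71.WH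

theorem mul_aux {R : Type u} [Ring R] (a b c d : R) (h : c * b = b * c) :
    a * b * (c * d) = a * c * (b * d) := by
  rw [mul_assoc, ← mul_assoc b c, ← h]
  simp only [mul_assoc]

theorem grp_aux {H : Type u} [Group H] (a b c d : H) :
    (a * b)⁻¹ * (c * d) = (b⁻¹ * (a⁻¹ * c) * b) * (b⁻¹ * d) := by group

section

variable {G : Type u} [Group G] (f : G → ℤ) (hf : ∀ x y, f (x * y) = f (y * x))
  (ι : Type v) [Fintype ι] [DecidableEq ι]

/-- matrices over `ℤ[G × G]` -/
abbrev MM (G : Type u) [Group G] (ι : Type v) : Type (max u v) :=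
  Matrix (ι × ι) (ι × ι) (MonoidAlgebra ℤ (G × G))

/-- the twisted trace on matrices over `ℤ[G × G]` -/
noncomputable def tG : TwTr (MM G ι) := mat (t0 f hf) ι

theorem tG_s (F : MM G ι) (P Q : ι × ι) : (tG f hf ι).s F P Q = sw G (F P.swap Q.swap) := rfl

theorem tG_κ (F : MM G ι) : (tG f hf ι).κ F = ∑ P, k0 f (F P P.swap) := rfl

/-- `u ⊗ 1` -/
noncomputable def k1 : Matrix ι ι (MonoidAlgebra ℤ G) →+* MM G ι :=
  (blockDiagonalRingHom ι ι (MonoidAlgebra ℤ (G × G))).comp
    (RingHom.pi fun _ => (i1 G).mapMatrix)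

/-- `1 ⊗ u` -/
noncomputable def k2 : Matrix ι ι (MonoidAlgebra ℤ G) →+* MM G ι :=
  (tG (fun _ : G => 0) (fun _ _ => rfl) ι).s.comp (k1 ι)

variable {ι}

theorem k1_apply (w : Matrix ι ι (MonoidAlgebra ℤ G)) (P Q : ι × ι) :
    k1 ι w P Q = if P.2 = Q.2 then i1 G (w P.1 Q.1) else 0 :=
  blockDiagonal_apply _ P Q

theorem k2_apply (w : Matrix ι ι (MonoidAlgebra ℤ G)) (P Q : ι × ι) :
    k2 ι w P Q = if P.1 = Q.1 then i2 G (w P.2 Q.2) else 0 := by
  change sw G (k1 ι w P.swap Q.swap) = _
  rw [k1_apply]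
  simp only [Prod.fst_swap, Prod.snd_swap]
  split_ifs
  · rw [sw_i1]
  · rw [map_zero]

theorem s_k1 (w : Matrix ι ι (MonoidAlgebra ℤ G)) : (tG f hf ι).s (k1 ι w) = k2 ι w := rfl

theorem s_k2 (w : Matrix ι ι (MonoidAlgebra ℤ G)) : (tG f hf ι).s (k2 ι w) = k1 ι w := by
  rw [← s_k1 f hf, (tG f hf ι).inv]

theorem k12_apply (w w' : Matrix ι ι (MonoidAlgebra ℤ G)) (P Q : ι × ι) :
    (k1 ι w * k2 ι w') P Q = i1 G (w P.1 Q.1) * i2 G (w' P.2 Q.2) := by
  rw [Matrix.mul_apply, Finset.sum_eq_single (Q.1, P.2)]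
  · rw [k1_apply, k2_apply, if_pos rfl, if_pos rfl]
  · rintro ⟨a, b⟩ _ hX
    rw [k1_apply, k2_apply]
    by_cases h1 : P.2 = b
    · by_cases h2 : a = Q.1
      · exact absurd (by rw [h2, ← h1]) hX
      · rw [if_neg h2, mul_zero]
    · rw [if_neg h1, zero_mul]
  · intro h
    exact absurd (Finset.mem_univ _) h

theorem k21 (w w' : Matrix ι ι (MonoidAlgebra ℤ G)) :
    k2 ι w' * k1 ι w = k1 ι w * k2 ι w' := by
  ext P Q : 1
  rw [k12_apply, Matrix.mul_apply, Finset.sum_eq_single (P.1, Q.2)]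
  · rw [k1_apply, k2_apply, if_pos rfl, if_pos rfl, i1_i2_comm]
  · rintro ⟨a, b⟩ _ hX
    rw [k1_apply, k2_apply]
    by_cases h1 : P.1 = a
    · by_cases h2 : b = Q.2
      · exact absurd (by rw [h2, ← h1]) hX
      · rw [if_neg h2, mul_zero]
    · rw [if_neg h1, zero_mul]
  · intro h
    exact absurd (Finset.mem_univ _) h

/-- the diagonal -/
def dg (ι : Type v) : ι ↪ ι × ι := ⟨fun i => (i, i), fun _ _ h => congrArg Prod.fst h⟩

variable (ι) in
/-- the map induced by the diagonal of `G` -/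
noncomputable def psi : Matrix ι ι (MonoidAlgebra ℤ G) →ₙ+* MM G ι :=
  (emb (dg ι)).comp ((Del G).mapMatrix : Matrix ι ι (MonoidAlgebra ℤ G) →+* _).toNonUnitalRingHom

theorem psi_eq (w : Matrix ι ι (MonoidAlgebra ℤ G)) : psi ι w = emb (dg ι) (w.map (Del G)) := rfl

theorem swap_ne_dg {P : ι × ι} (h : ∀ i, P ≠ dg ι i) (i : ι) : P.swap ≠ dg ι i := by
  intro h'
  apply h i
  rw [← Prod.swap_swap P, h']
  rfl

theorem s_psi (w : Matrix ι ι (MonoidAlgebra ℤ G)) : (tG f hf ι).s (psi ι w) = psi ι w := by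
  rw [psi_eq]
  apply eq_emb
  · intro i k
    rw [tG_s]
    change sw G (emb (dg ι) (w.map (Del G)) (dg ι i) (dg ι k)) = _
    rw [emb_apply, Matrix.map_apply, sw_Del]
  · intro P Q hP
    rw [tG_s, emb_zero_left _ _ (swap_ne_dg hP), map_zero]
  · intro P Q hQ
    rw [tG_s, emb_zero_right _ _ _ (swap_ne_dg hQ), map_zero]

/-- `u ⊗ u` -/
noncomputable def TT (u : (Matrix ι ι (MonoidAlgebra ℤ G))ˣ) : (MM G ι)ˣ :=
  Units.map (k1 (G := G) ι).toMonoidHom u * Units.map (k2 (G := G) ι).toMonoidHom u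

/-- the diagonal image -/
noncomputable def PP : (Matrix ι ι (MonoidAlgebra ℤ G))ˣ →* (MM G ι)ˣ := unitExt (psi ι)

theorem TT_val (u : (Matrix ι ι (MonoidAlgebra ℤ G))ˣ) :
    (TT u : MM G ι) = k1 ι u * k2 ι u := rfl

theorem PP_val (u : (Matrix ι ι (MonoidAlgebra ℤ G))ˣ) :
    (PP u : MM G ι) = psi ι u + (1 - psi ι 1) := rfl

/-- the quotient -/
noncomputable def gg (u : (Matrix ι ι (MonoidAlgebra ℤ G))ˣ) : (MM G ι)ˣ := (PP u)⁻¹ * TT u

theorem TT_mul (u w : (Matrix ι ι (MonoidAlgebra ℤ G))ˣ) : TT (u * w) = TT u * TT w := by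
  have e1 : (TT (u * w) : MM G ι) = k1 ι u * k1 ι w * (k2 ι u * k2 ι w) := by
    rw [TT_val, Units.val_mul, map_mul, map_mul]
  have e2 : ((TT u * TT w : (MM G ι)ˣ) : MM G ι) = k1 ι u * k2 ι u * (k1 ι w * k2 ι w) := by
    rw [Units.val_mul, TT_val, TT_val]
  apply Units.ext
  rw [e1, e2]
  exact mul_aux _ _ _ _ (k21 _ _)

theorem gg_mul (u w : (Matrix ι ι (MonoidAlgebra ℤ G))ˣ) :
    gg (u * w) = ((PP w)⁻¹ * gg u * PP w) * gg w := by
  rw [gg, gg, gg, map_mul, TT_mul]
  exact grp_aux _ _ _ _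

theorem s_PP (u : (Matrix ι ι (MonoidAlgebra ℤ G))ˣ) : (tG f hf ι).s (PP u) = (PP u : MM G ι) := by
  rw [PP_val, map_add, map_sub, map_one, s_psi, s_psi]

theorem s_TT (u : (Matrix ι ι (MonoidAlgebra ℤ G))ˣ) : (tG f hf ι).s (TT u) = (TT u : MM G ι) := by
  rw [TT_val, map_mul, s_k1, s_k2, k21]

theorem PP_dg (u : (Matrix ι ι (MonoidAlgebra ℤ G))ˣ) (i k : ι) :
    (PP u : MM G ι) (i, i) (k, k) = Del G ((u : Matrix ι ι _) i k) := by
  have h1 : ∀ w : Matrix ι ι (MonoidAlgebra ℤ G), psi ι w (i, i) (k, k) = Del G (w i k) :=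
    fun w => emb_apply (dg ι) _ i k
  rw [PP_val, Matrix.add_apply, Matrix.sub_apply, h1, h1]
  by_cases hik : i = k
  · subst hik
    rw [Matrix.one_apply_eq, Matrix.one_apply_eq, map_one, sub_self, add_zero]
  · rw [Matrix.one_apply_ne hik, Matrix.one_apply_ne (fun h => hik (congrArg Prod.fst h)),
      map_zero, sub_self, add_zero]

theorem exists_T_sub (u : (Matrix ι ι (MonoidAlgebra ℤ G))ˣ) :
    ∃ z : MM G ι, (TT u : MM G ι) - PP u = z + (tG f hf ι).s z := by
  apply exists_half
  · change (tG f hf ι).s _ = _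
    rw [map_sub, s_PP, s_TT]
  · intro i k
    rw [Matrix.sub_apply, PP_dg, TT_val, k12_apply]
    exact exists_norm _

end

end Pool.Agent.H71.WH

end
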