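import Pool.Agent.H13.TFQ.M18
import Pool.Agent.H13.TFQ.M19

/-! The parts of this file: H71.WH.Gam4, H71.WH.Gam_1. -/

section

/-!
# The value of `Gam` on matrices congruent to `1` modulo `4`
-/

set_option autoImplicit false
set_option linter.unusedSectionVars false
set_option linter.unusedSimpArgs false

open Matrix

universe u v w

namespace Pool.Agent.H71.WH

theorem L_one_add {R : Type u} [Ring R] (τ : R →+ ℤ) (x : R) : L τ (1 + x) = tl τ x := by
  rw [L, add_sub_cancel_left]

namespace TwTr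

variable {M : Type u} [Ring M] (t : TwTr M)

theorem L_fix {x y : M} (hx : t.s x = x) (hy : t.s y = y) :
    L t.κ ((1 + 2 * x) * (1 + 2 * y)) = L t.κ (1 + 2 * x) + L t.κ (1 + 2 * y) := by
  let S : Subring M := RingHom.eqLocus t.s (RingHom.id M)
  let x' : S := ⟨x, hx⟩
  let y' : S := ⟨y, hy⟩
  have key := L_mul (pull S.subtype t.κ) (by
    intro a b
    have h1 : t.κ ((a : M) * b) = t.κ ((b : M) * a) := by
      rw [t.tw]
      exact congrArg (fun c => t.κ ((b : M) * c)) a.2
    exact h1) (w := 1 + 2 * x') (w' := 1 + 2 * y') ⟨x', rfl⟩ ⟨y', rfl⟩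
  rw [← L_map, ← L_map, ← L_map] at key
  exact key

end TwTr

section

variable {G : Type u} [Group G] (f : G → ℤ) (hf : ∀ x y, f (x * y) = f (y * x))
  {ι : Type v} [Fintype ι] [DecidableEq ι]

/-- the trace followed by the functional of `f` -/
noncomputable def trf (f : G → ℤ) (ι : Type v) [Fintype ι] :
    Matrix ι ι (MonoidAlgebra ℤ G) →+ ℤ :=
  (fn f).comp (Matrix.traceAddMonoidHom ι (MonoidAlgebra ℤ G))

theorem trf_apply (w : Matrix ι ι (MonoidAlgebra ℤ G)) : trf f ι w = fn f (trace w) := rfl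

theorem κ_k1 (w : Matrix ι ι (MonoidAlgebra ℤ G)) : (tG f hf ι).κ (k1 ι w) = trf f ι w := by
  rw [tG_κ, trf_apply, trace, map_sum, Fintype.sum_prod_type]
  apply Finset.sum_congr rfl
  intro i _
  have h1 : ∀ j, k1 ι w (i, j) (i, j).swap = if j = i then i1 G (w i j) else 0 :=
    fun j => k1_apply w (i, j) (j, i)
  simp only [h1]
  rw [Finset.sum_eq_single i]
  · rw [if_pos rfl]
    exact k0_i1 f _
  · intro j _ hj
    rw [if_neg hj, map_zero]
  · intro h
    exact absurd (Finset.mem_univ _) h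

theorem κ_psi (w : Matrix ι ι (MonoidAlgebra ℤ G)) :
    (tG f hf ι).κ (psi ι w) = trf (fun g => f (g * g)) ι w := by
  rw [tG_κ, trf_apply, trace, map_sum, Fintype.sum_prod_type]
  apply Finset.sum_congr rfl
  intro i _
  rw [Finset.sum_eq_single i]
  · rw [psi_eq]
    change k0 f (emb (dg ι) (w.map (Del G)) (dg ι i) (dg ι i)) = _
    rw [emb_apply]
    exact k0_Del f _
  · intro j _ hj
    rw [psi_eq, emb_zero_left, map_zero]
    intro k hk
    have h1 : i = k := congrArg Prod.fst hk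
    have h2 : j = k := congrArg Prod.snd hk
    exact hj (h2.trans h1.symm)
  · intro h
    exact absurd (Finset.mem_univ _) h

theorem psi_four (x : Matrix ι ι (MonoidAlgebra ℤ G)) : psi ι (4 * x) = 4 * psi ι x := by
  have h1 : ∀ {R : Type (max u v)} [Ring R] (y : R), 4 * y = y + y + y + y := by
    intro R _ y
    have : (4 : R) = 1 + 1 + 1 + 1 := by norm_num
    rw [this]
    noncomm_ring
  rw [h1, h1, map_add, map_add, map_add]

end

end Pool.Agent.H71.WH

end

section

/-!
# The homomorphism `Gam : GL(ℤ[G]) → ℚ₂`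
-/

set_option autoImplicit false
set_option linter.unusedSectionVars false

open Matrix

universe u v w

namespace Pool.Agent.H71.WH

section

variable {G : Type u} [Group G] (f : G → ℤ) (hf : ∀ x y, f (x * y) = f (y * x))
  (ι : Type v) [Fintype ι] [DecidableEq ι]

variable {ι}

theorem gg_adm (u : (Matrix ι ι (MonoidAlgebra ℤ G))ˣ) : (tG f hf ι).Adm (gg u) := by
  obtain ⟨z, hz⟩ := exists_T_sub f hf u
  refine ⟨((PP u)⁻¹ : (MM G ι)ˣ) * z, ?_⟩
  rw [map_mul, TwTr.s_inv _ (s_PP f hf u), add_assoc, ← mul_add, ← hz, mul_sub, Units.inv_mul,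
    gg, Units.val_mul]
  abel

/-- The homomorphism `GL(ℤ[G]) → ℚ₂` defined by a class function. -/
noncomputable def Gam (u : (Matrix ι ι (MonoidAlgebra ℤ G))ˣ) : ℚ_[2] := (tG f hf ι).Lam (gg u)

theorem Gam_mul (u w : (Matrix ι ι (MonoidAlgebra ℤ G))ˣ) :
    Gam f hf (u * w) = Gam f hf u + Gam f hf w := by
  rw [Gam, gg_mul, TwTr.Lam_mul _ (TwTr.Adm.conj _ (gg_adm f hf u) (s_PP f hf w)) (gg_adm f hf w),
    TwTr.Lam_conj _ (gg_adm f hf u) (s_PP f hf w)]
  rfl

theorem Gam_one : Gam f hf (1 : (Matrix ι ι (MonoidAlgebra ℤ G))ˣ) = 0 := by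
  have := Gam_mul f hf (1 : (Matrix ι ι (MonoidAlgebra ℤ G))ˣ) 1
  rw [mul_one] at this
  exact (add_eq_left.1 this.symm)

end

end Pool.Agent.H71.WH

end
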