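import Pool.Agent.H13.TFQ.M01
import Pool.Agent.H13.TFQ.M06
import Pool.Agent.H13.TFQ.M07
import Pool.Agent.H13.TFQ.M08

/-! The parts of this file: H71.FJ.Nil_1, H71.WH.Skew_1, H71.WH.Skew2_1, H95.KM.Defs. -/

section

/-!
# Nilpotent kernels: lifting of idempotent matrices
-/

set_option autoImplicit false

open Matrix

universe u v w

namespace Pool.Agent.H71.FJ

variable {R : Type u} [Ring R] {S : Type v} [Ring S]

/-- Lifts of equivalent idempotents are equivalent. -/
theorem matEquiv_of_map {φ : R →+* S} (hs : Function.Surjective φ) (h : NilKer φ) {ι κ : Type*}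
    [Fintype ι] [DecidableEq ι] [Fintype κ] [DecidableEq κ] {e : Matrix ι ι R} {f : Matrix κ κ R}
    (he : e * e = e) (hf : f * f = f) (hef : MatEquiv (e.map φ) (f.map φ)) : MatEquiv e f := by
  obtain ⟨xb, yb, h1, h2⟩ := hef
  choose g hg using hs
  obtain ⟨x, hx⟩ : ∃ x : Matrix ι κ R, x = e * (xb.map g) * f := ⟨_, rfl⟩
  obtain ⟨y, hy⟩ : ∃ y : Matrix κ ι R, y = f * (yb.map g) * e := ⟨_, rfl⟩
  have hxm : x.map φ = xb * yb * xb * (f.map φ) := by
    rw [hx, Matrix.map_mul, Matrix.map_mul]
    have : (xb.map g).map φ = xb := by ext i j; simp [hg]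
    rw [this, ← h1]
  have hym : y.map φ = yb * xb * yb * (e.map φ) := by
    rw [hy, Matrix.map_mul, Matrix.map_mul]
    have : (yb.map g).map φ = yb := by ext i j; simp [hg]
    rw [this, ← h2]
  have hee : (xb * yb) * (xb * yb) = xb * yb := by rw [h1]; exact K0.map_idem φ he
  have hff : (yb * xb) * (yb * xb) = yb * xb := by rw [h2]; exact K0.map_idem φ hf
  have hex : e * x = x := by rw [hx, ← Matrix.mul_assoc, ← Matrix.mul_assoc, he]
  have hxf : x * f = x := by rw [hx, Matrix.mul_assoc, hf]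
  have hfy : f * y = y := by rw [hy, ← Matrix.mul_assoc, ← Matrix.mul_assoc, hf]
  have hye : y * e = y := by rw [hy, Matrix.mul_assoc, he]
  have hxy : (x * y).map φ = e.map φ := by
    rw [Matrix.map_mul, hxm, hym, ← h2, ← h1]
    calc xb * yb * xb * (yb * xb) * (yb * xb * yb * (xb * yb))
        = (xb * yb) * (xb * yb) * (xb * yb) * (xb * yb) * (xb * yb) := by
          simp only [Matrix.mul_assoc]
      _ = xb * yb := by simp only [hee]
  have hyx : (y * x).map φ = f.map φ := by
    rw [Matrix.map_mul, hxm, hym, ← h2, ← h1]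
    calc yb * xb * yb * (xb * yb) * (xb * yb * xb * (yb * xb))
        = (yb * xb) * (yb * xb) * (yb * xb) * (yb * xb) * (yb * xb) := by
          simp only [Matrix.mul_assoc]
      _ = yb * xb := by simp only [hff]
  have hn : IsNilpotent (e - x * y) := by
    apply (h.matrix ι).isNilpotent
    rw [map_sub, RingHom.mapMatrix_apply, RingHom.mapMatrix_apply, hxy, sub_self]
  have hu : IsUnit (1 - (e - x * y)) := hn.isUnit_one_sub
  obtain ⟨u, hu⟩ := hu
  have hue : (u : Matrix ι ι R) * e = x * y := by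
    rw [hu, Matrix.sub_mul, Matrix.one_mul, Matrix.sub_mul, he, Matrix.mul_assoc, hye]
    abel
  have heu : e * (u : Matrix ι ι R) = x * y := by
    rw [hu, Matrix.mul_sub, Matrix.mul_one, Matrix.mul_sub, he, ← Matrix.mul_assoc, hex]
    abel
  have hxyv : x * y * ((u⁻¹ : (Matrix ι ι R)ˣ) : Matrix ι ι R) = e := by
    rw [← heu, Matrix.mul_assoc, Units.mul_inv, Matrix.mul_one]
  have hve : ((u⁻¹ : (Matrix ι ι R)ˣ) : Matrix ι ι R) * (x * y) = e := by
    rw [← hue, ← Matrix.mul_assoc, Units.inv_mul, Matrix.one_mul]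
  have hvm : ((u⁻¹ : (Matrix ι ι R)ˣ) : Matrix ι ι R).map φ * (xb * yb) = xb * yb := by
    have := congrArg (fun z : Matrix ι ι R => z.map φ) hve
    simp only [Matrix.map_mul] at this
    rw [← Matrix.map_mul, hxy, ← h1] at this
    exact this
  refine ⟨x, y * ((u⁻¹ : (Matrix ι ι R)ˣ) : Matrix ι ι R), ?_, ?_⟩
  · rw [← Matrix.mul_assoc, hxyv]
  · set v : Matrix ι ι R := ((u⁻¹ : (Matrix ι ι R)ˣ) : Matrix ι ι R) with hv
    obtain ⟨q, hq⟩ : ∃ q : Matrix κ κ R, q = y * v * x := ⟨_, rfl⟩
    have hqq : q * q = q := by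
      calc q * q = y * (v * (x * y)) * v * x := by rw [hq]; simp only [Matrix.mul_assoc]
        _ = q := by rw [hve, hye, hq]
    have hfq : f * q = q := by rw [hq, ← Matrix.mul_assoc, ← Matrix.mul_assoc, hfy]
    have hqf : q * f = q := by rw [hq, Matrix.mul_assoc, hxf]
    have hqm : q.map φ = f.map φ := by
      rw [hq, Matrix.map_mul, Matrix.map_mul, hxm, hym, ← h1, ← h2]
      calc yb * xb * yb * (xb * yb) * v.map φ * (xb * yb * xb * (yb * xb))
          = yb * (xb * yb) * (xb * yb) * (v.map φ * (xb * yb)) * xb * (yb * xb) := by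
            simp only [Matrix.mul_assoc]
        _ = (yb * xb) * (yb * xb) * (yb * xb) * (yb * xb) * (yb * xb) := by
            rw [hvm]
            simp only [Matrix.mul_assoc]
        _ = yb * xb := by simp only [hff]
    have hdiff : f - q = 0 := by
      apply idem_nilpotent
      · rw [Matrix.sub_mul, Matrix.mul_sub, Matrix.mul_sub, hf, hqq, hfq, hqf]
        abel
      · apply (h.matrix κ).isNilpotent
        rw [map_sub, RingHom.mapMatrix_apply, RingHom.mapMatrix_apply, hqm, sub_self]
    rw [← hq]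
    exact (sub_eq_zero.1 hdiff).symm

namespace K0

/-- a lift of an idempotent matrix -/
noncomputable def liftIdem {φ : R →+* S} (hs : Function.Surjective φ) (h : NilKer φ)
    (a : IdemMat S) : IdemMat R where
  n := a.n
  mat := (exists_lift_idem hs h a.mat a.idem).choose
  idem := (exists_lift_idem hs h a.mat a.idem).choose_spec.1

theorem liftIdem_map {φ : R →+* S} (hs : Function.Surjective φ) (h : NilKer φ)
    (a : IdemMat S) : (liftIdem hs h a).mat.map φ = a.mat :=
  (exists_lift_idem hs h a.mat a.idem).choose_spec.2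

/-- The inverse of `K₀(R) → K₀(S)` for a surjection with nilpotent kernel. -/
noncomputable def nilLift {φ : R →+* S} (hs : Function.Surjective φ) (h : NilKer φ) :
    K0 S →+ K0 R :=
  lift (fun a => mk (liftIdem hs h a))
    (fun a b hab => mk_eq_of_equiv (matEquiv_of_map hs h (liftIdem hs h a).idem
      (liftIdem hs h b).idem (by rw [liftIdem_map, liftIdem_map]; exact hab)))
    (fun a b => by
      rw [← mk_sum]
      refine mk_eq_of_equiv (matEquiv_of_map hs h (liftIdem hs h (a.sum b)).idem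
        (IdemMat.sum _ _).idem ?_)
      rw [liftIdem_map]
      have : (IdemMat.sum (liftIdem hs h a) (liftIdem hs h b)).mat.map φ = (a.sum b).mat := by
        have h1 : (fromBlocks (liftIdem hs h a).mat 0 0 (liftIdem hs h b).mat).map φ =
            fromBlocks a.mat 0 0 b.mat := by
          rw [fromBlocks_map, liftIdem_map, liftIdem_map, Matrix.map_zero _ (map_zero φ),
            Matrix.map_zero _ (map_zero φ)]
          rfl
        have h2 : (IdemMat.sum (liftIdem hs h a) (liftIdem hs h b)).mat.map φ =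
            ((fromBlocks (liftIdem hs h a).mat 0 0 (liftIdem hs h b).mat).map φ).submatrix
              finSumFinEquiv.symm finSumFinEquiv.symm := rfl
        rw [h2, h1]
        rfl
      rw [this]
      exact matEquiv_refl (a.sum b).idem)

theorem map_nilLift {φ : R →+* S} (hs : Function.Surjective φ) (h : NilKer φ) (x : K0 S) :
    map φ (nilLift hs h x) = x := by
  have : (map φ).comp (nilLift hs h) = AddMonoidHom.id _ := by
    apply hom_ext
    intro a
    rw [AddMonoidHom.comp_apply, nilLift, lift_mk, map_mk, AddMonoidHom.id_apply, mk_eq_cls]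
    have := liftIdem_map hs h a
    exact cls_congr _ _ (by rw [this]; exact matEquiv_refl a.idem)
  exact DFunLike.congr_fun this x

theorem nilLift_map {φ : R →+* S} (hs : Function.Surjective φ) (h : NilKer φ) (x : K0 R) :
    nilLift hs h (map φ x) = x := by
  have : (nilLift hs h).comp (map φ) = AddMonoidHom.id _ := by
    apply hom_ext
    intro a
    rw [AddMonoidHom.comp_apply, map_mk, AddMonoidHom.id_apply, cls, nilLift, lift_mk]
    refine mk_eq_of_equiv (matEquiv_of_map hs h (liftIdem hs h _).idem a.idem ?_)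
    rw [liftIdem_map]
    exact toFin_equiv _ _
  exact DFunLike.congr_fun this x

theorem map_injective {φ : R →+* S} (hs : Function.Surjective φ) (h : NilKer φ) :
    Function.Injective (map φ) :=
  Function.LeftInverse.injective (nilLift_map hs h)

end K0

end Pool.Agent.H71.FJ

end

section

/-!
# The skew ring and the homomorphism `Lam`

Let `s` be an involutive automorphism of a ring `M` and `κ : M → ℤ` with `κ (a b) = κ (b s(a))`. For
a unit `g = 1 + z + s(z)` of `M` the element `v = 1 + z (1 + σ)` of the skew ring `M * C₂` is a unit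
and `v⁻¹ θ(v)` is congruent to `1` modulo `2`, where `θ(σ) = - σ`.
-/

set_option autoImplicit false

open Matrix

universe u v

namespace Pool.Agent.H71.WH

namespace TwTr

variable {M : Type u} [Ring M] (t : TwTr M)

theorem cong_θ (v : t.skewˣ) : Cong (((v⁻¹ : t.skewˣ) : t.skew) * t.θ v) := by
  obtain ⟨a, b, hab⟩ := t.exists_el (v : t.skew)
  refine ⟨-((v⁻¹ : t.skewˣ) * t.el 0 b), ?_⟩
  have h1 : t.θ v = v - 2 * t.el 0 b := by
    rw [hab, θ_el, two_mul, el_add, el_sub]
    congr 1 <;> abel
  rw [h1, mul_sub, Units.inv_mul]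
  noncomm_ring

/-- the homomorphism on the units of the skew ring -/
noncomputable def lam (v : t.skewˣ) : ℚ_[2] :=
  -(1 / 2) * L t.τ (((v⁻¹ : t.skewˣ) : t.skew) * t.θ v)

end TwTr

end Pool.Agent.H71.WH

end

section

/-!
# Independence of the choice of `z`
-/

set_option autoImplicit false

open Matrix

universe u v

namespace Pool.Agent.H71.WH

namespace TwTr

variable {M : Type u} [Ring M] (t : TwTr M)

/-- the value of `lam` on `1 + y (1 + σ)` for `y + s y = 0` -/
noncomputable def lamY (y : M) (hy : y + t.s y = 0) : ℚ_[2] := t.lam (t.vU y 1 (t.cond_one hy))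

theorem lam_congr {z z' : M} {g g' : Mˣ} (h : (g : M) = 1 + z + t.s z)
    (h' : (g' : M) = 1 + z' + t.s z') (hz : z = z') : t.lam (t.vU z g h) = t.lam (t.vU z' g' h') := by
  subst hz
  have : g = g' := Units.ext (h.trans h'.symm)
  subst this
  rfl

theorem norm_lamY_pow {y : M} (hy : y + t.s y = 0) (k : ℕ) :
    ‖t.lamY (2 ^ k * y) (t.pow_cond hy k)‖ ≤ 2 * ((2 : ℝ) ^ (2 * k))⁻¹ := by
  rw [lamY, lam, norm_mul, norm_half, inv_θ]
  apply mul_le_mul_of_nonneg_left _ (by norm_num)
  rw [L, add_sub_cancel_left]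
  have hs : t.s y = -y := eq_neg_of_add_eq_zero_right hy
  have hc : ∀ a : M, a * 2 ^ k = 2 ^ k * a := fun a => (two_pow_comm k a).symm
  have hsp : t.s (2 ^ k * y) = -(2 ^ k * y) := by
    rw [map_mul, map_pow, map_ofNat, hs, mul_neg]
  have e1 : (2 : t.skew) * t.el (2 ^ k * y * ((1⁻¹ : Mˣ) : M) * t.s (2 ^ k * y))
      (-(2 ^ k * y * ((1⁻¹ : Mˣ) : M) * (1 + t.s (2 ^ k * y)))) =
      2 ^ (k + 1) * t.el (-(2 ^ k * (y * y))) (-y + 2 ^ k * (y * y)) := by
    have h2 : ∀ (n : ℕ) (a b : M), (2 : t.skew) ^ n * t.el a b = t.el (2 ^ n * a) (2 ^ n * b) := by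
      intro n a b
      induction n with
      | zero => simp
      | succ n ih =>
        rw [pow_succ', mul_assoc, ih, two_mul, el_add, pow_succ', mul_assoc, mul_assoc, two_mul,
          two_mul]
    have h3 := h2 1
    simp only [pow_one] at h3
    rw [h3, h2, inv_one, Units.val_one, mul_one, hsp]
    have h4 : (2 : M) ^ k * y * (2 ^ k * y) = 2 ^ k * (2 ^ k * (y * y)) := by
      rw [mul_assoc, ← mul_assoc y, hc y, mul_assoc]
    congr 1
    · rw [mul_neg, mul_neg, mul_neg, h4, pow_succ', mul_assoc]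
    · have h5 : -(2 ^ k * y * (1 + -(2 ^ k * y))) = 2 ^ k * (-y + 2 ^ k * (y * y)) := by
        rw [mul_add (2 ^ k * y), mul_one, mul_neg (2 ^ k * y), h4, mul_add (2 ^ k) (-y),
          mul_neg (2 ^ k) y]
        abel
      rw [h5, pow_succ', mul_assoc]
  rw [e1]
  apply norm_tl_le
  rw [map_two_pow_mul, τ_el, map_add, map_neg, map_two_pow_mul, t.κ_eq_zero hy,
    t.κ_sq_eq_zero hy]
  simp

open scoped Classical in
/-- the homomorphism `Lam` -/
noncomputable def Lam (g : Mˣ) : ℚ_[2] :=
  if h : t.Adm g then t.lam (t.vU h.choose g h.choose_spec) else 0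

end TwTr

end Pool.Agent.H71.WH

end

section

/-!
# `K₋₁` of rings and the assembly map in degree `-1`

`Km1 R` is the group `K₋₁(R)`, i.e. the cokernel of `K₀(R[t]) ⊕ K₀(R[t⁻¹]) → K₀(R[t, t⁻¹])`.

For a family `𝓕` of subgroups of `G`, `ColimKm1 R G 𝓕` is the colimit of the groups `K₋₁(R[F])`
over the subgroups `F` in `𝓕`, the morphisms `F → F'` being the restrictions of the conjugations
`x ↦ g x g⁻¹` with `g F g⁻¹ ⊆ F'`, and `assembly R G 𝓕` is the natural map from it to `K₋₁(R[G])`.
-/

set_option autoImplicit false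

open Matrix
open scoped LaurentPolynomial

universe u v w

namespace Pool.Agent.H95.KM

open Pool.Agent.H71.FJ (K0 MatEquiv IdemMat conjHom)

section Laurent

variable (R : Type u) [Ring R] {S : Type v} [Ring S] {T : Type w} [Ring T]

/-- The inclusion of `R[t]` into `R[t, t⁻¹]`. -/
noncomputable def posHom : Polynomial R →+* R[T;T⁻¹] := Polynomial.toLaurent

/-- The homomorphism `R[X] → R[t, t⁻¹]`, `X ↦ t⁻¹`, with image `R[t⁻¹]`. -/
noncomputable def negHom : Polynomial R →+* R[T;T⁻¹] :=
  (AddMonoidAlgebra.mapDomainRingHom R (negAddMonoidHom : ℤ →+ ℤ)).comp Polynomial.toLaurent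

variable {R}

/-- The homomorphism `R[t, t⁻¹] → S[t, t⁻¹]` induced by `f : R → S`. -/
noncomputable def lau (f : R →+* S) : R[T;T⁻¹] →+* S[T;T⁻¹] := AddMonoidAlgebra.mapRingHom ℤ f

theorem lau_single (f : R →+* S) (k : ℤ) (r : R) :
    lau f (AddMonoidAlgebra.single k r) = AddMonoidAlgebra.single k (f r) :=
  AddMonoidAlgebra.mapRingHom_single f k r

theorem posHom_monomial (k : ℕ) (r : R) :
    posHom R (Polynomial.monomial k r) = AddMonoidAlgebra.single (k : ℤ) r := by
  rw [← Polynomial.C_mul_X_pow_eq_monomial]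
  change Polynomial.toLaurent (Polynomial.C r * Polynomial.X ^ k) = _
  rw [Polynomial.toLaurent_C_mul_X_pow, LaurentPolynomial.single_eq_C_mul_T]

theorem negHom_monomial (k : ℕ) (r : R) :
    negHom R (Polynomial.monomial k r) = AddMonoidAlgebra.single (-(k : ℤ)) r := by
  change AddMonoidAlgebra.mapDomainRingHom R (negAddMonoidHom : ℤ →+ ℤ)
    (posHom R (Polynomial.monomial k r)) = _
  rw [posHom_monomial]
  change AddMonoidAlgebra.mapDomain _ (AddMonoidAlgebra.single (k : ℤ) r) = _
  rw [AddMonoidAlgebra.mapDomain_single]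
  rfl

end Laurent

/-- The subgroup of `K₀(R[t, t⁻¹])` generated by the images of `K₀(R[t])` and `K₀(R[t⁻¹])`. -/
noncomputable def Km1Rel (R : Type u) [Ring R] : AddSubgroup (K0 R[T;T⁻¹]) :=
  (K0.map (posHom R)).range ⊔ (K0.map (negHom R)).range

/-- The group `K₋₁(R)`. -/
def Km1 (R : Type u) [Ring R] : Type u := K0 R[T;T⁻¹] ⧸ Km1Rel R

noncomputable instance instKm1 (R : Type u) [Ring R] : AddCommGroup (Km1 R) :=
  QuotientAddGroup.Quotient.addCommGroup (Km1Rel R)

namespace Km1

variable {R : Type u} [Ring R] {S : Type v} [Ring S] {T : Type w} [Ring T]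

/-- The class in `K₋₁(R)` of an element of `K₀(R[t, t⁻¹])`. -/
noncomputable def mk : K0 R[T;T⁻¹] →+ Km1 R := QuotientAddGroup.mk' (Km1Rel R)

theorem mk_eq_zero {x : K0 R[T;T⁻¹]} : mk x = 0 ↔ x ∈ Km1Rel R :=
  QuotientAddGroup.eq_zero_iff x

theorem mk_pos (x : K0 (Polynomial R)) : mk (K0.map (posHom R) x) = 0 :=
  mk_eq_zero.2 (AddSubgroup.mem_sup_left ⟨x, rfl⟩)

end Km1

end Pool.Agent.H95.KM

end
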