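import Pool.Agent.H13.TFQ.H71.FJ.K0_1
import Pool.Agent.H13.TFQ.M05
import Pool.Agent.H13.TFQ.M09

/-! The parts of this file: H71.FJ.Rank, H71.FJ.Detect, H95.KM.Stab_1. -/

section

/-!
# Idempotent matrices over division rings; ranks and traces
-/

set_option autoImplicit false

open Matrix

universe u v w

namespace Pool.Agent.H71.FJ

/-- Idempotent matrices over a division ring are equivalent to identity matrices. -/
theorem exists_matEquiv_one {D : Type u} [DivisionRing D] {ι : Type*} [Fintype ι] [DecidableEq ι]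
    (e : Matrix ι ι D) (he : e * e = e) :
    ∃ r : ℕ, MatEquiv e (1 : Matrix (Fin r) (Fin r) D) := by
  set f : (ι → D) →ₗ[D] (ι → D) := e.toLinearMapRight' with hf
  have hff : ∀ v, f (f v) = f v := by
    intro v
    rw [hf, ← Matrix.toLinearMapRight'_mul_apply, he]
  have hM : LinearMap.toMatrixRight' f = e := by
    rw [hf]
    exact LinearMap.toMatrixRight'.apply_symm_apply e
  let ψ : LinearMap.range f ≃ₗ[D] (Fin (Module.finrank D (LinearMap.range f)) → D) :=
    (Module.finBasis D (LinearMap.range f)).equivFun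
  let X : (ι → D) →ₗ[D] (Fin (Module.finrank D (LinearMap.range f)) → D) :=
    ψ.toLinearMap ∘ₗ f.rangeRestrict
  let Y : (Fin (Module.finrank D (LinearMap.range f)) → D) →ₗ[D] (ι → D) :=
    (LinearMap.range f).subtype ∘ₗ ψ.symm.toLinearMap
  have hYX : Y ∘ₗ X = f := by
    refine LinearMap.ext fun v => ?_
    simp only [X, Y, LinearMap.comp_apply, LinearEquiv.coe_coe, LinearEquiv.symm_apply_apply]
    rfl
  have hXY : X ∘ₗ Y = LinearMap.id := by
    refine LinearMap.ext fun v => ?_
    simp only [X, Y, LinearMap.comp_apply, LinearEquiv.coe_coe, LinearMap.id_apply]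
    obtain ⟨w, hw⟩ : ∃ w, ψ w = v := ψ.surjective v
    rw [← hw, LinearEquiv.symm_apply_apply]
    congr 1
    obtain ⟨z, t, rfl⟩ := w
    apply Subtype.ext
    exact hff t
  refine ⟨Module.finrank D (LinearMap.range f), LinearMap.toMatrixRight' X,
    LinearMap.toMatrixRight' Y, ?_, ?_⟩
  · rw [← LinearMap.toMatrixRight'_comp, hYX, hM]
  · rw [← LinearMap.toMatrixRight'_comp, hXY, LinearMap.toMatrixRight'_id]

namespace K0

theorem matEquiv_one_one {R : Type u} [Ring R] {ι κ : Type*} [Fintype ι] [DecidableEq ι]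
    [Fintype κ] [DecidableEq κ] (σ : ι ≃ κ) :
    MatEquiv (1 : Matrix ι ι R) (1 : Matrix κ κ R) := by
  have := matEquiv_submatrix (R := R) (1 : Matrix κ κ R) (by simp) σ
  rw [submatrix_one_equiv] at this
  exact this

/-- The class of the free module of rank one. -/
noncomputable def one (R : Type u) [Ring R] : K0 R :=
  cls (1 : Matrix (Fin 1) (Fin 1) R) (by simp)

theorem cls_one_fin {R : Type u} [Ring R] (r : ℕ) :
    cls (1 : Matrix (Fin r) (Fin r) R) (by simp) = r • one R := by
  induction r with
  | zero =>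
    have h := cls_fromBlocks (R := R) (ι := Fin 0) (κ := Fin 0) (e := 1) (f := 1) (by simp)
      (by simp)
    have h2 : cls (fromBlocks (1 : Matrix (Fin 0) (Fin 0) R) 0 0 (1 : Matrix (Fin 0) (Fin 0) R))
        (fromBlocks_idem (by simp) (by simp)) = cls (1 : Matrix (Fin 0) (Fin 0) R) (by simp) := by
      apply cls_congr
      rw [fromBlocks_one]
      exact matEquiv_one_one finSumFinEquiv
    rw [h2] at h
    rw [zero_smul]
    simpa using h
  | succ r ih =>
    rw [succ_nsmul, ← ih, one, ← cls_fromBlocks]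
    apply cls_congr
    rw [fromBlocks_one]
    exact matEquiv_one_one finSumFinEquiv.symm

theorem cls_one {R : Type u} [Ring R] {ι : Type*} [Fintype ι] [DecidableEq ι] :
    cls (1 : Matrix ι ι R) (by simp) = Fintype.card ι • one R := by
  rw [← cls_one_fin]
  exact cls_congr _ _ (matEquiv_one_one (Fintype.equivFin ι))

theorem map_one' {R : Type u} [Ring R] {S : Type v} [Ring S] (f : R →+* S) :
    map f (one R) = one S := by
  rw [one, map_cls]
  exact cls_congr _ _ (by
    rw [Matrix.map_one _ (map_zero f) (map_one f)]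
    exact matEquiv_refl (by simp))

theorem push_one {R : Type u} [Ring R] {S : Type v} [Ring S] {J : Type*} [Fintype J]
    [DecidableEq J] (φ : R →+* Matrix J J S) : push φ (one R) = Fintype.card J • one S := by
  rw [one, push_cls, ← cls_one]
  apply cls_congr
  have : flat φ (1 : Matrix (Fin 1) (Fin 1) R) = (1 : Matrix (Fin 1 × J) (Fin 1 × J) S) := by
    ext ⟨i, a⟩ ⟨j, b⟩
    have hij : i = j := Subsingleton.elim _ _
    subst hij
    simp [flat, Matrix.one_apply]
  rw [this]
  exact matEquiv_one_one (Equiv.uniqueProd J (Fin 1))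

theorem tr_one {R : Type u} [Ring R] {M : Type*} [AddCommGroup M] (τ : R →+ M)
    (hτ : ∀ x y, τ (x * y) = τ (y * x)) : tr τ hτ (one R) = τ 1 := by
  rw [one, tr_cls]
  simp

section Division

variable {D : Type u} [DivisionRing D]

/-- the rank of an idempotent matrix -/
noncomputable def rkNat (a : IdemMat D) : ℕ := (exists_matEquiv_one a.mat a.idem).choose

theorem rkNat_spec (a : IdemMat D) :
    MatEquiv a.mat (1 : Matrix (Fin (rkNat a)) (Fin (rkNat a)) D) :=
  (exists_matEquiv_one a.mat a.idem).choose_spec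

theorem card_eq_of_matEquiv_one {ι κ : Type*} [Fintype ι] [DecidableEq ι] [Fintype κ]
    [DecidableEq κ] (h : MatEquiv (1 : Matrix ι ι D) (1 : Matrix κ κ D)) :
    Fintype.card ι = Fintype.card κ := by
  obtain ⟨x, y, h1, h2⟩ := h
  exact Matrix.square_of_invertible x y h1 h2

theorem rkNat_eq {a : IdemMat D} {ι : Type*} [Fintype ι] [DecidableEq ι]
    (h : MatEquiv a.mat (1 : Matrix ι ι D)) : rkNat a = Fintype.card ι := by
  have := card_eq_of_matEquiv_one (matEquiv_trans (by simp) (by simp)
    (matEquiv_symm (rkNat_spec a)) h)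
  simpa using this

/-- The rank homomorphism of a division ring. -/
noncomputable def rk : K0 D →+ ℤ :=
  lift (fun a => (rkNat a : ℤ))
    (fun a b hab => by
      have := rkNat_eq (matEquiv_trans a.idem (by simp) hab (rkNat_spec b))
      simp only [Fintype.card_fin] at this
      rw [this])
    (fun a b => by
      have h1 : MatEquiv (a.sum b).mat
          (fromBlocks (1 : Matrix (Fin (rkNat a)) (Fin (rkNat a)) D) 0 0
            (1 : Matrix (Fin (rkNat b)) (Fin (rkNat b)) D)) :=
        matEquiv_trans (a.sum b).idem (fromBlocks_idem (by simp) (by simp))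
          (matEquiv_submatrix _ (fromBlocks_idem a.idem b.idem) _)
          (matEquiv_fromBlocks (rkNat_spec a) (rkNat_spec b))
      rw [fromBlocks_one] at h1
      rw [rkNat_eq h1]
      simp)

theorem rk_mk (a : IdemMat D) : rk (mk a) = (rkNat a : ℤ) := lift_mk _ _ _ a

theorem rk_cls_of_matEquiv {ι κ : Type*} [Fintype ι] [DecidableEq ι] [Fintype κ] [DecidableEq κ]
    {e : Matrix ι ι D} (he : e * e = e) (h : MatEquiv e (1 : Matrix κ κ D)) :
    rk (cls e he) = (Fintype.card κ : ℤ) := by
  rw [cls, rk_mk, rkNat_eq (matEquiv_trans (toFin e he).idem (by simp) (toFin_equiv e he) h)]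

theorem rk_one : rk (one D) = 1 := by
  rw [one, rk_cls_of_matEquiv _ (matEquiv_refl (by simp))]
  simp

theorem eq_rk_smul_one (x : K0 D) : x = rk x • one D := by
  obtain ⟨a, b, rfl⟩ := exists_sub x
  have key : ∀ a : IdemMat D, mk a = rk (mk a) • one D := by
    intro a
    rw [rk_mk, natCast_zsmul, ← cls_one_fin, mk_eq_cls]
    exact cls_congr _ _ (rkNat_spec a)
  rw [map_sub, sub_smul, ← key, ← key]

theorem rk_map {E : Type v} [DivisionRing E] (f : D →+* E) (x : K0 D) : rk (map f x) = rk x := by
  conv_lhs => rw [eq_rk_smul_one x, map_zsmul, map_one', map_zsmul, rk_one]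
  simp

theorem rk_push {E : Type v} [DivisionRing E] {J : Type*} [Fintype J] [DecidableEq J]
    (φ : D →+* Matrix J J E) (x : K0 D) : rk (push φ x) = rk x * Fintype.card J := by
  conv_lhs => rw [eq_rk_smul_one x, map_zsmul, push_one, map_zsmul, map_nsmul, rk_one]
  simp

end Division

/-- the trace of a lift of an idempotent is its rank -/
theorem tr_eq_rk {B : Type u} [CommRing B] {K : Type v} [Field K] {φ : B →+* K}
    (hs : Function.Surjective φ) (h : NilKer φ) (x : K0 B) :
    tr (AddMonoidHom.id B) (fun x y => mul_comm x y) x = (rk (map φ x) : B) := by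
  have h1 : x = rk (map φ x) • one B := by
    apply map_injective hs h
    rw [map_zsmul, map_one']
    exact eq_rk_smul_one _
  conv_lhs => rw [h1, map_zsmul, tr_one]
  simp

end K0

end Pool.Agent.H71.FJ

end

section

/-!
# Classes in `K₀` of a finite-dimensional algebra are detected by ranks
-/

set_option autoImplicit false

open Matrix

universe u v w

namespace Pool.Agent.H71.FJ

namespace K0

theorem rkNat_eq_of_rk {D : Type u} [DivisionRing D] {ι κ : Type*} [Fintype ι] [DecidableEq ι]
    [Fintype κ] [DecidableEq κ] {e : Matrix ι ι D} {f : Matrix κ κ D} (he : e * e = e)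
    (hf : f * f = f) (h : rk (cls e he) = rk (cls f hf)) : MatEquiv e f := by
  obtain ⟨r, hr⟩ := exists_matEquiv_one e he
  obtain ⟨s, hs⟩ := exists_matEquiv_one f hf
  rw [rk_cls_of_matEquiv he hr, rk_cls_of_matEquiv hf hs] at h
  simp only [Fintype.card_fin, Nat.cast_inj] at h
  subst h
  exact matEquiv_trans he hf hr (matEquiv_symm hs)

theorem eq_zero_of_semisimple {k : Type v} [Field k] {Λ : Type u} [Ring Λ] [Algebra k Λ]
    [Module.Finite k Λ] [IsSemisimpleRing Λ] (x : K0 Λ)
    (h : ∀ (J : Type) [Fintype J] [DecidableEq J] (ρ : Λ →ₐ[k] Matrix J J k),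
      rk (push (ρ : Λ →+* Matrix J J k) x) = 0) : x = 0 := by
  obtain ⟨a, b, rfl⟩ := exists_sub x
  obtain ⟨n, D, d, _, _, _, hd, ⟨e⟩⟩ :=
    IsSemisimpleRing.exists_algEquiv_pi_matrix_divisionRing_finite k Λ
  -- the projections
  let π : ∀ i, Λ →ₐ[k] Matrix (Fin (d i)) (Fin (d i)) (D i) := fun i =>
    (Pi.evalAlgHom k (fun i => Matrix (Fin (d i)) (Fin (d i)) (D i)) i).comp e.toAlgHom
  have hπ : ∀ i r, π i r = e r i := fun i r => rfl
  have key : ∀ i, MatEquiv (flat (π i : Λ →+* Matrix (Fin (d i)) (Fin (d i)) (D i)) a.mat)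
      (flat (π i : Λ →+* Matrix (Fin (d i)) (Fin (d i)) (D i)) b.mat) := by
    intro i
    apply rkNat_eq_of_rk (flat_idem _ a.idem) (flat_idem _ b.idem)
    rw [← push_mk, ← push_mk, ← sub_eq_zero, ← map_sub, ← map_sub]
    let bs := Module.finBasis k (D i)
    let χ : D i →ₐ[k] Matrix (Fin (Module.finrank k (D i))) (Fin (Module.finrank k (D i))) k :=
      Algebra.leftMulMatrix bs
    let ρ : Λ →ₐ[k] Matrix (Fin (d i) × Fin (Module.finrank k (D i)))
        (Fin (d i) × Fin (Module.finrank k (D i))) k :=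
      { flatComp (χ : D i →+* _) (π i : Λ →+* _) with
        commutes' := by
          intro r
          have h1 : π i (algebraMap k Λ r) = algebraMap k _ r := (π i).commutes r
          ext ⟨p, s⟩ ⟨q, t⟩
          change χ ((π i (algebraMap k Λ r)) p q) s t = _
          rw [h1]
          simp only [Matrix.algebraMap_matrix_apply, Prod.mk.injEq]
          by_cases hpq : p = q
          · subst hpq
            simp [Matrix.algebraMap_matrix_apply]
          · simp [hpq] }
    have h1 := h (Fin (d i) × Fin (Module.finrank k (D i))) ρ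
    have h2 : (ρ : Λ →+* Matrix (Fin (d i) × Fin (Module.finrank k (D i)))
        (Fin (d i) × Fin (Module.finrank k (D i))) k) =
        flatComp (χ : D i →+* _) (π i : Λ →+* _) := rfl
    rw [h2, ← push_push, rk_push] at h1
    have h3 : (Fintype.card (Fin (Module.finrank k (D i))) : ℤ) ≠ 0 := by
      rw [Fintype.card_fin]
      have : 0 < Module.finrank k (D i) := Module.finrank_pos
      exact_mod_cast this.ne'
    exact (mul_eq_zero.1 h1).resolve_right h3
  choose X Y hXY hYX using key
  have hab : MatEquiv a.mat b.mat := by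
    refine ⟨Matrix.of fun s t => e.symm (fun i => Matrix.of fun p q => X i (s, p) (t, q)),
      Matrix.of fun s t => e.symm (fun i => Matrix.of fun p q => Y i (s, p) (t, q)), ?_, ?_⟩
    · ext s t
      apply e.injective
      funext i
      ext p q
      rw [Matrix.mul_apply, map_sum]
      have h1 := congrFun (congrFun (hXY i) (s, p)) (t, q)
      have h2 : flat (π i : Λ →+* Matrix (Fin (d i)) (Fin (d i)) (D i)) a.mat (s, p) (t, q) =
        e (a.mat s t) i p q := rfl
      rw [h2] at h1
      rw [← h1, Matrix.mul_apply, Fintype.sum_prod_type]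
      simp only [of_apply, map_mul, AlgEquiv.apply_symm_apply, Finset.sum_apply, Pi.mul_apply,
        Matrix.sum_apply, Matrix.mul_apply]
    · ext s t
      apply e.injective
      funext i
      ext p q
      rw [Matrix.mul_apply, map_sum]
      have h1 := congrFun (congrFun (hYX i) (s, p)) (t, q)
      have h2 : flat (π i : Λ →+* Matrix (Fin (d i)) (Fin (d i)) (D i)) b.mat (s, p) (t, q) =
        e (b.mat s t) i p q := rfl
      rw [h2] at h1
      rw [← h1, Matrix.mul_apply, Fintype.sum_prod_type]
      simp only [of_apply, map_mul, AlgEquiv.apply_symm_apply, Finset.sum_apply, Pi.mul_apply,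
        Matrix.sum_apply, Matrix.mul_apply]
  rw [mk_eq_of_equiv hab, sub_self]

/-- Classes in `K₀` of a finite-dimensional algebra are detected by the ranks of their images
under all finite-dimensional representations. -/
theorem eq_zero_of_rk_push {k : Type v} [Field k] {Λ : Type u} [Ring Λ] [Algebra k Λ]
    [Module.Finite k Λ] (x : K0 Λ)
    (h : ∀ (J : Type) [Fintype J] [DecidableEq J] (ρ : Λ →ₐ[k] Matrix J J k),
      rk (push (ρ : Λ →+* Matrix J J k) x) = 0) : x = 0 := by
  have : IsArtinianRing Λ := IsArtinianRing.of_finite k Λ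
  let q : Λ →ₐ[k] Λ ⧸ Ring.jacobson Λ := Ideal.Quotient.mkₐ k (Ring.jacobson Λ)
  have hq : Function.Surjective (q : Λ →+* Λ ⧸ Ring.jacobson Λ) := Ideal.Quotient.mk_surjective
  have hnil : NilKer (q : Λ →+* Λ ⧸ Ring.jacobson Λ) := by
    obtain ⟨N, hN⟩ := IsSemiprimaryRing.isNilpotent (R := Λ)
    refine ⟨N, fun j => ((Ring.jacobson Λ) ^ j).toAddSubgroup, ?_, ?_, ?_⟩
    · intro x
      change x ∈ (Ring.jacobson Λ) ^ 0
      rw [Submodule.pow_zero, Ideal.one_eq_top]
      trivial
    · intro x hx
      change x ∈ (Ring.jacobson Λ) ^ N at hx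
      rw [hN] at hx
      simpa using hx
    · intro j x y hx hy
      have hx' : x ∈ Ring.jacobson Λ := Ideal.Quotient.eq_zero_iff_mem.1 hx
      have : x * y ∈ Ring.jacobson Λ * (Ring.jacobson Λ) ^ j := Ideal.mul_mem_mul hx' hy
      rw [← Ideal.IsTwoSided.pow_succ] at this
      exact this
  apply map_injective hq hnil
  rw [map_zero]
  have : Module.Finite k (Λ ⧸ Ring.jacobson Λ) := Module.Finite.of_surjective q.toLinearMap hq
  apply eq_zero_of_semisimple (k := k)
  intro J _ _ ρ
  rw [push_map]
  exact h J (ρ.comp q)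

end K0

end Pool.Agent.H71.FJ

end

section

/-!
# Project KM, module Stab: equality in `K₀` is stable equivalence

`K0 R`, `K0.cls`, `MatEquiv`, `K0.lift`, `K0.cls_fromBlocks`, ... are in
`Pool/Agent/H71/FJ/Defs.lean`, `Pool/Agent/H71/FJ/K0.lean`, `Pool/Agent/H71/FJ/Rank.lean`.

PROOF of `exists_stab`.  Let `Mo` be the quotient of `IdemMat R` by `a ≈ b :↔ MatEquiv a.mat b.mat`
(an equivalence relation: `K0.matEquiv_refl/symm/trans`).  Block sum makes it a commutative
additive monoid (`K0.matEquiv_fromBlocks`, `K0.matEquiv_submatrix`, `finSumFinEquiv`,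
`Equiv.sumComm`, `Equiv.sumAssoc`; zero is the `0 × 0` matrix).  Let `Gr` be its Grothendieck group
(`AddLocalization (⊤ : AddSubmonoid Mo)` or `Algebra.GrothendieckAddGroup Mo`, or any direct
construction).  `K0.lift` gives `K0 R →+ Gr` with `K0.mk a ↦ [a]`.  So if `K0.cls E = K0.cls F`
then `[toFin E] = [toFin F]` in `Gr`, so there is an idempotent matrix `c` (size `k`) with
`E ⊕ c ≈ F ⊕ c`.  Adding `1 - c` on both sides and using `c ⊕ (1 - c) ≈ 1_k`
(take `x = fromRows c (1 - c)`, `y = fromCols c (1 - c)`: `y * x = c + (1 - c) = 1`,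
`x * y = fromBlocks c 0 0 (1 - c)`) gives `E ⊕ 1_k ≈ F ⊕ 1_k`.  Alternatively avoid the
Grothendieck group: define on pairs of idempotent matrices `(a, b) ~ (a', b')` iff
`∃ k, a ⊕ b' ⊕ 1_k ≈ a' ⊕ b ⊕ 1_k`.

PROOF of `exists_sub_one`.  `K0.exists_sub` gives `x = mk a - mk b`; add `[1 - b.mat]` to both:
`x = ([a] + [1 - b]) - ([b] + [1 - b]) = [a ⊕ (1 - b)] - [1_{b.n}]`, and reindex `a ⊕ (1 - b)` to
`Fin (a.n + b.n)` (`K0.matEquiv_submatrix`).
-/

set_option autoImplicit false

open Matrix
open scoped LaurentPolynomial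

universe u v w

namespace Pool.Agent.H95.KM

open Pool.Agent.H71.FJ

variable {R : Type u} [Ring R]

theorem sub_idem {n : Type*} [Fintype n] [DecidableEq n] {e : Matrix n n R} (he : e * e = e) :
    (1 - e) * (1 - e) = 1 - e := by
  rw [sub_mul, one_mul, mul_sub, mul_one, he, sub_self, sub_zero]

/-! ### Block sums up to equivalence -/

private theorem stab_sum_equiv (a b : IdemMat R) :
    MatEquiv (a.sum b).mat (fromBlocks a.mat 0 0 b.mat) :=
  K0.matEquiv_submatrix _ (K0.fromBlocks_idem a.idem b.idem) finSumFinEquiv.symm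

private theorem stab_comm {m n : Type*} [Fintype m] [DecidableEq m] [Fintype n] [DecidableEq n]
    (E : Matrix m m R) (F : Matrix n n R) (hE : E * E = E) (hF : F * F = F) :
    MatEquiv (fromBlocks E 0 0 F) (fromBlocks F 0 0 E) := by
  have h : fromBlocks E 0 0 F =
      (fromBlocks F 0 0 E).submatrix (Equiv.sumComm m n) (Equiv.sumComm m n) := by
    ext i j
    rcases i with i | i <;> rcases j with j | j <;> rfl
  rw [h]
  exact K0.matEquiv_submatrix _ (K0.fromBlocks_idem hF hE) _

private theorem stab_assoc {l m n : Type*} [Fintype l] [DecidableEq l] [Fintype m] [DecidableEq m]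
    [Fintype n] [DecidableEq n] (D : Matrix l l R) (E : Matrix m m R) (F : Matrix n n R)
    (hD : D * D = D) (hE : E * E = E) (hF : F * F = F) :
    MatEquiv (fromBlocks (fromBlocks D 0 0 E) 0 0 F) (fromBlocks D 0 0 (fromBlocks E 0 0 F)) := by
  have h : fromBlocks (fromBlocks D 0 0 E) 0 0 F =
      (fromBlocks D 0 0 (fromBlocks E 0 0 F)).submatrix (Equiv.sumAssoc l m n)
        (Equiv.sumAssoc l m n) := by
    ext i j
    rcases i with (i | i) | i <;> rcases j with (j | j) | j <;> rfl
  rw [h]
  exact K0.matEquiv_submatrix _ (K0.fromBlocks_idem hD (K0.fromBlocks_idem hE hF)) _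

private theorem stab_zero {l m : Type*} [Fintype l] [DecidableEq l] [IsEmpty l] [Fintype m]
    [DecidableEq m] (D : Matrix l l R) (E : Matrix m m R) (hE : E * E = E) :
    MatEquiv (fromBlocks D 0 0 E) E := by
  have h : fromBlocks D 0 0 E = E.submatrix (Equiv.emptySum l m) (Equiv.emptySum l m) := by
    ext i j
    rcases i with i | i
    · exact (IsEmpty.false i).elim
    · rcases j with j | j
      · exact (IsEmpty.false j).elim
      · rfl
  rw [h]
  exact K0.matEquiv_submatrix _ hE _

private theorem stab_compl {n : Type*} [Fintype n] [DecidableEq n] (e : Matrix n n R)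
    (he : e * e = e) : MatEquiv (fromBlocks e 0 0 (1 - e)) (1 : Matrix n n R) := by
  refine ⟨fromRows e (1 - e), fromCols e (1 - e), ?_, ?_⟩
  · rw [fromRows_mul_fromCols, sub_idem he, he, mul_sub, sub_mul, mul_one, one_mul, he, sub_self]
  · rw [fromCols_mul_fromRows, sub_idem he, he, add_sub_cancel]

/-! ### The monoid of equivalence classes of idempotent matrices -/

/-- Equivalence of idempotent matrices. -/
private def stabSetoid (R : Type u) [Ring R] : Setoid (IdemMat R) where
  r a b := MatEquiv a.mat b.mat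
  iseqv :=
    { refl := fun a => K0.matEquiv_refl a.idem
      symm := fun h => K0.matEquiv_symm h
      trans := fun {a _ c} h h' => K0.matEquiv_trans a.idem c.idem h h' }

/-- The monoid of equivalence classes of idempotent matrices. -/
private def StabMon (R : Type u) [Ring R] : Type u := Quotient (stabSetoid R)

private theorem stab_sum_congr (a a' b b' : IdemMat R) (h : MatEquiv a.mat a'.mat)
    (h' : MatEquiv b.mat b'.mat) : MatEquiv (a.sum b).mat (a'.sum b').mat :=
  K0.matEquiv_trans (a.sum b).idem (a'.sum b').idem (stab_sum_equiv a b)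
    (K0.matEquiv_trans (K0.fromBlocks_idem a.idem b.idem) (a'.sum b').idem
      (K0.matEquiv_fromBlocks h h') (K0.matEquiv_symm (stab_sum_equiv a' b')))

/-- The class of an idempotent matrix. -/
private def stabMk (a : IdemMat R) : StabMon R := Quotient.mk (stabSetoid R) a

private instance stabAdd (R : Type u) [Ring R] : Add (StabMon R) :=
  ⟨Quotient.map₂ IdemMat.sum fun a a' h b b' h' => stab_sum_congr a a' b b' h h'⟩

private instance stabZero (R : Type u) [Ring R] : Zero (StabMon R) :=
  ⟨stabMk ⟨0, 0, by simp⟩⟩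

private theorem stabMk_add (a b : IdemMat R) : stabMk (a.sum b) = stabMk a + stabMk b := rfl

private theorem stabMk_eq {a b : IdemMat R} (h : MatEquiv a.mat b.mat) : stabMk a = stabMk b :=
  Quotient.sound h

private instance stabMonInst (R : Type u) [Ring R] : AddCommMonoid (StabMon R) where
  add_assoc a b c := by
    induction a using Quotient.inductionOn with
    | _ a =>
    induction b using Quotient.inductionOn with
    | _ b =>
    induction c using Quotient.inductionOn with
    | _ c =>
    apply Quotient.sound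
    change MatEquiv ((a.sum b).sum c).mat (a.sum (b.sum c)).mat
    refine K0.matEquiv_trans ((a.sum b).sum c).idem (a.sum (b.sum c)).idem
      (stab_sum_equiv (a.sum b) c) ?_
    refine K0.matEquiv_trans (K0.fromBlocks_idem (a.sum b).idem c.idem) (a.sum (b.sum c)).idem
      (K0.matEquiv_fromBlocks (stab_sum_equiv a b) (K0.matEquiv_refl c.idem)) ?_
    refine K0.matEquiv_trans (K0.fromBlocks_idem (K0.fromBlocks_idem a.idem b.idem) c.idem)
      (a.sum (b.sum c)).idem (stab_assoc a.mat b.mat c.mat a.idem b.idem c.idem) ?_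
    refine K0.matEquiv_symm (K0.matEquiv_trans (a.sum (b.sum c)).idem
      (K0.fromBlocks_idem a.idem (K0.fromBlocks_idem b.idem c.idem))
      (stab_sum_equiv a (b.sum c)) ?_)
    exact K0.matEquiv_fromBlocks (K0.matEquiv_refl a.idem) (stab_sum_equiv b c)
  zero_add a := by
    induction a using Quotient.inductionOn with
    | _ a =>
    apply Quotient.sound
    exact K0.matEquiv_trans (IdemMat.sum _ a).idem a.idem (stab_sum_equiv _ a)
      (stab_zero _ a.mat a.idem)
  add_zero a := by
    induction a using Quotient.inductionOn with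
    | _ a =>
    apply Quotient.sound
    refine K0.matEquiv_trans (IdemMat.sum a _).idem a.idem (stab_sum_equiv a _) ?_
    exact K0.matEquiv_trans (K0.fromBlocks_idem a.idem (by simp)) a.idem
      (stab_comm a.mat _ a.idem (by simp)) (stab_zero _ a.mat a.idem)
  add_comm a b := by
    induction a using Quotient.inductionOn with
    | _ a =>
    induction b using Quotient.inductionOn with
    | _ b =>
    apply Quotient.sound
    exact K0.matEquiv_trans (a.sum b).idem (b.sum a).idem (stab_sum_equiv a b)
      (K0.matEquiv_trans (K0.fromBlocks_idem a.idem b.idem) (b.sum a).idem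
        (stab_comm a.mat b.mat a.idem b.idem) (K0.matEquiv_symm (stab_sum_equiv b a)))
  nsmul := nsmulRec

/-- The map to the Grothendieck group of the monoid of equivalence classes. -/
private noncomputable def stabHom (R : Type u) [Ring R] :
    K0 R →+ Algebra.GrothendieckAddGroup (StabMon R) :=
  K0.lift (fun a => Algebra.GrothendieckAddGroup.of (stabMk a))
    (fun _ _ h => by rw [stabMk_eq h])
    (fun a b => by rw [stabMk_add, map_add])

private theorem stab_exists_sum {a b : IdemMat R} (h : K0.mk a = K0.mk b) :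
    ∃ c : IdemMat R, MatEquiv (c.sum a).mat (c.sum b).mat := by
  have h1 : stabHom R (K0.mk a) = stabHom R (K0.mk b) := by rw [h]
  rw [stabHom, K0.lift_mk, K0.lift_mk] at h1
  obtain ⟨⟨c, _⟩, hc⟩ := (AddLocalization.addMonoidOf (⊤ : AddSubmonoid (StabMon R))).eq_iff_exists.1
    h1
  obtain ⟨c', rfl⟩ := Quotient.exists_rep c
  exact ⟨c', Quotient.exact hc⟩

/-- Equality of classes in `K₀` means stable equivalence. -/
theorem exists_stab {m n : Type} [Fintype m] [DecidableEq m] [Fintype n] [DecidableEq n]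
    (E : Matrix m m R) (F : Matrix n n R) (hE : E * E = E) (hF : F * F = F)
    (h : K0.cls E hE = K0.cls F hF) :
    ∃ k : ℕ, MatEquiv (fromBlocks E 0 0 (1 : Matrix (Fin k) (Fin k) R))
      (fromBlocks F 0 0 (1 : Matrix (Fin k) (Fin k) R)) := by
  obtain ⟨c, hc⟩ := stab_exists_sum h
  have hc1 : MatEquiv (fromBlocks c.mat 0 0 E) (fromBlocks c.mat 0 0 F) := by
    refine K0.matEquiv_trans (K0.fromBlocks_idem c.idem hE) (K0.fromBlocks_idem c.idem hF)
      (K0.matEquiv_fromBlocks (K0.matEquiv_refl c.idem)
        (K0.matEquiv_symm (K0.toFin_equiv E hE))) ?_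
    refine K0.matEquiv_trans (K0.fromBlocks_idem c.idem (K0.toFin E hE).idem)
      (K0.fromBlocks_idem c.idem hF) (K0.matEquiv_symm (stab_sum_equiv c (K0.toFin E hE))) ?_
    refine K0.matEquiv_trans (c.sum (K0.toFin E hE)).idem (K0.fromBlocks_idem c.idem hF) hc ?_
    refine K0.matEquiv_trans (c.sum (K0.toFin F hF)).idem (K0.fromBlocks_idem c.idem hF)
      (stab_sum_equiv c (K0.toFin F hF)) ?_
    exact K0.matEquiv_fromBlocks (K0.matEquiv_refl c.idem) (K0.toFin_equiv F hF)
  have key : ∀ {l : Type} [Fintype l] [DecidableEq l] (G : Matrix l l R), G * G = G →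
      MatEquiv (fromBlocks G 0 0 (1 : Matrix (Fin c.n) (Fin c.n) R))
        (fromBlocks (fromBlocks c.mat 0 0 G) 0 0 (1 - c.mat)) := by
    intro l _ _ G hG
    have h1 : (fromBlocks (fromBlocks c.mat 0 0 G) 0 0 (1 - c.mat)) *
        (fromBlocks (fromBlocks c.mat 0 0 G) 0 0 (1 - c.mat)) =
        (fromBlocks (fromBlocks c.mat 0 0 G) 0 0 (1 - c.mat)) :=
      K0.fromBlocks_idem (K0.fromBlocks_idem c.idem hG) (sub_idem c.idem)
    refine K0.matEquiv_trans (K0.fromBlocks_idem hG one_idem) h1
      (K0.matEquiv_fromBlocks (K0.matEquiv_refl hG)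
        (K0.matEquiv_symm (stab_compl c.mat c.idem))) ?_
    refine K0.matEquiv_trans
      (K0.fromBlocks_idem hG (K0.fromBlocks_idem c.idem (sub_idem c.idem))) h1
      (K0.matEquiv_symm (stab_assoc G c.mat (1 - c.mat) hG c.idem (sub_idem c.idem))) ?_
    exact K0.matEquiv_fromBlocks (stab_comm G c.mat hG c.idem)
      (K0.matEquiv_refl (sub_idem c.idem))
  refine ⟨c.n, K0.matEquiv_trans (K0.fromBlocks_idem hE one_idem) (K0.fromBlocks_idem hF one_idem)
    (key E hE) (K0.matEquiv_trans
      (K0.fromBlocks_idem (K0.fromBlocks_idem c.idem hE) (sub_idem c.idem))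
      (K0.fromBlocks_idem hF one_idem)
      (K0.matEquiv_fromBlocks hc1 (K0.matEquiv_refl (sub_idem c.idem)))
      (K0.matEquiv_symm (key F hF)))⟩

/-- stable equivalence passes to larger identity matrices -/
theorem matEquiv_stab_mono {m n : Type} [Fintype m] [DecidableEq m] [Fintype n] [DecidableEq n]
    (E : Matrix m m R) (F : Matrix n n R) (hE : E * E = E) (hF : F * F = F) {k l : ℕ}
    (hkl : k ≤ l) (h : MatEquiv (fromBlocks E 0 0 (1 : Matrix (Fin k) (Fin k) R))
      (fromBlocks F 0 0 (1 : Matrix (Fin k) (Fin k) R))) :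
    MatEquiv (fromBlocks E 0 0 (1 : Matrix (Fin l) (Fin l) R))
      (fromBlocks F 0 0 (1 : Matrix (Fin l) (Fin l) R)) := by
  obtain ⟨j, rfl⟩ := Nat.exists_eq_add_of_le hkl
  have h1 : MatEquiv (1 : Matrix (Fin (k + j)) (Fin (k + j)) R)
      (fromBlocks (1 : Matrix (Fin k) (Fin k) R) 0 0 (1 : Matrix (Fin j) (Fin j) R)) := by
    rw [fromBlocks_one]
    exact K0.matEquiv_one_one finSumFinEquiv.symm
  have key : ∀ {l : Type} [Fintype l] [DecidableEq l] (G : Matrix l l R), G * G = G →
      MatEquiv (fromBlocks G 0 0 (1 : Matrix (Fin (k + j)) (Fin (k + j)) R))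
        (fromBlocks (fromBlocks G 0 0 (1 : Matrix (Fin k) (Fin k) R)) 0 0
          (1 : Matrix (Fin j) (Fin j) R)) := by
    intro l _ _ G hG
    refine K0.matEquiv_trans (K0.fromBlocks_idem hG one_idem)
      (K0.fromBlocks_idem (K0.fromBlocks_idem hG one_idem) one_idem)
      (K0.matEquiv_fromBlocks (K0.matEquiv_refl hG) h1) ?_
    exact K0.matEquiv_symm (stab_assoc G 1 1 hG one_idem one_idem)
  exact K0.matEquiv_trans (K0.fromBlocks_idem hE one_idem) (K0.fromBlocks_idem hF one_idem)
    (key E hE) (K0.matEquiv_trans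
      (K0.fromBlocks_idem (K0.fromBlocks_idem hE one_idem) one_idem)
      (K0.fromBlocks_idem hF one_idem)
      (K0.matEquiv_fromBlocks h (K0.matEquiv_refl one_idem))
      (K0.matEquiv_symm (key F hF)))

theorem cls_add_compl {n : Type*} [Fintype n] [DecidableEq n] (e : Matrix n n R)
    (he : e * e = e) :
    K0.cls e he + K0.cls (1 - e) (sub_idem he) = K0.cls (1 : Matrix n n R) one_idem := by
  rw [← K0.cls_fromBlocks]
  exact K0.cls_congr _ _ (stab_compl e he)

theorem exists_sub_one (x : K0 R) : ∃ (n m : ℕ) (H : Matrix (Fin n) (Fin n) R) (hH : H * H = H),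
    x = K0.cls H hH - K0.cls (1 : Matrix (Fin m) (Fin m) R) one_idem := by
  obtain ⟨a, b, hab⟩ := K0.exists_sub x
  let b' : IdemMat R := ⟨b.n, 1 - b.mat, sub_idem b.idem⟩
  refine ⟨(a.sum b').n, b.n, (a.sum b').mat, (a.sum b').idem, ?_⟩
  rw [← K0.mk_eq_cls, K0.mk_sum, hab, ← cls_add_compl b.mat b.idem, K0.mk_eq_cls b,
    K0.mk_eq_cls b']
  abel

end Pool.Agent.H95.KM

end
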