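import Pool.Agent.H13.TFQ.H71.FQ.KQ_1
import Pool.Agent.H13.TFQ.H95.WH.ArtRel
import Pool.Agent.H13.TFQ.M11
import Pool.Agent.H13.TFQ.M16
import Pool.Agent.H13.TFQ.M20
import Pool.Agent.H13.TFQ.M21

/-! The parts of this file: H71.WH.U1_1, H95.WH.ArtRel_1, H16.FU.Defs1. -/

section

/-!
# Units of integral group rings congruent to `1` modulo `8`, logarithm of determinants
-/

set_option autoImplicit false
set_option linter.unusedSectionVars false
set_option linter.unusedSimpArgs false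

open Matrix

universe u v w

namespace Pool.Agent.H71.WH

section C8

end C8

section LogDet

variable {B : Type u} [CommRing B] {ι : Type v} [Fintype ι] [DecidableEq ι] (τ : B →+ ℤ)

theorem norm_dd_le (k : ℕ) (Y : Matrix ι ι B) :
    ‖dd τ (1 + 2 ^ (k + 1) * Y)‖ ≤ ((2 : ℝ) ^ (2 * k))⁻¹ := by
  obtain ⟨y, hy⟩ := det_two_pow (k + 1) Y
  rw [dd, hy, L_one_add, L_one_add]
  have h1 := norm_tl_sub_le (ttr τ ι) Y k
  have h2 := norm_tl_sub_le τ (trace Y + 2 ^ (k + 1) * y) k
  have h3 : ‖((2 ^ (2 * k) * (4 * τ y) : ℤ) : ℚ_[2])‖ ≤ ((2 : ℝ) ^ (2 * k))⁻¹ :=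
    norm_int_le (dvd_mul_right _ _)
  have e : tl (ttr τ ι) (2 ^ (k + 1) * Y) - tl τ (2 ^ (k + 1) * (trace Y + 2 ^ (k + 1) * y)) =
      ((tl (ttr τ ι) (2 ^ (k + 1) * Y) - ((2 ^ (k + 1) * ttr τ ι Y : ℤ) : ℚ_[2])) -
      (tl τ (2 ^ (k + 1) * (trace Y + 2 ^ (k + 1) * y)) -
        ((2 ^ (k + 1) * τ (trace Y + 2 ^ (k + 1) * y) : ℤ) : ℚ_[2]))) -
      ((2 ^ (2 * k) * (4 * τ y) : ℤ) : ℚ_[2]) := by
    rw [map_add, map_two_pow_mul, ttr_apply]
    push_cast
    ring
  rw [e]
  refine (norm_sub_max _ _).trans (max_le ?_ h3)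
  exact (norm_sub_max _ _).trans (max_le h1 h2)

/-- `tr log = log det` -/
theorem dd_eq_zero {W : Matrix ι ι B} (hW : Cong W) : dd τ W = 0 := by
  rw [← norm_eq_zero]
  by_contra hne
  have hpos : 0 < ‖dd τ W‖ := lt_of_le_of_ne (norm_nonneg _) (Ne.symm hne)
  have h1 : ∀ k : ℕ, ‖dd τ W‖ ≤ ((1 : ℝ) / 2) ^ k := by
    intro k
    have h2 := (dd_pow τ hW k).2
    obtain ⟨X, rfl⟩ := hW
    obtain ⟨Y, hY⟩ := pow_form X k
    have h3 := norm_dd_le τ k Y
    rw [← hY, h2, norm_mul, TwTr.norm_two_pow] at h3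
    have hp : (0 : ℝ) < 2 ^ k := by positivity
    have h4 : ((2 : ℝ) ^ k) * (((2 : ℝ) ^ k)⁻¹ * ‖dd τ (1 + 2 * X)‖) ≤
        (2 : ℝ) ^ k * (((2 : ℝ) ^ (2 * k))⁻¹) := mul_le_mul_of_nonneg_left h3 hp.le
    rw [← mul_assoc, mul_inv_cancel₀ hp.ne', one_mul] at h4
    refine h4.trans (le_of_eq ?_)
    have e : (2 : ℝ) ^ (2 * k) = 2 ^ k * 2 ^ k := by rw [two_mul, pow_add]
    rw [e, mul_inv, one_div, inv_pow]
    field_simp
  obtain ⟨k, hk⟩ := exists_pow_lt_of_lt_one hpos (show (1 : ℝ) / 2 < 1 by norm_num)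
  have := h1 k
  linarith

theorem L_det {W : Matrix ι ι B} (hW : Cong W) : L τ (det W) = L (ttr τ ι) W := by
  have := dd_eq_zero τ hW
  rw [dd] at this
  exact (sub_eq_zero.1 this).symm

end LogDet

end Pool.Agent.H71.WH

end

section

/-!
# Artin's relation between permutation lattices

For a finite group `F` there are cyclic subgroups `D i`, `E j` (two finite families) such that the
permutation lattices `ℤ^{|F|} ⊕ ⨁ᵢ ℤ[F/D i]` and `⨁ⱼ ℤ[F/E j]` are rationally isomorphic: there are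
equivariant integral matrices `a`, `b` with `a b = n`, `b a = n`, `n ≠ 0`. (The trivial lattices are
written as `ℤ[F/⊤]`.)

## Paper proof

Let `s` be the set of the cyclic subgroups of `F`. `exists_nu s (fun _ => 1)` gives `ν : Subgroup F → ℤ`
with `∑_{D ∈ s, C ≤ D} ν D = 1` for all `C ∈ s`; with `C = zpowers h`: `∑_{D ∈ s, h ∈ D} ν D = 1` for all
`h : F`.

For a subgroup `D` let `e_D = (1/|D|) ∑_{h ∈ D} h ∈ ℚ[F]`, an idempotent, and `[e_D] = K0.cls` of the
`1 × 1` matrix. Claim: `|F| • [e_⊤] = ∑_{D ∈ s} (ν D |D|) • [e_D]` in `K0 (ℚ[F])`. By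
`K0.eq_zero_of_rk_push` it is enough to compare the ranks of the images under a homomorphism
`ρ : ℚ[F] → Mat_J(ℚ)`. The rank of an idempotent matrix over `ℚ` is its trace (`tr_eq_rk`, or
directly), so `rk ρ(e_D) = (1/|D|) ∑_{h ∈ D} tr ρ(h)` and the right side is
`∑_D ν D ∑_{h ∈ D} tr ρ(h) = ∑_h tr ρ(h) ∑_{D ∋ h} ν D = ∑_h tr ρ(h)`, the left side.

Bring the negative coefficients to the other side and apply `Pool.Agent.H95.KM.exists_stab`: there are
families `D'` (`|F|` times `⊤`, cyclic subgroups with multiplicities `|ν D| |D|` for `ν D < 0`, and `k` times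
the trivial subgroup `⊥`, `e_⊥ = 1`) and `E` (cyclic subgroups: `ν D |D|` times `D` for `ν D > 0`, `k` times
`⊥`) with `MatEquiv (diagonal e_{D' i}) (diagonal e_{E j})` over `ℚ[F]`: matrices `x`, `y` with
`x y = diag(e_{D' i})`, `y x = diag(e_{E j})`, and, replacing `x` by `diag(e_{D'}) x diag(e_E)` and `y` by
`diag(e_E) y diag(e_{D'})`, `x i j ∈ e_{D' i} ℚ[F] e_{E j}`, `y j i ∈ e_{E j} ℚ[F] e_{D' i}`.

Define `A (i, g D'_i) (j, h E_j) = |E_j| (x i j)(g⁻¹ h)` and
`B (j, h E_j) (i, g D'_i) = |D'_i| (y j i)(h⁻¹ g)`. These are well defined, since the coefficient function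
of `x i j` is left `D'_i`-invariant and right `E_j`-invariant, and they are equivariant.
`(A B) (i, g) (i', g') = ∑_j ∑_{h ∈ F/E_j} |E_j| (x i j)(g⁻¹ h) |D'_{i'}| (y j i')(h⁻¹ g')
= |D'_{i'}| ∑_j ∑_{h ∈ F} (x i j)(g⁻¹ h) (y j i')(h⁻¹ g') = |D'_{i'}| (x y)_{i i'} (g⁻¹ g')
= [i = i'] |D'_i| e_{D'_i}(g⁻¹ g') = [(i, g) = (i', g')]`. In the same way `B A = 1`. Multiply by a common
denominator `d` of the entries of `A` and of `B`: `a = d A`, `b = d B`, `n = d²`.
-/

set_option autoImplicit false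

open Matrix
open scoped Classical

universe v

namespace Pool.Agent.H95.WH

open Pool.Agent.H71.FJ

section ArtRelAlg

variable {F : Type v} [Group F] [Fintype F]

private theorem rk_eq_tr (x : K0 ℚ) :
    (K0.rk x : ℚ) = K0.tr (AddMonoidHom.id ℚ) (fun x y => mul_comm x y) x := by
  rw [K0.tr_eq_rk (φ := RingHom.id ℚ) Function.surjective_id nilKer_id, K0.map_id]
  rfl

private theorem tr_push_artM {J : Type} [Fintype J] [DecidableEq J]
    (ρ : MonoidAlgebra ℚ F →ₐ[ℚ] Matrix J J ℚ) {I : Type} [Fintype I] (D : I → Subgroup F) :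
    (K0.rk (K0.push (ρ : MonoidAlgebra ℚ F →+* Matrix J J ℚ) (K0.cls (artM D) (artM_idem D))) : ℚ) =
      ∑ i, artA (D i) (fun h => trace (ρ (MonoidAlgebra.single h 1))) := by
  rw [rk_eq_tr, K0.tr_push, K0.tr_cls]
  rw [artM, trace_diagonal, map_sum]
  apply Finset.sum_congr rfl
  intro i _
  rw [← artE_trace]
  rfl

private theorem cls_artM_eq {I J : Type} [Fintype I] [Fintype J] (D : I → Subgroup F)
    (E : J → Subgroup F) (h : ∀ χ : F → ℚ, ∑ i, artA (D i) χ = ∑ j, artA (E j) χ) :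
    K0.cls (artM D) (artM_idem D) = K0.cls (artM E) (artM_idem E) := by
  rw [← sub_eq_zero]
  apply K0.eq_zero_of_rk_push (k := ℚ)
  intro L _ _ ρ
  have h1 := tr_push_artM ρ D
  have h2 := tr_push_artM ρ E
  rw [map_sub, map_sub, sub_eq_zero]
  have h3 := h fun h => trace (ρ (MonoidAlgebra.single h 1))
  rw [← h1, ← h2] at h3
  exact_mod_cast h3

private theorem artM_equiv {I J : Type} [Fintype I] [Fintype J] (D : I → Subgroup F)
    (E : J → Subgroup F) (h : ∀ χ : F → ℚ, ∑ i, artA (D i) χ = ∑ j, artA (E j) χ) :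
    ∃ k : ℕ, MatEquiv (artM (Sum.elim D (fun _ : Fin k => ⊥)))
      (artM (Sum.elim E (fun _ : Fin k => ⊥))) := by
  obtain ⟨k, hk⟩ := Pool.Agent.H95.KM.exists_stab (artM D) (artM E) (artM_idem D) (artM_idem E)
    (cls_artM_eq D E h)
  refine ⟨k, ?_⟩
  have key : ∀ {I : Type} [Fintype I] (D : I → Subgroup F),
      artM (Sum.elim D (fun _ : Fin k => ⊥)) =
        fromBlocks (artM D) 0 0 (1 : Matrix (Fin k) (Fin k) (MonoidAlgebra ℚ F)) := by
    intro I _ D
    ext a b : 1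
    rcases a with a | a <;> rcases b with b | b
    · simp only [artM, diagonal_apply, fromBlocks_apply₁₁, Sum.inl.injEq, Sum.elim_inl]
    · simp only [artM, diagonal_apply, fromBlocks_apply₁₂, reduceCtorEq, if_false, Matrix.zero_apply]
    · simp only [artM, diagonal_apply, fromBlocks_apply₂₁, reduceCtorEq, if_false, Matrix.zero_apply]
    · simp only [artM, diagonal_apply, fromBlocks_apply₂₂, Sum.inr.injEq, Sum.elim_inr, artE_bot,
        Matrix.one_apply]
  rw [key, key]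
  exact hk

end ArtRelAlg

theorem exists_artin_rel (F : Type v) [Group F] [Finite F] :
    ∃ (I J : Type) (_ : Fintype I) (_ : Fintype J) (D : I → Subgroup F) (E : J → Subgroup F)
      (_ : Fintype (Σ i : Fin (Nat.card F) ⊕ I, F ⧸ (Sum.elim (fun _ => ⊤) D i : Subgroup F)))
      (_ : Fintype (Σ j, F ⧸ E j))
      (a : Matrix (Σ i : Fin (Nat.card F) ⊕ I, F ⧸ (Sum.elim (fun _ => ⊤) D i : Subgroup F))
        (Σ j, F ⧸ E j) ℤ)
      (b : Matrix (Σ j, F ⧸ E j)
        (Σ i : Fin (Nat.card F) ⊕ I, F ⧸ (Sum.elim (fun _ => ⊤) D i : Subgroup F)) ℤ) (n : ℕ),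
      (∀ i, IsCyclic (D i)) ∧ (∀ j, IsCyclic (E j)) ∧ n ≠ 0 ∧
        a * b = (n : ℤ) • 1 ∧ b * a = (n : ℤ) • 1 ∧
        ∀ (h : F) x y, a (h • x) (h • y) = a x y := by
  have : Fintype F := Fintype.ofFinite F
  obtain ⟨I, J, _, _, D, E, hD, hE, hsum⟩ := art_count F
  have h1 : ∀ χ : F → ℚ, ∑ i : Fin (Nat.card F) ⊕ I,
      artA (Sum.elim (fun _ => ⊤) D i : Subgroup F) χ = ∑ j, artA (E j) χ := by
    intro χ
    rw [← hsum, Fintype.sum_sum_type]
    congr 1
    simp only [Sum.elim_inl]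
    rw [Finset.sum_const, Finset.card_univ, Fintype.card_fin, nsmul_eq_mul, artA, ← mul_assoc]
    have h2 : Nat.card (⊤ : Subgroup F) = Nat.card F := Subgroup.card_top
    have h3 : (Nat.card F : ℚ) ≠ 0 := by exact_mod_cast Nat.card_pos.ne'
    rw [h2, mul_inv_cancel₀ h3, one_mul]
    simp
  obtain ⟨k, hk⟩ := artM_equiv _ E h1
  have hk' : MatEquiv (artM (Sum.elim (fun _ : Fin (Nat.card F) => (⊤ : Subgroup F))
      (Sum.elim D (fun _ : Fin k => ⊥)))) (artM (Sum.elim E (fun _ : Fin k => ⊥))) := by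
    refine K0.matEquiv_trans (artM_idem _) (artM_idem _) ?_ hk
    have h4 : artM (Sum.elim (Sum.elim (fun _ : Fin (Nat.card F) => (⊤ : Subgroup F)) D)
        (fun _ : Fin k => ⊥)) = (artM (Sum.elim (fun _ : Fin (Nat.card F) => (⊤ : Subgroup F))
      (Sum.elim D (fun _ : Fin k => ⊥)))).submatrix (Equiv.sumAssoc _ _ _)
        (Equiv.sumAssoc _ _ _) := by
      ext x y : 1
      rcases x with (x | x) | x <;> rcases y with (y | y) | y <;>
        simp [artM, diagonal_apply]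
    rw [h4]
    exact K0.matEquiv_symm (K0.matEquiv_submatrix _ (artM_idem _) _)
  have f1 : Finite (Σ i : Fin (Nat.card F) ⊕ (I ⊕ Fin k), F ⧸ (Sum.elim (fun _ => ⊤)
      (Sum.elim D (fun _ : Fin k => ⊥)) i : Subgroup F)) := inferInstance
  have f2 : Finite (Σ j, F ⧸ (Sum.elim E (fun _ : Fin k => ⊥) j : Subgroup F)) := inferInstance
  let i1 := Fintype.ofFinite (Σ i : Fin (Nat.card F) ⊕ (I ⊕ Fin k), F ⧸ (Sum.elim (fun _ => ⊤)
      (Sum.elim D (fun _ : Fin k => ⊥)) i : Subgroup F))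
  let i2 := Fintype.ofFinite (Σ j, F ⧸ (Sum.elim E (fun _ : Fin k => ⊥) j : Subgroup F))
  obtain ⟨a, b, n, hn, hab, hba, heq⟩ := art_int _ _ hk'
  refine ⟨I ⊕ Fin k, J ⊕ Fin k, inferInstance, inferInstance, Sum.elim D (fun _ : Fin k => ⊥),
    Sum.elim E (fun _ : Fin k => ⊥), i1, i2, a, b, n, ?_, ?_, hn, ?_, ?_, heq⟩
  · rintro (i | i)
    · exact hD i
    · change IsCyclic (⊥ : Subgroup F)
      infer_instance
  · rintro (j | j)
    · exact hE j
    · change IsCyclic (⊥ : Subgroup F)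
      infer_instance
  · exact hab.trans (smul_one_inst _ _ _)
  · exact hba.trans (smul_one_inst _ _ _)

end Pool.Agent.H95.WH

end

section

/-!
# The assembly map on the `K₁`-part of the rational source

For a ring `R`, a group `G` and `n`:

* `HnK1 R G n` is the abelian group generated by the symbols `[F, x, z]` with `F` a finite subgroup of `G`,
  `x ∈ K₁(R[F])` and `z ∈ H_{n+1}(Z_G(F); ℤ)`, modulo additivity in `x` and in `z` and
  `[F', c_g(x), z'] = [F, x, c_{g⁻¹}(z')]` for `g F g⁻¹ ⊆ F'`, `z' ∈ H_{n+1}(Z_G(F'); ℤ)`;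
* `assembly1 R G n : HnK1 R G n → KQ (R[G]) (n + 1)` sends `[F, [U], z]` to the class of the product of the image of
  `z` under the scalar matrices `γ ∈ Z_G(F)` with the class of the commuting matrix `U` (`HG.cr`);
* `assembly01 R G n : HnK0 R G (n + 1) × HnK1 R G n → KQ (R[G]) (n + 1)`, the sum of the two assembly maps.
-/

set_option autoImplicit false

open Matrix

universe u v w

namespace Pool.Agent.H16.FU

open Pool.Agent.H71.FQ
open Pool.Agent.H95.WH (K1 K1.mk K1.map FamSub conjHom FinSub)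

section

variable (R : Type u) [Ring R] (G : Type v) [Group G] (n : ℕ)

/-- The symbols `[F, x, z]`. -/
structure Sym1 where
  /-- a finite subgroup -/
  F : FamSub G FinSub
  /-- a class in `K₁` of its group ring -/
  x : K1 (MonoidAlgebra R F.1)
  /-- a homology class of its centralizer -/
  z : HG (Subgroup.centralizer (F.1 : Set G)) n

/-- The symbol `[F, x, z]`. -/
noncomputable def symOf1 (F : FamSub G FinSub) (x : K1 (MonoidAlgebra R F.1))
    (z : HG (Subgroup.centralizer (F.1 : Set G)) n) : FreeAbelianGroup (Sym1 R G n) :=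
  FreeAbelianGroup.of ⟨F, x, z⟩

/-- The relation of additivity in `x`. -/
noncomputable def symX1 (F : FamSub G FinSub) (x y : K1 (MonoidAlgebra R F.1))
    (z : HG (Subgroup.centralizer (F.1 : Set G)) n) : FreeAbelianGroup (Sym1 R G n) :=
  symOf1 R G n F (x + y) z - (symOf1 R G n F x z + symOf1 R G n F y z)

/-- The relation of additivity in `z`. -/
noncomputable def symZ1 (F : FamSub G FinSub) (x : K1 (MonoidAlgebra R F.1))
    (z z' : HG (Subgroup.centralizer (F.1 : Set G)) n) : FreeAbelianGroup (Sym1 R G n) :=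
  symOf1 R G n F x (z + z') - (symOf1 R G n F x z + symOf1 R G n F x z')

/-- The relation `[F', c_g(x), z'] = [F, x, c_{g⁻¹}(z')]`. -/
noncomputable def symC1 (F F' : FamSub G FinSub) (g : G) (h : ∀ x ∈ F.1, g * x * g⁻¹ ∈ F'.1)
    (x : K1 (MonoidAlgebra R F.1)) (z : HG (Subgroup.centralizer (F'.1 : Set G)) n) :
    FreeAbelianGroup (Sym1 R G n) :=
  symOf1 R G n F' (K1.map (MonoidAlgebra.mapDomainRingHom R (conjHom g F.1 F'.1 h)) x) z -
    symOf1 R G n F x (HG.map n (centConj g F.1 F'.1 h) z)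

/-- The relations. -/
noncomputable def SymRel1 : AddSubgroup (FreeAbelianGroup (Sym1 R G n)) :=
  AddSubgroup.closure
    ({w | ∃ F x y z, w = symX1 R G n F x y z} ∪ {w | ∃ F x z z', w = symZ1 R G n F x z z'} ∪
      {w | ∃ F F' g h x z, w = symC1 R G n F F' g h x z})

/-- The group generated by the symbols `[F, x, z]`. -/
def HnK1 : Type (max u v) := FreeAbelianGroup (Sym1 R G n) ⧸ SymRel1 R G n

noncomputable instance instHnK1 : AddCommGroup (HnK1 R G n) :=
  QuotientAddGroup.Quotient.addCommGroup (SymRel1 R G n)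

end

section

end

section Sym

variable {k : Type u} [Ring k] {G : Type v} [Group G] {n : ℕ}

/-- The projection. -/
noncomputable def toH1 (k : Type u) [Ring k] (G : Type v) [Group G] (n : ℕ) :
    FreeAbelianGroup (Sym1 k G n) →+ HnK1 k G n := QuotientAddGroup.mk' (SymRel1 k G n)

/-- The symbol `[F, x, z]`. -/
noncomputable def sy1 (F : FamSub G FinSub) (x : K1 (MonoidAlgebra k F.1))
    (z : HG (Subgroup.centralizer (F.1 : Set G)) n) : HnK1 k G n :=
  QuotientAddGroup.mk (FreeAbelianGroup.of ⟨F, x, z⟩)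

theorem toH1_eq_zero {w : FreeAbelianGroup (Sym1 k G n)} (h : w ∈ SymRel1 k G n) :
    toH1 k G n w = 0 := (QuotientAddGroup.eq_zero_iff _).2 h

theorem sy1_add (F : FamSub G FinSub) (x y : K1 (MonoidAlgebra k F.1))
    (z : HG (Subgroup.centralizer (F.1 : Set G)) n) :
    sy1 F (x + y) z = sy1 F x z + sy1 F y z := by
  have h : toH1 k G n (symX1 k G n F x y z) = 0 :=
    toH1_eq_zero (AddSubgroup.subset_closure (Or.inl (Or.inl ⟨F, x, y, z, rfl⟩)))
  rw [symX1, map_sub, map_add, sub_eq_zero] at h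
  exact h

theorem sy1_addz (F : FamSub G FinSub) (x : K1 (MonoidAlgebra k F.1))
    (z z' : HG (Subgroup.centralizer (F.1 : Set G)) n) :
    sy1 F x (z + z') = sy1 F x z + sy1 F x z' := by
  have h : toH1 k G n (symZ1 k G n F x z z') = 0 :=
    toH1_eq_zero (AddSubgroup.subset_closure (Or.inl (Or.inr ⟨F, x, z, z', rfl⟩)))
  rw [symZ1, map_sub, map_add, sub_eq_zero] at h
  exact h

theorem sy1_conj (F F' : FamSub G FinSub) (g : G) (h : ∀ x ∈ F.1, g * x * g⁻¹ ∈ F'.1)
    (x : K1 (MonoidAlgebra k F.1)) (z : HG (Subgroup.centralizer (F'.1 : Set G)) n) :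
    sy1 F' (K1.map (MonoidAlgebra.mapDomainRingHom k (conjHom g F.1 F'.1 h)) x) z =
      sy1 F x (HG.map n (centConj g F.1 F'.1 h) z) := by
  have h' : toH1 k G n (symC1 k G n F F' g h x z) = 0 :=
    toH1_eq_zero (AddSubgroup.subset_closure (Or.inr ⟨F, F', g, h, x, z, rfl⟩))
  rw [symC1, map_sub, sub_eq_zero] at h'
  exact h'

/-- the symbol as a biadditive map -/
noncomputable def syB1 (F : FamSub G FinSub) : K1 (MonoidAlgebra k F.1) →+
    HG (Subgroup.centralizer (F.1 : Set G)) n →+ HnK1 k G n :=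
  AddMonoidHom.mk' (fun x => AddMonoidHom.mk' (fun z => sy1 F x z) (fun z z' => sy1_addz F x z z'))
    (by
      intro x y
      ext z
      exact sy1_add F x y z)

theorem syB1_apply (F : FamSub G FinSub) (x : K1 (MonoidAlgebra k F.1))
    (z : HG (Subgroup.centralizer (F.1 : Set G)) n) : syB1 F x z = sy1 F x z := rfl

theorem hnk1_induction {P : HnK1 k G n → Prop} (h0 : P 0)
    (h1 : ∀ (F : FamSub G FinSub) (x : K1 (MonoidAlgebra k F.1))
      (z : HG (Subgroup.centralizer (F.1 : Set G)) n), P (sy1 F x z))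
    (h2 : ∀ a b, P a → P b → P (a + b)) (h3 : ∀ a, P a → P (-a)) (w : HnK1 k G n) : P w := by
  obtain ⟨y, rfl⟩ : ∃ y, toH1 k G n y = w := QuotientAddGroup.mk_surjective w
  induction y using FreeAbelianGroup.induction_on with
  | zero => rw [map_zero]; exact h0
  | of s => exact h1 s.F s.x s.z
  | neg s _ =>
    rw [map_neg]
    exact h3 _ (h1 s.F s.x s.z)
  | add x y hx hy => rw [map_add]; exact h2 _ _ hx hy

/-- homomorphisms out of `HnK1` -/
noncomputable def lift1 {M : Type w} [AddCommGroup M]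
    (f : ∀ F : FamSub G FinSub, K1 (MonoidAlgebra k F.1) →+
      HG (Subgroup.centralizer (F.1 : Set G)) n →+ M)
    (hf : ∀ (F F' : FamSub G FinSub) (g : G) (h : ∀ x ∈ F.1, g * x * g⁻¹ ∈ F'.1)
      (x : K1 (MonoidAlgebra k F.1)) (z : HG (Subgroup.centralizer (F'.1 : Set G)) n),
      f F' (K1.map (MonoidAlgebra.mapDomainRingHom k (conjHom g F.1 F'.1 h)) x) z =
        f F x (HG.map n (centConj g F.1 F'.1 h) z)) : HnK1 k G n →+ M :=
  QuotientAddGroup.lift (SymRel1 k G n) (FreeAbelianGroup.lift fun s : Sym1 k G n => f s.F s.x s.z)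
    (by
      rw [SymRel1, AddSubgroup.closure_le]
      rintro w ((⟨F, x, y, z, rfl⟩ | ⟨F, x, z, z', rfl⟩) | ⟨F, F', g, h, x, z, rfl⟩)
      · change FreeAbelianGroup.lift _ _ = 0
        rw [symX1, symOf1, symOf1, symOf1, map_sub, map_add, FreeAbelianGroup.lift_apply_of,
          FreeAbelianGroup.lift_apply_of, FreeAbelianGroup.lift_apply_of,
          map_add, AddMonoidHom.add_apply, sub_self]
      · change FreeAbelianGroup.lift _ _ = 0
        rw [symZ1, symOf1, symOf1, symOf1, map_sub, map_add, FreeAbelianGroup.lift_apply_of,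
          FreeAbelianGroup.lift_apply_of, FreeAbelianGroup.lift_apply_of, map_add, sub_self]
      · change FreeAbelianGroup.lift _ _ = 0
        rw [symC1, symOf1, symOf1, map_sub, FreeAbelianGroup.lift_apply_of,
          FreeAbelianGroup.lift_apply_of, sub_eq_zero]
        exact hf F F' g h x z)

theorem lift1_sy1 {M : Type w} [AddCommGroup M]
    (f : ∀ F : FamSub G FinSub, K1 (MonoidAlgebra k F.1) →+
      HG (Subgroup.centralizer (F.1 : Set G)) n →+ M)
    (hf : ∀ (F F' : FamSub G FinSub) (g : G) (h : ∀ x ∈ F.1, g * x * g⁻¹ ∈ F'.1)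
      (x : K1 (MonoidAlgebra k F.1)) (z : HG (Subgroup.centralizer (F'.1 : Set G)) n),
      f F' (K1.map (MonoidAlgebra.mapDomainRingHom k (conjHom g F.1 F'.1 h)) x) z =
        f F x (HG.map n (centConj g F.1 F'.1 h) z)) (F : FamSub G FinSub)
    (x : K1 (MonoidAlgebra k F.1)) (z : HG (Subgroup.centralizer (F.1 : Set G)) n) :
    lift1 f hf (sy1 F x z) = f F x z := by
  change FreeAbelianGroup.lift _ _ = _
  rw [FreeAbelianGroup.lift_apply_of]

end Sym

end Pool.Agent.H16.FU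

end
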