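import Pool.Agent.H13.TFQ.M01

/-! The parts of this file: H71.DB.CocC, H71.FJ.Coeff, H71.WH.Defs, H95.WH.FinQ. -/

section

/-!
# The cocycle of an element of finite order and a homomorphism on its centralizer
-/

set_option autoImplicit false

open Matrix
open scoped Classical

universe t u v w

namespace Pool.Agent.H71.DB

section CocC

variable {G : Type v} [Group G] (c : G)

/-- an element conjugating `c` into `y` -/
noncomputable def xc (y : G) : G := if h : IsConj c y then (isConj_iff.1 h).choose else 1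

theorem xc_spec {y : G} (h : IsConj c y) : xc c y * c * (xc c y)⁻¹ = y := by
  rw [xc, dif_pos h]
  exact (isConj_iff.1 h).choose_spec

end CocC

section DnG

end DnG

end Pool.Agent.H71.DB

end

section

/-!
# Coefficient rings for lifting idempotents to characteristic zero
-/

set_option autoImplicit false

open Matrix

universe u v w

namespace Pool.Agent.H71.FJ

/-- A family of commutative rings with nilpotent surjections onto the field `K` that together
detect integers. -/
structure LiftSys (K : Type u) [Field K] where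
  /-- the rings -/
  B : ℕ → Type u
  inst : ∀ n, CommRing (B n)
  /-- the projections -/
  π : ∀ n, B n →+* K
  surj : ∀ n, Function.Surjective (π n)
  nil : ∀ n, NilKer (π n)
  int : ∀ m : ℤ, (∀ n, (m : B n) = 0) → m = 0

instance {K : Type u} [Field K] (L : LiftSys K) (n : ℕ) : CommRing (L.B n) := L.inst n

/-- In characteristic zero nothing has to be lifted. -/
noncomputable def liftSysZero (K : Type u) [Field K] [CharZero K] : LiftSys K where
  B _ := K
  inst _ := inferInstance
  π _ := RingHom.id K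
  surj _ := Function.surjective_id
  nil _ := by
    refine ⟨1, fun j => if j = 0 then ⊤ else ⊥, ?_, ?_, ?_⟩
    · intro x
      simp
    · intro x hx
      simpa using hx
    · intro j x y hx hy
      have : x = 0 := hx
      rw [this, zero_mul]
      exact AddSubgroup.zero_mem _
  int m h := by exact_mod_cast h 0

section CharP

variable (p : ℕ) [hp : Fact p.Prime] (K : Type u) [Field K] [CharP K p] [PerfectRing K p]

theorem witt_int (m : ℤ) (h : ∀ n : ℕ, ((p : WittVector p K) ^ (n + 1)) ∣ (m : WittVector p K)) :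
    m = 0 := by
  have hp0 : (p : WittVector p K) ≠ 0 := WittVector.p_nonzero p K
  induction hN : m.natAbs using Nat.strong_induction_on generalizing m with
  | _ N ih =>
    by_contra hm
    have h1 := h 0
    rw [zero_add, pow_one] at h1
    have h2 : WittVector.constantCoeff (m : WittVector p K) = 0 := by
      obtain ⟨c, hc⟩ := h1
      rw [hc, map_mul, map_natCast, CharP.cast_eq_zero, zero_mul]
    rw [map_intCast] at h2
    have h3 : (p : ℤ) ∣ m := (CharP.intCast_eq_zero_iff K p m).1 h2
    obtain ⟨m', rfl⟩ := h3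
    have hm' : m' = 0 := by
      refine ih m'.natAbs ?_ m' ?_ rfl
      · rw [← hN, Int.natAbs_mul, Int.natAbs_natCast]
        have h4 : 0 < m'.natAbs := by
          rw [Int.natAbs_pos]
          rintro rfl
          simp at hm
        have h5 := hp.out.two_le
        nlinarith
      · intro n
        obtain ⟨c, hc⟩ := h (n + 1)
        refine ⟨c, ?_⟩
        apply mul_left_cancel₀ hp0
        rw [Int.cast_mul, Int.cast_natCast] at hc
        rw [hc]
        ring
    rw [hm', mul_zero] at hm
    exact hm rfl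

/-- In characteristic `p` we use the Witt vectors modulo powers of `p`. -/
noncomputable def liftSysP : LiftSys K where
  B n := WittVector p K ⧸ Ideal.span {(p : WittVector p K) ^ (n + 1)}
  inst n := inferInstance
  π n := Ideal.Quotient.lift _ (WittVector.constantCoeff : WittVector p K →+* K) (by
    intro a ha
    obtain ⟨c, rfl⟩ := Ideal.mem_span_singleton'.1 ha
    rw [map_mul, map_pow, map_natCast, CharP.cast_eq_zero, zero_pow (Nat.succ_ne_zero n), mul_zero])
  surj n := by
    intro x
    refine ⟨Ideal.Quotient.mk _ (WittVector.teichmuller p x), ?_⟩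
    rw [Ideal.Quotient.lift_mk]
    exact WittVector.teichmuller_coeff_zero p x
  nil n := by
    refine ⟨n + 1, fun j => (Ideal.span
      {((p : WittVector p K ⧸ Ideal.span {(p : WittVector p K) ^ (n + 1)})) ^ j}).toAddSubgroup,
      ?_, ?_, ?_⟩
    · intro x
      change x ∈ Ideal.span _
      rw [pow_zero, Ideal.span_singleton_one]
      trivial
    · intro x hx
      change x ∈ Ideal.span _ at hx
      obtain ⟨c, rfl⟩ := Ideal.mem_span_singleton'.1 hx
      have : (p : WittVector p K ⧸ Ideal.span {(p : WittVector p K) ^ (n + 1)}) ^ (n + 1) = 0 := by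
        rw [← map_natCast (Ideal.Quotient.mk (Ideal.span {(p : WittVector p K) ^ (n + 1)})) p,
          ← map_pow]
        exact Ideal.Quotient.eq_zero_iff_mem.2 (Ideal.mem_span_singleton_self _)
      rw [this, mul_zero]
    · intro j x y hx hy
      change y ∈ Ideal.span _ at hy
      change x * y ∈ Ideal.span _
      obtain ⟨d, rfl⟩ := Ideal.mem_span_singleton'.1 hy
      obtain ⟨w, rfl⟩ := Ideal.Quotient.mk_surjective x
      rw [Ideal.Quotient.lift_mk] at hx
      have hw : w ∈ RingHom.ker (WittVector.constantCoeff : WittVector p K →+* K) := hx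
      rw [WittVector.ker_constantCoeff] at hw
      obtain ⟨c, rfl⟩ := Ideal.mem_span_singleton'.1 hw
      refine Ideal.mem_span_singleton'.2 ⟨Ideal.Quotient.mk _ c * d, ?_⟩
      rw [map_mul, map_natCast]
      ring
  int m h := by
    apply witt_int p K m
    intro n
    have h1 := h n
    rw [← map_intCast (Ideal.Quotient.mk (Ideal.span {(p : WittVector p K) ^ (n + 1)})) m] at h1
    exact Ideal.mem_span_singleton.1 (Ideal.Quotient.eq_zero_iff_mem.1 h1)

end CharP

theorem exists_liftSys (K : Type u) [Field K] [IsAlgClosed K] : Nonempty (LiftSys K) := by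
  obtain ⟨p, hp⟩ := CharP.exists K
  rcases CharP.char_is_prime_or_zero K p with h | h
  · have : Fact p.Prime := ⟨h⟩
    have : PerfectRing K p := PerfectField.toPerfectRing p
    exact ⟨liftSysP p K⟩
  · subst h
    have : CharZero K := CharP.charP_to_charZero K
    exact ⟨liftSysZero K⟩

end Pool.Agent.H71.FJ

end

section

/-!
# Whitehead groups and the assembly map for units of finite cyclic subgroups

`K1 R` is the abelianisation of `GL(R)`: the abelian group generated by the invertible matrices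
over `R`, modulo `[u w] = [u] + [w]` and `[u ⊕ 1] = [u]`. `Wh G` is the quotient of `K1 ℤ[G]` by the
classes of the units `± g`.

`ColimU G` is the colimit of the groups of units `ℤ[C]ˣ` over the finite cyclic subgroups `C` of
`G`, the morphisms `C → C'` being the restrictions of the conjugations `x ↦ g x g⁻¹` with
`g C g⁻¹ ⊆ C'`, and `assembly G` is the natural map from it to `Wh G`.
-/

set_option autoImplicit false

open Matrix

universe u v w

namespace Pool.Agent.H71.WH

/-- An invertible matrix over `R`. -/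
structure InvMat (R : Type u) [Ring R] where
  /-- the size -/
  n : ℕ
  /-- the matrix -/
  mat : (Matrix (Fin n) (Fin n) R)ˣ

/-- The block sum `a ⊕ 1` for a square matrix `a`. -/
def blockOne {R : Type u} [Ring R] {n : ℕ} (a : Matrix (Fin n) (Fin n) R) :
    Matrix (Fin (n + 1)) (Fin (n + 1)) R :=
  (fromBlocks a 0 0 1).submatrix finSumFinEquiv.symm finSumFinEquiv.symm

theorem blockOne_mul {R : Type u} [Ring R] {n : ℕ} (a b : Matrix (Fin n) (Fin n) R) :
    blockOne a * blockOne b = blockOne (a * b) := by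
  rw [blockOne, blockOne, blockOne, submatrix_mul_equiv, fromBlocks_multiply]
  simp

theorem blockOne_one {R : Type u} [Ring R] {n : ℕ} :
    blockOne (1 : Matrix (Fin n) (Fin n) R) = 1 := by
  rw [blockOne, fromBlocks_one, submatrix_one_equiv]

theorem blockOne_mul_eq_one {R : Type u} [Ring R] {n : ℕ} {a b : Matrix (Fin n) (Fin n) R}
    (h : a * b = 1) : blockOne a * blockOne b = 1 := by
  rw [blockOne_mul, h, blockOne_one]

/-- The block sum `u ⊕ 1` for an invertible matrix `u`. -/
def addOne {R : Type u} [Ring R] {n : ℕ} (x : (Matrix (Fin n) (Fin n) R)ˣ) :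
    (Matrix (Fin (n + 1)) (Fin (n + 1)) R)ˣ where
  val := blockOne x.val
  inv := blockOne x.inv
  val_inv := blockOne_mul_eq_one x.val_inv
  inv_val := blockOne_mul_eq_one x.inv_val

/-- The generator of an invertible matrix. -/
def genK1 {R : Type u} [Ring R] {n : ℕ} (x : (Matrix (Fin n) (Fin n) R)ˣ) :
    FreeAbelianGroup (InvMat R) := FreeAbelianGroup.of ⟨n, x⟩

/-- The relations of `K₁(R)`: `[x y] = [x] + [y]` and `[x ⊕ 1] = [x]`. -/
def K1Rel (R : Type u) [Ring R] : AddSubgroup (FreeAbelianGroup (InvMat R)) :=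
  AddSubgroup.closure
    ({z | ∃ (n : ℕ) (x y : (Matrix (Fin n) (Fin n) R)ˣ),
        z = genK1 (x * y) - (genK1 x + genK1 y)} ∪
      {z | ∃ (n : ℕ) (x : (Matrix (Fin n) (Fin n) R)ˣ), z = genK1 (addOne x) - genK1 x})

/-- The group `K₁(R)`, the abelianisation of `GL(R)`. -/
def K1 (R : Type u) [Ring R] : Type u := FreeAbelianGroup (InvMat R) ⧸ K1Rel R

instance instK1 (R : Type u) [Ring R] : AddCommGroup (K1 R) :=
  QuotientAddGroup.Quotient.addCommGroup (K1Rel R)

/-- The class of an invertible matrix. -/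
def K1.mk {R : Type u} [Ring R] {n : ℕ} (x : (Matrix (Fin n) (Fin n) R)ˣ) : K1 R :=
  QuotientAddGroup.mk (genK1 x)

/-- A unit as an invertible `1 × 1` matrix. -/
def oneByOne {R : Type u} [Ring R] (x : Rˣ) : (Matrix (Fin 1) (Fin 1) R)ˣ :=
  Units.map (scalar (Fin 1)).toMonoidHom x

/-- The class in `K₁(R)` of a unit of `R`. -/
def K1.unit {R : Type u} [Ring R] (x : Rˣ) : K1 R := K1.mk (oneByOne x)

/-- The units `± g` of `ℤ[G]`. -/
def trivialUnits (G : Type v) [Group G] : Set (MonoidAlgebra ℤ G)ˣ :=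
  {x | ∃ (g : G) (e : ℤ), (e = 1 ∨ e = -1) ∧ (x : MonoidAlgebra ℤ G) = MonoidAlgebra.single g e}

/-- The subgroup of `K₁(ℤ[G])` generated by the classes of the units `± g`. -/
noncomputable def trivialK1 (G : Type v) [Group G] : AddSubgroup (K1 (MonoidAlgebra ℤ G)) :=
  AddSubgroup.closure (K1.unit '' trivialUnits G)

/-- The Whitehead group `Wh(G)`. -/
def Wh (G : Type v) [Group G] : Type v := K1 (MonoidAlgebra ℤ G) ⧸ trivialK1 G

noncomputable instance instWh (G : Type v) [Group G] : AddCommGroup (Wh G) :=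
  QuotientAddGroup.Quotient.addCommGroup (trivialK1 G)

/-- The finite cyclic subgroups of `G`. -/
abbrev CycSub (G : Type v) [Group G] : Type v := {C : Subgroup G // Finite C ∧ IsCyclic C}

theorem conj_mul {G : Type v} [Group G] (g : G) (F F' : Subgroup G)
    (h : ∀ x ∈ F, g * x * g⁻¹ ∈ F') (x y : F) :
    (⟨g * ↑(x * y) * g⁻¹, h _ (x * y).2⟩ : F') =
      ⟨g * x * g⁻¹, h x x.2⟩ * ⟨g * y * g⁻¹, h y y.2⟩ := by
  apply Subtype.ext
  simp only [Subgroup.coe_mul]
  group

/-- Conjugation by `g` as a homomorphism `F → F'` if `g F g⁻¹ ⊆ F'`. -/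
def conjHom {G : Type v} [Group G] (g : G) (F F' : Subgroup G)
    (h : ∀ x ∈ F, g * x * g⁻¹ ∈ F') : F →* F' :=
  MonoidHom.mk' (fun x => ⟨g * x * g⁻¹, h x x.2⟩) (conj_mul g F F' h)

/-- The homomorphism `ℤ[F]ˣ → ℤ[F']ˣ` induced by a group homomorphism `F → F'`. -/
noncomputable def unitsMap {F : Type u} {F' : Type v} [Group F] [Group F'] (φ : F →* F') :
    (MonoidAlgebra ℤ F)ˣ →* (MonoidAlgebra ℤ F')ˣ :=
  Units.map (MonoidAlgebra.mapDomainRingHom ℤ φ).toMonoidHom

/-- A finite cyclic subgroup `C` and a unit of `ℤ[C]`. -/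
structure CycUnit (G : Type v) [Group G] where
  /-- the subgroup -/
  C : CycSub G
  /-- the unit -/
  x : (MonoidAlgebra ℤ C.1)ˣ

/-- The generator of a pair. -/
def gen {G : Type v} [Group G] (C : CycSub G) (x : (MonoidAlgebra ℤ C.1)ˣ) :
    FreeAbelianGroup (CycUnit G) := FreeAbelianGroup.of ⟨C, x⟩

/-- The relation `[C, x y] - ([C, x] + [C, y])`. -/
noncomputable def mulRel {G : Type v} [Group G] (C : CycSub G) (x y : (MonoidAlgebra ℤ C.1)ˣ) :
    FreeAbelianGroup (CycUnit G) := gen C (x * y) - (gen C x + gen C y)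

/-- The relation `[C', g x g⁻¹] - [C, x]`. -/
noncomputable def conjRel {G : Type v} [Group G] (C C' : CycSub G) (g : G)
    (h : ∀ a ∈ C.1, g * a * g⁻¹ ∈ C'.1) (x : (MonoidAlgebra ℤ C.1)ˣ) :
    FreeAbelianGroup (CycUnit G) := gen C' (unitsMap (conjHom g C.1 C'.1 h) x) - gen C x

/-- The relations of the colimit: `[C, x y] = [C, x] + [C, y]` and `[C', g x g⁻¹] = [C, x]`. -/
def colimRel (G : Type v) [Group G] : AddSubgroup (FreeAbelianGroup (CycUnit G)) :=
  AddSubgroup.closure
    ({z | ∃ C x y, z = mulRel C x y} ∪ {z | ∃ C C' g h x, z = conjRel C C' g h x})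

/-- The colimit of `ℤ[C]ˣ` over the finite cyclic subgroups `C` of `G`. -/
def ColimU (G : Type v) [Group G] : Type v := FreeAbelianGroup (CycUnit G) ⧸ colimRel G

instance instColimU (G : Type v) [Group G] : AddCommGroup (ColimU G) :=
  QuotientAddGroup.Quotient.addCommGroup (colimRel G)

/-- The class in `Wh(G)` of a unit of `ℤ[G]`. -/
noncomputable def Wh.unit {G : Type v} [Group G] (x : (MonoidAlgebra ℤ G)ˣ) : Wh G :=
  QuotientAddGroup.mk (K1.unit x)

/-- The class in `Wh(G)` of a unit of `ℤ[C]`. -/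
noncomputable def incWh {G : Type v} [Group G] (C : CycSub G) (x : (MonoidAlgebra ℤ C.1)ˣ) :
    Wh G := Wh.unit (unitsMap C.1.subtype x)

/-- The class in `Wh(G)` of a pair. -/
noncomputable def toWh {G : Type v} [Group G] (a : CycUnit G) : Wh G := incWh a.C a.x

/-- The map on the free abelian group. -/
noncomputable def assemblyFree (G : Type v) [Group G] : FreeAbelianGroup (CycUnit G) →+ Wh G :=
  FreeAbelianGroup.lift toWh

theorem K1.mk_mul {R : Type u} [Ring R] {n : ℕ} (x y : (Matrix (Fin n) (Fin n) R)ˣ) :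
    K1.mk (x * y) = K1.mk x + K1.mk y := by
  have h : genK1 (x * y) - (genK1 x + genK1 y) ∈ K1Rel R :=
    AddSubgroup.subset_closure (Or.inl ⟨n, x, y, rfl⟩)
  exact QuotientAddGroup.eq_iff_sub_mem.2 h

theorem K1.unit_mul {R : Type u} [Ring R] (x y : Rˣ) :
    K1.unit (x * y) = K1.unit x + K1.unit y := by
  have h1 : oneByOne (x * y) = oneByOne x * oneByOne y := map_mul _ x y
  rw [K1.unit, h1, K1.mk_mul]
  rfl

theorem Wh.unit_mul {G : Type v} [Group G] (x y : (MonoidAlgebra ℤ G)ˣ) :
    Wh.unit (x * y) = Wh.unit x + Wh.unit y := by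
  rw [Wh.unit, K1.unit_mul]
  rfl

theorem incWh_mul {G : Type v} [Group G] (C : CycSub G) (x y : (MonoidAlgebra ℤ C.1)ˣ) :
    incWh C (x * y) = incWh C x + incWh C y := by
  rw [incWh, map_mul, Wh.unit_mul]
  rfl

/-- The unit `g` of `ℤ[G]`. -/
noncomputable def gUnit {G : Type v} [Group G] (g : G) : (MonoidAlgebra ℤ G)ˣ :=
  Units.map (MonoidAlgebra.of ℤ G) (toUnits g)

theorem unitsMap_conj {G : Type v} [Group G] (g : G) (F F' : Subgroup G)
    (h : ∀ x ∈ F, g * x * g⁻¹ ∈ F') (x : (MonoidAlgebra ℤ F)ˣ) :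
    unitsMap F'.subtype (unitsMap (conjHom g F F' h) x) =
      gUnit g * unitsMap F.subtype x * gUnit g⁻¹ := by
  have key : ∀ r : MonoidAlgebra ℤ F, MonoidAlgebra.mapDomainRingHom ℤ F'.subtype
      (MonoidAlgebra.mapDomainRingHom ℤ (conjHom g F F' h) r) =
      MonoidAlgebra.single g 1 * MonoidAlgebra.mapDomainRingHom ℤ F.subtype r *
        MonoidAlgebra.single g⁻¹ 1 := by
    intro r
    induction r using MonoidAlgebra.induction_linear with
    | zero => simp
    | add a b ha hb => rw [map_add, map_add, ha, hb, map_add, mul_add, add_mul]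
    | single s t =>
      change MonoidAlgebra.mapDomain F'.subtype (MonoidAlgebra.mapDomain (conjHom g F F' h)
        (MonoidAlgebra.single s t)) = MonoidAlgebra.single g 1 *
          MonoidAlgebra.mapDomain F.subtype (MonoidAlgebra.single s t) *
          MonoidAlgebra.single g⁻¹ 1
      rw [MonoidAlgebra.mapDomain_single, MonoidAlgebra.mapDomain_single,
        MonoidAlgebra.mapDomain_single, MonoidAlgebra.single_mul_single,
        MonoidAlgebra.single_mul_single, one_mul, mul_one]
      rfl
  exact Units.ext (key x)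

theorem incWh_conj {G : Type v} [Group G] (C C' : CycSub G) (g : G)
    (h : ∀ a ∈ C.1, g * a * g⁻¹ ∈ C'.1) (x : (MonoidAlgebra ℤ C.1)ˣ) :
    incWh C' (unitsMap (conjHom g C.1 C'.1 h) x) = incWh C x := by
  have h2 : gUnit g * gUnit g⁻¹ = 1 := by
    rw [gUnit, gUnit, ← map_mul, ← map_mul, mul_inv_cancel, map_one, map_one]
  have h3 : Wh.unit (gUnit g) + Wh.unit (gUnit g⁻¹) = 0 := by
    have h4 := Wh.unit_mul (1 : (MonoidAlgebra ℤ G)ˣ) 1
    rw [mul_one] at h4
    rw [← Wh.unit_mul, h2]
    exact (add_eq_left.1 h4.symm)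
  rw [incWh, unitsMap_conj, Wh.unit_mul, Wh.unit_mul, add_right_comm, h3, zero_add]
  rfl

theorem colimRel_le (G : Type v) [Group G] : colimRel G ≤ (assemblyFree G).ker := by
  rw [colimRel, AddSubgroup.closure_le]
  rintro z (⟨C, x, y, rfl⟩ | ⟨C, C', g, h, x, rfl⟩)
  · change assemblyFree G (gen C (x * y) - (gen C x + gen C y)) = 0
    rw [assemblyFree, map_sub, map_add, gen, gen, gen, FreeAbelianGroup.lift_apply_of,
      FreeAbelianGroup.lift_apply_of, FreeAbelianGroup.lift_apply_of]
    exact sub_eq_zero.2 (incWh_mul C x y)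
  · change assemblyFree G (gen C' (unitsMap (conjHom g C.1 C'.1 h) x) - gen C x) = 0
    rw [assemblyFree, map_sub, gen, gen, FreeAbelianGroup.lift_apply_of,
      FreeAbelianGroup.lift_apply_of]
    exact sub_eq_zero.2 (incWh_conj C C' g h x)

/-- The assembly map for units of finite cyclic subgroups. -/
noncomputable def assembly (G : Type v) [Group G] : ColimU G →+ Wh G :=
  QuotientAddGroup.lift (colimRel G) (assemblyFree G) (colimRel_le G)

end Pool.Agent.H71.WH

end

section

/-!
# Finite quotients and unimodular rows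

## Paper proofs

`sr_fin` (stable range one of a finite commutative ring): some power `e = x^m`, `m ≥ 1`, is
idempotent (`B` is finite); put `t = 1 - e`. If `P` is a maximal ideal containing `x + t y`: if
`x ∉ P` then `e = x^m` is an idempotent not in `P`, so `t = 1 - e ∈ P` (`e (1 - e) = 0`) and `x ∈ P`,
contradiction; if `x ∈ P` then `e ∈ P`, `t ∉ P`, so `y ∈ P` and `1 = u x + v y ∈ P`, contradiction. So
`x + t y` is a unit.
`sr_row`: put `y = ∑ vᵢ xᵢ` over `i ≥ 1` and apply `sr_fin` to `x 0`, `y`.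
`fin_quot`: the norm `n(a)` (determinant of the multiplication by `a` on the free `ℤ`-module `A`) is
multiplicative and `n(1 + q z) ≡ 1` modulo `q`, so `n(a) n(a') ≡ 1` modulo `q ≥ 2` and `n(a) ≠ 0`. By
Cayley-Hamilton `n(a) ∈ a A`. So `A / a A` is a quotient of `A / n(a) A`, which is finite.
-/

set_option autoImplicit false

namespace Pool.Agent.H95.WH

private theorem finq_pow {B : Type*} [CommRing B] [Finite B] (x : B) :
    ∃ m : ℕ, 0 < m ∧ x ^ m * x ^ m = x ^ m := by
  obtain ⟨i, j, hij, h⟩ := Finite.exists_ne_map_eq_of_infinite (fun n : ℕ => x ^ n)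
  wlog hlt : i < j generalizing i j
  · exact this j i hij.symm h.symm (lt_of_le_of_ne (not_lt.1 hlt) hij.symm)
  obtain ⟨p, rfl⟩ := Nat.exists_eq_add_of_lt hlt
  have h : x ^ i = x ^ (i + p + 1) := h
  have h1 : ∀ k : ℕ, x ^ (i + k + (p + 1)) = x ^ (i + k) := by
    intro k
    have e : i + k + (p + 1) = (i + p + 1) + k := by omega
    rw [e, pow_add, ← h, ← pow_add]
  have h2 : ∀ (c k : ℕ), x ^ (i + k + c * (p + 1)) = x ^ (i + k) := by
    intro c
    induction c with
    | zero => intro k; simp
    | succ c ih =>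
      intro k
      have e : i + k + (c + 1) * (p + 1) = i + (k + c * (p + 1)) + (p + 1) := by ring
      rw [e, h1, ← ih k]
      congr 1
      omega
  refine ⟨(i + 1) * (p + 1), by positivity, ?_⟩
  rw [← pow_add]
  have e : (i + 1) * (p + 1) = i + (i * p + p + 1) := by ring
  have h3 := h2 (i + 1) (i * p + p + 1)
  rw [← e] at h3
  exact h3

theorem sr_fin {B : Type*} [CommRing B] [Finite B] (x y u v : B) (h : u * x + v * y = 1) :
    ∃ t : B, IsUnit (x + t * y) := by
  obtain ⟨m, hm, he⟩ := finq_pow x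
  refine ⟨1 - x ^ m, ?_⟩
  by_contra hu
  obtain ⟨P, hP, hmem⟩ := exists_max_ideal_of_mem_nonunits hu
  have hPp : P.IsPrime := hP.isPrime
  by_cases hx : x ∈ P
  · have hxm : x ^ m ∈ P := P.pow_mem_of_mem hx m hm
    have h1 : (1 - x ^ m) * y ∈ P := (Ideal.add_mem_iff_right P hx).1 hmem
    rcases hPp.mem_or_mem h1 with h2 | h2
    · apply hP.ne_top
      rw [Ideal.eq_top_iff_one]
      have := P.add_mem h2 hxm
      rwa [sub_add_cancel] at this
    · apply hP.ne_top
      rw [Ideal.eq_top_iff_one, ← h]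
      exact P.add_mem (P.mul_mem_left _ hx) (P.mul_mem_left _ h2)
  · have hxm : x ^ m ∉ P := fun h1 => hx (hPp.mem_of_pow_mem _ h1)
    have h1 : x ^ m * (1 - x ^ m) ∈ P := by
      rw [mul_sub, mul_one, he, sub_self]
      exact P.zero_mem
    have h2 : (1 - x ^ m) ∈ P := (hPp.mem_or_mem h1).resolve_left hxm
    have h3 : (1 - x ^ m) * y ∈ P := P.mul_mem_right _ h2
    exact hx ((Ideal.add_mem_iff_left P h3).1 hmem)

theorem sr_row {B : Type*} [CommRing B] [Finite B] {n : ℕ} (x v : Fin (n + 1) → B)
    (h : ∑ i, v i * x i = 1) : ∃ t : Fin n → B, IsUnit (x 0 + ∑ i, t i * x i.succ) := by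
  rw [Fin.sum_univ_succ] at h
  obtain ⟨t, ht⟩ := sr_fin (x 0) (∑ i : Fin n, v i.succ * x i.succ) (v 0) 1
    (by rw [one_mul]; exact h)
  refine ⟨fun i => t * v i.succ, ?_⟩
  have e : (∑ i : Fin n, t * v i.succ * x i.succ) = t * ∑ i : Fin n, v i.succ * x i.succ := by
    rw [Finset.mul_sum]
    exact Finset.sum_congr rfl fun i _ => mul_assoc _ _ _
  rw [e]
  exact ht

private theorem finq_aux {A : Type*} [CommRing A] [Module.Free ℤ A] [Module.Finite ℤ A] (a : A)
    (ha : ∀ x : A, a * x = 0 → x = 0) : Finite (A ⧸ Ideal.span {a}) := by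
  let f : A →ₗ[ℤ] A := LinearMap.mulLeft ℤ a
  have hf : Function.Injective f := by
    rw [injective_iff_map_eq_zero]
    intro x hx
    exact ha x hx
  have hr : LinearMap.range f = (Ideal.span {a}).restrictScalars ℤ := by
    ext x
    rw [LinearMap.mem_range, Submodule.restrictScalars_mem, Ideal.mem_span_singleton']
    constructor
    · rintro ⟨y, hy⟩
      exact ⟨y, by rw [mul_comm]; exact hy⟩
    · rintro ⟨y, hy⟩
      exact ⟨y, by rw [← hy, mul_comm]; rfl⟩
  have h1 : Module.finrank ℤ (LinearMap.range f) = Module.finrank ℤ A :=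
    (LinearEquiv.ofInjective f hf).finrank_eq.symm
  rw [hr] at h1
  have h2 := Submodule.finiteQuotientOfFreeOfRankEq ((Ideal.span {a}).restrictScalars ℤ) h1
  exact Finite.of_equiv _ (Submodule.Quotient.restrictScalarsEquiv ℤ (Ideal.span {a})).toEquiv

theorem fin_quot {A : Type*} [CommRing A] [Module.Free ℤ A] [Module.Finite ℤ A] (q : ℕ)
    (hq : 2 ≤ q) (a a' z : A) (h : a * a' = 1 + (q : A) * z) : Finite (A ⧸ Ideal.span {a}) := by
  apply finq_aux
  intro x hx
  have h1 : x = (q : A) * (-z * x) := by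
    have : (a * a') * x = 0 := by rw [mul_comm a a', mul_assoc, hx, mul_zero]
    rw [h] at this
    linear_combination this
  have h2 : ∀ k : ℕ, ∃ y : A, x = ((q : A) ^ k) * y := by
    intro k
    induction k with
    | zero => exact ⟨x, by simp⟩
    | succ k ih =>
      obtain ⟨y, hy⟩ := ih
      refine ⟨-z * y, ?_⟩
      calc x = (q : A) * (-z * x) := h1
        _ = (q : A) * (-z * ((q : A) ^ k * y)) := by rw [← hy]
        _ = (q : A) ^ (k + 1) * (-z * y) := by ring
  let b := Module.Free.chooseBasis ℤ A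
  apply b.repr.injective
  rw [map_zero]
  ext i
  rw [Finsupp.zero_apply]
  by_contra hne
  obtain ⟨y, hy⟩ := h2 (b.repr x i).natAbs
  have h3 : b.repr x i = (q : ℤ) ^ (b.repr x i).natAbs * b.repr y i := by
    conv_lhs => rw [hy]
    have e : ((q : A) ^ (b.repr x i).natAbs) * y = ((q : ℤ) ^ (b.repr x i).natAbs) • y := by
      rw [zsmul_eq_mul]
      push_cast
      rfl
    rw [e, map_smul, Finsupp.smul_apply, smul_eq_mul]
  have h4 : ((q : ℤ) ^ (b.repr x i).natAbs) ∣ b.repr x i := ⟨_, h3⟩
  have h5 := Int.natAbs_dvd_natAbs.2 h4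
  rw [Int.natAbs_pow, Int.natAbs_natCast] at h5
  have h6 := Nat.le_of_dvd (Int.natAbs_pos.2 hne) h5
  have h7 : (b.repr x i).natAbs < q ^ (b.repr x i).natAbs := Nat.lt_pow_self hq
  omega

theorem fin_quot_nat {A : Type*} [CommRing A] [Module.Free ℤ A] [Module.Finite ℤ A] (q : ℕ)
    (hq : q ≠ 0) : Finite (A ⧸ Ideal.span {(q : A)}) := by
  apply finq_aux
  intro x hx
  let b := Module.Free.chooseBasis ℤ A
  apply b.repr.injective
  rw [map_zero]
  ext i
  rw [Finsupp.zero_apply]
  have e : ((q : A)) * x = (q : ℤ) • x := by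
    rw [zsmul_eq_mul]
    push_cast
    rfl
  rw [e] at hx
  have h1 : b.repr ((q : ℤ) • x) i = 0 := by rw [hx, map_zero, Finsupp.zero_apply]
  rw [map_smul, Finsupp.smul_apply, smul_eq_mul] at h1
  rcases mul_eq_zero.1 h1 with h2 | h2
  · exact absurd (by exact_mod_cast h2) hq
  · exact h2

end Pool.Agent.H95.WH

end
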