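import Pool.Agent.H13.TFQ.M11
import Pool.Agent.H13.TFQ.M13
import Pool.Agent.H13.TFQ.M20

/-! The parts of this file: H71.WH.U3, H71.WH.Col, H71.WH.Prim. -/

section

/-!
# The logarithmic functionals on units
-/

set_option autoImplicit false
set_option linter.unusedSectionVars false
set_option linter.unusedSimpArgs false

open Matrix
open scoped Classical

universe u v w

namespace Pool.Agent.H71.WH

theorem L_pow {R : Type u} [Ring R] (τ : R →+ ℤ) (hτ : ∀ a b, τ (a * b) = τ (b * a)) {w : R}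
    (h : Cong w) (n : ℕ) : Cong (w ^ n) ∧ L τ (w ^ n) = n * L τ w := by
  induction n with
  | zero =>
    rw [pow_zero, L_one]
    exact ⟨Cong.one, by simp⟩
  | succ n ih =>
    rw [pow_succ]
    refine ⟨ih.1.mul h, ?_⟩
    rw [L_mul τ hτ ih.1 h, ih.2]
    push_cast
    ring

theorem fn_comm {H : Type u} [Group H] (f : H → ℤ) (hf : ∀ x y, f (x * y) = f (y * x))
    (x y : MonoidAlgebra ℤ H) : fn f (x * y) = fn f (y * x) := by
  induction x using MonoidAlgebra.induction_linear with
  | zero => rw [zero_mul, mul_zero]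
  | add x x' hx hx' => rw [add_mul, mul_add, map_add, map_add, hx, hx']
  | single g b =>
    induction y using MonoidAlgebra.induction_linear with
    | zero => rw [zero_mul, mul_zero]
    | add y y' hy hy' => rw [add_mul, mul_add, map_add, map_add, hy, hy']
    | single h c =>
      rw [MonoidAlgebra.single_mul_single, MonoidAlgebra.single_mul_single, fn_single,
        fn_single, hf, mul_comm b c]

theorem ga_comm {H : Type u} [Group H] (hc : ∀ a b : H, a * b = b * a)
    (x y : MonoidAlgebra ℤ H) : x * y = y * x := by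
  induction x using MonoidAlgebra.induction_linear with
  | zero => rw [zero_mul, mul_zero]
  | add x x' hx hx' => rw [add_mul, mul_add, hx, hx']
  | single g b =>
    induction y using MonoidAlgebra.induction_linear with
    | zero => rw [zero_mul, mul_zero]
    | add y y' hy hy' => rw [add_mul, mul_add, hy, hy']
    | single h c =>
      rw [MonoidAlgebra.single_mul_single, MonoidAlgebra.single_mul_single, hc, mul_comm b c]

theorem fn_sum {H : Type u} [Group H] [Fintype H] (f : H → ℤ) (y : MonoidAlgebra ℤ H) :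
    fn f y = ∑ c, f c * fn (dlt c) y := by
  induction y using MonoidAlgebra.induction_linear with
  | zero => simp
  | add x y hx hy =>
    rw [map_add, hx, hy, ← Finset.sum_add_distrib]
    apply Finset.sum_congr rfl
    intro c _
    rw [map_add, mul_add]
  | single g n =>
    rw [fn_single, Finset.sum_eq_single g]
    · rw [fn_single, dlt, if_pos rfl]
      ring
    · intro c _ hc
      rw [fn_single, dlt, if_neg (Ne.symm hc)]
      ring
    · intro h
      exact absurd (Finset.mem_univ _) h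

theorem tlTerm_sum {H : Type u} [Group H] [Fintype H] (f : H → ℤ) (y : MonoidAlgebra ℤ H) (k : ℕ) :
    tlTerm (fn f) y k = ∑ c, (f c : ℚ_[2]) * tlTerm (fn (dlt c)) y k := by
  simp only [tlTerm]
  rw [fn_sum f]
  push_cast
  rw [Finset.mul_sum, Finset.sum_div]
  apply Finset.sum_congr rfl
  intro c _
  ring

theorem tl_sum {H : Type u} [Group H] [Fintype H] (f : H → ℤ) (y : MonoidAlgebra ℤ H)
    (hs : ∀ c, Summable (tlTerm (fn (dlt c)) y)) :
    tl (fn f) y = ∑ c, (f c : ℚ_[2]) * tl (fn (dlt c)) y := by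
  have h2 : tlTerm (fn f) y = fun k => ∑ c, (f c : ℚ_[2]) * tlTerm (fn (dlt c)) y k := by
    funext k
    exact tlTerm_sum f _ k
  have h3 : ∀ c ∈ (Finset.univ : Finset H),
      Summable (fun k => (f c : ℚ_[2]) * tlTerm (fn (dlt c)) y k) := by
    intro c _
    exact (hs c).mul_left _
  rw [tl, h2, Summable.tsum_finsetSum h3]
  apply Finset.sum_congr rfl
  intro c _
  rw [tsum_mul_left, tl]

theorem L_sum {H : Type u} [Group H] [Fintype H] (f : H → ℤ) {w : MonoidAlgebra ℤ H}
    (h : Cong w) : L (fn f) w = ∑ c, (f c : ℚ_[2]) * L (fn (dlt c)) w := by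
  obtain ⟨x, hx⟩ := h
  have h1 : ∀ τ : MonoidAlgebra ℤ H →+ ℤ, L τ w = tl τ (2 * x) := by
    intro τ
    rw [hx, L_one_add]
  rw [h1, tl_sum f (2 * x) (fun c => tl_summable (fn (dlt c)) x)]
  apply Finset.sum_congr rfl
  intro c _
  rw [h1]

section LU

variable {H : Type u} [Group H] [Finite H]

/-- The logarithmic functional of `f` on units of `ℤ[H]`. -/
noncomputable def LU (f : H → ℤ) (δ : (MonoidAlgebra ℤ H)ˣ) : ℚ_[2] :=
  (N8 H : ℚ_[2])⁻¹ * L (fn f) ((δ ^ N8 H : (MonoidAlgebra ℤ H)ˣ) : MonoidAlgebra ℤ H)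

theorem LU_eq (f : H → ℤ) (hf : ∀ x y, f (x * y) = f (y * x)) (δ : (MonoidAlgebra ℤ H)ˣ) (m : ℕ)
    (hm : m ≠ 0) (h : C8 ((δ ^ m : (MonoidAlgebra ℤ H)ˣ) : MonoidAlgebra ℤ H)) :
    LU f δ = (m : ℚ_[2])⁻¹ * L (fn f) ((δ ^ m : (MonoidAlgebra ℤ H)ˣ) : MonoidAlgebra ℤ H) := by
  have h1 := (L_pow (fn f) (fn_comm f hf) h.cong (N8 H)).2
  have h2 := (L_pow (fn f) (fn_comm f hf) (C8_pow_N8 δ).cong m).2
  have h3 : ((δ ^ m : (MonoidAlgebra ℤ H)ˣ) : MonoidAlgebra ℤ H) ^ N8 H =
      ((δ ^ N8 H : (MonoidAlgebra ℤ H)ˣ) : MonoidAlgebra ℤ H) ^ m := by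
    rw [← Units.val_pow_eq_pow_val, ← Units.val_pow_eq_pow_val, ← pow_mul, ← pow_mul, mul_comm]
  rw [h3, h2] at h1
  have hN : (N8 H : ℚ_[2]) ≠ 0 := by exact_mod_cast N8_ne_zero (C := H)
  have hm' : (m : ℚ_[2]) ≠ 0 := by exact_mod_cast hm
  rw [LU]
  field_simp
  linear_combination h1

theorem LU_mul (hc : ∀ a b : H, a * b = b * a) (f : H → ℤ) (δ δ' : (MonoidAlgebra ℤ H)ˣ) :
    LU f (δ * δ') = LU f δ + LU f δ' := by
  have hcm : Commute δ δ' := Units.ext (ga_comm hc _ _)
  rw [LU, LU, LU, hcm.mul_pow, Units.val_mul,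
    L_mul (fn f) (fn_comm f (fun x y => by rw [hc])) (C8_pow_N8 δ).cong (C8_pow_N8 δ').cong]
  ring

theorem LU_map {H' : Type v} [Group H'] [Finite H'] (φ : H →* H') (f : H' → ℤ)
    (hf : ∀ x y, f (x * y) = f (y * x)) (δ : (MonoidAlgebra ℤ H)ˣ) :
    LU f (Units.map (gr φ).toMonoidHom δ) = LU (fun x => f (φ x)) δ := by
  have h1 : ((Units.map (gr φ).toMonoidHom δ ^ N8 H : (MonoidAlgebra ℤ H')ˣ) :
      MonoidAlgebra ℤ H') = gr φ ((δ ^ N8 H : (MonoidAlgebra ℤ H)ˣ) : MonoidAlgebra ℤ H) := by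
    rw [← map_pow]
    rfl
  rw [LU_eq f hf _ (N8 H) N8_ne_zero (by rw [h1]; exact (C8_pow_N8 δ).map _), h1, LU, L_map]
  congr 2
  exact AddMonoidHom.ext fun x => fn_gr φ f x

theorem LU_sum [Fintype H] (f : H → ℤ) (δ : (MonoidAlgebra ℤ H)ˣ) :
    LU f δ = ∑ c, (f c : ℚ_[2]) * LU (dlt c) δ := by
  rw [LU, L_sum f (C8_pow_N8 δ).cong, Finset.mul_sum]
  apply Finset.sum_congr rfl
  intro c _
  rw [LU]
  ring

end LU

section GamLU

variable {H : Type u} [Group H] [Finite H]

/-- a unit as a `1 × 1` matrix -/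
noncomputable def sc (δ : (MonoidAlgebra ℤ H)ˣ) : (Matrix (Fin 1) (Fin 1) (MonoidAlgebra ℤ H))ˣ :=
  Units.map (Matrix.scalar (Fin 1)).toMonoidHom δ

theorem Gam_pow {G : Type u} [Group G] (f : G → ℤ) (hf : ∀ x y, f (x * y) = f (y * x))
    {ι : Type v} [Fintype ι] [DecidableEq ι] (u : (Matrix ι ι (MonoidAlgebra ℤ G))ˣ) (k : ℕ) :
    Gam f hf (u ^ k) = k * Gam f hf u := by
  induction k with
  | zero => rw [pow_zero, Gam_one]; simp
  | succ k ih => rw [pow_succ, Gam_mul, ih]; push_cast; ring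

theorem L_scalar (f : H → ℤ) (w : MonoidAlgebra ℤ H) :
    L (trf f (Fin 1)) (Matrix.scalar (Fin 1) w) = L (fn f) w := by
  rw [L_map]
  congr 1
  apply AddMonoidHom.ext
  intro x
  rw [pull_apply, trf_apply, Matrix.trace_fin_one]
  simp

end GamLU

end Pool.Agent.H71.WH

end

section

/-!
# The functionals on the colimit and their relation to the functionals on the Whitehead group
-/

set_option autoImplicit false
set_option linter.unusedSectionVars false
set_option linter.unusedSimpArgs false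

open Matrix
open scoped Classical

universe u v w

namespace Pool.Agent.H71.WH

section

variable {G : Type v} [Group G]

/-- the quotient map -/
def toColim (G : Type v) [Group G] : FreeAbelianGroup (CycUnit G) →+ ColimU G :=
  QuotientAddGroup.mk' (colimRel G)

/-- the class of a unit -/
def cl (C : CycSub G) (x : (MonoidAlgebra ℤ C.1)ˣ) : ColimU G :=
  toColim G (gen C x)

theorem cl_mul (C : CycSub G) (x y : (MonoidAlgebra ℤ C.1)ˣ) :
    cl C (x * y) = cl C x + cl C y := by
  rw [cl, cl, cl, ← sub_eq_zero, ← map_add, ← map_sub]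
  exact (QuotientAddGroup.eq_zero_iff _).2 (AddSubgroup.subset_closure (Or.inl ⟨C, x, y, rfl⟩))

theorem cl_conj (C C' : CycSub G) (g : G) (h : ∀ a ∈ C.1, g * a * g⁻¹ ∈ C'.1)
    (x : (MonoidAlgebra ℤ C.1)ˣ) : cl C' (unitsMap (conjHom g C.1 C'.1 h) x) = cl C x := by
  rw [cl, cl, ← sub_eq_zero, ← map_sub]
  exact (QuotientAddGroup.eq_zero_iff _).2
    (AddSubgroup.subset_closure (Or.inr ⟨C, C', g, h, x, rfl⟩))

/-- the class as a homomorphism -/
noncomputable def clM (C : CycSub G) : (MonoidAlgebra ℤ C.1)ˣ →* Multiplicative (ColimU G) :=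
  MonoidHom.mk' (fun x => Multiplicative.ofAdd (cl C x)) (cl_mul C)

theorem cl_one (C : CycSub G) : cl C 1 = 0 := map_one (clM C)

theorem cl_pow (C : CycSub G) (x : (MonoidAlgebra ℤ C.1)ˣ) (n : ℕ) :
    cl C (x ^ n) = n • cl C x := map_pow (clM C) x n

theorem cl_inv (C : CycSub G) (x : (MonoidAlgebra ℤ C.1)ˣ) :
    cl C x⁻¹ = -cl C x := map_inv (clM C) x

theorem cl_list (C : CycSub G) (l : List (MonoidAlgebra ℤ C.1)ˣ) :
    cl C l.prod = (l.map (cl C)).sum := by
  induction l with
  | nil => exact cl_one C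
  | cons a l ih => rw [List.prod_cons, cl_mul, ih, List.map_cons, List.sum_cons]

theorem cyc_comm {D : Type w} [Group D] [IsCyclic D] (a b : D) : a * b = b * a := by
  obtain ⟨g, hg⟩ := IsCyclic.exists_generator (α := D)
  obtain ⟨m, rfl⟩ := Subgroup.mem_zpowers_iff.1 (hg a)
  obtain ⟨n, rfl⟩ := Subgroup.mem_zpowers_iff.1 (hg b)
  rw [← _root_.zpow_add, ← _root_.zpow_add, add_comm]

/-- integral class functions -/
abbrev CF (G : Type v) [Group G] : Type v := {f : G → ℤ // ∀ x y, f (x * y) = f (y * x)}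

/-- the functional on the free abelian group -/
noncomputable def LUfree (f : CF G) : FreeAbelianGroup (CycUnit G) →+ ℚ_[2] :=
  FreeAbelianGroup.lift fun a => LU (fun b : a.C.1 => f.1 b) a.x

theorem LUfree_le (f : CF G) : colimRel G ≤ (LUfree f).ker := by
  rw [colimRel, AddSubgroup.closure_le]
  rintro z (⟨C, x, y, rfl⟩ | ⟨C, C', g, h, x, rfl⟩)
  · change LUfree f (gen C (x * y) - (gen C x + gen C y)) = 0
    have := C.2.1
    have := C.2.2
    rw [LUfree, map_sub, map_add, gen, gen, gen, FreeAbelianGroup.lift_apply_of,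
      FreeAbelianGroup.lift_apply_of, FreeAbelianGroup.lift_apply_of]
    exact sub_eq_zero.2 (LU_mul cyc_comm _ x y)
  · change LUfree f (gen C' (unitsMap (conjHom g C.1 C'.1 h) x) - gen C x) = 0
    have := C.2.1
    have := C'.2.1
    rw [LUfree, map_sub, gen, gen, FreeAbelianGroup.lift_apply_of,
      FreeAbelianGroup.lift_apply_of]
    refine sub_eq_zero.2 ?_
    have h1 := LU_map (conjHom g C.1 C'.1 h) (fun x : C'.1 => f.1 x) (fun x y => f.2 x y) x
    refine h1.trans ?_
    congr 1
    funext a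
    change f.1 (g * a * g⁻¹) = f.1 a
    rw [f.2]
    exact congrArg f.1 (by group)

/-- the functional on the colimit -/
noncomputable def LUc (f : CF G) : ColimU G →+ ℚ_[2] :=
  QuotientAddGroup.lift (colimRel G) (LUfree f) (LUfree_le f)

theorem LUc_cl (f : CF G) (C : CycSub G) (x : (MonoidAlgebra ℤ C.1)ˣ) :
    LUc f (cl C x) = LU (fun a : C.1 => f.1 a) x := FreeAbelianGroup.lift_apply_of _ _

end

end Pool.Agent.H71.WH

end

section

/-!
# Primitive units and the decomposition into primitive classes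
-/

set_option autoImplicit false
set_option linter.unusedSectionVars false
set_option linter.unusedSimpArgs false

open Matrix
open scoped Classical

universe u v w

namespace Pool.Agent.H71.WH

/-- Möbius type coefficients on a finite partially ordered set. -/
theorem exists_nu {α : Type*} [PartialOrder α] (s : Finset α) (f : α → ℤ) :
    ∃ ν : α → ℤ, ∀ E ∈ s, ∑ D ∈ s.filter (fun D => E ≤ D), ν D = f E := by
  induction s using Finset.strongInduction with
  | H s ih =>
    by_cases hs : s.Nonempty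
    · obtain ⟨E₀, hE₀⟩ := s.exists_minimal hs
      obtain ⟨ν, hν⟩ := ih (s.erase E₀) (Finset.erase_ssubset hE₀.1)
      have hmin : ∀ E ∈ s, E ≤ E₀ → E = E₀ := fun E hE hle => le_antisymm hle (hE₀.2 hE hle)
      refine ⟨fun D => if D = E₀ then f E₀ - ∑ D ∈ (s.erase E₀).filter (fun D => E₀ ≤ D), ν D
        else ν D, ?_⟩
      intro E hE
      by_cases hEE : E = E₀
      · subst hEE
        have h1 : s.filter (fun D => E ≤ D) =
            insert E ((s.erase E).filter (fun D => E ≤ D)) := by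
          ext D
          simp only [Finset.mem_filter, Finset.mem_insert, Finset.mem_erase]
          constructor
          · rintro ⟨h1, h2⟩
            by_cases h3 : D = E
            · exact Or.inl h3
            · exact Or.inr ⟨⟨h3, h1⟩, h2⟩
          · rintro (rfl | ⟨⟨_, h1⟩, h2⟩)
            · exact ⟨hE, le_rfl⟩
            · exact ⟨h1, h2⟩
        rw [h1, Finset.sum_insert (by simp), if_pos rfl]
        have h2 : ∑ D ∈ (s.erase E).filter (fun D => E ≤ D), (if D = E then f E -
            ∑ D ∈ (s.erase E).filter (fun D => E ≤ D), ν D else ν D) =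
            ∑ D ∈ (s.erase E).filter (fun D => E ≤ D), ν D := by
          apply Finset.sum_congr rfl
          intro D hD
          rw [Finset.mem_filter, Finset.mem_erase] at hD
          rw [if_neg hD.1.1]
        rw [h2]
        ring
      · have h1 : s.filter (fun D => E ≤ D) = (s.erase E₀).filter (fun D => E ≤ D) := by
          ext D
          simp only [Finset.mem_filter, Finset.mem_erase]
          constructor
          · rintro ⟨h1, h2⟩
            refine ⟨⟨?_, h1⟩, h2⟩
            rintro rfl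
            exact hEE (hmin E hE h2)
          · rintro ⟨⟨_, h1⟩, h2⟩
            exact ⟨h1, h2⟩
        rw [h1, ← hν E (Finset.mem_erase.2 ⟨hEE, hE⟩)]
        apply Finset.sum_congr rfl
        intro D hD
        rw [Finset.mem_filter, Finset.mem_erase] at hD
        exact if_neg hD.1.1
    · rw [Finset.not_nonempty_iff_eq_empty] at hs
      subst hs
      exact ⟨fun _ => 0, by simp⟩

/-- Elements with a nonzero multiple in `A`. -/
def Sat {M : Type u} [AddCommGroup M] (A : AddSubgroup M) : AddSubgroup M where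
  carrier := {z | ∃ m : ℤ, m ≠ 0 ∧ m • z ∈ A}
  zero_mem' := ⟨1, one_ne_zero, by rw [smul_zero]; exact A.zero_mem⟩
  add_mem' := by
    rintro a b ⟨m, hm, h1⟩ ⟨n, hn, h2⟩
    refine ⟨m * n, mul_ne_zero hm hn, ?_⟩
    rw [smul_add]
    refine A.add_mem ?_ ?_
    · rw [mul_comm, mul_smul]
      exact A.zsmul_mem h1 n
    · rw [mul_smul]
      exact A.zsmul_mem h2 m
  neg_mem' := by
    rintro a ⟨m, hm, h1⟩
    exact ⟨m, hm, by rw [smul_neg]; exact A.neg_mem h1⟩

theorem Sat_of_smul {M : Type u} [AddCommGroup M] {A : AddSubgroup M} {m : ℤ} (hm : m ≠ 0) {z : M}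
    (h : m • z ∈ Sat A) : z ∈ Sat A := by
  obtain ⟨n, hn, h⟩ := h
  exact ⟨n * m, mul_ne_zero hn hm, by rwa [mul_smul]⟩

theorem mem_Sat {M : Type u} [AddCommGroup M] {A : AddSubgroup M} {z : M} (h : z ∈ A) :
    z ∈ Sat A := ⟨1, one_ne_zero, by rwa [one_smul]⟩

section Hom

variable {H : Type w} [CommGroup H] [Finite H]

/-- the functional as a homomorphism -/
noncomputable def LUM (f : H → ℤ) : (MonoidAlgebra ℤ H)ˣ →* Multiplicative ℚ_[2] :=
  MonoidHom.mk' (fun x => Multiplicative.ofAdd (LU f x)) (LU_mul mul_comm f)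

theorem LU_zpow (f : H → ℤ) (x : (MonoidAlgebra ℤ H)ˣ) (n : ℤ) :
    LU f (x ^ n) = n * LU f x := by
  have h : LU f (x ^ n) = n • LU f x := map_zpow (LUM f) x n
  rw [h, zsmul_eq_mul]

theorem LU_prod (f : H → ℤ) {ι : Type*} (s : Finset ι) (x : ι → (MonoidAlgebra ℤ H)ˣ) :
    LU f (∏ i ∈ s, x i) = ∑ i ∈ s, LU f (x i) := by
  induction s using Finset.induction_on with
  | empty =>
    rw [Finset.prod_empty, Finset.sum_empty]
    exact map_one (LUM f)
  | insert a s ha ih => rw [Finset.prod_insert ha, Finset.sum_insert ha, LU_mul mul_comm, ih]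

theorem LU_zero_fun (x : (MonoidAlgebra ℤ H)ˣ) (f : H → ℤ) (hf : ∀ a, f a = 0) : LU f x = 0 := by
  have := Fintype.ofFinite H
  rw [LU_sum]
  apply Finset.sum_eq_zero
  intro c _
  rw [hf, Int.cast_zero, zero_mul]

end Hom

/-- Units whose logarithm is supported at the generators of the cyclic group. -/
def IsPrim {D : Type w} [Group D] (y : (MonoidAlgebra ℤ D)ˣ) : Prop :=
  ∀ c : D, Subgroup.zpowers c ≠ ⊤ → LU (dlt c) y = 0

end Pool.Agent.H71.WH

end
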