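import Pool.Agent.H13.TFQ.M15
import Pool.Agent.H13.TFQ.M16

/-! The parts of this file: H71.DB.GBass, H71.DB.Defs. -/

section

/-!
# Elements of `K₁(S[G])` from `K₀(S[H])` and an element of `G` commuting with the image of `H`

For a homomorphism `f : H → G` and `z ∈ G` commuting with the image of `f` the map
`gbass S f z : K₀(S[H]) → K₁(S[G])` sends the class of an idempotent matrix `e` to the class of the
invertible matrix `1 + f(e) (z - 1)`.
-/

set_option autoImplicit false

open Matrix

universe u v w

namespace Pool.Agent.H71.DB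

open Pool.Agent.H71.FJ (MatEquiv IdemMat K0 K0.mk K0.lift K0.lift_mk K0.hom_ext K0.map)
open Pool.Agent.H95.WH (K1 K1.mk K1.map K1.map_mk)
open Pool.Agent.H71.DO (grpUnit)

section GBass

variable (S : Type u) [CommRing S] {H : Type v} [Group H] {G : Type w} [Group G]

theorem grpUnit_val (z : G) : (grpUnit S G z : MonoidAlgebra S G) = MonoidAlgebra.single z 1 := rfl

theorem comm_grp (f : H →* G) (z : G) (h : ∀ a, f a * z = z * f a) (b : MonoidAlgebra S H) :
    MonoidAlgebra.mapDomainRingHom S f b * (grpUnit S G z : MonoidAlgebra S G) =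
      (grpUnit S G z : MonoidAlgebra S G) * MonoidAlgebra.mapDomainRingHom S f b := by
  induction b using MonoidAlgebra.induction_linear with
  | zero => simp
  | add a b ha hb => rw [map_add, add_mul, mul_add, ha, hb]
  | single a r =>
    change MonoidAlgebra.mapDomain f (MonoidAlgebra.single a r) * MonoidAlgebra.single z 1 =
      MonoidAlgebra.single z 1 * MonoidAlgebra.mapDomain f (MonoidAlgebra.single a r)
    rw [MonoidAlgebra.mapDomain_single, MonoidAlgebra.single_mul_single,
      MonoidAlgebra.single_mul_single, h, mul_one, one_mul]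

/-- The homomorphism `K₀(S[H]) → K₁(S[G])` defined by `f : H → G` and an element `z` of `G` which
commutes with the image of `f`. -/
noncomputable def gbass (f : H →* G) (z : G) (h : ∀ a, f a * z = z * f a) :
    K0 (MonoidAlgebra S H) →+ K1 (MonoidAlgebra S G) :=
  bass (MonoidAlgebra.mapDomainRingHom S f) (grpUnit S G z) (comm_grp S f z h)

theorem gbass_congr (f : H →* G) {z z' : G} (hz : z = z') (h : ∀ a, f a * z = z * f a)
    (h' : ∀ a, f a * z' = z' * f a) : gbass S f z h = gbass S f z' h' := by
  subst hz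
  rfl

theorem gbass_mul (f : H →* G) (z z' : G) (h : ∀ a, f a * z = z * f a)
    (h' : ∀ a, f a * z' = z' * f a) (h'' : ∀ a, f a * (z * z') = z * z' * f a)
    (x : K0 (MonoidAlgebra S H)) :
    gbass S f (z * z') h'' x = gbass S f z h x + gbass S f z' h' x := by
  have e : grpUnit S G (z * z') = grpUnit S G z * grpUnit S G z' := map_mul _ _ _
  rw [gbass, gbass, gbass, ← bass_mul _ _ _ _ _ (fun b => by rw [← e]; exact comm_grp S f _ h'' b)]
  congr 1
  simp only [e]

theorem gbass_one (f : H →* G) (h : ∀ a, f a * 1 = 1 * f a) (x : K0 (MonoidAlgebra S H)) :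
    gbass S f 1 h x = 0 := by
  have e := gbass_mul S f 1 1 h h (fun a => by rw [one_mul]; exact h a) x
  rw [gbass_congr S f (one_mul (1 : G)) _ h] at e
  exact left_eq_add.1 e

theorem pow_comm' {f : H →* G} {z : G} (h : ∀ a, f a * z = z * f a) (n : ℕ) (a : H) :
    f a * z ^ n = z ^ n * f a := ((show Commute (f a) z from h a).pow_right n)

theorem gbass_pow (f : H →* G) (z : G) (h : ∀ a, f a * z = z * f a) (n : ℕ)
    (x : K0 (MonoidAlgebra S H)) :
    gbass S f (z ^ n) (pow_comm' h n) x = n • gbass S f z h x := by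
  induction n with
  | zero =>
    rw [zero_smul, gbass_congr S f (pow_zero z) _ (fun a => by rw [one_mul, mul_one])]
    exact gbass_one S f _ x
  | succ n ih =>
    rw [gbass_congr S f (pow_succ z n) _ (fun a => by rw [← pow_succ]; exact pow_comm' h _ a),
      gbass_mul S f _ _ (pow_comm' h n) h, ih, succ_nsmul]

theorem gbass_comp {H' : Type*} [Group H'] (f : H →* G) (g : H' →* H) (z : G)
    (h : ∀ a, f a * z = z * f a) (x : K0 (MonoidAlgebra S H')) :
    gbass S f z h (K0.map (MonoidAlgebra.mapDomainRingHom S g) x) =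
      gbass S (f.comp g) z (fun a => h (g a)) x := by
  rw [gbass, bass_comp, gbass]
  congr 1
  simp only [← MonoidAlgebra.mapDomainRingHom_comp]

theorem map_gbass {T : Type*} [CommRing T] (θ : S →+* T) (f : H →* G) (z : G)
    (h : ∀ a, f a * z = z * f a) (x : K0 (MonoidAlgebra S H)) :
    K1.map (MonoidAlgebra.mapRingHom G θ) (gbass S f z h x) =
      gbass T f z h (K0.map (MonoidAlgebra.mapRingHom H θ) x) := by
  have e : (Units.map ((MonoidAlgebra.mapRingHom G θ : MonoidAlgebra S G →+* MonoidAlgebra T G) :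
      MonoidAlgebra S G →* MonoidAlgebra T G)) (grpUnit S G z) = grpUnit T G z := by
    apply Units.ext
    change MonoidAlgebra.mapRingHom G θ (MonoidAlgebra.single z 1) = MonoidAlgebra.single z 1
    rw [MonoidAlgebra.mapRingHom_single, map_one]
  have e2 : (MonoidAlgebra.mapRingHom G θ).comp (MonoidAlgebra.mapDomainRingHom S f) =
      (MonoidAlgebra.mapDomainRingHom T f).comp (MonoidAlgebra.mapRingHom H θ) :=
    MonoidAlgebra.mapRingHom_comp_mapDomainRingHom _ _
  rw [gbass, map_bass _ _ _ _ (fun b => by
    rw [e, e2]; exact comm_grp T f z h _), gbass, bass_comp]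
  congr 1
  simp only [e, e2]

theorem gbass_conj (f f' : H →* G) (z z' g : G) (h : ∀ a, f a * z = z * f a)
    (h' : ∀ a, f' a * z' = z' * f' a) (hf : ∀ a, f' a = g * f a * g⁻¹) (hz : z' = g * z * g⁻¹)
    (x : K0 (MonoidAlgebra S H)) : gbass S f' z' h' x = gbass S f z h x := by
  have ginv : (((grpUnit S G g)⁻¹ : (MonoidAlgebra S G)ˣ) : MonoidAlgebra S G) =
      MonoidAlgebra.single g⁻¹ 1 := by
    rw [← map_inv]
    rfl
  apply bass_conj _ _ _ _ (grpUnit S G g)
  · intro b
    rw [ginv]
    induction b using MonoidAlgebra.induction_linear with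
    | zero => simp
    | add a b ha hb => rw [map_add, ha, hb, map_add, mul_add, add_mul]
    | single a r =>
      change MonoidAlgebra.mapDomain f' (MonoidAlgebra.single a r) = MonoidAlgebra.single g 1 *
        MonoidAlgebra.mapDomain f (MonoidAlgebra.single a r) * MonoidAlgebra.single g⁻¹ 1
      rw [MonoidAlgebra.mapDomain_single, MonoidAlgebra.mapDomain_single,
        MonoidAlgebra.single_mul_single, MonoidAlgebra.single_mul_single, hf, mul_one, one_mul]
  · rw [ginv]
    change MonoidAlgebra.single z' 1 = MonoidAlgebra.single g 1 * MonoidAlgebra.single z 1 *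
      MonoidAlgebra.single g⁻¹ 1
    rw [MonoidAlgebra.single_mul_single, MonoidAlgebra.single_mul_single, hz, mul_one, mul_one]

end GBass

end Pool.Agent.H71.DB

end

section

/-!
# The full rational source of the assembly map in degree one

For a commutative ring `R` and a group `G`:

* `ColimK1 R G` is the colimit of `K₁(R[F])` over the finite subgroups `F` of `G`, with respect to
  the restrictions `F → F'` of the conjugations `x ↦ g x g⁻¹`, `g F g⁻¹ ⊆ F'`;
* `H1K0 R G` is the abelian group generated by the symbols `[F, x, z]` with `F` a finite subgroup of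
  `G`, `x ∈ K₀(R[F])` and `z` in the centralizer `Z_G(F)`, modulo additivity in `x` and in `z` and
  `[F', c_g(x), z'] = [F, x, g⁻¹ z' g]` for `g F g⁻¹ ⊆ F'`, `z' ∈ Z_G(F')`; it is the tensor product
  of the functors `F ↦ K₀(R[F])` and `F ↦ H₁(Z_G(F))` over the category of finite subgroups;
* `fullAssembly R G : ColimK1 R G × H1K0 R G → K₁(R[G])` is given by the inclusions `F → G` on the
  first factor, and sends `[F, [e], z]` to the class of `1 + e (z - 1)`.
-/

set_option autoImplicit false

open Matrix

universe u v w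

namespace Pool.Agent.H71.DB

open Pool.Agent.H71.FJ (MatEquiv IdemMat K0 K0.mk K0.lift K0.lift_mk K0.hom_ext K0.map)
open Pool.Agent.H95.WH (K1 K1.mk K1.map K1.map_mk K1.map_map K1_map_conj FamSub conjHom FinSub)

section Groups

/-- `K₁(R[H])` -/
def KG1 (R : Type u) [CommRing R] (H : Type v) [Group H] : Type (max u v) := K1 (MonoidAlgebra R H)

noncomputable instance instKG1 (R : Type u) [CommRing R] (H : Type v) [Group H] :
    AddCommGroup (KG1 R H) := Pool.Agent.H95.WH.instK1 (MonoidAlgebra R H)

/-- The homomorphism `K₁(R[H]) → K₁(R[H'])` induced by `φ : H → H'`. -/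
noncomputable def KG1.map (R : Type u) [CommRing R] {H H' : Type v} [Group H] [Group H']
    (φ : H →* H') : KG1 R H →+ KG1 R H' := K1.map (MonoidAlgebra.mapDomainRingHom R φ)

/-- `K₀(R[H])` -/
def KG0 (R : Type u) [CommRing R] (H : Type v) [Group H] : Type (max u v) := K0 (MonoidAlgebra R H)

noncomputable instance instKG0 (R : Type u) [CommRing R] (H : Type v) [Group H] :
    AddCommGroup (KG0 R H) := Pool.Agent.H71.FJ.instK0 (MonoidAlgebra R H)

/-- The homomorphism `K₀(R[H]) → K₀(R[H'])` induced by `φ : H → H'`. -/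
noncomputable def KG0.map (R : Type u) [CommRing R] {H H' : Type v} [Group H] [Group H']
    (φ : H →* H') : KG0 R H →+ KG0 R H' := K0.map (MonoidAlgebra.mapDomainRingHom R φ)

section Fin

variable (R : Type u) [CommRing R] (G : Type v) [Group G]

/-- `K₁(R[F])` for a finite subgroup `F` of `G`. -/
def FK1 (F : FamSub G FinSub) : Type (max u v) := KG1 R F.1

noncomputable instance instFK1 (F : FamSub G FinSub) : AddCommGroup (FK1 R G F) := instKG1 R F.1

/-- The homomorphism `K₁(R[F]) → K₁(R[F'])` given by `x ↦ g x g⁻¹` if `g F g⁻¹ ⊆ F'`. -/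
noncomputable def FK1.conj (F F' : FamSub G FinSub) (g : G) (h : ∀ x ∈ F.1, g * x * g⁻¹ ∈ F'.1) :
    FK1 R G F →+ FK1 R G F' := KG1.map R (conjHom g F.1 F'.1 h)

/-- The homomorphism `K₁(R[F]) → K₁(R[G])` given by the inclusion `F → G`. -/
noncomputable def FK1.incl (F : FamSub G FinSub) : FK1 R G F →+ KG1 R G := KG1.map R F.1.subtype

/-- `K₀(R[F])` for a finite subgroup `F` of `G`. -/
def FK0 (F : FamSub G FinSub) : Type (max u v) := KG0 R F.1

noncomputable instance instFK0 (F : FamSub G FinSub) : AddCommGroup (FK0 R G F) := instKG0 R F.1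

/-- The homomorphism `K₀(R[F]) → K₀(R[F'])` given by `x ↦ g x g⁻¹` if `g F g⁻¹ ⊆ F'`. -/
noncomputable def FK0.conj (F F' : FamSub G FinSub) (g : G) (h : ∀ x ∈ F.1, g * x * g⁻¹ ∈ F'.1) :
    FK0 R G F →+ FK0 R G F' := KG0.map R (conjHom g F.1 F'.1 h)

end Fin

end Groups

section Colim

variable (R : Type u) [CommRing R] (G : Type v) [Group G]

/-- `⨁_F K₁(R[F])` over the finite subgroups of `G`. -/
def SumK1 : Type (max u v) := DirectSum (FamSub G FinSub) (fun F => FK1 R G F)

noncomputable instance instSumK1 : AddCommGroup (SumK1 R G) :=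
  DirectSum.instAddCommGroup (β := fun F : FamSub G FinSub => FK1 R G F)

/-- The inclusion of the summand of `F`. -/
noncomputable def inc1 (F : FamSub G FinSub) : FK1 R G F →+ SumK1 R G :=
  open scoped Classical in DirectSum.of (fun F : FamSub G FinSub => FK1 R G F) F

/-- The relation `c_g(x) - x`. -/
noncomputable def rel1 (F F' : FamSub G FinSub) (g : G) (h : ∀ x ∈ F.1, g * x * g⁻¹ ∈ F'.1)
    (x : FK1 R G F) : SumK1 R G :=
  inc1 R G F' (FK1.conj R G F F' g h x) - inc1 R G F x

/-- The relations of the colimit. -/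
noncomputable def colimRel1 : AddSubgroup (SumK1 R G) :=
  AddSubgroup.closure {z | ∃ F F' g h x, z = rel1 R G F F' g h x}

/-- The colimit of `K₁(R[F])` over the finite subgroups of `G`. -/
def ColimK1 : Type (max u v) := SumK1 R G ⧸ colimRel1 R G

noncomputable instance instColimK1 : AddCommGroup (ColimK1 R G) :=
  QuotientAddGroup.Quotient.addCommGroup (colimRel1 R G)

/-- The assembly map on the direct sum, given by the inclusions `F → G`. -/
noncomputable def assemblySum1 : SumK1 R G →+ KG1 R G :=
  open scoped Classical in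
  DirectSum.toAddMonoid fun F : FamSub G FinSub => FK1.incl R G F

/-- The homomorphism given on the summands. -/
noncomputable def sumLift1 {M : Type w} [AddCommGroup M]
    (f : ∀ F : FamSub G FinSub, FK1 R G F →+ M) : SumK1 R G →+ M :=
  open scoped Classical in DirectSum.toAddMonoid f

theorem sumLift1_inc {M : Type w} [AddCommGroup M]
    (f : ∀ F : FamSub G FinSub, FK1 R G F →+ M) (F : FamSub G FinSub)
    (x : FK1 R G F) : sumLift1 R G f (inc1 R G F x) = f F x := by
  classical
  exact DirectSum.toAddMonoid_of (β := fun F : FamSub G FinSub => FK1 R G F) _ F x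

theorem sum1_induction {P : SumK1 R G → Prop} (h0 : P 0)
    (h1 : ∀ (F : FamSub G FinSub) (x : FK1 R G F), P (inc1 R G F x))
    (h2 : ∀ a b, P a → P b → P (a + b)) (y : SumK1 R G) : P y := by
  classical
  exact DirectSum.induction_on (β := fun F : FamSub G FinSub => FK1 R G F) y h0 h1 h2

theorem assemblySum1_inc (F : FamSub G FinSub) (x : FK1 R G F) :
    assemblySum1 R G (inc1 R G F x) = FK1.incl R G F x :=
  sumLift1_inc R G (fun F : FamSub G FinSub => FK1.incl R G F) F x

theorem colimRel1_le : colimRel1 R G ≤ (assemblySum1 R G).ker := by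
  rw [colimRel1, AddSubgroup.closure_le]
  rintro z ⟨F, F', g, h, x, rfl⟩
  change assemblySum1 R G _ = 0
  rw [rel1, map_sub, assemblySum1_inc, assemblySum1_inc]
  exact sub_eq_zero.2 (Pool.Agent.H71.DO.ind_conj R g F.1 F'.1 h x)

/-- The assembly map on the colimit. -/
noncomputable def assembly1 : ColimK1 R G →+ KG1 R G :=
  QuotientAddGroup.lift (colimRel1 R G) (assemblySum1 R G) (colimRel1_le R G)

end Colim

section H1K0

variable (R : Type u) [CommRing R] (G : Type v) [Group G]

/-- The symbols `[F, x, z]`. -/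
structure Sym where
  /-- a finite subgroup -/
  F : FamSub G FinSub
  /-- a class in `K₀` of its group ring -/
  x : FK0 R G F
  /-- an element of its centralizer -/
  z : Subgroup.centralizer (F.1 : Set G)

variable {G}

theorem conjCent_mem (g : G) (F F' : Subgroup G) (h : ∀ x ∈ F, g * x * g⁻¹ ∈ F')
    (z : Subgroup.centralizer (F' : Set G)) :
    g⁻¹ * z * g ∈ Subgroup.centralizer (F : Set G) := by
  rw [Subgroup.mem_centralizer_iff]
  intro a ha
  have h1 := Subgroup.mem_centralizer_iff.1 z.2 _ (h a ha)
  calc a * (g⁻¹ * z * g) = g⁻¹ * (g * a * g⁻¹ * z) * g := by group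
    _ = g⁻¹ * (z * (g * a * g⁻¹)) * g := by rw [h1]
    _ = _ := by group

/-- The element `g⁻¹ z g` of `Z_G(F)` for `z ∈ Z_G(F')`, `g F g⁻¹ ⊆ F'`. -/
def conjCent (g : G) (F F' : Subgroup G) (h : ∀ x ∈ F, g * x * g⁻¹ ∈ F')
    (z : Subgroup.centralizer (F' : Set G)) : Subgroup.centralizer (F : Set G) :=
  ⟨g⁻¹ * z * g, conjCent_mem g F F' h z⟩

variable (G)

/-- The symbol `[F, x, z]`. -/
noncomputable def symOf (F : FamSub G FinSub) (x : FK0 R G F)
    (z : Subgroup.centralizer (F.1 : Set G)) : FreeAbelianGroup (Sym R G) :=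
  FreeAbelianGroup.of ⟨F, x, z⟩

/-- The relation of additivity in `x`. -/
noncomputable def symX (F : FamSub G FinSub) (x y : FK0 R G F)
    (z : Subgroup.centralizer (F.1 : Set G)) : FreeAbelianGroup (Sym R G) :=
  symOf R G F (x + y) z - (symOf R G F x z + symOf R G F y z)

/-- The relation of additivity in `z`. -/
noncomputable def symZ (F : FamSub G FinSub) (x : FK0 R G F)
    (z z' : Subgroup.centralizer (F.1 : Set G)) : FreeAbelianGroup (Sym R G) :=
  symOf R G F x (z * z') - (symOf R G F x z + symOf R G F x z')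

/-- The relation `[F', c_g(x), z'] = [F, x, g⁻¹ z' g]`. -/
noncomputable def symC (F F' : FamSub G FinSub) (g : G) (h : ∀ x ∈ F.1, g * x * g⁻¹ ∈ F'.1)
    (x : FK0 R G F) (z : Subgroup.centralizer (F'.1 : Set G)) :
    FreeAbelianGroup (Sym R G) :=
  symOf R G F' (FK0.conj R G F F' g h x) z - symOf R G F x (conjCent g F.1 F'.1 h z)

/-- The relations: additivity in `x` and in `z` and `[F', c_g(x), z'] = [F, x, g⁻¹ z' g]`. -/
noncomputable def SymRel : AddSubgroup (FreeAbelianGroup (Sym R G)) :=
  AddSubgroup.closure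
    ({w | ∃ F x y z, w = symX R G F x y z} ∪ {w | ∃ F x z z', w = symZ R G F x z z'} ∪
      {w | ∃ F F' g h x z, w = symC R G F F' g h x z})

/-- The group generated by the symbols `[F, x, z]`. -/
def H1K0 : Type (max u v) := FreeAbelianGroup (Sym R G) ⧸ SymRel R G

noncomputable instance instH1K0 : AddCommGroup (H1K0 R G) :=
  QuotientAddGroup.Quotient.addCommGroup (SymRel R G)

variable {G}

theorem cent_comm {F : Subgroup G} (z : Subgroup.centralizer (F : Set G)) (a : F) :
    F.subtype a * (z : G) = (z : G) * F.subtype a :=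
  Subgroup.mem_centralizer_iff.1 z.2 a a.2

/-- The homomorphism `K₀(R[F]) → K₁(R[G])`, `[e] ↦ [1 + e (z - 1)]` for `z ∈ Z_G(F)`. -/
noncomputable def cbass (F : FamSub G FinSub) (z : Subgroup.centralizer (F.1 : Set G)) :
    FK0 R G F →+ KG1 R G :=
  gbass R F.1.subtype (z : G) (cent_comm z)

/-- The value of the assembly map on a symbol, the class of `1 + e (z - 1)` for `x = [e]`. -/
noncomputable def symVal (s : Sym R G) : KG1 R G := cbass R s.F s.z s.x

variable (G)

theorem symRel_le : SymRel R G ≤ (FreeAbelianGroup.lift (symVal R (G := G))).ker := by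
  rw [SymRel, AddSubgroup.closure_le]
  rintro w ((⟨F, x, y, z, rfl⟩ | ⟨F, x, z, z', rfl⟩) | ⟨F, F', g, h, x, z, rfl⟩)
  · change FreeAbelianGroup.lift (symVal R) _ = 0
    rw [symX, symOf, symOf, symOf, map_sub, map_add, FreeAbelianGroup.lift_apply_of,
      FreeAbelianGroup.lift_apply_of, FreeAbelianGroup.lift_apply_of, symVal, symVal, symVal,
      map_add, sub_self]
  · change FreeAbelianGroup.lift (symVal R) _ = 0
    rw [symZ, symOf, symOf, symOf, map_sub, map_add, FreeAbelianGroup.lift_apply_of,
      FreeAbelianGroup.lift_apply_of, FreeAbelianGroup.lift_apply_of, sub_eq_zero]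
    exact gbass_mul R F.1.subtype (z : G) (z' : G) (cent_comm z) (cent_comm z')
      (cent_comm (z * z')) x
  · change FreeAbelianGroup.lift (symVal R) _ = 0
    rw [symC, symOf, symOf, map_sub, FreeAbelianGroup.lift_apply_of,
      FreeAbelianGroup.lift_apply_of, sub_eq_zero]
    change gbass R F'.1.subtype (z : G) (cent_comm z) (K0.map _ x) =
      gbass R F.1.subtype (g⁻¹ * z * g) (cent_comm (conjCent g F.1 F'.1 h z)) x
    rw [gbass_comp]
    apply gbass_conj R _ _ _ _ g
    · intro a
      rfl
    · group

/-- The assembly map on the symbols. -/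
noncomputable def assemblyH : H1K0 R G →+ KG1 R G :=
  QuotientAddGroup.lift (SymRel R G) (FreeAbelianGroup.lift (symVal R)) (symRel_le R G)

/-- The rational source of the assembly map in degree one. -/
abbrev Source : Type (max u v) := ColimK1 R G × H1K0 R G

/-- The assembly map in degree one on the full rational source. -/
noncomputable def fullAssembly : Source R G →+ KG1 R G :=
  (assembly1 R G).coprod (assemblyH R G)

end H1K0

section Rational

/-- The homomorphism `f` becomes injective after tensoring with `ℚ` over `ℤ`. -/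
def RatInj {A : Type u} [AddCommGroup A] {B : Type v} [AddCommGroup B] (f : A →+ B) : Prop :=
  Function.Injective (LinearMap.lTensor ℚ f.toIntLinearMap)

/-- Every element of `Z` which is killed by all homomorphisms `Z → ℤ_p` has finite order in the
abelianization of `Z`. -/
def PadicSep (p : ℕ) [Fact p.Prime] (Z : Type v) [Group Z] : Prop :=
  ∀ z : Z, (∀ f : Z →* Multiplicative ℤ_[p], f z = 1) → ∃ m : ℕ, m ≠ 0 ∧ z ^ m ∈ commutator Z

end Rational

end Pool.Agent.H71.DB

end
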