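import Pool.Agent.H13.TFQ.H71.FJ.K0_1
import Pool.Agent.H13.TFQ.M16

/-! The parts of this file: H71.DB.Elim, H71.KP.GL. -/

section

/-!
# Elimination: detecting torsion in tensor products
-/

set_option autoImplicit false

open Matrix
open scoped Classical

universe t u v w

namespace Pool.Agent.H71.DB

open Pool.Agent.H71.FJ (IdemMat K0 K0.mk K0.map K0.map_map K0.push)

section Sep

variable {B : Type u} [AddCommGroup B]

/-- Homomorphisms to `ℚ` detect elements of infinite order. -/
theorem exists_hom_rat (b : B) (hb : ∀ m : ℤ, m ≠ 0 → m • b ≠ 0) : ∃ μ : B →+ ℚ, μ b ≠ 0 := by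
  by_contra hcon
  push Not at hcon
  have h1 : ∀ f : Module.Dual ℚ (TensorProduct ℤ ℚ B), f (TensorProduct.mk ℤ ℚ B 1 b) = 0 := by
    intro f
    exact hcon (f.toAddMonoidHom.comp (TensorProduct.mk ℤ ℚ B 1).toAddMonoidHom)
  rw [Module.forall_dual_apply_eq_zero_iff ℚ] at h1
  obtain ⟨m, hm⟩ := (IsLocalizedModule.eq_zero_iff (nonZeroDivisors ℤ)
    (TensorProduct.mk ℤ ℚ B 1)).1 h1
  exact hb m (nonZeroDivisors.coe_ne_zero m) hm

end Sep

section Elim

variable {A : Type u} [AddCommGroup A] {B : Type v} [AddCommGroup B] {E : Type w}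
  [AddCommGroup E]

theorem exists_common_denom {N : ℕ} (q : Fin N → ℚ) :
    ∃ (m : ℤ) (a : Fin N → ℤ), m ≠ 0 ∧ ∀ j, (m : ℚ) * q j = a j := by
  refine ⟨((∏ j, (q j).den : ℕ) : ℤ), fun j => (∏ l ∈ Finset.univ.erase j, ((q l).den : ℤ)) *
    (q j).num, ?_, ?_⟩
  · have h : (∏ j, (q j).den : ℕ) ≠ 0 := Finset.prod_ne_zero_iff.2 fun j _ => (q j).den_nz
    exact_mod_cast h
  · intro j
    have h1 : (∏ l, ((q l).den : ℚ)) =
        (∏ l ∈ Finset.univ.erase j, ((q l).den : ℚ)) * (q j).den := by
      rw [Finset.prod_erase_mul _ _ (Finset.mem_univ j)]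
    have h2 : ((q j).den : ℚ) * q j = (q j).num := Rat.den_mul_eq_num (q j)
    push_cast
    rw [h1, mul_assoc, h2]

theorem elim (β : A →+ B →+ E) (N : ℕ) : ∀ (y : Fin N → A) (b : Fin N → B),
    (∀ (μ : B →+ ℚ) (m : ℤ) (a : Fin N → ℤ), m ≠ 0 → (∀ j, (m : ℚ) * μ (b j) = a j) →
      ∃ m' : ℤ, m' ≠ 0 ∧ m' • ∑ j, a j • y j = 0) →
    ∃ m : ℤ, m ≠ 0 ∧ m • ∑ j, β (y j) (b j) = 0 := by
  induction N with
  | zero => exact fun y b _ => ⟨1, one_ne_zero, by simp⟩
  | succ N ih =>
    intro y b h
    by_cases hb : ∀ m : ℤ, m ≠ 0 → m • b 0 ≠ 0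
    · obtain ⟨μ0, hμ0⟩ := exists_hom_rat (b 0) hb
      obtain ⟨m0, a, hm0, ha⟩ := exists_common_denom (fun j => μ0 (b j))
      have ha0 : a 0 ≠ 0 := by
        intro h0
        have h1 := ha 0
        rw [h0, Int.cast_zero] at h1
        rcases mul_eq_zero.1 h1 with h2 | h2
        · exact hm0 (by exact_mod_cast h2)
        · exact hμ0 h2
      obtain ⟨m', hm', h1⟩ := h μ0 m0 a hm0 ha
      obtain ⟨m, hm, h2⟩ := ih (fun j => y j.succ) (fun j => a 0 • b j.succ - a j.succ • b 0) (by
        intro μ m a' hm ha'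
        let μ' : B →+ ℚ := a 0 • μ - (AddMonoidHom.mulLeft ((m0 : ℚ) * μ (b 0))).comp μ0
        have hμ' : ∀ x, μ' x = (a 0 : ℚ) * μ x - (m0 : ℚ) * μ (b 0) * μ0 x := by
          intro x
          change a 0 • μ x - _ = _
          rw [zsmul_eq_mul]
          rfl
        obtain ⟨m'', hm'', h3⟩ := h μ' m (Fin.cons 0 a') hm (by
          intro j
          refine Fin.cases ?_ (fun j => ?_) j
          · rw [Fin.cons_zero, hμ', Int.cast_zero, ← ha 0]
            ring
          · rw [Fin.cons_succ, ← ha' j, hμ', map_sub, map_zsmul, map_zsmul, zsmul_eq_mul,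
              zsmul_eq_mul, ← ha j.succ]
            ring)
        refine ⟨m'', hm'', ?_⟩
        rw [Fin.sum_univ_succ] at h3
        simpa using h3)
      refine ⟨m * (m' * a 0), mul_ne_zero hm (mul_ne_zero hm' ha0), ?_⟩
      have h4 : m' • (∑ j : Fin N, β (y j.succ) (a 0 • b j.succ - a j.succ • b 0)) =
          (m' * a 0) • ∑ j, β (y j) (b j) := by
        have h5 : ∑ j : Fin N, β (y j.succ) (a 0 • b j.succ - a j.succ • b 0) =
            a 0 • ∑ j : Fin N, β (y j.succ) (b j.succ) -
              β (∑ j : Fin N, a j.succ • y j.succ) (b 0) := by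
          rw [Finset.smul_sum, map_sum, AddMonoidHom.finsetSum_apply, ← Finset.sum_sub_distrib]
          refine Finset.sum_congr rfl fun j _ => ?_
          rw [map_sub, map_zsmul, map_zsmul, map_zsmul, AddMonoidHom.coe_smul, Pi.smul_apply]
        have h6 : m' • β (∑ j : Fin N, a j.succ • y j.succ) (b 0) =
            -((m' * a 0) • β (y 0) (b 0)) := by
          have h7 := congrArg (fun x => β x (b 0)) h1
          simp only [map_zero, AddMonoidHom.zero_apply] at h7
          rw [Fin.sum_univ_succ, smul_add, map_add, AddMonoidHom.add_apply, map_zsmul, map_zsmul,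
            AddMonoidHom.coe_smul, Pi.smul_apply, map_zsmul, AddMonoidHom.coe_smul,
            Pi.smul_apply, smul_smul, AddMonoidHom.coe_smul, Pi.smul_apply] at h7
          exact eq_neg_of_add_eq_zero_right h7
        rw [h5, smul_sub, h6, sub_neg_eq_add, smul_smul, Fin.sum_univ_succ, smul_add]
        abel
      rw [mul_smul, ← h4, smul_comm, h2, smul_zero]
    · push Not at hb
      obtain ⟨r, hr, hrb⟩ := hb
      obtain ⟨m, hm, h2⟩ := ih (fun j => y j.succ) (fun j => b j.succ) (by
        intro μ m a' hm ha'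
        have hμ0 : μ (b 0) = 0 := by
          have h1 := congrArg μ hrb
          rw [map_zsmul, map_zero, zsmul_eq_mul] at h1
          rcases mul_eq_zero.1 h1 with h2 | h2
          · exact absurd (by exact_mod_cast h2) hr
          · exact h2
        obtain ⟨m'', hm'', h3⟩ := h μ m (Fin.cons 0 a') hm (by
          intro j
          refine Fin.cases ?_ (fun j => ?_) j
          · rw [Fin.cons_zero, hμ0, mul_zero, Int.cast_zero]
          · rw [Fin.cons_succ, ← ha' j])
        refine ⟨m'', hm'', ?_⟩
        rw [Fin.sum_univ_succ] at h3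
        simpa using h3)
      refine ⟨m * r, mul_ne_zero hm hr, ?_⟩
      rw [Fin.sum_univ_succ, smul_add, mul_smul, mul_comm m r, mul_smul r m, h2, smul_zero,
        add_zero, ← map_zsmul, hrb, map_zero, smul_zero]

/-- The same for families indexed by a finite type. -/
theorem elim' (β : A →+ B →+ E) {ι : Type*} [Fintype ι] (y : ι → A) (b : ι → B)
    (h : ∀ (μ : B →+ ℚ) (m : ℤ) (a : ι → ℤ), m ≠ 0 → (∀ j, (m : ℚ) * μ (b j) = a j) →
      ∃ m' : ℤ, m' ≠ 0 ∧ m' • ∑ j, a j • y j = 0) :
    ∃ m : ℤ, m ≠ 0 ∧ m • ∑ j, β (y j) (b j) = 0 := by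
  let e := Fintype.equivFin ι
  obtain ⟨m, hm, h1⟩ := elim β (Fintype.card ι) (fun j => y (e.symm j)) (fun j => b (e.symm j)) (by
    intro μ m a hm ha
    obtain ⟨m', hm', h2⟩ := h μ m (fun j => a (e j)) hm (fun j => by
      have := ha (e j)
      rwa [e.symm_apply_apply] at this)
    refine ⟨m', hm', ?_⟩
    rw [← h2]
    congr 1
    rw [← e.sum_comp]
    exact Finset.sum_congr rfl fun j _ => by rw [e.symm_apply_apply])
  refine ⟨m, hm, ?_⟩
  rw [← h1]
  congr 1
  rw [← e.symm.sum_comp]

end Elim

section Det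

end Det

end Pool.Agent.H71.DB

end

section

/-!
# The integral logarithm of matrices over `ℤ_[p][G]`
-/

set_option autoImplicit false
set_option linter.unusedSectionVars false

open scoped TensorProduct

universe u v w

namespace Pool.Agent.H71.KP

variable (p : ℕ) [hp : Fact p.Prime]

section Fn

variable {G : Type u} [Group G]

variable {p}

/-- The functional `∑ a_g g ↦ ∑ a_g f(g)` on a group ring. -/
noncomputable def fn (f : G → ℤ_[p]) : MonoidAlgebra ℤ_[p] G →ₗ[ℤ_[p]] ℤ_[p] where
  toFun a := a.coeff.sum fun g b => b * f g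
  map_add' x y := by
    classical
    rw [MonoidAlgebra.coeff_add, Finsupp.sum_add_index'] <;> simp [add_mul]
  map_smul' r x := by
    classical
    rw [MonoidAlgebra.coeff_smul, Finsupp.sum_smul_index' (by simp), RingHom.id_apply,
      smul_eq_mul, Finsupp.mul_sum]
    apply Finsupp.sum_congr
    intro g _
    rw [smul_eq_mul, mul_assoc]

omit [Group G] in
theorem fn_single (f : G → ℤ_[p]) (g : G) (b : ℤ_[p]) :
    fn f (MonoidAlgebra.single g b) = b * f g := by
  change (MonoidAlgebra.single g b).coeff.sum (fun g b => b * f g) = _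
  rw [MonoidAlgebra.coeff_single, Finsupp.sum_single_index (by simp)]

theorem fn_comm (f : G → ℤ_[p]) (hf : ∀ x y, f (x * y) = f (y * x))
    (x y : MonoidAlgebra ℤ_[p] G) : fn f (x * y) = fn f (y * x) := by
  induction x using MonoidAlgebra.induction_linear with
  | zero => rw [zero_mul, mul_zero]
  | add x x' hx hx' => rw [add_mul, mul_add, map_add, map_add, hx, hx']
  | single g b =>
    induction y using MonoidAlgebra.induction_linear with
    | zero => rw [zero_mul, mul_zero]
    | add y y' hy hy' => rw [add_mul, mul_add, map_add, map_add, hy, hy']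
    | single h c =>
      rw [MonoidAlgebra.single_mul_single, MonoidAlgebra.single_mul_single, fn_single,
        fn_single, hf, mul_comm b c]

end Fn

section Mat

variable (G : Type u) [Group G] (n : ℕ)

/-- matrices over the group ring -/
abbrev MG : Type u := Matrix (Fin n) (Fin n) (MonoidAlgebra ℤ_[p] G)

variable {G n}

/-- basis elements -/
noncomputable def EE (i k : Fin n) (g : G) : MG p G n :=
  Matrix.single i k (MonoidAlgebra.single g 1)

theorem EE_mul (i k l m : Fin n) (g h : G) :
    EE p i k g * EE p l m h = if k = l then EE p i m (g * h) else 0 := by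
  split_ifs with hk
  · subst hk
    rw [EE, EE, Matrix.single_mul_single_same, MonoidAlgebra.single_mul_single, one_mul]
    rfl
  · rw [EE, EE, Matrix.single_mul_single_of_ne _ _ _ _ hk]

/-- the diagonal tensors -/
noncomputable def DD (i k : Fin n) (g : G) : TP p (MG p G n) := TT p (EE p i k g)

theorem TT_zero {A : Type u} [Ring A] [Algebra ℤ_[p] A] : TT p (0 : A) = 0 :=
  (PiTensorProduct.tprod ℤ_[p] (s := fun _ : ZMod p => A)).map_coord_zero 0 rfl

theorem DD_mul (i k l m : Fin n) (g h : G) :
    DD p i k g * DD p l m h = if k = l then DD p i m (g * h) else 0 := by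
  rw [DD, DD, ← TT_mul, EE_mul]
  split_ifs
  · rfl
  · exact TT_zero p

/-- the components of `Psi` -/
noncomputable def psiE (i k : Fin n) : MonoidAlgebra ℤ_[p] G →+ TP p (MG p G n) where
  toFun a := a.coeff.sum fun g r => r • DD p i k g
  map_zero' := by simp
  map_add' x y := by
    classical
    rw [MonoidAlgebra.coeff_add, Finsupp.sum_add_index'] <;> simp [add_smul]

theorem psiE_single (i k : Fin n) (g : G) (r : ℤ_[p]) :
    psiE p i k (MonoidAlgebra.single g r) = r • DD p i k g := by
  change (MonoidAlgebra.single g r).coeff.sum (fun g r => r • DD p i k g) = _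
  rw [MonoidAlgebra.coeff_single, Finsupp.sum_single_index (by simp)]

theorem psiE_mul (i k l m : Fin n) (a b : MonoidAlgebra ℤ_[p] G) :
    psiE p i k a * psiE p l m b = if k = l then psiE p i m (a * b) else 0 := by
  induction a using MonoidAlgebra.induction_linear with
  | zero => simp
  | add x y hx hy =>
    rw [map_add, add_mul, hx, hy]
    split_ifs
    · rw [add_mul, map_add]
    · rw [add_zero]
  | single g r =>
    induction b using MonoidAlgebra.induction_linear with
    | zero => simp
    | add x y hx hy =>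
      rw [map_add, mul_add, hx, hy]
      split_ifs
      · rw [mul_add, map_add]
      · rw [add_zero]
    | single h s =>
      rw [psiE_single, psiE_single, smul_mul_smul_comm, DD_mul]
      split_ifs
      · rw [MonoidAlgebra.single_mul_single, psiE_single]
      · rw [smul_zero]

/-- the map `Psi` -/
noncomputable def Psi (G : Type u) [Group G] (n : ℕ) : MG p G n →ₙ+* TP p (MG p G n) where
  toFun w := ∑ i, ∑ k, psiE p i k (w i k)
  map_zero' := by simp
  map_add' w w' := by simp [Finset.sum_add_distrib]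
  map_mul' w w' := by
    have h1 : ∀ i k, psiE p i k (w i k) * ∑ l, ∑ m, psiE p l m (w' l m) =
        ∑ m, psiE p i m (w i k * w' k m) := by
      intro i k
      rw [Finset.mul_sum, Finset.sum_eq_single k]
      · rw [Finset.mul_sum]
        apply Finset.sum_congr rfl
        intro m _
        rw [psiE_mul, if_pos rfl]
      · intro l _ hl
        rw [Finset.mul_sum]
        apply Finset.sum_eq_zero
        intro m _
        rw [psiE_mul, if_neg (Ne.symm hl)]
      · intro h
        exact absurd (Finset.mem_univ _) h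
    rw [Finset.sum_mul]
    apply Finset.sum_congr rfl
    intro i _
    rw [Finset.sum_mul]
    simp only [h1, Matrix.mul_apply, map_sum]
    exact Finset.sum_comm

theorem Psi_apply (w : MG p G n) : Psi p G n w = ∑ i, ∑ k, psiE p i k (w i k) := rfl

theorem Psi_single (i k : Fin n) (x : MonoidAlgebra ℤ_[p] G) :
    Psi p G n (Matrix.single i k x) = psiE p i k x := by
  rw [Psi_apply, Finset.sum_eq_single i]
  · rw [Finset.sum_eq_single k]
    · rw [Matrix.single_apply_same]
    · intro l _ hl
      rw [Matrix.single_apply_of_ne _ _ _ _ _ (by simp [Ne.symm hl]), map_zero]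
    · intro h
      exact absurd (Finset.mem_univ _) h
  · intro l _ hl
    apply Finset.sum_eq_zero
    intro m _
    rw [Matrix.single_apply_of_ne _ _ _ _ _ (by simp [Ne.symm hl]), map_zero]
  · intro h
    exact absurd (Finset.mem_univ _) h

/-- induction on matrices over the group ring -/
theorem MG_induction {P : MG p G n → Prop} (h0 : P 0) (ha : ∀ x y, P x → P y → P (x + y))
    (h1 : ∀ (r : ℤ_[p]) (i k : Fin n) (g : G), P (r • EE p i k g)) (w : MG p G n) : P w := by
  induction w using Matrix.induction_on' with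
  | h_zero => exact h0
  | h_add x y hx hy => exact ha x y hx hy
  | h_std_basis i k x =>
    induction x using MonoidAlgebra.induction_linear with
    | zero => rwa [Matrix.single_zero]
    | add x y hx hy =>
      rw [Matrix.single_add]
      exact ha _ _ hx hy
    | single g r =>
      have := h1 r i k g
      rwa [EE, Matrix.smul_single, MonoidAlgebra.smul_single, smul_eq_mul, mul_one] at this

theorem Psi_smul_EE (r : ℤ_[p]) (i k : Fin n) (g : G) :
    Psi p G n (r • EE p i k g) = r • DD p i k g := by
  rw [EE, Matrix.smul_single, MonoidAlgebra.smul_single, smul_eq_mul, mul_one, Psi_single,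
    psiE_single]

/-- the trace followed by the functional of `f` -/
noncomputable def trf (f : G → ℤ_[p]) (n : ℕ) : MG p G n →ₗ[ℤ_[p]] ℤ_[p] :=
  (fn f).comp (Matrix.traceLinearMap (Fin n) ℤ_[p] (MonoidAlgebra ℤ_[p] G))

theorem trf_apply (f : G → ℤ_[p]) (w : MG p G n) : trf p f n w = ∑ i, fn f (w i i) := by
  change fn f (Matrix.trace w) = _
  rw [Matrix.trace, map_sum]
  rfl

theorem trf_comm (f : G → ℤ_[p]) (hf : ∀ x y, f (x * y) = f (y * x)) (a b : MG p G n) :
    trf p f n (a * b) = trf p f n (b * a) := by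
  rw [trf_apply, trf_apply]
  simp only [Matrix.mul_apply, map_sum]
  rw [Finset.sum_comm]
  apply Finset.sum_congr rfl
  intro i _
  apply Finset.sum_congr rfl
  intro k _
  rw [fn_comm f hf]

theorem trf_EE (f : G → ℤ_[p]) (i k : Fin n) (g : G) :
    trf p f n (EE p i k g) = if i = k then f g else 0 := by
  rw [trf_apply, EE]
  split_ifs with h
  · subst h
    rw [Finset.sum_eq_single i]
    · rw [Matrix.single_apply_same, fn_single, one_mul]
    · intro l _ hl
      rw [Matrix.single_apply_of_ne _ _ _ _ _ (by simp [Ne.symm hl]), map_zero]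
    · intro h
      exact absurd (Finset.mem_univ _) h
  · apply Finset.sum_eq_zero
    intro l _
    rw [Matrix.single_apply_of_ne, map_zero]
    rintro ⟨rfl, h2⟩
    exact h h2.symm

theorem EE_pow (i k : Fin n) (g : G) (m : ℕ) :
    EE p i k g ^ (m + 1) = if i = k ∨ m = 0 then EE p i k (g ^ (m + 1)) else 0 := by
  induction m with
  | zero => simp
  | succ m ih =>
    rw [pow_succ, ih]
    by_cases h : i = k
    · subst h
      rw [if_pos (Or.inl rfl), if_pos (Or.inl rfl), EE_mul, if_pos rfl, ← pow_succ]
    · have h2 : ¬ (i = k ∨ m + 1 = 0) := by simp [h]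
      rw [if_neg h2]
      split_ifs
      · rw [EE_mul, if_neg (Ne.symm h)]
      · rw [zero_mul]

variable (f : G → ℤ_[p]) (hf : ∀ x y, f (x * y) = f (y * x))

/-- `trf` as an additive map -/
noncomputable def trA (f : G → ℤ_[p]) (n : ℕ) : MG p G n →+ ℤ_[p] := (trf p f n).toAddMonoidHom

end Mat

section Nat

variable {G : Type u} [Group G] {H : Type v} [Group H] (φ : G →* H) (n : ℕ)

/-- the induced map on matrices -/
noncomputable def glA : MG p G n →ₐ[ℤ_[p]] MG p H n :=
  (MonoidAlgebra.mapDomainAlgHom ℤ_[p] ℤ_[p] φ).mapMatrix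

theorem glA_EE (r : ℤ_[p]) (i k : Fin n) (g : G) :
    glA p φ n (r • EE p i k g) = r • EE p i k (φ g) := by
  rw [map_smul]
  congr 1
  refine Matrix.ext fun a b => ?_
  change MonoidAlgebra.mapDomain φ ((EE p i k g) a b) = (EE p i k (φ g)) a b
  rw [EE, EE, Matrix.single_apply, Matrix.single_apply]
  split_ifs
  · rw [MonoidAlgebra.mapDomain_single]
  · simp

end Nat

end Pool.Agent.H71.KP

end
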