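import Pool.Agent.H13.TFQ.M13
import Pool.Agent.H13.TFQ.M15

/-! The parts of this file: H95.WH.Men, H95.WH.Red. -/

section

/-!
# Mennicke symbols

For a commutative ring `A` and `a d - b c = 1` let `sl2 a b c d` be the matrix `!![a, b; c, d]`.
Main result `men_torsion`: if `a ∣ b^m - 1` then `m • [sl2 a b c d] = 0` in `K₁(A)`.

## Paper proofs

(E) Elementary matrices have class zero (`cls_transvection`); products of matrices have the sum of
the classes. In particular the class of `w = !![0, 1; -1, 0] = e₁₂(1) e₂₁(-1) e₁₂(1)` is zero.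
`men_row`: two matrices in `SL₂` with the same first row differ by a left factor `!![1, 0; x, 1]`.
`men_mul`: in `SL₃(A)` compute
`(sl2 a b₁ c₁ d₁ ⊕ 1) * (1 ⊕ (sl2 a b₂ c₂ d₂ * w)) = !![a, -b₁ b₂, b₁ a; c₁, -d₁ b₂, d₁ a; 0, -d₂, c₂]`.
Subtract `b₁` times column 1 from column 3 (using `a d₁ - b₁ c₁ = 1`):
`!![a, -b₁ b₂, 0; c₁, -d₁ b₂, 1; 0, -d₂, c₂]`. Subtract `c₂` times row 2 from row 3:
`!![a, -b₁ b₂, 0; c₁, -d₁ b₂, 1; -c₁ c₂, -d₂ + c₂ d₁ b₂, 0]`. Subtract `c₁` times column 3 from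
column 1 and add `d₁ b₂` times column 3 to column 2:
`!![a, -b₁ b₂, 0; 0, 0, 1; -c₁ c₂, -d₂ + c₂ d₁ b₂, 0]`. This is
`(1 ⊕ w) * !![a, -b₁ b₂, 0; c₁ c₂, d₂ - c₂ d₁ b₂, 0; 0, 0, 1]` (`w` as above). Hence the claim; the classes of
`X ⊕ 1` and `1 ⊕ X` are the class of `X` (`cls_stab`, `cls_reindex`).
`men_neg`: `men_mul` with `b₂ = 1`, `c₂ = -1`, `d₂ = 0` (`!![a, 1; -1, 0] = !![1, -a; 0, 1] * w⁻¹..` is
a product of elementary matrices, class `0`), then `men_row`.
`men_pow`: induction on `m`: if `β` has first row `(a, b^m)` and class `m • [α]`, `men_mul` for `β`, `α`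
gives a matrix with first row `(a, -b^{m+1})`; use `men_neg` and `men_row`. (`m = 0`: first row `(a, 1)`.)
`men_torsion`: `b^m = 1 + t a`; the matrix with first row `(a, b^m)` times `!![1, -t; 0, 1]` has first
row `(a, 1)`, so its class is `0`. Such a matrix exists: from `a d - b c = 1` the ideal `(a, b^m)` is
the unit ideal (`IsCoprime.pow_right`).
-/

set_option autoImplicit false

open Matrix

universe u

namespace Pool.Agent.H95.WH

variable {A : Type u} [CommRing A]

/-- The matrix `!![a, b; c, d]` of determinant one. -/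
def sl2 (a b c d : A) (h : a * d - b * c = 1) : (Matrix (Fin 2) (Fin 2) A)ˣ where
  val := !![a, b; c, d]
  inv := !![d, -b; -c, a]
  val_inv := by
    ext i j
    fin_cases i <;> fin_cases j <;> simp [Matrix.mul_apply, Fin.sum_univ_two] <;>
      first | ring1 | linear_combination h
  inv_val := by
    ext i j
    fin_cases i <;> fin_cases j <;> simp [Matrix.mul_apply, Fin.sum_univ_two] <;>
      first | ring1 | linear_combination h

/-- The elementary matrix as a unit. -/
private def tvU {n : ℕ} (i j : Fin n) (hij : i ≠ j) (x : A) : (Matrix (Fin n) (Fin n) A)ˣ where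
  val := transvection i j x
  inv := transvection i j (-x)
  val_inv := by rw [transvection_mul_transvection_same i j hij, add_neg_cancel, transvection_zero]
  inv_val := by rw [transvection_mul_transvection_same i j hij, neg_add_cancel, transvection_zero]

private theorem mk_tvU {n : ℕ} (i j : Fin n) (hij : i ≠ j) (x : A) :
    K1.mk (tvU i j hij x) = 0 := by
  rw [← K1.cls_mk]
  exact K1.cls_transvection hij x _ rfl

private theorem tv10 (x : A) : (transvection 1 0 x : Matrix (Fin 2) (Fin 2) A) = !![1, 0; x, 1] := by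
  ext i j
  fin_cases i <;> fin_cases j <;> simp [transvection, Matrix.single_apply]

private theorem tv01 (x : A) : (transvection 0 1 x : Matrix (Fin 2) (Fin 2) A) = !![1, x; 0, 1] := by
  ext i j
  fin_cases i <;> fin_cases j <;> simp [transvection, Matrix.single_apply]

private theorem tv02 (x : A) :
    (transvection 0 2 x : Matrix (Fin 3) (Fin 3) A) = !![1, 0, x; 0, 1, 0; 0, 0, 1] := by
  ext i j
  fin_cases i <;> fin_cases j <;> simp [transvection, Matrix.single_apply]

private theorem tv20 (x : A) :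
    (transvection 2 0 x : Matrix (Fin 3) (Fin 3) A) = !![1, 0, 0; 0, 1, 0; x, 0, 1] := by
  ext i j
  fin_cases i <;> fin_cases j <;> simp [transvection, Matrix.single_apply]

private theorem tv21 (x : A) :
    (transvection 2 1 x : Matrix (Fin 3) (Fin 3) A) = !![1, 0, 0; 0, 1, 0; 0, x, 1] := by
  ext i j
  fin_cases i <;> fin_cases j <;> simp [transvection, Matrix.single_apply]

private theorem stab_val (a b c d : A) (h : a * d - b * c = 1) :
    (stab (sl2 a b c d h)).val = !![a, b, 0; c, d, 0; 0, 0, 1] := by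
  ext i j
  fin_cases i <;> fin_cases j <;> rfl

theorem men_row (a b c d c' d' : A) (h : a * d - b * c = 1) (h' : a * d' - b * c' = 1) :
    K1.mk (sl2 a b c d h) = K1.mk (sl2 a b c' d' h') := by
  have e : sl2 a b c' d' h' = tvU 1 0 (by decide) (c' * d - d' * c) * sl2 a b c d h := by
    apply Units.ext
    change !![a, b; c', d'] = transvection 1 0 (c' * d - d' * c) * !![a, b; c, d]
    rw [tv10, Matrix.mul_fin_two]
    ext i j
    fin_cases i <;> fin_cases j <;> simp
    · linear_combination (-c') * h + c * h'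
    · linear_combination (-d') * h + d * h'
  rw [e, K1.mk_mul, mk_tvU, zero_add]

/-- the matrix `!![0, 1; -1, 0]` -/
private def wU : (Matrix (Fin 2) (Fin 2) A)ˣ := sl2 0 1 (-1) 0 (by ring)

private theorem mk_wU : K1.mk (wU : (Matrix (Fin 2) (Fin 2) A)ˣ) = 0 := by
  have e : (wU : (Matrix (Fin 2) (Fin 2) A)ˣ) =
      tvU 0 1 (by decide) 1 * tvU 1 0 (by decide) (-1) * tvU 0 1 (by decide) 1 := by
    apply Units.ext
    change !![0, 1; -1, 0] = transvection 0 1 1 * transvection 1 0 (-1) * transvection 0 1 1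
    rw [tv01, tv10, Matrix.mul_fin_two, Matrix.mul_fin_two]
    ext i j
    fin_cases i <;> fin_cases j <;> simp
  rw [e, K1.mk_mul, K1.mk_mul]
  simp only [mk_tvU, add_zero]

/-- the cyclic permutation matrix -/
private def cycU : (Matrix (Fin 3) (Fin 3) A)ˣ where
  val := !![0, 0, 1; 1, 0, 0; 0, 1, 0]
  inv := !![0, 1, 0; 0, 0, 1; 1, 0, 0]
  val_inv := by
    rw [Matrix.mul_fin_three]
    ext i j
    fin_cases i <;> fin_cases j <;> simp
  inv_val := by
    rw [Matrix.mul_fin_three]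
    ext i j
    fin_cases i <;> fin_cases j <;> simp

/-- the matrix `1 ⊕ !![a, b; c, d]` -/
private def shU (a b c d : A) (h : a * d - b * c = 1) : (Matrix (Fin 3) (Fin 3) A)ˣ :=
  cycU * stab (sl2 a b c d h) * cycU⁻¹

private theorem shU_val (a b c d : A) (h : a * d - b * c = 1) :
    (shU a b c d h).val = !![1, 0, 0; 0, a, b; 0, c, d] := by
  change cycU.val * (stab (sl2 a b c d h)).val * (cycU⁻¹).val = _
  rw [stab_val]
  change !![0, 0, 1; 1, 0, 0; 0, 1, 0] * !![a, b, 0; c, d, 0; 0, 0, 1] *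
    !![0, 1, 0; 0, 0, 1; 1, 0, 0] = _
  rw [Matrix.mul_fin_three, Matrix.mul_fin_three]
  ext i j
  fin_cases i <;> fin_cases j <;> simp

private theorem mk_inv {n : ℕ} (U : (Matrix (Fin n) (Fin n) A)ˣ) : K1.mk U⁻¹ = - K1.mk U := by
  rw [← K1.cls_mk, ← K1.cls_mk, K1.cls_inv]

private theorem mk_shU (a b c d : A) (h : a * d - b * c = 1) :
    K1.mk (shU a b c d h) = K1.mk (sl2 a b c d h) := by
  rw [shU, K1.mk_mul, K1.mk_mul, K1.mk_stab, mk_inv]
  abel

theorem men_mul (a b₁ c₁ d₁ b₂ c₂ d₂ : A) (h₁ : a * d₁ - b₁ * c₁ = 1) (h₂ : a * d₂ - b₂ * c₂ = 1)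
    (h₃ : a * (d₂ - c₂ * d₁ * b₂) - (-(b₁ * b₂)) * (c₁ * c₂) = 1) :
    K1.mk (sl2 a (-(b₁ * b₂)) (c₁ * c₂) (d₂ - c₂ * d₁ * b₂) h₃) =
      K1.mk (sl2 a b₁ c₁ d₁ h₁) + K1.mk (sl2 a b₂ c₂ d₂ h₂) := by
  have hw : (0 : A) * 0 - 1 * (-1) = 1 := by ring
  have hprod : (-b₂) * c₂ - a * (-d₂) = 1 := by linear_combination h₂
  have e1 : tvU 2 1 (by decide) (-c₂) * (stab (sl2 a b₁ c₁ d₁ h₁) * shU (-b₂) a (-d₂) c₂ hprod) *
      tvU 0 2 (by decide) (-b₁) * tvU 2 0 (by decide) (-c₁) * tvU 2 1 (by decide) (d₁ * b₂) =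
      shU 0 1 (-1) 0 hw * stab (sl2 a (-(b₁ * b₂)) (c₁ * c₂) (d₂ - c₂ * d₁ * b₂) h₃) := by
    apply Units.ext
    change transvection 2 1 (-c₂) * ((stab (sl2 a b₁ c₁ d₁ h₁)).val *
      (shU (-b₂) a (-d₂) c₂ hprod).val) * transvection 0 2 (-b₁) * transvection 2 0 (-c₁) *
      transvection 2 1 (d₁ * b₂) = (shU 0 1 (-1) 0 hw).val *
        (stab (sl2 a (-(b₁ * b₂)) (c₁ * c₂) (d₂ - c₂ * d₁ * b₂) h₃)).val
    rw [stab_val, stab_val, shU_val, shU_val, tv21, tv02, tv20, tv21]
    rw [Matrix.mul_fin_three, Matrix.mul_fin_three, Matrix.mul_fin_three, Matrix.mul_fin_three,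
      Matrix.mul_fin_three, Matrix.mul_fin_three]
    ext i j
    fin_cases i <;> fin_cases j <;> simp
    · ring
    · ring
    · ring
    · linear_combination (-c₁) * h₁
    · linear_combination (d₁ * b₂) * h₁
    · linear_combination h₁
    · linear_combination (c₁ * c₂) * h₁
    · linear_combination (-(c₂ * d₁ * b₂)) * h₁
    · linear_combination (-c₂) * h₁
  have e2 : sl2 (-b₂) a (-d₂) c₂ hprod = sl2 a b₂ c₂ d₂ h₂ * wU := by
    apply Units.ext
    change !![-b₂, a; -d₂, c₂] = !![a, b₂; c₂, d₂] * !![0, 1; -1, 0]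
    rw [Matrix.mul_fin_two]
    ext i j
    fin_cases i <;> fin_cases j <;> simp
  have e3 : K1.mk (sl2 (-b₂) a (-d₂) c₂ hprod) = K1.mk (sl2 a b₂ c₂ d₂ h₂) := by
    rw [e2, K1.mk_mul, mk_wU, add_zero]
  have e4 : K1.mk (sl2 (0 : A) 1 (-1) 0 hw) = 0 := mk_wU
  have e5 := congrArg K1.mk e1
  rw [K1.mk_mul, K1.mk_mul, K1.mk_mul, K1.mk_mul, K1.mk_mul, K1.mk_mul, K1.mk_stab, K1.mk_stab,
    mk_shU, mk_shU, mk_tvU, mk_tvU, mk_tvU, mk_tvU, e3, e4] at e5
  simpa using e5.symm

theorem men_neg (a b c d : A) (h : a * d - b * c = 1) (h' : a * d - (-b) * (-c) = 1) :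
    K1.mk (sl2 a (-b) (-c) d h') = K1.mk (sl2 a b c d h) := by
  have h2 : a * 0 - 1 * (-1) = (1 : A) := by ring
  have h3 : a * (0 - (-1) * d * 1) - (-(b * 1)) * (c * (-1)) = 1 := by linear_combination h'
  have e := men_mul a b c d 1 (-1) 0 h h2 h3
  have e0 : K1.mk (sl2 a 1 (-1) 0 h2) = 0 := by
    have e1 : sl2 a 1 (-1) 0 h2 = tvU 0 1 (by decide) (-a) * wU := by
      apply Units.ext
      change !![a, 1; -1, 0] = transvection 0 1 (-a) * !![0, 1; -1, 0]
      rw [tv01, Matrix.mul_fin_two]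
      ext i j
      fin_cases i <;> fin_cases j <;> simp
    rw [e1, K1.mk_mul, mk_tvU, mk_wU, add_zero]
  rw [e0, add_zero] at e
  rw [← e]
  congr 1
  apply Units.ext
  change !![a, -b; -c, d] = !![a, -(b * 1); c * (-1), 0 - (-1) * d * 1]
  ext i j
  fin_cases i <;> fin_cases j <;> simp

theorem men_pow (a b c d : A) (h : a * d - b * c = 1) (m : ℕ) (c' d' : A)
    (h' : a * d' - b ^ m * c' = 1) :
    K1.mk (sl2 a (b ^ m) c' d' h') = m • K1.mk (sl2 a b c d h) := by
  induction m generalizing c' d' with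
  | zero =>
    rw [zero_smul]
    have h2 : a * 0 - 1 * (-1) = (1 : A) := by ring
    have h2' : a * 0 - b ^ 0 * (-1) = (1 : A) := by ring
    rw [men_row a (b ^ 0) c' d' (-1) 0 h' h2']
    have e1 : sl2 a (b ^ 0) (-1) 0 h2' = tvU 0 1 (by decide) (-a) * wU := by
      apply Units.ext
      change !![a, b ^ 0; -1, 0] = transvection 0 1 (-a) * !![0, 1; -1, 0]
      rw [tv01, Matrix.mul_fin_two]
      ext i j
      fin_cases i <;> fin_cases j <;> simp
    rw [e1, K1.mk_mul, mk_tvU, mk_wU, add_zero]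
  | succ m ih =>
    -- a matrix with first row `(a, b^m)`
    have hco : IsCoprime a (b ^ m) := by
      have : IsCoprime a b := ⟨d, -c, by linear_combination h⟩
      exact this.pow_right
    obtain ⟨x, y, hxy⟩ := hco
    have h1 : a * x - b ^ m * (-y) = 1 := by linear_combination hxy
    have e1 := ih (-y) x h1
    have h3 : a * (d - c * x * b) - (-(b ^ m * b)) * ((-y) * c) = 1 := by
      linear_combination h - b * c * hxy
    have e2 := men_mul a (b ^ m) (-y) x b c d h1 h h3
    have h4 : a * (d - c * x * b) - (b ^ m * b) * (-((-y) * c)) = 1 := by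
      linear_combination h3
    have h5 : a * (d - c * x * b) - (-(b ^ m * b)) * (-(-((-y) * c))) = 1 := by
      linear_combination h3
    have e3 := men_neg a (b ^ m * b) (-((-y) * c)) (d - c * x * b) h4 h5
    have e4 : K1.mk (sl2 a (-(b ^ m * b)) (-(-((-y) * c))) (d - c * x * b) h5) =
        K1.mk (sl2 a (-(b ^ m * b)) ((-y) * c) (d - c * x * b) h3) :=
      men_row _ _ _ _ _ _ _ _
    have h6 : a * (d - c * x * b) - (b ^ (m + 1)) * (-((-y) * c)) = 1 := by
      rw [pow_succ]; exact h4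
    have e5 : K1.mk (sl2 a (b ^ (m + 1)) (-((-y) * c)) (d - c * x * b) h6) =
        K1.mk (sl2 a (b ^ m * b) (-((-y) * c)) (d - c * x * b) h4) := by
      congr 1
      apply Units.ext
      change !![a, b ^ (m + 1); -((-y) * c), d - c * x * b] =
        !![a, b ^ m * b; -((-y) * c), d - c * x * b]
      rw [pow_succ]
    rw [men_row a (b ^ (m + 1)) c' d' (-((-y) * c)) (d - c * x * b) h' h6, e5, ← e3, e4, e2, e1,
      succ_nsmul]

theorem men_torsion (a b c d : A) (h : a * d - b * c = 1) (m : ℕ) (hm : a ∣ b ^ m - 1) :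
    m • K1.mk (sl2 a b c d h) = 0 := by
  obtain ⟨t, ht⟩ := hm
  have hco : IsCoprime a (b ^ m) := by
    have : IsCoprime a b := ⟨d, -c, by linear_combination h⟩
    exact this.pow_right
  obtain ⟨x, y, hxy⟩ := hco
  have h1 : a * x - b ^ m * (-y) = 1 := by linear_combination hxy
  rw [← men_pow a b c d h m (-y) x h1]
  have hb : b ^ m = 1 + a * t := by linear_combination ht
  -- multiply by `!![1, -t; 0, 1]`
  have h2 : a * (x + t * y) - 1 * (-y) = 1 := by
    linear_combination hxy - y * hb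
  have e1 : sl2 a 1 (-y) (x + t * y) h2 =
      sl2 a (b ^ m) (-y) x h1 * tvU 0 1 (by decide) (-t) := by
    apply Units.ext
    change !![a, 1; -y, x + t * y] = !![a, b ^ m; -y, x] * transvection 0 1 (-t)
    rw [tv01, Matrix.mul_fin_two, hb]
    ext i j
    fin_cases i <;> fin_cases j <;> simp <;> ring
  have e2 := congrArg K1.mk e1
  rw [K1.mk_mul, mk_tvU, add_zero] at e2
  rw [← e2]
  have h3 : a * 0 - 1 * (-1) = (1 : A) := by ring
  rw [men_row a 1 (-y) (x + t * y) (-1) 0 h2 h3]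
  have e3 : sl2 a 1 (-1) 0 h3 = tvU 0 1 (by decide) (-a) * wU := by
    apply Units.ext
    change !![a, 1; -1, 0] = transvection 0 1 (-a) * !![0, 1; -1, 0]
    rw [tv01, Matrix.mul_fin_two]
    ext i j
    fin_cases i <;> fin_cases j <;> simp
  rw [e3, K1.mk_mul, mk_tvU, mk_wU, add_zero]

end Pool.Agent.H95.WH

end

section

/-!
# `SK₁` is a torsion group

Let `A` be a commutative ring that is free and finitely generated as a `ℤ`-module (for example
`ℤ[C]`, `C` finite commutative). Then for every invertible matrix `U` over `A` there is an `m > 0`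
with `m • [U] = m • [det U]` in `K₁(A)`.

## Paper proof

Induction on the size `n`. `n = 0`: `U = 1`. `n = 1`: `U` is the matrix of `det U`. Elementary
operations (multiplication by transvections on either side) change neither the class nor the
determinant. Let `n ≥ 2` and let `(a₁, …, aₙ)` be the first row of `U`. It is unimodular
(`∑ aᵢ (U⁻¹)ᵢ₁ = 1`). Apply `sr_row` to its image in the finite ring `A/3A` (`fin_quot_nat`): after adding
multiples of the other columns to the first one, `a₁` is a unit modulo `3`, i.e. `a₁ a' = 1 + 3 z`. So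
`A/a₁A` is finite (`fin_quot`).

`n = 2`: `U = diag(1, δ) * U'` with `δ = det U`, `U' ∈ SL₂(A)` with the same first row `(a₁, a₂)`; `a₂` is a
unit modulo `a₁` so `a₁ ∣ a₂^m - 1` for some `m ≥ 1`, and `m • [U'] = 0` by `men_torsion`. So
`m • [U] = m • [δ]`.

`n ≥ 3`: the image of `(a₂, …, aₙ)` in the finite ring `A/a₁A` is unimodular; by `sr_row` we may add
multiples of the columns `3, …, n` to column `2` and achieve that `a₂` is a unit modulo `a₁`, i.e.
`x a₁ + y a₂ = 1`. Add `(1 - a₃) x` times column 1 and `(1 - a₃) y` times column 2 to column 3: now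
`a₃ = 1`. Subtract multiples of column 3 from the other columns: the first row is `(0, 0, 1, 0, …, 0)`.
Add column 3 to column 1 and subtract column 1 from column 3: the first row is `(1, 0, …, 0)`.
Now `U` is, up to reindexing `Fin n ≃ Fin 1 ⊕ Fin (n-1)`, the block matrix `fromBlocks 1 0 B V` and
`[U] = [V]` (`K1.cls_lower`), `det U = det V`. Apply the induction hypothesis to `V`.
-/

set_option autoImplicit false

open Matrix

universe u

namespace Pool.Agent.H95.WH

variable {A : Type u} [CommRing A]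

/-- The determinant of an invertible matrix as a unit. -/
noncomputable def detU {ι : Type*} [Fintype ι] [DecidableEq ι] : (Matrix ι ι A)ˣ →* Aˣ :=
  Units.map (Matrix.detMonoidHom : Matrix ι ι A →* A)

theorem detU_val {ι : Type*} [Fintype ι] [DecidableEq ι] (U : (Matrix ι ι A)ˣ) :
    (detU U : A) = (U : Matrix ι ι A).det := rfl

theorem red_unip {ι : Type*} [Fintype ι] [DecidableEq ι] (p : ι → Prop) [DecidablePred p]
    (M : Matrix ι ι A) (hM : ∀ i j, ¬ (p i ∧ ¬ p j) → M i j = 0) :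
    ∃ E : (Matrix ι ι A)ˣ, E.val = 1 + M ∧ K1.cls E = 0 ∧ detU E = 1 := by
  let e : {i // p i} ⊕ {i // ¬ p i} ≃ ι := Equiv.sumCompl p
  let X : Matrix {i // p i} {i // ¬ p i} A := Matrix.of fun i j => M i.1 j.1
  let F : (Matrix ({i // p i} ⊕ {i // ¬ p i}) ({i // p i} ⊕ {i // ¬ p i}) A)ˣ :=
    { val := Matrix.fromBlocks 1 X 0 1
      inv := Matrix.fromBlocks 1 (-X) 0 1
      val_inv := by
        rw [Matrix.fromBlocks_multiply]
        simp
      inv_val := by
        rw [Matrix.fromBlocks_multiply]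
        simp }
  have hF : F.val = (1 + M).submatrix e e := by
    refine Matrix.ext fun i j => ?_
    rcases i with i | i <;> rcases j with j | j
    · have h0 : M i.1 j.1 = 0 := hM _ _ (fun h => h.2 j.2)
      change (1 : Matrix _ _ A) i j = (1 + M) i.1 j.1
      rw [Matrix.add_apply, h0, add_zero, Matrix.one_apply, Matrix.one_apply]
      simp only [Subtype.ext_iff]
    · change M i.1 j.1 = (1 + M) i.1 j.1
      rw [Matrix.add_apply, Matrix.one_apply_ne, zero_add]
      intro h
      exact j.2 (h ▸ i.2)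
    · have h0 : M i.1 j.1 = 0 := hM _ _ (fun h => i.2 h.1)
      change (0 : A) = (1 + M) i.1 j.1
      rw [Matrix.add_apply, h0, add_zero, Matrix.one_apply_ne]
      intro h
      exact i.2 (h ▸ j.2)
    · have h0 : M i.1 j.1 = 0 := hM _ _ (fun h => i.2 h.1)
      change (1 : Matrix _ _ A) i j = (1 + M) i.1 j.1
      rw [Matrix.add_apply, h0, add_zero, Matrix.one_apply, Matrix.one_apply]
      simp only [Subtype.ext_iff]
  refine ⟨reU e F, ?_, ?_, ?_⟩
  · rw [reU_val, hF, Matrix.submatrix_submatrix]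
    simp
  · rw [K1.cls_reindex]
    exact K1.cls_unip X F rfl
  · apply Units.ext
    rw [detU_val, reU_val, Matrix.det_submatrix_equiv_self]
    change (Matrix.fromBlocks 1 X 0 1).det = 1
    rw [Matrix.det_fromBlocks_zero₂₁, Matrix.det_one, Matrix.det_one, one_mul]

/-- Column operations. -/
theorem red_op {ι : Type*} [Fintype ι] [DecidableEq ι] (U : (Matrix ι ι A)ˣ) (p : ι → Prop)
    [DecidablePred p] (M : ι → ι → A) (hM : ∀ i j, ¬ (p i ∧ ¬ p j) → M i j = 0) :
    ∃ V : (Matrix ι ι A)ˣ, K1.cls V = K1.cls U ∧ detU V = detU U ∧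
      ∀ i j, V.val i j = U.val i j + ∑ k, U.val i k * M k j := by
  obtain ⟨E, h1, h2, h3⟩ := red_unip p (Matrix.of M) hM
  refine ⟨U * E, ?_, ?_, ?_⟩
  · rw [K1.cls_mul, h2, add_zero]
  · rw [map_mul, h3, mul_one]
  · intro i j
    rw [Units.val_mul, h1, mul_add, mul_one, Matrix.add_apply, Matrix.mul_apply]
    rfl

theorem red_row {ι : Type*} [Fintype ι] [DecidableEq ι] (U : (Matrix ι ι A)ˣ) (i : ι) :
    ∑ j, U.inv j i * U.val i j = 1 := by
  have h := congrFun (congrFun U.val_inv i) i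
  rw [Matrix.mul_apply, Matrix.one_apply_eq] at h
  rw [← h]
  exact Finset.sum_congr rfl fun j _ => mul_comm _ _

theorem red_fin1 [Module.Free ℤ A] [Module.Finite ℤ A] {n : ℕ}
    (U : (Matrix (Fin (n + 1)) (Fin (n + 1)) A)ˣ) :
    ∃ V : (Matrix (Fin (n + 1)) (Fin (n + 1)) A)ˣ, K1.cls V = K1.cls U ∧ detU V = detU U ∧
      Finite (A ⧸ Ideal.span {V.val 0 0}) := by
  have := fin_quot_nat (A := A) 3 (by norm_num)
  let π := Ideal.Quotient.mk (Ideal.span {((3 : ℕ) : A)})
  obtain ⟨t, ht⟩ := sr_row (fun j => π (U.val 0 j)) (fun j => π (U.inv j 0)) (by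
    rw [← map_one π, ← red_row U 0, map_sum]
    exact Finset.sum_congr rfl fun j _ => (map_mul π _ _).symm)
  choose s hs using fun i => Ideal.Quotient.mk_surjective (t i)
  obtain ⟨V, hV1, hV2, hV3⟩ := red_op U (fun j => j ≠ 0)
    (fun i j => if j = 0 then (Fin.cases 0 s i : A) else 0) (by
      intro i j h
      by_cases hj : j = 0
      · have hi : i = 0 := by
          by_contra hi
          exact h ⟨hi, fun h' => h' hj⟩
        simp [hi]
      · simp [hj])
  refine ⟨V, hV1, hV2, ?_⟩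
  have h1 : V.val 0 0 = U.val 0 0 + ∑ i, s i * U.val 0 i.succ := by
    rw [hV3, Fin.sum_univ_succ]
    simp [mul_comm]
  have h2 : IsUnit (π (V.val 0 0)) := by
    rw [h1, map_add, map_sum]
    convert ht using 4 with i
    rw [map_mul, ← hs]
  obtain ⟨b, hb⟩ := h2.exists_right_inv
  obtain ⟨b, rfl⟩ := Ideal.Quotient.mk_surjective b
  rw [← map_mul, ← map_one π, Ideal.Quotient.eq, Ideal.mem_span_singleton] at hb
  obtain ⟨z, hz⟩ := hb
  exact fin_quot 3 (by norm_num) (V.val 0 0) b z (by rw [← hz]; ring)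

/-- The corner. -/
theorem red_corner {n : ℕ} (U : (Matrix (Fin (n + 1)) (Fin (n + 1)) A)ˣ) (h0 : U.val 0 0 = 1)
    (h1 : ∀ j : Fin n, U.val 0 j.succ = 0) :
    ∃ V : (Matrix (Fin n) (Fin n) A)ˣ, K1.mk U = K1.mk V ∧ detU U = detU V := by
  let W : Matrix (Fin n) (Fin n) A := U.val.submatrix Fin.succ Fin.succ
  have hdet : U.val.det = W.det := by
    rw [Matrix.det_succ_row_zero, Fin.sum_univ_succ]
    simp [h0, h1, W]
  have hW : IsUnit W := by
    rw [Matrix.isUnit_iff_isUnit_det, ← hdet, ← Matrix.isUnit_iff_isUnit_det]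
    exact U.isUnit
  obtain ⟨V, hV⟩ := hW
  let e : Fin 1 ⊕ Fin n ≃ Fin (n + 1) :=
    { toFun := Sum.elim (fun _ => 0) Fin.succ
      invFun := Fin.cases (Sum.inl 0) Sum.inr
      left_inv := by
        rintro (i | i)
        · simp [Subsingleton.elim i 0]
        · simp
      right_inv := by
        intro i
        refine Fin.cases ?_ (fun i => ?_) i
        · simp
        · simp }
  refine ⟨V, ?_, ?_⟩
  · rw [← K1.cls_mk, ← K1.cls_mk, ← K1.cls_reindex e.symm U]
    have h := K1.cls_lower (1 : (Matrix (Fin 1) (Fin 1) A)ˣ) V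
      (Matrix.of fun (i : Fin n) (_ : Fin 1) => U.val i.succ 0) (reU e.symm U) (by
        rw [reU_val]
        refine Matrix.ext fun i j => ?_
        rcases i with i | i <;> rcases j with j | j
        · change U.val 0 0 = (1 : Matrix (Fin 1) (Fin 1) A) i j
          rw [h0, Subsingleton.elim i j, Matrix.one_apply_eq]
        · change U.val 0 j.succ = 0
          exact h1 j
        · rfl
        · change U.val i.succ j.succ = V.val i j
          rw [hV]
          rfl)
    rw [h, K1.cls_one, zero_add]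
  · apply Units.ext
    rw [detU_val, detU_val, hV, hdet]

/-- Reduction when one entry of the first row is one. -/
theorem red_one {n : ℕ} (U : (Matrix (Fin (n + 1)) (Fin (n + 1)) A)ˣ) (j : Fin (n + 1))
    (hj : j ≠ 0) (h : U.val 0 j = 1) :
    ∃ V : (Matrix (Fin n) (Fin n) A)ˣ, K1.mk U = K1.mk V ∧ detU U = detU V := by
  obtain ⟨V, hV1, hV2, hV3⟩ := red_op U (fun i => i = j)
    (fun i k => if i = j ∧ k = 0 then 1 - U.val 0 0 else 0) (by
      intro i k h'
      rw [if_neg]
      rintro ⟨rfl, rfl⟩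
      exact h' ⟨rfl, hj.symm⟩)
  have hV0 : V.val 0 0 = 1 := by
    rw [hV3, Finset.sum_eq_single j]
    · simp [h]
    · intro k _ hk
      simp [hk]
    · intro hk
      exact absurd (Finset.mem_univ _) hk
  obtain ⟨W, hW1, hW2, hW3⟩ := red_op V (fun i => i = 0)
    (fun i k => if i = 0 ∧ k ≠ 0 then - V.val 0 k else 0) (by
      intro i k h'
      rw [if_neg]
      exact h')
  have hWk : ∀ k, W.val 0 k = V.val 0 k + (if k ≠ 0 then - V.val 0 k else 0) := by
    intro k
    rw [hW3, Finset.sum_eq_single 0]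
    · rw [hV0]
      simp
    · intro i _ hi
      simp [hi]
    · intro hk
      exact absurd (Finset.mem_univ _) hk
  obtain ⟨Z, hZ1, hZ2⟩ := red_corner W (by rw [hWk]; simp [hV0])
    (fun k => by rw [hWk]; simp [Fin.succ_ne_zero])
  refine ⟨Z, ?_, ?_⟩
  · rw [← hZ1, ← K1.cls_mk, ← K1.cls_mk, hW1, hV1]
  · rw [← hZ2, hW2, hV2]

/-- The case of `SL₂`, `a` with finite quotient. -/
theorem red_two [Module.Free ℤ A] [Module.Finite ℤ A] (U : (Matrix (Fin 2) (Fin 2) A)ˣ) :
    ∃ m : ℕ, 0 < m ∧ m • K1.mk U = m • K1.unit (detU U) := by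
  obtain ⟨V, hV1, hV2, hV3⟩ := red_fin1 U
  rw [← K1.cls_mk, ← hV1, ← hV2]
  clear hV1 hV2 U
  let δ := detU V
  have hδ : V.val 0 0 * V.val 1 1 - V.val 0 1 * V.val 1 0 = δ := by
    rw [← Matrix.det_fin_two]
    rfl
  have hδ' : (δ : A) * ((δ⁻¹ : Aˣ) : A) = 1 := Units.mul_inv δ
  have hS : V.val 0 0 * ((δ⁻¹ : Aˣ) * V.val 1 1) - V.val 0 1 * ((δ⁻¹ : Aˣ) * V.val 1 0) = 1 := by
    rw [← hδ', ← hδ]
    ring
  let D : (Matrix (Fin 2) (Fin 2) A)ˣ :=
    { val := Matrix.diagonal fun i => ((![1, δ] i : Aˣ) : A)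
      inv := Matrix.diagonal fun i => (((![1, δ] i)⁻¹ : Aˣ) : A)
      val_inv := by
        rw [Matrix.diagonal_mul_diagonal]
        simp
      inv_val := by
        rw [Matrix.diagonal_mul_diagonal]
        simp }
  have hD : K1.cls D = K1.unit δ := by
    rw [K1.cls_diagonal ![1, δ] D rfl, Fin.sum_univ_two]
    have h1 : K1.unit (1 : Aˣ) = 0 := by
      have h := K1.unit_mul (1 : Aˣ) 1
      rw [one_mul] at h
      exact left_eq_add.1 h
    change K1.unit 1 + K1.unit δ = _
    rw [h1, zero_add]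
  have hVD : V = D * sl2 _ _ _ _ hS := by
    apply Units.ext
    rw [Units.val_mul]
    change V.val = Matrix.diagonal _ * !![_, _; _, _]
    refine Matrix.ext fun i j => ?_
    rw [Matrix.diagonal_mul]
    fin_cases i <;> fin_cases j
    · simp
    · simp
    · simp
    · simp
  have hb : ∃ m : ℕ, 0 < m ∧ V.val 0 0 ∣ V.val 0 1 ^ m - 1 := by
    let π := Ideal.Quotient.mk (Ideal.span {V.val 0 0})
    have hu : π (V.val 0 1) * π (-((δ⁻¹ : Aˣ) * V.val 1 0)) = 1 := by
      rw [← map_mul, ← map_one π, Ideal.Quotient.eq, Ideal.mem_span_singleton]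
      exact ⟨-((δ⁻¹ : Aˣ) * V.val 1 1), by linear_combination hS⟩
    let u : (A ⧸ Ideal.span {V.val 0 0})ˣ := Units.mkOfMulEqOne _ _ hu
    refine ⟨Nat.card (A ⧸ Ideal.span {V.val 0 0})ˣ, Nat.card_pos, ?_⟩
    have h1 : u ^ Nat.card (A ⧸ Ideal.span {V.val 0 0})ˣ = 1 := pow_card_eq_one'
    have h2 := congrArg Units.val h1
    rw [Units.val_pow_eq_pow_val, Units.val_one] at h2
    change π (V.val 0 1) ^ _ = 1 at h2
    rw [← map_pow, ← map_one π, Ideal.Quotient.eq, Ideal.mem_span_singleton] at h2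
    exact h2
  obtain ⟨m, hm, hdvd⟩ := hb
  refine ⟨m, hm, ?_⟩
  have h3 := men_torsion _ _ _ _ hS m hdvd
  have h4 : K1.cls V = K1.unit δ + K1.mk (sl2 _ _ _ _ hS) := by
    rw [← hD, ← K1.cls_mk, ← K1.cls_mul, ← hVD]
  rw [h4, smul_add, h3, add_zero]

/-- Reduction of the size. -/
theorem red_succ [Module.Free ℤ A] [Module.Finite ℤ A] {n : ℕ}
    (U : (Matrix (Fin (n + 3)) (Fin (n + 3)) A)ˣ) :
    ∃ V : (Matrix (Fin (n + 2)) (Fin (n + 2)) A)ˣ, K1.mk U = K1.mk V ∧ detU U = detU V := by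
  obtain ⟨V, hV1, hV2, hV3⟩ := red_fin1 U
  let π := Ideal.Quotient.mk (Ideal.span {V.val 0 0})
  have hπ : π (V.val 0 0) = 0 :=
    Ideal.Quotient.eq_zero_iff_mem.2 (Ideal.mem_span_singleton_self _)
  obtain ⟨t, ht⟩ := sr_row (fun j : Fin (n + 2) => π (V.val 0 j.succ))
    (fun j => π (V.inv j.succ 0)) (by
    have h := red_row V 0
    rw [Fin.sum_univ_succ] at h
    rw [← map_one π, ← h, map_add, map_mul, hπ, mul_zero, zero_add, map_sum]
    exact Finset.sum_congr rfl fun j _ => (map_mul π _ _).symm)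
  choose s hs using fun i => Ideal.Quotient.mk_surjective (t i)
  obtain ⟨W, hW1, hW2, hW3⟩ := red_op V (fun j => j ≠ 1)
    (fun i j => if j = 1 then (Fin.cases 0 (Fin.cases 0 s) i : A) else 0) (by
      intro i j h
      by_cases hj : j = 1
      · have hi : i = 1 := by
          by_contra hi
          exact h ⟨hi, fun h' => h' hj⟩
        rw [if_pos hj, hi]
        rfl
      · rw [if_neg hj])
  have h0 : W.val 0 0 = V.val 0 0 := by
    rw [hW3]
    simp
  have h1 : W.val 0 1 = V.val 0 1 + ∑ i, s i * V.val 0 i.succ.succ := by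
    have e1 : ∑ i, s i * V.val 0 i.succ.succ =
        V.val 0 0 * 0 + (V.val 0 (Fin.succ 0) * 0 + ∑ i, V.val 0 i.succ.succ * s i) := by
      rw [mul_zero, mul_zero, zero_add, zero_add]
      exact Finset.sum_congr rfl fun i _ => mul_comm _ _
    rw [hW3, Fin.sum_univ_succ, Fin.sum_univ_succ, e1]
    rfl
  have h2 : IsUnit (π (W.val 0 1)) := by
    have e : π (W.val 0 1) =
        π (V.val 0 (Fin.succ 0)) + ∑ i, t i * π (V.val 0 i.succ.succ) := by
      rw [h1, map_add, map_sum]
      refine congrArg₂ (· + ·) rfl (Finset.sum_congr rfl fun i _ => ?_)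
      rw [map_mul, ← hs]
    rw [e]
    exact ht
  obtain ⟨b, hb⟩ := h2.exists_right_inv
  obtain ⟨b, rfl⟩ := Ideal.Quotient.mk_surjective b
  rw [← map_mul, ← map_one π, Ideal.Quotient.eq, Ideal.mem_span_singleton] at hb
  obtain ⟨z, hz⟩ := hb
  rw [← h0] at hz
  obtain ⟨c, hc⟩ : ∃ c : Fin (n + 3), c = (0 : Fin (n + 1)).succ.succ := ⟨_, rfl⟩
  have hc0 : c ≠ 0 := by rw [hc]; exact Fin.succ_ne_zero _
  have hc1 : c ≠ 1 := by
    rw [hc]
    exact (Fin.succ_injective _).ne (Fin.succ_ne_zero _)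
  obtain ⟨Z, hZ1, hZ2, hZ3⟩ := red_op W (fun j => j ≠ c)
    (fun i j => if j = c then (if i = 0 then (1 - W.val 0 c) * (-z) else
      if i = 1 then (1 - W.val 0 c) * b else 0) else 0) (by
      intro i j h
      by_cases hj : j = c
      · have hi : i = c := by
          by_contra hi
          exact h ⟨hi, fun h' => h' hj⟩
        rw [if_pos hj, hi, if_neg hc0, if_neg hc1]
      · rw [if_neg hj])
  have h4 : Z.val 0 c = 1 := by
    rw [hZ3, Fin.sum_univ_succ, Fin.sum_univ_succ, Finset.sum_eq_zero]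
    · have e1 : ((0 : Fin (n + 2)).succ : Fin (n + 3)) = 1 := rfl
      rw [e1, if_pos rfl, if_pos rfl, if_pos rfl, if_neg, if_pos rfl]
      · linear_combination (1 - W.val 0 c) * hz
      · intro h
        have := congrArg Fin.val h
        simp at this
    · intro i _
      have e1 : (i.succ.succ : Fin (n + 3)) ≠ 0 := Fin.succ_ne_zero _
      have e2 : (i.succ.succ : Fin (n + 3)) ≠ 1 :=
        (Fin.succ_injective _).ne (Fin.succ_ne_zero _)
      rw [if_neg e1, if_neg e2]
      simp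
  obtain ⟨Y, hY1, hY2⟩ := red_one Z c hc0 h4
  refine ⟨Y, ?_, ?_⟩
  · rw [← hY1, ← K1.cls_mk, ← K1.cls_mk, hZ1, hW1, hV1]
  · rw [← hY2, hZ2, hW2, hV2]

theorem det_torsion [Module.Free ℤ A] [Module.Finite ℤ A] {n : ℕ}
    (U : (Matrix (Fin n) (Fin n) A)ˣ) :
    ∃ m : ℕ, 0 < m ∧ m • K1.mk U = m • K1.unit (detU U) := by
  have hu1 : K1.unit (1 : Aˣ) = 0 := by
    have h := K1.unit_mul (1 : Aˣ) 1
    rw [one_mul] at h
    exact left_eq_add.1 h
  match n, U with
  | 0, U =>
    refine ⟨1, one_pos, ?_⟩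
    have h1 : U = 1 := Units.ext (Subsingleton.elim _ _)
    rw [h1, map_one, hu1, ← K1.cls_mk, K1.cls_one]
  | 1, U =>
    refine ⟨1, one_pos, ?_⟩
    rw [K1.unit]
    congr 2
    apply Units.ext
    refine Matrix.ext fun i j => ?_
    change U.val i j = (Matrix.scalar (Fin 1)) U.val.det i j
    rw [Matrix.det_fin_one, Matrix.scalar_apply, Subsingleton.elim i 0, Subsingleton.elim j 0,
      Matrix.diagonal_apply_eq]
  | 2, U => exact red_two U
  | (n + 3), U =>
    obtain ⟨V, hV1, hV2⟩ := red_succ U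
    rw [hV1, hV2]
    exact det_torsion V

end Pool.Agent.H95.WH

end
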