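import Pool.Agent.H13.TFQ.M27
import Pool.Agent.H13.TFQ.M31
import Pool.Agent.H13.TFQ.M37
import Pool.Agent.H13.TFQ.M43
import Pool.Agent.H13.TFQ.M52

/-! The parts of this file: H71.WH.Prim2, H71.WH.Main, H71.FQ.Main, H95.WH.Semi, H71.DO.Units. -/

section

/-!
# Decomposition into primitive classes
-/

set_option autoImplicit false
set_option linter.unusedSectionVars false
set_option linter.unusedSimpArgs false

open Matrix
open scoped Classical

universe u v w

namespace Pool.Agent.H71.WH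

theorem unitsMap_comp {A : Type u} {B : Type v} {C : Type w} [Group A] [Group B] [Group C]
    (φ : A →* B) (ψ : B →* C) (x : (MonoidAlgebra ℤ A)ˣ) :
    unitsMap ψ (unitsMap φ x) = unitsMap (ψ.comp φ) x := by
  have h : ((MonoidAlgebra.mapDomainRingHom ℤ ψ).comp (MonoidAlgebra.mapDomainRingHom ℤ φ))
      (x : MonoidAlgebra ℤ A) = MonoidAlgebra.mapDomainRingHom ℤ (ψ.comp φ)
      (x : MonoidAlgebra ℤ A) := by
    rw [MonoidAlgebra.mapDomainRingHom_comp]
  exact Units.ext h

section

variable {G : Type v} [Group G]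

/-- the range of a homomorphism from a finite cyclic group -/
def rangeSub {H : Type w} [Group H] [Finite H] [IsCyclic H] (ι : H →* G) : CycSub G :=
  ⟨ι.range, Set.finite_range ι, isCyclic_of_surjective ι.rangeRestrict ι.rangeRestrict_surjective⟩

/-- `ι` as a homomorphism onto its range -/
def toRange {H : Type w} [Group H] [Finite H] [IsCyclic H] (ι : H →* G) : H →* (rangeSub ι).1 :=
  ι.rangeRestrict

/-- The class of a unit of `ℤ[H]` for a homomorphism from a finite cyclic group `H` to `G`. -/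
noncomputable def clh {H : Type w} [Group H] [Finite H] [IsCyclic H] (ι : H →* G)
    (x : (MonoidAlgebra ℤ H)ˣ) : ColimU G := cl (rangeSub ι) (unitsMap (toRange ι) x)

theorem clh_map {H : Type w} {H' : Type u} [Group H] [Finite H] [IsCyclic H] [Group H']
    [Finite H'] [IsCyclic H'] (ι : H →* G) (ι' : H' →* G) (φ : H →* H')
    (h : ∀ a, ι' (φ a) = ι a) (x : (MonoidAlgebra ℤ H)ˣ) :
    clh ι' (unitsMap φ x) = clh ι x := by
  have hr : ∀ y ∈ (rangeSub ι).1, (1 : G) * y * 1⁻¹ ∈ (rangeSub ι').1 := by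
    rintro y ⟨a, rfl⟩
    refine ⟨φ a, ?_⟩
    rw [h, one_mul, inv_one, mul_one]
  have h1 := cl_conj (rangeSub ι) (rangeSub ι') 1 hr (unitsMap (toRange ι) x)
  refine Eq.trans ?_ h1
  have h2 : (toRange ι').comp φ =
      (conjHom 1 (rangeSub ι).1 (rangeSub ι').1 hr).comp (toRange ι) := by
    apply MonoidHom.ext
    intro a
    apply Subtype.ext
    change ι' (φ a) = 1 * ι a * 1⁻¹
    rw [h, one_mul, inv_one, mul_one]
  rw [clh, unitsMap_comp, unitsMap_comp, h2]

theorem clh_subtype (C : CycSub G) [Finite C.1] [IsCyclic C.1] (x : (MonoidAlgebra ℤ C.1)ˣ) :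
    clh C.1.subtype x = cl C x := by
  have hr : ∀ y ∈ C.1, (1 : G) * y * 1⁻¹ ∈ (rangeSub C.1.subtype).1 := by
    intro y hy
    refine ⟨⟨y, hy⟩, ?_⟩
    rw [one_mul, inv_one, mul_one]
    rfl
  have h2 : toRange C.1.subtype = conjHom 1 C.1 (rangeSub C.1.subtype).1 hr := by
    apply MonoidHom.ext
    intro a
    apply Subtype.ext
    change (a : G) = 1 * (a : G) * 1⁻¹
    rw [one_mul, inv_one, mul_one]
  have h3 := cl_conj C (rangeSub C.1.subtype) 1 hr x
  rw [← h2] at h3
  exact h3

theorem isPrim_map {D : Type u} {D' : Type w} [Group D] [Finite D] [Group D'] [Finite D']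
    [IsCyclic D'] (φ : D ≃* D') {y : (MonoidAlgebra ℤ D)ˣ} (hy : IsPrim y) :
    IsPrim (unitsMap φ.toMonoidHom y) := by
  intro c hc
  have h1 : LU (dlt c) (unitsMap φ.toMonoidHom y) = LU (fun a : D => dlt c (φ.toMonoidHom a)) y :=
    LU_map φ.toMonoidHom (dlt c) (fun a b => by rw [cyc_comm]) y
  have h2 : (fun a : D => dlt c (φ.toMonoidHom a)) = dlt (φ.symm c) := by
    funext a
    unfold dlt
    congr 1
    have : (φ.toMonoidHom a = c) = (a = φ.symm c) := by
      rw [eq_iff_iff]
      constructor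
      · rintro rfl
        exact (φ.symm_apply_apply a).symm
      · rintro rfl
        exact φ.apply_symm_apply c
    rw [this]
  rw [h1, h2]
  apply hy
  intro htop
  apply hc
  rw [eq_top_iff]
  intro d _
  have h2 : φ.symm d ∈ Subgroup.zpowers (φ.symm c) := by rw [htop]; trivial
  obtain ⟨m, hm⟩ := Subgroup.mem_zpowers_iff.1 h2
  refine Subgroup.mem_zpowers_iff.2 ⟨m, ?_⟩
  apply φ.symm.injective
  rw [map_zpow, hm]

/-- The classes in the colimit represented by primitive units. -/
def PrimSet (G : Type v) [Group G] : Set (ColimU G) :=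
  {z | ∃ (D : CycSub G) (y : (MonoidAlgebra ℤ D.1)ˣ), IsPrim y ∧ z = cl D y}

end

end Pool.Agent.H71.WH

end

section

/-!
# Rational injectivity of the assembly map to the Whitehead group
-/

set_option autoImplicit false
set_option linter.unusedSectionVars false
set_option linter.unusedSimpArgs false

open Matrix
open scoped Classical

universe u v w

namespace Pool.Agent.H71.WH

section Aux

variable {H : Type w} [Group H] [Finite H]

/-- Units with vanishing logarithm have finite order. -/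
theorem detect {x : (MonoidAlgebra ℤ H)ˣ}
    (h : ∀ c, LU (dlt c) x = 0) : x ^ N8 H = 1 := by
  apply Units.ext
  rw [Units.val_one]
  apply eq_one_of_L (C8_pow_N8 x)
  intro c
  have h1 := h c
  rw [LU] at h1
  rcases mul_eq_zero.1 h1 with h2 | h2
  · exact absurd (inv_eq_zero.1 h2) (by exact_mod_cast N8_ne_zero (C := H))
  · exact h2

theorem LU_one (hc : ∀ a b : H, a * b = b * a) (f : H → ℤ) :
    LU f (1 : (MonoidAlgebra ℤ H)ˣ) = 0 := by
  have := LU_mul hc f 1 1
  rw [mul_one] at this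
  exact add_eq_left.1 this.symm

theorem LU_inv (hc : ∀ a b : H, a * b = b * a) (f : H → ℤ) (x : (MonoidAlgebra ℤ H)ˣ) :
    LU f x⁻¹ = -LU f x := by
  have h := LU_mul hc f x⁻¹ x
  rw [inv_mul_cancel, LU_one hc] at h
  exact eq_neg_of_add_eq_zero_left h.symm

theorem LU_list (hc : ∀ a b : H, a * b = b * a) (f : H → ℤ) (l : List (MonoidAlgebra ℤ H)ˣ) :
    LU f l.prod = (l.map (LU f)).sum := by
  induction l with
  | nil => exact LU_one hc f
  | cons a l ih => rw [List.prod_cons, LU_mul hc, ih, List.map_cons, List.sum_cons]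

end Aux

variable {G : Type v} [Group G]

theorem isPrim_one {D : Type w} [Group D] [Finite D] [IsCyclic D] :
    IsPrim (1 : (MonoidAlgebra ℤ D)ˣ) := fun c _ => LU_one cyc_comm (dlt c)

theorem isPrim_mul {D : Type w} [Group D] [Finite D] [IsCyclic D] {x y : (MonoidAlgebra ℤ D)ˣ}
    (hx : IsPrim x) (hy : IsPrim y) : IsPrim (x * y) := by
  intro c hc
  rw [LU_mul cyc_comm, hx c hc, hy c hc, add_zero]

theorem isPrim_inv {D : Type w} [Group D] [Finite D] [IsCyclic D] {x : (MonoidAlgebra ℤ D)ˣ}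
    (hx : IsPrim x) : IsPrim x⁻¹ := by
  intro c hc
  rw [LU_inv cyc_comm, hx c hc, neg_zero]

theorem primSet_neg {z : ColimU G} (hz : z ∈ PrimSet G) : -z ∈ PrimSet G := by
  obtain ⟨D, y, hy, rfl⟩ := hz
  have := D.2.1
  have := D.2.2
  exact ⟨D, y⁻¹, isPrim_inv hy, (cl_inv D y).symm⟩

/-- the indicator function of the conjugacy class of `c` -/
noncomputable def cf (c h : G) : ℤ := if IsConj c h then 1 else 0

theorem cf_comm (c x y : G) : cf c (x * y) = cf c (y * x) := by
  have h : IsConj (x * y) (y * x) := isConj_iff.2 ⟨x⁻¹, by group⟩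
  unfold cf
  by_cases h1 : IsConj c (x * y)
  · rw [if_pos h1, if_pos (h1.trans h)]
  · rw [if_neg h1, if_neg (fun h2 => h1 (h2.trans h.symm))]

/-- the class function of `c` -/
noncomputable def cF (c : G) : CF G := ⟨cf c, cf_comm c⟩

theorem LUc_cF (c : G) (D : CycSub G) [Fintype D.1] (y : (MonoidAlgebra ℤ D.1)ˣ) :
    LUc (cF c) (cl D y) =
      ∑ d ∈ Finset.univ.filter (fun d : D.1 => IsConj c (d : G)), LU (dlt d) y := by
  rw [LUc_cl, LU_sum, Finset.sum_filter]
  apply Finset.sum_congr rfl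
  intro d _
  change ((cf c (d : G) : ℤ) : ℚ_[2]) * _ = _
  unfold cf
  split_ifs
  · rw [Int.cast_one, one_mul]
  · rw [Int.cast_zero, zero_mul]

/-- A class from a cyclic subgroup `D₀`. -/
def Over (D₀ : CycSub G) (z : ColimU G) : Prop :=
  ∃ y : (MonoidAlgebra ℤ D₀.1)ˣ, IsPrim y ∧ z = cl D₀ y

theorem over_of_conj (D₀ D : CycSub G) (c : D₀.1) (d : D.1)
    (hc : Subgroup.zpowers c = ⊤) (hd : Subgroup.zpowers d = ⊤) (h : IsConj (c : G) (d : G))
    (y : (MonoidAlgebra ℤ D.1)ˣ) (hy : IsPrim y) : Over D₀ (cl D y) := by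
  obtain ⟨g, hg⟩ := isConj_iff.1 h
  have hg' : g⁻¹ * (d : G) * g⁻¹⁻¹ = c := by rw [← hg]; group
  have h1 : ∀ x ∈ D₀.1, g * x * g⁻¹ ∈ D.1 := by
    intro x hx
    have : (⟨x, hx⟩ : D₀.1) ∈ Subgroup.zpowers c := by rw [hc]; trivial
    obtain ⟨m, hm⟩ := Subgroup.mem_zpowers_iff.1 this
    have hm' : (c : G) ^ m = x := by
      rw [← Subgroup.coe_zpow, hm]
    rw [← hm', ← conj_zpow, hg]
    exact D.1.zpow_mem d.2 m
  have h2 : ∀ x ∈ D.1, g⁻¹ * x * g⁻¹⁻¹ ∈ D₀.1 := by
    intro x hx
    have : (⟨x, hx⟩ : D.1) ∈ Subgroup.zpowers d := by rw [hd]; trivial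
    obtain ⟨m, hm⟩ := Subgroup.mem_zpowers_iff.1 this
    have hm' : (d : G) ^ m = x := by
      rw [← Subgroup.coe_zpow, hm]
    rw [← hm', ← conj_zpow, hg']
    exact D₀.1.zpow_mem c.2 m
  let e : D.1 ≃* D₀.1 :=
    { toFun := conjHom g⁻¹ D.1 D₀.1 h2
      invFun := conjHom g D₀.1 D.1 h1
      left_inv := by
        intro x
        apply Subtype.ext
        change g * (g⁻¹ * (x : G) * g⁻¹⁻¹) * g⁻¹ = x
        group
      right_inv := by
        intro x
        apply Subtype.ext
        change g⁻¹ * (g * (x : G) * g⁻¹) * g⁻¹⁻¹ = x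
        group
      map_mul' := map_mul _ }
  have := D.2.1
  have := D₀.2.1
  have := D₀.2.2
  refine ⟨unitsMap e.toMonoidHom y, isPrim_map e hy, ?_⟩
  exact (cl_conj D D₀ g⁻¹ h2 y).symm

theorem LUc_cF_not_over (D₀ D : CycSub G) (c : D₀.1) (hc : Subgroup.zpowers c = ⊤)
    (y : (MonoidAlgebra ℤ D.1)ˣ) (hy : IsPrim y) (h : ¬ Over D₀ (cl D y)) :
    LUc (cF (c : G)) (cl D y) = 0 := by
  have := D.2.1
  have : Fintype D.1 := Fintype.ofFinite D.1
  rw [LUc_cF]
  apply Finset.sum_eq_zero
  intro d hd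
  apply hy
  intro hd'
  exact h (over_of_conj D₀ D c d hc hd' (Finset.mem_filter.1 hd).2 y hy)

theorem split_list (D₀ : CycSub G) (l : List (ColimU G)) (hl : ∀ z ∈ l, z ∈ PrimSet G) :
    ∃ y : (MonoidAlgebra ℤ D₀.1)ˣ, IsPrim y ∧ ∃ l' : List (ColimU G),
      (∀ z ∈ l', z ∈ PrimSet G ∧ ¬ Over D₀ z) ∧ l'.length ≤ l.length ∧
        l.sum = cl D₀ y + l'.sum := by
  have := D₀.2.1
  have := D₀.2.2
  induction l with
  | nil => exact ⟨1, isPrim_one, [], by simp, le_rfl, by rw [cl_one, zero_add]⟩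
  | cons z l ih =>
    obtain ⟨y, hy, l', h1, h2, h3⟩ := ih (fun z hz => hl z (List.mem_cons_of_mem _ hz))
    by_cases hz : Over D₀ z
    · obtain ⟨y', hy', rfl⟩ := hz
      refine ⟨y' * y, isPrim_mul hy' hy, l', h1, h2.trans (by simp), ?_⟩
      rw [List.sum_cons, h3, cl_mul, add_assoc]
    · refine ⟨y, hy, z :: l', ?_, by simpa using h2, ?_⟩
      · intro z' hz'
        rcases List.mem_cons.1 hz' with rfl | hz'
        · exact ⟨hl _ List.mem_cons_self, hz⟩
        · exact h1 _ hz'
      · rw [List.sum_cons, List.sum_cons, h3]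
        abel

theorem mulAut_finite (D : Type w) [Group D] [Finite D] : Finite (MulAut D) :=
  Finite.of_injective (fun f : MulAut D => (f : D → D)) (fun _ _ h => MulEquiv.ext (congrFun h))

theorem LU_aut {D : Type w} [Group D] [Finite D] [IsCyclic D] (w : MulAut D) (c : D)
    (y : (MonoidAlgebra ℤ D)ˣ) :
    LU (dlt c) (unitsMap w.toMonoidHom y) = LU (dlt (w.symm c)) y := by
  have h1 : LU (dlt c) (unitsMap w.toMonoidHom y) = LU (fun a : D => dlt c (w.toMonoidHom a)) y :=
    LU_map w.toMonoidHom (dlt c) (fun a b => by rw [cyc_comm]) y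
  have h2 : (fun a : D => dlt c (w.toMonoidHom a)) = dlt (w.symm c) := by
    funext a
    unfold dlt
    congr 1
    have : (w.toMonoidHom a = c) = (a = w.symm c) := by
      rw [eq_iff_iff]
      constructor
      · rintro rfl
        exact (w.symm_apply_apply a).symm
      · rintro rfl
        exact w.apply_symm_apply c
    rw [this]
  rw [h1, h2]

/-- Automorphisms of `D₀` induced by conjugations of `G`. -/
def IsInd (D₀ : Subgroup G) (w : MulAut D₀) : Prop := ∃ g : G, ∀ d : D₀, (w d : G) = g * d * g⁻¹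

theorem zpowers_aut {D : Type w} [Group D] (w : MulAut D) (c : D) (h : Subgroup.zpowers c ≠ ⊤) :
    Subgroup.zpowers (w c) ≠ ⊤ := by
  intro h'
  apply h
  rw [eq_top_iff]
  intro d _
  have h2 : w d ∈ Subgroup.zpowers (w c) := by rw [h']; trivial
  obtain ⟨m, hm⟩ := Subgroup.mem_zpowers_iff.1 h2
  refine Subgroup.mem_zpowers_iff.2 ⟨m, ?_⟩
  apply w.injective
  rw [map_zpow, hm]

theorem sum_ind {M : Type*} [AddCommMonoid M] (D₀ : Subgroup G) [Fintype D₀] [Fintype (MulAut D₀)]
    (c : D₀) (hc : Subgroup.zpowers c = ⊤) (f : D₀ → M) :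
    ∑ w ∈ Finset.univ.filter (fun w : MulAut D₀ => IsInd D₀ w), f (w.symm c) =
      ∑ d ∈ Finset.univ.filter (fun d : D₀ => IsConj (c : G) (d : G)), f d := by
  apply Finset.sum_bij (fun w _ => w.symm c)
  · intro w hw
    obtain ⟨g, hg⟩ := (Finset.mem_filter.1 hw).2
    rw [Finset.mem_filter]
    refine ⟨Finset.mem_univ _, ?_⟩
    have := hg (w.symm c)
    rw [w.apply_symm_apply] at this
    rw [isConj_comm]
    exact isConj_iff.2 ⟨g, this.symm⟩
  · intro w1 _ w2 _ h
    have h' : w1.symm = w2.symm := by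
      apply MulEquiv.ext
      intro d
      have : d ∈ Subgroup.zpowers c := by rw [hc]; trivial
      obtain ⟨m, rfl⟩ := Subgroup.mem_zpowers_iff.1 this
      rw [map_zpow, map_zpow]
      exact congrArg (· ^ m) h
    have h2 := congrArg MulEquiv.symm h'
    rwa [MulEquiv.symm_symm, MulEquiv.symm_symm] at h2
  · intro d hd
    obtain ⟨g, hg⟩ := isConj_iff.1 (Finset.mem_filter.1 hd).2
    have h1 : ∀ x ∈ D₀, g * x * g⁻¹ ∈ D₀ := by
      intro x hx
      have : (⟨x, hx⟩ : D₀) ∈ Subgroup.zpowers c := by rw [hc]; trivial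
      obtain ⟨m, hm⟩ := Subgroup.mem_zpowers_iff.1 this
      have hm' : (c : G) ^ m = x := by
        rw [← Subgroup.coe_zpow, hm]
      rw [← hm', ← conj_zpow, hg]
      exact D₀.zpow_mem d.2 m
    have hinj : Function.Injective (conjHom g D₀ D₀ h1) := by
      intro a b hab
      have := congrArg (fun x : D₀ => (x : G)) hab
      change g * (a : G) * g⁻¹ = g * (b : G) * g⁻¹ at this
      exact Subtype.ext (mul_left_cancel (mul_right_cancel this))
    let e : MulAut D₀ := MulEquiv.ofBijective (conjHom g D₀ D₀ h1)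
      (Finite.injective_iff_bijective.1 hinj)
    have he : ∀ x : D₀, ((e x : D₀) : G) = g * x * g⁻¹ := fun x => rfl
    refine ⟨e.symm, ?_, ?_⟩
    · rw [Finset.mem_filter]
      refine ⟨Finset.mem_univ _, g⁻¹, fun x => ?_⟩
      have := he (e.symm x)
      rw [e.apply_symm_apply] at this
      rw [this]
      group
    · rw [MulEquiv.symm_symm]
      apply Subtype.ext
      rw [he, hg]
  · intro w _
    rfl

/-- If the functionals of the conjugacy classes of the generators vanish on a primitive class of a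
cyclic subgroup, then its class in the colimit is torsion. -/
theorem torsion_of_vanish (D₀ : CycSub G) (y : (MonoidAlgebra ℤ D₀.1)ˣ) (hy : IsPrim y)
    (h : ∀ c : D₀.1, Subgroup.zpowers c = ⊤ → LUc (cF (c : G)) (cl D₀ y) = 0) :
    ∃ m : ℤ, m ≠ 0 ∧ m • cl D₀ y = 0 := by
  have := D₀.2.1
  have := D₀.2.2
  have : Fintype D₀.1 := Fintype.ofFinite D₀.1
  have := mulAut_finite D₀.1
  have : Fintype (MulAut D₀.1) := Fintype.ofFinite _
  let W := Finset.univ.filter (fun w : MulAut D₀.1 => IsInd D₀.1 w)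
  let F : MulAut D₀.1 → (MonoidAlgebra ℤ D₀.1)ˣ := fun w => unitsMap w.toMonoidHom y
  have h0 : (W.toList.map F).prod ^ N8 D₀.1 = 1 := by
    apply detect
    intro c
    rw [LU_list cyc_comm, List.map_map, Finset.sum_map_toList]
    have e1 : ∀ w : MulAut D₀.1, (LU (dlt c) ∘ F) w = LU (dlt (w.symm c)) y :=
      fun w => LU_aut w c y
    rw [Finset.sum_congr rfl (fun w _ => e1 w)]
    by_cases hc : Subgroup.zpowers c = ⊤
    · have e2 := h c hc
      rw [LUc_cF] at e2
      rw [← e2]
      exact sum_ind D₀.1 c hc (fun d => LU (dlt d) y)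
    · apply Finset.sum_eq_zero
      intro w _
      exact hy _ (zpowers_aut w.symm c hc)
  have h1 : ∀ w ∈ W, (cl D₀ ∘ F) w = cl D₀ y := by
    intro w hw
    obtain ⟨g, hg⟩ := (Finset.mem_filter.1 hw).2
    have hr : ∀ x ∈ D₀.1, g * x * g⁻¹ ∈ D₀.1 := by
      intro x hx
      rw [← hg ⟨x, hx⟩]
      exact (w ⟨x, hx⟩).2
    have e1 : w.toMonoidHom = conjHom g D₀.1 D₀.1 hr := by
      apply MonoidHom.ext
      intro a
      exact Subtype.ext (hg a)
    change cl D₀ (unitsMap w.toMonoidHom y) = cl D₀ y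
    rw [e1]
    exact cl_conj D₀ D₀ g hr y
  have h2 : N8 D₀.1 • (W.card • cl D₀ y) = 0 := by
    have e1 := congrArg (cl D₀) h0
    rw [cl_pow, cl_one, cl_list, List.map_map, Finset.sum_map_toList,
      Finset.sum_congr rfl h1, Finset.sum_const] at e1
    exact e1
  refine ⟨(N8 D₀.1 * W.card : ℕ), ?_, ?_⟩
  · have : (1 : MulAut D₀.1) ∈ W := by
      rw [Finset.mem_filter]
      exact ⟨Finset.mem_univ _, 1, fun d => by simp⟩
    have h3 := (Finset.card_pos.2 ⟨_, this⟩).ne'
    have h4 : N8 D₀.1 * W.card ≠ 0 := Nat.mul_ne_zero N8_ne_zero h3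
    exact_mod_cast h4
  · rw [natCast_zsmul, mul_smul, h2]

/-- A sum of primitive classes with vanishing functionals is torsion. -/
theorem torsion_list (N : ℕ) : ∀ l : List (ColimU G), l.length = N →
    (∀ z ∈ l, z ∈ PrimSet G) → (∀ f : CF G, LUc f l.sum = 0) →
    ∃ m : ℤ, m ≠ 0 ∧ m • l.sum = 0 := by
  induction N using Nat.strong_induction_on with
  | _ N ih =>
    intro l hN hl h
    rcases l with _ | ⟨z, l⟩
    · exact ⟨1, one_ne_zero, by simp⟩
    obtain ⟨D₀, y₀, hy₀, rfl⟩ := hl z List.mem_cons_self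
    have := D₀.2.1
    have := D₀.2.2
    obtain ⟨y₁, hy₁, l', h1, h2, h3⟩ := split_list D₀ l
      (fun z hz => hl z (List.mem_cons_of_mem _ hz))
    have e1 : (cl D₀ y₀ :: l).sum = cl D₀ (y₀ * y₁) + l'.sum := by
      rw [List.sum_cons, h3, cl_mul, add_assoc]
    have hy : IsPrim (y₀ * y₁) := isPrim_mul hy₀ hy₁
    rw [e1] at h ⊢
    have hvan : ∀ c : D₀.1, Subgroup.zpowers c = ⊤ → LUc (cF (c : G)) l'.sum = 0 := by
      intro c hc
      rw [map_list_sum]
      apply List.sum_eq_zero
      intro x hx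
      obtain ⟨z, hz, rfl⟩ := List.mem_map.1 hx
      obtain ⟨⟨D, y, hy, rfl⟩, hz2⟩ := h1 z hz
      exact LUc_cF_not_over D₀ D c hc y hy hz2
    obtain ⟨m, hm, hm'⟩ := torsion_of_vanish D₀ (y₀ * y₁) hy (by
      intro c hc
      have e2 := h (cF (c : G))
      rw [map_add, hvan c hc, add_zero] at e2
      exact e2)
    have h4 : ∀ f : CF G, LUc f l'.sum = 0 := by
      intro f
      have e2 := h f
      have e3 : LUc f (cl D₀ (y₀ * y₁)) = 0 := by
        have e4 := congrArg (LUc f) hm'
        rw [map_zsmul, map_zero, zsmul_eq_mul] at e4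
        rcases mul_eq_zero.1 e4 with e5 | e5
        · exact absurd (by exact_mod_cast e5) hm
        · exact e5
      rw [map_add, e3, zero_add] at e2
      exact e2
    obtain ⟨m', hm'', hm'''⟩ := ih l'.length (by rw [← hN, List.length_cons]; omega) l' rfl
      (fun z hz => (h1 z hz).1) h4
    refine ⟨m * m', mul_ne_zero hm hm'', ?_⟩
    rw [smul_add, mul_smul m m' l'.sum, hm''', smul_zero, add_zero, mul_comm, mul_smul, hm',
      smul_zero]

/-- Elements of the subgroup generated by the primitive classes are sums of primitive classes. -/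
theorem exists_list {z : ColimU G} (hz : z ∈ AddSubgroup.closure (PrimSet G)) :
    ∃ l : List (ColimU G), (∀ z ∈ l, z ∈ PrimSet G) ∧ l.sum = z := by
  induction hz using AddSubgroup.closure_induction with
  | mem x hx => exact ⟨[x], by simpa using hx, by simp⟩
  | zero => exact ⟨[], by simp, rfl⟩
  | add x y _ _ hx hy =>
    obtain ⟨l, h1, rfl⟩ := hx
    obtain ⟨l', h1', rfl⟩ := hy
    refine ⟨l ++ l', ?_, List.sum_append⟩
    intro z hz
    rcases List.mem_append.1 hz with h | h
    · exact h1 z h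
    · exact h1' z h
  | neg x _ hx =>
    obtain ⟨l, h1, rfl⟩ := hx
    refine ⟨l.map (- ·), ?_, ?_⟩
    · intro z hz
      obtain ⟨y, hy, rfl⟩ := List.mem_map.1 hz
      exact primSet_neg (h1 y hy)
    · have hneg : ∀ l : List (ColimU G), (l.map (- ·)).sum = - l.sum := by
        intro l
        induction l with
        | nil => simp
        | cons a l ih => rw [List.map_cons, List.sum_cons, List.sum_cons, ih, neg_add]
      exact hneg l

end Pool.Agent.H71.WH

end

section

/-!
# Rational injectivity of the assembly map for fields of positive characteristic, all degrees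
-/

set_option autoImplicit false

open Matrix

universe t u v w

namespace Pool.Agent.H71.FQ

open Pool.Agent.H71.FJ (K0)
open Pool.Agent.H95.WH (FamSub conjHom FinSub)

theorem ratInj_of {A : Type u} [AddCommGroup A] {B : Type v} [AddCommGroup B]
    (f : A →+ B) (h : ∀ (z : A) (M : ℤ), M ≠ 0 → M • f z = 0 → ∃ m : ℤ, m ≠ 0 ∧ m • z = 0) :
    RatInj f := by
  rw [RatInj, injective_iff_map_eq_zero]
  intro y hy
  obtain ⟨⟨z, m⟩, hz⟩ := IsLocalizedModule.surj (nonZeroDivisors ℤ)
    (TensorProduct.mk ℤ ℚ A 1) y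
  have h1 : TensorProduct.mk ℤ ℚ B 1 (f z) = 0 := by
    have h2 : LinearMap.lTensor ℚ f.toIntLinearMap (TensorProduct.mk ℤ ℚ A 1 z) = 0 := by
      have h3 := congrArg (LinearMap.lTensor ℚ f.toIntLinearMap) hz
      rw [Submonoid.smul_def, map_smul, hy, smul_zero] at h3
      exact h3.symm
    exact h2
  obtain ⟨M, hM⟩ := (IsLocalizedModule.eq_zero_iff (nonZeroDivisors ℤ)
    (TensorProduct.mk ℤ ℚ B 1)).1 h1
  obtain ⟨m', hm', h4⟩ := h z M (nonZeroDivisors.coe_ne_zero M) hM
  have h5 : TensorProduct.mk ℤ ℚ A 1 z = 0 :=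
    (IsLocalizedModule.eq_zero_iff (nonZeroDivisors ℤ)
      (TensorProduct.mk ℤ ℚ A 1)).2 ⟨⟨m', mem_nonZeroDivisors_of_ne_zero hm'⟩, h4⟩
  have h6 : m • y = m • 0 := by rw [hz, h5, smul_zero]
  exact IsLocalizedModule.smul_injective (TensorProduct.mk ℤ ℚ A 1) m h6

section

end

end Pool.Agent.H71.FQ

end

section

/-!
# `K₁` of semilocal commutative rings

If `A` is a commutative ring with finitely many maximal ideals (for example a finite dimensional commutative
algebra over a field) then the class in `K₁(A)` of an invertible matrix is the class of its determinant.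

## Paper proofs

`sr_semi`: for every maximal ideal `M` put `s_M = 0` if `x ∉ M` and `s_M = 1` if `x ∈ M` (then `y ∉ M`, since
`u x + v y = 1`). The maximal ideals are pairwise coprime and finite in number, so by the Chinese remainder theorem
(`Ideal.exists_forall_sub_mem_ideal` or `Ideal.quotientInfRingEquivPiQuotient`) there is a `t` with
`t - s_M ∈ M` for all `M`. Then `x + t y` lies in no maximal ideal, so it is a unit
(`exists_max_ideal_of_mem_nonunits`).

`det_semi`: induction on the size `n`. `n = 0`: `U = 1`. `n = 1`: `U` is the scalar matrix of its determinant. Size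
`n + 2`: as in the proof of `sr_row` (`FinQ.lean`) the row `(U 0 j)_j` is unimodular (`red_row`), so there are
`t_i` with `U 0 0 + ∑ t_i U 0 (i + 1)` a unit `w`. `red_op` (column operations: the class and the determinant do not
change) gives the matrix with entry `(0, 0)` equal to `w`; another `red_op` (subtract multiples of column `0` from
the others) makes the rest of the row `0` zero. So we have a matrix `V` with first row `(w, 0, …, 0)`. Put
`W = V * diag(w⁻¹, 1, …, 1)`; its first row is `(1, 0, …, 0)` and `red_corner` and the induction hypothesis give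
`[W] = [det W]`. Finally `[diag(w, 1, …, 1)] = [w] = K1.unit w` (`K1.cls_reindex`, `K1.cls_stab`), and `det` is
multiplicative. (Alternatively: for `n ≥ 1` first make the entry `(0, 1)` equal to `1` by adding multiples of
column `0`, and use `red_one`: [U] = [V] with `V` of smaller size and the same determinant.)
-/

set_option autoImplicit false

open Matrix

universe u

namespace Pool.Agent.H95.WH

variable {A : Type u} [CommRing A]

theorem sr_semi [Finite (MaximalSpectrum A)] (x y u v : A) (h : u * x + v * y = 1) :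
    ∃ t : A, IsUnit (x + t * y) := by
  classical
  obtain ⟨t, ht⟩ := Ideal.exists_forall_sub_mem_ideal (ι := MaximalSpectrum A)
    (I := fun M => M.asIdeal) (fun M N hMN => MaximalSpectrum.isCoprime_of_ne hMN)
    (fun M => if x ∈ M.asIdeal then 1 else 0)
  refine ⟨t, ?_⟩
  by_contra hu
  obtain ⟨P, hP, hmem⟩ := exists_max_ideal_of_mem_nonunits hu
  have h1 : t - (if x ∈ P then 1 else 0) ∈ P := ht ⟨P, hP⟩
  by_cases hx : x ∈ P
  · rw [if_pos hx] at h1
    have h2 : t * y ∈ P := (Ideal.add_mem_iff_right P hx).1 hmem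
    have h3 : y ∈ P := by
      have h4 : y = t * y - (t - 1) * y := by ring
      rw [h4]
      exact P.sub_mem h2 (P.mul_mem_right _ h1)
    apply hP.ne_top
    rw [Ideal.eq_top_iff_one, ← h]
    exact P.add_mem (P.mul_mem_left _ hx) (P.mul_mem_left _ h3)
  · rw [if_neg hx, sub_zero] at h1
    exact hx ((Ideal.add_mem_iff_left P (P.mul_mem_right _ h1)).1 hmem)

private theorem semi_row [Finite (MaximalSpectrum A)] {n : ℕ} (x v : Fin (n + 1) → A)
    (h : ∑ i, v i * x i = 1) : ∃ t : Fin n → A, IsUnit (x 0 + ∑ i, t i * x i.succ) := by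
  rw [Fin.sum_univ_succ] at h
  obtain ⟨t, ht⟩ := sr_semi (x 0) (∑ i : Fin n, v i.succ * x i.succ) (v 0) 1
    (by rw [one_mul]; exact h)
  refine ⟨fun i => t * v i.succ, ?_⟩
  have e : (∑ i : Fin n, t * v i.succ * x i.succ) = t * ∑ i : Fin n, v i.succ * x i.succ := by
    rw [Finset.mul_sum]
    exact Finset.sum_congr rfl fun i _ => mul_assoc _ _ _
  rw [e]
  exact ht

private theorem semi_step [Finite (MaximalSpectrum A)] {n : ℕ}
    (U : (Matrix (Fin (n + 2)) (Fin (n + 2)) A)ˣ) :
    ∃ V : (Matrix (Fin (n + 1)) (Fin (n + 1)) A)ˣ, K1.mk U = K1.mk V ∧ detU U = detU V := by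
  obtain ⟨t, ht⟩ := semi_row (fun j => U.val 0 j) (fun j => U.inv j 0) (red_row U 0)
  obtain ⟨V, hV1, hV2, hV3⟩ := red_op U (fun j => j ≠ 0)
    (fun i j => if j = 0 then (Fin.cases 0 t i : A) else 0) (by
      intro i j h
      by_cases hj : j = 0
      · have hi : i = 0 := by
          by_contra hi
          exact h ⟨hi, fun h' => h' hj⟩
        simp [hi]
      · simp [hj])
  have h1 : V.val 0 0 = U.val 0 0 + ∑ i, t i * U.val 0 i.succ := by
    rw [hV3, Fin.sum_univ_succ]
    simp [mul_comm]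
  rw [← h1] at ht
  obtain ⟨w, hw⟩ := ht
  have h10 : (1 : Fin (n + 2)) ≠ 0 := by
    intro h
    have := congrArg Fin.val h
    simp at this
  obtain ⟨W, hW1, hW2, hW3⟩ := red_op V (fun i => i = 0)
    (fun i k => if i = 0 ∧ k = 1 then ((w⁻¹ : Aˣ) : A) * (1 - V.val 0 1) else 0) (by
      intro i k h'
      rw [if_neg]
      rintro ⟨hi, hk⟩
      exact h' ⟨hi, by rw [hk]; exact h10⟩)
  have hW : W.val 0 1 = 1 := by
    rw [hW3, Finset.sum_eq_single 0]
    · rw [if_pos ⟨rfl, rfl⟩, ← mul_assoc, ← hw, Units.mul_inv]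
      ring
    · intro i _ hi
      rw [if_neg (fun h => hi h.1), mul_zero]
    · intro hk
      exact absurd (Finset.mem_univ _) hk
  obtain ⟨Z, hZ1, hZ2⟩ := red_one W 1 h10 hW
  refine ⟨Z, ?_, ?_⟩
  · rw [← hZ1, ← K1.cls_mk, ← K1.cls_mk, hW1, hV1]
  · rw [← hZ2, hW2, hV2]

theorem det_semi [Finite (MaximalSpectrum A)] {n : ℕ} (U : (Matrix (Fin n) (Fin n) A)ˣ) :
    K1.mk U = K1.unit (detU U) := by
  have hu1 : K1.unit (1 : Aˣ) = 0 := by
    have h := K1.unit_mul (1 : Aˣ) 1
    rw [one_mul] at h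
    exact left_eq_add.1 h
  match n, U with
  | 0, U =>
    have h1 : U = 1 := Units.ext (Subsingleton.elim _ _)
    rw [h1, map_one, hu1, ← K1.cls_mk, K1.cls_one]
  | 1, U =>
    rw [K1.unit]
    congr 1
    apply Units.ext
    refine Matrix.ext fun i j => ?_
    change U.val i j = (Matrix.scalar (Fin 1)) U.val.det i j
    rw [Matrix.det_fin_one, Matrix.scalar_apply, Subsingleton.elim i 0, Subsingleton.elim j 0,
      Matrix.diagonal_apply_eq]
  | (n + 2), U =>
    obtain ⟨V, hV1, hV2⟩ := semi_step U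
    rw [hV1, hV2]
    exact det_semi V

end Pool.Agent.H95.WH

end

section

/-!
# The classes of rings
-/

set_option autoImplicit false
set_option linter.unusedSectionVars false

open Matrix

universe u v w

namespace Pool.Agent.H71.DO

open Pool.Agent.H95.WH (K1 K1.mk K1.unit K1.map K1.map_unit K1.map_map K1_map_conj FamSub conjHom K1.lift K1.lift_mk FinSub K1.hom_ext K1.unit_mul K1.mk_mul detU det_semi det_torsion GLAll K1Rel)

theorem K1_induction {A : Type u} [Ring A] {P : K1 A → Prop} (h0 : P 0)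
    (h1 : ∀ (n : ℕ) (U : (Matrix (Fin n) (Fin n) A)ˣ), P (K1.mk U))
    (h2 : ∀ a b, P a → P b → P (a + b)) (h3 : ∀ a, P a → P (-a)) (z : K1 A) : P z := by
  obtain ⟨y, rfl⟩ : ∃ y, QuotientAddGroup.mk' (K1Rel A) y = z := QuotientAddGroup.mk_surjective z
  induction y using FreeAbelianGroup.induction_on with
  | zero => rw [map_zero]; exact h0
  | of x => exact h1 x.1 x.2
  | neg x _ =>
    rw [map_neg]
    exact h3 _ (h1 x.1 x.2)
  | add x y hx hy => rw [map_add]; exact h2 _ _ hx hy

theorem K1_unit_one (A : Type u) [Ring A] : K1.unit (1 : Aˣ) = 0 := by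
  have h := K1.unit_mul (1 : Aˣ) 1
  rw [one_mul] at h
  exact left_eq_add.1 h

theorem K1_unit_inv {A : Type u} [Ring A] (u : Aˣ) : K1.unit u⁻¹ = -K1.unit u := by
  have h := K1.unit_mul u⁻¹ u
  rw [inv_mul_cancel, K1_unit_one] at h
  exact eq_neg_of_add_eq_zero_left h.symm

theorem K1_unit_pow {A : Type u} [Ring A] (u : Aˣ) (n : ℕ) : K1.unit (u ^ n) = n • K1.unit u := by
  induction n with
  | zero => rw [pow_zero, K1_unit_one, zero_smul]
  | succ n ih => rw [pow_succ, K1.unit_mul, ih, succ_nsmul]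

/-- If the class of every invertible matrix is the class of a unit up to torsion then `K₁` is
generated by units up to torsion. -/
theorem unit_of_mk {A : Type u} [Ring A]
    (h : ∀ (n : ℕ) (U : (Matrix (Fin n) (Fin n) A)ˣ),
      ∃ (m : ℕ) (x : Aˣ), 0 < m ∧ m • K1.mk U = K1.unit x) (y : K1 A) :
    ∃ (m : ℕ) (x : Aˣ), 0 < m ∧ m • y = K1.unit x := by
  have key : ∃ (m : ℕ) (x : Aˣ), 0 < m ∧ m • y = K1.unit x ∧ True := by
    induction y using K1_induction with
    | h0 => exact ⟨1, 1, one_pos, by rw [K1_unit_one, smul_zero], trivial⟩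
    | h1 n U =>
      obtain ⟨m, x, hm, hx⟩ := h n U
      exact ⟨m, x, hm, hx, trivial⟩
    | h2 a b ha hb =>
      obtain ⟨m, x, hm, hx, -⟩ := ha
      obtain ⟨m', x', hm', hx', -⟩ := hb
      refine ⟨m * m', x ^ m' * x' ^ m, Nat.mul_pos hm hm', ?_, trivial⟩
      rw [K1.unit_mul, K1_unit_pow, K1_unit_pow, ← hx, ← hx', smul_smul, smul_smul, smul_add,
        mul_comm m' m]
    | h3 a ha =>
      obtain ⟨m, x, hm, hx, -⟩ := ha
      exact ⟨m, x⁻¹, hm, by rw [K1_unit_inv, smul_neg, hx], trivial⟩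
  obtain ⟨m, x, hm, hx, -⟩ := key
  exact ⟨m, x, hm, hx⟩

theorem hUnit_field (k : Type u) [Field k] : HUnit.{u, v} k := by
  intro C _ _ _
  letI : CommGroup C := IsCyclic.commGroup
  apply unit_of_mk
  intro n U
  have : IsArtinianRing (MonoidAlgebra k C) := by
    have : Module.Finite k (MonoidAlgebra k C) := by
      have := Fintype.ofFinite C
      exact Module.Finite.of_basis (ι := C) (MonoidAlgebra.basis C k)
    exact IsArtinianRing.of_finite k (MonoidAlgebra k C)
  exact ⟨1, detU U, one_pos, by rw [one_smul]; exact det_semi U⟩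

end Pool.Agent.H71.DO

end
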