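import Pool.Agent.H13.TFQ.H71.FQ.Asm
import Pool.Agent.H13.TFQ.M11
import Pool.Agent.H13.TFQ.M16

/-! The parts of this file: H71.FQ.Defs_1, H71.FQ.Sy. -/

section

/-!
# The assembly map on the `K₀`-part of the rational source

For a ring `R`, a group `G` and `n`:

* `HnK0 R G n` is the abelian group generated by the symbols `[F, x, z]` with `F` a finite subgroup of `G`,
  `x ∈ K₀(R[F])` and `z ∈ H_{n+1}(Z_G(F); ℤ)`, modulo additivity in `x` and in `z` and
  `[F', c_g(x), z'] = [F, x, c_{g⁻¹}(z')]` for `g F g⁻¹ ⊆ F'`, `z' ∈ H_{n+1}(Z_G(F'); ℤ)`;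
* `assemblyN R G n : HnK0 R G n → KQ (R[G]) n` sends `[F, [e], z]` to the class of the image of `z` under the
  homomorphism `Z_G(F) → GL_N(R[G])`, `γ ↦ 1 + e (γ - 1)`.
-/

set_option autoImplicit false

open Matrix

universe u v w

namespace Pool.Agent.H71.FQ

open Pool.Agent.H71.FJ (MatEquiv IdemMat K0 K0.mk K0.lift K0.lift_mk K0.hom_ext K0.map)
open Pool.Agent.H95.WH (FamSub conjHom FinSub)

section

end

section

end

section

variable (R : Type u) [Ring R] (n : ℕ) {G : Type v} [Group G]

/-- The value of the assembly map on a symbol. -/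
noncomputable def symVal (s : Sym R G n) : KQ (MonoidAlgebra R G) n :=
  gasm R n s.F.1.subtype (Subgroup.centralizer (s.F.1 : Set G)).subtype (cent_comm s.F.1) s.x s.z

variable (G)

theorem symRel_le : SymRel R G n ≤ (FreeAbelianGroup.lift (symVal R n (G := G))).ker := by
  rw [SymRel, AddSubgroup.closure_le]
  rintro w ((⟨F, x, y, z, rfl⟩ | ⟨F, x, z, z', rfl⟩) | ⟨F, F', g, h, x, z, rfl⟩)
  · change FreeAbelianGroup.lift (symVal R n) _ = 0
    rw [symX, symOf, symOf, symOf, map_sub, map_add, FreeAbelianGroup.lift_apply_of,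
      FreeAbelianGroup.lift_apply_of, FreeAbelianGroup.lift_apply_of, symVal, symVal, symVal,
      map_add, AddMonoidHom.add_apply, sub_self]
  · change FreeAbelianGroup.lift (symVal R n) _ = 0
    rw [symZ, symOf, symOf, symOf, map_sub, map_add, FreeAbelianGroup.lift_apply_of,
      FreeAbelianGroup.lift_apply_of, FreeAbelianGroup.lift_apply_of, symVal, symVal, symVal,
      map_add, sub_self]
  · change FreeAbelianGroup.lift (symVal R n) _ = 0
    rw [symC, symOf, symOf, map_sub, FreeAbelianGroup.lift_apply_of,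
      FreeAbelianGroup.lift_apply_of, sub_eq_zero]
    change gasm R n F'.1.subtype (Subgroup.centralizer (F'.1 : Set G)).subtype (cent_comm F'.1)
        (K0.map (MonoidAlgebra.mapDomainRingHom R (conjHom g F.1 F'.1 h)) x) z =
      gasm R n F.1.subtype (Subgroup.centralizer (F.1 : Set G)).subtype (cent_comm F.1) x
        (HG.map n (centConj g F.1 F'.1 h) z)
    have h1 : ∀ (γ : Subgroup.centralizer (F'.1 : Set G)) (a : F.1),
        (F'.1.subtype.comp (conjHom g F.1 F'.1 h)) a *
          (Subgroup.centralizer (F'.1 : Set G)).subtype γ =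
        (Subgroup.centralizer (F'.1 : Set G)).subtype γ *
          (F'.1.subtype.comp (conjHom g F.1 F'.1 h)) a := fun γ a =>
      cent_comm F'.1 γ (conjHom g F.1 F'.1 h a)
    have h2 : ∀ (γ : Subgroup.centralizer (F'.1 : Set G)) (a : F.1),
        F.1.subtype a * ((Subgroup.centralizer (F.1 : Set G)).subtype.comp
          (centConj g F.1 F'.1 h)) γ =
        ((Subgroup.centralizer (F.1 : Set G)).subtype.comp (centConj g F.1 F'.1 h)) γ *
          F.1.subtype a := fun γ a => cent_comm F.1 (centConj g F.1 F'.1 h γ) a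
    rw [gasm_comp R n F'.1.subtype (conjHom g F.1 F'.1 h) _ (cent_comm F'.1) h1,
      gasm_map R n F.1.subtype _ (centConj g F.1 F'.1 h) (cent_comm F.1) h2]
    apply gasm_conj R n _ _ _ _ g
    · intro a
      rfl
    · intro γ
      change (γ : G) = g * (g⁻¹ * (γ : G) * g) * g⁻¹
      group

/-- **The assembly map.** -/
noncomputable def assemblyN : HnK0 R G n →+ KQ (MonoidAlgebra R G) n :=
  QuotientAddGroup.lift (SymRel R G n) (FreeAbelianGroup.lift (symVal R n)) (symRel_le R n G)

end

section Rational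

end Rational

end Pool.Agent.H71.FQ

end

section

/-!
# The symbols; reduction to primitive classes of cyclic groups
-/

set_option autoImplicit false

open Matrix
open scoped Classical

universe t u v w

namespace Pool.Agent.H71.FQ

open Pool.Agent.H71.FJ (IdemMat K0 K0.mk K0.map K0.map_map)
open Pool.Agent.H95.WH (FamSub conjHom FinSub)

section Sym

variable {k : Type u} [Ring k] {G : Type v} [Group G] {n : ℕ}

/-- The projection. -/
noncomputable def toH (k : Type u) [Ring k] (G : Type v) [Group G] (n : ℕ) :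
    FreeAbelianGroup (Sym k G n) →+ HnK0 k G n := QuotientAddGroup.mk' (SymRel k G n)

/-- The symbol `[F, x, z]`. -/
noncomputable def sy (F : FamSub G FinSub) (x : K0 (MonoidAlgebra k F.1))
    (z : HG (Subgroup.centralizer (F.1 : Set G)) n) : HnK0 k G n :=
  QuotientAddGroup.mk (FreeAbelianGroup.of ⟨F, x, z⟩)

theorem toH_eq_zero {w : FreeAbelianGroup (Sym k G n)} (h : w ∈ SymRel k G n) :
    toH k G n w = 0 := (QuotientAddGroup.eq_zero_iff _).2 h

theorem sy_add (F : FamSub G FinSub) (x y : K0 (MonoidAlgebra k F.1))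
    (z : HG (Subgroup.centralizer (F.1 : Set G)) n) : sy F (x + y) z = sy F x z + sy F y z := by
  have h : toH k G n (symX k G n F x y z) = 0 :=
    toH_eq_zero (AddSubgroup.subset_closure (Or.inl (Or.inl ⟨F, x, y, z, rfl⟩)))
  rw [symX, map_sub, map_add, sub_eq_zero] at h
  exact h

theorem sy_addz (F : FamSub G FinSub) (x : K0 (MonoidAlgebra k F.1))
    (z z' : HG (Subgroup.centralizer (F.1 : Set G)) n) :
    sy F x (z + z') = sy F x z + sy F x z' := by
  have h : toH k G n (symZ k G n F x z z') = 0 :=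
    toH_eq_zero (AddSubgroup.subset_closure (Or.inl (Or.inr ⟨F, x, z, z', rfl⟩)))
  rw [symZ, map_sub, map_add, sub_eq_zero] at h
  exact h

theorem sy_conj (F F' : FamSub G FinSub) (g : G) (h : ∀ x ∈ F.1, g * x * g⁻¹ ∈ F'.1)
    (x : K0 (MonoidAlgebra k F.1)) (z : HG (Subgroup.centralizer (F'.1 : Set G)) n) :
    sy F' (K0.map (MonoidAlgebra.mapDomainRingHom k (conjHom g F.1 F'.1 h)) x) z =
      sy F x (HG.map n (centConj g F.1 F'.1 h) z) := by
  have h' : toH k G n (symC k G n F F' g h x z) = 0 :=
    toH_eq_zero (AddSubgroup.subset_closure (Or.inr ⟨F, F', g, h, x, z, rfl⟩))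
  rw [symC, map_sub, sub_eq_zero] at h'
  exact h'

theorem asmN_sy (F : FamSub G FinSub) (x : K0 (MonoidAlgebra k F.1))
    (z : HG (Subgroup.centralizer (F.1 : Set G)) n) :
    assemblyN k n G (sy F x z) = gasm k n F.1.subtype
      (Subgroup.centralizer (F.1 : Set G)).subtype (cent_comm F.1) x z := by
  have h : FreeAbelianGroup.lift (symVal k n) (symOf k G n F x z) = symVal k n ⟨F, x, z⟩ :=
    FreeAbelianGroup.lift_apply_of _ _
  exact h

/-- the symbol as a homomorphism in the `K₀`-variable -/
noncomputable def syH (F : FamSub G FinSub) (z : HG (Subgroup.centralizer (F.1 : Set G)) n) :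
    K0 (MonoidAlgebra k F.1) →+ HnK0 k G n :=
  AddMonoidHom.mk' (fun x => sy F x z) (fun x y => sy_add F x y z)

theorem hnk0_induction {P : HnK0 k G n → Prop} (h0 : P 0)
    (h1 : ∀ (F : FamSub G FinSub) (x : K0 (MonoidAlgebra k F.1))
      (z : HG (Subgroup.centralizer (F.1 : Set G)) n), P (sy F x z))
    (h2 : ∀ a b, P a → P b → P (a + b)) (h3 : ∀ a, P a → P (-a)) (w : HnK0 k G n) : P w := by
  obtain ⟨y, rfl⟩ : ∃ y, toH k G n y = w := QuotientAddGroup.mk_surjective w
  induction y using FreeAbelianGroup.induction_on with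
  | zero => rw [map_zero]; exact h0
  | of s => exact h1 s.F s.x s.z
  | neg s _ =>
    rw [map_neg]
    exact h3 _ (h1 s.F s.x s.z)
  | add x y hx hy => rw [map_add]; exact h2 _ _ hx hy

end Sym

section Prim

end Prim

end Pool.Agent.H71.FQ

end
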