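import Pool.Agent.H13.TFQ.H16.FU.Asm1_2
import Pool.Agent.H13.TFQ.M17
import Pool.Agent.H13.TFQ.M22

/-! The parts of this file: H16.FU.Defs1_1, H71.FQ.Sy_1. -/

section

/-!
# The assembly map on the `K₁`-part of the rational source

For a ring `R`, a group `G` and `n`:

* `HnK1 R G n` is the abelian group generated by the symbols `[F, x, z]` with `F` a finite subgroup of `G`,
  `x ∈ K₁(R[F])` and `z ∈ H_{n+1}(Z_G(F); ℤ)`, modulo additivity in `x` and in `z` and
  `[F', c_g(x), z'] = [F, x, c_{g⁻¹}(z')]` for `g F g⁻¹ ⊆ F'`, `z' ∈ H_{n+1}(Z_G(F'); ℤ)`;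
* `assembly1 R G n : HnK1 R G n → KQ (R[G]) (n + 1)` sends `[F, [U], z]` to the class of the product of the image of
  `z` under the scalar matrices `γ ∈ Z_G(F)` with the class of the commuting matrix `U` (`HG.cr`);
* `assembly01 R G n : HnK0 R G (n + 1) × HnK1 R G n → KQ (R[G]) (n + 1)`, the sum of the two assembly maps.
-/

set_option autoImplicit false

open Matrix

universe u v w

namespace Pool.Agent.H16.FU

open Pool.Agent.H71.FQ
open Pool.Agent.H95.WH (K1 K1.mk K1.map FamSub conjHom FinSub)

section

end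

section

variable (R : Type u) [Ring R] (n : ℕ) {G : Type v} [Group G]

/-- The value of the assembly map on a symbol. -/
noncomputable def symVal1 (s : Sym1 R G n) : KQ (MonoidAlgebra R G) (n + 1) :=
  gasm1 R n s.F.1.subtype (Subgroup.centralizer (s.F.1 : Set G)).subtype (cent_comm s.F.1) s.x s.z

variable (G)

theorem symRel1_le : SymRel1 R G n ≤ (FreeAbelianGroup.lift (symVal1 R n (G := G))).ker := by
  rw [SymRel1, AddSubgroup.closure_le]
  rintro w ((⟨F, x, y, z, rfl⟩ | ⟨F, x, z, z', rfl⟩) | ⟨F, F', g, h, x, z, rfl⟩)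
  · change FreeAbelianGroup.lift (symVal1 R n) _ = 0
    rw [symX1, symOf1, symOf1, symOf1, map_sub, map_add, FreeAbelianGroup.lift_apply_of,
      FreeAbelianGroup.lift_apply_of, FreeAbelianGroup.lift_apply_of, symVal1, symVal1, symVal1,
      map_add, AddMonoidHom.add_apply, sub_self]
  · change FreeAbelianGroup.lift (symVal1 R n) _ = 0
    rw [symZ1, symOf1, symOf1, symOf1, map_sub, map_add, FreeAbelianGroup.lift_apply_of,
      FreeAbelianGroup.lift_apply_of, FreeAbelianGroup.lift_apply_of, symVal1, symVal1, symVal1,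
      map_add, sub_self]
  · change FreeAbelianGroup.lift (symVal1 R n) _ = 0
    rw [symC1, symOf1, symOf1, map_sub, FreeAbelianGroup.lift_apply_of,
      FreeAbelianGroup.lift_apply_of, sub_eq_zero]
    change gasm1 R n F'.1.subtype (Subgroup.centralizer (F'.1 : Set G)).subtype (cent_comm F'.1)
        (K1.map (MonoidAlgebra.mapDomainRingHom R (conjHom g F.1 F'.1 h)) x) z =
      gasm1 R n F.1.subtype (Subgroup.centralizer (F.1 : Set G)).subtype (cent_comm F.1) x
        (HG.map n (centConj g F.1 F'.1 h) z)
    have h1 : ∀ (γ : Subgroup.centralizer (F'.1 : Set G)) (a : F.1),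
        (F'.1.subtype.comp (conjHom g F.1 F'.1 h)) a *
          (Subgroup.centralizer (F'.1 : Set G)).subtype γ =
        (Subgroup.centralizer (F'.1 : Set G)).subtype γ *
          (F'.1.subtype.comp (conjHom g F.1 F'.1 h)) a := fun γ a =>
      cent_comm F'.1 γ (conjHom g F.1 F'.1 h a)
    have h2 : ∀ (γ : Subgroup.centralizer (F'.1 : Set G)) (a : F.1),
        F.1.subtype a * ((Subgroup.centralizer (F.1 : Set G)).subtype.comp
          (centConj g F.1 F'.1 h)) γ =
        ((Subgroup.centralizer (F.1 : Set G)).subtype.comp (centConj g F.1 F'.1 h)) γ *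
          F.1.subtype a := fun γ a => cent_comm F.1 (centConj g F.1 F'.1 h γ) a
    rw [gasm1_comp R n F'.1.subtype (conjHom g F.1 F'.1 h) _ (cent_comm F'.1) h1,
      gasm1_map R n F.1.subtype _ (centConj g F.1 F'.1 h) (cent_comm F.1) h2]
    apply gasm1_conj R n _ _ _ _ g
    · intro a
      rfl
    · intro γ
      change (γ : G) = g * (g⁻¹ * (γ : G) * g) * g⁻¹
      group

/-- **The assembly map** on the `K₁`-part. -/
noncomputable def assembly1 : HnK1 R G n →+ KQ (MonoidAlgebra R G) (n + 1) :=
  QuotientAddGroup.lift (SymRel1 R G n) (FreeAbelianGroup.lift (symVal1 R n)) (symRel1_le R n G)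

/-- **The assembly map** on the sum of the `K₀`-part and the `K₁`-part. -/
noncomputable def assembly01 :
    HnK0 R G (n + 1) × HnK1 R G n →+ KQ (MonoidAlgebra R G) (n + 1) :=
  (assemblyN R (n + 1) G).coprod (assembly1 R n G)

end

section Sym

variable {k : Type u} [Ring k] {G : Type v} [Group G] {n : ℕ}

theorem asm1_sy1 (F : FamSub G FinSub) (x : K1 (MonoidAlgebra k F.1))
    (z : HG (Subgroup.centralizer (F.1 : Set G)) n) :
    assembly1 k n G (sy1 F x z) = gasm1 k n F.1.subtype
      (Subgroup.centralizer (F.1 : Set G)).subtype (cent_comm F.1) x z := by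
  have h : FreeAbelianGroup.lift (symVal1 k n) (symOf1 k G n F x z) = symVal1 k n ⟨F, x, z⟩ :=
    FreeAbelianGroup.lift_apply_of _ _
  exact h

end Sym

end Pool.Agent.H16.FU

end

section

/-!
# The symbols; reduction to primitive classes of cyclic groups
-/

set_option autoImplicit false

open Matrix
open scoped Classical

universe t u v w

namespace Pool.Agent.H71.FQ

open Pool.Agent.H71.FJ (IdemMat K0 K0.mk K0.map K0.map_map)
open Pool.Agent.H95.WH (FamSub conjHom FinSub)

section Sym

variable {k : Type u} [Ring k] {G : Type v} [Group G] {n : ℕ}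

/-- the symbol as a biadditive map -/
noncomputable def syB (F : FamSub G FinSub) : K0 (MonoidAlgebra k F.1) →+
    HG (Subgroup.centralizer (F.1 : Set G)) n →+ HnK0 k G n :=
  AddMonoidHom.mk' (fun x => AddMonoidHom.mk' (fun z => sy F x z) (fun z z' => sy_addz F x z z'))
    (by
      intro x y
      ext z
      exact sy_add F x y z)

end Sym

section Prim

end Prim

end Pool.Agent.H71.FQ

end
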