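import Pool.Agent.H13.TFQ.H71.FJ.Prim2
import Pool.Agent.H13.TFQ.M23

/-! The parts of this file: H71.DB.Sym_1, H71.FQ.Sy_2. -/

section

/-!
# The symbols; reduction to primitive classes of cyclic groups
-/

set_option autoImplicit false

open Matrix
open scoped Classical

universe t u v w

namespace Pool.Agent.H71.DB

open Pool.Agent.H71.FJ (IdemMat K0 K0.mk K0.map K0.map_map K0.push LiftSys IsPrim isPrim_map exists_prim Sat Sat_of_smul mem_Sat twR incl lamR ind_res exists_artin dlt dlt_comm cyc_comm LT)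
open Pool.Agent.H95.WH (K1 K1.mk K1.map K1.map_mk FamSub conjHom FinSub)

section Sym

end Sym

section Prim

variable {k : Type u} [Field k] {K : Type t} [Field K] (L : LiftSys K) (i : k →+* K)
  {G : Type v} [Group G]

theorem prim_decomp (N : ℕ) : ∀ (H : Type v) [Group H] [Finite H] [IsCyclic H],
    Nat.card H = N → (∀ h : H, (orderOf h : k) ≠ 0) → ∀ f : H →* G, Function.Injective f →
    ∀ (x : K0 (MonoidAlgebra k H)) (z : G) (hz : ∀ a, f a * z = z * f a),
      syh f x z hz ∈ Sat (AddSubgroup.closure (PSet L i G)) := by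
  induction N using Nat.strong_induction_on with
  | _ N ih =>
    intro H _ _ _ hN hH f hf x z hz
    have : Fintype H := Fintype.ofFinite H
    obtain ⟨κ, hκ⟩ := exists_prim L i H
    have h1 := syh_prim L i hH f hf _ (hκ x) z hz
    have h2 : ∀ E ∈ (Finset.univ : Finset (Subgroup H)).erase ⊤,
        syh f (K0.push (twR k (H ⧸ E)) x) z hz ∈ Sat (AddSubgroup.closure (PSet L i G)) := by
      intro E hE
      have hE' : E ≠ ⊤ := (Finset.mem_erase.1 hE).1
      rw [← ind_res, syh_map (f.comp E.subtype) f E.subtype 1 (by intro a; simp) _ z z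
        (fun a => hz _) hz (by simp)]
      refine ih (Nat.card E) ?_ E rfl ?_ _ ?_ _ _ _
      · rw [← hN]
        refine lt_of_le_of_ne (Nat.le_of_dvd Nat.card_pos (Subgroup.card_subgroup_dvd_card E)) ?_
        intro h
        exact hE' (Subgroup.eq_top_of_card_eq E h)
      · intro h
        rw [← Subgroup.orderOf_coe]
        exact hH _
      · exact hf.comp E.subtype_injective
    have hc : ((Nat.card H : ℕ) : ℤ) ≠ 0 := by exact_mod_cast Nat.card_pos.ne'
    refine Sat_of_smul hc ?_
    have h3 : (Nat.card H : ℤ) • syh f x z hz = syh f ((Nat.card H : ℤ) • x +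
        ∑ E ∈ (Finset.univ : Finset (Subgroup H)).erase ⊤,
          (κ E * Nat.card E) • K0.push (twR k (H ⧸ E)) x) z hz -
        ∑ E ∈ (Finset.univ : Finset (Subgroup H)).erase ⊤,
          (κ E * Nat.card E) • syh f (K0.push (twR k (H ⧸ E)) x) z hz := by
      simp only [← syhH_apply]
      rw [map_add, map_zsmul, map_sum]
      simp only [map_zsmul]
      abel
    rw [h3]
    refine AddSubgroup.sub_mem _ (mem_Sat (AddSubgroup.subset_closure h1)) ?_
    exact AddSubgroup.sum_mem _ fun E hE => AddSubgroup.zsmul_mem _ (h2 E hE) _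

/-- Every element has a nonzero multiple which is a combination of primitive symbols. -/
theorem mem_sat (w : H1K0 k G) : w ∈ Sat (AddSubgroup.closure (PSet L i G)) := by
  induction w using h1k0_induction with
  | h0 => exact AddSubgroup.zero_mem _
  | h2 a b ha hb => exact AddSubgroup.add_mem _ ha hb
  | h3 a ha => exact AddSubgroup.neg_mem _ ha
  | h1 F x z =>
    have : Finite F.1 := F.2
    have : Fintype F.1 := Fintype.ofFinite F.1
    obtain ⟨s, c, h1, h2⟩ := exists_artin k F.1
    have hc : ((Nat.card F.1 : ℕ) : ℤ) ≠ 0 := by exact_mod_cast Nat.card_pos.ne'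
    refine Sat_of_smul hc ?_
    rw [← syh_subtype, ← syhH_apply, ← map_zsmul, h2, map_sum]
    refine AddSubgroup.sum_mem _ fun D hD => ?_
    rw [map_zsmul]
    refine AddSubgroup.zsmul_mem _ ?_ _
    rw [syhH_apply, incl, syh_map (F.1.subtype.comp D.subtype) F.1.subtype D.subtype 1
      (by intro a; simp) _ z z (fun a => cent_comm z _) (cent_comm z) (by simp)]
    obtain ⟨h3, h4⟩ := h1 D hD
    refine prim_decomp L i (Nat.card D) D rfl ?_ _ ?_ _ _ _
    · intro h
      rw [← Subgroup.orderOf_coe]
      exact h4 _ h.2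
    · exact F.1.subtype_injective.comp D.subtype_injective

end Prim

end Pool.Agent.H71.DB

end

section

/-!
# The symbols; reduction to primitive classes of cyclic groups
-/

set_option autoImplicit false

open Matrix
open scoped Classical

universe t u v w

namespace Pool.Agent.H71.FQ

open Pool.Agent.H71.FJ (IdemMat K0 K0.mk K0.map K0.map_map K0.push LiftSys IsPrim isPrim_map exists_prim Sat Sat_of_smul mem_Sat twR incl lamR ind_res exists_artin dlt dlt_comm cyc_comm LT)
open Pool.Agent.H95.WH (FamSub conjHom FinSub)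

section Sym

variable {k : Type u} [Ring k] {G : Type v} [Group G] {n : ℕ}

theorem syB_apply (F : FamSub G FinSub) (x : K0 (MonoidAlgebra k F.1))
    (z : HG (Subgroup.centralizer (F.1 : Set G)) n) : syB F x z = sy F x z := rfl

theorem syH_apply (F : FamSub G FinSub) (x : K0 (MonoidAlgebra k F.1))
    (z : HG (Subgroup.centralizer (F.1 : Set G)) n) : syH F z x = sy F x z := rfl

/-- the finite subgroup that is the range of a homomorphism -/
def rangeSub {H : Type v} [Group H] [Finite H] (f : H →* G) : FamSub G FinSub :=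
  ⟨f.range, Set.finite_range f⟩

/-- `f` as a homomorphism onto its range -/
def toRange {H : Type v} [Group H] [Finite H] (f : H →* G) : H →* (rangeSub f).1 :=
  f.rangeRestrict

theorem mem_cent_range {H : Type v} [Group H] [Finite H] (f : H →* G) (z : G)
    (hz : ∀ a, f a * z = z * f a) :
    z ∈ Subgroup.centralizer ((rangeSub f).1 : Set G) := by
  rw [Subgroup.mem_centralizer_iff]
  rintro _ ⟨a, rfl⟩
  exact hz a

/-- a commuting homomorphism as a homomorphism to the centralizer -/
def toCent {H : Type v} [Group H] [Finite H] {Γ : Type v} [Group Γ] (f : H →* G) (κ : Γ →* G)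
    (h : ∀ γ a, f a * κ γ = κ γ * f a) :
    Γ →* Subgroup.centralizer ((rangeSub f).1 : Set G) :=
  κ.codRestrict _ fun γ => mem_cent_range f (κ γ) (h γ)

/-- The symbol for a homomorphism from a finite group. -/
noncomputable def syh {H : Type v} [Group H] [Finite H] {Γ : Type v} [Group Γ] (f : H →* G)
    (κ : Γ →* G) (h : ∀ γ a, f a * κ γ = κ γ * f a)
    (x : K0 (MonoidAlgebra k H)) (z : HG Γ n) : HnK0 k G n :=
  sy (rangeSub f) (K0.map (MonoidAlgebra.mapDomainRingHom k (toRange f)) x)
    (HG.map n (toCent f κ h) z)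

/-- `syh` as a homomorphism in the `K₀`-variable -/
noncomputable def syhH {H : Type v} [Group H] [Finite H] {Γ : Type v} [Group Γ] (f : H →* G)
    (κ : Γ →* G) (h : ∀ γ a, f a * κ γ = κ γ * f a) (z : HG Γ n) :
    K0 (MonoidAlgebra k H) →+ HnK0 k G n :=
  (syH (rangeSub f) (HG.map n (toCent f κ h) z)).comp
    (K0.map (MonoidAlgebra.mapDomainRingHom k (toRange f)))

theorem syhH_apply {H : Type v} [Group H] [Finite H] {Γ : Type v} [Group Γ] (f : H →* G)
    (κ : Γ →* G) (h : ∀ γ a, f a * κ γ = κ γ * f a) (x : K0 (MonoidAlgebra k H)) (z : HG Γ n) :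
    syhH f κ h z x = syh f κ h x z := rfl

theorem syh_map {H H' : Type v} [Group H] [Finite H] [Group H'] [Finite H'] {Γ : Type v}
    [Group Γ] (f : H →* G) (f' : H' →* G) (φ : H →* H') (g : G)
    (h : ∀ a, f' (φ a) = g * f a * g⁻¹) (κ κ' : Γ →* G) (hκ : ∀ γ a, f a * κ γ = κ γ * f a)
    (hκ' : ∀ γ a, f' a * κ' γ = κ' γ * f' a) (hh : ∀ γ, κ γ = g⁻¹ * κ' γ * g)
    (x : K0 (MonoidAlgebra k H)) (z : HG Γ n) :
    syh f' κ' hκ' (K0.map (MonoidAlgebra.mapDomainRingHom k φ) x) z = syh f κ hκ x z := by
  have hr : ∀ y ∈ (rangeSub f).1, g * y * g⁻¹ ∈ (rangeSub f').1 := by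
    rintro y ⟨a, rfl⟩
    exact ⟨φ a, h a⟩
  have h1 := sy_conj (rangeSub f) (rangeSub f') g hr
    (K0.map (MonoidAlgebra.mapDomainRingHom k (toRange f)) x) (HG.map n (toCent f' κ' hκ') z)
  have h4 : (centConj g (rangeSub f).1 (rangeSub f').1 hr).comp (toCent f' κ' hκ') =
      toCent f κ hκ := by
    apply MonoidHom.ext
    intro γ
    exact Subtype.ext (hh γ).symm
  rw [HG.map_map, h4] at h1
  refine Eq.trans ?_ h1
  have h2 : (toRange f').comp φ =
      (conjHom g (rangeSub f).1 (rangeSub f').1 hr).comp (toRange f) := by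
    apply MonoidHom.ext
    intro a
    exact Subtype.ext (h a)
  have h3 : K0.map (MonoidAlgebra.mapDomainRingHom k (toRange f'))
      (K0.map (MonoidAlgebra.mapDomainRingHom k φ) x) =
      K0.map (MonoidAlgebra.mapDomainRingHom k (conjHom g (rangeSub f).1 (rangeSub f').1 hr))
        (K0.map (MonoidAlgebra.mapDomainRingHom k (toRange f)) x) := by
    rw [K0.map_map, K0.map_map, ← MonoidAlgebra.mapDomainRingHom_comp, h2,
      ← MonoidAlgebra.mapDomainRingHom_comp]
  exact congrArg (fun y => sy (rangeSub f') y (HG.map n (toCent f' κ' hκ') z)) h3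

theorem syh_subtype (F : FamSub G FinSub) [Finite F.1] (x : K0 (MonoidAlgebra k F.1))
    (z : HG (Subgroup.centralizer (F.1 : Set G)) n) :
    syh F.1.subtype (Subgroup.centralizer (F.1 : Set G)).subtype (cent_comm F.1) x z =
      sy F x z := by
  have hr : ∀ y ∈ F.1, (1 : G) * y * 1⁻¹ ∈ (rangeSub F.1.subtype).1 := by
    intro y hy
    refine ⟨⟨y, hy⟩, ?_⟩
    rw [one_mul, inv_one, mul_one]
    rfl
  have h2 : toRange F.1.subtype = conjHom 1 F.1 (rangeSub F.1.subtype).1 hr := by
    apply MonoidHom.ext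
    intro a
    apply Subtype.ext
    change (a : G) = 1 * (a : G) * 1⁻¹
    rw [one_mul, inv_one, mul_one]
  have h3 := sy_conj (k := k) F (rangeSub F.1.subtype) 1 hr x
    (HG.map n (toCent F.1.subtype (Subgroup.centralizer (F.1 : Set G)).subtype
      (cent_comm F.1)) z)
  rw [← h2, HG.map_map] at h3
  have h4 : (centConj 1 F.1 (rangeSub F.1.subtype).1 hr).comp
      (toCent F.1.subtype (Subgroup.centralizer (F.1 : Set G)).subtype (cent_comm F.1)) =
      MonoidHom.id _ := by
    apply MonoidHom.ext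
    intro γ
    apply Subtype.ext
    change (1 : G)⁻¹ * (γ : G) * 1 = γ
    rw [inv_one, one_mul, mul_one]
  rw [h4, HG.map_id] at h3
  exact h3

end Sym

section Prim

variable {k : Type u} [Field k] {K : Type t} [Field K] (L : LiftSys K) (i : k →+* K)
  {G : Type v} [Group G] {n : ℕ}

/-- The symbols with primitive classes of finite cyclic subgroups of order invertible in `k`. -/
def PSet (G : Type v) [Group G] (n : ℕ) : Set (HnK0 k G n) :=
  {w | ∃ (D : FamSub G FinSub) (_ : IsCyclic D.1), (∀ h : D.1, (orderOf h : k) ≠ 0) ∧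
    ∃ y : K0 (MonoidAlgebra k D.1), IsPrim L i y ∧
      ∃ z : HG (Subgroup.centralizer (D.1 : Set G)) n, w = sy D y z}

theorem syh_prim {H : Type v} [Group H] [Finite H] [IsCyclic H] {Γ : Type v} [Group Γ]
    (hH : ∀ h : H, (orderOf h : k) ≠ 0) (f : H →* G) (hf : Function.Injective f)
    (y : K0 (MonoidAlgebra k H)) (hy : IsPrim L i y) (κ : Γ →* G)
    (hκ : ∀ γ a, f a * κ γ = κ γ * f a) (z : HG Γ n) :
    syh f κ hκ y z ∈ PSet L i G n := by
  let e : H ≃* (rangeSub f).1 := MonoidHom.ofInjective hf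
  have he : e.toMonoidHom = toRange f := rfl
  have hcyc : IsCyclic (rangeSub f).1 := isCyclic_of_surjective e e.surjective
  refine ⟨rangeSub f, hcyc, ?_, K0.map (MonoidAlgebra.mapDomainRingHom k (toRange f)) y, ?_,
    HG.map n (toCent f κ hκ) z, rfl⟩
  · intro h
    obtain ⟨a, rfl⟩ := e.surjective h
    rw [MulEquiv.orderOf_eq]
    exact hH a
  · rw [← he]
    exact isPrim_map L i e hy

theorem prim_decomp {Γ : Type v} [Group Γ] (κ : Γ →* G) (z : HG Γ n) (N : ℕ) :
    ∀ (H : Type v) [Group H] [Finite H] [IsCyclic H],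
    Nat.card H = N → (∀ h : H, (orderOf h : k) ≠ 0) → ∀ f : H →* G, Function.Injective f →
    ∀ (x : K0 (MonoidAlgebra k H)) (hκ : ∀ γ a, f a * κ γ = κ γ * f a),
      syh f κ hκ x z ∈ Sat (AddSubgroup.closure (PSet L i G n)) := by
  induction N using Nat.strong_induction_on with
  | _ N ih =>
    intro H _ _ _ hN hH f hf x hκ
    have : Fintype H := Fintype.ofFinite H
    obtain ⟨c, hc'⟩ := exists_prim L i H
    have h1 := syh_prim L i hH f hf _ (hc' x) κ hκ z
    have h2 : ∀ E ∈ (Finset.univ : Finset (Subgroup H)).erase ⊤,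
        syh f κ hκ (K0.push (twR k (H ⧸ E)) x) z ∈
          Sat (AddSubgroup.closure (PSet L i G n)) := by
      intro E hE
      have hE' : E ≠ ⊤ := (Finset.mem_erase.1 hE).1
      rw [← ind_res, syh_map (f.comp E.subtype) f E.subtype 1 (by intro a; simp) κ κ
        (fun γ a => hκ γ _) hκ (by intro γ; simp)]
      refine ih (Nat.card E) ?_ E rfl ?_ _ ?_ _ _
      · rw [← hN]
        refine lt_of_le_of_ne (Nat.le_of_dvd Nat.card_pos (Subgroup.card_subgroup_dvd_card E)) ?_
        intro h
        exact hE' (Subgroup.eq_top_of_card_eq E h)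
      · intro h
        rw [← Subgroup.orderOf_coe]
        exact hH _
      · exact hf.comp E.subtype_injective
    have hc : ((Nat.card H : ℕ) : ℤ) ≠ 0 := by exact_mod_cast Nat.card_pos.ne'
    refine Sat_of_smul hc ?_
    have h3 : (Nat.card H : ℤ) • syh f κ hκ x z = syh f κ hκ ((Nat.card H : ℤ) • x +
        ∑ E ∈ (Finset.univ : Finset (Subgroup H)).erase ⊤,
          (c E * Nat.card E) • K0.push (twR k (H ⧸ E)) x) z -
        ∑ E ∈ (Finset.univ : Finset (Subgroup H)).erase ⊤,
          (c E * Nat.card E) • syh f κ hκ (K0.push (twR k (H ⧸ E)) x) z := by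
      simp only [← syhH_apply]
      rw [map_add, map_zsmul, map_sum]
      simp only [map_zsmul]
      abel
    rw [h3]
    refine AddSubgroup.sub_mem _ (mem_Sat (AddSubgroup.subset_closure h1)) ?_
    exact AddSubgroup.sum_mem _ fun E hE => AddSubgroup.zsmul_mem _ (h2 E hE) _

/-- Every element has a nonzero multiple which is a combination of primitive symbols. -/
theorem mem_sat (w : HnK0 k G n) : w ∈ Sat (AddSubgroup.closure (PSet L i G n)) := by
  induction w using hnk0_induction with
  | h0 => exact AddSubgroup.zero_mem _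
  | h2 a b ha hb => exact AddSubgroup.add_mem _ ha hb
  | h3 a ha => exact AddSubgroup.neg_mem _ ha
  | h1 F x z =>
    have : Finite F.1 := F.2
    have : Fintype F.1 := Fintype.ofFinite F.1
    obtain ⟨s, c, h1, h2⟩ := exists_artin k F.1
    have hc : ((Nat.card F.1 : ℕ) : ℤ) ≠ 0 := by exact_mod_cast Nat.card_pos.ne'
    refine Sat_of_smul hc ?_
    rw [← syh_subtype, ← syhH_apply, ← map_zsmul, h2, map_sum]
    refine AddSubgroup.sum_mem _ fun D hD => ?_
    rw [map_zsmul]
    refine AddSubgroup.zsmul_mem _ ?_ _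
    rw [syhH_apply, incl, syh_map (F.1.subtype.comp D.subtype) F.1.subtype D.subtype 1
      (by intro a; simp) _ _ (fun γ a => cent_comm F.1 γ _) (cent_comm F.1) (by intro γ; simp)]
    obtain ⟨h3, h4⟩ := h1 D hD
    refine prim_decomp L i _ z (Nat.card D) D rfl ?_ _ ?_ _ _
    · intro h
      rw [← Subgroup.orderOf_coe]
      exact h4 _ h.2
    · exact F.1.subtype_injective.comp D.subtype_injective

end Prim

end Pool.Agent.H71.FQ

end
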