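import Pool.Agent.H13.TFQ.M03

/-! The parts of this file: H71.FQ.Sep, H71.FQ.EvB, H71.KP.AlgInd, H71.KP.Dlog, H71.KP.FinGen, H71.KP.Schur, H71.KP.Cassels, H95.WH.SmN. -/

section

/-!
# Homomorphisms to the `p`-adic integers

`exists_hom`: if an element `x` of a torsion-free abelian group `T` is not divisible by all powers of `p`, there is a
homomorphism `T → ℤ_[p]` which does not vanish at `x`.

PROOF. Let `p ^ (j + 1)` not divide `x` and `p ^ j` divide `x`. Every finitely generated subgroup `F` containing `x` is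
free and has a homomorphism to `ℤ_[p]` with value `p ^ j` at `x`; the space of all functions `T → ℤ_[p]` is compact.
-/

set_option autoImplicit false

universe u

namespace Pool.Agent.H71.FQ

section

variable {p : ℕ} [Fact p.Prime]

theorem int_dvd_padic {a : ℤ} {j : ℕ} (h : ¬ ((p : ℤ) ^ (j + 1) ∣ a)) :
    ∃ c : ℤ_[p], c * (a : ℤ_[p]) = (p : ℤ_[p]) ^ j := by
  have hp : p.Prime := Fact.out
  have ha : a ≠ 0 := fun h0 => h (h0 ▸ dvd_zero _)
  obtain ⟨i, u, hu, rfl⟩ : ∃ (i : ℕ) (u : ℤ), ¬ (p : ℤ) ∣ u ∧ a = (p : ℤ) ^ i * u := by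
    have hfin : FiniteMultiplicity (p : ℤ) a :=
      Int.finiteMultiplicity_iff.2 ⟨by simpa using hp.ne_one, ha⟩
    obtain ⟨u, h1, h2⟩ := hfin.exists_eq_pow_mul_and_not_dvd
    exact ⟨_, u, h2, h1⟩
  have hij : i ≤ j := by
    by_contra hlt
    exact h (Dvd.dvd.mul_right (pow_dvd_pow _ (by omega)) _)
  have hu' : IsUnit (u : ℤ_[p]) := by
    rw [PadicInt.isUnit_iff]
    refine le_antisymm (PadicInt.norm_le_one _) (not_lt.1 fun h1 => hu ?_)
    exact (PadicInt.norm_int_lt_one_iff_dvd u).1 h1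
  obtain ⟨v, hv⟩ := hu'
  refine ⟨(p : ℤ_[p]) ^ (j - i) * ((v⁻¹ : (ℤ_[p])ˣ) : ℤ_[p]), ?_⟩
  push_cast
  rw [← hv]
  calc (p : ℤ_[p]) ^ (j - i) * ((v⁻¹ : (ℤ_[p])ˣ) : ℤ_[p]) * ((p : ℤ_[p]) ^ i * (v : ℤ_[p]))
      = ((p : ℤ_[p]) ^ (j - i) * (p : ℤ_[p]) ^ i) * (((v⁻¹ : (ℤ_[p])ˣ) : ℤ_[p]) * v) := by ring
    _ = _ := by
      rw [Units.inv_mul, mul_one, ← pow_add, Nat.sub_add_cancel hij]

theorem exists_hom_free {F : Type u} [AddCommGroup F] [Module.Finite ℤ F] [Module.Free ℤ F]
    {x : F} {j : ℕ} (h : ¬ ∃ y : F, x = (p : ℤ) ^ (j + 1) • y) :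
    ∃ f : F →+ ℤ_[p], f x = (p : ℤ_[p]) ^ j := by
  let b := Module.Free.chooseBasis ℤ F
  have h1 : ∃ i, ¬ ((p : ℤ) ^ (j + 1) ∣ b.repr x i) := by
    by_contra hall
    push Not at hall
    choose c hc using hall
    refine h ⟨∑ i, c i • b i, ?_⟩
    rw [Finset.smul_sum]
    conv_lhs => rw [← b.sum_repr x]
    refine Finset.sum_congr rfl fun i _ => ?_
    rw [hc i, mul_smul]
  obtain ⟨i, hi⟩ := h1
  obtain ⟨c, hc⟩ := int_dvd_padic hi
  refine ⟨(AddMonoidHom.mulLeft c).comp ((Int.castAddHom ℤ_[p]).comp (b.coord i).toAddMonoidHom), ?_⟩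
  exact hc

theorem exists_hom {T : Type u} [AddCommGroup T] [Module.IsTorsionFree ℤ T] {x : T} {j : ℕ}
    (h : ¬ ∃ y : T, x = (p : ℤ) ^ (j + 1) • y) :
    ∃ f : T →+ ℤ_[p], f x = (p : ℤ_[p]) ^ j := by
  classical
  let t : Option (T × T) → Set (T → ℤ_[p]) := fun o =>
    match o with
    | none => {f | f x = (p : ℤ_[p]) ^ j}
    | some q => {f | f (q.1 + q.2) = f q.1 + f q.2}
  have htc : ∀ o, IsClosed (t o) := by
    rintro (_ | q)
    · exact isClosed_eq (continuous_apply x) continuous_const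
    · exact isClosed_eq (continuous_apply _) (by fun_prop)
  obtain ⟨f, hf⟩ := CompactSpace.iInter_nonempty htc (by
    intro s
    let S : Finset T := insert x ((s.biUnion fun o => match o with
      | none => ∅
      | some q => {q.1, q.2}))
    let F : Submodule ℤ T := Submodule.span ℤ (S : Set T)
    have hx : x ∈ F := Submodule.subset_span (by simp [S])
    have hF : ∀ q : T × T, some q ∈ s → q.1 ∈ F ∧ q.2 ∈ F := by
      intro q hq
      constructor
      · refine Submodule.subset_span ?_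
        simp only [S, Finset.coe_insert, Finset.coe_biUnion, Set.mem_insert_iff, Set.mem_iUnion]
        exact Or.inr ⟨some q, hq, by simp⟩
      · refine Submodule.subset_span ?_
        simp only [S, Finset.coe_insert, Finset.coe_biUnion, Set.mem_insert_iff, Set.mem_iUnion]
        exact Or.inr ⟨some q, hq, by simp⟩
    have hfin : Module.Finite ℤ F := Module.Finite.span_finset ℤ S
    obtain ⟨g, hg⟩ := exists_hom_free (F := F) (x := ⟨x, hx⟩) (p := p) (j := j) (by
      rintro ⟨y, hy⟩
      exact h ⟨y, congrArg Subtype.val hy⟩)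
    refine ⟨fun y => if hy : y ∈ F then g ⟨y, hy⟩ else 0, ?_⟩
    simp only [Set.mem_iInter]
    rintro (_ | q) ho
    · change (if hy : x ∈ F then g ⟨x, hy⟩ else 0) = _
      rw [dif_pos hx, hg]
    · obtain ⟨h1, h2⟩ := hF q ho
      change (if hy : q.1 + q.2 ∈ F then g ⟨q.1 + q.2, hy⟩ else 0) =
        (if hy : q.1 ∈ F then g ⟨q.1, hy⟩ else 0) + (if hy : q.2 ∈ F then g ⟨q.2, hy⟩ else 0)
      rw [dif_pos (F.add_mem h1 h2), dif_pos h1, dif_pos h2, ← map_add]
      rfl)
  rw [Set.mem_iInter] at hf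
  exact ⟨AddMonoidHom.mk' f fun a b => hf (some (a, b)), hf none⟩

/-- If `x` is not, modulo torsion, divisible by all powers of `p`, a homomorphism to `ℤ_[p]` does not vanish at `x`. -/
theorem exists_hom_ne_zero {B : Type u} [AddCommGroup B] {x : B}
    (h : ¬ ∀ k : ℕ, ∃ (y : B) (m : ℤ), m ≠ 0 ∧ m • (x - (p : ℤ) ^ k • y) = 0) :
    ∃ f : B →+ ℤ_[p], f x ≠ 0 := by
  have hp : p.Prime := Fact.out
  let T := B ⧸ Submodule.torsion ℤ B
  let π : B →ₗ[ℤ] T := (Submodule.torsion ℤ B).mkQ
  have hπ : ∀ b : B, π b = 0 → ∃ m : ℤ, m ≠ 0 ∧ m • b = 0 := by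
    intro b hb
    have h1 : b ∈ Submodule.torsion ℤ B := (Submodule.Quotient.mk_eq_zero _).1 hb
    obtain ⟨m, hm⟩ := (Submodule.mem_torsion_iff b).1 h1
    exact ⟨m, nonZeroDivisors.coe_ne_zero m, hm⟩
  have h2 : ∃ k : ℕ, ¬ ∃ y : T, π x = (p : ℤ) ^ k • y := by
    by_contra hall
    push Not at hall
    refine h fun k => ?_
    obtain ⟨y, hy⟩ := hall k
    obtain ⟨y, rfl⟩ := Submodule.mkQ_surjective _ y
    obtain ⟨m, hm, hm'⟩ := hπ (x - (p : ℤ) ^ k • y) (by
      rw [map_sub, map_smul, hy, sub_self])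
    exact ⟨y, m, hm, hm'⟩
  obtain ⟨k, hk⟩ := h2
  obtain ⟨j, rfl⟩ : ∃ j, k = j + 1 := by
    refine ⟨k - 1, ?_⟩
    have : k ≠ 0 := by
      rintro rfl
      exact hk ⟨π x, by simp⟩
    omega
  obtain ⟨f, hf⟩ := exists_hom (p := p) hk
  refine ⟨f.comp π.toAddMonoidHom, ?_⟩
  change f (π x) ≠ 0
  rw [hf]
  exact pow_ne_zero _ (by exact_mod_cast hp.ne_zero)

end

end Pool.Agent.H71.FQ

end

section

/-!
# Project FQ: the path of a periodic word

`P` is the word with the letters `(z_j⁻¹ z_{j+1}, j)`, `j = 0, …, k` (`z_{k+1} = z_0`); its product is `1`. In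
`P ^ r * P'`, `P'` the word `P` with the last letter multiplied by `x` from the right, the vertex before each letter
with label `j` is `u * z_0⁻¹ * z_j`.
-/

set_option autoImplicit false

universe u v w

namespace Pool.Agent.H71.FQ

section

variable {G : Type u} [Group G] {k : ℕ}

/-- the letters `(z_j⁻¹ z_{j+1}, j)` -/
def perL (z : Fin (k + 1) → G) : List (G × ℕ) :=
  List.ofFn fun j : Fin (k + 1) => ((z j)⁻¹ * z (j + 1), (j : ℕ))

/-- the letters except the last one -/
def perI (z : Fin (k + 1) → G) : List (G × ℕ) :=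
  List.ofFn fun j : Fin k => ((z j.castSucc)⁻¹ * z j.succ, (j : ℕ))

theorem perL_eq (z : Fin (k + 1) → G) :
    perL z = perI z ++ [((z (Fin.last k))⁻¹ * z 0, k)] := by
  rw [perL, List.ofFn_succ', List.concat_eq_append, perI]
  congr 1
  · congr 1
    funext j
    rw [Fin.coeSucc_eq_succ, Fin.val_castSucc]
  · rw [Fin.last_add_one, Fin.val_last]

theorem perI_succ (z : Fin (k + 2) → G) :
    perI z = perI (fun j : Fin (k + 1) => z j.castSucc) ++
      [((z (Fin.last k).castSucc)⁻¹ * z (Fin.last (k + 1)), k)] := by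
  rw [perI, List.ofFn_succ', List.concat_eq_append, perI]
  congr 1

/-- the word of a list of letters -/
def wdL (L : List (G × ℕ)) : Wd G := (L.map fun a => let1 a.1 a.2).prod

omit [Group G] in
theorem wdL_nil : wdL ([] : List (G × ℕ)) = 1 := rfl

omit [Group G] in
theorem wdL_append (L M : List (G × ℕ)) : wdL (L ++ M) = wdL L * wdL M := by
  rw [wdL, List.map_append, List.prod_append, wdL, wdL]

omit [Group G] in
theorem wdL_singleton (x : G) (l : ℕ) : wdL [(x, l)] = let1 x l := by
  rw [wdL, List.map_singleton, List.prod_singleton]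

theorem prd_perI (z : Fin (k + 1) → G) : prd (wdL (perI z)) = (z 0)⁻¹ * z (Fin.last k) := by
  induction k with
  | zero =>
    rw [show perI z = [] from rfl, wdL_nil, map_one]
    exact (inv_mul_cancel _).symm
  | succ k ih =>
    rw [perI_succ, wdL_append, map_mul, ih, wdL_singleton, prd_let1]
    change (z 0)⁻¹ * z (Fin.last k).castSucc * _ = _
    group

theorem prd_perL (z : Fin (k + 1) → G) : prd (wdL (perL z)) = 1 := by
  rw [perL_eq, wdL_append, map_mul, prd_perI, wdL_singleton, prd_let1]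
  group

theorem occ_perI (z : Fin (k + 1) → G) (y : G) (m : ℕ) :
    occ m (wdL (perI z)) (y * z 0) =
      if h : m < k then [y * z ⟨m, h.trans (Nat.lt_succ_self k)⟩] else [] := by
  induction k with
  | zero => rw [show perI z = [] from rfl, wdL_nil, dif_neg (Nat.not_lt_zero m), occ_one]
  | succ k ih =>
    rw [perI_succ, wdL_append, occ_mul, wdL_singleton, occ_let1, prd_perI]
    have h0 := ih (fun j : Fin (k + 1) => z j.castSucc)
    change occ m (wdL (perI fun j : Fin (k + 1) => z j.castSucc)) (y * z 0) = _ at h0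
    rw [h0]
    change _ ++ (if k = m then [y * z 0 * ((z 0)⁻¹ * z (Fin.last k).castSucc)] else []) = _
    rcases lt_trichotomy m k with h | h | h
    · rw [dif_pos h, dif_pos (h.trans (Nat.lt_succ_self k)), if_neg h.ne', List.append_nil]
      rfl
    · subst h
      rw [dif_neg (lt_irrefl m), dif_pos (Nat.lt_succ_self m), if_pos rfl, List.nil_append]
      congr 1
      rw [mul_assoc, mul_inv_cancel_left]
      rfl
    · rw [dif_neg h.not_gt, dif_neg (by omega), if_neg h.ne, List.nil_append]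

theorem occ_perL (z : Fin (k + 1) → G) (y : G) (j : Fin (k + 1)) :
    occ (j : ℕ) (wdL (perL z)) (y * z 0) = [y * z j] := by
  rw [perL_eq, wdL_append, occ_mul, wdL_singleton, occ_let1, prd_perI, occ_perI]
  by_cases h : (j : ℕ) < k
  · rw [dif_pos h, if_neg h.ne', List.append_nil]
  · have hj : j = Fin.last k := Fin.ext (by have := j.2; rw [Fin.val_last]; omega)
    rw [dif_neg h, if_pos (by rw [hj, Fin.val_last]), List.nil_append, mul_assoc,
      mul_inv_cancel_left, hj]

theorem prd_rep (r : ℕ) (z : Fin (k + 1) → G) :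
    prd (wdL (List.replicate r (perL z)).flatten) = 1 := by
  induction r with
  | zero => rw [List.replicate_zero, List.flatten_nil, wdL_nil, map_one]
  | succ r ih => rw [List.replicate_succ, List.flatten_cons, wdL_append, map_mul, prd_perL, ih, one_mul]

theorem occ_rep (r : ℕ) (z : Fin (k + 1) → G) (y : G) (j : Fin (k + 1)) :
    occ (j : ℕ) (wdL (List.replicate r (perL z)).flatten) (y * z 0) =
      List.replicate r (y * z j) := by
  induction r with
  | zero => rw [List.replicate_zero, List.flatten_nil, wdL_nil, occ_one, List.replicate_zero]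
  | succ r ih =>
    rw [List.replicate_succ, List.flatten_cons, wdL_append, occ_mul, prd_perL, mul_one, ih,
      occ_perL, List.replicate_succ, List.singleton_append]

/-- the list of the letters of `P ^ r * (P without the last letter)` -/
def perT (r : ℕ) (z : Fin (k + 1) → G) : List (G × ℕ) :=
  (List.replicate r (perL z)).flatten ++ perI z

theorem prd_per (r : ℕ) (z : Fin (k + 1) → G) (x : G) :
    prd (wdL (perT r z) * let1 ((z (Fin.last k))⁻¹ * z 0 * x) k) = x := by
  rw [map_mul, perT, wdL_append, map_mul, prd_rep, one_mul, prd_perI, prd_let1]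
  group

theorem occ_per (r : ℕ) (z : Fin (k + 1) → G) (x u : G) (j : Fin (k + 1)) :
    occ (j : ℕ) (wdL (perT r z) * let1 ((z (Fin.last k))⁻¹ * z 0 * x) k) u =
      List.replicate (r + 1) (u * (z 0)⁻¹ * z j) := by
  have e : u = u * (z 0)⁻¹ * z 0 := by group
  have h1 : occ (j : ℕ) (wdL (perT r z) * let1 ((z (Fin.last k))⁻¹ * z 0 * x) k)
      (u * (z 0)⁻¹ * z 0) = List.replicate (r + 1) (u * (z 0)⁻¹ * z j) := by
    rw [occ_mul, perT, wdL_append, occ_mul, map_mul, prd_rep, one_mul, mul_one, occ_rep, occ_perI,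
      occ_let1, prd_perI, List.replicate_succ', List.append_assoc]
    congr 1
    by_cases h : (j : ℕ) < k
    · rw [dif_pos h, if_neg h.ne', List.append_nil]
    · have hj : j = Fin.last k := Fin.ext (by have := j.2; rw [Fin.val_last]; omega)
      rw [dif_neg h, if_pos (by rw [hj, Fin.val_last]), List.nil_append,
        mul_assoc _ (z 0) ((z 0)⁻¹ * z (Fin.last k)), mul_inv_cancel_left, hj]
  rw [← e] at h1
  exact h1

/-- The value of `wf` on the periodic word. -/
theorem wf_per {B : Type v} [CommRing B] {c : G} {q : ℕ} (hq : 0 < q)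
    {Φ : (Fin (k + 1) → Fin q → G) → B} (hΦ : IsInv c Φ) (z : Fin (k + 1) → G) (x u : G)
    (hu : u * x * u⁻¹ = c) (hz : ∀ j, z j * x = x * z j) :
    wf c Φ (fun j => (j : ℕ))
      (wdL (perT (q - 1) z) * let1 ((z (Fin.last k))⁻¹ * z 0 * x) k) = Φ fun j _ => u * z j := by
  have hq1 : q - 1 + 1 = q := by omega
  have hcnt : ∀ j : Fin (k + 1), cnt (j : ℕ)
      (wdL (perT (q - 1) z) * let1 ((z (Fin.last k))⁻¹ * z 0 * x) k) = q := by
    intro j
    rw [cnt, occ_per, List.length_replicate, hq1]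
  rw [wf_eq hΦ _ _ hcnt (u * z 0) (by
    rw [prd_per, ← hu, mul_assoc u, hz 0]
    group)]
  congr 1
  funext j t
  rw [rd, occ_per, List.getD_eq_getElem _ _ (by rw [List.length_replicate, hq1]; exact t.2),
    List.getElem_replicate]
  group

theorem wf_per_zero {B : Type v} [CommRing B] {c : G} {q : ℕ}
    (Φ : (Fin (k + 1) → Fin q → G) → B) (z : Fin (k + 1) → G) (x : G)
    (hu : ∀ u : G, u * x * u⁻¹ ≠ c) :
    wf c Φ (fun j => (j : ℕ))
      (wdL (perT (q - 1) z) * let1 ((z (Fin.last k))⁻¹ * z 0 * x) k) = 0 := by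
  refine wf_of_prd _ _ _ fun y => ?_
  rw [prd_per]
  exact hu y

end

end Pool.Agent.H71.FQ

end

section

/-!
# Algebraically independent `p`-adic integers with prescribed residues

PROOF. By induction on `r` (split off the last index, `Fin.snoc`). Suppose that `t₁, …, t_r` are
chosen. The subring `ℤ[t₁, …, t_r]` of `ℤ_[p]` is countable, so the set of elements of `ℤ_[p]` which
are algebraic over it is countable (`Algebraic.countable` / cardinality lemmas for algebraic
elements), while `a_{r+1} + p ℤ_[p]` is uncountable (it is a translate of the image of `ℤ_[p]` under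
the injective map `x ↦ p x`, and `ℤ_[p]` is uncountable, e.g. `ℕ → Fin 2` injects into `ℤ_[p]`, or
`ℤ_[p]` is a complete metric space without isolated points / Mathlib may know the cardinality).
Take `t_{r+1}` in it, transcendental over `ℤ[t₁, …, t_r]`, and use the lemmas on
`AlgebraicIndependent` (`AlgebraicIndependent` is by definition the injectivity of `MvPolynomial.aeval`;
see `algebraicIndependent_option`, `AlgebraicIndependent.option_iff`, `Transcendental`).
-/

set_option autoImplicit false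

namespace Pool.Agent.H71.KP

/-- A residue class modulo `p` is not contained in a countable set. -/
theorem AlgInd_exists_notMem (p : ℕ) [Fact p.Prime] (C : Set ℤ_[p]) (hC : C.Countable)
    (a : ℤ_[p]) : ∃ x : ℤ_[p], x ∉ C ∧ (p : ℤ_[p]) ∣ x - a := by
  have h1 : ((fun x : ℤ_[p] => (x : ℚ_[p])) '' C).Countable := hC.image _
  have h2 : Dense ((fun x : ℤ_[p] => (x : ℚ_[p])) '' C)ᶜ := h1.dense_compl ℚ_[p]
  obtain ⟨y, hyC, hy⟩ := Metric.dense_iff.mp h2 (a : ℚ_[p]) 1 one_pos
  have hy1 : ‖y - (a : ℚ_[p])‖ < 1 := by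
    have := hyC; rwa [Metric.mem_ball, dist_eq_norm] at this
  have hz : ‖y - (a : ℚ_[p])‖ ≤ 1 := hy1.le
  set z : ℤ_[p] := ⟨y - (a : ℚ_[p]), hz⟩ with hzdef
  refine ⟨z + a, ?_, ?_⟩
  · intro hmem
    apply hy
    refine ⟨z + a, hmem, ?_⟩
    show ((z + a : ℤ_[p]) : ℚ_[p]) = y
    rw [PadicInt.coe_add, hzdef]
    simp
  · rw [add_sub_cancel_right, ← PadicInt.norm_lt_one_iff_dvd]
    exact hy1

theorem AlgInd_aux (p : ℕ) [Fact p.Prime] : ∀ (r : ℕ) (a : Fin r → ℤ_[p]),
    ∃ t : Fin r → ℤ_[p], (∀ i, (p : ℤ_[p]) ∣ t i - a i) ∧ AlgebraicIndependent ℤ t := by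
  intro r
  induction r with
  | zero =>
    intro a
    refine ⟨a, fun i => i.elim0, ?_⟩
    rw [algebraicIndependent_empty_type_iff]
    exact Int.cast_injective
  | succ r ih =>
    intro a
    obtain ⟨t, ht, hind⟩ := ih (fun i => a i.castSucc)
    have hcount : Countable (Algebra.adjoin ℤ (Set.range t)) := by
      rw [Algebra.adjoin_range_eq_range_aeval]
      have : Countable (MvPolynomial (Fin r) ℤ) := by
        have h := MvPolynomial.cardinalMk_le_max (σ := Fin r) (R := ℤ)
        rw [← Cardinal.mk_le_aleph0_iff]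
        refine h.trans ?_
        simp
      exact (Set.countable_range _).to_subtype
    have hC : {x : ℤ_[p] | IsAlgebraic (Algebra.adjoin ℤ (Set.range t)) x}.Countable :=
      Algebraic.countable _ _
    obtain ⟨x, hx, hxa⟩ := AlgInd_exists_notMem p _ hC (a (Fin.last r))
    have hopt := (hind.option_iff_transcendental x).mpr hx
    refine ⟨fun i => (finSuccEquivLast i).elim x t, ?_, ?_⟩
    · intro i
      induction i using Fin.lastCases with
      | last => simpa using hxa
      | cast i => simpa using ht i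
    · exact hopt.comp finSuccEquivLast finSuccEquivLast.injective

/-- There are algebraically independent `p`-adic integers congruent to given ones modulo `p`. -/
theorem exists_algInd (p : ℕ) [Fact p.Prime] (r : ℕ) (a : Fin r → ℤ_[p]) :
    ∃ t : Fin r → ℤ_[p], (∀ i, (p : ℤ_[p]) ∣ t i - a i) ∧
      Function.Injective (MvPolynomial.aeval t : MvPolynomial (Fin r) ℤ →ₐ[ℤ] ℤ_[p]) := by
  obtain ⟨t, ht, hi⟩ := AlgInd_aux p r a
  exact ⟨t, ht, hi⟩

end Pool.Agent.H71.KP

end

section

/-!
# Logarithmic derivatives and traces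
-/

set_option autoImplicit false

universe u v w t

namespace Pool.Agent.H71.KP

/-- A derivation `D` of a ring `M` and a trace `τ` vanishing on the image of `D`. -/
structure DT (M : Type u) [Ring M] (B : Type v) [AddCommGroup B] where
  /-- the derivation -/
  D : M →+ M
  leib : ∀ x y, D (x * y) = D x * y + x * D y
  /-- the trace -/
  τ : M →+ B
  comm : ∀ x y, τ (x * y) = τ (y * x)
  τD : ∀ x, τ (D x) = 0

namespace DT

variable {M : Type u} [Ring M] {B : Type v} [AddCommGroup B] (t : DT M B)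

/-- the logarithmic derivative -/
def dlog (u : Mˣ) : B := t.τ (((u⁻¹ : Mˣ) : M) * t.D (u : M))

theorem dlog_mul (u v : Mˣ) : t.dlog (u * v) = t.dlog u + t.dlog v := by
  rw [dlog, dlog, dlog, Units.val_mul, t.leib, mul_inv_rev, Units.val_mul]
  have h1 : ((v⁻¹ : Mˣ) : M) * ((u⁻¹ : Mˣ) : M) * (t.D (u : M) * v + u * t.D (v : M)) =
      ((v⁻¹ : Mˣ) : M) * (((u⁻¹ : Mˣ) : M) * t.D (u : M) * v) +
        ((v⁻¹ : Mˣ) : M) * ((((u⁻¹ : Mˣ) : M) * u) * t.D (v : M)) := by
    noncomm_ring
  rw [h1, Units.inv_mul, one_mul, map_add, t.comm, mul_assoc, Units.mul_inv, mul_one]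

theorem D_one : t.D 1 = 0 := by
  have h := t.leib 1 1
  rw [mul_one, one_mul, mul_one] at h
  exact add_eq_left.1 h.symm

theorem τ_pow (a : M) (k j : ℕ) :
    t.τ (a ^ j * t.D (a ^ (k + 1))) = (k + 1) • t.τ (a ^ (j + k) * t.D a) := by
  induction k generalizing j with
  | zero => simp
  | succ k ih =>
    rw [pow_succ a (k + 1), t.leib, mul_add, map_add, ← mul_assoc, t.comm, ← mul_assoc, ← pow_succ',
      ih, ← mul_assoc, ← pow_add, add_smul, one_smul, add_smul, one_smul]
    have e1 : j + 1 + k = j + (k + 1) := by ring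
    rw [e1, add_smul, one_smul]

theorem succ_smul (a : M) (k : ℕ) : (k + 1) • t.τ (a ^ k * t.D a) = 0 := by
  have h := t.τ_pow a k 0
  rw [pow_zero, one_mul, t.τD, zero_add] at h
  exact h.symm

variable {p : ℕ} [hp : Fact p.Prime]

theorem pow_smul_eq_zero {n : ℕ} (hB : ∀ b : B, p ^ n • b = 0) (a : M) (k : ℕ) :
    p ^ (k + 1) • t.τ (a ^ k * t.D a) = 0 := by
  have h1 : addOrderOf (t.τ (a ^ k * t.D a)) ∣ p ^ n := addOrderOf_dvd_of_nsmul_eq_zero (hB _)
  have h2 : addOrderOf (t.τ (a ^ k * t.D a)) ∣ k + 1 :=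
    addOrderOf_dvd_of_nsmul_eq_zero (t.succ_smul a k)
  obtain ⟨j, _, hj⟩ := (Nat.dvd_prime_pow hp.out).1 h1
  rw [hj] at h2
  have h3 : j < p ^ j := Nat.lt_pow_self hp.out.one_lt
  have h4 : p ^ j ≤ k + 1 := Nat.le_of_dvd (Nat.succ_pos k) h2
  apply addOrderOf_dvd_iff_nsmul_eq_zero.1
  rw [hj]
  exact pow_dvd_pow p (by omega)

/-- The logarithmic derivative of units congruent to `1` modulo `p` vanishes. -/
theorem dlog_eq_zero {n : ℕ} (hB : ∀ b : B, p ^ n • b = 0) (hM : (p : M) ^ n = 0) (u : Mˣ) (a : M)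
    (hu : (u : M) = 1 + (p : M) * a) : t.dlog u = 0 := by
  have hcomm : ∀ (x : M) (i : ℕ), x * (p : M) ^ i = (p : M) ^ i * x := fun x i =>
    ((Nat.cast_commute p x).symm.pow_right i).eq
  have hpow : ∀ k, (-((p : M) * a)) ^ k = (-1) ^ k * ((p : M) ^ k * a ^ k) := by
    intro k
    rw [neg_pow, (Nat.cast_commute p a).mul_pow]
  have hinv : ((u⁻¹ : Mˣ) : M) = ∑ k ∈ Finset.range n, (-((p : M) * a)) ^ k := by
    have h1 : (u : M) * ∑ k ∈ Finset.range n, (-((p : M) * a)) ^ k = 1 := by
      have h2 := mul_neg_geom_sum (-((p : M) * a)) n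
      rw [sub_neg_eq_add] at h2
      rw [hu, h2, hpow, hM, zero_mul, mul_zero, sub_zero]
    calc ((u⁻¹ : Mˣ) : M) = ((u⁻¹ : Mˣ) : M) *
          ((u : M) * ∑ k ∈ Finset.range n, (-((p : M) * a)) ^ k) := by rw [h1, mul_one]
      _ = _ := by rw [← mul_assoc, Units.inv_mul, one_mul]
  have hD : t.D (u : M) = (p : M) * t.D a := by
    rw [hu, map_add, t.D_one, zero_add, ← nsmul_eq_mul, map_nsmul, nsmul_eq_mul]
  rw [dlog, hinv, hD, Finset.sum_mul, map_sum]
  apply Finset.sum_eq_zero
  intro k _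
  have h3 : (-((p : M) * a)) ^ k * ((p : M) * t.D a) =
      ((-1) ^ k : ℤ) • (p ^ (k + 1) • (a ^ k * t.D a)) := by
    rw [hpow, nsmul_eq_mul, zsmul_eq_mul]
    push_cast
    rw [pow_succ (p : M) k, mul_assoc ((-1) ^ k), mul_assoc ((p : M) ^ k), mul_assoc ((p : M) ^ k),
      ← mul_assoc (a ^ k), ← mul_assoc (p : M)]
    congr 3
    have := hcomm (a ^ k) 1
    rwa [pow_one] at this
  rw [h3, map_zsmul, map_nsmul, t.pow_smul_eq_zero hB, smul_zero]

end DT

/-- Naturality of the logarithmic derivative. -/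
theorem dlog_map {M : Type u} [Ring M] {M' : Type w} [Ring M'] {B : Type v} [AddCommGroup B]
    {B' : Type t} [AddCommGroup B'] (s : DT M B) (s' : DT M' B') (φ : M →+* M') (β : B →+ B')
    (hD : ∀ x, s'.D (φ x) = φ (s.D x)) (hτ : ∀ x, s'.τ (φ x) = β (s.τ x)) (u : Mˣ) :
    s'.dlog (Units.map φ.toMonoidHom u) = β (s.dlog u) := by
  rw [DT.dlog, DT.dlog, ← hτ, map_mul φ, ← hD, ← map_inv]
  rfl

end Pool.Agent.H71.KP

end

section

/-!
# Finitely generated domains of characteristic zero

PROOF. Let `K` be the fraction field of `R`, a finitely generated field extension of `ℚ`, let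
`a₁, …, a_m` generate the ring `R`, and choose a transcendence basis `x₁, …, x_r` of `K` over `ℚ`
among the `a_i` (or by `exists_isTranscendenceBasis`...; it may be chosen inside `R`). Then
`A = MvPolynomial (Fin r) ℤ` embeds in `R` (`X i ↦ x_i`); `K` is a finite separable extension of
`Q = Frac A` (characteristic zero), so it has a primitive element `θ`, which we may multiply by a
nonzero element of `A` so that it is integral over `A`. As `A` is integrally closed (it is a unique
factorisation domain) the minimal polynomial `F` of `θ` over `A` is monic and is also the minimal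
polynomial over `Q` (`minpoly.isIntegrallyClosed_eq_field_fractions'`). It is separable over `Q`, so
`A₀ F + B₀ F' = 1` in `Q[X]`; clearing denominators gives `A`, `B`, `D`. Every `a_j` is of the form
`P_j(θ) / h_j` with `P_j` in `A[X]` and `h_j ≠ 0` in `A`; let `h` be the product of the `h_j`.

Let now `ψ : A → T` be injective, `ψ h` a unit, `y` a root of `F^ψ`. Let `L = Frac T`. Then `ψ`
extends to `Q → L` and, as `F` is the minimal polynomial of `θ` over `Q`, to a field homomorphism
`K = Q(θ) → L`, `θ ↦ y`. It maps `a_j` to `P_j(y) / ψ(h_j)`, which is in (the image of) `T`, since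
`ψ (h_j)` divides the unit `ψ h`. So it maps `R` to `T`, injectively.
-/

set_option autoImplicit false

universe u

open Polynomial

namespace Pool.Agent.H71.KP

/-- The presentation over an integrally closed domain over which `R` is algebraic. -/
theorem FinGen_core {A' R : Type*} [CommRing A'] [IsDomain A'] [IsIntegrallyClosed A']
    [CharZero A'] [CommRing R] [IsDomain R] [Algebra A' R] [FaithfulSMul A' R]
    [Algebra.IsAlgebraic A' R] (s : Finset R) (hs : Algebra.adjoin ℤ (s : Set R) = ⊤) :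
    ∃ (h D : A') (F A B : A'[X]),
      h ≠ 0 ∧ D ≠ 0 ∧ F.Monic ∧ 0 < F.natDegree ∧ A * F + B * derivative F = C D ∧
      ∀ (T : Type) [CommRing T] [IsDomain T] (ψ : A' →+* T) (y : T),
        Function.Injective ψ → IsUnit (ψ h) → eval₂ ψ y F = 0 →
          ∃ f : R →+* T, Function.Injective f := by
  classical
  let Q := FractionRing A'
  let K := FractionRing R
  let _ : Algebra Q K := FractionRing.liftAlgebra A' K
  have : IsScalarTower A' Q K := FractionRing.isScalarTower_liftAlgebra A' K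
  have : Algebra.IsAlgebraic A' K := (IsFractionRing.isAlgebraic_iff' A' R K).1 inferInstance
  have : Algebra.IsAlgebraic Q K :=
    (IsFractionRing.comap_isAlgebraic_iff (A := A') (K := Q) (C := K)).1 inferInstance
  have : Algebra.FiniteType ℤ R := ⟨⟨s, hs⟩⟩
  have : Algebra.EssFiniteType ℤ K := Algebra.EssFiniteType.comp ℤ R K
  have : Algebra.EssFiniteType Q K := Algebra.EssFiniteType.of_comp ℤ Q K
  have : Module.Finite Q K := Algebra.finite_of_essFiniteType_of_isAlgebraic
  obtain ⟨θ, hθ⟩ := Field.exists_primitive_element Q K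
  obtain ⟨c, hc0, hc⟩ := (Algebra.IsAlgebraic.isAlgebraic (R := A') θ).exists_integral_multiple
  have hinjQ : Function.Injective (algebraMap A' Q) := IsFractionRing.injective A' Q
  have hθ' : IntermediateField.adjoin Q {c • θ} = ⊤ := by
    rw [eq_top_iff, ← hθ, IntermediateField.adjoin_simple_le_iff]
    have h1 : θ = ((algebraMap A' Q c)⁻¹ : Q) • (c • θ) := by
      rw [← algebraMap_smul Q c θ, smul_smul, inv_mul_cancel₀, one_smul]
      intro h0
      exact hc0 (hinjQ (by rw [h0, map_zero]))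
    have h2 : ((algebraMap A' Q c)⁻¹ : Q) • (c • θ) ∈ IntermediateField.adjoin Q {c • θ} :=
      IntermediateField.smul_mem (IntermediateField.adjoin Q {c • θ})
        (IntermediateField.mem_adjoin_simple_self Q (c • θ))
    rw [← h1] at h2
    exact h2
  set θ' : K := c • θ with hθdef
  have hadj : Algebra.adjoin Q {θ'} = ⊤ :=
    Algebra.adjoin_eq_top_of_primitive_element (Algebra.IsAlgebraic.isAlgebraic θ') hθ'
  set F : A'[X] := minpoly A' θ' with hFdef
  have hF : minpoly Q θ' = F.map (algebraMap A' Q) :=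
    minpoly.isIntegrallyClosed_eq_field_fractions' Q hc
  obtain ⟨a, b, hab⟩ : IsCoprime (minpoly Q θ') (derivative (minpoly Q θ')) :=
    Algebra.IsSeparable.isSeparable Q θ'
  obtain ⟨d₁, hd₁, hA0⟩ := IsLocalization.integerNormalization_spec (nonZeroDivisors A') a
  obtain ⟨d₂, hd₂, hB0⟩ := IsLocalization.integerNormalization_spec (nonZeroDivisors A') b
  have hgen : ∀ z : R, ∃ (P : A'[X]) (h₀ : A'), h₀ ≠ 0 ∧
      aeval θ' P = h₀ • algebraMap R K z := by
    intro z
    have h1 : algebraMap R K z ∈ Algebra.adjoin Q {θ'} := by rw [hadj]; trivial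
    rw [Algebra.adjoin_singleton_eq_range_aeval] at h1
    obtain ⟨P, hP⟩ := h1
    obtain ⟨d, hd, hP0⟩ := IsLocalization.integerNormalization_spec (nonZeroDivisors A') P
    refine ⟨IsLocalization.integerNormalization (nonZeroDivisors A') P, d,
      nonZeroDivisors.ne_zero hd, ?_⟩
    have hP' : aeval θ' P = algebraMap R K z := hP
    rw [← aeval_map_algebraMap Q, hP0, ← algebraMap_smul Q d P, map_smul,
      algebraMap_smul, hP']
  choose P h₀ hh₀ hP using hgen
  refine ⟨(∏ z ∈ s, h₀ z), d₁ * d₂, F,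
    C d₂ * IsLocalization.integerNormalization (nonZeroDivisors A') a,
    C d₁ * IsLocalization.integerNormalization (nonZeroDivisors A') b, Finset.prod_ne_zero_iff.2 fun z _ => hh₀ z,
    mul_ne_zero (nonZeroDivisors.ne_zero hd₁) (nonZeroDivisors.ne_zero hd₂),
    minpoly.monic hc, minpoly.natDegree_pos hc, ?_, ?_⟩
  · apply Polynomial.map_injective (algebraMap A' Q) hinjQ
    simp only [Polynomial.map_add, Polynomial.map_mul, Polynomial.map_C, hA0, hB0,
      ← Polynomial.derivative_map, ← hF]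
    rw [← algebraMap_smul Q d₁ a, ← algebraMap_smul Q d₂ b, smul_eq_C_mul, smul_eq_C_mul,
      map_mul, C_mul]
    linear_combination (C (algebraMap A' Q d₁) * C (algebraMap A' Q d₂)) * hab
  · intro T _ _ ψ y hψ hu hy
    let L := FractionRing T
    have hinjL : Function.Injective (algebraMap T L) := IsFractionRing.injective T L
    have hg0 : Function.Injective ((algebraMap T L).comp ψ) := hinjL.comp hψ
    let ψ' : Q →+* L := IsFractionRing.lift hg0
    let _ : Algebra Q L := ψ'.toAlgebra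
    have hψ' : ∀ x : A', ψ' (algebraMap A' Q x) = algebraMap T L (ψ x) := fun x =>
      IsFractionRing.lift_algebraMap hg0 x
    have hcomp : ψ'.comp (algebraMap A' Q) = (algebraMap T L).comp ψ := RingHom.ext hψ'
    let pb : PowerBasis Q K :=
      PowerBasis.ofAdjoinEqTop (Algebra.IsIntegral.isIntegral (R := Q) θ') hadj
    have hpb : pb.gen = θ' := rfl
    have hroot : aeval (algebraMap T L y) (minpoly Q pb.gen) = 0 := by
      rw [hpb, hF, aeval_def, eval₂_map]
      show eval₂ (ψ'.comp (algebraMap A' Q)) _ _ = 0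
      rw [hcomp, ← Polynomial.hom_eval₂, hy, map_zero]
    let φ : K →ₐ[Q] L := pb.lift (algebraMap T L y) hroot
    have hφθ : φ θ' = algebraMap T L y := pb.lift_gen _ hroot
    have hφA : ∀ x : A', φ (algebraMap A' K x) = algebraMap T L (ψ x) := by
      intro x
      rw [IsScalarTower.algebraMap_apply A' Q K, AlgHom.commutes]
      exact hψ' x
    have hφP : ∀ p : A'[X], φ (aeval θ' p) = algebraMap T L (eval₂ ψ y p) := by
      intro p
      rw [aeval_def, ← RingHom.coe_coe φ, Polynomial.hom_eval₂, Polynomial.hom_eval₂]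
      congr 1
      exact RingHom.ext hφA
    let G : R →+* L := (φ : K →+* L).comp (algebraMap R K)
    have hGs : ∀ z ∈ s, G z ∈ (algebraMap T L).range := by
      intro z hz
      have h1 : φ (aeval θ' (P z)) = φ (h₀ z • algebraMap R K z) := by rw [hP]
      rw [hφP, Algebra.smul_def, map_mul, hφA] at h1
      have h2 : IsUnit (ψ (h₀ z)) := by
        rw [map_prod] at hu
        exact isUnit_of_dvd_unit (Finset.dvd_prod_of_mem (fun z => ψ (h₀ z)) hz) hu
      obtain ⟨v, hv⟩ := h2
      refine ⟨↑v⁻¹ * eval₂ ψ y (P z), ?_⟩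
      rw [map_mul, h1, ← mul_assoc, ← map_mul, ← hv, Units.inv_mul, map_one, one_mul]
      rfl
    have hG : ∀ z, G z ∈ (algebraMap T L).range := by
      intro z
      have hz : z ∈ Algebra.adjoin ℤ (s : Set R) := by rw [hs]; trivial
      induction hz using Algebra.adjoin_induction with
      | mem x hx => exact hGs x hx
      | algebraMap n =>
        refine ⟨(n : T), ?_⟩
        simp
      | add x y _ _ hx hy =>
        rw [map_add]
        exact add_mem hx hy
      | mul x y _ _ hx hy =>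
        rw [map_mul]
        exact mul_mem hx hy
    have hGinj : Function.Injective G :=
      (φ : K →+* L).injective.comp (IsFractionRing.injective R K)
    let e : T ≃+* (algebraMap T L).range := RingEquiv.ofBijective (algebraMap T L).rangeRestrict
      ⟨fun x y hxy => hinjL (congrArg Subtype.val hxy), (algebraMap T L).rangeRestrict_surjective⟩
    refine ⟨(e.symm : _ →+* T).comp (G.codRestrict _ hG), ?_⟩
    refine e.symm.injective.comp fun x y hxy => hGinj ?_
    exact congrArg Subtype.val hxy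

/-- A generic presentation of a finitely generated domain of characteristic zero. -/
theorem exists_presentation (R : Type u) [CommRing R] [IsDomain R] [CharZero R]
    [Algebra.FiniteType ℤ R] :
    ∃ (r : ℕ) (h D : MvPolynomial (Fin r) ℤ) (F A B : (MvPolynomial (Fin r) ℤ)[X]),
      h ≠ 0 ∧ D ≠ 0 ∧ F.Monic ∧ 0 < F.natDegree ∧ A * F + B * derivative F = C D ∧
      ∀ (T : Type) [CommRing T] [IsDomain T] (ψ : MvPolynomial (Fin r) ℤ →+* T) (y : T),
        Function.Injective ψ → IsUnit (ψ h) → eval₂ ψ y F = 0 →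
          ∃ f : R →+* T, Function.Injective f := by
  classical
  obtain ⟨s, hs⟩ := (inferInstance : Algebra.FiniteType ℤ R).out
  have : Algebra.IsAlgebraic (Algebra.adjoin ℤ (s : Set R)) R := by
    rw [hs]
    exact ⟨fun x => isAlgebraic_algebraMap (⟨x, trivial⟩ : (⊤ : Subalgebra ℤ R))⟩
  obtain ⟨t, hts, ht⟩ := exists_isTranscendenceBasis_subset (R := ℤ) (A := R) (s : Set R)
  have : Finite t := Set.Finite.subset s.finite_toSet hts
  let e : Fin (Nat.card t) ≃ t := (Finite.equivFin t).symm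
  set x : Fin (Nat.card t) → R := fun i => (e i : R) with hx
  have hxb : IsTranscendenceBasis ℤ x := (isTranscendenceBasis_equiv e).2 ht
  let _ : Algebra (MvPolynomial (Fin (Nat.card t)) ℤ) R := (MvPolynomial.aeval x).toAlgebra
  have hinj : Function.Injective (MvPolynomial.aeval x : MvPolynomial _ ℤ →ₐ[ℤ] R) := hxb.1
  have : FaithfulSMul (MvPolynomial (Fin (Nat.card t)) ℤ) R :=
    (faithfulSMul_iff_algebraMap_injective _ _).2 hinj
  have : Algebra.IsAlgebraic (MvPolynomial (Fin (Nat.card t)) ℤ) R := by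
    have h1 := hxb.isAlgebraic
    exact Algebra.IsAlgebraic.of_ringHom_of_comp_eq
      (S := Algebra.adjoin ℤ (Set.range x)) (B := R)
      (f := hxb.1.aevalEquiv) (g := RingHom.id R) hxb.1.aevalEquiv.surjective
      Function.injective_id (RingHom.ext fun p => hxb.1.algebraMap_aevalEquiv p)
  exact ⟨Nat.card t, FinGen_core s hs⟩

end Pool.Agent.H71.KP

end

section

/-!
# Primes modulo which a polynomial has a root (Schur)

PROOF. Let `f` be nonconstant in `ℤ[X]`. If `f.eval 0 = 0` take `a = 0` and any prime `p > N`.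
Otherwise put `c = f.eval 0 ≠ 0`. Then `f.eval (c * M * t) = c * (1 + M * g(t))` for every integer
`M` and a polynomial `g` (all terms of positive degree of `f (c M t)` are divisible by `c M`),
e.g. via `Polynomial.sub_dvd_eval_sub`. Take `M = N !` and an integer `t` such that
`f.eval (c * M * t) ≠ c, -c` (finitely many `t` are excluded, as `f` is nonconstant). Then
`1 + M g(t) ≠ 1, -1`, so (it is also nonzero or any prime works) it has a prime divisor `p`; `p`
does not divide `M = N !`, hence `p > N`, and `p ∣ f.eval (c * M * t)`.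
-/

set_option autoImplicit false

open Polynomial

namespace Pool.Agent.H71.KP

/-- For every nonconstant integral polynomial there are arbitrarily large primes modulo which it
has a root. -/
theorem exists_prime_root (f : ℤ[X]) (hf : 0 < f.natDegree) (N : ℕ) :
    ∃ p : ℕ, p.Prime ∧ N < p ∧ ∃ a : ℤ, (p : ℤ) ∣ f.eval a := by
  by_cases hc : f.eval 0 = 0
  · obtain ⟨p, hp, hprime⟩ := Nat.exists_infinite_primes (N + 1)
    refine ⟨p, hprime, by omega, 0, ?_⟩
    rw [hc]
    exact dvd_zero _
  set c := f.eval 0 with hcdef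
  -- a good argument
  have hfin : ∀ e : ℤ, {x : ℤ | f.eval x = e}.Finite := by
    intro e
    have hne : f - C e ≠ 0 := by
      intro h0
      have h1 : f = C e := sub_eq_zero.1 h0
      rw [h1, natDegree_C] at hf
      exact absurd hf (lt_irrefl _)
    refine Set.Finite.subset (f - C e).roots.toFinset.finite_toSet ?_
    intro x hx
    have hx' : f.eval x = e := hx
    simp only [Finset.mem_coe, Multiset.mem_toFinset, mem_roots hne, IsRoot.def, eval_sub, eval_C,
      hx', sub_self]
  have hM : ((N.factorial : ℕ) : ℤ) ≠ 0 := by exact_mod_cast N.factorial_ne_zero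
  have hinj : Function.Injective fun t : ℤ => c * N.factorial * t := by
    intro t t' h
    exact mul_left_cancel₀ (mul_ne_zero hc hM) h
  have hbad : ({t : ℤ | f.eval (c * N.factorial * t) = c} ∪
      {t : ℤ | f.eval (c * N.factorial * t) = -c}).Finite :=
    ((hfin c).preimage hinj.injOn).union ((hfin (-c)).preimage hinj.injOn)
  obtain ⟨t, ht⟩ := hbad.infinite_compl.nonempty
  have ht1 : f.eval (c * N.factorial * t) ≠ c := fun h => ht (Or.inl h)
  have ht2 : f.eval (c * N.factorial * t) ≠ -c := fun h => ht (Or.inr h)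
  obtain ⟨k, hk⟩ := sub_dvd_eval_sub (c * N.factorial * t) 0 f
  rw [sub_zero, ← hcdef] at hk
  have hval : f.eval (c * N.factorial * t) = c * (1 + N.factorial * (t * k)) := by
    linear_combination hk
  have hne : (1 + (N.factorial : ℤ) * (t * k)).natAbs ≠ 1 := by
    intro h
    rcases Int.natAbs_eq_iff.1 h with h | h
    · apply ht1
      rw [hval, h]
      simp
    · apply ht2
      rw [hval, h]
      simp
  obtain ⟨p, hp, hpd⟩ := Nat.exists_prime_and_dvd hne
  have hpd' : (p : ℤ) ∣ 1 + (N.factorial : ℤ) * (t * k) := Int.natCast_dvd.2 hpd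
  refine ⟨p, hp, ?_, c * N.factorial * t, ?_⟩
  · by_contra hle
    rw [not_lt] at hle
    have h1 : (p : ℤ) ∣ (N.factorial : ℤ) := by
      exact_mod_cast (hp.dvd_factorial).2 hle
    have h2 : (p : ℤ) ∣ 1 := (Int.dvd_iff_dvd_of_dvd_add hpd').2 (h1.mul_right _)
    have h3 : p ∣ 1 := by exact_mod_cast h2
    exact hp.one_lt.ne' (Nat.dvd_one.1 h3)
  · rw [hval]
    exact hpd'.mul_left c

end Pool.Agent.H71.KP

end

section

/-!
# Embedding of finitely generated domains of characteristic zero in the `p`-adic integers (Cassels)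

PROOF. Take `r, h, D, F, A, B` from `exists_presentation`. As `h * D ≠ 0` there is a point
`a : Fin r → ℤ` with `(h * D)(a) ≠ 0` (`MvPolynomial.funext` or `MvPolynomial.exists_eval_ne_zero...`).
Let `N` be the absolute value of `(h * D)(a)`. The polynomial `F_a = F.map (MvPolynomial.eval a)` in
`ℤ[X]` is monic of positive degree, so by `exists_prime_root` there are a prime `p > N` and an
integer `b` with `p ∣ F_a.eval b`. By `exists_algInd` there is `t : Fin r → ℤ_[p]`, `t ≡ a` modulo
`p`, with `ψ = MvPolynomial.aeval t` injective. Then `ψ h ≡ h(a)` is not divisible by `p`, hence a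
unit of `ℤ_[p]`, and in the same way `ψ D` is a unit. For `F_t = F.map ψ` we have
`F_t.eval b ≡ F_a.eval b ≡ 0` modulo `p`, and `F_t.derivative.eval b` is a unit by
`A F + B F' = C D`. By Hensel's lemma (`hensels_lemma`, with coefficients in `ℤ_[p]`, or the
Henselian local ring instance) `F_t` has a root `y` in `ℤ_[p]`. Now apply the last property of
`exists_presentation`.
-/

set_option autoImplicit false

universe u

open Polynomial

namespace Pool.Agent.H71.KP

/-- **Cassels embedding theorem.** Every finitely generated domain of characteristic zero embeds in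
`ℤ_[p]` for some prime `p`. -/
theorem exists_padic_embedding (R : Type u) [CommRing R] [IsDomain R] [CharZero R]
    [Algebra.FiniteType ℤ R] :
    ∃ (p : ℕ) (_ : Fact p.Prime) (f : R →+* ℤ_[p]), Function.Injective f := by
  obtain ⟨r, h, D, F, A, B, hh, hD, hmon, hdeg, hAB, hlast⟩ := exists_presentation R
  have hhD : h * D ≠ 0 := mul_ne_zero hh hD
  obtain ⟨a, ha⟩ : ∃ a : Fin r → ℤ, MvPolynomial.eval a (h * D) ≠ 0 := by
    by_contra hcon
    push Not at hcon
    exact hhD (MvPolynomial.funext fun x => by rw [hcon x, map_zero])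
  set N := (MvPolynomial.eval a (h * D)).natAbs with hN
  set Fa : ℤ[X] := F.map (MvPolynomial.eval a) with hFa
  have hFadeg : 0 < Fa.natDegree := by
    rw [hFa, hmon.natDegree_map]
    exact hdeg
  obtain ⟨p, hp, hNp, b, hb⟩ := exists_prime_root Fa hFadeg N
  have hpf : Fact p.Prime := ⟨hp⟩
  obtain ⟨t, ht, hinj⟩ := exists_algInd p r (fun i => (a i : ℤ_[p]))
  set ψ : MvPolynomial (Fin r) ℤ →+* ℤ_[p] :=
    (MvPolynomial.aeval t : MvPolynomial (Fin r) ℤ →ₐ[ℤ] ℤ_[p]).toRingHom with hψ
  set I : Ideal ℤ_[p] := Ideal.span {(p : ℤ_[p])} with hI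
  set mk : ℤ_[p] →+* ℤ_[p] ⧸ I := Ideal.Quotient.mk I with hmk
  have hcomp : mk.comp ψ = (mk.comp (Int.castRingHom ℤ_[p])).comp (MvPolynomial.eval a) := by
    refine MvPolynomial.ringHom_ext (fun n => ?_) (fun i => ?_)
    · simp [hψ]
    · have e1 : ψ (MvPolynomial.X i) = t i := by simp [hψ]
      have e2 : MvPolynomial.eval a (MvPolynomial.X i) = a i := MvPolynomial.eval_X i
      rw [RingHom.comp_apply, RingHom.comp_apply, RingHom.comp_apply, e1, e2]
      change Ideal.Quotient.mk I (t i) = Ideal.Quotient.mk I ((a i : ℤ) : ℤ_[p])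
      rw [Ideal.Quotient.eq, hI, Ideal.mem_span_singleton]
      exact ht i
  have hdvd : ∀ x : ℤ_[p], mk x = 0 ↔ (p : ℤ_[p]) ∣ x := by
    intro x
    rw [hmk, Ideal.Quotient.eq_zero_iff_mem, hI, Ideal.mem_span_singleton]
  have hunit : ∀ x : ℤ_[p], ¬ (p : ℤ_[p]) ∣ x → ‖x‖ = 1 := by
    intro x hx
    rcases (PadicInt.norm_le_one x).lt_or_eq with h1 | h1
    · exact absurd ((PadicInt.norm_lt_one_iff_dvd x).1 h1) hx
    · exact h1
  have hint : ∀ k : ℤ, (p : ℤ_[p]) ∣ (k : ℤ_[p]) ↔ (p : ℤ) ∣ k := by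
    intro k
    rw [← PadicInt.norm_lt_one_iff_dvd, PadicInt.norm_int_lt_one_iff_dvd]
  have hprod : ¬ (p : ℤ) ∣ MvPolynomial.eval a (h * D) := by
    intro hd
    have h1 := Int.natAbs_dvd_natAbs.2 hd
    rw [Int.natAbs_natCast] at h1
    have h2 := Nat.le_of_dvd (Int.natAbs_pos.2 ha) h1
    omega
  have hψP : ∀ P : MvPolynomial (Fin r) ℤ, ¬ (p : ℤ) ∣ MvPolynomial.eval a P →
      ¬ (p : ℤ_[p]) ∣ ψ P := by
    intro P hP hd
    apply hP
    rw [← hint, ← hdvd]
    rw [← hdvd] at hd
    have h1 : mk (ψ P) = mk ((MvPolynomial.eval a P : ℤ) : ℤ_[p]) := RingHom.congr_fun hcomp P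
    rw [← h1]
    exact hd
  have hψh : ¬ (p : ℤ_[p]) ∣ ψ h := hψP h fun hd => hprod (by
    rw [map_mul]
    exact dvd_mul_of_dvd_left hd _)
  have hψD : ¬ (p : ℤ_[p]) ∣ ψ D := hψP D fun hd => hprod (by
    rw [map_mul]
    exact dvd_mul_of_dvd_right hd _)
  set Ft : ℤ_[p][X] := F.map ψ with hFt
  have hroot : (p : ℤ_[p]) ∣ Ft.eval (b : ℤ_[p]) := by
    have e1 : mk (Ft.eval (b : ℤ_[p])) = mk ((Fa.eval b : ℤ) : ℤ_[p]) := by
      have e2 : mk ((Fa.eval b : ℤ) : ℤ_[p]) =
          (mk.comp (Int.castRingHom ℤ_[p])) (eval₂ (MvPolynomial.eval a) b F) := by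
        rw [hFa, eval_map]
        rfl
      rw [e2, hom_eval₂, ← hcomp, hFt, eval_map, hom_eval₂]
      rfl
    rw [← hdvd, e1, hdvd, hint]
    exact hb
  have hder : ¬ (p : ℤ_[p]) ∣ (derivative Ft).eval (b : ℤ_[p]) := by
    intro hd
    apply hψD
    have h1 := congrArg (fun G => eval (b : ℤ_[p]) (G.map ψ)) hAB
    simp only [Polynomial.map_add, Polynomial.map_mul, eval_add, eval_mul, map_C, eval_C] at h1
    rw [← h1]
    refine dvd_add (dvd_mul_of_dvd_right hroot _) (dvd_mul_of_dvd_right ?_ _)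
    rw [← derivative_map]
    exact hd
  obtain ⟨y, hy, _⟩ := hensels_lemma (F := Ft) (a := (b : ℤ_[p])) (by
    simp only [coe_aeval_eq_eval]
    rw [hunit _ hder, one_pow]
    exact (PadicInt.norm_lt_one_iff_dvd _).2 hroot)
  have hy2 : eval₂ ψ y F = 0 := by
    rw [← eval_map]
    simpa [coe_aeval_eq_eval] using hy
  obtain ⟨f, hf⟩ := hlast ℤ_[p] ψ y hinj (PadicInt.isUnit_iff.2 (hunit _ hψh)) hy2
  exact ⟨p, hpf, f, hf⟩

end Pool.Agent.H71.KP

end

section

/-!
# Rationally isomorphic lattices modulo a prime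

Let `a : Matrix X Y ℤ`, `b : Matrix Y X ℤ`, `a b = n`, `b a = n`, `n ≠ 0`, and let `A h`, `B h` be matrices with
`A h * a = a * B h` for all `h`. Then in suitable `ℤ`-bases `A h` and `B h` are, modulo `p`, block upper and
block lower triangular with respect to a function `v`, with conjugate diagonal blocks.

## Paper proof

Smith normal form of `a` (`Submodule.exists_smith_normal_form_of_rank_eq` for the range of `a.mulVecLin` in
`X → ℤ`, which has full rank since `a b = n`; `a.mulVecLin` is injective since `b a = n`): there are invertible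
integral matrices `P` (`X × X`, inverse `P'`), `Q` (`Y × X`, inverse `Q'`) and integers `d i ≠ 0`, `i : X`, with
`P' a Q = diagonal d`. (Basis `β i` of `X → ℤ`, basis `γ i` of the range with `γ i = d i • β i`: `P` has the columns
`β i`; the columns of `Q` are the preimages of the `γ i` in `Y → ℤ`, a basis since `a.mulVecLin` is injective.)

Put `A' h = P' A h P`, `B' h = Q' B h Q`. From `A h a = a B h`: `A' h (diagonal d) = (diagonal d) B' h`, i.e.
`A' h i j * d j = d i * B' h i j`. Let `v i` be the exponent of `p` in `d i` (`padicValInt` or `multiplicity`),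
`d i = p ^ v i * u i`, `p ∤ u i`, and choose `u' i` with `u i u' i ≡ 1 mod p`.
- `v j < v i`: `A' h i j * u j = p ^ (v i - v j) * u i * B' h i j`, so `p ∣ A' h i j`.
- `v i < v j`: `A' h i j * p ^ (v j - v i) * u j = u i * B' h i j`, so `p ∣ B' h i j`.
- `v i = v j`: `A' h i j * u j = u i * B' h i j`; multiply by `u' j`.
-/

set_option autoImplicit false

open Matrix

universe u v w

namespace Pool.Agent.H95.WH

theorem exists_smn {X Y : Type v} [Fintype X] [Fintype Y] [DecidableEq X] [DecidableEq Y]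
    (n : ℕ) (hn : n ≠ 0) (a : Matrix X Y ℤ) (b : Matrix Y X ℤ)
    (hab : a * b = (n : ℤ) • (1 : Matrix X X ℤ)) (hba : b * a = (n : ℤ) • (1 : Matrix Y Y ℤ)) :
    ∃ (P P' : Matrix X X ℤ) (Q : Matrix Y X ℤ) (Q' : Matrix X Y ℤ) (d : X → ℤ),
      P * P' = 1 ∧ P' * P = 1 ∧ Q * Q' = 1 ∧ Q' * Q = 1 ∧ a * Q = P * diagonal d ∧
        ∀ i, d i ≠ 0 := by
  have hn' : (n : ℤ) ≠ 0 := by exact_mod_cast hn
  have hainj : Function.Injective a.mulVecLin := by
    rw [← LinearMap.ker_eq_bot, LinearMap.ker_eq_bot']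
    intro y hy
    have h1 : b *ᵥ (a *ᵥ y) = 0 := by
      have : a *ᵥ y = 0 := hy
      rw [this, mulVec_zero]
    rw [mulVec_mulVec, hba, smul_mulVec, one_mulVec] at h1
    exact (smul_eq_zero.1 h1).resolve_left hn'
  have hbinj : Function.Injective b.mulVecLin := by
    rw [← LinearMap.ker_eq_bot, LinearMap.ker_eq_bot']
    intro y hy
    have h1 : a *ᵥ (b *ᵥ y) = 0 := by
      have : b *ᵥ y = 0 := hy
      rw [this, mulVec_zero]
    rw [mulVec_mulVec, hab, smul_mulVec, one_mulVec] at h1
    exact (smul_eq_zero.1 h1).resolve_left hn'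
  have hfr : Module.finrank ℤ (Y → ℤ) = Module.finrank ℤ (X → ℤ) :=
    le_antisymm (LinearMap.finrank_le_finrank_of_injective hainj)
      (LinearMap.finrank_le_finrank_of_injective hbinj)
  have hfr' : Module.finrank ℤ (LinearMap.range a.mulVecLin) = Module.finrank ℤ (X → ℤ) := by
    rw [← hfr]
    exact (LinearEquiv.ofInjective a.mulVecLin hainj).finrank_eq.symm
  obtain ⟨β, d, γ, hγ⟩ := Submodule.exists_smith_normal_form_of_rank_eq (Pi.basisFun ℤ X) hfr'
  let c : Module.Basis X ℤ (Y → ℤ) := γ.map (LinearEquiv.ofInjective a.mulVecLin hainj).symm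
  have hc : ∀ i, a *ᵥ (c i) = d i • β i := by
    intro i
    rw [← hγ i]
    have h1 : LinearEquiv.ofInjective a.mulVecLin hainj (c i) = γ i := by
      rw [Module.Basis.map_apply, LinearEquiv.apply_symm_apply]
    rw [← h1]
    rfl
  refine ⟨(Pi.basisFun ℤ X).toMatrix β, β.toMatrix (Pi.basisFun ℤ X),
    (Pi.basisFun ℤ Y).toMatrix c, c.toMatrix (Pi.basisFun ℤ Y), d,
    Module.Basis.toMatrix_mul_toMatrix_flip _ _, Module.Basis.toMatrix_mul_toMatrix_flip _ _,
    Module.Basis.toMatrix_mul_toMatrix_flip _ _, Module.Basis.toMatrix_mul_toMatrix_flip _ _, ?_, ?_⟩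
  · ext x i
    have h1 := congrFun (hc i) x
    rw [mul_diagonal]
    have h2 : (a * (Pi.basisFun ℤ Y).toMatrix c) x i = (a *ᵥ (c i)) x := rfl
    rw [h2, h1]
    have h3 : ((Pi.basisFun ℤ X).toMatrix β) x i = β i x := rfl
    rw [h3, Pi.smul_apply, smul_eq_mul, mul_comm]
  · intro i hi
    apply γ.ne_zero i
    apply Subtype.ext
    rw [hγ i, hi, zero_smul]
    rfl

private theorem exists_val (p : ℕ) [Fact p.Prime] (d : ℤ) (hd : d ≠ 0) :
    ∃ (v : ℕ) (u u' : ℤ), d = (p : ℤ) ^ v * u ∧ ¬ (p : ℤ) ∣ u ∧ (p : ℤ) ∣ u * u' - 1 := by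
  have hp : Prime (p : ℤ) := Nat.prime_iff_prime_int.1 (Fact.out : p.Prime)
  have hfin : FiniteMultiplicity (p : ℤ) d := by
    rw [Int.finiteMultiplicity_iff]
    refine ⟨?_, hd⟩
    rw [Int.natAbs_natCast]
    exact (Fact.out : p.Prime).ne_one
  obtain ⟨u, h1, h2⟩ := hfin.exists_eq_pow_mul_and_not_dvd
  have hcop : IsCoprime (p : ℤ) u := (hp.irreducible.coprime_iff_not_dvd).2 h2
  obtain ⟨x, y, hxy⟩ := hcop
  refine ⟨_, u, y, h1, h2, -x, ?_⟩
  linear_combination hxy

theorem exists_modp (p : ℕ) [Fact p.Prime] {X Y : Type v} [Fintype X] [Fintype Y]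
    [DecidableEq X] [DecidableEq Y] (n : ℕ) (hn : n ≠ 0) (a : Matrix X Y ℤ) (b : Matrix Y X ℤ)
    (hab : a * b = (n : ℤ) • (1 : Matrix X X ℤ)) (hba : b * a = (n : ℤ) • (1 : Matrix Y Y ℤ))
    {H : Type w} (A : H → Matrix X X ℤ) (B : H → Matrix Y Y ℤ) (hAB : ∀ h, A h * a = a * B h) :
    ∃ (v : X → ℕ) (P P' : Matrix X X ℤ) (Q : Matrix Y X ℤ) (Q' : Matrix X Y ℤ) (u u' : X → ℤ),
      P * P' = 1 ∧ P' * P = 1 ∧ Q * Q' = 1 ∧ Q' * Q = 1 ∧ (∀ i, (p : ℤ) ∣ u i * u' i - 1) ∧
      (∀ h i j, v j < v i → (p : ℤ) ∣ (P' * A h * P) i j) ∧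
      (∀ h i j, v i < v j → (p : ℤ) ∣ (Q' * B h * Q) i j) ∧
      (∀ h i j, v i = v j →
        (p : ℤ) ∣ (P' * A h * P) i j - u i * (Q' * B h * Q) i j * u' j) := by
  have hp : Prime (p : ℤ) := Nat.prime_iff_prime_int.1 (Fact.out : p.Prime)
  have hp0 : (p : ℤ) ≠ 0 := hp.ne_zero
  obtain ⟨P, P', Q, Q', d, h1, h2, h3, h4, h5, hd⟩ := exists_smn n hn a b hab hba
  choose v u u' hv hu hu' using fun i => exists_val p (d i) (hd i)
  refine ⟨v, P, P', Q, Q', u, u', h1, h2, h3, h4, hu', ?_⟩
  have hPa : P' * a = diagonal d * Q' := by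
    have h6 : P' * (a * Q) * Q' = P' * a := by
      rw [Matrix.mul_assoc, Matrix.mul_assoc, h3, Matrix.mul_one]
    rw [← h6, h5, ← Matrix.mul_assoc P' P, h2, Matrix.one_mul]
  have key : ∀ h i j, (P' * A h * P) i j * d j = d i * (Q' * B h * Q) i j := by
    intro h i j
    have h7 : P' * A h * P * diagonal d = diagonal d * (Q' * B h * Q) := by
      calc P' * A h * P * diagonal d = P' * A h * (P * diagonal d) := Matrix.mul_assoc _ _ _
        _ = P' * (A h * a) * Q := by
            rw [← h5, ← Matrix.mul_assoc, Matrix.mul_assoc P' (A h) a]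
        _ = P' * a * B h * Q := by rw [hAB, ← Matrix.mul_assoc P' a]
        _ = diagonal d * (Q' * B h * Q) := by
            rw [hPa, Matrix.mul_assoc, Matrix.mul_assoc, Matrix.mul_assoc]
    have h8 := congrFun (congrFun h7 i) j
    rwa [mul_diagonal, diagonal_mul] at h8
  refine ⟨fun h i j hij => ?_, fun h i j hij => ?_, fun h i j hij => ?_⟩
  · obtain ⟨e, he⟩ := Nat.exists_eq_add_of_lt hij
    have h9 := key h i j
    rw [hv i, hv j, he, pow_add, pow_add, pow_one] at h9
    have h10 : (P' * A h * P) i j * u j = (p : ℤ) * ((p : ℤ) ^ e * u i * (Q' * B h * Q) i j) := by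
      apply mul_left_cancel₀ (pow_ne_zero (v j) hp0)
      linear_combination h9
    exact (hp.dvd_or_dvd (Dvd.intro _ h10.symm)).resolve_right (hu j)
  · obtain ⟨e, he⟩ := Nat.exists_eq_add_of_lt hij
    have h9 := key h i j
    rw [hv i, hv j, he, pow_add, pow_add, pow_one] at h9
    have h10 : u i * (Q' * B h * Q) i j = (p : ℤ) * ((p : ℤ) ^ e * u j * (P' * A h * P) i j) := by
      apply mul_left_cancel₀ (pow_ne_zero (v i) hp0)
      linear_combination -h9
    exact (hp.dvd_or_dvd (Dvd.intro _ h10.symm)).resolve_left (hu i)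
  · have h9 := key h i j
    rw [hv i, hv j, hij] at h9
    have h10 : (P' * A h * P) i j * u j = u i * (Q' * B h * Q) i j := by
      apply mul_left_cancel₀ (pow_ne_zero (v j) hp0)
      linear_combination h9
    obtain ⟨w, hw⟩ := hu' j
    refine ⟨-((P' * A h * P) i j * w), ?_⟩
    rw [← h10]
    linear_combination -(P' * A h * P) i j * hw

end Pool.Agent.H95.WH

end
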