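import Pool.Agent.H13.TFQ.H71.FJ.K0_1
import Pool.Agent.H13.TFQ.H71.FQ.KQ_1
import Pool.Agent.H13.TFQ.H71.FQ.St
import Pool.Agent.H13.TFQ.M04
import Pool.Agent.H13.TFQ.M09
import Pool.Agent.H13.TFQ.M11

/-! The parts of this file: H71.FQ.MorB, H71.FQ.Fun, H71.FQ.StA, H71.FU0.E1, H71.FU1.Fun1. -/

section

/-!
# Project FQ, Morita invariance, part B: matrix rings

`ratInj_matrix`: rational injectivity of the assembly map for `R` implies rational injectivity for the matrix rings
over `R`.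
-/

set_option autoImplicit false

open Matrix

universe u v w

namespace Pool.Agent.H71.FQ

open Pool.Agent.H71.FJ (MatEquiv IdemMat K0 K0.mk K0.lift K0.lift_mk K0.hom_ext K0.map K0.flat K0.flat_mul K0.push K0.push_mk K0.cls K0.cls_congr K0.cls_fromBlocks K0.flat_idem K0.fromBlocks_idem K0.matEquiv_submatrix K0.mk_eq_cls K0.push_congr K0.map_push K0.push_map)

section Scalar

variable {S : Type u} [Ring S]

theorem cls_empty {ι : Type*} [Fintype ι] [DecidableEq ι] [IsEmpty ι] (e : Matrix ι ι S)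
    (he : e * e = e) : K0.cls e he = 0 := by
  have h := K0.cls_fromBlocks he he
  have h1 : K0.cls (fromBlocks e 0 0 e) (K0.fromBlocks_idem he he) = K0.cls e he :=
    K0.cls_congr _ _ ⟨0, 0, Subsingleton.elim _ _, Subsingleton.elim _ _⟩
  rw [h1] at h
  exact left_eq_add.1 h

/-- the last element of `Fin (r + 1)` split off -/
def splitE (ι : Type*) (r : ℕ) : (ι × Fin r) ⊕ ι ≃ ι × Fin (r + 1) where
  toFun := Sum.elim (fun p => (p.1, p.2.castSucc)) fun i => (i, Fin.last r)
  invFun p := Fin.lastCases (motive := fun _ => (ι × Fin r) ⊕ ι) (Sum.inr p.1)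
    (fun j => Sum.inl (p.1, j)) p.2
  left_inv := by
    rintro (⟨i, j⟩ | i)
    · show Fin.lastCases (motive := fun _ => (ι × Fin r) ⊕ ι) (Sum.inr i)
        (fun j => Sum.inl (i, j)) j.castSucc = _
      rw [Fin.lastCases_castSucc]
    · show Fin.lastCases (motive := fun _ => (ι × Fin r) ⊕ ι) (Sum.inr i)
        (fun j => Sum.inl (i, j)) (Fin.last r) = _
      rw [Fin.lastCases_last]
  right_inv := by
    rintro ⟨i, j⟩
    induction j using Fin.lastCases with
    | last =>
      show Sum.elim _ _ (Fin.lastCases (motive := fun _ => (ι × Fin r) ⊕ ι) (Sum.inr i)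
        (fun j => Sum.inl (i, j)) (Fin.last r)) = _
      rw [Fin.lastCases_last]
      rfl
    | cast j =>
      show Sum.elim _ _ (Fin.lastCases (motive := fun _ => (ι × Fin r) ⊕ ι) (Sum.inr i)
        (fun j => Sum.inl (i, j)) j.castSucc) = _
      rw [Fin.lastCases_castSucc]
      rfl

theorem cls_flat_scalar {ι : Type*} [Fintype ι] [DecidableEq ι] (e : Matrix ι ι S)
    (he : e * e = e) (r : ℕ) :
    K0.cls (K0.flat (Matrix.scalar (Fin r)) e) (K0.flat_idem _ he) = r • K0.cls e he := by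
  induction r with
  | zero => rw [cls_empty, zero_smul]
  | succ r ih =>
    rw [succ_nsmul, ← ih, ← K0.cls_fromBlocks]
    apply K0.cls_congr
    have h : fromBlocks (K0.flat (Matrix.scalar (Fin r)) e) 0 0 e =
        (K0.flat (Matrix.scalar (Fin (r + 1))) e).submatrix (splitE ι r) (splitE ι r) := by
      ext i j
      rcases i with ⟨i, a⟩ | i <;> rcases j with ⟨j, b⟩ | j
      · show Matrix.scalar (Fin r) (e i j) a b =
          Matrix.scalar (Fin (r + 1)) (e i j) a.castSucc b.castSucc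
        rw [Matrix.scalar_apply, Matrix.scalar_apply, Matrix.diagonal_apply, Matrix.diagonal_apply]
        simp
      · show 0 = Matrix.scalar (Fin (r + 1)) (e i j) a.castSucc (Fin.last r)
        rw [Matrix.scalar_apply, Matrix.diagonal_apply, if_neg (Fin.castSucc_lt_last a).ne]
      · show 0 = Matrix.scalar (Fin (r + 1)) (e i j) (Fin.last r) b.castSucc
        rw [Matrix.scalar_apply, Matrix.diagonal_apply, if_neg (Fin.castSucc_lt_last b).ne']
      · show e i j = Matrix.scalar (Fin (r + 1)) (e i j) (Fin.last r) (Fin.last r)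
        rw [Matrix.scalar_apply, Matrix.diagonal_apply_eq]
    obtain ⟨x, y, h1, h2⟩ := K0.matEquiv_submatrix _ (K0.flat_idem (Matrix.scalar (Fin (r + 1))) he)
      (splitE ι r)
    exact ⟨y, x, h2, by rw [h1, h]⟩

/-- the diagonal embedding into the matrices multiplies by the size -/
theorem push_scalar (r : ℕ) (x : K0 S) : K0.push (Matrix.scalar (Fin r)) x = r • x := by
  have h : K0.push (Matrix.scalar (Fin r) : S →+* _) = r • AddMonoidHom.id (K0 S) := by
    apply K0.hom_ext
    intro a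
    rw [K0.push_mk, cls_flat_scalar _ a.idem, ← K0.mk_eq_cls]
    rfl
  rw [h]
  rfl

end Scalar

section Mat

variable {R : Type u} [Ring R] {R' : Type w} [Ring R'] {r : ℕ}

/-- the group elements as diagonal matrices over the group ring -/
noncomputable def scG (R : Type u) [Ring R] (r : ℕ) (F : Type v) [Group F] :
    F →* Matrix (Fin r) (Fin r) (MonoidAlgebra R F) where
  toFun g := Matrix.diagonal fun _ => MonoidAlgebra.single g 1
  map_one' := by
    rw [← Matrix.diagonal_one]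
    rfl
  map_mul' g h := by
    rw [Matrix.diagonal_mul_diagonal]
    congr 1
    funext _
    rw [MonoidAlgebra.single_mul_single, mul_one]

/-- the constants -/
noncomputable def coM (ρ : R' →+* Matrix (Fin r) (Fin r) R) (F : Type v) [Group F] :
    R' →+* Matrix (Fin r) (Fin r) (MonoidAlgebra R F) :=
  (MonoidAlgebra.singleOneRingHom : R →+* MonoidAlgebra R F).mapMatrix.comp ρ

theorem coM_mul (ρ : R' →+* Matrix (Fin r) (Fin r) R) (F : Type v) [Group F] (a : R') (g : F) :
    coM ρ F a * scG R r F g = (ρ a).map fun b => MonoidAlgebra.single g b := by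
  refine Matrix.ext fun i j => ?_
  have h1 : (coM ρ F a * scG R r F g) i j =
      coM ρ F a i j * MonoidAlgebra.single g (1 : R) := Matrix.mul_diagonal _ _ _ _
  rw [h1]
  have h2 : coM ρ F a i j = MonoidAlgebra.single 1 (ρ a i j) := rfl
  rw [h2, MonoidAlgebra.single_mul_single, one_mul, mul_one, Matrix.map_apply]

theorem mul_coM (ρ : R' →+* Matrix (Fin r) (Fin r) R) (F : Type v) [Group F] (a : R') (g : F) :
    scG R r F g * coM ρ F a = (ρ a).map fun b => MonoidAlgebra.single g b := by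
  refine Matrix.ext fun i j => ?_
  have h1 : (scG R r F g * coM ρ F a) i j =
      MonoidAlgebra.single g (1 : R) * coM ρ F a i j := Matrix.diagonal_mul _ _ _ _
  rw [h1]
  have h2 : coM ρ F a i j = MonoidAlgebra.single 1 (ρ a i j) := rfl
  rw [h2, MonoidAlgebra.single_mul_single, one_mul, mul_one, Matrix.map_apply]

/-- The ring homomorphism `R'[F] → Mat_r(R[F])` for a homomorphism `R' → Mat_r(R)`. -/
noncomputable def thM (ρ : R' →+* Matrix (Fin r) (Fin r) R) (F : Type v) [Group F] :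
    MonoidAlgebra R' F →+* Matrix (Fin r) (Fin r) (MonoidAlgebra R F) :=
  MonoidAlgebra.liftNCRingHom (coM ρ F) (scG R r F)
    (fun a g => (coM_mul ρ F a g).trans (mul_coM ρ F a g).symm)

theorem thM_single (ρ : R' →+* Matrix (Fin r) (Fin r) R) (F : Type v) [Group F] (g : F) (a : R') :
    thM ρ F (MonoidAlgebra.single g a) = (ρ a).map fun b => MonoidAlgebra.single g b :=
  (MonoidAlgebra.liftNCRingHom_single _ _ _ _ _).trans (coM_mul ρ F a g)

end Mat

end Pool.Agent.H71.FQ

end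

section

/-!
# Project FQ: change of the coefficient ring

`NatK0 R S G`: a family of homomorphisms `K₀(R[F]) → K₀(S[F])`, `F` a finite subgroup of `G`, compatible with the
conjugations. It induces a homomorphism of the sources (`NatK0.src`). `ratInj_of_family`: if `c x = ∑ σ_i (τ_i x)` for
families `τ_i : R → S_i`, `σ_i : S_i → R`, and the `τ_i` are compatible with homomorphisms of the targets, then the
rational injectivity of the assembly maps of the `S_i` implies the rational injectivity of that of `R`.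
`ratInj_of_nilKer`: surjections with nilpotent kernel.
-/

set_option autoImplicit false

open Matrix

universe u u' v w

namespace Pool.Agent.H71.FQ

open Pool.Agent.H71.FJ (IdemMat K0 K0.mk K0.map K0.map_map K0.nilLift K0.map_nilLift K0.nilLift_map K0.map_injective NilKer)
open Pool.Agent.H95.WH (FamSub conjHom FinSub)

section RatInj

variable {A : Type u} [AddCommGroup A] {B : Type v} [AddCommGroup B] {C : Type w} [AddCommGroup C]

theorem ratInj_iff {f : A →+ B} :
    RatInj f ↔ ∀ (z : A) (M : ℤ), M ≠ 0 → M • f z = 0 → ∃ m : ℤ, m ≠ 0 ∧ m • z = 0 := by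
  constructor
  · intro h z M hM hz
    have h1 : TensorProduct.mk ℤ ℚ B 1 (f z) = 0 :=
      (IsLocalizedModule.eq_zero_iff (nonZeroDivisors ℤ)
        (TensorProduct.mk ℤ ℚ B 1)).2 ⟨⟨M, mem_nonZeroDivisors_of_ne_zero hM⟩, hz⟩
    have h2 : LinearMap.lTensor ℚ f.toIntLinearMap (TensorProduct.mk ℤ ℚ A 1 z) =
        LinearMap.lTensor ℚ f.toIntLinearMap 0 := by
      rw [map_zero]
      exact h1
    have h3 : TensorProduct.mk ℤ ℚ A 1 z = 0 := h h2
    obtain ⟨m, hm⟩ := (IsLocalizedModule.eq_zero_iff (nonZeroDivisors ℤ)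
      (TensorProduct.mk ℤ ℚ A 1)).1 h3
    exact ⟨m, nonZeroDivisors.coe_ne_zero m, hm⟩
  · intro h
    unfold RatInj
    rw [injective_iff_map_eq_zero]
    intro y hy
    obtain ⟨⟨z, m⟩, hz⟩ := IsLocalizedModule.surj (nonZeroDivisors ℤ)
      (TensorProduct.mk ℤ ℚ A 1) y
    have h1 : TensorProduct.mk ℤ ℚ B 1 (f z) = 0 := by
      have h2 : LinearMap.lTensor ℚ f.toIntLinearMap (TensorProduct.mk ℤ ℚ A 1 z) = 0 := by
        have h3 := congrArg (LinearMap.lTensor ℚ f.toIntLinearMap) hz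
        rw [Submonoid.smul_def, map_smul, hy, smul_zero] at h3
        exact h3.symm
      exact h2
    obtain ⟨M, hM⟩ := (IsLocalizedModule.eq_zero_iff (nonZeroDivisors ℤ)
      (TensorProduct.mk ℤ ℚ B 1)).1 h1
    obtain ⟨m', hm', h4⟩ := h z M (nonZeroDivisors.coe_ne_zero M) hM
    have h5 : TensorProduct.mk ℤ ℚ A 1 z = 0 :=
      (IsLocalizedModule.eq_zero_iff (nonZeroDivisors ℤ)
        (TensorProduct.mk ℤ ℚ A 1)).2 ⟨⟨m', mem_nonZeroDivisors_of_ne_zero hm'⟩, h4⟩
    have h6 : m • y = m • 0 := by rw [hz, h5, smul_zero]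
    exact IsLocalizedModule.smul_injective (TensorProduct.mk ℤ ℚ A 1) m h6

end RatInj

section Nat

/-- A natural family of homomorphisms `K₀(R[F]) → K₀(S[F])`. -/
structure NatK0 (R : Type u) [Ring R] (S : Type u') [Ring S] (G : Type v) [Group G] where
  /-- the homomorphisms -/
  app : ∀ F : FamSub G FinSub, K0 (MonoidAlgebra R F.1) →+ K0 (MonoidAlgebra S F.1)
  nat : ∀ (F F' : FamSub G FinSub) (g : G) (h : ∀ x ∈ F.1, g * x * g⁻¹ ∈ F'.1)
    (x : K0 (MonoidAlgebra R F.1)),
    app F' (K0.map (MonoidAlgebra.mapDomainRingHom R (conjHom g F.1 F'.1 h)) x) =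
      K0.map (MonoidAlgebra.mapDomainRingHom S (conjHom g F.1 F'.1 h)) (app F x)

variable {R : Type u} [Ring R] {S : Type u'} [Ring S] {G : Type v} [Group G]

/-- two ring homomorphisms of monoid rings -/
theorem mapRing_mapDomain {M N : Type*} [Monoid M] [Monoid N] (φ : R →+* S) (f : M →* N) :
    (MonoidAlgebra.mapRingHom N φ).comp (MonoidAlgebra.mapDomainRingHom R f) =
      (MonoidAlgebra.mapDomainRingHom S f).comp (MonoidAlgebra.mapRingHom M φ) := by
  apply MonoidAlgebra.ringHom_ext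
  · intro r
    simp
  · intro m
    simp

variable (G) in
/-- The family of a homomorphism of rings. -/
noncomputable def NatK0.ofHom (φ : R →+* S) : NatK0 R S G where
  app F := K0.map (MonoidAlgebra.mapRingHom F.1 φ)
  nat F F' g h x := by
    rw [K0.map_map, K0.map_map, mapRing_mapDomain]

theorem NatK0.ofHom_app (φ : R →+* S) (F : FamSub G FinSub) (x : K0 (MonoidAlgebra R F.1)) :
    (NatK0.ofHom G φ).app F x = K0.map (MonoidAlgebra.mapRingHom F.1 φ) x := rfl

theorem mapRing_surjective {φ : R →+* S} (hs : Function.Surjective φ) (M : Type*) [Monoid M] :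
    Function.Surjective (MonoidAlgebra.mapRingHom M φ) := by
  intro y
  induction y using MonoidAlgebra.induction_linear with
  | zero => exact ⟨0, map_zero _⟩
  | add a b ha hb =>
    obtain ⟨a', rfl⟩ := ha
    obtain ⟨b', rfl⟩ := hb
    exact ⟨a' + b', map_add _ _ _⟩
  | single m r =>
    obtain ⟨r', rfl⟩ := hs r
    exact ⟨MonoidAlgebra.single m r', by simp⟩

variable (G) in
/-- The inverse family for a surjection with nilpotent kernel. -/
noncomputable def NatK0.ofNil {φ : R →+* S} (hs : Function.Surjective φ) (hn : NilKer φ) :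
    NatK0 S R G where
  app F := K0.nilLift (mapRing_surjective hs F.1) (hn.monoidAlgebra F.1)
  nat F F' g h x := by
    apply K0.map_injective (mapRing_surjective hs F'.1) (hn.monoidAlgebra F'.1)
    rw [K0.map_nilLift, K0.map_map, mapRing_mapDomain, ← K0.map_map, K0.map_nilLift]

end Nat

end Pool.Agent.H71.FQ

end

section

/-!
# Comparison of the definitions: cycles and homology
-/

set_option autoImplicit false

open Matrix

universe u v w

namespace Pool.Agent.H71.FQS

open Pool.Agent.H71.FQ (Cx HG)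

section

variable {Γ : Type v} {Γ' : Type w} {n : ℕ}

theorem bd_eq (c : Ch Γ (n + 1)) : bd Γ n c = FQ.bd ℤ Γ n c := by
  rw [bd, FQ.bd, Finsupp.linearCombination_apply]
  refine Finsupp.sum_congr fun x _ => ?_
  rw [Finset.smul_sum]
  refine Finset.sum_congr rfl fun i _ => ?_
  rw [smul_smul, Finsupp.smul_single, smul_eq_mul, mul_one, mul_comm]

theorem push_eq (f : Γ → Γ') (c : Ch Γ n) : push f c = FQ.push ℤ f n c := by
  rw [push, FQ.push, Finsupp.linearCombination_apply, Finsupp.mapDomain]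
  refine Finsupp.sum_congr fun x _ => ?_
  rw [Finsupp.smul_single, smul_eq_mul, mul_one]

variable [Group Γ] [Group Γ']

theorem mem_coi {c : Ch Γ n} : c ∈ coi Γ n ↔ c ∈ FQ.coi Γ n := by
  rw [coi, FQ.coi, ← Submodule.mem_toAddSubgroup, Submodule.span_int_eq_addSubgroupClosure]

theorem mem_bnd {c : Ch Γ (n + 1)} : c ∈ bnd Γ (n + 1) ↔ c ∈ FQ.bnd Γ n := by
  have h1 : bnd Γ (n + 1) = (FQ.bnd Γ n).toAddSubgroup := by
    apply le_antisymm
    · rw [bnd, AddSubgroup.closure_le]
      rintro x (hx | ⟨b, rfl⟩)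
      · exact Submodule.mem_sup_right (mem_coi.1 hx)
      · exact Submodule.mem_sup_left ⟨b, (bd_eq b).symm⟩
    · intro x hx
      obtain ⟨y, ⟨b, rfl⟩, z, hz, rfl⟩ := Submodule.mem_sup.1 hx
      refine AddSubgroup.add_mem _ (AddSubgroup.subset_closure (Or.inr ⟨b, (bd_eq b).symm⟩))
        (AddSubgroup.subset_closure (Or.inl (mem_coi.2 hz)))
  rw [h1]
  rfl

theorem Cyc.mem (z : Cyc Γ n) : z.ch ∈ FQ.cyc Γ n := by
  change FQ.bd ℤ Γ n z.ch ∈ FQ.coi Γ n
  rw [← bd_eq, ← mem_coi]
  exact z.2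

/-- a cycle from a chain -/
def Cyc.of (c : Ch Γ (n + 1)) (h : c ∈ FQ.cyc Γ n) : Cyc Γ n := ⟨c, by
  rw [bd_eq, mem_coi]
  exact h⟩

theorem Cyc.ch_of (c : Ch Γ (n + 1)) (h : c ∈ FQ.cyc Γ n) : (Cyc.of c h).ch = c := rfl

/-- the homology class of a cycle -/
noncomputable def toHG (z : Cyc Γ n) : HG Γ n := HG.mk ⟨z.ch, z.mem⟩

theorem toHG_surjective (x : HG Γ n) : ∃ z : Cyc Γ n, toHG z = x := by
  obtain ⟨z, rfl⟩ := HG.mk_surjective x
  exact ⟨Cyc.of z.1 z.2, rfl⟩

theorem toHG_add {z z' z'' : Cyc Γ n} (h : z''.ch = z.ch + z'.ch) :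
    toHG z'' = toHG z + toHG z' := by
  rw [toHG, toHG, toHG, ← HG.mk_add]
  congr 1
  exact Subtype.ext h

theorem toHG_eq_iff {z z' : Cyc Γ n} : toHG z = toHG z' ↔ z.ch - z'.ch ∈ bnd Γ (n + 1) := by
  rw [toHG, toHG, HG.mk_eq_iff, mem_bnd]

theorem toHG_bnd {z : Cyc Γ n} (h : z.ch ∈ bnd Γ (n + 1)) : toHG z = 0 := by
  have h0 : toHG (Cyc.of (0 : Ch Γ (n + 1)) (Submodule.zero_mem _)) = 0 := by
    have h1 := toHG_add (z := Cyc.of (0 : Ch Γ (n + 1)) (Submodule.zero_mem _))
      (z' := Cyc.of (0 : Ch Γ (n + 1)) (Submodule.zero_mem _))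
      (z'' := Cyc.of (0 : Ch Γ (n + 1)) (Submodule.zero_mem _)) (by
        rw [Cyc.ch_of, add_zero])
    exact left_eq_add.1 h1
  rw [← h0, toHG_eq_iff, Cyc.ch_of, sub_zero]
  exact h

theorem map_toHG (f : Γ →* Γ') {z : Cyc Γ n} {z' : Cyc Γ' n} (h : z'.ch = push f z.ch) :
    HG.map n f (toHG z) = toHG z' := by
  rw [toHG, HG.map_mk, toHG]
  congr 1
  apply Subtype.ext
  change FQ.push ℤ f (n + 1) z.ch = z'.ch
  rw [h, push_eq]

/-- the image of a cycle under a homomorphism -/
noncomputable def Cyc.map (f : Γ →* Γ') (z : Cyc Γ n) : Cyc Γ' n :=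
  Cyc.of (push f z.ch) (by
    rw [push_eq]
    exact FQ.push_cyc f z.mem)

theorem Cyc.ch_map (f : Γ →* Γ') (z : Cyc Γ n) : (z.map f).ch = push f z.ch := rfl

theorem map_toHG' (f : Γ →* Γ') (z : Cyc Γ n) : HG.map n f (toHG z) = toHG (z.map f) :=
  map_toHG f (z.ch_map f)

/-- homomorphisms on homology from functions on cycles -/
theorem exists_lift {M : Type*} [AddCommGroup M] (f : Cyc Γ n → M)
    (h1 : ∀ z z' z'' : Cyc Γ n, z''.ch = z.ch + z'.ch → f z'' = f z + f z')
    (h2 : ∀ z : Cyc Γ n, z.ch ∈ bnd Γ (n + 1) → f z = 0) :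
    ∃ F : HG Γ n →+ M, ∀ z, F (toHG z) = f z := by
  have h3 : ∀ z z' : Cyc Γ n, toHG z = toHG z' → f z = f z' := by
    intro z z' h
    rw [toHG_eq_iff] at h
    let d : Cyc Γ n := Cyc.of (z.ch - z'.ch) (Submodule.sub_mem _ z.mem z'.mem)
    have h4 := h1 z' d z (by
      rw [Cyc.ch_of]
      abel)
    rw [h4, h2 d h, add_zero]
  choose g hg using toHG_surjective (Γ := Γ) (n := n)
  refine ⟨AddMonoidHom.mk' (fun x => f (g x)) fun x y => ?_, fun z => h3 _ _ (hg _)⟩
  rw [← h1 (g x) (g y) (Cyc.of ((g x).ch + (g y).ch) (Submodule.add_mem _ (g x).mem (g y).mem))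
    rfl]
  apply h3
  rw [hg, toHG_add (z := g x) (z' := g y) rfl, hg, hg]

theorem toHG_zsmul (m : ℤ) (z : Cyc Γ n) :
    m • toHG z = toHG (Cyc.of (m • z.ch) (Submodule.smul_mem _ m z.mem)) := by
  rw [toHG, toHG]
  rfl

theorem bnd_of_toHG {z : Cyc Γ n} (h : toHG z = 0) : z.ch ∈ bnd Γ (n + 1) := by
  have h0 : toHG (Cyc.of (0 : Ch Γ (n + 1)) (Submodule.zero_mem _)) = 0 :=
    toHG_bnd (by
      rw [Cyc.ch_of]
      exact AddSubgroup.zero_mem _)
  rw [← h0, toHG_eq_iff, Cyc.ch_of, sub_zero] at h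
  exact h

theorem psep_of {p : ℕ} [Fact p.Prime] (h : PSep p Γ n) : FQ.PSep p Γ n := by
  intro x hx
  obtain ⟨z, rfl⟩ := toHG_surjective x
  obtain ⟨m, hm, h1⟩ := h z (by
    intro k
    by_contra hk
    obtain ⟨f, hf⟩ := FQ.exists_hom_ne_zero (p := p) (x := toHG z) (by
      intro hall
      obtain ⟨y, m, hm, h2⟩ := hall k
      obtain ⟨y, rfl⟩ := toHG_surjective y
      refine hk ⟨y, m, hm, ?_⟩
      have h3 : m • (toHG z - (p : ℤ) ^ k • toHG y) =
          toHG (Cyc.of (m • (z.ch - (p : ℤ) ^ k • y.ch)) (Submodule.smul_mem _ m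
            (Submodule.sub_mem _ z.mem (Submodule.smul_mem _ _ y.mem)))) := by
        rw [toHG, toHG, toHG]
        rfl
      rw [h3] at h2
      exact bnd_of_toHG h2)
    exact hf (hx f))
  refine ⟨m, hm, ?_⟩
  rw [toHG_zsmul]
  exact toHG_bnd h1

end

end Pool.Agent.H71.FQS

end

section

/-!
# Project FU, degree one: first homology and `K₁`

`e1 g` is the class of the cycle `(1, g)`. `kq1 : K₁(A) → KQ A 0`, `[U] ↦ [N, e1 U]`, and `kap : KQ A 0 → K₁(A)` with
`kap (kq1 x) = x`.
-/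

set_option autoImplicit false

open Matrix

universe u v w

namespace Pool.Agent.H71.FU0

open Pool.Agent.H71.FQ
open Pool.Agent.H95.WH (K1 K1.mk K1.lift K1.lift_mk K1.hom_ext K1.mk_mul K1.mk_stab K1.map K1.map_mk stab)

section

variable {Γ : Type v} [Group Γ] {Γ' : Type w} [Group Γ']

theorem cyc0 (c : Cx ℤ Γ (0 + 1)) : c ∈ cyc Γ 0 := by
  change bd ℤ Γ 0 c ∈ coi Γ 0
  induction c using Finsupp.induction_linear with
  | zero =>
    rw [map_zero]
    exact Submodule.zero_mem _
  | add a b ha hb =>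
    rw [map_add]
    exact Submodule.add_mem _ ha hb
  | single x r =>
    have h : (Finsupp.single x r : Cx ℤ Γ (0 + 1)) = r • Finsupp.single x 1 := by
      rw [Finsupp.smul_single, smul_eq_mul, mul_one]
    rw [h, map_smul]
    refine Submodule.smul_mem _ _ ?_
    rw [bd_single, Fin.sum_univ_two]
    refine Submodule.subset_span ⟨x 1 * (x 0)⁻¹, fun _ => x 0, ?_⟩
    have h0 : (fun j : Fin (0 + 1) => x ((0 : Fin 2).succAbove j)) = fun _ => x 1 * (x 0)⁻¹ * x 0 := by
      funext j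
      have hj : j = 0 := Fin.ext (by omega)
      rw [hj, inv_mul_cancel_right]
      rfl
    have h1 : (fun j : Fin (0 + 1) => x ((1 : Fin 2).succAbove j)) = fun _ => x 0 := by
      funext j
      have hj : j = 0 := Fin.ext (by omega)
      rw [hj]
      rfl
    rw [h0, h1]
    simp only [Fin.val_zero, Fin.val_one, pow_zero, pow_one, one_smul, neg_smul]
    rw [sub_eq_add_neg]

/-- the class of the cycle `(1, g)` -/
noncomputable def e1 (g : Γ) : HG Γ 0 :=
  HG.mk ⟨Finsupp.single (![1, g] : Fin (0 + 2) → Γ) 1, cyc0 _⟩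

theorem mk_single (x : Fin (0 + 2) → Γ) :
    HG.mk ⟨Finsupp.single x 1, cyc0 _⟩ = e1 ((x 0)⁻¹ * x 1) := by
  rw [e1, HG.mk_eq_iff]
  refine Submodule.mem_sup_right (Submodule.subset_span ⟨x 0, ![1, (x 0)⁻¹ * x 1], ?_⟩)
  change (Finsupp.single x 1 : Cx ℤ Γ (0 + 1)) - Finsupp.single ![1, (x 0)⁻¹ * x 1] 1 = _
  congr 2
  funext j
  refine Fin.cases ?_ (fun k => ?_) j
  · simp
  · rw [Subsingleton.elim k 0]
    simp

theorem e1_mul (g h : Γ) : e1 (g * h) = e1 g + e1 h := by
  have h1 : e1 h = HG.mk ⟨Finsupp.single (![g, g * h] : Fin (0 + 2) → Γ) 1, cyc0 _⟩ := by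
    rw [mk_single]
    congr 1
    simp
  rw [h1, e1, e1, ← HG.mk_add, HG.mk_eq_iff]
  refine Submodule.mem_sup_left ⟨-(Finsupp.single (![1, g, g * h] : Fin (0 + 3) → Γ) 1), ?_⟩
  rw [map_neg]
  have h2 := bd_single (R := ℤ) (X := Γ) (0 + 1) (![1, g, g * h] : Fin (0 + 3) → Γ)
  have h3 : bd ℤ Γ (0 + 1) (Finsupp.single (![1, g, g * h] : Fin (0 + 3) → Γ) 1) =
      Finsupp.single (![g, g * h] : Fin (0 + 2) → Γ) 1 - Finsupp.single (![1, g * h] : Fin (0 + 2) → Γ) 1 +
        Finsupp.single (![1, g] : Fin (0 + 2) → Γ) 1 := by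
    rw [h2]
    change ∑ i : Fin 3, _ = _
    rw [Fin.sum_univ_three]
    have k0 : (fun j : Fin (0 + 2) => (![1, g, g * h] : Fin (0 + 3) → Γ) ((0 : Fin 3).succAbove j)) =
        ![g, g * h] := by
      funext j
      fin_cases j <;> rfl
    have k1 : (fun j : Fin (0 + 2) => (![1, g, g * h] : Fin (0 + 3) → Γ) ((1 : Fin 3).succAbove j)) =
        ![1, g * h] := by
      funext j
      fin_cases j <;> rfl
    have k2 : (fun j : Fin (0 + 2) => (![1, g, g * h] : Fin (0 + 3) → Γ) ((2 : Fin 3).succAbove j)) =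
        ![1, g] := by
      funext j
      fin_cases j <;> rfl
    have e0 : (-1 : ℤ) ^ ((0 : Fin 3) : ℕ) = 1 := by decide
    have e1' : (-1 : ℤ) ^ ((1 : Fin 3) : ℕ) = -1 := by decide
    have e2 : (-1 : ℤ) ^ ((2 : Fin 3) : ℕ) = 1 := by decide
    rw [e0, e1', e2, one_smul, one_smul, neg_smul, one_smul, ← sub_eq_add_neg]
    exact congrArg₂ (· + ·) (congrArg₂ (· - ·) (congrArg (fun y => Finsupp.single y (1 : ℤ)) k0)
      (congrArg (fun y => Finsupp.single y (1 : ℤ)) k1)) (congrArg (fun y => Finsupp.single y (1 : ℤ)) k2)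
  rw [h3]
  change _ = Finsupp.single (![1, g * h] : Fin (0 + 2) → Γ) (1 : ℤ) -
    (Finsupp.single (![1, g] : Fin (0 + 2) → Γ) (1 : ℤ) +
      Finsupp.single (![g, g * h] : Fin (0 + 2) → Γ) (1 : ℤ))
  abel

theorem map_e1 (f : Γ →* Γ') (g : Γ) : HG.map 0 f (e1 g) = e1 (f g) := by
  rw [e1, HG.map_mk]
  have h : (⟨push ℤ f (0 + 1) (Finsupp.single (![1, g] : Fin (0 + 2) → Γ) 1), cyc0 _⟩ :
      cyc Γ' 0) = ⟨Finsupp.single (fun j => f ((![1, g] : Fin (0 + 2) → Γ) j)) 1, cyc0 _⟩ :=
    Subtype.ext (push_single f (0 + 1) _)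
  refine (congrArg HG.mk h).trans ?_
  rw [mk_single]
  congr 1
  simp

end

section

variable {A : Type u} [Ring A] {A' : Type v} [Ring A']

theorem cls_e1_stab {N : ℕ} (U : GLm N A) :
    KQ.cls A 0 (N + 1) (e1 (stab U)) = KQ.cls A 0 N (e1 U) := by
  have h := KQ.cls_pair (MonoidHom.id (GLm N A)) (1 : GLm N A →* GLm 1 A) (e1 U)
  rw [HG.map_one, map_zero, add_zero, map_e1, map_e1] at h
  refine Eq.trans ?_ h
  congr 2

/-- The homomorphism `K₁(A) → KQ A 0`. -/
noncomputable def kq1 : K1 A →+ KQ A 0 :=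
  K1.lift (fun N U => KQ.cls A 0 N (e1 U))
    (fun N U V => by rw [e1_mul, map_add])
    (fun N U => cls_e1_stab U)

theorem kq1_mk {N : ℕ} (U : GLm N A) : kq1 (K1.mk U) = KQ.cls A 0 N (e1 U) := K1.lift_mk _ _ _ _

theorem map_kq1 (f : A →+* A') (x : K1 A) : KQ.map f (kq1 x) = kq1 (K1.map f x) := by
  have h : (KQ.map (n := 0) f).comp kq1 = kq1.comp (K1.map f) := by
    apply K1.hom_ext
    intro N U
    rw [AddMonoidHom.comp_apply, AddMonoidHom.comp_apply, kq1_mk, KQ.map_cls, map_e1, K1.map_mk,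
      kq1_mk]
    rfl
  exact DFunLike.congr_fun h x

end

end Pool.Agent.H71.FU0

end

section

/-!
# Project FU: change of the coefficient ring for the joint assembly map

`NatK1 R S G`: a family of homomorphisms `K₁(R[F]) → K₁(S[F])`, compatible with the conjugations.
`ratInj01_of_family`: the reduction principle for the joint assembly map.
-/

set_option autoImplicit false

open Matrix

universe u u' v w

namespace Pool.Agent.H71.FU1

open Pool.Agent.H71.FQ
open Pool.Agent.H71.FJ (IdemMat K0 K0.mk K0.map)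
open Pool.Agent.H95.WH (K1 K1.mk K1.map K1.map_map FamSub conjHom FinSub)

section Nat

/-- A natural family of homomorphisms `K₁(R[F]) → K₁(S[F])`. -/
structure NatK1 (R : Type u) [Ring R] (S : Type u') [Ring S] (G : Type v) [Group G] where
  /-- the homomorphisms -/
  app : ∀ F : FamSub G FinSub, K1 (MonoidAlgebra R F.1) →+ K1 (MonoidAlgebra S F.1)
  nat : ∀ (F F' : FamSub G FinSub) (g : G) (h : ∀ x ∈ F.1, g * x * g⁻¹ ∈ F'.1)
    (x : K1 (MonoidAlgebra R F.1)),
    app F' (K1.map (MonoidAlgebra.mapDomainRingHom R (conjHom g F.1 F'.1 h)) x) =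
      K1.map (MonoidAlgebra.mapDomainRingHom S (conjHom g F.1 F'.1 h)) (app F x)

variable {R : Type u} [Ring R] {S : Type u'} [Ring S] {G : Type v} [Group G]

variable (G) in
/-- The family of a homomorphism of rings. -/
noncomputable def NatK1.ofHom (φ : R →+* S) : NatK1 R S G where
  app F := K1.map (MonoidAlgebra.mapRingHom F.1 φ)
  nat F F' g h x := by
    rw [K1.map_map, K1.map_map, mapRing_mapDomain]

theorem NatK1.ofHom_app (φ : R →+* S) (F : FamSub G FinSub) (x : K1 (MonoidAlgebra R F.1)) :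
    (NatK1.ofHom G φ).app F x = K1.map (MonoidAlgebra.mapRingHom F.1 φ) x := rfl

end Nat

end Pool.Agent.H71.FU1

end
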