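import Pool.Agent.H13.TFQ.H71.FQ.St
import Pool.Agent.H13.TFQ.M13
import Pool.Agent.H13.TFQ.M16

/-! The parts of this file: H71.DB.Lift, H71.FQ.St1, H71.FQ.St_1, H71.KP.Defs, H71.KP.Ring, H71.KP.Res, H71.DO.Bridge. -/

section

/-!
# Lifting the Dennis trace

For a field `K` we use a torsion free ring `Λ` (`K` itself in characteristic zero, the Witt vectors
in characteristic `p`) and quotients `B n` of `Λ` with nilpotent kernel over `K`. A cocycle with
values in `Λ` defines homomorphisms `K₁(K[G]) → B n`.
-/

set_option autoImplicit false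

open Matrix

universe u v w

namespace Pool.Agent.H71.DB

open Pool.Agent.H71.FJ (LiftSys liftSysZero liftSysP NilKer)

/-- A lifting system with a torsion free ring. -/
structure BLift (K : Type u) [Field K] where
  sys : LiftSys K
  /-- the ring -/
  Lam : Type u
  inst : CommRing Lam
  tf : ∀ (m : ℤ) (x : Lam), m ≠ 0 → (m : Lam) * x = 0 → x = 0
  /-- the projections -/
  th : ∀ n, Lam →+* sys.B n
  surj : ∀ n, Function.Surjective (th n)
  q : ℤ
  hker : ∀ (n : ℕ) (b : sys.B n), sys.π n b = 0 → ∃ b' : sys.B n, b = (q : sys.B n) * b'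
  hq : ∀ n : ℕ, (q : sys.B n) ^ (n + 1) = 0
  joint : ∀ x : Lam, (∀ n, th n x = 0) → x = 0

instance {K : Type u} [Field K] (L : BLift K) : CommRing L.Lam := L.inst

/-- Characteristic zero. -/
noncomputable def bLiftZero (K : Type u) [Field K] [CharZero K] : BLift K where
  sys := liftSysZero K
  Lam := K
  inst := inferInstance
  tf m x hm h := by
    rcases mul_eq_zero.1 h with h | h
    · exact absurd (by exact_mod_cast h) hm
    · exact h
  th _ := RingHom.id K
  surj _ := Function.surjective_id
  q := 0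
  hker n b hb := ⟨0, by
    have h : b = 0 := hb
    rw [h, mul_zero]⟩
  hq n := by rw [Int.cast_zero, zero_pow (Nat.succ_ne_zero n)]
  joint x h := h 0

section CharP

variable (p : ℕ) [hp : Fact p.Prime] (K : Type u) [Field K] [CharP K p] [PerfectRing K p]

/-- Characteristic `p`. -/
noncomputable def bLiftP : BLift K where
  sys := liftSysP p K
  Lam := WittVector p K
  inst := inferInstance
  tf m x hm h := by
    rcases mul_eq_zero.1 h with h | h
    · exfalso
      apply hm
      exact Pool.Agent.H71.FJ.witt_int p K m (fun n => by rw [h]; exact dvd_zero _)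
    · exact h
  th n := Ideal.Quotient.mk _
  surj n := Ideal.Quotient.mk_surjective
  q := p
  hker n b hb := by
    obtain ⟨w, rfl⟩ := Ideal.Quotient.mk_surjective b
    have hb' : WittVector.constantCoeff w = 0 := hb
    have hw : w ∈ RingHom.ker (WittVector.constantCoeff : WittVector p K →+* K) := hb'
    rw [WittVector.ker_constantCoeff] at hw
    obtain ⟨c, rfl⟩ := Ideal.mem_span_singleton'.1 hw
    refine ⟨Ideal.Quotient.mk _ c, ?_⟩
    rw [map_mul, map_natCast, Int.cast_natCast, mul_comm]
    rfl
  hq n := by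
    have h : ((p : ℤ) : (liftSysP p K).B n) ^ (n + 1) =
        Ideal.Quotient.mk (Ideal.span {(p : WittVector p K) ^ (n + 1)})
          ((p : WittVector p K) ^ (n + 1)) := by
      rw [map_pow, map_natCast, Int.cast_natCast]
      rfl
    rw [h]
    exact Ideal.Quotient.eq_zero_iff_mem.2 (Ideal.mem_span_singleton_self _)
  joint x h := by
    by_contra hx
    obtain ⟨m, b, hb0, hb⟩ := WittVector.exists_eq_pow_p_mul x hx
    have h1 : (p : WittVector p K) ^ (m + 1) ∣ x :=
      Ideal.mem_span_singleton.1 (Ideal.Quotient.eq_zero_iff_mem.1 (h m))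
    obtain ⟨c, hc⟩ := h1
    have hp0 : (p : WittVector p K) ^ m ≠ 0 := pow_ne_zero m (WittVector.p_nonzero p K)
    have h2 : b = (p : WittVector p K) * c := by
      apply mul_left_cancel₀ hp0
      rw [← hb, hc, pow_succ]
      ring
    apply hb0
    have h3 : WittVector.constantCoeff b = 0 := by
      rw [h2, map_mul, map_natCast, CharP.cast_eq_zero, zero_mul]
    exact h3

end CharP

section Unit

theorem exists_lift_unit {R : Type*} [Ring R] {S : Type*} [Ring S] {φ : R →+* S}
    (hs : Function.Surjective φ) (h : NilKer φ) (u : Sˣ) : ∃ v : Rˣ, φ v = u := by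
  obtain ⟨a, ha⟩ := hs u
  obtain ⟨b, hb⟩ := hs ((u⁻¹ : Sˣ) : S)
  have h1 : IsUnit (a * b) := by
    have h2 : IsNilpotent (1 - a * b) := by
      apply h.isNilpotent
      rw [map_sub, map_mul, map_one, ha, hb, Units.mul_inv, sub_self]
    have h3 := h2.isUnit_one_sub
    rwa [sub_sub_cancel] at h3
  have h1' : IsUnit (b * a) := by
    have h2 : IsNilpotent (1 - b * a) := by
      apply h.isNilpotent
      rw [map_sub, map_mul, map_one, ha, hb, Units.inv_mul, sub_self]
    have h3 := h2.isUnit_one_sub
    rwa [sub_sub_cancel] at h3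
  obtain ⟨c, hc⟩ := h1
  obtain ⟨d, hd⟩ := h1'
  have e1 : a * (b * ((c⁻¹ : Rˣ) : R)) = 1 := by rw [← mul_assoc, ← hc, Units.mul_inv]
  have e2 : ((d⁻¹ : Rˣ) : R) * b * a = 1 := by rw [mul_assoc, ← hd, Units.inv_mul]
  have e3 : ((d⁻¹ : Rˣ) : R) * b = b * ((c⁻¹ : Rˣ) : R) := by
    calc ((d⁻¹ : Rˣ) : R) * b = ((d⁻¹ : Rˣ) : R) * b * (a * (b * ((c⁻¹ : Rˣ) : R))) := by
          rw [e1, mul_one]
      _ = (((d⁻¹ : Rˣ) : R) * b * a) * (b * ((c⁻¹ : Rˣ) : R)) := by simp only [mul_assoc]
      _ = _ := by rw [e2, one_mul]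
  refine ⟨⟨a, b * ((c⁻¹ : Rˣ) : R), e1, by rw [← e3]; exact e2⟩, ha⟩

end Unit

section Den

variable {G : Type v} [Group G]

variable {K : Type u} [Field K] (L : BLift K)

theorem exists_smul_of_map_zero (n : ℕ) (a : MonoidAlgebra (L.sys.B n) G)
    (h : MonoidAlgebra.mapRingHom G (L.sys.π n) a = 0) :
    ∃ a' : MonoidAlgebra (L.sys.B n) G, a = L.q • a' := by
  have h1 : ∀ g, ∃ b' : L.sys.B n, a.coeff g = (L.q : L.sys.B n) * b' := by
    intro g
    apply L.hker
    have h2 := congrArg (fun z => MonoidAlgebra.coeff z g) h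
    simpa using h2
  choose b hb using h1
  refine ⟨∑ g ∈ a.coeff.support, MonoidAlgebra.single g (b g), ?_⟩
  rw [Finset.smul_sum]
  conv_lhs => rw [← MonoidAlgebra.sum_coeff_single a]
  rw [Finsupp.sum]
  refine Finset.sum_congr rfl fun g _ => ?_
  rw [hb g]
  apply MonoidAlgebra.coeff_injective
  rw [MonoidAlgebra.coeff_smul, MonoidAlgebra.coeff_single, MonoidAlgebra.coeff_single,
    Finsupp.smul_single, zsmul_eq_mul]

end Den

end Pool.Agent.H71.DB

end

section

/-!
# The assembly map on the `K₁`-part of the rational source: definitions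

`HnK1 R G n` is generated by the symbols `[F, U, z]`, `F` a finite subgroup of `G`, `U` an invertible matrix over `R[F]`
and `z` a cycle of degree `n + 1` of the centralizer `Z_G(F)`, modulo the relations of `K₁(R[F])` in `U`, the relations
of `H_{n+1}(Z_G(F); ℤ)` in `z` and `[F', c_g(U), z'] = [F, U, c_{g⁻¹}(z')]` for `g F g⁻¹ ⊆ F'`.

The assembly map sends `[F, U, z]` to `[N, z']` where `N` is the size of `U` and `z'` is the product of the image of `z`
under the scalar matrices `Z_G(F) → GL_N(R[G])` with the commuting element `U` of `GL_N(R[G])` (the prism `pri`).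
-/

set_option autoImplicit false

open Matrix

universe u v w

namespace Pool.Agent.H71.FQS

section

/-- the prism: the tuple `(x_0, …, x_m)` is sent to the alternating sum of the `(x_0, …, x_i, x_i u, …, x_m u)` -/
noncomputable def pri {Λ : Type v} [Group Λ] {m : ℕ} (u : Λ) (c : Ch Λ m) : Ch Λ (m + 1) :=
  c.sum fun x a => ∑ i : Fin (m + 1), Finsupp.single
    (fun j : Fin (m + 2) => if i.castSucc < j then x (i.predAbove j) * u else x (i.predAbove j))
    ((-1) ^ (i : ℕ) * a)

variable (R : Type u) [Ring R] (G : Type v) [Group G] (n : ℕ)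

/-- the symbols `[F, U, z]` -/
structure HSym1 where
  /-- a finite subgroup -/
  F : Subgroup G
  fin : Finite F
  /-- the size of the matrix -/
  N : ℕ
  /-- an invertible matrix over the group ring of `F` -/
  U : GLm N (RF R F)
  /-- a cycle of the centralizer of `F` -/
  z : Cyc (Cent F) n

/-- the relations `[F, U V, z] = [F, U, z] + [F, V, z]` and `[F, U ⊕ 1, z] = [F, U, z]` -/
def relU : Set (FreeAbelianGroup (HSym1 R G n)) :=
  {y | ∃ (F : Subgroup G) (hF : Finite F) (N : ℕ) (U V : GLm N (RF R F)) (z : Cyc (Cent F) n),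
      y = FreeAbelianGroup.of ⟨F, hF, N, U * V, z⟩ -
        (FreeAbelianGroup.of ⟨F, hF, N, U, z⟩ + FreeAbelianGroup.of ⟨F, hF, N, V, z⟩)} ∪
    {y | ∃ (F : Subgroup G) (hF : Finite F) (N : ℕ) (U : GLm N (RF R F))
      (V : GLm (N + 1) (RF R F)) (z : Cyc (Cent F) n),
      V.val = blkM U.val (1 : Matrix (Fin 1) (Fin 1) (RF R F)) ∧
      y = FreeAbelianGroup.of ⟨F, hF, N + 1, V, z⟩ - FreeAbelianGroup.of ⟨F, hF, N, U, z⟩}

/-- additivity in `z` and boundaries -/
def relZ1 : Set (FreeAbelianGroup (HSym1 R G n)) :=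
  {y | ∃ (F : Subgroup G) (hF : Finite F) (N : ℕ) (U : GLm N (RF R F))
      (z z' z'' : Cyc (Cent F) n), z''.ch = z.ch + z'.ch ∧
      y = FreeAbelianGroup.of ⟨F, hF, N, U, z''⟩ -
        (FreeAbelianGroup.of ⟨F, hF, N, U, z⟩ + FreeAbelianGroup.of ⟨F, hF, N, U, z'⟩)} ∪
    {y | ∃ (F : Subgroup G) (hF : Finite F) (N : ℕ) (U : GLm N (RF R F))
      (z : Cyc (Cent F) n), z.ch ∈ bnd (Cent F) (n + 1) ∧
      y = FreeAbelianGroup.of ⟨F, hF, N, U, z⟩}

/-- the relation `[F', c_g(U), z'] = [F, U, c_{g⁻¹}(z')]` for `g F g⁻¹ ⊆ F'` -/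
def relC1 : Set (FreeAbelianGroup (HSym1 R G n)) :=
  {y | ∃ (F F' : Subgroup G) (hF : Finite F) (hF' : Finite F') (g : G) (N : ℕ)
      (U : GLm N (RF R F)) (U' : GLm N (RF R F')) (z : Cyc (Cent F) n) (z' : Cyc (Cent F') n)
      (c : F → F') (κ : Cent F' → Cent F),
      (∀ a, (c a : G) = g * a * g⁻¹) ∧ (∀ γ, (κ γ).val = g⁻¹ * γ.val * g) ∧
      (∀ i j, U'.val i j = MonoidAlgebra.mapDomain c (U.val i j)) ∧ z.ch = push κ z'.ch ∧
      y = FreeAbelianGroup.of ⟨F', hF', N, U', z'⟩ - FreeAbelianGroup.of ⟨F, hF, N, U, z⟩}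

/-- The group generated by the symbols `[F, U, z]`. -/
def HnK1 : Type (max u v) :=
  FreeAbelianGroup (HSym1 R G n) ⧸ AddSubgroup.closure (relU R G n ∪ relZ1 R G n ∪ relC1 R G n)

instance instHnK1 : AddCommGroup (HnK1 R G n) := QuotientAddGroup.Quotient.addCommGroup _

variable {R G n}

/-- the class of `[F, U, z]` -/
def HnK1.mk (s : HSym1 R G n) : HnK1 R G n := QuotientAddGroup.mk (FreeAbelianGroup.of s)

/-- `α` is the assembly map on the `K₁`-part: `α [F, U, z] = [N, z']`, where `z'` is the prism over the image of `z` under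
the scalar matrices, with the matrix `U`. -/
def IsAssembly1 (α : HnK1 R G n → KQ (MonoidAlgebra R G) (n + 1)) : Prop :=
  ∀ (s : HSym1 R G n) (σ : Cent s.F → GLm s.N (MonoidAlgebra R G))
    (u : GLm s.N (MonoidAlgebra R G)) (z' : Cyc (GLm s.N (MonoidAlgebra R G)) (n + 1)),
    (∀ γ, (σ γ).val = Matrix.diagonal fun _ => MonoidAlgebra.single γ.val 1) →
    (∀ i j, u.val i j = MonoidAlgebra.mapDomain (fun a : s.F => (a : G)) (s.U.val i j)) →
    z'.ch = pri u (push σ s.z.ch) → α (HnK1.mk s) = KQ.mk s.N z'

end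

/-- The condition on the group in the degrees `n + 1` for `n ∈ D`: every finite subset of `G` lies in a subgroup `G'` in
which the elements of `p`-power order have bounded order and such that `PSep p Z n` holds for `n ∈ D` and the centralizers
`Z` in `G'` of the finite cyclic subgroups of order prime to `p`. -/
def LocGrpD (p : ℕ) (G : Type v) [Group G] (D : Set ℕ) : Prop :=
  ∀ S : Finset G, ∃ G' : Subgroup G, (∀ g ∈ S, g ∈ G') ∧
    (∃ r : ℕ, ∀ g : G', (∃ j : ℕ, g ^ p ^ j = 1) → g ^ p ^ r = 1) ∧
    ∀ C : Subgroup G', Finite C → IsCyclic C → ¬ p ∣ Nat.card C → ∀ n ∈ D, PSep p (Cent C) n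

end Pool.Agent.H71.FQS

end

section

/-!
# The assembly map on the `K₀`-part of the rational source: definitions

For a group `Γ`, `Cyc Γ n` is the set of the cycles of degree `n + 1` of the chain complex computing `H_*(Γ; ℤ)`: the
chains of degree `m` are the integral combinations of the tuples `(x_0, …, x_m)` in `Γ`, modulo
`(g x_0, …, g x_m) = (x_0, …, x_m)`; `bnd Γ (n + 1)` contains the boundaries of degree `n + 1` and these relations.

`KQ A n` is generated by the pairs `[N, z]` of `N : ℕ` and a cycle `z` of degree `n + 1` of `GL_N(A)`, modulo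
additivity in `z`, `[N, z] = 0` for boundaries `z` and `[N + M, ⊕ w] = [N, pr₁ w] + [M, pr₂ w]` for cycles `w` of
`GL_N(A) × GL_M(A)`, where `⊕ w` is the image of `w` under the block sum.

`HnK0 R G n` is generated by the symbols `[F, e, z]`, `F` a finite subgroup of `G`, `e` an idempotent matrix over
`R[F]` and `z` a cycle of degree `n + 1` of the centralizer `Z_G(F)`, modulo the relations of `K₀(R[F])` in `e`, the
relations of `H_{n+1}(Z_G(F); ℤ)` in `z` and `[F', c_g(e), z'] = [F, e, c_{g⁻¹}(z')]` for `g F g⁻¹ ⊆ F'`.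

The assembly map sends `[F, e, z]` to `[N, z']` where `N` is the size of `e` and `z'` the image of `z` under
`Z_G(F) → GL_N(R[G])`, `γ ↦ 1 + e (γ - 1)`.
-/

set_option autoImplicit false

open Matrix

universe u v w

namespace Pool.Agent.H71.FQS

section Cycles

end Cycles

section K

end K

section H

end H

section Classes

/-- Every finite subset of `G` lies in a subgroup `G'` in which the orders of the elements of order a power of `p` are
bounded and in which the centralizers of the finite cyclic subgroups of order prime to `p` satisfy `PSep`. -/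
def LocGrp (p : ℕ) (G : Type v) [Group G] (n : ℕ) : Prop :=
  ∀ S : Finset G, ∃ G' : Subgroup G, (∀ g ∈ S, g ∈ G') ∧
    (∃ r : ℕ, ∀ g : G', (∃ j : ℕ, g ^ p ^ j = 1) → g ^ p ^ r = 1) ∧
    ∀ C : Subgroup G', Finite C → IsCyclic C → ¬ p ∣ Nat.card C → PSep p (Cent C) n

end Classes

end Pool.Agent.H71.FQS

end

section

/-!
# The assembly map for units of group rings of finite cyclic subgroups

For a commutative ring `R` let `ColimU R G` be the colimit of the groups of units `R[C]ˣ` over the
finite cyclic subgroups `C` of `G`, the morphisms `C → C'` being the restrictions of the conjugations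
`x ↦ g x g⁻¹` with `g C g⁻¹ ⊆ C'`. Let `Wh R G` be the quotient of `K₁(R[G])` by the classes of the
units `± g`, and `assembly R G : ColimU R G → Wh R G` the natural map.
-/

set_option autoImplicit false

open Matrix

universe u v w t

namespace Pool.Agent.H71.KP

open Pool.Agent.H71.WH (InvMat K1 K1.mk K1.unit K1Rel genK1 oneByOne addOne CycSub conjHom K1.mk_mul K1.unit_mul)

/-- The units `± g` of `R[G]`. -/
def trivialUnits (R : Type u) [CommRing R] (G : Type v) [Group G] : Set (MonoidAlgebra R G)ˣ :=
  {x | ∃ (g : G) (e : R), (e = 1 ∨ e = -1) ∧ (x : MonoidAlgebra R G) = MonoidAlgebra.single g e}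

/-- The subgroup of `K₁(R[G])` generated by the classes of the units `± g`. -/
noncomputable def trivialK1 (R : Type u) [CommRing R] (G : Type v) [Group G] :
    AddSubgroup (K1 (MonoidAlgebra R G)) :=
  AddSubgroup.closure (K1.unit '' trivialUnits R G)

/-- The quotient of `K₁(R[G])` by the classes of the units `± g`. -/
def Wh (R : Type u) [CommRing R] (G : Type v) [Group G] : Type (max u v) :=
  K1 (MonoidAlgebra R G) ⧸ trivialK1 R G

noncomputable instance instWh (R : Type u) [CommRing R] (G : Type v) [Group G] :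
    AddCommGroup (Wh R G) :=
  QuotientAddGroup.Quotient.addCommGroup (trivialK1 R G)

/-- The homomorphism `R[F]ˣ → R[F']ˣ` induced by a group homomorphism `F → F'`. -/
noncomputable def unitsMap {R : Type u} [CommRing R] {F : Type v} {F' : Type w} [Group F]
    [Group F'] (φ : F →* F') : (MonoidAlgebra R F)ˣ →* (MonoidAlgebra R F')ˣ :=
  Units.map (MonoidAlgebra.mapDomainRingHom R φ).toMonoidHom

/-- A finite cyclic subgroup `C` and a unit of `R[C]`. -/
structure CycUnit (R : Type u) [CommRing R] (G : Type v) [Group G] where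
  /-- the subgroup -/
  C : CycSub G
  /-- the unit -/
  x : (MonoidAlgebra R C.1)ˣ

/-- The generator of a pair. -/
def gen {R : Type u} [CommRing R] {G : Type v} [Group G] (C : CycSub G)
    (x : (MonoidAlgebra R C.1)ˣ) : FreeAbelianGroup (CycUnit R G) := FreeAbelianGroup.of ⟨C, x⟩

/-- The relation `[C, x y] - ([C, x] + [C, y])`. -/
noncomputable def mulRel {R : Type u} [CommRing R] {G : Type v} [Group G] (C : CycSub G)
    (x y : (MonoidAlgebra R C.1)ˣ) : FreeAbelianGroup (CycUnit R G) :=
  gen C (x * y) - (gen C x + gen C y)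

/-- The relation `[C', g x g⁻¹] - [C, x]`. -/
noncomputable def conjRel {R : Type u} [CommRing R] {G : Type v} [Group G] (C C' : CycSub G)
    (g : G) (h : ∀ a ∈ C.1, g * a * g⁻¹ ∈ C'.1) (x : (MonoidAlgebra R C.1)ˣ) :
    FreeAbelianGroup (CycUnit R G) := gen C' (unitsMap (conjHom g C.1 C'.1 h) x) - gen C x

/-- The relations of the colimit: `[C, x y] = [C, x] + [C, y]` and `[C', g x g⁻¹] = [C, x]`. -/
def colimRel (R : Type u) [CommRing R] (G : Type v) [Group G] :
    AddSubgroup (FreeAbelianGroup (CycUnit R G)) :=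
  AddSubgroup.closure
    ({z | ∃ C x y, z = mulRel C x y} ∪ {z | ∃ C C' g h x, z = conjRel C C' g h x})

/-- The colimit of `R[C]ˣ` over the finite cyclic subgroups `C` of `G`. -/
def ColimU (R : Type u) [CommRing R] (G : Type v) [Group G] : Type (max u v) :=
  FreeAbelianGroup (CycUnit R G) ⧸ colimRel R G

instance instColimU (R : Type u) [CommRing R] (G : Type v) [Group G] :
    AddCommGroup (ColimU R G) := QuotientAddGroup.Quotient.addCommGroup (colimRel R G)

/-- The class in `Wh R G` of a unit of `R[G]`. -/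
noncomputable def Wh.unit {R : Type u} [CommRing R] {G : Type v} [Group G]
    (x : (MonoidAlgebra R G)ˣ) : Wh R G := QuotientAddGroup.mk (K1.unit x)

/-- The class in `Wh R G` of a unit of `R[C]`. -/
noncomputable def incWh {R : Type u} [CommRing R] {G : Type v} [Group G] (C : CycSub G)
    (x : (MonoidAlgebra R C.1)ˣ) : Wh R G := Wh.unit (unitsMap C.1.subtype x)

/-- The class in `Wh R G` of a pair. -/
noncomputable def toWh {R : Type u} [CommRing R] {G : Type v} [Group G] (a : CycUnit R G) :
    Wh R G := incWh a.C a.x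

/-- The map on the free abelian group. -/
noncomputable def assemblyFree (R : Type u) [CommRing R] (G : Type v) [Group G] :
    FreeAbelianGroup (CycUnit R G) →+ Wh R G := FreeAbelianGroup.lift toWh

theorem Wh.unit_mul {R : Type u} [CommRing R] {G : Type v} [Group G]
    (x y : (MonoidAlgebra R G)ˣ) : Wh.unit (x * y) = Wh.unit x + Wh.unit y := by
  rw [Wh.unit, K1.unit_mul]
  rfl

theorem incWh_mul {R : Type u} [CommRing R] {G : Type v} [Group G] (C : CycSub G)
    (x y : (MonoidAlgebra R C.1)ˣ) : incWh C (x * y) = incWh C x + incWh C y := by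
  rw [incWh, map_mul, Wh.unit_mul]
  rfl

/-- The unit `g` of `R[G]`. -/
noncomputable def gUnit {R : Type u} [CommRing R] {G : Type v} [Group G] (g : G) :
    (MonoidAlgebra R G)ˣ := Units.map (MonoidAlgebra.of R G) (toUnits g)

theorem unitsMap_conj {R : Type u} [CommRing R] {G : Type v} [Group G] (g : G)
    (F F' : Subgroup G) (h : ∀ x ∈ F, g * x * g⁻¹ ∈ F') (x : (MonoidAlgebra R F)ˣ) :
    unitsMap F'.subtype (unitsMap (conjHom g F F' h) x) =
      gUnit g * unitsMap F.subtype x * gUnit g⁻¹ := by
  have key : ∀ r : MonoidAlgebra R F, MonoidAlgebra.mapDomainRingHom R F'.subtype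
      (MonoidAlgebra.mapDomainRingHom R (conjHom g F F' h) r) =
      MonoidAlgebra.single g 1 * MonoidAlgebra.mapDomainRingHom R F.subtype r *
        MonoidAlgebra.single g⁻¹ 1 := by
    intro r
    induction r using MonoidAlgebra.induction_linear with
    | zero => simp
    | add a b ha hb => rw [map_add, map_add, ha, hb, map_add, mul_add, add_mul]
    | single s t =>
      change MonoidAlgebra.mapDomain F'.subtype (MonoidAlgebra.mapDomain (conjHom g F F' h)
        (MonoidAlgebra.single s t)) = MonoidAlgebra.single g 1 *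
          MonoidAlgebra.mapDomain F.subtype (MonoidAlgebra.single s t) *
          MonoidAlgebra.single g⁻¹ 1
      rw [MonoidAlgebra.mapDomain_single, MonoidAlgebra.mapDomain_single,
        MonoidAlgebra.mapDomain_single, MonoidAlgebra.single_mul_single,
        MonoidAlgebra.single_mul_single, one_mul, mul_one]
      rfl
  exact Units.ext (key x)

theorem incWh_conj {R : Type u} [CommRing R] {G : Type v} [Group G] (C C' : CycSub G) (g : G)
    (h : ∀ a ∈ C.1, g * a * g⁻¹ ∈ C'.1) (x : (MonoidAlgebra R C.1)ˣ) :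
    incWh C' (unitsMap (conjHom g C.1 C'.1 h) x) = incWh C x := by
  have h2 : gUnit g * gUnit g⁻¹ = (1 : (MonoidAlgebra R G)ˣ) := by
    rw [gUnit, gUnit, ← map_mul, ← map_mul, mul_inv_cancel, map_one, map_one]
  have h3 : Wh.unit (gUnit g : (MonoidAlgebra R G)ˣ) + Wh.unit (gUnit g⁻¹) = 0 := by
    have h4 := Wh.unit_mul (1 : (MonoidAlgebra R G)ˣ) 1
    rw [mul_one] at h4
    rw [← Wh.unit_mul, h2]
    exact (add_eq_left.1 h4.symm)
  rw [incWh, unitsMap_conj, Wh.unit_mul, Wh.unit_mul, add_right_comm, h3, zero_add]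
  rfl

theorem colimRel_le (R : Type u) [CommRing R] (G : Type v) [Group G] :
    colimRel R G ≤ (assemblyFree R G).ker := by
  rw [colimRel, AddSubgroup.closure_le]
  rintro z (⟨C, x, y, rfl⟩ | ⟨C, C', g, h, x, rfl⟩)
  · change assemblyFree R G (gen C (x * y) - (gen C x + gen C y)) = 0
    rw [assemblyFree, map_sub, map_add, gen, gen, gen, FreeAbelianGroup.lift_apply_of,
      FreeAbelianGroup.lift_apply_of, FreeAbelianGroup.lift_apply_of]
    exact sub_eq_zero.2 (incWh_mul C x y)
  · change assemblyFree R G (gen C' (unitsMap (conjHom g C.1 C'.1 h) x) - gen C x) = 0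
    rw [assemblyFree, map_sub, gen, gen, FreeAbelianGroup.lift_apply_of,
      FreeAbelianGroup.lift_apply_of]
    exact sub_eq_zero.2 (incWh_conj C C' g h x)

/-- The assembly map for units of finite cyclic subgroups. -/
noncomputable def assembly (R : Type u) [CommRing R] (G : Type v) [Group G] :
    ColimU R G →+ Wh R G :=
  QuotientAddGroup.lift (colimRel R G) (assemblyFree R G) (colimRel_le R G)

end Pool.Agent.H71.KP

end

section

/-!
# Change of rings for the colimit and the Whitehead groups
-/

set_option autoImplicit false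
set_option linter.unusedSectionVars false

open Matrix

universe u v w t

namespace Pool.Agent.H71.KP

open Pool.Agent.H71.WH (K1 K1.mk K1.unit CycSub conjHom)

theorem cyc_comm {D : Type w} [Group D] [IsCyclic D] (a b : D) : a * b = b * a := by
  obtain ⟨g, hg⟩ := IsCyclic.exists_generator (α := D)
  obtain ⟨m, rfl⟩ := Subgroup.mem_zpowers_iff.1 (hg a)
  obtain ⟨n, rfl⟩ := Subgroup.mem_zpowers_iff.1 (hg b)
  rw [← _root_.zpow_add, ← _root_.zpow_add, add_comm]

section Cl

variable {R : Type u} [CommRing R] {G : Type v} [Group G]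

/-- the quotient map -/
def toColim (R : Type u) [CommRing R] (G : Type v) [Group G] :
    FreeAbelianGroup (CycUnit R G) →+ ColimU R G :=
  QuotientAddGroup.mk' (colimRel R G)

/-- the class of a unit -/
def cl (C : CycSub G) (x : (MonoidAlgebra R C.1)ˣ) : ColimU R G :=
  toColim R G (gen C x)

theorem cl_mul (C : CycSub G) (x y : (MonoidAlgebra R C.1)ˣ) :
    cl C (x * y) = cl C x + cl C y := by
  rw [cl, cl, cl, ← sub_eq_zero, ← map_add, ← map_sub]
  exact (QuotientAddGroup.eq_zero_iff _).2 (AddSubgroup.subset_closure (Or.inl ⟨C, x, y, rfl⟩))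

theorem cl_conj (C C' : CycSub G) (g : G) (h : ∀ a ∈ C.1, g * a * g⁻¹ ∈ C'.1)
    (x : (MonoidAlgebra R C.1)ˣ) : cl C' (unitsMap (conjHom g C.1 C'.1 h) x) = cl C x := by
  rw [cl, cl, ← sub_eq_zero, ← map_sub]
  exact (QuotientAddGroup.eq_zero_iff _).2
    (AddSubgroup.subset_closure (Or.inr ⟨C, C', g, h, x, rfl⟩))

/-- the class as a homomorphism -/
noncomputable def clM (C : CycSub G) : (MonoidAlgebra R C.1)ˣ →* Multiplicative (ColimU R G) :=
  MonoidHom.mk' (fun x => Multiplicative.ofAdd (cl C x)) (cl_mul C)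

theorem cl_one (C : CycSub G) : cl C (1 : (MonoidAlgebra R C.1)ˣ) = 0 := map_one (clM C)

theorem cl_pow (C : CycSub G) (x : (MonoidAlgebra R C.1)ˣ) (n : ℕ) :
    cl C (x ^ n) = n • cl C x := map_pow (clM C) x n

theorem cl_inv (C : CycSub G) (x : (MonoidAlgebra R C.1)ˣ) :
    cl C x⁻¹ = -cl C x := map_inv (clM C) x

theorem cl_list (C : CycSub G) (l : List (MonoidAlgebra R C.1)ˣ) :
    cl C l.prod = (l.map (cl C)).sum := by
  induction l with
  | nil => exact cl_one C
  | cons a l ih => rw [List.prod_cons, cl_mul, ih, List.map_cons, List.sum_cons]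

theorem assembly_cl (C : CycSub G) (x : (MonoidAlgebra R C.1)ˣ) :
    assembly R G (cl C x) = incWh C x := FreeAbelianGroup.lift_apply_of _ _

theorem colim_induction {P : ColimU R G → Prop} (h0 : P 0)
    (h1 : ∀ (C : CycSub G) (x : (MonoidAlgebra R C.1)ˣ), P (cl C x))
    (h2 : ∀ a b, P a → P b → P (a + b)) (z : ColimU R G) : P z := by
  obtain ⟨y, rfl⟩ : ∃ y, toColim R G y = z := QuotientAddGroup.mk_surjective z
  induction y using FreeAbelianGroup.induction_on with
  | zero => rw [map_zero]; exact h0
  | of x => exact h1 x.C x.x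
  | neg x _ =>
    rw [map_neg]
    change P (-cl x.C x.x)
    rw [← cl_inv]
    exact h1 _ _
  | add x y hx hy => rw [map_add]; exact h2 _ _ hx hy

end Cl

section Lift

variable {R : Type u} [CommRing R] {G : Type v} [Group G] {A : Type w} [AddCommGroup A]

/-- Homomorphisms from the colimit. -/
theorem exists_lift (e : ∀ C : CycSub G, (MonoidAlgebra R C.1)ˣ → A)
    (hm : ∀ C x y, e C (x * y) = e C x + e C y)
    (hc : ∀ (C C' : CycSub G) (g : G) (h : ∀ a ∈ C.1, g * a * g⁻¹ ∈ C'.1) x,
      e C' (unitsMap (conjHom g C.1 C'.1 h) x) = e C x) :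
    ∃ F : ColimU R G →+ A, ∀ C x, F (cl C x) = e C x := by
  let E : FreeAbelianGroup (CycUnit R G) →+ A := FreeAbelianGroup.lift fun a => e a.C a.x
  have hE : colimRel R G ≤ E.ker := by
    rw [colimRel, AddSubgroup.closure_le]
    rintro z (⟨C, x, y, rfl⟩ | ⟨C, C', g, h, x, rfl⟩)
    · change E (gen C (x * y) - (gen C x + gen C y)) = 0
      rw [map_sub, map_add, gen, gen, gen, FreeAbelianGroup.lift_apply_of,
        FreeAbelianGroup.lift_apply_of, FreeAbelianGroup.lift_apply_of]
      exact sub_eq_zero.2 (hm C x y)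
    · change E (gen C' (unitsMap (conjHom g C.1 C'.1 h) x) - gen C x) = 0
      rw [map_sub, gen, gen, FreeAbelianGroup.lift_apply_of, FreeAbelianGroup.lift_apply_of]
      exact sub_eq_zero.2 (hc C C' g h x)
  exact ⟨QuotientAddGroup.lift (colimRel R G) E hE,
    fun C x => FreeAbelianGroup.lift_apply_of _ _⟩

end Lift

section Ring

variable {R : Type u} [CommRing R] {S : Type t} [CommRing S] (φ : R →+* S)

/-- change of rings for units of group rings -/
noncomputable def uMap (H : Type v) [Group H] : (MonoidAlgebra R H)ˣ →* (MonoidAlgebra S H)ˣ :=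
  Units.map (MonoidAlgebra.mapRingHom H φ).toMonoidHom

theorem uMap_val (H : Type v) [Group H] (x : (MonoidAlgebra R H)ˣ) :
    (uMap φ H x : MonoidAlgebra S H) = MonoidAlgebra.mapRingHom H φ (x : MonoidAlgebra R H) := rfl

theorem uMap_unitsMap {F : Type v} {F' : Type w} [Group F] [Group F'] (ψ : F →* F')
    (x : (MonoidAlgebra R F)ˣ) : uMap φ F' (unitsMap ψ x) = unitsMap ψ (uMap φ F x) := by
  apply Units.ext
  exact congrArg (fun g : MonoidAlgebra R F →+* MonoidAlgebra S F' => g x)
    (MonoidAlgebra.mapRingHom_comp_mapDomainRingHom φ ψ)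

variable (G : Type v) [Group G]

theorem exists_ringMap : ∃ F : ColimU R G →+ ColimU S G,
    ∀ C x, F (cl C x) = cl C (uMap φ C.1 x) := by
  refine exists_lift (fun C x => cl C (uMap φ C.1 x)) ?_ ?_
  · intro C x y
    rw [map_mul, cl_mul]
  · intro C C' g h x
    rw [uMap_unitsMap, cl_conj]

/-- change of rings for the colimit -/
noncomputable def colimMap : ColimU R G →+ ColimU S G := (exists_ringMap φ G).choose

theorem colimMap_cl (C : CycSub G) (x : (MonoidAlgebra R C.1)ˣ) :
    colimMap φ G (cl C x) = cl C (uMap φ C.1 x) := (exists_ringMap φ G).choose_spec C x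

end Ring

end Pool.Agent.H71.KP

end

section

/-!
# Restriction of units to subgroups
-/

set_option autoImplicit false
set_option linter.unusedSectionVars false
set_option linter.unusedSimpArgs false

open Matrix
open scoped Classical

universe u v w t

namespace Pool.Agent.H71.KP

theorem out_mem_iff {F : Type v} [Group F] (D : Subgroup F) (h : F) (x y : F ⧸ D) :
    x.out⁻¹ * h * y.out ∈ D ↔ x = h • y := by
  have h1 : h • y = ((h * y.out : F) : F ⧸ D) := by
    conv_lhs => rw [← QuotientGroup.out_eq' y]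
    rfl
  rw [h1]
  conv_rhs => rw [← QuotientGroup.out_eq' x]
  rw [QuotientGroup.eq, mul_assoc]

section Lam

variable (R : Type u) [CommRing R] {F : Type v} [Group F]

/-- The monomial matrix over `R[D]` of left multiplication by `h` on the free right `R[D]`-module
`R[F]`. -/
noncomputable def resMat (D : Subgroup F) (h : F) :
    Matrix (F ⧸ D) (F ⧸ D) (MonoidAlgebra R D) :=
  Matrix.of fun x y => if hh : x.out⁻¹ * h * y.out ∈ D then
    MonoidAlgebra.single (⟨x.out⁻¹ * h * y.out, hh⟩ : D) 1 else 0

/-- The restriction homomorphism `R[F] → Mat_{F/D}(R[D])`. -/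
noncomputable def resA (D : Subgroup F) [Fintype (F ⧸ D)] :
    MonoidAlgebra R F →ₐ[R] Matrix (F ⧸ D) (F ⧸ D) (MonoidAlgebra R D) :=
  MonoidAlgebra.lift R _ F
    { toFun := resMat R D
      map_one' := by
        refine Matrix.ext fun x y => ?_
        rw [resMat, of_apply, Matrix.one_apply]
        by_cases hxy : x = y
        · subst hxy
          have : x.out⁻¹ * 1 * x.out ∈ D := by simp
          rw [dif_pos this, if_pos rfl, MonoidAlgebra.one_def]
          refine congrArg (fun g : D => MonoidAlgebra.single g (1 : R)) (Subtype.ext ?_)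
          simp
        · rw [dif_neg, if_neg hxy]
          rw [out_mem_iff, one_smul]
          exact hxy
      map_mul' := by
        intro h h'
        refine Matrix.ext fun x z => ?_
        rw [Matrix.mul_apply, Finset.sum_eq_single (h' • z)]
        · simp only [resMat, of_apply]
          have h1 : (h' • z).out⁻¹ * h' * z.out ∈ D := (out_mem_iff D h' _ z).2 rfl
          rw [dif_pos h1]
          by_cases h2 : x.out⁻¹ * h * (h' • z).out ∈ D
          · have h3 : x.out⁻¹ * (h * h') * z.out ∈ D := by
              have := D.mul_mem h2 h1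
              have e : x.out⁻¹ * h * (h' • z).out * ((h' • z).out⁻¹ * h' * z.out) =
                x.out⁻¹ * (h * h') * z.out := by group
              rwa [e] at this
            rw [dif_pos h2, dif_pos h3, MonoidAlgebra.single_mul_single, one_mul]
            refine congrArg (fun g : D => MonoidAlgebra.single g (1 : R)) (Subtype.ext ?_)
            simp only [Subgroup.coe_mul]
            group
          · have h3 : ¬ x.out⁻¹ * (h * h') * z.out ∈ D := by
              intro h3
              apply h2
              rw [out_mem_iff] at h3 ⊢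
              rw [h3, mul_smul]
            rw [dif_neg h2, dif_neg h3, zero_mul]
        · intro y _ hy
          simp only [resMat, of_apply]
          have : ¬ y.out⁻¹ * h' * z.out ∈ D := by
            rw [out_mem_iff]
            exact hy
          rw [dif_neg this, mul_zero]
        · intro h1
          exact absurd (Finset.mem_univ _) h1 }

theorem resA_single (D : Subgroup F) [Fintype (F ⧸ D)] (h : F) (r : R) (x y : F ⧸ D) :
    resA R D (MonoidAlgebra.single h r) x y = if hh : x.out⁻¹ * h * y.out ∈ D then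
      MonoidAlgebra.single (⟨x.out⁻¹ * h * y.out, hh⟩ : D) r else 0 := by
  rw [resA, MonoidAlgebra.lift_single]
  change r • (resMat R D h) x y = _
  rw [resMat, of_apply]
  split_ifs
  · rw [MonoidAlgebra.smul_single, smul_eq_mul, mul_one]
  · rw [smul_zero]

/-- the restriction as a ring homomorphism -/
noncomputable def resR (D : Subgroup F) [Fintype (F ⧸ D)] :
    MonoidAlgebra R F →+* Matrix (F ⧸ D) (F ⧸ D) (MonoidAlgebra R D) := (resA R D).toRingHom

theorem resR_map {S : Type t} [CommRing S] (φ : R →+* S) (D : Subgroup F) [Fintype (F ⧸ D)]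
    (x : MonoidAlgebra R F) : resR S D (MonoidAlgebra.mapRingHom F φ x) =
      (resR R D x).map (MonoidAlgebra.mapRingHom D φ) := by
  induction x using MonoidAlgebra.induction_linear with
  | zero =>
    rw [map_zero, map_zero, map_zero]
    exact (Matrix.map_zero _ (map_zero _)).symm
  | add x y hx hy =>
    rw [map_add, map_add, map_add, hx, hy, Matrix.map_add _ (map_add _)]
  | single h r =>
    refine Matrix.ext fun a b => ?_
    rw [MonoidAlgebra.mapRingHom_single, Matrix.map_apply]
    change resA S D (MonoidAlgebra.single h (φ r)) a b =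
      MonoidAlgebra.mapRingHom D φ (resA R D (MonoidAlgebra.single h r) a b)
    rw [resA_single, resA_single]
    split_ifs
    · rw [MonoidAlgebra.mapRingHom_single]
    · rw [map_zero]

end Lam

section Comm

variable {R : Type u} [CommRing R] {H : Type w} [CommGroup H]

/-- The restriction of units, given by the determinant. -/
noncomputable def resU (E : Subgroup H) [Fintype (H ⧸ E)] :
    (MonoidAlgebra R H)ˣ →* (MonoidAlgebra R E)ˣ :=
  (Units.map (detMonoidHom : Matrix (H ⧸ E) (H ⧸ E) (MonoidAlgebra R E) →* MonoidAlgebra R E)).comp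
    (Units.map (resR R E).toMonoidHom)

theorem resU_val (E : Subgroup H) [Fintype (H ⧸ E)] (x : (MonoidAlgebra R H)ˣ) :
    (resU E x : MonoidAlgebra R E) = det (resR R E (x : MonoidAlgebra R H)) := rfl

theorem uMap_resU {S : Type t} [CommRing S] (φ : R →+* S) (E : Subgroup H) [Fintype (H ⧸ E)]
    (x : (MonoidAlgebra R H)ˣ) : uMap φ E (resU E x) = resU E (uMap φ H x) := by
  apply Units.ext
  rw [uMap_val, resU_val, resU_val, uMap_val, resR_map, RingHom.map_det]
  rfl

/-- the product of the restriction and the induction -/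
noncomputable def ir (E : Subgroup H) [Fintype (H ⧸ E)] (x : (MonoidAlgebra R H)ˣ) :
    (MonoidAlgebra R H)ˣ := unitsMap E.subtype (resU E x)

end Comm

end Pool.Agent.H71.KP

end

section

/-!
# From units of finite cyclic subgroups to `K₁` of finite subgroups
-/

set_option autoImplicit false
set_option linter.unusedSectionVars false

open Matrix

universe u v w

namespace Pool.Agent.H71.DO

open Pool.Agent.H95.WH (K1 K1.mk K1.unit K1.map K1.map_unit K1.map_map K1_map_conj FamSub conjHom K1.lift K1.lift_mk FinSub K1.hom_ext K1.unit_mul)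
open Pool.Agent.H71.WH (CycSub)

section K1

variable (A : Type u) [Ring A]

theorem stab_eq {n : ℕ} (U : (Matrix (Fin n) (Fin n) A)ˣ) :
    Pool.Agent.H95.WH.stab U = Pool.Agent.H71.WH.addOne U := Units.ext rfl

end K1

variable (R : Type u) [CommRing R] (G : Type v) [Group G]

/-- a finite cyclic subgroup as a finite subgroup -/
def toFin (C : CycSub G) : FamSub G FinSub := ⟨C.1, C.2.1⟩

/-- Artin induction for `K₁`. -/
def HArt : Prop := ∀ (F : Type v) [Group F] [Finite F] (x : K1 (MonoidAlgebra R F)),
  ∃ (m r : ℕ) (D : Fin r → Subgroup F) (y : ∀ i, K1 (MonoidAlgebra R (D i))),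
    0 < m ∧ (∀ i, IsCyclic (D i)) ∧ m • x = ∑ i, ind R (D i).subtype (y i)

/-- `K₁` of group rings of finite cyclic groups is generated by units up to torsion. -/
def HUnit : Prop := ∀ (C : Type v) [Group C] [Finite C] [IsCyclic C] (y : K1 (MonoidAlgebra R C)),
  ∃ (m : ℕ) (x : (MonoidAlgebra R C)ˣ), 0 < m ∧ m • y = K1.unit x

end Pool.Agent.H71.DO

end
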