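import Pool.Agent.H13.TFQ.H71.FQ.FRingA
import Pool.Agent.H13.TFQ.M03

/-! The parts of this file: H71.FQ.FRingA_1, H71.FQ.TB_1. -/

section

/-!
# Project FQ: the free ring and its functionals, first part

`FR G ι B` is the monoid ring of the words with coefficients in the matrices over `B`; `io l a` is the element of
degree one with label `l` defined by a matrix `a` over `B[G]`: the sum over `x ∈ G` of the coefficient of `a` at `x`
(a matrix over `B`) times the letter `(x, l)`. `lam Ψ X` is the sum over the words `W` of the trace of the coefficient
of `X` at `W` times `Ψ W`.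

PROOFS: everything is additive in the matrices; check on `Matrix.single i j (MonoidAlgebra.single x r)` and on the
monomials `MonoidAlgebra.single W A`.
-/

set_option autoImplicit false

open Matrix

universe u v w

namespace Pool.Agent.H71.FQ

section

variable {G : Type u} [Group G] {ι : Type v} [Fintype ι] [DecidableEq ι] {B : Type w} [CommRing B]

theorem lam_congr {Ψ Ψ' : Wd G → B} {X : FR G ι B} (h : ∀ W ∈ X.coeff.support, Ψ W = Ψ' W) :
    lam Ψ X = lam Ψ' X := by
  rw [lam_apply, lam_apply]
  exact Finset.sum_congr rfl fun W hW => by simp only [h W hW]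

theorem lam_sum {κ : Type*} (s : Finset κ) (a : κ → ℤ) (Ψ : κ → Wd G → B) (X : FR G ι B) :
    lam (fun W => ∑ i ∈ s, a i • Ψ i W) X = ∑ i ∈ s, a i • lam (Ψ i) X := by
  simp only [lam_apply, Finsupp.sum, Finset.mul_sum, Finset.smul_sum]
  rw [Finset.sum_comm]
  refine Finset.sum_congr rfl fun k _ => Finset.sum_congr rfl fun W _ => ?_
  rw [mul_smul_comm]

theorem lam_merge {Ψ : Wd G → B} {l i : ℕ}
    (h : ∀ V W x y, Ψ (V * let1 x l * let1 y i * W) = Ψ (V * let1 (x * y) l * W))
    (X Y : FR G ι B) (a b : Matrix ι ι (MonoidAlgebra B G)) :
    lam Ψ (X * io l a * io i b * Y) = lam Ψ (X * io l (a * b) * Y) := by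
  induction X using MonoidAlgebra.induction_linear with
  | zero => simp
  | add f g hf hg => simp only [add_mul, map_add, hf, hg]
  | single V A =>
    induction Y using MonoidAlgebra.induction_linear with
    | zero => simp
    | add f g hf hg => simp only [mul_add, map_add, hf, hg]
    | single W A' =>
      induction a using mat_induction with
      | h0 => simp
      | hadd a a' ha ha' => simp only [add_mul, mul_add, map_add, ha, ha']
      | h1 i1 j1 x r =>
        induction b using mat_induction with
        | h0 => simp
        | hadd b b' hb hb' => simp only [add_mul, mul_add, map_add, hb, hb']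
        | h1 i2 j2 y s =>
          rw [io_single, io_single, MonoidAlgebra.single_mul_single, MonoidAlgebra.single_mul_single,
            MonoidAlgebra.single_mul_single, lam_single, h]
          by_cases hji : j1 = i2
          · subst hji
            rw [Matrix.single_mul_single_same, MonoidAlgebra.single_mul_single, io_single,
              MonoidAlgebra.single_mul_single, MonoidAlgebra.single_mul_single, lam_single,
              mul_assoc A, Matrix.single_mul_single_same]
          · rw [Matrix.single_mul_single_of_ne _ _ _ _ hji, map_zero, mul_zero, zero_mul, map_zero,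
              mul_assoc A, Matrix.single_mul_single_of_ne _ _ _ _ hji, mul_zero, zero_mul,
              Matrix.trace_zero, zero_mul]

/-- a matrix over `B[D]` between two factors -/
theorem lam_move (D : Subgroup G) {Ψ : Wd G → B} {l i : ℕ}
    (h : ∀ V W x y, ∀ s ∈ D, Ψ (V * let1 (x * s) l * let1 y i * W) = Ψ (V * let1 x l * let1 (s * y) i * W))
    (X Y : FR G ι B) (a b : Matrix ι ι (MonoidAlgebra B G)) (s : Matrix ι ι (MonoidAlgebra B D)) :
    lam Ψ (X * io l (a * s.map (MonoidAlgebra.mapDomainRingHom B D.subtype)) * io i b * Y) =
      lam Ψ (X * io l a * io i (s.map (MonoidAlgebra.mapDomainRingHom B D.subtype) * b) * Y) := by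
  induction X using MonoidAlgebra.induction_linear with
  | zero => simp
  | add f g hf hg => simp only [add_mul, map_add, hf, hg]
  | single V A =>
    induction Y using MonoidAlgebra.induction_linear with
    | zero => simp
    | add f g hf hg => simp only [mul_add, map_add, hf, hg]
    | single W A' =>
      induction a using mat_induction with
      | h0 => simp
      | hadd a a' ha ha' => simp only [add_mul, mul_add, map_add, ha, ha']
      | h1 i1 j1 x r =>
        induction b using mat_induction with
        | h0 => simp
        | hadd b b' hb hb' => simp only [add_mul, mul_add, map_add, hb, hb']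
        | h1 i2 j2 y r' =>
          induction s using mat_induction with
          | h0 => simp
          | hadd s s' hs hs' =>
              rw [Matrix.map_add _ (map_add _)]
              simp only [add_mul, mul_add, map_add, hs, hs']
          | h1 i3 j3 t r3 =>
            have hm : (Matrix.single i3 j3 (MonoidAlgebra.single t r3)).map
                (MonoidAlgebra.mapDomainRingHom B D.subtype)
                = Matrix.single i3 j3 (MonoidAlgebra.single (t : G) r3) := by
              rw [Matrix.map_single]
              simp
            rw [hm]
            by_cases h1 : j1 = i3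
            · subst h1
              by_cases h2 : j3 = i2
              · subst h2
                rw [Matrix.single_mul_single_same, Matrix.single_mul_single_same,
                  MonoidAlgebra.single_mul_single, MonoidAlgebra.single_mul_single, io_single,
                  io_single, io_single, io_single]
                simp only [MonoidAlgebra.single_mul_single, lam_single]
                rw [h _ _ _ _ _ t.2]
                simp only [mul_assoc A, Matrix.single_mul_single_same]
                rw [mul_assoc]
              · rw [Matrix.single_mul_single_same, Matrix.single_mul_single_of_ne _ _ _ _ h2,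
                  MonoidAlgebra.single_mul_single, io_single, io_single, map_zero]
                simp only [MonoidAlgebra.single_mul_single, lam_single, mul_zero, zero_mul, map_zero]
                simp only [mul_assoc A, Matrix.single_mul_single_of_ne _ _ _ _ h2, mul_zero,
                  zero_mul, Matrix.trace_zero]
            · by_cases h2 : j3 = i2
              · subst h2
                rw [Matrix.single_mul_single_of_ne _ _ _ _ h1, Matrix.single_mul_single_same,
                  MonoidAlgebra.single_mul_single, map_zero]
                simp only [io_single, MonoidAlgebra.single_mul_single, lam_single, mul_zero, zero_mul,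
                  map_zero]
                simp only [mul_assoc A, Matrix.single_mul_single_of_ne _ _ _ _ h1, mul_zero,
                  zero_mul, Matrix.trace_zero]
              · rw [Matrix.single_mul_single_of_ne _ _ _ _ h1,
                  Matrix.single_mul_single_of_ne _ _ _ _ h2, map_zero, map_zero]
                simp

end

end Pool.Agent.H71.FQ

end

section

/-!
# Project FQ: the functions `TB`

`TB c Φ b` is the value of the functional of `Φ` on the power `(∏_j io j (b j)) ^ q`.

PROOFS. `TB_congr`: `lam_pow` with the subring `balR`; if `b' j = b j + p • d j` then the product of the `io j (b' j)` is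
the product of the `io j (b j)` plus `p • y`, `y` in `balR`. `TB_merge_succ`: in `(∏_j io j (b j)) ^ q` replace
successively each `io i (b i) * io (i + 1) (b (i + 1))` by `io i (b i * b (i + 1))` (`lam_merge`, the label `i + 1` is
not read), then change the labels (`lam_relR`; extend `succAbove` to an injection of `ℕ`) and use `wf_comp` for the
left side. `TB_merge_zero`: first move the first letter to the end (`wf_rot` with `r = 0`, the label `0` is not read).
-/

set_option autoImplicit false

open Matrix

universe u v w

namespace Pool.Agent.H71.FQ

section

variable {G : Type u} [Group G] {ι : Type v} [Fintype ι] [DecidableEq ι] {B : Type w} [CommRing B]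

/-- the words in the support have each of the labels `0, …, k - 1` once and no other label -/
def Once (k : ℕ) (X : FR G ι B) : Prop :=
  ∀ W ∈ X.coeff.support, ∀ i, cnt i W = if i < k then 1 else 0

theorem Once.add {k : ℕ} {X Y : FR G ι B} (hX : Once k X) (hY : Once k Y) : Once k (X + Y) := by
  classical
  intro W hW i
  rw [MonoidAlgebra.coeff_add] at hW
  rcases Finset.mem_union.1 (Finsupp.support_add hW) with h | h
  · exact hX W h i
  · exact hY W h i

theorem Once.mul_io {k : ℕ} {X : FR G ι B} (hX : Once k X)
    (a : Matrix ι ι (MonoidAlgebra B G)) : Once (k + 1) (X * io k a) := by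
  classical
  intro W hW i
  obtain ⟨V, hV, U, hU, rfl⟩ := Finset.mem_mul.1 (MonoidAlgebra.support_coeff_mul_subset _ _ hW)
  obtain ⟨x, rfl⟩ := io_support k a hU
  rw [cnt_mul, hX V hV i, cnt_let1]
  by_cases h1 : i < k
  · rw [if_pos h1, if_neg (by omega), if_pos (by omega)]
  · by_cases h2 : k = i
    · rw [if_neg h1, if_pos h2, if_pos (by omega)]
    · rw [if_neg h1, if_neg h2, if_neg (by omega)]

theorem once_one : Once 0 (1 : FR G ι B) := by
  classical
  intro W hW i
  have h1 : W = 1 := by
    by_contra h
    rw [Finsupp.mem_support_iff] at hW
    apply hW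
    rw [MonoidAlgebra.one_def, MonoidAlgebra.coeff_single, Finsupp.single_eq_of_ne h]
  rw [h1, cnt_one, if_neg (Nat.not_lt_zero i)]

theorem prod_once {k : ℕ} (b : Fin k → Matrix ι ι (MonoidAlgebra B G)) :
    Once k (List.ofFn fun j : Fin k => (io (j : ℕ) (b j) : FR G ι B)).prod := by
  induction k with
  | zero =>
    rw [List.ofFn_zero, List.prod_nil]
    exact once_one
  | succ k ih =>
    rw [List.ofFn_succ', List.concat_eq_append, List.prod_append, List.prod_singleton]
    exact (ih fun j => b j.castSucc).mul_io (b (Fin.last k))

/-- the product of the `io j (b' j)`, `b' = b + p d` -/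
theorem exists_prod_add {p k : ℕ} (b b' : Fin k → Matrix ι ι (MonoidAlgebra B G))
    (h : ∀ j, ∃ d, b' j = b j + p • d) : ∃ y : FR G ι B, Once k y ∧
      (List.ofFn fun j : Fin k => (io (j : ℕ) (b' j) : FR G ι B)).prod =
        (List.ofFn fun j : Fin k => (io (j : ℕ) (b j) : FR G ι B)).prod + p • y := by
  induction k with
  | zero =>
    refine ⟨0, ?_, ?_⟩
    · intro W hW
      rw [MonoidAlgebra.coeff_zero, Finsupp.support_zero] at hW
      exact absurd hW (Finset.notMem_empty W)
    · rw [List.ofFn_zero, List.ofFn_zero, smul_zero, add_zero]
  | succ k ih =>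
    obtain ⟨y, hy, hyp⟩ := ih (fun j => b j.castSucc) (fun j => b' j.castSucc)
      (fun j => h j.castSucc)
    obtain ⟨d, hd⟩ := h (Fin.last k)
    refine ⟨y * io k (b (Fin.last k)) +
      (List.ofFn fun j : Fin k => (io (j : ℕ) (b' j.castSucc) : FR G ι B)).prod * io k d,
      (hy.mul_io _).add ((prod_once fun j => b' j.castSucc).mul_io _), ?_⟩
    rw [List.ofFn_succ', List.concat_eq_append, List.prod_append, List.prod_singleton,
      List.ofFn_succ', List.concat_eq_append, List.prod_append, List.prod_singleton]
    simp only [Fin.val_castSucc, Fin.val_last]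
    rw [hd, map_add, map_nsmul, mul_add, smul_add, mul_smul_comm]
    nth_rewrite 1 [hyp]
    rw [add_mul, smul_mul_assoc, add_assoc]

/-- a product with two marked neighbouring factors -/
theorem exists_split {R : Type*} [Monoid R] (n : ℕ) (f : Fin (n + 2) → R) (i : Fin (n + 1)) :
    ∃ A C : R, (List.ofFn f).prod = A * f i.castSucc * f i.succ * C ∧
      ∀ g : Fin (n + 1) → R, (∀ j, j < i → g j = f j.castSucc) → (∀ j, i < j → g j = f j.succ) →
        (List.ofFn g).prod = A * g i * C := by
  induction n with
  | zero =>
    have hi : i = 0 := Fin.ext (by omega)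
    subst hi
    refine ⟨1, 1, ?_, ?_⟩
    · simp [List.ofFn_succ]
    · intro g _ _
      simp [List.ofFn_succ]
  | succ n ih =>
    refine Fin.cases ?_ (fun i' => ?_) i
    · refine ⟨1, (List.ofFn fun j : Fin (n + 1) => f j.succ.succ).prod, ?_, ?_⟩
      · rw [List.ofFn_succ, List.prod_cons, List.ofFn_succ, List.prod_cons, Fin.castSucc_zero,
          one_mul, mul_assoc]
      · intro g _ h2
        rw [List.ofFn_succ, List.prod_cons, one_mul]
        congr 2
        congr 1
        funext j
        exact h2 j.succ (Fin.succ_pos j)
    · obtain ⟨A, C, h1, h2⟩ := ih (fun j => f j.succ) i'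
      refine ⟨f 0 * A, C, ?_, ?_⟩
      · rw [List.ofFn_succ, List.prod_cons, h1, Fin.castSucc_succ]
        simp only [mul_assoc]
      · intro g hg1 hg2
        rw [List.ofFn_succ, List.prod_cons, h2 (fun j => g j.succ)
          (fun j hj => hg1 j.succ (Fin.succ_lt_succ_iff.2 hj))
          (fun j hj => hg2 j.succ (Fin.succ_lt_succ_iff.2 hj)), hg1 0 (Fin.succ_pos i')]
        simp only [mul_assoc, Fin.castSucc_zero]

/-- merging two neighbouring factors in a power -/
theorem lam_merge_pow {Ψ : Wd G → B} {l i : ℕ}
    (h : ∀ V W x y, Ψ (V * let1 x l * let1 y i * W) = Ψ (V * let1 (x * y) l * W))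
    (A C : FR G ι B) (a b : Matrix ι ι (MonoidAlgebra B G)) (q : ℕ) (X Y : FR G ι B) :
    lam Ψ (X * (A * io l a * io i b * C) ^ q * Y) = lam Ψ (X * (A * io l (a * b) * C) ^ q * Y) := by
  induction q generalizing Y with
  | zero => rw [pow_zero, pow_zero]
  | succ q ih =>
    rw [pow_succ, pow_succ, ← mul_assoc, mul_assoc (X * _) _ Y, ih, ← mul_assoc X,
      mul_assoc (X * _) _ Y]
    have h1 := lam_merge h (X * (A * io l (a * b) * C) ^ q * A) (C * Y) a b
    simp only [mul_assoc] at h1 ⊢
    exact h1

end

section

end

end Pool.Agent.H71.FQ

end
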