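import Pool.Agent.H13.TFQ.H71.FQ.HG
import Pool.Agent.H13.TFQ.H71.FQ.TB
import Pool.Agent.H13.TFQ.M05

/-! The parts of this file: H71.FQ.TCls, H71.FQ.TB_2. -/

section

/-!
# Project FQ: the functionals of the K-groups of `K[G]`

`LD K p m` is a commutative ring `B` with `p ^ (m + 1) = 0` and a surjection to `K` with kernel `p B`. A function `Φ`
of tuples (`IsPhi`) defines the cocycle `TK Φ` of `GL_N(K[G])` with values in `B`: lift the matrices
`h_j⁻¹ h_{j+1}` (`j` cyclic) to matrices over `B[G]` and take `TB`. These cocycles are compatible with block sums and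
define `trT : KQ (K[G]) n →+ B`.

PROOFS. `TK_eq`: `TB_congr`; if two matrices over `B[G]` have the same image over `K[G]` their difference is
`p • d`. `TK_face`: `TB_merge_zero`, `TB_merge_succ` and `TK_eq` (the product of two lifts is a lift of the product).
`TK_blk`: `TB_blk` with the block sums of the lifts. `isCoc_TK`: left invariance is clear; the sum of the faces is the
`TK` of `v ↦ ∑ i, (-1) ^ i • Φ (v without v i) = 0` by `TK_face`, `TB_sum`. `trT_cob`: `TK` of a coboundary is the
coboundary of a `TK`; `HG.ev_cob`.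
-/

set_option autoImplicit false

open Matrix

universe u v w

namespace Pool.Agent.H71.FQ

/-- A ring in which `p ^ (m + 1) = 0` with a surjection to `K` with kernel `p B`. -/
structure LD (K : Type u) [CommRing K] (p m : ℕ) where
  /-- the ring -/
  B : Type u
  inst : CommRing B
  /-- the projection -/
  π : B →+* K
  surj : Function.Surjective π
  hker : ∀ b : B, π b = 0 → ∃ b' : B, b = (p : B) * b'
  hB : (p : B) ^ (m + 1) = 0
  hp : p.Prime

instance {K : Type u} [CommRing K] {p m : ℕ} (L : LD K p m) : CommRing L.B := L.inst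

section

variable {K : Type u} [CommRing K] {p m : ℕ} (L : LD K p m) {G : Type v} [Group G]

/-- the reduction of the matrices -/
noncomputable def LD.red {ι : Type*} (a : Matrix ι ι (MonoidAlgebra L.B G)) :
    Matrix ι ι (MonoidAlgebra K G) := a.map (MonoidAlgebra.mapRingHom G L.π)

theorem LD.exists_lift {ι : Type*} (X : Matrix ι ι (MonoidAlgebra K G)) :
    ∃ a : Matrix ι ι (MonoidAlgebra L.B G), L.red a = X := by
  classical
  let s : K → L.B := fun k => if k = 0 then 0 else (L.surj k).choose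
  have hs0 : s 0 = 0 := if_pos rfl
  have hs : ∀ k, L.π (s k) = k := by
    intro k
    by_cases hk : k = 0
    · subst hk
      rw [hs0, map_zero]
    · have h1 : s k = (L.surj k).choose := if_neg hk
      rw [h1]
      exact (L.surj k).choose_spec
  refine ⟨fun i j => MonoidAlgebra.ofCoeff ((X i j).coeff.mapRange s hs0), ?_⟩
  refine Matrix.ext fun i j => MonoidAlgebra.coeff_injective (Finsupp.ext fun g => ?_)
  change (MonoidAlgebra.mapRingHom G L.π (MonoidAlgebra.ofCoeff ((X i j).coeff.mapRange s hs0))).coeff g = _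
  rw [MonoidAlgebra.coeff_mapRingHom, MonoidAlgebra.coeff_ofCoeff, Finsupp.mapRange_apply, hs]

/-- a lift of a matrix -/
noncomputable def LD.lft {ι : Type*} (X : Matrix ι ι (MonoidAlgebra K G)) :
    Matrix ι ι (MonoidAlgebra L.B G) := (L.exists_lift X).choose

theorem LD.red_lft {ι : Type*} (X : Matrix ι ι (MonoidAlgebra K G)) : L.red (L.lft X) = X :=
  (L.exists_lift X).choose_spec

theorem LD.eq_add_smul {ι : Type*} (a a' : Matrix ι ι (MonoidAlgebra L.B G))
    (h : L.red a' = L.red a) : ∃ d, a' = a + p • d := by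
  classical
  let t : L.B → L.B := fun b => if hb : b ≠ 0 ∧ L.π b = 0 then (L.hker b hb.2).choose else 0
  have ht0 : t 0 = 0 := dif_neg (by simp)
  have ht : ∀ b, L.π b = 0 → (p : L.B) * t b = b := by
    intro b hb
    by_cases h0 : b = 0
    · subst h0
      rw [ht0, mul_zero]
    · have h1 : t b = (L.hker b hb).choose := dif_pos ⟨h0, hb⟩
      rw [h1]
      exact (L.hker b hb).choose_spec.symm
  refine ⟨fun i j => MonoidAlgebra.ofCoeff ((a' i j - a i j).coeff.mapRange t ht0), ?_⟩
  refine Matrix.ext fun i j => MonoidAlgebra.coeff_injective (Finsupp.ext fun g => ?_)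
  have h1 : L.π ((a' i j).coeff g - (a i j).coeff g) = 0 := by
    have h2 : (MonoidAlgebra.mapRingHom G L.π (a' i j)).coeff g =
        (MonoidAlgebra.mapRingHom G L.π (a i j)).coeff g :=
      congrArg (fun X : Matrix ι ι (MonoidAlgebra K G) => (X i j).coeff g) h
    rw [MonoidAlgebra.coeff_mapRingHom, MonoidAlgebra.coeff_mapRingHom] at h2
    rw [map_sub, h2, sub_self]
  have h3 : (a' i j - a i j).coeff g = (a' i j).coeff g - (a i j).coeff g := by
    rw [MonoidAlgebra.coeff_sub]
    rfl
  change (a' i j).coeff g = (a i j + p • MonoidAlgebra.ofCoeff ((a' i j - a i j).coeff.mapRange t ht0)).coeff g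
  rw [MonoidAlgebra.coeff_add, Finsupp.add_apply, MonoidAlgebra.coeff_smul, Finsupp.smul_apply,
    MonoidAlgebra.coeff_ofCoeff, Finsupp.mapRange_apply, h3, nsmul_eq_mul, ht _ h1]
  ring

theorem LD.red_mul {ι : Type*} [Fintype ι] (a b : Matrix ι ι (MonoidAlgebra L.B G)) :
    L.red (a * b) = L.red a * L.red b := by
  unfold LD.red
  exact Matrix.map_mul

/-- the successor of `j` after the omission of `i + 1`, for `j < i` -/
theorem succAbove_add_one_of_lt {k : ℕ} {i j : Fin (k + 1)} (h : j < i) :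
    i.succ.succAbove (j + 1) = j.castSucc + 1 := by
  have hj : j ≠ Fin.last k := fun hc => by
    rw [hc] at h
    exact absurd h (not_lt.mpr (Fin.le_last i))
  have h1 : ((j + 1 : Fin (k + 1)) : ℕ) = j + 1 := by rw [Fin.val_add_one, if_neg hj]
  have h2 : ((j.castSucc + 1 : Fin (k + 2)) : ℕ) = j + 1 := by
    rw [Fin.val_add_one, if_neg (Fin.castSucc_lt_last j).ne, Fin.val_castSucc]
  have h3 : (j + 1).castSucc < i.succ := by
    rw [Fin.lt_def, Fin.val_castSucc, Fin.val_succ, h1]
    have := Fin.lt_def.mp h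
    omega
  rw [Fin.succAbove_of_castSucc_lt _ _ h3]
  apply Fin.ext
  rw [Fin.val_castSucc, h1, h2]

/-- the successor of `j` after the omission of `i + 1`, for `i ≤ j` -/
theorem succAbove_add_one_of_le {k : ℕ} {i j : Fin (k + 1)} (h : i ≤ j) :
    i.succ.succAbove (j + 1) = j.succ + 1 := by
  by_cases hj : j = Fin.last k
  · rw [hj, Fin.last_add_one, Fin.succ_last, Fin.last_add_one]
    rw [Fin.succAbove_of_castSucc_lt _ _ (by rw [Fin.castSucc_zero]; exact Fin.succ_pos i),
      Fin.castSucc_zero]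
  · have h1 : ((j + 1 : Fin (k + 1)) : ℕ) = j + 1 := by rw [Fin.val_add_one, if_neg hj]
    have h3 : i.succ ≤ (j + 1).castSucc := by
      rw [Fin.le_def, Fin.val_castSucc, Fin.val_succ, h1]
      have := Fin.le_def.mp h
      omega
    rw [Fin.succAbove_of_le_castSucc _ _ h3]
    apply Fin.ext
    rw [Fin.val_succ, h1, Fin.val_add_one, if_neg (fun hc => hj (Fin.succ_injective _ (by rw [hc, Fin.succ_last]))), Fin.val_succ]

variable {n : ℕ} {c : G}

theorem HG.ev_add {Γ : Type*} [Group Γ] {M : Type*} [AddCommGroup M]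
    {φ φ₁ φ₂ : (Fin (n + 2) → Γ) → M} (hφ : IsCoc Γ n φ) (h₁ : IsCoc Γ n φ₁) (h₂ : IsCoc Γ n φ₂)
    (h : ∀ x, φ x = φ₁ x + φ₂ x) (x : HG Γ n) : HG.ev hφ x = HG.ev h₁ x + HG.ev h₂ x := by
  obtain ⟨z, rfl⟩ := HG.mk_surjective x
  rw [HG.ev_mk, HG.ev_mk, HG.ev_mk]
  obtain rfl : φ = fun x => φ₁ x + φ₂ x := funext h
  simp only [Finsupp.linearCombination_apply, Finsupp.sum, smul_add, Finset.sum_add_distrib]

end

end Pool.Agent.H71.FQ

end

section

/-!
# Project FQ: the functions `TB`

`TB c Φ b` is the value of the functional of `Φ` on the power `(∏_j io j (b j)) ^ q`.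

PROOFS. `TB_congr`: `lam_pow` with the subring `balR`; if `b' j = b j + p • d j` then the product of the `io j (b' j)` is
the product of the `io j (b j)` plus `p • y`, `y` in `balR`. `TB_merge_succ`: in `(∏_j io j (b j)) ^ q` replace
successively each `io i (b i) * io (i + 1) (b (i + 1))` by `io i (b i * b (i + 1))` (`lam_merge`, the label `i + 1` is
not read), then change the labels (`lam_relR`; extend `succAbove` to an injection of `ℕ`) and use `wf_comp` for the
left side. `TB_merge_zero`: first move the first letter to the end (`wf_rot` with `r = 0`, the label `0` is not read).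
-/

set_option autoImplicit false

open Matrix

universe u v w

namespace Pool.Agent.H71.FQ

section

variable {G : Type u} [Group G] {ι : Type v} [Fintype ι] [DecidableEq ι] {B : Type w} [CommRing B]

theorem Once.bal {k : ℕ} {X : FR G ι B} (hX : Once k X) : X ∈ balR G ι B k := by
  intro W hW
  refine ⟨1, fun i hi => ?_⟩
  rw [hX W hW i, if_pos hi]

/-- **Independence of the lifts.** -/
theorem TB_congr {p : ℕ} (hp : p.Prime) {m : ℕ} (hB : (p : B) ^ (m + 1) = 0) {c : G} {k : ℕ}
    {Φ : (Fin k → Fin (p ^ m) → G) → B} (hΦ : IsInv c Φ)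
    (b b' : Fin k → Matrix ι ι (MonoidAlgebra B G)) (h : ∀ j, ∃ d, b' j = b j + p • d) :
    TB c Φ b' = TB c Φ b := by
  obtain ⟨y, hy, hyp⟩ := exists_prod_add (p := p) b b' h
  unfold TB
  rw [hyp]
  exact lam_pow (lam (wf c Φ fun j => (j : ℕ))) (balR G ι B k) (fun x hx z _ => lam_bal hΦ hx) hp hB
    (prod_once b).bal hy.bal

theorem relR_prod_io (ρ : ℕ → ℕ) {k : ℕ} (b : Fin k → Matrix ι ι (MonoidAlgebra B G)) :
    relR ρ (List.ofFn fun j : Fin k => (io (j : ℕ) (b j) : FR G ι B)).prod =
      (List.ofFn fun j : Fin k => (io (ρ j) (b j) : FR G ι B)).prod := by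
  rw [map_list_prod, List.map_ofFn]
  congr 2
  funext j
  exact relR_io ρ _ _

/-- the value on a power, the labels changed by an injection -/
theorem TB_relab {k q : ℕ} {c : G} {Φ : (Fin k → Fin q → G) → B} (hΦ : IsInv c Φ) {ρ : ℕ → ℕ}
    (hρ : Function.Injective ρ) (b : Fin k → Matrix ι ι (MonoidAlgebra B G)) :
    TB c Φ b = lam (wf c Φ fun j => ρ j)
      ((List.ofFn fun j : Fin k => (io (ρ j) (b j) : FR G ι B)).prod ^ q) := by
  rw [← relR_prod_io, ← map_pow, lam_relR ρ fun W => wf_relab hΦ (fun j : Fin k => (j : ℕ)) hρ W]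
  rfl

theorem TB_merge_zero {n q : ℕ} (hq : 0 < q) {c : G} {Φ : (Fin (n + 1) → Fin q → G) → B}
    (hΦ : IsInv c Φ) (b : Fin (n + 2) → Matrix ι ι (MonoidAlgebra B G)) :
    TB c (fun v : Fin (n + 2) → Fin q → G => Φ fun j => v j.succ) b =
      TB c Φ fun j => if j = Fin.last n then b (Fin.last (n + 1)) * b 0 else b j.succ := by
  obtain ⟨k, rfl⟩ : ∃ k, q = k + 1 := ⟨q - 1, by omega⟩
  rw [TB_relab hΦ (ρ := fun j => j + 1) (fun x y h => Nat.succ_injective h)]
  unfold TB
  rw [lam_congr (Ψ' := wf c Φ fun j : Fin (n + 1) => (j : ℕ) + 1) fun W hW => by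
    rw [wf_comp (fun j : Fin (n + 1) => j.succ) (fun j => (j : ℕ)) W
      fun j => pow_prod_io_mem (k + 1) b hW j j.2]
    rfl]
  rw [List.ofFn_succ, List.prod_cons, List.ofFn_succ', List.concat_eq_append, List.prod_append,
    List.prod_singleton]
  rw [List.ofFn_succ' (f := fun j : Fin (n + 1) => (io ((j : ℕ) + 1)
    (if j = Fin.last n then b (Fin.last (n + 1)) * b 0 else b j.succ) : FR G ι B)),
    List.concat_eq_append, List.prod_append, List.prod_singleton]
  set E : FR G ι B := (List.ofFn fun i : Fin n =>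
    (io ((i.castSucc.succ : Fin (n + 2)) : ℕ) (b i.castSucc.succ) : FR G ι B)).prod with hE
  have hE' : (List.ofFn fun i : Fin n => (io ((i.castSucc : Fin (n + 1)) + 1 : ℕ)
      (if i.castSucc = Fin.last n then b (Fin.last (n + 1)) * b 0 else b i.castSucc.succ) :
        FR G ι B)).prod = E := by
    rw [hE]
    congr 2
    funext i
    rw [if_neg (Fin.castSucc_lt_last i).ne]
    rfl
  rw [hE', if_pos rfl]
  have hcom : ∀ Z : FR G ι B, lam (wf c Φ fun j : Fin (n + 1) => (j : ℕ) + 1)
      (io (0 : ℕ) (b 0) * Z) = lam (wf c Φ fun j : Fin (n + 1) => (j : ℕ) + 1)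
      (Z * io (0 : ℕ) (b 0)) := by
    intro Z
    refine lam_comm ?_
    intro V hV W _
    obtain ⟨x, rfl⟩ := io_support 0 (b 0) hV
    refine wf_rot hΦ _ _ _ 0 ?_
    intro j
    rw [cnt_let1, if_neg (Nat.succ_ne_zero _).symm]
  have h1 : (io ((0 : Fin (n + 2)) : ℕ) (b 0) * (E * io ((Fin.last n).succ : ℕ)
      (b (Fin.last n).succ)) : FR G ι B) ^ (k + 1) =
      io (0 : ℕ) (b 0) * (((E * io (n + 1) (b (Fin.last (n + 1)))) * io (0 : ℕ) (b 0)) ^ k *
        (E * io (n + 1) (b (Fin.last (n + 1))))) := by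
    rw [pow_succ, ← mul_assoc, mul_pow_mul, mul_assoc]
    rfl
  rw [h1, hcom, mul_assoc, ← pow_succ]
  have h2 := lam_merge_pow (Ψ := wf c Φ fun j : Fin (n + 1) => (j : ℕ) + 1) (l := n + 1) (i := 0)
    (fun V W x y => wf_merge hΦ _ V W x y (n + 1) 0 fun j => Nat.succ_ne_zero _) E 1
    (b (Fin.last (n + 1))) (b 0) (k + 1) 1 1
  simp only [mul_one, one_mul] at h2
  exact h2

theorem TB_merge_succ {n q : ℕ} (hq : 0 < q) {c : G} {Φ : (Fin (n + 1) → Fin q → G) → B}
    (hΦ : IsInv c Φ) (b : Fin (n + 2) → Matrix ι ι (MonoidAlgebra B G)) (i : Fin (n + 1)) :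
    TB c (fun v : Fin (n + 2) → Fin q → G => Φ fun j => v (i.succ.succAbove j)) b =
      TB c Φ fun j => if j < i then b j.castSucc else
        if j = i then b i.castSucc * b i.succ else b j.succ := by
  have hρ : Function.Injective fun j : ℕ => if j ≤ (i : ℕ) then j else j + 1 := by
    intro x y h
    simp only at h
    split_ifs at h <;> omega
  have hl : ∀ j : Fin (n + 1), ((i.succ.succAbove j : Fin (n + 2)) : ℕ) =
      if (j : ℕ) ≤ (i : ℕ) then (j : ℕ) else (j : ℕ) + 1 := by
    intro j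
    rw [Fin.succAbove]
    by_cases h : (j : ℕ) ≤ (i : ℕ)
    · rw [if_pos h, if_pos (by rw [Fin.lt_def]; simp only [Fin.val_castSucc, Fin.val_succ]; omega)]
      rfl
    · rw [if_neg h, if_neg (by rw [Fin.lt_def]; simp only [Fin.val_castSucc, Fin.val_succ]; omega)]
      rfl
  rw [TB_relab hΦ hρ]
  unfold TB
  rw [lam_congr (Ψ' := wf c Φ fun j : Fin (n + 1) => if (j : ℕ) ≤ (i : ℕ) then (j : ℕ) else
      (j : ℕ) + 1) fun W hW => by
    rw [wf_comp (fun j : Fin (n + 1) => i.succ.succAbove j) (fun j => (j : ℕ)) W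
      fun j => pow_prod_io_mem q b hW j j.2]
    congr 1
    funext j
    exact hl j]
  obtain ⟨A, C, h1, h2⟩ := exists_split n (fun j : Fin (n + 2) => (io (j : ℕ) (b j) : FR G ι B)) i
  have h3 := h2 (fun j : Fin (n + 1) => (io (if (j : ℕ) ≤ (i : ℕ) then (j : ℕ) else (j : ℕ) + 1)
    (if j < i then b j.castSucc else if j = i then b i.castSucc * b i.succ else b j.succ) :
      FR G ι B)) (fun j hj => by
        rw [if_pos (le_of_lt (Fin.lt_def.1 hj)), if_pos hj]
        rfl) (fun j hj => by
        rw [if_neg (not_le.2 (Fin.lt_def.1 hj)), if_neg (not_lt.2 hj.le), if_neg hj.ne']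
        rfl)
  rw [h1, h3]
  simp only [le_refl, if_true, lt_irrefl, if_false]
  have h4 := lam_merge_pow (Ψ := wf c Φ fun j : Fin (n + 1) => if (j : ℕ) ≤ (i : ℕ) then (j : ℕ) else
      (j : ℕ) + 1) (l := i) (i := i + 1)
    (fun V W x y => wf_merge hΦ _ V W x y i (i + 1) fun j => by split_ifs <;> omega) A C
    (b i.castSucc) (b i.succ) q 1 1
  simp only [mul_one, one_mul] at h4
  exact h4

end

section

end

end Pool.Agent.H71.FQ

end
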