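import Pool.Agent.H13.TFQ.M16
import Pool.Agent.H13.TFQ.M20

/-! The parts of this file: H71.WH.Skew3_2, H71.WH.Gam4_2. -/

section

/-!
# Naturality and values of `Lam`
-/

set_option autoImplicit false

open Matrix

universe u v

namespace Pool.Agent.H71.WH

namespace TwTr

variable {M : Type u} [Ring M] (t : TwTr M) {M' : Type v} [Ring M'] (t' : TwTr M')

/-- The value of `Lam` on units `1 + 4 x` with `s x = x`. -/
theorem Lam_four {x : M} (hx : t.s x = x) {g : Mˣ} (h : (g : M) = 1 + 4 * x) :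
    t.Lam g = 1 / 2 * L t.κ (g : M) := by
  have hz : (g : M) = 1 + 2 * x + t.s (2 * x) := by
    rw [h, map_mul, map_ofNat, hx]
    noncomm_ring
  rw [t.Lam_eq hz]
  -- `v = 1 + 2 w`, `θ v = 1 + 2 w'`
  set v := t.vU (2 * x) g hz with hv
  have hv1 : (v : t.skew) = 1 + 2 * t.el x x := by
    rw [hv, vU_val, two_mul (t.el x x), el_add, ← el_one, el_add]
    congr 1
    · rw [two_mul]
    · rw [two_mul, zero_add]
  have hθ : t.θ v = 1 + 2 * t.el x (-x) := by
    rw [hv1, map_add, map_one, map_mul, map_ofNat, θ_el]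
  have hc1 : Cong (v : t.skew) := ⟨_, hv1⟩
  have hc2 : Cong (t.θ v) := ⟨_, hθ⟩
  have hc3 : Cong (((v⁻¹ : t.skewˣ) : t.skew)) := hc1.of_mul_eq_one (Units.inv_mul v)
  have e1 : L t.τ (t.θ v) = -L t.τ (v : t.skew) := by
    rw [L_map]
    have : pull t.θ t.τ = -t.τ := by
      apply AddMonoidHom.ext
      intro V
      rw [pull_apply, τ_θ]
      rfl
    rw [this, L, tl_neg]
    rfl
  have e2 : t.lam v = L t.τ (v : t.skew) := by
    rw [lam, L_mul t.τ t.τ_comm hc3 hc2, L_inv t.τ t.τ_comm hc1 (Units.inv_mul v), e1]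
    ring
  rw [e2, hv1, h, L, L, add_sub_cancel_left, add_sub_cancel_left]
  have hpow : ∀ k : ℕ, (2 * t.el x x) ^ (k + 1) = t.el (2 ^ (2 * k + 1) * x ^ (k + 1))
      (2 ^ (2 * k + 1) * x ^ (k + 1)) := by
    intro k
    induction k with
    | zero =>
      simp only [zero_add, pow_one, mul_zero]
      rw [two_mul (t.el x x), el_add, two_mul x]
    | succ k ih =>
      rw [pow_succ, ih, two_mul (t.el x x), el_add, el_mul, map_add, hx]
      have hc : x ^ (k + 1) * (x + x) = 2 * x ^ (k + 1 + 1) := by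
        rw [mul_add, ← pow_succ, ← two_mul]
      have : 2 ^ (2 * k + 1) * x ^ (k + 1) * (x + x) + 2 ^ (2 * k + 1) * x ^ (k + 1) * (x + x) =
          2 ^ (2 * (k + 1) + 1) * x ^ (k + 1 + 1) := by
        rw [mul_assoc, hc, ← mul_assoc, ← two_mul, ← mul_assoc, ← pow_succ, ← pow_succ']
        rfl
      rw [this]
  rw [tl, tl, ← tsum_mul_left]
  congr 1
  funext k
  rw [tlTerm, tlTerm, hpow, τ_el, map_two_pow_mul]
  have h4 : (4 * x) ^ (k + 1) = 2 ^ (2 * (k + 1)) * x ^ (k + 1) := by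
    rw [(Commute.ofNat_left 4 x).mul_pow, pow_mul]
    norm_num
  rw [h4, map_two_pow_mul]
  push_cast
  rw [show 2 * (k + 1) = 2 * k + 1 + 1 by ring, pow_succ (2 : ℚ_[2]) (2 * k + 1)]
  ring

end TwTr

end Pool.Agent.H71.WH

end

section

/-!
# The value of `Gam` on matrices congruent to `1` modulo `4`
-/

set_option autoImplicit false
set_option linter.unusedSectionVars false
set_option linter.unusedSimpArgs false

open Matrix

universe u v w

namespace Pool.Agent.H71.WH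

namespace TwTr

end TwTr

section

variable {G : Type u} [Group G] (f : G → ℤ) (hf : ∀ x y, f (x * y) = f (y * x))
  {ι : Type v} [Fintype ι] [DecidableEq ι]

theorem tl_psi (y : Matrix ι ι (MonoidAlgebra ℤ G)) :
    tl (tG f hf ι).κ (psi ι y) = tl (trf (fun g => f (g * g)) ι) y := by
  apply tl_nonUnital
  exact κ_psi f hf

/-- The value of `Gam` on matrices congruent to `1` modulo `4`. -/
theorem Gam_four (u : (Matrix ι ι (MonoidAlgebra ℤ G))ˣ) (x : Matrix ι ι (MonoidAlgebra ℤ G))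
    (hx : (u : Matrix ι ι (MonoidAlgebra ℤ G)) = 1 + 4 * x) :
    Gam f hf u = L (trf f ι) (u : Matrix ι ι (MonoidAlgebra ℤ G)) -
      1 / 2 * L (trf (fun g => f (g * g)) ι) (u : Matrix ι ι (MonoidAlgebra ℤ G)) := by
  set t := tG f hf ι with ht
  have hP : (PP u : MM G ι) = 1 + 4 * psi ι x := by
    rw [PP_val, hx, map_add, psi_four]
    abel
  have hk1 : k1 ι (u : Matrix ι ι (MonoidAlgebra ℤ G)) = 1 + 4 * k1 ι x := by
    rw [hx, map_add, map_one, map_mul, map_ofNat]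
  have hk2 : k2 ι (u : Matrix ι ι (MonoidAlgebra ℤ G)) = 1 + 4 * k2 ι x := by
    rw [hx, map_add, map_one, map_mul, map_ofNat]
  have hT : (TT u : MM G ι) = 1 + 4 * (k1 ι x + k2 ι x + 4 * (k1 ι x * k2 ι x)) := by
    rw [TT_val, hk1, hk2]
    noncomm_ring
  set Y := k1 ι x + k2 ι x + 4 * (k1 ι x * k2 ι x) with hY
  have s1 : t.s (k1 ι x) = k2 ι x := s_k1 f hf x
  have s2 : t.s (k2 ι x) = k1 ι x := s_k2 f hf x
  have s3 : t.s (psi ι x) = psi ι x := s_psi f hf x
  have sY : t.s Y = Y := by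
    rw [hY, map_add, map_add, map_mul, map_mul, s1, s2, map_ofNat, k21, add_comm (k2 ι x)]
  set Q := (((PP u)⁻¹ : (MM G ι)ˣ) : MM G ι) with hQ
  have sQ : t.s Q = Q := t.s_inv (s_PP f hf u)
  have hQ1 : Q * (1 + 4 * psi ι x) = 1 := by rw [← hP, hQ, Units.inv_mul]
  have hQ2 : Q = 1 + 2 * (-(2 * (Q * psi ι x))) := by
    have : Q * (1 + 4 * psi ι x) = Q + 4 * (Q * psi ι x) := by noncomm_ring
    rw [this] at hQ1
    calc Q = 1 - 4 * (Q * psi ι x) := by rw [← hQ1]; abel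
      _ = _ := by noncomm_ring
  have sQp : t.s (-(2 * (Q * psi ι x))) = -(2 * (Q * psi ι x)) := by
    rw [map_neg, map_mul, map_mul, map_ofNat, sQ, s3]
  have hg : (gg u : MM G ι) = 1 + 4 * (Q * (Y - psi ι x)) := by
    have e1 : (gg u : MM G ι) = Q * (1 + 4 * Y) := by rw [gg, Units.val_mul, hT]
    have e2 : Q * (1 + 4 * Y) = Q * (1 + 4 * psi ι x) + 4 * (Q * (Y - psi ι x)) := by
      noncomm_ring
    rw [e1, e2, hQ1]
  have h1 := t.Lam_four (x := Q * (Y - psi ι x)) (by rw [map_mul, map_sub, sQ, sY, s3]) hg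
  have hT2 : (TT u : MM G ι) = 1 + 2 * (2 * Y) := by
    rw [hT]
    noncomm_ring
  have hP2 : (PP u : MM G ι) = 1 + 2 * (2 * psi ι x) := by
    rw [hP]
    noncomm_ring
  have s2Y : t.s (2 * Y) = 2 * Y := by rw [map_mul, map_ofNat, sY]
  have s2p : t.s (2 * psi ι x) = 2 * psi ι x := by rw [map_mul, map_ofNat, s3]
  have h2 : L t.κ (gg u : MM G ι) = L t.κ Q + L t.κ (TT u : MM G ι) := by
    have e1 : (gg u : MM G ι) = Q * TT u := by rw [gg, Units.val_mul]
    rw [e1, hT2, hQ2]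
    exact t.L_fix sQp s2Y
  have h3 : L t.κ Q + L t.κ (PP u : MM G ι) = 0 := by
    have e1 : Q * (PP u : MM G ι) = 1 := by rw [hQ, Units.inv_mul]
    have e2 := t.L_fix sQp s2p
    rw [← hQ2, ← hP2, e1, L_one] at e2
    exact e2.symm
  have h4 : L t.κ (TT u : MM G ι) = L (trf f ι) (u : Matrix ι ι (MonoidAlgebra ℤ G)) +
      L (trf f ι) (u : Matrix ι ι (MonoidAlgebra ℤ G)) := by
    have e1 : k1 ι (u : Matrix ι ι (MonoidAlgebra ℤ G)) = 1 + 2 * (2 * k1 ι x) := by
      rw [hk1]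
      noncomm_ring
    have e2 : k2 ι (u : Matrix ι ι (MonoidAlgebra ℤ G)) = 1 + 2 * (2 * k2 ι x) := by
      rw [hk2]
      noncomm_ring
    have e3 : Commute (2 * k1 ι x) (2 * k2 ι x) := by
      have : Commute (k1 ι x) (k2 ι x) := (k21 x x).symm
      exact ((Commute.ofNat_left 2 _).mul_left ((Commute.ofNat_right (k1 ι x) 2).mul_right this))
    have e4 := L_mul_of_commute t.κ e3
    rw [← e1, ← e2, ← TT_val] at e4
    have e5 : L t.κ (k1 ι (u : Matrix ι ι (MonoidAlgebra ℤ G))) =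
        L (trf f ι) (u : Matrix ι ι (MonoidAlgebra ℤ G)) := by
      rw [L_map]
      congr 1
      exact AddMonoidHom.ext fun w => κ_k1 f hf w
    have e6 : L t.κ (k2 ι (u : Matrix ι ι (MonoidAlgebra ℤ G))) =
        L t.κ (k1 ι (u : Matrix ι ι (MonoidAlgebra ℤ G))) := by
      have : k2 ι (u : Matrix ι ι (MonoidAlgebra ℤ G)) =
        t.s (k1 ι (u : Matrix ι ι (MonoidAlgebra ℤ G))) := rfl
      rw [this, L_map]
      congr 1
      exact AddMonoidHom.ext fun w => t.κ_s w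
    rw [e4, e6, e5]
  have h5 : L t.κ (PP u : MM G ι) = L (trf (fun g => f (g * g)) ι)
      (u : Matrix ι ι (MonoidAlgebra ℤ G)) := by
    rw [hP, hx, L_one_add, L_one_add, ← tl_psi f hf, psi_four]
  have h6 : Gam f hf u = 1 / 2 * L t.κ (gg u : MM G ι) := h1
  rw [h6, h2, h4, eq_neg_of_add_eq_zero_left h3, h5]
  ring

end

end Pool.Agent.H71.WH

end
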