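import Pool.Agent.H13.TFQ.H71.FQ.EvA
import Pool.Agent.H13.TFQ.H71.FQ.TCls_1
import Pool.Agent.H13.TFQ.M04
import Pool.Agent.H13.TFQ.M31
import Pool.Agent.H13.TFQ.M33

/-! The parts of this file: H71.WH.U3_1, H71.FQ.EvC1. -/

section

/-!
# The logarithmic functionals on units
-/

set_option autoImplicit false
set_option linter.unusedSectionVars false
set_option linter.unusedSimpArgs false

open Matrix
open scoped Classical

universe u v w

namespace Pool.Agent.H71.WH

section LU

end LU

section GamLU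

variable {H : Type u} [Group H] [Finite H]

theorem Gam_sc (f : H → ℤ) (hf : ∀ x y, f (x * y) = f (y * x)) (δ : (MonoidAlgebra ℤ H)ˣ) :
    Gam f hf (sc δ) = LU f δ - 1 / 2 * LU (fun g => f (g * g)) δ := by
  obtain ⟨x, hx⟩ := C8_pow_N8 δ
  have h1 : ((sc δ ^ N8 H : (Matrix (Fin 1) (Fin 1) (MonoidAlgebra ℤ H))ˣ) :
      Matrix (Fin 1) (Fin 1) (MonoidAlgebra ℤ H)) =
      Matrix.scalar (Fin 1) ((δ ^ N8 H : (MonoidAlgebra ℤ H)ˣ) : MonoidAlgebra ℤ H) := by
    rw [sc, ← map_pow]
    rfl
  have h2 : ((sc δ ^ N8 H : (Matrix (Fin 1) (Fin 1) (MonoidAlgebra ℤ H))ˣ) :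
      Matrix (Fin 1) (Fin 1) (MonoidAlgebra ℤ H)) = 1 + 4 * (2 * Matrix.scalar (Fin 1) x) := by
    rw [h1, hx, map_add, map_one, map_mul, map_ofNat, ← mul_assoc]
    norm_num
  have h3 := Gam_four f hf _ _ h2
  rw [Gam_pow, h1, L_scalar, L_scalar] at h3
  have hN : (N8 H : ℚ_[2]) ≠ 0 := by exact_mod_cast N8_ne_zero (C := H)
  rw [LU, LU]
  field_simp
  linear_combination 2 * h3

end GamLU

end Pool.Agent.H71.WH

end

section

/-!
# Project FQ: the value on the symbols, for functions which are invariant under `D`, first half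

PROOFS. `TB_eg`: the product of the `io j (eg …)` to the power `q` is the product over the list `perT (q - 1) z`
times the last factor (`perL_eq`); `lam_idem` with `Ψ = wf c Φ` (`wf_move`), `wf_per`, `wf_per_zero` (for the part of
`1 - e` with `z = 1`).
-/

set_option autoImplicit false

open Matrix

universe u v w

namespace Pool.Agent.H71.FQ

open Pool.Agent.H71.DB (bmat bU bmat_mul bmat_one)

section

variable {Γ : Type v} [Group Γ] {n : ℕ} {M : Type u} [AddCommGroup M]

theorem IsCoc.sum {κ : Type*} (s : Finset κ) {φ : κ → (Fin (n + 2) → Γ) → M}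
    (h : ∀ i ∈ s, IsCoc Γ n (φ i)) : IsCoc Γ n fun x => ∑ i ∈ s, φ i x where
  inv g x := Finset.sum_congr rfl fun i hi => (h i hi).inv g x
  coc x := by
    simp only [Finset.smul_sum]
    rw [Finset.sum_comm]
    exact Finset.sum_eq_zero fun i hi => (h i hi).coc x

theorem HG.ev_sum {κ : Type*} [Fintype κ] {φ : κ → (Fin (n + 2) → Γ) → M}
    (h : ∀ i, IsCoc Γ n (φ i)) (h' : IsCoc Γ n fun x => ∑ i, φ i x) (x : HG Γ n) :
    HG.ev h' x = ∑ i, HG.ev (h i) x := by
  obtain ⟨z, rfl⟩ := HG.mk_surjective x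
  simp only [HG.ev_mk, Finsupp.linearCombination_apply, Finsupp.sum, Finset.smul_sum]
  exact Finset.sum_comm

theorem HG.ev_mul {S : Type*} [CommRing S] (a : S) {φ : (Fin (n + 2) → Γ) → S} (h : IsCoc Γ n φ)
    (h' : IsCoc Γ n fun x => a * φ x) (x : HG Γ n) : HG.ev h' x = a * HG.ev h x := by
  obtain ⟨z, rfl⟩ := HG.mk_surjective x
  simp only [HG.ev_mk, Finsupp.linearCombination_apply, Finsupp.sum, Finset.mul_sum,
    mul_smul_comm]

end

section

variable {G : Type v} [Group G] {B : Type u} [CommRing B]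

open Classical in
/-- the values of `Φ` on tuples which are constant in `Fin q`, moved to `c` -/
noncomputable def rs (c : G) {k q : ℕ} (Φ : (Fin k → Fin q → G) → B) (x : G) (z : Fin k → G) : B :=
  if h : ∃ u : G, u * x * u⁻¹ = c then Φ fun j _ => h.choose * z j else 0

theorem isCoc_rs {c : G} {n q : ℕ} {Φ : (Fin (n + 2) → Fin q → G) → B} (hΦ : IsPhi c Φ)
    (D : Subgroup G) (x : D) :
    IsCoc (Subgroup.centralizer (D : Set G)) n fun z => rs c Φ (x : G) fun j => (z j : G) := by
  by_cases h : ∃ u : G, u * (x : G) * u⁻¹ = c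
  · have hc := h.choose_spec
    set u := h.choose with hu
    have hrs : ∀ z : Fin (n + 2) → G, rs c Φ (x : G) z = Φ fun j _ => u * z j := by
      intro z
      rw [rs, dif_pos h]
    refine ⟨?_, ?_⟩
    · intro g z
      rw [hrs, hrs]
      have hg : (g : G) * x = x * g := (Subgroup.mem_centralizer_iff.1 g.2 x x.2).symm
      have h1 := hΦ.inv (u * g * u⁻¹) (by rw [← hc]; simp only [mul_assoc, inv_mul_cancel_left]
                                          rw [← mul_assoc (g : G), hg, mul_assoc])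
        (fun j _ => u * (z j : G))
      rw [← h1]
      congr 1
      funext j t
      simp [lmul, mul_assoc]
    · intro z
      simp only [hrs]
      exact hΦ.coc fun j _ => u * (z j : G)
  · have hrs : ∀ z : Fin (n + 2) → G, rs c Φ (x : G) z = 0 := by
      intro z
      rw [rs, dif_neg h]
    refine ⟨fun g z => by rw [hrs, hrs], fun z => by simp [hrs]⟩

/-- invariance under the right multiplications by elements of `D` -/
def RInv {k q : ℕ} (D : Subgroup G) (Φ : (Fin k → Fin q → G) → B) : Prop :=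
  ∀ s : Fin k → Fin q → G, (∀ j t, s j t ∈ D) → ∀ v, Φ (fun j t => v j t * s j t) = Φ v

theorem map_perT {k : ℕ} {X : Type*} [Monoid X] (f : G × ℕ → X) (r : ℕ) (z : Fin (k + 1) → G) :
    ((perT r z).map f).prod * f ((z (Fin.last k))⁻¹ * z 0, k) =
      (List.ofFn fun j : Fin (k + 1) => f ((z j)⁻¹ * z (j + 1), (j : ℕ))).prod ^ (r + 1) := by
  have h1 : ((perL z).map f).prod = ((perI z).map f).prod * f ((z (Fin.last k))⁻¹ * z 0, k) := by
    rw [perL_eq, List.map_append, List.prod_append]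
    simp
  have h2 : (List.ofFn fun j : Fin (k + 1) => f ((z j)⁻¹ * z (j + 1), (j : ℕ))) = (perL z).map f := by
    rw [perL, List.map_ofFn]
    rfl
  rw [h2, perT, List.map_append, List.prod_append, List.map_flatten, List.map_replicate,
    List.prod_flatten, List.map_replicate, List.prod_replicate, mul_assoc, ← h1, pow_succ]

theorem mem_perT {k : ℕ} {r : ℕ} {z : Fin (k + 1) → G} {a : G × ℕ} (ha : a ∈ perT r z) :
    ∃ i j : Fin (k + 1), a.1 = (z i)⁻¹ * z j := by
  rw [perT, List.mem_append, List.mem_flatten] at ha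
  rcases ha with ⟨l, hl, ha⟩ | ha
  · rw [List.mem_replicate] at hl
    rw [hl.2, perL, List.mem_ofFn] at ha
    obtain ⟨j, rfl⟩ := ha
    exact ⟨_, _, rfl⟩
  · rw [perI, List.mem_ofFn] at ha
    obtain ⟨j, rfl⟩ := ha
    exact ⟨_, _, rfl⟩

theorem map_perT_one {k : ℕ} (r : ℕ) (z : Fin (k + 1) → G) :
    (perT r z).map (fun a => (let1 1 a.2 : Wd G)) =
      (perT r (fun _ : Fin (k + 1) => (1 : G))).map fun a => let1 a.1 a.2 := by
  have hL : (perL z).map (fun a => (let1 1 a.2 : Wd G)) =
      (perL (fun _ : Fin (k + 1) => (1 : G))).map fun a => let1 a.1 a.2 := by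
    rw [perL, perL, List.map_ofFn, List.map_ofFn]
    refine congrArg List.ofFn ?_
    funext j
    simp
  have hI : (perI z).map (fun a => (let1 1 a.2 : Wd G)) =
      (perI (fun _ : Fin (k + 1) => (1 : G))).map fun a => let1 a.1 a.2 := by
    rw [perI, perI, List.map_ofFn, List.map_ofFn]
    refine congrArg List.ofFn ?_
    funext j
    simp
  simp only [perT, List.map_append, List.map_flatten, List.map_replicate, hL, hI]

theorem TB_eg {ι : Type w} [Fintype ι] [DecidableEq ι] {c : G} {k q : ℕ} (hq : 0 < q)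
    {Φ : (Fin (k + 1) → Fin q → G) → B} (hΦ : IsInv c Φ) (D : Subgroup G) [Fintype D]
    (hD : RInv D Φ) (e : Matrix ι ι (MonoidAlgebra B D)) (he : e * e = e) (z : Fin (k + 1) → G)
    (hz : ∀ j, z j ∈ Subgroup.centralizer (D : Set G)) :
    TB c Φ (fun j => eg D e ((z j)⁻¹ * z (j + 1))) =
      (∑ x : D, (trace e).coeff x * rs c Φ (x : G) z) +
        ∑ x : D, (trace (1 - e)).coeff x * rs c Φ (x : G) (fun _ => 1) := by
  obtain ⟨r, rfl⟩ : ∃ r, q = r + 1 := ⟨q - 1, by omega⟩
  have h1 := map_perT (fun a : G × ℕ => (io a.2 (eg D e a.1) : FR G ι B)) r z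
  rw [TB, ← h1]
  have h2 := lam_idem D (Ψ := wf c Φ fun j => (j : ℕ))
    (fun V W x y l i s hs => wf_move hΦ D hD (fun j => (j : ℕ)) V W x y s hs l i)
    e he (perT r z) (fun a ha => by
      obtain ⟨i, j, h⟩ := mem_perT ha
      rw [h]
      exact Subgroup.mul_mem _ (Subgroup.inv_mem _ (hz i)) (hz j))
    ((z (Fin.last k))⁻¹ * z 0) k (Subgroup.mul_mem _ (Subgroup.inv_mem _ (hz _)) (hz _))
  rw [h2]
  congr 1
  · refine Finset.sum_congr rfl fun x _ => ?_
    congr 1
    change wf c Φ (fun j => (j : ℕ)) (wdL (perT r z) * let1 ((z (Fin.last k))⁻¹ * z 0 * x) k) = _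
    by_cases h : ∃ u : G, u * (x : G) * u⁻¹ = c
    · have h3 := wf_per (Nat.succ_pos r) hΦ z (x : G) h.choose h.choose_spec
        (fun j => ((Subgroup.mem_centralizer_iff.1 (hz j) x x.2)).symm)
      rw [rs, dif_pos h]
      exact h3
    · rw [rs, dif_neg h]
      push_neg at h
      exact wf_per_zero Φ z (x : G) h
  · refine Finset.sum_congr rfl fun x _ => ?_
    congr 1
    rw [map_perT_one]
    have hx : (x : G) = (1 : G)⁻¹ * 1 * x := by simp
    have hlast : (let1 (x : G) k : Wd G) =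
        let1 (((fun _ : Fin (k + 1) => (1 : G)) (Fin.last k))⁻¹ * (fun _ : Fin (k + 1) => (1 : G)) 0 * x) k := by
      rw [← hx]
    rw [hlast]
    change wf c Φ (fun j => (j : ℕ)) (wdL (perT r fun _ => 1) *
      let1 (((fun _ : Fin (k + 1) => (1 : G)) (Fin.last k))⁻¹ * (fun _ : Fin (k + 1) => (1 : G)) 0 * x) k) = _
    by_cases h : ∃ u : G, u * (x : G) * u⁻¹ = c
    · have h3 := wf_per (Nat.succ_pos r) hΦ (fun _ : Fin (k + 1) => (1 : G)) (x : G) h.choose
        h.choose_spec (fun j => by simp)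
      rw [rs, dif_pos h]
      exact h3
    · rw [rs, dif_neg h]
      push_neg at h
      exact wf_per_zero Φ (fun _ => 1) (x : G) h

end

end Pool.Agent.H71.FQ

end
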