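import Pool.Agent.H13.TFQ.M28
import Pool.Agent.H13.TFQ.M34

/-! The parts of this file: H71.WH.Fun_2, H71.KP.ResK, H71.KP.ResK_7. -/

section

/-!
# The functionals on the Whitehead group and on the colimit
-/

set_option autoImplicit false
set_option linter.unusedSectionVars false
set_option linter.unusedSimpArgs false

open Matrix
open scoped Classical

universe u v w

namespace Pool.Agent.H71.WH

section G

variable {G : Type v} [Group G] (f : G → ℤ) (hf : ∀ x y, f (x * y) = f (y * x))

theorem GamWh_incWh (C : CycSub G) (x : (MonoidAlgebra ℤ C.1)ˣ) :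
    GamWh f hf (incWh C x) = LU (fun a : C.1 => f a) x -
      1 / 2 * LU (fun a : C.1 => f (a * a)) x := by
  have := C.2.1
  have hf' : ∀ a b : C.1, f ((a * b : C.1) : G) = f ((b * a : C.1) : G) :=
    fun a b => hf a b
  have h1 : GamWh f hf (incWh C x) = Gam f hf (oneByOne (unitsMap C.1.subtype x)) :=
    GamK1_mk f hf _
  have h2 : oneByOne (unitsMap C.1.subtype x) = glMap C.1.subtype (Fin 1) (sc x) := by
    have h3 : (oneByOne (unitsMap C.1.subtype x) :
        Matrix (Fin 1) (Fin 1) (MonoidAlgebra ℤ G)) =
        (glMap C.1.subtype (Fin 1) (sc x) : Matrix (Fin 1) (Fin 1) (MonoidAlgebra ℤ G)) := by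
      ext i j : 1
      rw [oneByOne_apply, glMap_val]
      change _ = gr C.1.subtype ((oneByOne x :
        Matrix (Fin 1) (Fin 1) (MonoidAlgebra ℤ C.1)) i j)
      rw [oneByOne_apply]
      rfl
    exact Units.ext h3
  rw [h1, h2, Gam_map C.1.subtype f hf (fun a : C.1 => f a) hf' (fun a => rfl), Gam_sc]
  rfl

end G

end Pool.Agent.H71.WH

end

section

/-!
# The residue functionals on `Wh` in positive characteristic
-/

set_option autoImplicit false
set_option linter.unusedSectionVars false
set_option linter.unusedSimpArgs false

open Matrix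

universe u v w t

namespace Pool.Agent.H71.KP

open Pool.Agent.H71.WH (InvMat K1 K1.mk K1.unit K1Rel genK1 addOne oneByOne CycSub conjHom K1.mk_mul K1.unit_mul)

/-- Residue data for a commutative ring `k`: a lift `A` of `k` with a derivation `θ`, constants `B`
and a residue `A → B` vanishing on `θ`. -/
structure ResDat (p : ℕ) (k : Type u) [CommRing k] where
  /-- the lift -/
  A : Type u
  instA : CommRing A
  /-- the constants -/
  B : Type u
  instB : CommRing B
  /-- the reduction -/
  π : A →+* k
  surj : Function.Surjective π
  ker : ∀ a, π a = 0 → ∃ b, a = (p : A) * b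
  /-- the exponent -/
  n : ℕ
  nilA : (p : A) ^ n = 0
  nilB : ∀ b : B, p ^ n • b = 0
  /-- the derivation -/
  θ : A →+ A
  leib : ∀ a b, θ (a * b) = θ a * b + a * θ b
  /-- the inclusion of the constants -/
  ι : B →+* A
  θι : ∀ b, θ (ι b) = 0
  /-- the residue -/
  res : A →+ B
  res_θ : ∀ a, res (θ a) = 0
  res_ι : ∀ b a, res (ι b * a) = b * res a

namespace ResDat

variable {p : ℕ} [hp : Fact p.Prime] {k : Type u} [CommRing k] (d : ResDat p k)

instance : CommRing d.A := d.instA

section Grp

end Grp

section Lam

end Lam

section Map

end Map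

end ResDat

end Pool.Agent.H71.KP

end

section

/-!
# The residue functionals on `Wh` in positive characteristic
-/

set_option autoImplicit false
set_option linter.unusedSectionVars false
set_option linter.unusedSimpArgs false

open Matrix

universe u v w t

namespace Pool.Agent.H71.KP

open Pool.Agent.H71.WH (InvMat K1 K1.mk K1.unit K1Rel genK1 addOne oneByOne CycSub conjHom K1.mk_mul K1.unit_mul)

namespace ResDat

variable {p : ℕ} [hp : Fact p.Prime] {k : Type u} [CommRing k] (d : ResDat p k)

instance : CommRing d.B := d.instB

section Grp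

variable {G : Type v} [Group G]

/-- the coefficientwise derivation -/
noncomputable def gD (G : Type v) [Group G] : MonoidAlgebra d.A G →+ MonoidAlgebra d.A G where
  toFun x := MonoidAlgebra.map d.θ x
  map_zero' := MonoidAlgebra.map_zero _
  map_add' := MonoidAlgebra.map_add _

theorem gD_single (g : G) (a : d.A) :
    d.gD G (MonoidAlgebra.single g a) = MonoidAlgebra.single g (d.θ a) :=
  MonoidAlgebra.map_single _ _ _

/-- the residue of the value of a class function -/
noncomputable def gf (f : G → d.B) : MonoidAlgebra d.A G →+ d.B where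
  toFun x := x.coeff.sum fun g a => f g * d.res a
  map_zero' := by simp
  map_add' x y := by
    classical
    rw [MonoidAlgebra.coeff_add, Finsupp.sum_add_index'] <;> simp [mul_add]

theorem gf_single (f : G → d.B) (g : G) (a : d.A) :
    d.gf f (MonoidAlgebra.single g a) = f g * d.res a := by
  change (MonoidAlgebra.single g a).coeff.sum (fun g a => f g * d.res a) = _
  rw [MonoidAlgebra.coeff_single, Finsupp.sum_single_index (by simp)]

end Grp

section Lam

end Lam

section Map

end Map

end ResDat

end Pool.Agent.H71.KP

end
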