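import Pool.Agent.H13.TFQ.H71.FJ.CycLift_1
import Pool.Agent.H13.TFQ.H71.FQ.MorA
import Pool.Agent.H13.TFQ.M12
import Pool.Agent.H13.TFQ.M27
import Pool.Agent.H13.TFQ.M35
import Pool.Agent.H13.TFQ.M38
import Pool.Agent.H13.TFQ.M41
import Pool.Agent.H13.TFQ.M47

/-! The parts of this file: H71.DB.Elim_1, H71.FQ.Det, H71.KP.Laur, H71.KP.ResK_6, H71.KP.Witt, H71.FU0.E1_1. -/

section

/-!
# Elimination: detecting torsion in tensor products
-/

set_option autoImplicit false

open Matrix
open scoped Classical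

universe t u v w

namespace Pool.Agent.H71.DB

open Pool.Agent.H71.FJ (IdemMat K0 K0.mk K0.map K0.map_map K0.push K0.rk LiftSys IsPrim isPrim_map LT LT_rep LT_eq_sum exists_rep_lift dlt dlt_comm cyc_comm)

section Sep

end Sep

section Elim

end Elim

section Det

variable {k : Type u} [Field k] {K : Type t} [Field K] (L : BLift K) (i : k →+* K)
  {D : Type w} [Group D] [Fintype D] [IsCyclic D] {B : Type v} [AddCommGroup B] {E : Type*}
  [AddCommGroup E]

/-- Detection of torsion in `K₀(k[D]) ⊗ B`. -/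
theorem det_tensor (hD : ∀ h : D, (orderOf h : k) ≠ 0)
    (hsep : ∀ b : B, (∀ ν : B →+ L.Lam, ν b = 0) → ∃ m : ℤ, m ≠ 0 ∧ m • b = 0)
    (β : K0 (MonoidAlgebra k D) →+ B →+ E) {ι : Type*} [Fintype ι]
    (y : ι → K0 (MonoidAlgebra k D)) (b : ι → B) (M : ℤ) (hM : M ≠ 0)
    (h : ∀ (n : ℕ) (c : D) (ν : B →+ L.Lam), (M : L.sys.B n) *
      ∑ j, L.th n (ν (b j)) * LT L.sys n i (dlt (L.sys.B n) c) (dlt_comm _ c) (y j) = 0) :
    ∃ m : ℤ, m ≠ 0 ∧ m • ∑ j, β (y j) (b j) = 0 := by
  have : Module.Finite k (MonoidAlgebra k D) := inferInstance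
  apply elim' β y b
  intro μ m a hm ha
  refine ⟨1, one_ne_zero, ?_⟩
  rw [one_smul]
  apply K0.eq_zero_of_rk_push (k := k)
  intro J _ _ ρ
  let R : ι → ℤ := fun j => K0.rk (K0.push (ρ : MonoidAlgebra k D →+* Matrix J J k) (y j))
  have hR : K0.rk (K0.push (ρ : MonoidAlgebra k D →+* Matrix J J k) (∑ j, a j • y j)) =
      ∑ j, a j * R j := by
    rw [map_sum, map_sum]
    refine Finset.sum_congr rfl fun j _ => ?_
    rw [map_zsmul, map_zsmul, smul_eq_mul]
  rw [hR]
  have h1 : ∀ ν : B →+ L.Lam, ν (∑ j, R j • b j) = 0 := by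
    intro ν
    apply L.tf M _ hM
    apply L.joint
    intro n
    have hDK : ∀ h : D, (orderOf h : K) ≠ 0 := by
      intro h h0
      apply hD h
      rw [← map_natCast i, map_eq_zero_iff _ i.injective] at h0
      exact h0
    obtain ⟨ρ', hρ'⟩ := exists_rep_lift (L.sys.surj n) (L.sys.nil n) (D := D) hDK
      ((i.mapMatrix : Matrix J J k →+* Matrix J J K).toMonoidHom.comp
          ((ρ : MonoidAlgebra k D →* Matrix J J k).comp (MonoidAlgebra.of k D)))
    have h2 : ∀ j, (R j : L.sys.B n) = ∑ c : D, trace (ρ' c) *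
        LT L.sys n i (dlt (L.sys.B n) c) (dlt_comm _ c) (y j) := by
      intro j
      rw [← LT_eq_sum L.sys n i cyc_comm (fun c => trace (ρ' c)) (fun a b => by
        simp only [map_mul]
        exact trace_mul_comm _ _) (y j)]
      exact LT_rep L.sys n i ρ ρ' hρ' (y j)
    rw [map_mul, map_intCast, map_sum, map_sum]
    have h3 : ∑ j, L.th n (ν (R j • b j)) = ∑ c : D, trace (ρ' c) *
        ∑ j, L.th n (ν (b j)) * LT L.sys n i (dlt (L.sys.B n) c) (dlt_comm _ c) (y j) := by
      have e1 : ∀ j, L.th n (ν (R j • b j)) = ∑ c : D, trace (ρ' c) * (L.th n (ν (b j)) *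
          LT L.sys n i (dlt (L.sys.B n) c) (dlt_comm _ c) (y j)) := by
        intro j
        rw [map_zsmul, zsmul_eq_mul, map_mul, map_intCast, h2, Finset.sum_mul]
        refine Finset.sum_congr rfl fun c _ => ?_
        ring
      rw [Finset.sum_congr rfl fun j _ => e1 j, Finset.sum_comm]
      refine Finset.sum_congr rfl fun c _ => ?_
      rw [Finset.mul_sum]
    rw [h3, Finset.mul_sum]
    refine Finset.sum_eq_zero fun c _ => ?_
    rw [mul_left_comm, h n c ν, mul_zero]
  obtain ⟨m', hm', h2⟩ := hsep _ h1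
  have h3 : μ (∑ j, R j • b j) = 0 := by
    have h4 := congrArg μ h2
    rw [map_zsmul, map_zero, zsmul_eq_mul] at h4
    rcases mul_eq_zero.1 h4 with h5 | h5
    · exact absurd (by exact_mod_cast h5) hm'
    · exact h5
  have h4 : ((∑ j, a j * R j : ℤ) : ℚ) = 0 := by
    rw [map_sum] at h3
    push_cast
    have h5 : ∑ j, (a j : ℚ) * (R j : ℚ) = (m : ℚ) * ∑ j, μ (R j • b j) := by
      rw [Finset.mul_sum]
      refine Finset.sum_congr rfl fun j _ => ?_
      rw [map_zsmul, zsmul_eq_mul, ← ha j]
      ring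
    rw [h5, h3, mul_zero]
  exact_mod_cast h4

end Det

end Pool.Agent.H71.DB

end

section

/-!
# Detection of torsion in `K₀(k[D]) ⊗ B` by a set of homomorphisms
-/

set_option autoImplicit false

open Matrix
open scoped Classical

universe t u v w

namespace Pool.Agent.H71.FQ

open Pool.Agent.H71.FJ (IdemMat K0 K0.mk K0.map K0.map_map K0.push K0.rk LiftSys LT LT_rep LT_eq_sum exists_rep_lift dlt dlt_comm cyc_comm)
open Pool.Agent.H71.DB (BLift elim')

section Det

variable {k : Type u} [Field k] {K : Type t} [Field K] (L : BLift K) (i : k →+* K)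
  {D : Type w} [Group D] [Fintype D] [IsCyclic D] {B : Type v} [AddCommGroup B] {E : Type*}
  [AddCommGroup E]

theorem det_tensor (P : (B →+ L.Lam) → Prop) (hD : ∀ h : D, (orderOf h : k) ≠ 0)
    (hsep : ∀ b : B, (∀ ν : B →+ L.Lam, P ν → ν b = 0) → ∃ m : ℤ, m ≠ 0 ∧ m • b = 0)
    (β : K0 (MonoidAlgebra k D) →+ B →+ E) {ι : Type*} [Fintype ι]
    (y : ι → K0 (MonoidAlgebra k D)) (b : ι → B) (M : ℤ) (hM : M ≠ 0)
    (h : ∀ (n : ℕ) (c : D) (ν : B →+ L.Lam), P ν → (M : L.sys.B n) *
      ∑ j, L.th n (ν (b j)) * LT L.sys n i (dlt (L.sys.B n) c) (dlt_comm _ c) (y j) = 0) :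
    ∃ m : ℤ, m ≠ 0 ∧ m • ∑ j, β (y j) (b j) = 0 := by
  have : Module.Finite k (MonoidAlgebra k D) := inferInstance
  apply elim' β y b
  intro μ m a hm ha
  refine ⟨1, one_ne_zero, ?_⟩
  rw [one_smul]
  apply K0.eq_zero_of_rk_push (k := k)
  intro J _ _ ρ
  let R : ι → ℤ := fun j => K0.rk (K0.push (ρ : MonoidAlgebra k D →+* Matrix J J k) (y j))
  have hR : K0.rk (K0.push (ρ : MonoidAlgebra k D →+* Matrix J J k) (∑ j, a j • y j)) =
      ∑ j, a j * R j := by
    rw [map_sum, map_sum]
    refine Finset.sum_congr rfl fun j _ => ?_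
    rw [map_zsmul, map_zsmul, smul_eq_mul]
  rw [hR]
  have h1 : ∀ ν : B →+ L.Lam, P ν → ν (∑ j, R j • b j) = 0 := by
    intro ν hν
    apply L.tf M _ hM
    apply L.joint
    intro n
    have hDK : ∀ h : D, (orderOf h : K) ≠ 0 := by
      intro h h0
      apply hD h
      rw [← map_natCast i, map_eq_zero_iff _ i.injective] at h0
      exact h0
    obtain ⟨ρ', hρ'⟩ := exists_rep_lift (L.sys.surj n) (L.sys.nil n) (D := D) hDK
      ((i.mapMatrix : Matrix J J k →+* Matrix J J K).toMonoidHom.comp
          ((ρ : MonoidAlgebra k D →* Matrix J J k).comp (MonoidAlgebra.of k D)))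
    have h2 : ∀ j, (R j : L.sys.B n) = ∑ c : D, trace (ρ' c) *
        LT L.sys n i (dlt (L.sys.B n) c) (dlt_comm _ c) (y j) := by
      intro j
      rw [← LT_eq_sum L.sys n i cyc_comm (fun c => trace (ρ' c)) (fun a b => by
        simp only [map_mul]
        exact trace_mul_comm _ _) (y j)]
      exact LT_rep L.sys n i ρ ρ' hρ' (y j)
    rw [map_mul, map_intCast, map_sum, map_sum]
    have h3 : ∑ j, L.th n (ν (R j • b j)) = ∑ c : D, trace (ρ' c) *
        ∑ j, L.th n (ν (b j)) * LT L.sys n i (dlt (L.sys.B n) c) (dlt_comm _ c) (y j) := by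
      have e1 : ∀ j, L.th n (ν (R j • b j)) = ∑ c : D, trace (ρ' c) * (L.th n (ν (b j)) *
          LT L.sys n i (dlt (L.sys.B n) c) (dlt_comm _ c) (y j)) := by
        intro j
        rw [map_zsmul, zsmul_eq_mul, map_mul, map_intCast, h2, Finset.sum_mul]
        refine Finset.sum_congr rfl fun c _ => ?_
        ring
      rw [Finset.sum_congr rfl fun j _ => e1 j, Finset.sum_comm]
      refine Finset.sum_congr rfl fun c _ => ?_
      rw [Finset.mul_sum]
    rw [h3, Finset.mul_sum]
    refine Finset.sum_eq_zero fun c _ => ?_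
    rw [mul_left_comm, h n c ν hν, mul_zero]
  obtain ⟨m', hm', h2⟩ := hsep _ h1
  have h3 : μ (∑ j, R j • b j) = 0 := by
    have h4 := congrArg μ h2
    rw [map_zsmul, map_zero, zsmul_eq_mul] at h4
    rcases mul_eq_zero.1 h4 with h5 | h5
    · exact absurd (by exact_mod_cast h5) hm'
    · exact h5
  have h4 : ((∑ j, a j * R j : ℤ) : ℚ) = 0 := by
    rw [map_sum] at h3
    push_cast
    have h5 : ∑ j, (a j : ℚ) * (R j : ℚ) = (m : ℚ) * ∑ j, μ (R j • b j) := by
      rw [Finset.mul_sum]
      refine Finset.sum_congr rfl fun j _ => ?_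
      rw [map_zsmul, zsmul_eq_mul, ← ha j]
      ring
    rw [h5, h3, mul_zero]
  exact_mod_cast h4

end Det

end Pool.Agent.H71.FQ

end

section

/-!
# Residue data for fields of Laurent series
-/

set_option autoImplicit false
set_option linter.unusedSectionVars false
set_option linter.unusedSimpArgs false

open Matrix HahnSeries
open scoped Classical

universe u v w t

namespace Pool.Agent.H71.KP

section Map

variable {B : Type u} [CommRing B] {F : Type u} [CommRing F] (π : B →+* F)

/-- the coefficientwise map of Laurent series -/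
noncomputable def mapL : LaurentSeries B →+* LaurentSeries F where
  toFun x := HahnSeries.map x π
  map_zero' := by ext; simp
  map_one' := by
    ext a
    rw [HahnSeries.map_coeff, HahnSeries.coeff_one, HahnSeries.coeff_one]
    split_ifs
    · exact map_one π
    · exact map_zero π
  map_add' x y := by ext; simp
  map_mul' x y := HahnSeries.map_mul (π : B →ₙ+* F)

theorem mapL_coeff (x : LaurentSeries B) (a : ℤ) : (mapL π x).coeff a = π (x.coeff a) := rfl

theorem mapL_surjective (h : Function.Surjective π) : Function.Surjective (mapL π) := by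
  intro x
  choose g hg using h
  refine ⟨⟨fun a => if x.coeff a = 0 then 0 else g (x.coeff a), x.isPWO_support.mono ?_⟩, ?_⟩
  · intro a ha hx
    exact ha (if_pos hx)
  · ext a
    rw [mapL_coeff]
    change π (if x.coeff a = 0 then 0 else g (x.coeff a)) = _
    split_ifs with h0
    · rw [map_zero, h0]
    · exact hg _

theorem natCast_mul_coeff (p : ℕ) (x : LaurentSeries B) (a : ℤ) :
    ((p : LaurentSeries B) * x).coeff a = (p : B) * x.coeff a := by
  rw [← nsmul_eq_mul, HahnSeries.coeff_smul, nsmul_eq_mul]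

theorem mapL_ker (p : ℕ) (h : ∀ b, π b = 0 → ∃ c, b = (p : B) * c) (x : LaurentSeries B)
    (hx : mapL π x = 0) : ∃ y, x = (p : LaurentSeries B) * y := by
  have h1 : ∀ a, π (x.coeff a) = 0 := by
    intro a
    rw [← mapL_coeff, hx]
    rfl
  choose g hg using fun a => h _ (h1 a)
  refine ⟨⟨fun a => if x.coeff a = 0 then 0 else g a, x.isPWO_support.mono ?_⟩, ?_⟩
  · intro a ha hx
    exact ha (if_pos hx)
  · ext a
    rw [natCast_mul_coeff]
    change x.coeff a = (p : B) * (if x.coeff a = 0 then 0 else g a)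
    split_ifs with h0
    · rw [mul_zero, h0]
    · exact hg a

end Map

section Theta

variable {B : Type u} [CommRing B]

/-- the derivation `t d/dt` -/
noncomputable def theta (B : Type u) [CommRing B] : LaurentSeries B →+ LaurentSeries B where
  toFun x := ⟨fun a => (a : B) * x.coeff a, x.isPWO_support.mono fun a ha hx => ha (by
    change (a : B) * x.coeff a = 0
    have hx' : x.coeff a = 0 := hx
    rw [hx', mul_zero])⟩
  map_zero' := by
    ext a
    change (a : B) * (0 : LaurentSeries B).coeff a = 0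
    rw [HahnSeries.coeff_zero, mul_zero]
  map_add' x y := by
    ext a
    change (a : B) * (x + y).coeff a = (a : B) * x.coeff a + (a : B) * y.coeff a
    rw [HahnSeries.coeff_add, mul_add]

theorem theta_coeff (x : LaurentSeries B) (a : ℤ) : (theta B x).coeff a = (a : B) * x.coeff a := rfl

theorem theta_support (x : LaurentSeries B) : (theta B x).support ⊆ x.support := by
  intro a ha hx
  apply ha
  change (theta B x).coeff a = 0
  have hx' : x.coeff a = 0 := hx
  rw [theta_coeff, hx', mul_zero]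

theorem theta_leib (x y : LaurentSeries B) :
    theta B (x * y) = theta B x * y + x * theta B y := by
  ext a
  rw [theta_coeff, HahnSeries.coeff_add, HahnSeries.coeff_mul,
    HahnSeries.coeff_mul_left' x.isPWO_support (theta_support x),
    HahnSeries.coeff_mul_right' y.isPWO_support (theta_support y), ← Finset.sum_add_distrib,
    Finset.mul_sum]
  apply Finset.sum_congr rfl
  intro ij hij
  have h1 : ij.1 + ij.2 = a := by
    simp only [Finset.mem_antidiagonal, Finset.mem_addAntidiagonal] at hij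
    exact hij.2.2
  rw [theta_coeff, theta_coeff, ← h1]
  push_cast
  ring

theorem theta_C (b : B) : theta B (HahnSeries.C b) = 0 := by
  ext a
  rw [theta_coeff, HahnSeries.coeff_zero, HahnSeries.C_apply, HahnSeries.coeff_single]
  split_ifs with h
  · rw [h, Int.cast_zero, zero_mul]
  · rw [mul_zero]

end Theta

/-- Residue data for Laurent series. -/
noncomputable def laurDat (p : ℕ) {B : Type u} [CommRing B] {F : Type u} [CommRing F]
    (π : B →+* F) (hs : Function.Surjective π) (hk : ∀ b, π b = 0 → ∃ c, b = (p : B) * c) (n : ℕ)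
    (hn : (p : B) ^ n = 0) : ResDat p (LaurentSeries F) where
  A := LaurentSeries B
  instA := inferInstance
  B := B
  instB := inferInstance
  π := mapL π
  surj := mapL_surjective π hs
  ker x hx := mapL_ker π p hk x hx
  n := n
  nilA := by
    have h : (p : LaurentSeries B) = HahnSeries.C (p : B) := (map_natCast _ _).symm
    rw [h, ← map_pow, hn, map_zero]
  nilB b := by
    rw [nsmul_eq_mul, Nat.cast_pow, hn, zero_mul]
  θ := theta B
  leib := theta_leib
  ι := HahnSeries.C
  θι := theta_C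
  res :=
    { toFun := fun x => x.coeff 0
      map_zero' := rfl
      map_add' := fun x y => HahnSeries.coeff_add }
  res_θ x := by
    change (theta B x).coeff 0 = 0
    rw [theta_coeff, Int.cast_zero, zero_mul]
  res_ι b x := by
    change (HahnSeries.C b * x).coeff 0 = b * x.coeff 0
    rw [HahnSeries.C_mul_eq_smul, HahnSeries.coeff_smul, smul_eq_mul]

/-- the structure on the lift -/
noncomputable def ResDat.base {p : ℕ} {k : Type u} [CommRing k] (d : ResDat p k) : DT d.A d.B where
  D := d.θ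
  leib := d.leib
  τ := d.res
  comm x y := by rw [mul_comm]
  τD := d.res_θ

section Value

variable (p : ℕ) [hp : Fact p.Prime] {B : Type u} [CommRing B] {F : Type u} [Field F]
  (π : B →+* F) (hs : Function.Surjective π) (hk : ∀ b, π b = 0 → ∃ c, b = (p : B) * c) (n : ℕ)
  (hn : (p : B) ^ n = 0)

include hs hk hn in
theorem isUnit_of_map_ne_zero (b : B) (hb : π b ≠ 0) : IsUnit b := by
  obtain ⟨c, hc⟩ := hs (π b)⁻¹
  have h1 : π (b * c - 1) = 0 := by
    rw [map_sub, map_mul, hc, mul_inv_cancel₀ hb, map_one, sub_self]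
  obtain ⟨y, hy⟩ := hk _ h1
  have h2 : IsNilpotent (b * c - 1) := ⟨n, by rw [hy, mul_pow, hn, zero_mul]⟩
  have h3 := h2.isUnit_one_add
  rw [add_sub_cancel] at h3
  exact isUnit_of_mul_isUnit_left h3

theorem coeff_ofPS {R : Type u} [CommRing R] (x : PowerSeries R) (a : ℤ) :
    (HahnSeries.ofPowerSeries ℤ R x).coeff a =
      if a < 0 then 0 else PowerSeries.coeff a.natAbs x := PowerSeries.coeff_coe x a

omit hp in
theorem theta_ofPS (β : PowerSeries B) : theta B (HahnSeries.ofPowerSeries ℤ B β) =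
    HahnSeries.ofPowerSeries ℤ B (PowerSeries.mk fun i => (i : B) * PowerSeries.coeff i β) := by
  ext a
  rw [theta_coeff, coeff_ofPS, coeff_ofPS]
  split_ifs with h
  · rw [mul_zero]
  · rw [PowerSeries.coeff_mk]
    congr 1
    have h1 : (a.natAbs : ℤ) = a := by omega
    rw [← Int.cast_natCast, h1]

theorem mapL_ofPowerSeries (β : PowerSeries B) :
    mapL π (HahnSeries.ofPowerSeries ℤ B β) = HahnSeries.ofPowerSeries ℤ F (β.map π) := by
  ext a
  rw [mapL_coeff, coeff_ofPS, coeff_ofPS]
  split_ifs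
  · exact map_zero π
  · rw [PowerSeries.coeff_map]

/-- The logarithmic derivative has residue the valuation. -/
theorem base_dlog (a : (LaurentSeries B)ˣ) :
    (laurDat p π hs hk n hn).base.dlog a = ((mapL π (a : LaurentSeries B)).order : B) := by
  set d := laurDat p π hs hk n hn with hd
  set x : LaurentSeries F := mapL π (a : LaurentSeries B) with hx
  have hx0 : x ≠ 0 := by
    intro h0
    have h1 : mapL π (a : LaurentSeries B) * mapL π ((a⁻¹ : (LaurentSeries B)ˣ) :
      LaurentSeries B) = 1 := by rw [← map_mul, Units.mul_inv, map_one]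
    rw [← hx, h0, zero_mul] at h1
    exact zero_ne_one h1
  set v : ℤ := x.order with hv
  obtain ⟨g, hg⟩ : ∃ g : F → B, ∀ x, π (g x) = x := ⟨fun x => (hs x).choose,
    fun x => (hs x).choose_spec⟩
  let β : PowerSeries B := PowerSeries.mk fun i => g (PowerSeries.coeff i x.powerSeriesPart)
  have hβ : β.map π = x.powerSeriesPart := by
    ext i
    rw [PowerSeries.coeff_map, PowerSeries.coeff_mk, hg]
  have hβ0 : IsUnit β := by
    rw [PowerSeries.isUnit_iff_constantCoeff]
    apply isUnit_of_map_ne_zero p π hs hk n hn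
    rw [← PowerSeries.coeff_zero_eq_constantCoeff_apply, PowerSeries.coeff_mk, hg,
      LaurentSeries.powerSeriesPart_coeff]
    intro h0
    rw [Nat.cast_zero, add_zero] at h0
    exact hx0 (HahnSeries.coeff_order_eq_zero.1 h0)
  let γ : (PowerSeries B)ˣ := hβ0.unit
  have hγ : (γ : PowerSeries B) = β := rfl
  let T : (LaurentSeries B)ˣ := ⟨HahnSeries.single v 1, HahnSeries.single (-v) 1,
    by rw [HahnSeries.single_mul_single, add_neg_cancel, one_mul]; rfl,
    by rw [HahnSeries.single_mul_single, neg_add_cancel, one_mul]; rfl⟩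
  let P : (LaurentSeries B)ˣ := Units.map (HahnSeries.ofPowerSeries ℤ B).toMonoidHom γ
  have hT : mapL π (T : LaurentSeries B) = HahnSeries.single v 1 := by
    ext i
    rw [mapL_coeff]
    change π ((HahnSeries.single v (1 : B)).coeff i) = _
    rw [HahnSeries.coeff_single, HahnSeries.coeff_single]
    split_ifs
    · exact map_one π
    · exact map_zero π
  have hP : mapL π (P : LaurentSeries B) = HahnSeries.ofPowerSeries ℤ F x.powerSeriesPart := by
    change mapL π (HahnSeries.ofPowerSeries ℤ B β) = _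
    rw [mapL_ofPowerSeries, hβ]
  have hTP : mapL π ((T * P : (LaurentSeries B)ˣ) : LaurentSeries B) = x := by
    rw [Units.val_mul, map_mul, hT, hP, hv]
    exact LaurentSeries.single_order_mul_powerSeriesPart x
  have h1 : d.base.dlog (a * (T * P)⁻¹) = 0 := by
    have h2 : mapL π (((a * (T * P)⁻¹ : (LaurentSeries B)ˣ) : LaurentSeries B) - 1) = 0 := by
      have h3 : mapL π ((((T * P)⁻¹ : (LaurentSeries B)ˣ) : LaurentSeries B)) * x = 1 := by
        rw [← hTP, ← map_mul, Units.inv_mul, map_one]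
      rw [map_sub, Units.val_mul, map_mul, ← hx, mul_comm, h3, map_one, sub_self]
    obtain ⟨y, hy⟩ := d.ker _ h2
    exact DT.dlog_eq_zero (p := p) d.base d.nilB d.nilA _ y (by
      rw [← hy]
      exact (add_sub_cancel _ _).symm)
  have h2 : d.base.dlog a = d.base.dlog (T * P) := by
    have h3 := d.base.dlog_mul (a * (T * P)⁻¹) (T * P)
    rw [h1, zero_add] at h3
    rw [← h3]
    congr 1
    exact (inv_mul_cancel_right a (T * P)).symm
  have h3 : d.base.dlog T = (v : B) := by
    change (HahnSeries.single (-v) (1 : B) * theta B (HahnSeries.single v 1)).coeff 0 = _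
    have h4 : theta B (HahnSeries.single v 1) = HahnSeries.single v (v : B) := by
      ext i
      rw [theta_coeff, HahnSeries.coeff_single, HahnSeries.coeff_single]
      split_ifs with h
      · rw [h, mul_one]
      · rw [mul_zero]
    rw [h4, HahnSeries.single_mul_single, neg_add_cancel, one_mul, HahnSeries.coeff_single_same]
  have h4 : d.base.dlog P = 0 := by
    change (((P⁻¹ : (LaurentSeries B)ˣ) : LaurentSeries B) *
      theta B (HahnSeries.ofPowerSeries ℤ B β)).coeff 0 = _
    have h5 : ((P⁻¹ : (LaurentSeries B)ˣ) : LaurentSeries B) =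
        HahnSeries.ofPowerSeries ℤ B ((γ⁻¹ : (PowerSeries B)ˣ) : PowerSeries B) := rfl
    rw [h5, theta_ofPS, ← map_mul, coeff_ofPS, if_neg (lt_irrefl _), Int.natAbs_zero,
      PowerSeries.coeff_zero_eq_constantCoeff_apply, map_mul,
      ← PowerSeries.coeff_zero_eq_constantCoeff_apply (PowerSeries.mk _), PowerSeries.coeff_mk,
      Nat.cast_zero, zero_mul, mul_zero]
    rfl
  have h5 := d.base.dlog_mul T P
  rw [h3, h4, add_zero] at h5
  exact h2.trans h5

end Value

end Pool.Agent.H71.KP

end

section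

/-!
# The residue functionals on `Wh` in positive characteristic
-/

set_option autoImplicit false
set_option linter.unusedSectionVars false
set_option linter.unusedSimpArgs false

open Matrix

universe u v w t

namespace Pool.Agent.H71.KP

open Pool.Agent.H71.WH (InvMat K1 K1.mk K1.unit K1Rel genK1 addOne oneByOne CycSub conjHom K1.mk_mul K1.unit_mul)

namespace ResDat

variable {p : ℕ} [hp : Fact p.Prime] {k : Type u} [CommRing k] (d : ResDat p k)

section Grp

end Grp

section Lam

end Lam

section Map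

variable {G : Type v} [Group G] {H : Type w} [Group H] (ψ : H →* G)

theorem gD_map (x : MonoidAlgebra d.A H) :
    d.gD G (MonoidAlgebra.mapDomainRingHom d.A ψ x) =
      MonoidAlgebra.mapDomainRingHom d.A ψ (d.gD H x) := by
  induction x using MonoidAlgebra.induction_linear with
  | zero => simp
  | add x y hx hy => rw [map_add, map_add, hx, hy, map_add, map_add]
  | single g a =>
    rw [gD_single]
    change d.gD G (MonoidAlgebra.mapDomain ψ (MonoidAlgebra.single g a)) =
      MonoidAlgebra.mapDomain ψ (MonoidAlgebra.single g (d.θ a))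
    rw [MonoidAlgebra.mapDomain_single, MonoidAlgebra.mapDomain_single, gD_single]

theorem gf_map (f : G → d.B) (x : MonoidAlgebra d.A H) :
    d.gf f (MonoidAlgebra.mapDomainRingHom d.A ψ x) = d.gf (fun h => f (ψ h)) x := by
  induction x using MonoidAlgebra.induction_linear with
  | zero => simp
  | add x y hx hy => rw [map_add, map_add, hx, hy, map_add]
  | single g a =>
    rw [gf_single]
    change d.gf f (MonoidAlgebra.mapDomain ψ (MonoidAlgebra.single g a)) = _
    rw [MonoidAlgebra.mapDomain_single, gf_single]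

end Map

end ResDat

end Pool.Agent.H71.KP

end

section

/-!
# Places and truncated Witt vectors
-/

set_option autoImplicit false
set_option linter.unusedSectionVars false
set_option linter.unusedSimpArgs false

open Matrix HahnSeries
open scoped Classical

universe u v w t

namespace Pool.Agent.H71.KP

section WB

variable (p : ℕ) [hp : Fact p.Prime] (F : Type u) [Field F]

/-- Witt vectors modulo `p ^ (n + 1)` -/
abbrev WB (n : ℕ) : Type u := WittVector p F ⧸ Ideal.span {(p : WittVector p F) ^ (n + 1)}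

variable [CharP F p]

/-- the projection -/
noncomputable def wπ (n : ℕ) : WB p F n →+* F :=
  Ideal.Quotient.lift _ (WittVector.constantCoeff : WittVector p F →+* F) (by
    intro a ha
    obtain ⟨c, rfl⟩ := Ideal.mem_span_singleton'.1 ha
    rw [map_mul, map_pow, map_natCast, CharP.cast_eq_zero, zero_pow (Nat.succ_ne_zero n), mul_zero])

theorem wπ_mk (n : ℕ) (x : WittVector p F) :
    wπ p F n (Ideal.Quotient.mk _ x) = WittVector.constantCoeff x := Ideal.Quotient.lift_mk _ _ _

/-- the multiplicative section -/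
noncomputable def wτ (n : ℕ) : F →* WB p F n :=
  ((Ideal.Quotient.mk (Ideal.span {(p : WittVector p F) ^ (n + 1)}) : WittVector p F →+* WB p F n) :
    WittVector p F →* WB p F n).comp (WittVector.teichmuller p)

theorem wπ_wτ (n : ℕ) (x : F) : wπ p F n (wτ p F n x) = x := by
  change wπ p F n (Ideal.Quotient.mk _ (WittVector.teichmuller p x)) = x
  rw [wπ_mk]
  exact WittVector.teichmuller_coeff_zero p x

theorem wπ_surjective (n : ℕ) : Function.Surjective (wπ p F n) := fun x => ⟨_, wπ_wτ p F n x⟩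

variable [PerfectRing F p]

theorem wπ_ker (n : ℕ) (b : WB p F n) (hb : wπ p F n b = 0) :
    ∃ c, b = (p : WB p F n) * c := by
  obtain ⟨w, rfl⟩ := Ideal.Quotient.mk_surjective b
  rw [wπ_mk] at hb
  have hw : w ∈ RingHom.ker (WittVector.constantCoeff : WittVector p F →+* F) := hb
  rw [WittVector.ker_constantCoeff] at hw
  obtain ⟨c, rfl⟩ := Ideal.mem_span_singleton'.1 hw
  refine ⟨Ideal.Quotient.mk _ c, ?_⟩
  rw [map_mul, map_natCast, mul_comm]

omit [CharP F p] [PerfectRing F p] in
theorem w_nil (n : ℕ) : (p : WB p F n) ^ (n + 1) = 0 := by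
  rw [← map_natCast (Ideal.Quotient.mk (Ideal.span {(p : WittVector p F) ^ (n + 1)})) p,
    ← map_pow]
  exact Ideal.Quotient.eq_zero_iff_mem.2 (Ideal.mem_span_singleton_self _)

theorem w_int (m : ℤ) (h : ∀ n, (m : WB p F n) = 0) : m = 0 := by
  apply Pool.Agent.H71.FJ.witt_int p F m
  intro n
  have h1 := h n
  rw [← map_intCast (Ideal.Quotient.mk (Ideal.span {(p : WittVector p F) ^ (n + 1)})) m] at h1
  exact Ideal.mem_span_singleton.1 (Ideal.Quotient.eq_zero_iff_mem.1 h1)

end WB

section Lin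

variable {p : ℕ} [hp : Fact p.Prime] {k : Type u} [CommRing k] (d : ResDat p k)
  {H : Type v} [Group H]

/-- evaluation at a character -/
noncomputable def ResDat.evd (χ : H →* d.B) : MonoidAlgebra d.A H →+* d.A :=
  MonoidAlgebra.liftNCRingHom (RingHom.id d.A) ((d.ι : d.B →* d.A).comp χ)
    (fun _ _ => Commute.all _ _)

theorem ResDat.evd_single (χ : H →* d.B) (h : H) (a : d.A) :
    d.evd χ (MonoidAlgebra.single h a) = a * d.ι (χ h) :=
  MonoidAlgebra.liftNCRingHom_single _ _ _ _ _

theorem ResDat.θ_evd (χ : H →* d.B) (x : MonoidAlgebra d.A H) :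
    d.θ (d.evd χ x) = d.evd χ (d.gD H x) := by
  induction x using MonoidAlgebra.induction_linear with
  | zero => simp
  | add x y hx hy => rw [map_add, map_add, hx, hy, map_add, map_add]
  | single h a => rw [d.evd_single, d.leib, d.θι, mul_zero, add_zero, d.gD_single, d.evd_single]

theorem ResDat.res_evd (χ : H →* d.B) (x : MonoidAlgebra d.A H) :
    d.res (d.evd χ x) = d.gf χ x := by
  induction x using MonoidAlgebra.induction_linear with
  | zero => simp
  | add x y hx hy => rw [map_add, map_add, hx, hy, map_add]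
  | single h a => rw [d.evd_single, mul_comm, d.res_ι, d.gf_single]

end Lin

end Pool.Agent.H71.KP

end

section

/-!
# Project FU, degree one: first homology and `K₁`

`e1 g` is the class of the cycle `(1, g)`. `kq1 : K₁(A) → KQ A 0`, `[U] ↦ [N, e1 U]`, and `kap : KQ A 0 → K₁(A)` with
`kap (kq1 x) = x`.
-/

set_option autoImplicit false

open Matrix

universe u v w

namespace Pool.Agent.H71.FU0

open Pool.Agent.H71.FQ
open Pool.Agent.H95.WH (K1 K1.mk K1.lift K1.lift_mk K1.hom_ext K1.mk_mul K1.mk_stab K1.map K1.map_mk stab flatU reU)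

section

variable {Γ : Type v} [Group Γ] {Γ' : Type w} [Group Γ']

theorem e1_one : e1 (1 : Γ) = 0 := by
  have h := e1_mul (1 : Γ) 1
  rw [mul_one] at h
  exact left_eq_add.1 h

theorem hg0_induction {P : HG Γ 0 → Prop} (h0 : P 0) (h1 : ∀ g, P (e1 g))
    (h2 : ∀ a b, P a → P b → P (a + b)) (h3 : ∀ a, P a → P (-a)) (x : HG Γ 0) : P x := by
  obtain ⟨⟨c, hc⟩, rfl⟩ := HG.mk_surjective x
  induction c using Finsupp.induction_linear with
  | zero =>
    have e : (HG.mk ⟨(0 : Cx ℤ Γ (0 + 1)), hc⟩ : HG Γ 0) = 0 := by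
      have h := HG.mk_add (⟨(0 : Cx ℤ Γ (0 + 1)), hc⟩ : cyc Γ 0) 0
      rfl
    rw [e]
    exact h0
  | add a b ha hb =>
    have e : (HG.mk ⟨a + b, hc⟩ : HG Γ 0) = HG.mk ⟨a, cyc0 a⟩ + HG.mk ⟨b, cyc0 b⟩ := rfl
    rw [e]
    exact h2 _ _ (ha _) (hb _)
  | single x r =>
    have e : ∀ r : ℤ, (HG.mk ⟨Finsupp.single x r, cyc0 _⟩ : HG Γ 0) = r • e1 ((x 0)⁻¹ * x 1) := by
      intro r
      rw [← mk_single]
      have h : (Finsupp.single x r : Cx ℤ Γ (0 + 1)) = r • Finsupp.single x 1 := by
        rw [Finsupp.smul_single, smul_eq_mul, mul_one]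
      have h' : (⟨Finsupp.single x r, cyc0 _⟩ : cyc Γ 0) = r • ⟨Finsupp.single x 1, cyc0 _⟩ :=
        Subtype.ext h
      rw [h']
      rfl
    rw [e r]
    have hn : ∀ n : ℕ, P (n • e1 ((x 0)⁻¹ * x 1)) := by
      intro n
      induction n with
      | zero =>
        rw [zero_smul]
        exact h0
      | succ n ih =>
        rw [succ_nsmul]
        exact h2 _ _ ih (h1 _)
    obtain ⟨n, rfl | rfl⟩ := r.eq_nat_or_neg
    · rw [natCast_zsmul]
      exact hn n
    · rw [neg_smul, natCast_zsmul]
      exact h3 _ (hn n)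

theorem hg0_ext {M : Type*} [AddCommGroup M] {f g : HG Γ 0 →+ M} (h : ∀ a, f (e1 a) = g (e1 a)) :
    f = g := by
  ext x
  induction x using hg0_induction with
  | h0 => rw [map_zero, map_zero]
  | h1 a => exact h a
  | h2 a b ha hb => rw [map_add, map_add, ha, hb]
  | h3 a ha => rw [map_neg, map_neg, ha]

/-- the homomorphism of the first homology given by a homomorphism of groups -/
noncomputable def ev1 {M : Type*} [AddCommGroup M] (χ : Γ →* Multiplicative M) : HG Γ 0 →+ M :=
  HG.ev (φ := fun x : Fin (0 + 2) → Γ => Multiplicative.toAdd (χ ((x 0)⁻¹ * x 1)))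
    ⟨fun g x => by
      congr 2
      group, fun x => by
      change ∑ i : Fin 3, _ = _
      rw [Fin.sum_univ_three]
      have e0 : (-1 : ℤ) ^ ((0 : Fin 3) : ℕ) = 1 := by decide
      have e1' : (-1 : ℤ) ^ ((1 : Fin 3) : ℕ) = -1 := by decide
      have e2 : (-1 : ℤ) ^ ((2 : Fin 3) : ℕ) = 1 := by decide
      rw [e0, e1', e2, one_smul, one_smul, neg_smul, one_smul]
      change Multiplicative.toAdd (χ ((x 1)⁻¹ * x 2)) + -Multiplicative.toAdd (χ ((x 0)⁻¹ * x 2)) +
        Multiplicative.toAdd (χ ((x 0)⁻¹ * x 1)) = 0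
      have h : (x 0)⁻¹ * x 2 = ((x 0)⁻¹ * x 1) * ((x 1)⁻¹ * x 2) := by group
      rw [h, map_mul χ ((x 0)⁻¹ * x 1) ((x 1)⁻¹ * x 2), toAdd_mul]
      abel⟩

theorem ev1_e1 {M : Type*} [AddCommGroup M] (χ : Γ →* Multiplicative M) (g : Γ) :
    ev1 χ (e1 g) = Multiplicative.toAdd (χ g) := by
  rw [ev1, e1, HG.ev_mk, Finsupp.linearCombination_single, one_smul]
  simp

end

section

variable {A : Type u} [Ring A] {A' : Type v} [Ring A']

/-- the class of a matrix with another numbering -/
theorem kq1_cls {ι : Type*} [Fintype ι] [DecidableEq ι] {N : ℕ} (e : Fin N ≃ ι)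
    (U : (Matrix ι ι A)ˣ) (V : GLm N A) (hV : V.val = U.val.submatrix e e) :
    kq1 (Pool.Agent.H95.WH.K1.cls U) = KQ.cls A 0 N (e1 V) := by
  have h1 : Pool.Agent.H95.WH.K1.cls U = K1.mk V := by
    rw [← Pool.Agent.H95.WH.K1.cls_reindex e.symm U, Pool.Agent.H95.WH.K1.cls_mk]
    congr 1
    apply Units.ext
    rw [hV, Pool.Agent.H95.WH.reU_val]
    rfl
  rw [h1, kq1_mk]

theorem push_kq1 {r : ℕ} (φ : A →+* Matrix (Fin r) (Fin r) A') (x : K1 A) :
    KQ.push φ (kq1 x) = kq1 (K1.push φ x) := by
  have h : (KQ.push (n := 0) φ).comp kq1 = kq1.comp (K1.push φ) := by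
    apply K1.hom_ext
    intro N U
    rw [AddMonoidHom.comp_apply, AddMonoidHom.comp_apply, kq1_mk, KQ.push_cls, map_e1,
      Pool.Agent.H95.WH.K1.push_mk]
    exact (kq1_cls (fE N r) _ _ rfl).symm
  exact DFunLike.congr_fun h x

/-- the homomorphism `GL_N(A) → K₁(A)` -/
noncomputable def mkHom (N : ℕ) : GLm N A →* Multiplicative (K1 A) where
  toFun U := Multiplicative.ofAdd (K1.mk U)
  map_one' := by
    have h : K1.mk ((1 : GLm N A) * 1) = K1.mk (1 : GLm N A) + K1.mk (1 : GLm N A) :=
      K1.mk_mul _ _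
    rw [mul_one] at h
    exact congrArg Multiplicative.ofAdd (left_eq_add.1 h)
  map_mul' U V := congrArg Multiplicative.ofAdd (K1.mk_mul U V)

theorem mk_blk {N M : ℕ} (U : GLm N A) (V : GLm M A) :
    K1.mk (blk N M A (U, V)) = K1.mk U + K1.mk V := by
  let W : (Matrix (Fin N ⊕ Fin M) (Fin N ⊕ Fin M) A)ˣ :=
    { val := fromBlocks U.val 0 0 V.val
      inv := fromBlocks U.inv 0 0 V.inv
      val_inv := by rw [fromBlocks_multiply]; simp [← fromBlocks_one]
      inv_val := by rw [fromBlocks_multiply]; simp [← fromBlocks_one] }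
  have h1 := Pool.Agent.H95.WH.K1.cls_upper U V 0 W rfl
  rw [← Pool.Agent.H95.WH.K1.cls_mk, ← Pool.Agent.H95.WH.K1.cls_mk, ← Pool.Agent.H95.WH.K1.cls_mk,
    ← h1, ← Pool.Agent.H95.WH.K1.cls_reindex finSumFinEquiv W]
  congr 1

/-- The homomorphism `KQ A 0 → K₁(A)`. -/
noncomputable def kap : KQ A 0 →+ K1 A :=
  KQ.lift (fun N => ev1 (mkHom N)) (by
    intro N M w
    have h : (ev1 (mkHom (N + M))).comp (HG.map 0 (blk N M A)) =
        (ev1 (mkHom N)).comp (HG.map 0 (MonoidHom.fst (GLm N A) (GLm M A))) +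
          (ev1 (mkHom M)).comp (HG.map 0 (MonoidHom.snd (GLm N A) (GLm M A))) := by
      apply hg0_ext
      rintro ⟨U, V⟩
      rw [AddMonoidHom.add_apply, AddMonoidHom.comp_apply, AddMonoidHom.comp_apply,
        AddMonoidHom.comp_apply, map_e1, map_e1, map_e1, ev1_e1, ev1_e1, ev1_e1]
      exact mk_blk U V
    exact DFunLike.congr_fun h w)

theorem kap_cls {N : ℕ} (U : GLm N A) : kap (KQ.cls A 0 N (e1 U)) = K1.mk U := by
  rw [kap, KQ.lift_cls, ev1_e1]
  rfl

theorem kap_kq1 (x : K1 A) : kap (kq1 x) = x := by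
  have h : kap.comp kq1 = AddMonoidHom.id (K1 A) := by
    apply K1.hom_ext
    intro N U
    rw [AddMonoidHom.comp_apply, kq1_mk, kap_cls, AddMonoidHom.id_apply]
  exact DFunLike.congr_fun h x

end

end Pool.Agent.H71.FU0

end
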