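import Pool.Agent.H13.TFQ.H71.FQ.Cx
import Pool.Agent.H13.TFQ.M01
import Pool.Agent.H13.TFQ.M03
import Pool.Agent.H13.TFQ.M05

/-! The parts of this file: H71.FQ.NuE, H71.FQ.Nu_1, H71.KP.Skew2. -/

section

/-!
# Project FQ: invariant measures on a group, `exists_nu`

A set `X` with an action of a group `Z` and a permutation `σ` commuting with it: the vertex maps
`X → Z →₀ ℤ` of constant mass `D`, `Z`-equivariant and `σ`-invariant.

PROOF. `FQ.exists_mset` gives finite sets `M x` with the same equivariance whose cardinality divides `D`;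
`ν x` is `D / card (M x)` times the sum of the point masses.
-/

set_option autoImplicit false

universe u v w

namespace Pool.Agent.H71.FQ

open Finset

theorem mass_sum_single {Z : Type*} (M : Finset Z) (r : ℤ) :
    mass (∑ z ∈ M, Finsupp.single z r) = M.card * r := by
  classical
  rw [mass]
  induction M using Finset.induction_on with
  | empty => simp
  | insert a s ha ih =>
      rw [sum_insert ha, Finsupp.sum_add_index' (by simp) (by simp), ih, Finsupp.sum_single_index rfl,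
        card_insert_of_notMem ha]
      push_cast
      ring

theorem exists_nu {X Z : Type*} [Group Z] [MulAction Z X] (σ : Equiv.Perm X)
    (hσ : ∀ (z : Z) (x : X), σ (z • x) = z • σ x) (D : ℕ) (hD : 0 < D)
    (hfin : ∀ x : X, {z : Z | ∃ j : ℤ, z • x = (σ ^ j) x}.Finite)
    (hcard : ∀ x : X, Nat.card {z : Z | ∃ j : ℤ, z • x = (σ ^ j) x} ∣ D) :
    ∃ ν : X → Z →₀ ℤ, (∀ x, mass (ν x) = D) ∧
      (∀ (z : Z) (x : X), ν (z • x) = (ν x).mapDomain fun y => z * y) ∧ ∀ x, ν (σ x) = ν x := by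
  obtain ⟨M, h1, h2, h3, h4⟩ := _root_.FQ.exists_mset (Z := Z) (X := X) hσ (D := D) hfin hcard
  refine ⟨fun x => ∑ z ∈ M x, Finsupp.single z ((D / (M x).card : ℕ) : ℤ), ?_, ?_, ?_⟩
  · intro x
    rw [mass_sum_single, ← Nat.cast_mul, Nat.mul_div_cancel' (h3 x)]
  · intro z x
    simp only [h1, card_map, sum_map]
    rw [Finsupp.mapDomain_finset_sum]
    refine sum_congr rfl fun y _ => ?_
    rw [Finsupp.mapDomain_single]
    rfl
  · intro x
    simp only [h2]

end Pool.Agent.H71.FQ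

end

section

/-!
# Project FQ: invariant measures on a group

A set `X` with an action of a group `Z` and a permutation `σ` commuting with it. `exists_nu`: the vertex maps
`X → Z →₀ ℤ` of constant mass `D`, `Z`-equivariant and `σ`-invariant.

PROOF of `exists_nu`. Choose a representative `ρ` of each orbit of `Z × ⟨σ⟩`; for `x = z₀ σ ^ j ρ` let `ν x` be
`D / card S` times the sum of the point masses at the `z₀ s`, `s ∈ S = {z : ∃ j, z ρ = σ ^ j ρ}` (a subgroup).

PROOF of `card_stab`. `sig c ^ q = c`, the action of the centralizer on tuples is free, hence `z ^ q = c ^ j` for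
`z x = sig ^ j x`; `{(z, j)}` embeds in `ℤ` by `j`, contains `(1, q * orderOf c)`, hence is generated by some `(z₁, d)`,
the set `{z}` is the cyclic subgroup generated by `z₁`, whose order divides `q * orderOf c`, and its `p`-part divides
`p ^ r`.
-/

set_option autoImplicit false

universe u v w

namespace Pool.Agent.H71.FQ

section

variable {G : Type u} [Group G]

theorem sig_lmul {q : ℕ} (c g : G) (h : g * c = c * g) (v : Fin q → G) :
    sig q c (lmul g v) = lmul g (sig q c v) := by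
  funext t
  show sig q c (lmul g v) t = g * sig q c v t
  unfold sig
  by_cases ht : (t : ℕ) + 1 < q
  · rw [dif_pos ht, dif_pos ht]
    rfl
  · rw [dif_neg ht, dif_neg ht, ← mul_assoc, h, mul_assoc]
    rfl

/-- the iterates of the shift -/
theorem sig_iterate_le {q : ℕ} (c : G) (v : Fin q → G) (k : ℕ) (hk : k ≤ q) (t : Fin q) :
    ((sig q c)^[k] v) t = if h : (t : ℕ) + k < q then v ⟨(t : ℕ) + k, h⟩ else
      c * v ⟨(t : ℕ) + k - q, by have := t.2; omega⟩ := by
  induction k generalizing t with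
  | zero =>
    rw [Function.iterate_zero, id, dif_pos (show (t : ℕ) + 0 < q from t.2)]
    rfl
  | succ k ih =>
    have hk' : k ≤ q := by omega
    rw [Function.iterate_succ_apply']
    show sig q c ((sig q c)^[k] v) t = _
    unfold sig
    by_cases ht : (t : ℕ) + 1 < q
    · rw [dif_pos ht]
      have h1 := ih hk' ⟨(t : ℕ) + 1, ht⟩
      unfold sig at h1
      rw [h1]
      by_cases h2 : (t : ℕ) + (k + 1) < q
      · have h3 : ((⟨(t : ℕ) + 1, ht⟩ : Fin q) : ℕ) + k < q := by
          show (t : ℕ) + 1 + k < q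
          omega
        rw [dif_pos h3, dif_pos h2]
        congr 1
        ext
        show (t : ℕ) + 1 + k = (t : ℕ) + (k + 1)
        omega
      · have h3 : ¬ ((⟨(t : ℕ) + 1, ht⟩ : Fin q) : ℕ) + k < q := by
          show ¬ (t : ℕ) + 1 + k < q
          omega
        rw [dif_neg h3, dif_neg h2]
        congr 2
        ext
        show (t : ℕ) + 1 + k - q = (t : ℕ) + (k + 1) - q
        omega
    · rw [dif_neg ht]
      have h1 := ih hk' ⟨0, t.pos⟩
      unfold sig at h1
      rw [h1]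
      have ht2 := t.2
      have h3 : ((⟨0, t.pos⟩ : Fin q) : ℕ) + k < q := by
        show 0 + k < q
        omega
      have h2 : ¬ (t : ℕ) + (k + 1) < q := by omega
      rw [dif_pos h3, dif_neg h2]
      congr 2
      ext
      show 0 + k = (t : ℕ) + (k + 1) - q
      omega

/-- the `q`-th power of the shift is the multiplication by `c` -/
theorem sig_iterate (q : ℕ) (c : G) (v : Fin q → G) : (sig q c)^[q] v = lmul c v := by
  funext t
  rw [sig_iterate_le c v q le_rfl t, dif_neg (by omega)]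
  show c * v _ = c * v t
  congr 2
  ext
  show (t : ℕ) + q - q = t
  omega

theorem sig_bijective (q : ℕ) (c : G) : Function.Bijective (sig q c) := by
  rcases Nat.eq_zero_or_pos q with hq | hq
  · subst hq
    exact ⟨fun a b _ => Subsingleton.elim a b, fun b => ⟨b, Subsingleton.elim _ _⟩⟩
  · obtain ⟨k, rfl⟩ : ∃ k, q = k + 1 := ⟨q - 1, by omega⟩
    have hb : Function.Bijective ((sig (k + 1) c)^[k + 1]) := by
      have h1 : (sig (k + 1) c)^[k + 1] = lmul c := funext fun v => sig_iterate (k + 1) c v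
      rw [h1]
      refine ⟨fun a b hab => ?_, fun b => ⟨lmul c⁻¹ b, ?_⟩⟩
      · funext t
        exact mul_left_cancel (congrFun hab t)
      · funext t
        exact mul_inv_cancel_left c (b t)
    constructor
    · have h2 := hb.1
      rw [Function.iterate_succ] at h2
      exact Function.Injective.of_comp h2
    · have h2 := hb.2
      rw [Function.iterate_succ'] at h2
      exact Function.Surjective.of_comp h2

/-- The elements which act on a point as a power of `σ` form a cyclic group. -/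
theorem stab_zpowers {X Z : Type*} [Group Z] [MulAction Z X] (σ : Equiv.Perm X)
    (hσ : ∀ (z : Z) (x : X), σ (z • x) = z • σ x) (x : X) (hfree : ∀ z : Z, z • x = x → z = 1) :
    ∃ (z₁ : Z) (d : ℤ), z₁ • x = (σ ^ d) x ∧
      {z : Z | ∃ j : ℤ, z • x = (σ ^ j) x} = Subgroup.zpowers z₁ := by
  have hcomm : ∀ z : Z, Commute (MulAction.toPermHom Z X z) σ := by
    intro z
    ext y
    exact (hσ z y).symm
  have hz : ∀ (z : Z) (j : ℤ) (y : X), (σ ^ j) (z • y) = z • (σ ^ j) y := by
    intro z j y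
    have h1 := ((hcomm z).zpow_right j).eq
    exact (congrArg (fun f : Equiv.Perm X => f y) h1).symm
  let J : AddSubgroup ℤ :=
    { carrier := {j | ∃ z : Z, z • x = (σ ^ j) x}
      zero_mem' := ⟨1, by simp⟩
      add_mem' := by
        rintro i j ⟨z, h1⟩ ⟨z', h2⟩
        refine ⟨z * z', ?_⟩
        rw [mul_smul, h2, ← hz, h1, ← Equiv.Perm.mul_apply, ← zpow_add, add_comm]
      neg_mem' := by
        rintro j ⟨z, h1⟩
        refine ⟨z⁻¹, ?_⟩
        rw [inv_smul_eq_iff, ← hz, h1, ← Equiv.Perm.mul_apply, ← zpow_add, neg_add_cancel, zpow_zero]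
        rfl }
  obtain ⟨d, hd⟩ := Int.subgroup_cyclic J
  have hdJ : d ∈ J := by
    rw [hd]
    exact AddSubgroup.subset_closure rfl
  obtain ⟨z₁, h1⟩ := hdJ
  have hpow : ∀ k : ℤ, (z₁ ^ k) • x = (σ ^ (k * d)) x := by
    intro k
    have h2 : (MulAction.toPermHom Z X z₁ * (σ ^ d)⁻¹) x = x := by
      rw [Equiv.Perm.mul_apply]
      show z₁ • ((σ ^ d)⁻¹ x) = x
      rw [← zpow_neg, ← hz, h1, ← Equiv.Perm.mul_apply, ← zpow_add, neg_add_cancel, zpow_zero]
      rfl
    have h3 := Equiv.Perm.zpow_apply_eq_self_of_apply_eq_self h2 k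
    rw [((hcomm z₁).zpow_right d).inv_right.mul_zpow, Equiv.Perm.mul_apply, ← map_zpow] at h3
    have h4 : (z₁ ^ k) • ((((σ ^ d)⁻¹) ^ k) x) = x := h3
    rw [← zpow_neg, ← zpow_mul, ← hz] at h4
    have h5 := congrArg (σ ^ (k * d)) h4
    rw [← Equiv.Perm.mul_apply, ← zpow_add, show k * d + -d * k = 0 by ring, zpow_zero] at h5
    exact h5
  refine ⟨z₁, d, h1, ?_⟩
  ext z
  constructor
  · rintro ⟨j, hj⟩
    have hjJ : j ∈ J := ⟨z, hj⟩
    rw [hd, AddSubgroup.mem_closure_singleton] at hjJ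
    obtain ⟨k, rfl⟩ := hjJ
    refine ⟨k, ?_⟩
    show z₁ ^ k = z
    have h2 : (z⁻¹ * z₁ ^ k) • x = x := by
      rw [mul_smul, hpow k, inv_smul_eq_iff, hj, smul_eq_mul]
    have h3 := hfree _ h2
    rw [inv_mul_eq_one] at h3
    exact h3.symm
  · rintro ⟨k, rfl⟩
    exact ⟨k * d, hpow k⟩

/-- **The measures for tuples.** -/
theorem exists_nu_tuple {p : ℕ} (hp : p.Prime) (r : ℕ)
    (hG : ∀ g : G, (∃ j : ℕ, g ^ p ^ j = 1) → g ^ p ^ r = 1) (m : ℕ) (c : G)
    (hc : IsOfFinOrder c) :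
    ∃ ν : (Fin (p ^ m) → G) → Subgroup.centralizer {c} →₀ ℤ,
      (∀ v, mass (ν v) = ((orderOf c * p ^ r : ℕ) : ℤ)) ∧
      (∀ (z : Subgroup.centralizer {c}) (v : Fin (p ^ m) → G),
        ν (lmul (z : G) v) = (ν v).mapDomain fun y => z * y) ∧
      ∀ v, ν (sig (p ^ m) c v) = ν v := by
  have hq : 0 < p ^ m := Nat.pow_pos hp.pos
  let σ : Equiv.Perm (Fin (p ^ m) → G) := Equiv.ofBijective (sig (p ^ m) c) (sig_bijective _ c)
  have hσa : ∀ v, σ v = sig (p ^ m) c v := fun v => rfl
  have hsmul : ∀ (z : Subgroup.centralizer {c}) (v : Fin (p ^ m) → G), z • v = lmul (z : G) v := fun z v => rfl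
  have hσ : ∀ (z : Subgroup.centralizer {c}) (v : Fin (p ^ m) → G), σ (z • v) = z • σ v := by
    intro z v
    rw [hsmul, hsmul, hσa, hσa]
    exact sig_lmul c z (Subgroup.mem_centralizer_singleton_iff.1 z.2) v
  have hσq : ∀ v, (σ ^ (p ^ m)) v = lmul c v := by
    intro v
    rw [← Equiv.Perm.iterate_eq_pow]
    exact sig_iterate _ c v
  have hfree : ∀ (v : Fin (p ^ m) → G) (z : Subgroup.centralizer {c}), z • v = v → z = 1 := by
    intro v z h
    have h1 : (z : G) * v ⟨0, hq⟩ = v ⟨0, hq⟩ := congrFun h ⟨0, hq⟩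
    exact Subtype.ext (mul_eq_right.1 h1)
  -- the generator of the stabiliser has order dividing `orderOf c * p ^ r`
  have key : ∀ v : Fin (p ^ m) → G, ∃ z₁ : Subgroup.centralizer {c},
      {z : Subgroup.centralizer {c} | ∃ j : ℤ, z • v = (σ ^ j) v} = Subgroup.zpowers z₁ ∧
        z₁ ^ (orderOf c * p ^ r) = 1 := by
    intro v
    obtain ⟨z₁, d, h1, h2⟩ := stab_zpowers σ hσ v (hfree v)
    refine ⟨z₁, h2, ?_⟩
    have hcomm : Commute (MulAction.toPermHom (Subgroup.centralizer {c}) (Fin (p ^ m) → G) z₁) σ := by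
      ext1 y
      exact (hσ z₁ y).symm
    -- `z₁ ^ q = c ^ d`
    have h3 : ((z₁ : G)) ^ (p ^ m) = c ^ d := by
      have h4 : (MulAction.toPermHom (Subgroup.centralizer {c}) (Fin (p ^ m) → G) z₁ * (σ ^ d)⁻¹) v = v := by
        have h5 := congrArg (fun f : Equiv.Perm (Fin (p ^ m) → G) => f ((σ ^ d)⁻¹ v)) (hcomm.zpow_right d).eq
        have h6 : (MulAction.toPermHom (Subgroup.centralizer {c}) (Fin (p ^ m) → G) z₁) ((σ ^ d) ((σ ^ d)⁻¹ v)) =
            (σ ^ d) ((MulAction.toPermHom (Subgroup.centralizer {c}) (Fin (p ^ m) → G) z₁) ((σ ^ d)⁻¹ v)) := h5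
        have h6' : (σ ^ d) ((σ ^ d)⁻¹ v) = v := (σ ^ d).apply_symm_apply v
        rw [h6'] at h6
        have h7 : (MulAction.toPermHom (Subgroup.centralizer {c}) (Fin (p ^ m) → G) z₁) v = (σ ^ d) v := h1
        rw [h7] at h6
        exact ((σ ^ d).injective h6).symm
      have h8 := Equiv.Perm.pow_apply_eq_self_of_apply_eq_self h4 (p ^ m)
      rw [(hcomm.zpow_right d).inv_right.mul_pow, Equiv.Perm.mul_apply, ← map_pow] at h8
      have h9 : ((σ ^ d)⁻¹) ^ (p ^ m) = ((σ ^ (p ^ m)) ^ d)⁻¹ := by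
        rw [inv_pow, ← zpow_natCast, ← zpow_mul, ← zpow_natCast, ← zpow_mul, mul_comm]
      have h10 : ∀ (k : ℤ) (w : Fin (p ^ m) → G), ((σ ^ (p ^ m)) ^ k) w = lmul (c ^ k) w := by
        have h11 : σ ^ (p ^ m) = MulAction.toPermHom G (Fin (p ^ m) → G) c := by
          ext1 w
          exact hσq w
        intro k w
        rw [h11, ← map_zpow]
        rfl
      rw [h9, ← zpow_neg, h10] at h8
      have h12 : (z₁ ^ (p ^ m)) • (lmul (c ^ (-d)) v) = v := h8
      have h13 : ((z₁ ^ (p ^ m) : Subgroup.centralizer {c}) : G) * (c ^ (-d) * v ⟨0, hq⟩) = v ⟨0, hq⟩ :=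
        congrFun h12 ⟨0, hq⟩
      rw [← mul_assoc, mul_eq_right, zpow_neg, mul_inv_eq_one, Subgroup.coe_pow] at h13
      exact h13
    have h4 : ((z₁ : G) ^ orderOf c) ^ p ^ m = 1 := by
      rw [← pow_mul, mul_comm, pow_mul, h3, ← zpow_natCast, ← zpow_mul, mul_comm, zpow_mul, zpow_natCast,
        pow_orderOf_eq_one, one_zpow]
    have h5 := hG _ ⟨m, h4⟩
    apply Subtype.ext
    rw [Subgroup.coe_pow, Subgroup.coe_one, pow_mul]
    exact h5
  have hD : 0 < orderOf c * p ^ r := Nat.mul_pos hc.orderOf_pos (Nat.pow_pos hp.pos)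
  have hfin : ∀ v : Fin (p ^ m) → G, {z : Subgroup.centralizer {c} | ∃ j : ℤ, z • v = (σ ^ j) v}.Finite := by
    intro v
    obtain ⟨z₁, h1, h2⟩ := key v
    rw [h1]
    have h3 : IsOfFinOrder z₁ := isOfFinOrder_iff_pow_eq_one.2 ⟨_, hD, h2⟩
    exact h3.finite_zpowers
  have hcard : ∀ v : Fin (p ^ m) → G,
      Nat.card {z : Subgroup.centralizer {c} | ∃ j : ℤ, z • v = (σ ^ j) v} ∣ orderOf c * p ^ r := by
    intro v
    obtain ⟨z₁, h1, h2⟩ := key v
    rw [h1]
    have h3 : Nat.card (Subgroup.zpowers z₁ : Set (Subgroup.centralizer {c})) = orderOf z₁ := Nat.card_zpowers z₁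
    rw [h3]
    exact orderOf_dvd_of_pow_eq_one h2
  obtain ⟨ν, hν1, hν2, hν3⟩ := exists_nu (Z := Subgroup.centralizer {c}) σ hσ (orderOf c * p ^ r) hD hfin hcard
  exact ⟨ν, hν1, hν2, hν3⟩

end

end Pool.Agent.H71.FQ

end

section

/-!
# The homomorphism `Lam`
-/

set_option autoImplicit false
set_option linter.unusedSectionVars false

open Matrix

universe u v

namespace Pool.Agent.H71.KP

namespace TwTr

variable {p : ℕ} [hp : Fact p.Prime] {M : Type u} [Ring M] (t : TwTr p M)

/-- the norm (trace) of an element -/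
def tr : M →+ M where
  toFun z := ∑ i, t.act i z
  map_zero' := by simp
  map_add' a b := by simp [Finset.sum_add_distrib]

theorem tr_apply (z : M) : t.tr z = ∑ i, t.act i z := rfl

theorem act_tr (j : ZMod p) (z : M) : t.act j (t.tr z) = t.tr z := by
  rw [tr_apply, map_sum, ← Equiv.sum_comp (Equiv.addLeft j) (fun i => t.act i z)]
  apply Finset.sum_congr rfl
  intro i _
  rw [Equiv.coe_addLeft, t.act_add]

/-- elements fixed by the action -/
def Fix (x : M) : Prop := ∀ i, t.act i x = x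

theorem Fix.one : t.Fix 1 := fun _ => map_one _

theorem Fix.mul {x y : M} (hx : t.Fix x) (hy : t.Fix y) : t.Fix (x * y) := fun i => by
  rw [map_mul, hx i, hy i]

theorem Fix.add {x y : M} (hx : t.Fix x) (hy : t.Fix y) : t.Fix (x + y) := fun i => by
  rw [map_add, hx i, hy i]

theorem Fix.sub {x y : M} (hx : t.Fix x) (hy : t.Fix y) : t.Fix (x - y) := fun i => by
  rw [map_sub, hx i, hy i]

theorem Fix.natCast (n : ℕ) : t.Fix (n : M) := fun _ => map_natCast _ n

theorem Fix.inv {g : Mˣ} (h : t.Fix (g : M)) : t.Fix ((g⁻¹ : Mˣ) : M) := by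
  intro i
  have h1 : t.act i ((g⁻¹ : Mˣ) : M) * g = 1 := by
    conv_lhs => rw [← h i]
    rw [← map_mul, Units.inv_mul, map_one]
  calc t.act i ((g⁻¹ : Mˣ) : M) = t.act i ((g⁻¹ : Mˣ) : M) * (g * (g⁻¹ : Mˣ)) := by
        rw [Units.mul_inv, mul_one]
    _ = (g⁻¹ : Mˣ) := by rw [← mul_assoc, h1, one_mul]

theorem tr_mul_fix (z : M) {w : M} (hw : t.Fix w) : t.tr (z * w) = t.tr z * w := by
  rw [tr_apply, tr_apply, Finset.sum_mul]
  apply Finset.sum_congr rfl
  intro i _
  rw [map_mul, hw i]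

theorem tr_fix_mul (z : M) {w : M} (hw : t.Fix w) : t.tr (w * z) = w * t.tr z := by
  rw [tr_apply, tr_apply, Finset.mul_sum]
  apply Finset.sum_congr rfl
  intro i _
  rw [map_mul, hw i]

theorem tr_fix {x : M} (hx : t.Fix x) : t.tr x = (p : M) * x := by
  rw [tr_apply, Finset.sum_congr rfl (fun i _ => hx i), Finset.sum_const, Finset.card_univ,
    ZMod.card, nsmul_eq_mul]

theorem κ_tr (z : M) : t.κ (t.tr z) = p * t.κ z := by
  rw [tr_apply, map_sum, Finset.sum_congr rfl (fun i _ => t.κ_act i z), Finset.sum_const,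
    Finset.card_univ, ZMod.card, nsmul_eq_mul]

/-- the element `z N` of the skew ring -/
def Zm : M →+ t.S where
  toFun z := ⟨Matrix.of fun i _ => t.act i z, by
    intro a b l
    change t.act (a + l) z = t.act l (t.act a z)
    rw [← t.act_add, add_comm]⟩
  map_zero' := by
    apply Subtype.ext
    ext i j
    change t.act i 0 = 0
    rw [map_zero]
  map_add' a b := by
    apply Subtype.ext
    ext i j
    change t.act i (a + b) = t.act i a + t.act i b
    rw [map_add]

theorem Zm_apply (z : M) (i j : ZMod p) : (t.Zm z).1 i j = t.act i z := rfl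

theorem Zm_mul (z w : M) : t.Zm z * t.Zm w = t.Zm (z * t.tr w) := by
  apply Subtype.ext
  ext i j
  change ((t.Zm z).1 * (t.Zm w).1) i j = _
  rw [Matrix.mul_apply, Zm_apply, map_mul, t.act_tr, tr_apply, Finset.mul_sum]
  rfl

/-- the diagonal embedding -/
def em : M →+* t.S where
  toFun w := ⟨Matrix.diagonal fun i => t.act i w, by
    intro a b l
    by_cases h : a = b
    · subst h
      rw [Matrix.diagonal_apply_eq, Matrix.diagonal_apply_eq]
      change _ = t.act l _
      rw [← t.act_add, add_comm]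
    · have h' : a + l ≠ b + l := fun h' => h (add_right_cancel h')
      rw [Matrix.diagonal_apply_ne _ h', Matrix.diagonal_apply_ne _ h, map_zero]⟩
  map_one' := by
    apply Subtype.ext
    change (Matrix.diagonal fun i => t.act i 1) = 1
    simp
  map_zero' := by
    apply Subtype.ext
    change (Matrix.diagonal fun i => t.act i 0) = 0
    simp
  map_add' a b := by
    apply Subtype.ext
    change (Matrix.diagonal fun i => t.act i (a + b)) =
      (Matrix.diagonal fun i => t.act i a) + (Matrix.diagonal fun i => t.act i b)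
    simp
  map_mul' a b := by
    apply Subtype.ext
    change (Matrix.diagonal fun i => t.act i (a * b)) =
      (Matrix.diagonal fun i => t.act i a) * (Matrix.diagonal fun i => t.act i b)
    simp

theorem em_mul_Zm (w z : M) : t.em w * t.Zm z = t.Zm (w * z) := by
  apply Subtype.ext
  ext i j
  change ((Matrix.diagonal fun i => t.act i w) * (t.Zm z).1) i j = _
  rw [Matrix.diagonal_mul, Zm_apply, Zm_apply, map_mul]

theorem Zm_mul_em (z : M) {w : M} (hw : t.Fix w) : t.Zm z * t.em w = t.Zm (z * w) := by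
  apply Subtype.ext
  ext i j
  change ((t.Zm z).1 * (Matrix.diagonal fun i => t.act i w)) i j = _
  rw [Matrix.mul_diagonal, Zm_apply, Zm_apply, map_mul, hw i, hw j]

theorem fix_of_cond {z : M} {g : Mˣ} (h : (g : M) = 1 + t.tr z) : t.Fix (g : M) := by
  intro i
  rw [h, map_add, map_one, t.act_tr]

/-- the unit `1 + z N` of the skew ring, for a unit `g = 1 + tr z` -/
def vU (z : M) (g : Mˣ) (h : (g : M) = 1 + t.tr z) : t.Sˣ where
  val := 1 + t.Zm z
  inv := 1 - t.Zm (z * (g⁻¹ : Mˣ))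
  val_inv := by
    have hs : t.Fix ((g⁻¹ : Mˣ) : M) := (t.fix_of_cond h).inv
    have h1 : (1 + t.tr z) * ((g⁻¹ : Mˣ) : M) = 1 := by rw [← h, Units.mul_inv]
    have h2 : t.tr z * ((g⁻¹ : Mˣ) : M) = 1 - (g⁻¹ : Mˣ) := by
      rw [add_mul, one_mul] at h1
      exact eq_sub_of_add_eq' h1
    rw [add_mul, one_mul, mul_sub, mul_one, Zm_mul, t.tr_mul_fix _ hs, h2, mul_sub, mul_one,
      map_sub]
    abel
  inv_val := by
    have hs : t.Fix ((g⁻¹ : Mˣ) : M) := (t.fix_of_cond h).inv
    have h1 : ((g⁻¹ : Mˣ) : M) * (1 + t.tr z) = 1 := by rw [← h, Units.inv_mul]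
    have h2 : ((g⁻¹ : Mˣ) : M) * t.tr z = 1 - (g⁻¹ : Mˣ) := by
      rw [mul_add, mul_one] at h1
      exact eq_sub_of_add_eq' h1
    rw [sub_mul, one_mul, mul_add, mul_one, Zm_mul, mul_assoc, h2, mul_sub, mul_one,
      map_sub]
    abel

theorem vU_val (z : M) (g : Mˣ) (h : (g : M) = 1 + t.tr z) :
    (t.vU z g h : t.S) = 1 + t.Zm z := rfl

theorem mul_add_cond {z1 z2 : M} {g1 g2 : Mˣ} (h1 : (g1 : M) = 1 + t.tr z1)
    (h2 : (g2 : M) = 1 + t.tr z2) :
    ((g1 * g2 : Mˣ) : M) = 1 + t.tr (z1 * g2 + z2) := by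
  rw [map_add, t.tr_mul_fix _ (t.fix_of_cond h2), Units.val_mul, h1, add_mul, one_mul]
  conv_lhs => arg 1; rw [h2]
  abel

theorem vU_mul {z1 z2 : M} {g1 g2 : Mˣ} (h1 : (g1 : M) = 1 + t.tr z1)
    (h2 : (g2 : M) = 1 + t.tr z2)
    (h : ((g1 * g2 : Mˣ) : M) = 1 + t.tr (z1 * g2 + z2)) :
    t.vU z1 g1 h1 * t.vU z2 g2 h2 = t.vU (z1 * g2 + z2) (g1 * g2) h := by
  apply Units.ext
  rw [Units.val_mul, vU_val, vU_val, vU_val, add_mul, one_mul, mul_add, mul_one, Zm_mul]
  conv_rhs => rw [h2, mul_add, mul_one, map_add, map_add]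
  abel

theorem cond_one {y : M} (hy : t.tr y = 0) : ((1 : Mˣ) : M) = 1 + t.tr y := by
  rw [hy, add_zero, Units.val_one]

theorem κ_eq_zero {y : M} (hy : t.tr y = 0) : t.κ y = 0 := by
  have h1 := t.κ_tr y
  rw [hy, map_zero] at h1
  have hp0 : (p : ℤ_[p]) ≠ 0 := by exact_mod_cast hp.out.ne_zero
  exact (mul_eq_zero.1 h1.symm).resolve_left hp0

theorem τ_Zm (z : M) : t.τ (t.Zm z) = t.κ z := by
  change t.κ ((t.Zm z).1 0 1) = _
  rw [Zm_apply, t.act_zero]

/-- units of the form `1 + tr z` -/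
def Adm (g : Mˣ) : Prop := ∃ z, (g : M) = 1 + t.tr z

theorem conj_cond {z : M} {g w : Mˣ} (hz : (g : M) = 1 + t.tr z) (hw : t.Fix (w : M)) :
    ((w⁻¹ * g * w : Mˣ) : M) = 1 + t.tr ((w⁻¹ : Mˣ) * z * w) := by
  rw [t.tr_mul_fix _ hw, t.tr_fix_mul _ hw.inv, Units.val_mul, Units.val_mul, hz, mul_add, mul_one,
    add_mul, Units.inv_mul]

theorem Adm.conj {g w : Mˣ} (h : t.Adm g) (hw : t.Fix (w : M)) : t.Adm (w⁻¹ * g * w) := by
  obtain ⟨z, hz⟩ := h
  exact ⟨_, t.conj_cond hz hw⟩

end TwTr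

end Pool.Agent.H71.KP

end
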