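import Pool.Agent.H13.TFQ.H71.FQ.EvC
import Pool.Agent.H13.TFQ.H71.FQ.EvD
import Pool.Agent.H13.TFQ.M17
import Pool.Agent.H13.TFQ.M27
import Pool.Agent.H13.TFQ.M38
import Pool.Agent.H13.TFQ.M49

/-! The parts of this file: H71.FQ.EvD_1, H71.FQ.Tors. -/

section

/-!
# Project FQ: averaging over `D` and the value on the symbols

`pull ν φ` is the function of tuples defined by a cocycle `φ` of the centralizer of `c` and measures `ν`.

PROOFS. `isPhi_pull`: by `bd_vmap`, `D₀` times the sum of the faces vanishes, `Lam` is torsion free.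
`avF_eq`: `exists_homotopy` for the vertex maps `avM D` and `Nat.card (Fin q → D)` times the point masses, `b = id`,
which commute with `lmul z` and `sig q c`; with `H` of it put `Ψ w = μ • linearCombination Φ (H (single w))`.
`trT_sym`: `trT_gasm` for `avF D Φ`, `trT_cob`, `trT_smul` and `HG.ev_vmap` for `ψ = cj`,
`ν' h = ∑ s, ν (fun t => u * h * s t)`; finally the power of `Nat.card D` is a unit of `B`.
-/

set_option autoImplicit false

open Matrix

universe u v w

namespace Pool.Agent.H71.FQ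

open Pool.Agent.H71.FJ (MatEquiv IdemMat K0 K0.mk K0.lift K0.lift_mk K0.hom_ext K0.map T dlt dlt_comm cyc_comm K0.tr_mk clsFun clsFun_single dlt_self dlt_ne)

section

variable {G : Type v} [Group G] {n q : ℕ}

theorem avF_rinv {B : Type u} [CommRing B] (D : Subgroup G) [Fintype D]
    (Φ : (Fin (n + 2) → Fin q → G) → B) : RInv D (avF D Φ) := by
  intro s hs v
  rw [avF, avF]
  congr 1
  exact tens_congr fun j => avM_mul D (v j) (s j) (hs j)

/-- comparison of the restriction of the average with the cocycle -/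
theorem ev_rs_avF {Λ : Type u} [CommRing Λ] {B : Type u} [CommRing B] (f : Λ →+* B) {c : G}
    (ν : (Fin q → G) → Subgroup.centralizer ({c} : Set G) →₀ ℤ) (D₀ : ℤ)
    (h1 : ∀ v, mass (ν v) = D₀)
    (h2 : ∀ (z : Subgroup.centralizer ({c} : Set G)) (v : Fin q → G),
      ν (lmul (z : G) v) = (ν v).mapDomain fun y => z * y)
    {φ : (Fin (n + 2) → Subgroup.centralizer ({c} : Set G)) → Λ}
    (hφ : IsCoc (Subgroup.centralizer ({c} : Set G)) n φ) (D : Subgroup G) [Fintype D]
    (hΦ : IsPhi c (avF D fun v => f (pull ν φ v))) (x : D)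
    (z : HG (Subgroup.centralizer (D : Set G)) n) :
    HG.ev (isCoc_rs hΦ D x) z =
      (((Fintype.card (Fin q → D) : ℤ) * D₀) ^ (n + 2) : ℤ) * f (vl hφ D x z) := by
  by_cases h0 : ∃ u : G, u * x * u⁻¹ = c
  · have hfφ : IsCoc (Subgroup.centralizer ({c} : Set G)) n fun y => f (φ y) := isCoc_ring f hφ
    have e0 : ∀ y : Fin (n + 2) → Subgroup.centralizer (D : Set G),
        rs c (avF D fun v => f (pull ν φ v)) (x : G) (fun j => (y j : G)) =
          Finsupp.linearCombination ℤ (fun y => f (φ y)) (tens (nuD ν D h0.choose) (n + 1) y) := by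
      intro y
      unfold rs
      rw [dif_pos h0]
      exact avF_pull f ν D h0.choose φ y
    have hc : IsCoc (Subgroup.centralizer (D : Set G)) n fun y =>
        Finsupp.linearCombination ℤ (fun y => f (φ y)) (tens (nuD ν D h0.choose) (n + 1) y) := by
      have h4 := isCoc_rs hΦ D x
      have h5 : (fun y : Fin (n + 2) → Subgroup.centralizer (D : Set G) =>
          rs c (avF D fun v => f (pull ν φ v)) (x : G) (fun j => (y j : G))) = fun y =>
            Finsupp.linearCombination ℤ (fun y => f (φ y)) (tens (nuD ν D h0.choose) (n + 1) y) :=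
        funext e0
      rw [h5] at h4
      exact h4
    rw [HG.ev_congr (isCoc_rs hΦ D x) hc e0 z,
      HG.ev_vmap (cj D x h0.choose h0.choose_spec) (nuD ν D h0.choose)
        ((Fintype.card (Fin q → D) : ℤ) * D₀) (mass_nuD ν D₀ h1 D h0.choose)
        (nuD_mul ν h2 D x h0.choose h0.choose_spec) hfφ hc z,
      HG.ev_comp hφ f.toAddMonoidHom hfφ, vl_eq hφ D x h0.choose h0.choose_spec z, zsmul_eq_mul]
    rfl
  · have e0 : ∀ y : Fin (n + 2) → Subgroup.centralizer (D : Set G),
        rs c (avF D fun v => f (pull ν φ v)) (x : G) (fun j => (y j : G)) = 0 := by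
      intro y
      unfold rs
      rw [dif_neg h0]
    have hc : IsCoc (Subgroup.centralizer (D : Set G)) n fun _ => (0 : B) := by
      have h4 := isCoc_rs hΦ D x
      have h5 : (fun y : Fin (n + 2) → Subgroup.centralizer (D : Set G) =>
          rs c (avF D fun v => f (pull ν φ v)) (x : G) (fun j => (y j : G))) = fun _ => (0 : B) :=
        funext e0
      rw [h5] at h4
      exact h4
    rw [HG.ev_congr (isCoc_rs hΦ D x) hc e0 z, HG.ev_const,
      vl_zero hφ D x (fun h => h0 (isConj_iff.1 h.symm)) z, map_zero, mul_zero]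

end

section

variable {K : Type u} [CommRing K] {p m : ℕ} (L : LD K p m) {G : Type v} [Group G] {n : ℕ} {c : G}

theorem T_dlt_mk {B : Type u} [CommRing B] {D : Type v} [Group D] [IsCyclic D] (x : D)
    (a : IdemMat (MonoidAlgebra B D)) :
    T (dlt B x) (dlt_comm _ x) (K0.mk a) = (trace a.mat).coeff x := by
  rw [T, K0.tr_mk]
  induction trace a.mat using MonoidAlgebra.induction_linear with
  | zero => rw [map_zero]; rfl
  | add y y' hy hy' => rw [map_add, hy, hy']; rfl
  | single g r =>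
    rw [clsFun_single, MonoidAlgebra.coeff_single]
    by_cases hg : g = x
    · subst hg
      rw [dlt_self, mul_one, Finsupp.single_eq_same]
    · rw [dlt_ne _ hg, mul_zero, Finsupp.single_eq_of_ne (Ne.symm hg)]

/-- **The value on the symbols.** -/
theorem trT_sym {Λ : Type u} [CommRing Λ] (tf : ∀ (a : ℤ) (x : Λ), a ≠ 0 → (a : Λ) * x = 0 → x = 0)
    (th : Λ →+* L.B) (ν : (Fin (p ^ m) → G) → Subgroup.centralizer ({c} : Set G) →₀ ℤ) (D₀ : ℤ)
    (hD₀ : D₀ ≠ 0) (h1 : ∀ v, mass (ν v) = D₀)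
    (h2 : ∀ (z : Subgroup.centralizer ({c} : Set G)) (v : Fin (p ^ m) → G),
      ν (lmul (z : G) v) = (ν v).mapDomain fun y => z * y)
    (h3 : ∀ v, ν (sig (p ^ m) c v) = ν v)
    {φ : (Fin (n + 2) → Subgroup.centralizer ({c} : Set G)) → Λ}
    (hφ : IsCoc (Subgroup.centralizer ({c} : Set G)) n φ)
    (hΦ : IsPhi c fun v => th (pull ν φ v)) (D : Subgroup G) [Fintype D] [IsCyclic D]
    (hDp : ¬ p ∣ Fintype.card D) (y : K0 (MonoidAlgebra L.B D))
    (z : HG (Subgroup.centralizer (D : Set G)) n) :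
    trT L hΦ (gasm K n D.subtype (Subgroup.centralizer (D : Set G)).subtype (cent_comm' D)
      (K0.map (MonoidAlgebra.mapRingHom D L.π) y) z) =
      ((D₀ ^ (n + 2) : ℤ) : L.B) *
        ∑ x : D, th (vl hφ D x z) * T (dlt L.B x) (dlt_comm _ x) y := by
  obtain ⟨Ψ, hΨ, hav⟩ := avF_eq D hΦ
  have hN : IsUnit (((Fintype.card (Fin (p ^ m) → D) : ℤ) ^ (n + 2) : ℤ) : L.B) :=
    isUnit_card L D hDp _ _
  have hΦ' : IsPhi c (avF D fun v => th (pull ν φ v)) := isPhi_avF D hΦ
  have hΦs : IsPhi c fun v => ((Fintype.card (Fin (p ^ m) → D) : ℤ) ^ (n + 2)) •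
      (fun v => th (pull ν φ v)) v := isPhi_zsmul _ hΦ
  -- the identity of the homomorphisms in `y`
  have key : (trT L hΦ).comp (((gasm K n D.subtype (Subgroup.centralizer (D : Set G)).subtype
      (cent_comm' D)).comp (K0.map (MonoidAlgebra.mapRingHom D L.π))).flip z) =
      (AddMonoidHom.mulLeft ((D₀ ^ (n + 2) : ℤ) : L.B)).comp
        (∑ x : D, (AddMonoidHom.mulLeft (th (vl hφ D x z))).comp (T (dlt L.B x) (dlt_comm _ x))) := by
    apply K0.hom_ext
    intro a
    rw [AddMonoidHom.comp_apply, AddMonoidHom.comp_apply, AddMonoidHom.finsetSum_apply]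
    simp only [AddMonoidHom.comp_apply, AddMonoidHom.coe_mulLeft, AddMonoidHom.flip_apply]
    apply hN.mul_left_cancel
    rw [← zsmul_eq_mul, ← trT_smul L hΦ _ hΦs, ← trT_cob L hΦs hΨ hΦ' hav,
      trT_gasm L hΦ' D (avF_rinv D _) a z, Finset.mul_sum, Finset.mul_sum]
    refine Finset.sum_congr rfl fun x _ => ?_
    rw [ev_rs_avF th ν D₀ h1 h2 hφ D hΦ' x z, T_dlt_mk]
    push_cast
    ring
  have h := DFunLike.congr_fun key y
  rw [AddMonoidHom.comp_apply, AddMonoidHom.comp_apply, AddMonoidHom.finsetSum_apply] at h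
  simpa only [AddMonoidHom.comp_apply, AddMonoidHom.coe_mulLeft, AddMonoidHom.flip_apply] using h

end

end Pool.Agent.H71.FQ

end

section

/-!
# Vanishing of the functionals implies torsion
-/

set_option autoImplicit false

open Matrix
open scoped Classical

universe t u v w

namespace Pool.Agent.H71.FQ

open Pool.Agent.H71.FJ (IdemMat K0 K0.mk K0.map K0.map_map K0.push LiftSys IsPrim isPrim_map LT dlt dlt_comm cyc_comm liftK map_liftK T)
open Pool.Agent.H71.DB (BLift)
open Pool.Agent.H95.WH (FamSub conjHom FinSub)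

/-- The data which define the functionals. -/
structure Ctx (k : Type u) [Field k] (K : Type t) [Field K] (G : Type v) [Group G] where
  /-- the lifting system -/
  L : BLift K
  /-- the embedding of the field -/
  i : k →+* K
  /-- the characteristic -/
  p : ℕ
  hp : p.Prime
  hk : (p : k) = 0
  hq : L.q = p
  /-- the bound for the `p`-torsion -/
  r : ℕ
  hG : ∀ g : G, (∃ j : ℕ, g ^ p ^ j = 1) → g ^ p ^ r = 1

section Van

variable {k : Type u} [Field k] {K : Type t} [Field K] {G : Type v} [Group G] (X : Ctx k K G)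
  {n : ℕ}

/-- the ring `B m` with its projection to `K` -/
noncomputable def Ctx.ld (m : ℕ) : LD K X.p m where
  B := X.L.sys.B m
  inst := X.L.sys.inst m
  π := X.L.sys.π m
  surj := X.L.sys.surj m
  hker b hb := by
    obtain ⟨b', h⟩ := X.L.hker m b hb
    refine ⟨b', ?_⟩
    rw [X.hq, Int.cast_natCast] at h
    exact h
  hB := by
    have h := X.L.hq m
    rw [X.hq, Int.cast_natCast] at h
    exact h
  hp := X.hp

/-- the measures -/
noncomputable def Ctx.nu (m : ℕ) (c : G) (hc : IsOfFinOrder c) :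
    (Fin (X.p ^ m) → G) → Subgroup.centralizer ({c} : Set G) →₀ ℤ :=
  (exists_nu_tuple X.hp X.r X.hG m c hc).choose

/-- the mass of the measures -/
noncomputable def Ctx.d (c : G) : ℤ := ((orderOf c * X.p ^ X.r : ℕ) : ℤ)

theorem Ctx.d_ne (c : G) (hc : IsOfFinOrder c) : X.d c ≠ 0 := by
  rw [Ctx.d]
  exact_mod_cast mul_ne_zero hc.orderOf_pos.ne' (pow_ne_zero _ X.hp.ne_zero)

theorem Ctx.nu_mass (m : ℕ) (c : G) (hc : IsOfFinOrder c) (v : Fin (X.p ^ m) → G) :
    mass (X.nu m c hc v) = X.d c := (exists_nu_tuple X.hp X.r X.hG m c hc).choose_spec.1 v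

theorem Ctx.nu_mul (m : ℕ) (c : G) (hc : IsOfFinOrder c)
    (z : Subgroup.centralizer ({c} : Set G)) (v : Fin (X.p ^ m) → G) :
    X.nu m c hc (lmul (z : G) v) = (X.nu m c hc v).mapDomain fun y => z * y :=
  (exists_nu_tuple X.hp X.r X.hG m c hc).choose_spec.2.1 z v

theorem Ctx.nu_sig (m : ℕ) (c : G) (hc : IsOfFinOrder c) (v : Fin (X.p ^ m) → G) :
    X.nu m c hc (sig (X.p ^ m) c v) = X.nu m c hc v :=
  (exists_nu_tuple X.hp X.r X.hG m c hc).choose_spec.2.2 v

theorem Ctx.isPhi (m : ℕ) (c : G) (hc : IsOfFinOrder c)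
    {φ : (Fin (n + 2) → Subgroup.centralizer ({c} : Set G)) → X.L.Lam}
    (hφ : IsCoc (Subgroup.centralizer ({c} : Set G)) n φ) :
    IsPhi (B := (X.ld m).B) c fun v => X.L.th m (pull (X.nu m c hc) φ v) :=
  (isPhi_pull X.L.tf (X.nu m c hc) (X.d c) (X.d_ne c hc) (X.nu_mass m c hc) (X.nu_mul m c hc)
    (X.nu_sig m c hc) hφ).map (X.L.th m)

/-- The trace of an element for `c`, a cocycle `φ` and `m`. -/
noncomputable def Ctx.dtr (c : G) (hc : IsOfFinOrder c)
    {φ : (Fin (n + 2) → Subgroup.centralizer ({c} : Set G)) → X.L.Lam}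
    (hφ : IsCoc (Subgroup.centralizer ({c} : Set G)) n φ) (m : ℕ) :
    KQ (MonoidAlgebra k G) n →+ X.L.sys.B m :=
  (trT (X.ld m) (X.isPhi m c hc hφ)).comp (KQ.map (MonoidAlgebra.mapRingHom G X.i))

variable {X} {P : G → Prop}

variable (X)

theorem Ctx.not_dvd (D : FamSub G FinSub) [Fintype D.1] [IsCyclic D.1]
    (ho : ∀ h : D.1, (orderOf h : k) ≠ 0) : ¬ X.p ∣ Fintype.card D.1 := by
  intro h
  obtain ⟨g, hg⟩ := IsCyclic.exists_generator (α := D.1)
  have h1 : orderOf g = Fintype.card D.1 := orderOf_eq_card_of_forall_mem_zpowers hg |>.trans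
    Nat.card_eq_fintype_card
  obtain ⟨a, ha⟩ := h
  apply ho g
  rw [h1, ha, Nat.cast_mul, X.hk, zero_mul]

/-- The trace of a symbol. -/
theorem dtr_sy (D : FamSub G FinSub) [Fintype D.1] [IsCyclic D.1]
    (ho : ∀ h : D.1, (orderOf h : k) ≠ 0) (z : HG (Subgroup.centralizer (D.1 : Set G)) n)
    (c : G) (hc : IsOfFinOrder c)
    {φ : (Fin (n + 2) → Subgroup.centralizer ({c} : Set G)) → X.L.Lam}
    (hφ : IsCoc (Subgroup.centralizer ({c} : Set G)) n φ) (m : ℕ)
    (y : K0 (MonoidAlgebra k D.1)) :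
    X.dtr c hc hφ m (assemblyN k n G (sy D y z)) =
      ((X.d c ^ (n + 2) : ℤ) : X.L.sys.B m) *
        ∑ a : D.1, X.L.th m (vl hφ D.1 a z) *
          LT X.L.sys m X.i (dlt (X.L.sys.B m) a) (dlt_comm _ a) y := by
  have h1 : KQ.map (MonoidAlgebra.mapRingHom G X.i) (assemblyN k n G (sy D y z)) =
      gasm K n D.1.subtype (Subgroup.centralizer (D.1 : Set G)).subtype (cent_comm D.1)
        (K0.map (MonoidAlgebra.mapRingHom D.1 (X.ld m).π) (liftK X.L.sys m X.i D.1 y)) z := by
    rw [asmN_sy, map_gasm]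
    congr 2
    exact (map_liftK X.L.sys m X.i D.1 y).symm
  refine Eq.trans (congrArg (fun t => trT (X.ld m) (X.isPhi m c hc hφ) t) h1) ?_
  exact trT_sym (X.ld m) X.L.tf (X.L.th m) (X.nu m c hc) (X.d c) (X.d_ne c hc) (X.nu_mass m c hc)
    (X.nu_mul m c hc) (X.nu_sig m c hc) hφ (X.isPhi m c hc hφ) D.1 (X.not_dvd D ho)
    (liftK X.L.sys m X.i D.1 y) z

end Van

end Pool.Agent.H71.FQ

end
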