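import Pool.Agent.H13.TFQ.H71.FJ.Group
import Pool.Agent.H13.TFQ.M04
import Pool.Agent.H13.TFQ.M22
import Pool.Agent.H13.TFQ.M27
import Pool.Agent.H13.TFQ.M43
import Pool.Agent.H13.TFQ.M47

/-! The parts of this file: H71.KP.LogDet, H71.KP.ResP, H71.FQ.FinRings, H95.WH.PushR, H95.WH.ArtKR_1, H95.WH.TriC, H95.WH.ArtP, H71.DO.Semi. -/

section

/-!
# The logarithm of the determinant
-/

set_option autoImplicit false
set_option linter.unusedSectionVars false

open Matrix

universe u v

namespace Pool.Agent.H71.KP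

variable {p : ℕ} [hp : Fact p.Prime]

section

variable {B : Type u} [CommRing B] {ι : Type v} [Fintype ι] [DecidableEq ι] (τ : B →+ ℤ_[p])

/-- `τ ∘ tr` -/
noncomputable def ttr (τ : B →+ ℤ_[p]) (ι : Type v) [Fintype ι] : Matrix ι ι B →+ ℤ_[p] :=
  τ.comp (Matrix.traceAddMonoidHom ι B)

theorem ttr_apply (W : Matrix ι ι B) : ttr τ ι W = τ (trace W) := rfl

theorem ttr_comm (V W : Matrix ι ι B) : ttr τ ι (V * W) = ttr τ ι (W * V) := by
  rw [ttr_apply, ttr_apply, trace_mul_comm]

omit hp in
theorem natCast_mul_eq_smul (n : ℕ) (X : Matrix ι ι B) : (n : Matrix ι ι B) * X = (n : B) • X := by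
  rw [← nsmul_eq_mul, Nat.cast_smul_eq_nsmul]

omit hp in
theorem det_one_add_nat (n : ℕ) (X : Matrix ι ι B) :
    ∃ y : B, det (1 + (n : Matrix ι ι B) * X) = 1 + (n : B) * (trace X + (n : B) * y) := by
  have h := det_one_add_smul (n : B) X
  rw [natCast_mul_eq_smul]
  exact ⟨(det (1 + (Polynomial.X : Polynomial B) • X.map Polynomial.C)).divX.divX.eval (n : B),
    by rw [h]; ring⟩

omit hp in
theorem det_cong_nat (n : ℕ) {W : Matrix ι ι B} (h : Cong (n : Matrix ι ι B) W) :
    Cong (n : B) (det W) := by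
  obtain ⟨X, rfl⟩ := h
  obtain ⟨y, hy⟩ := det_one_add_nat n X
  exact ⟨_, hy⟩

/-- the defect -/
noncomputable def dd (W : Matrix ι ι B) : ℚ_[p] := L (ttr τ ι) W - L τ (det W)

theorem dd_mul {V W : Matrix ι ι B} (hV : Cong (p : Matrix ι ι B) V)
    (hW : Cong (p : Matrix ι ι B) W) : dd τ (V * W) = dd τ V + dd τ W := by
  rw [dd, dd, dd, det_mul, L_mul (ttr τ ι) (ttr_comm τ) cen_p hV hW,
    L_mul τ (fun a b => by rw [mul_comm]) cen_p (det_cong_nat p hV) (det_cong_nat p hW)]
  ring

theorem dd_one : dd τ (1 : Matrix ι ι B) = 0 := by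
  rw [dd, det_one, L_one, L_one, sub_zero]

theorem dd_pow {W : Matrix ι ι B} (hW : Cong (p : Matrix ι ι B) W) (k : ℕ) :
    Cong (p : Matrix ι ι B) (W ^ k) ∧ dd τ (W ^ k) = k * dd τ W := by
  induction k with
  | zero => exact ⟨by rw [pow_zero]; exact Cong.one _, by simp [dd_one]⟩
  | succ k ih =>
    rw [pow_succ]
    refine ⟨ih.1.mul hW, ?_⟩
    rw [dd_mul τ ih.1 hW, ih.2]
    push_cast
    ring

end

theorem pow_form {R : Type u} [Ring R] (x : R) (k : ℕ) :
    ∃ y : R, (1 + (p : R) * x) ^ p ^ k = 1 + (p : R) ^ (k + 1) * y := by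
  induction k with
  | zero => exact ⟨x, by simp⟩
  | succ k ih =>
    obtain ⟨y, hy⟩ := ih
    obtain ⟨r, hr⟩ := Commute.exists_add_pow_prime_eq hp.out
      (show Commute (1 : R) ((p : R) ^ (k + 1) * y) from Commute.one_left _)
    have e1 : ((p : R) ^ (k + 1) * y) ^ p = (p : R) ^ (k + 1 + 1) *
        ((p : R) ^ ((k + 1) * p - (k + 1 + 1)) * y ^ p) := by
      have h2 := hp.out.two_le
      have h3 : k + 1 + 1 ≤ (k + 1) * p := by nlinarith
      rw [((Nat.cast_commute p y).pow_left (k + 1)).mul_pow, ← pow_mul, ← mul_assoc, ← pow_add,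
        Nat.add_sub_cancel' h3]
    refine ⟨(p : R) ^ ((k + 1) * p - (k + 1 + 1)) * y ^ p + y * r, ?_⟩
    rw [pow_succ, pow_mul, hy, hr, one_pow, e1, mul_one, mul_add, pow_succ' (p : R) (k + 1),
      add_assoc]
    simp only [mul_assoc]

section

variable {B : Type u} [CommRing B] {ι : Type v} [Fintype ι] [DecidableEq ι] (τ : B →+ ℤ_[p])

theorem norm_sub_max (a b : ℚ_[p]) : ‖a - b‖ ≤ max ‖a‖ ‖b‖ := by
  rw [sub_eq_add_neg, ← norm_neg b]
  exact IsUltrametricDist.norm_add_le_max _ _

theorem norm_dd_le (k : ℕ) (Y : Matrix ι ι B) :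
    ‖dd τ (1 + (p : Matrix ι ι B) ^ (k + 1) * Y)‖ ≤ ((p : ℝ) ^ (2 * k))⁻¹ := by
  obtain ⟨y, hy⟩ := det_one_add_nat (p ^ (k + 1)) Y
  rw [Nat.cast_pow, Nat.cast_pow] at hy
  rw [dd, hy, L_one_add, L_one_add]
  have h1 := norm_tl_sub_le (ttr τ ι) Y k
  have h2 := norm_tl_sub_le τ (trace Y + (p : B) ^ (k + 1) * y) k
  have h3 : ‖((p ^ (2 * k) * (p ^ 2 * τ y) : ℤ_[p]) : ℚ_[p])‖ ≤ ((p : ℝ) ^ (2 * k))⁻¹ :=
    norm_le_of_dvd (dvd_mul_right _ _)
  have e : tl (ttr τ ι) ((p : Matrix ι ι B) ^ (k + 1) * Y) -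
      tl τ ((p : B) ^ (k + 1) * (trace Y + (p : B) ^ (k + 1) * y)) =
      ((tl (ttr τ ι) ((p : Matrix ι ι B) ^ (k + 1) * Y) -
        ((p ^ (k + 1) * ttr τ ι Y : ℤ_[p]) : ℚ_[p])) -
      (tl τ ((p : B) ^ (k + 1) * (trace Y + (p : B) ^ (k + 1) * y)) -
        ((p ^ (k + 1) * τ (trace Y + (p : B) ^ (k + 1) * y) : ℤ_[p]) : ℚ_[p]))) -
      ((p ^ (2 * k) * (p ^ 2 * τ y) : ℤ_[p]) : ℚ_[p]) := by
    rw [map_add, map_p_pow_mul, ttr_apply]
    push_cast
    ring
  rw [e]
  refine (norm_sub_max _ _).trans (max_le ?_ h3)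
  exact (norm_sub_max _ _).trans (max_le h1 h2)

theorem norm_p_pow (k : ℕ) : ‖(p : ℚ_[p]) ^ k‖ = ((p : ℝ) ^ k)⁻¹ := by
  rw [norm_pow, Padic.norm_p, inv_pow]

/-- `tr log = log det` -/
theorem dd_eq_zero {W : Matrix ι ι B} (hW : Cong (p : Matrix ι ι B) W) : dd τ W = 0 := by
  have hp2 : (2 : ℝ) ≤ p := by exact_mod_cast hp.out.two_le
  have hp0 : (0 : ℝ) < p := by linarith
  rw [← norm_eq_zero]
  by_contra hne
  have hpos : 0 < ‖dd τ W‖ := lt_of_le_of_ne (norm_nonneg _) (Ne.symm hne)
  have h1 : ∀ k : ℕ, ‖dd τ W‖ ≤ ((1 : ℝ) / 2) ^ k := by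
    intro k
    have h2 := (dd_pow τ hW (p ^ k)).2
    obtain ⟨X, rfl⟩ := hW
    obtain ⟨Y, hY⟩ := pow_form (p := p) X k
    have h3 := norm_dd_le τ k Y
    rw [← hY, h2, norm_mul, Nat.cast_pow, norm_p_pow] at h3
    have hp' : (0 : ℝ) < (p : ℝ) ^ k := by positivity
    have h4 : ((p : ℝ) ^ k) * (((p : ℝ) ^ k)⁻¹ * ‖dd τ (1 + (p : Matrix ι ι B) * X)‖) ≤
        (p : ℝ) ^ k * (((p : ℝ) ^ (2 * k))⁻¹) := mul_le_mul_of_nonneg_left h3 hp'.le
    rw [← mul_assoc, mul_inv_cancel₀ hp'.ne', one_mul] at h4
    refine h4.trans ?_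
    have e : (p : ℝ) ^ (2 * k) = p ^ k * p ^ k := by rw [two_mul, pow_add]
    rw [e, mul_inv, ← mul_assoc, mul_inv_cancel₀ hp'.ne', one_mul, one_div, inv_pow]
    exact inv_anti₀ (by positivity) (pow_le_pow_left₀ (by norm_num) hp2 k)
  obtain ⟨k, hk⟩ := exists_pow_lt_of_lt_one hpos (show (1 : ℝ) / 2 < 1 by norm_num)
  have := h1 k
  linarith

theorem L_det {W : Matrix ι ι B} (hW : Cong (p : Matrix ι ι B) W) :
    L τ (det W) = L (ttr τ ι) W := by
  have := dd_eq_zero τ hW
  rw [dd] at this
  exact (sub_eq_zero.1 this).symm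

end

end Pool.Agent.H71.KP

end

section

/-!
# The logarithm of the restriction
-/

set_option autoImplicit false
set_option linter.unusedSectionVars false
set_option linter.unusedSimpArgs false

open Matrix
open scoped Classical

universe u v w t

namespace Pool.Agent.H71.KP

variable {p : ℕ} [hp : Fact p.Prime] {H : Type w} [CommGroup H] [Finite H]

theorem tr_resR (E : Subgroup H) [Fintype (H ⧸ E)] (c : E) (x : MonoidAlgebra ℤ_[p] H) :
    fn (dlt p c) (trace (resR ℤ_[p] E x)) = (Nat.card (H ⧸ E) : ℤ_[p]) * fn (dlt p (c : H)) x := by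
  induction x using MonoidAlgebra.induction_linear with
  | zero => simp
  | add x y hx hy => rw [map_add, trace_add, map_add, hx, hy, map_add, mul_add]
  | single h n =>
    rw [fn_single, trace, map_sum]
    have h1 : ∀ q : H ⧸ E, fn (dlt p c) ((resR ℤ_[p] E (MonoidAlgebra.single h n)).diag q) =
        n * dlt p (c : H) h := by
      intro q
      change fn (dlt p c) (resA ℤ_[p] E (MonoidAlgebra.single h n) q q) = _
      rw [resA_single]
      have h2 : q.out⁻¹ * h * q.out = h := by
        rw [mul_comm, ← mul_assoc, mul_inv_cancel, one_mul]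
      by_cases hh : q.out⁻¹ * h * q.out ∈ E
      · rw [dif_pos hh, fn_single]
        congr 1
        unfold dlt
        congr 1
        rw [Subtype.ext_iff]
        change (q.out⁻¹ * h * q.out = (c : H)) = (h = (c : H))
        rw [h2]
      · rw [dif_neg hh, map_zero, dlt, if_neg, mul_zero]
        intro h3
        apply hh
        rw [h2, h3]
        exact c.2
    simp only [h1]
    rw [Finset.sum_const, Finset.card_univ, Nat.card_eq_fintype_card, nsmul_eq_mul]

theorem det_C3 {B : Type u} [CommRing B] {ι : Type v} [Fintype ι] [DecidableEq ι]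
    {W : Matrix ι ι B} (h : C3 p W) : C3 p (det W) := det_cong_nat (p ^ 3) h

theorem LU_resU (E : Subgroup H) [Fintype (H ⧸ E)] (c : E) (x : (MonoidAlgebra ℤ_[p] H)ˣ) :
    LU (dlt p c) (resU E x) = (Nat.card (H ⧸ E) : ℚ_[p]) * LU (dlt p (c : H)) x := by
  have h1 : ((resU E x ^ NP p H : (MonoidAlgebra ℤ_[p] E)ˣ) : MonoidAlgebra ℤ_[p] E) =
      det (resR ℤ_[p] E ((x ^ NP p H : (MonoidAlgebra ℤ_[p] H)ˣ) : MonoidAlgebra ℤ_[p] H)) := by
    rw [← map_pow, resU_val]
  have h2 : C3 p (resR ℤ_[p] E ((x ^ NP p H : (MonoidAlgebra ℤ_[p] H)ˣ) :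
      MonoidAlgebra ℤ_[p] H)) := (C3_pow_NP x).map _
  have h3 : LU (dlt p c) (resU E x) = (NP p H : ℚ_[p])⁻¹ *
      L (fnA (dlt p c)) ((resU E x ^ NP p H : (MonoidAlgebra ℤ_[p] E)ˣ) :
        MonoidAlgebra ℤ_[p] E) :=
    LU_eq (dlt p c) (fun a b => by rw [mul_comm]) _ (NP p H) NP_ne_zero (by
      rw [h1]
      exact det_C3 h2)
  rw [h3, h1, LU]
  have h4 := L_det (fnA (dlt p c)) h2.cong
  have h5 : L (fnA (dlt p c)) (det (resR ℤ_[p] E ((x ^ NP p H : (MonoidAlgebra ℤ_[p] H)ˣ) :
      MonoidAlgebra ℤ_[p] H))) = (Nat.card (H ⧸ E) : ℚ_[p]) *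
      L (fnA (dlt p (c : H))) ((x ^ NP p H : (MonoidAlgebra ℤ_[p] H)ˣ) :
        MonoidAlgebra ℤ_[p] H) := by
    refine h4.trans ?_
    rw [L_map, L, L]
    have h6 := tl_mul_fun (fnA (dlt p (c : H)))
      (pull (resR ℤ_[p] E) (ttr (fnA (dlt p c)) (H ⧸ E)))
      (((x ^ NP p H : (MonoidAlgebra ℤ_[p] H)ˣ) : MonoidAlgebra ℤ_[p] H) - 1)
      (Nat.card (H ⧸ E) : ℤ_[p]) (by
        intro r
        rw [pull_apply, ttr_apply]
        exact tr_resR E c r)
    rw [h6]
    norm_cast
  rw [h5]
  ring

end Pool.Agent.H71.KP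

end

section

/-!
# Rational injectivity for finite rings and finite-dimensional algebras

`main_fd`: finite-dimensional algebras over fields of positive characteristic. `main_nil`: rings with a surjection with
nilpotent kernel onto a finite product of such algebras. `main_finite`: finite rings.
-/

set_option autoImplicit false

open Matrix

universe u v

namespace Pool.Agent.H71.FQ

/-- The conditions on the group for the prime `p` and the degree `n`. -/
structure CondP (p : ℕ) [Fact p.Prime] (G : Type v) [Group G] (n : ℕ) : Prop where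
  /-- the orders of the elements of order a power of `p` are bounded -/
  tors : ∃ r : ℕ, ∀ g : G, (∃ j : ℕ, g ^ p ^ j = 1) → g ^ p ^ r = 1
  /-- the homology of the centralizers is separated -/
  sep : ∀ C : Subgroup G, Finite C → IsCyclic C → ¬ p ∣ Nat.card C →
    PSep p (Subgroup.centralizer (C : Set G)) n

end Pool.Agent.H71.FQ

end

section

/-!
# The permutation representations and `K₁` of group rings over commutative rings
-/

set_option autoImplicit false

open Matrix
open scoped Classical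

universe u v w

namespace Pool.Agent.H95.WH

open Pool.Agent.H71.FJ (lamR twR incl)
open Pool.Agent.H71.FJ (tw lam tw_single lam_single out_mem_iff)

variable {F : Type v} [Group F] (R : Type u) [CommRing R]

theorem push_tw_sigmaR {I : Type} [Fintype I] (D : I → Subgroup F) [∀ i, Fintype (F ⧸ D i)]
    [Fintype (Σ i, F ⧸ D i)] [DecidableEq (Σ i, F ⧸ D i)] (x : K1 (MonoidAlgebra R F)) :
    K1.push (twR R (Σ i, F ⧸ D i)) x = ∑ i, K1.push (twR R (F ⧸ D i)) x := by
  apply K1.push_blk
  intro r
  induction r using MonoidAlgebra.induction_linear with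
  | zero =>
    simp only [map_zero]
    exact (Matrix.blockDiagonal'_zero).symm
  | add a b ha hb =>
    simp only [map_add]
    rw [ha, hb]
    exact (Matrix.blockDiagonal'_add _ _).symm
  | single h r =>
    ext ⟨i, x⟩ ⟨j, y⟩ : 1
    change tw R (Σ i, F ⧸ D i) (MonoidAlgebra.single h r) ⟨i, x⟩ ⟨j, y⟩ = _
    rw [tw_single]
    by_cases hij : i = j
    · subst hij
      rw [Matrix.blockDiagonal'_apply_eq]
      change _ = tw R (F ⧸ D i) (MonoidAlgebra.single h r) x y
      rw [tw_single]
      by_cases hxy : x = h • y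
      · rw [if_pos hxy, if_pos]
        rw [hxy]
        rfl
      · rw [if_neg hxy, if_neg]
        intro e
        apply hxy
        have e2 : (⟨i, x⟩ : Σ i, F ⧸ D i) = ⟨i, h • y⟩ := e
        exact eq_of_heq (Sigma.mk.inj e2).2
    · rw [Matrix.blockDiagonal'_apply_ne _ _ _ hij, if_neg]
      intro e
      exact hij (congrArg Sigma.fst e)

theorem push_tw_topR [Fintype (F ⧸ (⊤ : Subgroup F))] (x : K1 (MonoidAlgebra R F)) :
    K1.push (twR R (F ⧸ (⊤ : Subgroup F))) x = x := by
  have key : (K1.push (twR R (F ⧸ (⊤ : Subgroup F))) :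
      K1 (MonoidAlgebra R F) →+ K1 (MonoidAlgebra R F)) = AddMonoidHom.id _ := by
    apply K1.hom_ext
    intro n U
    rw [K1.push_mk, AddMonoidHom.id_apply, ← K1.cls_mk]
    have hsub : Subsingleton (F ⧸ (⊤ : Subgroup F)) := QuotientGroup.subsingleton_quotient_top
    let u0 : F ⧸ (⊤ : Subgroup F) := ((1 : F) : F ⧸ (⊤ : Subgroup F))
    let e : Fin n × (F ⧸ (⊤ : Subgroup F)) ≃ Fin n :=
      { toFun := Prod.fst
        invFun := fun i => (i, u0)
        left_inv := fun x => Prod.ext rfl (Subsingleton.elim _ _)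
        right_inv := fun i => rfl }
    have hval : ∀ (r : MonoidAlgebra R F) (x y : F ⧸ (⊤ : Subgroup F)),
        twR R (F ⧸ (⊤ : Subgroup F)) r x y = r := by
      intro r x y
      induction r using MonoidAlgebra.induction_linear with
      | zero => rw [map_zero]; rfl
      | add a b ha hb => rw [map_add, Matrix.add_apply, ha, hb]
      | single h r =>
        change tw R (F ⧸ (⊤ : Subgroup F)) (MonoidAlgebra.single h r) x y = _
        rw [tw_single, if_pos (Subsingleton.elim _ _)]
    rw [← K1.cls_reindex e]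
    congr 1
    apply Units.ext
    rw [reU_val]
    refine Matrix.ext fun i j => ?_
    exact hval _ _ _
  rw [key]
  rfl

theorem ind_res1R (D : Subgroup F) [Fintype (F ⧸ D)] (x : K1 (MonoidAlgebra R F)) :
    K1.map (incl R D) (K1.push (lamR R D) x) = K1.push (twR R (F ⧸ D)) x := by
  rw [K1.map_push]
  symm
  refine K1.push_congr _ _ (diagonal fun x : F ⧸ D => MonoidAlgebra.single x.out (1 : R))
    (diagonal fun x : F ⧸ D => MonoidAlgebra.single x.out⁻¹ (1 : R)) ?_ ?_ ?_ x
  · rw [diagonal_mul_diagonal]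
    simp only [MonoidAlgebra.single_mul_single, mul_inv_cancel, one_mul, ← MonoidAlgebra.one_def]
    exact diagonal_one
  · rw [diagonal_mul_diagonal]
    simp only [MonoidAlgebra.single_mul_single, inv_mul_cancel, one_mul, ← MonoidAlgebra.one_def]
    exact diagonal_one
  · intro r
    induction r using MonoidAlgebra.induction_linear with
    | zero => simp
    | add a b ha hb => rw [map_add, map_add, Matrix.mul_add, Matrix.add_mul, ha, hb]
    | single h r =>
      ext x y : 1
      rw [Matrix.diagonal_mul, Matrix.mul_diagonal]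
      change tw R (F ⧸ D) (MonoidAlgebra.single h r) x y * _ =
        _ * (incl R D) (lam R D (MonoidAlgebra.single h r) x y)
      rw [lam_single, tw_single]
      by_cases hh : x.out⁻¹ * h * y.out ∈ D
      · rw [dif_pos hh, if_pos ((out_mem_iff D h x y).1 hh)]
        simp only [incl, MonoidAlgebra.mapDomainRingHom_apply, MonoidAlgebra.mapDomain_single,
          MonoidAlgebra.single_mul_single, Subgroup.coe_subtype, one_mul, mul_one]
        congr 1
        group
      · rw [dif_neg hh, if_neg (fun h' => hh ((out_mem_iff D h x y).2 h')), map_zero, mul_zero,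
          zero_mul]

end Pool.Agent.H95.WH

end

section

/-!
# Artin induction for `K₁(R[F]) ⊗ ℚ`

`R` is a commutative ring such that `R/nR` is finite for all `n ≥ 1`.
-/

set_option autoImplicit false

open Matrix
open scoped Classical

universe u v w

namespace Pool.Agent.H95.WH

open Pool.Agent.H71.FJ (lamR twR incl)
open Pool.Agent.H71.FJ (tw tw_single)

variable (R : Type u) [CommRing R] (F : Type v) [Group F]

theorem twR_inter {X Y : Type v} [Fintype X] [Fintype Y] [DecidableEq X] [DecidableEq Y]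
    [MulAction F X] [MulAction F Y]
    (a : Matrix X Y ℤ) (ha : ∀ (h : F) x y, a (h • x) (h • y) = a x y)
    (r : MonoidAlgebra R F) :
    twR R X r * a.map (Int.castRingHom (MonoidAlgebra R F)) =
      a.map (Int.castRingHom (MonoidAlgebra R F)) * twR R Y r := by
  induction r using MonoidAlgebra.induction_linear with
  | zero => rw [map_zero, map_zero, Matrix.zero_mul, Matrix.mul_zero]
  | add s t hs ht => rw [map_add, map_add, Matrix.add_mul, Matrix.mul_add, hs, ht]
  | single h r =>
    refine Matrix.ext fun x y => ?_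
    rw [Matrix.mul_apply, Matrix.mul_apply]
    have e1 : ∀ z : X, twR R X (MonoidAlgebra.single h r) x z =
        if x = h • z then MonoidAlgebra.single h r else 0 := fun z => tw_single R X h r x z
    have e2 : ∀ z : Y, twR R Y (MonoidAlgebra.single h r) z y =
        if z = h • y then MonoidAlgebra.single h r else 0 := fun z => tw_single R Y h r z y
    rw [Finset.sum_eq_single (h⁻¹ • x), Finset.sum_eq_single (h • y)]
    · rw [e1, e2, if_pos rfl, if_pos (smul_inv_smul h x).symm, Matrix.map_apply, Matrix.map_apply,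
        ← ha h (h⁻¹ • x) y, smul_inv_smul]
      change _ * ((a x (h • y) : ℤ) : MonoidAlgebra R F) =
        ((a x (h • y) : ℤ) : MonoidAlgebra R F) * _
      exact (Int.cast_commute _ _).symm.eq
    · intro z _ hz
      rw [e2, if_neg hz, mul_zero]
    · intro hz
      exact absurd (Finset.mem_univ _) hz
    · intro z _ hz
      rw [e1, if_neg, zero_mul]
      intro e
      exact hz (by rw [e, inv_smul_smul])
    · intro hz
      exact absurd (Finset.mem_univ _) hz

/-- Families indexed by a finite type. -/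
private theorem art_enum {K : Type} [Fintype K] (D : K → Subgroup F)
    (y : ∀ i, K1 (MonoidAlgebra R (D i))) (hD : ∀ i, IsCyclic (D i)) (z : K1 (MonoidAlgebra R F))
    (hz : z = ∑ i, K1.map (incl R (D i)) (y i)) :
    ∃ (r : ℕ) (D : Fin r → Subgroup F) (y : ∀ i, K1 (MonoidAlgebra R (D i))),
      (∀ i, IsCyclic (D i)) ∧ z = ∑ i, K1.map (incl R (D i)) (y i) :=
  ⟨Fintype.card K, fun i => D ((Fintype.equivFin K).symm i),
    fun i => y ((Fintype.equivFin K).symm i), fun i => hD _, by
      rw [hz]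
      exact (Equiv.sum_comp (Fintype.equivFin K).symm
        (fun i => K1.map (incl R (D i)) (y i))).symm⟩

private theorem inter_tw {X Y : Type v} [Fintype X] [Fintype Y] [DecidableEq X] [DecidableEq Y]
    [MulAction F X] [MulAction F Y]
    (hpow : PowMod (MonoidAlgebra R F)) (n : ℕ) (hn : n ≠ 0) (a : Matrix X Y ℤ) (b : Matrix Y X ℤ)
    (hab : a * b = (n : ℤ) • (1 : Matrix X X ℤ)) (hba : b * a = (n : ℤ) • (1 : Matrix Y Y ℤ))
    (ha : ∀ (h : F) x y, a (h • x) (h • y) = a x y) (x : K1 (MonoidAlgebra R F)) :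
    ∃ m : ℕ, 0 < m ∧ m • K1.push (twR R X) x = m • K1.push (twR R Y) x :=
  inter (R := MonoidAlgebra R F) (S := MonoidAlgebra R F) (twR R X) (twR R Y) (n : ℤ) a b hab hba
    (twR_inter R F a ha) (fun k U => hpow n hn k U) x

/-- Rationally isomorphic permutation lattices act in the same way up to torsion. -/
def InterP : Prop :=
  ∀ {X Y : Type v} [Fintype X] [Fintype Y] [DecidableEq X] [DecidableEq Y]
    [MulAction F X] [MulAction F Y] (n : ℕ) (_ : n ≠ 0) (a : Matrix X Y ℤ) (b : Matrix Y X ℤ)
    (_ : a * b = (n : ℤ) • (1 : Matrix X X ℤ)) (_ : b * a = (n : ℤ) • (1 : Matrix Y Y ℤ))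
    (_ : ∀ (h : F) x y, a (h • x) (h • y) = a x y) (x : K1 (MonoidAlgebra R F)),
    ∃ m : ℕ, 0 < m ∧ m • K1.push (twR R X) x = m • K1.push (twR R Y) x

/-- the relation for the permutation modules -/
private theorem art_rel [Finite F] (hint : InterP R F)
    (x : K1 (MonoidAlgebra R F)) :
    ∃ (I J : Type) (_ : Fintype I) (_ : Fintype J) (D : I → Subgroup F) (E : J → Subgroup F)
      (_ : ∀ i, Fintype (F ⧸ D i)) (_ : ∀ j, Fintype (F ⧸ E j)) (m : ℕ),
      (∀ i, IsCyclic (D i)) ∧ (∀ j, IsCyclic (E j)) ∧ 0 < m ∧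
      m • (Nat.card F • x + ∑ i : I, K1.push (twR R (F ⧸ D i)) x) =
        m • ∑ j : J, K1.push (twR R (F ⧸ E j)) x := by
  obtain ⟨I, J, hI, hJ, D, E, hf1, hf2, a, b, n, hD, hE, hn, hab, hba, ha⟩ := exists_artin_rel F
  have hfD : ∀ H : Subgroup F, Fintype (F ⧸ H) := fun H => Fintype.ofFinite _
  obtain ⟨m, hm, key⟩ := hint n hn a b hab hba ha x
  refine ⟨I, J, hI, hJ, D, E, fun _ => hfD _, fun _ => hfD _, m, hD, hE, hm, ?_⟩
  rw [push_tw_sigmaR R (fun i : Fin (Nat.card F) ⊕ I => (Sum.elim (fun _ => ⊤) D i : Subgroup F)),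
    push_tw_sigmaR R E, Fintype.sum_sum_type] at key
  have h1 : ∑ i : Fin (Nat.card F), K1.push (twR R (F ⧸ (⊤ : Subgroup F))) x = Nat.card F • x := by
    rw [Finset.sum_const, Finset.card_univ, Fintype.card_fin, push_tw_topR]
  rw [← h1]
  exact key

theorem artin_K1_of_inter [Finite F] (hint : InterP R F)
    (x : K1 (MonoidAlgebra R F)) :
    ∃ (m r : ℕ) (D : Fin r → Subgroup F) (y : ∀ i, K1 (MonoidAlgebra R (D i))),
      0 < m ∧ (∀ i, IsCyclic (D i)) ∧ m • x = ∑ i, K1.map (incl R (D i)) (y i) := by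
  obtain ⟨I, J, hI, hJ, D, E, hfD, hfE, m, hD, hE, hm, key⟩ := art_rel R F hint x
  obtain ⟨r, DD, y, h1, h2⟩ := art_enum R F (K := J ⊕ I) (Sum.elim E D)
    (fun i => match i with
      | Sum.inl j => m • K1.push (lamR R (E j)) x
      | Sum.inr i => -(m • K1.push (lamR R (D i)) x))
    (by
      rintro (i | i)
      · exact hE i
      · exact hD i) ((m * Nat.card F) • x) (by
      rw [Fintype.sum_sum_type]
      have h4 : ∀ j : J, K1.map (incl R (E j)) (m • K1.push (lamR R (E j)) x) =
          m • K1.push (twR R (F ⧸ E j)) x := by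
        intro j
        rw [map_nsmul, ind_res1R]
      have h5 : ∀ j : I, K1.map (incl R (D j)) (-(m • K1.push (lamR R (D j)) x)) =
          -(m • K1.push (twR R (F ⧸ D j)) x) := by
        intro j
        rw [map_neg, map_nsmul, ind_res1R]
      refine Eq.trans ?_ (congrArg₂ (· + ·) (Finset.sum_congr rfl (fun j _ => (h4 j).symm))
        (Finset.sum_congr rfl (fun j _ => (h5 j).symm)))
      rw [Finset.sum_neg_distrib, ← Finset.smul_sum, ← Finset.smul_sum, ← key, smul_add, mul_smul]
      abel)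
  exact ⟨m * Nat.card F, r, DD, y, Nat.mul_pos hm Nat.card_pos, h1, h2⟩

theorem artin_K1_of_pow [Finite F] (hpow : PowMod (MonoidAlgebra R F))
    (x : K1 (MonoidAlgebra R F)) :
    ∃ (m r : ℕ) (D : Fin r → Subgroup F) (y : ∀ i, K1 (MonoidAlgebra R (D i))),
      0 < m ∧ (∀ i, IsCyclic (D i)) ∧ m • x = ∑ i, K1.map (incl R (D i)) (y i) :=
  artin_K1_of_inter R F
    (fun n hn a b hab hba ha x => inter_tw R F hpow n hn a b hab hba ha x) x

/-- **Artin induction** for `K₁(R[F]) ⊗ ℚ`, `R` commutative, `R/nR` finite for all `n ≥ 1`. -/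
theorem artin_K1R [Finite F] (hR : ∀ n : ℕ, n ≠ 0 → Finite (R ⧸ Ideal.span {(n : R)}))
    (x : K1 (MonoidAlgebra R F)) :
    ∃ (m r : ℕ) (D : Fin r → Subgroup F) (y : ∀ i, K1 (MonoidAlgebra R (D i))),
      0 < m ∧ (∀ i, IsCyclic (D i)) ∧ m • x = ∑ i, K1.map (incl R (D i)) (y i) :=
  artin_K1_of_pow R F (powMod_of_finite R F hR) x

/-- The case of a field of characteristic zero. -/
theorem artin_K1_field (k : Type u) [Field k] [CharZero k] [Finite F]
    (x : K1 (MonoidAlgebra k F)) :
    ∃ (m r : ℕ) (D : Fin r → Subgroup F) (y : ∀ i, K1 (MonoidAlgebra k (D i))),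
      0 < m ∧ (∀ i, IsCyclic (D i)) ∧ m • x = ∑ i, K1.map (incl k (D i)) (y i) := by
  apply artin_K1R k F
  intro n hn
  have h : Ideal.span {(n : k)} = ⊤ := by
    rw [Ideal.span_singleton_eq_top]
    exact (Nat.cast_ne_zero.2 hn).isUnit
  rw [h]
  have : Subsingleton (k ⧸ (⊤ : Ideal k)) := Ideal.Quotient.subsingleton_iff.2 rfl
  infer_instance

end Pool.Agent.H95.WH

end

section

/-!
# Block triangular invertible matrices

Two invertible matrices over a (non commutative) ring, one block upper triangular and one block lower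
triangular with respect to a function `v`, with the same diagonal blocks, have the same class in `K₁`.

## Paper proof

It is enough to prove: (*) if `U` is invertible, `U` and `U⁻¹` block upper triangular with respect to `v`
(`U i j = 0` for `v j < v i`), then the matrix `D` with `D i j = U i j` for `v i = v j` and `0` otherwise is
invertible, with inverse the corresponding part of `U⁻¹`, and `cls U = cls D`. The lower triangular case is (*)
for `v' i = N - v i`, `N` a bound of `v`.

`D` is invertible: for `v i = v j`, `(U U⁻¹) i j = ∑_k U i k U⁻¹ k j` and the terms with `v k ≠ v i` vanish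
(`U i k = 0` for `v k < v i`, `U⁻¹ k j = 0` for `v k > v j`).

`E = D⁻¹ U` is unipotent: `E i j = 0` for `v j < v i`, and `E i j = δ i j` for `v i = v j`, and the same holds for
`E⁻¹`. Claim: `cls E = 0`, by induction on the cardinality of the index type (any finite type; statement for all
unipotent `E` with unipotent inverse). If the index type is empty, `E = 1`. Otherwise choose `i₀` with `v i₀`
maximal. The row `i₀` of `E` is `δ`, so after the reindexing `ι ≃ {i // i ≠ i₀} ⊕ {i // i = i₀}` (or
`Equiv.sumCompl`) `E = fromBlocks E' C 0 1`, and the inverse has the same shape. `E'` is invertible and unipotent,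
and `cls E = cls E'` by a lemma of `K1B` on block triangular matrices (`cls_stab`, `cls_upper`, `cls_lower`, ...)
or directly: `fromBlocks E' C 0 1 = fromBlocks 1 C 0 1 * fromBlocks E' 0 0 1`.
-/

set_option autoImplicit false

open Matrix

universe u

namespace Pool.Agent.H95.WH

variable {R : Type u} [Ring R]

/-- The block diagonal part of a matrix. -/
private def dpart {ι : Type*} (v : ι → ℕ) (M : Matrix ι ι R) : Matrix ι ι R :=
  Matrix.of fun i j => if v i = v j then M i j else 0

private theorem dpart_apply {ι : Type*} (v : ι → ℕ) (M : Matrix ι ι R) (i j : ι) :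
    dpart v M i j = if v i = v j then M i j else 0 := rfl

private theorem dpart_mul {ι : Type*} [Fintype ι] (v : ι → ℕ) (M N : Matrix ι ι R)
    (hM : ∀ i j, v j < v i → M i j = 0) (hN : ∀ i j, v j < v i → N i j = 0) :
    dpart v (M * N) = dpart v M * dpart v N := by
  ext i j
  rw [dpart_apply, Matrix.mul_apply, Matrix.mul_apply]
  by_cases hij : v i = v j
  · rw [if_pos hij]
    refine Finset.sum_congr rfl fun k _ => ?_
    rw [dpart_apply, dpart_apply]
    rcases lt_trichotomy (v k) (v i) with h | h | h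
    · rw [if_neg (ne_of_gt h), hM i k h, zero_mul, zero_mul]
    · rw [if_pos h.symm, if_pos (h.trans hij)]
    · rw [if_neg (ne_of_lt h), zero_mul, hN k j (hij ▸ h), mul_zero]
  · rw [if_neg hij]
    symm
    refine Finset.sum_eq_zero fun k _ => ?_
    rw [dpart_apply, dpart_apply]
    by_cases h : v i = v k
    · have h2 : ¬ v k = v j := fun h2 => hij (h.trans h2)
      rw [if_neg h2, mul_zero]
    · rw [if_neg h, zero_mul]

private theorem dpart_one {ι : Type*} [DecidableEq ι] (v : ι → ℕ) :
    dpart v (1 : Matrix ι ι R) = 1 := by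
  ext i j
  rw [dpart_apply]
  by_cases h : i = j
  · subst h
    rw [if_pos rfl]
  · rw [Matrix.one_apply_ne h, ite_self]

private theorem dpart_dpart {ι : Type*} (v : ι → ℕ) (M : Matrix ι ι R) :
    dpart v (dpart v M) = dpart v M := by
  ext i j
  rw [dpart_apply, dpart_apply]
  by_cases h : v i = v j
  · rw [if_pos h]
  · rw [if_neg h, if_neg h]

private theorem dpart_up {ι : Type*} (v : ι → ℕ) (M : Matrix ι ι R) (i j : ι) (h : v j < v i) :
    dpart v M i j = 0 := by
  rw [dpart_apply, if_neg (ne_of_gt h)]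

private theorem mul_up {ι : Type*} [Fintype ι] (v : ι → ℕ) (M N : Matrix ι ι R)
    (hM : ∀ i j, v j < v i → M i j = 0) (hN : ∀ i j, v j < v i → N i j = 0)
    (i j : ι) (h : v j < v i) : (M * N) i j = 0 := by
  rw [Matrix.mul_apply]
  refine Finset.sum_eq_zero fun k _ => ?_
  rcases lt_or_ge (v k) (v i) with h1 | h1
  · rw [hM i k h1, zero_mul]
  · rw [hN k j (lt_of_lt_of_le h h1), mul_zero]

/-- The block diagonal part of an invertible block triangular matrix, invertible. -/
private def dU {ι : Type*} [Fintype ι] [DecidableEq ι] (v : ι → ℕ) (U : (Matrix ι ι R)ˣ)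
    (hU : ∀ i j, v j < v i → U.val i j = 0) (hUi : ∀ i j, v j < v i → U.inv i j = 0) :
    (Matrix ι ι R)ˣ where
  val := dpart v U.val
  inv := dpart v U.inv
  val_inv := by rw [← dpart_mul v _ _ hU hUi, U.val_inv, dpart_one]
  inv_val := by rw [← dpart_mul v _ _ hUi hU, U.inv_val, dpart_one]

private theorem cls_unipotent (n : ℕ) : ∀ (ι : Type*) [Fintype ι] [DecidableEq ι]
    (_ : Fintype.card ι = n) (v : ι → ℕ) (E : (Matrix ι ι R)ˣ)
    (_ : ∀ i j, v j < v i → E.val i j = 0) (_ : ∀ i j, v j < v i → E.inv i j = 0)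
    (_ : ∀ i j, v i = v j → E.val i j = (1 : Matrix ι ι R) i j)
    (_ : ∀ i j, v i = v j → E.inv i j = (1 : Matrix ι ι R) i j), K1.cls E = 0 := by
  induction n with
  | zero =>
    intro ι _ _ hc v E _ _ _ _
    have : IsEmpty ι := Fintype.card_eq_zero_iff.1 hc
    have h : E = 1 := Units.ext (Subsingleton.elim _ _)
    rw [h, K1.cls_one]
  | succ n ih =>
    intro ι _ _ hc v E h1 h2 h3 h4
    have hne : Nonempty ι := Fintype.card_pos_iff.1 (by rw [hc]; exact Nat.succ_pos n)
    obtain ⟨i₀, hi₀⟩ : ∃ i₀ : ι, ∀ j, v j ≤ v i₀ := Finite.exists_max v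
    have hrow : ∀ j, j ≠ i₀ → E.val i₀ j = 0 := by
      intro j hj
      rcases lt_or_eq_of_le (hi₀ j) with h | h
      · exact h1 _ _ h
      · rw [h3 _ _ h.symm, Matrix.one_apply_ne hj.symm]
    have hrowi : ∀ j, j ≠ i₀ → E.inv i₀ j = 0 := by
      intro j hj
      rcases lt_or_eq_of_le (hi₀ j) with h | h
      · exact h2 _ _ h
      · rw [h4 _ _ h.symm, Matrix.one_apply_ne hj.symm]
    let e : ι ≃ {i : ι // i ≠ i₀} ⊕ {i : ι // ¬ i ≠ i₀} := (Equiv.sumCompl fun i => i ≠ i₀).symm
    have hA : (reU e E).val = Matrix.fromBlocks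
        (E.val.submatrix (fun i : {i : ι // i ≠ i₀} => i.1) (fun i : {i : ι // i ≠ i₀} => i.1))
        (E.val.submatrix (fun i : {i : ι // i ≠ i₀} => i.1) (fun i : {i : ι // ¬ i ≠ i₀} => i.1))
        0 1 := by
      rw [reU_val]
      ext i j
      rcases i with i | i
      · rcases j with j | j <;> rfl
      · have hi : i.1 = i₀ := not_not.1 i.2
        rcases j with j | j
        · change E.val i.1 j.1 = 0
          rw [hi]
          exact hrow _ j.2
        · change E.val i.1 j.1 = (1 : Matrix {i : ι // ¬ i ≠ i₀} {i : ι // ¬ i ≠ i₀} R) i j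
          have hj : j.1 = i₀ := not_not.1 j.2
          have hij : i = j := Subtype.ext (hi.trans hj.symm)
          subst hij
          rw [Matrix.one_apply_eq, h3 _ _ rfl, Matrix.one_apply_eq]
    have hB : (reU e E).inv = Matrix.fromBlocks
        (E.inv.submatrix (fun i : {i : ι // i ≠ i₀} => i.1) (fun i : {i : ι // i ≠ i₀} => i.1))
        (E.inv.submatrix (fun i : {i : ι // i ≠ i₀} => i.1) (fun i : {i : ι // ¬ i ≠ i₀} => i.1))
        0 1 := by
      change E.inv.submatrix e.symm e.symm = _
      ext i j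
      rcases i with i | i
      · rcases j with j | j <;> rfl
      · have hi : i.1 = i₀ := not_not.1 i.2
        rcases j with j | j
        · change E.inv i.1 j.1 = 0
          rw [hi]
          exact hrowi _ j.2
        · change E.inv i.1 j.1 = (1 : Matrix {i : ι // ¬ i ≠ i₀} {i : ι // ¬ i ≠ i₀} R) i j
          have hj : j.1 = i₀ := not_not.1 j.2
          have hij : i = j := Subtype.ext (hi.trans hj.symm)
          subst hij
          rw [Matrix.one_apply_eq, h4 _ _ rfl, Matrix.one_apply_eq]
    have hAB := (reU e E).val_inv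
    have hBA := (reU e E).inv_val
    rw [hA, hB, Matrix.fromBlocks_multiply, ← Matrix.fromBlocks_one, Matrix.fromBlocks_inj] at hAB
    rw [hA, hB, Matrix.fromBlocks_multiply, ← Matrix.fromBlocks_one, Matrix.fromBlocks_inj] at hBA
    have hAB1 := hAB.1
    have hBA1 := hBA.1
    rw [Matrix.mul_zero, add_zero] at hAB1 hBA1
    let E' : (Matrix {i : ι // i ≠ i₀} {i : ι // i ≠ i₀} R)ˣ :=
      { val := E.val.submatrix (fun i => i.1) (fun i => i.1)
        inv := E.inv.submatrix (fun i => i.1) (fun i => i.1)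
        val_inv := hAB1
        inv_val := hBA1 }
    have hcard : Fintype.card {i : ι // i ≠ i₀} = n := by
      have h := Fintype.card_subtype_compl (fun i : ι => i = i₀)
      rw [Fintype.card_subtype_eq, hc] at h
      exact h
    have hE' : K1.cls E' = 0 := by
      refine ih {i : ι // i ≠ i₀} hcard (fun i => v i.1) E' ?_ ?_ ?_ ?_
      · intro i j h
        exact h1 i.1 j.1 h
      · intro i j h
        exact h2 i.1 j.1 h
      · intro i j h
        change E.val i.1 j.1 = _
        rw [h3 i.1 j.1 h]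
        by_cases hij : i = j
        · subst hij
          rw [Matrix.one_apply_eq, Matrix.one_apply_eq]
        · rw [Matrix.one_apply_ne hij, Matrix.one_apply_ne (fun h => hij (Subtype.ext h))]
      · intro i j h
        change E.inv i.1 j.1 = _
        rw [h4 i.1 j.1 h]
        by_cases hij : i = j
        · subst hij
          rw [Matrix.one_apply_eq, Matrix.one_apply_eq]
        · rw [Matrix.one_apply_ne hij, Matrix.one_apply_ne (fun h => hij (Subtype.ext h))]
    rw [← K1.cls_reindex e E, K1.cls_upper E' 1 _ (reU e E) hA, hE', K1.cls_one, add_zero]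

private theorem cls_dU {ι : Type*} [Fintype ι] [DecidableEq ι] (v : ι → ℕ) (U : (Matrix ι ι R)ˣ)
    (hU : ∀ i j, v j < v i → U.val i j = 0) (hUi : ∀ i j, v j < v i → U.inv i j = 0) :
    K1.cls U = K1.cls (dU v U hU hUi) := by
  have hDi : (dU v U hU hUi)⁻¹.val = dpart v U.inv := rfl
  have hD : (dU v U hU hUi).val = dpart v U.val := rfl
  have h : K1.cls ((dU v U hU hUi)⁻¹ * U) = 0 := by
    have e1 : ((dU v U hU hUi)⁻¹ * U).val = dpart v U.inv * U.val := rfl
    have e2 : ((dU v U hU hUi)⁻¹ * U).inv = U.inv * dpart v U.val := rfl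
    refine cls_unipotent (Fintype.card ι) ι rfl v _ ?_ ?_ ?_ ?_
    · intro i j hij
      rw [e1]
      exact mul_up v _ _ (dpart_up v _) hU i j hij
    · intro i j hij
      rw [e2]
      exact mul_up v _ _ hUi (dpart_up v _) i j hij
    · intro i j hij
      have h5 := dpart_mul v (dpart v U.inv) U.val (dpart_up v _) hU
      rw [dpart_dpart, ← dpart_mul v _ _ hUi hU, U.inv_val, dpart_one] at h5
      have h6 := congrFun (congrFun h5 i) j
      rw [dpart_apply, if_pos hij] at h6
      rw [e1, h6]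
    · intro i j hij
      have h5 := dpart_mul v U.inv (dpart v U.val) hUi (dpart_up v _)
      rw [dpart_dpart, ← dpart_mul v _ _ hUi hU, U.inv_val, dpart_one] at h5
      have h6 := congrFun (congrFun h5 i) j
      rw [dpart_apply, if_pos hij] at h6
      rw [e2, h6]
  rw [K1.cls_mul, K1.cls_inv] at h
  exact (neg_add_eq_zero.1 h).symm

theorem cls_tri {ι : Type*} [Fintype ι] [DecidableEq ι] (v : ι → ℕ) (U V : (Matrix ι ι R)ˣ)
    (hU : ∀ i j, v j < v i → U.val i j = 0) (hUi : ∀ i j, v j < v i → U.inv i j = 0)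
    (hV : ∀ i j, v i < v j → V.val i j = 0) (hVi : ∀ i j, v i < v j → V.inv i j = 0)
    (hUV : ∀ i j, v i = v j → U.val i j = V.val i j) : K1.cls U = K1.cls V := by
  obtain ⟨N, hN⟩ : ∃ N, ∀ i, v i ≤ N := by
    refine ⟨∑ i, v i, fun i => ?_⟩
    exact Finset.single_le_sum (fun _ _ => Nat.zero_le _) (Finset.mem_univ i)
  have hlt : ∀ i j, N - v j < N - v i → v i < v j := by
    intro i j h
    have := hN i
    have := hN j
    omega
  have hV' : ∀ i j, N - v j < N - v i → V.val i j = 0 := fun i j h => hV i j (hlt i j h)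
  have hVi' : ∀ i j, N - v j < N - v i → V.inv i j = 0 := fun i j h => hVi i j (hlt i j h)
  rw [cls_dU v U hU hUi, cls_dU (fun i => N - v i) V hV' hVi']
  congr 1
  apply Units.ext
  ext i j
  change dpart v U.val i j = dpart (fun i => N - v i) V.val i j
  rw [dpart_apply, dpart_apply]
  have h1 := hN i
  have h2 := hN j
  by_cases h : v i = v j
  · rw [if_pos h, if_pos (by rw [h]), hUV i j h]
  · rw [if_neg h, if_neg (fun h3 => h (by omega))]

end Pool.Agent.H95.WH

end

section

/-!
# Artin induction for `K₁(k[F]) ⊗ ℚ`, `k` a commutative ring of characteristic `p`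
-/

set_option autoImplicit false

open Matrix

universe u v w

namespace Pool.Agent.H95.WH

open Pool.Agent.H71.FJ (lamR twR incl)
open Pool.Agent.H71.FJ (tw tw_single)

section Conj

variable {R : Type u} [Ring R] {S : Type v} [Ring S] {J J' : Type*} [Fintype J] [DecidableEq J]
  [Fintype J'] [DecidableEq J']

/-- The conjugate of a homomorphism to a matrix ring. -/
def conjRep (φ : R →+* Matrix J J S) (P : Matrix J J' S) (P' : Matrix J' J S) (h1 : P * P' = 1)
    (h2 : P' * P = 1) : R →+* Matrix J' J' S where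
  toFun r := P' * φ r * P
  map_one' := by rw [map_one, Matrix.mul_one, h2]
  map_mul' r s := by
    have e : P' * φ r * P * (P' * φ s * P) = P' * φ r * (P * P') * φ s * P := by
      simp only [Matrix.mul_assoc]
    rw [e, h1, Matrix.mul_one, map_mul, ← Matrix.mul_assoc]
  map_zero' := by rw [map_zero, Matrix.mul_zero, Matrix.zero_mul]
  map_add' r s := by rw [map_add, Matrix.mul_add, Matrix.add_mul]

theorem conjRep_apply (φ : R →+* Matrix J J S) (P : Matrix J J' S) (P' : Matrix J' J S)
    (h1 : P * P' = 1) (h2 : P' * P = 1) (r : R) :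
    conjRep φ P P' h1 h2 r = P' * φ r * P := rfl

theorem push_conjRep (φ : R →+* Matrix J J S) (P : Matrix J J' S) (P' : Matrix J' J S)
    (h1 : P * P' = 1) (h2 : P' * P = 1) (x : K1 R) :
    K1.push (conjRep φ P P' h1 h2) x = K1.push φ x := by
  symm
  apply K1.push_congr φ _ P P' h1 h2
  intro r
  rw [conjRep_apply, Matrix.mul_assoc P', ← Matrix.mul_assoc P, h1, Matrix.one_mul]

theorem push_eq_of_tri (φ ψ : R →+* Matrix J J S) (v : J → ℕ)
    (h1 : ∀ r i j, v j < v i → φ r i j = 0) (h2 : ∀ r i j, v i < v j → ψ r i j = 0)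
    (h3 : ∀ r i j, v i = v j → φ r i j = ψ r i j) (x : K1 R) : K1.push φ x = K1.push ψ x := by
  have key : K1.push φ = K1.push ψ := by
    apply K1.hom_ext
    intro n U
    rw [K1.push_mk, K1.push_mk]
    exact cls_tri (fun q : Fin n × J => v q.2) (flatU φ U) (flatU ψ U)
      (fun i j h => h1 _ _ _ h) (fun i j h => h1 _ _ _ h)
      (fun i j h => h2 _ _ _ h) (fun i j h => h2 _ _ _ h)
      (fun i j h => h3 _ _ _ h)
  rw [key]

end Conj

variable (k : Type u) [CommRing k] (F : Type v) [Group F]

/-- The integral permutation matrices. -/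
private def permZ (X : Type v) [DecidableEq X] [MulAction F X] (h : F) : Matrix X X ℤ :=
  Matrix.of fun x y => if x = h • y then 1 else 0

private theorem permZ_apply (X : Type v) [DecidableEq X] [MulAction F X] (h : F) (x y : X) :
    permZ F X h x y = if x = h • y then 1 else 0 := rfl

private theorem permZ_inter {X Y : Type v} [Fintype X] [Fintype Y] [DecidableEq X] [DecidableEq Y]
    [MulAction F X] [MulAction F Y] (a : Matrix X Y ℤ)
    (ha : ∀ (h : F) x y, a (h • x) (h • y) = a x y) (h : F) :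
    permZ F X h * a = a * permZ F Y h := by
  ext x y
  rw [Matrix.mul_apply, Matrix.mul_apply, Finset.sum_eq_single (h⁻¹ • x),
    Finset.sum_eq_single (h • y)]
  · rw [permZ_apply, permZ_apply, if_pos rfl, if_pos (smul_inv_smul h x).symm,
      ← ha h (h⁻¹ • x) y, smul_inv_smul, one_mul, mul_one]
  · intro z _ hz
    rw [permZ_apply, if_neg hz, mul_zero]
  · intro hz
    exact absurd (Finset.mem_univ _) hz
  · intro z _ hz
    rw [permZ_apply, if_neg, zero_mul]
    intro e
    exact hz (by rw [e, inv_smul_smul])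
  · intro hz
    exact absurd (Finset.mem_univ _) hz

private theorem tw_eq (X : Type v) [Fintype X] [DecidableEq X] [MulAction F X] (h : F) (s : k) :
    twR k X (MonoidAlgebra.single h s) =
      (permZ F X h).map (fun z : ℤ => ((z : MonoidAlgebra k F) * MonoidAlgebra.single h s)) := by
  refine Matrix.ext fun x y => ?_
  have e1 : twR k X (MonoidAlgebra.single h s) x y =
      if x = h • y then MonoidAlgebra.single h s else 0 := tw_single k X h s x y
  rw [e1, Matrix.map_apply, permZ_apply]
  split_ifs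
  · rw [Int.cast_one, one_mul]
  · rw [Int.cast_zero, zero_mul]

private theorem conj_tw {X Y : Type v} [Fintype X] [Fintype Y] [DecidableEq X] [DecidableEq Y]
    [MulAction F X] (P : Matrix X Y ℤ) (P' : Matrix Y X ℤ) (h : F) (s : k) (i j : Y) :
    (P'.map (Int.castRingHom (MonoidAlgebra k F)) * twR k X (MonoidAlgebra.single h s) *
      P.map (Int.castRingHom (MonoidAlgebra k F))) i j =
      (((P' * permZ F X h * P) i j : ℤ) : MonoidAlgebra k F) * MonoidAlgebra.single h s := by
  rw [tw_eq]
  simp only [Matrix.mul_apply, Matrix.map_apply, eq_intCast, Int.cast_sum, Int.cast_mul,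
    Finset.sum_mul]
  refine Finset.sum_congr rfl fun y _ => Finset.sum_congr rfl fun x _ => ?_
  rw [← mul_assoc, mul_assoc _ (MonoidAlgebra.single h s) _,
    ← (Int.cast_commute (P y j) (MonoidAlgebra.single h s)).eq, ← mul_assoc]

variable (p : ℕ) [Fact p.Prime] [CharP k p]

private theorem cast_zero_of_dvd (z : ℤ) (hz : (p : ℤ) ∣ z) : (z : MonoidAlgebra k F) = 0 := by
  obtain ⟨y, rfl⟩ := hz
  have h1 : ((p : ℕ) : MonoidAlgebra k F) = 0 := by
    have h2 : ((p : ℕ) : MonoidAlgebra k F) = algebraMap k (MonoidAlgebra k F) (p : k) := by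
      rw [map_natCast]
    rw [h2, CharP.cast_eq_zero, map_zero]
  rw [Int.cast_mul, Int.cast_natCast, h1, zero_mul]

include p in
theorem inter_p {X Y : Type v} [Fintype X] [Fintype Y] [DecidableEq X] [DecidableEq Y]
    [MulAction F X] [MulAction F Y] (n : ℕ) (hn : n ≠ 0) (a : Matrix X Y ℤ) (b : Matrix Y X ℤ)
    (hab : a * b = (n : ℤ) • (1 : Matrix X X ℤ)) (hba : b * a = (n : ℤ) • (1 : Matrix Y Y ℤ))
    (ha : ∀ (h : F) x y, a (h • x) (h • y) = a x y) (x : K1 (MonoidAlgebra k F)) :
    K1.push (twR k X) x = K1.push (twR k Y) x := by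
  obtain ⟨v, P, P', Q, Q', u, u', hP, hP', hQ, hQ', hu, hup, hlo, hd⟩ :=
    exists_modp p n hn a b hab hba (permZ F X) (permZ F Y) (permZ_inter F a ha)
  let c := Int.castRingHom (MonoidAlgebra k F)
  have mapc : ∀ {I J K : Type v} [Fintype J] (M : Matrix I J ℤ) (N : Matrix J K ℤ),
      M.map c * N.map c = (M * N).map c := fun M N => (Matrix.map_mul (f := c)).symm
  have onec : ∀ {I : Type v} [DecidableEq I], (1 : Matrix I I ℤ).map c = 1 := fun {I} _ => by
    refine Matrix.ext fun i j => ?_
    rw [Matrix.map_apply, Matrix.one_apply, Matrix.one_apply]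
    split_ifs
    · exact map_one c
    · exact map_zero c
  have eP : P.map c * P'.map c = 1 := by rw [mapc, hP, onec]
  have eP' : P'.map c * P.map c = 1 := by rw [mapc, hP', onec]
  have eQ : Q.map c * Q'.map c = 1 := by rw [mapc, hQ, onec]
  have eQ' : Q'.map c * Q.map c = 1 := by rw [mapc, hQ', onec]
  let D : Matrix X X (MonoidAlgebra k F) := diagonal fun i => (u i : MonoidAlgebra k F)
  let D' : Matrix X X (MonoidAlgebra k F) := diagonal fun i => (u' i : MonoidAlgebra k F)
  have huu : ∀ i, (u i : MonoidAlgebra k F) * (u' i : MonoidAlgebra k F) = 1 := by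
    intro i
    have h1 := cast_zero_of_dvd k F p _ (hu i)
    rw [Int.cast_sub, Int.cast_mul, Int.cast_one, sub_eq_zero] at h1
    exact h1
  have eD : D * D' = 1 := by
    rw [diagonal_mul_diagonal, ← diagonal_one]
    exact congrArg diagonal (funext huu)
  have eD' : D' * D = 1 := by
    rw [diagonal_mul_diagonal, ← diagonal_one]
    refine congrArg diagonal (funext fun i => ?_)
    rw [(Int.cast_commute (u' i) ((u i : ℤ) : MonoidAlgebra k F)).eq]
    exact huu i
  rw [← push_conjRep (twR k X) (P.map c) (P'.map c) eP eP' x,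
    ← push_conjRep (twR k Y) (Q.map c) (Q'.map c) eQ eQ' x,
    ← push_conjRep (conjRep (twR k Y) (Q.map c) (Q'.map c) eQ eQ') D' D eD' eD x]
  apply push_eq_of_tri _ _ v
  · intro r i j hij
    induction r using MonoidAlgebra.induction_linear with
    | zero => rw [map_zero, Matrix.zero_apply]
    | add s t hs ht => rw [map_add, Matrix.add_apply, hs, ht, add_zero]
    | single h s =>
      rw [conjRep_apply, conj_tw, cast_zero_of_dvd k F p _ (hup h i j hij), zero_mul]
  · intro r i j hij
    induction r using MonoidAlgebra.induction_linear with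
    | zero => rw [map_zero, Matrix.zero_apply]
    | add s t hs ht => rw [map_add, Matrix.add_apply, hs, ht, add_zero]
    | single h s =>
      rw [conjRep_apply, conjRep_apply, Matrix.mul_diagonal, Matrix.diagonal_mul, conj_tw,
        cast_zero_of_dvd k F p _ (hlo h i j hij), zero_mul, mul_zero, zero_mul]
  · intro r i j hij
    induction r using MonoidAlgebra.induction_linear with
    | zero => rw [map_zero, map_zero]
    | add s t hs ht => rw [map_add, map_add, Matrix.add_apply, Matrix.add_apply, hs, ht]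
    | single h s =>
      rw [conjRep_apply, conjRep_apply, conjRep_apply, Matrix.mul_diagonal, Matrix.diagonal_mul,
        conj_tw, conj_tw]
      have h1 := cast_zero_of_dvd k F p _ (hd h i j hij)
      rw [Int.cast_sub, sub_eq_zero] at h1
      rw [h1, Int.cast_mul, Int.cast_mul, ← mul_assoc, mul_assoc _ (MonoidAlgebra.single h s) _,
        ← (Int.cast_commute (u' j) (MonoidAlgebra.single h s)).eq, ← mul_assoc]

include p in
/-- **Artin induction** for `K₁(k[F]) ⊗ ℚ`, `k` a commutative ring of characteristic `p`. -/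
theorem artin_K1_charP [Finite F] (x : K1 (MonoidAlgebra k F)) :
    ∃ (m r : ℕ) (D : Fin r → Subgroup F) (y : ∀ i, K1 (MonoidAlgebra k (D i))),
      0 < m ∧ (∀ i, IsCyclic (D i)) ∧ m • x = ∑ i, K1.map (incl k (D i)) (y i) :=
  artin_K1_of_inter k F
    (fun n hn a b hab hba ha x => ⟨1, one_pos, by rw [inter_p k F p n hn a b hab hba ha x]⟩) x

/-- **Artin induction** for `K₁(k[F]) ⊗ ℚ`, `k` a field. -/
theorem artin_K1_anyField (k : Type u) [Field k] (F : Type v) [Group F] [Finite F]
    (x : K1 (MonoidAlgebra k F)) :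
    ∃ (m r : ℕ) (D : Fin r → Subgroup F) (y : ∀ i, K1 (MonoidAlgebra k (D i))),
      0 < m ∧ (∀ i, IsCyclic (D i)) ∧ m • x = ∑ i, K1.map (incl k (D i)) (y i) := by
  obtain ⟨q, hq⟩ := CharP.exists k
  rcases CharP.char_is_prime_or_zero k q with h | h
  · have : Fact q.Prime := ⟨h⟩
    exact artin_K1_charP k F q x
  · subst h
    have : CharZero k := CharP.charP_to_charZero k
    exact artin_K1_field F k x

end Pool.Agent.H95.WH

end

section

/-!
# Semilocal rings and rings of characteristic `p`
-/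

set_option autoImplicit false

open Matrix

universe u v w

namespace Pool.Agent.H71.DO

open Pool.Agent.H95.WH (K1 K1.mk K1.unit K1.map FinSub)

theorem hArt_field (k : Type u) [Field k] : HArt.{u, v} k :=
  fun F _ _ x => Pool.Agent.H95.WH.artin_K1_anyField k F x

end Pool.Agent.H71.DO

end
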