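import Pool.Agent.H13.TFQ.H71.FQ.HG
import Pool.Agent.H13.TFQ.M16
import Pool.Agent.H13.TFQ.M42
import Pool.Agent.H13.TFQ.M49

/-! The parts of this file: H71.FQ.Uct, H71.FQ.LocH, H71.KP.Orb. -/

section

/-!
# Project FQ: homomorphisms from homology to the `p`-adic integers come from cocycles

PROOF. Let `C` be the quotient of the chains of degree `n + 1` by `coi` and `Z` the image of the cycles. `C / Z` embeds
in the chains of degree `n` modulo `coi`, which is a free abelian group (basis: the tuples `(1, x_1, …)`), hence it is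
torsion free. A homomorphism `f : Z → ℤ_p` extends to every subgroup `Z + E`, `E` finitely generated, since
`(Z + E) / Z` is finitely generated and torsion free, hence free. By compactness of the product of copies of `ℤ_p`
(closed conditions: additivity on the finitely generated pieces, agreement with `f` on `Z`) it extends to `C`.
-/

set_option autoImplicit false

universe u v w

namespace Pool.Agent.H71.FQ

/-- extension on finitely generated pieces -/
theorem exists_extension_aux (p : ℕ) [Fact p.Prime] {C : Type v} [AddCommGroup C]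
    (Z : AddSubgroup C) (h : ∀ (m : ℤ) (x : C), m ≠ 0 → m • x ∈ Z → x ∈ Z) (f : Z →+ ℤ_[p])
    (S : Finset C) : ∃ g : C → ℤ_[p], (∀ x ∈ S, ∀ y ∈ S, g (x + y) = g x + g y) ∧
      ∀ z : Z, g z = f z := by
  classical
  let Z' : Submodule ℤ C := AddSubgroup.toIntSubmodule Z
  let E : Submodule ℤ (C ⧸ Z') := Submodule.span ℤ (Z'.mkQ '' (S : Set C))
  have hfin : Module.Finite ℤ E :=
    Module.Finite.span_of_finite ℤ (S.finite_toSet.image _)
  have htf : Module.IsTorsionFree ℤ E := by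
    constructor
    intro m hm
    have hm0 : m ≠ 0 := hm.ne_zero
    intro x y hxy
    have h1 : m • (x - y) = 0 := by
      rw [smul_sub, sub_eq_zero]
      exact hxy
    have h2 : (x - y : E) = 0 := by
      apply Subtype.ext
      obtain ⟨c, hc⟩ := Z'.mkQ_surjective ((x - y : E) : C ⧸ Z')
      have h3 : Z'.mkQ (m • c) = 0 := by
        rw [map_smul, hc]
        exact congrArg Subtype.val h1
      rw [Submodule.mkQ_apply, Submodule.Quotient.mk_eq_zero] at h3
      rw [← hc, Submodule.mkQ_apply]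
      exact (Submodule.Quotient.mk_eq_zero Z').2 (h m c hm0 h3)
    exact sub_eq_zero.1 h2
  have hfree : Module.Free ℤ E := Module.free_of_finite_type_torsion_free'
  obtain ⟨s, hs⟩ := Module.projective_lifting_property Z'.mkQ E.subtype Z'.mkQ_surjective
  have hs' : ∀ e : E, Z'.mkQ (s e) = e := fun e => LinearMap.congr_fun hs e
  have hmem : ∀ (x : C) (hx : Z'.mkQ x ∈ E), x - s ⟨Z'.mkQ x, hx⟩ ∈ Z := by
    intro x hx
    have h1 : Z'.mkQ (x - s ⟨Z'.mkQ x, hx⟩) = 0 := by
      rw [map_sub, hs', sub_self]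
    rw [Submodule.mkQ_apply, Submodule.Quotient.mk_eq_zero] at h1
    exact h1
  let g : C → ℤ_[p] := fun x =>
    if hx : Z'.mkQ x ∈ E then f ⟨x - s ⟨Z'.mkQ x, hx⟩, hmem x hx⟩ else 0
  have hg : ∀ (x : C) (hx : Z'.mkQ x ∈ E), g x = f ⟨x - s ⟨Z'.mkQ x, hx⟩, hmem x hx⟩ :=
    fun x hx => dif_pos hx
  refine ⟨g, ?_, ?_⟩
  · intro x hx y hy
    have hx' : Z'.mkQ x ∈ E := Submodule.subset_span ⟨x, hx, rfl⟩
    have hy' : Z'.mkQ y ∈ E := Submodule.subset_span ⟨y, hy, rfl⟩
    have hxy : Z'.mkQ (x + y) ∈ E := by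
      rw [map_add]
      exact E.add_mem hx' hy'
    rw [hg _ hx', hg _ hy', hg _ hxy, ← map_add]
    congr 1
    apply Subtype.ext
    have h1 : (⟨Z'.mkQ (x + y), hxy⟩ : E) = ⟨Z'.mkQ x, hx'⟩ + ⟨Z'.mkQ y, hy'⟩ :=
      Subtype.ext (map_add _ _ _)
    show x + y - s ⟨Z'.mkQ (x + y), hxy⟩ = (x - s ⟨Z'.mkQ x, hx'⟩) + (y - s ⟨Z'.mkQ y, hy'⟩)
    rw [h1, map_add]
    abel
  · intro z
    have h0 : Z'.mkQ (z : C) = 0 := by
      rw [Submodule.mkQ_apply, Submodule.Quotient.mk_eq_zero]
      exact z.2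
    have hz : Z'.mkQ (z : C) ∈ E := by
      rw [h0]
      exact E.zero_mem
    rw [hg _ hz]
    congr 1
    apply Subtype.ext
    have h1 : (⟨Z'.mkQ (z : C), hz⟩ : E) = 0 := Subtype.ext h0
    show (z : C) - s ⟨Z'.mkQ (z : C), hz⟩ = z
    rw [h1, map_zero, sub_zero]

/-- extension of homomorphisms with values in `ℤ_p` from a subgroup with torsion free quotient -/
theorem exists_extension (p : ℕ) [Fact p.Prime] {C : Type v} [AddCommGroup C] (Z : AddSubgroup C)
    (h : ∀ (m : ℤ) (x : C), m ≠ 0 → m • x ∈ Z → x ∈ Z) (f : Z →+ ℤ_[p]) :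
    ∃ F : C →+ ℤ_[p], ∀ z : Z, F z = f z := by
  classical
  let t : C × C → Set (C → ℤ_[p]) := fun q =>
    {g | g (q.1 + q.2) = g q.1 + g q.2} ∩ {g | ∀ z : Z, g z = f z}
  have hcl : ∀ q, IsClosed (t q) := by
    intro q
    refine IsClosed.inter ?_ ?_
    · exact isClosed_eq (by fun_prop) (by fun_prop)
    · have h1 : {g : C → ℤ_[p] | ∀ z : Z, g z = f z} = ⋂ z : Z, {g | g z = f z} := by
        ext g
        simp
      rw [h1]
      exact isClosed_iInter fun z => isClosed_eq (continuous_apply _) continuous_const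
  have hne : ∀ s : Finset (C × C), (⋂ q ∈ s, t q).Nonempty := by
    intro s
    obtain ⟨g, hg1, hg2⟩ := exists_extension_aux p Z h f (s.image Prod.fst ∪ s.image Prod.snd)
    refine ⟨g, ?_⟩
    simp only [Set.mem_iInter]
    intro q hq
    refine ⟨hg1 _ ?_ _ ?_, hg2⟩
    · exact Finset.mem_union_left _ (Finset.mem_image_of_mem _ hq)
    · exact Finset.mem_union_right _ (Finset.mem_image_of_mem _ hq)
  obtain ⟨g, hg⟩ := CompactSpace.iInter_nonempty hcl hne
  rw [Set.mem_iInter] at hg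
  exact ⟨AddMonoidHom.mk' g fun x y => (hg (x, y)).1, fun z => (hg (0, 0)).2 z⟩

/-- the normal form of a chain modulo the relations: move the first entry to `1` -/
noncomputable def nrm (Γ : Type v) [Group Γ] (n : ℕ) : Cx ℤ Γ n →ₗ[ℤ] Cx ℤ Γ n :=
  Finsupp.linearCombination ℤ fun x : Fin (n + 1) → Γ =>
    Finsupp.single (fun j => (x 0)⁻¹ * x j) (1 : ℤ)

theorem nrm_single {Γ : Type v} [Group Γ] {n : ℕ} (x : Fin (n + 1) → Γ) :
    nrm Γ n (Finsupp.single x 1) = Finsupp.single (fun j => (x 0)⁻¹ * x j) 1 := by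
  rw [nrm, Finsupp.linearCombination_single, one_smul]

theorem nrm_coi {Γ : Type v} [Group Γ] {n : ℕ} {c : Cx ℤ Γ n} (hc : c ∈ coi Γ n) :
    nrm Γ n c = 0 := by
  have h := coi_le_comap (nrm Γ n) (⊥ : Submodule ℤ (Cx ℤ Γ n)) (fun g x => by
    rw [nrm_single, nrm_single]
    have e : (fun j => (g * x 0)⁻¹ * (g * x j)) = fun j => (x 0)⁻¹ * x j := by
      funext j
      group
    rw [e, sub_self]
    exact Submodule.zero_mem _) hc
  exact (Submodule.mem_bot ℤ).1 h

theorem sub_nrm_mem {Γ : Type v} [Group Γ] {n : ℕ} (c : Cx ℤ Γ n) : c - nrm Γ n c ∈ coi Γ n := by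
  induction c using Finsupp.induction_linear with
  | zero => simp
  | add a b ha hb =>
    have h : (a + b) - nrm Γ n (a + b) = (a - nrm Γ n a) + (b - nrm Γ n b) := by
      rw [map_add]
      abel
    rw [h]
    exact Submodule.add_mem _ ha hb
  | single x r =>
    have h : (Finsupp.single x r : Cx ℤ Γ n) = r • Finsupp.single x 1 := by
      rw [Finsupp.smul_single, smul_eq_mul, mul_one]
    rw [h, map_smul, nrm_single, ← smul_sub]
    refine Submodule.smul_mem _ _ ?_
    have h1 : (Finsupp.single (fun j => (x 0)⁻¹ * x j) 1 - Finsupp.single x 1 : Cx ℤ Γ n) ∈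
        coi Γ n := Submodule.subset_span ⟨(x 0)⁻¹, x, rfl⟩
    have h2 := Submodule.neg_mem _ h1
    rwa [neg_sub] at h2

/-- the chains modulo `coi` are torsion free -/
theorem coi_torsionFree {Γ : Type v} [Group Γ] {n : ℕ} (m : ℤ) (hm : m ≠ 0) (c : Cx ℤ Γ n)
    (h : m • c ∈ coi Γ n) : c ∈ coi Γ n := by
  have h1 := nrm_coi h
  rw [map_smul] at h1
  have h2 : nrm Γ n c = 0 := (smul_eq_zero.1 h1).resolve_left hm
  have h3 := sub_nrm_mem c
  rwa [h2, sub_zero] at h3

theorem lc_addHom {Γ : Type v} {n : ℕ} {M : Type w} [AddCommGroup M] (F : Cx ℤ Γ n →+ M)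
    (c : Cx ℤ Γ n) :
    Finsupp.linearCombination ℤ (fun x : Fin (n + 1) → Γ => F (Finsupp.single x 1)) c = F c := by
  have h : Finsupp.linearCombination ℤ (fun x : Fin (n + 1) → Γ => F (Finsupp.single x 1)) =
      F.toIntLinearMap := by
    refine Finsupp.lhom_ext' fun x => LinearMap.ext_ring ?_
    simp only [LinearMap.comp_apply, Finsupp.lsingle_apply]
    rw [Finsupp.linearCombination_single, one_smul]
    rfl
  exact LinearMap.congr_fun h c

theorem coi_le_cyc {Γ : Type v} [Group Γ] {n : ℕ} {c : Cx ℤ Γ (n + 1)}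
    (hc : c ∈ coi Γ (n + 1)) : c ∈ cyc Γ n := by
  show bd ℤ Γ n c ∈ coi Γ n
  refine coi_le_comap (bd ℤ Γ n) (coi Γ n) ?_ hc
  intro g x
  rw [bd_single, bd_single, ← Finset.sum_sub_distrib]
  refine Submodule.sum_mem _ fun i _ => ?_
  rw [← smul_sub]
  exact Submodule.smul_mem _ _ (Submodule.subset_span ⟨g, fun j => x (i.succAbove j), rfl⟩)

theorem bnd_le_cyc {Γ : Type v} [Group Γ] {n : ℕ} {c : Cx ℤ Γ (n + 1)}
    (hc : c ∈ bnd Γ n) : c ∈ cyc Γ n := by
  obtain ⟨_, ⟨b, rfl⟩, d, hd, rfl⟩ := Submodule.mem_sup.1 hc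
  refine Submodule.add_mem _ ?_ (coi_le_cyc hd)
  show bd ℤ Γ n (bd ℤ Γ (n + 1) b) ∈ coi Γ n
  rw [bd_bd]
  exact Submodule.zero_mem _

theorem exists_cocycle (p : ℕ) [Fact p.Prime] {Γ : Type v} [Group Γ] {n : ℕ}
    (f : HG Γ n →+ ℤ_[p]) :
    ∃ (φ : (Fin (n + 2) → Γ) → ℤ_[p]) (hφ : IsCoc Γ n φ), ∀ x, HG.ev hφ x = f x := by
  let f0 : (cyc Γ n).toAddSubgroup →+ ℤ_[p] :=
    f.comp (AddMonoidHom.mk' (fun z : cyc Γ n => HG.mk z) HG.mk_add)
  have hf0 : ∀ z : cyc Γ n, f0 z = f (HG.mk z) := fun z => rfl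
  obtain ⟨F, hF⟩ := exists_extension p (cyc Γ n).toAddSubgroup (by
    intro m x hm hx
    show bd ℤ Γ n x ∈ coi Γ n
    have h1 : bd ℤ Γ n (m • x) ∈ coi Γ n := hx
    rw [map_smul] at h1
    exact coi_torsionFree m hm _ h1) f0
  have hF' : ∀ (c : Cx ℤ Γ (n + 1)) (hc : c ∈ cyc Γ n), F c = f (HG.mk ⟨c, hc⟩) :=
    fun c hc => hF ⟨c, hc⟩
  have hF0 : ∀ c : Cx ℤ Γ (n + 1), c ∈ bnd Γ n → F c = 0 := by
    intro c hc
    rw [hF' c (bnd_le_cyc hc)]
    have h0 : (0 : HG Γ n) = HG.mk 0 := rfl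
    have h1 : HG.mk ⟨c, bnd_le_cyc hc⟩ = (0 : HG Γ n) := by
      rw [h0, HG.mk_eq_iff]
      show c - 0 ∈ bnd Γ n
      rw [sub_zero]
      exact hc
    rw [h1, map_zero]
  have hcoc : IsCoc Γ n fun x => F (Finsupp.single x 1) := by
    constructor
    · intro g x
      rw [← sub_eq_zero, ← map_sub]
      exact hF0 _ (Submodule.mem_sup_right (Submodule.subset_span ⟨g, x, rfl⟩))
    · intro x
      have h1 := hF0 (bd ℤ Γ (n + 1) (Finsupp.single x 1))
        (Submodule.mem_sup_left (LinearMap.mem_range_self _ _))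
      rw [bd_single, map_sum] at h1
      simp only [map_zsmul] at h1
      exact h1
  refine ⟨_, hcoc, ?_⟩
  intro x
  obtain ⟨z, rfl⟩ := HG.mk_surjective x
  rw [HG.ev_mk, lc_addHom]
  exact hF' z z.2

end Pool.Agent.H71.FQ

end

section

/-!
# Project FQ: homology classes and relations come from subgroups containing finite sets

PROOFS. The normal form `nrm` commutes with `push f` and `push f` is injective for injective `f`; a chain lies in
`coi` if and only if its normal form vanishes.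
-/

set_option autoImplicit false

universe u v w w'

namespace Pool.Agent.H71.FQ

section

variable {X : Type u} {Y : Type v}

theorem push_inj {f : X → Y} (hf : Function.Injective f) (m : ℕ) :
    Function.Injective (push ℤ f m) := by
  intro a b hab
  rw [push_apply_eq_mapDomain, push_apply_eq_mapDomain] at hab
  exact Finsupp.mapDomain_injective hf.comp_left hab

/-- the vertices of a chain -/
theorem exists_push {m : ℕ} (c : Cx ℤ Y m) : ∃ S : Finset Y, ∀ {X : Type w} (f : X → Y),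
    Function.Injective f → (∀ s ∈ S, s ∈ Set.range f) → ∃ c' : Cx ℤ X m, push ℤ f m c' = c := by
  classical
  refine ⟨c.support.biUnion fun x => Finset.univ.image x, ?_⟩
  intro X f hf hS
  refine ⟨Finsupp.comapDomain (fun x j => f (x j)) c (hf.comp_left.injOn), ?_⟩
  rw [push_apply_eq_mapDomain]
  refine Finsupp.mapDomain_comapDomain _ hf.comp_left c ?_
  intro x hx
  have h1 : ∀ j, x j ∈ Set.range f := fun j =>
    hS _ (Finset.mem_biUnion.2 ⟨x, hx, Finset.mem_image_of_mem _ (Finset.mem_univ _)⟩)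
  choose y hy using h1
  exact ⟨y, funext hy⟩

end

section

variable {Γ : Type v} [Group Γ] {Γ' : Type w} [Group Γ'] {n : ℕ}

theorem nrm_push (f : Γ' →* Γ) (c : Cx ℤ Γ' n) :
    nrm Γ n (push ℤ f n c) = push ℤ f n (nrm Γ' n c) := by
  have h : (nrm Γ n).comp (push ℤ f n) = (push ℤ f n).comp (nrm Γ' n) := by
    refine Finsupp.lhom_ext' fun x => LinearMap.ext_ring ?_
    simp only [LinearMap.comp_apply, Finsupp.lsingle_apply]
    rw [push_single, nrm_single, nrm_single, push_single]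
    congr 1
    funext j
    rw [map_mul, map_inv]
  exact LinearMap.congr_fun h c

theorem mem_coi_iff (c : Cx ℤ Γ n) : c ∈ coi Γ n ↔ nrm Γ n c = 0 := by
  constructor
  · exact nrm_coi
  · intro h
    have h1 := sub_nrm_mem c
    rwa [h, sub_zero] at h1

theorem coi_of_push {f : Γ' →* Γ} (hf : Function.Injective f) {c : Cx ℤ Γ' n}
    (hc : push ℤ f n c ∈ coi Γ n) : c ∈ coi Γ' n := by
  rw [mem_coi_iff] at hc ⊢
  rw [nrm_push] at hc
  exact push_inj hf n (hc.trans (map_zero _).symm)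

/-- every homology class comes from all groups `Γ' ⊆ Γ` which contain a finite set -/
theorem HG.exists_lift' (x : HG Γ n) :
    ∃ S : Finset Γ, ∀ {Γ' : Type w} [Group Γ'] (f : Γ' →* Γ), Function.Injective f →
      (∀ s ∈ S, s ∈ Set.range f) → ∃ y : HG Γ' n, HG.map n f y = x := by
  obtain ⟨z, rfl⟩ := HG.mk_surjective x
  obtain ⟨S, hS⟩ := exists_push.{v, w} (z : Cx ℤ Γ (n + 1))
  refine ⟨S, ?_⟩
  intro Γ' _ f hf h
  obtain ⟨c, hc⟩ := hS f hf h
  have hcyc : c ∈ cyc Γ' n := by
    show bd ℤ Γ' n c ∈ coi Γ' n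
    apply coi_of_push hf
    rw [← bd_push, hc]
    exact z.2
  refine ⟨HG.mk ⟨c, hcyc⟩, ?_⟩
  rw [HG.map_mk]
  congr 1
  exact Subtype.ext hc

/-- every homology class comes from all subgroups which contain a finite set -/
theorem HG.exists_lift (x : HG Γ n) :
    ∃ S : Finset Γ, ∀ Γ' : Subgroup Γ, (∀ s ∈ S, s ∈ Γ') →
      ∃ y : HG Γ' n, HG.map n Γ'.subtype y = x := by
  obtain ⟨S, hS⟩ := HG.exists_lift'.{v, v} x
  exact ⟨S, fun Γ' h => hS Γ'.subtype Γ'.subtype_injective fun s hs => ⟨⟨s, h s hs⟩, rfl⟩⟩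

theorem HG.mk_eq_zero {z : cyc Γ n} : HG.mk z = 0 ↔ (z : Cx ℤ Γ (n + 1)) ∈ bnd Γ n := by
  have h0 : (0 : HG Γ n) = HG.mk 0 := rfl
  rw [h0, HG.mk_eq_iff]
  change (z : Cx ℤ Γ (n + 1)) - 0 ∈ bnd Γ n ↔ _
  rw [sub_zero]

/-- a homology class which dies in `Γ` dies in all groups `Γ'' ⊆ Γ` which contain a finite set -/
theorem HG.exists_zero (f : Γ' →* Γ) (x : HG Γ' n) (hx : HG.map n f x = 0) :
    ∃ S : Finset Γ, ∀ {Γ'' : Type w'} [Group Γ''] (g : Γ'' →* Γ) (k : Γ' →* Γ''),
      Function.Injective g → g.comp k = f → (∀ s ∈ S, s ∈ Set.range g) →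
        HG.map n k x = 0 := by
  obtain ⟨z, rfl⟩ := HG.mk_surjective x
  rw [HG.map_mk, HG.mk_eq_zero] at hx
  obtain ⟨_, ⟨b, rfl⟩, d, hd, hbd⟩ := Submodule.mem_sup.1 hx
  obtain ⟨S, hS⟩ := exists_push.{v, w'} b
  refine ⟨S, ?_⟩
  intro Γ'' _ g k hg hgk h
  obtain ⟨b', hb'⟩ := hS g hg h
  rw [HG.map_mk, HG.mk_eq_zero]
  have e1 : push ℤ k (n + 1) (z : Cx ℤ Γ' (n + 1)) - bd ℤ Γ'' (n + 1) b' ∈ coi Γ'' (n + 1) := by
    apply coi_of_push hg
    rw [map_sub, ← bd_push, hb', push_push]
    have e2 : (fun x => g (k x)) = f := by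
      rw [← hgk]
      rfl
    rw [e2]
    have e3 : push ℤ f (n + 1) (z : Cx ℤ Γ' (n + 1)) - bd ℤ Γ (n + 1) b = d := by
      have e5 : bd ℤ Γ (n + 1) b + d = push ℤ f (n + 1) (z : Cx ℤ Γ' (n + 1)) := hbd
      rw [← e5]
      abel
    rw [e3]
    exact hd
  have e4 : push ℤ k (n + 1) (z : Cx ℤ Γ' (n + 1)) = bd ℤ Γ'' (n + 1) b' +
      (push ℤ k (n + 1) (z : Cx ℤ Γ' (n + 1)) - bd ℤ Γ'' (n + 1) b') := by
    abel
  show push ℤ k (n + 1) (z : Cx ℤ Γ' (n + 1)) ∈ bnd Γ'' n
  rw [e4]
  exact Submodule.add_mem_sup (LinearMap.mem_range_self _ _) e1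

end

end Pool.Agent.H71.FQ

end

section

/-!
# The diagonal power is additive modulo norms; its logarithm
-/

set_option autoImplicit false
set_option linter.unusedSectionVars false

open scoped TensorProduct

universe u v

namespace Pool.Agent.H71.KP

section Orbit

variable {p : ℕ} [hp : Fact p.Prime] {M : Type u} [Ring M] (t : TwTr p M)

theorem orbit_inj {X : Type v} (σ : ZMod p → X → X) (h0 : ∀ x, σ 0 x = x)
    (hadd : ∀ i j x, σ (i + j) x = σ i (σ j x)) {x : X} (hx : σ 1 x ≠ x) :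
    Function.Injective (fun i => σ i x) := by
  intro i j hij
  by_contra hne
  apply hx
  have hk : i - j ≠ 0 := sub_ne_zero.2 hne
  have h1 : σ (i - j) x = x := by
    have e1 : i - j = -j + i := by ring
    rw [e1, hadd]
    change σ (-j) ((fun i => σ i x) i) = x
    rw [hij]
    change σ (-j) (σ j x) = x
    rw [← hadd, neg_add_cancel, h0]
  have h2 : ∀ n : ℕ, σ ((n : ZMod p) * (i - j)) x = x := by
    intro n
    induction n with
    | zero => rw [Nat.cast_zero, zero_mul, h0]
    | succ n ih => rw [Nat.cast_succ, add_mul, one_mul, hadd, h1, ih]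
  have h3 := h2 ((i - j)⁻¹ : ZMod p).val
  rwa [ZMod.natCast_zmod_val, inv_mul_cancel₀ hk] at h3

theorem orbit_sum {X : Type v} [DecidableEq X] (σ : ZMod p → X → X) (h0 : ∀ x, σ 0 x = x)
    (hadd : ∀ i j x, σ (i + j) x = σ i (σ j x)) (f : X → M)
    (hf : ∀ i x, f (σ i x) = t.act i (f x)) (U : Finset X) :
    (∀ x ∈ U, ∀ i, σ i x ∈ U) → (∀ x ∈ U, σ 1 x ≠ x) → ∃ z, ∑ x ∈ U, f x = t.tr z := by
  induction U using Finset.strongInduction with
  | H U ih =>
    intro hU hne
    by_cases hemp : U = ∅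
    · subst hemp
      exact ⟨0, by simp⟩
    obtain ⟨x, hx⟩ := Finset.nonempty_iff_ne_empty.2 hemp
    let O : Finset X := Finset.univ.image (fun i => σ i x)
    have hinj := orbit_inj σ h0 hadd (hne x hx)
    have hO : O ⊆ U := by
      intro y hy
      obtain ⟨i, _, rfl⟩ := Finset.mem_image.1 hy
      exact hU x hx i
    have hxO : x ∈ O := Finset.mem_image.2 ⟨0, Finset.mem_univ _, h0 x⟩
    have hss : U \ O ⊂ U := by
      refine ⟨Finset.sdiff_subset, fun h => ?_⟩
      have := h hx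
      rw [Finset.mem_sdiff] at this
      exact this.2 hxO
    obtain ⟨z, hz⟩ := ih (U \ O) hss (by
      intro y hy i
      rw [Finset.mem_sdiff] at hy ⊢
      refine ⟨hU y hy.1 i, fun h => hy.2 ?_⟩
      obtain ⟨j, _, hj⟩ := Finset.mem_image.1 h
      refine Finset.mem_image.2 ⟨-i + j, Finset.mem_univ _, ?_⟩
      rw [hadd, show σ j x = σ i y from hj, ← hadd, neg_add_cancel, h0]) (by
      intro y hy
      exact hne y (Finset.mem_sdiff.1 hy).1)
    refine ⟨z + f x, ?_⟩
    rw [map_add, ← hz, ← Finset.sum_sdiff hO]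
    congr 1
    rw [Finset.sum_image (fun i _ j _ h => hinj h)]
    rw [TwTr.tr_apply]
    exact Finset.sum_congr rfl fun i _ => hf i x

end Orbit

variable (p : ℕ) [hp : Fact p.Prime] {A : Type u} [Ring A] [Algebra ℤ_[p] A]
  (τ : A →ₗ[ℤ_[p]] ℤ_[p]) (hτ : ∀ a b, τ (a * b) = τ (b * a))

/-- translation of subsets -/
def trans (i : ZMod p) (s : Finset (ZMod p)) : Finset (ZMod p) :=
  Finset.univ.filter (fun j => j + i ∈ s)

theorem mem_trans {i j : ZMod p} {s : Finset (ZMod p)} : j ∈ trans p i s ↔ j + i ∈ s := by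
  simp [trans]

theorem trans_zero (s : Finset (ZMod p)) : trans p 0 s = s := by
  ext j
  rw [mem_trans, add_zero]

theorem trans_add (i j : ZMod p) (s : Finset (ZMod p)) :
    trans p (i + j) s = trans p i (trans p j s) := by
  ext l
  rw [mem_trans, mem_trans, mem_trans, add_assoc]

theorem trans_fix {s : Finset (ZMod p)} (h : trans p 1 s = s) : s = ∅ ∨ s = Finset.univ := by
  rw [or_iff_not_imp_left]
  intro hs
  obtain ⟨x, hx⟩ := Finset.nonempty_iff_ne_empty.2 hs
  have h1 : ∀ j, j ∈ s → j + 1 ∈ s := by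
    intro j hj
    rw [← h] at hj
    exact (mem_trans p).1 hj
  have h2 : ∀ n : ℕ, x + n ∈ s := by
    intro n
    induction n with
    | zero => rwa [Nat.cast_zero, add_zero]
    | succ n ih => rw [Nat.cast_succ, ← add_assoc]; exact h1 _ ih
  rw [Finset.eq_univ_iff_forall]
  intro y
  have h3 := h2 (y - x).val
  rwa [ZMod.natCast_zmod_val, add_sub_cancel] at h3

/-- the mixed tensors -/
noncomputable def mx (a b : A) (s : Finset (ZMod p)) : TP p A :=
  tp p (s.piecewise (fun _ => a) (fun _ => b))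

theorem mx_trans (a b : A) (i : ZMod p) (s : Finset (ZMod p)) :
    mx p a b (trans p i s) = sh p i (mx p a b s) := by
  rw [mx, mx, sh_tp]
  congr 1
  funext j
  by_cases h : j + i ∈ s
  · rw [Finset.piecewise_eq_of_mem _ _ _ ((mem_trans p).2 h), Finset.piecewise_eq_of_mem _ _ _ h]
  · rw [Finset.piecewise_eq_of_notMem _ _ _ (fun h' => h ((mem_trans p).1 h')),
      Finset.piecewise_eq_of_notMem _ _ _ h]

theorem TT_add (a b : A) : ∃ z, TT p (a + b) - (TT p a + TT p b) = (tG p τ hτ).tr z := by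
  classical
  have h1 : TT p (a + b) = ∑ s, mx p a b s := by
    have := (PiTensorProduct.tprod ℤ_[p] (s := fun _ : ZMod p => A)).map_add_univ
      (fun _ => a) (fun _ => b)
    exact this
  obtain ⟨z, hz⟩ := orbit_sum (tG p τ hτ) (trans p) (trans_zero p) (trans_add p) (mx p a b)
    (fun i s => by rw [tG_act]; exact mx_trans p a b i s)
    (Finset.univ.filter (fun s => trans p 1 s ≠ s)) (by
      intro s hs i
      rw [Finset.mem_filter] at hs ⊢
      refine ⟨Finset.mem_univ _, fun h => hs.2 ?_⟩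
      rw [← trans_add, add_comm, trans_add] at h
      have h3 := congrArg (trans p (-i)) h
      rw [← trans_add p (-i) i, ← trans_add p (-i) i, neg_add_cancel, trans_zero, trans_zero] at h3
      exact h3) (by
      intro s hs
      exact (Finset.mem_filter.1 hs).2)
  refine ⟨z, ?_⟩
  have h2 : (Finset.univ.filter (fun s : Finset (ZMod p) => ¬ (trans p 1 s ≠ s))) =
      {∅, Finset.univ} := by
    ext s
    rw [Finset.mem_filter, not_not, Finset.mem_insert, Finset.mem_singleton]
    constructor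
    · rintro ⟨_, h⟩
      exact trans_fix p h
    · rintro (rfl | rfl)
      · refine ⟨Finset.mem_univ _, ?_⟩
        ext j
        simp [mem_trans]
      · refine ⟨Finset.mem_univ _, ?_⟩
        ext j
        simp [mem_trans]
  have h3 : (∅ : Finset (ZMod p)) ≠ Finset.univ := by
    intro h
    have := Finset.mem_univ (0 : ZMod p)
    rw [← h] at this
    exact absurd this (Finset.notMem_empty _)
  rw [h1, ← Finset.sum_filter_add_sum_filter_not Finset.univ (fun s => trans p 1 s ≠ s), h2,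
    Finset.sum_pair h3, hz]
  have h4 : mx p a b ∅ = TT p b := by rw [mx, Finset.piecewise_empty]; rfl
  have h5 : mx p a b Finset.univ = TT p a := by rw [mx, Finset.piecewise_univ]; rfl
  rw [h4, h5]
  abel

theorem dvd_pow_sub (r : ℤ_[p]) : (p : ℤ_[p]) ∣ r ^ p - r := by
  have h : PadicInt.toZMod (r ^ p - r) = 0 := by
    rw [map_sub, map_pow, ZMod.pow_card, sub_self]
  have h1 : r ^ p - r ∈ RingHom.ker (PadicInt.toZMod (p := p)) := h
  rw [PadicInt.ker_toZMod, PadicInt.maximalIdeal_eq_span_p, Ideal.mem_span_singleton] at h1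
  exact h1

theorem tr_smul (t : TwTr p (TP p A)) (ht : ∀ i x, t.act i x = sh p i x) (r : ℤ_[p])
    (x : TP p A) : t.tr (r • x) = r • t.tr x := by
  rw [TwTr.tr_apply, TwTr.tr_apply, Finset.smul_sum]
  apply Finset.sum_congr rfl
  intro i _
  rw [ht, ht, map_smul]

theorem TT_smul_sub (r : ℤ_[p]) (a : A) :
    ∃ z, TT p (r • a) - r • TT p a = (tG p τ hτ).tr z := by
  obtain ⟨s, hs⟩ := dvd_pow_sub p r
  refine ⟨s • TT p a, ?_⟩
  rw [tr_smul p _ (fun _ _ => rfl), (tG p τ hτ).tr_fix (fun i => sh_TT p i a), TT_smul,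
    ← sub_smul, hs, mul_comm (p : ℤ_[p]) s, mul_smul]
  congr 1
  rw [← nsmul_eq_mul, Nat.cast_smul_eq_nsmul]

/-- the inclusion of the `j`-th factor -/
noncomputable def kk (j : ZMod p) : A →+* TP p A :=
  (PiTensorProduct.singleAlgHom (R := ℤ_[p]) (A := fun _ : ZMod p => A) j).toRingHom

theorem kk_apply (j : ZMod p) (a : A) : kk p j a = tp p (Pi.mulSingle j a) := rfl

theorem kk_comm (i j : ZMod p) {a b : A} (h : a * b = b * a) : kk p i a * kk p j b = kk p j b * kk p i a := by
  by_cases hij : i = j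
  · subst hij
    rw [← map_mul, ← map_mul, h]
  · rw [kk_apply, kk_apply, tp_mul, tp_mul]
    congr 1
    funext l
    by_cases h1 : l = i
    · subst h1
      rw [Pi.mulSingle_eq_same, Pi.mulSingle_eq_of_ne hij, mul_one, one_mul]
    · rw [Pi.mulSingle_eq_of_ne h1, mul_one, one_mul]

include hτ in
theorem kap_sh (i : ZMod p) (x : TP p A) : kap p τ (sh p i x) = kap p τ x :=
  (tG p τ hτ).κ_act i x

include hτ in
theorem kap_kk (j : ZMod p) (a : A) : kap p τ (kk p j a) = τ a := by
  have h1 : sh p j (kk p j a) = kk p 0 a := by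
    rw [kk_apply, kk_apply, sh_tp]
    congr 1
    funext l
    by_cases h : l = 0
    · subst h
      rw [zero_add, Pi.mulSingle_eq_same, Pi.mulSingle_eq_same]
    · rw [Pi.mulSingle_eq_of_ne h, Pi.mulSingle_eq_of_ne (fun h' => h (by simpa using h'))]
  rw [← kap_sh p τ hτ j, h1, kk_apply, kap_tp]
  congr 1
  have h2 : ∀ n : ℕ, n < p → oprod (fun n => (Pi.mulSingle (0 : ZMod p) a : ZMod p → A) n)
      (n + 1) = a := by
    intro n
    induction n with
    | zero =>
      intro _
      rw [oprod_succ, oprod_zero, one_mul, Nat.cast_zero, Pi.mulSingle_eq_same]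
    | succ n ih =>
      intro hn
      rw [oprod_succ, ih (by omega), Pi.mulSingle_eq_of_ne, mul_one]
      intro h
      rw [ZMod.natCast_eq_zero_iff] at h
      exact absurd (Nat.le_of_dvd (Nat.succ_pos n) h) (by omega)
  have h3 := h2 (p - 1) (by have := hp.out.pos; omega)
  rwa [Nat.sub_add_cancel hp.out.pos] at h3

/-- `kap τ` as an additive map -/
noncomputable def kapA : TP p A →+ ℤ_[p] := (kap p τ).toAddMonoidHom

/-- `τ` as an additive map -/
noncomputable def tauA : A →+ ℤ_[p] := τ.toAddMonoidHom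

include hτ in
theorem L_TT (x : A) : L (kapA p τ) (TT p (1 + (p : A) * x)) =
    p * L (tauA p τ) (1 + (p : A) * x) := by
  classical
  set u := 1 + (p : A) * x with hu
  have hcl : ∀ y ∈ Set.range (fun j => kk p j x), ∀ z ∈ Set.range (fun j => kk p j x),
      y * z = z * y := by
    rintro _ ⟨i, rfl⟩ _ ⟨j, rfl⟩
    exact kk_comm p i j rfl
  let S : Subring (TP p A) := Subring.closure (Set.range (fun j => kk p j x))
  have hS : ∀ a ∈ S, ∀ b ∈ S, a * b = b * a := by
    intro a ha b hb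
    have := (Subring.isMulCommutative_closure hcl).is_comm.comm (⟨a, ha⟩ : S) ⟨b, hb⟩
    exact congrArg Subtype.val this
  have hk : ∀ j, kk p j u = 1 + (p : TP p A) * kk p j x := by
    intro j
    rw [hu, map_add, map_one, map_mul, map_natCast]
  have hL : ∀ j, L (kapA p τ) (kk p j u) = L (tauA p τ) u := by
    intro j
    rw [L_map]
    apply L_congr_fun
    intro a
    exact kap_kk p τ hτ j a
  have key : ∀ s : Finset (ZMod p), (∃ y ∈ S, mx p u 1 s = 1 + (p : TP p A) * y) ∧
      L (kapA p τ) (mx p u 1 s) = s.card * L (tauA p τ) u := by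
    intro s
    induction s using Finset.induction_on with
    | empty =>
      have h0 : mx p u 1 ∅ = 1 := by rw [mx, Finset.piecewise_empty]; rfl
      refine ⟨⟨0, S.zero_mem, ?_⟩, ?_⟩
      · rw [h0]; simp
      · rw [h0, L_one]; simp
    | insert j s hj ih =>
      obtain ⟨⟨y, hy, hy'⟩, ih2⟩ := ih
      have e1 : mx p u 1 (insert j s) = kk p j u * mx p u 1 s := by
        rw [mx, mx, kk_apply, tp_mul]
        congr 1
        funext l
        by_cases h : l = j
        · subst h
          rw [Finset.piecewise_eq_of_mem _ _ _ (Finset.mem_insert_self _ _),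
            Pi.mulSingle_eq_same, Finset.piecewise_eq_of_notMem _ _ _ hj, mul_one]
        · rw [Pi.mulSingle_eq_of_ne h, one_mul]
          by_cases h2 : l ∈ s
          · rw [Finset.piecewise_eq_of_mem _ _ _ (Finset.mem_insert_of_mem h2),
              Finset.piecewise_eq_of_mem _ _ _ h2]
          · rw [Finset.piecewise_eq_of_notMem _ _ _ (fun h3 => by
              rcases Finset.mem_insert.1 h3 with h4 | h4
              · exact h h4
              · exact h2 h4), Finset.piecewise_eq_of_notMem _ _ _ h2]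
      have hx : kk p j x ∈ S := Subring.subset_closure ⟨j, rfl⟩
      refine ⟨⟨kk p j x + y + (p : TP p A) * (kk p j x * y), ?_, ?_⟩, ?_⟩
      · exact S.add_mem (S.add_mem hx hy) (S.mul_mem (natCast_mem S p) (S.mul_mem hx hy))
      · rw [e1, hk, hy', add_mul, one_mul, mul_add, mul_one, mul_add, mul_add,
          mul_assoc (p : TP p A) (kk p j x), ← mul_assoc (kk p j x), ← p_comm (kk p j x)]
        simp only [mul_assoc]
        abel
      · rw [e1, hk, hy', L_mul_sub (kapA p τ) S (fun a ha b hb => by rw [hS a ha b hb]) hx hy,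
          ← hk, ← hy', ih2, hL, Finset.card_insert_of_notMem hj]
        push_cast
        ring
  have h1 := (key Finset.univ).2
  have h2 : mx p u 1 Finset.univ = TT p u := by rw [mx, Finset.piecewise_univ]; rfl
  rw [h2, Finset.card_univ, ZMod.card] at h1
  exact h1

section Free

variable [Module.Free ℤ_[p] A]

theorem smul_inj {n : ℕ} (hn : n ≠ 0) {x y : TP p A} (h : (n : TP p A) * x = (n : TP p A) * y) :
    x = y := by
  let b := Module.Free.chooseBasis ℤ_[p] A
  let B := Basis.piTensorProduct (fun _ : ZMod p => b)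
  apply B.repr.injective
  ext i
  have h1 := congrArg (fun z => B.repr z i) h
  have h2 : ∀ z : TP p A, B.repr ((n : TP p A) * z) i = n * B.repr z i := by
    intro z
    rw [← nsmul_eq_mul, map_nsmul, Finsupp.smul_apply, nsmul_eq_mul]
  simp only [h2] at h1
  have hn0 : (n : ℤ_[p]) ≠ 0 := by exact_mod_cast hn
  exact mul_left_cancel₀ hn0 h1

theorem fix_of_mul (t : TwTr p (TP p A)) {n : ℕ} (hn : n ≠ 0) {x : TP p A}
    (h : t.Fix ((n : TP p A) * x)) : t.Fix x := by
  intro i
  apply smul_inj p hn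
  have := h i
  rwa [map_mul, map_natCast] at this

end Free

end Pool.Agent.H71.KP

end
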