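import Pool.Agent.H13.TFQ.H71.FQ.Fun_1
import Pool.Agent.H13.TFQ.H71.FQ.LocF
import Pool.Agent.H13.TFQ.M24
import Pool.Agent.H13.TFQ.M51
import Pool.Agent.H13.TFQ.M53

/-! The parts of this file: H71.FQ.LocR, H16.FU.Dir. -/

section

/-!
# Project FQ: directed unions of coefficient rings

If every finite subset of `R` lies in a subring `R'` for which the assembly map of `R'[G]` is rationally injective,
then the assembly map of `R[G]` is rationally injective.
-/

set_option autoImplicit false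

open Matrix

universe u u' v w

namespace Pool.Agent.H71.FQ

open Pool.Agent.H71.FJ (IdemMat K0 K0.mk K0.map K0.map_map)
open Pool.Agent.H95.WH (FamSub conjHom FinSub)

section

variable {A : Type u} [Ring A]

/-- an idempotent matrix comes from all rings which contain a finite set -/
theorem exists_idemMat (a : IdemMat A) : ∃ S : Finset A, ∀ {A' : Type w} [Ring A']
    (f : A' →+* A), Function.Injective f → (∀ s ∈ S, s ∈ Set.range f) →
      ∃ b : IdemMat A', b.map f = a := by
  classical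
  refine ⟨Finset.univ.image fun p : Fin a.n × Fin a.n => a.mat p.1 p.2, ?_⟩
  intro A' _ f hf hS
  have h1 : ∀ i j, ∃ c, f c = a.mat i j := fun i j =>
    hS _ (Finset.mem_image.2 ⟨(i, j), Finset.mem_univ _, rfl⟩)
  choose V hV using h1
  have e1 : (Matrix.of V).map f = a.mat := Matrix.ext hV
  have hid : Matrix.of V * Matrix.of V = Matrix.of V := by
    have h2 : (Matrix.of V * Matrix.of V).map f = (Matrix.of V).map f := by
      rw [Matrix.map_mul, e1, a.idem]
    refine Matrix.ext fun i j => hf ?_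
    have h3 := congrFun (congrFun h2 i) j
    rw [Matrix.map_apply, Matrix.map_apply] at h3
    exact h3
  refine ⟨⟨a.n, Matrix.of V, hid⟩, ?_⟩
  unfold IdemMat.map
  cases a
  simp only at e1
  simp only [e1]

/-- a class in `K₀` comes from all rings which contain a finite set -/
theorem K0_exists_lift (x : K0 A) : ∃ S : Finset A, ∀ {A' : Type w} [Ring A']
    (f : A' →+* A), Function.Injective f → (∀ s ∈ S, s ∈ Set.range f) →
      ∃ y : K0 A', K0.map f y = x := by
  classical
  obtain ⟨w, rfl⟩ := QuotientAddGroup.mk_surjective x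
  induction w using FreeAbelianGroup.induction_on with
  | zero =>
    refine ⟨∅, ?_⟩
    intro A' _ f hf h
    exact ⟨0, map_zero _⟩
  | of a =>
    obtain ⟨S, hS⟩ := exists_idemMat.{u, w} a
    refine ⟨S, ?_⟩
    intro A' _ f hf h
    obtain ⟨b, hb⟩ := hS f hf h
    refine ⟨K0.mk b, ?_⟩
    rw [Pool.Agent.H71.FJ.K0.map_mk', hb]
    rfl
  | neg a ha =>
    obtain ⟨S, hS⟩ := ha
    refine ⟨S, ?_⟩
    intro A' _ f hf h
    obtain ⟨y, hy⟩ := hS f hf h
    exact ⟨-y, by rw [map_neg, hy]; rfl⟩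
  | add a b ha hb =>
    obtain ⟨S1, h1⟩ := ha
    obtain ⟨S2, h2⟩ := hb
    refine ⟨S1 ∪ S2, ?_⟩
    intro A' _ f hf h
    obtain ⟨y1, e1⟩ := h1 f hf fun s hs => h s (Finset.mem_union_left _ hs)
    obtain ⟨y2, e2⟩ := h2 f hf fun s hs => h s (Finset.mem_union_right _ hs)
    exact ⟨y1 + y2, by rw [map_add, e1, e2]; rfl⟩

end

section

variable {R : Type u} [Ring R] {S : Type u'} [Ring S] {G : Type v} [Group G] {n : ℕ}

/-- **The assembly map is natural in the coefficient ring.** -/
theorem assemblyN_ofHom (φ : R →+* S) (w : HnK0 R G n) :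
    assemblyN S n G ((NatK0.ofHom G φ).src n w) =
      KQ.map (MonoidAlgebra.mapRingHom G φ) (assemblyN R n G w) := by
  have h1 : (KQ.map (MonoidAlgebra.mapRingHom G φ)).comp (assemblyN R n G) =
      (assemblyN S n G).comp ((NatK0.ofHom G φ).src n) := by
    apply hnk0_ext
    intro F x z
    rw [AddMonoidHom.comp_apply, AddMonoidHom.comp_apply, NatK0.ofHom_asm, NatK0.src_sy]
  exact (DFunLike.congr_fun h1 w).symm

theorem src_comp {T : Type w} [Ring T] (φ : R →+* S) (ψ : S →+* T) (w : HnK0 R G n) :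
    (NatK0.ofHom G ψ).src n ((NatK0.ofHom G φ).src n w) =
      (NatK0.ofHom G (ψ.comp φ)).src n w := by
  have h1 : ((NatK0.ofHom G ψ).src n).comp ((NatK0.ofHom G φ).src n) =
      (NatK0.ofHom G (ψ.comp φ)).src n := by
    apply hnk0_ext
    intro F x z
    rw [AddMonoidHom.comp_apply, NatK0.src_sy, NatK0.src_sy, NatK0.src_sy, NatK0.ofHom_app,
      NatK0.ofHom_app, NatK0.ofHom_app, K0.map_map, ← MonoidAlgebra.mapRingHom_comp]
  exact DFunLike.congr_fun h1 w

theorem mapRingHom_injective' {φ : R →+* S} (hφ : Function.Injective φ) (M : Type*) [Monoid M] :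
    Function.Injective (MonoidAlgebra.mapRingHom M φ) := by
  intro a b h
  apply MonoidAlgebra.ext
  apply Finsupp.ext
  intro m
  apply hφ
  have h1 := congrArg (fun c : MonoidAlgebra S M => c.coeff m) h
  simpa using h1

theorem mem_range_mapRingHom (R' : Subring R) (M : Type*) [Monoid M] (a : MonoidAlgebra R M)
    (h : ∀ m, a.coeff m ∈ R') :
    a ∈ Set.range (MonoidAlgebra.mapRingHom M R'.subtype) := by
  classical
  have h1 : ∀ m, ∃ c : R', (c : R) = a.coeff m := fun m => ⟨⟨a.coeff m, h m⟩, rfl⟩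
  refine ⟨∑ m ∈ a.coeff.support, MonoidAlgebra.single m ⟨a.coeff m, h m⟩, ?_⟩
  rw [map_sum]
  simp only [MonoidAlgebra.mapRingHom_single, Subring.subtype_apply]
  exact MonoidAlgebra.sum_single a

/-- **Every class comes from the subrings which contain a finite set.** -/
theorem HnK0_exists_lift_ring (z : HnK0 R G n) :
    ∃ S : Finset R, ∀ R' : Subring R, (∀ s ∈ S, s ∈ R') →
      ∃ y : HnK0 R' G n, (NatK0.ofHom G R'.subtype).src n y = z := by
  classical
  induction z using hnk0_induction with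
  | h0 => exact ⟨∅, fun R' _ => ⟨0, map_zero _⟩⟩
  | h1 F x z =>
    obtain ⟨S, hS⟩ := K0_exists_lift.{max u v, max u v} x
    refine ⟨S.biUnion fun a => a.coeff.support.image a.coeff, ?_⟩
    intro R' hR'
    obtain ⟨y, hy⟩ := hS (MonoidAlgebra.mapRingHom F.1 R'.subtype)
      (mapRingHom_injective' Subtype.val_injective F.1) (by
        intro a ha
        apply mem_range_mapRingHom R' F.1 a
        intro m
        by_cases hm : a.coeff m = 0
        · rw [hm]
          exact R'.zero_mem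
        · exact hR' _ (Finset.mem_biUnion.2 ⟨a, ha, Finset.mem_image.2
            ⟨m, Finsupp.mem_support_iff.2 hm, rfl⟩⟩))
    refine ⟨sy F y z, ?_⟩
    rw [NatK0.src_sy, NatK0.ofHom_app, hy]
  | h2 a b ha hb =>
    obtain ⟨S1, h1⟩ := ha
    obtain ⟨S2, h2⟩ := hb
    refine ⟨S1 ∪ S2, fun G' hG' => ?_⟩
    obtain ⟨y1, e1⟩ := h1 G' fun s hs => hG' s (Finset.mem_union_left _ hs)
    obtain ⟨y2, e2⟩ := h2 G' fun s hs => hG' s (Finset.mem_union_right _ hs)
    exact ⟨y1 + y2, by rw [map_add, e1, e2]⟩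
  | h3 a ha =>
    obtain ⟨S, hS⟩ := ha
    refine ⟨S, fun G' hG' => ?_⟩
    obtain ⟨y, hy⟩ := hS G' hG'
    exact ⟨-y, by rw [map_neg, hy]⟩

/-- **Directed unions of coefficient rings.** -/
theorem ratInj_directed_ring (P : Subring R → Prop)
    (hP : ∀ S : Finset R, ∃ R' : Subring R, P R' ∧ ∀ x ∈ S, x ∈ R')
    (h : ∀ R' : Subring R, P R' → RatInj (assemblyN R' n G)) : RatInj (assemblyN R n G) := by
  classical
  rw [ratInj_iff]
  intro z M hM hz
  obtain ⟨S, hS⟩ := HnK0_exists_lift_ring z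
  obtain ⟨z1, hz1⟩ := hS (Subring.closure (S : Set R)) fun s hs => Subring.subset_closure hs
  have h1 : KQ.map (MonoidAlgebra.mapRingHom G (Subring.closure (S : Set R)).subtype)
      (M • assemblyN (Subring.closure (S : Set R)) n G z1) = 0 := by
    rw [map_zsmul, ← assemblyN_ofHom, hz1, hz]
  obtain ⟨T, hT⟩ := KQ.exists_zero.{max u v, max u v, max u v} _ _ h1
  obtain ⟨R', hPR, hR'⟩ := hP (S ∪ T.biUnion fun a => a.coeff.support.image a.coeff)
  have hle : Subring.closure (S : Set R) ≤ R' := by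
    rw [Subring.closure_le]
    intro s hs
    exact hR' s (Finset.mem_union_left _ hs)
  have hcomp : R'.subtype.comp (Subring.inclusion hle) =
      (Subring.closure (S : Set R)).subtype := rfl
  have h2 : KQ.map (MonoidAlgebra.mapRingHom G (Subring.inclusion hle))
      (M • assemblyN (Subring.closure (S : Set R)) n G z1) = 0 := by
    refine hT (MonoidAlgebra.mapRingHom G R'.subtype) _
      (mapRingHom_injective' Subtype.val_injective G) ?_ ?_
    · rw [← hcomp, MonoidAlgebra.mapRingHom_comp]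
    · intro a ha
      apply mem_range_mapRingHom R' G a
      intro m
      by_cases hm : a.coeff m = 0
      · rw [hm]
        exact R'.zero_mem
      · exact hR' _ (Finset.mem_union_right _ (Finset.mem_biUnion.2 ⟨a, ha, Finset.mem_image.2
          ⟨m, Finsupp.mem_support_iff.2 hm, rfl⟩⟩))
  rw [map_zsmul, ← assemblyN_ofHom] at h2
  obtain ⟨m, hm, h3⟩ := ratInj_iff.1 (h R' hPR) _ M hM h2
  refine ⟨m, hm, ?_⟩
  have h4 := congrArg ((NatK0.ofHom G R'.subtype).src n) h3
  rw [map_zsmul, src_comp, map_zero, hcomp, hz1] at h4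
  exact h4

end

end Pool.Agent.H71.FQ

end

section

/-!
# Project FU: directed unions of coefficient rings

PROOFS. As in FQ/LocR.lean: `K1_exists_lift` (the entries of an invertible matrix and its inverse; induction over
`K1` is `K1_induction` in DO/Units.lean or `QuotientAddGroup.induction_on`), `HnK1_exists_lift` (as
`HnK0_exists_lift_ring`), `ratInj01_of_local` (as `ratInj_directed_ring`: `KQ.exists_zero`; the subring generated by
the finite set of the lifts maps to `R'` by `exists_factor`).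
-/

set_option autoImplicit false

open Matrix

universe u u' v w

namespace Pool.Agent.H16.FU

open Pool.Agent.H71.FQ
open Pool.Agent.H71.FJ (K0 K0.map K0.map_map)
open Pool.Agent.H95.WH (K1 K1.mk K1.unit K1.map K1.map_mk K1.map_map FamSub conjHom FinSub)

/-- an invertible matrix comes from all rings which contain a finite set -/
private theorem exists_glMat {A : Type u} [Ring A] {m : ℕ} (U : (Matrix (Fin m) (Fin m) A)ˣ) :
    ∃ S : Finset A, ∀ {A' : Type w} [Ring A'] (f : A' →+* A), Function.Injective f →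
      (∀ s ∈ S, s ∈ Set.range f) → ∃ V : (Matrix (Fin m) (Fin m) A')ˣ,
        Pool.Agent.H95.WH.K1.mapU f V = U := by
  classical
  refine ⟨(Finset.univ.image fun p : Fin m × Fin m => (U : Matrix (Fin m) (Fin m) A) p.1 p.2) ∪
    Finset.univ.image fun p : Fin m × Fin m =>
      ((U⁻¹ : (Matrix (Fin m) (Fin m) A)ˣ) : Matrix (Fin m) (Fin m) A) p.1 p.2, ?_⟩
  intro A' _ f hf hS
  have h1 : ∀ i j, ∃ c, f c = (U : Matrix (Fin m) (Fin m) A) i j := fun i j =>
    hS _ (Finset.mem_union_left _ (Finset.mem_image.2 ⟨(i, j), Finset.mem_univ _, rfl⟩))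
  have h2 : ∀ i j, ∃ c, f c =
      ((U⁻¹ : (Matrix (Fin m) (Fin m) A)ˣ) : Matrix (Fin m) (Fin m) A) i j := fun i j =>
    hS _ (Finset.mem_union_right _ (Finset.mem_image.2 ⟨(i, j), Finset.mem_univ _, rfl⟩))
  choose V hV using h1
  choose W hW using h2
  have e1 : (Matrix.of V).map f = (U : Matrix (Fin m) (Fin m) A) := Matrix.ext hV
  have e2 : (Matrix.of W).map f =
      ((U⁻¹ : (Matrix (Fin m) (Fin m) A)ˣ) : Matrix (Fin m) (Fin m) A) := Matrix.ext hW
  have hinj : ∀ X Y : Matrix (Fin m) (Fin m) A', X.map f = Y.map f → X = Y := by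
    intro X Y h
    refine Matrix.ext fun i j => hf ?_
    have h3 := congrFun (congrFun h i) j
    rw [Matrix.map_apply, Matrix.map_apply] at h3
    exact h3
  have hone : (1 : Matrix (Fin m) (Fin m) A').map f = 1 :=
    Matrix.map_one f (map_zero f) (map_one f)
  refine ⟨⟨Matrix.of V, Matrix.of W, hinj _ _ ?_, hinj _ _ ?_⟩, Units.ext e1⟩
  · rw [Matrix.map_mul, e1, e2, hone, Units.mul_inv]
  · rw [Matrix.map_mul, e1, e2, hone, Units.inv_mul]

/-- a class in `K₁` comes from all rings which contain a finite set -/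
theorem K1_exists_lift {A : Type u} [Ring A] (x : K1 A) : ∃ S : Finset A, ∀ {A' : Type w} [Ring A']
    (f : A' →+* A), Function.Injective f → (∀ s ∈ S, s ∈ Set.range f) →
      ∃ y : K1 A', K1.map f y = x := by
  classical
  induction x using Pool.Agent.H71.DO.K1_induction with
  | h0 =>
    refine ⟨∅, ?_⟩
    intro A' _ f hf h
    exact ⟨0, map_zero _⟩
  | h1 m U =>
    obtain ⟨S, hS⟩ := exists_glMat.{u, w} U
    refine ⟨S, ?_⟩
    intro A' _ f hf h
    obtain ⟨V, hV⟩ := hS f hf h
    exact ⟨K1.mk V, by rw [K1.map_mk, hV]⟩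
  | h2 a b ha hb =>
    obtain ⟨S1, h1⟩ := ha
    obtain ⟨S2, h2⟩ := hb
    refine ⟨S1 ∪ S2, ?_⟩
    intro A' _ f hf h
    obtain ⟨y1, e1⟩ := h1 f hf fun s hs => h s (Finset.mem_union_left _ hs)
    obtain ⟨y2, e2⟩ := h2 f hf fun s hs => h s (Finset.mem_union_right _ hs)
    exact ⟨y1 + y2, by rw [map_add, e1, e2]⟩
  | h3 a ha =>
    obtain ⟨S, hS⟩ := ha
    refine ⟨S, ?_⟩
    intro A' _ f hf h
    obtain ⟨y, hy⟩ := hS f hf h
    exact ⟨-y, by rw [map_neg, hy]⟩

section

variable {R : Type u} [Ring R] {G : Type v} [Group G] {n : ℕ}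

private theorem mem_range_mapR {R' : Type u'} [Ring R'] (f : R' →+* R) (M : Type*) [Monoid M]
    (a : MonoidAlgebra R M) (h : ∀ m, a.coeff m ∈ Set.range f) :
    a ∈ Set.range (MonoidAlgebra.mapRingHom M f) := by
  classical
  choose c hc using h
  refine ⟨∑ m ∈ a.coeff.support, MonoidAlgebra.single m (c m), ?_⟩
  rw [map_sum]
  simp only [MonoidAlgebra.mapRingHom_single, hc]
  exact MonoidAlgebra.sum_coeff_single a

open Classical in
/-- the coefficients of a finite set -/
noncomputable def cfs (M : Type*) [Monoid M] (S : Finset (MonoidAlgebra R M)) : Finset R :=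
  S.biUnion fun a => a.coeff.support.image a.coeff

theorem mem_cfs {R' : Type u'} [Ring R'] (f : R' →+* R) (M : Type*) [Monoid M]
    (S : Finset (MonoidAlgebra R M)) (h : ∀ s ∈ cfs M S, s ∈ Set.range f) (a : MonoidAlgebra R M)
    (ha : a ∈ S) : a ∈ Set.range (MonoidAlgebra.mapRingHom M f) := by
  classical
  apply mem_range_mapR f M a
  intro m
  by_cases hm : a.coeff m = 0
  · rw [hm]
    exact ⟨0, map_zero f⟩
  · refine h _ (Finset.mem_biUnion.2 ⟨a, ha, Finset.mem_image.2
      ⟨m, Finsupp.mem_support_iff.2 hm, rfl⟩⟩)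

theorem HnK0_exists_lift (z : HnK0 R G n) : ∃ S : Finset R, ∀ {R' : Type u'} [Ring R']
    (f : R' →+* R), Function.Injective f → (∀ s ∈ S, s ∈ Set.range f) →
      ∃ y : HnK0 R' G n, (NatK0.ofHom G f).src n y = z := by
  classical
  induction z using hnk0_induction with
  | h0 =>
    refine ⟨∅, ?_⟩
    intro R' _ f hf h
    exact ⟨0, map_zero _⟩
  | h1 F x z =>
    obtain ⟨S, hS⟩ := K0_exists_lift.{max u v, max u' v} x
    refine ⟨cfs F.1 S, ?_⟩
    intro R' _ f hf h
    obtain ⟨y, hy⟩ := hS (MonoidAlgebra.mapRingHom F.1 f) (mapRingHom_injective' hf F.1)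
      (mem_cfs f F.1 S h)
    refine ⟨sy F y z, ?_⟩
    rw [NatK0.src_sy, NatK0.ofHom_app, hy]
  | h2 a b ha hb =>
    obtain ⟨S1, h1⟩ := ha
    obtain ⟨S2, h2⟩ := hb
    refine ⟨S1 ∪ S2, ?_⟩
    intro A' _ f hf h
    obtain ⟨y1, e1⟩ := h1 f hf fun s hs => h s (Finset.mem_union_left _ hs)
    obtain ⟨y2, e2⟩ := h2 f hf fun s hs => h s (Finset.mem_union_right _ hs)
    exact ⟨y1 + y2, by rw [map_add, e1, e2]⟩
  | h3 a ha =>
    obtain ⟨S, hS⟩ := ha
    refine ⟨S, ?_⟩
    intro A' _ f hf h
    obtain ⟨y, hy⟩ := hS f hf h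
    exact ⟨-y, by rw [map_neg, hy]⟩

end

end Pool.Agent.H16.FU

end
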