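import Pool.Agent.H13.TFQ.M45
import Pool.Agent.H13.TFQ.M48
import Pool.Agent.H13.TFQ.M64
import Pool.Agent.H13.TFQ.M66

/-! The parts of this file: H16.FU.Gen2, H16.FU.Dir_1, H16.FU.Gen1. -/

section

/-!
# Project FU: the `K₁`-part over a field with enough roots of unity

PROOFS. `exists_decomp`: `D` cyclic of order `N` with generator `g`, `ζ ∈ F` a primitive `N`-th root of unity
(so `N ≠ 0` in `F`), `χ_l(g) = ζ ^ l`, `ε_l = N⁻¹ ∑_a χ_l(a⁻¹) a ∈ F[D]`: orthogonal idempotents with sum `1`, and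
`x ε_l = χ_l(x) ε_l` for `x ∈ k'[D]`; so `x = ∏_l (1 + ε_l (χ_l(x) - 1))` and `K₁.unit` of the factor is
`sbass D j (χ_l(x)) [ε_l]` (`bass_mk` with a `1 × 1` matrix).

`exists_gen01`: `mem_sat1`; `e` is the product of the orders of the groups `D` which occur (closure induction;
`IsPrimitiveRoot.pow`), `hn1 (sy1 D (K1.unit x) z) = sy1 D (K1.unit x') z` and `exists_decomp`.
-/

set_option autoImplicit false

open Matrix

universe t u v w

namespace Pool.Agent.H16.FU

open Pool.Agent.H71.FQ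
open Pool.Agent.H71.FJ (K0 K0.mk)
open Pool.Agent.H71.DB (bmat bU bmat_mul bmat_one bass bass_mk bass_mul bass_comp map_bass)
open Pool.Agent.H95.WH (K1 K1.mk K1.unit K1.map K1.map_mk K1.map_map FamSub conjHom FinSub)

section

/-- the product with a unit for a class of an idempotent of the ring -/
theorem sbass_one {F : Type t} [CommRing F] {k : Type u} [CommRing k] (H : Type v) [Group H]
    (j : F →+* k) (u : kˣ) (ε : MonoidAlgebra F H) (hε : ε * ε = ε) (x : (MonoidAlgebra k H)ˣ)
    (hx : (x : MonoidAlgebra k H) = 1 + MonoidAlgebra.mapRingHom H j ε * (sU H u - 1)) :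
    ∃ y : K0 (MonoidAlgebra F H), sbass H j u y = K1.unit x := by
  refine ⟨K0.mk ⟨1, Matrix.of fun _ _ => ε, ?_⟩, ?_⟩
  · refine Matrix.ext fun i j => ?_
    rw [Matrix.mul_apply, Fin.sum_univ_one]
    exact hε
  · unfold sbass
    rw [bass_mk, K1.unit]
    congr 1
    refine Units.ext (Matrix.ext fun i l => ?_)
    obtain rfl : i = l := Subsingleton.elim _ _
    show bmat _ _ _ i i = Matrix.scalar (Fin 1) (x : MonoidAlgebra k H) i i
    rw [Matrix.scalar_apply, Matrix.diagonal_apply_eq, hx, bmat, Matrix.add_apply,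
      Matrix.map_apply, Matrix.one_apply_eq]
    rfl

section Dec

set_option linter.unusedSectionVars false

variable {F : Type t} [Field F] {k : Type u} [Field k] {D : Type v} [Group D] [Fintype D]

/-- the idempotent of a character -/
noncomputable def chE (ψ : D →* Fˣ) (l : ℕ) : MonoidAlgebra F D :=
  ∑ d : D, MonoidAlgebra.single d ((Nat.card D : F)⁻¹ * ((ψ d⁻¹ : Fˣ) : F) ^ l)

/-- the homomorphism of a character -/
noncomputable def chR (j : F →+* k) (ψ : D →* Fˣ) (l : ℕ) : MonoidAlgebra k D →+* k :=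
  MonoidAlgebra.liftNCRingHom (RingHom.id k)
    ((j : F →* k).comp ((powMonoidHom l).comp ((Units.coeHom F).comp ψ)))
    fun _ _ => Commute.all _ _

private theorem chR_single (j : F →+* k) (ψ : D →* Fˣ) (l : ℕ) (h : D) (c : k) :
    chR j ψ l (MonoidAlgebra.single h c) = c * j (((ψ h : Fˣ) : F) ^ l) :=
  MonoidAlgebra.liftNC_single _ _ _ _

private theorem map_chE (j : F →+* k) (ψ : D →* Fˣ) (l : ℕ) :
    MonoidAlgebra.mapRingHom D j (chE ψ l) =
      ∑ d : D, MonoidAlgebra.single d (j ((Nat.card D : F)⁻¹ * ((ψ d⁻¹ : Fˣ) : F) ^ l)) := by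
  unfold chE
  rw [map_sum]
  exact Finset.sum_congr rfl fun d _ => MonoidAlgebra.mapRingHom_single _ _ _

theorem mul_chE (j : F →+* k) (ψ : D →* Fˣ) (l : ℕ) (x : MonoidAlgebra k D) :
    x * MonoidAlgebra.mapRingHom D j (chE ψ l) =
      MonoidAlgebra.single 1 (chR j ψ l x) * MonoidAlgebra.mapRingHom D j (chE ψ l) := by
  induction x using MonoidAlgebra.induction_linear with
  | zero => rw [zero_mul, map_zero, MonoidAlgebra.single_zero, zero_mul]
  | add a b ha hb => rw [add_mul, ha, hb, map_add, MonoidAlgebra.single_add, add_mul]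
  | single h c =>
    rw [chR_single, map_chE, Finset.mul_sum, Finset.mul_sum]
    refine Fintype.sum_equiv (Equiv.mulLeft h) _ _ fun d => ?_
    rw [MonoidAlgebra.single_mul_single, MonoidAlgebra.single_mul_single, one_mul,
      Equiv.coe_mulLeft]
    congr 1
    rw [mul_assoc, ← map_mul]
    congr 2
    have h1 : ((ψ d⁻¹ : Fˣ) : F) = (ψ h : Fˣ) * (ψ (h * d)⁻¹ : Fˣ) := by
      rw [← Units.val_mul, ← map_mul, _root_.mul_inv_rev]
      rw [map_mul, map_mul, mul_left_comm, ← map_mul ψ h, mul_inv_cancel, map_one, mul_one]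
    rw [h1, mul_pow]
    ring

private theorem sum_single' (d : D) (c : F) (f : ℕ → F) (s : Finset ℕ) :
    ∑ l ∈ s, MonoidAlgebra.single d (c * f l) = MonoidAlgebra.single d (c * ∑ l ∈ s, f l) := by
  classical
  induction s using Finset.induction_on with
  | empty => rw [Finset.sum_empty, Finset.sum_empty, mul_zero, MonoidAlgebra.single_zero]
  | insert a s ha ih =>
    rw [Finset.sum_insert ha, Finset.sum_insert ha, ih, mul_add, MonoidAlgebra.single_add]

theorem sum_chE (ψ : D →* Fˣ) (hψ : Function.Injective ψ) (hN : (Nat.card D : F) ≠ 0) :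
    ∑ l ∈ Finset.range (Nat.card D), chE ψ l = 1 := by
  unfold chE
  rw [Finset.sum_comm, Finset.sum_eq_single 1]
  · rw [sum_single' 1 ((Nat.card D : F)⁻¹) fun l => ((ψ (1 : D)⁻¹ : Fˣ) : F) ^ l, inv_one, map_one,
      Units.val_one]
    simp only [one_pow]
    rw [Finset.sum_const, Finset.card_range, nsmul_eq_mul, mul_one, inv_mul_cancel₀ hN]
    rfl
  · intro d _ hd
    have h1 : ((ψ d⁻¹ : Fˣ) : F) ≠ 1 := by
      intro h
      have h2 : ψ d⁻¹ = 1 := Units.ext h
      rw [← map_one ψ] at h2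
      exact hd (inv_eq_one.1 (hψ h2))
    have h2 : ((ψ d⁻¹ : Fˣ) : F) ^ Nat.card D = 1 := by
      rw [← Units.val_pow_eq_pow_val, ← map_pow, pow_card_eq_one', map_one, Units.val_one]
    have h3 : ∑ l ∈ Finset.range (Nat.card D), ((ψ d⁻¹ : Fˣ) : F) ^ l = 0 := by
      have h4 := geom_sum_mul ((ψ d⁻¹ : Fˣ) : F) (Nat.card D)
      rw [h2, sub_self] at h4
      exact (mul_eq_zero.1 h4).resolve_right (sub_ne_zero.2 h1)
    rw [sum_single' d ((Nat.card D : F)⁻¹) fun l => ((ψ d⁻¹ : Fˣ) : F) ^ l, h3, mul_zero,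
      MonoidAlgebra.single_zero]
  · intro h
    exact absurd (Finset.mem_univ _) h

private theorem chR_chE (ψ : D →* Fˣ) (l m : ℕ) :
    chR (RingHom.id F) ψ m (chE ψ l) =
      ∑ d : D, (Nat.card D : F)⁻¹ * ((ψ d⁻¹ : Fˣ) : F) ^ l * ((ψ d : Fˣ) : F) ^ m := by
  unfold chE
  rw [map_sum]
  exact Finset.sum_congr rfl fun d _ => chR_single _ _ _ _ _

theorem chE_mul_self (ψ : D →* Fˣ) (l : ℕ) (hN : (Nat.card D : F) ≠ 0) :
    chE ψ l * chE ψ l = chE ψ l := by
  have h := mul_chE (RingHom.id F) ψ l (chE ψ l)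
  rw [MonoidAlgebra.mapRingHom_id, RingHom.id_apply, chR_chE] at h
  rw [h]
  have h1 : ∀ d ∈ (Finset.univ : Finset D), (Nat.card D : F)⁻¹ * ((ψ d⁻¹ : Fˣ) : F) ^ l *
      ((ψ d : Fˣ) : F) ^ l = (Nat.card D : F)⁻¹ := by
    intro d _
    rw [mul_assoc, ← mul_pow, ← Units.val_mul, ← map_mul, inv_mul_cancel, map_one, Units.val_one,
      one_pow, mul_one]
  rw [Finset.sum_congr rfl h1, Finset.sum_const, Finset.card_univ, ← Nat.card_eq_fintype_card,
    nsmul_eq_mul, mul_inv_cancel₀ hN]
  exact one_mul _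

theorem chE_mul_of_ne (ψ : D →* Fˣ) (l m : ℕ) (g : D)
    (h : ((ψ g : Fˣ) : F) ^ l ≠ ((ψ g : Fˣ) : F) ^ m) : chE ψ l * chE ψ m = 0 := by
  have h0 := mul_chE (RingHom.id F) ψ m (chE ψ l)
  rw [MonoidAlgebra.mapRingHom_id, RingHom.id_apply, chR_chE] at h0
  rw [h0]
  have h1 : (∑ d : D, (Nat.card D : F)⁻¹ * ((ψ d⁻¹ : Fˣ) : F) ^ l * ((ψ d : Fˣ) : F) ^ m) *
      ((ψ g : Fˣ) : F) ^ l = (∑ d : D, (Nat.card D : F)⁻¹ * ((ψ d⁻¹ : Fˣ) : F) ^ l *
        ((ψ d : Fˣ) : F) ^ m) * ((ψ g : Fˣ) : F) ^ m := by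
    rw [Finset.sum_mul, Finset.sum_mul]
    symm
    refine Fintype.sum_equiv (Equiv.mulLeft g) _ _ fun d => ?_
    rw [Equiv.coe_mulLeft]
    have h2 : ((ψ d⁻¹ : Fˣ) : F) = (ψ g : Fˣ) * (ψ (g * d)⁻¹ : Fˣ) := by
      rw [← Units.val_mul, ← map_mul, _root_.mul_inv_rev]
      rw [map_mul, map_mul, mul_left_comm, ← map_mul ψ g, mul_inv_cancel, map_one, mul_one]
    rw [h2, mul_pow, map_mul ψ g d, Units.val_mul, mul_pow]
    ring
  have h3 : (∑ d : D, (Nat.card D : F)⁻¹ * ((ψ d⁻¹ : Fˣ) : F) ^ l * ((ψ d : Fˣ) : F) ^ m) = 0 := by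
    by_contra h4
    exact h (mul_left_cancel₀ h4 h1)
  rw [h3, MonoidAlgebra.single_zero, zero_mul]

end Dec

/-- The elements `hn01 u [D, y, z]` with `D` finite cyclic of order invertible in `F`. -/
def VSet {F : Type t} [CommRing F] {k : Type u} [CommRing k] (j : F →+* k) (G : Type v) [Group G]
    (n : ℕ) : Set (HnK1 k G n) :=
  {w | ∃ (D : FamSub G FinSub) (_ : IsCyclic D.1), (∀ h : D.1, (orderOf h : F) ≠ 0) ∧
    ∃ (u : kˣ) (y : K0 (MonoidAlgebra F D.1)) (z : HG (Subgroup.centralizer (D.1 : Set G)) n),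
      w = hn01 j u (sy D y z)}

end

end Pool.Agent.H16.FU

end

section

/-!
# Project FU: directed unions of coefficient rings

PROOFS. As in FQ/LocR.lean: `K1_exists_lift` (the entries of an invertible matrix and its inverse; induction over
`K1` is `K1_induction` in DO/Units.lean or `QuotientAddGroup.induction_on`), `HnK1_exists_lift` (as
`HnK0_exists_lift_ring`), `ratInj01_of_local` (as `ratInj_directed_ring`: `KQ.exists_zero`; the subring generated by
the finite set of the lifts maps to `R'` by `exists_factor`).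
-/

set_option autoImplicit false

open Matrix

universe u u' v w

namespace Pool.Agent.H16.FU

open Pool.Agent.H71.FQ
open Pool.Agent.H71.FJ (K0 K0.map K0.map_map)
open Pool.Agent.H95.WH (K1 K1.mk K1.unit K1.map K1.map_mk K1.map_map FamSub conjHom FinSub)

section

variable {R : Type u} [Ring R] {G : Type v} [Group G] {n : ℕ}

/-- **Every class comes from the rings which contain a finite set.** -/
theorem HnK1_exists_lift (z : HnK1 R G n) : ∃ S : Finset R, ∀ {R' : Type u'} [Ring R']
    (f : R' →+* R), Function.Injective f → (∀ s ∈ S, s ∈ Set.range f) →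
      ∃ y : HnK1 R' G n, hn1 f y = z := by
  classical
  induction z using hnk1_induction with
  | h0 =>
    refine ⟨∅, ?_⟩
    intro R' _ f hf h
    exact ⟨0, map_zero _⟩
  | h1 F x z =>
    obtain ⟨S, hS⟩ := K1_exists_lift.{max u v, max u' v} x
    refine ⟨cfs F.1 S, ?_⟩
    intro R' _ f hf h
    obtain ⟨y, hy⟩ := hS (MonoidAlgebra.mapRingHom F.1 f) (mapRingHom_injective' hf F.1)
      (mem_cfs f F.1 S h)
    exact ⟨sy1 F y z, by rw [hn1_sy1, hy]⟩
  | h2 a b ha hb =>
    obtain ⟨S1, h1⟩ := ha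
    obtain ⟨S2, h2⟩ := hb
    refine ⟨S1 ∪ S2, ?_⟩
    intro A' _ f hf h
    obtain ⟨y1, e1⟩ := h1 f hf fun s hs => h s (Finset.mem_union_left _ hs)
    obtain ⟨y2, e2⟩ := h2 f hf fun s hs => h s (Finset.mem_union_right _ hs)
    exact ⟨y1 + y2, by rw [map_add, e1, e2]⟩
  | h3 a ha =>
    obtain ⟨S, hS⟩ := ha
    refine ⟨S, ?_⟩
    intro A' _ f hf h
    obtain ⟨y, hy⟩ := hS f hf h
    exact ⟨-y, by rw [map_neg, hy]⟩

private theorem exists_fac {A : Type*} [Ring A] {R' : Type*} [Ring R'] (f : R' →+* R)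
    (hf : Function.Injective f) (ι : A →+* R) (h : ∀ a, ι a ∈ Set.range f) :
    ∃ φ : A →+* R', f.comp φ = ι := by
  choose c hc using h
  refine ⟨⟨⟨⟨c, hf ?_⟩, fun a b => hf ?_⟩, hf ?_, fun a b => hf ?_⟩, RingHom.ext hc⟩
  · rw [hc, map_one, map_one]
  · rw [hc, map_mul, map_mul, hc, hc]
  · change f (c 0) = f 0
    rw [hc, map_zero, map_zero]
  · change f (c (a + b)) = f (c a + c b)
    rw [hc, map_add, map_add, hc, hc]

private theorem asm01_map {R' : Type u'} [Ring R'] (f : R' →+* R) (y : HnK0 R' G (n + 1))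
    (y' : HnK1 R' G n) :
    assembly01 R n G ((NatK0.ofHom G f).src (n + 1) y, hn1 f y') =
      KQ.map (MonoidAlgebra.mapRingHom G f) (assembly01 R' n G (y, y')) := by
  unfold assembly01
  rw [AddMonoidHom.coprod_apply, AddMonoidHom.coprod_apply, map_add, assemblyN_ofHom,
    map_assembly1]

/-- **Directed unions of coefficient rings.** -/
theorem ratInj01_of_local (h : ∀ S : Finset R, ∃ (R' : Type u) (_ : Ring R') (f : R' →+* R),
      Function.Injective f ∧ (∀ s ∈ S, s ∈ Set.range f) ∧ RatInj (assembly01 R' n G)) :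
    RatInj (assembly01 R n G) := by
  classical
  rw [Pool.Agent.H71.FQ.ratInj_iff]
  rintro ⟨z0, z1⟩ M hM hz
  obtain ⟨S0, hS0⟩ := HnK0_exists_lift.{u, u, v} z0
  obtain ⟨S1, hS1⟩ := HnK1_exists_lift.{u, u, v} z1
  set A : Subring R := Subring.closure ((S0 ∪ S1 : Finset R) : Set R) with hA
  obtain ⟨y0, hy0⟩ := hS0 A.subtype Subtype.val_injective fun s hs =>
    ⟨⟨s, Subring.subset_closure (Finset.mem_coe.2 (Finset.mem_union_left _ hs))⟩, rfl⟩
  obtain ⟨y1, hy1⟩ := hS1 A.subtype Subtype.val_injective fun s hs =>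
    ⟨⟨s, Subring.subset_closure (Finset.mem_coe.2 (Finset.mem_union_right _ hs))⟩, rfl⟩
  have h1 : KQ.map (MonoidAlgebra.mapRingHom G A.subtype) (M • assembly01 A n G (y0, y1)) = 0 := by
    rw [map_zsmul, ← asm01_map, hy0, hy1, hz]
  obtain ⟨T, hT⟩ := KQ.exists_zero.{max u v, max u v, max u v} _ _ h1
  obtain ⟨R', _, f, hf, hS, hR'⟩ := h ((S0 ∪ S1) ∪ cfs G T)
  have hle : ∀ a : A, A.subtype a ∈ Set.range f := by
    intro a
    have h2 : A ≤ f.range := by
      rw [hA, Subring.closure_le]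
      intro s hs
      exact hS s (Finset.mem_union_left _ (Finset.mem_coe.1 hs))
    exact h2 a.2
  obtain ⟨φ, hφ⟩ := exists_fac f hf A.subtype hle
  have h2 : KQ.map (MonoidAlgebra.mapRingHom G φ) (M • assembly01 A n G (y0, y1)) = 0 := by
    refine hT (MonoidAlgebra.mapRingHom G f) _ (mapRingHom_injective' hf G) ?_ ?_
    · rw [← hφ, MonoidAlgebra.mapRingHom_comp]
    · exact mem_cfs f G T fun s hs => hS s (Finset.mem_union_right _ hs)
  rw [map_zsmul, ← asm01_map] at h2
  obtain ⟨m, hm, h3⟩ := (Pool.Agent.H71.FQ.ratInj_iff.1 hR') _ M hM h2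
  refine ⟨m, hm, ?_⟩
  have h4 := congrArg Prod.fst h3
  have h5 := congrArg Prod.snd h3
  change m • (NatK0.ofHom G φ).src (n + 1) y0 = 0 at h4
  change m • hn1 φ y1 = 0 at h5
  have h6 := congrArg ((NatK0.ofHom G f).src (n + 1)) h4
  have h7 := congrArg (hn1 f) h5
  rw [map_zsmul, src_comp, map_zero, hφ, hy0] at h6
  rw [map_zsmul, hn1_comp, map_zero, hφ, hy1] at h7
  exact Prod.ext h6 h7

end

end Pool.Agent.H16.FU

end

section

/-!
# Project FU: generation of the `K₁`-part by units of group rings of cyclic groups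

Every element of `HnK1 k G n`, `k` a field of characteristic `p`, has a nonzero multiple which is a combination of symbols
`[D, [x], z]` with `D` finite cyclic of order prime to `p` and `x` a unit of `k[D]`.

PROOF. For a symbol `[F, x, z]`: `hArt_field` (all `x ∈ K₁(k[F])` up to a multiple induced from cyclic subgroups `D`),
`hUnit_field` (`m y = [u]` for `y ∈ K₁(k[D])`), `sy1_conj` with `g = 1` for the image of `D ≤ F` in `G` (as
`syh_map`, `mem_sat` in FQ/Sy.lean: `sy1h` below). Finally for `D` cyclic let `σ : k[D] → k[D'] → k[D]` for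
the part `D'` of order prime to `p` (`D = P × D'`); `u σ(u)⁻¹` is `1 +` an element of the kernel of
`k[D] → k[D']`, which is nilpotent (`x ^ (p ^ a) = 0` for `x` in the kernel, `|P| = p ^ a`: the ring is commutative of
characteristic `p` and `g ^ (p ^ a) = 1` for `g ∈ P`); so `p ^ a [u] = p ^ a [σ(u)]` in `K₁(k[D])`.
-/

set_option autoImplicit false

open Matrix

universe t u v w

namespace Pool.Agent.H16.FU

open Pool.Agent.H71.FQ
open Pool.Agent.H71.FJ (K0 Sat Sat_of_smul mem_Sat)
open Pool.Agent.H71.DO (HArt HUnit hArt_field hUnit_field K1_unit_pow K1_unit_inv K1_unit_one ind)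
open Pool.Agent.H95.WH (K1 K1.mk K1.unit K1.map K1.map_mk K1.map_map FamSub conjHom FinSub)

section

variable {k : Type u} [CommRing k] {G : Type v} [Group G] {n : ℕ}

/-- The symbols with units of group rings of finite cyclic subgroups of order invertible in `k`. -/
def USet (k : Type u) [CommRing k] (G : Type v) [Group G] (n : ℕ) : Set (HnK1 k G n) :=
  {w | ∃ (D : FamSub G FinSub) (_ : IsCyclic D.1), (∀ h : D.1, (orderOf h : k) ≠ 0) ∧
    ∃ (x : (MonoidAlgebra k D.1)ˣ) (z : HG (Subgroup.centralizer (D.1 : Set G)) n),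
      w = sy1 D (K1.unit x) z}

/-- The symbol for a homomorphism from a finite group. -/
noncomputable def sy1h {H : Type v} [Group H] [Finite H] {Γ : Type v} [Group Γ] (f : H →* G)
    (κ : Γ →* G) (h : ∀ γ a, f a * κ γ = κ γ * f a)
    (x : K1 (MonoidAlgebra k H)) (z : HG Γ n) : HnK1 k G n :=
  sy1 (rangeSub f) (K1.map (MonoidAlgebra.mapDomainRingHom k (toRange f)) x)
    (HG.map n (toCent f κ h) z)

theorem sy1h_map {H H' : Type v} [Group H] [Finite H] [Group H'] [Finite H'] {Γ : Type v}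
    [Group Γ] (f : H →* G) (f' : H' →* G) (φ : H →* H') (g : G)
    (h : ∀ a, f' (φ a) = g * f a * g⁻¹) (κ κ' : Γ →* G) (hκ : ∀ γ a, f a * κ γ = κ γ * f a)
    (hκ' : ∀ γ a, f' a * κ' γ = κ' γ * f' a) (hh : ∀ γ, κ γ = g⁻¹ * κ' γ * g)
    (x : K1 (MonoidAlgebra k H)) (z : HG Γ n) :
    sy1h f' κ' hκ' (K1.map (MonoidAlgebra.mapDomainRingHom k φ) x) z = sy1h f κ hκ x z := by
  have hr : ∀ y ∈ (rangeSub f).1, g * y * g⁻¹ ∈ (rangeSub f').1 := by
    rintro y ⟨a, rfl⟩
    exact ⟨φ a, h a⟩
  have h1 := sy1_conj (rangeSub f) (rangeSub f') g hr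
    (K1.map (MonoidAlgebra.mapDomainRingHom k (toRange f)) x) (HG.map n (toCent f' κ' hκ') z)
  have h4 : (centConj g (rangeSub f).1 (rangeSub f').1 hr).comp (toCent f' κ' hκ') =
      toCent f κ hκ := by
    apply MonoidHom.ext
    intro γ
    exact Subtype.ext (hh γ).symm
  rw [HG.map_map, h4] at h1
  refine Eq.trans ?_ h1
  have h2 : (toRange f').comp φ =
      (conjHom g (rangeSub f).1 (rangeSub f').1 hr).comp (toRange f) := by
    apply MonoidHom.ext
    intro a
    exact Subtype.ext (h a)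
  have h3 : K1.map (MonoidAlgebra.mapDomainRingHom k (toRange f'))
      (K1.map (MonoidAlgebra.mapDomainRingHom k φ) x) =
      K1.map (MonoidAlgebra.mapDomainRingHom k (conjHom g (rangeSub f).1 (rangeSub f').1 hr))
        (K1.map (MonoidAlgebra.mapDomainRingHom k (toRange f)) x) := by
    rw [K1.map_map, K1.map_map, ← MonoidAlgebra.mapDomainRingHom_comp, h2,
      ← MonoidAlgebra.mapDomainRingHom_comp]
  exact congrArg (fun y => sy1 (rangeSub f') y (HG.map n (toCent f' κ' hκ') z)) h3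

/-- `sy1h` as a homomorphism in the `K₁`-variable -/
noncomputable def sy1hH {H : Type v} [Group H] [Finite H] {Γ : Type v} [Group Γ] (f : H →* G)
    (κ : Γ →* G) (h : ∀ γ a, f a * κ γ = κ γ * f a) (z : HG Γ n) :
    K1 (MonoidAlgebra k H) →+ HnK1 k G n :=
  ((syB1 (rangeSub f)).flip (HG.map n (toCent f κ h) z)).comp
    (K1.map (MonoidAlgebra.mapDomainRingHom k (toRange f)))

theorem sy1hH_apply {H : Type v} [Group H] [Finite H] {Γ : Type v} [Group Γ] (f : H →* G)
    (κ : Γ →* G) (h : ∀ γ a, f a * κ γ = κ γ * f a) (x : K1 (MonoidAlgebra k H)) (z : HG Γ n) :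
    sy1hH f κ h z x = sy1h f κ h x z := rfl

theorem sy1h_subtype (F : FamSub G FinSub) [Finite F.1] (x : K1 (MonoidAlgebra k F.1))
    (z : HG (Subgroup.centralizer (F.1 : Set G)) n) :
    sy1h F.1.subtype (Subgroup.centralizer (F.1 : Set G)).subtype (cent_comm F.1) x z =
      sy1 F x z := by
  have hr : ∀ y ∈ F.1, (1 : G) * y * 1⁻¹ ∈ (rangeSub F.1.subtype).1 := by
    intro y hy
    refine ⟨⟨y, hy⟩, ?_⟩
    rw [one_mul, inv_one, mul_one]
    rfl
  have h2 : toRange F.1.subtype = conjHom 1 F.1 (rangeSub F.1.subtype).1 hr := by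
    apply MonoidHom.ext
    intro a
    apply Subtype.ext
    change (a : G) = 1 * (a : G) * 1⁻¹
    rw [one_mul, inv_one, mul_one]
  have h3 := sy1_conj (k := k) F (rangeSub F.1.subtype) 1 hr x
    (HG.map n (toCent F.1.subtype (Subgroup.centralizer (F.1 : Set G)).subtype
      (cent_comm F.1)) z)
  rw [← h2, HG.map_map] at h3
  have h4 : (centConj 1 F.1 (rangeSub F.1.subtype).1 hr).comp
      (toCent F.1.subtype (Subgroup.centralizer (F.1 : Set G)).subtype (cent_comm F.1)) =
      MonoidHom.id _ := by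
    apply MonoidHom.ext
    intro γ
    apply Subtype.ext
    change (1 : G)⁻¹ * (γ : G) * 1 = γ
    rw [inv_one, one_mul, mul_one]
  rw [h4, HG.map_id] at h3
  exact h3

end

section

theorem charP_group_ring (k : Type u) [Field k] (p : ℕ) [CharP k p] (D : Type v) [Group D] :
    CharP (MonoidAlgebra k D) p :=
  charP_of_injective_algebraMap (algebraMap k (MonoidAlgebra k D)).injective p

/-- `x ^ (p ^ a)` in the group ring of a commutative group of characteristic `p` -/
theorem pow_char_mapDomain {k : Type u} [Field k] (p : ℕ) [Fact p.Prime] [CharP k p] {D : Type v}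
    [CommGroup D] (a : ℕ) (f : D →* D) (hf : ∀ d, f d ^ p ^ a = d ^ p ^ a) (x : MonoidAlgebra k D) :
    (MonoidAlgebra.mapDomainRingHom k f x) ^ p ^ a = x ^ p ^ a := by
  have : CharP (MonoidAlgebra k D) p := charP_group_ring k p D
  induction x using MonoidAlgebra.induction_linear with
  | zero => rw [map_zero]
  | add x y hx hy => rw [map_add, add_pow_char_pow, add_pow_char_pow, hx, hy]
  | single d c =>
    rw [MonoidAlgebra.mapDomainRingHom_apply, MonoidAlgebra.mapDomain_single, MonoidAlgebra.single_pow,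
      MonoidAlgebra.single_pow, hf]

/-- the `p`-part of a cyclic group does not matter up to torsion -/
theorem exists_prime_part {k : Type u} [Field k] (p : ℕ) [Fact p.Prime] [CharP k p] {D : Type v}
    [Group D] [Finite D] [IsCyclic D] (u : (MonoidAlgebra k D)ˣ) :
    ∃ (E : Subgroup D) (x : (MonoidAlgebra k E)ˣ) (a : ℕ), (∀ h : E, (orderOf h : k) ≠ 0) ∧
      p ^ a • K1.unit u =
        p ^ a • K1.map (MonoidAlgebra.mapDomainRingHom k E.subtype) (K1.unit x) := by
  let _ : CommGroup D := IsCyclic.commGroup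
  have hp : p.Prime := Fact.out
  obtain ⟨a, N, hN, hcard⟩ := Nat.exists_eq_pow_mul_and_not_dvd (Nat.card_pos (α := D)).ne' p hp.ne_one
  have hco : Nat.Coprime (p ^ a) N := Nat.Coprime.pow_left a ((Nat.Prime.coprime_iff_not_dvd hp).2 hN)
  obtain ⟨e, he1, he2⟩ := Nat.chineseRemainder hco 0 1
  let f : D →* D := powMonoidHom e
  have hf : ∀ d, f d ^ p ^ a = d ^ p ^ a := by
    intro d
    show (d ^ e) ^ p ^ a = d ^ p ^ a
    rw [← pow_mul]
    have h1 : e * p ^ a ≡ p ^ a [MOD Nat.card D] := by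
      rw [hcard]
      have h2 := he2.mul_right' (p ^ a)
      rw [one_mul] at h2
      rw [mul_comm N] at h2
      exact h2
    have h3 : orderOf d ∣ Nat.card D := orderOf_dvd_natCard d
    exact pow_eq_pow_iff_modEq.2 (h1.of_dvd h3)
  refine ⟨f.range, Units.map (MonoidAlgebra.mapDomainRingHom k f.rangeRestrict).toMonoidHom u, a, ?_, ?_⟩
  · intro h h0
    obtain ⟨d, hd⟩ := h.2
    rw [← Subgroup.orderOf_coe, ← hd] at h0
    have h1 : orderOf (f d) ∣ N := by
      apply orderOf_dvd_of_pow_eq_one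
      show (d ^ e) ^ N = 1
      rw [← pow_mul]
      have h2 : Nat.card D ∣ e * N := by
        rw [hcard]
        exact Nat.mul_dvd_mul_right ((Nat.modEq_zero_iff_dvd).1 he1) N
      obtain ⟨c, hc⟩ := h2
      rw [hc, pow_mul, pow_card_eq_one', one_pow]
    exact hN (((CharP.cast_eq_zero_iff k p _).1 h0).trans h1)
  · have hmu := K1.map_unit (MonoidAlgebra.mapDomainRingHom k f.range.subtype)
      (Units.map (MonoidAlgebra.mapDomainRingHom k f.rangeRestrict).toMonoidHom u)
    rw [hmu, ← K1_unit_pow, ← K1_unit_pow]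
    congr 1
    apply Units.ext
    rw [Units.val_pow_eq_pow_val, Units.val_pow_eq_pow_val]
    have h4 : ((Units.map (MonoidAlgebra.mapDomainRingHom k f.range.subtype).toMonoidHom
        (Units.map (MonoidAlgebra.mapDomainRingHom k f.rangeRestrict).toMonoidHom u) : (MonoidAlgebra k D)ˣ) :
          MonoidAlgebra k D) = MonoidAlgebra.mapDomainRingHom k f (u : MonoidAlgebra k D) := by
      show MonoidAlgebra.mapDomainRingHom k f.range.subtype
        (MonoidAlgebra.mapDomainRingHom k f.rangeRestrict (u : MonoidAlgebra k D)) = _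
      have h5 : ∀ z : MonoidAlgebra k D, MonoidAlgebra.mapDomainRingHom k f.range.subtype
          (MonoidAlgebra.mapDomainRingHom k f.rangeRestrict z) = MonoidAlgebra.mapDomainRingHom k f z := by
        intro z
        induction z using MonoidAlgebra.induction_linear with
        | zero => rw [map_zero, map_zero, map_zero]
        | add x y hx hy => rw [map_add, map_add, map_add, hx, hy]
        | single d c =>
          simp only [MonoidAlgebra.mapDomainRingHom_apply, MonoidAlgebra.mapDomain_single]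
          rfl
      exact h5 _
    rw [h4]
    exact (pow_char_mapDomain p a f hf (u : MonoidAlgebra k D)).symm

variable {k : Type u} [Field k] {G : Type v} [Group G] {n : ℕ}

/-- Every element has a nonzero multiple which is a combination of symbols of `USet`. -/
theorem mem_sat1 (p : ℕ) [Fact p.Prime] [CharP k p] (w : HnK1 k G n) :
    w ∈ Sat (AddSubgroup.closure (USet k G n)) := by
  have : NeZero p := ⟨(Fact.out : p.Prime).ne_zero⟩
  -- the units of cyclic groups
  have key : ∀ {H : Type v} [Group H] [Finite H] [IsCyclic H] {Γ : Type v} [Group Γ] (f : H →* G)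
      (_ : Function.Injective f) (κ : Γ →* G) (h : ∀ γ a, f a * κ γ = κ γ * f a)
      (u : (MonoidAlgebra k H)ˣ) (z : HG Γ n),
      sy1h f κ h (K1.unit u) z ∈ Sat (AddSubgroup.closure (USet k G n)) := by
    intro H _ _ _ Γ _ f hf κ h u z
    obtain ⟨E, x, a, hE, hx⟩ := exists_prime_part p u
    have hpa : ((p ^ a : ℕ) : ℤ) ≠ 0 := by
      exact_mod_cast pow_ne_zero a (Fact.out : p.Prime).ne_zero
    refine Sat_of_smul hpa ?_
    have e1 : ((p ^ a : ℕ) : ℤ) • sy1h f κ h (K1.unit u) z = ((p ^ a : ℕ) : ℤ) •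
        sy1h f κ h (K1.map (MonoidAlgebra.mapDomainRingHom k E.subtype) (K1.unit x)) z := by
      rw [← sy1hH_apply, ← sy1hH_apply, ← map_zsmul, ← map_zsmul, natCast_zsmul, natCast_zsmul, hx]
    rw [e1, sy1h_map (f.comp E.subtype) f E.subtype 1 (by intro a; simp) κ κ
      (fun γ a => h γ _) h (by intro γ; simp)]
    refine AddSubgroup.zsmul_mem _ (mem_Sat (AddSubgroup.subset_closure ?_)) _
    have hinj : Function.Injective (f.comp E.subtype) := hf.comp E.subtype_injective
    let e : E ≃* (rangeSub (f.comp E.subtype)).1 := MonoidHom.ofInjective hinj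
    have hcyc : IsCyclic (rangeSub (f.comp E.subtype)).1 := isCyclic_of_surjective e e.surjective
    refine ⟨rangeSub (f.comp E.subtype), hcyc, ?_, Units.map (MonoidAlgebra.mapDomainRingHom k
      (toRange (f.comp E.subtype))).toMonoidHom x,
      HG.map n (toCent (f.comp E.subtype) κ (fun γ a => h γ _)) z, ?_⟩
    · intro d
      obtain ⟨b, rfl⟩ := e.surjective d
      rw [MulEquiv.orderOf_eq]
      exact hE b
    · rw [sy1h, K1.map_unit]
  induction w using hnk1_induction with
  | h0 => exact AddSubgroup.zero_mem _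
  | h2 a b ha hb => exact AddSubgroup.add_mem _ ha hb
  | h3 a ha => exact AddSubgroup.neg_mem _ ha
  | h1 F x z =>
    have : Finite F.1 := F.2
    obtain ⟨m, r, D, y, hm, hcyc, hx⟩ := hArt_field.{u, v} k F.1 x
    refine Sat_of_smul (Int.natCast_ne_zero.2 hm.ne') ?_
    rw [← sy1h_subtype, ← sy1hH_apply, ← map_zsmul, natCast_zsmul, hx, map_sum]
    refine AddSubgroup.sum_mem _ fun i _ => ?_
    have := hcyc i
    obtain ⟨m', u, hm', hu⟩ := hUnit_field.{u, v} k (D i) (y i)
    refine Sat_of_smul (Int.natCast_ne_zero.2 hm'.ne') ?_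
    have e1 : sy1hH F.1.subtype (Subgroup.centralizer (F.1 : Set G)).subtype (cent_comm F.1) z
        (ind k (D i).subtype (y i)) = sy1h (F.1.subtype.comp (D i).subtype)
          (Subgroup.centralizer (F.1 : Set G)).subtype (fun γ a => cent_comm F.1 γ _) (y i) z := by
      rw [sy1hH_apply, ind]
      exact sy1h_map (F.1.subtype.comp (D i).subtype) F.1.subtype (D i).subtype 1
        (by intro a; simp) _ _ (fun γ a => cent_comm F.1 γ _) (cent_comm F.1) (by intro γ; simp) _ _
    rw [e1, ← sy1hH_apply, ← map_zsmul, natCast_zsmul, hu, sy1hH_apply]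
    exact key (F.1.subtype.comp (D i).subtype)
      (F.1.subtype_injective.comp (D i).subtype_injective) _ _ _ _

end

end Pool.Agent.H16.FU

end
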