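import Pool.Agent.H13.TFQ.H71.WH.Skew3_3
import Pool.Agent.H13.TFQ.M13
import Pool.Agent.H13.TFQ.M20
import Pool.Agent.H13.TFQ.M24

/-! The parts of this file: H71.WH.Gam4_1, H71.WH.Fun, H71.WH.Gam2_1, H71.WH.Gam3_1, H71.WH.Fun_1. -/

section

/-!
# The value of `Gam` on matrices congruent to `1` modulo `4`
-/

set_option autoImplicit false
set_option linter.unusedSectionVars false
set_option linter.unusedSimpArgs false

open Matrix

universe u v w

namespace Pool.Agent.H71.WH

namespace TwTr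

end TwTr

section

variable {G : Type u} [Group G] (f : G → ℤ) (hf : ∀ x y, f (x * y) = f (y * x))
  {ι : Type v} [Fintype ι] [DecidableEq ι]

/-- `Gam` vanishes on elements of finite order. -/
theorem Gam_eq_zero_of_pow (u : (Matrix ι ι (MonoidAlgebra ℤ G))ˣ) (n : ℕ) (hn : n ≠ 0)
    (h : Gam f hf (u ^ n) = 0) : Gam f hf u = 0 := by
  have h1 : ∀ k : ℕ, Gam f hf (u ^ k) = k * Gam f hf u := by
    intro k
    induction k with
    | zero => rw [pow_zero, Gam_one]; simp
    | succ k ih => rw [pow_succ, Gam_mul, ih]; push_cast; ring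
  rw [h1] at h
  rcases mul_eq_zero.1 h with h | h
  · exact absurd (by exact_mod_cast h) hn
  · exact h

end

end Pool.Agent.H71.WH

end

section

/-!
# The functionals on the Whitehead group and on the colimit
-/

set_option autoImplicit false
set_option linter.unusedSectionVars false
set_option linter.unusedSimpArgs false

open Matrix
open scoped Classical

universe u v w

namespace Pool.Agent.H71.WH

theorem blockOne_eq {R : Type u} [Ring R] {n : ℕ} (a : Matrix (Fin n) (Fin n) R) :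
    blockOne a = emb (Fin.castAddEmb 1) a + (1 - emb (Fin.castAddEmb 1) 1) := by
  have hc : ∀ (j : Fin 1) (i : Fin n), Fin.natAdd n j ≠ Fin.castAddEmb 1 i := by
    intro j i h
    have := congrArg Fin.val h
    simp at this
    omega
  have hb : ∀ i j, blockOne a i j = (fromBlocks a 0 0 1) (finSumFinEquiv.symm i)
      (finSumFinEquiv.symm j) := fun _ _ => rfl
  ext i j
  rw [hb, Matrix.add_apply, Matrix.sub_apply]
  refine Fin.addCases (fun i' => ?_) (fun i' => ?_) i
  · refine Fin.addCases (fun j' => ?_) (fun j' => ?_) j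
    · rw [finSumFinEquiv_symm_apply_castAdd, finSumFinEquiv_symm_apply_castAdd,
        fromBlocks_apply₁₁]
      have h1 := emb_apply (R := R) (Fin.castAddEmb 1) a i' j'
      have h2 := emb_apply (R := R) (Fin.castAddEmb 1) 1 i' j'
      change emb (Fin.castAddEmb 1) a (Fin.castAdd 1 i') (Fin.castAdd 1 j') = _ at h1
      change emb (Fin.castAddEmb 1) 1 (Fin.castAdd 1 i') (Fin.castAdd 1 j') = _ at h2
      rw [h1, h2]
      by_cases hij : i' = j'
      · subst hij
        rw [Matrix.one_apply_eq, Matrix.one_apply_eq, sub_self, add_zero]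
      · rw [Matrix.one_apply_ne hij, Matrix.one_apply_ne, sub_self, add_zero]
        intro h
        exact hij (Fin.castAdd_injective _ _ h)
    · have h0 : (1 : Matrix (Fin (n + 1)) (Fin (n + 1)) R) (Fin.castAdd 1 i')
          (Fin.natAdd n j') = 0 := Matrix.one_apply_ne (fun h => hc j' i' h.symm)
      rw [finSumFinEquiv_symm_apply_castAdd, finSumFinEquiv_symm_apply_natAdd,
        fromBlocks_apply₁₂, emb_zero_right _ _ _ (hc j'), emb_zero_right _ _ _ (hc j'), h0]
      simp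
  · refine Fin.addCases (fun j' => ?_) (fun j' => ?_) j
    · have h0 : (1 : Matrix (Fin (n + 1)) (Fin (n + 1)) R) (Fin.natAdd n i')
          (Fin.castAdd 1 j') = 0 := Matrix.one_apply_ne (hc i' j')
      rw [finSumFinEquiv_symm_apply_castAdd, finSumFinEquiv_symm_apply_natAdd,
        fromBlocks_apply₂₁, emb_zero_left _ _ (hc i'), emb_zero_left _ _ (hc i'), h0]
      simp
    · rw [finSumFinEquiv_symm_apply_natAdd, finSumFinEquiv_symm_apply_natAdd,
        fromBlocks_apply₂₂, emb_zero_left _ _ (hc i'), emb_zero_left _ _ (hc i')]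
      have : i' = j' := Subsingleton.elim _ _
      subst this
      rw [Matrix.one_apply_eq, Matrix.one_apply_eq]
      simp

section G

variable {G : Type v} [Group G] (f : G → ℤ) (hf : ∀ x y, f (x * y) = f (y * x))

/-- the functional on the free abelian group -/
noncomputable def GamFree : FreeAbelianGroup (InvMat (MonoidAlgebra ℤ G)) →+ ℚ_[2] :=
  FreeAbelianGroup.lift fun a => Gam f hf a.mat

theorem oneByOne_apply (x : (MonoidAlgebra ℤ G)ˣ) (i j : Fin 1) :
    (oneByOne x : Matrix (Fin 1) (Fin 1) (MonoidAlgebra ℤ G)) i j = x := by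
  have : i = j := Subsingleton.elim _ _
  subst this
  exact Matrix.diagonal_apply_eq _ _

theorem TwTr.Lam_one {M : Type u} [Ring M] (t : TwTr M) : t.Lam 1 = 0 := by
  have h1 : t.Adm 1 := ⟨0, by rw [map_zero, add_zero, add_zero, Units.val_one]⟩
  have h2 := t.Lam_mul h1 h1
  rw [mul_one] at h2
  exact (add_eq_left.1 h2.symm)

theorem TT_trivial (u : (Matrix (Fin 1) (Fin 1) (MonoidAlgebra ℤ G))ˣ) (g : G)
    (hu : ∀ i j, (u : Matrix (Fin 1) (Fin 1) (MonoidAlgebra ℤ G)) i j = MonoidAlgebra.single g 1)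
    (P Q : Fin 1 × Fin 1) : (TT u : MM G (Fin 1)) P Q = (PP u : MM G (Fin 1)) P Q := by
  obtain ⟨a, b⟩ := P
  obtain ⟨c, d⟩ := Q
  have hb : b = a := Subsingleton.elim _ _
  have hd : d = c := Subsingleton.elim _ _
  subst hb
  subst hd
  rw [PP_dg, TT_val, k12_apply, hu, i1_single, i2_single, Del_single,
    MonoidAlgebra.single_mul_single, Prod.mk_mul_mk, one_mul, mul_one, one_mul]

theorem Gam_of_eq {ι : Type w} [Fintype ι] [DecidableEq ι]
    (u : (Matrix ι ι (MonoidAlgebra ℤ G))ˣ) (h : TT u = PP u) : Gam f hf u = 0 := by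
  rw [Gam, gg, h, inv_mul_cancel]
  exact TwTr.Lam_one _

theorem Gam_trivial_pos (u : (Matrix (Fin 1) (Fin 1) (MonoidAlgebra ℤ G))ˣ) (g : G)
    (hu : ∀ i j, (u : Matrix (Fin 1) (Fin 1) (MonoidAlgebra ℤ G)) i j = MonoidAlgebra.single g 1) :
    Gam f hf u = 0 := by
  apply Gam_of_eq
  exact Units.ext (Matrix.ext (TT_trivial u g hu))

theorem Gam_trivial (x : (MonoidAlgebra ℤ G)ˣ) (hx : x ∈ trivialUnits G) :
    Gam f hf (oneByOne x) = 0 := by
  obtain ⟨g, e, he, hx⟩ := hx
  apply Gam_eq_zero_of_pow f hf _ 2 two_ne_zero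
  have h1 : oneByOne x ^ 2 = oneByOne (x ^ 2) := (map_pow _ x 2).symm
  rw [h1]
  apply Gam_trivial_pos f hf _ (g * g)
  intro i j
  rw [oneByOne_apply, Units.val_pow_eq_pow_val, hx, pow_two, MonoidAlgebra.single_mul_single]
  rcases he with rfl | rfl <;> simp

end G

end Pool.Agent.H71.WH

end

section

/-!
# Naturality and stability of `Gam`
-/

set_option autoImplicit false
set_option linter.unusedSectionVars false

open Matrix

universe u v w

namespace Pool.Agent.H71.WH

section Nat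

variable {G : Type u} [Group G] {H : Type w} [Group H] (φ : G →* H)

variable {ι : Type v} [Fintype ι] [DecidableEq ι]

/-- the induced map on matrices -/
noncomputable def JJ (ι : Type v) [Fintype ι] [DecidableEq ι] : MM G ι →+* MM H ι :=
  (gr (φ.prodMap φ)).mapMatrix

theorem JJ_apply (F : MM G ι) (P Q : ι × ι) : JJ φ ι F P Q = gr (φ.prodMap φ) (F P Q) := rfl

theorem JJ_k1 (w : Matrix ι ι (MonoidAlgebra ℤ G)) :
    JJ φ ι (k1 ι w) = k1 ι ((gr φ).mapMatrix w) := by
  ext P Q : 1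
  rw [JJ_apply, k1_apply, k1_apply]
  split_ifs
  · rw [gr_i1]
    rfl
  · rw [map_zero]

theorem JJ_s (f : H → ℤ) (hf : ∀ x y, f (x * y) = f (y * x)) (f' : G → ℤ)
    (hf' : ∀ x y, f' (x * y) = f' (y * x)) (F : MM G ι) :
    JJ φ ι ((tG f' hf' ι).s F) = (tG f hf ι).s (JJ φ ι F) := by
  ext P Q : 1
  rw [JJ_apply, tG_s, tG_s, JJ_apply, gr_sw]

theorem JJ_k2 (w : Matrix ι ι (MonoidAlgebra ℤ G)) :
    JJ φ ι (k2 ι w) = k2 ι ((gr φ).mapMatrix w) := by
  rw [← s_k1 (fun _ => 0) (fun _ _ => rfl), ← s_k1 (fun _ => 0) (fun _ _ => rfl),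
    JJ_s φ (fun _ => 0) (fun _ _ => rfl), JJ_k1]

theorem JJ_psi (w : Matrix ι ι (MonoidAlgebra ℤ G)) :
    JJ φ ι (psi ι w) = psi ι ((gr φ).mapMatrix w) := by
  rw [psi_eq, psi_eq]
  change (emb (dg ι) (w.map (Del G))).map (gr (φ.prodMap φ)) = _
  rw [emb_map]
  congr 1
  ext i k : 1
  exact gr_Del φ _

theorem JJ_TT (u : (Matrix ι ι (MonoidAlgebra ℤ G))ˣ) :
    Units.map (JJ φ ι).toMonoidHom (TT u) = TT (glMap φ ι u) := by
  have h : JJ φ ι (TT u : MM G ι) = (TT (glMap φ ι u) : MM H ι) := by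
    rw [TT_val, TT_val, map_mul, JJ_k1, JJ_k2, glMap_val]
  exact Units.ext h

theorem JJ_PP (u : (Matrix ι ι (MonoidAlgebra ℤ G))ˣ) :
    Units.map (JJ φ ι).toMonoidHom (PP u) = PP (glMap φ ι u) := by
  have h : JJ φ ι (PP u : MM G ι) = (PP (glMap φ ι u) : MM H ι) := by
    rw [PP_val, PP_val, map_add, map_sub, map_one, JJ_psi, JJ_psi, glMap_val, map_one]
  exact Units.ext h

theorem JJ_gg (u : (Matrix ι ι (MonoidAlgebra ℤ G))ˣ) :
    Units.map (JJ φ ι).toMonoidHom (gg u) = gg (glMap φ ι u) := by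
  rw [gg, gg, map_mul, map_inv, JJ_TT, JJ_PP]

theorem Gam_map (f : H → ℤ) (hf : ∀ x y, f (x * y) = f (y * x)) (f' : G → ℤ)
    (hf' : ∀ x y, f' (x * y) = f' (y * x)) (h : ∀ x, f (φ x) = f' x)
    (u : (Matrix ι ι (MonoidAlgebra ℤ G))ˣ) : Gam f hf (glMap φ ι u) = Gam f' hf' u := by
  apply TwTr.Lam_map _ _ (JJ φ ι).toNonUnitalRingHom (JJ_s φ f hf f' hf')
  · intro F
    change (tG f hf ι).κ (JJ φ ι F) = _
    rw [tG_κ, tG_κ]
    apply Finset.sum_congr rfl
    intro P _
    rw [JJ_apply, k0, k0, fn_gr]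
    congr 2
    funext p
    change f (φ p.1 * φ p.2) = f' (p.1 * p.2)
    rw [← map_mul, h]
  · exact gg_adm f' hf' u
  · rw [← JJ_gg]
    change JJ φ ι (gg u : MM G ι) = JJ φ ι (gg u : MM G ι) + (1 - JJ φ ι 1)
    rw [map_one, sub_self, add_zero]

end Nat

end Pool.Agent.H71.WH

end

section

/-!
# Stability of `Gam`
-/

set_option autoImplicit false
set_option linter.unusedSectionVars false
set_option linter.unusedSimpArgs false

open Matrix

universe u v w

namespace Pool.Agent.H71.WH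

namespace TwTr

variable {M : Type u} [Ring M] (t : TwTr M)

theorem corner {U e : M} (he : e * e = e) (h1 : e * U = U) (h2 : U * e = U)
    (c1 : t.s e * e = e * t.s e) (c2 : t.s e * U = U * t.s e) (c3 : t.s U * U = U * t.s U)
    (G1 G2 : Mˣ) (hG1 : (G1 : M) = U * t.s U + (1 - e * t.s e))
    (hG2 : (G2 : M) = (U + (1 - e)) * (t.s U + (1 - t.s e))) :
    t.Adm (G1⁻¹ * G2) ∧ t.Lam (G1⁻¹ * G2) = 0 := by
  have c4 : t.s U * e = e * t.s U := by
    have := congrArg t.s c2
    rw [map_mul, map_mul, t.inv] at this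
    exact this.symm
  have hE : t.s e * t.s e = t.s e := by rw [← map_mul, he]
  have h1' : t.s e * t.s U = t.s U := by rw [← map_mul, h1]
  have h2' : t.s U * t.s e = t.s U := by rw [← map_mul, h2]
  have a1 : ∀ x, e * (e * x) = e * x := fun x => by rw [← mul_assoc, he]
  have a2 : ∀ x, e * (U * x) = U * x := fun x => by rw [← mul_assoc, h1]
  have a3 : ∀ x, U * (e * x) = U * x := fun x => by rw [← mul_assoc, h2]
  have a4 : ∀ x, t.s e * (e * x) = e * (t.s e * x) := fun x => by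
    rw [← mul_assoc, c1, mul_assoc]
  have a5 : ∀ x, t.s e * (U * x) = U * (t.s e * x) := fun x => by
    rw [← mul_assoc, c2, mul_assoc]
  have a6 : ∀ x, t.s U * (U * x) = U * (t.s U * x) := fun x => by
    rw [← mul_assoc, c3, mul_assoc]
  have a7 : ∀ x, t.s U * (e * x) = e * (t.s U * x) := fun x => by
    rw [← mul_assoc, c4, mul_assoc]
  have a8 : ∀ x, t.s e * (t.s e * x) = t.s e * x := fun x => by rw [← mul_assoc, hE]
  have a9 : ∀ x, t.s e * (t.s U * x) = t.s U * x := fun x => by rw [← mul_assoc, h1']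
  have a10 : ∀ x, t.s U * (t.s e * x) = t.s U * x := fun x => by rw [← mul_assoc, h2']
  set p := e * (1 - t.s e) with hp
  set z := p * (U - 1) with hz
  have hsp : t.s p = t.s e * (1 - e) := by rw [hp, map_mul, map_sub, map_one, t.inv]
  have hsz : t.s z = t.s e * (1 - e) * (t.s U - 1) := by
    rw [hz, map_mul, hsp, map_sub, map_one]
  have hW : (G1 : M) * (1 + z + t.s z) = G2 := by
    rw [hG1, hG2, hsz, hz, hp]
    simp only [mul_add, add_mul, mul_sub, sub_mul, mul_one, one_mul, mul_assoc, he, h1, h2, c1, c2,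
      c3, c4, hE, h1', h2', a1, a2, a3, a4, a5, a6, a7, a8, a9, a10]
    abel
  have hW' : ((G1⁻¹ * G2 : Mˣ) : M) = 1 + z + t.s z := by
    rw [Units.val_mul, ← hW, ← mul_assoc, Units.inv_mul, one_mul]
  refine ⟨⟨z, hW'⟩, ?_⟩
  refine t.Lam_corner (p := p) ?_ ?_ ?_ ?_ hW'
  · rw [hsp, hp]
    simp only [mul_sub, sub_mul, mul_one, one_mul, mul_assoc, he, c1, hE, a1, a4, a8]
    abel
  · rw [hsp, hp]
    simp only [mul_sub, sub_mul, mul_one, one_mul, mul_assoc, he, c1, hE, a1, a4, a8]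
    abel
  · rw [hz, hp]
    simp only [mul_sub, sub_mul, mul_one, one_mul, mul_assoc, he, h1, h2, c1, c2, hE,
      a1, a2, a3, a4, a5, a8]
    abel
  · rw [hz, hp]
    simp only [mul_sub, sub_mul, mul_one, one_mul, mul_assoc, he, h1, h2, c1, c2, hE,
      a1, a2, a3, a4, a5, a8]
    abel

end TwTr

section Stab

variable {G : Type u} [Group G] (f : G → ℤ) (hf : ∀ x y, f (x * y) = f (y * x))
  {ι κ : Type v} [Fintype ι] [DecidableEq ι] [Fintype κ] [DecidableEq κ] (ε : ι ↪ κ)

/-- the embedding of the corner -/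
noncomputable def jj (G : Type u) [Group G] (ε : ι ↪ κ) : MM G ι →ₙ+* MM G κ := emb (ε.prodMap ε)

theorem jj_apply (F : MM G ι) (P Q : ι × ι) : jj G ε F (ε P.1, ε P.2) (ε Q.1, ε Q.2) = F P Q :=
  emb_apply (ε.prodMap ε) F P Q

theorem jj_psi (w : Matrix ι ι (MonoidAlgebra ℤ G)) : psi κ (emb ε w) = jj G ε (psi ι w) := by
  rw [psi_eq, psi_eq, jj, emb_map, emb_comp, emb_comp]
  rfl

theorem jj_k12 (w w' : Matrix ι ι (MonoidAlgebra ℤ G)) :
    k1 κ (emb ε w) * k2 κ (emb ε w') = jj G ε (k1 ι w * k2 ι w') := by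
  apply eq_emb
  · intro P Q
    rw [k12_apply, k12_apply]
    change i1 G (emb ε w (ε P.1) (ε Q.1)) * i2 G (emb ε w' (ε P.2) (ε Q.2)) = _
    rw [emb_apply, emb_apply]
  · intro P Q hP
    rw [k12_apply]
    by_cases h1 : ∃ i, P.1 = ε i
    · obtain ⟨i, hi⟩ := h1
      have h2 : ∀ j, P.2 ≠ ε j := fun j hj => hP (i, j) (Prod.ext hi hj)
      rw [emb_zero_left _ w' h2, map_zero, mul_zero]
    · push Not at h1
      rw [emb_zero_left _ w h1, map_zero, zero_mul]
  · intro P Q hQ
    rw [k12_apply]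
    by_cases h1 : ∃ i, Q.1 = ε i
    · obtain ⟨i, hi⟩ := h1
      have h2 : ∀ j, Q.2 ≠ ε j := fun j hj => hQ (i, j) (Prod.ext hi hj)
      rw [emb_zero_right _ w' _ h2, map_zero, mul_zero]
    · push Not at h1
      rw [emb_zero_right _ w _ h1, map_zero, zero_mul]

theorem jj_s (F : MM G ι) : jj G ε ((tG f hf ι).s F) = (tG f hf κ).s (jj G ε F) := by
  symm
  apply eq_emb
  · intro P Q
    rw [tG_s, tG_s]
    congr 1
    exact jj_apply ε F P.swap Q.swap
  · intro P Q hP
    rw [tG_s, jj, emb_zero_left _ _ (swap_ne_prodMap ε hP), map_zero]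
  · intro P Q hQ
    rw [tG_s, jj, emb_zero_right _ _ _ (swap_ne_prodMap ε hQ), map_zero]

theorem jj_κ (F : MM G ι) : (tG f hf κ).κ (jj G ε F) = (tG f hf ι).κ F := by
  rw [tG_κ, tG_κ]
  symm
  apply Finset.sum_of_injOn (ε.prodMap ε)
  · exact (ε.prodMap ε).injective.injOn
  · intro P _
    exact Finset.mem_coe.2 (Finset.mem_univ _)
  · intro P _ hP
    have h1 : ∀ i, P ≠ ε.prodMap ε i := by
      intro i hi
      exact hP ⟨i, Finset.mem_coe.2 (Finset.mem_univ _), hi.symm⟩
    rw [jj, emb_zero_left _ _ h1, map_zero]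
  · intro P _
    congr 1
    exact (jj_apply ε F P P.swap).symm

theorem jj_PP (u : (Matrix ι ι (MonoidAlgebra ℤ G))ˣ) :
    PP (stab ε u) = unitExt (jj G ε) (PP u) := by
  have h : (PP (stab ε u) : MM G κ) = (unitExt (jj G ε) (PP u) : MM G κ) := by
    rw [PP_val, unitExt_val, PP_val, stab_val]
    simp only [map_add, map_sub, jj_psi]
    abel
  exact Units.ext h

theorem Gam_stab (u : (Matrix ι ι (MonoidAlgebra ℤ G))ˣ) : Gam f hf (stab ε u) = Gam f hf u := by
  set t := tG f hf κ with ht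
  set U := k1 κ (emb ε (u : Matrix ι ι (MonoidAlgebra ℤ G))) with hU
  set e := k1 κ (emb ε (1 : Matrix ι ι (MonoidAlgebra ℤ G))) with he
  have hsU : t.s U = k2 κ (emb ε (u : Matrix ι ι (MonoidAlgebra ℤ G))) := rfl
  have hse : t.s e = k2 κ (emb ε (1 : Matrix ι ι (MonoidAlgebra ℤ G))) := rfl
  have hc := t.corner (U := U) (e := e)
    (by rw [he, ← map_mul, ← map_mul, mul_one])
    (by rw [he, hU, ← map_mul, ← map_mul, one_mul])
    (by rw [he, hU, ← map_mul, ← map_mul, mul_one])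
    (by rw [hse, he, k21]) (by rw [hse, hU, k21]) (by rw [hsU, hU, k21])
    (unitExt (jj G ε) (TT u)) (TT (stab ε u))
    (by
      rw [unitExt_val, hsU, hse, hU, he, jj_k12, jj_k12, TT_val]
      rw [map_one (k1 ι), map_one (k2 ι), mul_one])
    (by
      rw [hsU, hse, hU, he, TT_val, stab_val]
      simp only [map_add, map_sub, map_one])
  have h1 : gg (stab ε u) = unitExt (jj G ε) (gg u) *
      ((unitExt (jj G ε) (TT u))⁻¹ * TT (stab ε u)) := by
    rw [gg, gg, jj_PP, map_mul, map_inv]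
    exact grp_aux2 _ _ _
  obtain ⟨z, hz⟩ := gg_adm f hf u
  have h2 : t.Adm (unitExt (jj G ε) (gg u)) := by
    refine ⟨jj G ε z, ?_⟩
    rw [unitExt_val, hz, ht, ← jj_s, map_add, map_add]
    abel
  rw [Gam, h1, t.Lam_mul h2 hc.1, hc.2, add_zero]
  exact TwTr.Lam_map _ _ (jj G ε) (jj_s f hf ε) (jj_κ f hf ε) (gg_adm f hf u) (unitExt_val _ _)

end Stab

end Pool.Agent.H71.WH

end

section

/-!
# The functionals on the Whitehead group and on the colimit
-/

set_option autoImplicit false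
set_option linter.unusedSectionVars false
set_option linter.unusedSimpArgs false

open Matrix
open scoped Classical

universe u v w

namespace Pool.Agent.H71.WH

section G

variable {G : Type v} [Group G] (f : G → ℤ) (hf : ∀ x y, f (x * y) = f (y * x))

theorem addOne_eq {n : ℕ} (x : (Matrix (Fin n) (Fin n) (MonoidAlgebra ℤ G))ˣ) :
    addOne x = stab (Fin.castAddEmb 1) x := Units.ext (blockOne_eq _)

theorem Gam_addOne {n : ℕ} (x : (Matrix (Fin n) (Fin n) (MonoidAlgebra ℤ G))ˣ) :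
    Gam f hf (addOne x) = Gam f hf x := by
  rw [addOne_eq, Gam_stab]

theorem GamFree_le : K1Rel (MonoidAlgebra ℤ G) ≤ (GamFree f hf).ker := by
  rw [K1Rel, AddSubgroup.closure_le]
  rintro z (⟨n, x, y, rfl⟩ | ⟨n, x, rfl⟩)
  · change GamFree f hf (genK1 (x * y) - (genK1 x + genK1 y)) = 0
    rw [GamFree, map_sub, map_add, genK1, genK1, genK1, FreeAbelianGroup.lift_apply_of,
      FreeAbelianGroup.lift_apply_of, FreeAbelianGroup.lift_apply_of]
    exact sub_eq_zero.2 (Gam_mul f hf x y)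
  · change GamFree f hf (genK1 (addOne x) - genK1 x) = 0
    rw [GamFree, map_sub, genK1, genK1, FreeAbelianGroup.lift_apply_of,
      FreeAbelianGroup.lift_apply_of]
    exact sub_eq_zero.2 (Gam_addOne f hf x)

/-- the functional on `K₁` -/
noncomputable def GamK1 : K1 (MonoidAlgebra ℤ G) →+ ℚ_[2] :=
  QuotientAddGroup.lift (K1Rel _) (GamFree f hf) (GamFree_le f hf)

theorem GamK1_mk {n : ℕ} (x : (Matrix (Fin n) (Fin n) (MonoidAlgebra ℤ G))ˣ) :
    GamK1 f hf (K1.mk x) = Gam f hf x := by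
  change GamFree f hf (genK1 x) = _
  rw [GamFree, genK1, FreeAbelianGroup.lift_apply_of]

theorem GamK1_le : trivialK1 G ≤ (GamK1 f hf).ker := by
  rw [trivialK1, AddSubgroup.closure_le]
  rintro z ⟨x, hx, rfl⟩
  change GamK1 f hf (K1.mk _) = 0
  rw [GamK1_mk]
  exact Gam_trivial f hf x hx

/-- the functional on the Whitehead group -/
noncomputable def GamWh : Wh G →+ ℚ_[2] :=
  QuotientAddGroup.lift (trivialK1 G) (GamK1 f hf) (GamK1_le f hf)

end G

end Pool.Agent.H71.WH

end
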