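import Pool.Agent.H13.TFQ.M04
import Pool.Agent.H13.TFQ.M28

/-! The parts of this file: H71.KP.ResDat, H71.KP.Stab. -/

section

/-!
# The residue functionals on `K₁` in positive characteristic
-/

set_option autoImplicit false
set_option linter.unusedSectionVars false
set_option linter.unusedSimpArgs false

open Matrix

universe u v w t

namespace Pool.Agent.H71.KP

open Pool.Agent.H71.WH (emb emb_apply unitExt unitExt_val blockOne_eq InvMat K1 K1.mk K1.unit K1Rel genK1 addOne oneByOne blockOne CycSub conjHom K1.mk_mul K1.unit_mul emb_zero_left eq_emb emb_zero_right)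

section Mat

variable {M : Type u} [Ring M] {B : Type v} [AddCommGroup B] (t : DT M B)

/-- the structure on matrices -/
def DT.mat (ι : Type w) [Fintype ι] [DecidableEq ι] : DT (Matrix ι ι M) B where
  D :=
    { toFun := fun x => x.map t.D
      map_zero' := Matrix.map_zero _ (map_zero t.D)
      map_add' := fun x y => Matrix.map_add _ (map_add t.D) x y }
  leib x y := by
    refine Matrix.ext fun i j => ?_
    change t.D ((x * y) i j) = (x.map t.D * y + x * y.map t.D) i j
    rw [Matrix.mul_apply, map_sum, Matrix.add_apply, Matrix.mul_apply, Matrix.mul_apply,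
      ← Finset.sum_add_distrib]
    exact Finset.sum_congr rfl fun k _ => t.leib _ _
  τ :=
    { toFun := fun x => ∑ i, t.τ (x i i)
      map_zero' := by simp
      map_add' := fun x y => by simp [Finset.sum_add_distrib] }
  comm x y := by
    change ∑ i, t.τ ((x * y) i i) = ∑ i, t.τ ((y * x) i i)
    simp only [Matrix.mul_apply, map_sum]
    rw [Finset.sum_comm]
    exact Finset.sum_congr rfl fun i _ => Finset.sum_congr rfl fun k _ => t.comm _ _
  τD x := Finset.sum_eq_zero fun i _ => t.τD (x i i)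

theorem DT.mat_D {ι : Type w} [Fintype ι] [DecidableEq ι] (x : Matrix ι ι M) :
    (t.mat ι).D x = x.map t.D := rfl

theorem DT.mat_τ {ι : Type w} [Fintype ι] [DecidableEq ι] (x : Matrix ι ι M) :
    (t.mat ι).τ x = ∑ i, t.τ (x i i) := rfl

theorem emb_map_D {ι κ : Type*} [Fintype ι] [DecidableEq ι] [Fintype κ] [DecidableEq κ]
    (ε : ι ↪ κ) (w : Matrix ι ι M) : (emb ε w).map t.D = emb ε (w.map t.D) := by
  apply eq_emb
  · intro i k
    rw [Matrix.map_apply, emb_apply, Matrix.map_apply]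
  · intro a b h
    rw [Matrix.map_apply, emb_zero_left _ _ h, map_zero]
  · intro a b h
    rw [Matrix.map_apply, emb_zero_right _ _ _ h, map_zero]

theorem τ_emb {ι κ : Type*} [Fintype ι] [DecidableEq ι] [Fintype κ] [DecidableEq κ]
    (ε : ι ↪ κ) (w : Matrix ι ι M) : (t.mat κ).τ (emb ε w) = (t.mat ι).τ w := by
  rw [t.mat_τ, t.mat_τ]
  have h1 : ∑ i, t.τ (w i i) = ∑ i, t.τ (emb ε w (ε i) (ε i)) := by
    simp only [emb_apply]
  rw [h1, ← Finset.sum_map Finset.univ ε (fun j => t.τ (emb ε w j j))]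
  symm
  apply Finset.sum_subset (Finset.subset_univ _)
  intro j _ hj
  rw [emb_zero_left, map_zero]
  intro i hi
  exact hj (Finset.mem_map.2 ⟨i, Finset.mem_univ _, hi.symm⟩)

theorem dlog_addOne {n : ℕ} (x : (Matrix (Fin n) (Fin n) M)ˣ) :
    (t.mat (Fin (n + 1))).dlog (addOne x) = (t.mat (Fin n)).dlog x := by
  have h0 : (t.mat (Fin n)).D 1 = 0 := (t.mat (Fin n)).D_one
  have h1 : (t.mat (Fin (n + 1))).D (addOne x : Matrix (Fin (n + 1)) (Fin (n + 1)) M) =
      emb (Fin.castAddEmb 1) ((t.mat (Fin n)).D (x : Matrix (Fin n) (Fin n) M)) := by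
    have e1 : (addOne x : Matrix (Fin (n + 1)) (Fin (n + 1)) M) =
      emb (Fin.castAddEmb 1) (x : Matrix (Fin n) (Fin n) M) +
        (1 - emb (Fin.castAddEmb 1) 1) := blockOne_eq _
    rw [e1, map_add, map_sub, (t.mat (Fin (n + 1))).D_one, t.mat_D, t.mat_D, emb_map_D, emb_map_D,
      ← t.mat_D, ← t.mat_D, h0, map_zero, sub_zero, add_zero]
  have h2 : (((addOne x)⁻¹ : (Matrix (Fin (n + 1)) (Fin (n + 1)) M)ˣ) :
      Matrix (Fin (n + 1)) (Fin (n + 1)) M) =
      emb (Fin.castAddEmb 1) ((x⁻¹ : (Matrix (Fin n) (Fin n) M)ˣ) : Matrix (Fin n) (Fin n) M) +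
        (1 - emb (Fin.castAddEmb 1) 1) := blockOne_eq _
  rw [DT.dlog, DT.dlog, h1, h2, add_mul, sub_mul, one_mul, ← map_mul, ← map_mul, one_mul, sub_self,
    add_zero, τ_emb]

theorem dlog_oneByOne (x : Mˣ) : (t.mat (Fin 1)).dlog (oneByOne x) = t.dlog x := by
  refine dlog_map t (t.mat (Fin 1)) (scalar (Fin 1)) (AddMonoidHom.id B) ?_ ?_ x
  · intro x
    rw [t.mat_D]
    refine Matrix.ext fun i j => ?_
    have hij : i = j := Subsingleton.elim _ _
    subst hij
    rw [Matrix.map_apply]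
    change t.D (Matrix.diagonal (fun _ => x) i i) = Matrix.diagonal (fun _ => t.D x) i i
    rw [Matrix.diagonal_apply_eq, Matrix.diagonal_apply_eq]
  · intro x
    rw [t.mat_τ]
    simp

end Mat

section Lift

/-- Units lift along surjections with nilpotent kernel. -/
theorem exists_unit_lift_nil {A : Type u} {k : Type v} [Ring A] [Ring k] (φ : A →+* k)
    (hs : Function.Surjective φ) (hn : ∀ a, φ a = 0 → IsNilpotent a) (u : kˣ) :
    ∃ x : Aˣ, Units.map φ.toMonoidHom x = u := by
  obtain ⟨a, ha⟩ := hs (u : k)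
  obtain ⟨b, hb⟩ := hs ((u⁻¹ : kˣ) : k)
  have h1 : IsUnit (a * b) := by
    have h2 : IsNilpotent (a * b - 1) := hn _ (by
      rw [map_sub, map_mul, ha, hb, map_one, Units.mul_inv, sub_self])
    have := h2.isUnit_one_add
    rwa [add_sub_cancel] at this
  have h2 : IsUnit (b * a) := by
    have h2 : IsNilpotent (b * a - 1) := hn _ (by
      rw [map_sub, map_mul, ha, hb, map_one, Units.inv_mul, sub_self])
    have := h2.isUnit_one_add
    rwa [add_sub_cancel] at this
  obtain ⟨c, hc⟩ := h1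
  obtain ⟨d, hd⟩ := h2
  have h3 : a * (b * ((c⁻¹ : Aˣ) : A)) = 1 := by rw [← mul_assoc, ← hc, Units.mul_inv]
  have h4 : ((d⁻¹ : Aˣ) : A) * b * a = 1 := by rw [mul_assoc, ← hd, Units.inv_mul]
  have h5 : ((d⁻¹ : Aˣ) : A) * b = b * ((c⁻¹ : Aˣ) : A) := left_inv_eq_right_inv h4 h3
  refine ⟨⟨a, b * ((c⁻¹ : Aˣ) : A), h3, by rw [← h5, h4]⟩, ?_⟩
  apply Units.ext
  exact ha

end Lift

end Pool.Agent.H71.KP

end

section

/-!
# Stabilisation, change of rings for `K₁`, and the functionals on `K₁(ℤ_[p][G])`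
-/

set_option autoImplicit false
set_option linter.unusedSectionVars false
set_option linter.unusedSimpArgs false

open Matrix Filter
open scoped Classical

universe u v w

namespace Pool.Agent.H71.KP

open Pool.Agent.H71.WH (emb emb_apply unitExt unitExt_val emb_comp emb_map blockOne_eq InvMat K1 K1.mk K1.unit K1Rel genK1 addOne oneByOne blockOne CycSub conjHom K1.mk_mul K1.unit_mul)

section Stab

variable {A : Type u} [Ring A] {n N : ℕ}

/-- stabilisation of invertible matrices -/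
def stU (h : n ≤ N) : (Matrix (Fin n) (Fin n) A)ˣ →* (Matrix (Fin N) (Fin N) A)ˣ :=
  unitExt (emb (Fin.castLEEmb h))

theorem stU_val (h : n ≤ N) (x : (Matrix (Fin n) (Fin n) A)ˣ) :
    (stU h x : Matrix (Fin N) (Fin N) A) =
      emb (Fin.castLEEmb h) (x : Matrix (Fin n) (Fin n) A) + (1 - emb (Fin.castLEEmb h) 1) := rfl

theorem stU_addOne (h : n + 1 ≤ N) (x : (Matrix (Fin n) (Fin n) A)ˣ) :
    stU h (addOne x) = stU ((Nat.le_succ n).trans h) x := by
  have h1 : (Fin.castAddEmb 1 : Fin n ↪ Fin (n + 1)).trans (Fin.castLEEmb h) =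
      Fin.castLEEmb ((Nat.le_succ n).trans h) := by
    ext i
    rfl
  apply Units.ext
  rw [stU_val, stU_val]
  change emb (Fin.castLEEmb h) (blockOne (x : Matrix (Fin n) (Fin n) A)) + _ = _
  rw [blockOne_eq, map_add, map_sub, emb_comp, emb_comp, h1]
  abel

variable {B : Type v} [Ring B] (φ : A →+* B)

/-- change of rings for invertible matrices -/
def mapGL (φ : A →+* B) (n : ℕ) : (Matrix (Fin n) (Fin n) A)ˣ →* (Matrix (Fin n) (Fin n) B)ˣ :=
  Units.map (RingHom.mapMatrix φ).toMonoidHom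

theorem mapGL_val (x : (Matrix (Fin n) (Fin n) A)ˣ) :
    (mapGL φ n x : Matrix (Fin n) (Fin n) B) = (x : Matrix (Fin n) (Fin n) A).map φ := rfl

theorem mapGL_stU (h : n ≤ N) (x : (Matrix (Fin n) (Fin n) A)ˣ) :
    mapGL φ N (stU h x) = stU h (mapGL φ n x) := by
  apply Units.ext
  rw [mapGL_val, stU_val, stU_val, mapGL_val, ← emb_map]
  have h1 : emb (R := B) (Fin.castLEEmb h) 1 =
      ((emb (R := A) (Fin.castLEEmb h) 1).map φ) := by
    rw [emb_map, Matrix.map_one φ (map_zero φ) (map_one φ)]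
  rw [h1, Matrix.map_add φ (map_add φ), Matrix.map_sub φ (map_sub φ),
    Matrix.map_one φ (map_zero φ) (map_one φ)]

theorem mapGL_addOne (x : (Matrix (Fin n) (Fin n) A)ˣ) :
    mapGL φ (n + 1) (addOne x) = addOne (mapGL φ n x) := by
  apply Units.ext
  change (blockOne (x : Matrix (Fin n) (Fin n) A)).map φ =
    blockOne ((x : Matrix (Fin n) (Fin n) A).map φ)
  rw [blockOne, blockOne, ← Matrix.submatrix_map, Matrix.fromBlocks_map,
    Matrix.map_one φ (map_zero φ) (map_one φ), Matrix.map_zero φ (map_zero φ),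
    Matrix.map_zero φ (map_zero φ)]

theorem mapGL_oneByOne (x : Aˣ) : mapGL φ 1 (oneByOne x) = oneByOne (Units.map φ.toMonoidHom x) := by
  apply Units.ext
  refine Matrix.ext fun i j => ?_
  have hij : i = j := Subsingleton.elim _ _
  subst hij
  rw [mapGL_val, Matrix.map_apply]
  change φ (Matrix.diagonal (fun _ => (x : A)) i i) = Matrix.diagonal (fun _ => φ (x : A)) i i
  rw [Matrix.diagonal_apply_eq, Matrix.diagonal_apply_eq]

/-- the map on the free abelian group -/
def K1mapFree (φ : A →+* B) : FreeAbelianGroup (InvMat A) →+ K1 B :=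
  FreeAbelianGroup.lift fun a => K1.mk (mapGL φ a.n a.mat)

theorem K1.mk_addOne (x : (Matrix (Fin n) (Fin n) A)ˣ) : K1.mk (addOne x) = K1.mk x := by
  rw [K1.mk, K1.mk, ← sub_eq_zero]
  exact (QuotientAddGroup.eq_zero_iff _).2 (AddSubgroup.subset_closure (Or.inr ⟨n, x, rfl⟩))

theorem K1mapFree_le (φ : A →+* B) : K1Rel A ≤ (K1mapFree φ).ker := by
  rw [K1Rel, AddSubgroup.closure_le]
  rintro z (⟨n, x, y, rfl⟩ | ⟨n, x, rfl⟩)
  · change K1mapFree φ (genK1 (x * y) - (genK1 x + genK1 y)) = 0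
    rw [K1mapFree, map_sub, map_add, genK1, genK1, genK1, FreeAbelianGroup.lift_apply_of,
      FreeAbelianGroup.lift_apply_of, FreeAbelianGroup.lift_apply_of]
    refine sub_eq_zero.2 ?_
    rw [← K1.mk_mul, ← map_mul]
  · change K1mapFree φ (genK1 (addOne x) - genK1 x) = 0
    rw [K1mapFree, map_sub, genK1, genK1, FreeAbelianGroup.lift_apply_of,
      FreeAbelianGroup.lift_apply_of]
    refine sub_eq_zero.2 ?_
    rw [← K1.mk_addOne (mapGL φ n x), ← mapGL_addOne]

/-- The map `K₁(A) → K₁(B)` induced by a ring homomorphism. -/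
def K1map (φ : A →+* B) : K1 A →+ K1 B :=
  QuotientAddGroup.lift (K1Rel A) (K1mapFree φ) (K1mapFree_le φ)

theorem K1map_mk (x : (Matrix (Fin n) (Fin n) A)ˣ) :
    K1map φ (K1.mk x) = K1.mk (mapGL φ n x) := FreeAbelianGroup.lift_apply_of _ _

theorem K1map_unit (x : Aˣ) : K1map φ (K1.unit x) = K1.unit (Units.map φ.toMonoidHom x) := by
  rw [K1.unit, K1map_mk, mapGL_oneByOne]
  rfl

end Stab

end Pool.Agent.H71.KP

end
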