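import Pool.Agent.H13.TFQ.M27
import Pool.Agent.H13.TFQ.M29
import Pool.Agent.H13.TFQ.M35

/-! The parts of this file: H71.KP.Desc, H71.WH.Col_1. -/

section

/-!
# Descent of relations to finitely generated subrings
-/

set_option autoImplicit false
set_option linter.unusedSectionVars false

open Matrix Filter

universe u v w t

namespace Pool.Agent.H71.KP

open Pool.Agent.H71.WH (InvMat K1 K1.mk K1.unit K1Rel genK1 addOne oneByOne CycSub conjHom)

section FreeAb

/-- `FreeAbelianGroup.map` is injective for injective maps. -/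
theorem freeMap_injective {α : Type u} {β : Type v} {f : α → β} (hf : Function.Injective f) :
    Function.Injective (FreeAbelianGroup.map f) := by
  classical
  rcases isEmpty_or_nonempty α with hα | hα
  · intro x y _
    have h0 : ∀ z : FreeAbelianGroup α, z = 0 := by
      intro z
      induction z using FreeAbelianGroup.induction_on with
      | zero => rfl
      | of x => exact isEmptyElim x
      | neg x _ => exact isEmptyElim x
      | add x y hx hy => rw [hx, hy, add_zero]
    rw [h0 x, h0 y]
  · obtain ⟨g, hg⟩ := hf.hasLeftInverse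
    intro x y h
    have h1 : ∀ z : FreeAbelianGroup α, FreeAbelianGroup.map g (FreeAbelianGroup.map f z) = z := by
      intro z
      induction z using FreeAbelianGroup.induction_on with
      | zero => rw [map_zero, map_zero]
      | of x => rw [FreeAbelianGroup.map_of_apply, FreeAbelianGroup.map_of_apply, hg]
      | neg x hx => rw [map_neg, map_neg, hx]
      | add x y hx hy => rw [map_add, map_add, hx, hy]
    rw [← h1 x, h, h1 y]

end FreeAb

section Unit

/-- Units lift along injective ring homomorphisms if they and their inverses are in the range. -/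
theorem exists_unit_lift {A : Type u} {B : Type v} [Ring A] [Ring B] (φ : A →+* B)
    (hφ : Function.Injective φ) (y : Bˣ) (h1 : (y : B) ∈ φ.range)
    (h2 : ((y⁻¹ : Bˣ) : B) ∈ φ.range) : ∃ x : Aˣ, Units.map φ.toMonoidHom x = y := by
  obtain ⟨a, ha⟩ := h1
  obtain ⟨b, hb⟩ := h2
  refine ⟨⟨a, b, ?_, ?_⟩, ?_⟩
  · apply hφ
    rw [map_mul, ha, hb, map_one, Units.mul_inv]
  · apply hφ
    rw [map_mul, ha, hb, map_one, Units.inv_mul]
  · apply Units.ext
    exact ha

end Unit

section Sub

variable {R : Type u} [CommRing R]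

/-- the subring generated by a finite set -/
def sub (s : Finset R) : Subring R := Subring.closure (s : Set R)

/-- the inclusion -/
def incl (s : Finset R) : sub s →+* R := (sub s).subtype

theorem incl_injective (s : Finset R) : Function.Injective (incl s) := Subtype.val_injective

theorem eventually_mem (r : R) : ∀ᶠ s : Finset R in atTop, r ∈ (incl s).range := by
  classical
  filter_upwards [eventually_ge_atTop {r}] with s hs
  exact ⟨⟨r, Subring.subset_closure (Finset.mem_coe.2 (hs (Finset.mem_singleton_self r)))⟩, rfl⟩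

theorem eventually_ga {H : Type v} [Group H] (x : MonoidAlgebra R H) :
    ∀ᶠ s : Finset R in atTop, x ∈ (MonoidAlgebra.mapRingHom H (incl s)).range := by
  induction x using MonoidAlgebra.induction_linear with
  | zero => exact Eventually.of_forall fun s => (MonoidAlgebra.mapRingHom H (incl s)).range.zero_mem
  | add x y hx hy =>
    filter_upwards [hx, hy] with s h1 h2
    exact (MonoidAlgebra.mapRingHom H (incl s)).range.add_mem h1 h2
  | single g r =>
    filter_upwards [eventually_mem r] with s hs
    obtain ⟨r', hr⟩ := hs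
    exact ⟨MonoidAlgebra.single g r', by rw [MonoidAlgebra.mapRingHom_single, hr]⟩

theorem mapRingHom_injective {R' : Type w} [CommRing R'] {φ : R' →+* R}
    (hφ : Function.Injective φ) (H : Type v) [Group H] :
    Function.Injective (MonoidAlgebra.mapRingHom H φ) := by
  intro x y h
  ext a
  apply hφ
  have h1 := congrArg (fun z : MonoidAlgebra R H => z.coeff a) h
  simpa only [MonoidAlgebra.coeff_mapRingHom] using h1

theorem eventually_uMap {H : Type v} [Group H] (x : (MonoidAlgebra R H)ˣ) :
    ∀ᶠ s : Finset R in atTop, ∃ x', uMap (incl s) H x' = x := by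
  filter_upwards [eventually_ga (x : MonoidAlgebra R H),
    eventually_ga ((x⁻¹ : (MonoidAlgebra R H)ˣ) : MonoidAlgebra R H)] with s h1 h2
  exact exists_unit_lift _ (mapRingHom_injective (incl_injective s) H) x h1 h2

theorem eventually_mat {H : Type v} [Group H] {n : ℕ}
    (x : Matrix (Fin n) (Fin n) (MonoidAlgebra R H)) :
    ∀ᶠ s : Finset R in atTop,
      x ∈ (RingHom.mapMatrix (m := Fin n) (MonoidAlgebra.mapRingHom H (incl s))).range := by
  have h : ∀ᶠ s : Finset R in atTop, ∀ i j,
      x i j ∈ (MonoidAlgebra.mapRingHom H (incl s)).range :=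
    eventually_all.2 fun i => eventually_all.2 fun j => eventually_ga (x i j)
  filter_upwards [h] with s hs
  choose y hy using hs
  exact ⟨Matrix.of y, Matrix.ext fun i j => hy i j⟩

theorem mapMatrix_injective {A : Type u} {B : Type v} [Ring A] [Ring B] {φ : A →+* B}
    (hφ : Function.Injective φ) (n : ℕ) :
    Function.Injective (RingHom.mapMatrix (m := Fin n) φ) := by
  intro x y h
  refine Matrix.ext fun i j => hφ ?_
  exact congrFun (congrFun h i) j

theorem eventually_mapGL {H : Type v} [Group H] {n : ℕ}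
    (x : (Matrix (Fin n) (Fin n) (MonoidAlgebra R H))ˣ) :
    ∀ᶠ s : Finset R in atTop, ∃ x', mapGL (MonoidAlgebra.mapRingHom H (incl s)) n x' = x := by
  filter_upwards [eventually_mat (x : Matrix (Fin n) (Fin n) (MonoidAlgebra R H)),
    eventually_mat ((x⁻¹ : (Matrix (Fin n) (Fin n) (MonoidAlgebra R H))ˣ) :
      Matrix (Fin n) (Fin n) (MonoidAlgebra R H))] with s h1 h2
  exact exists_unit_lift _ (mapMatrix_injective (mapRingHom_injective (incl_injective s) H) n)
    x h1 h2

end Sub

section Rel

/-- the map on invertible matrices -/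
def invMap {A : Type u} {B : Type v} [Ring A] [Ring B] (φ : A →+* B) (a : InvMat A) : InvMat B :=
  ⟨a.n, mapGL φ a.n a.mat⟩

theorem mapGL_injective {A : Type u} {B : Type v} [Ring A] [Ring B] {φ : A →+* B}
    (hφ : Function.Injective φ) (n : ℕ) : Function.Injective (mapGL φ n) := by
  intro x y h
  apply Units.ext
  exact mapMatrix_injective hφ n (congrArg Units.val h)

theorem invMap_injective {A : Type u} {B : Type v} [Ring A] [Ring B] {φ : A →+* B}
    (hφ : Function.Injective φ) : Function.Injective (invMap φ) := by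
  rintro ⟨n, x⟩ ⟨m, y⟩ h
  rw [invMap, invMap] at h
  obtain ⟨h1, h2⟩ := InvMat.mk.inj h
  subst h1
  congr 1
  exact mapGL_injective hφ _ (eq_of_heq h2)

variable (R : Type u) [CommRing R] (G : Type v) [Group G]

/-- the relations of `Wh R G` on the free abelian group -/
def WRel : AddSubgroup (FreeAbelianGroup (InvMat (MonoidAlgebra R G))) :=
  AddSubgroup.closure
    (({z | ∃ (n : ℕ) (x y : (Matrix (Fin n) (Fin n) (MonoidAlgebra R G))ˣ),
        z = genK1 (x * y) - (genK1 x + genK1 y)} ∪
      {z | ∃ (n : ℕ) (x : (Matrix (Fin n) (Fin n) (MonoidAlgebra R G))ˣ),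
        z = genK1 (addOne x) - genK1 x}) ∪
      {z | ∃ x ∈ trivialUnits R G, z = genK1 (oneByOne x)})

/-- the projection to `K₁` -/
noncomputable def toK1 (A : Type u) [Ring A] : FreeAbelianGroup (InvMat A) →+ K1 A :=
  QuotientAddGroup.mk' (K1Rel A)

theorem toK1_ker (A : Type u) [Ring A] : (toK1 A).ker = K1Rel A := QuotientAddGroup.ker_mk' _

/-- the projection -/
noncomputable def toWhF :
    FreeAbelianGroup (InvMat (MonoidAlgebra R G)) →+ Wh R G :=
  (QuotientAddGroup.mk' (trivialK1 R G)).comp (toK1 (MonoidAlgebra R G))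

theorem toWhF_eq_zero (y : FreeAbelianGroup (InvMat (MonoidAlgebra R G))) :
    toWhF R G y = 0 ↔ y ∈ WRel R G := by
  have h1 : toWhF R G y = 0 ↔ toK1 (MonoidAlgebra R G) y ∈ trivialK1 R G :=
    QuotientAddGroup.eq_zero_iff _
  have h2 : trivialK1 R G = (AddSubgroup.closure
      {z | ∃ x ∈ trivialUnits R G, z = genK1 (oneByOne x)}).map
      (toK1 (MonoidAlgebra R G)) := by
    rw [AddMonoidHom.map_closure, trivialK1]
    congr 1
    ext z
    constructor
    · rintro ⟨x, hx, rfl⟩
      exact ⟨_, ⟨x, hx, rfl⟩, rfl⟩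
    · rintro ⟨_, ⟨x, hx, rfl⟩, rfl⟩
      exact ⟨x, hx, rfl⟩
  rw [h1, h2, ← AddSubgroup.mem_comap, AddSubgroup.comap_map_eq, toK1_ker, K1Rel,
    WRel, sup_comm, ← AddSubgroup.closure_union]

end Rel

section Desc

variable {R : Type u} [CommRing R] {G : Type v} [Group G]

/-- the map on the free abelian groups -/
noncomputable def mapF {R : Type u} [CommRing R] (G : Type v) [Group G] (s : Finset R) :
    FreeAbelianGroup (InvMat (MonoidAlgebra (sub s) G)) →+
      FreeAbelianGroup (InvMat (MonoidAlgebra R G)) :=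
  FreeAbelianGroup.map (invMap (MonoidAlgebra.mapRingHom G (incl s)))

theorem mapF_injective (s : Finset R) : Function.Injective (mapF G s) :=
  freeMap_injective (invMap_injective (mapRingHom_injective (incl_injective s) G))

theorem mapF_gen (s : Finset R) {n : ℕ} (x : (Matrix (Fin n) (Fin n) (MonoidAlgebra (sub s) G))ˣ) :
    mapF G s (genK1 x) = genK1 (mapGL (MonoidAlgebra.mapRingHom G (incl s)) n x) :=
  FreeAbelianGroup.map_of_apply _

theorem eventually_rel {y : FreeAbelianGroup (InvMat (MonoidAlgebra R G))} (hy : y ∈ WRel R G) :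
    ∀ᶠ s : Finset R in atTop, ∃ y' ∈ WRel (sub s) G, mapF G s y' = y := by
  classical
  induction hy using AddSubgroup.closure_induction with
  | zero => exact Eventually.of_forall fun s => ⟨0, AddSubgroup.zero_mem _, map_zero _⟩
  | add a b _ _ ha hb =>
    filter_upwards [ha, hb] with s h1 h2
    obtain ⟨a', ha1, rfl⟩ := h1
    obtain ⟨b', hb1, rfl⟩ := h2
    exact ⟨a' + b', AddSubgroup.add_mem _ ha1 hb1, map_add _ _ _⟩
  | neg a _ ha =>
    filter_upwards [ha] with s h1
    obtain ⟨a', ha1, rfl⟩ := h1
    exact ⟨-a', AddSubgroup.neg_mem _ ha1, map_neg _ _⟩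
  | mem z hz =>
    rcases hz with (⟨n, x, y, rfl⟩ | ⟨n, x, rfl⟩) | ⟨x, ⟨g, e, he, hx⟩, rfl⟩
    · filter_upwards [eventually_mapGL x, eventually_mapGL y] with s h1 h2
      obtain ⟨x', rfl⟩ := h1
      obtain ⟨y', rfl⟩ := h2
      refine ⟨genK1 (x' * y') - (genK1 x' + genK1 y'),
        AddSubgroup.subset_closure (Or.inl (Or.inl ⟨n, x', y', rfl⟩)), ?_⟩
      rw [map_sub, map_add, mapF_gen, mapF_gen, mapF_gen, map_mul]
    · filter_upwards [eventually_mapGL x] with s h1
      obtain ⟨x', rfl⟩ := h1
      refine ⟨genK1 (addOne x') - genK1 x',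
        AddSubgroup.subset_closure (Or.inl (Or.inr ⟨n, x', rfl⟩)), ?_⟩
      rw [map_sub, mapF_gen, mapF_gen, mapGL_addOne]
    · filter_upwards [eventually_uMap x] with s h1
      obtain ⟨x', rfl⟩ := h1
      have hx' : x' ∈ trivialUnits (sub s) G := by
        rcases he with rfl | rfl
        · refine ⟨g, 1, Or.inl rfl, ?_⟩
          apply mapRingHom_injective (incl_injective s) G
          rw [MonoidAlgebra.mapRingHom_single, map_one]
          exact hx
        · refine ⟨g, -1, Or.inr rfl, ?_⟩
          apply mapRingHom_injective (incl_injective s) G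
          rw [MonoidAlgebra.mapRingHom_single, map_neg, map_one]
          exact hx
      refine ⟨genK1 (oneByOne x'), AddSubgroup.subset_closure (Or.inr ⟨x', hx', rfl⟩), ?_⟩
      rw [mapF_gen, mapGL_oneByOne]
      rfl

/-- the assembly map on free abelian groups -/
noncomputable def asmF (R : Type u) [CommRing R] (G : Type v) [Group G] :
    FreeAbelianGroup (CycUnit R G) →+ FreeAbelianGroup (InvMat (MonoidAlgebra R G)) :=
  FreeAbelianGroup.lift fun a => genK1 (oneByOne (unitsMap a.C.1.subtype a.x))

theorem toWhF_asmF (z : FreeAbelianGroup (CycUnit R G)) :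
    toWhF R G (asmF R G z) = assembly R G (toColim R G z) := by
  induction z using FreeAbelianGroup.induction_on with
  | zero => rw [map_zero, map_zero, map_zero, map_zero]
  | of x =>
    rw [asmF, FreeAbelianGroup.lift_apply_of]
    exact (assembly_cl x.C x.x).symm
  | neg x hx => rw [map_neg, map_neg, hx, map_neg, map_neg]
  | add x y hx hy => rw [map_add, map_add, hx, hy, map_add, map_add]

theorem eventually_free (z : FreeAbelianGroup (CycUnit R G)) :
    ∀ᶠ s : Finset R in atTop, ∃ z' : FreeAbelianGroup (CycUnit (sub s) G),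
      colimMap (incl s) G (toColim (sub s) G z') = toColim R G z ∧
        mapF G s (asmF (sub s) G z') = asmF R G z := by
  have hof : ∀ x : CycUnit R G, ∀ᶠ s : Finset R in atTop,
      ∃ z' : FreeAbelianGroup (CycUnit (sub s) G),
        colimMap (incl s) G (toColim (sub s) G z') = toColim R G (FreeAbelianGroup.of x) ∧
        mapF G s (asmF (sub s) G z') = asmF R G (FreeAbelianGroup.of x) := by
    rintro ⟨C, x⟩
    filter_upwards [eventually_uMap x] with s h1
    obtain ⟨x', rfl⟩ := h1
    refine ⟨gen C x', ?_, ?_⟩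
    · exact colimMap_cl (incl s) G C x'
    · rw [asmF, gen, FreeAbelianGroup.lift_apply_of, asmF, FreeAbelianGroup.lift_apply_of,
        mapF_gen, mapGL_oneByOne]
      change genK1 (oneByOne (uMap (incl s) G (unitsMap C.1.subtype x'))) = _
      rw [uMap_unitsMap]
  induction z using FreeAbelianGroup.induction_on with
  | zero => exact Eventually.of_forall fun s => ⟨0, by simp, by simp⟩
  | of x => exact hof x
  | neg x _ =>
    filter_upwards [hof x] with s h1
    obtain ⟨z', h2, h3⟩ := h1
    refine ⟨-z', ?_, ?_⟩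
    · rw [map_neg, map_neg, h2, map_neg]
    · rw [map_neg, map_neg, h3, map_neg]
  | add x y hx hy =>
    filter_upwards [hx, hy] with s h1 h2
    obtain ⟨a, ha1, ha2⟩ := h1
    obtain ⟨b, hb1, hb2⟩ := h2
    refine ⟨a + b, ?_, ?_⟩
    · rw [map_add, map_add, ha1, hb1, map_add]
    · rw [map_add, map_add, ha2, hb2, map_add]

/-- **Descent.** Elements of the kernel of the assembly map come from finitely generated
subrings. -/
theorem eventually_kernel (z : ColimU R G) (M : ℤ) (h : M • assembly R G z = 0) :
    ∀ᶠ s : Finset R in atTop, ∃ z' : ColimU (sub s) G,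
      colimMap (incl s) G z' = z ∧ M • assembly (sub s) G z' = 0 := by
  obtain ⟨y, rfl⟩ : ∃ y, toColim R G y = z := QuotientAddGroup.mk_surjective z
  have h1 : M • asmF R G y ∈ WRel R G := by
    rw [← toWhF_eq_zero, map_zsmul, toWhF_asmF, h]
  filter_upwards [eventually_free y, eventually_rel h1] with s h2 h3
  obtain ⟨z', hz1, hz2⟩ := h2
  obtain ⟨y', hy1, hy2⟩ := h3
  refine ⟨toColim (sub s) G z', hz1, ?_⟩
  have h4 : y' = M • asmF (sub s) G z' := by
    apply mapF_injective s
    rw [hy2, map_zsmul, hz2]
  rw [← toWhF_asmF, ← map_zsmul, ← h4]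
  exact (toWhF_eq_zero _ _ y').2 hy1

end Desc

end Pool.Agent.H71.KP

end

section

/-!
# The functionals on the colimit and their relation to the functionals on the Whitehead group
-/

set_option autoImplicit false
set_option linter.unusedSectionVars false
set_option linter.unusedSimpArgs false

open Matrix
open scoped Classical

universe u v w

namespace Pool.Agent.H71.WH

section

variable {G : Type v} [Group G]

theorem assembly_cl (C : CycSub G) (x : (MonoidAlgebra ℤ C.1)ˣ) :
    assembly G (cl C x) = incWh C x := FreeAbelianGroup.lift_apply_of _ _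

theorem colim_induction {P : ColimU G → Prop} (h0 : P 0)
    (h1 : ∀ (C : CycSub G) (x : (MonoidAlgebra ℤ C.1)ˣ), P (cl C x))
    (h2 : ∀ a b, P a → P b → P (a + b)) (z : ColimU G) : P z := by
  obtain ⟨y, rfl⟩ : ∃ y, toColim G y = z := QuotientAddGroup.mk_surjective z
  induction y using FreeAbelianGroup.induction_on with
  | zero => rw [map_zero]; exact h0
  | of x => exact h1 x.C x.x
  | neg x _ =>
    rw [map_neg]
    change P (-cl x.C x.x)
    rw [← cl_inv]
    exact h1 _ _
  | add x y hx hy => rw [map_add]; exact h2 _ _ hx hy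

theorem class_sq (f : CF G) (x y : G) : f.1 (x * y * (x * y)) = f.1 (y * x * (y * x)) := by
  have h1 : x * y * (x * y) = x * (y * x * y) := by group
  have h2 : y * x * (y * x) = y * x * y * x := by group
  rw [h1, h2, f.2]

/-- composition with the square -/
def CF.sq (f : CF G) : CF G := ⟨fun x => f.1 (x * x), class_sq f⟩

theorem CF.sq_iter (f : CF G) (k : ℕ) (x : G) : (CF.sq^[k] f).1 x = f.1 (x ^ 2 ^ k) := by
  induction k generalizing f with
  | zero => simp
  | succ k ih =>
    rw [Function.iterate_succ_apply, ih]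
    change f.1 (x ^ 2 ^ k * x ^ 2 ^ k) = _
    rw [← pow_add, pow_succ, mul_two]

theorem GamWh_assembly (f : CF G) (z : ColimU G) :
    GamWh f.1 f.2 (assembly G z) = LUc f z - 1 / 2 * LUc f.sq z := by
  induction z using colim_induction with
  | h0 => simp
  | h1 C x =>
    rw [assembly_cl, GamWh_incWh, LUc_cl, LUc_cl]
    rfl
  | h2 a b ha hb =>
    rw [map_add, map_add, ha, hb, map_add, map_add]
    ring

theorem LUc_half (f : CF G) {z : ColimU G} {M : ℤ} (hM : M ≠ 0) (h : M • assembly G z = 0) :
    LUc f z = 1 / 2 * LUc f.sq z := by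
  have h1 := congrArg (GamWh f.1 f.2) h
  rw [map_zsmul, map_zero, GamWh_assembly, zsmul_eq_mul] at h1
  rcases mul_eq_zero.1 h1 with h2 | h2
  · exact absurd (by exact_mod_cast h2) hM
  · exact sub_eq_zero.1 h2

theorem LUc_iter (f : CF G) {z : ColimU G} {M : ℤ} (hM : M ≠ 0) (h : M • assembly G z = 0)
    (n : ℕ) : LUc f z = (1 / 2) ^ n * LUc (CF.sq^[n] f) z := by
  induction n generalizing f with
  | zero => simp
  | succ n ih =>
    rw [LUc_half f hM h, ih f.sq, Function.iterate_succ_apply, pow_succ]
    ring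

/-- Eventual periodicity. -/
def Per (z : ColimU G) (k d : ℕ) : Prop :=
  ∀ f : CF G, LUc (CF.sq^[k + d] f) z = LUc (CF.sq^[k] f) z

theorem Per.mul {z : ColimU G} {k d : ℕ} (h : Per z k d) (m : ℕ) : Per z k (m * d) := by
  induction m with
  | zero => intro f; rw [zero_mul, add_zero]
  | succ m ih =>
    intro f
    rw [← ih f]
    have h1 := h (CF.sq^[m * d] f)
    rw [← Function.iterate_add_apply, ← Function.iterate_add_apply] at h1
    have e1 : k + (m + 1) * d = k + d + m * d := by ring
    rw [e1]
    exact h1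

theorem Per.add {z : ColimU G} {k d : ℕ} (h : Per z k d) (j : ℕ) : Per z (k + j) d := by
  intro f
  have h1 := h (CF.sq^[j] f)
  rw [← Function.iterate_add_apply, ← Function.iterate_add_apply] at h1
  have e1 : k + j + d = k + d + j := by ring
  rw [e1]
  exact h1

theorem exists_per (z : ColimU G) : ∃ k d, 0 < d ∧ Per z k d := by
  induction z using colim_induction with
  | h0 => exact ⟨0, 1, one_pos, fun f => by rw [map_zero, map_zero]⟩
  | h1 C x =>
    have := C.2.1
    obtain ⟨a, b, hab, h⟩ := Finite.exists_ne_map_eq_of_infinite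
      (fun (k : ℕ) (c : C.1) => c ^ 2 ^ k)
    wlog hlt : a < b generalizing a b
    · exact this b a (Ne.symm hab) h.symm (lt_of_le_of_ne (not_lt.1 hlt) (Ne.symm hab))
    refine ⟨a, b - a, Nat.sub_pos_of_lt hlt, ?_⟩
    intro f
    rw [Nat.add_sub_cancel' hlt.le, LUc_cl, LUc_cl]
    congr 1
    funext c
    rw [CF.sq_iter, CF.sq_iter]
    have h1 : c ^ 2 ^ a = c ^ 2 ^ b := congrFun h c
    have h2 : (c : G) ^ 2 ^ a = (c : G) ^ 2 ^ b := by
      rw [← Subgroup.coe_pow, h1, Subgroup.coe_pow]
    rw [h2]
  | h2 x y hx hy =>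
    obtain ⟨k, d, hd, h⟩ := hx
    obtain ⟨k', d', hd', h'⟩ := hy
    refine ⟨k + k', d' * d, Nat.mul_pos hd' hd, ?_⟩
    intro f
    have e1 := (h.mul d').add k' f
    have e2 := (h'.mul d).add k f
    rw [mul_comm d d', add_comm k' k] at e2
    rw [map_add, map_add, e1, e2]

/-- The functionals vanish on the kernel of the assembly map. -/
theorem LUc_eq_zero (f : CF G) {z : ColimU G} {M : ℤ} (hM : M ≠ 0) (h : M • assembly G z = 0) :
    LUc f z = 0 := by
  obtain ⟨k, d, hd, hp⟩ := exists_per z
  have h1 := LUc_iter f hM h k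
  have h2 := LUc_iter f hM h (k + d)
  rw [hp f] at h2
  rw [pow_add] at h2
  have h3 : LUc f z = (1 / 2) ^ d * LUc f z := by
    conv_rhs => rw [h1]
    rw [h2]
    ring
  have h4 : ((1 : ℚ_[2]) / 2) ^ d ≠ 1 := by
    intro h5
    have h6 : ((2 : ℚ_[2])) ^ d = 1 := by
      rw [one_div, inv_pow] at h5
      exact inv_eq_one.1 h5
    have h7 : (2 : ℕ) ^ d = 1 := by exact_mod_cast h6
    have h8 := Nat.one_lt_pow hd.ne' (by norm_num : 1 < 2)
    omega
  have h5 : (1 - (1 / 2 : ℚ_[2]) ^ d) * LUc f z = 0 := by
    linear_combination h3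
  rcases mul_eq_zero.1 h5 with h6 | h6
  · exact absurd (sub_eq_zero.1 h6).symm h4
  · exact h6

end

end Pool.Agent.H71.WH

end
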