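import Pool.Agent.H13.TFQ.H71.FQ.MorA
import Pool.Agent.H13.TFQ.M12
import Pool.Agent.H13.TFQ.M17
import Pool.Agent.H13.TFQ.M38

/-! The parts of this file: H71.FQ.MorC, H71.FU0.Defs0. -/

section

/-!
# Project FQ, Morita invariance, part C
-/

set_option autoImplicit false

open Matrix

universe u v w

namespace Pool.Agent.H71.FQ

open Pool.Agent.H71.FJ (MatEquiv IdemMat K0 K0.mk K0.lift K0.lift_mk K0.hom_ext K0.map K0.flat K0.flat_mul K0.push K0.push_mk K0.cls K0.cls_congr K0.cls_fromBlocks K0.flat_idem K0.fromBlocks_idem K0.matEquiv_submatrix K0.mk_eq_cls K0.push_congr K0.map_push K0.push_map)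
open Pool.Agent.H95.WH (FamSub conjHom FinSub)

section

variable {R : Type u} [Ring R] {R' : Type w} [Ring R'] {r : ℕ}

/-- compatibility with homomorphisms of groups -/
theorem thM_mapDomain (ρ : R' →+* Matrix (Fin r) (Fin r) R) {F : Type v} [Group F] {F' : Type v}
    [Group F'] (f : F →* F') (x : MonoidAlgebra R' F) :
    thM ρ F' (MonoidAlgebra.mapDomainRingHom R' f x) =
      (thM ρ F x).map (MonoidAlgebra.mapDomainRingHom R f) := by
  induction x using MonoidAlgebra.induction_linear with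
  | zero =>
    rw [map_zero, map_zero, map_zero]
    exact (Matrix.map_zero _ (map_zero _)).symm
  | add a b ha hb =>
    rw [map_add, map_add, ha, hb, map_add]
    exact (Matrix.map_add _ (fun x y => map_add _ x y) _ _).symm
  | single g a =>
    have h1 : MonoidAlgebra.mapDomainRingHom R' f (MonoidAlgebra.single g a) =
        MonoidAlgebra.single (f g) a := MonoidAlgebra.mapDomain_single
    rw [h1, thM_single, thM_single]
    refine Matrix.ext fun i j => ?_
    rw [Matrix.map_apply, Matrix.map_apply, Matrix.map_apply]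
    exact (MonoidAlgebra.mapDomain_single (f := f) (a := g) (r := ρ a i j)).symm

/-- **Flattening and the product for group rings.** -/
theorem push_gasm (ρ : R' →+* Matrix (Fin r) (Fin r) R) {n : ℕ} {G : Type v} [Group G]
    {H : Type v} [Group H] {Γ : Type v} [Group Γ]
    (f : H →* G) (κ : Γ →* G) (h : ∀ γ a, f a * κ γ = κ γ * f a)
    (x : K0 (MonoidAlgebra R' H)) (z : HG Γ n) :
    KQ.push (thM ρ G) (gasm R' n f κ h x z) = gasm R n f κ h (K0.push (thM ρ H) x) z := by
  refine push_asm (thM ρ G) (thM ρ H) _ _ _ _ _ _ (fun b => thM_mapDomain ρ f b)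
    (fun γ => ?_) x z
  have h1 : (((grpHom R' G).comp κ) γ : MonoidAlgebra R' G) = MonoidAlgebra.single (κ γ) 1 := rfl
  have h2 : (((grpHom R G).comp κ) γ : MonoidAlgebra R G) = MonoidAlgebra.single (κ γ) 1 := rfl
  rw [h1, h2, thM_single, map_one]
  refine Matrix.ext fun i j => ?_
  rw [Matrix.map_apply, Matrix.diagonal_apply]
  by_cases hij : i = j
  · rw [if_pos hij, hij, Matrix.one_apply_eq]
  · rw [if_neg hij, Matrix.one_apply_ne hij]
    exact MonoidAlgebra.single_zero _

/-- The family of a homomorphism `R' → Mat_r(R)`. -/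
noncomputable def NatK0.ofMat (ρ : R' →+* Matrix (Fin r) (Fin r) R) (G : Type v) [Group G] :
    NatK0 R' R G where
  app F := K0.push (thM ρ F.1)
  nat F F' g h x := by
    rw [K0.push_map, K0.map_push]
    have h1 : (thM ρ F'.1).comp (MonoidAlgebra.mapDomainRingHom R' (conjHom g F.1 F'.1 h)) =
        (MonoidAlgebra.mapDomainRingHom R (conjHom g F.1 F'.1 h)).mapMatrix.comp (thM ρ F.1) :=
      RingHom.ext fun y => thM_mapDomain ρ _ y
    rw [h1]

theorem NatK0.ofMat_app (ρ : R' →+* Matrix (Fin r) (Fin r) R) (G : Type v) [Group G]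
    (F : FamSub G FinSub) (x : K0 (MonoidAlgebra R' F.1)) :
    (NatK0.ofMat ρ G).app F x = K0.push (thM ρ F.1) x := rfl

theorem NatK0.ofMat_asm (ρ : R' →+* Matrix (Fin r) (Fin r) R) {n : ℕ} {G : Type v} [Group G]
    (F : FamSub G FinSub) (x : K0 (MonoidAlgebra R' F.1))
    (z : HG (Subgroup.centralizer (F.1 : Set G)) n) :
    KQ.push (thM ρ G) (assemblyN R' n G (sy F x z)) =
      assemblyN R n G (sy F ((NatK0.ofMat ρ G).app F x) z) := by
  rw [asmN_sy, asmN_sy, push_gasm]
  rfl

end

end Pool.Agent.H71.FQ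

end

section

/-!
# Project FU, degree one: the colimit of the groups `K₁(R[F])`, the joint assembly map in degree one

`H0K1 R G` is the colimit of the groups `K₁(R[F])` over the finite subgroups `F` of `G`, `assembly10 R G` the map to
`KQ (R[G]) 0`, `assembly00 R G` the joint assembly map in degree one. The reductions of `FU1` in degree one.
-/

set_option autoImplicit false

open Matrix
open scoped TensorProduct

universe u u' v w

namespace Pool.Agent.H71.FU0

open Pool.Agent.H71.FQ
open Pool.Agent.H71.FU1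
open Pool.Agent.H71.FJ (K0 K0.map K0.flat K0.push K0.push_congr K0.map_push K0.push_map K0.nilLift_map NilKer)
open Pool.Agent.H95.WH (K1 K1.mk K1.lift K1.lift_mk K1.hom_ext K1.map K1.map_mk K1.map_map FamSub conjHom FinSub K1_map_conj)

section

variable (R : Type u) [Ring R] (G : Type v) [Group G]

/-- the symbols `[F, x]` -/
abbrev Sy10 : Type (max u v) := Σ F : FamSub G FinSub, K1 (MonoidAlgebra R F.1)

/-- the relations -/
noncomputable def Rel10 : AddSubgroup (FreeAbelianGroup (Sy10 R G)) :=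
  AddSubgroup.closure
    ({w | ∃ (F : FamSub G FinSub) (x y : K1 (MonoidAlgebra R F.1)),
        w = FreeAbelianGroup.of (⟨F, x + y⟩ : Sy10 R G) -
          (FreeAbelianGroup.of ⟨F, x⟩ + FreeAbelianGroup.of ⟨F, y⟩)} ∪
      {w | ∃ (F F' : FamSub G FinSub) (g : G) (h : ∀ x ∈ F.1, g * x * g⁻¹ ∈ F'.1)
        (x : K1 (MonoidAlgebra R F.1)),
        w = FreeAbelianGroup.of (⟨F', K1.map (MonoidAlgebra.mapDomainRingHom R
          (conjHom g F.1 F'.1 h)) x⟩ : Sy10 R G) - FreeAbelianGroup.of ⟨F, x⟩})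

/-- the colimit of the groups `K₁(R[F])` -/
def H0K1 : Type (max u v) := FreeAbelianGroup (Sy10 R G) ⧸ Rel10 R G

noncomputable instance instH0K1 : AddCommGroup (H0K1 R G) :=
  QuotientAddGroup.Quotient.addCommGroup (Rel10 R G)

end

section

variable {R : Type u} [Ring R] {S : Type u'} [Ring S] {G : Type v} [Group G]

theorem of_eq_add (F : FamSub G FinSub) (x y : K1 (MonoidAlgebra R F.1)) :
    (QuotientAddGroup.mk (FreeAbelianGroup.of (⟨F, x + y⟩ : Sy10 R G)) : H0K1 R G) =
      QuotientAddGroup.mk (FreeAbelianGroup.of (⟨F, x⟩ : Sy10 R G)) +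
        QuotientAddGroup.mk (FreeAbelianGroup.of (⟨F, y⟩ : Sy10 R G)) := by
  have h : FreeAbelianGroup.of (⟨F, x + y⟩ : Sy10 R G) -
      (FreeAbelianGroup.of (⟨F, x⟩ : Sy10 R G) + FreeAbelianGroup.of (⟨F, y⟩ : Sy10 R G)) ∈
        Rel10 R G := AddSubgroup.subset_closure (Or.inl ⟨F, x, y, rfl⟩)
  exact (QuotientAddGroup.eq_iff_sub_mem (N := Rel10 R G)).2 h

/-- the class of `[F, x]` -/
noncomputable def cl (F : FamSub G FinSub) : K1 (MonoidAlgebra R F.1) →+ H0K1 R G :=
  AddMonoidHom.mk' (fun x => (QuotientAddGroup.mk (FreeAbelianGroup.of (⟨F, x⟩ : Sy10 R G)) :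
    H0K1 R G)) (of_eq_add F)

theorem cl_conj (F F' : FamSub G FinSub) (g : G) (h : ∀ x ∈ F.1, g * x * g⁻¹ ∈ F'.1)
    (x : K1 (MonoidAlgebra R F.1)) :
    cl F' (K1.map (MonoidAlgebra.mapDomainRingHom R (conjHom g F.1 F'.1 h)) x) = cl F x := by
  have h : FreeAbelianGroup.of (⟨F', K1.map (MonoidAlgebra.mapDomainRingHom R
          (conjHom g F.1 F'.1 h)) x⟩ : Sy10 R G) - FreeAbelianGroup.of (⟨F, x⟩ : Sy10 R G) ∈
        Rel10 R G := AddSubgroup.subset_closure (Or.inr ⟨F, F', g, h, x, rfl⟩)
  exact (QuotientAddGroup.eq_iff_sub_mem (N := Rel10 R G)).2 h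

theorem h0k1_induction {P : H0K1 R G → Prop} (h0 : P 0)
    (h1 : ∀ (F : FamSub G FinSub) (x : K1 (MonoidAlgebra R F.1)), P (cl F x))
    (h2 : ∀ a b, P a → P b → P (a + b)) (h3 : ∀ a, P a → P (-a)) (w : H0K1 R G) : P w := by
  obtain ⟨y, rfl⟩ : ∃ y, (QuotientAddGroup.mk y : H0K1 R G) = w := QuotientAddGroup.mk_surjective w
  induction y using FreeAbelianGroup.induction_on with
  | zero => exact h0
  | of s => exact h1 s.1 s.2
  | neg s _ => exact h3 _ (h1 s.1 s.2)
  | add x y hx hy => exact h2 _ _ hx hy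

theorem h0k1_ext {M : Type*} [AddCommGroup M] {f g : H0K1 R G →+ M}
    (h : ∀ (F : FamSub G FinSub) (x : K1 (MonoidAlgebra R F.1)), f (cl F x) = g (cl F x)) :
    f = g := by
  ext x
  induction x using h0k1_induction with
  | h0 => rw [map_zero, map_zero]
  | h1 F x => exact h F x
  | h2 a b ha hb => rw [map_add, map_add, ha, hb]
  | h3 a ha => rw [map_neg, map_neg, ha]

/-- homomorphisms out of the colimit -/
noncomputable def lift10 {M : Type*} [AddCommGroup M]
    (f : ∀ F : FamSub G FinSub, K1 (MonoidAlgebra R F.1) →+ M)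
    (hf : ∀ (F F' : FamSub G FinSub) (g : G) (h : ∀ x ∈ F.1, g * x * g⁻¹ ∈ F'.1)
      (x : K1 (MonoidAlgebra R F.1)),
      f F' (K1.map (MonoidAlgebra.mapDomainRingHom R (conjHom g F.1 F'.1 h)) x) = f F x) :
    H0K1 R G →+ M :=
  QuotientAddGroup.lift (Rel10 R G) (FreeAbelianGroup.lift fun s : Sy10 R G => f s.1 s.2) (by
    rw [Rel10, AddSubgroup.closure_le]
    rintro w (⟨F, x, y, rfl⟩ | ⟨F, F', g, h, x, rfl⟩)
    · change FreeAbelianGroup.lift _ _ = 0
      rw [map_sub, map_add, FreeAbelianGroup.lift_apply_of, FreeAbelianGroup.lift_apply_of,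
        FreeAbelianGroup.lift_apply_of, map_add, sub_self]
    · change FreeAbelianGroup.lift _ _ = 0
      rw [map_sub, FreeAbelianGroup.lift_apply_of, FreeAbelianGroup.lift_apply_of, sub_eq_zero]
      exact hf F F' g h x)

theorem lift10_cl {M : Type*} [AddCommGroup M]
    (f : ∀ F : FamSub G FinSub, K1 (MonoidAlgebra R F.1) →+ M)
    (hf : ∀ (F F' : FamSub G FinSub) (g : G) (h : ∀ x ∈ F.1, g * x * g⁻¹ ∈ F'.1)
      (x : K1 (MonoidAlgebra R F.1)),
      f F' (K1.map (MonoidAlgebra.mapDomainRingHom R (conjHom g F.1 F'.1 h)) x) = f F x)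
    (F : FamSub G FinSub) (x : K1 (MonoidAlgebra R F.1)) : lift10 f hf (cl F x) = f F x :=
  FreeAbelianGroup.lift_apply_of (fun s : Sy10 R G => f s.1 s.2) ⟨F, x⟩

end

section

variable (R : Type u) [Ring R] (G : Type v) [Group G]

/-- conjugations act trivially on `K₁(R[G])` -/
theorem map_conj_eq {H : Type*} [Group H] (f f' : H →* G) (g : G) (h : ∀ a, f' a = g * f a * g⁻¹)
    (x : K1 (MonoidAlgebra R H)) :
    K1.map (MonoidAlgebra.mapDomainRingHom R f') x =
      K1.map (MonoidAlgebra.mapDomainRingHom R f) x := by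
  refine K1_map_conj _ _ (MonoidAlgebra.single g 1) (MonoidAlgebra.single g⁻¹ 1) ?_ ?_ ?_ x
  · rw [MonoidAlgebra.single_mul_single, mul_inv_cancel, mul_one]
    rfl
  · rw [MonoidAlgebra.single_mul_single, inv_mul_cancel, mul_one]
    rfl
  · intro a
    induction a using MonoidAlgebra.induction_linear with
    | zero => rw [map_zero, map_zero, mul_zero, zero_mul]
    | add a b ha hb => rw [map_add, map_add, mul_add, add_mul, ha, hb]
    | single m r =>
      change MonoidAlgebra.mapDomain f' (MonoidAlgebra.single m r) =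
        MonoidAlgebra.single g 1 * MonoidAlgebra.mapDomain f (MonoidAlgebra.single m r) *
          MonoidAlgebra.single g⁻¹ 1
      rw [MonoidAlgebra.mapDomain_single, MonoidAlgebra.mapDomain_single,
        MonoidAlgebra.single_mul_single, MonoidAlgebra.single_mul_single, h, one_mul, mul_one]

/-- the assembly map on the `K₁`-part in degree one -/
noncomputable def assembly10 : H0K1 R G →+ KQ (MonoidAlgebra R G) 0 :=
  lift10 (fun F => kq1.comp (K1.map (MonoidAlgebra.mapDomainRingHom R F.1.subtype))) (by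
    intro F F' g h x
    rw [AddMonoidHom.comp_apply, AddMonoidHom.comp_apply, K1.map_map,
      ← MonoidAlgebra.mapDomainRingHom_comp]
    congr 1
    exact map_conj_eq R G _ _ g (fun a => rfl) x)

/-- **the joint assembly map in degree one** -/
noncomputable def assembly00 : HnK0 R G 0 × H0K1 R G →+ KQ (MonoidAlgebra R G) 0 :=
  (assemblyN R 0 G).coprod (assembly10 R G)

end

section

variable {R : Type u} [Ring R] {S : Type u'} [Ring S] {G : Type v} [Group G]

theorem assembly10_cl (F : FamSub G FinSub) (x : K1 (MonoidAlgebra R F.1)) :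
    assembly10 R G (cl F x) =
      kq1 (K1.map (MonoidAlgebra.mapDomainRingHom R F.1.subtype) x) := lift10_cl _ _ F x

/-- The homomorphism of the colimits. -/
noncomputable def src0 (τ : NatK1 R S G) : H0K1 R G →+ H0K1 S G :=
  lift10 (fun F => (cl F).comp (τ.app F)) (by
    intro F F' g h x
    change cl F' (τ.app F' (K1.map _ x)) = cl F (τ.app F x)
    rw [τ.nat, cl_conj])

theorem src0_cl (τ : NatK1 R S G) (F : FamSub G FinSub) (x : K1 (MonoidAlgebra R F.1)) :
    src0 τ (cl F x) = cl F (τ.app F x) := lift10_cl _ _ F x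

theorem ofHom_asm0 (φ : R →+* S) (F : FamSub G FinSub) (x : K1 (MonoidAlgebra R F.1)) :
    KQ.map (MonoidAlgebra.mapRingHom G φ) (assembly10 R G (cl F x)) =
      assembly10 S G (cl F ((NatK1.ofHom G φ).app F x)) := by
  rw [assembly10_cl, assembly10_cl, map_kq1, NatK1.ofHom_app, K1.map_map, K1.map_map,
    mapRing_mapDomain]

end

section

end

section

end

end Pool.Agent.H71.FU0

end
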