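import Pool.Agent.H13.TFQ.M27
import Pool.Agent.H13.TFQ.M29
import Pool.Agent.H13.TFQ.M35

/-! The parts of this file: H71.KP.ResK_3, H71.KP.Jac, H71.KP.ResK_2, H71.KP.ResK_1. -/

section

/-!
# The residue functionals on `Wh` in positive characteristic
-/

set_option autoImplicit false
set_option linter.unusedSectionVars false
set_option linter.unusedSimpArgs false

open Matrix

universe u v w t

namespace Pool.Agent.H71.KP

open Pool.Agent.H71.WH (InvMat K1 K1.mk K1.unit K1Rel genK1 addOne oneByOne CycSub conjHom K1.mk_mul K1.unit_mul)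

namespace ResDat

variable {p : ℕ} [hp : Fact p.Prime] {k : Type u} [CommRing k] (d : ResDat p k)

section Grp

variable {G : Type v} [Group G]

/-- reduction of group rings -/
noncomputable def red (G : Type v) [Group G] : MonoidAlgebra d.A G →+* MonoidAlgebra k G :=
  MonoidAlgebra.mapRingHom G d.π

theorem red_surjective : Function.Surjective (d.red G) := by
  intro x
  induction x using MonoidAlgebra.induction_linear with
  | zero => exact ⟨0, map_zero _⟩
  | add x y hx hy =>
    obtain ⟨x', rfl⟩ := hx
    obtain ⟨y', rfl⟩ := hy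
    exact ⟨x' + y', map_add _ _ _⟩
  | single g a =>
    obtain ⟨a', rfl⟩ := d.surj a
    exact ⟨MonoidAlgebra.single g a', MonoidAlgebra.mapRingHom_single _ _ _⟩

theorem red_ker (x : MonoidAlgebra d.A G) (hx : d.red G x = 0) :
    ∃ y, x = (p : MonoidAlgebra d.A G) * y := by
  classical
  have h1 : ∀ g, d.π (x.coeff g) = 0 := by
    intro g
    have h2 := congrArg (fun z : MonoidAlgebra k G => z.coeff g) hx
    have h3 : (d.red G x).coeff g = d.π (x.coeff g) := MonoidAlgebra.coeff_mapRingHom _ _ _
    rw [← h3, hx]
    rfl
  choose y hy using fun g => d.ker _ (h1 g)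
  refine ⟨MonoidAlgebra.ofCoeff (Finsupp.onFinset x.coeff.support
    (fun c => if x.coeff c = 0 then 0 else y c) ?_), ?_⟩
  · intro c hc
    rw [Finsupp.mem_support_iff]
    intro h0
    exact hc (if_pos h0)
  · rw [← nsmul_eq_mul]
    ext c
    rw [MonoidAlgebra.coeff_smul, Finsupp.smul_apply, MonoidAlgebra.coeff_ofCoeff,
      Finsupp.onFinset_apply, nsmul_eq_mul]
    split_ifs with h0
    · rw [h0, mul_zero]
    · exact hy c

/-- reduction of matrices -/
noncomputable def redM (G : Type v) [Group G] (n : ℕ) :
    Matrix (Fin n) (Fin n) (MonoidAlgebra d.A G) →+* Matrix (Fin n) (Fin n) (MonoidAlgebra k G) :=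
  RingHom.mapMatrix (d.red G)

theorem redM_surjective (n : ℕ) : Function.Surjective (d.redM G n) := by
  intro x
  choose y hy using fun i j => d.red_surjective (x i j)
  exact ⟨Matrix.of y, Matrix.ext fun i j => hy i j⟩

theorem redM_ker {n : ℕ} (x : Matrix (Fin n) (Fin n) (MonoidAlgebra d.A G))
    (hx : d.redM G n x = 0) : ∃ y, x = (p : Matrix (Fin n) (Fin n) (MonoidAlgebra d.A G)) * y := by
  choose y hy using fun i j => d.red_ker (x i j) (congrFun (congrFun hx i) j)
  refine ⟨Matrix.of y, ?_⟩
  rw [← nsmul_eq_mul]
  refine Matrix.ext fun i j => ?_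
  rw [Matrix.smul_apply, nsmul_eq_mul]
  exact hy i j

theorem p_pow_ga : (p : MonoidAlgebra d.A G) ^ d.n = 0 := by
  have h : (p : MonoidAlgebra d.A G) = MonoidAlgebra.singleOneRingHom (p : d.A) :=
    (map_natCast _ _).symm
  rw [h, ← map_pow, d.nilA, map_zero]

theorem p_pow_mat (n : ℕ) : (p : Matrix (Fin n) (Fin n) (MonoidAlgebra d.A G)) ^ d.n = 0 := by
  have h : (p : Matrix (Fin n) (Fin n) (MonoidAlgebra d.A G)) =
      scalar (Fin n) (p : MonoidAlgebra d.A G) := (map_natCast _ _).symm
  rw [h, ← map_pow, d.p_pow_ga, map_zero]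

end Grp

section Lam

end Lam

section Map

end Map

end ResDat

end Pool.Agent.H71.KP

end

section

/-!
# Jacobi's formula and the residue functional of the restriction
-/

set_option autoImplicit false
set_option linter.unusedSectionVars false
set_option linter.unusedSimpArgs false

open Matrix
open scoped Classical

universe u v w t

namespace Pool.Agent.H71.KP

open TrivSqZeroExt in
/-- The homomorphism to the dual numbers of a derivation. -/
noncomputable def toDual {C : Type u} [CommRing C] (D : C →+ C)
    (leib : ∀ x y, D (x * y) = D x * y + x * D y) : C →+* TrivSqZeroExt C C where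
  toFun c := inl c + inr (D c)
  map_one' := by
    have h := leib 1 1
    rw [mul_one, one_mul, mul_one] at h
    rw [add_eq_left.1 h.symm, inr_zero, add_zero, inl_one]
  map_zero' := by rw [map_zero, inl_zero, inr_zero, add_zero]
  map_add' a b := by rw [map_add, inl_add, inr_add]; abel
  map_mul' a b := by
    ext
    · simp
    · simp [leib, mul_comm, add_comm]

open TrivSqZeroExt in
/-- **Jacobi's formula** for derivations. -/
theorem D_det {C : Type u} [CommRing C] {ι : Type v} [Fintype ι] [DecidableEq ι] (D : C →+ C)
    (leib : ∀ x y, D (x * y) = D x * y + x * D y) (W V : Matrix ι ι C) (hV : W * V = 1) :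
    D (det W) = det W * trace (V * W.map D) := by
  set E := toDual D leib with hE
  let ε : TrivSqZeroExt C C := inr 1
  have hε : ε ^ 2 = 0 := by rw [pow_two]; exact inr_mul_inr _ _ _
  have h1 : W.map E = (W.map (inlHom C C)) * (1 + ε • (V * W.map D).map (inlHom C C)) := by
    have h2 : (W.map (inlHom C C)) * ((V * W.map D).map (inlHom C C)) =
        (W.map D).map (inlHom C C) := by
      rw [← Matrix.map_mul, ← mul_assoc, hV, one_mul]
    rw [mul_add, mul_one, Matrix.mul_smul, h2]
    refine Matrix.ext fun i j => ?_
    rw [Matrix.map_apply, Matrix.add_apply, Matrix.map_apply, Matrix.smul_apply, Matrix.map_apply,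
      Matrix.map_apply]
    change inl (W i j) + inr (D (W i j)) = inl (W i j) + inr 1 * inl (D (W i j))
    congr 1
    rw [inr_mul_inl]
    simp
  have h3 : E (det W) = det (W.map E) := RingHom.map_det E W
  have h4 : det (W.map (inlHom C C)) = inlHom C C (det W) := (RingHom.map_det _ W).symm
  have h5 : trace ((V * W.map D).map (inlHom C C)) = inlHom C C (trace (V * W.map D)) :=
    (AddMonoidHom.map_trace (inlHom C C).toAddMonoidHom _).symm
  rw [h1, det_mul, det_one_add_smul, hε, mul_zero, add_zero, h4, h5] at h3
  have h6 := congrArg snd h3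
  have h7 : snd (E (det W)) = D (det W) := by
    change snd (inl (det W) + inr (D (det W))) = _
    simp
  rw [h7] at h6
  rw [h6]
  change snd (inl (det W) * (1 + inl (trace (V * W.map D)) * inr 1)) = _
  simp

variable {M : Type u} [CommRing M] {B : Type v} [AddCommGroup B] (t : DT M B)

/-- The logarithmic derivative of the determinant. -/
theorem dlog_det {ι : Type w} [Fintype ι] [DecidableEq ι] (u : (Matrix ι ι M)ˣ) :
    t.dlog (Units.map (detMonoidHom : Matrix ι ι M →* M) u) = (t.mat ι).dlog u := by
  have h1 := D_det t.D t.leib (u : Matrix ι ι M) ((u⁻¹ : (Matrix ι ι M)ˣ) : Matrix ι ι M)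
    (Units.mul_inv u)
  rw [DT.dlog, DT.dlog, t.mat_τ, t.mat_D]
  have h2 : t.D ((Units.map (detMonoidHom : Matrix ι ι M →* M) u : Mˣ) : M) =
      ((Units.map (detMonoidHom : Matrix ι ι M →* M) u : Mˣ) : M) *
        trace (((u⁻¹ : (Matrix ι ι M)ˣ) : Matrix ι ι M) * (u : Matrix ι ι M).map t.D) := h1
  rw [h2, ← mul_assoc, Units.inv_mul, one_mul, trace, map_sum]
  rfl

namespace ResDat

variable {p : ℕ} [hp : Fact p.Prime] {k : Type u} [CommRing k] (d : ResDat p k)

/-- the delta function -/
noncomputable def del {H : Type v} (d : ResDat p k) (c : H) : H → d.B :=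
  fun a => if a = c then 1 else 0

variable {H : Type v} [CommGroup H]

theorem gD_resR (E : Subgroup H) [Fintype (H ⧸ E)] (x : MonoidAlgebra d.A H) :
    (resR d.A E x).map (d.gD E) = resR d.A E (d.gD H x) := by
  induction x using MonoidAlgebra.induction_linear with
  | zero => rw [map_zero, map_zero, map_zero]; exact Matrix.map_zero _ (map_zero _)
  | add x y hx hy => rw [map_add, map_add, map_add, ← hx, ← hy, Matrix.map_add _ (map_add _)]
  | single h a =>
    refine Matrix.ext fun i j => ?_
    rw [gD_single, Matrix.map_apply]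
    change d.gD E (resA d.A E (MonoidAlgebra.single h a) i j) =
      resA d.A E (MonoidAlgebra.single h (d.θ a)) i j
    rw [resA_single, resA_single]
    split_ifs
    · rw [gD_single]
    · rw [map_zero]

theorem gf_resR (E : Subgroup H) [Fintype (H ⧸ E)] (c : E) (x : MonoidAlgebra d.A H) :
    ∑ i, d.gf (d.del c) (resR d.A E x i i) =
      (Nat.card (H ⧸ E) : ℤ) • d.gf (d.del (c : H)) x := by
  induction x using MonoidAlgebra.induction_linear with
  | zero => simp
  | add x y hx hy =>
    rw [map_add, map_add, smul_add, ← hx, ← hy, ← Finset.sum_add_distrib]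
    exact Finset.sum_congr rfl fun i _ => by rw [Matrix.add_apply, map_add]
  | single h a =>
    rw [gf_single]
    have h1 : ∀ q : H ⧸ E, d.gf (d.del c) (resR d.A E (MonoidAlgebra.single h a) q q) =
        d.del (c : H) h * d.res a := by
      intro q
      change d.gf (d.del c) (resA d.A E (MonoidAlgebra.single h a) q q) = _
      rw [resA_single]
      have h2 : q.out⁻¹ * h * q.out = h := by
        rw [mul_comm, ← mul_assoc, mul_inv_cancel, one_mul]
      by_cases hh : q.out⁻¹ * h * q.out ∈ E
      · rw [dif_pos hh, gf_single]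
        congr 1
        unfold del
        congr 1
        rw [Subtype.ext_iff]
        change (q.out⁻¹ * h * q.out = (c : H)) = (h = (c : H))
        rw [h2]
      · rw [dif_neg hh, map_zero, del, if_neg, zero_mul]
        intro h3
        apply hh
        rw [h2, h3]
        exact c.2
    rw [Finset.sum_congr rfl (fun q _ => h1 q), Finset.sum_const, Finset.card_univ,
      Nat.card_eq_fintype_card, natCast_zsmul]

end ResDat

end Pool.Agent.H71.KP

end

section

/-!
# The residue functionals on `Wh` in positive characteristic
-/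

set_option autoImplicit false
set_option linter.unusedSectionVars false
set_option linter.unusedSimpArgs false

open Matrix

universe u v w t

namespace Pool.Agent.H71.KP

open Pool.Agent.H71.WH (InvMat K1 K1.mk K1.unit K1Rel genK1 addOne oneByOne CycSub conjHom K1.mk_mul K1.unit_mul)

namespace ResDat

variable {p : ℕ} [hp : Fact p.Prime] {k : Type u} [CommRing k] (d : ResDat p k)

section Grp

variable {G : Type v} [Group G]

/-- the structure on the group ring -/
noncomputable def grp (f : G → d.B) (hf : ∀ x y, f (x * y) = f (y * x)) :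
    DT (MonoidAlgebra d.A G) d.B where
  D := d.gD G
  leib x y := by
    induction x using MonoidAlgebra.induction_linear with
    | zero => simp
    | add x x' hx hx' => rw [add_mul, map_add, hx, hx', map_add, add_mul, add_mul]; abel
    | single g a =>
      induction y using MonoidAlgebra.induction_linear with
      | zero => simp
      | add y y' hy hy' => rw [mul_add, map_add, hy, hy', map_add, mul_add, mul_add]; abel
      | single h b =>
        rw [MonoidAlgebra.single_mul_single, gD_single, gD_single, gD_single,
          MonoidAlgebra.single_mul_single, MonoidAlgebra.single_mul_single, d.leib,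
          MonoidAlgebra.single_add]
  τ := d.gf f
  comm x y := by
    induction x using MonoidAlgebra.induction_linear with
    | zero => simp
    | add x x' hx hx' => rw [add_mul, map_add, hx, hx', mul_add, map_add]
    | single g a =>
      induction y using MonoidAlgebra.induction_linear with
      | zero => simp
      | add y y' hy hy' => rw [mul_add, map_add, hy, hy', add_mul, map_add]
      | single h b =>
        rw [MonoidAlgebra.single_mul_single, MonoidAlgebra.single_mul_single, gf_single,
          gf_single, hf, mul_comm a b]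
  τD x := by
    induction x using MonoidAlgebra.induction_linear with
    | zero => simp
    | add x x' hx hx' => rw [map_add, map_add, hx, hx', add_zero]
    | single g a => rw [gD_single, gf_single, d.res_θ, mul_zero]

end Grp

section Lam

end Lam

section Map

end Map

end ResDat

end Pool.Agent.H71.KP

end

section

/-!
# The residue functionals on `Wh` in positive characteristic
-/

set_option autoImplicit false
set_option linter.unusedSectionVars false
set_option linter.unusedSimpArgs false

open Matrix

universe u v w t

namespace Pool.Agent.H71.KP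

open Pool.Agent.H71.WH (InvMat K1 K1.mk K1.unit K1Rel genK1 addOne oneByOne CycSub conjHom K1.mk_mul K1.unit_mul)

namespace ResDat

variable {p : ℕ} [hp : Fact p.Prime] {k : Type u} [CommRing k] (d : ResDat p k)

section Grp

variable {G : Type v} [Group G]

theorem exists_lift {n : ℕ} (u : (Matrix (Fin n) (Fin n) (MonoidAlgebra k G))ˣ) :
    ∃ x : (Matrix (Fin n) (Fin n) (MonoidAlgebra d.A G))ˣ, mapGL (d.red G) n x = u := by
  refine exists_unit_lift_nil (d.redM G n) (d.redM_surjective n) ?_ u
  intro a ha
  obtain ⟨y, rfl⟩ := d.redM_ker a ha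
  refine ⟨d.n, ?_⟩
  rw [(Nat.cast_commute p y).mul_pow, d.p_pow_mat, zero_mul]

theorem exists_lift_unit (u : (MonoidAlgebra k G)ˣ) :
    ∃ x : (MonoidAlgebra d.A G)ˣ, uMap d.π G x = u := by
  refine exists_unit_lift_nil (d.red G) d.red_surjective ?_ u
  intro a ha
  obtain ⟨y, rfl⟩ := d.red_ker a ha
  refine ⟨d.n, ?_⟩
  rw [(Nat.cast_commute p y).mul_pow, d.p_pow_ga, zero_mul]

end Grp

section Lam

variable {G : Type v} [Group G] (f : G → d.B) (hf : ∀ x y, f (x * y) = f (y * x))

theorem dlog_ker {n : ℕ} (x : (Matrix (Fin n) (Fin n) (MonoidAlgebra d.A G))ˣ)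
    (hx : mapGL (d.red G) n x = 1) : ((d.grp f hf).mat (Fin n)).dlog x = 0 := by
  obtain ⟨y, hy⟩ := d.redM_ker ((x : Matrix (Fin n) (Fin n) (MonoidAlgebra d.A G)) - 1) (by
    rw [map_sub, map_one, sub_eq_zero]
    exact congrArg Units.val hx)
  exact DT.dlog_eq_zero _ d.nilB (d.p_pow_mat n) x y (by rw [← hy, add_sub_cancel])

/-- the functional on invertible matrices -/
noncomputable def lam {n : ℕ} (u : (Matrix (Fin n) (Fin n) (MonoidAlgebra k G))ˣ) : d.B :=
  ((d.grp f hf).mat (Fin n)).dlog (d.exists_lift u).choose

theorem lam_eq {n : ℕ} (x : (Matrix (Fin n) (Fin n) (MonoidAlgebra d.A G))ˣ) :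
    d.lam f hf (mapGL (d.red G) n x) = ((d.grp f hf).mat (Fin n)).dlog x := by
  have h1 := (d.exists_lift (mapGL (d.red G) n x)).choose_spec
  have h2 := d.dlog_ker f hf ((d.exists_lift (mapGL (d.red G) n x)).choose * x⁻¹) (by
    rw [map_mul, h1, map_inv, mul_inv_cancel])
  have h3 := DT.dlog_mul ((d.grp f hf).mat (Fin n))
    ((d.exists_lift (mapGL (d.red G) n x)).choose * x⁻¹) x
  rw [h2, zero_add, inv_mul_cancel_right] at h3
  exact h3

/-- the functional on units of the group ring -/
noncomputable def elp (x : (MonoidAlgebra k G)ˣ) : d.B := d.lam f hf (oneByOne x)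

theorem elp_eq (x : (MonoidAlgebra d.A G)ˣ) :
    d.elp f hf (uMap d.π G x) = (d.grp f hf).dlog x := by
  rw [elp]
  have h1 : oneByOne (uMap d.π G x) = mapGL (d.red G) 1 (oneByOne x) :=
    (mapGL_oneByOne _ x).symm
  rw [h1, lam_eq, dlog_oneByOne]

end Lam

section Map

end Map

end ResDat

end Pool.Agent.H71.KP

end
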