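import Pool.Agent.H13.TFQ.H71.FQ.Fun_1
import Pool.Agent.H13.TFQ.H71.FQ.StC
import Pool.Agent.H13.TFQ.M02
import Pool.Agent.H13.TFQ.M30
import Pool.Agent.H13.TFQ.M32
import Pool.Agent.H13.TFQ.M36
import Pool.Agent.H13.TFQ.M39
import Pool.Agent.H13.TFQ.M40
import Pool.Agent.H13.TFQ.M43
import Pool.Agent.H13.TFQ.M45

/-! The parts of this file: H71.KP.MainP, H71.KP.ResK_5, H71.DO.Bridge_2, H71.FQ.MorD_1, H71.FQ.StE. -/

section

/-!
# The kernel of the assembly map is torsion for domains of characteristic `p`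
-/

set_option autoImplicit false
set_option linter.unusedSectionVars false
set_option linter.unusedSimpArgs false

open Matrix HahnSeries Filter
open scoped Classical

universe u v w t

namespace Pool.Agent.H71.KP

open Pool.Agent.H71.WH (CycSub conjHom)

variable {p : ℕ} [hp : Fact p.Prime] {R : Type u} [CommRing R]

theorem charP_ga [CharP R p] (H : Type v) [Group H] : CharP (MonoidAlgebra R H) p := by
  have hinj : Function.Injective (MonoidAlgebra.singleOneRingHom : R →+* MonoidAlgebra R H) := by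
    intro a b h
    have h1 := congrArg (fun z : MonoidAlgebra R H => z.coeff 1) h
    simpa using h1
  exact charP_of_injective_ringHom hinj p

theorem pow_mem_range [CharP R p] {H : Type v} [Group H] (hc : ∀ a b : H, a * b = b * a)
    (S : Subgroup H) (a : ℕ) (hS : ∀ h : H, h ^ p ^ a ∈ S) (x : MonoidAlgebra R H) :
    x ^ p ^ a ∈ (MonoidAlgebra.mapDomainRingHom R S.subtype).range := by
  have := charP_ga (p := p) (R := R) H
  have hcomm : ∀ x y : MonoidAlgebra R H, Commute x y := by
    intro x y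
    induction x using MonoidAlgebra.induction_linear with
    | zero => exact Commute.zero_left _
    | add x x' hx hx' => exact hx.add_left hx'
    | single g b =>
      induction y using MonoidAlgebra.induction_linear with
      | zero => exact Commute.zero_right _
      | add y y' hy hy' => exact hy.add_right hy'
      | single h c =>
        rw [Commute, SemiconjBy, MonoidAlgebra.single_mul_single, MonoidAlgebra.single_mul_single,
          hc, mul_comm b c]
  induction x using MonoidAlgebra.induction_linear with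
  | zero =>
    rw [zero_pow (pow_ne_zero _ hp.out.ne_zero)]
    exact Subring.zero_mem _
  | add x y hx hy =>
    rw [add_pow_char_pow_of_commute p a (hcomm x y)]
    exact Subring.add_mem _ hx hy
  | single h r =>
    rw [MonoidAlgebra.single_pow]
    refine ⟨MonoidAlgebra.single ⟨h ^ p ^ a, hS h⟩ (r ^ p ^ a), ?_⟩
    change MonoidAlgebra.mapDomain S.subtype _ = _
    rw [MonoidAlgebra.mapDomain_single]
    rfl

theorem mapDomainRingHom_injective {H : Type v} {H' : Type w} [Group H] [Group H'] (ψ : H →* H')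
    (hψ : Function.Injective ψ) : Function.Injective (MonoidAlgebra.mapDomainRingHom R ψ) :=
  MonoidAlgebra.mapDomain_injective hψ

theorem unit_pow_mem [CharP R p] {H : Type v} [Group H] (hc : ∀ a b : H, a * b = b * a)
    (S : Subgroup H) (a : ℕ) (hS : ∀ h : H, h ^ p ^ a ∈ S) (x : (MonoidAlgebra R H)ˣ) :
    ∃ y : (MonoidAlgebra R S)ˣ, unitsMap S.subtype y = x ^ p ^ a := by
  refine exists_unit_lift _ (mapDomainRingHom_injective S.subtype S.subtype_injective) _ ?_ ?_
  · rw [Units.val_pow_eq_pow_val]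
    exact pow_mem_range hc S a hS _
  · rw [← inv_pow, Units.val_pow_eq_pow_val]
    exact pow_mem_range hc S a hS _

/-- the subgroup of order prime to `p` -/
theorem exists_coprime_part (H : Type v) [Group H] [Finite H] [IsCyclic H] :
    ∃ (S : Subgroup H) (a : ℕ), (∀ h : H, h ^ p ^ a ∈ S) ∧ ¬ p ∣ Nat.card S := by
  obtain ⟨g, hg⟩ := IsCyclic.exists_generator (α := H)
  obtain ⟨a, m, hm, hcard⟩ := Nat.exists_eq_pow_mul_and_not_dvd (Nat.card_pos (α := H)).ne' p
    hp.out.ne_one
  refine ⟨Subgroup.zpowers (g ^ p ^ a), a, ?_, ?_⟩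
  · intro h
    obtain ⟨k, rfl⟩ := Subgroup.mem_zpowers_iff.1 (hg h)
    refine Subgroup.mem_zpowers_iff.2 ⟨k, ?_⟩
    rw [← _root_.zpow_natCast, ← _root_.zpow_natCast, ← _root_.zpow_mul, ← _root_.zpow_mul,
      mul_comm]
  · rw [Nat.card_zpowers, orderOf_pow, orderOf_eq_card_of_forall_mem_zpowers hg, hcard,
      Nat.gcd_eq_right (Dvd.intro _ rfl), Nat.mul_div_cancel_left _ (pow_pos hp.out.pos _)]
    exact hm

variable [IsDomain R] [CharP R p] [Algebra.FiniteType ℤ R] {G : Type v} [Group G]

/-- the indicator function of the conjugacy class of `c` -/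
noncomputable def ResDat.cfd {k : Type u} [CommRing k] (d : ResDat p k) (c h : G) : d.B :=
  if IsConj c h then 1 else 0

omit [IsDomain R] [CharP R p] [Algebra.FiniteType ℤ R] in
theorem ResDat.cfd_comm {k : Type u} [CommRing k] (d : ResDat p k) (c x y : G) :
    d.cfd c (x * y) = d.cfd c (y * x) := by
  have h : IsConj (x * y) (y * x) := isConj_iff.2 ⟨x⁻¹, by group⟩
  unfold ResDat.cfd
  by_cases h1 : IsConj c (x * y)
  · rw [if_pos h1, if_pos (h1.trans h)]
  · rw [if_neg h1, if_neg (fun h2 => h1 (h2.trans h.symm))]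

end Pool.Agent.H71.KP

end

section

/-!
# The residue functionals on `Wh` in positive characteristic
-/

set_option autoImplicit false
set_option linter.unusedSectionVars false
set_option linter.unusedSimpArgs false

open Matrix

universe u v w t

namespace Pool.Agent.H71.KP

open Pool.Agent.H71.WH (InvMat K1 K1.mk K1.unit K1Rel genK1 addOne oneByOne CycSub conjHom K1.mk_mul K1.unit_mul)

namespace ResDat

variable {p : ℕ} [hp : Fact p.Prime] {k : Type u} [CommRing k] (d : ResDat p k)

section Grp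

end Grp

section Lam

variable {G : Type v} [Group G] (f : G → d.B) (hf : ∀ x y, f (x * y) = f (y * x))

theorem lam_mul {n : ℕ} (u w : (Matrix (Fin n) (Fin n) (MonoidAlgebra k G))ˣ) :
    d.lam f hf (u * w) = d.lam f hf u + d.lam f hf w := by
  obtain ⟨u, rfl⟩ := d.exists_lift u
  obtain ⟨w, rfl⟩ := d.exists_lift w
  rw [← map_mul, lam_eq, lam_eq, lam_eq, DT.dlog_mul]

theorem lam_addOne {n : ℕ} (u : (Matrix (Fin n) (Fin n) (MonoidAlgebra k G))ˣ) :
    d.lam f hf (addOne u) = d.lam f hf u := by
  obtain ⟨u, rfl⟩ := d.exists_lift u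
  rw [← mapGL_addOne, lam_eq, lam_eq, dlog_addOne]

theorem elp_trivial (x : (MonoidAlgebra k G)ˣ) (hx : x ∈ trivialUnits k G) :
    d.elp f hf x = 0 := by
  obtain ⟨g, e, he, hx⟩ := hx
  have h1 : ∃ e' : d.A, d.π e' = e ∧ e' * e' = 1 ∧ d.θ e' = 0 := by
    have h0 : d.θ 1 = 0 := by
      rw [← map_one d.ι, d.θι]
    rcases he with rfl | rfl
    · exact ⟨1, map_one _, one_mul _, h0⟩
    · exact ⟨-1, by rw [map_neg, map_one], by ring, by rw [map_neg, h0, neg_zero]⟩
  obtain ⟨e', h2, h3, h4⟩ := h1
  let y : (MonoidAlgebra d.A G)ˣ := ⟨MonoidAlgebra.single g e', MonoidAlgebra.single g⁻¹ e',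
    by rw [MonoidAlgebra.single_mul_single, mul_inv_cancel, h3]; rfl,
    by rw [MonoidAlgebra.single_mul_single, inv_mul_cancel, h3]; rfl⟩
  have h5 : uMap d.π G y = x := by
    apply Units.ext
    rw [hx]
    change MonoidAlgebra.mapRingHom G d.π (MonoidAlgebra.single g e') = _
    rw [MonoidAlgebra.mapRingHom_single, h2]
  rw [← h5, elp_eq, DT.dlog]
  have h6 : (d.grp f hf).D (y : MonoidAlgebra d.A G) = 0 := by
    change d.gD G (MonoidAlgebra.single g e') = 0
    rw [gD_single, h4, MonoidAlgebra.single_zero]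
  rw [h6, mul_zero, map_zero]

/-- the functional on the free abelian group -/
noncomputable def lamFree : FreeAbelianGroup (InvMat (MonoidAlgebra k G)) →+ d.B :=
  FreeAbelianGroup.lift fun a => d.lam f hf a.mat

theorem lamFree_le : K1Rel (MonoidAlgebra k G) ≤ (d.lamFree f hf).ker := by
  rw [K1Rel, AddSubgroup.closure_le]
  rintro z (⟨n, x, y, rfl⟩ | ⟨n, x, rfl⟩)
  · change d.lamFree f hf (genK1 (x * y) - (genK1 x + genK1 y)) = 0
    rw [lamFree, map_sub, map_add, genK1, genK1, genK1, FreeAbelianGroup.lift_apply_of,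
      FreeAbelianGroup.lift_apply_of, FreeAbelianGroup.lift_apply_of]
    exact sub_eq_zero.2 (d.lam_mul f hf x y)
  · change d.lamFree f hf (genK1 (addOne x) - genK1 x) = 0
    rw [lamFree, map_sub, genK1, genK1, FreeAbelianGroup.lift_apply_of,
      FreeAbelianGroup.lift_apply_of]
    exact sub_eq_zero.2 (d.lam_addOne f hf x)

/-- the functional on `K₁` -/
noncomputable def lamK1 : K1 (MonoidAlgebra k G) →+ d.B :=
  QuotientAddGroup.lift (K1Rel _) (d.lamFree f hf) (d.lamFree_le f hf)

theorem lamK1_unit (x : (MonoidAlgebra k G)ˣ) : d.lamK1 f hf (K1.unit x) = d.elp f hf x :=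
  FreeAbelianGroup.lift_apply_of _ _

theorem lamK1_le : trivialK1 k G ≤ (d.lamK1 f hf).ker := by
  rw [trivialK1, AddSubgroup.closure_le]
  rintro z ⟨x, hx, rfl⟩
  change d.lamK1 f hf (K1.unit x) = 0
  rw [lamK1_unit, elp_trivial d f hf x hx]

/-- the functional on `Wh` -/
noncomputable def lamWh : Wh k G →+ d.B :=
  QuotientAddGroup.lift (trivialK1 k G) (d.lamK1 f hf) (d.lamK1_le f hf)

theorem lamWh_unit (x : (MonoidAlgebra k G)ˣ) : d.lamWh f hf (Wh.unit x) = d.elp f hf x :=
  d.lamK1_unit f hf x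

end Lam

section Map

end Map

end ResDat

end Pool.Agent.H71.KP

end

section

/-!
# From units of finite cyclic subgroups to `K₁` of finite subgroups
-/

set_option autoImplicit false
set_option linter.unusedSectionVars false

open Matrix

universe u v w

namespace Pool.Agent.H71.DO

open Pool.Agent.H95.WH (K1 K1.mk K1.unit K1.map K1.map_unit K1.map_map K1_map_conj FamSub conjHom K1.lift K1.lift_mk FinSub K1.hom_ext K1.unit_mul)
open Pool.Agent.H71.WH (CycSub Sat Sat_of_smul mem_Sat)

section K1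

variable (A : Type u) [Ring A]

/-- the comparison of the two models of `K₁` -/
noncomputable def psi : K1 A →+ Pool.Agent.H71.WH.K1 A :=
  K1.lift (fun _ U => Pool.Agent.H71.WH.K1.mk U) (fun _ U V => Pool.Agent.H71.WH.K1.mk_mul U V)
    (fun n U => by rw [stab_eq, KP.K1.mk_addOne])

theorem psi_unit (u : Aˣ) : psi A (K1.unit u) = Pool.Agent.H71.WH.K1.unit u := by
  rw [K1.unit, psi, K1.lift_mk]
  rfl

end K1

variable (R : Type u) [CommRing R] (G : Type v) [Group G]

theorem psi_le : WhRel R G ≤ (KP.trivialK1 R G).comap (psi (MonoidAlgebra R G)) := by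
  rw [WhRel, AddSubgroup.closure_le]
  rintro z (hz | ⟨g, rfl⟩)
  · rw [Set.mem_singleton_iff] at hz
    rw [hz]
    refine AddSubgroup.subset_closure ⟨-1, ⟨1, -1, Or.inr rfl, ?_⟩, (psi_unit _ _).symm⟩
    rw [Units.val_neg, Units.val_one, MonoidAlgebra.one_def, ← MonoidAlgebra.single_neg]
  · exact AddSubgroup.subset_closure ⟨grpUnit R G g, ⟨g, 1, Or.inl rfl, rfl⟩,
      (psi_unit _ _).symm⟩

/-- the comparison of the two models of `Wh` -/
noncomputable def psiW : Wh R G →+ KP.Wh R G :=
  QuotientAddGroup.map (WhRel R G) (KP.trivialK1 R G) (psi (MonoidAlgebra R G)) (psi_le R G)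

theorem psiW_unit (u : (MonoidAlgebra R G)ˣ) :
    psiW R G (Wh.mk R G (K1.unit u)) = KP.Wh.unit u := by
  change (QuotientAddGroup.mk (psi (MonoidAlgebra R G) (K1.unit u)) : KP.Wh R G) = _
  rw [psi_unit]
  rfl

/-- the class in the colimit of a unit -/
noncomputable def clF (F : FamSub G FinSub) (x : (MonoidAlgebra R F.1)ˣ) :
    ColimWh R G FinSub := cl R G FinSub F (Wh.mk R F.1 (K1.unit x))

theorem clF_mul (F : FamSub G FinSub) (x y : (MonoidAlgebra R F.1)ˣ) :
    clF R G F (x * y) = clF R G F x + clF R G F y := by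
  rw [clF, clF, clF, K1.unit_mul, map_add, map_add]

theorem clF_conj (F F' : FamSub G FinSub) (g : G) (h : ∀ a ∈ F.1, g * a * g⁻¹ ∈ F'.1)
    (x : (MonoidAlgebra R F.1)ˣ) :
    clF R G F' (KP.unitsMap (Pool.Agent.H71.WH.conjHom g F.1 F'.1 h) x) = clF R G F x := by
  rw [clF, clF, ← cl_conj R G FinSub F F' g h]
  congr 1
  rw [Wh.map_mk, ind, K1.map_unit]
  rfl

theorem assembly_clF (F : FamSub G FinSub) (x : (MonoidAlgebra R F.1)ˣ) :
    assembly R G FinSub (clF R G F x) =
      Wh.mk R G (K1.unit (KP.unitsMap F.1.subtype x)) := by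
  rw [clF, assembly_cl, Wh.map_mk, ind, K1.map_unit]
  rfl

/-- the class in the colimit of a unit -/
noncomputable def clU (C : CycSub G) (x : (MonoidAlgebra R C.1)ˣ) : ColimWh R G FinSub :=
  clF R G (toFin G C) x

theorem exists_theta : ∃ Θ : KP.ColimU R G →+ ColimWh R G FinSub,
    ∀ (C : CycSub G) (x : (MonoidAlgebra R C.1)ˣ), Θ (KP.cl C x) = clU R G C x := by
  refine KP.exists_lift (fun C x => clU R G C x) ?_ ?_
  · intro C x y
    exact clF_mul R G (toFin G C) x y
  · intro C C' g h x
    exact clF_conj R G (toFin G C) (toFin G C') g h x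

/-- the comparison map -/
noncomputable def theta : KP.ColimU R G →+ ColimWh R G FinSub := (exists_theta R G).choose

theorem theta_cl (C : CycSub G) (x : (MonoidAlgebra R C.1)ˣ) :
    theta R G (KP.cl C x) = clU R G C x := (exists_theta R G).choose_spec C x

theorem psiW_assembly (z : KP.ColimU R G) :
    psiW R G (assembly R G FinSub (theta R G z)) = KP.assembly R G z := by
  induction z using KP.colim_induction with
  | h0 => rw [map_zero, map_zero, map_zero, map_zero]
  | h1 C x =>
    rw [theta_cl, clU, assembly_clF, psiW_unit, KP.assembly_cl]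
    rfl
  | h2 a b ha hb => rw [map_add, map_add, map_add, ha, hb, map_add]

theorem colimWh_induction {𝓕 : Subgroup G → Prop} {P : ColimWh R G 𝓕 → Prop} (h0 : P 0)
    (h1 : ∀ (F : FamSub G 𝓕) (x : Wh R F.1), P (cl R G 𝓕 F x))
    (h2 : ∀ a b, P a → P b → P (a + b)) (z : ColimWh R G 𝓕) : P z := by
  classical
  obtain ⟨y, rfl⟩ : ∃ y, QuotientAddGroup.mk' (colimRel R G 𝓕) y = z :=
    QuotientAddGroup.mk_surjective z
  induction y using DirectSum.induction_on with
  | zero => rw [map_zero]; exact h0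
  | of F x =>
    have h := h1 F x
    change P (QuotientAddGroup.mk' (colimRel R G 𝓕) (inc R G 𝓕 F x)) at h
    rw [inc] at h
    convert! h
  | add x y hx hy => rw [map_add]; exact h2 _ _ hx hy

variable {R} in
theorem sat_theta (hA : HArt.{u, v} R) (hU : HUnit.{u, v} R) (z : ColimWh R G FinSub) :
    z ∈ Sat (theta R G).range := by
  induction z using colimWh_induction with
  | h0 => exact AddSubgroup.zero_mem _
  | h2 a b ha hb => exact AddSubgroup.add_mem _ ha hb
  | h1 F x =>
    obtain ⟨x, rfl⟩ := Wh.mk_surjective R x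
    have hF : Finite F.1 := F.2
    obtain ⟨m, r, D, y, hm, hD, hx⟩ := hA F.1 x
    have hm' : ((m : ℕ) : ℤ) ≠ 0 := by exact_mod_cast hm.ne'
    refine Sat_of_smul hm' ?_
    rw [natCast_zsmul, ← map_nsmul, ← map_nsmul, hx, map_sum, map_sum]
    refine AddSubgroup.sum_mem _ fun i _ => ?_
    have hDi := hD i
    obtain ⟨m', u, hm1, hu⟩ := hU (D i) (y i)
    have hm1' : ((m' : ℕ) : ℤ) ≠ 0 := by exact_mod_cast hm1.ne'
    refine Sat_of_smul hm1' ?_
    rw [natCast_zsmul, ← map_nsmul, ← map_nsmul, ← map_nsmul, hu]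
    apply mem_Sat
    have hinj : Function.Injective (F.1.subtype.comp (D i).subtype) :=
      F.1.subtype_injective.comp (D i).subtype_injective
    have hcyc : IsCyclic ((D i).map F.1.subtype) :=
      isCyclic_of_surjective ((D i).equivMapOfInjective F.1.subtype F.1.subtype_injective)
        ((D i).equivMapOfInjective F.1.subtype F.1.subtype_injective).surjective
    have hfin : Finite ((D i).map F.1.subtype) :=
      Finite.of_equiv _ ((D i).equivMapOfInjective F.1.subtype F.1.subtype_injective).toEquiv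
    let C : CycSub G := ⟨(D i).map F.1.subtype, hfin, hcyc⟩
    let e : D i →* C.1 :=
      ((D i).equivMapOfInjective F.1.subtype F.1.subtype_injective).toMonoidHom
    refine ⟨KP.cl C (KP.unitsMap e u), ?_⟩
    have h1 : ∀ a ∈ (toFin G C).1, (1 : G) * a * 1⁻¹ ∈ F.1 := by
      intro a ha
      obtain ⟨b, _, rfl⟩ := ha
      rw [one_mul, inv_one, mul_one]
      exact b.2
    rw [theta_cl]
    refine (clF_conj R G (toFin G C) F 1 h1 (KP.unitsMap e u)).symm.trans ?_
    have h2 : KP.unitsMap (Pool.Agent.H71.WH.conjHom 1 (toFin G C).1 F.1 h1) (KP.unitsMap e u) =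
        KP.unitsMap (D i).subtype u := by
      refine (KP.unitsMap_comp e (Pool.Agent.H71.WH.conjHom 1 (toFin G C).1 F.1 h1) u).trans ?_
      congr 2
      apply MonoidHom.ext
      intro a
      apply Subtype.ext
      change (1 : G) * ((a : F.1) : G) * 1⁻¹ = ((a : F.1) : G)
      rw [one_mul, inv_one, mul_one]
    rw [h2, clF, ind, K1.map_unit]
    rfl

end Pool.Agent.H71.DO

end

section

/-!
# Project FQ, Morita invariance, part D: the theorems

`ratInj_of_retract`, `ratInj_matrix`, `ratInj_finExt`.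
-/

set_option autoImplicit false

open Matrix
open scoped TensorProduct

universe u v w

namespace Pool.Agent.H71.FQ

open Pool.Agent.H71.FJ (MatEquiv IdemMat K0 K0.mk K0.lift K0.lift_mk K0.hom_ext K0.map K0.flat K0.flat_mul K0.push K0.push_mk K0.cls K0.cls_congr K0.cls_fromBlocks K0.flat_idem K0.fromBlocks_idem K0.matEquiv_submatrix K0.mk_eq_cls K0.push_congr K0.map_push K0.push_map)
open Pool.Agent.H95.WH (FamSub conjHom FinSub)

section

variable {R : Type u} [Ring R] {R' : Type w} [Ring R'] {G : Type v} [Group G]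

/-- **Retracts up to multiplicity.** -/
theorem ratInj_of_retract {n : ℕ} (m : ℕ) (hm : 0 < m) (ι : R →+* R')
    (ρ : R' →+* Matrix (Fin m) (Fin m) R) (h : ∀ a, ρ (ι a) = Matrix.scalar (Fin m) a)
    (h' : RatInj (assemblyN R' n G)) : RatInj (assemblyN R n G) :=
  ratInj_of_one n (NatK0.ofHom G ι) (NatK0.ofMat ρ G) (c := m) hm.ne'
    (fun F x => by
      rw [NatK0.ofMat_app, NatK0.ofHom_app, K0.push_map, thM_retract ι ρ h, push_scalar])
    (KQ.map (MonoidAlgebra.mapRingHom G ι)) (NatK0.ofHom_asm ι) h'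

/-- **Matrix rings.** -/
theorem ratInj_matrix {n : ℕ} (r : ℕ) (hr : 0 < r) (h : RatInj (assemblyN R n G)) :
    RatInj (assemblyN (Matrix (Fin r) (Fin r) R) n G) :=
  ratInj_of_one n (NatK0.ofMat (RingHom.id (Matrix (Fin r) (Fin r) R)) G)
    (NatK0.ofHom G (Matrix.scalar (Fin r))) (c := r) hr.ne'
    (fun F x => by
      rw [NatK0.ofMat_app, NatK0.ofHom_app, K0.map_push,
        K0.push_congr _ (Matrix.scalar (Fin r)) (flipM R r F.1) (flipM R r F.1)
          (flipM_mul r F.1) (flipM_mul r F.1) (flipM_comm r F.1), push_scalar])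
    (KQ.push (thM (RingHom.id (Matrix (Fin r) (Fin r) R)) G)) (NatK0.ofMat_asm _) h

end

section

end

/-- **Finite extensions of the ground field.** -/
theorem ratInj_finExt {n : ℕ} {G : Type w} [Group G] (k : Type u) [Field k] (L : Type v) [Field L]
    [Algebra k L] [Module.Finite k L] (A : Type u) [Ring A] [Algebra k A]
    (h : RatInj (assemblyN (L ⊗[k] A) n G)) : RatInj (assemblyN A n G) :=
  ratInj_of_retract (Module.finrank k L) Module.finrank_pos
    (Algebra.TensorProduct.includeRight : A →ₐ[k] L ⊗[k] A).toRingHom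
    (extMat k L A (Module.finBasis k L)).toRingHom
    (fun a => extMat_tmul k L A (Module.finBasis k L) a) h

end Pool.Agent.H71.FQ

end

section

/-!
# Rational injectivity: the classes of rings and groups
-/

set_option autoImplicit false

open Matrix

universe u v w

namespace Pool.Agent.H71.FQS

open Pool.Agent.H71.FJ (IdemMat K0 K0.mk K0.lift K0.hom_ext NilKer)
open Pool.Agent.H95.WH (FamSub FinSub)

section

variable {R : Type u} [Ring R] {G : Type v} [Group G] {n : ℕ}

theorem k0_subsingleton [Subsingleton R] (x : K0 R) : x = 0 := by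
  have h1 : (AddMonoidHom.id (K0 R)) = 0 := by
    apply K0.hom_ext
    intro a
    change K0.mk a = 0
    have h2 : K0.mk a = K0.mk (a.sum a) :=
      Pool.Agent.H71.FJ.K0.mk_eq_of_equiv ⟨0, 0, Subsingleton.elim _ _, Subsingleton.elim _ _⟩
    rw [Pool.Agent.H71.FJ.K0.mk_sum] at h2
    exact left_eq_add.1 h2
  exact DFunLike.congr_fun h1 x

theorem hnK0_subsingleton [Subsingleton R] (x : FQ.HnK0 R G n) : x = 0 := by
  induction x using FQ.hnk0_induction with
  | h0 => rfl
  | h1 F x z =>
    have : Subsingleton (MonoidAlgebra R F.1) := inferInstance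
    have h1 : x = 0 := k0_subsingleton x
    rw [h1, ← FQ.syH_apply, map_zero]
  | h2 a b ha hb => rw [ha, hb, add_zero]
  | h3 a ha => rw [ha, neg_zero]

theorem ker_pow_of_nilKer {S : Type v} [Ring S] {φ : R →+* S} (h : NilKer φ) :
    ∃ N : ℕ, RingHom.ker φ ^ N = ⊥ := by
  obtain ⟨N, J, h0, hN, hJ⟩ := h
  have key : ∀ j : ℕ, ∀ x ∈ RingHom.ker φ ^ j, x ∈ J j := by
    intro j
    induction j with
    | zero => exact fun x _ => h0 x
    | succ j ih =>
      intro x hx
      rw [Ideal.IsTwoSided.pow_succ] at hx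
      refine Submodule.smul_induction_on hx (fun r hr y hy => hJ j r y hr (ih y hy))
        fun x y hx hy => (J (j + 1)).add_mem hx hy
  refine ⟨N, ?_⟩
  rw [Submodule.eq_bot_iff]
  exact fun x hx => hN x (key N x hx)

theorem nilFin_of_finite [Finite R] : NilFin R := by
  obtain ⟨m, F, hF, d, p, φ, hfin, hd, hp, hc, hs, hn⟩ := FQ.exists_wedderburn_char R
  exact ⟨m, fun i => Matrix (Fin (d i)) (Fin (d i)) (F i), inferInstance, φ, hs,
    ker_pow_of_nilKer hn, fun i => ⟨p i, F i, hF i, inferInstance, hp i, hc i, inferInstance⟩⟩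

end

end Pool.Agent.H71.FQS

end
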