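import Mathlib

/-! The parts of this file: H71.KP.Dvr, H71.KP.Expand, H71.KP.Place, H71.KP.TorsP. -/

section

/-!
# Discrete valuations of function fields in one variable

PROOF. `x` is not algebraic over `E` (which is algebraically closed), so `x ≠ 0`. Let `B` be the
integral closure of `E[y]` in `K` and `B'` the integral closure of `E[1/y]` in `K`. Both are
Dedekind domains with fraction field `K` (`integralClosure.isDedekindDomain`: `K` is finite separable
over `E(y) = Frac E[y]`, and `E[y]` is a polynomial ring over a field). Suppose that `x` is a unit of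
both. Then the coefficients of the minimal polynomial of `x` over `E(y)` are in
`E[y] ∩ E[1/y] = E` (`E[y]` and `E[1/y]` are integrally closed), so `x` is algebraic over `E`,
contradiction. So for one of them, say `B`, `x` or `x⁻¹` is not in `B`, or `x` is in `B` but not a
unit. Hence there is a maximal ideal `P` of `B` with `v_P(x) ≠ 0` (an element of `K` with
`v_P(x) ≥ 0` for all `P` is in `B`; and a nonunit is in some maximal ideal). Let `O` be the valuation
ring of `v_P` (the localisation of `B` at `P`), a discrete valuation ring. Its residue field is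
`B / P`, which is finite over `E[y] / (P ∩ E[y])` (`B` is a finite `E[y]`-module, `K` being
separable), and this is finite over `E` (`P ∩ E[y]` is a nonzero prime ideal), hence equal to `E`.

(The two cases are symmetric under `y ↦ y⁻¹`: it is convenient to prove a lemma for `B` alone and to
apply it to `y` and `y⁻¹`.)
-/

set_option autoImplicit false

universe u v

namespace Pool.Agent.H71.KP

open Polynomial IntermediateField

private theorem Dvr_mem_range {E : Type u} [Field E] [IsAlgClosed E] {K : Type v} [Field K]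
    [Algebra E K] {b : K} (hb : IsAlgebraic E b) : b ∈ (algebraMap E K).range := by
  have h1 := IsAlgClosed.degree_eq_one_of_irreducible E (minpoly.irreducible hb.isIntegral)
  exact minpoly.mem_range_of_degree_eq_one E b h1

/-- The field is finite over the field generated by any transcendental element. -/
private theorem Dvr_fin {F : Type u} [Field F] {K : Type v} [Field K] [Algebra F K]
    (x : K) (hx : Transcendental F x) [FiniteDimensional F⟮x⟯ K] (y : K)
    (hy : Transcendental F y) : FiniteDimensional F⟮y⟯ K := by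
  have halg : Algebra.IsAlgebraic F⟮x⟯ K := inferInstance
  have hxy : IsAlgebraic F⟮y⟯ x :=
    isAlgebraic_adjoin_iff.mpr (.adjoin_singleton hx hy
      (isAlgebraic_adjoin_iff.mp (Algebra.IsAlgebraic.isAlgebraic y)))
  let Fyx := restrictScalars F F⟮y⟯⟮x⟯
  let Fxy := restrictScalars F F⟮x⟯⟮y⟯
  let : Algebra F⟮y⟯ Fyx := F⟮y⟯⟮x⟯.algebra
  let : Module F⟮y⟯ Fyx := Algebra.toModule
  let : SMul F⟮y⟯ Fyx := Algebra.toSMul
  let : Algebra F⟮x⟯ Fxy := F⟮x⟯⟮y⟯.algebra
  let : Module F⟮x⟯ Fxy := Algebra.toModule
  let : SMul F⟮x⟯ Fxy := Algebra.toSMul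
  have : FiniteDimensional F⟮y⟯ Fyx :=
    adjoin.finiteDimensional (isAlgebraic_iff_isIntegral.mp hxy)
  have : FiniteDimensional Fyx K := by
    unfold Fyx
    rw [adjoin_simple_comm]
    have : IsScalarTower F⟮x⟯ Fxy K := isScalarTower_mid' F⟮x⟯⟮y⟯
    exact .right F⟮x⟯ Fxy K
  have : IsScalarTower F⟮y⟯ Fyx K := isScalarTower_mid' F⟮y⟯⟮x⟯
  exact .trans F⟮y⟯ Fyx K

/-- A polynomial relation can be normalised. -/
private theorem Dvr_descend {F : Type u} [Field F] {K : Type v} [Field K] [Algebra F K]
    {b : K} (hb : b ≠ 0) {ι : Type} [Fintype ι] (v : ι → K) : ∀ (n : ℕ) (φ : ι → F[X]),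
    ∑ i, (φ i).natDegree = n → (∃ i, φ i ≠ 0) → ∑ i, aeval b (φ i) * v i = 0 →
    ∃ ψ : ι → F[X], ∑ i, aeval b (ψ i) * v i = 0 ∧ ∃ i, (ψ i).coeff 0 ≠ 0 := by
  intro n
  induction n using Nat.strong_induction_on with
  | _ n ih =>
    intro φ hn hne hsum
    by_cases h0 : ∃ i, (φ i).coeff 0 ≠ 0
    · exact ⟨φ, hsum, h0⟩
    · push Not at h0
      have hX : ∀ i, φ i = (φ i).divX * X := by
        intro i
        have := divX_mul_X_add (φ i)
        rw [h0 i, C_0, add_zero] at this
        exact this.symm
      have hdeg : ∀ i, (φ i).divX.natDegree = (φ i).natDegree - 1 := fun i =>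
        natDegree_divX_eq_natDegree_tsub_one
      obtain ⟨i0, hi0⟩ := hne
      have hpos : 0 < (φ i0).natDegree := by
        by_contra hcon
        have h1 : (φ i0).natDegree = 0 := by omega
        rw [natDegree_eq_zero] at h1
        obtain ⟨c, hc⟩ := h1
        have h2 := h0 i0
        rw [← hc, coeff_C_zero] at h2
        rw [← hc, h2, C_0] at hi0
        exact hi0 rfl
      refine ih (∑ i, ((φ i).divX).natDegree) ?_ (fun i => (φ i).divX) rfl ⟨i0, ?_⟩ ?_
      · rw [← hn]
        refine Finset.sum_lt_sum (fun i _ => ?_) ⟨i0, Finset.mem_univ _, ?_⟩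
        · rw [hdeg]
          omega
        · rw [hdeg]
          omega
      · intro h
        apply hi0
        rw [hX i0, h, zero_mul]
      · have h1 : b * ∑ i, aeval b ((φ i).divX) * v i = 0 := by
          rw [Finset.mul_sum, ← hsum]
          refine Finset.sum_congr rfl fun i _ => ?_
          conv_rhs => rw [hX i]
          rw [map_mul, aeval_X]
          ring
        exact (mul_eq_zero.1 h1).resolve_left hb

open scoped algebraAdjoinAdjoin in
/-- Linearly dependent families satisfy a normalised polynomial relation. -/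
private theorem Dvr_rel {F : Type u} [Field F] {K : Type v} [Field K] [Algebra F K]
    {b : K} (hb : b ≠ 0) {ι : Type} [Fintype ι] (v : ι → K)
    (hv : ¬ LinearIndependent F⟮b⟯ v) :
    ∃ ψ : ι → F[X], ∑ i, aeval b (ψ i) * v i = 0 ∧ ∃ i, (ψ i).coeff 0 ≠ 0 := by
  have h1 : ¬ LinearIndependent (Algebra.adjoin F {b}) v := by
    intro h
    exact hv ((LinearIndependent.iff_fractionRing (Algebra.adjoin F {b}) F⟮b⟯).1 h)
  rw [Fintype.not_linearIndependent_iff] at h1
  obtain ⟨g, hg, i0, hi0⟩ := h1
  have h2 : ∀ i, ∃ φ : F[X], aeval b φ = (g i : K) := by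
    intro i
    have h3 : ∀ z : K, z ∈ Algebra.adjoin F {b} → ∃ φ : F[X], aeval b φ = z := by
      intro z hz
      rw [Algebra.adjoin_singleton_eq_range_aeval] at hz
      exact hz
    exact h3 _ (g i).2
  choose φ hφ using h2
  refine Dvr_descend hb v _ φ rfl ⟨i0, ?_⟩ ?_
  · intro h
    apply hi0
    have := hφ i0
    rw [h, map_zero] at this
    exact Subtype.ext this.symm
  · rw [← hg]
    refine Finset.sum_congr rfl fun i _ => ?_
    rw [hφ i]
    rfl

section place

variable {F : Type u} [Field F] {K : Type v} [Field K] [Algebra F K]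
  (V : ValuationSubring K) (hV : ∀ e : F, algebraMap F K e ∈ V)

private def Dvr_i : F →+* V := (algebraMap F K).codRestrict V.toSubring hV

private theorem Dvr_eval (b : V) (φ : F[X]) :
    ((eval₂ (Dvr_i V hV) b φ : V) : K) = aeval (b : K) φ := by
  have h := Polynomial.hom_eval₂ φ (Dvr_i V hV) V.subtype b
  rw [aeval_def]
  exact h

/-- reduction of the value of a polynomial at an element of the maximal ideal -/
private theorem Dvr_eval_sub {b : V} (hb : b ∈ IsLocalRing.maximalIdeal V) (φ : F[X]) :
    eval₂ (Dvr_i V hV) b φ - Dvr_i V hV (φ.coeff 0) ∈ IsLocalRing.maximalIdeal V := by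
  have h := congrArg (eval₂ (Dvr_i V hV) b) (divX_mul_X_add φ)
  rw [eval₂_add, eval₂_mul, eval₂_X, eval₂_C] at h
  rw [← h, add_sub_cancel_right]
  exact Ideal.mul_mem_left _ _ hb

include hV in
private theorem Dvr_trans [IsAlgClosed F] {b : V} (hb0 : b ≠ 0)
    (hb : b ∈ IsLocalRing.maximalIdeal V) : Transcendental F (b : K) := by
  intro halg
  obtain ⟨e, he⟩ := Dvr_mem_range halg
  have he0 : e ≠ 0 := by
    rintro rfl
    rw [map_zero] at he
    exact hb0 (Subtype.ext he.symm)
  rw [IsLocalRing.mem_maximalIdeal] at hb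
  apply hb
  have : b = Dvr_i V hV e := Subtype.ext he.symm
  rw [this]
  exact (isUnit_iff_ne_zero.2 he0).map (Dvr_i V hV)

include hV in
/-- No strictly ascending chain of principal ideals. -/
private theorem Dvr_chain [IsAlgClosed F]
    (hfin : ∀ b : K, Transcendental F b → FiniteDimensional F⟮b⟯ K) (f : ℕ → V)
    (hf : ∀ n, DvdNotUnit (f (n + 1)) (f n)) : False := by
  have hf0 : ∀ n, f (n + 1) ≠ 0 := fun n => (hf n).1
  have hm : ∀ n, f n ∈ IsLocalRing.maximalIdeal V := by
    intro n
    obtain ⟨-, u, hu, he⟩ := hf n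
    rw [he]
    exact Ideal.mul_mem_left _ _ hu
  have hdvd : ∀ n k, f (n + k) ∣ f n := by
    intro n k
    induction k with
    | zero => exact dvd_rfl
    | succ k ih =>
      obtain ⟨-, u, -, he⟩ := hf (n + k)
      exact (Dvd.intro u he.symm).trans ih
  have hb := Dvr_trans V hV (hf0 0) (hm 1)
  have hbK : ((f 1 : V) : K) ≠ 0 := fun h => hf0 0 (Subtype.ext h)
  have := hfin _ hb
  set N := Module.finrank F⟮((f 1 : V) : K)⟯ K with hN
  have hdep : ¬ LinearIndependent F⟮((f 1 : V) : K)⟯
      (fun i : Fin (N + 1) => ((f (1 + i) : V) : K)) := by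
    intro h
    have := h.fintype_card_le_finrank
    rw [Fintype.card_fin] at this
    omega
  obtain ⟨ψ, hψ, i0, hi0⟩ := Dvr_rel hbK _ hdep
  classical
  -- the last index with nonzero constant coefficient
  obtain ⟨j, hj, hmax⟩ := (Finset.univ.filter fun i => (ψ i).coeff 0 ≠ 0).exists_maximal
    ⟨i0, by simpa using hi0⟩
  rw [Finset.mem_filter] at hj
  have hmax' : ∀ i, j < i → (ψ i).coeff 0 = 0 := by
    intro i hi
    by_contra hcon
    have := hmax (y := i) (by simpa using hcon) hi.le
    exact absurd hi (not_lt.2 this)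
  -- the relation in `V`
  set E : Fin (N + 1) → V := fun i => eval₂ (Dvr_i V hV) (f 1) (ψ i) with hE
  have hrel : ∑ i, E i * f (1 + i) = 0 := by
    apply Subtype.ext
    have h1 : ((∑ i, E i * f (1 + i) : V) : K) = ∑ i, (E i : K) * (f (1 + i) : K) := by
      rw [← ValuationSubring.subtype_apply, map_sum]
      rfl
    rw [h1]
    have h2 : ∀ i, (E i : K) = aeval ((f 1 : V) : K) (ψ i) := fun i => Dvr_eval V hV (f 1) (ψ i)
    simp only [h2]
    exact hψ
  set I : Ideal V := Ideal.span {f (1 + j)} * IsLocalRing.maximalIdeal V with hI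
  have hterm : ∀ i, i ≠ j → E i * f (1 + i) ∈ I := by
    intro i hij
    rcases lt_or_gt_of_ne hij with h | h
    · -- a proper multiple
      have h3 : f (1 + j) ∣ f (1 + i + 1) := by
        obtain ⟨k, hk⟩ : ∃ k, (1 + (j : ℕ)) = (1 + i + 1) + k :=
          ⟨(j : ℕ) - i - 1, by have : (i : ℕ) < j := h; omega⟩
        rw [hk]
        exact hdvd _ _
      obtain ⟨w, hw⟩ := h3
      obtain ⟨-, u, hu, he⟩ := hf (1 + i)
      refine Ideal.mul_mem_left _ _ ?_
      rw [he, hw, mul_assoc]
      exact Ideal.mul_mem_mul (Ideal.mem_span_singleton_self _) (Ideal.mul_mem_left _ _ hu)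
    · have h4 : E i = f 1 * eval₂ (Dvr_i V hV) (f 1) (ψ i).divX := by
        have h5 := congrArg (eval₂ (Dvr_i V hV) (f 1)) (divX_mul_X_add (ψ i))
        rw [eval₂_add, eval₂_mul, eval₂_X, eval₂_C, hmax' i h, map_zero, add_zero] at h5
        rw [hE]
        simp only
        rw [← h5, mul_comm]
      obtain ⟨w, hw⟩ := hdvd 1 j
      rw [h4, mul_assoc, hw, mul_assoc]
      refine Ideal.mul_mem_mul (Ideal.mem_span_singleton_self _) ?_
      refine Ideal.mul_mem_left _ _ (Ideal.mul_mem_left _ _ (hm _))
  have hjmem : E j * f (1 + j) ∈ I := by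
    have h6 : E j * f (1 + j) = - ∑ i ∈ Finset.univ.erase j, E i * f (1 + i) := by
      rw [eq_neg_iff_add_eq_zero]
      exact (Finset.add_sum_erase Finset.univ (fun i : Fin (N + 1) => E i * f (1 + (i : ℕ)))
        (Finset.mem_univ j)).trans hrel
    rw [h6]
    refine neg_mem (sum_mem fun i hi => hterm i (Finset.ne_of_mem_erase hi))
  rw [hI, Ideal.mem_span_singleton_mul] at hjmem
  obtain ⟨z, hz, hz'⟩ := hjmem
  have hfj : f (1 + j) ≠ 0 := by
    rw [add_comm]
    exact hf0 j
  have hEj : E j = z := by
    rw [mul_comm] at hz'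
    exact (mul_right_cancel₀ hfj hz').symm
  have h7 := Dvr_eval_sub V hV (hm 1) (ψ j)
  have h8 : Dvr_i V hV ((ψ j).coeff 0) ∈ IsLocalRing.maximalIdeal V := by
    have := sub_mem (hEj ▸ hz : E j ∈ IsLocalRing.maximalIdeal V) h7
    rwa [sub_sub_cancel] at this
  rw [IsLocalRing.mem_maximalIdeal] at h8
  exact h8 ((isUnit_iff_ne_zero.2 hj.2).map (Dvr_i V hV))

/-- The residue field is the constant field. -/
private theorem Dvr_residue [IsAlgClosed F]
    (hfin : ∀ b : K, Transcendental F b → FiniteDimensional F⟮b⟯ K) {x : V} (hx0 : x ≠ 0)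
    (hx : x ∈ IsLocalRing.maximalIdeal V) :
    Function.Surjective ((IsLocalRing.residue V).comp (Dvr_i V hV)) := by
  let _ : Algebra F (IsLocalRing.ResidueField V) :=
    ((IsLocalRing.residue V).comp (Dvr_i V hV)).toAlgebra
  have hb := Dvr_trans V hV hx0 hx
  have hxK : (x : K) ≠ 0 := fun h => hx0 (Subtype.ext h)
  have := hfin _ hb
  have : Algebra.IsIntegral F (IsLocalRing.ResidueField V) := by
    refine ⟨fun y => ?_⟩
    obtain ⟨a, rfl⟩ := IsLocalRing.residue_surjective y
    set N := Module.finrank F⟮(x : K)⟯ K with hN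
    have hdep : ¬ LinearIndependent F⟮(x : K)⟯ (fun i : Fin (N + 1) => (a : K) ^ (i : ℕ)) := by
      intro h
      have := h.fintype_card_le_finrank
      rw [Fintype.card_fin] at this
      omega
    obtain ⟨ψ, hψ, i0, hi0⟩ := Dvr_rel hxK _ hdep
    have hrel : ∑ i : Fin (N + 1), eval₂ (Dvr_i V hV) x (ψ i) * a ^ (i : ℕ) = 0 := by
      apply Subtype.ext
      have h1 : ((∑ i : Fin (N + 1), eval₂ (Dvr_i V hV) x (ψ i) * a ^ (i : ℕ) : V) : K) =
          ∑ i : Fin (N + 1), ((eval₂ (Dvr_i V hV) x (ψ i) : V) : K) * (a : K) ^ (i : ℕ) := by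
        rw [← ValuationSubring.subtype_apply, map_sum]
        rfl
      rw [h1]
      simp only [Dvr_eval]
      exact hψ
    rw [← isAlgebraic_iff_isIntegral]
    refine ⟨∑ i : Fin (N + 1), C ((ψ i).coeff 0) * X ^ (i : ℕ), ?_, ?_⟩
    · intro h0
      have h2 := congrArg (fun p => coeff p (i0 : ℕ)) h0
      simp only [finsetSum_coeff, coeff_C_mul, coeff_X_pow, coeff_zero] at h2
      rw [Finset.sum_eq_single i0] at h2
      · simp only [if_true, mul_one] at h2
        exact hi0 h2
      · intro i _ hi
        rw [if_neg fun e => hi (Fin.ext e.symm), mul_zero]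
      · intro h
        exact absurd (Finset.mem_univ _) h
    · rw [map_sum]
      have h3 := congrArg (IsLocalRing.residue V) hrel
      rw [map_sum, map_zero] at h3
      rw [← h3]
      refine Finset.sum_congr rfl fun i _ => ?_
      rw [map_mul, map_mul, map_pow, map_pow, aeval_X, aeval_C]
      congr 1
      have h4 := Dvr_eval_sub V hV hx (ψ i)
      have h5 := (IsLocalRing.residue_eq_zero_iff _).2 h4
      rw [map_sub, sub_eq_zero] at h5
      exact h5.symm
  exact (IsAlgClosed.algebraMap_bijective_of_isIntegral (k := F)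
    (K := IsLocalRing.ResidueField V)).2

end place

/-- In a function field in one variable over an algebraically closed field every nonconstant
element has nonzero valuation at some place, and the residue field is the constant field. -/
theorem exists_dvr {E : Type u} [Field E] [IsAlgClosed E] {K : Type v} [Field K] [Algebra E K]
    (y : K) (hy : Transcendental E y)
    [FiniteDimensional (IntermediateField.adjoin E {y}) K]
    [Algebra.IsSeparable (IntermediateField.adjoin E {y}) K] (x : K)
    (hx : x ∉ (algebraMap E K).range) :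
    ∃ (O : ValuationSubring K) (_ : IsDiscreteValuationRing O) (i : E →+* O),
      Function.Surjective ((IsLocalRing.residue O).comp i) ∧
      ∃ a : O, a ∈ IsLocalRing.maximalIdeal O ∧ ((a : K) = x ∨ (a : K) = x⁻¹) := by
  have hfin : ∀ b : K, Transcendental E b → FiniteDimensional E⟮b⟯ K := fun b hb =>
    Dvr_fin y hy b hb
  have hx0 : x ≠ 0 := by
    rintro rfl
    exact hx ⟨0, map_zero _⟩
  have hxi : x⁻¹ ∉ (algebraMap E K).range := by
    rintro ⟨e, he⟩
    exact hx ⟨e⁻¹, by rw [map_inv₀, he, inv_inv]⟩
  have : IsIntegrallyClosedIn (algebraMap E K).range K := by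
    rw [Subring.isIntegrallyClosedIn_iff]
    intro z hz
    apply Dvr_mem_range
    rw [isAlgebraic_iff_isIntegral]
    let _ : Algebra E (algebraMap E K).range := (algebraMap E K).rangeRestrict.toAlgebra
    have : IsScalarTower E (algebraMap E K).range K := IsScalarTower.of_algebraMap_eq fun _ => rfl
    have : Algebra.IsIntegral E (algebraMap E K).range :=
      Algebra.isIntegral_of_surjective (algebraMap E K).rangeRestrict_surjective
    exact isIntegral_trans z hz
  obtain ⟨V, hV, hxV⟩ := Subring.exists_le_valuationSubring_of_isIntegrallyClosedIn hxi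
  have hV' : ∀ e : E, algebraMap E K e ∈ V := fun e => hV ⟨e, rfl⟩
  have hxV' : x ∈ V := (V.mem_or_inv_mem x).resolve_right hxV
  have hmax : (⟨x, hxV'⟩ : V) ∈ IsLocalRing.maximalIdeal V := by
    rw [IsLocalRing.mem_maximalIdeal]
    intro hu
    obtain ⟨w, hw⟩ := hu.exists_right_inv
    have h1 : x * (w : K) = 1 := congrArg Subtype.val hw
    have h2 : (w : K) = x⁻¹ := eq_inv_of_mul_eq_one_right h1
    rw [← h2] at hxV
    exact hxV w.2
  have hne : (⟨x, hxV'⟩ : V) ≠ 0 := fun h => hx0 (congrArg Subtype.val h)
  have hwf : WfDvdMonoid V := by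
    refine ⟨?_⟩
    rw [wellFounded_iff_isEmpty_descending_chain]
    exact ⟨fun g => Dvr_chain V hV' hfin g.1 g.2⟩
  have hpid : IsPrincipalIdealRing V := ((IsBezout.TFAE (R := V)).out 3 1).1 hwf
  refine ⟨V, ?_, Dvr_i V hV', Dvr_residue V hV' hfin hne hmax, ⟨x, hxV'⟩, hmax, Or.inl rfl⟩
  refine { not_a_field' := ?_ }
  intro h
  rw [h] at hmax
  exact hne hmax

end Pool.Agent.H71.KP

end

section

/-!
# Power series expansions in a discrete valuation ring with a field of representatives

PROOF. Let `s` be a uniformizer of `O`. Every `a : O` has a unique expansion: `a = i c₀ + s a₁`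
with `c₀` in `E` (`hi`), and so on; put `c_n(a)` for the coefficients, so
`a ≡ ∑_{n < N} i (c_n(a)) s^n` modulo `s^N` for all `N`, and the `c_n(a)` are uniquely determined by
these congruences (the residue map is injective on `i E`, a field; `s` is a nonzero divisor).
Therefore `a ↦ ∑ c_n(a) X^n` is a ring homomorphism `O → E⟦X⟧` (compare expansions of sums and
products modulo `s^N`; the polynomial ring map `E[X] → O`, `X ↦ s`, is useful:
`a ≡ P(s)` and `b ≡ Q(s)` modulo `s^N` imply `a b ≡ (P Q)(s)`, and `P(s) ≡ 0` modulo `s^N` if and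
only if `X^N ∣ P`). It is injective since the intersection of the `s^N O` is zero, so it extends to
`K → LaurentSeries E`. If `a ∈ 𝔪`, `a ≠ 0`, then `c₀(a) = 0`, and the order is positive.
-/

set_option autoImplicit false

universe u v w

namespace Pool.Agent.H71.KP

section Expand_aux

variable {E : Type u} [Field E] {O : Type v} [CommRing O] [IsDomain O]
    [IsDiscreteValuationRing O]

theorem Expand_surj (i : E →+* O) (hi : Function.Surjective ((IsLocalRing.residue O).comp i))
    (s : O) (hs : Irreducible s) (a : O) (N : ℕ) :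
    ∃ P : Polynomial E, s ^ N ∣ a - Polynomial.eval₂ i s P := by
  induction N with
  | zero => exact ⟨0, by simp⟩
  | succ N ih =>
    obtain ⟨P, b, hb⟩ := ih
    obtain ⟨e, he⟩ := hi (IsLocalRing.residue O b)
    rw [RingHom.comp_apply] at he
    have h1 : b - i e ∈ IsLocalRing.maximalIdeal O := by
      rw [← IsLocalRing.residue_eq_zero_iff, map_sub, he, sub_self]
    rw [hs.maximalIdeal_eq, Ideal.mem_span_singleton] at h1
    obtain ⟨b', hb'⟩ := h1
    refine ⟨P + Polynomial.C e * Polynomial.X ^ N, b', ?_⟩
    rw [Polynomial.eval₂_add, Polynomial.eval₂_mul, Polynomial.eval₂_C, Polynomial.eval₂_X_pow]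
    have e1 : b = i e + s * b' := by rw [← hb']; ring
    calc a - (Polynomial.eval₂ i s P + i e * s ^ N)
        = (a - Polynomial.eval₂ i s P) - i e * s ^ N := by ring
      _ = s ^ N * b - i e * s ^ N := by rw [hb]
      _ = s ^ N * (i e + s * b') - i e * s ^ N := by rw [← e1]
      _ = s ^ (N + 1) * b' := by ring

omit [IsDiscreteValuationRing O] in
theorem Expand_inj (i : E →+* O) (s : O) (hs : Irreducible s) (N : ℕ) (P : Polynomial E)
    (h : s ^ N ∣ Polynomial.eval₂ i s P) : Polynomial.X ^ N ∣ P := by
  induction N with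
  | zero => simp
  | succ N ih =>
    obtain ⟨R, hR⟩ := ih (dvd_trans (pow_dvd_pow s (Nat.le_succ N)) h)
    have h1 : s ∣ Polynomial.eval₂ i s R := by
      rw [hR, Polynomial.eval₂_mul, Polynomial.eval₂_X_pow, pow_succ] at h
      exact (mul_dvd_mul_iff_left (pow_ne_zero N hs.ne_zero)).1 h
    have h2 : Polynomial.X ∣ R := by
      rw [Polynomial.X_dvd_iff]
      by_contra hne
      have h3 : s ∣ i (R.coeff 0) := by
        have h4 : R = Polynomial.X * R.divX + Polynomial.C (R.coeff 0) :=
          (Polynomial.X_mul_divX_add R).symm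
        have h5 : Polynomial.eval₂ i s R = s * Polynomial.eval₂ i s R.divX + i (R.coeff 0) := by
          conv_lhs => rw [h4]
          rw [Polynomial.eval₂_add, Polynomial.eval₂_mul, Polynomial.eval₂_X, Polynomial.eval₂_C]
        rw [h5] at h1
        exact (dvd_add_right (dvd_mul_right s _)).1 h1
      have h6 : IsUnit (i (R.coeff 0)) := (IsUnit.mk0 _ hne).map i
      exact hs.not_isUnit (isUnit_of_dvd_unit h3 h6)
    rw [hR, pow_succ]
    exact mul_dvd_mul_left _ h2

/-- The coefficients of the expansion. -/
noncomputable def Expand_c (i : E →+* O)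
    (hi : Function.Surjective ((IsLocalRing.residue O).comp i)) (s : O) (hs : Irreducible s)
    (a : O) : PowerSeries E :=
  PowerSeries.mk fun n => ((Expand_surj i hi s hs a (n + 1)).choose).coeff n

theorem Expand_coeff (i : E →+* O) (hi : Function.Surjective ((IsLocalRing.residue O).comp i))
    (s : O) (hs : Irreducible s) (a : O) (N : ℕ) (Q : Polynomial E)
    (h : s ^ N ∣ a - Polynomial.eval₂ i s Q) (n : ℕ) (hn : n < N) :
    PowerSeries.coeff n (Expand_c i hi s hs a) = Q.coeff n := by
  rw [Expand_c, PowerSeries.coeff_mk]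
  have h1 := (Expand_surj i hi s hs a (n + 1)).choose_spec
  set P := (Expand_surj i hi s hs a (n + 1)).choose
  have h2 : s ^ (n + 1) ∣ Polynomial.eval₂ i s (P - Q) := by
    rw [Polynomial.eval₂_sub]
    have h3 := dvd_sub (dvd_trans (pow_dvd_pow s hn) h) h1
    have e : a - Polynomial.eval₂ i s Q - (a - Polynomial.eval₂ i s P) =
        Polynomial.eval₂ i s P - Polynomial.eval₂ i s Q := by ring
    rwa [e] at h3
  have h4 := Polynomial.X_pow_dvd_iff.1 (Expand_inj i s hs (n + 1) _ h2) n (Nat.lt_succ_self n)
  rw [Polynomial.coeff_sub] at h4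
  exact sub_eq_zero.1 h4

/-- The expansion as a ring homomorphism. -/
noncomputable def Expand_hom (i : E →+* O)
    (hi : Function.Surjective ((IsLocalRing.residue O).comp i)) (s : O) (hs : Irreducible s) :
    O →+* PowerSeries E where
  toFun := Expand_c i hi s hs
  map_one' := by
    ext n
    rw [Expand_coeff i hi s hs 1 (n + 1) 1 (by simp) n (Nat.lt_succ_self n),
      Polynomial.coeff_one, PowerSeries.coeff_one]
  map_zero' := by
    ext n
    rw [Expand_coeff i hi s hs 0 (n + 1) 0 (by simp) n (Nat.lt_succ_self n)]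
    simp
  map_add' a b := by
    ext n
    obtain ⟨P, hP⟩ := Expand_surj i hi s hs a (n + 1)
    obtain ⟨Q, hQ⟩ := Expand_surj i hi s hs b (n + 1)
    have h1 : s ^ (n + 1) ∣ a + b - Polynomial.eval₂ i s (P + Q) := by
      rw [Polynomial.eval₂_add]
      have h2 := dvd_add hP hQ
      have e : a - Polynomial.eval₂ i s P + (b - Polynomial.eval₂ i s Q) =
        a + b - (Polynomial.eval₂ i s P + Polynomial.eval₂ i s Q) := by ring
      rwa [e] at h2
    rw [map_add, Expand_coeff i hi s hs _ _ _ h1 n (Nat.lt_succ_self n),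
      Expand_coeff i hi s hs _ _ _ hP n (Nat.lt_succ_self n),
      Expand_coeff i hi s hs _ _ _ hQ n (Nat.lt_succ_self n), Polynomial.coeff_add]
  map_mul' a b := by
    ext n
    obtain ⟨P, hP⟩ := Expand_surj i hi s hs a (n + 1)
    obtain ⟨Q, hQ⟩ := Expand_surj i hi s hs b (n + 1)
    have h1 : s ^ (n + 1) ∣ a * b - Polynomial.eval₂ i s (P * Q) := by
      rw [Polynomial.eval₂_mul]
      have h2 := dvd_add (dvd_mul_of_dvd_right hQ a)
        (dvd_mul_of_dvd_left hP (Polynomial.eval₂ i s Q))
      have e : a * (b - Polynomial.eval₂ i s Q) +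
          (a - Polynomial.eval₂ i s P) * Polynomial.eval₂ i s Q =
        a * b - Polynomial.eval₂ i s P * Polynomial.eval₂ i s Q := by ring
      rwa [e] at h2
    rw [Expand_coeff i hi s hs _ _ _ h1 n (Nat.lt_succ_self n), PowerSeries.coeff_mul,
      Polynomial.coeff_mul]
    refine Finset.sum_congr rfl fun p hp => ?_
    rw [Finset.HasAntidiagonal.mem_antidiagonal] at hp
    rw [Expand_coeff i hi s hs _ _ _ hP p.1 (by omega),
      Expand_coeff i hi s hs _ _ _ hQ p.2 (by omega)]

theorem Expand_hom_inj (i : E →+* O)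
    (hi : Function.Surjective ((IsLocalRing.residue O).comp i)) (s : O) (hs : Irreducible s) :
    Function.Injective (Expand_hom i hi s hs) := by
  rw [injective_iff_map_eq_zero]
  intro a ha
  by_contra hne
  obtain ⟨n, u, hu⟩ := IsDiscreteValuationRing.eq_unit_mul_pow_irreducible hne hs
  obtain ⟨P, hP⟩ := Expand_surj i hi s hs a (n + 1)
  have h1 : Polynomial.X ^ (n + 1) ∣ P := by
    rw [Polynomial.X_pow_dvd_iff]
    intro d hd
    rw [← Expand_coeff i hi s hs a (n + 1) P hP d hd]
    have h2 : Expand_c i hi s hs a = 0 := ha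
    rw [h2, map_zero]
  obtain ⟨R, hR⟩ := h1
  have h3 : s ^ (n + 1) ∣ a := by
    have h4 : s ^ (n + 1) ∣ Polynomial.eval₂ i s P := by
      rw [hR, Polynomial.eval₂_mul, Polynomial.eval₂_X_pow]
      exact dvd_mul_right _ _
    have h5 := dvd_add hP h4
    rwa [sub_add_cancel] at h5
  rw [hu, mul_comm, pow_succ, mul_dvd_mul_iff_left (pow_ne_zero n hs.ne_zero)] at h3
  exact hs.not_isUnit (isUnit_of_dvd_unit h3 u.isUnit)

end Expand_aux

/-- Laurent expansions at a discrete valuation with a field of representatives. -/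
theorem exists_laurent_of_dvr {E : Type u} [Field E] {O : Type v} [CommRing O] [IsDomain O]
    [IsDiscreteValuationRing O] (K : Type w) [Field K] [Algebra O K] [IsFractionRing O K]
    (i : E →+* O) (hi : Function.Surjective ((IsLocalRing.residue O).comp i)) :
    ∃ φ : K →+* LaurentSeries E, ∀ a : O, a ≠ 0 → a ∈ IsLocalRing.maximalIdeal O →
      0 < (φ (algebraMap O K a)).order := by
  obtain ⟨s, hs⟩ := IsDiscreteValuationRing.exists_irreducible O
  set g : O →+* LaurentSeries E :=
    (HahnSeries.ofPowerSeries ℤ E).comp (Expand_hom i hi s hs) with hg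
  have hinj : Function.Injective g := by
    rw [hg, RingHom.coe_comp]
    exact HahnSeries.ofPowerSeries_injective.comp (Expand_hom_inj i hi s hs)
  refine ⟨IsFractionRing.lift hinj, ?_⟩
  intro a ha ham
  rw [IsFractionRing.lift_algebraMap]
  have hga : g a ≠ 0 := fun h => ha (hinj (by rw [h, map_zero]))
  by_contra hle
  push Not at hle
  have h1 : (g a).coeff (g a).order ≠ 0 := fun h => hga (HahnSeries.coeff_order_eq_zero.1 h)
  apply h1
  have h2 : ∀ z : ℤ, z ≤ 0 → (g a).coeff z = 0 := by
    intro z hz
    have h3 : (g a).coeff z = ((Expand_hom i hi s hs a : PowerSeries E) : LaurentSeries E).coeff z :=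
      rfl
    rw [h3, PowerSeries.coeff_coe]
    split_ifs with h
    · rfl
    · have h4 : z = 0 := by omega
      subst h4
      have h5 : s ∣ a := by
        rwa [hs.maximalIdeal_eq, Ideal.mem_span_singleton] at ham
      have h6 := Expand_coeff i hi s hs a 1 0 (by simpa using h5) 0 Nat.zero_lt_one
      rw [Polynomial.coeff_zero] at h6
      exact h6
  exact h2 _ hle

end Pool.Agent.H71.KP

end

section

/-!
# Embeddings of finitely generated fields of characteristic `p` in fields of Laurent series

PROOF. Let `Ω` be an algebraic closure of `k`. Extend `x` to a transcendence basis `{x} ∪ B'` of `k`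
over `ZMod p` (`x ∉ B'`), and let `E` be the algebraic closure of `(ZMod p)(B')` in `Ω`
(`algebraicClosure`, an intermediate field; it is algebraically closed since `Ω` is), and
`K = E k` the subfield of `Ω` generated by `E` and `k` (`IntermediateField.adjoin E`). Then `x` is
transcendental over `E`, `K` is algebraic over `E(x)` and essentially of finite type over `E`. As `E`
is perfect there is a separating transcendence basis `s` of `K` over `E`
(`exists_isTranscendenceBasis_and_isSeparable_of_perfectField`), which has one element `y`, since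
`{x}` is also a transcendence basis. `K` is finite over `E(y)`. Apply `exists_dvr` to `x`, then
`exists_laurent_of_dvr` to the discrete valuation ring, and restrict to `k`. Note that
`order (φ (x⁻¹)) = - order (φ x)`.
-/

set_option autoImplicit false

universe u v

namespace Pool.Agent.H71.KP

open IntermediateField

theorem Place_trdeg_simple {E Ω : Type u} [Field E] [Field Ω] [Algebra E Ω] (x' : Ω) :
    Algebra.trdeg E (IntermediateField.adjoin E {x'}) ≤ 1 := by
  open scoped algebraAdjoinAdjoin in
  have alg : Algebra.IsAlgebraic (Algebra.adjoin E {AdjoinSimple.gen E x'})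
      (IntermediateField.adjoin E {x'}) := by
    let v : IntermediateField.adjoin E {x'} →ₐ[E] Ω := (IntermediateField.adjoin E {x'}).val
    have hmap : (Algebra.adjoin E {AdjoinSimple.gen E x'}).map v = Algebra.adjoin E {x'} := by
      rw [AlgHom.map_adjoin]
      simp [v]
    have hmem : ∀ w : Algebra.adjoin E {AdjoinSimple.gen E x'},
        v (w : IntermediateField.adjoin E {x'}) ∈ Algebra.adjoin E {x'} := by
      intro w
      rw [← hmap]
      exact ⟨w, w.2, rfl⟩
    let f : Algebra.adjoin E {AdjoinSimple.gen E x'} →+* Algebra.adjoin E {x'} :=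
      { toFun := fun w => ⟨v w, hmem w⟩
        map_one' := by ext; simp
        map_mul' := by intro a b; ext; simp
        map_zero' := by ext; simp
        map_add' := by intro a b; ext; simp }
    refine Algebra.IsAlgebraic.of_ringHom_of_comp_eq (S := Algebra.adjoin E {x'})
      (B := IntermediateField.adjoin E {x'}) f
      (RingHom.id (IntermediateField.adjoin E {x'})) ?_ Function.injective_id ?_
    · rintro ⟨w, hw⟩
      rw [← hmap] at hw
      obtain ⟨z, hz, rfl⟩ := hw
      exact ⟨⟨z, hz⟩, rfl⟩
    · ext w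
      rfl
  refine le_trans (Algebra.IsAlgebraic.trdeg_le_cardinalMk E {AdjoinSimple.gen E x'}) ?_
  simp

theorem Place_alg {R : Type v} {k Ω : Type u} [Field R] [Field k] [Field Ω] [Algebra R k] [Algebra R Ω]
    [Algebra k Ω] [IsScalarTower R k Ω] {t : Set k}
    (ht : IsTranscendenceBasis R ((↑) : t → k)) (x : k)
    {E : Type u} [Field E] [Algebra E Ω] [Algebra R E] [IsScalarTower R E Ω]
    (hE : ∀ y ∈ t, y ≠ x → algebraMap k Ω y ∈ (algebraMap E Ω).range) (z : k) :
    IsAlgebraic (IntermediateField.adjoin E {algebraMap k Ω x}) (algebraMap k Ω z) := by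
  have h1 := ht.isAlgebraic_field
  have h2 := h1.isAlgebraic z
  set L := IntermediateField.adjoin E {algebraMap k Ω x} with hL
  have hle : IntermediateField.adjoin R (Set.range ((↑) : t → k)) ≤
      (L.restrictScalars R).comap (IsScalarTower.toAlgHom R k Ω) := by
    rw [IntermediateField.adjoin_le_iff]
    rintro _ ⟨y, rfl⟩
    show algebraMap k Ω (y : k) ∈ L
    by_cases hyx : (y : k) = x
    · rw [hyx]
      exact IntermediateField.mem_adjoin_simple_self E _
    · obtain ⟨e, he⟩ := hE y y.2 hyx
      rw [← he]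
      exact L.algebraMap_mem e
  have hmem : ∀ w : IntermediateField.adjoin R (Set.range ((↑) : t → k)),
      algebraMap k Ω (w : k) ∈ L := fun w => hle w.2
  let f : IntermediateField.adjoin R (Set.range ((↑) : t → k)) →+* L :=
    { toFun := fun w => ⟨algebraMap k Ω (w : k), hmem w⟩
      map_one' := by ext; simp
      map_mul' := by intro a b; ext; simp
      map_zero' := by ext; simp
      map_add' := by intro a b; ext; simp }
  refine h2.ringHom_of_comp_eq f (algebraMap k Ω) f.injective ?_
  ext w
  rfl

theorem Place_tr {R : Type v} {k Ω : Type u} [Field R] [Field k] [Field Ω] [Algebra R k] [Algebra R Ω]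
    [Algebra k Ω] [IsScalarTower R k Ω] {t : Set k}
    (ht : IsTranscendenceBasis R ((↑) : t → k)) (x : k) (hx : x ∈ t) :
    Transcendental (IntermediateField.adjoin R ((algebraMap k Ω) '' (t \ {x})))
      (algebraMap k Ω x) := by
  have h1 : AlgebraicIndependent R ((IsScalarTower.toAlgHom R k Ω) ∘ ((↑) : t → k)) :=
    ht.1.map' (f := IsScalarTower.toAlgHom R k Ω) (algebraMap k Ω).injective
  have h2 := h1.transcendental_adjoin (s := {i : t | (i : k) ≠ x}) (i := ⟨x, hx⟩) (by simp)
  have hset : ((IsScalarTower.toAlgHom R k Ω) ∘ ((↑) : t → k)) '' {i : t | (i : k) ≠ x}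
      = (algebraMap k Ω) '' (t \ {x}) := by
    ext w
    constructor
    · rintro ⟨i, hi, rfl⟩
      exact ⟨i, ⟨i.2, hi⟩, rfl⟩
    · rintro ⟨i, ⟨hi1, hi2⟩, rfl⟩
      exact ⟨⟨i, hi1⟩, hi2, rfl⟩
  rw [hset] at h2
  open scoped algebraAdjoinAdjoin in
  exact h2.extendScalars (S := IntermediateField.adjoin R ((algebraMap k Ω) '' (t \ {x})))

theorem Place_exE {R : Type v} {k Ω : Type u} [Field R] [Field k] [Field Ω] [Algebra R k] [Algebra R Ω]
    [Algebra k Ω] [IsScalarTower R k Ω] [IsAlgClosed Ω] (x : k) {t : Set k}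
    (ht : IsTranscendenceBasis R ((↑) : t → k)) (hxt : x ∈ t) (F0 : IntermediateField R Ω)
    (hF0 : F0 = IntermediateField.adjoin R ((algebraMap k Ω) '' (t \ {x}))) :
    ∃ (E : Type u) (_ : Field E) (_ : IsAlgClosed E) (_ : Algebra E Ω),
      (∀ r : R, algebraMap R Ω r ∈ (algebraMap E Ω).range) ∧
      Transcendental E (algebraMap k Ω x) ∧
      ∀ z : k, IsAlgebraic (IntermediateField.adjoin E {algebraMap k Ω x}) (algebraMap k Ω z) := by
  have htr0 : Transcendental F0 (algebraMap k Ω x) := by
    subst hF0
    exact Place_tr ht x hxt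
  have hE : IsAlgClosed (algebraicClosure F0 Ω) :=
    (IsAlgClosed.algebraicClosure_eq_bot_iff (algebraicClosure F0 Ω) Ω).mp
      (algebraicClosure.algebraicClosure_eq_bot F0 Ω)
  have htow : IsScalarTower R (algebraicClosure F0 Ω) Ω :=
    IsScalarTower.of_algebraMap_eq (fun r => rfl)
  refine ⟨algebraicClosure F0 Ω, inferInstance, hE, inferInstance,
    fun r => ⟨algebraMap R (algebraicClosure F0 Ω) r, rfl⟩, htr0.algebraicClosure, ?_⟩
  intro z
  refine Place_alg (R := R) (E := algebraicClosure F0 Ω) ht x ?_ z
  intro y hy hyx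
  have h1 : algebraMap k Ω y ∈ F0 := by
    rw [hF0]
    exact IntermediateField.subset_adjoin _ _ ⟨y, ⟨hy, hyx⟩, rfl⟩
  have h2 : algebraMap k Ω y ∈ algebraicClosure F0 Ω :=
    (algebraicClosure F0 Ω).algebraMap_mem (⟨_, h1⟩ : F0)
  exact ⟨⟨_, h2⟩, rfl⟩

theorem Place_finK {R : Type v} {k Ω L : Type u} [Field R] [Field k] [Field Ω] [Field L] [Algebra R k]
    [Algebra R Ω] [Algebra k Ω] [IsScalarTower R k Ω] [Algebra L Ω]
    (hR : ∀ r : R, algebraMap R Ω r ∈ (algebraMap L Ω).range) [Algebra.EssFiniteType R k] :
    Algebra.EssFiniteType L (IntermediateField.adjoin L (Set.range (algebraMap k Ω))) := by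
  classical
  obtain ⟨s, hs⟩ := IntermediateField.fg_top R k
  rw [IntermediateField.essFiniteType_iff]
  refine ⟨s.image (algebraMap k Ω), ?_⟩
  apply le_antisymm
  · rw [IntermediateField.adjoin_le_iff]
    intro w hw
    simp only [Finset.coe_image, Set.mem_image] at hw
    obtain ⟨z, hz, rfl⟩ := hw
    exact IntermediateField.subset_adjoin _ _ ⟨z, rfl⟩
  · rw [IntermediateField.adjoin_le_iff]
    rintro _ ⟨z, rfl⟩
    have hle : IntermediateField.adjoin R (s : Set k) ≤
        (((IntermediateField.adjoin L ((s.image (algebraMap k Ω) : Finset Ω) : Set Ω)).toSubfield).comap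
          (algebraMap k Ω)).toIntermediateField (by
            intro r
            show algebraMap k Ω (algebraMap R k r) ∈
              IntermediateField.adjoin L ((s.image (algebraMap k Ω) : Finset Ω) : Set Ω)
            rw [← IsScalarTower.algebraMap_apply R k Ω]
            obtain ⟨l, hl⟩ := hR r
            rw [← hl]
            exact IntermediateField.algebraMap_mem _ l) := by
      rw [IntermediateField.adjoin_le_iff]
      intro y hy
      show algebraMap k Ω y ∈
        IntermediateField.adjoin L ((s.image (algebraMap k Ω) : Finset Ω) : Set Ω)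
      refine IntermediateField.subset_adjoin _ _ ?_
      rw [Finset.coe_image]
      exact ⟨y, hy, rfl⟩
    have hz : z ∈ IntermediateField.adjoin R (s : Set k) := by
      rw [hs]
      exact IntermediateField.mem_top
    exact hle hz

theorem Place_card {E K : Type u} [Field E] [Field K] [Algebra E K] (s : Finset K)
    (hs : IsTranscendenceBasis E ((↑) : s → K)) (h1 : Algebra.trdeg E K ≤ 1)
    (h0 : ¬ Algebra.IsAlgebraic E K) : ∃ y : K, s = {y} := by
  have h2 := hs.cardinalMk_eq_trdeg
  rw [← h2] at h1
  simp only [Cardinal.mk_coe_finset] at h1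
  have h3 : s.card ≤ 1 := by exact_mod_cast h1
  have h4 : s.card ≠ 0 := by
    intro h5
    rw [Finset.card_eq_zero] at h5
    subst h5
    apply h0
    rw [← hs.isEmpty_iff_isAlgebraic]
    infer_instance
  exact Finset.card_eq_one.1 (by omega)

theorem Place_core {R : Type v} {k Ω E : Type u} [Field R] [Field k] [Field Ω] [Field E] [IsAlgClosed E]
    [Algebra R k] [Algebra R Ω] [Algebra k Ω] [IsScalarTower R k Ω] [Algebra E Ω]
    [Algebra.EssFiniteType R k] (x : k)
    (hR : ∀ r : R, algebraMap R Ω r ∈ (algebraMap E Ω).range)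
    (htr : Transcendental E (algebraMap k Ω x))
    (L : IntermediateField E Ω) (hL : L = IntermediateField.adjoin E {algebraMap k Ω x})
    (halg : ∀ z : k, IsAlgebraic L (algebraMap k Ω z))
    (K : IntermediateField L Ω) (hK : K = IntermediateField.adjoin L (Set.range (algebraMap k Ω))) :
    ∃ φ : k →+* LaurentSeries E, (φ x).order ≠ 0 := by
  have hKalg : Algebra.IsAlgebraic L K := by
    rw [hK, IntermediateField.isAlgebraic_adjoin_iff_isAlgebraic]
    rintro _ ⟨z, rfl⟩
    exact halg z
  have hKfin : Algebra.EssFiniteType L K := by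
    rw [hK]
    refine Place_finK (R := R) (k := k) ?_
    intro r
    obtain ⟨e, he⟩ := hR r
    refine ⟨algebraMap E L e, ?_⟩
    rw [← he]
    rfl
  have hLfin : Algebra.EssFiniteType E L := by
    rw [IntermediateField.essFiniteType_iff, hL]
    exact ⟨{algebraMap k Ω x}, by simp⟩
  have htow : IsScalarTower E L K := IsScalarTower.of_algebraMap_eq (fun e => rfl)
  have hEK : Algebra.EssFiniteType E K := Algebra.EssFiniteType.comp E L K
  have hxK : algebraMap k Ω x ∈ K := by
    rw [hK]
    exact IntermediateField.subset_adjoin _ _ ⟨x, rfl⟩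
  have hnalg : ¬ Algebra.IsAlgebraic E K := by
    intro h
    have h1 := h.isAlgebraic ⟨_, hxK⟩
    apply htr
    have htow2 : IsScalarTower E K Ω := IsScalarTower.of_algebraMap_eq (fun e => rfl)
    have h2 : IsAlgebraic E (algebraMap K Ω ⟨_, hxK⟩) := h1.algebraMap
    exact h2
  have htrdeg : Algebra.trdeg E K ≤ 1 := by
    have hf1 : FaithfulSMul L K :=
      (faithfulSMul_iff_algebraMap_injective L K).mpr (algebraMap L K).injective
    have hf2 : FaithfulSMul E L :=
      (faithfulSMul_iff_algebraMap_injective E L).mpr (algebraMap E L).injective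
    rw [← trdeg_add_eq E L (A := K), trdeg_eq_zero (R := L) (A := K), add_zero, hL]
    exact Place_trdeg_simple _
  obtain ⟨s, hs1, hs2⟩ := exists_isTranscendenceBasis_and_isSeparable_of_perfectField E K
  obtain ⟨y, rfl⟩ := Place_card s hs1 htrdeg hnalg
  have hsep : Algebra.IsSeparable (IntermediateField.adjoin E {y}) K := by
    have h1 : ((({y} : Finset K) : Set K)) = {y} := Finset.coe_singleton y
    rw [h1] at hs2
    exact hs2
  have hfd : FiniteDimensional (IntermediateField.adjoin E {y}) K := by
    have h1 : Algebra.EssFiniteType (IntermediateField.adjoin E {y}) K :=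
      Algebra.EssFiniteType.of_comp E (IntermediateField.adjoin E {y}) K
    exact Algebra.finite_of_essFiniteType_of_isAlgebraic
  have hytr : Transcendental E y := by
    have h1 := hs1.1
    exact (algebraicIndependent_singleton_iff (x := ((↑) : ({y} : Finset K) → K))
      ⟨y, Finset.mem_singleton_self y⟩).1 h1
  have hxr : (⟨_, hxK⟩ : K) ∉ (algebraMap E K).range := by
    rintro ⟨e, he⟩
    apply htr
    have h1 : algebraMap E Ω e = algebraMap k Ω x := congrArg (fun w : K => (w : Ω)) he
    rw [← h1]
    exact isAlgebraic_algebraMap e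
  obtain ⟨O, hO, i, hi, a, ha, hax⟩ := exists_dvr y hytr (⟨_, hxK⟩ : K) hxr
  obtain ⟨φ, hφ⟩ := exists_laurent_of_dvr K i hi
  have hmemK : ∀ z : k, algebraMap k Ω z ∈ K := by
    intro z
    rw [hK]
    exact IntermediateField.subset_adjoin _ _ ⟨z, rfl⟩
  let ψ : k →+* K :=
    { toFun := fun w => ⟨algebraMap k Ω w, hmemK w⟩
      map_one' := by ext; simp
      map_mul' := by intro a b; ext; simp
      map_zero' := by ext; simp
      map_add' := by intro a b; ext; simp }
  have hx0 : x ≠ 0 := by
    rintro rfl
    apply htr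
    rw [map_zero]
    exact isAlgebraic_zero
  refine ⟨φ.comp ψ, ?_⟩
  rcases hax with hax | hax
  · have ha0 : a ≠ 0 := by
      rintro rfl
      apply hx0
      have h1 : ψ x = 0 := by
        show (⟨_, hxK⟩ : K) = 0
        rw [← hax]
        rfl
      exact (map_eq_zero ψ).1 h1
    have h1 := hφ a ha0 ha
    have h2 : algebraMap O K a = ψ x := hax
    rw [h2] at h1
    exact ne_of_gt h1
  · have hψ : ψ (x⁻¹) = (⟨_, hxK⟩ : K)⁻¹ := by
      rw [map_inv₀]
      rfl
    have ha0 : a ≠ 0 := by
      rintro rfl
      apply inv_ne_zero hx0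
      have h1 : ψ (x⁻¹) = 0 := by
        rw [hψ, ← hax]
        rfl
      exact (map_eq_zero ψ).1 h1
    have h1 := hφ a ha0 ha
    have h2 : algebraMap O K a = ψ (x⁻¹) := by
      rw [hψ]
      exact hax
    rw [h2] at h1
    intro h3
    have h4 : (φ.comp ψ) x * (φ.comp ψ) (x⁻¹) = 1 := by
      rw [← map_mul, mul_inv_cancel₀ hx0, map_one]
    have h5 : (φ.comp ψ) x ≠ 0 := by
      rw [Ne, map_eq_zero]
      exact hx0
    have h6 : (φ.comp ψ) (x⁻¹) ≠ 0 := by
      rw [Ne, map_eq_zero]
      exact inv_ne_zero hx0
    have h7 := HahnSeries.order_mul h5 h6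
    rw [h4, h3, zero_add, HahnSeries.order_one] at h7
    have h8 : (0 : ℤ) < ((φ.comp ψ) (x⁻¹)).order := h1
    omega

/-- An element of a finitely generated field of characteristic `p` which is transcendental over the
prime field has nonzero order in some field of Laurent series over an algebraically closed field. -/
theorem exists_place (p : ℕ) [Fact p.Prime] (k : Type u) [Field k] [Algebra (ZMod p) k]
    [Algebra.EssFiniteType (ZMod p) k] (x : k) (hx : Transcendental (ZMod p) x) :
    ∃ (F : Type u) (_ : Field F) (_ : IsAlgClosed F) (φ : k →+* LaurentSeries F),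
      (φ x).order ≠ 0 := by
  have hind : AlgebraicIndepOn (ZMod p) id {x} := by
    have h1 : AlgebraicIndependent (ZMod p) (fun i : ({x} : Set k) => (i : k)) :=
      (algebraicIndependent_singleton_iff ⟨x, rfl⟩).2 hx
    exact h1
  obtain ⟨t, hxt, ht⟩ := exists_isTranscendenceBasis_superset hind
  obtain ⟨E, hE1, hE2, hE3, hR, htr, halg⟩ :=
    Place_exE (R := ZMod p) (Ω := AlgebraicClosure k) x ht (hxt rfl) _ rfl
  obtain ⟨φ, hφ⟩ := Place_core (R := ZMod p) (k := k) (Ω := AlgebraicClosure k) x hR htr _ rfl
    halg _ rfl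
  exact ⟨E, hE1, hE2, φ, hφ⟩

end Pool.Agent.H71.KP

end

section

/-!
# Units of group rings in characteristic `p` with vanishing valuations are torsion

PROOF. Let `n` be the order of `H`, `g` a generator, `Ω` an algebraic closure of the fraction field
of `R`. As `p ∤ n` there is a primitive `n`-th root of unity `ζ` in `Ω`. For `j < n` let
`χ_j : H → Ω`, `g ↦ ζ ^ j`, and let `x_j ∈ Ω` be the image of `x` under
`R[H] → Ω`, `∑ r_h h ↦ ∑ r_h χ_j(h)`. Let `k` be the subfield of `Ω` generated by `ζ` and the
image of `R`: a finitely generated field over `ZMod p` (`Algebra.EssFiniteType (ZMod p) k`), and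
`x_j ∈ k`. If `x_j` were transcendental over `ZMod p`, `exists_place` would give an algebraically
closed field `F` and `φ' : k → F((t))` with `(φ' x_j).order ≠ 0`. The elements `φ' (ζ ^ i)` are
`n`-th roots of unity of the field `F((t))`; as `F` is algebraically closed and `n` is not zero in
`F` (`p = 0` in `F`), there are already `n` of them in `F`, so `φ' (χ_j h) = C (χ h)` for a
homomorphism `χ : H → F`. With `φ = φ'` restricted to `R` this contradicts `h`. So all `x_j` are
algebraic over `ZMod p`, nonzero, hence of finite order: `x_j ^ m = 1` for a common `m ≠ 0`. So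
`x ^ m - 1` is killed by all the `χ_j`; writing `x ^ m - 1 = ∑_{i < n} a_i g ^ i`, the polynomial
`∑ a_i X ^ i` of degree `< n` has the `n` distinct roots `ζ ^ j`, so it is zero.
-/

set_option autoImplicit false

universe u v

namespace Pool.Agent.H71.KP

/-- The evaluation `R[H] → F((t))` given by an embedding of `R` and a character of `H`. -/
noncomputable def evF {R : Type u} [CommRing R] {F : Type u} [Field F] {H : Type v} [Group H]
    (φ : R →+* LaurentSeries F) (χ : H →* F) : MonoidAlgebra R H →+* LaurentSeries F :=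
  MonoidAlgebra.liftNCRingHom φ
    (((HahnSeries.C : F →+* HahnSeries ℤ F) : F →* HahnSeries ℤ F).comp χ)
    (fun _ _ => Commute.all _ _)

/-- The evaluation `R[H] → A` given by a homomorphism of `R` and a character of `H`. -/
private noncomputable def TorsP_ev {R A H : Type*} [CommRing R] [CommRing A] [Group H]
    (φ : R →+* A) (χ : H →* A) : MonoidAlgebra R H →+* A :=
  MonoidAlgebra.liftNCRingHom φ χ (fun _ _ => Commute.all _ _)

private theorem TorsP_ev_single {R A H : Type*} [CommRing R] [CommRing A] [Group H]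
    (φ : R →+* A) (χ : H →* A) (h : H) (r : R) :
    TorsP_ev φ χ (MonoidAlgebra.single h r) = φ r * χ h :=
  MonoidAlgebra.liftNCRingHom_single _ _ _ _ _

private theorem TorsP_ev_apply {R A H : Type*} [CommRing R] [CommRing A] [Group H] [Fintype H]
    (φ : R →+* A) (χ : H →* A) (y : MonoidAlgebra R H) :
    TorsP_ev φ χ y = ∑ h, φ (y.coeff h) * χ h := by
  classical
  induction y using MonoidAlgebra.induction_linear with
  | zero => simp
  | add a b ha hb =>
    rw [map_add, ha, hb, ← Finset.sum_add_distrib]
    refine Finset.sum_congr rfl fun h _ => ?_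
    rw [MonoidAlgebra.coeff_add, Finsupp.add_apply, map_add, add_mul]
  | single g r =>
    rw [TorsP_ev_single, Finset.sum_eq_single g]
    · rw [MonoidAlgebra.coeff_single, Finsupp.single_eq_same]
    · intro h _ hh
      rw [MonoidAlgebra.coeff_single, Finsupp.single_eq_of_ne hh, map_zero, zero_mul]
    · intro hg
      exact absurd (Finset.mem_univ _) hg

/-- A group ring element killed by all the characters is zero. -/
private theorem TorsP_sep {R Ω H : Type*} [CommRing R] [Field Ω] [Group H] [Finite H] [IsCyclic H]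
    [HasEnoughRootsOfUnity Ω (Nat.card H)] (φ : R →+* Ω) (hφ : Function.Injective φ)
    (y : MonoidAlgebra R H) (hy : ∀ χ : H →* Ωˣ, TorsP_ev φ ((Units.coeHom Ω).comp χ) y = 0) :
    y = 0 := by
  classical
  have : Fintype H := Fintype.ofFinite H
  let : CommGroup H := IsCyclic.commGroup
  obtain ⟨e⟩ := IsCyclic.monoidHom_equiv_self H Ω
  have : Finite (H →* Ωˣ) := Finite.of_equiv H e.toEquiv.symm
  have : Fintype (H →* Ωˣ) := Fintype.ofFinite _
  have hinj : Function.Injective (fun χ : H →* Ωˣ => (Units.coeHom Ω).comp χ) := by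
    intro a b hab
    apply MonoidHom.ext
    intro h
    apply Units.ext
    exact DFunLike.congr_fun hab h
  have hli : LinearIndependent Ω (fun χ : H →* Ωˣ => (((Units.coeHom Ω).comp χ : H →* Ω) : H → Ω)) :=
    (linearIndependent_monoidHom H Ω).comp _ hinj
  have hcard : Fintype.card (H →* Ωˣ) = Module.finrank Ω (H → Ω) := by
    rw [Module.finrank_fintype_fun_eq_card]
    exact Fintype.card_congr e.toEquiv
  have hspan := hli.span_eq_top_of_card_eq_finrank' hcard
  -- the functional
  let L : (H → Ω) →ₗ[Ω] Ω := ∑ h : H, (φ (y.coeff h)) • LinearMap.proj h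
  have hL : ∀ f : H → Ω, L f = ∑ h, φ (y.coeff h) * f h := by
    intro f
    simp only [L, LinearMap.sum_apply, LinearMap.smul_apply, LinearMap.proj_apply, smul_eq_mul]
  have hL0 : L = 0 := by
    apply LinearMap.ext_on_range hspan
    intro χ
    rw [hL, LinearMap.zero_apply, ← TorsP_ev_apply φ ((Units.coeHom Ω).comp χ) y]
    exact hy χ
  apply MonoidAlgebra.ext
  apply Finsupp.ext
  intro h
  have h1 := hL (Pi.single h 1)
  rw [hL0, LinearMap.zero_apply, Finset.sum_eq_single h] at h1
  · rw [Pi.single_eq_same, mul_one] at h1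
    apply hφ
    rw [MonoidAlgebra.coeff_zero, Finsupp.zero_apply, map_zero]
    exact h1.symm
  · intro h' _ hh
    rw [Pi.single_eq_of_ne hh, mul_zero]
  · intro hh
    exact absurd (Finset.mem_univ _) hh

/-- A nonzero algebraic element over a finite field has finite order. -/
private theorem TorsP_fin (p : ℕ) [Fact p.Prime] {Ω : Type*} [Field Ω] [Algebra (ZMod p) Ω] (x : Ω)
    (hx : IsAlgebraic (ZMod p) x) (h0 : x ≠ 0) : ∃ m : ℕ, m ≠ 0 ∧ x ^ m = 1 := by
  have := IntermediateField.adjoin.finiteDimensional hx.isIntegral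
  have : Finite (IntermediateField.adjoin (ZMod p) {x}) := Module.finite_of_finite (ZMod p)
  have : Fintype (IntermediateField.adjoin (ZMod p) {x}) := Fintype.ofFinite _
  let y : (IntermediateField.adjoin (ZMod p) {x}) :=
    ⟨x, IntermediateField.mem_adjoin_simple_self (ZMod p) x⟩
  have hy : y ≠ 0 := fun h => h0 (congrArg Subtype.val h)
  let u : (IntermediateField.adjoin (ZMod p) {x})ˣ := Units.mk0 y hy
  refine ⟨Nat.card (IntermediateField.adjoin (ZMod p) {x})ˣ, Nat.card_pos.ne', ?_⟩
  have h1 : u ^ Nat.card (IntermediateField.adjoin (ZMod p) {x})ˣ = 1 := pow_card_eq_one'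
  have h2 : ((u ^ Nat.card (IntermediateField.adjoin (ZMod p) {x})ˣ :
      (IntermediateField.adjoin (ZMod p) {x})ˣ) : (IntermediateField.adjoin (ZMod p) {x})) = 1 := by
    rw [h1, Units.val_one]
  rw [Units.val_pow_eq_pow_val] at h2
  exact congrArg Subtype.val h2

/-- The roots of unity of `F((t))` are constant. -/
private theorem TorsP_const {F : Type u} [Field F] (n : ℕ) [NeZero n] (ζ : F)
    (hζ : IsPrimitiveRoot ζ n) (y : LaurentSeries F) (hy : y ^ n = 1) :
    ∃ c : F, (HahnSeries.C c : LaurentSeries F) = y := by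
  have h1 : IsPrimitiveRoot ((HahnSeries.C : F →+* LaurentSeries F) ζ) n :=
    hζ.map_of_injective (HahnSeries.C : F →+* LaurentSeries F).injective
  obtain ⟨i, _, hi⟩ := h1.eq_pow_of_pow_eq_one hy
  exact ⟨ζ ^ i, by rw [map_pow]; exact hi⟩

/-- A unit of `R[H]`, `H` cyclic of order prime to `p`, all of whose valuations vanish is
torsion. -/
theorem torsion_of_places (p : ℕ) [Fact p.Prime] {R : Type u} [CommRing R] [IsDomain R] [CharP R p]
    [Algebra.FiniteType ℤ R] {H : Type v} [Group H] [Finite H] [IsCyclic H]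
    (hH : ¬ p ∣ Nat.card H) (x : (MonoidAlgebra R H)ˣ)
    (h : ∀ (F : Type u) [Field F] [IsAlgClosed F] (φ : R →+* LaurentSeries F),
      Function.Injective φ → ∀ χ : H →* F, (evF φ χ (x : MonoidAlgebra R H)).order = 0) :
    ∃ m : ℕ, m ≠ 0 ∧ x ^ m = 1 := by
  classical
  obtain ⟨n, hn⟩ : ∃ n, n = Nat.card H := ⟨_, rfl⟩
  have hn0 : NeZero n := ⟨by rw [hn]; exact Nat.card_pos.ne'⟩
  rw [← hn] at hH
  let Ω := AlgebraicClosure (FractionRing R)
  let i : R →+* Ω := (algebraMap (FractionRing R) Ω).comp (algebraMap R (FractionRing R))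
  have hi : Function.Injective i :=
    (algebraMap (FractionRing R) Ω).injective.comp (IsFractionRing.injective R (FractionRing R))
  have : CharP Ω p := charP_of_injective_ringHom hi p
  have : NeZero (n : Ω) := ⟨fun h0 => hH ((CharP.cast_eq_zero_iff Ω p n).1 h0)⟩
  let : Algebra (ZMod p) Ω := ZMod.algebra Ω p
  have hr : HasEnoughRootsOfUnity Ω n := IsSepClosed.hasEnoughRootsOfUnity Ω n
  have hr' : HasEnoughRootsOfUnity Ω (Nat.card H) := hn ▸ hr
  obtain ⟨ζ, hζ⟩ := HasEnoughRootsOfUnity.exists_primitiveRoot Ω n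
  obtain ⟨s, hs⟩ := (inferInstance : Algebra.FiniteType ℤ R).out
  obtain ⟨k, hk⟩ : ∃ k : IntermediateField (ZMod p) Ω,
      k = IntermediateField.adjoin (ZMod p) ((insert ζ (s.image i) : Finset Ω) : Set Ω) := ⟨_, rfl⟩
  have hkfg : Algebra.EssFiniteType (ZMod p) k := by
    rw [IntermediateField.essFiniteType_iff, hk]
    exact IntermediateField.fg_adjoin_finset _
  have hζk : ζ ∈ k := by
    rw [hk]
    apply IntermediateField.subset_adjoin
    rw [Finset.coe_insert]
    exact Set.mem_insert _ _
  have hik : ∀ r : R, i r ∈ k := by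
    intro r
    have hr : r ∈ Algebra.adjoin ℤ (s : Set R) := by rw [hs]; trivial
    induction hr using Algebra.adjoin_induction with
    | mem r hr =>
      rw [hk]
      apply IntermediateField.subset_adjoin
      rw [Finset.coe_insert]
      apply Set.mem_insert_of_mem
      rw [Finset.coe_image]
      exact Set.mem_image_of_mem _ hr
    | algebraMap r =>
      have : i (algebraMap ℤ R r) = ((r : ℤ) : Ω) := by simp
      rw [this]
      exact intCast_mem k r
    | add a b _ _ ha hb => rw [map_add]; exact add_mem ha hb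
    | mul a b _ _ ha hb => rw [map_mul]; exact mul_mem ha hb
  let ik : R →+* k := i.codRestrict k.toSubring hik
  have hiki : Function.Injective ik := by
    intro a b hab
    apply hi
    exact congrArg Subtype.val hab
  -- the images under characters are algebraic
  have halg : ∀ χ : H →* Ωˣ,
      IsAlgebraic (ZMod p) (TorsP_ev i ((Units.coeHom Ω).comp χ) (x : MonoidAlgebra R H)) := by
    intro χ
    by_contra hcon
    have hχn : ∀ g : H, ((χ g : Ωˣ) : Ω) ^ n = 1 := by
      intro g
      have h1 : g ^ n = 1 := by rw [hn]; exact pow_card_eq_one'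
      rw [← Units.val_pow_eq_pow_val, ← map_pow, h1, map_one, Units.val_one]
    have hχk : ∀ g : H, ((χ g : Ωˣ) : Ω) ∈ k := by
      intro g
      obtain ⟨j, _, hj⟩ := hζ.eq_pow_of_pow_eq_one (hχn g)
      rw [← hj]
      exact pow_mem hζk j
    let χk : H →* k :=
      { toFun := fun g => ⟨((χ g : Ωˣ) : Ω), hχk g⟩
        map_one' := by
          apply Subtype.ext
          simp
        map_mul' := by
          intro a b
          apply Subtype.ext
          simp }
    have hev : ∀ y : MonoidAlgebra R H,
        ((TorsP_ev ik χk y : k) : Ω) = TorsP_ev i ((Units.coeHom Ω).comp χ) y := by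
      have h1 : (k.val.toRingHom).comp (TorsP_ev ik χk) = TorsP_ev i ((Units.coeHom Ω).comp χ) := by
        apply MonoidAlgebra.ringHom_ext
        · intro r
          rw [RingHom.comp_apply, TorsP_ev_single, TorsP_ev_single, map_one, map_one]
          simp only [mul_one]
          rfl
        · intro g
          rw [RingHom.comp_apply, TorsP_ev_single, TorsP_ev_single, map_one, map_one]
          simp only [one_mul]
          rfl
      intro y
      exact RingHom.congr_fun h1 y
    have htr : Transcendental (ZMod p) (TorsP_ev ik χk (x : MonoidAlgebra R H)) := by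
      intro hal
      apply hcon
      rw [← hev]
      exact hal.algebraMap (A := Ω)
    obtain ⟨F, hF1, hF2, φ', hφ'⟩ := exists_place p k _ htr
    have : CharP k p := charP_of_injective_ringHom hiki p
    have : CharP (LaurentSeries F) p := charP_of_injective_ringHom φ'.injective p
    have : CharP F p := (RingHom.charP_iff (HahnSeries.C : F →+* LaurentSeries F)
      (HahnSeries.C : F →+* LaurentSeries F).injective p).2 inferInstance
    have : NeZero (n : F) := ⟨fun h0 => hH ((CharP.cast_eq_zero_iff F p n).1 h0)⟩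
    have hrF : HasEnoughRootsOfUnity F n := IsSepClosed.hasEnoughRootsOfUnity F n
    obtain ⟨ζF, hζF⟩ := HasEnoughRootsOfUnity.exists_primitiveRoot F n
    have hc : ∀ g : H, ∃ c : F, (HahnSeries.C c : LaurentSeries F) = φ' (χk g) := by
      intro g
      apply TorsP_const n ζF hζF
      rw [← map_pow]
      have h1 : (χk g) ^ n = 1 := by
        apply Subtype.ext
        exact hχn g
      rw [h1, map_one]
    choose c hc using hc
    have hCinj : Function.Injective (HahnSeries.C : F →+* LaurentSeries F) :=
      (HahnSeries.C : F →+* LaurentSeries F).injective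
    let χF : H →* F :=
      { toFun := c
        map_one' := by
          apply hCinj
          rw [hc, map_one, map_one, map_one]
        map_mul' := by
          intro a b
          apply hCinj
          rw [hc, map_mul, map_mul, map_mul, hc, hc] }
    have h1 := h F (φ'.comp ik) (φ'.injective.comp hiki) χF
    apply hφ'
    rw [← h1]
    congr 1
    have h2 : φ'.comp (TorsP_ev ik χk) = evF (φ'.comp ik) χF := by
      apply MonoidAlgebra.ringHom_ext
      · intro r
        rw [RingHom.comp_apply, TorsP_ev_single, evF, MonoidAlgebra.liftNCRingHom_single, map_one,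
          map_one, mul_one, mul_one]
        rfl
      · intro g
        rw [RingHom.comp_apply, TorsP_ev_single, evF, MonoidAlgebra.liftNCRingHom_single, map_one,
          map_one, one_mul, one_mul]
        exact (hc g).symm
    exact RingHom.congr_fun h2 _
  -- finite order of the images
  have hfin : ∀ χ : H →* Ωˣ, ∃ m : ℕ, m ≠ 0 ∧
      (TorsP_ev i ((Units.coeHom Ω).comp χ) (x : MonoidAlgebra R H)) ^ m = 1 := by
    intro χ
    refine TorsP_fin p _ (halg χ) ?_
    exact (x.isUnit.map (TorsP_ev i ((Units.coeHom Ω).comp χ))).ne_zero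
  choose m hm0 hm using hfin
  have : Finite (H →* Ωˣ) := by
    let : CommGroup H := IsCyclic.commGroup
    obtain ⟨e⟩ := IsCyclic.monoidHom_equiv_self H Ω
    exact Finite.of_equiv H e.toEquiv.symm
  have : Fintype (H →* Ωˣ) := Fintype.ofFinite _
  refine ⟨∏ χ, m χ, Finset.prod_ne_zero_iff.2 fun χ _ => hm0 χ, ?_⟩
  apply Units.ext
  rw [Units.val_pow_eq_pow_val, Units.val_one, ← sub_eq_zero]
  apply TorsP_sep i hi
  intro χ
  rw [map_sub, map_pow, map_one]
  obtain ⟨d, hd⟩ := Finset.dvd_prod_of_mem m (Finset.mem_univ χ)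
  rw [hd, pow_mul, hm, one_pow, sub_self]

end Pool.Agent.H71.KP

end
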