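import Pool.Agent.H13.TFQ.M32
import Pool.Agent.H13.TFQ.M40
import Pool.Agent.H13.TFQ.M55
import Pool.Agent.H13.TFQ.M56

/-! The parts of this file: H71.KP.Jac_1, H71.KP.ResK_4, H71.KP.Witt_1, H71.KP.SysP. -/

section

/-!
# Jacobi's formula and the residue functional of the restriction
-/

set_option autoImplicit false
set_option linter.unusedSectionVars false
set_option linter.unusedSimpArgs false

open Matrix
open scoped Classical

universe u v w t

namespace Pool.Agent.H71.KP

variable {M : Type u} [CommRing M] {B : Type v} [AddCommGroup B] (t : DT M B)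

namespace ResDat

variable {p : ℕ} [hp : Fact p.Prime] {k : Type u} [CommRing k] (d : ResDat p k)

variable {H : Type v} [CommGroup H]

theorem elp_res (E : Subgroup H) [Fintype (H ⧸ E)] (c : E) (x : (MonoidAlgebra k H)ˣ) :
    d.elp (d.del c) (fun a b => by rw [mul_comm]) (resU E x) =
      (Nat.card (H ⧸ E) : ℤ) • d.elp (d.del (c : H)) (fun a b => by rw [mul_comm]) x := by
  obtain ⟨x, rfl⟩ := d.exists_lift_unit x
  rw [← uMap_resU, elp_eq, elp_eq]
  change DT.dlog _ (Units.map (detMonoidHom : Matrix (H ⧸ E) (H ⧸ E) (MonoidAlgebra d.A E) →*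
    MonoidAlgebra d.A E) (Units.map (resR d.A E).toMonoidHom x)) = _
  rw [dlog_det]
  refine dlog_map (d.grp (d.del (c : H)) (fun a b => by rw [mul_comm]))
    ((d.grp (d.del c) (fun a b => by rw [mul_comm])).mat (H ⧸ E)) (resR d.A E)
    (zsmulAddGroupHom (Nat.card (H ⧸ E) : ℤ)) ?_ ?_ x
  · exact fun x => d.gD_resR E x
  · exact fun x => d.gf_resR E c x

end ResDat

end Pool.Agent.H71.KP

end

section

/-!
# The residue functionals on `Wh` in positive characteristic
-/

set_option autoImplicit false
set_option linter.unusedSectionVars false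
set_option linter.unusedSimpArgs false

open Matrix

universe u v w t

namespace Pool.Agent.H71.KP

open Pool.Agent.H71.WH (InvMat K1 K1.mk K1.unit K1Rel genK1 addOne oneByOne CycSub conjHom K1.mk_mul K1.unit_mul)

namespace ResDat

variable {p : ℕ} [hp : Fact p.Prime] {k : Type u} [CommRing k] (d : ResDat p k)

section Grp

end Grp

section Lam

variable {G : Type v} [Group G] (f : G → d.B) (hf : ∀ x y, f (x * y) = f (y * x))

theorem elp_mul (x y : (MonoidAlgebra k G)ˣ) :
    d.elp f hf (x * y) = d.elp f hf x + d.elp f hf y := by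
  obtain ⟨x, rfl⟩ := d.exists_lift_unit x
  obtain ⟨y, rfl⟩ := d.exists_lift_unit y
  rw [← map_mul, elp_eq, elp_eq, elp_eq, DT.dlog_mul]

end Lam

section Map

variable {G : Type v} [Group G] {H : Type w} [Group H] (ψ : H →* G)

theorem elp_map (f : G → d.B) (hf : ∀ x y, f (x * y) = f (y * x)) (f' : H → d.B)
    (hf' : ∀ x y, f' (x * y) = f' (y * x)) (h : ∀ x, f (ψ x) = f' x)
    (x : (MonoidAlgebra k H)ˣ) : d.elp f hf (unitsMap ψ x) = d.elp f' hf' x := by
  obtain ⟨x, rfl⟩ := d.exists_lift_unit x
  rw [← uMap_unitsMap, elp_eq, elp_eq]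
  refine dlog_map (d.grp f' hf') (d.grp f hf) (MonoidAlgebra.mapDomainRingHom d.A ψ)
    (AddMonoidHom.id d.B) ?_ ?_ x
  · exact fun x => d.gD_map ψ x
  · intro x
    have h1 : (fun x => f (ψ x)) = f' := funext h
    change d.gf f (MonoidAlgebra.mapDomainRingHom d.A ψ x) = d.gf f' x
    rw [gf_map, h1]

end Map

end ResDat

end Pool.Agent.H71.KP

end

section

/-!
# Places and truncated Witt vectors
-/

set_option autoImplicit false
set_option linter.unusedSectionVars false
set_option linter.unusedSimpArgs false

open Matrix HahnSeries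
open scoped Classical

universe u v w t

namespace Pool.Agent.H71.KP

section WB

variable (p : ℕ) [hp : Fact p.Prime] (F : Type u) [Field F]

variable [CharP F p]

variable [PerfectRing F p]

/-- the residue data of Laurent series over a perfect field -/
noncomputable def wDat (n : ℕ) : ResDat p (LaurentSeries F) :=
  laurDat p (wπ p F n) (wπ_surjective p F n) (wπ_ker p F n) (n + 1) (w_nil p F n)

end WB

section Lin

variable {p : ℕ} [hp : Fact p.Prime] {k : Type u} [CommRing k] (d : ResDat p k)
  {H : Type v} [Group H]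

theorem ResDat.gf_del [Fintype H] (f : H → d.B) (x : MonoidAlgebra d.A H) :
    d.gf f x = ∑ c, f c * d.gf (d.del c) x := by
  induction x using MonoidAlgebra.induction_linear with
  | zero => simp
  | add x y hx hy =>
    rw [map_add, hx, hy, ← Finset.sum_add_distrib]
    exact Finset.sum_congr rfl fun c _ => by rw [map_add, mul_add]
  | single g a =>
    rw [d.gf_single, Finset.sum_eq_single g]
    · rw [d.gf_single, ResDat.del, if_pos rfl, one_mul]
    · intro c _ hc
      rw [d.gf_single, ResDat.del, if_neg (Ne.symm hc), zero_mul, mul_zero]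
    · intro h
      exact absurd (Finset.mem_univ _) h

theorem ResDat.elp_del [Fintype H] (hc : ∀ a b : H, a * b = b * a) (f : H → d.B)
    (x : (MonoidAlgebra k H)ˣ) :
    d.elp f (fun a b => by rw [hc]) x = ∑ c, f c * d.elp (d.del c) (fun a b => by rw [hc]) x := by
  obtain ⟨x, rfl⟩ := d.exists_lift_unit x
  rw [d.elp_eq]
  simp only [d.elp_eq]
  exact d.gf_del f _

theorem ResDat.base_evd [Finite H] (hc : ∀ a b : H, a * b = b * a) (χ : H →* d.B)
    (x : (MonoidAlgebra d.A H)ˣ)
    (h : ∀ c, d.elp (d.del c) (fun a b => by rw [hc]) (uMap d.π H x) = 0) :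
    d.base.dlog (Units.map (d.evd χ).toMonoidHom x) = 0 := by
  have := Fintype.ofFinite H
  have h1 := dlog_map (d.grp χ (fun a b => by rw [hc])) d.base (d.evd χ) (AddMonoidHom.id d.B)
    (fun x => d.θ_evd χ x) (fun x => d.res_evd χ x) x
  rw [h1]
  change (d.grp χ (fun a b => by rw [hc])).dlog x = 0
  rw [← d.elp_eq, d.elp_del hc]
  apply Finset.sum_eq_zero
  intro c _
  rw [h c, mul_zero]

end Lin

end Pool.Agent.H71.KP

end

section

/-!
# The system of valuations of a domain of characteristic `p`
-/

set_option autoImplicit false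
set_option linter.unusedSectionVars false
set_option linter.unusedSimpArgs false

open Matrix HahnSeries
open scoped Classical

universe u v w t

namespace Pool.Agent.H71.KP

open Pool.Agent.H71.WH (Sat mem_Sat CycSub conjHom)

/-- A place of `R`. -/
structure Pl (p : ℕ) (R : Type u) [CommRing R] where
  /-- the residue field -/
  F : Type u
  instF : Field F
  alg : IsAlgClosed F
  char : CharP F p
  /-- the map to the field of Laurent series -/
  φ : R →+* LaurentSeries F

attribute [instance] Pl.instF Pl.alg Pl.char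

variable {p : ℕ} [hp : Fact p.Prime] {R : Type u} [CommRing R]

instance (P : Pl p R) : PerfectRing P.F p := PerfectField.toPerfectRing p

/-- the residue data of a place -/
noncomputable def Pl.dat (P : Pl p R) (n : ℕ) : ResDat p (LaurentSeries P.F) := wDat p P.F n

/-- the group of values -/
abbrev PV (p : ℕ) [Fact p.Prime] (R : Type u) [CommRing R] : Type (u + 1) :=
  ∀ (P : Pl p R) (n : ℕ), (P.dat n).B

theorem mapL_evd {F : Type u} [Field F] [CharP F p] [PerfectRing F p] (φ : R →+* LaurentSeries F)
    (n : ℕ) {H : Type v} [Group H] (χ : H →* F) (y : MonoidAlgebra (wDat p F n).A H)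
    (x : MonoidAlgebra R H)
    (h : MonoidAlgebra.mapRingHom H (wDat p F n).π y = MonoidAlgebra.mapRingHom H φ x) :
    (wDat p F n).π ((wDat p F n).evd ((wτ p F n).comp χ) y) = evF φ χ x := by
  have h1 : ∀ y : MonoidAlgebra (wDat p F n).A H,
      (wDat p F n).π ((wDat p F n).evd ((wτ p F n).comp χ) y) =
      evF (RingHom.id (LaurentSeries F)) χ (MonoidAlgebra.mapRingHom H (wDat p F n).π y) := by
    intro y
    induction y using MonoidAlgebra.induction_linear with
    | zero => simp
    | add x y hx hy => rw [map_add, map_add, hx, hy, map_add, map_add]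
    | single h a =>
      rw [(wDat p F n).evd_single, MonoidAlgebra.mapRingHom_single, evF,
        MonoidAlgebra.liftNCRingHom_single, map_mul]
      congr 1
      change mapL (wπ p F n) (HahnSeries.C (wτ p F n (χ h))) = HahnSeries.C (χ h)
      ext i
      rw [mapL_coeff, HahnSeries.C_apply, HahnSeries.C_apply, HahnSeries.coeff_single,
        HahnSeries.coeff_single]
      split_ifs
      · rw [wπ_wτ]
      · rw [map_zero]
  have h2 : ∀ x : MonoidAlgebra R H, evF (RingHom.id (LaurentSeries F)) χ
      (MonoidAlgebra.mapRingHom H φ x) = evF φ χ x := by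
    intro x
    induction x using MonoidAlgebra.induction_linear with
    | zero => simp
    | add x y hx hy => rw [map_add, map_add, hx, hy, map_add]
    | single h a =>
      rw [MonoidAlgebra.mapRingHom_single, evF, MonoidAlgebra.liftNCRingHom_single, evF,
        MonoidAlgebra.liftNCRingHom_single]
      rfl
  rw [h1, h, h2]

/-- Vanishing of the functionals of a place means vanishing of the valuations. -/
theorem order_eq_zero {F : Type u} [Field F] [CharP F p] [PerfectRing F p]
    (φ : R →+* LaurentSeries F) {H : Type v} [Group H] [Finite H]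
    (hc : ∀ a b : H, a * b = b * a) (x : (MonoidAlgebra R H)ˣ)
    (h : ∀ n c, (wDat p F n).elp ((wDat p F n).del c) (fun a b => by rw [hc]) (uMap φ H x) = 0)
    (χ : H →* F) : (evF φ χ (x : MonoidAlgebra R H)).order = 0 := by
  apply w_int p F
  intro n
  obtain ⟨y, hy⟩ := (wDat p F n).exists_lift_unit (uMap φ H x)
  have h1 := (wDat p F n).base_evd hc ((wτ p F n).comp χ) y (by
    intro c
    rw [hy]
    exact h n c)
  have h2 := base_dlog p (wπ p F n) (wπ_surjective p F n) (wπ_ker p F n) (n + 1) (w_nil p F n)
    (Units.map ((wDat p F n).evd ((wτ p F n).comp χ)).toMonoidHom y)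
  have h3 : (wDat p F n).π ((wDat p F n).evd ((wτ p F n).comp χ) (y : MonoidAlgebra _ H)) =
      evF φ χ (x : MonoidAlgebra R H) :=
    mapL_evd φ n χ _ _ (congrArg Units.val hy)
  have h4 : (((evF φ χ (x : MonoidAlgebra R H)).order : ℤ) : WB p F n) = 0 := by
    rw [← h3]
    exact h2.symm.trans h1
  exact h4

theorem elp_zero {k : Type u} [CommRing k] (d : ResDat p k) {H : Type v} [Group H]
    (f : H → d.B) (hf : ∀ x y, f (x * y) = f (y * x)) (h0 : ∀ a, f a = 0)
    (x : (MonoidAlgebra k H)ˣ) : d.elp f hf x = 0 := by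
  obtain ⟨x, rfl⟩ := d.exists_lift_unit x
  rw [d.elp_eq]
  have h1 : ∀ y : MonoidAlgebra d.A H, d.gf f y = 0 := by
    intro y
    induction y using MonoidAlgebra.induction_linear with
    | zero => simp
    | add x y hx hy => rw [map_add, hx, hy, add_zero]
    | single h a => rw [d.gf_single, h0, zero_mul]
  exact h1 _

/-- The system of valuations. -/
noncomputable def logSysP (p : ℕ) [hp : Fact p.Prime] (R : Type u) [CommRing R] [IsDomain R]
    [CharP R p] [Algebra.FiniteType ℤ R] : LogSys.{u, v, u + 1} R (PV p R) where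
  good m := ¬ p ∣ m
  good_dvd h1 h2 h3 := h2 (h3.trans h1)
  ell H _ _ _ c x := fun P n =>
    (P.dat n).elp ((P.dat n).del c) (fun a b => by rw [cyc_comm]) (uMap P.φ H x)
  ell_mul H _ _ _ c x y _ := by
    funext P n
    rw [map_mul, ResDat.elp_mul]
    rfl
  ell_map H H' _ _ _ _ _ _ ψ hψ c x _ := by
    funext P n
    rw [uMap_unitsMap]
    apply ResDat.elp_map
    intro a
    unfold ResDat.del
    congr 1
    rw [eq_iff_iff]
    exact hψ.eq_iff
  ell_map_zero H H' _ _ _ _ _ _ ψ hψ c' hc x _ := by
    funext P n
    rw [uMap_unitsMap]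
    have h1 := ResDat.elp_map (P.dat n) ψ ((P.dat n).del c') (fun a b => by rw [cyc_comm])
      (fun _ => 0) (fun _ _ => rfl) (fun a => if_neg (hc a)) (uMap P.φ H x)
    rw [h1, elp_zero _ _ _ (fun _ => rfl)]
    rfl
  ell_res H _ _ _ E _ c x _ := by
    funext P n
    rw [uMap_resU]
    exact (P.dat n).elp_res E c (uMap P.φ H x)
  detect H _ _ _ x hg h := by
    refine torsion_of_places p hg x ?_
    intro F _ _ φ hφ χ
    have hp0 : (p : F) = 0 := by
      have h1 : (p : LaurentSeries F) = 0 := by
        rw [← map_natCast φ, CharP.cast_eq_zero, map_zero]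
      have h2 : (HahnSeries.C (p : F) : LaurentSeries F) = 0 := by
        rw [map_natCast, h1]
      exact (map_eq_zero (HahnSeries.C : F →+* LaurentSeries F)).1 h2
    have : CharP F p := (CharP.charP_iff_prime_eq_zero hp.out).2 hp0
    have : PerfectRing F p := PerfectField.toPerfectRing p
    let P : Pl p R := ⟨F, inferInstance, inferInstance, inferInstance, φ⟩
    refine order_eq_zero φ cyc_comm x ?_ χ
    intro n c
    exact congrFun (congrFun (h c) P) n

end Pool.Agent.H71.KP

end
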