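import Pool.Agent.H13.TFQ.M16
import Pool.Agent.H13.TFQ.M19
import Pool.Agent.H13.TFQ.M42
import Pool.Agent.H13.TFQ.M49

/-! The parts of this file: H71.KP.Skew2_1, H71.KP.Gam. -/

section

/-!
# The homomorphism `Lam`
-/

set_option autoImplicit false
set_option linter.unusedSectionVars false

open Matrix

universe u v

namespace Pool.Agent.H71.KP

namespace TwTr

variable {p : ℕ} [hp : Fact p.Prime] {M : Type u} [Ring M] (t : TwTr p M)

/-- the value of `lam` on `1 + y N` for `tr y = 0` -/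
noncomputable def lamY (y : M) (hy : t.tr y = 0) : ℚ_[p] := t.lam (t.vU y 1 (t.cond_one hy))

theorem lam_congr {z z' : M} {g g' : Mˣ} (h : (g : M) = 1 + t.tr z)
    (h' : (g' : M) = 1 + t.tr z') (hz : z = z') : t.lam (t.vU z g h) = t.lam (t.vU z' g' h') := by
  subst hz
  have : g = g' := Units.ext (h.trans h'.symm)
  subst this
  rfl

theorem lamY_add {y y' : M} (hy : t.tr y = 0) (hy' : t.tr y' = 0)
    (h : t.tr (y + y') = 0) : t.lamY (y + y') h = t.lamY y hy + t.lamY y' hy' := by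
  rw [lamY, lamY, lamY, ← lam_mul,
    t.vU_mul (t.cond_one hy) (t.cond_one hy') (t.mul_add_cond (t.cond_one hy) (t.cond_one hy'))]
  apply t.lam_congr
  rw [Units.val_one, mul_one]

theorem lamY_nsmul {y : M} (hy : t.tr y = 0) (n : ℕ) (h : t.tr (n • y) = 0) :
    t.lamY (n • y) h = n * t.lamY y hy := by
  induction n with
  | zero =>
    have h0 : t.tr (0 : M) = 0 := map_zero _
    have e : t.lamY (0 • y) h = t.lamY 0 h0 := by
      rw [lamY, lamY]
      apply t.lam_congr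
      rw [zero_smul]
    have e2 : t.lamY 0 h0 = 0 := by
      rw [lamY]
      have : t.vU 0 1 (t.cond_one h0) = 1 := by
        apply Units.ext
        rw [vU_val, map_zero, add_zero, Units.val_one]
      rw [this, lam_one]
    rw [e, e2, Nat.cast_zero, zero_mul]
  | succ n ih =>
    have hn : t.tr (n • y) = 0 := by rw [map_nsmul, hy, smul_zero]
    have h2 : t.tr (n • y + y) = 0 := by rw [map_add, hn, hy, add_zero]
    have h3 : t.lamY ((n + 1) • y) h = t.lamY (n • y + y) h2 := by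
      rw [lamY, lamY]
      exact t.lam_congr _ _ (succ_nsmul y n)
    rw [h3, t.lamY_add hn hy, ih hn]
    push_cast
    ring

theorem lamY_eq_zero {y : M} (hy : t.tr y = 0) : t.lamY y hy = 0 := by
  have h1 : t.tr (p • y) = 0 := by rw [map_nsmul, hy, smul_zero]
  have h2 := t.lamY_nsmul hy p h1
  have h3 : t.lamY (p • y) h1 = 0 := by
    have e1 : (t.vU (p • y) 1 (t.cond_one h1) : t.S) = 1 + (p : t.S) * t.Zm y := by
      rw [vU_val, map_nsmul, nsmul_eq_mul]
    rw [lamY, t.lam_eq ⟨_, e1⟩, e1, L_one_add]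
    have e2 : tl t.τ ((p : t.S) * t.Zm y) = tl t.τ 0 := by
      apply tl_congr
      intro k
      rcases k with _ | k
      · rw [zero_add, pow_one, pow_one, map_p_mul, τ_Zm, t.κ_eq_zero hy, mul_zero, map_zero]
      · have e3 : ((p : t.S) * t.Zm y) * ((p : t.S) * t.Zm y) = 0 := by
          rw [mul_assoc, ← mul_assoc (t.Zm y), ← p_comm, mul_assoc, Zm_mul, hy, mul_zero, map_zero,
            mul_zero, mul_zero]
        rw [pow_succ, pow_succ, mul_assoc, e3, mul_zero, zero_pow (by omega)]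
    rw [e2, tl_zero]
  rw [h3] at h2
  have hp0 : (p : ℚ_[p]) ≠ 0 := by exact_mod_cast hp.out.ne_zero
  exact (mul_eq_zero.1 h2.symm).resolve_left hp0

/-- `lam (1 + z N)` does not depend on `z` -/
theorem lam_indep {z z' : M} {g g' : Mˣ} (h : (g : M) = 1 + t.tr z)
    (h' : (g' : M) = 1 + t.tr z') (hg : g = g') : t.lam (t.vU z g h) = t.lam (t.vU z' g' h') := by
  subst hg
  have hs : t.Fix ((g⁻¹ : Mˣ) : M) := (t.fix_of_cond h).inv
  set y := (z' - z) * ((g⁻¹ : Mˣ) : M) with hy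
  have hy0 : t.tr y = 0 := by
    rw [hy, t.tr_mul_fix _ hs, map_sub]
    have : t.tr z' - t.tr z = 0 := by
      rw [h] at h'
      rw [sub_eq_zero]
      exact (add_left_cancel h').symm
    rw [this, zero_mul]
  have h1 := t.vU_mul (t.cond_one hy0) h (t.mul_add_cond (t.cond_one hy0) h)
  have h2 : t.lam (t.vU z' g h') = t.lam (t.vU (y * g + z) (1 * g)
      (t.mul_add_cond (t.cond_one hy0) h)) := by
    apply t.lam_congr
    rw [hy, mul_assoc, Units.inv_mul, mul_one]
    abel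
  rw [h2, ← h1, lam_mul]
  have h3 := t.lamY_eq_zero hy0
  rw [lamY] at h3
  rw [h3, zero_add]

open scoped Classical in
/-- the homomorphism `Lam` -/
noncomputable def Lam (g : Mˣ) : ℚ_[p] :=
  if h : t.Adm g then t.lam (t.vU h.choose g h.choose_spec) else 0

theorem Lam_eq {z : M} {g : Mˣ} (h : (g : M) = 1 + t.tr z) : t.Lam g = t.lam (t.vU z g h) := by
  have h' : t.Adm g := ⟨z, h⟩
  rw [Lam, dif_pos h']
  exact t.lam_indep _ _ rfl

theorem Lam_mul {g g' : Mˣ} (h : t.Adm g) (h' : t.Adm g') :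
    t.Lam (g * g') = t.Lam g + t.Lam g' := by
  obtain ⟨z, hz⟩ := h
  obtain ⟨z', hz'⟩ := h'
  rw [t.Lam_eq (t.mul_add_cond hz hz'), ← t.vU_mul hz hz', lam_mul, t.Lam_eq hz, t.Lam_eq hz']

theorem Lam_conj {g w : Mˣ} (h : t.Adm g) (hw : t.Fix (w : M)) :
    t.Lam (w⁻¹ * g * w) = t.Lam g := by
  obtain ⟨z, hz⟩ := h
  rw [t.Lam_eq (t.conj_cond hz hw), t.Lam_eq hz,
    ← t.lam_conj (t.vU z g hz) (Units.map t.em.toMonoidHom w)]
  congr 1
  apply Units.ext
  rw [Units.val_mul, Units.val_mul, vU_val, vU_val, ← map_inv]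
  change _ = t.em ((w⁻¹ : Mˣ) : M) * (1 + t.Zm z) * t.em (w : M)
  rw [mul_add, mul_one, add_mul, ← map_mul, Units.inv_mul, map_one, em_mul_Zm,
    t.Zm_mul_em _ hw]

/-- The value of `Lam` on units `1 + p ^ 2 x` with `x` fixed. -/
theorem Lam_sq {x : M} (hx : t.Fix x) {g : Mˣ} (h : (g : M) = 1 + (p : M) ^ 2 * x) :
    p * t.Lam g = L t.κ (g : M) := by
  have hz : (g : M) = 1 + t.tr ((p : M) * x) := by
    rw [t.tr_fix_mul _ (Fix.natCast t p), t.tr_fix hx, h, pow_two, mul_assoc]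
  have e1 : (t.vU ((p : M) * x) g hz : t.S) = 1 + (p : t.S) * t.Zm x := by
    rw [vU_val, ← nsmul_eq_mul, map_nsmul, nsmul_eq_mul]
  rw [t.Lam_eq hz, t.lam_eq ⟨_, e1⟩, e1, h, L_one_add, L_one_add]
  have hpow : ∀ k : ℕ, ((p : t.S) * t.Zm x) ^ (k + 1) = (p : t.S) ^ (2 * k + 1) *
      t.Zm (x ^ (k + 1)) := by
    intro k
    induction k with
    | zero => simp
    | succ k ih =>
      have e2 : t.Zm (x ^ (k + 1)) * t.Zm x = (p : t.S) * t.Zm (x ^ (k + 1 + 1)) := by
        rw [Zm_mul, t.tr_fix hx, ← mul_assoc, ← p_comm (x ^ (k + 1)), mul_assoc, ← pow_succ,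
          ← nsmul_eq_mul, map_nsmul, nsmul_eq_mul]
      rw [pow_succ, ih, mul_assoc, ← mul_assoc (t.Zm (x ^ (k + 1))), ← p_comm, mul_assoc, e2,
        ← mul_assoc, ← mul_assoc, ← pow_succ, ← pow_succ]
      congr 2
  rw [tl, tl, ← tsum_mul_left]
  congr 1
  funext k
  rw [tlTerm, tlTerm, hpow, map_p_pow_mul, τ_Zm]
  have h4 : ((p : M) ^ 2 * x) ^ (k + 1) = (p : M) ^ (2 * (k + 1)) * x ^ (k + 1) := by
    rw [((Nat.cast_commute p x).pow_left 2).mul_pow, pow_mul]
  rw [h4, map_p_pow_mul]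
  push_cast
  rw [show 2 * (k + 1) = 2 * k + 1 + 1 by ring, pow_succ (p : ℚ_[p]) (2 * k + 1)]
  ring

end TwTr

end Pool.Agent.H71.KP

end

section

/-!
# The integral logarithm
-/

set_option autoImplicit false
set_option linter.unusedSectionVars false

open scoped TensorProduct
open Pool.Agent.H71.WH (unitExt unitExt_val)

universe u v w

namespace Pool.Agent.H71.KP

theorem grp_aux {H : Type u} [Group H] (a b c d : H) :
    (a * b)⁻¹ * (c * d) = (b⁻¹ * (a⁻¹ * c) * b) * (b⁻¹ * d) := by group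

namespace TwTr

variable {p : ℕ} [hp : Fact p.Prime] {M : Type u} [Ring M] (t : TwTr p M) {M' : Type v} [Ring M']
  (t' : TwTr p M') (j : M →+* M') (hact : ∀ i x, j (t.act i x) = t'.act i (j x))

/-- the induced map of skew rings -/
def skMap {A : Type} [AddCommGroup A] [Fintype A] [DecidableEq A] (π : A →+ ZMod p) :
    t.sk π →+* t'.sk π where
  toFun V := ⟨V.1.map j, by
    intro a b l
    change j (V.1 (a + l) (b + l)) = t'.act (π l) (j (V.1 a b))
    rw [V.2, hact]⟩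
  map_one' := Subtype.ext (by
    change (1 : Matrix A A M).map j = 1
    rw [Matrix.map_one _ (map_zero j) (map_one j)])
  map_zero' := Subtype.ext (by
    change (0 : Matrix A A M).map j = 0
    rw [Matrix.map_zero _ (map_zero j)])
  map_add' V W := Subtype.ext (Matrix.map_add j (map_add j) V.1 W.1)
  map_mul' V W := Subtype.ext (Matrix.map_mul (f := j))

theorem skMap_apply {A : Type} [AddCommGroup A] [Fintype A] [DecidableEq A] (π : A →+ ZMod p)
    (V : t.sk π) (a b : A) : (t.skMap t' j hact π V).1 a b = j (V.1 a b) := rfl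

include hact in
theorem lam_map (hκ : ∀ x, t'.κ (j x) = t.κ x) (v : t.Sˣ) :
    t'.lam (Units.map (t.skMap t' j hact _).toMonoidHom v) = t.lam v := by
  let JB : t.B →+* t'.B := t.skMap t' j hact _
  have h1 : ∀ V : t.S, t'.ι (t.skMap t' j hact _ V) = JB (t.ι V) := by
    intro V
    apply Subtype.ext
    ext a b
    rw [skMap_apply, ι_apply, ι_apply, skMap_apply]
    split_ifs
    · rfl
    · rw [map_zero]
  have h2 : ∀ V : t.S, t'.θ (t.skMap t' j hact _ V) = JB (t.θ V) := by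
    intro V
    apply Subtype.ext
    ext a b
    rw [skMap_apply, θ_apply, θ_apply, skMap_apply]
    split_ifs
    · rfl
    · rw [map_zero]
  have h3 : Units.map t'.ι.toMonoidHom (Units.map (t.skMap t' j hact _).toMonoidHom v) =
      Units.map JB.toMonoidHom (Units.map t.ι.toMonoidHom v) := Units.ext (h1 v)
  rw [lam, lam, h3, ← map_inv]
  have h4 : ((Units.map JB.toMonoidHom (Units.map t.ι.toMonoidHom v)⁻¹ : t'.Bˣ) : t'.B) *
      t'.θ (Units.map (t.skMap t' j hact _).toMonoidHom v : t'.Sˣ) =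
      JB (((Units.map t.ι.toMonoidHom v)⁻¹ : t.Bˣ) * t.θ v) := by
    rw [map_mul, ← h2]
    rfl
  rw [h4, L_map]
  apply L_congr_fun
  intro r
  change t'.κ (j (r.1 0 (1, 1))) = t.κ (r.1 0 (1, 1))
  rw [hκ]

/-- the fixed subring -/
def fixSub : Subring M where
  carrier := {x | t.Fix x}
  mul_mem' hx hy := hx.mul t hy
  one_mem' := Fix.one t
  add_mem' hx hy := hx.add t hy
  zero_mem' := fun i => map_zero _
  neg_mem' := by
    intro x hx i
    rw [map_neg, hx i]

theorem κ_fix_comm : ∀ a ∈ t.fixSub, ∀ b ∈ t.fixSub, t.κ (a * b) = t.κ (b * a) := by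
  intro a ha b _
  rw [t.tw, ha 1]

end TwTr

/-- An algebra with a multiplicative lift of the diagonal power to the tensor power. -/
structure PowAlg (p : ℕ) [Fact p.Prime] (A : Type u) [Ring A] [Algebra ℤ_[p] A] where
  /-- the map -/
  Ψ : A →ₙ+* TP p A
  fix : ∀ i a, sh p i (Ψ a) = Ψ a
  cond : ∀ a, ∃ z, TT p a - Ψ a = ∑ i, sh p i z

section

variable {p : ℕ} [hp : Fact p.Prime] {A : Type u} [Ring A] [Algebra ℤ_[p] A] (P : PowAlg p A)
  (τ : A →ₗ[ℤ_[p]] ℤ_[p]) (hτ : ∀ a b, τ (a * b) = τ (b * a))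

/-- the extension to units -/
noncomputable def PowAlg.U : Aˣ →* (TP p A)ˣ := unitExt P.Ψ

theorem PowAlg.U_val (u : Aˣ) : (P.U u : TP p A) = P.Ψ u + (1 - P.Ψ 1) := rfl

/-- the quotient -/
noncomputable def PowAlg.gg (u : Aˣ) : (TP p A)ˣ := (P.U u)⁻¹ * TU p u

theorem PowAlg.gg_mul (u w : Aˣ) : P.gg (u * w) = ((P.U w)⁻¹ * P.gg u * P.U w) * P.gg w := by
  rw [gg, gg, gg, map_mul, map_mul]
  exact grp_aux _ _ _ _

theorem PowAlg.fix_U (u : Aˣ) : (tG p τ hτ).Fix (P.U u : TP p A) := by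
  intro i
  rw [P.U_val, map_add, map_sub, map_one, tG_act, tG_act, P.fix, P.fix]

theorem fix_TT (a : A) : (tG p τ hτ).Fix (TT p a) := fun i => sh_TT p i a

theorem PowAlg.gg_adm (u : Aˣ) : (tG p τ hτ).Adm (P.gg u) := by
  obtain ⟨z, hz⟩ := P.cond u
  obtain ⟨y, hy⟩ := P.cond 1
  refine ⟨((P.U u)⁻¹ : (TP p A)ˣ) * (z - y), ?_⟩
  have h1 : (tG p τ hτ).tr (z - y) = TT p (u : A) - P.U u := by
    have e1 : (tG p τ hτ).tr z = TT p (u : A) - P.Ψ u := hz.symm
    have e2 : (tG p τ hτ).tr y = 1 - P.Ψ 1 := by rw [← TT_one p]; exact hy.symm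
    rw [map_sub, e1, e2, P.U_val]
    abel
  rw [TwTr.tr_fix_mul _ _ (TwTr.Fix.inv _ (P.fix_U τ hτ u)), h1, mul_sub, Units.inv_mul,
    PowAlg.gg, Units.val_mul, TU_val]
  abel

/-- the functional `kap ∘ Ψ` -/
noncomputable def PowAlg.frob : A →+ ℤ_[p] := (kap p τ).toAddMonoidHom.comp P.Ψ.toAddMonoidHom

theorem PowAlg.frob_apply (a : A) : P.frob τ a = kap p τ (P.Ψ a) := rfl

theorem PowAlg.map_nat_mul (n : ℕ) (x : A) : P.Ψ ((n : A) * x) = (n : TP p A) * P.Ψ x := by
  rw [← nsmul_eq_mul, ← nsmul_eq_mul]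
  exact map_nsmul P.Ψ.toAddMonoidHom n x

section Nat

variable {A' : Type v} [Ring A'] [Algebra ℤ_[p] A'] (P' : PowAlg p A')
  (τ' : A' →ₗ[ℤ_[p]] ℤ_[p]) (hτ' : ∀ a b, τ' (a * b) = τ' (b * a)) (φ : A →ₐ[ℤ_[p]] A')

/-- the induced map of tensor powers -/
noncomputable def tpMap : TP p A →ₐ[ℤ_[p]] TP p A' :=
  PiTensorProduct.liftAlgHom
    ((PiTensorProduct.tprod ℤ_[p] (s := fun _ : ZMod p => A')).compLinearMap
      (fun _ => φ.toLinearMap))
    (by
      change tp p (fun _ => φ 1) = 1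
      rw [map_one]
      rfl) (by
      intro x y
      change tp p (fun j => φ (x j * y j)) = tp p (fun j => φ (x j)) * tp p (fun j => φ (y j))
      rw [tp_mul]
      simp only [map_mul])

theorem tpMap_tp (m : ZMod p → A) : tpMap φ (tp p m) = tp p (fun j => φ (m j)) := by
  change PiTensorProduct.lift _ (PiTensorProduct.tprod ℤ_[p] m) = _
  rw [PiTensorProduct.lift.tprod]
  rfl

theorem tpMap_sh (i : ZMod p) (x : TP p A) : tpMap φ (sh p i x) = sh p i (tpMap φ x) := by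
  induction x using tp_induction with
  | h1 r m => rw [map_smul, map_smul, map_smul, map_smul, sh_tp, tpMap_tp, tpMap_tp, sh_tp]
  | h2 x y hx hy => rw [map_add, map_add, map_add, map_add, hx, hy]

theorem oprod_map (φ : A →ₐ[ℤ_[p]] A') (f : ℕ → A) (n : ℕ) :
    φ (oprod f n) = oprod (fun i => φ (f i)) n := by
  induction n with
  | zero => rw [oprod_zero, oprod_zero, map_one]
  | succ n ih => rw [oprod_succ, oprod_succ, map_mul, ih]

theorem kap_tpMap (h : ∀ a, τ' (φ a) = τ a) (x : TP p A) : kap p τ' (tpMap φ x) = kap p τ x := by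
  induction x using tp_induction with
  | h1 r m =>
    rw [map_smul, map_smul, map_smul, tpMap_tp, kap_tp, kap_tp, ← h, oprod_map]
  | h2 x y hx hy => rw [map_add, map_add, map_add, hx, hy]

end Nat

end

end Pool.Agent.H71.KP

end
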