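import Pool.Agent.H13.TFQ.M27
import Pool.Agent.H13.TFQ.M29
import Pool.Agent.H13.TFQ.M35
import Pool.Agent.H13.TFQ.M43
import Pool.Agent.H13.TFQ.M50
import Pool.Agent.H13.TFQ.M58

/-! The parts of this file: H71.KP.Gam_1, H71.KP.GL_1, H71.KP.Fun, H71.KP.Col. -/

section

/-!
# The integral logarithm
-/

set_option autoImplicit false
set_option linter.unusedSectionVars false

open scoped TensorProduct
open Pool.Agent.H71.WH (unitExt unitExt_val)

universe u v w

namespace Pool.Agent.H71.KP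

namespace TwTr

variable {p : ℕ} [hp : Fact p.Prime] {M : Type u} [Ring M] (t : TwTr p M) {M' : Type v} [Ring M']
  (t' : TwTr p M') (j : M →+* M') (hact : ∀ i x, j (t.act i x) = t'.act i (j x))

include hact in
theorem Lam_map (hκ : ∀ x, t'.κ (j x) = t.κ x) {g : Mˣ} (hg : t.Adm g) :
    t'.Lam (Units.map j.toMonoidHom g) = t.Lam g := by
  obtain ⟨z, hz⟩ := hg
  have hz' : ((Units.map j.toMonoidHom g : M'ˣ) : M') = 1 + t'.tr (j z) := by
    change j g = _
    rw [hz, map_add, map_one, tr_apply, tr_apply, map_sum]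
    simp only [hact]
  rw [t'.Lam_eq hz', t.Lam_eq hz, ← t.lam_map t' j hact hκ]
  congr 1
  apply Units.ext
  apply Subtype.ext
  ext a b
  change (1 : Matrix (ZMod p) (ZMod p) M') a b + t'.act a (j z) =
    j ((1 : Matrix (ZMod p) (ZMod p) M) a b + t.act a z)
  rw [map_add, hact, Matrix.one_apply, Matrix.one_apply]
  split_ifs <;> simp

end TwTr

section

variable {p : ℕ} [hp : Fact p.Prime] {A : Type u} [Ring A] [Algebra ℤ_[p] A] (P : PowAlg p A)
  (τ : A →ₗ[ℤ_[p]] ℤ_[p]) (hτ : ∀ a b, τ (a * b) = τ (b * a))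

/-- **The integral logarithm.** -/
noncomputable def PowAlg.Gam (u : Aˣ) : ℚ_[p] := (tG p τ hτ).Lam (P.gg u)

theorem PowAlg.Gam_mul (u w : Aˣ) : P.Gam τ hτ (u * w) = P.Gam τ hτ u + P.Gam τ hτ w := by
  rw [Gam, P.gg_mul, TwTr.Lam_mul _ (TwTr.Adm.conj _ (P.gg_adm τ hτ u) (P.fix_U τ hτ w))
    (P.gg_adm τ hτ w), TwTr.Lam_conj _ (P.gg_adm τ hτ u) (P.fix_U τ hτ w)]
  rfl

theorem PowAlg.Gam_one : P.Gam τ hτ 1 = 0 := by
  have := P.Gam_mul τ hτ 1 1
  rw [mul_one] at this
  exact (add_eq_left.1 this.symm)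

theorem PowAlg.Gam_pow (u : Aˣ) (k : ℕ) : P.Gam τ hτ (u ^ k) = k * P.Gam τ hτ u := by
  induction k with
  | zero => rw [pow_zero, P.Gam_one]; simp
  | succ k ih => rw [pow_succ, P.Gam_mul, ih]; push_cast; ring

theorem exists_TT_eq (n : ℕ) (x : A) : ∃ Y : TP p A, TT p (1 + (n : A) * x) = 1 + (n : TP p A) * Y := by
  classical
  have h1 : TT p (1 + (n : A) * x) = ∑ s, mx p ((n : A) * x) 1 s := by
    rw [add_comm]
    exact (PiTensorProduct.tprod ℤ_[p] (s := fun _ : ZMod p => A)).map_add_univ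
      (fun _ => (n : A) * x) (fun _ => 1)
  have h2 : ∀ s : Finset (ZMod p), mx p ((n : A) * x) 1 s = (n : ℤ_[p]) ^ s.card • mx p x 1 s := by
    intro s
    have h := (PiTensorProduct.tprod ℤ_[p] (s := fun _ : ZMod p => A)).map_piecewise_smul
      (fun _ => (n : ℤ_[p])) (s.piecewise (fun _ => x) (fun _ => 1)) s
    rw [Finset.prod_const] at h
    rw [mx, mx, ← h]
    congr 1
    funext l
    by_cases hl : l ∈ s
    · rw [Finset.piecewise_eq_of_mem _ _ _ hl, Finset.piecewise_eq_of_mem _ _ _ hl,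
        Finset.piecewise_eq_of_mem _ _ _ hl, Nat.cast_smul_eq_nsmul, nsmul_eq_mul]
    · rw [Finset.piecewise_eq_of_notMem _ _ _ hl, Finset.piecewise_eq_of_notMem _ _ _ hl,
        Finset.piecewise_eq_of_notMem _ _ _ hl]
  refine ⟨∑ s ∈ Finset.univ.erase ∅, (n : ℤ_[p]) ^ (s.card - 1) • mx p x 1 s, ?_⟩
  have he : mx p ((n : A) * x) 1 ∅ = 1 := by
    rw [mx, Finset.piecewise_empty]
    rfl
  rw [h1, ← Finset.add_sum_erase _ _ (Finset.mem_univ ∅), he, Finset.mul_sum]
  refine congrArg (fun z => 1 + z) ?_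
  apply Finset.sum_congr rfl
  intro s hs
  have hs' : 0 < s.card := Finset.card_pos.2
    (Finset.nonempty_iff_ne_empty.2 (Finset.mem_erase.1 hs).1)
  rw [h2, ← nsmul_eq_mul, ← Nat.cast_smul_eq_nsmul ℤ_[p], smul_smul, ← pow_succ']
  congr 2
  omega

/-- The value of the integral logarithm on units congruent to `1` modulo `p ^ 2`. -/
theorem PowAlg.Gam_sq [Module.Free ℤ_[p] A] {u : Aˣ} {x : A}
    (hu : (u : A) = 1 + ((p ^ 2 : ℕ) : A) * x) :
    p * P.Gam τ hτ u = p * L (tauA p τ) (u : A) - L (P.frob τ) (u : A) := by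
  set t := tG p τ hτ with ht
  have hp0 : p ≠ 0 := hp.out.ne_zero
  have hp2 : p ^ 2 ≠ 0 := pow_ne_zero _ hp0
  have hκ : t.κ = kapA p τ := rfl
  obtain ⟨Y, hY⟩ := exists_TT_eq (p := p) (p ^ 2) x
  have hU : (P.U u : TP p A) = 1 + ((p ^ 2 : ℕ) : TP p A) * P.Ψ x := by
    rw [P.U_val, hu, map_add, P.map_nat_mul]
    abel
  set Q := (((P.U u)⁻¹ : (TP p A)ˣ) : TP p A) with hQ
  have hQU : Q * (P.U u : TP p A) = 1 := by rw [hQ, Units.inv_mul]
  have fU : t.Fix (P.U u : TP p A) := P.fix_U τ hτ u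
  have fQ : t.Fix Q := TwTr.Fix.inv _ fU
  have hg : (P.gg u : TP p A) = Q * TT p (u : A) := by
    rw [PowAlg.gg, Units.val_mul, TU_val]
  have fT : t.Fix (TT p (u : A)) := fix_TT τ hτ _
  have hg2 : (P.gg u : TP p A) = 1 + (p : TP p A) ^ 2 * (Q * (Y - P.Ψ x)) := by
    have e1 : TT p (u : A) = P.U u + ((p ^ 2 : ℕ) : TP p A) * (Y - P.Ψ x) := by
      rw [hu, hY, hU, mul_sub]
      abel
    rw [hg, e1, mul_add, hQU, ← mul_assoc, ← (Nat.cast_commute (p ^ 2) Q).eq, mul_assoc,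
      Nat.cast_pow]
  have fX : t.Fix (Q * (Y - P.Ψ x)) := by
    apply fix_of_mul p t hp2
    have e1 : ((p ^ 2 : ℕ) : TP p A) * (Q * (Y - P.Ψ x)) = (P.gg u : TP p A) - 1 := by
      rw [hg2, Nat.cast_pow]
      abel
    rw [e1]
    exact TwTr.Fix.sub _ (by rw [hg]; exact TwTr.Fix.mul _ fQ fT) (TwTr.Fix.one _)
  have h1 := t.Lam_sq fX hg2
  have h2 : L t.κ (P.gg u : TP p A) = L t.κ Q + L t.κ (TT p (u : A)) ∧
      L t.κ Q + L t.κ (P.U u : TP p A) = 0 := by
    have eT : TT p (u : A) = 1 + (p : TP p A) * ((p : TP p A) * Y) := by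
      rw [hu, hY, Nat.cast_pow, pow_two, mul_assoc]
    have fY : t.Fix ((p : TP p A) * Y) := by
      apply fix_of_mul p t hp0
      have : (p : TP p A) * ((p : TP p A) * Y) = TT p (u : A) - 1 := by rw [eT]; abel
      rw [this]
      exact TwTr.Fix.sub _ fT (TwTr.Fix.one _)
    have eU : (P.U u : TP p A) = 1 + (p : TP p A) * ((p : TP p A) * P.Ψ x) := by
      rw [hU, Nat.cast_pow, pow_two, mul_assoc]
    have fPsi : t.Fix ((p : TP p A) * P.Ψ x) :=
      TwTr.Fix.mul _ (TwTr.Fix.natCast _ p) (fun i => P.fix i x)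
    have eQ : Q = 1 + (p : TP p A) * (-(Q * ((p : TP p A) * P.Ψ x))) := by
      have e2 : Q * (1 + (p : TP p A) * ((p : TP p A) * P.Ψ x)) = 1 := by rw [← eU, hQU]
      rw [mul_add, mul_one, ← mul_assoc Q, ← p_comm Q, mul_assoc] at e2
      rw [mul_neg, ← sub_eq_add_neg]
      exact eq_sub_of_add_eq e2
    have fq : t.Fix (-(Q * ((p : TP p A) * P.Ψ x))) := by
      intro i
      rw [map_neg, map_mul, fQ i, fPsi i]
    have m1 := L_mul_sub t.κ t.fixSub t.κ_fix_comm (x := -(Q * ((p : TP p A) * P.Ψ x)))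
      (y := (p : TP p A) * Y) fq fY
    have m2 := L_mul_sub t.κ t.fixSub t.κ_fix_comm (x := -(Q * ((p : TP p A) * P.Ψ x)))
      (y := (p : TP p A) * P.Ψ x) fq fPsi
    rw [← eQ, ← eT] at m1
    rw [← eQ, ← eU, hQU, L_one] at m2
    exact ⟨by rw [hg]; exact m1, m2.symm⟩
  have h3 : L t.κ (TT p (u : A)) = p * L (tauA p τ) (u : A) := by
    have e1 : (u : A) = 1 + (p : A) * ((p : A) * x) := by
      rw [hu, Nat.cast_pow, pow_two, mul_assoc]
    rw [hκ, e1]
    exact L_TT p τ hτ _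
  have h4 : L t.κ (P.U u : TP p A) = L (P.frob τ) (u : A) := by
    have e1 : (P.U u : TP p A) = 1 + P.Ψ (((p ^ 2 : ℕ) : A) * x) := by
      rw [hU, P.map_nat_mul]
    rw [e1, hu, L_one_add, L_one_add, hκ]
    exact tl_nonUnital P.Ψ (P.frob τ) (kapA p τ) (fun a => rfl) _
  have h5 : p * P.Gam τ hτ u = L t.κ (P.gg u : TP p A) := h1
  rw [h5, h2.1, h3, ← h4]
  linear_combination h2.2

section Nat

variable {A' : Type v} [Ring A'] [Algebra ℤ_[p] A'] (P' : PowAlg p A')
  (τ' : A' →ₗ[ℤ_[p]] ℤ_[p]) (hτ' : ∀ a b, τ' (a * b) = τ' (b * a)) (φ : A →ₐ[ℤ_[p]] A')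

theorem PowAlg.Gam_map (hΨ : ∀ a, P'.Ψ (φ a) = tpMap φ (P.Ψ a)) (h : ∀ a, τ' (φ a) = τ a)
    (u : Aˣ) : P'.Gam τ' hτ' (Units.map (φ : A →* A') u) = P.Gam τ hτ u := by
  have h1 : P'.gg (Units.map (φ : A →* A') u) =
      Units.map (tpMap φ : TP p A →+* TP p A').toMonoidHom (P.gg u) := by
    rw [PowAlg.gg, PowAlg.gg, map_mul, map_inv]
    congr 2
    · apply Units.ext
      change P'.Ψ (φ u) + (1 - P'.Ψ 1) = tpMap φ (P.Ψ u + (1 - P.Ψ 1))
      have e1 : tpMap φ (P.Ψ 1) = P'.Ψ 1 := by rw [← hΨ, map_one φ]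
      rw [hΨ, map_add, map_sub, e1, map_one (tpMap φ)]
    · apply Units.ext
      change TT p (φ u) = tpMap φ (TT p (u : A))
      rw [TT, TT, tpMap_tp]
  rw [PowAlg.Gam, PowAlg.Gam, h1]
  exact (tG p τ hτ).Lam_map (tG p τ' hτ') _ (fun i x => tpMap_sh φ i x)
    (fun x => kap_tpMap τ τ' φ h x) (P.gg_adm τ hτ u)

end Nat

end

end Pool.Agent.H71.KP

end

section

/-!
# The integral logarithm of matrices over `ℤ_[p][G]`
-/

set_option autoImplicit false
set_option linter.unusedSectionVars false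

open scoped TensorProduct

universe u v w

namespace Pool.Agent.H71.KP

variable (p : ℕ) [hp : Fact p.Prime]

section Fn

end Fn

section Mat

variable (G : Type u) [Group G] (n : ℕ)

variable {G n}

/-- the structure -/
noncomputable def PA (G : Type u) [Group G] (n : ℕ) : PowAlg p (MG p G n) where
  Ψ := Psi p G n
  fix := by
    intro i a
    induction a using MG_induction with
    | h0 => rw [map_zero, map_zero]
    | ha x y hx hy => rw [map_add, map_add, hx, hy]
    | h1 r j k g => rw [Psi_smul_EE, map_smul, DD, sh_TT]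
  cond := by
    intro a
    induction a using MG_induction with
    | h0 => exact ⟨0, by simp [TT_zero]⟩
    | ha x y hx hy =>
      obtain ⟨z, hz⟩ := hx
      obtain ⟨z', hz'⟩ := hy
      obtain ⟨z'', hz''⟩ := TT_add p (0 : MG p G n →ₗ[ℤ_[p]] ℤ_[p]) (fun _ _ => rfl) x y
      refine ⟨z'' + z + z', ?_⟩
      have e : ∀ y, (tG p (0 : MG p G n →ₗ[ℤ_[p]] ℤ_[p]) (fun _ _ => rfl)).tr y =
        ∑ i, sh p i y := fun _ => rfl
      rw [e] at hz''
      simp only [map_add, Finset.sum_add_distrib]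
      rw [← hz'', ← hz, ← hz']
      abel
    | h1 r i k g =>
      obtain ⟨z, hz⟩ := TT_smul_sub p (0 : MG p G n →ₗ[ℤ_[p]] ℤ_[p]) (fun _ _ => rfl) r
        (EE p i k g)
      refine ⟨z, ?_⟩
      rw [Psi_smul_EE]
      exact hz

theorem frob_eq (f : G → ℤ_[p]) (w : MG p G n) :
    (PA p G n).frob (trf p f n) w = trf p (fun g => f (g ^ p)) n w := by
  have hp1 := hp.out.one_lt
  induction w using MG_induction with
  | h0 => rw [map_zero, map_zero]
  | ha x y hx hy => rw [map_add, map_add, hx, hy]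
  | h1 r i k g =>
    rw [PowAlg.frob_apply, (trf p (fun g => f (g ^ p)) n).map_smul, trf_EE]
    change kap p _ (Psi p G n (r • EE p i k g)) = _
    rw [Psi_smul_EE, map_smul, DD, TT, kap_tp, oprod_const]
    obtain ⟨q, hq⟩ : ∃ q, p = q + 1 := ⟨p - 1, by omega⟩
    have hq0 : q ≠ 0 := by omega
    congr 1
    conv_lhs => rw [show (EE p i k g) ^ p = (EE p i k g) ^ (q + 1) by rw [← hq]]
    rw [EE_pow]
    by_cases h : i = k
    · rw [if_pos (Or.inl h), trf_EE, if_pos h, if_pos h, ← hq]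
    · rw [if_neg (by simp [h, hq0]), if_neg h, map_zero]

variable (f : G → ℤ_[p]) (hf : ∀ x y, f (x * y) = f (y * x))

/-- the integral logarithm on `GL_n(ℤ_[p][G])` -/
noncomputable def Gam (n : ℕ) (u : (MG p G n)ˣ) : ℚ_[p] :=
  (PA p G n).Gam (trf p f n) (trf_comm p f hf) u

theorem Gam_mul (u w : (MG p G n)ˣ) : Gam p f hf n (u * w) = Gam p f hf n u + Gam p f hf n w :=
  PowAlg.Gam_mul _ _ _ _ _

theorem Gam_pow (u : (MG p G n)ˣ) (k : ℕ) : Gam p f hf n (u ^ k) = k * Gam p f hf n u :=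
  PowAlg.Gam_pow _ _ _ _ _

theorem Gam_sq {u : (MG p G n)ˣ} {x : MG p G n}
    (hu : (u : MG p G n) = 1 + ((p ^ 2 : ℕ) : MG p G n) * x) :
    p * Gam p f hf n u = p * L (trA p f n) (u : MG p G n) -
      L (trA p (fun g => f (g ^ p)) n) (u : MG p G n) := by
  rw [Gam, PowAlg.Gam_sq _ _ _ hu]
  congr 1
  exact L_congr_fun (fun r => frob_eq p f r) _

end Mat

section Nat

variable {G : Type u} [Group G] {H : Type v} [Group H] (φ : G →* H) (n : ℕ)

theorem Gam_map (f : H → ℤ_[p]) (hf : ∀ x y, f (x * y) = f (y * x)) (f' : G → ℤ_[p])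
    (hf' : ∀ x y, f' (x * y) = f' (y * x)) (h : ∀ x, f (φ x) = f' x) (u : (MG p G n)ˣ) :
    Gam p f hf n (Units.map (glA p φ n : MG p G n →* MG p H n) u) = Gam p f' hf' n u := by
  apply PowAlg.Gam_map
  · intro a
    induction a using MG_induction with
    | h0 => rw [map_zero, map_zero, map_zero, map_zero]
    | ha x y hx hy =>
      rw [map_add (glA p φ n), map_add, hx, hy, map_add (PA p G n).Ψ, map_add]
    | h1 r i k g =>
      rw [glA_EE]
      change Psi p H n _ = tpMap _ (Psi p G n _)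
      rw [Psi_smul_EE, Psi_smul_EE, map_smul, DD, DD, TT, TT, tpMap_tp]
      have := glA_EE p φ n 1 i k g
      rw [one_smul, one_smul] at this
      rw [this]
  · intro a
    induction a using MG_induction with
    | h0 => rw [map_zero, map_zero, map_zero]
    | ha x y hx hy => rw [map_add, map_add, hx, hy, map_add]
    | h1 r i k g =>
      rw [glA_EE, map_smul, map_smul, trf_EE, trf_EE, h]

end Nat

end Pool.Agent.H71.KP

end

section

/-!
# The functionals on `K₁(ℤ_[p][G])`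
-/

set_option autoImplicit false
set_option linter.unusedSectionVars false
set_option linter.unusedSimpArgs false

open Matrix Filter
open scoped Classical

universe u v w

namespace Pool.Agent.H71.KP

open Pool.Agent.H71.WH (emb emb_apply unitExt unitExt_val emb_comp emb_map blockOne_eq InvMat K1 K1.mk K1.unit K1Rel genK1 addOne oneByOne blockOne CycSub conjHom K1.mk_mul K1.unit_mul emb_zero_left)

variable {p : ℕ} [hp : Fact p.Prime] {G : Type u} [Group G] (f : G → ℤ_[p])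
  (hf : ∀ x y, f (x * y) = f (y * x))

/-- the values on the stabilisations -/
noncomputable def gfun {n : ℕ} (x : (MG p G n)ˣ) (N : ℕ) : ℚ_[p] :=
  if h : n ≤ N then Gam p f hf N (stU h x) else 0

/-- the germ of the values -/
noncomputable def GG {n : ℕ} (x : (MG p G n)ˣ) : Germ (atTop : Filter ℕ) ℚ_[p] :=
  (gfun f hf x : ℕ → ℚ_[p])

theorem GG_mul {n : ℕ} (x y : (MG p G n)ˣ) : GG f hf (x * y) = GG f hf x + GG f hf y := by
  rw [GG, GG, GG, ← Germ.coe_add]
  refine Germ.coe_eq.2 ?_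
  filter_upwards [eventually_ge_atTop n] with N hN
  rw [Pi.add_apply, gfun, gfun, gfun, dif_pos hN, dif_pos hN, dif_pos hN, map_mul, Gam_mul]

theorem GG_addOne {n : ℕ} (x : (MG p G n)ˣ) : GG f hf (addOne x) = GG f hf x := by
  rw [GG, GG]
  refine Germ.coe_eq.2 ?_
  filter_upwards [eventually_ge_atTop (n + 1)] with N hN
  rw [gfun, gfun, dif_pos hN, dif_pos ((Nat.le_succ n).trans hN), stU_addOne]

/-- the functional on the free abelian group -/
noncomputable def GamFree : FreeAbelianGroup (InvMat (MonoidAlgebra ℤ_[p] G)) →+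
    Germ (atTop : Filter ℕ) ℚ_[p] := FreeAbelianGroup.lift fun a => GG f hf a.mat

theorem GamFree_le : K1Rel (MonoidAlgebra ℤ_[p] G) ≤ (GamFree f hf).ker := by
  rw [K1Rel, AddSubgroup.closure_le]
  rintro z (⟨n, x, y, rfl⟩ | ⟨n, x, rfl⟩)
  · change GamFree f hf (genK1 (x * y) - (genK1 x + genK1 y)) = 0
    rw [GamFree, map_sub, map_add, genK1, genK1, genK1, FreeAbelianGroup.lift_apply_of,
      FreeAbelianGroup.lift_apply_of, FreeAbelianGroup.lift_apply_of]
    exact sub_eq_zero.2 (GG_mul f hf x y)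
  · change GamFree f hf (genK1 (addOne x) - genK1 x) = 0
    rw [GamFree, map_sub, genK1, genK1, FreeAbelianGroup.lift_apply_of,
      FreeAbelianGroup.lift_apply_of]
    exact sub_eq_zero.2 (GG_addOne f hf x)

/-- the functional on `K₁` -/
noncomputable def GamK1 : K1 (MonoidAlgebra ℤ_[p] G) →+ Germ (atTop : Filter ℕ) ℚ_[p] :=
  QuotientAddGroup.lift (K1Rel _) (GamFree f hf) (GamFree_le f hf)

theorem GamK1_mk {n : ℕ} (x : (MG p G n)ˣ) : GamK1 f hf (K1.mk x) = GG f hf x :=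
  FreeAbelianGroup.lift_apply_of _ _

/-- the stabilisation of a unit -/
noncomputable def sU {A : Type u} [Ring A] {N : ℕ} (h : 1 ≤ N) : Aˣ →* (Matrix (Fin N) (Fin N) A)ˣ :=
  (stU h).comp (Units.map (scalar (Fin 1)).toMonoidHom)

theorem GamK1_unit (x : (MonoidAlgebra ℤ_[p] G)ˣ) (a : ℚ_[p])
    (h : ∀ (N : ℕ) (hN : 1 ≤ N), Gam p f hf N (sU hN x) = a) :
    GamK1 f hf (K1.unit x) = (a : Germ (atTop : Filter ℕ) ℚ_[p]) := by
  rw [K1.unit, GamK1_mk, GG]
  refine Germ.coe_eq.2 ?_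
  filter_upwards [eventually_ge_atTop 1] with N hN
  rw [gfun, dif_pos hN]
  exact h N hN

section Map

variable {H : Type v} [Group H] (φ : H →* G)

theorem sU_map {N : ℕ} (h : 1 ≤ N) (x : (MonoidAlgebra ℤ_[p] H)ˣ) :
    Units.map (glA p φ N : MG p H N →* MG p G N) (sU h x) = sU h (unitsMap φ x) := by
  have h1 := mapGL_stU (MonoidAlgebra.mapDomainRingHom ℤ_[p] φ) h (oneByOne x)
  rw [mapGL_oneByOne] at h1
  exact h1

theorem Gam_sU_map (f' : H → ℤ_[p]) (hf' : ∀ x y, f' (x * y) = f' (y * x))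
    (h : ∀ x, f (φ x) = f' x) {N : ℕ} (hN : 1 ≤ N) (x : (MonoidAlgebra ℤ_[p] H)ˣ) :
    Gam p f hf N (sU hN (unitsMap φ x)) = Gam p f' hf' N (sU hN x) := by
  rw [← sU_map, Gam_map p φ N f hf f' hf' h]

end Map

theorem Gam_one (N : ℕ) : Gam p f hf N 1 = 0 := by
  have := Gam_mul p f hf (n := N) 1 1
  rw [mul_one] at this
  exact add_eq_left.1 this.symm

theorem Gam_eq_zero_of_pow {N : ℕ} (u : (MG p G N)ˣ) (n : ℕ) (hn : n ≠ 0)
    (h : Gam p f hf N (u ^ n) = 0) : Gam p f hf N u = 0 := by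
  rw [Gam_pow] at h
  rcases mul_eq_zero.1 h with h | h
  · exact absurd (by exact_mod_cast h) hn
  · exact h

/-- The functional vanishes on the elements of `G`. -/
theorem Gam_gUnit (hfin : ∀ g, f g ≠ 0 → IsOfFinOrder g) (g : G) {N : ℕ} (hN : 1 ≤ N) :
    Gam p f hf N (sU hN (gUnit g)) = 0 := by
  by_cases hg : IsOfFinOrder g
  · obtain ⟨n, hn, h1⟩ := isOfFinOrder_iff_pow_eq_one.1 hg
    apply Gam_eq_zero_of_pow f hf _ n hn.ne'
    have h2 : (gUnit g : (MonoidAlgebra ℤ_[p] G)ˣ) ^ n = 1 := by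
      rw [gUnit, ← map_pow, ← map_pow, h1, map_one, map_one]
    rw [← map_pow, h2, map_one, Gam_one]
  · let φ : Multiplicative ℤ →* G := zpowersHom G g
    have hφ : ∀ m : Multiplicative ℤ, φ m = g ^ (Multiplicative.toAdd m) := fun m => rfl
    let q : Multiplicative ℤ → ℤ_[p] := fun m => if m = 1 then f 1 else 0
    have hq : ∀ x y, q (x * y) = q (y * x) := fun x y => by rw [mul_comm]
    have h1 : ∀ m, f (φ m) = q m := by
      intro m
      by_cases hm : m = 1
      · rw [hm, map_one]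
        exact (if_pos rfl).symm
      · have h2 : q m = 0 := if_neg hm
        rw [h2]
        by_contra h3
        have h4 := hfin _ h3
        rw [hφ] at h4
        apply hg
        have h5 : Multiplicative.toAdd m ≠ 0 := fun h => hm (by
          rw [← ofAdd_toAdd m, h]; rfl)
        obtain ⟨n, hn, h6⟩ := isOfFinOrder_iff_pow_eq_one.1 h4
        rw [← _root_.zpow_natCast, ← _root_.zpow_mul] at h6
        exact isOfFinOrder_iff_zpow_eq_one.2 ⟨_, mul_ne_zero h5 (by exact_mod_cast hn.ne'), h6⟩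
    let t : Multiplicative ℤ := Multiplicative.ofAdd 1
    have h2 : (gUnit g : (MonoidAlgebra ℤ_[p] G)ˣ) = unitsMap φ (gUnit t) := by
      apply Units.ext
      change MonoidAlgebra.single g (1 : ℤ_[p]) =
        MonoidAlgebra.mapDomain φ (MonoidAlgebra.single t 1)
      rw [MonoidAlgebra.mapDomain_single]
      congr 1
      change g = g ^ (1 : ℤ)
      rw [_root_.zpow_one]
    rw [h2, Gam_sU_map f hf φ q hq h1]
    let ψ : Multiplicative ℤ →* Multiplicative ℤ := powMonoidHom 2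
    have h3 : ∀ m, q (ψ m) = q m := by
      intro m
      change (if m ^ 2 = 1 then f 1 else 0) = if m = 1 then f 1 else 0
      have : m ^ 2 = 1 ↔ m = 1 := by
        constructor
        · intro h
          have h' : 2 • Multiplicative.toAdd m = 0 := h
          have h'' : Multiplicative.toAdd m = 0 := by
            rw [nsmul_eq_mul] at h'
            push_cast at h'
            omega
          rw [← ofAdd_toAdd m, h'']
          rfl
        · rintro rfl
          rw [one_pow]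
      simp only [this]
    have h4 := Gam_sU_map q hq ψ q hq h3 hN (gUnit t)
    have h5 : unitsMap ψ (gUnit t : (MonoidAlgebra ℤ_[p] (Multiplicative ℤ))ˣ) = gUnit t ^ 2 := by
      apply Units.ext
      change MonoidAlgebra.mapDomain ψ (MonoidAlgebra.single t (1 : ℤ_[p])) =
        (MonoidAlgebra.single t (1 : ℤ_[p])) ^ 2
      rw [MonoidAlgebra.mapDomain_single, MonoidAlgebra.single_pow, one_pow]
      rfl
    rw [h5, map_pow, Gam_pow] at h4
    have h6 : ((2 : ℕ) : ℚ_[p]) * Gam p q hq N (sU hN (gUnit t)) -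
        Gam p q hq N (sU hN (gUnit t)) = 0 := sub_eq_zero.2 h4
    have h7 : Gam p q hq N (sU hN (gUnit t)) = ((2 : ℕ) : ℚ_[p]) * Gam p q hq N (sU hN (gUnit t)) -
        Gam p q hq N (sU hN (gUnit t)) := by
      push_cast
      ring
    rw [h7, h6]

theorem Gam_trivial (hfin : ∀ g, f g ≠ 0 → IsOfFinOrder g) (x : (MonoidAlgebra ℤ_[p] G)ˣ)
    (hx : x ∈ trivialUnits ℤ_[p] G) {N : ℕ} (hN : 1 ≤ N) : Gam p f hf N (sU hN x) = 0 := by
  obtain ⟨g, e, he, hx⟩ := hx
  apply Gam_eq_zero_of_pow f hf _ 2 two_ne_zero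
  have h1 : x ^ 2 = gUnit (g ^ 2) := by
    apply Units.ext
    rw [Units.val_pow_eq_pow_val, hx, MonoidAlgebra.single_pow]
    change _ = MonoidAlgebra.single (g ^ 2) (1 : ℤ_[p])
    rcases he with rfl | rfl <;> simp
  rw [← map_pow, h1, Gam_gUnit f hf hfin]

theorem GamK1_le (hfin : ∀ g, f g ≠ 0 → IsOfFinOrder g) :
    trivialK1 ℤ_[p] G ≤ (GamK1 f hf).ker := by
  rw [trivialK1, AddSubgroup.closure_le]
  rintro z ⟨x, hx, rfl⟩
  change GamK1 f hf (K1.unit x) = 0
  rw [GamK1_unit f hf x 0 (fun N hN => Gam_trivial f hf hfin x hx hN)]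
  rfl

/-- the functional on `Wh` -/
noncomputable def GamWh (hfin : ∀ g, f g ≠ 0 → IsOfFinOrder g) :
    Wh ℤ_[p] G →+ Germ (atTop : Filter ℕ) ℚ_[p] :=
  QuotientAddGroup.lift (trivialK1 ℤ_[p] G) (GamK1 f hf) (GamK1_le f hf hfin)

/-- the non-unital homomorphism given by the first matrix entry -/
noncomputable def jj (p : ℕ) [Fact p.Prime] (G : Type u) [Group G] {N : ℕ} (h : 1 ≤ N) :
    MonoidAlgebra ℤ_[p] G →ₙ+* MG p G N :=
  NonUnitalRingHom.comp (emb (R := MonoidAlgebra ℤ_[p] G) (Fin.castLEEmb h))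
    (scalar (Fin 1) : MonoidAlgebra ℤ_[p] G →+* MG p G 1).toNonUnitalRingHom

theorem sU_val {N : ℕ} (h : 1 ≤ N) (x : (MonoidAlgebra ℤ_[p] G)ˣ) :
    (sU h x : MG p G N) = jj p G h (x : MonoidAlgebra ℤ_[p] G) + (1 - jj p G h 1) := rfl

theorem sU_val' {N : ℕ} (h : 1 ≤ N) (x : (MonoidAlgebra ℤ_[p] G)ˣ) :
    (sU h x : MG p G N) = 1 + jj p G h ((x : MonoidAlgebra ℤ_[p] G) - 1) := by
  rw [sU_val, map_sub]
  abel

theorem trA_jj {N : ℕ} (h : 1 ≤ N) (x : MonoidAlgebra ℤ_[p] G) :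
    trA p f N (jj p G h x) = fnA f x := by
  change trf p f N (jj p G h x) = fn f x
  rw [trf_apply]
  obtain ⟨M, rfl⟩ : ∃ M, N = M + 1 := ⟨N - 1, by omega⟩
  rw [Finset.sum_eq_single (Fin.castLEEmb h 0)]
  · congr 1
    have h1 := emb_apply (R := MonoidAlgebra ℤ_[p] G) (Fin.castLEEmb h)
      (scalar (Fin 1) x : MG p G 1) 0 0
    refine Eq.trans h1 ?_
    exact Matrix.diagonal_apply_eq (fun _ : Fin 1 => x) 0
  · intro i _ hi
    have : jj p G h x i i = 0 := by
      refine emb_zero_left (R := MonoidAlgebra ℤ_[p] G) (Fin.castLEEmb h)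
        (scalar (Fin 1) x : MG p G 1) ?_ i
      intro j hj
      apply hi
      rw [hj]
      congr 1
      exact Subsingleton.elim _ _
    rw [this, map_zero]
  · intro hh
    exact absurd (Finset.mem_univ _) hh

theorem jj_natCast {N : ℕ} (h : 1 ≤ N) (m : ℕ) (x : MonoidAlgebra ℤ_[p] G) :
    jj p G h ((m : MonoidAlgebra ℤ_[p] G) * x) = (m : MG p G N) * jj p G h x := by
  induction m with
  | zero => simp
  | succ m ih => rw [Nat.cast_succ, add_mul, one_mul, map_add, ih, Nat.cast_succ, add_mul, one_mul]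

/-- The values of the functional on the units of `ℤ_[p][C]`. -/
theorem Gam_sU_eq {C : Type v} [Group C] [Finite C] (h : C → ℤ_[p])
    (hh : ∀ x y, h (x * y) = h (y * x)) {N : ℕ} (hN : 1 ≤ N) (x : (MonoidAlgebra ℤ_[p] C)ˣ) :
    Gam p h hh N (sU hN x) = LU h x - (p : ℚ_[p])⁻¹ * LU (fun a => h (a ^ p)) x := by
  have hp0 : (p : ℚ_[p]) ≠ 0 := by exact_mod_cast hp.out.ne_zero
  have hm : (NP p C : ℚ_[p]) ≠ 0 := by exact_mod_cast NP_ne_zero
  obtain ⟨y, hy⟩ := (C3_pow_NP x).sq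
  have h1 : (sU hN (x ^ NP p C) : MG p C N) = 1 + ((p ^ 2 : ℕ) : MG p C N) * jj p C hN y := by
    rw [sU_val', hy, add_sub_cancel_left, jj_natCast]
  have h2 := Gam_sq p h hh h1
  have h3 : ∀ g : C → ℤ_[p], L (trA p g N) (sU hN (x ^ NP p C) : MG p C N) =
      L (fnA g) ((x ^ NP p C : (MonoidAlgebra ℤ_[p] C)ˣ) : MonoidAlgebra ℤ_[p] C) := by
    intro g
    rw [sU_val', L_one_add, L]
    exact tl_nonUnital (jj p C hN) (fnA g) (trA p g N) (fun y => trA_jj g hN y) _
  rw [h3, h3, map_pow, Gam_pow] at h2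
  rw [LU, LU]
  field_simp
  linear_combination h2

theorem GamWh_incWh (hfin : ∀ g, f g ≠ 0 → IsOfFinOrder g) (C : CycSub G)
    (x : (MonoidAlgebra ℤ_[p] C.1)ˣ) (a : ℚ_[p])
    (ha : ∀ _ : Finite C.1, a = LU (fun a : C.1 => f a) x -
      (p : ℚ_[p])⁻¹ * LU (fun a : C.1 => f ((a : G) ^ p)) x) :
    GamWh f hf hfin (incWh C x) = (a : Germ (atTop : Filter ℕ) ℚ_[p]) := by
  have := C.2.1
  have hf' : ∀ a b : C.1, f ((a * b : C.1) : G) = f ((b * a : C.1) : G) := fun a b => hf a b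
  refine GamK1_unit f hf _ _ (fun N hN => ?_)
  rw [Gam_sU_map f hf C.1.subtype (fun a : C.1 => f a) hf' (fun a => rfl), Gam_sU_eq, ha this]
  rfl

end Pool.Agent.H71.KP

end

section

/-!
# The functionals on the colimit vanish on the kernel of the assembly map
-/

set_option autoImplicit false
set_option linter.unusedSectionVars false
set_option linter.unusedSimpArgs false

open Matrix Filter
open scoped Classical

universe u v w

namespace Pool.Agent.H71.KP

open Pool.Agent.H71.WH (K1 K1.mk K1.unit CycSub conjHom)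

variable {p : ℕ} [hp : Fact p.Prime] {G : Type v} [Group G]

/-- class functions supported at the elements of finite order -/
def CF (p : ℕ) [Fact p.Prime] (G : Type v) [Group G] : Type v :=
  {f : G → ℤ_[p] // (∀ x y, f (x * y) = f (y * x)) ∧ ∀ g, f g ≠ 0 → IsOfFinOrder g}

theorem exists_LUc (f : CF p G) : ∃ F : ColimU ℤ_[p] G →+ ℚ_[p], ∀ (C : CycSub G) (_ : Finite C.1)
    (x : (MonoidAlgebra ℤ_[p] C.1)ˣ), F (cl C x) = LU (fun a : C.1 => f.1 a) x := by
  obtain ⟨F, hF⟩ := exists_lift (R := ℤ_[p]) (G := G)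
    (fun C x => letI : Finite C.1 := C.2.1; LU (fun a : C.1 => f.1 a) x) (by
      intro C x y
      have := C.2.1
      have := C.2.2
      exact LU_mul cyc_comm _ x y) (by
      intro C C' g h x
      have := C.2.1
      have := C'.2.1
      have h1 := LU_map (conjHom g C.1 C'.1 h) (fun x : C'.1 => f.1 x) (fun x y => f.2.1 x y) x
      refine h1.trans ?_
      congr 1
      funext a
      change f.1 (g * a * g⁻¹) = f.1 a
      rw [f.2.1]
      exact congrArg f.1 (by group))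
  exact ⟨F, fun C _ x => hF C x⟩

/-- the functional on the colimit -/
noncomputable def LUc (f : CF p G) : ColimU ℤ_[p] G →+ ℚ_[p] := (exists_LUc f).choose

theorem LUc_cl (f : CF p G) (C : CycSub G) [h : Finite C.1] (x : (MonoidAlgebra ℤ_[p] C.1)ˣ) :
    LUc f (cl C x) = LU (fun a : C.1 => f.1 a) x := (exists_LUc f).choose_spec C h x

theorem class_pow (f : CF p G) (x y : G) : f.1 ((x * y) ^ p) = f.1 ((y * x) ^ p) := by
  have h1 : (x * y) ^ p = x * (y * x) ^ p * x⁻¹ := by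
    have h2 : x * y = x * (y * x) * x⁻¹ := by group
    rw [h2, conj_pow]
  rw [h1, f.2.1]
  exact congrArg f.1 (by group)

/-- composition with the `p`-th power -/
def CF.fr (f : CF p G) : CF p G := ⟨fun x => f.1 (x ^ p), class_pow f, fun g hg =>
  (isOfFinOrder_pow.1 (f.2.2 _ hg)).resolve_right hp.out.ne_zero⟩

theorem CF.fr_iter (f : CF p G) (k : ℕ) (x : G) : (CF.fr^[k] f).1 x = f.1 (x ^ p ^ k) := by
  induction k generalizing f with
  | zero => simp
  | succ k ih =>
    rw [Function.iterate_succ_apply, ih]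
    change f.1 ((x ^ p ^ k) ^ p) = _
    rw [← pow_mul, pow_succ]

/-- the constant germ -/
noncomputable def cst (p : ℕ) [Fact p.Prime] : ℚ_[p] →+ Germ (atTop : Filter ℕ) ℚ_[p] where
  toFun a := (a : Germ (atTop : Filter ℕ) ℚ_[p])
  map_zero' := rfl
  map_add' _ _ := rfl

theorem cst_injective : Function.Injective (cst p) := fun a b h => by
  have h' : (a : Germ (atTop : Filter ℕ) ℚ_[p]) = b := h
  exact Germ.const_inj.1 h'

theorem GamWh_assembly (f : CF p G) (z : ColimU ℤ_[p] G) :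
    GamWh f.1 f.2.1 f.2.2 (assembly ℤ_[p] G z) =
      cst p (LUc f z - (p : ℚ_[p])⁻¹ * LUc f.fr z) := by
  induction z using colim_induction with
  | h0 => simp
  | h1 C x =>
    have := C.2.1
    rw [assembly_cl, LUc_cl, LUc_cl]
    exact GamWh_incWh f.1 f.2.1 f.2.2 C x _ (fun _ => rfl)
  | h2 a b ha hb =>
    rw [map_add, map_add, ha, hb, ← map_add, map_add (LUc f), map_add (LUc f.fr)]
    congr 1
    ring

theorem LUc_half (f : CF p G) {z : ColimU ℤ_[p] G} {M : ℤ} (hM : M ≠ 0)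
    (h : M • assembly ℤ_[p] G z = 0) : LUc f z = (p : ℚ_[p])⁻¹ * LUc f.fr z := by
  have h1 := congrArg (GamWh f.1 f.2.1 f.2.2) h
  rw [map_zsmul, map_zero, GamWh_assembly, ← map_zsmul, ← map_zero (cst p)] at h1
  have h2 := cst_injective h1
  rw [zsmul_eq_mul] at h2
  rcases mul_eq_zero.1 h2 with h2 | h2
  · exact absurd (by exact_mod_cast h2) hM
  · exact sub_eq_zero.1 h2

theorem LUc_iter (f : CF p G) {z : ColimU ℤ_[p] G} {M : ℤ} (hM : M ≠ 0)
    (h : M • assembly ℤ_[p] G z = 0) (n : ℕ) :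
    LUc f z = (p : ℚ_[p])⁻¹ ^ n * LUc (CF.fr^[n] f) z := by
  induction n generalizing f with
  | zero => simp
  | succ n ih =>
    rw [LUc_half f hM h, ih f.fr, Function.iterate_succ_apply, pow_succ]
    ring

/-- Eventual periodicity. -/
def Per (z : ColimU ℤ_[p] G) (k d : ℕ) : Prop :=
  ∀ f : CF p G, LUc (CF.fr^[k + d] f) z = LUc (CF.fr^[k] f) z

theorem Per.mul {z : ColimU ℤ_[p] G} {k d : ℕ} (h : Per z k d) (m : ℕ) : Per z k (m * d) := by
  induction m with
  | zero => intro f; rw [zero_mul, add_zero]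
  | succ m ih =>
    intro f
    rw [← ih f]
    have h1 := h (CF.fr^[m * d] f)
    rw [← Function.iterate_add_apply, ← Function.iterate_add_apply] at h1
    have e1 : k + (m + 1) * d = k + d + m * d := by ring
    rw [e1]
    exact h1

theorem Per.add {z : ColimU ℤ_[p] G} {k d : ℕ} (h : Per z k d) (j : ℕ) : Per z (k + j) d := by
  intro f
  have h1 := h (CF.fr^[j] f)
  rw [← Function.iterate_add_apply, ← Function.iterate_add_apply] at h1
  have e1 : k + j + d = k + d + j := by ring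
  rw [e1]
  exact h1

theorem exists_per (z : ColimU ℤ_[p] G) : ∃ k d, 0 < d ∧ Per z k d := by
  induction z using colim_induction with
  | h0 => exact ⟨0, 1, one_pos, fun f => by rw [map_zero, map_zero]⟩
  | h1 C x =>
    have := C.2.1
    obtain ⟨a, b, hab, h⟩ := Finite.exists_ne_map_eq_of_infinite
      (fun (k : ℕ) (c : C.1) => c ^ p ^ k)
    wlog hlt : a < b generalizing a b
    · exact this b a (Ne.symm hab) h.symm (lt_of_le_of_ne (not_lt.1 hlt) (Ne.symm hab))
    refine ⟨a, b - a, Nat.sub_pos_of_lt hlt, ?_⟩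
    intro f
    rw [Nat.add_sub_cancel' hlt.le, LUc_cl, LUc_cl]
    congr 1
    funext c
    rw [CF.fr_iter, CF.fr_iter]
    have h1 : c ^ p ^ a = c ^ p ^ b := congrFun h c
    have h2 : (c : G) ^ p ^ a = (c : G) ^ p ^ b := by
      rw [← Subgroup.coe_pow, h1, Subgroup.coe_pow]
    rw [h2]
  | h2 x y hx hy =>
    obtain ⟨k, d, hd, h⟩ := hx
    obtain ⟨k', d', hd', h'⟩ := hy
    refine ⟨k + k', d' * d, Nat.mul_pos hd' hd, ?_⟩
    intro f
    have e1 := (h.mul d').add k' f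
    have e2 := (h'.mul d).add k f
    rw [mul_comm d d', add_comm k' k] at e2
    rw [map_add, map_add, e1, e2]

/-- The functionals vanish on the kernel of the assembly map. -/
theorem LUc_eq_zero (f : CF p G) {z : ColimU ℤ_[p] G} {M : ℤ} (hM : M ≠ 0)
    (h : M • assembly ℤ_[p] G z = 0) : LUc f z = 0 := by
  obtain ⟨k, d, hd, hp'⟩ := exists_per z
  have h1 := LUc_iter f hM h k
  have h2 := LUc_iter f hM h (k + d)
  rw [hp' f] at h2
  rw [pow_add] at h2
  have h3 : LUc f z = (p : ℚ_[p])⁻¹ ^ d * LUc f z := by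
    conv_rhs => rw [h1]
    rw [h2]
    ring
  have h4 : ((p : ℚ_[p])⁻¹) ^ d ≠ 1 := by
    intro h5
    have h6 : ((p : ℚ_[p])) ^ d = 1 := by
      rw [inv_pow] at h5
      exact inv_eq_one.1 h5
    have h7 : p ^ d = 1 := by exact_mod_cast h6
    have h8 := Nat.one_lt_pow hd.ne' hp.out.one_lt
    omega
  have h5 : (1 - (p : ℚ_[p])⁻¹ ^ d) * LUc f z = 0 := by
    linear_combination h3
  rcases mul_eq_zero.1 h5 with h6 | h6
  · exact absurd (sub_eq_zero.1 h6).symm h4
  · exact h6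

end Pool.Agent.H71.KP

end
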