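import Pool.Agent.H13.TFQ.M30
import Pool.Agent.H13.TFQ.M36
import Pool.Agent.H13.TFQ.M48
import Pool.Agent.H13.TFQ.M54
import Pool.Agent.H13.TFQ.M59

/-! The parts of this file: H71.KP.Sys0, H71.KP.Main0. -/

section

/-!
# The system of logarithms of a subring of `ℤ_[p]`
-/

set_option autoImplicit false
set_option linter.unusedSectionVars false
set_option linter.unusedSimpArgs false

open Matrix Filter
open scoped Classical

universe u v w

namespace Pool.Agent.H71.KP

open Pool.Agent.H71.WH (Sat mem_Sat CycSub conjHom)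

variable {p : ℕ} [hp : Fact p.Prime]

theorem LU_zero_fun {H : Type w} [Group H] [Finite H] (x : (MonoidAlgebra ℤ_[p] H)ˣ)
    (f : H → ℤ_[p]) (hf : ∀ a, f a = 0) : LU f x = 0 := by
  have := Fintype.ofFinite H
  rw [LU_sum]
  apply Finset.sum_eq_zero
  intro c _
  rw [hf, PadicInt.coe_zero, zero_mul]

theorem uMap_injective {R : Type u} [CommRing R] {S : Type w} [CommRing S] {φ : R →+* S}
    (hφ : Function.Injective φ) (H : Type v) [Group H] : Function.Injective (uMap φ H) := by
  intro x y h
  apply Units.ext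
  ext a
  apply hφ
  have h1 := congrArg (fun z : (MonoidAlgebra S H)ˣ => (z : MonoidAlgebra S H).coeff a) h
  simpa only [uMap_val, MonoidAlgebra.coeff_mapRingHom] using h1

/-- The system of logarithms. -/
noncomputable def logSys0 {R : Type u} [CommRing R] (ρ : R →+* ℤ_[p])
    (hρ : Function.Injective ρ) : LogSys.{u, v, 0} R ℚ_[p] where
  good _ := True
  good_dvd _ _ := trivial
  ell H _ _ _ c x := LU (dlt p c) (uMap ρ H x)
  ell_mul H _ _ _ c x y _ := by
    rw [map_mul, LU_mul cyc_comm]
  ell_map H H' _ _ _ _ _ _ φ hφ c x _ := by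
    rw [uMap_unitsMap]
    refine (LU_map φ (dlt p (φ c)) (fun a b => by rw [cyc_comm]) (uMap ρ H x)).trans ?_
    congr 1
    funext a
    unfold dlt
    congr 1
    rw [eq_iff_iff]
    exact hφ.eq_iff
  ell_map_zero H H' _ _ _ _ _ _ φ hφ c' hc x _ := by
    rw [uMap_unitsMap]
    refine (LU_map φ (dlt p c') (fun a b => by rw [cyc_comm]) (uMap ρ H x)).trans ?_
    apply LU_zero_fun
    intro a
    exact if_neg (hc a)
  ell_res H _ _ _ E _ c x _ := by
    rw [uMap_resU, LU_resU, zsmul_eq_mul, Int.cast_natCast]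
  detect H _ _ _ x _ h := by
    refine ⟨NP p H, NP_ne_zero, ?_⟩
    apply uMap_injective hρ
    rw [map_pow, map_one]
    exact LU_detect h

/-- the indicator function of the conjugacy class of `c` -/
noncomputable def cf (p : ℕ) [Fact p.Prime] {G : Type v} [Group G] (c h : G) : ℤ_[p] :=
  if IsConj c h ∧ IsOfFinOrder h then 1 else 0

theorem cf_comm {G : Type v} [Group G] (c x y : G) : cf p c (x * y) = cf p c (y * x) := by
  have h : IsConj (x * y) (y * x) := isConj_iff.2 ⟨x⁻¹, by group⟩
  have h2 : IsOfFinOrder (x * y) ↔ IsOfFinOrder (y * x) := by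
    have e1 : y * x = x⁻¹ * (x * y) * x := by group
    rw [isOfFinOrder_iff_pow_eq_one, isOfFinOrder_iff_pow_eq_one]
    constructor
    · rintro ⟨n, hn, h⟩
      refine ⟨n, hn, ?_⟩
      have e2 : x⁻¹ * (x * y) * x = x⁻¹ * (x * y) * x⁻¹⁻¹ := by group
      rw [e1, e2, conj_pow, h]
      group
    · rintro ⟨n, hn, h⟩
      refine ⟨n, hn, ?_⟩
      have e2 : x * y = x * (y * x) * x⁻¹ := by group
      rw [e2, conj_pow, h]
      group
  unfold cf
  by_cases h1 : IsConj c (x * y) ∧ IsOfFinOrder (x * y)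
  · rw [if_pos h1, if_pos ⟨h1.1.trans h, h2.1 h1.2⟩]
  · rw [if_neg h1, if_neg (fun h3 => h1 ⟨h3.1.trans h.symm, h2.2 h3.2⟩)]

/-- the class function of `c` -/
noncomputable def cF (p : ℕ) [Fact p.Prime] {G : Type v} [Group G] (c : G) : CF p G :=
  ⟨cf p c, cf_comm c, fun g hg => by
    by_contra h
    exact hg (if_neg fun h' => h h'.2)⟩

variable {G : Type v} [Group G]

theorem LUc_cF (c : G) (D : CycSub G) [Fintype D.1] (y : (MonoidAlgebra ℤ_[p] D.1)ˣ) :
    LUc (cF p c) (cl D y) =
      ∑ d ∈ Finset.univ.filter (fun d : D.1 => IsConj c (d : G)), LU (dlt p d) y := by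
  rw [LUc_cl, LU_sum, Finset.sum_filter]
  apply Finset.sum_congr rfl
  intro d _
  change ((cf p c (d : G) : ℤ_[p]) : ℚ_[p]) * _ = _
  have hd : IsOfFinOrder (d : G) := D.1.subtype.isOfFinOrder (isOfFinOrder_of_finite d)
  unfold cf
  by_cases h : IsConj c (d : G)
  · rw [if_pos ⟨h, hd⟩, if_pos h, PadicInt.coe_one, one_mul]
  · rw [if_neg (fun h' => h h'.1), if_neg h, PadicInt.coe_zero, zero_mul]

/-- The kernel of the assembly map is a torsion group, for subrings of `ℤ_[p]`. -/
theorem kernel_torsion_of_padic {R : Type u} [CommRing R] (ρ : R →+* ℤ_[p])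
    (hρ : Function.Injective ρ) (z : ColimU R G) (M : ℤ) (hM : M ≠ 0)
    (h : M • assembly R G z = 0) : ∃ m : ℤ, m ≠ 0 ∧ m • z = 0 := by
  let S : LogSys.{u, v, 0} R ℚ_[p] := logSys0 ρ hρ
  refine S.torsion_of_V (fun c => (LUc (cF p c)).comp (colimMap ρ G)) ?_ z ?_ 1 one_ne_zero ?_
  · intro c D i1 i2 y _
    have := Fintype.ofFinite D.1
    change LUc (cF p c) (colimMap ρ G (cl D y)) = _
    rw [colimMap_cl, LUc_cF, LogSys.val]
    exact Finset.sum_congr (by ext; simp) (fun _ _ => rfl)
  · apply mem_Sat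
    have key : ∀ w : ColimU R G, w ∈ AddSubgroup.closure (S.GoodSet G) := by
      intro w
      induction w using colim_induction with
      | h0 => exact AddSubgroup.zero_mem _
      | h1 C x => exact AddSubgroup.subset_closure ⟨C, x, trivial, rfl⟩
      | h2 a b ha hb => exact AddSubgroup.add_mem _ ha hb
    exact key z
  · intro c
    rw [one_smul]
    refine LUc_eq_zero (cF p c) hM ?_
    rw [← whMap_assembly, ← map_zsmul, h, map_zero]

end Pool.Agent.H71.KP

end

section

/-!
# The kernel of the assembly map is torsion for domains of characteristic zero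
-/

set_option autoImplicit false

open Matrix Filter

universe u v w

namespace Pool.Agent.H71.KP

theorem finiteType_sub {R : Type u} [CommRing R] (s : Finset R) :
    Algebra.FiniteType ℤ (sub s) := by
  have h1 : Algebra.FiniteType ℤ (Algebra.adjoin ℤ (s : Set R)) :=
    (Subalgebra.fg_iff_finiteType _).1 (Subalgebra.fg_adjoin_finset s)
  have h2 : ∀ x : R, x ∈ Algebra.adjoin ℤ (s : Set R) ↔ x ∈ sub s := by
    intro x
    rw [Algebra.adjoin_int]
    exact Iff.rfl
  let f : Algebra.adjoin ℤ (s : Set R) →+* sub s :=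
    { toFun := fun x => ⟨x.1, (h2 x.1).1 x.2⟩
      map_one' := rfl
      map_mul' := fun _ _ => rfl
      map_zero' := rfl
      map_add' := fun _ _ => rfl }
  exact Algebra.FiniteType.of_surjective f.toIntAlgHom
    (fun x => ⟨⟨x.1, (h2 x.1).2 x.2⟩, rfl⟩)

/-- **The kernel of the assembly map is a torsion group** for domains of characteristic zero. -/
theorem kernel_torsion {R : Type u} [CommRing R] [IsDomain R] [CharZero R] {G : Type v} [Group G]
    (z : ColimU R G) (M : ℤ) (hM : M ≠ 0) (h : M • assembly R G z = 0) :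
    ∃ m : ℤ, m ≠ 0 ∧ m • z = 0 := by
  obtain ⟨s, z', hz, h'⟩ := (eventually_kernel z M h).exists
  have : CharZero (sub s) := ⟨fun a b hab => by
    have h1 := congrArg (incl s) hab
    rw [map_natCast, map_natCast] at h1
    exact Nat.cast_injective h1⟩
  have := finiteType_sub s
  obtain ⟨p, hp, ρ, hρ⟩ := exists_padic_embedding (sub s)
  obtain ⟨m, hm, h1⟩ := kernel_torsion_of_padic ρ hρ z' M hM h'
  exact ⟨m, hm, by rw [← hz, ← map_zsmul, h1, map_zero]⟩

end Pool.Agent.H71.KP

end
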