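import Pool.Agent.H13.TFQ.H71.DB.Main
import Pool.Agent.H13.TFQ.H71.DB.Tors2
import Pool.Agent.H13.TFQ.M46
import Pool.Agent.H13.TFQ.M57
import Pool.Agent.H13.TFQ.M60

/-! The parts of this file: H71.KP.MainP_1, H71.KP.Main, H71.DO.Bridge_1, H71.DB.Main_1. -/

section

/-!
# The kernel of the assembly map is torsion for domains of characteristic `p`
-/

set_option autoImplicit false
set_option linter.unusedSectionVars false
set_option linter.unusedSimpArgs false

open Matrix HahnSeries Filter
open scoped Classical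

universe u v w t

namespace Pool.Agent.H71.KP

open Pool.Agent.H71.WH (Sat mem_Sat Sat_of_smul CycSub conjHom)

variable {p : ℕ} [hp : Fact p.Prime] {R : Type u} [CommRing R]

variable [IsDomain R] [CharP R p] [Algebra.FiniteType ℤ R] {G : Type v} [Group G]

theorem mem_sat_good (z : ColimU R G) :
    z ∈ Sat (AddSubgroup.closure ((logSysP.{u, v} p R).GoodSet G)) := by
  induction z using colim_induction with
  | h0 => exact AddSubgroup.zero_mem _
  | h2 a b ha hb => exact AddSubgroup.add_mem _ ha hb
  | h1 C x =>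
    have := C.2.1
    have := C.2.2
    obtain ⟨S, a, hS, hS'⟩ := exists_coprime_part (p := p) C.1
    obtain ⟨y, hy⟩ := unit_pow_mem cyc_comm S a hS x
    have h1 : ((p ^ a : ℕ) : ℤ) • cl C x = clh (C.1.subtype.comp S.subtype) y := by
      rw [natCast_zsmul, ← cl_pow, ← hy, ← clh_subtype]
      exact clh_map (C.1.subtype.comp S.subtype) C.1.subtype S.subtype (fun _ => rfl) y
    refine Sat_of_smul (m := ((p ^ a : ℕ) : ℤ)) ?_ ?_
    · exact_mod_cast pow_ne_zero _ hp.out.ne_zero
    · rw [h1]
      apply mem_Sat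
      apply AddSubgroup.subset_closure
      refine ⟨rangeSub (C.1.subtype.comp S.subtype),
        unitsMap (toRange (C.1.subtype.comp S.subtype)) y, ?_, rfl⟩
      have hinj : Function.Injective (C.1.subtype.comp S.subtype) :=
        C.1.subtype_injective.comp S.subtype_injective
      have h2 : Nat.card (rangeSub (C.1.subtype.comp S.subtype)).1 = Nat.card S :=
        (Nat.card_congr (MonoidHom.ofInjective hinj).toEquiv).symm
      change ¬ p ∣ _
      rw [h2]
      exact hS'

omit [IsDomain R] [CharP R p] [Algebra.FiniteType ℤ R] in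
/-- the functional on the Whitehead group -/
theorem exists_V (c : G) : ∃ V : Wh R G →+ PV p R, ∀ (D : CycSub G) (_ : Finite D.1)
    (_ : IsCyclic D.1) (y : (MonoidAlgebra R D.1)ˣ) (P : Pl p R) (n : ℕ),
    V (incWh D y) P n = letI := Fintype.ofFinite D.1
      ∑ d ∈ Finset.univ.filter (fun d : D.1 => IsConj c (d : G)),
      (P.dat n).elp ((P.dat n).del d) (fun a b => by rw [cyc_comm]) (uMap P.φ D.1 y) := by
  refine ⟨AddMonoidHom.mk' (fun z => fun P n =>
    (P.dat n).lamWh ((P.dat n).cfd c) ((P.dat n).cfd_comm c) (whMap P.φ G z)) ?_, ?_⟩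
  · intro a b
    funext P n
    rw [map_add, map_add]
    rfl
  · intro D _ _ y P n
    letI := Fintype.ofFinite D.1
    change (P.dat n).lamWh ((P.dat n).cfd c) ((P.dat n).cfd_comm c) (whMap P.φ G (incWh D y)) = _
    rw [whMap_incWh]
    change (P.dat n).lamWh _ _ (Wh.unit (unitsMap D.1.subtype (uMap P.φ D.1 y))) = _
    rw [ResDat.lamWh_unit, ResDat.elp_map (P.dat n) D.1.subtype _ _
      (fun a : D.1 => (P.dat n).cfd c (a : G)) (fun a b => by rw [cyc_comm]) (fun a => rfl),
      (P.dat n).elp_del cyc_comm, Finset.sum_filter]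
    apply Finset.sum_congr rfl
    intro d _
    unfold ResDat.cfd
    split_ifs
    · rw [one_mul]
    · rw [zero_mul]

/-- The kernel of the assembly map is a torsion group, for finitely generated domains of
characteristic `p`. -/
theorem kernel_torsion_fg (p : ℕ) [hp : Fact p.Prime] (R : Type u) [CommRing R] [IsDomain R]
    [CharP R p] [Algebra.FiniteType ℤ R] {G : Type v} [Group G] (z : ColimU R G) (M : ℤ)
    (hM : M ≠ 0) (h : M • assembly R G z = 0) : ∃ m : ℤ, m ≠ 0 ∧ m • z = 0 := by
  choose V hV using fun c : G => exists_V (p := p) (R := R) c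
  refine (logSysP.{u, v} p R).torsion_of_V (fun c => (V c).comp (assembly R G)) ?_ z
    (mem_sat_good z) M hM ?_
  · intro c D i1 i2 y _
    funext P n
    change V c (assembly R G (cl D y)) P n = _
    rw [assembly_cl, hV c D i1 i2 y P n, LogSys.val, Finset.sum_apply, Finset.sum_apply]
    rfl
  · intro c
    change V c (assembly R G (M • z)) = 0
    rw [map_zsmul, h, map_zero]

end Pool.Agent.H71.KP

end

section

/-!
# Rational injectivity of the assembly map for domains
-/

set_option autoImplicit false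

open Matrix Filter

universe u v w

namespace Pool.Agent.H71.KP

/-- **The kernel of the assembly map is a torsion group** for all domains. -/
theorem kernel_torsion_domain {R : Type u} [CommRing R] [IsDomain R] {G : Type v} [Group G]
    (z : ColimU R G) (M : ℤ) (hM : M ≠ 0) (h : M • assembly R G z = 0) :
    ∃ m : ℤ, m ≠ 0 ∧ m • z = 0 := by
  obtain ⟨p, hp⟩ := CharP.exists R
  rcases CharP.char_is_prime_or_zero R p with h1 | h1
  · have : Fact p.Prime := ⟨h1⟩
    obtain ⟨s, z', hz, h'⟩ := (eventually_kernel z M h).exists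
    have : CharP (sub s) p := (RingHom.charP (incl s) (incl_injective s) p)
    have := finiteType_sub s
    obtain ⟨m, hm, h1⟩ := kernel_torsion_fg p (sub s) z' M hM h'
    exact ⟨m, hm, by rw [← hz, ← map_zsmul, h1, map_zero]⟩
  · subst h1
    have : CharZero R := CharP.charP_to_charZero R
    exact kernel_torsion z M hM h

end Pool.Agent.H71.KP

end

section

/-!
# From units of finite cyclic subgroups to `K₁` of finite subgroups
-/

set_option autoImplicit false
set_option linter.unusedSectionVars false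

open Matrix

universe u v w

namespace Pool.Agent.H71.DO

open Pool.Agent.H95.WH (K1 K1.mk K1.unit K1.map K1.map_unit K1.map_map K1_map_conj FamSub conjHom K1.lift K1.lift_mk FinSub K1.hom_ext K1.unit_mul)
open Pool.Agent.H71.WH (CycSub Sat Sat_of_smul mem_Sat)

section K1

end K1

variable (R : Type u) [CommRing R] (G : Type v) [Group G]

/-- The kernel of the assembly map is torsion. -/
theorem kernel_torsion_fin {R : Type u} [CommRing R] [IsDomain R] (hA : HArt.{u, v} R)
    (hU : HUnit.{u, v} R) (G : Type v) [Group G] (z : ColimWh R G FinSub) (M : ℤ) (hM : M ≠ 0)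
    (h : M • assembly R G FinSub z = 0) : ∃ m : ℤ, m ≠ 0 ∧ m • z = 0 := by
  obtain ⟨m, hm, z', hz⟩ := sat_theta G hA hU z
  have h1 : M • KP.assembly R G z' = 0 := by
    rw [← psiW_assembly, hz, ← map_zsmul, map_zsmul (assembly R G FinSub), smul_comm, h, smul_zero,
      map_zero]
  obtain ⟨m', hm', h2⟩ := KP.kernel_torsion_domain z' M hM h1
  exact ⟨m' * m, mul_ne_zero hm' hm, by rw [mul_smul, ← hz, ← map_zsmul, h2, map_zero]⟩

end Pool.Agent.H71.DO

end

section

/-!
# Rational injectivity of the full assembly map in degree one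
-/

set_option autoImplicit false

open Matrix
open scoped Classical

universe t u v w

namespace Pool.Agent.H71.DB

open Pool.Agent.H71.FJ (K0 Sat Sat_of_smul mem_Sat)
open Pool.Agent.H95.WH (K1 K1.mk K1.unit K1.map K1.map_mk FamSub conjHom FinSub)

section Bridge

variable (R : Type u) [CommRing R] (G : Type v) [Group G]

theorem torsion_colim1 {R : Type u} [CommRing R] [IsDomain R] (hA : DO.HArt.{u, v} R)
    (hU : DO.HUnit.{u, v} R) (G : Type v) [Group G] (a : ColimK1 R G) (M : ℤ) (hM : M ≠ 0)
    (h : M • asm1 R G a = 0) : ∃ m : ℤ, m ≠ 0 ∧ m • a = 0 := by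
  obtain ⟨m, hm, h1⟩ := DO.kernel_torsion_fin hA hU G (toWh R G a) M hM (by
    rw [assembly_toWh, ← map_zsmul, h, map_zero])
  rw [← map_zsmul] at h1
  have h2 := congrArg (fromWh R G) h1
  rw [fromWh_toWh, map_zero, mt_eq_zero, mem_tor1] at h2
  obtain ⟨m', hm', h3⟩ := h2
  exact ⟨m' * m, mul_ne_zero hm' hm, by rw [mul_smul, h3]⟩

end Bridge

section Main

variable {k : Type u} [Field k] {K : Type t} [Field K] (L : BLift K) (i : k →+* K)
  {G : Type v} [Group G]

variable (hsep : ∀ D : FamSub G FinSub, IsCyclic D.1 → (∀ h : D.1, (orderOf h : k) ≠ 0) →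
  ∀ b : CAb D.1, (∀ ν : CAb D.1 →+ L.Lam, ν b = 0) → ∃ m : ℤ, m ≠ 0 ∧ m • b = 0)

include L i hsep in
theorem kernel_torsion (z : ColimK1 k G × H1K0 k G) (M : ℤ) (hM : M ≠ 0)
    (h : M • fullA k G z = 0) : ∃ m : ℤ, m ≠ 0 ∧ m • z = 0 := by
  obtain ⟨a, w⟩ := z
  have e : fullA k G (a, w) = asm1 k G a + asmH k G w := rfl
  have h1 : VanOn L i (fun _ => True) (asmH k G w) := by
    have e1 : asmH k G w = fullA k G (a, w) - asm1 k G a := by
      rw [e, add_sub_cancel_left]
    rw [e1]
    refine VanOn.sub (VanOn.of_smul hM ?_) (vanOn_asm1 L i a)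
    rw [h]
    exact VanOn.zero
  obtain ⟨m, hm, hw⟩ := torsion_of_vanOn L i hsep w h1
  have h2 : (M * m) • asm1 k G a = 0 := by
    have h3 : (M * m) • fullA k G (a, w) = 0 := by
      rw [mul_comm, mul_smul, h, smul_zero]
    rw [e, smul_add, mul_smul M m (asmH k G w), ← map_zsmul (asmH k G), hw, map_zero,
      smul_zero, add_zero] at h3
    exact h3
  obtain ⟨m', hm', ha⟩ := torsion_colim1 (DO.hArt_field k) (DO.hUnit_field k) G a (M * m)
    (mul_ne_zero hM hm) h2
  refine ⟨m * m', mul_ne_zero hm hm', Prod.ext ?_ ?_⟩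
  · change (m * m') • a = 0
    rw [mul_smul, ha, smul_zero]
  · change (m * m') • w = 0
    rw [mul_comm, mul_smul, hw, smul_zero]

end Main

section Zero

/-- Characteristic zero. -/
theorem kernel_torsion_zero (k : Type u) [Field k] [CharZero k] (G : Type v) [Group G]
    (z : ColimK1 k G × H1K0 k G) (M : ℤ) (hM : M ≠ 0) (h : M • fullA k G z = 0) :
    ∃ m : ℤ, m ≠ 0 ∧ m • z = 0 :=
  kernel_torsion (bLiftZero k) (RingHom.id k) (fun _ _ _ b hb => sep_zero k b hb) z M hM h

end Zero

section CharP

variable (p : ℕ) [hp : Fact p.Prime] (k : Type u) [Field k] [CharP k p]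

theorem kernel_torsion_p (G : Type v) [Group G]
    (hG : ∀ C : Subgroup G, Finite C → IsCyclic C → ¬ p ∣ Nat.card C →
      ∀ z : Subgroup.centralizer (C : Set G),
        (∀ f : Subgroup.centralizer (C : Set G) →* Multiplicative ℤ_[p], f z = 1) →
        ∃ m : ℕ, m ≠ 0 ∧ z ^ m ∈ commutator (Subgroup.centralizer (C : Set G)))
    (z : ColimK1 k G × H1K0 k G) (M : ℤ) (hM : M ≠ 0) (h : M • fullA k G z = 0) :
    ∃ m : ℤ, m ≠ 0 ∧ m • z = 0 := by
  let K := AlgebraicClosure k
  have : CharP K p := charP_of_injective_algebraMap (algebraMap k K).injective p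
  have : PerfectRing K p := PerfectField.toPerfectRing p
  refine kernel_torsion (bLiftP p K) (algebraMap k K) ?_ z M hM h
  intro D hD ho b hb
  have hfin : Finite D.1 := D.2
  have hcard : ¬ p ∣ Nat.card D.1 := by
    intro hdvd
    obtain ⟨g, hg⟩ := IsCyclic.exists_generator (α := D.1)
    have h1 : orderOf g = Nat.card D.1 := orderOf_eq_card_of_forall_mem_zpowers hg
    apply ho g
    rw [h1]
    exact (CharP.cast_eq_zero_iff k p _).2 hdvd
  obtain ⟨z₀, rfl⟩ : ∃ z₀ : Subgroup.centralizer (D.1 : Set G), cab z₀ = b := by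
    obtain ⟨z₀, hz₀⟩ := QuotientGroup.mk_surjective (Additive.toMul b)
    exact ⟨z₀, congrArg Additive.ofMul hz₀⟩
  obtain ⟨ψ, hψ⟩ := padic_to_witt p K
  obtain ⟨m, hm, h1⟩ := hG D.1 hfin hD hcard z₀ (by
    intro f
    have h2 := hb (ψ.toAddMonoidHom.comp (MonoidHom.toAdditiveLeft (Abelianization.lift f)))
    have h3 : ψ (Multiplicative.toAdd (f z₀)) = 0 := h2
    have h4 : Multiplicative.toAdd (f z₀) = 0 := hψ (by rw [h3, map_zero])
    exact congrArg Multiplicative.ofAdd h4)
  refine ⟨(m : ℤ), by exact_mod_cast hm, ?_⟩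
  have h2 : Abelianization.of (z₀ ^ m) = 1 :=
    (QuotientGroup.eq_one_iff _).2 h1
  rw [map_pow] at h2
  rw [natCast_zsmul]
  exact congrArg Additive.ofMul h2

end CharP

/-- **Rational injectivity of the full assembly map in degree one.** -/
theorem full_injective (k : Type u) [Field k] (G : Type v) [Group G]
    (hG : ∀ (p : ℕ) [Fact p.Prime], CharP k p →
      ∀ C : Subgroup G, Finite C → IsCyclic C → ¬ p ∣ Nat.card C →
      PadicSep p (Subgroup.centralizer (C : Set G))) :
    RatInj (fullAssembly k G) := by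
  apply lTensor_injective
  intro z M hM h
  obtain ⟨p, hp⟩ := CharP.exists k
  rcases CharP.char_is_prime_or_zero k p with h1 | h1
  · have : Fact p.Prime := ⟨h1⟩
    exact kernel_torsion_p p k G (fun C hC hc hd z hz => hG p hp C hC hc hd z hz) z M hM h
  · subst h1
    have : CharZero k := CharP.charP_to_charZero k
    exact kernel_torsion_zero k G z M hM h

end Pool.Agent.H71.DB

end
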