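import Pool.Agent.H13.TFQ.H71.FQ.Prod
import Pool.Agent.H13.TFQ.H71.FQ.StF
import Pool.Agent.H13.TFQ.H71.FQ.StI
import Pool.Agent.H13.TFQ.M39
import Pool.Agent.H13.TFQ.M54

/-! The parts of this file: H71.FQ.StI_3, H71.FQ.StI_1. -/

section

/-!
# Comparison of the definitions: the assembly map on the `K₁`-part in all degrees
-/

set_option autoImplicit false

open Matrix

universe u v w

namespace Pool.Agent.H71.FQ1

open Pool.Agent.H71.FQS (Ch bd push coi bnd Cyc PSep GLm blkM RF Cent KQ HnK0 IsAssembly RatInj LocRing toHG fromK fromK_cls toK toK_fromK asmS asmS_isAssembly ratInj_iff toH fromH_toH bd_eq push_eq mem_coi)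
open Pool.Agent.H71.FQ (Cx HG centConj grpHom)
open Pool.Agent.H71.FU0 (H0K1 cl cl_conj lift10 lift10_cl h0k1_ext e1 mk_single cyc0 kq1 kq1_mk assembly10 assembly10_cl assembly00)
open Pool.Agent.H95.WH (K1 K1.mk K1.lift K1.lift_mk K1.hom_ext K1.mk_mul K1.mk_stab K1.map K1.map_mk K1.mapU FamSub conjHom FinSub stab)

section

variable {R : Type u} [Ring R] {G : Type v} [Group G] {n : ℕ}

theorem mk_zero {s : HSym1 R G n} (h : FreeAbelianGroup.of s ∈
    relU R G n ∪ relZ1 R G n ∪ relC1 R G n) : HnK1.mk s = 0 :=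
  (QuotientAddGroup.eq_zero_iff _).2 (AddSubgroup.subset_closure h)

end

/-! ### Degree one -/

section

end

section

variable {R : Type u} [Ring R] {G : Type v} [Group G]

/-- the homomorphism to the colimit -/
noncomputable def toL : HnK1 R G 0 →+ H0K1 R G :=
  lift (fun s => aug (Cent s.F) s.z • cl (⟨s.F, s.fin⟩ : FamSub G FinSub)
      (K1.mk (R := MonoidAlgebra R s.F) s.U))
    (fun F hF N U V z hz => by
      change aug (Cent F) z • cl (⟨F, hF⟩ : FamSub G FinSub)
        (K1.mk (R := MonoidAlgebra R F) (U * V)) = _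
      rw [← smul_add]
      congr 1
      rw [← map_add]
      exact congrArg (cl (⟨F, hF⟩ : FamSub G FinSub)) (K1.mk_mul (R := MonoidAlgebra R F) U V))
    (fun F hF N U V z hz h => by
      have h1 : V = stab (R := MonoidAlgebra R F) U := Units.ext h
      subst h1
      exact congrArg (fun y => aug (Cent F) z • cl (⟨F, hF⟩ : FamSub G FinSub) y)
        (K1.mk_stab (R := MonoidAlgebra R F) U))
    (fun F hF N U z z' hz hz' h => by
      change aug (Cent F) (z + z') • _ = aug (Cent F) z • _ + aug (Cent F) z' • _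
      rw [map_add, add_smul])
    (fun F hF N U z hz h => by
      change aug (Cent F) z • _ = 0
      rw [aug_bnd h, zero_smul])
    (fun F F' hF hF' g N U U' z z' hz hz' c κ hc hκ hee hzz => by
      change aug (Cent F') z' • _ = aug (Cent F) z • _
      have hg : ∀ x ∈ F, g * x * g⁻¹ ∈ F' := fun x hx => by
        rw [← hc ⟨x, hx⟩]
        exact (c ⟨x, hx⟩).2
      have h1 : c = conjHom g F F' hg := funext fun a => Subtype.ext (hc a)
      subst h1
      rw [hzz, aug_push]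
      congr 1
      have h3 := cl_conj (⟨F, hF⟩ : FamSub G FinSub) ⟨F', hF'⟩ g hg
        (K1.mk (R := MonoidAlgebra R F) U)
      have h4 : K1.mapU (MonoidAlgebra.mapDomainRingHom R (conjHom g F F' hg)) U = U' :=
        Units.ext (Matrix.ext fun i j => (hee i j).symm)
      have h5 : K1.map (MonoidAlgebra.mapDomainRingHom R (conjHom g F F' hg))
          (K1.mk (R := MonoidAlgebra R F) U) = K1.mk (R := MonoidAlgebra R F') U' :=
        (K1.map_mk _ _).trans (congrArg (fun V => K1.mk (R := MonoidAlgebra R F') V) h4)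
      refine Eq.trans ?_ h3
      exact congrArg (cl (⟨F', hF'⟩ : FamSub G FinSub)) h5.symm)

theorem toL_mk (s : HSym1 R G 0) : toL (HnK1.mk s) = aug (Cent s.F) s.z •
    cl (⟨s.F, s.fin⟩ : FamSub G FinSub) (K1.mk (R := MonoidAlgebra R s.F) s.U) :=
  FreeAbelianGroup.lift_apply_of _ _

/-- the homomorphism from the colimit -/
noncomputable def fromL : H0K1 R G →+ HnK1 R G 0 := lift10 fU fU_conj

theorem fromL_cl (F : FamSub G FinSub) (x : K1 (MonoidAlgebra R F.1)) :
    fromL (cl F x) = fU F x := lift10_cl _ _ F x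

theorem fromL_toL (x : HnK1 R G 0) : fromL (toL x) = x := by
  have h : (fromL (R := R) (G := G)).comp toL = AddMonoidHom.id _ := by
    apply hom_ext
    rintro ⟨F, hF, N, U, z, hz⟩
    rw [AddMonoidHom.comp_apply, toL_mk, map_zsmul, fromL_cl, AddMonoidHom.id_apply]
    have h1 : fU (⟨F, hF⟩ : FamSub G FinSub) (K1.mk (R := MonoidAlgebra R F) U) =
        fZ F hF N U (pt (Cent F)) := fU_mk _ _
    have h2 : fZ F hF N U (z - aug (Cent F) z • pt (Cent F)) = 0 :=
      mk_zero (Or.inl (Or.inr (Or.inr ⟨F, hF, N, U, _, trivial, sub_aug_mem z, rfl⟩)))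
    rw [map_sub, map_zsmul, sub_eq_zero] at h2
    refine (congrArg (fun y => aug (Cent F) z • y) h1).trans h2.symm
  exact DFunLike.congr_fun h x

variable (R G) in
/-- the assembly map -/
noncomputable def asmL : HnK1 R G 0 →+ KQ (MonoidAlgebra R G) 0 :=
  fromK.comp ((assembly10 R G).comp toL)

theorem asmL_isAssembly1 : IsAssembly1 (R := R) (G := G) (n := 0) (asmL R G) := by
  rintro ⟨F, hF, N, U, z, hc⟩ σ u z' hσ hu hz
  change z'.ch = pri u (push σ z) at hz
  change fromK (assembly10 R G (toL (HnK1.mk ⟨F, hF, N, U, z, hc⟩))) = _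
  rw [toL_mk, map_zsmul, map_zsmul]
  have h3 : u = K1.mapU (MonoidAlgebra.mapDomainRingHom R F.subtype) U :=
    Units.ext (Matrix.ext fun i j => hu i j)
  have h4 : assembly10 R G (cl (⟨F, hF⟩ : FamSub G FinSub) (K1.mk (R := MonoidAlgebra R F) U)) =
      FQ.KQ.cls (MonoidAlgebra R G) 0 N (e1 u) := by
    rw [assembly10_cl]
    refine (congrArg kq1 (K1.map_mk _ _)).trans ?_
    rw [h3]
    exact kq1_mk _
  refine (congrArg (fun y => aug (Cent F) z • fromK y) h4).trans ?_
  rw [← map_zsmul, ← map_zsmul, ← toHG_pri σ u z z' hz]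
  exact fromK_cls N z'

/-- the transfer in degree one -/
theorem transfer_zero (h : FQ.RatInj (assembly00 R G)) :
    ∃ (α₀ : HnK0 R G 0 →+ KQ (MonoidAlgebra R G) 0)
      (α₁ : HnK1 R G 0 →+ KQ (MonoidAlgebra R G) 0),
      IsAssembly α₀ ∧ IsAssembly1 α₁ ∧ RatInj (α₀.coprod α₁) := by
  refine ⟨asmS R G 0, asmL R G, asmS_isAssembly, asmL_isAssembly1,
    (ratInj_iff _).2 fun z M hM hz => ?_⟩
  have h0 : ∀ (z : FQ.HnK0 R G 0 × H0K1 R G) (M : ℤ), M ≠ 0 →
      M • assembly00 R G z = 0 → ∃ m : ℤ, m ≠ 0 ∧ m • z = 0 := (ratInj_iff _).1 h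
  have h1 : M • assembly00 R G (toH z.1, toL z.2) = 0 := by
    have h2 : toK (M • ((asmS R G 0).coprod (asmL R G)) z) =
        M • assembly00 R G (toH z.1, toL z.2) := by
      rw [map_zsmul, AddMonoidHom.coprod_apply, map_add]
      exact congrArg (M • ·) (congrArg₂ (· + ·) (toK_fromK _) (toK_fromK _))
    rw [← h2, hz, map_zero]
  obtain ⟨m, hm, h3⟩ := h0 _ M hM h1
  refine ⟨m, hm, ?_⟩
  have h4 := congrArg Prod.fst h3
  have h5 := congrArg Prod.snd h3
  change m • toH z.1 = 0 at h4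
  change m • toL z.2 = 0 at h5
  refine Prod.ext ?_ ?_
  · change m • z.1 = 0
    rw [← fromH_toH (m • z.1), map_zsmul toH, h4, map_zero]
  · change m • z.2 = 0
    rw [← fromL_toL (m • z.2), map_zsmul toL, h5, map_zero]

end

section

end

end Pool.Agent.H71.FQ1

end

section

/-!
# Comparison of the definitions: the assembly map on the `K₁`-part in all degrees
-/

set_option autoImplicit false

open Matrix

universe u v w

namespace Pool.Agent.H71.FQ1

open Pool.Agent.H71.FQS (Ch bd push coi bnd Cyc PSep GLm blkM RF Cent KQ HnK0 IsAssembly RatInj LocRing toHG fromK fromK_cls toK toK_fromK asmS asmS_isAssembly ratInj_iff toH fromH_toH bd_eq push_eq mem_coi)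
open Pool.Agent.H71.FQ (Cx HG centConj grpHom)
open Pool.Agent.H71.FU0 (H0K1 cl cl_conj lift10 lift10_cl h0k1_ext e1 mk_single cyc0 kq1 kq1_mk assembly10 assembly10_cl assembly00)
open Pool.Agent.H95.WH (K1 K1.mk K1.lift K1.lift_mk K1.hom_ext K1.mk_mul K1.mk_stab K1.map K1.map_mk K1.mapU FamSub conjHom FinSub stab)

section

variable {R : Type u} [Ring R] {G : Type v} [Group G] {n : ℕ}

/-- the homomorphism to the group of the first definition -/
noncomputable def conv : HnK1 R G (n + 1) →+ FQS.HnK1 R G n :=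
  lift (fun s => FQS.HnK1.mk ⟨s.F, s.fin, s.N, s.U, ⟨s.z, s.cyc⟩⟩)
    (fun F hF N U V z hz => FQS.mk1_add (Or.inl (Or.inl (Or.inl ⟨F, hF, N, U, V, ⟨z, hz⟩, rfl⟩))))
    (fun F hF N U V z hz h => FQS.mk1_eq (Or.inl (Or.inl (Or.inr
      ⟨F, hF, N, U, V, ⟨z, hz⟩, h, rfl⟩))))
    (fun F hF N U z z' hz hz' h => FQS.mk1_add (Or.inl (Or.inr (Or.inl
      ⟨F, hF, N, U, ⟨z, hz⟩, ⟨z', hz'⟩, ⟨z + z', h⟩, rfl, rfl⟩))))
    (fun F hF N U z hz h => (QuotientAddGroup.eq_zero_iff _).2 (AddSubgroup.subset_closure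
      (Or.inl (Or.inr (Or.inr ⟨F, hF, N, U, ⟨z, hz⟩, h, rfl⟩)))))
    (fun F F' hF hF' g N U U' z z' hz hz' c κ hc hκ hee hzz => FQS.mk1_eq (Or.inr
      ⟨F, F', hF, hF', g, N, U, U', ⟨z, hz⟩, ⟨z', hz'⟩, c, κ, hc, hκ, hee, hzz, rfl⟩))

theorem conv_mk (s : HSym1 R G (n + 1)) :
    conv (HnK1.mk s) = FQS.HnK1.mk ⟨s.F, s.fin, s.N, s.U, ⟨s.z, s.cyc⟩⟩ :=
  FreeAbelianGroup.lift_apply_of _ _

/-- the homomorphism in the other direction -/
noncomputable def vnoc : FQS.HnK1 R G n →+ HnK1 R G (n + 1) :=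
  QuotientAddGroup.lift _ (FreeAbelianGroup.lift fun s : FQS.HSym1 R G n =>
    (HnK1.mk ⟨s.F, s.fin, s.N, s.U, s.z.1, s.z.2⟩ : HnK1 R G (n + 1))) (by
    rw [AddSubgroup.closure_le]
    rintro w (((⟨F, hF, N, U, V, z, rfl⟩ | ⟨F, hF, N, U, V, z, h, rfl⟩) |
        (⟨F, hF, N, U, z, z', z'', h, rfl⟩ | ⟨F, hF, N, U, z, h, rfl⟩)) |
        ⟨F, F', hF, hF', g, N, U, U', z, z', c, κ, hc, hκ, hee, hz, rfl⟩)
    · change FreeAbelianGroup.lift _ _ = 0
      rw [map_sub, map_add, FreeAbelianGroup.lift_apply_of, FreeAbelianGroup.lift_apply_of,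
        FreeAbelianGroup.lift_apply_of, sub_eq_zero]
      exact mk_add (Or.inl (Or.inl (Or.inl ⟨F, hF, N, U, V, z.1, z.2, rfl⟩)))
    · change FreeAbelianGroup.lift _ _ = 0
      rw [map_sub, FreeAbelianGroup.lift_apply_of, FreeAbelianGroup.lift_apply_of, sub_eq_zero]
      exact mk_eq (Or.inl (Or.inl (Or.inr ⟨F, hF, N, U, V, z.1, z.2, h, rfl⟩)))
    · change FreeAbelianGroup.lift _ _ = 0
      rw [map_sub, map_add, FreeAbelianGroup.lift_apply_of, FreeAbelianGroup.lift_apply_of,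
        FreeAbelianGroup.lift_apply_of, sub_eq_zero]
      obtain ⟨z, hz⟩ := z
      obtain ⟨z', hz'⟩ := z'
      obtain ⟨z'', hz''⟩ := z''
      change z'' = z + z' at h
      subst h
      exact mk_add (Or.inl (Or.inr (Or.inl ⟨F, hF, N, U, z, z', hz, hz', hz'', rfl⟩)))
    · change FreeAbelianGroup.lift _ _ = 0
      rw [FreeAbelianGroup.lift_apply_of]
      exact mk_zero (Or.inl (Or.inr (Or.inr ⟨F, hF, N, U, z.1, z.2, h, rfl⟩)))
    · change FreeAbelianGroup.lift _ _ = 0
      rw [map_sub, FreeAbelianGroup.lift_apply_of, FreeAbelianGroup.lift_apply_of, sub_eq_zero]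
      exact mk_eq (Or.inr ⟨F, F', hF, hF', g, N, U, U', z.1, z'.1, z.2, z'.2, c, κ, hc, hκ, hee,
        hz, rfl⟩))

theorem vnoc_conv (x : HnK1 R G (n + 1)) : vnoc (conv x) = x := by
  have h : (vnoc (R := R) (G := G) (n := n)).comp conv = AddMonoidHom.id _ := by
    apply hom_ext
    intro s
    rw [AddMonoidHom.comp_apply, conv_mk]
    exact FreeAbelianGroup.lift_apply_of _ _
  exact DFunLike.congr_fun h x

end

/-! ### Degree one -/

section

end

section

end

section

end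

end Pool.Agent.H71.FQ1

end
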