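import Pool.Agent.H13.TFQ.H71.FQ.Tors_1
import Pool.Agent.H13.TFQ.M67
import Pool.Agent.H13.TFQ.M68

/-! The parts of this file: H71.FQ.StF_1, H71.FQ.StI_2, H16.FU.Gen2_1, H16.FU.Kill. -/

section

/-!
# Comparison of the definitions: the assembly map on the `K₁`-part
-/

set_option autoImplicit false

open Matrix

universe u v w

namespace Pool.Agent.H71.FQS

open Pool.Agent.H71.FQ (Cx HG centConj grpHom cent_comm mapGL)
open Pool.Agent.H95.WH (K1 FamSub conjHom FinSub stab)

section

end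

section

end

section

variable {R : Type u} [Ring R] {G : Type v} [Group G] {n : ℕ}

/-- The comparison of the two forms of the statement. -/
theorem transfer1 (h : FQ.RatInj (Pool.Agent.H16.FU.assembly01 R n G)) :
    ∃ (α₀ : HnK0 R G (n + 1) →+ KQ (MonoidAlgebra R G) (n + 1))
      (α₁ : HnK1 R G n →+ KQ (MonoidAlgebra R G) (n + 1)),
      IsAssembly α₀ ∧ IsAssembly1 α₁ ∧ RatInj (α₀.coprod α₁) := by
  refine ⟨asmS R G (n + 1), asmS1 R G n, asmS_isAssembly, asmS1_isAssembly1,
    (ratInj_iff _).2 fun z M hM hz => ?_⟩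
  have h0 : ∀ (z : FQ.HnK0 R G (n + 1) × Pool.Agent.H16.FU.HnK1 R G n) (M : ℤ), M ≠ 0 →
      M • Pool.Agent.H16.FU.assembly01 R n G z = 0 → ∃ m : ℤ, m ≠ 0 ∧ m • z = 0 :=
    (ratInj_iff _).1 h
  have h1 : M • Pool.Agent.H16.FU.assembly01 R n G (toH z.1, toH1c z.2) = 0 := by
    have h2 : toK (M • ((asmS R G (n + 1)).coprod (asmS1 R G n)) z) =
        M • Pool.Agent.H16.FU.assembly01 R n G (toH z.1, toH1c z.2) := by
      rw [map_zsmul, AddMonoidHom.coprod_apply, map_add]
      exact congrArg (M • ·) (congrArg₂ (· + ·) (toK_fromK _) (toK_fromK _))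
    rw [← h2, hz, map_zero]
  obtain ⟨m, hm, h3⟩ := h0 _ M hM h1
  refine ⟨m, hm, ?_⟩
  have h4 := congrArg Prod.fst h3
  have h5 := congrArg Prod.snd h3
  change m • toH z.1 = 0 at h4
  change m • toH1c z.2 = 0 at h5
  refine Prod.ext ?_ ?_
  · change m • z.1 = 0
    rw [← fromH_toH (m • z.1), map_zsmul toH, h4, map_zero]
  · change m • z.2 = 0
    rw [← fromH1_toH1c (m • z.2), map_zsmul toH1c, h5, map_zero]

end

end Pool.Agent.H71.FQS

end

section

/-!
# Comparison of the definitions: the assembly map on the `K₁`-part in all degrees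
-/

set_option autoImplicit false

open Matrix

universe u v w

namespace Pool.Agent.H71.FQ1

open Pool.Agent.H71.FQS (Ch bd push coi bnd Cyc PSep GLm blkM RF Cent KQ HnK0 IsAssembly RatInj LocRing toHG fromK fromK_cls toK toK_fromK asmS asmS_isAssembly ratInj_iff toH fromH_toH bd_eq push_eq mem_coi)
open Pool.Agent.H71.FQ (Cx HG centConj grpHom)
open Pool.Agent.H71.FU0 (H0K1 cl cl_conj lift10 lift10_cl h0k1_ext e1 mk_single cyc0 kq1 kq1_mk assembly10 assembly10_cl assembly00)
open Pool.Agent.H95.WH (K1 K1.mk K1.lift K1.lift_mk K1.hom_ext K1.mk_mul K1.mk_stab K1.map K1.map_mk K1.mapU FamSub conjHom FinSub stab)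

section

variable {R : Type u} [Ring R] {G : Type v} [Group G] {n : ℕ}

/-- the transfer in the degrees `n + 2` -/
theorem transfer_succ (h : ∃ (α₀ : HnK0 R G (n + 1) →+ KQ (MonoidAlgebra R G) (n + 1))
      (α₁ : FQS.HnK1 R G n →+ KQ (MonoidAlgebra R G) (n + 1)),
      IsAssembly α₀ ∧ FQS.IsAssembly1 α₁ ∧ RatInj (α₀.coprod α₁)) :
    ∃ (α₀ : HnK0 R G (n + 1) →+ KQ (MonoidAlgebra R G) (n + 1))
      (α₁ : HnK1 R G (n + 1) →+ KQ (MonoidAlgebra R G) (n + 1)),
      IsAssembly α₀ ∧ IsAssembly1 α₁ ∧ RatInj (α₀.coprod α₁) := by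
  obtain ⟨α₀, α₁, h0, h1, h2⟩ := h
  refine ⟨α₀, α₁.comp conv, h0, ?_, (ratInj_iff _).2 fun z M hM hz => ?_⟩
  · intro s σ u z' hσ hu hz
    rw [AddMonoidHom.comp_apply, conv_mk]
    exact h1 ⟨s.F, s.fin, s.N, s.U, ⟨s.z, s.cyc⟩⟩ σ u z' hσ hu hz
  · obtain ⟨m, hm, h3⟩ := (ratInj_iff _).1 h2 (z.1, conv z.2) M hM hz
    refine ⟨m, hm, ?_⟩
    have h4 : m • z.1 = 0 := congrArg Prod.fst h3
    have h5 : m • conv z.2 = 0 := congrArg Prod.snd h3
    refine Prod.ext h4 ?_
    change m • z.2 = 0
    rw [← vnoc_conv z.2, ← map_zsmul, h5, map_zero]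

end

/-! ### Degree one -/

section

end

section

end

section

end

end Pool.Agent.H71.FQ1

end

section

/-!
# Project FU: the `K₁`-part over a field with enough roots of unity

PROOFS. `exists_decomp`: `D` cyclic of order `N` with generator `g`, `ζ ∈ F` a primitive `N`-th root of unity
(so `N ≠ 0` in `F`), `χ_l(g) = ζ ^ l`, `ε_l = N⁻¹ ∑_a χ_l(a⁻¹) a ∈ F[D]`: orthogonal idempotents with sum `1`, and
`x ε_l = χ_l(x) ε_l` for `x ∈ k'[D]`; so `x = ∏_l (1 + ε_l (χ_l(x) - 1))` and `K₁.unit` of the factor is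
`sbass D j (χ_l(x)) [ε_l]` (`bass_mk` with a `1 × 1` matrix).

`exists_gen01`: `mem_sat1`; `e` is the product of the orders of the groups `D` which occur (closure induction;
`IsPrimitiveRoot.pow`), `hn1 (sy1 D (K1.unit x) z) = sy1 D (K1.unit x') z` and `exists_decomp`.
-/

set_option autoImplicit false

open Matrix

universe t u v w

namespace Pool.Agent.H16.FU

open Pool.Agent.H71.FQ
open Pool.Agent.H71.FJ (K0 K0.mk Sat Sat_of_smul mem_Sat)
open Pool.Agent.H71.DB (bmat bU bmat_mul bmat_one bass bass_mk bass_mul bass_comp map_bass)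
open Pool.Agent.H95.WH (K1 K1.mk K1.unit K1.map K1.map_mk K1.map_map FamSub conjHom FinSub)

section

section Dec

set_option linter.unusedSectionVars false

end Dec

/-- **Decomposition by characters.** -/
theorem exists_decomp {F : Type t} [Field F] {k : Type u} [Field k] (j : F →+* k) {D : Type v}
    [Group D] [Finite D] [IsCyclic D] (ζ : F) (hζ : IsPrimitiveRoot ζ (Nat.card D))
    (x : (MonoidAlgebra k D)ˣ) :
    ∃ (r : ℕ) (u : Fin r → kˣ) (y : Fin r → K0 (MonoidAlgebra F D)),
      K1.unit x = ∑ i, sbass D j (u i) (y i) := by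
  classical
  have : Fintype D := Fintype.ofFinite D
  obtain ⟨g, hg⟩ := IsCyclic.exists_generator (α := D)
  have hpos : 0 < Nat.card D := Nat.card_pos
  have : NeZero (Nat.card D) := ⟨hpos.ne'⟩
  have hN : (Nat.card D : F) ≠ 0 := by
    have := hζ.neZero'
    exact NeZero.ne _
  have hord : orderOf g = Nat.card D := orderOf_eq_card_of_forall_mem_zpowers hg
  set Z : Fˣ := hζ.toRootsOfUnity.1 with hZ
  have hZv : (Z : F) = ζ := rfl
  have hZord : orderOf Z = Nat.card D := by
    rw [← orderOf_units, hZv]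
    exact hζ.eq_orderOf.symm
  have hdvd : orderOf Z ∣ orderOf g := by rw [hZord, hord]
  set ψ : D →* Fˣ := monoidHomOfForallMemZpowers hg hdvd with hψdef
  have hψg : ψ g = Z := monoidHomOfForallMemZpowers_apply_gen hg hdvd
  have hψ : Function.Injective ψ := by
    rw [injective_iff_map_eq_one]
    intro d hd
    obtain ⟨a, rfl⟩ := hg d
    simp only at hd ⊢
    rw [map_zpow, hψg, ← orderOf_dvd_iff_zpow_eq_one, hZord, ← hord,
      orderOf_dvd_iff_zpow_eq_one] at hd
    exact hd
  set u : ℕ → kˣ := fun l => Units.map (chR j ψ l : MonoidAlgebra k D →* k) x with hu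
  set E : ℕ → MonoidAlgebra k D := fun l => MonoidAlgebra.mapRingHom D j (chE ψ l) with hE
  have hEE : ∀ l, E l * E l = E l := by
    intro l
    simp only [hE]
    rw [← map_mul, chE_mul_self ψ l hN]
  have hne : ∀ l m, l < Nat.card D → m < Nat.card D → l ≠ m → E l * E m = 0 := by
    intro l m hl hm hlm
    simp only [hE]
    rw [← map_mul, chE_mul_of_ne ψ l m g, map_zero]
    rw [hψg, hZv]
    intro h
    exact hlm (hζ.pow_inj hl hm h)
  have hcs : ∀ (c : kˣ) (b : MonoidAlgebra k D), b * (sU D c - 1) = (sU D c - 1) * b := by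
    intro c b
    rw [mul_sub, sub_mul, sU_comm, mul_one, one_mul]
  have hv : ∀ l, ∃ y : (MonoidAlgebra k D)ˣ, (y : MonoidAlgebra k D) = 1 + E l * (sU D (u l) - 1) := by
    intro l
    have key : ∀ c c' : kˣ, c * c' = 1 →
        (1 + E l * (sU D c - 1)) * (1 + E l * (sU D c' - 1)) = 1 := by
      intro c c' hc
      have h1 : (sU D c : MonoidAlgebra k D) * sU D c' = 1 := by
        rw [← Units.val_mul, ← sU_mul, hc]
        rfl
      have h2 : (1 + E l * (sU D c - 1)) * (1 + E l * (sU D c' - 1)) =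
          1 + E l * ((sU D c - 1) + (sU D c' - 1)) +
            (E l * (sU D c - 1)) * (E l * (sU D c' - 1)) := by
        noncomm_ring
      have h3 : (E l * (sU D c - 1)) * (E l * (sU D c' - 1)) =
          E l * ((sU D c - 1) * (sU D c' - 1)) := by
        rw [mul_assoc, ← mul_assoc (_ - _) (E l), ← hcs, mul_assoc, ← mul_assoc (E l), hEE]
      have h4 : ((sU D c : MonoidAlgebra k D) - 1) * (sU D c' - 1) =
          1 - sU D c - sU D c' + 1 := by
        rw [mul_sub, sub_mul, h1]
        noncomm_ring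
      rw [h2, h3, h4, add_assoc, ← mul_add]
      have h5 : ((sU D c : MonoidAlgebra k D) - 1 + (sU D c' - 1)) +
          (1 - sU D c - sU D c' + 1) = 0 := by abel
      rw [h5, mul_zero, add_zero]
    exact ⟨⟨1 + E l * (sU D (u l) - 1), 1 + E l * (sU D (u l)⁻¹ - 1), key _ _ (mul_inv_cancel _),
      key _ _ (inv_mul_cancel _)⟩, rfl⟩
  choose v hv using hv
  have hX : ∀ s ≤ Nat.card D, ∃ X : (MonoidAlgebra k D)ˣ,
      (X : MonoidAlgebra k D) = 1 + ∑ l ∈ Finset.range s, E l * (sU D (u l) - 1) ∧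
      K1.unit X = ∑ l ∈ Finset.range s, K1.unit (v l) := by
    intro s
    induction s with
    | zero =>
      intro _
      refine ⟨1, ?_, ?_⟩
      · rw [Finset.range_zero, Finset.sum_empty, add_zero]
        rfl
      · rw [Finset.range_zero, Finset.sum_empty, Pool.Agent.H71.DO.K1_unit_one]
    | succ s ih =>
      intro hs
      obtain ⟨X, hX1, hX2⟩ := ih (by omega)
      refine ⟨X * v s, ?_, ?_⟩
      · rw [Units.val_mul, hX1, hv, Finset.sum_range_succ, add_mul, one_mul, mul_add, mul_one,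
          Finset.sum_mul]
        have h1 : ∀ l ∈ Finset.range s, E l * (sU D (u l) - 1) * (E s * (sU D (u s) - 1)) = 0 := by
          intro l hl
          rw [Finset.mem_range] at hl
          rw [mul_assoc, ← mul_assoc (_ - _) (E s), ← hcs, mul_assoc, ← mul_assoc (E l),
            hne l s (by omega) (by omega) (by omega), zero_mul]
        rw [Finset.sum_eq_zero h1, add_zero]
        abel
      · rw [Pool.Agent.H95.WH.K1.unit_mul, hX2, Finset.sum_range_succ]
  obtain ⟨X, hX1, hX2⟩ := hX (Nat.card D) le_rfl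
  have hsum : ∑ l ∈ Finset.range (Nat.card D), E l = 1 := by
    simp only [hE]
    rw [← map_sum, sum_chE ψ hψ hN, map_one]
  have hXx : X = x := by
    refine Units.ext ?_
    rw [hX1]
    have h1 : ∀ l ∈ Finset.range (Nat.card D), E l * ((sU D (u l) : MonoidAlgebra k D) - 1) =
        (x : MonoidAlgebra k D) * E l - E l := by
      intro l _
      rw [mul_sub, mul_one, sU_comm]
      congr 1
      exact (mul_chE j ψ l x).symm
    rw [Finset.sum_congr rfl h1, Finset.sum_sub_distrib, ← Finset.mul_sum, hsum, mul_one]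
    abel
  have hy : ∀ l, ∃ y : K0 (MonoidAlgebra F D), sbass D j (u l) y = K1.unit (v l) := fun l =>
    sbass_one D j (u l) (chE ψ l) (chE_mul_self ψ l hN) (v l) (hv l)
  choose y hy using hy
  refine ⟨Nat.card D, fun i => u i, fun i => y i, ?_⟩
  rw [← hXx, hX2, Finset.sum_range]
  exact Finset.sum_congr rfl fun i _ => (hy i).symm

/-- **Generation over fields with enough roots of unity.** -/
theorem exists_gen01 {k : Type u} [Field k] (p : ℕ) [Fact p.Prime] [CharP k p] {G : Type v}
    [Group G] {n : ℕ} (w : HnK1 k G n) : ∃ e : ℕ, ¬ p ∣ e ∧ ∃ m : ℤ, m ≠ 0 ∧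
      ∀ {k' : Type w} [Field k'] (θ : k →+* k') {F : Type t} [Field F] (j : F →+* k') (ζ : F),
        IsPrimitiveRoot ζ e → m • hn1 θ w ∈ AddSubgroup.closure (VSet j G n) := by
  obtain ⟨m, hm, hw⟩ := mem_sat1 p w
  have key : ∀ v ∈ AddSubgroup.closure (USet k G n), ∃ e : ℕ, ¬ p ∣ e ∧
      ∀ (k' : Type w) [Field k'] (θ : k →+* k') (F : Type t) [Field F] (j : F →+* k') (ζ : F),
        IsPrimitiveRoot ζ e → hn1 θ v ∈ AddSubgroup.closure (VSet j G n) := by
    intro v hv
    induction hv using AddSubgroup.closure_induction with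
    | mem v hv =>
      obtain ⟨D, hD, ho, x, z, rfl⟩ := hv
      have hfin : Finite D.1 := D.2
      refine ⟨Nat.card D.1, ?_, ?_⟩
      · intro h
        obtain ⟨g, hg⟩ := IsCyclic.exists_generator (α := D.1)
        have h1 : orderOf g = Nat.card D.1 := orderOf_eq_card_of_forall_mem_zpowers hg
        obtain ⟨a, ha⟩ := h
        apply ho g
        rw [h1, ha, Nat.cast_mul, CharP.cast_eq_zero, zero_mul]
      · intro k' _ θ F _ j ζ hζ
        obtain ⟨r, u, y, h1⟩ := exists_decomp j ζ hζ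
          (Units.map (MonoidAlgebra.mapRingHom D.1 θ).toMonoidHom x)
        have h2 : K1.map (MonoidAlgebra.mapRingHom D.1 θ) (K1.unit x) =
            K1.unit (Units.map (MonoidAlgebra.mapRingHom D.1 θ).toMonoidHom x) :=
          K1.map_unit _ _
        rw [hn1_sy1, h2, h1, ← syB1_apply, map_sum, AddMonoidHom.finsetSum_apply]
        refine AddSubgroup.sum_mem _ fun i _ => AddSubgroup.subset_closure
          ⟨D, hD, ?_, u i, y i, z, ?_⟩
        · intro h h3
          apply ho h
          have h4 : ((orderOf h : ℕ) : k') = 0 := by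
            rw [← map_natCast j, h3, map_zero]
          rw [← map_natCast θ] at h4
          exact (map_eq_zero θ).1 h4
        · rw [hn01_sy, syB1_apply]
    | zero =>
      refine ⟨1, ?_, ?_⟩
      · intro h
        exact (Fact.out : p.Prime).one_lt.ne' (Nat.dvd_one.1 h)
      · intro k' _ θ F _ j ζ _
        rw [map_zero]
        exact AddSubgroup.zero_mem _
    | add a b _ _ ha hb =>
      obtain ⟨e, he, h1⟩ := ha
      obtain ⟨e', he', h2⟩ := hb
      have h0 : ∀ e : ℕ, ¬ p ∣ e → 0 < e := fun e he => Nat.pos_of_ne_zero (by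
        rintro rfl
        exact he (dvd_zero p))
      refine ⟨e * e', ?_, ?_⟩
      · intro h
        rcases (Fact.out : p.Prime).dvd_mul.1 h with h | h
        · exact he h
        · exact he' h
      · intro k' _ θ F _ j ζ hζ
        rw [map_add]
        refine AddSubgroup.add_mem _ (h1 k' θ F j (ζ ^ e') ?_) (h2 k' θ F j (ζ ^ e) ?_)
        · exact hζ.pow (Nat.mul_pos (h0 e he) (h0 e' he')) (mul_comm e e')
        · exact hζ.pow (Nat.mul_pos (h0 e he) (h0 e' he')) rfl
    | neg a _ ha =>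
      obtain ⟨e, he, h1⟩ := ha
      refine ⟨e, he, ?_⟩
      intro k' _ θ F _ j ζ hζ
      rw [map_neg]
      exact AddSubgroup.neg_mem _ (h1 k' θ F j ζ hζ)
  obtain ⟨e, he, h⟩ := key _ hw
  refine ⟨e, he, m, hm, ?_⟩
  intro k' _ θ F _ j ζ hζ
  rw [← map_zsmul]
  exact h k' θ F j ζ hζ

end

end Pool.Agent.H16.FU

end

section

/-!
# Project FU: the functionals `dtr` vanish on the `K₁`-part

PROOFS. `exists_pow_unit`: `Frobenius: ∑ a_d d ↦ ∑ a_d ^ p d ^ p` is a ring automorphism of `K[D]` because `K` is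
perfect and `d ↦ d ^ p` is bijective on `D`. `dtr_unit`: over `K` the class of the unit is `p ^ m` times the class of
a unit (`map_gasm1`, `K1_unit_pow`), and `p ^ m = 0` in `B m` (`(X.ld m).hB`; look up the exact exponent, adapt).
`vanOn_assembly1`: `mem_sat1`, `VanOn.of_smul`, closure induction (`M = 1` for the elements of `USet`).
-/

set_option autoImplicit false

open Matrix

universe t u v w

namespace Pool.Agent.H16.FU

open Pool.Agent.H71.FQ
open Pool.Agent.H71.FJ (K0 Sat Sat_of_smul mem_Sat)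
open Pool.Agent.H71.DO (K1_unit_pow K1_unit_inv K1_unit_one)
open Pool.Agent.H95.WH (K1 K1.mk K1.unit K1.map K1.map_mk K1.map_map FamSub conjHom FinSub)

/-- units of `K[D]` are `p ^ m`-th powers -/
theorem exists_pow_unit {K : Type u} [Field K] (p : ℕ) [Fact p.Prime] [CharP K p] [PerfectRing K p]
    {D : Type v} [Group D] [Finite D] [IsCyclic D] (hD : ¬ p ∣ Nat.card D) (m : ℕ)
    (x : (MonoidAlgebra K D)ˣ) : ∃ y : (MonoidAlgebra K D)ˣ, y ^ p ^ m = x := by
  let _ : CommGroup D := IsCyclic.commGroup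
  have hp : p.Prime := Fact.out
  have : CharP (MonoidAlgebra K D) p := charP_group_ring K p D
  have hco : (Nat.card D).Coprime (p ^ m) :=
    (Nat.Coprime.pow_left m ((Nat.Prime.coprime_iff_not_dvd hp).2 hD)).symm
  have key : ∀ z : MonoidAlgebra K D, ∃ y, y ^ p ^ m = z := by
    intro z
    induction z using MonoidAlgebra.induction_linear with
    | zero => exact ⟨0, zero_pow (pow_pos hp.pos m).ne'⟩
    | add z w hz hw =>
      obtain ⟨y, rfl⟩ := hz
      obtain ⟨y', rfl⟩ := hw
      exact ⟨y + y', add_pow_char_pow _ _ _ _⟩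
    | single d c =>
      obtain ⟨e, rfl⟩ := (powCoprime hco).surjective d
      obtain ⟨b, rfl⟩ := (iterateFrobeniusEquiv K p m).surjective c
      refine ⟨MonoidAlgebra.single e b, ?_⟩
      rw [MonoidAlgebra.single_pow]
      rfl
  obtain ⟨y, hy⟩ := key x
  have hu : IsUnit y := by
    have h1 : IsUnit (y ^ p ^ m) := by rw [hy]; exact x.isUnit
    exact (isUnit_pow_iff (pow_pos hp.pos m).ne').1 h1
  obtain ⟨y', rfl⟩ := hu
  exact ⟨y', Units.ext (by rw [Units.val_pow_eq_pow_val, hy])⟩

section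

variable {k : Type u} [Field k] {K : Type t} [Field K] [IsAlgClosed K] {G : Type v} [Group G]
  (X : Ctx k K G) {n : ℕ}

theorem dtr_unit (D : FamSub G FinSub) [IsCyclic D.1] (ho : ∀ h : D.1, (orderOf h : k) ≠ 0)
    (x : (MonoidAlgebra k D.1)ˣ) (z : HG (Subgroup.centralizer (D.1 : Set G)) n) (c : G)
    (hc : IsOfFinOrder c) {φ : (Fin (n + 1 + 2) → Subgroup.centralizer ({c} : Set G)) → X.L.Lam}
    (hφ : IsCoc (Subgroup.centralizer ({c} : Set G)) (n + 1) φ) (m : ℕ) :
    X.dtr c hc hφ m (assembly1 k n G (sy1 D (K1.unit x) z)) = 0 := by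
  have hfin : Finite D.1 := D.2
  have hft : Fintype D.1 := Fintype.ofFinite D.1
  have : Fact X.p.Prime := ⟨X.hp⟩
  have : CharP K X.p := (CharP.charP_iff_prime_eq_zero X.hp).2 (by
    have h := congrArg X.i X.hk
    rwa [map_natCast, map_zero] at h)
  have : PerfectRing K X.p := inferInstance
  have hD : ¬ X.p ∣ Nat.card D.1 := by
    rw [Nat.card_eq_fintype_card]
    exact X.not_dvd D ho
  obtain ⟨y, hy⟩ := exists_pow_unit X.p hD (m + 1)
    (Units.map (MonoidAlgebra.mapRingHom D.1 X.i).toMonoidHom x)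
  have h1 : K1.map (MonoidAlgebra.mapRingHom D.1 X.i) (K1.unit x) =
      X.p ^ (m + 1) • K1.unit y := by
    have h2 : K1.map (MonoidAlgebra.mapRingHom D.1 X.i) (K1.unit x) =
        K1.unit (Units.map (MonoidAlgebra.mapRingHom D.1 X.i).toMonoidHom x) := K1.map_unit _ _
    rw [h2, ← hy, K1_unit_pow]
  have h2 : KQ.map (MonoidAlgebra.mapRingHom G X.i) (assembly1 k n G (sy1 D (K1.unit x) z)) =
      X.p ^ (m + 1) • gasm1 K n D.1.subtype (Subgroup.centralizer (D.1 : Set G)).subtype
        (cent_comm D.1) (K1.unit y) z := by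
    rw [asm1_sy1, map_gasm1, h1, map_nsmul]
    rfl
  have h3 : X.dtr c hc hφ m (assembly1 k n G (sy1 D (K1.unit x) z)) =
      trT (X.ld m) (X.isPhi m c hc hφ) (KQ.map (MonoidAlgebra.mapRingHom G X.i)
        (assembly1 k n G (sy1 D (K1.unit x) z))) := rfl
  rw [h3, h2, map_nsmul]
  have h4 := (X.ld m).hB
  have h5 : ∀ b : (X.ld m).B, X.p ^ (m + 1) • b = 0 := by
    intro b
    rw [nsmul_eq_mul, Nat.cast_pow, h4, zero_mul]
  exact h5 _

/-- **The functionals vanish on the `K₁`-part up to a uniform multiple.** -/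
theorem vanOn_assembly1 (w : HnK1 k G n) : VanOn X (fun _ => True) (assembly1 k n G w) := by
  have : Fact X.p.Prime := ⟨X.hp⟩
  have : CharP k X.p := (CharP.charP_iff_prime_eq_zero X.hp).2 X.hk
  obtain ⟨m, hm, hw⟩ := mem_sat1 X.p w
  apply VanOn.of_smul hm
  rw [← map_zsmul]
  generalize m • w = v at hw
  induction hw using AddSubgroup.closure_induction with
  | mem v hv =>
    obtain ⟨D, hD, ho, x, z, rfl⟩ := hv
    refine ⟨1, one_ne_zero, fun c _ hc φ hφ m => ?_⟩
    rw [dtr_unit X D ho x z c hc hφ m, mul_zero]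
  | zero =>
    rw [map_zero]
    exact VanOn.zero
  | add a b _ _ ha hb =>
    rw [map_add]
    exact ha.add hb
  | neg a _ ha =>
    rw [map_neg]
    exact ha.neg

end

end Pool.Agent.H16.FU

end
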