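import Mathlib

/-! The parts of this file: H16.KN.Cnt, H16.KN.LinSN, H8.KL.Ap, H8.KZ.Ev, H8.KZ.LocP, H95.KM.FouDefs, H95.KM.Fou, H95.KM.LinAlg, H95.WH.Cor, H95.WH.Cyc. -/

section

/-!
# Project KN: sums of cyclically invariant functions

PROOF of `cyc_sum_dvd`.  The cyclic group of order `q = p ^ m` acts on the functions `w : Fin q → S` by rotation
(`finRotate q`).  The sum over an orbit of `w` is (length of the orbit) * `F w`.  The length is `p ^ (m - j)`, where
`p ^ j` is the order of the stabilizer.  If `F w ≠ 0` then `w` is not fixed by the rotation by `p ^ a`, so the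
length of the orbit does not divide `p ^ a`, so it is divisible by `p ^ (a + 1)`.
-/

set_option autoImplicit false

universe u v

namespace Pool.Agent.H16.KN

/-- rotation of a function on `Fin q` by `d` places -/
def rotF {q : ℕ} {S : Type u} (d : ℕ) (w : Fin q → S) : Fin q → S := fun i => w ((finRotate q)^[d] i)

/-- the iterates of the rotation of `Fin (n + 1)` -/
private theorem rot_iter (n k : ℕ) (i : Fin (n + 1)) :
    (((finRotate (n + 1))^[k] i : Fin (n + 1)) : ℕ) = ((i : ℕ) + k) % (n + 1) := by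
  induction k with
  | zero => simp [Nat.mod_eq_of_lt i.2]
  | succ k ih =>
    rw [Function.iterate_succ_apply', finRotate_apply, Fin.val_add, ih, Fin.val_one', ← Nat.add_mod, add_assoc]

/-- the rotation of `Fin q` has period `q` -/
private theorem rot_self (q : ℕ) (i : Fin q) : (finRotate q)^[q] i = i := by
  cases q with
  | zero => exact i.elim0
  | succ n =>
    apply Fin.ext
    rw [rot_iter, Nat.add_mod_right, Nat.mod_eq_of_lt i.2]

/-- the rotation of functions as a permutation -/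
private def rotP (q : ℕ) (S : Type u) : Equiv.Perm (Fin q → S) :=
  Equiv.arrowCongr (finRotate q).symm (Equiv.refl S)

private theorem rotP_apply {q : ℕ} {S : Type u} (w : Fin q → S) : rotP q S w = rotF 1 w := by
  funext i
  simp [rotP, rotF]

private theorem rotP_iter {q : ℕ} {S : Type u} (k : ℕ) (w : Fin q → S) : (rotP q S)^[k] w = rotF k w := by
  induction k with
  | zero => rfl
  | succ k ih =>
    rw [Function.iterate_succ_apply', ih, rotP_apply]
    funext i
    simp [rotF, Function.iterate_succ_apply]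

/-- **Sums of cyclically invariant functions.** -/
theorem cyc_sum_dvd {p : ℕ} (hp : p.Prime) (m a : ℕ) (ha : a ≤ m) {S : Type u} [Fintype S]
    {B : Type v} [CommRing B] (F : (Fin (p ^ m) → S) → B) (hF : ∀ w, F (rotF 1 w) = F w)
    (h0 : ∀ w, rotF (p ^ a) w = w → F w = 0) : (p : B) ^ (a + 1) ∣ ∑ w, F w := by
  classical
  set T : Equiv.Perm (Fin (p ^ m) → S) := rotP (p ^ m) S with hT
  -- the function is invariant under the group generated by the rotation
  have hinv : ∀ (g : Subgroup.zpowers T) (w : Fin (p ^ m) → S), F (g • w) = F w := by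
    rintro ⟨g, hg⟩ w
    obtain ⟨k, rfl⟩ := Subgroup.mem_zpowers_iff.1 hg
    change F ((T ^ k) w) = F w
    have h1 : ∀ w, F (T w) = F w := fun w => by rw [hT, rotP_apply]; exact hF w
    have hn : ∀ (n : ℕ) (w : Fin (p ^ m) → S), F ((T ^ n) w) = F w := by
      intro n
      induction n with
      | zero => intro w; rfl
      | succ n ih => intro w; rw [pow_succ, Equiv.Perm.mul_apply, ih, h1]
    cases k with
    | ofNat n => exact hn n w
    | negSucc n =>
      rw [zpow_negSucc]
      have := hn (n + 1) ((T ^ (n + 1))⁻¹ w)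
      rw [← Equiv.Perm.mul_apply, mul_inv_cancel, Equiv.Perm.one_apply] at this
      exact this.symm
  rw [← (MulAction.selfEquivSigmaOrbits (Subgroup.zpowers T) (Fin (p ^ m) → S)).symm.sum_comp]
  rw [Fintype.sum_sigma]
  refine Finset.dvd_sum fun ω _ => ?_
  have hc : ∀ x : MulAction.orbit (Subgroup.zpowers T) ω.out,
      F ((MulAction.selfEquivSigmaOrbits (Subgroup.zpowers T) (Fin (p ^ m) → S)).symm ⟨ω, x⟩) = F ω.out := by
    rintro ⟨x, hx⟩
    obtain ⟨g, rfl⟩ := hx
    exact hinv g _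
  rw [Finset.sum_congr rfl fun x _ => hc x, Finset.sum_const, Finset.card_univ, nsmul_eq_mul]
  by_cases hz : F ω.out = 0
  · rw [hz, mul_zero]
    exact dvd_zero _
  refine Dvd.dvd.mul_right ?_ _
  rw [← Nat.cast_pow]
  refine Nat.cast_dvd_cast ?_
  have hcard : Fintype.card (MulAction.orbit (Subgroup.zpowers T) ω.out)
      = Function.minimalPeriod (T • ·) ω.out := by
    rw [MulAction.minimalPeriod_eq_card]
  rw [hcard]
  have hper : Function.IsPeriodicPt (T • ·) (p ^ m) ω.out := by
    change (fun w => T w)^[p ^ m] ω.out = ω.out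
    have := rotP_iter (q := p ^ m) (S := S) (p ^ m) ω.out
    rw [← hT] at this
    refine this.trans ?_
    funext i
    change ω.out ((finRotate (p ^ m))^[p ^ m] i) = ω.out i
    rw [rot_self]
  obtain ⟨k, -, hk⟩ := (Nat.dvd_prime_pow hp).1 hper.minimalPeriod_dvd
  rw [hk]
  refine pow_dvd_pow p ?_
  by_contra hlt
  apply hz
  apply h0
  have hdvd : Function.minimalPeriod (T • ·) ω.out ∣ p ^ a := by
    rw [hk]
    exact pow_dvd_pow p (by omega)
  have h2 := (Function.isPeriodicPt_iff_minimalPeriod_dvd.2 hdvd)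
  rw [← rotP_iter, ← hT]
  exact h2

end Pool.Agent.H16.KN

end

section

/-!
# Project KN, module LinSN: `p`-integral homomorphisms determine all homomorphisms (additive form)

The additive version of `Pool/Agent/H8/KZ/LinS.lean`.
-/

set_option autoImplicit false

universe u v w

namespace Pool.Agent.H16.KN

/-- every element killed by all homomorphisms with values in the rational numbers with denominator prime to `p`
has finite order -/
def PSepA (p : ℕ) (X : Type v) [AddCommGroup X] : Prop :=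
  ∀ x : X, (∀ f : X →+ ℚ, (∀ y, ¬ p ∣ (f y).den) → f x = 0) → ∃ r : ℕ, r ≠ 0 ∧ r • x = 0

private theorem linS_rat {p : ℕ} {X : Type v} [AddCommGroup X] (hX : PSepA p X) {L : Type} [Field L]
    [CharZero L] {K : Type*} [Fintype K] (q : K → ℚ) (a : K → X)
    (h0 : ∀ lam : X →+ ℚ, (∀ y, ¬ p ∣ (lam y).den) → ∑ k, q k * lam (a k) = 0) (h : X →+ L) :
    ∑ k, (q k : L) * h (a k) = 0 := by
  classical
  set M : ℕ := ∏ k, (q k).den with hM
  have hM0 : M ≠ 0 := Finset.prod_ne_zero_iff.2 fun k _ => (q k).den_nz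
  have hdiv : ∀ k, (q k).den ∣ M := fun k => Finset.dvd_prod_of_mem _ (Finset.mem_univ k)
  have hm : ∀ k, ∃ m : ℤ, (m : ℚ) = M * q k := by
    intro k
    obtain ⟨c, hc⟩ := hdiv k
    refine ⟨c * (q k).num, ?_⟩
    have h1 : ((q k).den : ℚ) * q k = (q k).num := by
      rw [mul_comm]
      exact Rat.mul_den_eq_num (q k)
    rw [hc]
    push_cast
    rw [← h1]
    ring
  choose m hm using hm
  have hker : ∀ f : X →+ ℚ, (∀ y, ¬ p ∣ (f y).den) → f (∑ k, m k • a k) = 0 := by
    intro f hf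
    rw [map_sum]
    have h2 : ∀ k, f (m k • a k) = (M : ℚ) * (q k * f (a k)) := by
      intro k
      rw [map_zsmul, zsmul_eq_mul, hm k]
      ring
    rw [Finset.sum_congr rfl fun k _ => h2 k, ← Finset.mul_sum, h0 f hf, mul_zero]
  obtain ⟨r, hr, hxr⟩ := hX _ hker
  have h4 : r • h (∑ k, m k • a k) = 0 := by
    rw [← map_nsmul, hxr, map_zero]
  have h5 : h (∑ k, m k • a k) = 0 := by
    rw [nsmul_eq_mul] at h4
    rcases mul_eq_zero.1 h4 with h | h
    · exact absurd (Nat.cast_eq_zero.1 h) hr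
    · exact h
  rw [map_sum] at h5
  have h6 : ∀ k, h (m k • a k) = (M : L) * ((q k : L) * h (a k)) := by
    intro k
    have h7 : ((m k : ℚ) : L) = ((M * q k : ℚ) : L) := by rw [hm k]
    push_cast at h7
    rw [map_zsmul, zsmul_eq_mul, h7]
    ring
  rw [Finset.sum_congr rfl fun k _ => h6 k, ← Finset.mul_sum] at h5
  rcases mul_eq_zero.1 h5 with h | h
  · exact absurd (Nat.cast_eq_zero.1 h) hM0
  · exact h

theorem sep_homA {p : ℕ} {X : Type v} [AddCommGroup X] (hX : PSepA p X) {L : Type} [Field L]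
    [CharZero L] {K : Type*} [Fintype K] (w : K → L) (a : K → X)
    (h0 : ∀ lam : X →+ ℚ, (∀ y, ¬ p ∣ (lam y).den) → ∑ k, w k * ((lam (a k) : ℚ) : L) = 0)
    (h : X →+ L) : ∑ k, w k * h (a k) = 0 := by
  classical
  let b := Module.Basis.ofVectorSpace ℚ L
  have hq : ∀ β, ∑ k, ((b.repr (w k) β : ℚ) : L) * h (a k) = 0 := by
    intro β
    refine linS_rat hX (fun k => b.repr (w k) β) a (fun lam hlam => ?_) h
    have h1 := congrArg (fun z => b.repr z β) (h0 lam hlam)
    simp only [map_zero, Finsupp.coe_zero, Pi.zero_apply] at h1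
    rw [← h1, map_sum, Finsupp.finsetSum_apply]
    refine Finset.sum_congr rfl fun k _ => ?_
    have h2 : w k * ((lam (a k) : ℚ) : L) = (lam (a k) : ℚ) • w k := by
      rw [Algebra.smul_def, mul_comm]
      rfl
    rw [h2, map_smul, Finsupp.smul_apply, smul_eq_mul, mul_comm]
  set s : Finset (Module.Basis.ofVectorSpaceIndex ℚ L) :=
    Finset.univ.biUnion (fun k : K => (b.repr (w k)).support) with hs
  have hw : ∀ k, w k = ∑ β ∈ s, ((b.repr (w k) β : ℚ) : L) * b β := by
    intro k
    conv_lhs => rw [← b.linearCombination_repr (w k), Finsupp.linearCombination_apply]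
    rw [Finsupp.sum_of_support_subset (s := s)]
    · refine Finset.sum_congr rfl fun β _ => ?_
      rw [Algebra.smul_def]
      rfl
    · exact Finset.subset_biUnion_of_mem (fun k : K => (b.repr (w k)).support)
        (Finset.mem_univ k)
    · intro β _
      exact zero_smul _ _
  calc ∑ k, w k * h (a k)
      = ∑ k, ∑ β ∈ s, b β * (((b.repr (w k) β : ℚ) : L) * h (a k)) := by
        refine Finset.sum_congr rfl fun k _ => ?_
        conv_lhs => rw [hw k]
        rw [Finset.sum_mul]
        refine Finset.sum_congr rfl fun β _ => ?_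
        ring
    _ = ∑ β ∈ s, b β * ∑ k, (((b.repr (w k) β : ℚ) : L) * h (a k)) := by
        rw [Finset.sum_comm]
        refine Finset.sum_congr rfl fun β _ => ?_
        rw [Finset.mul_sum]
    _ = 0 := by
        refine Finset.sum_eq_zero fun β _ => ?_
        rw [hq β, mul_zero]

/-- additive form of `class_zero` -/
theorem class_zeroA {X : Type v} [AddCommGroup X] {L : Type} [Field L] [CharZero L] {Γ : Type}
    [Group Γ] [Fintype Γ] (aL : Γ → L →+* L) (hmul : ∀ g g' x, aL (g * g') x = aL g (aL g' x))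
    {P : Type} [Fintype P] (hh : P → (X →+ L))
    (hsum : ∀ y, ∑ m, hh m y = 0) {K J : Type*} [Fintype K] [Fintype J]
    (u : K → P → L) (b : K → X) (w : J → L) (a : J → X)
    (hrel : ∀ m : P, (∀ y, hh m y = 0) ∨ ∃ (p : ℕ) (T : Type) (_ : Fintype T) (_ : Nonempty T)
      (σ : T → Γ), PSepA p X ∧ (∀ t y, aL (σ t) (hh m y) = hh m y) ∧
        ∀ lam : X →+ ℚ, (∀ y, ¬ p ∣ (lam y).den) →
          ∑ t, aL (σ t) (∑ k, u k m * ((lam (b k) : ℚ) : L)) =
          ∑ t, aL (σ t) (∑ j, w j * ((lam (a j) : ℚ) : L))) :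
    ∑ g, aL g (∑ m, ∑ k, u k m * hh m (b k)) = 0 := by
  classical
  have hkey : ∀ m : P, ∑ g, aL g (∑ k, u k m * hh m (b k)) =
      ∑ g, aL g (∑ j, w j * hh m (a j)) := by
    intro m
    rcases hrel m with h1 | ⟨p, T, hT, hTn, σ, hp, hfix, hlam⟩
    · refine Finset.sum_congr rfl fun g _ => ?_
      simp [h1]
    · have hshift : ∀ X' : L, (Fintype.card T : L) * ∑ g, aL g X' =
          ∑ g, aL g (∑ t, aL (σ t) X') := by
        intro X'
        have h3 : ∀ t : T, ∑ g, aL g X' = ∑ g, aL g (aL (σ t) X') := by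
          intro t
          rw [← Equiv.sum_comp (Equiv.mulRight (σ t)) (fun g => aL g X')]
          refine Finset.sum_congr rfl fun g _ => ?_
          exact hmul g (σ t) X'
        calc (Fintype.card T : L) * ∑ g, aL g X' = ∑ t : T, ∑ g, aL g X' := by
              rw [Finset.sum_const, Finset.card_univ, nsmul_eq_mul]
          _ = ∑ t : T, ∑ g, aL g (aL (σ t) X') := Finset.sum_congr rfl fun t _ => h3 t
          _ = ∑ g, aL g (∑ t, aL (σ t) X') := by
              rw [Finset.sum_comm]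
              refine Finset.sum_congr rfl fun g _ => ?_
              rw [map_sum]
      have hsep := sep_homA hp (Sum.elim (fun k => ∑ t, aL (σ t) (u k m))
        (fun j => - ∑ t, aL (σ t) (w j))) (Sum.elim b a) (fun lam hl => by
          have h4 := hlam lam hl
          rw [Fintype.sum_sum_type]
          simp only [Sum.elim_inl, Sum.elim_inr]
          have h5 : ∀ (Q : Type _) [Fintype Q] (c : Q → L) (z : Q → X),
              ∑ t, aL (σ t) (∑ k, c k * ((lam (z k) : ℚ) : L)) =
              ∑ k, (∑ t, aL (σ t) (c k)) * ((lam (z k) : ℚ) : L) := by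
            intro Q _ c z
            simp only [map_sum, map_mul, map_ratCast]
            rw [Finset.sum_comm]
            refine Finset.sum_congr rfl fun k _ => ?_
            rw [Finset.sum_mul]
          have h6 : ∀ (Q : Type _) [Fintype Q] (c : Q → L) (z : Q → X),
              ∑ t, aL (σ t) (∑ k, c k * ((lam (z k) : ℚ) : L)) =
              ∑ k, (∑ t, aL (σ t) (c k)) * ((lam (z k) : ℚ) : L) := by
            intro Q _ c z
            simp only [map_sum, map_mul, map_ratCast]
            rw [Finset.sum_comm]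
            refine Finset.sum_congr rfl fun k _ => ?_
            rw [Finset.sum_mul]
          rw [h5 K (fun k => u k m) b, h6 J w a] at h4
          rw [h4]
          simp only [neg_mul, Finset.sum_neg_distrib]
          exact add_neg_cancel _) (hh m)
      have hXY : ∑ t, aL (σ t) (∑ k, u k m * hh m (b k)) =
          ∑ t, aL (σ t) (∑ j, w j * hh m (a j)) := by
        rw [Fintype.sum_sum_type] at hsep
        simp only [Sum.elim_inl, Sum.elim_inr, neg_mul, Finset.sum_neg_distrib] at hsep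
        have h7 := add_neg_eq_zero.1 hsep
        simp only [map_sum, map_mul, hfix]
        refine (Finset.sum_comm).trans (Eq.trans ?_ Finset.sum_comm)
        simp only [← Finset.sum_mul]
        exact h7
      have hc : (Fintype.card T : L) ≠ 0 := Nat.cast_ne_zero.2 Fintype.card_ne_zero
      apply mul_left_cancel₀ hc
      rw [hshift, hshift, hXY]
  have h8 : ∑ g, aL g (∑ m, ∑ k, u k m * hh m (b k)) =
      ∑ m, ∑ g, aL g (∑ k, u k m * hh m (b k)) := by
    simp only [map_sum]
    exact Finset.sum_comm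
  have h9 : ∑ m, ∑ g, aL g (∑ j, w j * hh m (a j)) =
      ∑ g, aL g (∑ j, w j * ∑ m, hh m (a j)) := by
    simp only [Finset.mul_sum, map_sum]
    refine (Finset.sum_comm).trans (Finset.sum_congr rfl fun g _ => ?_)
    exact Finset.sum_comm
  rw [h8, Finset.sum_congr rfl fun m _ => hkey m, h9]
  simp only [hsum, mul_zero, Finset.sum_const_zero, map_zero]

end Pool.Agent.H16.KN

end

section

/-!
# Project KL, module Ap: the vector space of sequences of `p`-adic approximations

`ZP p` : the ring of rational numbers with denominator prime to `p`.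
`Nil p` : the sequences `a : ℕ → ℚ` with `p ^ K * a l ∈ p ^ l ℤ_(p)` for some `K` and all `l`.
`Ap p` : the quotient `(ℕ → ℚ) ⧸ Nil p`, a vector space over `ℚ`.
`lg p φ x` : the class of `l ↦ φ (x ^ p ^ l - 1) / p ^ l` for `x` in a ring and `φ` an additive map to `ℤ`.

* `lg_mul` : `lg` is additive on commuting `x, y` that are `1` modulo `p ^ 2`;
* `lg_detect` : if `x = 1` modulo `p ^ 2` and `lg p φ x = 0` for a family of `φ` that detects divisibility by `p` then
  `x - 1` is divisible by all `p ^ k`.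
-/

set_option autoImplicit false

universe u v w

namespace Pool.Agent.H8.KL

section ZP

variable (p : ℕ) [hp : Fact p.Prime]

/-- the ring of rational numbers with denominator prime to `p` -/
def ZP : Subring ℚ where
  carrier := {x | ¬ p ∣ x.den}
  mul_mem' {a b} ha hb := by
    intro h
    have h1 := h.trans (Rat.mul_den_dvd a b)
    rcases (hp.out.dvd_mul).1 h1 with h2 | h2
    · exact ha h2
    · exact hb h2
  one_mem' := by
    intro h
    rw [Rat.den_one] at h
    exact hp.out.one_lt.ne' (Nat.dvd_one.1 h)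
  add_mem' {a b} ha hb := by
    intro h
    have h1 := h.trans (Rat.add_den_dvd a b)
    rcases (hp.out.dvd_mul).1 h1 with h2 | h2
    · exact ha h2
    · exact hb h2
  zero_mem' := by
    intro h
    rw [Rat.den_zero] at h
    exact hp.out.one_lt.ne' (Nat.dvd_one.1 h)
  neg_mem' {a} ha := by
    intro h
    rw [Rat.den_neg_eq_den] at h
    exact ha h

variable {p}

theorem mem_ZP {x : ℚ} : x ∈ ZP p ↔ ¬ p ∣ x.den := Iff.rfl

theorem int_mem_ZP (n : ℤ) : (n : ℚ) ∈ ZP p := intCast_mem _ n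

theorem pow_mem_ZP (K : ℕ) : (p : ℚ) ^ K ∈ ZP p := pow_mem (natCast_mem _ p) K

/-- every rational number becomes `p`-integral after multiplication with a power of `p` -/
theorem exists_pow_mul_mem (q : ℚ) : ∃ K : ℕ, (p : ℚ) ^ K * q ∈ ZP p := by
  obtain ⟨K, m, hm, hq⟩ := Nat.exists_eq_pow_mul_and_not_dvd q.den_nz p hp.out.ne_one
  refine ⟨K, ?_⟩
  rw [mem_ZP]
  have hm0 : (m : ℚ) ≠ 0 := by
    rintro h
    rw [Nat.cast_eq_zero] at h
    exact hm (h ▸ dvd_zero p)
  have h1 : (p : ℚ) ^ K * q = (q.num : ℚ) / (m : ℤ) := by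
    have h2 : (q : ℚ) * q.den = q.num := Rat.mul_den_eq_num q
    rw [hq] at h2
    push_cast at h2
    rw [Int.cast_natCast, eq_div_iff hm0, ← h2]
    ring
  intro h
  rw [h1] at h
  apply hm
  have h4 := Rat.den_dvd q.num (m : ℤ)
  rw [Rat.divInt_eq_div, Int.natCast_dvd_natCast] at h4
  exact h.trans h4

/-- an integer divided by a power of `p` is `p`-integral only if it is divisible -/
theorem dvd_of_div_mem {n : ℤ} {e : ℕ} (h : (n : ℚ) / (p : ℚ) ^ e ∈ ZP p) : (p : ℤ) ^ e ∣ n := by
  rw [mem_ZP] at h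
  set x : ℚ := (n : ℚ) / (p : ℚ) ^ e with hx
  have hp0 : (p : ℚ) ^ e ≠ 0 := pow_ne_zero _ (Nat.cast_ne_zero.2 hp.out.ne_zero)
  have h1 : (x.num : ℚ) * (p : ℚ) ^ e = n * x.den := by
    have h2 : x * x.den = x.num := Rat.mul_den_eq_num x
    rw [← h2, hx]
    field_simp
  have h3 : x.num * (p : ℤ) ^ e = n * x.den := by exact_mod_cast h1
  have h4 : IsCoprime ((p : ℤ) ^ e) (x.den : ℤ) := by
    apply IsCoprime.pow_left
    rw [Nat.isCoprime_iff_coprime]
    exact (Nat.Prime.coprime_iff_not_dvd hp.out).2 h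
  exact h4.dvd_of_dvd_mul_right (Dvd.intro_left _ h3)

end ZP

section Ap

variable (p : ℕ) [hp : Fact p.Prime]

private theorem p_ne : (p : ℚ) ≠ 0 := Nat.cast_ne_zero.2 hp.out.ne_zero

/-- the sequences that tend to zero as fast as `p ^ l` -/
def Nil : Submodule ℚ (ℕ → ℚ) where
  carrier := {a | ∃ K : ℕ, ∀ l, (p : ℚ) ^ K * a l / (p : ℚ) ^ l ∈ ZP p}
  add_mem' := by
    rintro a b ⟨K, hK⟩ ⟨K', hK'⟩
    refine ⟨K + K', fun l => ?_⟩
    have h1 := (ZP p).add_mem ((ZP p).mul_mem (pow_mem_ZP K') (hK l))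
      ((ZP p).mul_mem (pow_mem_ZP K) (hK' l))
    have h2 : (p : ℚ) ^ (K + K') * (a + b) l / (p : ℚ) ^ l =
        (p : ℚ) ^ K' * ((p : ℚ) ^ K * a l / (p : ℚ) ^ l) +
          (p : ℚ) ^ K * ((p : ℚ) ^ K' * b l / (p : ℚ) ^ l) := by
      rw [Pi.add_apply, pow_add]
      ring
    rw [h2]
    exact h1
  zero_mem' := ⟨0, fun l => by
    rw [Pi.zero_apply, mul_zero, zero_div]
    exact (ZP p).zero_mem⟩
  smul_mem' := by
    rintro q a ⟨K, hK⟩
    obtain ⟨K', hK'⟩ := exists_pow_mul_mem (p := p) q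
    refine ⟨K + K', fun l => ?_⟩
    have h1 := (ZP p).mul_mem hK' (hK l)
    have h2 : (p : ℚ) ^ (K + K') * (q • a) l / (p : ℚ) ^ l =
        (p : ℚ) ^ K' * q * ((p : ℚ) ^ K * a l / (p : ℚ) ^ l) := by
      rw [Pi.smul_apply, smul_eq_mul, pow_add]
      ring
    rw [h2]
    exact h1

/-- the quotient -/
abbrev Ap : Type := (ℕ → ℚ) ⧸ Nil p

/-- the class of a sequence -/
def cA : (ℕ → ℚ) →ₗ[ℚ] Ap p := (Nil p).mkQ

theorem cA_eq_zero {a : ℕ → ℚ} : cA p a = 0 ↔ a ∈ Nil p := Submodule.Quotient.mk_eq_zero _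

variable {R : Type u} [Ring R] {S : Type v} [Ring S]

/-- the elements that are `1` modulo `p ^ 2` -/
def One2 (x : R) : Prop := ∃ a : R, x = 1 + (p : R) ^ 2 * a

/-- the approximations of the logarithm -/
noncomputable def lg (φ : R →+ ℤ) (x : R) : Ap p :=
  cA p fun l => ((φ (x ^ p ^ l - 1) : ℤ) : ℚ) / (p : ℚ) ^ l

theorem lg_comp (f : R →+* S) (φ : S →+ ℤ) (x : R) :
    lg p φ (f x) = lg p (φ.comp f.toAddMonoidHom) x := by
  have h : ∀ l, φ (f x ^ p ^ l - 1) = (φ.comp f.toAddMonoidHom) (x ^ p ^ l - 1) := by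
    intro l
    change _ = φ (f (x ^ p ^ l - 1))
    rw [map_sub f, map_pow f, map_one f]
  unfold lg
  simp only [h]

omit hp in
private theorem one_add_pow (y : R) (n : ℕ) : ∃ b : R, (1 + y) ^ n = 1 + n * y + y ^ 2 * b := by
  induction n with
  | zero => exact ⟨0, by simp⟩
  | succ n ih =>
    obtain ⟨b, hb⟩ := ih
    refine ⟨n + b * (1 + y), ?_⟩
    have h1 : (n : R) * y = y * n := (Nat.cast_commute n y).eq
    rw [pow_succ, hb]
    push_cast
    rw [mul_add (y ^ 2), mul_add, mul_one, add_mul, add_mul, one_mul, add_mul, one_mul, h1,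
      mul_assoc y (n : R) y, h1, ← mul_assoc y y, ← pow_two, ← mul_assoc (y ^ 2) b, mul_add,
      mul_one]
    abel

omit hp in
/-- powers of elements that are `1` modulo `p ^ k`, `k ≥ 2` -/
theorem pow_one_add {k : ℕ} (hk : 2 ≤ k) (a : R) (l : ℕ) :
    ∃ b : R, (1 + (p : R) ^ k * a) ^ p ^ l = 1 + (p : R) ^ (k + l) * (a + p * b) := by
  induction l with
  | zero => exact ⟨0, by simp⟩
  | succ l ih =>
    obtain ⟨b, hb⟩ := ih
    obtain ⟨c, hc⟩ := one_add_pow ((p : R) ^ (k + l) * (a + p * b)) p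
    set t : R := a + p * b with ht
    have hcom : ∀ (e : ℕ) (x : R), (p : R) ^ e * x = x * (p : R) ^ e := fun e x =>
      ((Nat.cast_commute p x).pow_left e).eq
    refine ⟨b + (p : R) ^ (k + l - 2) * (t * t * c), ?_⟩
    rw [pow_succ, pow_mul, hb, hc]
    have h1 : ((p : R) ^ (k + l) * t) ^ 2 * c = (p : R) ^ (k + (l + 1)) *
        (p * ((p : R) ^ (k + l - 2) * (t * t * c))) := by
      have h2 : ((p : R) ^ (k + l) * t) ^ 2 = (p : R) ^ (k + l) * (p : R) ^ (k + l) * (t * t) := by
        rw [pow_two]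
        calc (p : R) ^ (k + l) * t * ((p : R) ^ (k + l) * t)
            = (p : R) ^ (k + l) * (t * (p : R) ^ (k + l)) * t := by simp only [mul_assoc]
          _ = (p : R) ^ (k + l) * ((p : R) ^ (k + l) * t) * t := by rw [← hcom _ t]
          _ = _ := by simp only [mul_assoc]
      have h3 : (p : R) ^ (k + l) * (p : R) ^ (k + l) =
          (p : R) ^ (k + (l + 1)) * (p * (p : R) ^ (k + l - 2)) := by
        rw [← pow_succ', ← pow_add, ← pow_add]
        congr 1
        omega
      rw [h2, h3]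
      simp only [mul_assoc]
    rw [h1, mul_add (p : R) b, ← add_assoc a, ← ht]
    have h4 : (p : R) * ((p : R) ^ (k + l) * t) = (p : R) ^ (k + (l + 1)) * t := by
      rw [← mul_assoc, ← pow_succ']
      congr 2
    rw [h4, mul_add _ t, add_assoc]

omit hp in
theorem One2.pow_eq {x : R} (hx : One2 p x) (l : ℕ) :
    ∃ b : R, x ^ p ^ l = 1 + (p : R) ^ (2 + l) * b := by
  obtain ⟨a, rfl⟩ := hx
  obtain ⟨b, hb⟩ := pow_one_add p le_rfl a l
  exact ⟨_, hb⟩

omit hp in
theorem One2.mul {x y : R} (hx : One2 p x) (hy : One2 p y) : One2 p (x * y) := by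
  obtain ⟨a, rfl⟩ := hx
  obtain ⟨b, rfl⟩ := hy
  refine ⟨a + b + a * ((p : R) ^ 2 * b), ?_⟩
  rw [mul_add, mul_add ((p : R) ^ 2), mul_add ((p : R) ^ 2), mul_one, add_mul, one_mul]
  simp only [mul_assoc]
  abel

omit hp in
theorem One2.one : One2 p (1 : R) := ⟨0, by simp⟩

omit hp in
theorem One2.pow {x : R} (hx : One2 p x) (n : ℕ) : One2 p (x ^ n) := by
  induction n with
  | zero => rw [pow_zero]; exact One2.one p
  | succ n ih => rw [pow_succ]; exact ih.mul p hx

omit hp in
theorem One2.map (f : R →+* S) {x : R} (hx : One2 p x) : One2 p (f x) := by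
  obtain ⟨a, rfl⟩ := hx
  exact ⟨f a, by rw [map_add, map_one, map_mul, map_pow, map_natCast]⟩

omit hp in
private theorem map_pmul (φ : R →+ ℤ) (e : ℕ) (x : R) :
    φ ((p : R) ^ e * x) = (p : ℤ) ^ e * φ x := by
  rw [← Nat.cast_pow, ← nsmul_eq_mul, map_nsmul, nsmul_eq_mul, Nat.cast_pow]

theorem lg_one (φ : R →+ ℤ) : lg p φ 1 = 0 := by
  unfold lg
  rw [cA_eq_zero]
  refine ⟨0, fun l => ?_⟩
  change (p : ℚ) ^ 0 * (((φ (1 ^ p ^ l - 1) : ℤ) : ℚ) / (p : ℚ) ^ l) / (p : ℚ) ^ l ∈ ZP p
  rw [one_pow, sub_self, map_zero, Int.cast_zero, zero_div, mul_zero, zero_div]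
  exact (ZP p).zero_mem

/-- **The logarithm is additive.** -/
theorem lg_mul (φ : R →+ ℤ) {x y : R} (hx : One2 p x) (hy : One2 p y) (hxy : x * y = y * x) :
    lg p φ (x * y) = lg p φ x + lg p φ y := by
  unfold lg
  rw [← map_add, ← sub_eq_zero, ← map_sub, cA_eq_zero]
  refine ⟨0, fun l => ?_⟩
  obtain ⟨a, ha⟩ := hx.pow_eq p l
  obtain ⟨b, hb⟩ := hy.pow_eq p l
  have h1 : (x * y) ^ p ^ l = x ^ p ^ l * y ^ p ^ l := (show Commute x y from hxy).mul_pow _
  have hcom : ∀ (e : ℕ) (x : R), (p : R) ^ e * x = x * (p : R) ^ e := fun e x =>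
    ((Nat.cast_commute p x).pow_left e).eq
  have h2 : (x * y) ^ p ^ l - 1 - ((x ^ p ^ l - 1) + (y ^ p ^ l - 1)) =
      (p : R) ^ (2 * l + 4) * (a * b) := by
    rw [h1, ha, hb]
    have h3 : (p : R) ^ (2 + l) * a * ((p : R) ^ (2 + l) * b) = (p : R) ^ (2 * l + 4) * (a * b) := by
      calc (p : R) ^ (2 + l) * a * ((p : R) ^ (2 + l) * b)
          = (p : R) ^ (2 + l) * (a * (p : R) ^ (2 + l)) * b := by simp only [mul_assoc]
        _ = (p : R) ^ (2 + l) * ((p : R) ^ (2 + l) * a) * b := by rw [← hcom _ a]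
        _ = (p : R) ^ (2 + l) * (p : R) ^ (2 + l) * (a * b) := by simp only [mul_assoc]
        _ = _ := by
          rw [← pow_add]
          congr 2
          omega
    rw [← h3, mul_add, add_mul, one_mul, mul_one, add_mul, one_mul]
    abel
  have h4 := congrArg φ h2
  rw [map_pmul, map_sub, map_add] at h4
  have h5 : ((φ ((x * y) ^ p ^ l - 1) : ℤ) : ℚ) - (((φ (x ^ p ^ l - 1) : ℤ) : ℚ) +
      ((φ (y ^ p ^ l - 1) : ℤ) : ℚ)) = (p : ℚ) ^ (2 * l + 4) * ((φ (a * b) : ℤ) : ℚ) := by
    exact_mod_cast h4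
  have hp0 := p_ne p
  change (p : ℚ) ^ 0 * (((φ ((x * y) ^ p ^ l - 1) : ℤ) : ℚ) / (p : ℚ) ^ l -
      (((φ (x ^ p ^ l - 1) : ℤ) : ℚ) / (p : ℚ) ^ l +
        ((φ (y ^ p ^ l - 1) : ℤ) : ℚ) / (p : ℚ) ^ l)) / (p : ℚ) ^ l ∈ ZP p
  have h6 : (p : ℚ) ^ 0 * (((φ ((x * y) ^ p ^ l - 1) : ℤ) : ℚ) / (p : ℚ) ^ l -
      (((φ (x ^ p ^ l - 1) : ℤ) : ℚ) / (p : ℚ) ^ l +
        ((φ (y ^ p ^ l - 1) : ℤ) : ℚ) / (p : ℚ) ^ l)) / (p : ℚ) ^ l =
      ((p ^ 4 * φ (a * b) : ℤ) : ℚ) := by
    rw [pow_zero, one_mul, ← add_div, ← sub_div, h5]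
    have h7 : (p : ℚ) ^ (2 * l + 4) = (p : ℚ) ^ l * (p : ℚ) ^ l * (p : ℚ) ^ 4 := by ring
    rw [h7]
    push_cast
    field_simp
  rw [h6]
  exact int_mem_ZP _

theorem lg_pow (hR : ∀ x y : R, x * y = y * x) (φ : R →+ ℤ) {x : R} (hx : One2 p x) (n : ℕ) :
    lg p φ (x ^ n) = n • lg p φ x := by
  induction n with
  | zero => rw [pow_zero, lg_one, zero_smul]
  | succ n ih => rw [pow_succ, lg_mul p φ (hx.pow p n) hx (hR _ _), ih, succ_nsmul]

/-- **Detection.** -/
theorem lg_detect {I : Type w} (φ : I → R →+ ℤ)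
    (hφ : ∀ a : R, (∀ i, (p : ℤ) ∣ φ i a) → ∃ b, a = p * b) {x : R} (hx : One2 p x)
    (h : ∀ i, lg p (φ i) x = 0) (k : ℕ) : ∃ a : R, x = 1 + (p : R) ^ (2 + k) * a := by
  induction k with
  | zero => exact hx
  | succ k ih =>
    obtain ⟨a, ha⟩ := ih
    have hdiv : ∀ i, (p : ℤ) ∣ φ i a := by
      intro i
      have h1 := h i
      unfold lg at h1
      rw [cA_eq_zero] at h1
      obtain ⟨K, hK⟩ := h1
      obtain ⟨b, hb⟩ := pow_one_add p (Nat.le_add_right 2 k) a (2 + k + K + 1)
      have h2 := hK (2 + k + K + 1)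
      beta_reduce at h2
      rw [ha, hb, add_sub_cancel_left, map_pmul] at h2
      have hp0 := p_ne p
      have h3 : (p : ℚ) ^ K * ((((p : ℤ) ^ (2 + k + (2 + k + K + 1)) *
          φ i (a + (p : R) * b) : ℤ) : ℚ) / (p : ℚ) ^ (2 + k + K + 1)) /
          (p : ℚ) ^ (2 + k + K + 1) = ((φ i (a + (p : R) * b) : ℤ) : ℚ) / (p : ℚ) ^ 1 := by
        push_cast
        rw [← mul_div_assoc, div_div, div_eq_div_iff (mul_ne_zero (pow_ne_zero _ hp0)
          (pow_ne_zero _ hp0)) (pow_ne_zero _ hp0)]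
        ring
      rw [h3] at h2
      have h4 := dvd_of_div_mem h2
      rw [pow_one, map_add] at h4
      have h5 : φ i ((p : R) * b) = p * φ i b := by
        have := map_pmul p (φ i) 1 b
        rwa [pow_one, pow_one] at this
      rw [h5] at h4
      exact (Int.dvd_add_left (Dvd.intro _ rfl)).1 h4
    obtain ⟨b, hb⟩ := hφ a hdiv
    refine ⟨b, ?_⟩
    rw [ha, hb, ← mul_assoc, ← pow_succ]
    rfl

end Ap

end Pool.Agent.H8.KL

end

section

/-!
# KZ: evaluation of Laurent polynomials, the twist `T ↦ z T`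
-/

set_option autoImplicit false

open Matrix
open scoped LaurentPolynomial

universe u v w

namespace Pool.Agent.H8.KZ

variable {A : Type u} [Ring A] {R : Type v} [Ring R]

theorem comm_zpow {φ : R →+* A} {z : Aˣ} (hz : ∀ b, φ b * z = z * φ b) (b : R) (k : ℤ) :
    Commute (φ b) ((z ^ k : Aˣ) : A) := by
  have h : Commute (φ b) (z : A) := hz b
  exact h.units_zpow_right k

/-- The ring homomorphism `R[T, T⁻¹] → A`, `T ↦ z`, for a unit `z` commuting with the image of `φ`. -/
noncomputable def evL (φ : R →+* A) (z : Aˣ) (hz : ∀ b, φ b * z = z * φ b) : R[T;T⁻¹] →+* A :=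
  AddMonoidAlgebra.liftNCRingHom φ
    ((Units.coeHom A).comp (zpowersHom Aˣ z) : Multiplicative ℤ →* A)
    (fun b k => comm_zpow hz b (Multiplicative.toAdd k))

theorem evL_single (φ : R →+* A) (z : Aˣ) (hz : ∀ b, φ b * z = z * φ b) (k : ℤ) (r : R) :
    evL φ z hz (AddMonoidAlgebra.single k r) = φ r * ((z ^ k : Aˣ) : A) :=
  AddMonoidAlgebra.liftNC_single _ _ _ _

/-- Homomorphisms from Laurent polynomials are determined on monomials. -/
theorem lau_ext {M : Type*} [Ring M] {f g : R[T;T⁻¹] →+* M}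
    (h : ∀ k r, f (AddMonoidAlgebra.single k r) = g (AddMonoidAlgebra.single k r)) : f = g := by
  apply RingHom.ext
  intro x
  induction x using AddMonoidAlgebra.induction_linear with
  | zero => rw [map_zero, map_zero]
  | add x y hx hy => rw [map_add, map_add, hx, hy]
  | single k r => exact h k r

/-- The unit `T`. -/
noncomputable def uT (A : Type u) [Ring A] : (A[T;T⁻¹])ˣ where
  val := AddMonoidAlgebra.single 1 1
  inv := AddMonoidAlgebra.single (-1) 1
  val_inv := by
    rw [AddMonoidAlgebra.single_mul_single, add_neg_cancel, mul_one]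
    rfl
  inv_val := by
    rw [AddMonoidAlgebra.single_mul_single, neg_add_cancel, mul_one]
    rfl

end Pool.Agent.H8.KZ

end

section

/-!
# KZ, block LocP: the local ring at a prime of a cyclotomic field acts on a free `ℤ_p`-module

`L = CyclotomicField N ℚ`, `O = 𝓞 L`, `m : Pr O N` a maximal ideal of `O / N`, `p ∈ m` a prime number.
`Om` is the localization of `O` at (the preimage of) `m`, given by `f`, `j` and its universal property
(`exists_loc2` in `Loc2.lean`).

PROOF.  `K = CyclotomicField N ℚ_[p]`, a finite Galois extension of `ℚ_[p]`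
(`IsCyclotomicExtension.isGalois`); `κ₀ : ℤ_[p] → ℚ_[p] → K`; `W = integralClosure ℤ_[p] K`.
(1) `W` is a free `ℤ_[p]`-module of finite rank (`IsIntegralClosure.module_free` or
    `integralClosure...`), so with a basis `b` there is `Algebra.leftMulMatrix b : W → Mat_r(ℤ_[p])` and
    for `x : W`: `κ₀ (trace (leftMulMatrix b x)) = Algebra.trace ℚ_[p] K x = ∑_{τ : K ≃ₐ[ℚ_[p]] K} τ x`
    (`Algebra.trace_eq_matrix_trace`, `Algebra.trace_localization` or `Algebra.trace` of
    `IsIntegralClosure.isLocalization`, `trace_eq_sum_automorphisms`).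
(2) The norm of `K` (`spectralNorm ℚ_[p] K`, multiplicative, `spectralMulAlgNorm`, nonarchimedean,
    invariant under `K ≃ₐ[ℚ_[p]] K`, `spectralNorm_eq_of_equiv`): `W = {‖x‖ ≤ 1}` (`spectralValue_le_one_iff`,
    `minpoly` of an integral element has coefficients in `ℤ_[p]`,
    `minpoly.isIntegrallyClosed_eq_field_fractions'`).  So `x ∈ W` is a unit of `W` iff `‖x‖ = 1`.
(3) There is an embedding `ι₀ : L → K` (`K` contains a primitive `N`-th root of unity,
    `IsCyclotomicExtension`, `IsAlgClosed`-free: `(cyclotomic N ℚ)` splits in `K`;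
    e.g. `IsSplittingField.lift` or `PowerBasis.lift`).  `ι₀ (O) ⊆ W` (integral over `ℤ`).  Let
    `𝔮 = {x : O | ‖ι₀ x‖ < 1}`, a prime ideal of `O` containing `p`, hence maximal, and
    `𝔭 = {x : O | mk x ∈ m}`, a maximal ideal containing `p`.  `Gal(L/ℚ)` acts transitively on the primes
    of `O` over `p` (`Ideal.exists_map_eq_of_isGalois`, `IsInvariant`-lemmas or
    `Ideal.exists_smul_eq_of_under_eq`...), so after replacing `ι₀` by `ι = ι₀ ∘ g` for some
    `g : L ≃ₐ[ℚ] L` we have `{x | ‖ι x‖ < 1} = 𝔭`.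
(4) So `ι x` is a unit of `W` for `x ∈ O`, `mk x ∉ m`; the universal property gives `h : Om → W` with
    `h ∘ f = ι|_O`, and `(W → K) ∘ h = ι ∘ j` (both agree on `f (O)`; `hext`).  `reg = leftMulMatrix b ∘ h`.
(5) For `τ : K ≃ₐ[ℚ_[p]] K` there is `σ_τ : L ≃ₐ[ℚ] L` with `τ ∘ ι = ι ∘ σ_τ` (`L / ℚ` is normal:
    `AlgHom.restrictNormal`, or directly: `τ (ι ζ)` is again a primitive `N`-th root of unity).  As
    `‖τ x‖ = ‖x‖`, `x ∈ 𝔭 ↔ σ_τ x ∈ 𝔭`, so `permPr (gO σ_τ) N m = m` (`mem_permPr_mk`).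
    `T = K ≃ₐ[ℚ_[p]] K`, `σ = (τ ↦ σ_τ)`: for `y : Om`
    `κ₀ (trace (reg y)) = ∑_τ τ (h y) = ∑_τ τ (ι (j y)) = ∑_τ ι (σ_τ (j y))`.
-/

set_option autoImplicit false

open Matrix NumberField

namespace Pool.Agent.H8.KZ

/-- The automorphism of the ring of integers. -/
noncomputable def gO {L : Type} [Field L] [NumberField L] (σ : L ≃ₐ[ℚ] L) : 𝓞 L ≃+* 𝓞 L :=
  RingOfIntegers.mapRingEquiv σ.toRingEquiv

section norm

variable (p : ℕ) [Fact p.Prime] (K : Type) [Field K] [Algebra ℚ_[p] K] [Algebra ℤ_[p] K]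
  [IsScalarTower ℤ_[p] ℚ_[p] K] [FiniteDimensional ℚ_[p] K]

end norm

section global

variable {p : ℕ} [Fact p.Prime] {K : Type} [Field K] [Algebra ℚ_[p] K] [Algebra ℤ_[p] K]
  [IsScalarTower ℤ_[p] ℚ_[p] K] [FiniteDimensional ℚ_[p] K] {L : Type} [Field L] [NumberField L]

end global

end Pool.Agent.H8.KZ

end

section

/-!
# Project KM: the Fourier transform of the group ring of a finite abelian group

`O` is a domain with enough roots of unity, `C` a finite commutative group (given as a `Group`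
with a commutativity hypothesis, because it will be a subgroup of a noncommutative group),
`C →* Oˣ` its dual, and `f : O → R` a homomorphism to a commutative ring.
`fou f : R[C] → ((C →* Oˣ) → R)` sends `c` to `(f (χ c))_χ`.
-/

set_option autoImplicit false

open Matrix
open scoped LaurentPolynomial

universe u v w

namespace Pool.Agent.H95.KM

section

variable {O : Type} [CommRing O] {R : Type} [CommRing R] (f : O →+* R) (C : Type v) [Group C]

/-- The Fourier transform `R[C] → ((C →* Oˣ) → R)`. -/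
noncomputable def fou : MonoidAlgebra R C →+* ((C →* Oˣ) → R) :=
  RingHom.pi fun χ => (MonoidAlgebra.lift R R C
    (((f : O →* R).comp (Units.coeHom O)).comp χ)).toRingHom

variable {C}

theorem fou_single (c : C) (r : R) (χ : C →* Oˣ) :
    fou f C (MonoidAlgebra.single c r) χ = r * f (χ c) := by
  change MonoidAlgebra.lift R R C _ (MonoidAlgebra.single c r) = _
  rw [MonoidAlgebra.lift_single]
  rfl

/-- naturality in the group -/
theorem fou_mapDomain {C' : Type v} [Group C'] (h : C →* C') (x : MonoidAlgebra R C)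
    (χ : C' →* Oˣ) :
    fou f C' (MonoidAlgebra.mapDomainRingHom R h x) χ = fou f C x (χ.comp h) := by
  induction x using MonoidAlgebra.induction_linear with
  | zero => simp
  | add a b ha hb => rw [map_add, map_add, Pi.add_apply, ha, hb, map_add, Pi.add_apply]
  | single g r =>
    change fou f C' (MonoidAlgebra.mapDomain h (MonoidAlgebra.single g r)) χ = _
    rw [MonoidAlgebra.mapDomain_single, fou_single, fou_single]
    rfl

/-- naturality in the coefficients -/
theorem fou_mapRing {R' : Type} [CommRing R'] (g : R →+* R') (x : MonoidAlgebra R C)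
    (χ : C →* Oˣ) :
    fou (g.comp f) C (MonoidAlgebra.mapRingHom C g x) χ = g (fou f C x χ) := by
  induction x using MonoidAlgebra.induction_linear with
  | zero => simp
  | add a b ha hb => rw [map_add, map_add, Pi.add_apply, ha, hb, map_add, Pi.add_apply, map_add]
  | single c r =>
    rw [MonoidAlgebra.mapRingHom_single, fou_single, fou_single, map_mul]
    rfl

end

/-- The idempotent-like element `∑_c χ(c)⁻¹ c = |C| 1_χ` of `R[C]`. -/
noncomputable def eChi {O : Type} [CommRing O] {R : Type} [CommRing R] (f : O →+* R)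
    {C : Type v} [Group C] [Fintype C] (χ : C →* Oˣ) : MonoidAlgebra R C :=
  ∑ c : C, MonoidAlgebra.single c (f (((χ c)⁻¹ : Oˣ) : O))

end Pool.Agent.H95.KM

end

section

/-!
# Project KM, module Fou: orthogonality relations and consequences

`fou`, `eChi` are in `Pool/Agent/H95/KM/FouDefs.lean`.

* `sum_chi`: `∑_c χ(c) = 0` for `χ ≠ 1` in the domain `O` (Mathlib `sum_hom_units`, applied to the
  composite `C →* O`).
* `card_dual`, `finite_dual`, `sum_dual`: with `let _ : CommGroup C := { ‹Group C› with mul_comm := hC }`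
  use `CommGroup.card_monoidHom_of_hasEnoughRootsOfUnity`,
  `CommGroup.exists_apply_ne_one_of_hasEnoughRootsOfUnity`,
  `HasEnoughRootsOfUnity.of_dvd` (`Monoid.exponent C ∣ Nat.card C ∣ N`).
  `∑_χ χ(c) = 0` for `c ≠ 1`: choose `ψ` with `ψ c ≠ 1`; multiplication by `ψ` permutes the dual, so
  `(ψ c) S = S` and `O` is a domain.
* `fou_eChi`: `fou f C (eChi f χ) = |C| · Pi.single χ 1` by `sum_chi` applied to `χ⁻¹ χ'`.
* `exists_fou`: `F = ∑_χ Pi.single χ (F χ)`, so `|C| F = fou (∑_χ single 1 (F χ) * eChi f χ)`.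
* `fou_injective`: if `fou x = 0`, `x = ∑_c x_c c`, then for `d ∈ C`:
  `0 = ∑_χ f (χ d⁻¹) (fou x χ) = ∑_c x_c ∑_χ f (χ (c d⁻¹)) = |C| x_d` by `sum_dual`, `card_dual`.
-/

set_option autoImplicit false

open Matrix
open scoped LaurentPolynomial

universe u v w

namespace Pool.Agent.H95.KM

variable {O : Type} [CommRing O] [IsDomain O] {C : Type v} [Group C]

theorem sum_chi [Fintype C] (χ : C →* Oˣ) (hχ : χ ≠ 1) : ∑ c : C, ((χ c : Oˣ) : O) = 0 := by
  apply sum_hom_units_eq_zero ((Units.coeHom O).comp χ)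
  intro h
  apply hχ
  ext c
  exact congrArg (fun g : C →* O => g c) h

theorem card_dual [Finite C] (N : ℕ) [NeZero N] [HasEnoughRootsOfUnity O N]
    (hC : ∀ a b : C, a * b = b * a) (hN : Nat.card C ∣ N) :
    Nat.card (C →* Oˣ) = Nat.card C := by
  let _ : CommGroup C := { ‹Group C› with mul_comm := hC }
  have h1 : Monoid.exponent C ∣ N := dvd_trans Group.exponent_dvd_nat_card hN
  have : HasEnoughRootsOfUnity O (Monoid.exponent C) := HasEnoughRootsOfUnity.of_dvd O h1
  exact CommGroup.card_monoidHom_of_hasEnoughRootsOfUnity C O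

theorem finite_dual [Finite C] (N : ℕ) [NeZero N] [HasEnoughRootsOfUnity O N]
    (hC : ∀ a b : C, a * b = b * a) (hN : Nat.card C ∣ N) : Finite (C →* Oˣ) := by
  apply Nat.finite_of_card_ne_zero
  rw [card_dual N hC hN]
  exact Nat.card_pos.ne'

theorem fou_exists_ne [Finite C] (N : ℕ) [NeZero N] [HasEnoughRootsOfUnity O N]
    (hC : ∀ a b : C, a * b = b * a) (hN : Nat.card C ∣ N) (c : C) (hc : c ≠ 1) :
    ∃ ψ : C →* Oˣ, ψ c ≠ 1 := by
  let _ : CommGroup C := { ‹Group C› with mul_comm := hC }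
  have h1 : Monoid.exponent C ∣ N := dvd_trans Group.exponent_dvd_nat_card hN
  have : HasEnoughRootsOfUnity O (Monoid.exponent C) := HasEnoughRootsOfUnity.of_dvd O h1
  exact CommGroup.exists_apply_ne_one_of_hasEnoughRootsOfUnity C O hc

theorem sum_dual [Finite C] (N : ℕ) [NeZero N] [HasEnoughRootsOfUnity O N]
    (hC : ∀ a b : C, a * b = b * a) (hN : Nat.card C ∣ N) [Fintype (C →* Oˣ)] (c : C)
    (hc : c ≠ 1) : ∑ χ : C →* Oˣ, ((χ c : Oˣ) : O) = 0 := by
  obtain ⟨ψ, hψ⟩ := fou_exists_ne (O := O) N hC hN c hc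
  have h1 : ((ψ c : Oˣ) : O) * ∑ χ : C →* Oˣ, ((χ c : Oˣ) : O) =
      ∑ χ : C →* Oˣ, ((χ c : Oˣ) : O) := by
    rw [Finset.mul_sum]
    apply Fintype.sum_equiv (Equiv.mulLeft ψ)
    intro χ
    rw [Equiv.coe_mulLeft, MonoidHom.mul_apply, Units.val_mul]
  have h2 : (((ψ c : Oˣ) : O) - 1) * ∑ χ : C →* Oˣ, ((χ c : Oˣ) : O) = 0 := by
    rw [sub_mul, one_mul, h1, sub_self]
  rcases mul_eq_zero.1 h2 with h | h
  · exact absurd (Units.ext (sub_eq_zero.1 h)) hψ
  · exact h

variable {R : Type} [CommRing R] (f : O →+* R)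

theorem fou_eChi [Fintype C] [DecidableEq (C →* Oˣ)] (χ : C →* Oˣ) :
    fou f C (eChi f χ) = Pi.single χ (Fintype.card C : R) := by
  ext χ'
  rw [eChi, map_sum, Finset.sum_apply]
  have h1 : ∀ c : C, fou f C (MonoidAlgebra.single c (f (((χ c)⁻¹ : Oˣ) : O))) χ' =
      f (((χ⁻¹ * χ') c : Oˣ) : O) := by
    intro c
    rw [fou_single, ← map_mul, MonoidHom.mul_apply, MonoidHom.inv_apply, Units.val_mul]
  rw [Finset.sum_congr rfl (fun c _ => h1 c), ← map_sum]
  by_cases h : χ' = χ
  · subst h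
    have h3 : ∀ c : C, (((χ'⁻¹ * χ') c : Oˣ) : O) = 1 := by
      intro c
      rw [MonoidHom.mul_apply, MonoidHom.inv_apply, inv_mul_cancel, Units.val_one]
    rw [Pi.single_eq_same, Finset.sum_congr rfl (fun c _ => h3 c)]
    simp
  · rw [Pi.single_eq_of_ne h, sum_chi, map_zero]
    intro h2
    exact h (inv_mul_eq_one.1 h2).symm

theorem exists_fou [Finite C] [Finite (C →* Oˣ)] (F : (C →* Oˣ) → R) :
    ∃ x, fou f C x = fun χ => (Nat.card C : R) * F χ := by
  classical
  cases nonempty_fintype C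
  cases nonempty_fintype (C →* Oˣ)
  refine ⟨∑ χ : C →* Oˣ, MonoidAlgebra.single 1 (F χ) * eChi f χ, ?_⟩
  ext χ'
  rw [map_sum, Finset.sum_apply]
  have h1 : ∀ χ : C →* Oˣ, fou f C (MonoidAlgebra.single 1 (F χ) * eChi f χ) χ' =
      F χ * (Pi.single χ (Fintype.card C : R) : (C →* Oˣ) → R) χ' := by
    intro χ
    rw [map_mul, fou_eChi, Pi.mul_apply, fou_single, map_one, Units.val_one, map_one, mul_one]
  rw [Finset.sum_congr rfl (fun c _ => h1 c), Finset.sum_eq_single χ']
  · rw [Pi.single_eq_same, Nat.card_eq_fintype_card, mul_comm]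
  · intro χ _ hχ
    rw [Pi.single_eq_of_ne hχ.symm, mul_zero]
  · intro h
    exact absurd (Finset.mem_univ _) h

theorem fou_apply_eq [Fintype C] (x : MonoidAlgebra R C) (χ : C →* Oˣ) :
    fou f C x χ = ∑ c : C, x.coeff c * f (χ c) := by
  classical
  induction x using MonoidAlgebra.induction_linear with
  | zero => simp
  | add a b ha hb =>
    rw [map_add, Pi.add_apply, ha, hb, ← Finset.sum_add_distrib]
    apply Finset.sum_congr rfl
    intro c _
    rw [MonoidAlgebra.coeff_add, Finsupp.add_apply, add_mul]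
  | single c r =>
    rw [fou_single, Finset.sum_eq_single c]
    · rw [MonoidAlgebra.coeff_single, Finsupp.single_eq_same]
    · intro b _ hb
      rw [MonoidAlgebra.coeff_single, Finsupp.single_eq_of_ne hb, zero_mul]
    · intro h
      exact absurd (Finset.mem_univ _) h

theorem fou_injective [Finite C] (N : ℕ) [NeZero N] [HasEnoughRootsOfUnity O N]
    (hC : ∀ a b : C, a * b = b * a) (hN : Nat.card C ∣ N)
    (hR : ∀ r : R, (Nat.card C : R) * r = 0 → r = 0) : Function.Injective (fou f C) := by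
  classical
  cases nonempty_fintype C
  have := finite_dual (O := O) N hC hN
  cases nonempty_fintype (C →* Oˣ)
  rw [injective_iff_map_eq_zero]
  intro x hx
  ext d
  rw [MonoidAlgebra.coeff_zero, Finsupp.zero_apply]
  apply hR
  have h1 : ∑ χ : C →* Oˣ, f (χ d⁻¹) * fou f C x χ = 0 := by
    rw [hx]
    simp
  rw [← h1]
  have h2 : ∀ χ : C →* Oˣ, f (χ d⁻¹) * fou f C x χ =
      ∑ c : C, x.coeff c * f (((χ (c * d⁻¹) : Oˣ)) : O) := by
    intro χ
    rw [fou_apply_eq, Finset.mul_sum]
    apply Finset.sum_congr rfl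
    intro c _
    rw [map_mul χ, Units.val_mul, map_mul f]
    ring
  rw [Finset.sum_congr rfl (fun χ _ => h2 χ), Finset.sum_comm, Finset.sum_eq_single d]
  · rw [← Finset.mul_sum, mul_inv_cancel, ← card_dual (O := O) N hC hN, mul_comm]
    congr 1
    simp
  · intro c _ hc
    rw [← Finset.mul_sum, ← map_sum, sum_dual N hC hN, map_zero, mul_zero]
    intro h
    exact hc (mul_inv_eq_one.1 h)
  · intro h
    exact absurd (Finset.mem_univ _) h

end Pool.Agent.H95.KM

end

section

/-!
# Project KM, module LinAlg: the linear algebra of the functionals `Θ`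

Orthogonality relations (`sum_chi`, `sum_dual`, `card_dual`) in `Pool/Agent/H95/KM/Fou.lean`.

PROOF of `linalg`.  `V` is a `ℚ`-vector space, so it suffices that every `ℚ`-linear `l : V → ℚ`
kills the sum (`Module.exists_dual_forall_apply_eq_zero_iff`-type statement or
`Module.forall_dual_apply_eq_zero_iff ℚ`).  Fix `l`.  For a good subgroup `D` (`D : Good`),
`m ∈ P`, `χ : D →* Oˣ` put `ℓ D m χ = l (Θ D (Pi.single χ (Pi.single m 1))) ∈ ℚ ⊂ L` and for `d ∈ D`
`h D m d = ∑_χ fL (χ d) * ℓ D m χ ∈ L`.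
(i) `h` is invariant: if `D, D'` are good, `g ∈ G`, `d ∈ D`, `d' ∈ D'`, `g d g⁻¹ = d'` then
    `h D m d = h D' m d'`.  It suffices to compare both with `E = ⟨d⟩` (`Subgroup.zpowers (d : G)`,
    good: finite cyclic, its order divides that of `D`), using the inclusion `E → D` (conjugation by
    `1`) and the conjugation `E → D'` by `g`.  So let `g E g⁻¹ ⊆ D'`, `h' = conjHom g E D'`.
    Naturality: `Θ D' (fun χ' m' => (δ_{(ψ,m)}) (χ'.comp h') m') = Θ E δ_{(ψ,m)}` and the
    function on the left is `∑_{χ' : χ'.comp h' = ψ} δ_{(χ', m)}`; hence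
    `ℓ E m ψ = ∑_{χ' : χ'.comp h' = ψ} ℓ D' m χ'` and
    `h E m d = ∑_ψ fL (ψ d) ∑_{χ' ∘ h' = ψ} ℓ D' m χ' = ∑_{χ'} fL (χ' (h' d)) ℓ D' m χ' = h D' m (h' d)`.
(ii) `h D m d = 0` if `pr m ∤ orderOf d`: reduce to `E = ⟨d⟩` by (i); `hvan` gives `ℓ E m ψ = 0`
    for all `ψ` (`Nat.card E = orderOf d`).
(iii) `∑_m h D m d = 0`: `∑_m δ_{(χ,m)}` is a function independent of `m`, so `hconst` gives
    `∑_m ℓ D m χ = 0`.
(iv) inversion: `ℓ D m χ = |D|⁻¹ ∑_{d ∈ D} fL (χ d)⁻¹ * h D m d` (`sum_chi` for `χ⁻¹ χ'`).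
Conclusion: `l (∑_i Θ (C i) (n i)) = ∑_i ∑_χ ∑_m n i χ m * ℓ (C i) m χ` (additivity of `Θ`)
`= ∑_m ∑_i ∑_{d ∈ C i} F i m d * h (C i) m d` with
`F i m d = |C i|⁻¹ ∑_χ n i χ m * fL (χ d)⁻¹`.  Group the pairs `(i, d)` by the conjugacy class of
`d` in `G` (finitely many classes occur; by (i) `h (C i) m d =: hh m γ` depends only on `m` and the
class `γ` of `d`): `= ∑_γ ∑_m hh m γ * ∑_i ∑_{d ∈ C i, d ∈ γ} F i m d`.  For `c ∈ γ` the inner
sum is the left hand side of `hs`, so it is `s c` whenever `pr m ∣ orderOf c`, and otherwise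
`hh m γ = 0` by (ii).  So the total is `∑_γ s c_γ * ∑_m hh m γ = 0` by (iii).
-/

set_option autoImplicit false

open Matrix

universe u v w

namespace Pool.Agent.H95.KM

/-- finite cyclic subgroups of order dividing `N` -/
abbrev Good (G : Type v) [Group G] (N : ℕ) : Type v :=
  {D : Subgroup G // (Finite D ∧ IsCyclic D) ∧ Nat.card D ∣ N}

section aux

set_option linter.unusedSectionVars false

variable {O : Type} [CommRing O] [IsDomain O] {N : ℕ} [NeZero N] [HasEnoughRootsOfUnity O N]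
  {L : Type} [Field L] [CharZero L] (fL : O →+* L) {G : Type v} [Group G] {P : Type} [Fintype P]
  {V : Type w} [AddCommGroup V] [Module ℚ V]

open Classical in
/-- the functional at a character -/
private noncomputable def el (Θ : ∀ D : Good G N, ((D.1 →* Oˣ) → P → ℤ) →+ V) (l : V →ₗ[ℚ] ℚ)
    (D : Good G N) (m : P) (χ : D.1 →* Oˣ) : ℚ :=
  l (Θ D (Pi.single χ (Pi.single m 1)))

/-- the Fourier transform of the functional -/
private noncomputable def hl (Θ : ∀ D : Good G N, ((D.1 →* Oˣ) → P → ℤ) →+ V) (l : V →ₗ[ℚ] ℚ)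
    (D : Good G N) (m : P) (d : D.1) : L :=
  ∑ᶠ χ : D.1 →* Oˣ, fL ((χ d : Oˣ) : O) * (el Θ l D m χ : L)

end aux

end Pool.Agent.H95.KM

end

section

/-!
# Corner embeddings of matrix rings

For a map `j : A → B` of finite types, `f : R →+* S` and `x : Matrix A A R`, the matrix
`cor j f x : Matrix B B S` has the entries `f (x a a')` at `(j a, j a')` and `0` elsewhere (`j`
injective), and `ext j f x = cor j f x + (1 - cor j f 1)`. For injective `j` the first is
multiplicative and additive, the second is multiplicative and unital.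

All proofs: `cor j f x = P * x.map f * Q` with `P = pm j`, `Q = qm j`, and `Q * P = 1` for `j`
injective.
-/

set_option autoImplicit false

open Matrix

namespace Pool.Agent.H95.WH

variable {A B : Type*} [Fintype A] [DecidableEq A] [Fintype B] [DecidableEq B]
  {R : Type*} [Ring R] {S : Type*} [Ring S]

/-- The matrix of `j`, rows indexed by `B`. -/
def pm (S : Type*) [Ring S] (j : A → B) : Matrix B A S := Matrix.of fun b a => if j a = b then 1 else 0

/-- The matrix of `j`, rows indexed by `A`. -/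
def qm (S : Type*) [Ring S] (j : A → B) : Matrix A B S := Matrix.of fun a b => if j a = b then 1 else 0

/-- The corner embedding. -/
def cor (j : A → B) (f : R →+* S) (x : Matrix A A R) : Matrix B B S := pm S j * x.map f * qm S j

/-- The corner embedding, completed by the identity. -/
def ext (j : A → B) (f : R →+* S) (x : Matrix A A R) : Matrix B B S :=
  cor j f x + (1 - cor j f 1)

end Pool.Agent.H95.WH

end

section

/-!
# Shifts, cyclic products and the twisted trace on `𝕜[G^N]`

Positions are the elements of `ZMod N`; `sh i I` is the shifted function `s ↦ I (s + i)`;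
`cyc γ = γ(0) γ(1) ⋯ γ(N-1)`; `kap : 𝕜[G^N] → (ConjClasses G →₀ ZMod N)` is the additive map with
`kap (c γ) = τ(c) [cyc γ]`.

Main results: `cyc_conj` : `cyc (γ δ)` is conjugate to `cyc (δ · sh 1 γ)`;
`kap_mul` : `kap (x y) = kap (y · shR 1 x)`.

Paper proof of `cyc_conj`: `γ(0) ∏_{s<N} (δ(s) γ(s+1)) = (∏_{s<N} (γ(s) δ(s))) γ(N)` by induction on
the length of the product (for all lengths `n ≤ N`), and `γ(N) = γ(0)` as `(N : ZMod N) = 0`.
`kap_mul`: both sides are biadditive; check on `single γ c`, `single δ d`.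
-/

set_option autoImplicit false

namespace Pool.Agent.H95.WH

section Shift

variable {N : ℕ} {α β : Type*}

end Shift

section Group

variable {N : ℕ} [NeZero N] {G : Type*} [Group G] {H : Type*} [Group H]

/-- The cyclic product `γ(0) γ(1) ⋯ γ(N-1)`. -/
def cyc (γ : ZMod N → G) : G := ((List.range N).map fun s : ℕ => γ (s : ZMod N)).prod

end Group

section Kap

variable {N : ℕ} [NeZero N] {G : Type*} [Group G] {𝕜 : Type*} [CommRing 𝕜] (τ : 𝕜 →+* ZMod N)

/-- The additive map `𝕜[G^N] → (ConjClasses G →₀ ZMod N)`, `c γ ↦ τ(c) [cyc γ]`. -/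
noncomputable def kap : MonoidAlgebra 𝕜 (ZMod N → G) →+ (ConjClasses G →₀ ZMod N) :=
  (Finsupp.liftAddHom fun γ : ZMod N → G =>
    (Finsupp.singleAddHom (ConjClasses.mk (cyc γ))).comp τ.toAddMonoidHom).comp
    (MonoidAlgebra.coeffAddEquiv : MonoidAlgebra 𝕜 (ZMod N → G) ≃+ _).toAddMonoidHom

end Kap

end Pool.Agent.H95.WH

end
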