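import Pool.Agent.H13.TFQ.M01
import Pool.Agent.H13.TFQ.M07

/-! The parts of this file: H95.KF.Defs, H95.KF.Pm, H95.KF.Rep, H95.KF.Sch, H95.KF.Stp, H95.KF.Win, H95.KM.FinRing. -/

section

/-!
# Project KF: modules and idempotent matrices (row vectors, left modules)
-/

set_option autoImplicit false

open Matrix
open scoped LaurentPolynomial

universe u v w

namespace Pool.Agent.H95.KF

variable {A : Type u} [Ring A] {ι : Type v} [Fintype ι] {κ : Type w} [Fintype κ]

/-- The left module `P` is the image of the idempotent matrix `e` acting on row vectors. -/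
def Rep (e : Matrix ι ι A) (P : Type w) [AddCommGroup P] [Module A P] : Prop :=
  ∃ (i : P →ₗ[A] (ι → A)) (r : (ι → A) →ₗ[A] P), (∀ p, r (i p) = p) ∧ ∀ v, i (r v) = v ᵥ* e

/-- The row vectors fixed by `e`. -/
def fixM (e : Matrix ι ι A) : Submodule A (ι → A) where
  carrier := {v | v ᵥ* e = v}
  add_mem' := fun {a b} ha hb => by
    change (a + b) ᵥ* e = a + b
    rw [add_vecMul, show a ᵥ* e = a from ha, show b ᵥ* e = b from hb]
  zero_mem' := zero_vecMul e
  smul_mem' := fun c {x} hx => by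
    change (c • x) ᵥ* e = c • x
    rw [smul_vecMul, show x ᵥ* e = x from hx]

/-- Congruence modulo `ℓ`. -/
def MCong (ℓ : ℕ) {m n : Type*} (X Y : Matrix m n A) : Prop :=
  ∃ Z : Matrix m n A, X - Y = (ℓ : ℤ) • Z

/-- The row vectors `v` with `v e ≡ 0` modulo `ℓ`. -/
def kerE (ℓ : ℕ) (e : Matrix ι ι A) : Submodule A (ι → A) where
  carrier := {v | ∃ w : ι → A, v ᵥ* e = (ℓ : ℤ) • w}
  add_mem' := fun {a b} ha hb => by
    obtain ⟨w, hw⟩ := ha
    obtain ⟨w', hw'⟩ := hb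
    exact ⟨w + w', by rw [add_vecMul, hw, hw', smul_add]⟩
  zero_mem' := ⟨0, by rw [zero_vecMul, smul_zero]⟩
  smul_mem' := fun c {x} hx => by
    obtain ⟨w, hw⟩ := hx
    refine ⟨c • w, ?_⟩
    rw [smul_vecMul, hw]
    exact smul_comm _ _ _

/-- The idempotent matrix which represents `kerE ℓ e`, where `e - e ^ 2 = ℓ δ`. -/
def pmat [DecidableEq ι] (ℓ : ℕ) (e δ : Matrix ι ι A) : Matrix (ι ⊕ ι) (ι ⊕ ι) A :=
  fromBlocks ((1 - e) * (1 - e)) (δ * (1 + (1 - e))) ((ℓ : ℤ) • (1 - e)) (e * (1 + (1 - e)))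

end Pool.Agent.H95.KF

end

section

/-!
# Project KF, module Pm: the idempotent matrix of the module `kerE ℓ e`

## Paper proofs

`pmat_map`: a ring homomorphism commutes with everything (`Matrix.fromBlocks_map`, `Matrix.map_mul`, ...).

`rep_pmat`: here `e - e e = ℓ δ` and `ℓ` is a nonzero divisor. `δ` commutes with `e` (multiply by `ℓ`).
`2 - e` is written as `1 + (1 - e)`.
`K = kerE ℓ e = {v | v e ∈ ℓ A^ι}`. For `v ∈ K` let `ν v` be the unique `w` with `v e = ℓ w`; `ν : K → A^ι` is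
`A`-linear (uniqueness). Put
`i v = Sum.elim (v (1 - e)) (ν v + v δ)`, `r (Sum.elim u w) = u (1 - e) + ℓ w`.
* `r` has values in `K`: `(u (1 - e) + ℓ w) e = ℓ (u δ + w e)`, so `ν (r (u, w)) = u δ + w e`.
* `r (i v) = v (1 - e) (1 - e) + ℓ (ν v) + ℓ (v δ) = v (1 - 2 e + e e + e + e - e e) = v`.
* `i (r (u, w))`, with `v = r (u, w) = u (1 - e) + ℓ w`: the first component is
  `u (1 - e)(1 - e) + ℓ w (1 - e)`; the second one is `ν v + v δ = u δ + w e + u (1 - e) δ + ℓ w δ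
  = u δ (1 + (1 - e)) + w (e + (e - e e)) = u δ (1 + (1 - e)) + w (e (1 + (1 - e)))`.
  This is `(u, w) ᵥ* pmat ℓ e δ`.
-/

set_option autoImplicit false

open Matrix

universe u v w

namespace Pool.Agent.H95.KF

variable {A : Type u} [Ring A] {ι : Type*} [Fintype ι] [DecidableEq ι]

theorem pmat_map {A' : Type w} [Ring A'] (f : A →+* A') (ℓ : ℕ) (e δ : Matrix ι ι A) :
    (pmat ℓ e δ).map f = pmat ℓ (e.map f) (δ.map f) := by
  have hm : ∀ M : Matrix ι ι A, M.map f = f.mapMatrix M := fun _ => rfl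
  unfold pmat
  rw [Matrix.fromBlocks_map]
  simp only [hm, map_mul, map_sub, map_add, map_one, map_zsmul]

theorem rep_pmat (ℓ : ℕ) (hℓ : ∀ x : A, (ℓ : ℤ) • x = 0 → x = 0) (e δ : Matrix ι ι A)
    (h : e - e * e = (ℓ : ℤ) • δ) : Rep (pmat ℓ e δ) (kerE ℓ e) := by
  have hinj : ∀ v w : ι → A, (ℓ : ℤ) • v = (ℓ : ℤ) • w → v = w := by
    intro v w hvw
    funext i
    have h1 : (ℓ : ℤ) • v i = (ℓ : ℤ) • w i := congrFun hvw i
    exact sub_eq_zero.mp (hℓ (v i - w i) (by rw [smul_sub, h1, sub_self]))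
  have hcomm : e * δ = δ * e := by
    have h1 : (ℓ : ℤ) • (e * δ - δ * e) = 0 := by
      rw [smul_sub, ← Matrix.mul_smul, ← Matrix.smul_mul, ← h]
      noncomm_ring
    apply sub_eq_zero.mp
    ext i j
    exact hℓ _ (congrFun (congrFun h1 i) j)
  let nf : kerE ℓ e → (ι → A) := fun v => Classical.choose v.2
  have hν : ∀ v : kerE ℓ e, (v : ι → A) ᵥ* e = (ℓ : ℤ) • nf v :=
    fun v => Classical.choose_spec v.2
  have hνu : ∀ (v : kerE ℓ e) (w : ι → A), (v : ι → A) ᵥ* e = (ℓ : ℤ) • w → nf v = w :=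
    fun v w hw => hinj _ _ ((hν v).symm.trans hw)
  have hνadd : ∀ v w : kerE ℓ e, nf (v + w) = nf v + nf w := by
    intro v w
    apply hνu
    rw [Submodule.coe_add, add_vecMul, hν, hν, smul_add]
  have hνsmul : ∀ (c : A) (v : kerE ℓ e), nf (c • v) = c • nf v := by
    intro c v
    apply hνu
    rw [Submodule.coe_smul, smul_vecMul, hν]
    exact smul_comm _ _ _
  have hmem : ∀ u w : ι → A, (u ᵥ* (1 - e) + (ℓ : ℤ) • w) ᵥ* e =
      (ℓ : ℤ) • (u ᵥ* δ + w ᵥ* e) := by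
    intro u w
    have h1 : (1 - e) * e = (ℓ : ℤ) • δ := by rw [← h]; noncomm_ring
    rw [add_vecMul, vecMul_vecMul, h1, vecMul_smul, smul_vecMul, smul_add]
  have hadd : ∀ v w : kerE ℓ e,
      Sum.elim (((v + w : kerE ℓ e) : ι → A) ᵥ* (1 - e))
        (nf (v + w) + ((v + w : kerE ℓ e) : ι → A) ᵥ* δ) =
      Sum.elim ((v : ι → A) ᵥ* (1 - e)) (nf v + (v : ι → A) ᵥ* δ) +
        Sum.elim ((w : ι → A) ᵥ* (1 - e)) (nf w + (w : ι → A) ᵥ* δ) := by
    intro v w
    rw [hνadd, Submodule.coe_add, add_vecMul, add_vecMul]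
    funext x
    rcases x with x | x
    · simp only [Sum.elim_inl, Pi.add_apply]
    · simp only [Sum.elim_inr, Pi.add_apply]
      abel
  have hsm : ∀ (c : A) (v : kerE ℓ e),
      Sum.elim (((c • v : kerE ℓ e) : ι → A) ᵥ* (1 - e))
        (nf (c • v) + ((c • v : kerE ℓ e) : ι → A) ᵥ* δ) =
      c • Sum.elim ((v : ι → A) ᵥ* (1 - e)) (nf v + (v : ι → A) ᵥ* δ) := by
    intro c v
    rw [hνsmul, Submodule.coe_smul, smul_vecMul, smul_vecMul]
    funext x
    rcases x with x | x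
    · simp only [Sum.elim_inl, Pi.smul_apply]
    · simp only [Sum.elim_inr, Pi.smul_apply, Pi.add_apply, smul_add]
  let i : kerE ℓ e →ₗ[A] (ι ⊕ ι → A) :=
    { toFun := fun v => Sum.elim ((v : ι → A) ᵥ* (1 - e)) (nf v + (v : ι → A) ᵥ* δ)
      map_add' := hadd
      map_smul' := hsm }
  let r : (ι ⊕ ι → A) →ₗ[A] kerE ℓ e :=
    { toFun := fun x => ⟨(x ∘ Sum.inl) ᵥ* (1 - e) + (ℓ : ℤ) • (x ∘ Sum.inr),
        ⟨_, hmem (x ∘ Sum.inl) (x ∘ Sum.inr)⟩⟩
      map_add' := fun x y => by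
        apply Subtype.ext
        change ((x + y) ∘ Sum.inl) ᵥ* (1 - e) + (ℓ : ℤ) • ((x + y) ∘ Sum.inr) =
          ((x ∘ Sum.inl) ᵥ* (1 - e) + (ℓ : ℤ) • (x ∘ Sum.inr)) +
            ((y ∘ Sum.inl) ᵥ* (1 - e) + (ℓ : ℤ) • (y ∘ Sum.inr))
        rw [show (x + y) ∘ Sum.inl = x ∘ Sum.inl + y ∘ Sum.inl from rfl,
          show (x + y) ∘ Sum.inr = x ∘ Sum.inr + y ∘ Sum.inr from rfl, add_vecMul, smul_add]
        abel
      map_smul' := fun c x => by
        apply Subtype.ext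
        change ((c • x) ∘ Sum.inl) ᵥ* (1 - e) + (ℓ : ℤ) • ((c • x) ∘ Sum.inr) =
          c • ((x ∘ Sum.inl) ᵥ* (1 - e) + (ℓ : ℤ) • (x ∘ Sum.inr))
        rw [show (c • x) ∘ Sum.inl = c • (x ∘ Sum.inl) from rfl,
          show (c • x) ∘ Sum.inr = c • (x ∘ Sum.inr) from rfl, smul_vecMul, smul_add,
          smul_comm (ℓ : ℤ) c] }
  refine ⟨i, r, fun v => ?_, fun x => ?_⟩
  · apply Subtype.ext
    change ((v : ι → A) ᵥ* (1 - e)) ᵥ* (1 - e) + (ℓ : ℤ) • (nf v + (v : ι → A) ᵥ* δ) = (v : ι → A)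
    rw [smul_add, ← hν, ← vecMul_smul, ← h, vecMul_vecMul, ← vecMul_add, ← vecMul_add]
    have h1 : (1 - e) * (1 - e) + (e + (e - e * e)) = 1 := by noncomm_ring
    rw [h1, vecMul_one]
  · have h2 : nf (r x) = (x ∘ Sum.inl) ᵥ* δ + (x ∘ Sum.inr) ᵥ* e :=
      hνu _ _ (hmem (x ∘ Sum.inl) (x ∘ Sum.inr))
    change Sum.elim (((x ∘ Sum.inl) ᵥ* (1 - e) + (ℓ : ℤ) • (x ∘ Sum.inr)) ᵥ* (1 - e))
      (nf (r x) + ((x ∘ Sum.inl) ᵥ* (1 - e) + (ℓ : ℤ) • (x ∘ Sum.inr)) ᵥ* δ) = _
    rw [h2]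
    unfold pmat
    rw [vecMul_fromBlocks]
    congr 1
    · rw [add_vecMul, vecMul_vecMul, smul_vecMul, ← vecMul_smul]
    · have h3 : (1 - e) * δ = δ * (1 - e) := by
        rw [sub_mul, mul_sub, one_mul, mul_one, hcomm]
      rw [add_vecMul, vecMul_vecMul, smul_vecMul, ← vecMul_smul, ← h, h3, mul_add, mul_add,
        mul_one, mul_one, vecMul_add, vecMul_add]
      have h4 : e * (1 - e) = e - e * e := by noncomm_ring
      rw [h4]
      abel

end Pool.Agent.H95.KF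

end

section

/-!
# Project KF, module Rep: idempotent matrices representing modules

## Paper proofs

`Rep e P`: maps `i : P → A^ι`, `r : A^ι → P` with `r i = 1` and `i r = (· e)` (row vectors, left modules).
* `Rep.idem`: `(v e) e = i (r (i (r v))) = i (r v) = v e` for all `v`; take `v = Pi.single j 1` (or use
  `Matrix.toLinearMapRight'`/`LinearMap.toMatrixRight'`, which exist for noncommutative rings).
* `rep_fixM`: `i` the inclusion, `r v = v e`.
* `rep_one`: identities.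
* `Rep.prod`: `i (p, q) = Sum.elim (i p) (i' q)`, `r w = (r (w ∘ inl), r' (w ∘ inr))`
  (`Matrix.vecMul_fromBlocks` or by hand).
* `Rep.equiv`: `i ∘ g.symm`, `g ∘ r`.
* `Rep.matEquiv`: with `Q = P` (by `Rep.equiv`): `x := toMatrixRight' (i' ∘ r) : Matrix ι κ A` (i.e. row `j` of `x`
  is `i' (r (Pi.single j 1))`), `y := toMatrixRight' (i ∘ r')`. Acting on row vectors `v x = i' (r v)`,
  `v (x y) = i (r' (i' (r v))) = i (r v) = v e`, so `x y = e`; in the same way `y x = f`.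
-/

set_option autoImplicit false

open Matrix

universe u v w

namespace Pool.Agent.H95.KF

open Pool.Agent.H71.FJ

variable {A : Type u} [Ring A] {ι : Type*} [Fintype ι] [DecidableEq ι] {κ : Type*} [Fintype κ]
  [DecidableEq κ]

private theorem rep_ext_row {m n : Type*} [Fintype m] [DecidableEq m] {M N : Matrix m n A}
    (h : ∀ v : m → A, v ᵥ* M = v ᵥ* N) : M = N :=
  Matrix.toLinearMapRight'.injective (LinearMap.ext h)

private theorem rep_exists_mat {m n : Type*} [Fintype m] [DecidableEq m]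
    (f : (m → A) →ₗ[A] (n → A)) : ∃ M : Matrix m n A, ∀ v, v ᵥ* M = f v :=
  ⟨LinearMap.toMatrixRight' f, fun v =>
    LinearMap.congr_fun (LinearMap.toMatrixRight'.symm_apply_apply f) v⟩

theorem Rep.idem {e : Matrix ι ι A} {P : Type*} [AddCommGroup P] [Module A P] (h : Rep e P) :
    e * e = e := by
  obtain ⟨i, r, hr, hi⟩ := h
  apply rep_ext_row
  intro v
  rw [← vecMul_vecMul, ← hi, ← hi, hr]

theorem rep_fixM {e : Matrix ι ι A} (he : e * e = e) : Rep e (fixM e) := by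
  refine ⟨(fixM e).subtype, (Matrix.toLinearMapRight' e).codRestrict (fixM e) (fun v => ?_),
    fun p => ?_, fun v => ?_⟩
  · change (v ᵥ* e) ᵥ* e = v ᵥ* e
    rw [vecMul_vecMul, he]
  · apply Subtype.ext
    exact p.2
  · rfl

theorem rep_one : Rep (1 : Matrix ι ι A) (ι → A) :=
  ⟨LinearMap.id, LinearMap.id, fun _ => rfl, fun v => (vecMul_one v).symm⟩

theorem Rep.prod {e : Matrix ι ι A} {f : Matrix κ κ A} {P : Type*} [AddCommGroup P] [Module A P]
    {Q : Type*} [AddCommGroup Q] [Module A Q] (h : Rep e P) (h' : Rep f Q) :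
    Rep (fromBlocks e 0 0 f) (P × Q) := by
  obtain ⟨i, r, hr, hi⟩ := h
  obtain ⟨i', r', hr', hi'⟩ := h'
  let I : P × Q →ₗ[A] (ι ⊕ κ → A) :=
    { toFun := fun p => Sum.elim (i p.1) (i' p.2)
      map_add' := fun p q => by
        funext j
        rcases j with j | j
        · change i (p.1 + q.1) j = i p.1 j + i q.1 j
          rw [map_add]
          rfl
        · change i' (p.2 + q.2) j = i' p.2 j + i' q.2 j
          rw [map_add]
          rfl
      map_smul' := fun c p => by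
        funext j
        rcases j with j | j
        · change i (c • p.1) j = c • i p.1 j
          rw [map_smul]
          rfl
        · change i' (c • p.2) j = c • i' p.2 j
          rw [map_smul]
          rfl }
  let J : (ι ⊕ κ → A) →ₗ[A] P × Q :=
    { toFun := fun w => (r (w ∘ Sum.inl), r' (w ∘ Sum.inr))
      map_add' := fun w w' => by
        change (r (w ∘ Sum.inl + w' ∘ Sum.inl), r' (w ∘ Sum.inr + w' ∘ Sum.inr)) = _
        rw [map_add, map_add]
        rfl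
      map_smul' := fun c w => by
        change (r (c • (w ∘ Sum.inl)), r' (c • (w ∘ Sum.inr))) = _
        rw [map_smul, map_smul]
        rfl }
  refine ⟨I, J, fun p => ?_, fun w => ?_⟩
  · change (r (Sum.elim (i p.1) (i' p.2) ∘ Sum.inl), r' (Sum.elim (i p.1) (i' p.2) ∘ Sum.inr)) = p
    rw [Sum.elim_comp_inl, Sum.elim_comp_inr, hr, hr']
  · change Sum.elim (i (r (w ∘ Sum.inl))) (i' (r' (w ∘ Sum.inr))) = _
    rw [vecMul_fromBlocks, vecMul_zero, vecMul_zero, add_zero, zero_add, hi, hi']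

theorem Rep.equiv {e : Matrix ι ι A} {P : Type*} [AddCommGroup P] [Module A P]
    {Q : Type*} [AddCommGroup Q] [Module A Q] (h : Rep e P) (g : P ≃ₗ[A] Q) : Rep e Q := by
  obtain ⟨i, r, hr, hi⟩ := h
  refine ⟨i.comp g.symm.toLinearMap, g.toLinearMap.comp r, fun p => ?_, fun v => ?_⟩
  · change g (r (i (g.symm p))) = p
    rw [hr, LinearEquiv.apply_symm_apply]
  · change i (g.symm (g (r v))) = v ᵥ* e
    rw [LinearEquiv.symm_apply_apply, hi]

theorem Rep.matEquiv {e : Matrix ι ι A} {f : Matrix κ κ A} {P : Type*} [AddCommGroup P]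
    [Module A P] {Q : Type*} [AddCommGroup Q] [Module A Q] (h : Rep e P) (h' : Rep f Q)
    (g : P ≃ₗ[A] Q) : MatEquiv e f := by
  obtain ⟨i, r, hr, hi⟩ := h.equiv g
  obtain ⟨i', r', hr', hi'⟩ := h'
  obtain ⟨x, hx⟩ := rep_exists_mat (i'.comp r)
  obtain ⟨y, hy⟩ := rep_exists_mat (i.comp r')
  refine ⟨x, y, rep_ext_row fun v => ?_, rep_ext_row fun v => ?_⟩
  · rw [← vecMul_vecMul, hx, hy]
    change i (r' (i' (r v))) = v ᵥ* e
    rw [hr', hi]
  · rw [← vecMul_vecMul, hy, hx]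
    change i' (r (i (r' v))) = v ᵥ* f
    rw [hr, hi']

end Pool.Agent.H95.KF

end

section

/-!
# Project KF, module Sch: the modules `kerE` and equivalence modulo `ℓ`

## Paper proofs

`kerE_congr` (Schanuel): `K(e) = {v | v e ≡ 0}`, congruences modulo `ℓ`; `x y ≡ e`, `y x ≡ f`, `e e ≡ e`, `f f ≡ f`.
The map `K(e) × A^κ → K(f) × A^ι`, `(k, w) ↦ (w - v x, v)` with `v := k + w y`. It is well defined:
`(w - v x) f ≡ w f - k x f - w y x f ≡ w f - k x f - w f f ≡ - k x f ≡ - k x y x ≡ - (k e) x ≡ 0`.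
The inverse: `(k', v) ↦ (v - w y, w)` with `w := k' + v x`; `(v - w y) e ≡ v e - k' y e - v x y e ≡ - k' y e
≡ - k' y x y ≡ - (k' f) y ≡ 0`. These maps are mutually inverse: starting with `(k, w)`:
`w' = (w - v x) + v x = w`, `v - w y = k`.
(Congruence of vectors: `∃ z, a - b = (ℓ : ℤ) • z`; if `X ≡ Y` (`MCong`) then `v X ≡ v Y`; products of congruent
matrices are congruent. `LinearEquiv` can be built from two linear maps, `LinearEquiv.ofLinear`, or from
`toFun`/`invFun`.)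

`kerE_blocks`: `v ↦ (v ∘ inl, v ∘ inr)`; `v (fromBlocks e 0 0 f) = Sum.elim ((v ∘ inl) e) ((v ∘ inr) f)`.
-/

set_option autoImplicit false

open Matrix

universe u v w

namespace Pool.Agent.H95.KF

variable {A : Type u} [Ring A] {ι : Type*} [Fintype ι] [DecidableEq ι] {κ : Type*} [Fintype κ]
  [DecidableEq κ]

/-- divisibility of a vector by `ℓ` -/
private def DvS (ℓ : ℕ) {ι : Type*} (v : ι → A) : Prop := ∃ w : ι → A, v = (ℓ : ℤ) • w

private theorem DvS.add {ℓ : ℕ} {ι : Type*} {v w : ι → A} (hv : DvS ℓ v) (hw : DvS ℓ w) :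
    DvS ℓ (v + w) := by
  obtain ⟨a, rfl⟩ := hv
  obtain ⟨b, rfl⟩ := hw
  exact ⟨a + b, (smul_add _ _ _).symm⟩

private theorem DvS.sub {ℓ : ℕ} {ι : Type*} {v w : ι → A} (hv : DvS ℓ v) (hw : DvS ℓ w) :
    DvS ℓ (v - w) := by
  obtain ⟨a, rfl⟩ := hv
  obtain ⟨b, rfl⟩ := hw
  exact ⟨a - b, (smul_sub _ _ _).symm⟩

private theorem zsmul_vecMulS {ι κ : Type*} [Fintype ι] (n : ℤ) (v : ι → A) (M : Matrix ι κ A) :
    (n • v) ᵥ* M = n • (v ᵥ* M) := by
  funext j
  simp only [vecMul, dotProduct, Pi.smul_apply, Finset.smul_sum]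
  exact Finset.sum_congr rfl fun i _ => smul_mul_assoc n (v i) (M i j)

private theorem vecMul_zsmulS {ι κ : Type*} [Fintype ι] (n : ℤ) (v : ι → A) (M : Matrix ι κ A) :
    v ᵥ* (n • M) = n • (v ᵥ* M) := by
  funext j
  simp only [vecMul, dotProduct, Pi.smul_apply, Matrix.smul_apply, Finset.smul_sum]
  exact Finset.sum_congr rfl fun i _ => mul_smul_comm n (v i) (M i j)

private theorem DvS.vecMul {ℓ : ℕ} {ι κ : Type*} [Fintype ι] {v : ι → A} (hv : DvS ℓ v)
    (M : Matrix ι κ A) : DvS ℓ (v ᵥ* M) := by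
  obtain ⟨a, rfl⟩ := hv
  exact ⟨a ᵥ* M, zsmul_vecMulS _ _ _⟩

private theorem DvS.of_cong {ℓ : ℕ} {ι κ : Type*} [Fintype ι] {X Y : Matrix ι κ A}
    (h : MCong ℓ X Y) (v : ι → A) : DvS ℓ (v ᵥ* X - v ᵥ* Y) := by
  obtain ⟨Z, hZ⟩ := h
  refine ⟨v ᵥ* Z, ?_⟩
  rw [← vecMul_sub, hZ, vecMul_zsmulS]

private theorem sch_mem {ι κ : Type*} [Fintype ι] [Fintype κ] {ℓ : ℕ} {e : Matrix ι ι A}
    {f : Matrix κ κ A} {x : Matrix ι κ A} {y : Matrix κ ι A} (hf : MCong ℓ (f * f) f)
    (hxy : MCong ℓ (x * y) e) (hyx : MCong ℓ (y * x) f) (k : kerE ℓ e) (w : κ → A) :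
    w - (k.1 + w ᵥ* y) ᵥ* x ∈ kerE ℓ f := by
  have hk : DvS ℓ (k.1 ᵥ* e) := k.2
  have h1 : DvS ℓ (w ᵥ* (f * f) - w ᵥ* f) := DvS.of_cong hf w
  have h2 : DvS ℓ ((w ᵥ* (y * x) - w ᵥ* f) ᵥ* f) := (DvS.of_cong hyx w).vecMul f
  have h3 : DvS ℓ ((k.1 ᵥ* x) ᵥ* (y * x) - (k.1 ᵥ* x) ᵥ* f) := DvS.of_cong hyx _
  have h4 : DvS ℓ ((k.1 ᵥ* (x * y) - k.1 ᵥ* e) ᵥ* x) := (DvS.of_cong hxy k.1).vecMul x
  have h5 : DvS ℓ ((k.1 ᵥ* e) ᵥ* x) := hk.vecMul x
  have h : DvS ℓ (((k.1 ᵥ* x) ᵥ* (y * x) - (k.1 ᵥ* x) ᵥ* f) -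
      ((k.1 ᵥ* (x * y) - k.1 ᵥ* e) ᵥ* x + (k.1 ᵥ* e) ᵥ* x) -
      ((w ᵥ* (y * x) - w ᵥ* f) ᵥ* f + (w ᵥ* (f * f) - w ᵥ* f))) :=
    (h3.sub (h4.add h5)).sub (h2.add h1)
  obtain ⟨z, hz⟩ := h
  refine ⟨z, ?_⟩
  rw [← hz]
  simp only [sub_vecMul, add_vecMul, vecMul_vecMul, Matrix.mul_assoc]
  abel

theorem kerE_congr (ℓ : ℕ) (e : Matrix ι ι A) (f : Matrix κ κ A) (x : Matrix ι κ A)
    (y : Matrix κ ι A) (he : MCong ℓ (e * e) e) (hf : MCong ℓ (f * f) f)
    (hxy : MCong ℓ (x * y) e) (hyx : MCong ℓ (y * x) f) :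
    Nonempty ((kerE ℓ e × (κ → A)) ≃ₗ[A] (kerE ℓ f × (ι → A))) := by
  refine ⟨{
    toFun := fun p => (⟨p.2 - (p.1.1 + p.2 ᵥ* y) ᵥ* x, sch_mem hf hxy hyx p.1 p.2⟩,
      p.1.1 + p.2 ᵥ* y)
    map_add' := fun p q => ?_
    map_smul' := fun c p => ?_
    invFun := fun p => (⟨p.2 - (p.1.1 + p.2 ᵥ* x) ᵥ* y, sch_mem he hyx hxy p.1 p.2⟩,
      p.1.1 + p.2 ᵥ* x)
    left_inv := fun p => ?_
    right_inv := fun p => ?_ }⟩
  · refine Prod.ext (Subtype.ext ?_) ?_
    · change (p.2 + q.2) - ((p.1.1 + q.1.1) + (p.2 + q.2) ᵥ* y) ᵥ* x =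
        (p.2 - (p.1.1 + p.2 ᵥ* y) ᵥ* x) + (q.2 - (q.1.1 + q.2 ᵥ* y) ᵥ* x)
      simp only [add_vecMul]
      abel
    · change (p.1.1 + q.1.1) + (p.2 + q.2) ᵥ* y = (p.1.1 + p.2 ᵥ* y) + (q.1.1 + q.2 ᵥ* y)
      simp only [add_vecMul]
      abel
  · refine Prod.ext (Subtype.ext ?_) ?_
    · change c • p.2 - (c • p.1.1 + (c • p.2) ᵥ* y) ᵥ* x = c • (p.2 - (p.1.1 + p.2 ᵥ* y) ᵥ* x)
      simp only [add_vecMul, smul_vecMul, smul_sub, smul_add]
    · change c • p.1.1 + (c • p.2) ᵥ* y = c • (p.1.1 + p.2 ᵥ* y)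
      simp only [smul_vecMul, smul_add]
  · refine Prod.ext (Subtype.ext ?_) ?_
    · change (p.1.1 + p.2 ᵥ* y) - ((p.2 - (p.1.1 + p.2 ᵥ* y) ᵥ* x) +
        (p.1.1 + p.2 ᵥ* y) ᵥ* x) ᵥ* y = p.1.1
      rw [sub_add_cancel, add_sub_cancel_right]
    · change (p.2 - (p.1.1 + p.2 ᵥ* y) ᵥ* x) + (p.1.1 + p.2 ᵥ* y) ᵥ* x = p.2
      rw [sub_add_cancel]
  · refine Prod.ext (Subtype.ext ?_) ?_
    · change (p.1.1 + p.2 ᵥ* x) - ((p.2 - (p.1.1 + p.2 ᵥ* x) ᵥ* y) +
        (p.1.1 + p.2 ᵥ* x) ᵥ* y) ᵥ* x = p.1.1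
      rw [sub_add_cancel, add_sub_cancel_right]
    · change (p.2 - (p.1.1 + p.2 ᵥ* x) ᵥ* y) + (p.1.1 + p.2 ᵥ* x) ᵥ* y = p.2
      rw [sub_add_cancel]

theorem kerE_blocks (ℓ : ℕ) (e : Matrix ι ι A) (f : Matrix κ κ A) :
    Nonempty (kerE ℓ (fromBlocks e 0 0 f) ≃ₗ[A] (kerE ℓ e × kerE ℓ f)) := by
  have key : ∀ (a : ι → A) (b : κ → A), (Sum.elim a b) ᵥ* (fromBlocks e 0 0 f) =
      Sum.elim (a ᵥ* e) (b ᵥ* f) := by
    intro a b
    rw [vecMul_fromBlocks]
    simp only [Sum.elim_comp_inl, Sum.elim_comp_inr, vecMul_zero, add_zero, zero_add]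
  have hin : ∀ v : ι ⊕ κ → A, v ∈ kerE ℓ (fromBlocks e 0 0 f) →
      (v ∘ Sum.inl) ∈ kerE ℓ e ∧ (v ∘ Sum.inr) ∈ kerE ℓ f := by
    rintro v ⟨w, hw⟩
    rw [← Sum.elim_comp_inl_inr v, key] at hw
    refine ⟨⟨w ∘ Sum.inl, ?_⟩, ⟨w ∘ Sum.inr, ?_⟩⟩
    · funext i
      exact congrFun hw (Sum.inl i)
    · funext i
      exact congrFun hw (Sum.inr i)
  refine ⟨{
    toFun := fun v => (⟨v.1 ∘ Sum.inl, (hin v.1 v.2).1⟩, ⟨v.1 ∘ Sum.inr, (hin v.1 v.2).2⟩)
    map_add' := fun p q => rfl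
    map_smul' := fun c p => rfl
    invFun := fun p => ⟨Sum.elim p.1.1 p.2.1, ?_⟩
    left_inv := fun v => Subtype.ext (Sum.elim_comp_inl_inr v.1)
    right_inv := fun p => rfl }⟩
  obtain ⟨w, hw⟩ := p.1.2
  obtain ⟨w', hw'⟩ := p.2.2
  refine ⟨Sum.elim w w', ?_⟩
  rw [key, hw, hw']
  funext i
  cases i <;> rfl

end Pool.Agent.H95.KF

end

section

/-!
# Project KF, module Stp: the elementary step

## Paper proofs

Write `g = gmat A ℓ s = diagonal g_i`, `g_i ∈ {1, ℓ}`, `D = {i // s i}`, `E_D` the submatrix. `E g = g E'` says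
`E i j g_j = g_i E' i j`; so
 (a) `s i`, `s j`: `E i j = E' i j` (cancel `ℓ`);
 (b) `¬ s i`, `s j`: `E' i j = ℓ E i j`;
 (c) `s i`, `¬ s j`: `E i j = ℓ E' i j`;
 (d) `¬ s i`, `¬ s j`: `E i j = E' i j`.
`step_cong`: for `i, j ∈ D`: `E i j = (E E) i j = ∑_{k ∈ D} E i k E k j + ∑_{k ∉ D} E i k E k j`, and the second sum
is divisible by `ℓ` by (c) (the first factor).
`step_equiv`: `P = fixM E`, `P' = fixM E'` (row vectors), `K = kerE ℓ E_D`. For `w ∈ A^D` let `w⁰ ∈ A^ι` be the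
extension by zero, for `v ∈ A^ι` let `v_D` be the restriction.
The map `P × A^D → P' × K`: `(p, w) ↦ (v', w - v'_D)` with `v' := p g + w⁰ E'`.
 * `v' E' = p g E' + w⁰ E' E' = p E g + w⁰ E' = p g + w⁰ E' = v'`.
 * `v'_D = (p g)_D + (w⁰ E')_D = ℓ p_D + w E_D` by (a). In general for `v' ∈ P'`: `v'_D = (v' E')_D ≡ v'_D E_D` modulo
   `ℓ` (by (a), (b)). So `(w - v'_D) E_D ≡ w E_D - v'_D ≡ - ℓ p_D ≡ 0`, i.e. `w - v'_D ∈ K`.
The inverse: `(v', k) ↦ (p, w)` with `w := k + v'_D` and `p` the unique vector with `p g = v' - w⁰ E'`. It exists: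
 the `i`-component, `i ∈ D`, of `v' - w⁰ E'` is that of `v'_D - w E_D = v'_D - k E_D - v'_D E_D ≡ 0` mod `ℓ`.
 It lies in `P`: `(p E) g = p g E' = v' E' - w⁰ E' E' = v' - w⁰ E' = p g`, and `g` can be cancelled (`ℓ` is a
 nonzero divisor).
(It may be easiest to prove that the map `(p, w) ↦ (v', w - v'_D)` is linear, injective and surjective and to use
`LinearEquiv.ofBijective`: injective: if `v' = 0` and `w = v'_D` then `w = 0`, `p g = 0`, `p = 0`.)
`(ℓ : A)` is central: `Nat.cast_commute`; `(ℓ : ℤ) • x = (ℓ : A) * x = x * (ℓ : A)`.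
-/

set_option autoImplicit false
set_option linter.unusedSectionVars false

open Matrix

universe u v w

namespace Pool.Agent.H95.KF

variable {A : Type u} [Ring A] {ι : Type*} [Fintype ι] [DecidableEq ι]

/-- the diagonal matrix with entries `ℓ` and `1` -/
def gmat (A : Type u) [Ring A] (ℓ : ℕ) (s : ι → Prop) [DecidablePred s] : Matrix ι ι A :=
  diagonal fun i => if s i then (ℓ : A) else 1

section aux

variable {ℓ : ℕ} {s : ι → Prop} [DecidablePred s] {E E' : Matrix ι ι A}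

private theorem stp_smul (x : A) : (ℓ : ℤ) • x = (ℓ : A) * x := by
  rw [zsmul_eq_mul, Int.cast_natCast]

private theorem stp_smul' (x : A) : (ℓ : ℤ) • x = x * (ℓ : A) := by
  rw [stp_smul, (Nat.cast_commute ℓ x).eq]

private theorem stp_entry (h : E * gmat A ℓ s = gmat A ℓ s * E') (i j : ι) :
    E i j * (if s j then (ℓ : A) else 1) = (if s i then (ℓ : A) else 1) * E' i j := by
  have h1 := congrFun (congrFun h i) j
  unfold gmat at h1
  rwa [mul_diagonal, diagonal_mul] at h1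

private theorem stp_a (hℓ : ∀ x : A, (ℓ : ℤ) • x = 0 → x = 0)
    (h : E * gmat A ℓ s = gmat A ℓ s * E') {i j : ι} (hi : s i) (hj : s j) :
    E' i j = E i j := by
  have h1 := stp_entry h i j
  rw [if_pos hi, if_pos hj, ← stp_smul, ← stp_smul'] at h1
  refine sub_eq_zero.1 (hℓ _ ?_)
  rw [smul_sub, h1, sub_self]

private theorem stp_b (h : E * gmat A ℓ s = gmat A ℓ s * E') {i j : ι} (hi : ¬ s i) (hj : s j) :
    E' i j = (ℓ : ℤ) • E i j := by
  have h1 := stp_entry h i j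
  rw [if_neg hi, if_pos hj, one_mul, ← stp_smul'] at h1
  exact h1.symm

private theorem stp_c (h : E * gmat A ℓ s = gmat A ℓ s * E') {i j : ι} (hi : s i) (hj : ¬ s j) :
    E i j = (ℓ : ℤ) • E' i j := by
  have h1 := stp_entry h i j
  rwa [if_pos hi, if_neg hj, mul_one, ← stp_smul] at h1

/-- extension by zero -/
private def stp_ext (s : ι → Prop) [DecidablePred s] : ({i // s i} → A) →ₗ[A] (ι → A) where
  toFun w i := if h : s i then w ⟨i, h⟩ else 0
  map_add' a b := by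
    funext i
    by_cases h : s i <;> simp [h]
  map_smul' c a := by
    funext i
    by_cases h : s i <;> simp [h]

private theorem stp_ext_pos (w : {i // s i} → A) (i : {i // s i}) : stp_ext s w i.1 = w i := by
  show (if h : s i.1 then w ⟨i.1, h⟩ else 0) = _
  rw [dif_pos i.2]

private theorem stp_ext_neg (w : {i // s i} → A) {i : ι} (h : ¬ s i) : stp_ext s w i = 0 := by
  show (if h : s i then w ⟨i, h⟩ else 0) = _
  rw [dif_neg h]

/-- restriction -/
private def stp_res (s : ι → Prop) : (ι → A) →ₗ[A] ({i // s i} → A) where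
  toFun v i := v i.1
  map_add' _ _ := rfl
  map_smul' _ _ := rfl

private theorem stp_vecMul_apply {m n : Type*} [Fintype m] (v : m → A) (M : Matrix m n A)
    (j : n) : (v ᵥ* M) j = ∑ i, v i * M i j := rfl

private theorem stp_gmat (p : ι → A) (i : ι) :
    (p ᵥ* gmat A ℓ s) i = p i * (if s i then (ℓ : A) else 1) := by
  unfold gmat
  exact vecMul_diagonal _ _ _

private theorem stp_gmat_pos (p : ι → A) {i : ι} (hi : s i) :
    (p ᵥ* gmat A ℓ s) i = (ℓ : ℤ) • p i := by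
  rw [stp_gmat, if_pos hi, stp_smul']

private theorem stp_gmat_neg (p : ι → A) {i : ι} (hi : ¬ s i) :
    (p ᵥ* gmat A ℓ s) i = p i := by
  rw [stp_gmat, if_neg hi, mul_one]

private theorem stp_gmat_inj (hℓ : ∀ x : A, (ℓ : ℤ) • x = 0 → x = 0) {p q : ι → A}
    (h : p ᵥ* gmat A ℓ s = q ᵥ* gmat A ℓ s) : p = q := by
  funext i
  have h1 := congrFun h i
  by_cases hi : s i
  · rw [stp_gmat_pos _ hi, stp_gmat_pos _ hi] at h1
    refine sub_eq_zero.1 (hℓ _ ?_)
    rw [smul_sub, h1, sub_self]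
  · rwa [stp_gmat_neg _ hi, stp_gmat_neg _ hi] at h1

private theorem stp_ext_vecMul (hℓ : ∀ x : A, (ℓ : ℤ) • x = 0 → x = 0)
    (h : E * gmat A ℓ s = gmat A ℓ s * E') (w : {i // s i} → A) (i : {i // s i}) :
    (stp_ext s w ᵥ* E') i.1 =
      (w ᵥ* E.submatrix (fun i : {i // s i} => i.1) (fun i : {i // s i} => i.1)) i := by
  rw [stp_vecMul_apply, stp_vecMul_apply,
    ← Fintype.sum_subtype_add_sum_subtype s (fun j => stp_ext s w j * E' j i.1)]
  have h2 : ∑ j : {j // ¬ s j}, stp_ext s w j.1 * E' j.1 i.1 = 0 :=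
    Finset.sum_eq_zero fun j _ => by rw [stp_ext_neg w j.2, zero_mul]
  rw [h2, add_zero]
  refine Finset.sum_congr rfl fun j _ => ?_
  rw [stp_ext_pos, stp_a hℓ h j.2 i.2]
  rfl

private theorem stp_fix (hℓ : ∀ x : A, (ℓ : ℤ) • x = 0 → x = 0)
    (h : E * gmat A ℓ s = gmat A ℓ s * E') {v : ι → A} (hv : v ᵥ* E' = v) (i : {i // s i}) :
    v i.1 = (stp_res s v ᵥ* E.submatrix (fun i : {i // s i} => i.1)
      (fun i : {i // s i} => i.1)) i + (ℓ : ℤ) • ∑ j : {j // ¬ s j}, v j.1 * E j.1 i.1 := by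
  have h1 := congrFun hv i.1
  rw [stp_vecMul_apply, ← Fintype.sum_subtype_add_sum_subtype s (fun j => v j * E' j i.1)] at h1
  rw [← h1]
  congr 1
  · rw [stp_vecMul_apply]
    refine Finset.sum_congr rfl fun j _ => ?_
    rw [stp_a hℓ h j.2 i.2]
    rfl
  · rw [Finset.smul_sum]
    refine Finset.sum_congr rfl fun j _ => ?_
    rw [stp_b h j.2 i.2, mul_smul_comm]

end aux

theorem step_equiv (ℓ : ℕ) (hℓ : ∀ x : A, (ℓ : ℤ) • x = 0 → x = 0) (s : ι → Prop)
    [DecidablePred s] (E E' : Matrix ι ι A) (hE : E * E = E) (hE' : E' * E' = E')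
    (h : E * gmat A ℓ s = gmat A ℓ s * E') :
    Nonempty ((fixM E × ({i // s i} → A)) ≃ₗ[A]
      (fixM E' × kerE ℓ (E.submatrix (fun i : {i // s i} => i.1) (fun i : {i // s i} => i.1)))) := by
  classical
  set ED := E.submatrix (fun i : {i // s i} => i.1) (fun i : {i // s i} => i.1) with hED
  have hv : ∀ x : fixM E × ({i // s i} → A),
      (x.1.1 ᵥ* gmat A ℓ s + stp_ext s x.2 ᵥ* E') ᵥ* E' =
        x.1.1 ᵥ* gmat A ℓ s + stp_ext s x.2 ᵥ* E' := by
    intro x
    rw [add_vecMul, vecMul_vecMul, vecMul_vecMul, hE', ← h, ← vecMul_vecMul,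
      show x.1.1 ᵥ* E = x.1.1 from x.1.2]
  let F0 : (fixM E × ({i // s i} → A)) →ₗ[A] (ι → A) :=
    { toFun := fun x => x.1.1 ᵥ* gmat A ℓ s + stp_ext s x.2 ᵥ* E'
      map_add' := by
        intro x y
        show (x.1.1 + y.1.1) ᵥ* gmat A ℓ s + stp_ext s (x.2 + y.2) ᵥ* E' = _
        rw [map_add, add_vecMul, add_vecMul]
        abel
      map_smul' := by
        intro c x
        show (c • x.1.1) ᵥ* gmat A ℓ s + stp_ext s (c • x.2) ᵥ* E' = _
        rw [map_smul, smul_vecMul, smul_vecMul, RingHom.id_apply, smul_add] }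
  have F0_apply : ∀ x, F0 x = x.1.1 ᵥ* gmat A ℓ s + stp_ext s x.2 ᵥ* E' := fun x => rfl
  have hres : ∀ x : fixM E × ({i // s i} → A), ∀ i : {i // s i},
      F0 x i.1 = (ℓ : ℤ) • x.1.1 i.1 + (x.2 ᵥ* ED) i := by
    intro x i
    rw [F0_apply, Pi.add_apply, stp_gmat_pos _ i.2, stp_ext_vecMul hℓ h]
  let f1 : (fixM E × ({i // s i} → A)) →ₗ[A] fixM E' :=
    F0.codRestrict (fixM E') fun x => hv x
  have hK : ∀ x : fixM E × ({i // s i} → A), x.2 - stp_res s (F0 x) ∈ kerE ℓ ED := by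
    intro x
    refine ⟨fun i => (∑ j : {j // ¬ s j}, F0 x j.1 * E j.1 i.1) - x.1.1 i.1, ?_⟩
    funext i
    rw [sub_vecMul, Pi.sub_apply, Pi.smul_apply, smul_sub]
    have h1 := stp_fix hℓ h (hv x) i
    have h2 := hres x i
    rw [F0_apply] at h2
    rw [← hED] at h1
    rw [h2] at h1
    rw [F0_apply]
    have h3 : (stp_res s (x.1.1 ᵥ* gmat A ℓ s + stp_ext s x.2 ᵥ* E') ᵥ* ED) i =
        (ℓ : ℤ) • x.1.1 i.1 + (x.2 ᵥ* ED) i -
        (ℓ : ℤ) • ∑ j : {j // ¬ s j}, (x.1.1 ᵥ* gmat A ℓ s + stp_ext s x.2 ᵥ* E') j.1 *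
          E j.1 i.1 := by
      rw [h1, add_sub_cancel_right]
    rw [h3]
    abel
  let f2 : (fixM E × ({i // s i} → A)) →ₗ[A] kerE ℓ ED :=
    (LinearMap.snd A (fixM E) ({i // s i} → A) - (stp_res s).comp F0).codRestrict (kerE ℓ ED)
      fun x => hK x
  have e1 : ∀ x, ((f1 x : fixM E') : ι → A) = F0 x := fun x => rfl
  have e2 : ∀ x, ((f2 x : kerE ℓ ED) : {i // s i} → A) = x.2 - stp_res s (F0 x) := fun x => rfl
  refine ⟨LinearEquiv.ofBijective (f1.prod f2) ⟨?_, ?_⟩⟩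
  · rw [← LinearMap.ker_eq_bot, LinearMap.ker_eq_bot']
    intro x hx
    have hx1 : F0 x = 0 := by
      have := congrArg (fun y : fixM E' × kerE ℓ ED => (y.1 : ι → A)) hx
      exact this
    have hx2 : x.2 - stp_res s (F0 x) = 0 := by
      have := congrArg (fun y : fixM E' × kerE ℓ ED => (y.2 : {i // s i} → A)) hx
      exact this
    rw [hx1, map_zero, sub_zero] at hx2
    have hx3 : x.1.1 = 0 := by
      refine stp_gmat_inj (s := s) hℓ ?_
      have := F0_apply x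
      rw [hx1, hx2, map_zero, zero_vecMul, add_zero] at this
      rw [← this, zero_vecMul]
    exact Prod.ext (Subtype.ext hx3) hx2
  · rintro ⟨⟨v, hvf⟩, ⟨k, hk⟩⟩
    have hvf' : v ᵥ* E' = v := hvf
    obtain ⟨z, hz⟩ := hk
    set w : {i // s i} → A := k + stp_res s v with hw
    set X : ι → A := v - stp_ext s w ᵥ* E' with hX
    have hdiv : ∀ i : {i // s i}, X i.1 =
        (ℓ : ℤ) • ((∑ j : {j // ¬ s j}, v j.1 * E j.1 i.1) - z i) := by
      intro i
      have h1 := stp_fix hℓ h hvf' i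
      rw [← hED] at h1
      have h2 := congrFun hz i
      rw [Pi.smul_apply] at h2
      rw [hX, Pi.sub_apply, stp_ext_vecMul hℓ h, ← hED, hw, add_vecMul, Pi.add_apply, h2,
        smul_sub]
      nth_rewrite 1 [h1]
      abel
    have hXE : X ᵥ* E' = X := by
      rw [hX, sub_vecMul, vecMul_vecMul, hE', hvf']
    set p : ι → A := fun i => if hi : s i then (∑ j : {j // ¬ s j}, v j.1 * E j.1 i) - z ⟨i, hi⟩
      else X i with hp
    have hpg : p ᵥ* gmat A ℓ s = X := by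
      funext i
      by_cases hi : s i
      · rw [stp_gmat_pos _ hi, hdiv ⟨i, hi⟩]
        congr 1
        show (if hi : s i then (∑ j : {j // ¬ s j}, v j.1 * E j.1 i) - z ⟨i, hi⟩ else X i) = _
        rw [dif_pos hi]
      · rw [stp_gmat_neg _ hi]
        show (if hi : s i then (∑ j : {j // ¬ s j}, v j.1 * E j.1 i) - z ⟨i, hi⟩ else X i) = _
        rw [dif_neg hi]
    have hpE : p ᵥ* E = p := by
      refine stp_gmat_inj (s := s) hℓ ?_
      rw [vecMul_vecMul, h, ← vecMul_vecMul, hpg, hXE]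
    refine ⟨(⟨p, hpE⟩, w), ?_⟩
    have hF : F0 (⟨p, hpE⟩, w) = v := by
      rw [F0_apply]
      show p ᵥ* gmat A ℓ s + stp_ext s w ᵥ* E' = v
      rw [hpg, hX, sub_add_cancel]
    refine Prod.ext (Subtype.ext hF) (Subtype.ext ?_)
    show ((f2 (⟨p, hpE⟩, w) : kerE ℓ ED) : {i // s i} → A) = k
    rw [e2, hF]
    show w - stp_res s v = k
    rw [hw, add_sub_cancel_right]

theorem step_cong (ℓ : ℕ) (s : ι → Prop)
    [DecidablePred s] (E E' : Matrix ι ι A) (hE : E * E = E)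
    (h : E * gmat A ℓ s = gmat A ℓ s * E') :
    MCong ℓ (E.submatrix (fun i : {i // s i} => i.1) (fun i : {i // s i} => i.1) *
        E.submatrix (fun i : {i // s i} => i.1) (fun i : {i // s i} => i.1))
      (E.submatrix (fun i : {i // s i} => i.1) (fun i : {i // s i} => i.1)) := by
  refine ⟨fun i j => -∑ k : {k // ¬ s k}, E' i.1 k.1 * E k.1 j.1, ?_⟩
  funext i j
  show (E.submatrix (fun i : {i // s i} => i.1) (fun i : {i // s i} => i.1) *
        E.submatrix (fun i : {i // s i} => i.1) (fun i : {i // s i} => i.1)) i j - E i.1 j.1 =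
    (ℓ : ℤ) • -∑ k : {k // ¬ s k}, E' i.1 k.1 * E k.1 j.1
  have h1 := congrFun (congrFun hE i.1) j.1
  rw [mul_apply, ← Fintype.sum_subtype_add_sum_subtype s (fun k => E i.1 k * E k j.1)] at h1
  rw [mul_apply, ← h1, smul_neg, Finset.smul_sum]
  have h2 : ∑ k : {k // ¬ s k}, E i.1 k.1 * E k.1 j.1 =
      ∑ k : {k // ¬ s k}, (ℓ : ℤ) • (E' i.1 k.1 * E k.1 j.1) := by
    refine Finset.sum_congr rfl fun k _ => ?_
    rw [stp_c h i.2 k.2, smul_mul_assoc]
  rw [← h2]
  show ∑ k : {k // s k}, E i.1 k.1 * E k.1 j.1 - _ = _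
  abel

end Pool.Agent.H95.KF

end

section

/-!
# Project KF, module Win: `K₀(D) → K₀(D[t, t⁻¹])` is onto for a semisimple ring `D`

## Paper proof

This is the proof of `ded_main` in `Pool/Agent/H95/KM/Ded.lean` (sorry-free, commutative Dedekind domains, column
vectors); adapt it (copy that file and change it) to row vectors over the noncommutative ring `D`.
Changes:
* use row vectors (`v ᵥ* E`), left modules, `LinearMap.toMatrixRight'` / `Matrix.toLinearMapRight'` instead of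
  `toMatrix'`; all products of matrices are in the opposite order; `t = T 1` is central in `D[t, t⁻¹]`
  (`LaurentPolynomial.commute_T`), and it is convenient to write `u (n, i) * t ^ n` (right factor) in `dedB`, `dedA`,
  `dedC`, since these maps are then obviously left linear.
* `ded_exists_idem` is replaced by: `D` semisimple, `ι` finite, `L : (ι → D) →ₗ[D] W` linear, then there is
  `f : Matrix ι ι D` with `f * f = f` and `∀ v, v ᵥ* f = v ↔ L v = 0`: the submodule `ker L` of `ι → D` has a complement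
  (`IsSemisimpleModule D (ι → D)`, `ComplementedLattice`, `Submodule.exists_isCompl`), take the projection onto `ker L`
  along the complement (`Submodule.projection`/`Submodule.linearProjOfIsCompl` composed with the inclusion) and its
  matrix.
* `I₀ = Fin N × K`, `I₁ = Fin M × K`.
The idea: `P = {v : K → D[t,t⁻¹] | v E = v}`, for a window `I` of exponents `P_I = {v ∈ P | exponents in I}`;
`0 → D[t,t⁻¹] ⊗ P_{I'} → D[t,t⁻¹] ⊗ P_I → P → 0` is split exact for `I = [-d, d]`, `I' = [-d, d - 1]`.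
-/

set_option autoImplicit false

open Matrix
open scoped LaurentPolynomial

universe u v w

namespace Pool.Agent.H95.KF

section WinWindow

variable {Λ : Type u} [Ring Λ] {K : Type v}

/-- extension by zero of a function on `Fin M × K` -/
def winExt {M : ℕ} (w : Fin M × K → Λ) (i : K) (n : ℕ) : Λ :=
  if h : n < M then w (⟨n, h⟩, i) else 0

theorem winExt_of_le {M : ℕ} (w : Fin M × K → Λ) (i : K) {n : ℕ} (h : M ≤ n) :
    winExt w i n = 0 := dif_neg (by omega)

theorem winExt_fin {M : ℕ} (w : Fin M × K → Λ) (i : K) (n : Fin M) :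
    winExt w i n = w (n, i) := dif_pos n.2

private theorem winExt_add {M : ℕ} (w w' : Fin M × K → Λ) (i : K) (n : ℕ) :
    winExt (w + w') i n = winExt w i n + winExt w' i n := by
  unfold winExt
  split_ifs
  · rfl
  · rw [add_zero]

private theorem winExt_smul {M : ℕ} (c : Λ) (w : Fin M × K → Λ) (i : K) (n : ℕ) :
    winExt (c • w) i n = c * winExt w i n := by
  unfold winExt
  split_ifs
  · rfl
  · rw [mul_zero]

/-- `v ↦ ∑ vₙ tⁿ` -/
def winB (N : ℕ) (t : Λ) : (Fin N × K → Λ) →ₗ[Λ] (K → Λ) where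
  toFun u i := ∑ n : Fin N, u (n, i) * t ^ (n : ℕ)
  map_add' u u' := by
    funext i
    simp only [Pi.add_apply, add_mul, Finset.sum_add_distrib]
  map_smul' c u := by
    funext i
    simp only [Pi.smul_apply, smul_eq_mul, RingHom.id_apply, Finset.mul_sum, mul_assoc]

theorem winB_apply (N : ℕ) (t : Λ) (u : Fin N × K → Λ) (i : K) :
    winB N t u i = ∑ n : Fin N, u (n, i) * t ^ (n : ℕ) := rfl

/-- multiplication by `t - s` -/
def winA (M : ℕ) (t : Λ) : (Fin M × K → Λ) →ₗ[Λ] (Fin (M + 1) × K → Λ) where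
  toFun w p := winExt w p.2 p.1 * t - if (p.1 : ℕ) = 0 then 0 else winExt w p.2 (p.1 - 1)
  map_add' w w' := by
    funext p
    simp only [Pi.add_apply, winExt_add, add_mul]
    split_ifs <;> abel
  map_smul' c w := by
    funext p
    simp only [Pi.smul_apply, winExt_smul, smul_eq_mul, RingHom.id_apply, mul_sub, mul_assoc]
    split_ifs
    · rw [mul_zero]
    · rfl

theorem winA_apply (M : ℕ) (t : Λ) (w : Fin M × K → Λ) (p : Fin (M + 1) × K) :
    winA M t w p = winExt w p.2 p.1 * t -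
      if (p.1 : ℕ) = 0 then 0 else winExt w p.2 (p.1 - 1) := rfl

/-- division by `t - s` -/
def winC (M : ℕ) (t : Λ) : (Fin (M + 1) × K → Λ) →ₗ[Λ] (Fin M × K → Λ) where
  toFun u p := -∑ l : Fin (M + 1), if (p.1 : ℕ) < l then u (l, p.2) * t ^ ((l : ℕ) - 1 - p.1) else 0
  map_add' u u' := by
    funext p
    simp only [Pi.add_apply]
    rw [← neg_add, ← Finset.sum_add_distrib]
    congr 1
    exact Finset.sum_congr rfl fun l _ => by
      split_ifs
      · rw [add_mul]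
      · rw [add_zero]
  map_smul' c u := by
    funext p
    simp only [Pi.smul_apply, smul_eq_mul, RingHom.id_apply]
    rw [mul_neg, Finset.mul_sum]
    congr 1
    exact Finset.sum_congr rfl fun l _ => by
      split_ifs
      · rw [mul_assoc]
      · rw [mul_zero]

private theorem winC_ext (M : ℕ) (t : Λ) (u : Fin (M + 1) × K → Λ) (i : K) (m : ℕ) :
    winExt (winC M t u) i m =
      -∑ l : Fin (M + 1), if m < l then u (l, i) * t ^ ((l : ℕ) - 1 - m) else 0 := by
  unfold winExt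
  split_ifs with h
  · rfl
  · rw [eq_comm, neg_eq_zero]
    apply Finset.sum_eq_zero
    intro l _
    rw [if_neg (by omega)]

theorem win_AC (M : ℕ) (t : Λ) (u : Fin (M + 1) × K → Λ) (p : Fin (M + 1) × K) :
    winA M t (winC M t u) p = u p - if (p.1 : ℕ) = 0 then winB (M + 1) t u p.2 else 0 := by
  obtain ⟨n, i⟩ := p
  rw [winA_apply, winB_apply]
  simp only
  rw [winC_ext, winC_ext]
  by_cases hn : (n : ℕ) = 0
  · rw [if_pos hn, if_pos hn, sub_zero, neg_mul, Finset.sum_mul, eq_sub_iff_add_eq, neg_add_eq_sub,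
      ← Finset.sum_sub_distrib]
    rw [Finset.sum_eq_single n]
    · rw [hn]
      simp
    · intro l _ hl
      have hl' : (n : ℕ) < l := by
        have : (l : ℕ) ≠ n := fun h => hl (Fin.ext h)
        omega
      rw [if_pos hl', sub_eq_zero]
      rw [mul_assoc, ← pow_succ]
      congr 2
      omega
    · intro h
      exact absurd (Finset.mem_univ _) h
  · rw [if_neg hn, if_neg hn, sub_zero, neg_mul, Finset.sum_mul, sub_neg_eq_add, neg_add_eq_sub,
      ← Finset.sum_sub_distrib]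
    rw [Finset.sum_eq_single n]
    · rw [if_neg (lt_irrefl _), if_pos (by omega)]
      simp
    · intro l _ hl
      have hl' : (l : ℕ) ≠ n := fun h => hl (Fin.ext h)
      by_cases h1 : (n : ℕ) < l
      · rw [if_pos h1, if_pos (by omega), sub_eq_zero, mul_assoc, ← pow_succ]
        congr 2
        omega
      · rw [if_neg h1, if_neg (by omega), zero_mul, sub_zero]
    · intro h
      exact absurd (Finset.mem_univ _) h

theorem win_sum (M : ℕ) (t : Λ) (x y : ℕ → Λ) (hx : x M = 0) :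
    ∑ n : Fin (M + 1), (x n - if (n : ℕ) = 0 then 0 else y (n - 1)) * t ^ (n : ℕ) =
      ∑ n : Fin M, x n * t ^ (n : ℕ) - (∑ n : Fin M, y n * t ^ (n : ℕ)) * t := by
  simp only [sub_mul, Finset.sum_sub_distrib]
  rw [Fin.sum_univ_castSucc, Fin.sum_univ_succ (fun n : Fin (M + 1) =>
    (if (n : ℕ) = 0 then 0 else y (n - 1)) * t ^ (n : ℕ))]
  simp [hx, pow_succ, Finset.sum_mul, mul_assoc]

theorem win_BA (M : ℕ) (t : Λ) (w : Fin M × K → Λ) : winB (M + 1) t (winA M t w) = 0 := by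
  funext i
  rw [winB_apply]
  simp only [winA_apply]
  rw [win_sum M t (fun n => winExt w i n * t) (fun n => winExt w i n)
    (by rw [winExt_of_le w i le_rfl, zero_mul]), Finset.sum_mul, Pi.zero_apply, sub_eq_zero]
  exact Finset.sum_congr rfl fun n _ => by
    rw [mul_assoc, mul_assoc, ← pow_succ', ← pow_succ]

private theorem win_A_inj (M : ℕ) (t : Λ) (w : Fin M × K → Λ) (h : winA M t w = 0) : w = 0 := by
  have h1 : ∀ i, ∀ j n : ℕ, M ≤ n + j → winExt w i n = 0 := by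
    intro i j
    induction j with
    | zero =>
      intro n hn
      exact winExt_of_le w i (by omega)
    | succ j ih =>
      intro n hn
      by_cases hn' : M ≤ n
      · exact winExt_of_le w i hn'
      · have := congrFun h (⟨n + 1, by omega⟩, i)
        rw [winA_apply] at this
        simp only [Nat.add_eq_zero_iff, one_ne_zero, and_false, if_false, Nat.add_sub_cancel,
          Pi.zero_apply] at this
        rw [ih (n + 1) (by omega), zero_mul, zero_sub, neg_eq_zero] at this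
        exact this
  funext p
  rw [← winExt_fin w p.2 p.1]
  exact h1 p.2 M p.1 (by omega)

theorem win_CA (M : ℕ) (t : Λ) (w : Fin M × K → Λ) : winC M t (winA M t w) = w := by
  rw [← sub_eq_zero]
  apply win_A_inj M t
  rw [map_sub, sub_eq_zero]
  funext p
  rw [win_AC, win_BA]
  simp

end WinWindow

section WinLau

variable {D : Type u} [Ring D] {K : Type v} [Fintype K]

theorem win_coeff_mul_T (m : ℤ) (x : D[T;T⁻¹]) (j : ℤ) :
    (x * (LaurentPolynomial.T m : D[T;T⁻¹])).coeff j = x.coeff (j - m) := by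
  rw [← LaurentPolynomial.T_mul]
  unfold LaurentPolynomial.T
  rw [AddMonoidAlgebra.coeff_single_mul_eq_mul_coeff (j - m) (fun a _ => by omega), one_mul]

/-- coefficient vector -/
def winCf {ι : Type w} (j : ℤ) (u : ι → D[T;T⁻¹]) : ι → D := fun p => (u p).coeff j

/-- some bound for the degrees -/
theorem win_bound {ι : Type w} [Finite ι] (u : ι → D[T;T⁻¹]) :
    ∃ d : ℕ, ∀ p, ∀ j : ℤ, (d : ℤ) < |j| → (u p).coeff j = 0 := by
  have h : ∀ p, ∃ d : ℕ, ∀ j : ℤ, (d : ℤ) < |j| → (u p).coeff j = 0 := by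
    intro p
    refine ⟨∑ j ∈ (u p).coeff.support, j.natAbs, fun j hj => ?_⟩
    by_contra hne
    have h1 : j.natAbs ≤ ∑ j ∈ (u p).coeff.support, j.natAbs :=
      Finset.single_le_sum (f := fun j : ℤ => j.natAbs) (fun _ _ => Nat.zero_le _)
        (Finsupp.mem_support_iff.2 hne)
    rw [Int.abs_eq_natAbs] at hj
    omega
  choose d hd using h
  cases nonempty_fintype ι
  refine ⟨∑ p, d p, fun p j hj => hd p j ?_⟩
  have h1 : d p ≤ ∑ p, d p := Finset.single_le_sum (fun _ _ => Nat.zero_le _) (Finset.mem_univ p)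
  omega

end WinLau

/-- The kernel of a linear map from a finite free module over a semisimple ring is the image of
an idempotent matrix. -/
theorem win_exists_idem (D : Type u) [Ring D] [IsSemisimpleRing D] {ι : Type v}
    [Fintype ι] [DecidableEq ι] {W : Type w} [AddCommGroup W] [Module D W]
    (L : (ι → D) →ₗ[D] W) :
    ∃ f : Matrix ι ι D, f * f = f ∧ ∀ v, v ᵥ* f = v ↔ L v = 0 := by
  obtain ⟨q, hq⟩ := exists_isCompl (LinearMap.ker L)
  set g : (ι → D) →ₗ[D] (ι → D) := (LinearMap.ker L).subtype ∘ₗ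
    (Submodule.projectionOnto (LinearMap.ker L) q hq) with hg
  have h1 : ∀ v, L (g v) = 0 := fun v =>
    (Submodule.projectionOnto (LinearMap.ker L) q hq v).2
  have h3 : ∀ v, L v = 0 → g v = v := by
    intro v hv
    have h4 := Submodule.projectionOnto_apply_left hq ⟨v, hv⟩
    exact congrArg Subtype.val h4
  have h5 : ∀ v, v ᵥ* LinearMap.toMatrixRight' g = g v := by
    intro v
    rw [← Matrix.toLinearMapRight'_apply]
    exact LinearMap.congr_fun (LinearEquiv.symm_apply_apply LinearMap.toMatrixRight' g) v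
  refine ⟨LinearMap.toMatrixRight' g, ?_, ?_⟩
  · apply Matrix.ext_of_single_vecMul
    intro i
    rw [← vecMul_vecMul, h5, h5]
    exact h3 _ (h1 _)
  · intro v
    rw [h5]
    constructor
    · intro h
      rw [← h]
      exact h1 v
    · exact h3 v

section WinMain

end WinMain

end Pool.Agent.H95.KF

end

section

/-!
# Project KM: finite commutative rings and their maximal ideals
-/

set_option autoImplicit false

universe u v w

namespace Pool.Agent.H95.KM

open Pool.Agent.H71.FJ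

variable (A : Type u) [CommRing A]

/-- The product of the residue maps. -/
def resPi : A →+* ∀ m : MaximalSpectrum A, A ⧸ m.asIdeal :=
  RingHom.pi fun m => Ideal.Quotient.mk m.asIdeal

variable [Finite A]

theorem resPi_surjective : Function.Surjective (resPi A) := by
  classical
  have h : Pairwise fun m m' : MaximalSpectrum A => IsCoprime m.asIdeal m'.asIdeal := by
    intro m m' hmm'
    rw [Ideal.isCoprime_iff_sup_eq]
    exact Ideal.IsMaximal.coprime_of_ne m.isMaximal m'.isMaximal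
      (fun h => hmm' (MaximalSpectrum.ext h))
  have := Ideal.quotientInfToPiQuotient_surj (I := fun m : MaximalSpectrum A => m.asIdeal) h
  intro y
  obtain ⟨x, hx⟩ := this y
  obtain ⟨a, rfl⟩ := Ideal.Quotient.mk_surjective x
  exact ⟨a, hx⟩

omit [Finite A] in
theorem mem_jacobson_of_resPi {x : A} (hx : resPi A x = 0) : x ∈ (⊥ : Ideal A).jacobson := by
  rw [Ideal.jacobson, Ideal.mem_sInf]
  rintro J ⟨_, hJ⟩
  exact Ideal.Quotient.eq_zero_iff_mem.1 (congrFun hx ⟨J, hJ⟩)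

theorem resPi_nilKer : NilKer (resPi A) := by
  obtain ⟨k, hk⟩ := IsArtinianRing.isNilpotent_jacobson_bot (R := A)
  refine ⟨k, fun j => ((Ideal.jacobson (⊥ : Ideal A)) ^ j).toAddSubgroup, ?_, ?_, ?_⟩
  · intro x
    change x ∈ (Ideal.jacobson (⊥ : Ideal A)) ^ 0
    rw [pow_zero, Ideal.one_eq_top]
    trivial
  · intro x hx
    change x ∈ (Ideal.jacobson (⊥ : Ideal A)) ^ k at hx
    rw [hk] at hx
    simpa using hx
  · intro j x y hx hy
    change x * y ∈ (Ideal.jacobson (⊥ : Ideal A)) ^ (j + 1)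
    rw [pow_succ']
    exact Ideal.mul_mem_mul (mem_jacobson_of_resPi A hx) hy

theorem exists_orth [Fintype (MaximalSpectrum A)] : ∃ κ : MaximalSpectrum A → A,
    CompleteOrthogonalIdempotents κ ∧ ∀ m, κ m ∉ m.asIdeal := by
  classical
  obtain ⟨κ, h1, h2⟩ := CompleteOrthogonalIdempotents.lift_of_isNilpotent_ker (resPi A)
    (fun x hx => (resPi_nilKer A).isNilpotent (RingHom.mem_ker.1 hx))
    (e := fun m => Pi.single m 1)
    (CompleteOrthogonalIdempotents.single (fun m : MaximalSpectrum A => A ⧸ m.asIdeal))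
    (fun m => resPi_surjective A _)
  refine ⟨κ, h1, fun m hm => ?_⟩
  have h3 := congrFun (congrFun h2 m) m
  have h4 : resPi A (κ m) m = 0 := Ideal.Quotient.eq_zero_iff_mem.2 hm
  rw [Function.comp_apply, h4, Pi.single_eq_same] at h3
  have := m.isMaximal
  exact zero_ne_one h3

omit [Finite A] in
theorem isUnit_of_forall_notMem (a : A) (h : ∀ m : MaximalSpectrum A, a ∉ m.asIdeal) :
    IsUnit a := by
  by_contra ha
  obtain ⟨M, hM, haM⟩ := exists_max_ideal_of_mem_nonunits ha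
  exact h ⟨M, hM⟩ haM

end Pool.Agent.H95.KM

end
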