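import Pool.Agent.H13.TFQ.H95.KM.SqProp_1
import Pool.Agent.H13.TFQ.M11
import Pool.Agent.H13.TFQ.M24
import Pool.Agent.H13.TFQ.M82

/-! The parts of this file: H95.KM.SqLau, H95.KM.ThetaDefs_1, H8.KZ.Gal, H16.KN.LinDN_1. -/

section

/-!
# Project KM, module SqLau: the connecting homomorphism `GL(B[t, t⁻¹]) → K₋₁(Γ)`

`Q.lauSq`, `Q.polySq` are in `Pool/Agent/H95/KM/SqDefs.lean`; `IsPos`, `IsNeg`, `posHom`, `negHom`,
`IsPos.exists_posHom`, ... in `Pool/Agent/H95/KM/Lau.lean`.

PROOF.  `Q.DD` is the composite of `Q.lauSq.dl` with `Km1.mk`; the axioms of `StabHom` are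
`dl_mul`, `dl_blk`, `dl_rei`.
`DD_pos`: the entries of `g` and `g⁻¹` come from `B[X]` under the injective `posHom`, so
`g = mapU (posHom B) g₀` with `g₀ ∈ GL_m(B[X])`.  `posHom` is a morphism of squares
`Q.polySq → Q.lauSq` (`lau_posHom`), so `dl_map` gives `Q.lauSq.dl g = K0.map (posHom Γ) (..)`, which
is killed by `Km1.mk` (`Km1.mk_pos`).  `DD_neg` is the same with `negHom`.
`DD_lift`: from `dl_lift` with `g = 1` and `dl_one`.  `DD_base`: from `dl_base` with `g = 1`.
`DD_map`: morphisms of squares `F : Q → Q'` induce morphisms `lauSq → lauSq`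
(components `lau F.a`, `lau F.b`, `lau F.c`); use `dl_map` and `Km1.map_mk`.
-/

set_option autoImplicit false

open Matrix
open scoped LaurentPolynomial

universe u v w u' v' w'

namespace Pool.Agent.H95.KM

open Pool.Agent.H71.FJ

namespace Sq

variable {Γ : Type u} {𝓜 : Type v} {B : Type w} [Ring Γ] [Ring 𝓜] [Ring B] (Q : Sq Γ 𝓜 B)

/-- The connecting homomorphism `GL(B[t, t⁻¹]) → K₋₁(Γ)`. -/
noncomputable def DD : StabHom B[T;T⁻¹] (Km1 Γ) where
  D g := Km1.mk (Q.lauSq.dl g)
  map_mul g h := by rw [dl_mul, map_add]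
  map_blk g h := by rw [dl_blk, map_add]
  map_rei σ g := by rw [dl_rei]

theorem DD_eq {m : Type} [Fintype m] [DecidableEq m] (g : (Matrix m m B[T;T⁻¹])ˣ) :
    Q.DD.D g = Km1.mk (Q.lauSq.dl g) := rfl

theorem exists_mapU {B₀ : Type u} [Ring B₀] {B₁ : Type v} [Ring B₁] (f : B₀ →+* B₁)
    (hf : Function.Injective f) {m : Type} [Fintype m] [DecidableEq m] (g : (Matrix m m B₁)ˣ)
    (h1 : ∀ i j, ∃ p, f p = (g : Matrix m m B₁) i j)
    (h2 : ∀ i j, ∃ p, f p = ((g⁻¹ : (Matrix m m B₁)ˣ) : Matrix m m B₁) i j) :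
    ∃ g₀ : (Matrix m m B₀)ˣ, mapU f g₀ = g := by
  obtain ⟨X, hX⟩ := exists_matrix_lift f (g : Matrix m m B₁) h1
  obtain ⟨Y, hY⟩ := exists_matrix_lift f ((g⁻¹ : (Matrix m m B₁)ˣ) : Matrix m m B₁) h2
  have hXY : X * Y = 1 := by
    apply matrix_map_injective hf
    rw [Matrix.map_mul, hX, hY, Units.mul_inv, Matrix.map_one _ (map_zero f) (map_one f)]
  have hYX : Y * X = 1 := by
    apply matrix_map_injective hf
    rw [Matrix.map_mul, hX, hY, Units.inv_mul, Matrix.map_one _ (map_zero f) (map_one f)]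
  exact ⟨⟨X, Y, hXY, hYX⟩, Units.ext hX⟩

/-- `posHom` as a morphism of squares -/
noncomputable def posSqHom : SqHom Q.polySq Q.lauSq where
  a := posHom Γ
  b := posHom 𝓜
  c := posHom B
  hφ x := (RingHom.congr_fun (lau_posHom Q.φ) x).symm
  hπ x := (RingHom.congr_fun (lau_posHom Q.π) x).symm

/-- `negHom` as a morphism of squares -/
noncomputable def negSqHom : SqHom Q.polySq Q.lauSq where
  a := negHom Γ
  b := negHom 𝓜
  c := negHom B
  hφ x := (RingHom.congr_fun (lau_negHom Q.φ) x).symm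
  hπ x := (RingHom.congr_fun (lau_negHom Q.π) x).symm

theorem DD_pos {m : Type} [Fintype m] [DecidableEq m] (g : (Matrix m m B[T;T⁻¹])ˣ)
    (h1 : ∀ i j, IsPos ((g : Matrix m m B[T;T⁻¹]) i j))
    (h2 : ∀ i j, IsPos (((g⁻¹ : (Matrix m m B[T;T⁻¹])ˣ) : Matrix m m B[T;T⁻¹]) i j)) :
    Q.DD.D g = 0 := by
  obtain ⟨g₀, rfl⟩ := exists_mapU (posHom B) posHom_injective g
    (fun i j => (h1 i j).exists_posHom) (fun i j => (h2 i j).exists_posHom)
  rw [DD_eq]
  have := dl_map Q.posSqHom g₀
  change Km1.mk (Q.lauSq.dl (mapU Q.posSqHom.c g₀)) = 0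
  rw [this]
  exact Km1.mk_pos _

theorem DD_neg {m : Type} [Fintype m] [DecidableEq m] (g : (Matrix m m B[T;T⁻¹])ˣ)
    (h1 : ∀ i j, IsNeg ((g : Matrix m m B[T;T⁻¹]) i j))
    (h2 : ∀ i j, IsNeg (((g⁻¹ : (Matrix m m B[T;T⁻¹])ˣ) : Matrix m m B[T;T⁻¹]) i j)) :
    Q.DD.D g = 0 := by
  obtain ⟨g₀, rfl⟩ := exists_mapU (negHom B) negHom_injective g
    (fun i j => (h1 i j).exists_negHom) (fun i j => (h2 i j).exists_negHom)
  rw [DD_eq]
  have := dl_map Q.negSqHom g₀
  change Km1.mk (Q.lauSq.dl (mapU Q.negSqHom.c g₀)) = 0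
  rw [this]
  exact Km1.mk_neg _

theorem DD_lift {m : Type} [Fintype m] [DecidableEq m] (U : (Matrix m m 𝓜[T;T⁻¹])ˣ)
    (g : (Matrix m m B[T;T⁻¹])ˣ)
    (hU : (g : Matrix m m B[T;T⁻¹]) = (U : Matrix m m 𝓜[T;T⁻¹]).map (lau Q.π)) :
    Q.DD.D g = 0 := by
  rw [DD_eq, Q.lauSq.dl_lift U 1 g (by rw [Units.val_one, Matrix.mul_one]; exact hU), dl_one,
    map_zero]

theorem DD_base {m : Type} [Fintype m] [DecidableEq m] (V V' : Matrix m m Γ[T;T⁻¹])
    (g : (Matrix m m B[T;T⁻¹])ˣ)
    (h1 : (g : Matrix m m B[T;T⁻¹]) = V.map ((lau Q.π).comp (lau Q.φ)))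
    (h2 : ((g⁻¹ : (Matrix m m B[T;T⁻¹])ˣ) : Matrix m m B[T;T⁻¹]) =
      V'.map ((lau Q.π).comp (lau Q.φ))) :
    Q.DD.D g = 0 := by
  rw [DD_eq, Q.lauSq.dl_base V V' 1 g
    (by
      change V.map ((lau Q.π).comp (lau Q.φ)) * V'.map ((lau Q.π).comp (lau Q.φ)) = 1
      rw [← h1, ← h2, Units.mul_inv])
    (by
      change V'.map ((lau Q.π).comp (lau Q.φ)) * V.map ((lau Q.π).comp (lau Q.φ)) = 1
      rw [← h1, ← h2, Units.inv_mul])
    (by rw [Units.val_one, Matrix.one_mul]; exact h1), dl_one, map_zero]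

variable {Q}
variable {Γ' : Type u'} {𝓜' : Type v'} {B' : Type w'} [Ring Γ'] [Ring 𝓜'] [Ring B']
  {Q' : Sq Γ' 𝓜' B'}

/-- Laurent polynomials over a morphism of squares -/
noncomputable def lauSqHom (F : SqHom Q Q') : SqHom Q.lauSq Q'.lauSq where
  a := lau F.a
  b := lau F.b
  c := lau F.c
  hφ x := by
    have h : (lau F.b).comp (lau Q.φ) = (lau Q'.φ).comp (lau F.a) := by
      rw [← lau_comp, ← lau_comp]
      congr 1
      exact RingHom.ext F.hφ
    exact RingHom.congr_fun h x
  hπ x := by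
    have h : (lau F.c).comp (lau Q.π) = (lau Q'.π).comp (lau F.b) := by
      rw [← lau_comp, ← lau_comp]
      congr 1
      exact RingHom.ext F.hπ
    exact RingHom.congr_fun h x

theorem DD_map (F : SqHom Q Q') {m : Type} [Fintype m] [DecidableEq m]
    (g : (Matrix m m B[T;T⁻¹])ˣ) :
    Q'.DD.D (mapU (lau F.c) g) = Km1.map F.a (Q.DD.D g) := by
  rw [DD_eq, DD_eq, Km1.map_mk]
  exact congrArg Km1.mk (dl_map (lauSqHom F) g)

end Sq

end Pool.Agent.H95.KM

end

section

/-!
# Project KM: the classes `Θ(n) ∈ K₋₁(O[C])`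

`Amod O N = O / N`, `Pr O N` is the set of its maximal ideals, `kappa O N m` (`m ∈ Pr O N`) a complete
family of orthogonal idempotents of `O / N` with `kappa m ∉ m`.

`sqC f N C : Sq R[C] ((C →* Oˣ) → R) ((C →* Oˣ) → R / N)` is the square of the Fourier transform
(`|C|` divides `N`).  For `n : (C →* Oˣ) → Pr O N → ℤ` the unit `un n` of
`((C →* Oˣ) → O / N)[t, t⁻¹]` has the components `∑_m t^(n χ m) kappa m` and
`Θ(n) = DD (un n) ∈ K₋₁(O[C])`.
-/

set_option autoImplicit false

open Matrix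
open scoped LaurentPolynomial

universe u v w

namespace Pool.Agent.H95.KM

open Pool.Agent.H71.FJ

section kappa

end kappa

section un

end un

section sq

variable {O : Type} [CommRing O] [IsDomain O] {R : Type} [CommRing R] [IsDomain R] [CharZero R]
  (f : O →+* R) (N : ℕ) [NeZero N] [HasEnoughRootsOfUnity O N]
  (C : Type v) [Group C] [Finite C] (hC : ∀ a b : C, a * b = b * a) (hN : Nat.card C ∣ N)

/-- The class `Θ(n) ∈ K₋₁(O[C])`. -/
noncomputable def Theta [CharZero O] [Finite (Amod O N)] (n : (C →* Oˣ) → Pr O N → ℤ) :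
    Km1 (MonoidAlgebra O C) :=
  haveI := finite_dual (O := O) N hC hN
  (sqC (RingHom.id O) N C hC hN).DD.D (uN n)

end sq

end Pool.Agent.H95.KM

end

section

/-!
# KZ, module Gal: the action of the automorphisms of `O` on the classes `Θ(n)`

`Pool/Agent/H95/KM/ThetaDefs.lean` : `Amod O N = O / N`, `Pr O N` its maximal ideals, `kappa`,
`kappa_complete`, `kappa_notMem`, `kappa_mul`, `sum_kappa`, `unComp`, `un`, `cmp`, `cmp_un`, `cmp_ext`, `uN`,
`sqC`, `Theta`; `Sq.DD_map`, `SqHom` : `SqLau.lean`, `SqDefs.lean`; `fou` : `FouDefs.lean`.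

PROOFS.
* `map_kappa`: for a complete family of orthogonal idempotents `f_m` (`m : Pr O N`) of `O / N` with
  `f_m ∉ m` one has `f = kappa O N`: for `m ≠ m'` the element `f_m * kappa m'` is idempotent and lies in
  every maximal ideal (`f_m ∈ m''` for `m'' ≠ m` as `f_m f_m'' = 0` and `f_m'' ∉ m''`; likewise
  `kappa m' ∈ m` as `m ≠ m'`), so `1 - f_m kappa m'` is a unit and `f_m kappa m' = 0`.  Hence
  `f_m = f_m ∑ kappa m' = f_m kappa m = kappa m`.  Apply this to
  `f_m = aut (kappa (σ⁻¹ m))`.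
* `Theta_gal`: the morphism of squares with the components `a = mapRingHom C σ`,
  `b : F ↦ (χ ↦ σ (F (σ⁻¹ ∘ χ)))`, `c : F ↦ (χ ↦ amodE σ N (F (σ⁻¹ ∘ χ)))` (the Fourier transform is
  `fou x χ = ∑ x_c χ(c)`; `σ(fou x (σ⁻¹ ∘ χ)) = fou (σ x) χ`).  `mapU (lau c) (uN n) = uN (galN σ n)` by
  `cmp_ext`, `cmp_un`, `map_kappa`.  Model: `Theta_map`, `sqC_hom` in `Theta.lean`.
* `Theta_gal_ext`: `Km1.map_map`; `(mapRingHom C σ).comp (mapRingHom C (Int.castRingHom O)) =
  mapRingHom C (Int.castRingHom O)`.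
* `mem_permPr`, `permPr_symm`, `permPr_trans`: definitions.
-/

set_option autoImplicit false

open Matrix
open scoped LaurentPolynomial

universe u v w

namespace Pool.Agent.H8.KZ

open Pool.Agent.H95.KM

section perm

variable {O : Type} [CommRing O]

/-- The automorphism of `O / N` induced by an automorphism of `O`. -/
noncomputable def amodE (σ : O ≃+* O) (N : ℕ) : Amod O N ≃+* Amod O N :=
  Ideal.quotientEquiv (Ideal.span {(N : O)}) (Ideal.span {(N : O)}) σ (by
    rw [Ideal.map_span, Set.image_singleton]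
    congr 2
    exact (map_natCast σ N).symm)

theorem amodE_mk (σ : O ≃+* O) (N : ℕ) (x : O) :
    amodE σ N (Ideal.Quotient.mk (Ideal.span {(N : O)}) x) =
      Ideal.Quotient.mk (Ideal.span {(N : O)}) (σ x) := rfl

/-- The permutation of the maximal ideals of `O / N` given by an automorphism of `O`. -/
noncomputable def permPr (σ : O ≃+* O) (N : ℕ) : Pr O N ≃ Pr O N where
  toFun m := ⟨m.asIdeal.comap (amodE σ N).symm, by
    have := m.isMaximal
    exact Ideal.comap_isMaximal_of_equiv _⟩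
  invFun m := ⟨m.asIdeal.comap (amodE σ N), by
    have := m.isMaximal
    exact Ideal.comap_isMaximal_of_equiv _⟩
  left_inv m := by
    apply MaximalSpectrum.ext
    ext x
    change (amodE σ N).symm (amodE σ N x) ∈ m.asIdeal ↔ x ∈ m.asIdeal
    rw [RingEquiv.symm_apply_apply]
  right_inv m := by
    apply MaximalSpectrum.ext
    ext x
    change amodE σ N ((amodE σ N).symm x) ∈ m.asIdeal ↔ x ∈ m.asIdeal
    rw [RingEquiv.apply_symm_apply]

theorem mem_permPr (σ : O ≃+* O) (N : ℕ) (m : Pr O N) (x : Amod O N) :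
    amodE σ N x ∈ (permPr σ N m).asIdeal ↔ x ∈ m.asIdeal := by
  change (amodE σ N).symm (amodE σ N x) ∈ m.asIdeal ↔ x ∈ m.asIdeal
  rw [RingEquiv.symm_apply_apply]

theorem mem_permPr_mk (σ : O ≃+* O) (N : ℕ) (m : Pr O N) (x : O) :
    Ideal.Quotient.mk (Ideal.span {(N : O)}) (σ x) ∈ (permPr σ N m).asIdeal ↔
      Ideal.Quotient.mk (Ideal.span {(N : O)}) x ∈ m.asIdeal := by
  rw [← amodE_mk, mem_permPr]

theorem permPr_trans (σ τ : O ≃+* O) (N : ℕ) (m : Pr O N) :
    permPr (σ.trans τ) N m = permPr τ N (permPr σ N m) := by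
  apply MaximalSpectrum.ext
  ext x
  obtain ⟨a, rfl⟩ := Ideal.Quotient.mk_surjective x
  have h1 : a = τ (σ (σ.symm (τ.symm a))) := by
    rw [RingEquiv.apply_symm_apply, RingEquiv.apply_symm_apply]
  rw [h1, mem_permPr_mk, mem_permPr_mk]
  exact mem_permPr_mk (σ.trans τ) N m (σ.symm (τ.symm a))

end perm

section gal

variable {O : Type} [CommRing O] {N : ℕ} [Finite (Amod O N)]

private theorem gal_unique {f : Pr O N → Amod O N} (hf : CompleteOrthogonalIdempotents f)
    (h : ∀ m, f m ∉ m.asIdeal) (m : Pr O N) : f m = kappa O N m := by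
  classical
  have key : ∀ m m' : Pr O N, m ≠ m' → f m * kappa O N m' = 0 := by
    intro m m' hmm
    have hk := kappa_complete O N
    have hid : (f m * kappa O N m') * (f m * kappa O N m') = f m * kappa O N m' := by
      calc (f m * kappa O N m') * (f m * kappa O N m')
          = (f m * f m) * (kappa O N m' * kappa O N m') := by ring
        _ = f m * kappa O N m' := by rw [(hf.idem m).eq, (hk.idem m').eq]
    have hall : ∀ m'' : Pr O N, f m * kappa O N m' ∈ m''.asIdeal := by
      intro m''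
      have hp : m''.asIdeal.IsPrime := m''.isMaximal.isPrime
      by_cases h1 : m'' = m
      · subst h1
        have h2 : kappa O N m' * kappa O N m'' ∈ m''.asIdeal := by
          rw [hk.ortho (Ne.symm hmm)]
          exact m''.asIdeal.zero_mem
        exact m''.asIdeal.mul_mem_left _
          ((hp.mem_or_mem h2).resolve_right (kappa_notMem O N m''))
      · have h2 : f m * f m'' ∈ m''.asIdeal := by
          rw [hf.ortho (Ne.symm h1)]
          exact m''.asIdeal.zero_mem
        exact m''.asIdeal.mul_mem_right _ ((hp.mem_or_mem h2).resolve_right (h m''))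
    have hunit : IsUnit (1 - f m * kappa O N m') := by
      apply isUnit_of_forall_notMem
      intro m'' h1
      have h2 := m''.asIdeal.add_mem h1 (hall m'')
      rw [sub_add_cancel] at h2
      exact m''.isMaximal.ne_top ((Ideal.eq_top_iff_one _).2 h2)
    have h3 : (1 - f m * kappa O N m') * (f m * kappa O N m') = 0 := by
      rw [sub_mul, one_mul, hid, sub_self]
    exact (hunit.mul_right_eq_zero).1 h3
  have e1 : f m = f m * kappa O N m := by
    calc f m = f m * ∑ m', kappa O N m' := by rw [sum_kappa, mul_one]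
      _ = ∑ m', f m * kappa O N m' := Finset.mul_sum _ _ _
      _ = f m * kappa O N m := Finset.sum_eq_single m
          (fun m' _ hm' => key m m' (Ne.symm hm')) fun h1 => absurd (Finset.mem_univ _) h1
  have e2 : kappa O N m = f m * kappa O N m := by
    calc kappa O N m = (∑ m', f m') * kappa O N m := by rw [hf.complete, one_mul]
      _ = ∑ m', f m' * kappa O N m := Finset.sum_mul _ _ _
      _ = f m * kappa O N m := Finset.sum_eq_single m
          (fun m' _ hm' => key m' m hm') fun h1 => absurd (Finset.mem_univ _) h1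
  rw [e1, ← e2]

theorem map_kappa (σ : O ≃+* O) (m : Pr O N) :
    amodE σ N (kappa O N m) = kappa O N (permPr σ N m) := by
  have hk := kappa_complete O N
  have hf : CompleteOrthogonalIdempotents
      fun m : Pr O N => amodE σ N (kappa O N ((permPr σ N).symm m)) := by
    refine ⟨⟨fun m => ?_, fun m m' hmm => ?_⟩, ?_⟩
    · change amodE σ N _ * amodE σ N _ = _
      rw [← map_mul, (hk.idem _).eq]
    · change amodE σ N _ * amodE σ N _ = 0
      rw [← map_mul, hk.ortho fun h1 => hmm ((permPr σ N).symm.injective h1), map_zero]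
    · rw [← map_sum, Equiv.sum_comp (permPr σ N).symm (kappa O N), sum_kappa, map_one]
  have h1 := gal_unique hf (fun m => ?_) (permPr σ N m)
  · simp only [Equiv.symm_apply_apply] at h1
    exact h1
  · have h2 := mem_permPr σ N ((permPr σ N).symm m) (kappa O N ((permPr σ N).symm m))
    rw [Equiv.apply_symm_apply] at h2
    rw [h2]
    exact kappa_notMem O N _

/-- The action of an automorphism of `O` on the functions `n`. -/
noncomputable def galN {O : Type} [CommRing O] (N : ℕ) {C : Type v} [Group C] (σ : O ≃+* O)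
    (n : (C →* Oˣ) → Pr O N → ℤ) : (C →* Oˣ) → Pr O N → ℤ :=
  fun χ m => n ((Units.map (σ.symm : O →* O)).comp χ) ((permPr σ N).symm m)

variable [IsDomain O] [CharZero O] [NeZero N] [HasEnoughRootsOfUnity O N]

omit [IsDomain O] [CharZero O] in
private theorem gal_fou {C : Type v} [Group C] (σ : O ≃+* O) (x : MonoidAlgebra O C)
    (χ : C →* Oˣ) : σ (fou (RingHom.id O) C x ((Units.map (σ.symm : O →* O)).comp χ)) =
      fou (RingHom.id O) C (MonoidAlgebra.mapRingHom C (σ : O →+* O) x) χ := by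
  induction x using MonoidAlgebra.induction_linear with
  | zero => simp
  | add a b ha hb => rw [map_add, Pi.add_apply, map_add, ha, hb, map_add, map_add, Pi.add_apply]
  | single c r =>
    rw [MonoidAlgebra.mapRingHom_single, fou_single, fou_single, map_mul]
    congr 1
    exact σ.apply_symm_apply _

/-- The morphism of squares given by an automorphism. -/
private noncomputable def gal_hom (C : Type v) [Group C] [Finite C]
    (hC : ∀ a b : C, a * b = b * a) (hN : Nat.card C ∣ N) (σ : O ≃+* O) :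
    SqHom (sqC (RingHom.id O) N C hC hN) (sqC (RingHom.id O) N C hC hN) where
  a := MonoidAlgebra.mapRingHom C (σ : O →+* O)
  b := RingHom.pi fun χ => (σ : O →+* O).comp
    (Pi.evalRingHom (fun _ => O) ((Units.map (σ.symm : O →* O)).comp χ))
  c := RingHom.pi fun χ => (amodE σ N : Amod O N →+* Amod O N).comp
    (Pi.evalRingHom (fun _ => Amod O N) ((Units.map (σ.symm : O →* O)).comp χ))
  hφ x := by
    funext χ
    exact gal_fou σ x χ
  hπ x := rfl

theorem Theta_gal (C : Type v) [Group C] [Finite C] (hC : ∀ a b : C, a * b = b * a)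
    (hN : Nat.card C ∣ N) (σ : O ≃+* O) (n : (C →* Oˣ) → Pr O N → ℤ) :
    Km1.map (MonoidAlgebra.mapRingHom C (σ : O →+* O)) (Theta N C hC hN n) =
      Theta N C hC hN (galN N σ n) := by
  classical
  have := finite_dual (O := O) N hC hN
  have h1 := Sq.DD_map (gal_hom C hC hN σ) (uN n)
  have h2 : mapU (lau (gal_hom (O := O) (N := N) C hC hN σ).c) (uN n) = uN (galN N σ n) := by
    apply Units.ext
    ext i j : 1
    change lau (gal_hom (O := O) (N := N) C hC hN σ).c (un n) = un (galN N σ n)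
    apply cmp_ext
    intro χ
    have h3 : cmp χ (lau (gal_hom (O := O) (N := N) C hC hN σ).c (un n)) =
        lau (amodE σ N : Amod O N →+* Amod O N)
          (cmp ((Units.map (σ.symm : O →* O)).comp χ) (un n)) := by
      rw [Pool.Agent.H95.KM.cmp, Pool.Agent.H95.KM.cmp, ← RingHom.comp_apply,
        ← RingHom.comp_apply, ← lau_comp, ← lau_comp]
      rfl
    rw [h3, cmp_un, cmp_un, unComp, unComp, map_sum]
    simp only [lau_single]
    rw [← Equiv.sum_comp (permPr σ N) fun m =>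
      (AddMonoidAlgebra.single (galN N σ n χ m) (kappa O N m) : (Amod O N)[T;T⁻¹])]
    refine Finset.sum_congr rfl fun m _ => ?_
    change AddMonoidAlgebra.single _ (amodE σ N (kappa O N m)) = _
    rw [map_kappa]
    change _ = AddMonoidAlgebra.single
      (n ((Units.map (σ.symm : O →* O)).comp χ) ((permPr σ N).symm (permPr σ N m))) _
    rw [Equiv.symm_apply_apply]
  rw [h2] at h1
  exact h1.symm

theorem Theta_gal_ext (C : Type v) [Group C] [Finite C] (hC : ∀ a b : C, a * b = b * a)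
    (hN : Nat.card C ∣ N) (σ : O ≃+* O) (n : (C →* Oˣ) → Pr O N → ℤ) (x : Km1 (MonoidAlgebra ℤ C))
    (hx : Km1.map (MonoidAlgebra.mapRingHom C (Int.castRingHom O)) x = Theta N C hC hN n) :
    Km1.map (MonoidAlgebra.mapRingHom C (Int.castRingHom O)) x =
      Theta N C hC hN (galN N σ n) := by
  have h1 : MonoidAlgebra.mapRingHom C (Int.castRingHom O) =
      (MonoidAlgebra.mapRingHom C (σ : O →+* O)).comp
        (MonoidAlgebra.mapRingHom C (Int.castRingHom O)) := by
    apply RingHom.ext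
    intro z
    induction z using MonoidAlgebra.induction_linear with
    | zero => simp
    | add a b ha hb => rw [map_add, ha, hb, map_add]
    | single c r =>
      rw [RingHom.comp_apply, MonoidAlgebra.mapRingHom_single, MonoidAlgebra.mapRingHom_single]
      congr 1
      exact (map_intCast (σ : O →+* O) r).symm
  rw [← Theta_gal C hC hN σ n, ← hx, Km1.map_map]
  exact congrArg (fun f => Km1.map f x) h1

end gal

end Pool.Agent.H8.KZ

end

section

/-!
# Project KN, module LinDN: functionals on the symbols, definitions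

`FunN` : rational functionals on the symbols `[D, Θ(n), z]`, `z ∈ H_{k+1}(Z_G(D); ℤ)`.
`cnj c x D h` : the homomorphism `Z_G(D) → Z_G(c)`, `z ↦ x⁻¹ z x`, for `x c x⁻¹ ∈ D`.
`trc k c D d` : the homomorphism `H_{k+1}(Z_G(D)) → H_{k+1}(Z_G(c))` induced by it for `x c x⁻¹ = d`, zero if `d` is
not conjugate to `c`.
-/

set_option autoImplicit false

open NumberField

universe u v w

namespace Pool.Agent.H16.KN

open Pool.Agent.H95.KM
open Pool.Agent.H95.WH (conjHom)
open Pool.Agent.H8.KZ (galN gO)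
open Pool.Agent.H71.FQ (HG HG.map centConj)

section cnj

end cnj

/-- Rational functionals on the symbols `[D, Θ(n), z]` (averaged over the Galois group). -/
structure FunN (L : Type) [Field L] [NumberField L] (N : ℕ) [NeZero N] (G : Type v) [Group G]
    (k : ℕ) (pr : Pr (𝓞 L) N → ℕ) where
  /-- the functional -/
  F : ∀ D : Good G N, ((D.1 →* (𝓞 L)ˣ) → Pr (𝓞 L) N → ℤ) →
    HG (Subgroup.centralizer (D.1 : Set G)) k → ℚ
  add : ∀ D n n' z, F D (n + n') z = F D n z + F D n' z
  addz : ∀ D n z z', F D n (z + z') = F D n z + F D n z'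
  nat : ∀ (D D' : Good G N) (g : G) (h : ∀ x ∈ D.1, g * x * g⁻¹ ∈ D'.1)
    (n : (D.1 →* (𝓞 L)ˣ) → Pr (𝓞 L) N → ℤ) (z : HG (Subgroup.centralizer (D'.1 : Set G)) k),
    F D' (fun χ m => n (χ.comp (conjHom g D.1 D'.1 h)) m) z =
      F D n (HG.map k (centConj g D.1 D'.1 h) z)
  const : ∀ (D : Good G N) (f : (D.1 →* (𝓞 L)ˣ) → ℤ) z, F D (fun χ _ => f χ) z = 0
  van : ∀ (D : Good G N) (n : (D.1 →* (𝓞 L)ˣ) → Pr (𝓞 L) N → ℤ) z,
    (∀ χ m, n χ m ≠ 0 → ¬ pr m ∣ Nat.card D.1) → F D n z = 0
  gal : ∀ (D : Good G N) (σ : L ≃ₐ[ℚ] L) (n : (D.1 →* (𝓞 L)ˣ) → Pr (𝓞 L) N → ℤ) z,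
    F D (galN N (gO σ) n) z = F D n z

end Pool.Agent.H16.KN

end
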