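import Pool.Agent.H13.TFQ.H95.KM.SqDefs
import Pool.Agent.H13.TFQ.M05

/-! The parts of this file: H16.KN.QC, H95.KM.SqProp. -/

section

/-!
# Project KN: chains of tuples of invertible matrices modulo block sums

`QC A k` : integral combinations of tuples `(N; x_0, …, x_k)` of matrices in `GL_N(A)`, modulo
`(g x_0, …, g x_k) = (x_0, …, x_k)` and `(blk x y) = (x) + (y)`; `qbd` is the boundary.  `ofKQ` maps `KQ A n` to the
homology of degree `n + 1` of this complex.

PROOFS.  `qbd`: lift of `∑ (-1)^i • t (x without x_i)`; `blk` of the faces is the face of `blk`.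
`ofKQ`: `KQ.lift (fun N => ..)`; on `HG (GLm N A) n` the class of a cycle `z` goes to the class of `ch N (n+1) z`
(`ch` sends `coi` to `0` and commutes with the boundaries); the block relation holds for every single tuple.
-/

set_option autoImplicit false

open Matrix

universe u v w

namespace Pool.Agent.H16.KN

open Pool.Agent.H71.FQ

section

variable (A : Type u) [Ring A] (k : ℕ)

/-- the tuples of `k + 1` invertible matrices of the same size -/
abbrev Gen : Type u := Σ N : ℕ, (Fin (k + 1) → GLm N A)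

/-- the relations -/
noncomputable def qrel : AddSubgroup (Gen A k →₀ ℤ) :=
  AddSubgroup.closure
    ({c | ∃ (N : ℕ) (g : GLm N A) (x : Fin (k + 1) → GLm N A),
      c = Finsupp.single (⟨N, fun j => g * x j⟩ : Gen A k) 1 - Finsupp.single (⟨N, x⟩ : Gen A k) 1} ∪
    {c | ∃ (N M : ℕ) (x : Fin (k + 1) → GLm N A) (y : Fin (k + 1) → GLm M A),
      c = Finsupp.single (⟨N + M, fun j => blk N M A (x j, y j)⟩ : Gen A k) 1 -
        (Finsupp.single (⟨N, x⟩ : Gen A k) 1 + Finsupp.single (⟨M, y⟩ : Gen A k) 1)})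

/-- The chains with `k + 1` vertices. -/
def QC : Type u := (Gen A k →₀ ℤ) ⧸ qrel A k

noncomputable instance instQC : AddCommGroup (QC A k) :=
  QuotientAddGroup.Quotient.addCommGroup (qrel A k)

variable {A k}

/-- the class of a tuple -/
noncomputable def QC.t (N : ℕ) (x : Fin (k + 1) → GLm N A) : QC A k :=
  QuotientAddGroup.mk' (qrel A k) (Finsupp.single (⟨N, x⟩ : Gen A k) 1)

theorem QC.t_inv (N : ℕ) (g : GLm N A) (x : Fin (k + 1) → GLm N A) :
    QC.t N (fun j => g * x j) = QC.t N x := by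
  rw [← sub_eq_zero]
  show QuotientAddGroup.mk' (qrel A k) _ - QuotientAddGroup.mk' (qrel A k) _ = 0
  rw [← map_sub, QuotientAddGroup.mk'_apply, QuotientAddGroup.eq_zero_iff]
  exact AddSubgroup.subset_closure (Or.inl ⟨N, g, x, rfl⟩)

theorem QC.t_blk (N M : ℕ) (x : Fin (k + 1) → GLm N A) (y : Fin (k + 1) → GLm M A) :
    QC.t (N + M) (fun j => blk N M A (x j, y j)) = QC.t N x + QC.t M y := by
  rw [← sub_eq_zero]
  show QuotientAddGroup.mk' (qrel A k) _ -
    (QuotientAddGroup.mk' (qrel A k) _ + QuotientAddGroup.mk' (qrel A k) _) = 0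
  rw [← map_add, ← map_sub, QuotientAddGroup.mk'_apply, QuotientAddGroup.eq_zero_iff]
  exact AddSubgroup.subset_closure (Or.inr ⟨N, M, x, y, rfl⟩)

private theorem qc_zsmul {P : QC A k → Prop} (h0 : P 0) (ha : ∀ a b, P a → P b → P (a + b))
    (hn : ∀ a, P a → P (-a)) {a : QC A k} (h : P a) (r : ℤ) : P (r • a) := by
  induction r using Int.induction_on with
  | zero => rwa [zero_smul]
  | succ i ih =>
    rw [add_smul, one_smul]
    exact ha _ _ ih h
  | pred i ih =>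
    rw [sub_smul, one_smul, sub_eq_add_neg]
    exact ha _ _ ih (hn _ h)

private theorem qc_single (s : Gen A k) (r : ℤ) :
    (QuotientAddGroup.mk' (qrel A k) (Finsupp.single s r) : QC A k) = r • QC.t s.1 s.2 := by
  have h : Finsupp.single s r = r • (Finsupp.single s 1 : Gen A k →₀ ℤ) := by
    rw [Finsupp.smul_single, smul_eq_mul, mul_one]
  rw [h]
  exact map_zsmul (QuotientAddGroup.mk' (qrel A k)) r (Finsupp.single s 1)

theorem QC.induction {P : QC A k → Prop} (h0 : P 0) (ht : ∀ N x, P (QC.t N x))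
    (ha : ∀ a b, P a → P b → P (a + b)) (hn : ∀ a, P a → P (-a)) (w : QC A k) : P w := by
  obtain ⟨c, rfl⟩ := QuotientAddGroup.mk'_surjective (qrel A k) w
  induction c using Finsupp.induction_linear with
  | zero =>
    rw [map_zero]
    exact h0
  | add a b iha ihb =>
    rw [map_add]
    exact ha _ _ iha ihb
  | single s r =>
    rw [qc_single]
    exact qc_zsmul h0 ha hn (ht s.1 s.2) r

theorem QC.hom_ext {M : Type*} [AddCommGroup M] {f g : QC A k →+ M}
    (h : ∀ N x, f (QC.t N x) = g (QC.t N x)) : f = g :=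
  AddMonoidHom.ext fun w => QC.induction (P := fun w => f w = g w) (by rw [map_zero, map_zero]) h
    (fun a b ha hb => by rw [map_add, map_add, ha, hb]) (fun a ha => by rw [map_neg, map_neg, ha]) w

private theorem qc_lift_single {M : Type*} [AddCommGroup M] (F : ∀ N, (Fin (k + 1) → GLm N A) → M)
    (s : Gen A k) : (Finsupp.liftAddHom fun s : Gen A k => (zmultiplesHom M) (F s.1 s.2))
      (Finsupp.single s 1) = F s.1 s.2 := by
  rw [Finsupp.liftAddHom_apply_single, zmultiplesHom_apply, one_zsmul]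

private theorem qc_rel {M : Type*} [AddCommGroup M] (F : ∀ N, (Fin (k + 1) → GLm N A) → M)
    (hinv : ∀ N (g : GLm N A) x, F N (fun j => g * x j) = F N x)
    (hblk : ∀ N M' (x : Fin (k + 1) → GLm N A) (y : Fin (k + 1) → GLm M' A),
      F (N + M') (fun j => blk N M' A (x j, y j)) = F N x + F M' y) :
    qrel A k ≤ (Finsupp.liftAddHom fun s : Gen A k => (zmultiplesHom M) (F s.1 s.2)).ker := by
  rw [qrel, AddSubgroup.closure_le]
  rintro _ (⟨N, g, x, rfl⟩ | ⟨N, M', x, y, rfl⟩)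
  · show (Finsupp.liftAddHom fun s : Gen A k => (zmultiplesHom M) (F s.1 s.2)) _ = 0
    rw [map_sub, qc_lift_single, qc_lift_single, sub_eq_zero]
    exact hinv N g x
  · show (Finsupp.liftAddHom fun s : Gen A k => (zmultiplesHom M) (F s.1 s.2)) _ = 0
    rw [map_sub, map_add, qc_lift_single, qc_lift_single, qc_lift_single, sub_eq_zero]
    exact hblk N M' x y

/-- homomorphisms out of `QC A k` -/
noncomputable def QC.lift {M : Type*} [AddCommGroup M] (F : ∀ N, (Fin (k + 1) → GLm N A) → M)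
    (hinv : ∀ N (g : GLm N A) x, F N (fun j => g * x j) = F N x)
    (hblk : ∀ N M' (x : Fin (k + 1) → GLm N A) (y : Fin (k + 1) → GLm M' A),
      F (N + M') (fun j => blk N M' A (x j, y j)) = F N x + F M' y) : QC A k →+ M :=
  QuotientAddGroup.lift (qrel A k)
    (Finsupp.liftAddHom fun s : Gen A k => (zmultiplesHom M) (F s.1 s.2)) (qc_rel F hinv hblk)

theorem QC.lift_t {M : Type*} [AddCommGroup M] (F : ∀ N, (Fin (k + 1) → GLm N A) → M)
    (hinv : ∀ N (g : GLm N A) x, F N (fun j => g * x j) = F N x)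
    (hblk : ∀ N M' (x : Fin (k + 1) → GLm N A) (y : Fin (k + 1) → GLm M' A),
      F (N + M') (fun j => blk N M' A (x j, y j)) = F N x + F M' y) (N : ℕ)
    (x : Fin (k + 1) → GLm N A) : QC.lift F hinv hblk (QC.t N x) = F N x :=
  qc_lift_single F ⟨N, x⟩

private theorem qc_bd_inv (N : ℕ) (g : GLm N A) (x : Fin (k + 2) → GLm N A) :
    (∑ i : Fin (k + 2), (-1 : ℤ) ^ (i : ℕ) • QC.t N fun j => (fun j => g * x j) (i.succAbove j)) =
      ∑ i : Fin (k + 2), (-1 : ℤ) ^ (i : ℕ) • QC.t N fun j => x (i.succAbove j) := by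
  refine Finset.sum_congr rfl fun i _ => ?_
  exact congrArg _ (QC.t_inv N g fun j => x (i.succAbove j))

private theorem qc_bd_blk (N M' : ℕ) (x : Fin (k + 2) → GLm N A) (y : Fin (k + 2) → GLm M' A) :
    (∑ i : Fin (k + 2), (-1 : ℤ) ^ (i : ℕ) •
      QC.t (N + M') fun j => (fun j => blk N M' A (x j, y j)) (i.succAbove j)) =
      (∑ i : Fin (k + 2), (-1 : ℤ) ^ (i : ℕ) • QC.t N fun j => x (i.succAbove j)) +
        ∑ i : Fin (k + 2), (-1 : ℤ) ^ (i : ℕ) • QC.t M' fun j => y (i.succAbove j) := by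
  rw [← Finset.sum_add_distrib]
  refine Finset.sum_congr rfl fun i _ => ?_
  rw [← smul_add]
  exact congrArg _ (QC.t_blk N M' (fun j => x (i.succAbove j)) fun j => y (i.succAbove j))

/-- **The boundary.** -/
noncomputable def qbd : QC A (k + 1) →+ QC A k :=
  QC.lift (fun N x => ∑ i : Fin (k + 2), (-1 : ℤ) ^ (i : ℕ) • QC.t N fun j => x (i.succAbove j))
    qc_bd_inv qc_bd_blk

theorem qbd_t (N : ℕ) (x : Fin (k + 2) → GLm N A) : qbd (QC.t N x) =
    ∑ i : Fin (k + 2), (-1 : ℤ) ^ (i : ℕ) • QC.t N fun j => x (i.succAbove j) :=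
  QC.lift_t _ _ _ N x

private theorem qc_map_inv {A' : Type v} [Ring A'] (f : A →+* A') (N : ℕ) (g : GLm N A)
    (x : Fin (k + 1) → GLm N A) : (QC.t N fun j => mapGL f N ((fun j => g * x j) j)) =
      QC.t N fun j => mapGL f N (x j) := by
  have h : (fun j => mapGL f N ((fun j => g * x j) j)) =
      fun j => mapGL f N g * (fun j => mapGL f N (x j)) j := by
    funext j
    exact map_mul (mapGL f N) g (x j)
  rw [h, QC.t_inv]

private theorem qc_map_blk {A' : Type v} [Ring A'] (f : A →+* A') (N M' : ℕ)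
    (x : Fin (k + 1) → GLm N A) (y : Fin (k + 1) → GLm M' A) :
    (QC.t (N + M') fun j => mapGL f (N + M') ((fun j => blk N M' A (x j, y j)) j)) =
      (QC.t N fun j => mapGL f N (x j)) + QC.t M' fun j => mapGL f M' (y j) := by
  have h : (fun j => mapGL f (N + M') ((fun j => blk N M' A (x j, y j)) j)) =
      fun j => blk N M' A' ((fun j => mapGL f N (x j)) j, (fun j => mapGL f M' (y j)) j) := by
    funext j
    exact DFunLike.congr_fun (mapGL_comp_blk f N M') (x j, y j)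
  rw [h, QC.t_blk]

/-- functoriality -/
noncomputable def QC.map {A' : Type v} [Ring A'] (f : A →+* A') : QC A k →+ QC A' k :=
  QC.lift (fun N x => QC.t N fun j => mapGL f N (x j)) (qc_map_inv f) (qc_map_blk f)

theorem QC.map_t {A' : Type v} [Ring A'] (f : A →+* A') (N : ℕ) (x : Fin (k + 1) → GLm N A) :
    QC.map f (QC.t N x) = QC.t N fun j => mapGL f N (x j) :=
  QC.lift_t _ _ _ N x

end

section

end

end Pool.Agent.H16.KN

end

section

/-!
# Project KM, module SqProp: properties of the connecting homomorphism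

All definitions are in `Pool/Agent/H95/KM/SqDefs.lean`.  `Q.dl g = [H] - [1_m]` for any
representation `IsRep g x y H` (`Sq.dl_eq`).  Let `r = πφ : Γ → B` below.

* `dl_lift` (`h = π(U) g`, `U ∈ GL_m(𝓜)`): if `(x, y, H)` represents `g` (`exists_isRep`) then
  `(U x, y U⁻¹, H)` represents `h` (same `u`, `v`): `π(U x) = π(U) g r(u) = h r(u)`,
  `π(y U⁻¹) = r(v) g⁻¹ π(U)⁻¹ = r(v) h⁻¹`.
* `dl_base` (`h = g r(V)`, `r(V) r(V') = r(V') r(V) = 1`): the same `(x, y, H)` represents `h` with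
  `u' = V' u`, `v' = v V`.
* `dl_one`: `(1, 1, 1)` represents `1` (`u = v = 1`).
* `dl_blk`: if `(x, y, H)` represents `g` and `(x', y', H')` represents `g'` then
  `(x ⊕ x', y ⊕ y', H ⊕ H')` (block diagonal, `fromBlocks x 0 0 x'` etc.) represents `blk g g'`;
  `K0.cls_fromBlocks`, and `[1_{m ⊕ n}] = [1_m] + [1_n]`.
* `dl_rei`: reindexing `m`: `(x.submatrix σ id, y.submatrix id σ, H)` represents `rei σ g`; and
  `[1_m] = [1_n]` (`K0.matEquiv_one_one`).
* `dl_mul`: by `dl_blk`, `dl_one` it suffices that `dl (blk (g g') 1) = dl (blk g g')`.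
  Let `a, b` be matrices over `𝓜` with `π(a) = g`, `π(b) = g⁻¹`.  Let
  `E₁₂(z) = [[1, z], [0, 1]]`, `E₂₁(z) = [[1, 0], [z, 1]]` (invertible over `𝓜`) and
  `U = E₁₂(a) E₂₁(-b) E₁₂(a) ∈ GL_{m ⊕ m}(𝓜)`; then `π(U) = [[0, g], [-g⁻¹, 0]]`.
  Let `S = [[0, 1], [-1, 0]]`, `S⁻¹ = [[0, -1], [1, 0]]` over `Γ`.
  `π(U) · diag(g, g') · r(S⁻¹) = [[0, g g'], [-1, 0]] · [[0, -1], [1, 0]] = diag(g g', 1)`.
  Now use `dl_lift` and `dl_base`.
* `dl_map`: if `(x, y, H)` represents `g` then `(b x, b y, a H)` represents `c g`.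
-/

set_option autoImplicit false

open Matrix
open scoped LaurentPolynomial

universe u v w u' v' w'

namespace Pool.Agent.H95.KM

namespace Sq

variable {Γ : Type u} {𝓜 : Type v} {B : Type w} [Ring Γ] [Ring 𝓜] [Ring B] (Q : Sq Γ 𝓜 B)

/-- Lifting step, on representations. -/
theorem IsRep.lift {Q : Sq Γ 𝓜 B} {m n : Type} [Fintype m] [DecidableEq m] [Fintype n]
    {g : (Matrix m m B)ˣ} {x : Matrix m n 𝓜} {y : Matrix n m 𝓜} {H : Matrix n n Γ}
    (hr : Q.IsRep g x y H) (U : (Matrix m m 𝓜)ˣ) :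
    Q.IsRep (mapU Q.π U * g) ((U : Matrix m m 𝓜) * x)
      (y * ((U⁻¹ : (Matrix m m 𝓜)ˣ) : Matrix m m 𝓜)) H := by
  obtain ⟨h1, h2, ⟨u, h3⟩, ⟨v, h4⟩⟩ := hr
  refine ⟨?_, ?_, ⟨u, ?_⟩, ⟨v, ?_⟩⟩
  · rw [Matrix.mul_assoc, ← Matrix.mul_assoc x, h1, Matrix.one_mul, Units.mul_inv]
  · rw [Matrix.mul_assoc, ← Matrix.mul_assoc _ (U : Matrix m m 𝓜), Units.inv_mul,
      Matrix.one_mul, h2]
  · rw [Matrix.map_mul, h3, ← Matrix.mul_assoc]
    rfl
  · rw [Matrix.map_mul, h4, Matrix.mul_assoc, _root_.mul_inv_rev]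
    rfl

theorem isRep_one {m : Type} [Fintype m] [DecidableEq m] :
    Q.IsRep (1 : (Matrix m m B)ˣ) (1 : Matrix m m 𝓜) 1 1 := by
  refine ⟨Matrix.mul_one _, ?_, ⟨1, ?_⟩, ⟨1, ?_⟩⟩
  · rw [Matrix.mul_one, Matrix.map_one _ (map_zero _) (map_one _)]
  · rw [Matrix.map_one _ (map_zero _) (map_one _), Matrix.map_one _ (map_zero _) (map_one _)]
    simp
  · rw [Matrix.map_one _ (map_zero _) (map_one _), Matrix.map_one _ (map_zero _) (map_one _)]
    simp

theorem IsRep.blk {Q : Sq Γ 𝓜 B} {m n m' n' : Type} [Fintype m] [DecidableEq m] [Fintype n]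
    [Fintype m'] [DecidableEq m'] [Fintype n']
    {g : (Matrix m m B)ˣ} {x : Matrix m n 𝓜} {y : Matrix n m 𝓜} {H : Matrix n n Γ}
    (hr : Q.IsRep g x y H)
    {g' : (Matrix m' m' B)ˣ} {x' : Matrix m' n' 𝓜} {y' : Matrix n' m' 𝓜} {H' : Matrix n' n' Γ}
    (hr' : Q.IsRep g' x' y' H') :
    Q.IsRep (Pool.Agent.H95.KM.blk g g') (fromBlocks x 0 0 x') (fromBlocks y 0 0 y')
      (fromBlocks H 0 0 H') := by
  obtain ⟨h1, h2, ⟨u, h3⟩, ⟨v, h4⟩⟩ := hr
  obtain ⟨h1', h2', ⟨u', h3'⟩, ⟨v', h4'⟩⟩ := hr'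
  refine ⟨?_, ?_, ⟨fromBlocks u 0 0 u', ?_⟩, ⟨fromBlocks v 0 0 v', ?_⟩⟩
  · rw [fromBlocks_multiply]
    simp [h1, h1']
  · rw [fromBlocks_multiply, fromBlocks_map]
    simp [h2, h2', Matrix.map_zero]
  · have e0 : ((Pool.Agent.H95.KM.blk g g' : (Matrix (m ⊕ m') (m ⊕ m') B)ˣ) :
        Matrix (m ⊕ m') (m ⊕ m') B) = fromBlocks (g : Matrix m m B) 0 0 (g' : Matrix m' m' B) := rfl
    rw [e0, fromBlocks_map, fromBlocks_map, fromBlocks_multiply, h3, h3']
    simp [Matrix.map_zero]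
  · have e0 : (((Pool.Agent.H95.KM.blk g g')⁻¹ : (Matrix (m ⊕ m') (m ⊕ m') B)ˣ) :
        Matrix (m ⊕ m') (m ⊕ m') B) = fromBlocks ((g⁻¹ : (Matrix m m B)ˣ) : Matrix m m B) 0 0
          ((g'⁻¹ : (Matrix m' m' B)ˣ) : Matrix m' m' B) := rfl
    rw [e0, fromBlocks_map, fromBlocks_map, fromBlocks_multiply, h4, h4']
    simp [Matrix.map_zero]

variable {Q}
variable {Γ' : Type u'} {𝓜' : Type v'} {B' : Type w'} [Ring Γ'] [Ring 𝓜'] [Ring B']
  {Q' : Sq Γ' 𝓜' B'}

theorem IsRep.map (F : SqHom Q Q') {m n : Type} [Fintype m] [DecidableEq m] [Fintype n]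
    {g : (Matrix m m B)ˣ} {x : Matrix m n 𝓜} {y : Matrix n m 𝓜} {H : Matrix n n Γ}
    (h : Q.IsRep g x y H) :
    Q'.IsRep (mapU F.c g) (x.map F.b) (y.map F.b) (H.map F.a) := by
  obtain ⟨h1, h2, ⟨u, h3⟩, ⟨v, h4⟩⟩ := h
  have e1 : ∀ {k l : Type} (z : Matrix k l 𝓜), (z.map F.b).map Q'.π = (z.map Q.π).map F.c := by
    intro k l z
    ext i j
    exact (F.hπ _).symm
  have e2 : ∀ {k l : Type} (z : Matrix k l Γ),
      (z.map F.a).map (Q'.π.comp Q'.φ) = (z.map (Q.π.comp Q.φ)).map F.c := by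
    intro k l z
    ext i j
    simp only [Matrix.map_apply, RingHom.comp_apply]
    rw [F.hπ, F.hφ]
  refine ⟨?_, ?_, ⟨u.map F.a, ?_⟩, ⟨v.map F.a, ?_⟩⟩
  · rw [← Matrix.map_mul, h1, Matrix.map_one _ (map_zero _) (map_one _)]
  · rw [← Matrix.map_mul, h2]
    ext i j
    exact F.hφ _
  · rw [e1, e2, h3, Matrix.map_mul]
    rfl
  · rw [e1, e2, h4, Matrix.map_mul]
    rfl

end Sq

end Pool.Agent.H95.KM

end
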