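import Pool.Agent.H13.TFQ.H71.FJ.K0_1
import Pool.Agent.H13.TFQ.M24
import Pool.Agent.H13.TFQ.M74
import Pool.Agent.H13.TFQ.M85

/-! The parts of this file: H39.KL.Mono, H95.KF.Kres. -/

section

/-!
# Project KL: the trace cochains on monomial multiples of matrices over a commutative subgroup

`C` a finite commutative group, `f : C → G`, `A_t` invertible matrices over `B[C]` and `y_t` elements of `G` which
commute with `f(C)`.  For `x_t = f(A_t) y_t` the value is the sum over `d : C` of the value on `A` of the cochain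
`(x_t) ↦ φ (u f(x_t) y_t)`, `u f(d) u⁻¹ = c` (zero if `f d` is not conjugate to `c`).

PROOF of `TT_mono`: the letter `x_t⁻¹ x_{t+1}` is `f(A_t⁻¹ A_{t+1}) * y_t⁻¹ y_{t+1}`, so its coefficient at `g` is the sum over
the `α : C` with `f α * (y_t⁻¹ * y_{t+1}) = g` of the coefficient of `A_t⁻¹ A_{t+1}` at `α`.  Expand the left side by `TM_eq`
(`S` a finite set containing all `f α * (y_t⁻¹ * y_{t+1})`), expand the product of the sums (`Finset.prod_univ_sum` for lists of
matrices; or show first that the value is `∑ α : Fin K → C, tr (∏ cof (lts A t) (α t)) * wv c φ (fun t => f (α t) *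
((y t)⁻¹ * y (t + 1)))`).  The product of the word is `f (∏ α)` (the `y`s telescope, cyclically, and commute with `f C`).  If
`f d`, `d = ∏ α`, is conjugate to `c` by `u`, then `u * y 0` also conjugates it to `c`, and the vertices for `u * y 0` are
`u * f (α 0 ⋯ α (t - 1)) * y t`.  On the right side `TM_eq` with `S = univ`: the word `α` occurs exactly for `d = ∏ α`
(`C` is commutative).
-/

set_option autoImplicit false

open Matrix

universe u v w

namespace Pool.Agent.H39.KL

open Pool.Agent.H71.FQ Pool.Agent.H16.KN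

section

variable {G : Type u} [Group G] {B : Type v} [CommRing B] {K : ℕ} [NeZero K]

open Classical in
/-- the transported cochain -/
noncomputable def mph {C : Type w} [Group C] (f : C →* G) (c : G) (y : Fin K → G)
    (φ : (Fin K → G) → B) (d : C) (x : Fin K → C) : B :=
  if h : ∃ u : G, u * f d * u⁻¹ = c then φ (fun t => h.choose * f (x t) * y t) else 0

theorem mph_eq {C : Type w} [Group C] {f : C →* G} {c : G} {y : Fin K → G}
    (hy : ∀ (a : C) t, f a * y t = y t * f a) {φ : (Fin K → G) → B} (hφ : CI c φ) (d : C)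
    (x : Fin K → C) (u : G) (hu : u * f d * u⁻¹ = c) :
    mph f c y φ d x = φ (fun t => u * f (x t) * y t) := by
  have _ := hy
  have h : ∃ u : G, u * f d * u⁻¹ = c := ⟨u, hu⟩
  rw [mph, dif_pos h]
  generalize hw : h.choose = w
  have hw' : w * f d * w⁻¹ = c := by rw [← hw]; exact h.choose_spec
  have e : (fun t => w * f (x t) * y t) = fun t => (w * u⁻¹) * (u * f (x t) * y t) := by
    funext t
    group
  rw [e]
  refine hφ _ ?_ _
  calc w * u⁻¹ * c = w * u⁻¹ * (u * f d * u⁻¹) := by rw [hu]
    _ = (w * f d * w⁻¹) * (w * u⁻¹) := by group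
    _ = c * (w * u⁻¹) := by rw [hw']

theorem CI_mph {C : Type w} [Group C] (hC : ∀ a b : C, a * b = b * a) {f : C →* G} {c : G}
    {y : Fin K → G} {φ : (Fin K → G) → B} (hφ : CI c φ) (d : C) : CI d (mph f c y φ d) := by
  intro g _ x
  by_cases h : ∃ u : G, u * f d * u⁻¹ = c
  · rw [mph, mph, dif_pos h, dif_pos h]
    generalize hw : h.choose = w
    have hw' : w * f d * w⁻¹ = c := by rw [← hw]; exact h.choose_spec
    have e : (fun t => w * f (g * x t) * y t) =
        fun t => (w * f g * w⁻¹) * (w * f (x t) * y t) := by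
      funext t
      rw [map_mul]
      group
    rw [e]
    refine hφ _ ?_ _
    calc w * f g * w⁻¹ * c = w * f g * w⁻¹ * (w * f d * w⁻¹) := by rw [hw']
      _ = w * (f g * f d) * w⁻¹ := by group
      _ = w * (f d * f g) * w⁻¹ := by rw [← map_mul, hC, map_mul]
      _ = (w * f d * w⁻¹) * (w * f g * w⁻¹) := by group
      _ = c * (w * f g * w⁻¹) := by rw [hw']
  · rw [mph, mph, dif_neg h, dif_neg h]

/-- the coefficients of a monomial multiple -/
private theorem cof_mono {C : Type w} [Group C] [Fintype C] [DecidableEq G] (f : C →* G) {N : ℕ}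
    (M : Matrix (Fin N) (Fin N) (MonoidAlgebra B C)) (z g : G) :
    cof (M.map (MonoidAlgebra.mapDomainRingHom B f) *
      diagonal fun _ => MonoidAlgebra.single z (1 : B)) g =
      ∑ α : C, if f α * z = g then cof M α else 0 := by
  classical
  ext i j
  rw [cof, Matrix.map_apply, Matrix.mul_diagonal, Matrix.map_apply, Matrix.sum_apply]
  have h1 : ∀ a : MonoidAlgebra B C,
      ((MonoidAlgebra.mapDomainRingHom B f a) * MonoidAlgebra.single z (1 : B)).coeff g =
        ∑ α : C, if f α * z = g then a.coeff α else 0 := by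
    intro a
    induction a using MonoidAlgebra.induction_linear with
    | zero => simp
    | add a b ha hb =>
      rw [map_add, add_mul, MonoidAlgebra.coeff_add, Finsupp.add_apply, ha, hb,
        ← Finset.sum_add_distrib]
      refine Finset.sum_congr rfl fun α _ => ?_
      split_ifs
      · rw [MonoidAlgebra.coeff_add, Finsupp.add_apply]
      · rw [add_zero]
    | single β r =>
      rw [Finset.sum_eq_single β]
      · rw [MonoidAlgebra.mapDomainRingHom_apply, MonoidAlgebra.mapDomain_single,
          MonoidAlgebra.single_mul_single, mul_one, MonoidAlgebra.coeff_single,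
          MonoidAlgebra.coeff_single, Finsupp.single_eq_same, Finsupp.single_apply]
      · intro α _ hα
        rw [MonoidAlgebra.coeff_single, Finsupp.single_eq_of_ne hα]
        split_ifs <;> rfl
      · intro h
        exact absurd (Finset.mem_univ _) h
  rw [h1]
  refine Finset.sum_congr rfl fun α _ => ?_
  split_ifs
  · rfl
  · rfl

/-- multiples of the entries commute with an element which commutes with the subgroup -/
private theorem comm_mono {C : Type w} [Group C] (f : C →* G) (z : G)
    (hz : ∀ a : C, f a * z = z * f a) (a : MonoidAlgebra B C) :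
    MonoidAlgebra.mapDomainRingHom B f a * MonoidAlgebra.single z (1 : B) =
      MonoidAlgebra.single z (1 : B) * MonoidAlgebra.mapDomainRingHom B f a := by
  induction a using MonoidAlgebra.induction_linear with
  | zero => simp
  | add a b ha hb => rw [map_add, add_mul, mul_add, ha, hb]
  | single β r =>
    rw [MonoidAlgebra.mapDomainRingHom_apply, MonoidAlgebra.mapDomain_single,
      MonoidAlgebra.single_mul_single, MonoidAlgebra.single_mul_single, mul_one, one_mul, hz]

/-- the scalar matrix of an element -/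
private noncomputable def dg (B : Type v) [CommRing B] {N : ℕ} (z : G) :
    GLm N (MonoidAlgebra B G) :=
  ⟨diagonal fun _ => MonoidAlgebra.single z 1, diagonal fun _ => MonoidAlgebra.single z⁻¹ 1, by
    rw [diagonal_mul_diagonal, ← diagonal_one]
    congr 1
    funext i
    rw [MonoidAlgebra.single_mul_single, mul_inv_cancel, mul_one, MonoidAlgebra.one_def], by
    rw [diagonal_mul_diagonal, ← diagonal_one]
    congr 1
    funext i
    rw [MonoidAlgebra.single_mul_single, inv_mul_cancel, mul_one, MonoidAlgebra.one_def]⟩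

/-- the letters of the tuple -/
private theorem lts_mono {C : Type w} [Group C] (f : C →* G) (y : Fin K → G)
    (hy : ∀ (a : C) t, f a * y t = y t * f a) {N : ℕ} (A : Fin K → GLm N (MonoidAlgebra B C))
    (x : Fin K → GLm N (MonoidAlgebra B G))
    (hx : ∀ t, (x t).val = (A t).val.map (MonoidAlgebra.mapDomainRingHom B f) *
      diagonal fun _ => MonoidAlgebra.single (y t) 1) (j : Fin K) :
    lts x j = (lts A j).map (MonoidAlgebra.mapDomainRingHom B f) *
      diagonal fun _ => MonoidAlgebra.single ((y j)⁻¹ * y (j + 1)) 1 := by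
  have h1 : ∀ t, x t = mapGL (MonoidAlgebra.mapDomainRingHom B f) N (A t) * dg B (y t) := by
    intro t
    apply Units.ext
    rw [Units.val_mul, mapGL_val]
    exact hx t
  have h2 : ∀ (M : GLm N (MonoidAlgebra B C)) (t : Fin K),
      mapGL (MonoidAlgebra.mapDomainRingHom B f) N M * dg B (y t) =
        dg B (y t) * mapGL (MonoidAlgebra.mapDomainRingHom B f) N M := by
    intro M t
    apply Units.ext
    rw [Units.val_mul, Units.val_mul, mapGL_val]
    ext1 i k
    change (M.val.map (MonoidAlgebra.mapDomainRingHom B f) *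
      diagonal (fun _ => MonoidAlgebra.single (y t) (1 : B)) :
        Matrix (Fin N) (Fin N) (MonoidAlgebra B G)) i k =
      (diagonal (fun _ => MonoidAlgebra.single (y t) (1 : B)) *
        M.val.map (MonoidAlgebra.mapDomainRingHom B f) :
        Matrix (Fin N) (Fin N) (MonoidAlgebra B G)) i k
    rw [Matrix.mul_diagonal, Matrix.diagonal_mul, Matrix.map_apply]
    exact comm_mono f (y t) (fun a => hy a t) _
  have h3 : (x j)⁻¹ * x (j + 1) =
      mapGL (MonoidAlgebra.mapDomainRingHom B f) N ((A j)⁻¹ * A (j + 1)) *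
        ((dg B (y j))⁻¹ * dg B (y (j + 1))) := by
    rw [h1, h1, _root_.mul_inv_rev, map_mul, map_inv]
    have h4 : (dg B (y j))⁻¹ * ((mapGL (MonoidAlgebra.mapDomainRingHom B f) N) (A j))⁻¹ =
        ((mapGL (MonoidAlgebra.mapDomainRingHom B f) N) (A j))⁻¹ * (dg B (y j))⁻¹ := by
      rw [← _root_.mul_inv_rev, ← _root_.mul_inv_rev, h2]
    have h5 : (dg B (y j))⁻¹ * ((mapGL (MonoidAlgebra.mapDomainRingHom B f) N) (A (j + 1))) =
        ((mapGL (MonoidAlgebra.mapDomainRingHom B f) N) (A (j + 1))) * (dg B (y j))⁻¹ := by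
      rw [inv_mul_eq_iff_eq_mul, ← mul_assoc, ← h2, mul_inv_cancel_right]
    rw [h4]
    simp only [mul_assoc]
    rw [← mul_assoc (dg B (y j))⁻¹ _ (dg B (y (j + 1))), h5]
    simp only [mul_assoc]
  unfold lts
  rw [h3, Units.val_mul, mapGL_val]
  congr 1
  change (diagonal (fun _ => MonoidAlgebra.single (y j)⁻¹ (1 : B)) : Matrix (Fin N) (Fin N) _) *
    (diagonal (fun _ => MonoidAlgebra.single (y (j + 1)) (1 : B))) = _
  rw [diagonal_mul_diagonal]
  congr 1
  funext i
  rw [MonoidAlgebra.single_mul_single, mul_one]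

private theorem prod_ite {R : Type*} [Semiring R] {n : ℕ} (p : Fin n → Prop) [DecidablePred p]
    [Decidable (∀ j, p j)] (a : Fin n → R) :
    (List.ofFn fun j => if p j then a j else 0).prod =
      if ∀ j, p j then (List.ofFn a).prod else 0 := by
  split_ifs with h
  · congr 2
    funext j
    rw [if_pos (h j)]
  · push Not at h
    obtain ⟨j, hj⟩ := h
    apply List.prod_eq_zero
    rw [List.mem_ofFn]
    exact ⟨j, if_neg hj⟩

/-- expansion over the words in `C` -/
private theorem TM_mono {C : Type w} [Group C] [Fintype C] (f : C →* G) {c : G}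
    {φ : (Fin K → G) → B} (hφ : CI c φ) {N : ℕ}
    (M : Fin K → Matrix (Fin N) (Fin N) (MonoidAlgebra B C)) (z : Fin K → G) :
    TM c φ (fun j => (M j).map (MonoidAlgebra.mapDomainRingHom B f) *
      diagonal fun _ => MonoidAlgebra.single (z j) 1) =
      ∑ α : Fin K → C, ((List.ofFn fun j => cof (M j) (α j)).prod).trace *
        wv c φ (fun j => f (α j) * z j) := by
  classical
  have hmem : ∀ (j : Fin K) (α : C), f α * z j ∈
      Finset.univ.image (fun p : Fin K × C => f p.2 * z p.1) := fun j α =>
    Finset.mem_image.2 ⟨(j, α), Finset.mem_univ _, rfl⟩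
  rw [TM_eq hφ _ (Finset.univ.image (fun p : Fin K × C => f p.2 * z p.1)) ?_]
  · have h1 : ∀ g : Fin K → (Finset.univ.image (fun p : Fin K × C => f p.2 * z p.1)),
        ((List.ofFn fun j => cof ((M j).map (MonoidAlgebra.mapDomainRingHom B f) *
          diagonal fun _ => MonoidAlgebra.single (z j) 1) (g j : G)).prod).trace *
            wv c φ (fun j => (g j : G)) =
          ∑ α : Fin K → C, if ∀ j, f (α j) * z j = (g j : G) then
            ((List.ofFn fun j => cof (M j) (α j)).prod).trace *
              wv c φ (fun j => f (α j) * z j) else 0 := by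
      intro g
      have h2 : (fun j => cof ((M j).map (MonoidAlgebra.mapDomainRingHom B f) *
          diagonal fun _ => MonoidAlgebra.single (z j) 1) (g j : G)) =
          fun j => ∑ α : C, if f α * z j = (g j : G) then cof (M j) α else 0 := by
        funext j
        exact cof_mono f (M j) (z j) (g j : G)
      rw [h2]
      have h3 := MultilinearMap.map_sum (MultilinearMap.mkPiAlgebraFin ℕ K
        (Matrix (Fin N) (Fin N) B))
        (fun (j : Fin K) (α : C) => if f α * z j = (g j : G) then cof (M j) α else 0)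
      simp only [MultilinearMap.mkPiAlgebraFin_apply] at h3
      rw [h3, Matrix.trace_sum, Finset.sum_mul]
      refine Finset.sum_congr rfl fun α _ => ?_
      rw [prod_ite]
      split_ifs with h
      · congr 2
        funext j
        exact (h j).symm
      · rw [Matrix.trace_zero, zero_mul]
    rw [Finset.sum_congr rfl fun g _ => h1 g, Finset.sum_comm]
    refine Finset.sum_congr rfl fun α _ => ?_
    rw [Finset.sum_eq_single (fun j => ⟨f (α j) * z j, hmem j (α j)⟩)]
    · rw [if_pos fun j => rfl]
    · intro g _ hg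
      rw [if_neg]
      intro h
      apply hg
      funext j
      exact Subtype.ext (h j).symm
    · intro h
      exact absurd (Finset.mem_univ _) h
  · intro j x hx
    rw [cof_mono] at hx
    obtain ⟨α, -, hα⟩ := Finset.exists_ne_zero_of_sum_ne_zero hx
    by_cases h : f α * z j = x
    · rw [← h]
      exact hmem j α
    · rw [if_neg h] at hα
      exact absurd rfl hα

/-- the partial products of the letters -/
private theorem prod_take {C : Type w} [Group C] (f : C →* G) (y : Fin K → G)
    (hy : ∀ (a : C) t, f a * y t = y t * f a) (α : Fin K → C) (t : ℕ) (ht : t ≤ K) :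
    ((List.ofFn fun j => f (α j) * ((y j)⁻¹ * y (j + 1))).take t).prod =
      f (((List.ofFn α).take t).prod) * ((y 0)⁻¹ * y (Fin.ofNat K t)) := by
  induction t with
  | zero =>
    have h0 : (Fin.ofNat K 0 : Fin K) = 0 := rfl
    rw [List.take_zero, List.take_zero, List.prod_nil, List.prod_nil, map_one, one_mul, h0,
      inv_mul_cancel]
  | succ t ih =>
    have ht' : t < K := ht
    rw [List.take_succ_eq_append_getElem (by rw [List.length_ofFn]; exact ht'),
      List.take_succ_eq_append_getElem (by rw [List.length_ofFn]; exact ht'), List.prod_append,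
      List.prod_append, List.prod_singleton, List.prod_singleton, List.getElem_ofFn,
      List.getElem_ofFn, ih ht'.le, map_mul]
    have h1 : (Fin.ofNat K t : Fin K) = ⟨t, ht'⟩ := Fin.ext (Nat.mod_eq_of_lt ht')
    have h2 : (Fin.ofNat K (t + 1) : Fin K) = ⟨t, ht'⟩ + 1 := by
      apply Fin.ext
      rw [Fin.val_add]
      change (t + 1) % K = (t + 1 % K) % K
      rw [Nat.add_mod_mod]
    rw [h1, h2]
    have h3 : ∀ a : C, (y 0)⁻¹ * f a = f a * (y 0)⁻¹ := fun a => by
      rw [inv_mul_eq_iff_eq_mul, ← mul_assoc, ← hy, mul_inv_cancel_right]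
    calc f (((List.ofFn α).take t).prod) * ((y 0)⁻¹ * y ⟨t, ht'⟩) *
          (f (α ⟨t, ht'⟩) * ((y ⟨t, ht'⟩)⁻¹ * y (⟨t, ht'⟩ + 1)))
        = f (((List.ofFn α).take t).prod) * ((y 0)⁻¹ * (y ⟨t, ht'⟩ * f (α ⟨t, ht'⟩)) *
          ((y ⟨t, ht'⟩)⁻¹ * y (⟨t, ht'⟩ + 1))) := by group
      _ = f (((List.ofFn α).take t).prod) * (((y 0)⁻¹ * f (α ⟨t, ht'⟩)) * y (⟨t, ht'⟩ + 1)) := by
        rw [← hy]
        group
      _ = _ := by
        rw [h3]
        group

/-- the values on the words -/
private theorem wv_mono {C : Type w} [Group C] (f : C →* G) {c : G} (y : Fin K → G)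
    (hy : ∀ (a : C) t, f a * y t = y t * f a) {φ : (Fin K → G) → B} (hφ : CI c φ)
    (α : Fin K → C) :
    wv c φ (fun j => f (α j) * ((y j)⁻¹ * y (j + 1))) =
      mph f c y φ (List.ofFn α).prod (vtx 1 α) := by
  have h0 : (Fin.ofNat K K : Fin K) = 0 := Fin.ext (by
    change K % K = 0 % K
    rw [Nat.mod_self, Nat.zero_mod])
  have h1 : (List.ofFn fun j => f (α j) * ((y j)⁻¹ * y (j + 1))).prod = f (List.ofFn α).prod := by
    have h2 := prod_take f y hy α K le_rfl
    rw [List.take_of_length_le (by rw [List.length_ofFn]),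
      List.take_of_length_le (by rw [List.length_ofFn]), h0, inv_mul_cancel, mul_one] at h2
    exact h2
  by_cases h : ∃ u : G, u * f (List.ofFn α).prod * u⁻¹ = c
  · obtain ⟨u, hu⟩ := h
    rw [mph_eq hy hφ _ _ u hu, wv_eq hφ _ (u * y 0)]
    · congr 1
      funext t
      unfold vtx
      rw [prod_take f y hy α t t.2.le, one_mul]
      have h3 : (Fin.ofNat K (t : ℕ) : Fin K) = t := Fin.ext (Nat.mod_eq_of_lt t.2)
      rw [h3]
      calc u * y 0 * (f ((List.ofFn α).take t).prod * ((y 0)⁻¹ * y t))
          = u * (y 0 * f ((List.ofFn α).take t).prod) * ((y 0)⁻¹ * y t) := by group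
        _ = u * (f ((List.ofFn α).take t).prod * y 0) * ((y 0)⁻¹ * y t) := by rw [hy]
        _ = _ := by group
    · rw [h1]
      calc u * y 0 * f (List.ofFn α).prod * (u * y 0)⁻¹
          = u * (y 0 * f (List.ofFn α).prod) * (u * y 0)⁻¹ := by group
        _ = u * (f (List.ofFn α).prod * y 0) * (u * y 0)⁻¹ := by rw [hy]
        _ = u * f (List.ofFn α).prod * u⁻¹ := by group
        _ = c := hu
  · rw [wv_zero c φ _ fun u hu => h ⟨u, by rw [h1] at hu; exact hu⟩, mph, dif_neg h]

/-- **Monomial multiples of matrices over a commutative subgroup.** -/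
theorem TT_mono {C : Type w} [Group C] [Fintype C] (hC : ∀ a b : C, a * b = b * a) (f : C →* G)
    {c : G} (y : Fin K → G) (hy : ∀ (a : C) t, f a * y t = y t * f a) {φ : (Fin K → G) → B}
    (hφ : CI c φ) {N : ℕ} (A : Fin K → GLm N (MonoidAlgebra B C))
    (x : Fin K → GLm N (MonoidAlgebra B G))
    (hx : ∀ t, (x t).val = (A t).val.map (MonoidAlgebra.mapDomainRingHom B f) *
      diagonal fun _ => MonoidAlgebra.single (y t) 1) :
    TT c φ x = ∑ d : C, TT d (mph f c y φ d) A := by
  classical
  unfold TT
  have h1 : lts x = fun j => (lts A j).map (MonoidAlgebra.mapDomainRingHom B f) *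
      diagonal fun _ => MonoidAlgebra.single ((y j)⁻¹ * y (j + 1)) 1 := by
    funext j
    exact lts_mono f y hy A x hx j
  rw [h1, TM_mono f hφ]
  have h2 : ∀ d : C, TM d (mph f c y φ d) (lts A) =
      ∑ α : Fin K → C, ((List.ofFn fun j => cof (lts A j) (α j)).prod).trace *
        wv d (mph f c y φ d) α := by
    intro d
    rw [TM_eq (CI_mph hC hφ d) (lts A) Finset.univ fun _ _ _ => Finset.mem_univ _]
    refine Fintype.sum_equiv (Equiv.piCongrRight fun _ : Fin K =>
      Equiv.subtypeUnivEquiv fun a : C => Finset.mem_univ a) _ _ fun g => ?_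
    rfl
  rw [Finset.sum_congr rfl fun d _ => h2 d, Finset.sum_comm]
  refine Finset.sum_congr rfl fun α _ => ?_
  rw [← Finset.mul_sum, wv_mono f y hy hφ α, Finset.sum_eq_single (List.ofFn α).prod]
  · rw [wv_eq (CI_mph hC hφ _) α 1 (by rw [one_mul, inv_one, mul_one])]
  · intro d _ hd
    apply wv_zero
    intro u hu
    apply hd
    rw [← hu, hC u, mul_assoc, mul_inv_cancel, mul_one]
  · intro h
    exact absurd (Finset.mem_univ _) h

end

end Pool.Agent.H39.KL

end

section

/-!
# Project KF, module Kres: the homomorphisms of `K₋₁` induced by `R → Mat_J(S)`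

## Paper proofs

All this is in `Pool/Agent/H95/KM/Trans.lean` (`lm`, `pm`, `kres`, `map_kres`) for index types `J : Type`; here `J` is in an
arbitrary universe. Copy and generalise (`lm`, `lm_single`, `pm`, `lm_posHom`, `lm_negHom`, `kres`, `lau_lm`, `map_kres`).
`exists_kpush`: `klm φ` agrees with the homomorphism of the construction (equal on `single k r`, hence equal).
`kpush_congr`: `K0.push_congr` (`Pool/Agent/H71/FJ/K0.lean`) for `klm φ`, `klm ψ` and the matrices `U.map (cst S)`,
`V.map (cst S)`; the intertwining relation need only be checked on `single k r` (both sides are additive).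
`kpush_blk`: on classes of idempotent matrices `e` over `R[t, t⁻¹]`: `flat (klm ψ) e` is, after reindexing
`Fin n × (Σ i, X i) ≃ Σ i, Fin n × X i`, the block diagonal matrix of the `flat (klm (φ i)) e`; and the class of a
block diagonal matrix (over a finite index type `I`) is the sum of the classes: compare `K1.push_blk`, `cls_pushBd` in
`Pool/Agent/H95/WH/Push.lean`, which do the same for `K₁` (there by induction on the index type / on a finset).
`K0.cls_fromBlocks`, `K0.cls_congr`, `K0.matEquiv_submatrix` are in `Pool/Agent/H71/FJ/K0.lean`. The empty index type has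
class `0` (see `Trans.cls_bd`, case `zero`).
-/

set_option autoImplicit false

open Matrix
open scoped LaurentPolynomial Classical

universe u v w x

namespace Pool.Agent.H95.KF

open Pool.Agent.H71.FJ Pool.Agent.H95.KM

variable {R : Type u} [Ring R] {S : Type v} [Ring S] {T : Type w} [Ring T]
variable {J : Type x} [Fintype J] [DecidableEq J]

private theorem kl_ext {M : Type*} [Ring M] {f g : R[T;T⁻¹] →+* M}
    (h : ∀ k r, f (AddMonoidAlgebra.single k r) = g (AddMonoidAlgebra.single k r)) : f = g := by
  apply RingHom.ext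
  intro x
  induction x using AddMonoidAlgebra.induction_linear with
  | zero => rw [map_zero, map_zero]
  | add x y hx hy => rw [map_add, map_add, hx, hy]
  | single k r => exact h k r

private theorem kp_ext {M : Type*} [Ring M] {f g : Polynomial R →+* M}
    (h : ∀ k r, f (Polynomial.monomial k r) = g (Polynomial.monomial k r)) : f = g := by
  apply RingHom.ext
  intro p
  induction p using Polynomial.induction_on' with
  | add p q hp hq => rw [map_add, map_add, hp, hq]
  | monomial k r => exact h k r

theorem exists_klm (φ : R →+* Matrix J J S) : ∃ ψ : R[T;T⁻¹] →+* Matrix J J S[T;T⁻¹],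
    ∀ k r, ψ (AddMonoidAlgebra.single k r) =
      Matrix.of fun i j => AddMonoidAlgebra.single k (φ r i j) := by
  refine ⟨AddMonoidAlgebra.liftNCRingHom ((cst S).mapMatrix.comp φ)
    (((Matrix.scalar J : S[T;T⁻¹] →+* Matrix J J S[T;T⁻¹]) : S[T;T⁻¹] →* Matrix J J S[T;T⁻¹]).comp
      (AddMonoidAlgebra.of S ℤ))
    (fun r k => by
      change (φ r).map (cst S) * Matrix.scalar J (AddMonoidAlgebra.single k.toAdd 1) =
        Matrix.scalar J (AddMonoidAlgebra.single k.toAdd 1) * (φ r).map (cst S)
      rw [Matrix.scalar_apply]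
      ext1 i j
      rw [Matrix.mul_diagonal, Matrix.diagonal_mul, Matrix.map_apply, cst_apply,
        AddMonoidAlgebra.single_mul_single, AddMonoidAlgebra.single_mul_single, add_zero, zero_add,
        one_mul, mul_one]), fun k r => ?_⟩
  change AddMonoidAlgebra.liftNC _ _ _ = _
  rw [AddMonoidAlgebra.liftNC_single]
  change (φ r).map (cst S) * Matrix.scalar J (AddMonoidAlgebra.single k 1) = _
  rw [Matrix.scalar_apply]
  ext1 i j
  rw [Matrix.mul_diagonal, Matrix.map_apply, cst_apply,
    AddMonoidAlgebra.single_mul_single, zero_add, mul_one, Matrix.of_apply]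

/-- the homomorphism `R[t, t⁻¹] → Mat_J(S[t, t⁻¹])` -/
noncomputable def klm (φ : R →+* Matrix J J S) : R[T;T⁻¹] →+* Matrix J J S[T;T⁻¹] :=
  (exists_klm φ).choose

theorem klm_single (φ : R →+* Matrix J J S) (k : ℤ) (r : R) :
    klm φ (AddMonoidAlgebra.single k r) =
      Matrix.of fun i j => AddMonoidAlgebra.single k (φ r i j) :=
  (exists_klm φ).choose_spec k r

/-- the homomorphism `R[X] → Mat_J(S[X])` -/
private noncomputable def kpm (φ : R →+* Matrix J J S) :
    Polynomial R →+* Matrix J J (Polynomial S) :=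
  Polynomial.eval₂RingHom' ((Polynomial.C : S →+* Polynomial S).mapMatrix.comp φ)
    (Matrix.scalar J Polynomial.X)
    (fun r => by
      change (φ r).map Polynomial.C * Matrix.scalar J Polynomial.X =
        Matrix.scalar J Polynomial.X * (φ r).map Polynomial.C
      rw [Matrix.scalar_apply]
      ext1 i j
      rw [Matrix.mul_diagonal, Matrix.diagonal_mul, Matrix.map_apply, Polynomial.X_mul_C])

private theorem kpm_monomial (φ : R →+* Matrix J J S) (k : ℕ) (r : R) :
    kpm φ (Polynomial.monomial k r) = Matrix.of fun i j => Polynomial.monomial k (φ r i j) := by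
  change Polynomial.eval₂ _ _ _ = _
  rw [Polynomial.eval₂_monomial]
  change (φ r).map Polynomial.C * Matrix.scalar J Polynomial.X ^ k = _
  rw [← map_pow, Matrix.scalar_apply]
  ext1 i j
  rw [Matrix.mul_diagonal, Matrix.map_apply, Matrix.of_apply, Polynomial.C_mul_X_pow_eq_monomial]

private theorem klm_posHom (φ : R →+* Matrix J J S) :
    (klm φ).comp (posHom R) = (posHom S).mapMatrix.comp (kpm φ) := by
  apply kp_ext
  intro k r
  rw [RingHom.comp_apply, RingHom.comp_apply, posHom_monomial, klm_single, kpm_monomial]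
  ext1 i j
  rw [RingHom.mapMatrix_apply, Matrix.map_apply, Matrix.of_apply, Matrix.of_apply, posHom_monomial]

private theorem klm_negHom (φ : R →+* Matrix J J S) :
    (klm φ).comp (negHom R) = (negHom S).mapMatrix.comp (kpm φ) := by
  apply kp_ext
  intro k r
  rw [RingHom.comp_apply, RingHom.comp_apply, negHom_monomial, klm_single, kpm_monomial]
  ext1 i j
  rw [RingHom.mapMatrix_apply, Matrix.map_apply, Matrix.of_apply, Matrix.of_apply, negHom_monomial]

private theorem lau_klm (f : S →+* T) (φ : R →+* Matrix J J S) :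
    (lau f).mapMatrix.comp (klm φ) = klm (f.mapMatrix.comp φ) := by
  apply kl_ext
  intro k r
  rw [RingHom.comp_apply, klm_single, klm_single]
  ext1 i j
  rw [RingHom.mapMatrix_apply, Matrix.map_apply, Matrix.of_apply, Matrix.of_apply, lau_single]
  rfl

theorem exists_kpush (φ : R →+* Matrix J J S) : ∃ f : Km1 R →+ Km1 S,
    ∀ x, f (Km1.mk x) = Km1.mk (K0.push (klm φ) x) :=
  ⟨Km1.lift (Km1.mk.comp (K0.push (klm φ)))
    (fun x => by
      rw [AddMonoidHom.comp_apply, K0.push_map, klm_posHom, ← K0.map_push, Km1.mk_pos])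
    (fun x => by
      rw [AddMonoidHom.comp_apply, K0.push_map, klm_negHom, ← K0.map_push, Km1.mk_neg]),
    fun _ => rfl⟩

/-- the homomorphism `K₋₁(R) → K₋₁(S)` induced by `R → Mat_J(S)` -/
noncomputable def kpush (φ : R →+* Matrix J J S) : Km1 R →+ Km1 S := (exists_kpush φ).choose

theorem kpush_mk (φ : R →+* Matrix J J S) (x : K0 R[T;T⁻¹]) :
    kpush φ (Km1.mk x) = Km1.mk (K0.push (klm φ) x) := (exists_kpush φ).choose_spec x

theorem map_kpush (f : S →+* T) (φ : R →+* Matrix J J S) (x : Km1 R) :
    Km1.map f (kpush φ x) = kpush (f.mapMatrix.comp φ) x := by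
  obtain ⟨y, rfl⟩ := Km1.mk_surjective x
  rw [kpush_mk, kpush_mk, Km1.map_mk, K0.map_push, lau_klm]

private theorem cst_mul_single {ι κ l : Type*} [Fintype κ] (U : Matrix ι κ S) (M : Matrix κ l S)
    (k : ℤ) : U.map (cst S) * (Matrix.of fun i j => AddMonoidAlgebra.single k (M i j)) =
      Matrix.of fun i j => AddMonoidAlgebra.single k ((U * M) i j) := by
  ext1 i j
  rw [Matrix.mul_apply, Matrix.of_apply, Matrix.mul_apply]
  change _ = AddMonoidAlgebra.singleAddHom k (∑ d, U i d * M d j)
  rw [map_sum]
  refine Finset.sum_congr rfl fun d _ => ?_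
  rw [Matrix.map_apply, Matrix.of_apply, cst_apply, AddMonoidAlgebra.single_mul_single, zero_add]
  rfl

private theorem single_mul_cst {ι κ l : Type*} [Fintype κ] (M : Matrix ι κ S) (U : Matrix κ l S)
    (k : ℤ) : (Matrix.of fun i j => AddMonoidAlgebra.single k (M i j)) * U.map (cst S) =
      Matrix.of fun i j => AddMonoidAlgebra.single k ((M * U) i j) := by
  ext1 i j
  rw [Matrix.mul_apply, Matrix.of_apply, Matrix.mul_apply]
  change _ = AddMonoidAlgebra.singleAddHom k (∑ d, M i d * U d j)
  rw [map_sum]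
  refine Finset.sum_congr rfl fun d _ => ?_
  rw [Matrix.map_apply, Matrix.of_apply, cst_apply, AddMonoidAlgebra.single_mul_single, add_zero]
  rfl

theorem kpush_congr {J' : Type*} [Fintype J'] [DecidableEq J'] (φ : R →+* Matrix J J S)
    (ψ : R →+* Matrix J' J' S) (U : Matrix J J' S) (V : Matrix J' J S) (hUV : U * V = 1)
    (hVU : V * U = 1) (h : ∀ r, φ r * U = U * ψ r) (x : Km1 R) : kpush φ x = kpush ψ x := by
  obtain ⟨y, rfl⟩ := Km1.mk_surjective x
  rw [kpush_mk, kpush_mk]
  congr 1
  refine K0.push_congr (klm φ) (klm ψ) (U.map (cst S)) (V.map (cst S)) ?_ ?_ ?_ y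
  · rw [← Matrix.map_mul, hUV, Matrix.map_one _ (map_zero _) (map_one _)]
  · rw [← Matrix.map_mul, hVU, Matrix.map_one _ (map_zero _) (map_one _)]
  · intro r
    induction r using AddMonoidAlgebra.induction_linear with
    | zero => rw [map_zero, map_zero, Matrix.mul_zero, Matrix.zero_mul]
    | add a b ha hb => rw [map_add, map_add, Matrix.mul_add, Matrix.add_mul, ha, hb]
    | single k r => rw [klm_single, klm_single, cst_mul_single, single_mul_cst, h]

/-! ### Block diagonal homomorphisms -/

private theorem kcls_zero {ι : Type*} [Fintype ι] [DecidableEq ι]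
    (h : (0 : Matrix ι ι S) * 0 = 0) : K0.cls (0 : Matrix ι ι S) h = 0 := by
  have h2 : K0.cls (0 : Matrix ι ι S) h + K0.cls (0 : Matrix ι ι S) h = K0.cls 0 h := by
    rw [← K0.cls_fromBlocks]
    apply K0.cls_congr
    refine ⟨0, 0, ?_, ?_⟩
    · rw [Matrix.zero_mul]
      exact Matrix.fromBlocks_zero.symm
    · rw [Matrix.zero_mul]
  simpa using h2

private theorem kcls_eq {ι : Type*} [Fintype ι] [DecidableEq ι] {e f : Matrix ι ι S}
    (he : e * e = e) (hf : f * f = f) (h : e = f) : K0.cls e he = K0.cls f hf := by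
  subst h
  rfl

private theorem kadd_idem {ι : Type*} [Fintype ι] {e f : Matrix ι ι S} (he : e * e = e)
    (hf : f * f = f) (hef : e * f = 0) (hfe : f * e = 0) : (e + f) * (e + f) = e + f := by
  rw [Matrix.add_mul, Matrix.mul_add, Matrix.mul_add, he, hf, hef, hfe, add_zero, zero_add]

/-- the class of a sum of two orthogonal idempotents -/
private theorem kcls_add {ι : Type*} [Fintype ι] [DecidableEq ι] {e f : Matrix ι ι S}
    (he : e * e = e) (hf : f * f = f) (hef : e * f = 0) (hfe : f * e = 0)
    (hs : (e + f) * (e + f) = e + f) : K0.cls (e + f) hs = K0.cls e he + K0.cls f hf := by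
  rw [← K0.cls_fromBlocks]
  apply K0.cls_congr
  apply K0.matEquiv_symm
  refine ⟨Matrix.fromRows e f, Matrix.fromCols e f, ?_, ?_⟩
  · rw [Matrix.fromRows_mul_fromCols, he, hf, hef, hfe]
  · rw [Matrix.fromCols_mul_fromRows, he, hf]

private theorem kcls_sum {ι I : Type*} [Fintype ι] [DecidableEq ι] [DecidableEq I]
    (P : I → Matrix ι ι S) (hP : ∀ i, P i * P i = P i) (hPP : ∀ i j, i ≠ j → P i * P j = 0)
    (s : Finset I) : ∃ h : (∑ i ∈ s, P i) * (∑ i ∈ s, P i) = ∑ i ∈ s, P i,
      K0.cls (∑ i ∈ s, P i) h = ∑ i ∈ s, K0.cls (P i) (hP i) := by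
  induction s using Finset.induction_on with
  | empty =>
    refine ⟨by rw [Finset.sum_empty, Matrix.zero_mul], ?_⟩
    rw [kcls_eq _ (Matrix.zero_mul 0) Finset.sum_empty, kcls_zero, Finset.sum_empty]
  | insert a s ha ih =>
    obtain ⟨h, ih⟩ := ih
    have h1 : P a * ∑ i ∈ s, P i = 0 := by
      rw [Finset.mul_sum]
      exact Finset.sum_eq_zero fun i hi => hPP a i (fun e => ha (e ▸ hi))
    have h2 : (∑ i ∈ s, P i) * P a = 0 := by
      rw [Finset.sum_mul]
      exact Finset.sum_eq_zero fun i hi => hPP i a (fun e => ha (e ▸ hi))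
    have h3 := kadd_idem (hP a) h h1 h2
    have h4 : ∑ i ∈ insert a s, P i = P a + ∑ i ∈ s, P i := Finset.sum_insert ha
    refine ⟨by rw [h4, h3], ?_⟩
    rw [kcls_eq _ h3 h4, kcls_add (hP a) h h1 h2, ih, Finset.sum_insert ha]

section Blk

variable {I : Type*} [Fintype I] [DecidableEq I] {X : I → Type*} [∀ i, Fintype (X i)]
  [∀ i, DecidableEq (X i)]

omit [∀ i, DecidableEq (X i)] in
private theorem kblk_single_mul (e : ∀ i, Matrix (X i) (X i) S) (he : ∀ i, e i * e i = e i)
    (i : I) : blockDiagonal' (Pi.single i (e i)) * blockDiagonal' (Pi.single i (e i)) =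
      blockDiagonal' (Pi.single i (e i)) := by
  rw [← Matrix.blockDiagonal'_mul]
  congr 1
  funext j
  by_cases hij : j = i
  · subst hij
    rw [Pi.single_eq_same, he]
  · rw [Pi.single_eq_of_ne hij, Matrix.zero_mul]

private theorem kcls_single (e : ∀ i, Matrix (X i) (X i) S) (he : ∀ i, e i * e i = e i) (i : I) :
    K0.cls (blockDiagonal' (Pi.single i (e i)) : Matrix (Σ i, X i) (Σ i, X i) S)
      (kblk_single_mul e he i) = K0.cls (e i) (he i) := by
  apply K0.cls_congr
  refine ⟨(blockDiagonal' (Pi.single i (e i))).submatrix id (fun b => (⟨i, b⟩ : Σ i, X i)),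
    (blockDiagonal' (Pi.single i (e i))).submatrix (fun b => (⟨i, b⟩ : Σ i, X i)) id, ?_, ?_⟩
  · ext1 ⟨j, a⟩ ⟨k, b⟩
    rw [Matrix.mul_apply]
    simp only [Matrix.submatrix_apply, id_eq]
    by_cases hj : j = i
    · subst hj
      by_cases hk : j = k
      · subst hk
        simp only [Matrix.blockDiagonal'_apply_eq, Pi.single_eq_same]
        have := congrFun (congrFun (he j) a) b
        rwa [Matrix.mul_apply] at this
      · simp only [Matrix.blockDiagonal'_apply_ne _ _ _ hk, mul_zero, Finset.sum_const_zero]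
    · simp only [Matrix.blockDiagonal'_apply_ne _ _ _ hj, zero_mul, Finset.sum_const_zero]
      by_cases hk : j = k
      · subst hk
        rw [Matrix.blockDiagonal'_apply_eq, Pi.single_eq_of_ne hj]
        rfl
      · rw [Matrix.blockDiagonal'_apply_ne _ _ _ hk]
  · ext1 a b
    rw [Matrix.mul_apply, Fintype.sum_sigma]
    simp only [Matrix.submatrix_apply, id_eq]
    rw [Finset.sum_eq_single i]
    · simp only [Matrix.blockDiagonal'_apply_eq, Pi.single_eq_same]
      have := congrFun (congrFun (he i) a) b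
      rwa [Matrix.mul_apply] at this
    · intro j _ hj
      simp only [Matrix.blockDiagonal'_apply_ne _ _ _ hj, mul_zero, Finset.sum_const_zero]
    · intro h
      exact absurd (Finset.mem_univ _) h

omit [∀ i, Fintype (X i)] [∀ i, DecidableEq (X i)] in
private theorem kblk_sum (e : ∀ i, Matrix (X i) (X i) S) :
    (∑ i, blockDiagonal' (Pi.single i (e i)) : Matrix (Σ i, X i) (Σ i, X i) S) =
      blockDiagonal' e := by
  ext1 ⟨j, a⟩ ⟨k, b⟩
  rw [Matrix.sum_apply]
  by_cases hk : j = k
  · subst hk
    simp only [Matrix.blockDiagonal'_apply_eq]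
    rw [Finset.sum_eq_single j]
    · rw [Pi.single_eq_same]
    · intro i _ hi
      rw [Pi.single_eq_of_ne hi.symm]
      rfl
    · intro h
      exact absurd (Finset.mem_univ _) h
  · simp only [Matrix.blockDiagonal'_apply_ne _ _ _ hk, Finset.sum_const_zero]

private theorem kcls_blk (e : ∀ i, Matrix (X i) (X i) S) (he : ∀ i, e i * e i = e i)
    (hb : (blockDiagonal' e : Matrix (Σ i, X i) (Σ i, X i) S) * blockDiagonal' e =
      blockDiagonal' e) : K0.cls (blockDiagonal' e) hb = ∑ i, K0.cls (e i) (he i) := by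
  obtain ⟨h, h2⟩ := kcls_sum
    (fun i => (blockDiagonal' (Pi.single i (e i)) : Matrix (Σ i, X i) (Σ i, X i) S))
    (fun i => kblk_single_mul e he i) (fun i j hij => by
      rw [← Matrix.blockDiagonal'_mul]
      refine Eq.trans (congrArg _ ?_) Matrix.blockDiagonal'_zero
      funext l
      by_cases hl : l = i
      · subst hl
        rw [Pi.single_eq_of_ne hij, Matrix.mul_zero]
        rfl
      · rw [Pi.single_eq_of_ne hl, Matrix.zero_mul]
        rfl) Finset.univ
  rw [← kcls_eq h hb (kblk_sum e), h2]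
  exact Finset.sum_congr rfl fun i _ => kcls_single e he i

omit [Fintype I] in
private theorem klm_blk [Fintype (Σ i, X i)] [DecidableEq (Σ i, X i)]
    (φ : ∀ i, R →+* Matrix (X i) (X i) S) (ψ : R →+* Matrix (Σ i, X i) (Σ i, X i) S)
    (h : ∀ r, ψ r = blockDiagonal' fun i => φ i r) (r : R[T;T⁻¹]) :
    klm ψ r = blockDiagonal' fun i => klm (φ i) r := by
  induction r using AddMonoidAlgebra.induction_linear with
  | zero =>
    simp only [map_zero]
    exact (Matrix.blockDiagonal'_zero).symm
  | add a b ha hb =>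
    simp only [map_add]
    rw [ha, hb]
    exact (Matrix.blockDiagonal'_add _ _).symm
  | single k r =>
    rw [klm_single]
    ext1 ⟨i, a⟩ ⟨j, b⟩
    rw [Matrix.of_apply, h]
    by_cases hij : i = j
    · subst hij
      rw [Matrix.blockDiagonal'_apply_eq, Matrix.blockDiagonal'_apply_eq, klm_single,
        Matrix.of_apply]
    · rw [Matrix.blockDiagonal'_apply_ne _ _ _ hij, Matrix.blockDiagonal'_apply_ne _ _ _ hij,
        AddMonoidAlgebra.single_zero]

private theorem kpush_blk_aux [Fintype (Σ i, X i)] [DecidableEq (Σ i, X i)]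
    (φ : ∀ i, R →+* Matrix (X i) (X i) S) (ψ : R →+* Matrix (Σ i, X i) (Σ i, X i) S)
    (h : ∀ r, ψ r = blockDiagonal' fun i => φ i r) (x : K0 R) :
    K0.push ψ x = ∑ i, K0.push (φ i) x := by
  have key : K0.push ψ = ∑ i, K0.push (φ i) := by
    apply K0.hom_ext
    intro a
    rw [AddMonoidHom.finsetSum_apply, K0.push_mk]
    simp only [K0.push_mk]
    have hidem : ∀ i, K0.flat (φ i) a.mat * K0.flat (φ i) a.mat = K0.flat (φ i) a.mat :=
      fun i => K0.flat_idem (φ i) a.idem
    have hb : (blockDiagonal' (fun i => K0.flat (φ i) a.mat) :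
        Matrix (Σ i, Fin a.n × X i) (Σ i, Fin a.n × X i) S) *
          blockDiagonal' (fun i => K0.flat (φ i) a.mat) =
          blockDiagonal' (fun i => K0.flat (φ i) a.mat) := by
      rw [← Matrix.blockDiagonal'_mul]
      exact congrArg _ (funext hidem)
    rw [← kcls_blk (X := fun i => Fin a.n × X i) (fun i => K0.flat (φ i) a.mat) hidem hb]
    let e : (Σ i, Fin a.n × X i) ≃ Fin a.n × (Σ i, X i) :=
      { toFun := fun y => (y.2.1, ⟨y.1, y.2.2⟩)
        invFun := fun x => ⟨x.2.1, (x.1, x.2.2)⟩
        left_inv := fun x => rfl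
        right_inv := fun x => rfl }
    have he : (blockDiagonal' (fun i => K0.flat (φ i) a.mat) :
        Matrix (Σ i, Fin a.n × X i) (Σ i, Fin a.n × X i) S) =
          (K0.flat ψ a.mat).submatrix e e := by
      ext1 ⟨i, p, c⟩ ⟨j, q, d⟩
      change _ = ψ (a.mat p q) ⟨i, c⟩ ⟨j, d⟩
      rw [h]
      by_cases hij : i = j
      · subst hij
        rw [Matrix.blockDiagonal'_apply_eq, Matrix.blockDiagonal'_apply_eq]
        rfl
      · rw [Matrix.blockDiagonal'_apply_ne _ _ _ hij, Matrix.blockDiagonal'_apply_ne _ _ _ hij]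
    apply K0.cls_congr
    apply K0.matEquiv_symm
    rw [he]
    exact K0.matEquiv_submatrix _ (K0.flat_idem ψ a.idem) e
  rw [key, AddMonoidHom.finsetSum_apply]

end Blk

theorem kpush_blk {I : Type*} [Fintype I] [DecidableEq I] {X : I → Type*} [∀ i, Fintype (X i)]
    [∀ i, DecidableEq (X i)] [Fintype (Σ i, X i)] [DecidableEq (Σ i, X i)]
    (φ : ∀ i, R →+* Matrix (X i) (X i) S) (ψ : R →+* Matrix (Σ i, X i) (Σ i, X i) S)
    (h : ∀ r, ψ r = blockDiagonal' fun i => φ i r) (x : Km1 R) :
    kpush ψ x = ∑ i, kpush (φ i) x := by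
  obtain ⟨y, rfl⟩ := Km1.mk_surjective x
  rw [kpush_mk, kpush_blk_aux (fun i => klm (φ i)) (klm ψ) (klm_blk φ ψ h), map_sum]
  exact Finset.sum_congr rfl fun i _ => (kpush_mk (φ i) y).symm

end Pool.Agent.H95.KF

end
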