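import Pool.Agent.H13.TFQ.H71.FJ.Group
import Pool.Agent.H13.TFQ.M04
import Pool.Agent.H13.TFQ.M22
import Pool.Agent.H13.TFQ.M81
import Pool.Agent.H13.TFQ.M86

/-! The parts of this file: H95.KF.PushF, H95.KF.Smi, H95.KF.PushF_1, H95.KF.Art. -/

section

/-!
# The permutation representations and `K₋₁` of group rings

## Paper proofs

`kpush_tw_top`: `F ⧸ ⊤` is a one-element type; see `push_tw_topR` in `Pool/Agent/H95/WH/PushR.lean` (the same for `K₁`).
Alternatively: `kpush_congr` to the homomorphism `R[F] → Mat_{Fin 1}` or directly: for `x = Km1.mk (K0.mk a)`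
(`Km1.mk_surjective`, `K0.hom_ext` or `K0.exists_sub`), `flat (klm (twR ..)) a.mat` is the reindexed matrix `a.mat`
(`klm_single`, all entries of `twR R (F ⧸ ⊤) r` are `r`), `K0.matEquiv_submatrix`.
`kpush_tw_inter`: `kpush φ - kpush ψ` is additive, so it suffices to treat `x = Km1.mk (K0.mk e)` (`Km1.hom_ext`, `K0.hom_ext`),
`e` an `n × n` idempotent matrix over `R[F][t, t⁻¹]`. `K0.push_mk`: the classes of `E = flat (klm (twR R X)) e` (index
`Fin n × X`) and `E' = flat (klm (twR R Y)) e` (index `Fin n × Y`). With `a' ((i, x), (j, y)) = if i = j then a x y else 0`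
and `b'` likewise (`kroneckerMap`, or `Matrix.blockDiagonal`-like), `a' b' = n`, `b' a' = n`, and `E a' = a' E'`: entrywise this
is `klm (twR R X) r * a = a * klm (twR R Y) r` for `r` in `R[F][t, t⁻¹]`, which may be checked on `single k (single h c)` and
is there `twR_inter` of `Pool/Agent/H95/WH/ArtKR.lean`. Apply `mk_inter` (module Smi). (The index types of `mk_inter` must be
in the same universe: `Fin n × X` and `Fin n × Y` are in `Type v`.)
-/

set_option autoImplicit false

open Matrix
open scoped LaurentPolynomial Classical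

universe u v w

namespace Pool.Agent.H95.KF

open Pool.Agent.H71.FJ (lamR twR incl K0 tw lam tw_single lam_single out_mem_iff)
open Pool.Agent.H95.KM

variable {F : Type v} [Group F] (R : Type u) [CommRing R]

theorem kpush_tw_sigma {I : Type} [Fintype I] (D : I → Subgroup F) [∀ i, Fintype (F ⧸ D i)]
    [Fintype (Σ i, F ⧸ D i)] [DecidableEq (Σ i, F ⧸ D i)] (x : Km1 (MonoidAlgebra R F)) :
    kpush (twR R (Σ i, F ⧸ D i)) x = ∑ i, kpush (twR R (F ⧸ D i)) x := by
  apply kpush_blk
  intro r
  induction r using MonoidAlgebra.induction_linear with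
  | zero =>
    simp only [map_zero]
    exact (Matrix.blockDiagonal'_zero).symm
  | add a b ha hb =>
    simp only [map_add]
    rw [ha, hb]
    exact (Matrix.blockDiagonal'_add _ _).symm
  | single h r =>
    ext ⟨i, x⟩ ⟨j, y⟩ : 1
    change tw R (Σ i, F ⧸ D i) (MonoidAlgebra.single h r) ⟨i, x⟩ ⟨j, y⟩ = _
    rw [tw_single]
    by_cases hij : i = j
    · subst hij
      rw [Matrix.blockDiagonal'_apply_eq]
      change _ = tw R (F ⧸ D i) (MonoidAlgebra.single h r) x y
      rw [tw_single]
      by_cases hxy : x = h • y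
      · rw [if_pos hxy, if_pos]
        rw [hxy]
        rfl
      · rw [if_neg hxy, if_neg]
        intro e
        apply hxy
        have e2 : (⟨i, x⟩ : Σ i, F ⧸ D i) = ⟨i, h • y⟩ := e
        exact eq_of_heq (Sigma.mk.inj e2).2
    · rw [Matrix.blockDiagonal'_apply_ne _ _ _ hij, if_neg]
      intro e
      exact hij (congrArg Sigma.fst e)

theorem ind_kres (D : Subgroup F) [Fintype (F ⧸ D)] (x : Km1 (MonoidAlgebra R F)) :
    Km1.map (incl R D) (kpush (lamR R D) x) = kpush (twR R (F ⧸ D)) x := by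
  rw [map_kpush]
  symm
  refine kpush_congr _ _ (diagonal fun x : F ⧸ D => MonoidAlgebra.single x.out (1 : R))
    (diagonal fun x : F ⧸ D => MonoidAlgebra.single x.out⁻¹ (1 : R)) ?_ ?_ ?_ x
  · rw [diagonal_mul_diagonal]
    simp only [MonoidAlgebra.single_mul_single, mul_inv_cancel, one_mul, ← MonoidAlgebra.one_def]
    exact diagonal_one
  · rw [diagonal_mul_diagonal]
    simp only [MonoidAlgebra.single_mul_single, inv_mul_cancel, one_mul, ← MonoidAlgebra.one_def]
    exact diagonal_one
  · intro r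
    induction r using MonoidAlgebra.induction_linear with
    | zero => simp
    | add a b ha hb => rw [map_add, map_add, Matrix.mul_add, Matrix.add_mul, ha, hb]
    | single h r =>
      ext x y : 1
      rw [Matrix.diagonal_mul, Matrix.mul_diagonal]
      change tw R (F ⧸ D) (MonoidAlgebra.single h r) x y * _ =
        _ * (incl R D) (lam R D (MonoidAlgebra.single h r) x y)
      rw [lam_single, tw_single]
      by_cases hh : x.out⁻¹ * h * y.out ∈ D
      · rw [dif_pos hh, if_pos ((out_mem_iff D h x y).1 hh)]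
        simp only [incl, MonoidAlgebra.mapDomainRingHom_apply, MonoidAlgebra.mapDomain_single,
          MonoidAlgebra.single_mul_single, Subgroup.coe_subtype, one_mul, mul_one]
        congr 1
        group
      · rw [dif_neg hh, if_neg (fun h' => hh ((out_mem_iff D h x y).2 h')), map_zero, mul_zero,
          zero_mul]

private theorem klm_tw_top_apply [Fintype (F ⧸ (⊤ : Subgroup F))]
    (z : (MonoidAlgebra R F)[T;T⁻¹]) (x y : F ⧸ (⊤ : Subgroup F)) :
    klm (twR R (F ⧸ (⊤ : Subgroup F))) z x y = z := by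
  have hsub : Subsingleton (F ⧸ (⊤ : Subgroup F)) := QuotientGroup.subsingleton_quotient_top
  have hval : ∀ (r : MonoidAlgebra R F), twR R (F ⧸ (⊤ : Subgroup F)) r x y = r := by
    intro r
    induction r using MonoidAlgebra.induction_linear with
    | zero => rw [map_zero]; rfl
    | add a b ha hb => rw [map_add, Matrix.add_apply, ha, hb]
    | single h r =>
      change tw R (F ⧸ (⊤ : Subgroup F)) (MonoidAlgebra.single h r) x y = _
      rw [tw_single, if_pos (Subsingleton.elim _ _)]
  induction z using AddMonoidAlgebra.induction_linear with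
  | zero => rw [map_zero]; rfl
  | add a b ha hb => rw [map_add, Matrix.add_apply, ha, hb]
  | single k r => rw [klm_single, Matrix.of_apply, hval]

/-- The permutation matrices are intertwined by the equivariant integral matrices. -/
private theorem twR_inter_kf {X Y : Type v} [Fintype X] [Fintype Y] [DecidableEq X]
    [DecidableEq Y] [MulAction F X] [MulAction F Y]
    (a : Matrix X Y ℤ) (ha : ∀ (h : F) x y, a (h • x) (h • y) = a x y)
    (r : MonoidAlgebra R F) :
    twR R X r * a.map (Int.castRingHom (MonoidAlgebra R F)) =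
      a.map (Int.castRingHom (MonoidAlgebra R F)) * twR R Y r := by
  induction r using MonoidAlgebra.induction_linear with
  | zero => rw [map_zero, map_zero, Matrix.zero_mul, Matrix.mul_zero]
  | add s t hs ht => rw [map_add, map_add, Matrix.add_mul, Matrix.mul_add, hs, ht]
  | single h r =>
    refine Matrix.ext fun x y => ?_
    rw [Matrix.mul_apply, Matrix.mul_apply]
    have e1 : ∀ z : X, twR R X (MonoidAlgebra.single h r) x z =
        if x = h • z then MonoidAlgebra.single h r else 0 := fun z => tw_single R X h r x z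
    have e2 : ∀ z : Y, twR R Y (MonoidAlgebra.single h r) z y =
        if z = h • y then MonoidAlgebra.single h r else 0 := fun z => tw_single R Y h r z y
    rw [Finset.sum_eq_single (h⁻¹ • x), Finset.sum_eq_single (h • y)]
    · rw [e1, e2, if_pos rfl, if_pos (smul_inv_smul h x).symm, Matrix.map_apply, Matrix.map_apply,
        ← ha h (h⁻¹ • x) y, smul_inv_smul]
      change _ * ((a x (h • y) : ℤ) : MonoidAlgebra R F) =
        ((a x (h • y) : ℤ) : MonoidAlgebra R F) * _
      exact (Int.cast_commute _ _).symm.eq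
    · intro z _ hz
      rw [e2, if_neg hz, mul_zero]
    · intro hz
      exact absurd (Finset.mem_univ _) hz
    · intro z _ hz
      rw [e1, if_neg, zero_mul]
      intro e
      exact hz (by rw [e, inv_smul_smul])
    · intro hz
      exact absurd (Finset.mem_univ _) hz

private theorem single_mul_int {A : Type*} [Ring A] (k : ℤ) (s : A) (m : ℤ) :
    (AddMonoidAlgebra.single k s : A[T;T⁻¹]) * (Int.castRingHom A[T;T⁻¹] m) =
      AddMonoidAlgebra.single k (s * Int.castRingHom A m) := by
  rw [eq_intCast, eq_intCast, ← zsmul_eq_mul', ← zsmul_eq_mul']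
  exact (map_zsmul (AddMonoidAlgebra.singleAddHom k : A →+ A[T;T⁻¹]) m s).symm

private theorem int_mul_single {A : Type*} [Ring A] (k : ℤ) (s : A) (m : ℤ) :
    (Int.castRingHom A[T;T⁻¹] m) * (AddMonoidAlgebra.single k s : A[T;T⁻¹]) =
      AddMonoidAlgebra.single k (Int.castRingHom A m * s) := by
  rw [eq_intCast, eq_intCast, ← zsmul_eq_mul, ← zsmul_eq_mul]
  exact (map_zsmul (AddMonoidAlgebra.singleAddHom k : A →+ A[T;T⁻¹]) m s).symm

private theorem klm_tw_inter {X Y : Type v} [Fintype X] [Fintype Y] [DecidableEq X]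
    [DecidableEq Y] [MulAction F X] [MulAction F Y]
    (a : Matrix X Y ℤ) (ha : ∀ (h : F) x y, a (h • x) (h • y) = a x y)
    (z : (MonoidAlgebra R F)[T;T⁻¹]) :
    klm (twR R X) z * a.map (Int.castRingHom (MonoidAlgebra R F)[T;T⁻¹]) =
      a.map (Int.castRingHom (MonoidAlgebra R F)[T;T⁻¹]) * klm (twR R Y) z := by
  induction z using AddMonoidAlgebra.induction_linear with
  | zero => rw [map_zero, map_zero, Matrix.zero_mul, Matrix.mul_zero]
  | add s t hs ht => rw [map_add, map_add, Matrix.add_mul, Matrix.mul_add, hs, ht]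
  | single k r =>
    rw [klm_single, klm_single]
    refine Matrix.ext fun x y => ?_
    have h := congrArg (fun M : Matrix X Y (MonoidAlgebra R F) => M x y) (twR_inter_kf R a ha r)
    simp only [Matrix.mul_apply, Matrix.map_apply] at h
    simp only [Matrix.mul_apply, Matrix.map_apply, Matrix.of_apply, single_mul_int,
      int_mul_single]
    have h3 := congrArg (AddMonoidAlgebra.singleAddHom k :
      MonoidAlgebra R F →+ (MonoidAlgebra R F)[T;T⁻¹]) h
    rw [map_sum, map_sum] at h3
    exact h3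

/-- Block diagonal matrix with equal blocks. -/
def bdInt {X Y : Type v} (m : ℕ) (a : Matrix X Y ℤ) : Matrix (Fin m × X) (Fin m × Y) ℤ :=
  Matrix.of fun p q => if p.1 = q.1 then a p.2 q.2 else 0

theorem bdInt_mul {X Y Z : Type v} [Fintype Y] (m : ℕ) (a : Matrix X Y ℤ)
    (b : Matrix Y Z ℤ) : bdInt m a * bdInt m b = bdInt m (a * b) := by
  refine Matrix.ext fun p q => ?_
  obtain ⟨i, x⟩ := p
  obtain ⟨j, y⟩ := q
  rw [Matrix.mul_apply, Fintype.sum_prod_type]
  simp only [bdInt, Matrix.of_apply]
  rw [Finset.sum_eq_single i]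
  · by_cases hij : i = j
    · simp only [hij, if_true, Matrix.mul_apply]
    · simp only [if_neg hij, mul_zero, Finset.sum_const_zero]
  · intro k _ hk
    simp only [if_neg (Ne.symm hk), zero_mul, Finset.sum_const_zero]
  · intro h
    exact absurd (Finset.mem_univ _) h

theorem bdInt_smul_one {X : Type v} [DecidableEq X] (m : ℕ) (c : ℤ) :
    bdInt m (c • (1 : Matrix X X ℤ)) = c • (1 : Matrix (Fin m × X) (Fin m × X) ℤ) := by
  refine Matrix.ext fun p q => ?_
  obtain ⟨i, x⟩ := p
  obtain ⟨j, y⟩ := q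
  simp only [bdInt, Matrix.of_apply, Matrix.smul_apply]
  by_cases hij : i = j
  · subst hij
    rw [if_pos rfl]
    by_cases hxy : x = y
    · subst hxy
      rw [Matrix.one_apply_eq, Matrix.one_apply_eq]
    · rw [Matrix.one_apply_ne hxy, Matrix.one_apply_ne]
      intro h
      exact hxy (Prod.mk.inj h).2
  · rw [if_neg hij, Matrix.one_apply_ne, smul_zero]
    intro h
    exact hij (Prod.mk.inj h).1

theorem flat_klm_tw_inter {X Y : Type v} [Fintype X] [Fintype Y] [DecidableEq X]
    [DecidableEq Y] [MulAction F X] [MulAction F Y]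
    (a : Matrix X Y ℤ) (ha : ∀ (h : F) x y, a (h • x) (h • y) = a x y) {m : ℕ}
    (e : Matrix (Fin m) (Fin m) (MonoidAlgebra R F)[T;T⁻¹]) :
    K0.flat (klm (twR R X)) e * (bdInt m a).map (Int.castRingHom (MonoidAlgebra R F)[T;T⁻¹]) =
      (bdInt m a).map (Int.castRingHom (MonoidAlgebra R F)[T;T⁻¹]) *
        K0.flat (klm (twR R Y)) e := by
  refine Matrix.ext fun p q => ?_
  obtain ⟨i, x⟩ := p
  obtain ⟨j, y⟩ := q
  have h := congrArg (fun M : Matrix X Y (MonoidAlgebra R F)[T;T⁻¹] => M x y)
    (klm_tw_inter R a ha (e i j))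
  simp only [Matrix.mul_apply, Matrix.map_apply] at h
  rw [Matrix.mul_apply, Matrix.mul_apply, Fintype.sum_prod_type, Fintype.sum_prod_type]
  simp only [K0.flat, bdInt, Matrix.map_apply, Matrix.of_apply]
  rw [Finset.sum_eq_single j, Finset.sum_eq_single i]
  · simp only [if_true]
    exact h
  · intro k _ hk
    simp only [if_neg (Ne.symm hk), map_zero, zero_mul, Finset.sum_const_zero]
  · intro h
    exact absurd (Finset.mem_univ _) h
  · intro k _ hk
    simp only [if_neg hk, map_zero, mul_zero, Finset.sum_const_zero]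
  · intro h
    exact absurd (Finset.mem_univ _) h

theorem kpush_tw_top [Fintype (F ⧸ (⊤ : Subgroup F))] (x : Km1 (MonoidAlgebra R F)) :
    kpush (twR R (F ⧸ (⊤ : Subgroup F))) x = x := by
  obtain ⟨y, rfl⟩ := Km1.mk_surjective x
  rw [kpush_mk]
  refine congrArg (fun z => Km1.mk z) ?_
  have key : (K0.push (klm (twR R (F ⧸ (⊤ : Subgroup F)))) :
      K0 (MonoidAlgebra R F)[T;T⁻¹] →+ K0 (MonoidAlgebra R F)[T;T⁻¹]) = AddMonoidHom.id _ := by
    apply K0.hom_ext
    intro a
    rw [K0.push_mk, AddMonoidHom.id_apply, K0.mk_eq_cls]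
    apply K0.cls_congr
    have hsub : Subsingleton (F ⧸ (⊤ : Subgroup F)) := QuotientGroup.subsingleton_quotient_top
    let u0 : F ⧸ (⊤ : Subgroup F) := ((1 : F) : F ⧸ (⊤ : Subgroup F))
    let e : Fin a.n × (F ⧸ (⊤ : Subgroup F)) ≃ Fin a.n :=
      { toFun := Prod.fst
        invFun := fun i => (i, u0)
        left_inv := fun x => Prod.ext rfl (Subsingleton.elim _ _)
        right_inv := fun i => rfl }
    have h : K0.flat (klm (twR R (F ⧸ (⊤ : Subgroup F)))) a.mat = a.mat.submatrix e e := by
      refine Matrix.ext fun i j => ?_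
      exact klm_tw_top_apply R _ _ _
    rw [h]
    exact K0.matEquiv_submatrix _ a.idem e
  rw [key]
  rfl

end Pool.Agent.H95.KF

end

section

/-!
# Project KF, module Smi: idempotent matrices intertwined by an integral matrix

## Paper proof

`exists_smn` (`Pool/Agent/H95/WH/SmN.lean`): `P, P', Q, Q', d` with `P P' = 1 = P' P`, `Q Q' = 1`, `Q' Q = 1`, `a Q = P diag(d)`,
`d i ≠ 0`. Denote images of the integral matrices in `A = R[t, t⁻¹]` by the same letters.
`E₁ := P' E P`, `E₁' := Q' E' Q`, both `X × X`; idempotent (`E₁ E₁ = P' E P P' E P = P' E P`), `MatEquiv E E₁`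
(`E = (E P) (P' E)`, `(P' E) (E P) = E₁`), `MatEquiv E' E₁'`.
`E₁ diag(d) = P' E P diag(d) = P' E a Q = P' a E' Q = P' a Q Q' E' Q = P' P diag(d) Q' E' Q = diag(d) E₁'`.
`mk_diagonal` gives `mk [E₁] = mk [E₁']`.
(`Matrix.map_mul` for `Int.castRingHom A`; `diagonal d` maps to `diagonal (fun i => (d i : A))`.)
-/

set_option autoImplicit false

open Matrix
open scoped LaurentPolynomial

universe u v w

namespace Pool.Agent.H95.KF

open Pool.Agent.H71.FJ Pool.Agent.H95.KM

theorem mk_inter {R : Type u} [Ring R] (hR : FinMod R) {X Y : Type v} [Fintype X] [Fintype Y]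
    [DecidableEq X] [DecidableEq Y] (n : ℕ) (hn : n ≠ 0) (a : Matrix X Y ℤ) (b : Matrix Y X ℤ)
    (hab : a * b = (n : ℤ) • (1 : Matrix X X ℤ)) (hba : b * a = (n : ℤ) • (1 : Matrix Y Y ℤ))
    (E : Matrix X X R[T;T⁻¹]) (E' : Matrix Y Y R[T;T⁻¹]) (hE : E * E = E) (hE' : E' * E' = E')
    (h : E * a.map (Int.castRingHom R[T;T⁻¹]) = a.map (Int.castRingHom R[T;T⁻¹]) * E') :
    Km1.mk (K0.cls E hE) = Km1.mk (K0.cls E' hE') := by
  obtain ⟨P, P', Q, Q', d, hPP', hP'P, hQQ', hQ'Q, haQ, hd⟩ :=
    Pool.Agent.H95.WH.exists_smn n hn a b hab hba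
  let φ : ℤ →+* R[T;T⁻¹] := Int.castRingHom R[T;T⁻¹]
  have m1 : P.map φ * P'.map φ = 1 := by
    rw [← Matrix.map_mul, hPP', Matrix.map_one φ (map_zero φ) (map_one φ)]
  have m2 : P'.map φ * P.map φ = 1 := by
    rw [← Matrix.map_mul, hP'P, Matrix.map_one φ (map_zero φ) (map_one φ)]
  have m3 : Q.map φ * Q'.map φ = 1 := by
    rw [← Matrix.map_mul, hQQ', Matrix.map_one φ (map_zero φ) (map_one φ)]
  have m5 : a.map φ * Q.map φ = P.map φ * diagonal (fun i => (d i : R[T;T⁻¹])) := by
    rw [← Matrix.map_mul, haQ, Matrix.map_mul, diagonal_map (map_zero φ)]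
    rfl
  have h' : E * a.map φ = a.map φ * E' := h
  have e1 : (P'.map φ * E * P.map φ) * (P'.map φ * E * P.map φ) = P'.map φ * E * P.map φ := by
    calc (P'.map φ * E * P.map φ) * (P'.map φ * E * P.map φ)
        = P'.map φ * E * (P.map φ * P'.map φ) * E * P.map φ := by simp only [Matrix.mul_assoc]
      _ = P'.map φ * (E * E) * P.map φ := by rw [m1, Matrix.mul_one]; simp only [Matrix.mul_assoc]
      _ = P'.map φ * E * P.map φ := by rw [hE]
  have e2 : (Q'.map φ * E' * Q.map φ) * (Q'.map φ * E' * Q.map φ) = Q'.map φ * E' * Q.map φ := by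
    calc (Q'.map φ * E' * Q.map φ) * (Q'.map φ * E' * Q.map φ)
        = Q'.map φ * E' * (Q.map φ * Q'.map φ) * E' * Q.map φ := by simp only [Matrix.mul_assoc]
      _ = Q'.map φ * (E' * E') * Q.map φ := by rw [m3, Matrix.mul_one]; simp only [Matrix.mul_assoc]
      _ = Q'.map φ * E' * Q.map φ := by rw [hE']
  have q1 : MatEquiv E (P'.map φ * E * P.map φ) := by
    refine ⟨E * P.map φ, P'.map φ * E, ?_, ?_⟩
    · calc E * P.map φ * (P'.map φ * E) = E * (P.map φ * P'.map φ) * E := by
            simp only [Matrix.mul_assoc]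
        _ = E := by rw [m1, Matrix.mul_one, hE]
    · calc P'.map φ * E * (E * P.map φ) = P'.map φ * (E * E) * P.map φ := by
            simp only [Matrix.mul_assoc]
        _ = P'.map φ * E * P.map φ := by rw [hE]
  have q2 : MatEquiv E' (Q'.map φ * E' * Q.map φ) := by
    refine ⟨E' * Q.map φ, Q'.map φ * E', ?_, ?_⟩
    · calc E' * Q.map φ * (Q'.map φ * E') = E' * (Q.map φ * Q'.map φ) * E' := by
            simp only [Matrix.mul_assoc]
        _ = E' := by rw [m3, Matrix.mul_one, hE']
    · calc Q'.map φ * E' * (E' * Q.map φ) = Q'.map φ * (E' * E') * Q.map φ := by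
            simp only [Matrix.mul_assoc]
        _ = Q'.map φ * E' * Q.map φ := by rw [hE']
  have key : (P'.map φ * E * P.map φ) * diagonal (fun i => (d i : R[T;T⁻¹])) =
      diagonal (fun i => (d i : R[T;T⁻¹])) * (Q'.map φ * E' * Q.map φ) := by
    calc (P'.map φ * E * P.map φ) * diagonal (fun i => (d i : R[T;T⁻¹]))
        = P'.map φ * E * (P.map φ * diagonal (fun i => (d i : R[T;T⁻¹]))) := by
          simp only [Matrix.mul_assoc]
      _ = P'.map φ * E * (a.map φ * Q.map φ) := by rw [m5]
      _ = P'.map φ * (E * a.map φ) * Q.map φ := by simp only [Matrix.mul_assoc]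
      _ = P'.map φ * (a.map φ * E') * Q.map φ := by rw [h']
      _ = P'.map φ * (a.map φ * (Q.map φ * Q'.map φ) * E') * Q.map φ := by
          rw [m3, Matrix.mul_one]
      _ = P'.map φ * (a.map φ * Q.map φ) * (Q'.map φ * E' * Q.map φ) := by
          simp only [Matrix.mul_assoc]
      _ = P'.map φ * (P.map φ * diagonal (fun i => (d i : R[T;T⁻¹]))) *
          (Q'.map φ * E' * Q.map φ) := by rw [m5]
      _ = (P'.map φ * P.map φ) * diagonal (fun i => (d i : R[T;T⁻¹])) *
          (Q'.map φ * E' * Q.map φ) := by simp only [Matrix.mul_assoc]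
      _ = diagonal (fun i => (d i : R[T;T⁻¹])) * (Q'.map φ * E' * Q.map φ) := by
          rw [m2, Matrix.one_mul]
  rw [K0.cls_congr hE e1 q1, K0.cls_congr hE' e2 q2]
  exact mk_diagonal hR d hd _ _ e1 e2 key

end Pool.Agent.H95.KF

end

section

/-!
# The permutation representations and `K₋₁` of group rings

## Paper proofs

`kpush_tw_top`: `F ⧸ ⊤` is a one-element type; see `push_tw_topR` in `Pool/Agent/H95/WH/PushR.lean` (the same for `K₁`).
Alternatively: `kpush_congr` to the homomorphism `R[F] → Mat_{Fin 1}` or directly: for `x = Km1.mk (K0.mk a)`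
(`Km1.mk_surjective`, `K0.hom_ext` or `K0.exists_sub`), `flat (klm (twR ..)) a.mat` is the reindexed matrix `a.mat`
(`klm_single`, all entries of `twR R (F ⧸ ⊤) r` are `r`), `K0.matEquiv_submatrix`.
`kpush_tw_inter`: `kpush φ - kpush ψ` is additive, so it suffices to treat `x = Km1.mk (K0.mk e)` (`Km1.hom_ext`, `K0.hom_ext`),
`e` an `n × n` idempotent matrix over `R[F][t, t⁻¹]`. `K0.push_mk`: the classes of `E = flat (klm (twR R X)) e` (index
`Fin n × X`) and `E' = flat (klm (twR R Y)) e` (index `Fin n × Y`). With `a' ((i, x), (j, y)) = if i = j then a x y else 0`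
and `b'` likewise (`kroneckerMap`, or `Matrix.blockDiagonal`-like), `a' b' = n`, `b' a' = n`, and `E a' = a' E'`: entrywise this
is `klm (twR R X) r * a = a * klm (twR R Y) r` for `r` in `R[F][t, t⁻¹]`, which may be checked on `single k (single h c)` and
is there `twR_inter` of `Pool/Agent/H95/WH/ArtKR.lean`. Apply `mk_inter` (module Smi). (The index types of `mk_inter` must be
in the same universe: `Fin n × X` and `Fin n × Y` are in `Type v`.)
-/

set_option autoImplicit false

open Matrix
open scoped LaurentPolynomial Classical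

universe u v w

namespace Pool.Agent.H95.KF

open Pool.Agent.H71.FJ (lamR twR incl K0 tw lam tw_single lam_single out_mem_iff)
open Pool.Agent.H95.KM

variable {F : Type v} [Group F] (R : Type u) [CommRing R]

theorem kpush_tw_inter (hR : FinMod (MonoidAlgebra R F)) {X Y : Type v} [Fintype X] [Fintype Y] [DecidableEq X] [DecidableEq Y]
    [MulAction F X] [MulAction F Y] (n : ℕ) (hn : n ≠ 0) (a : Matrix X Y ℤ) (b : Matrix Y X ℤ)
    (hab : a * b = (n : ℤ) • (1 : Matrix X X ℤ)) (hba : b * a = (n : ℤ) • (1 : Matrix Y Y ℤ))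
    (ha : ∀ (h : F) x y, a (h • x) (h • y) = a x y) (x : Km1 (MonoidAlgebra R F)) :
    kpush (twR R X) x = kpush (twR R Y) x := by
  have key : (kpush (twR R X) : Km1 (MonoidAlgebra R F) →+ Km1 (MonoidAlgebra R F)) =
      kpush (twR R Y) := by
    apply Km1.hom_ext
    intro y
    rw [kpush_mk, kpush_mk]
    have h2 : (Km1.mk.comp (K0.push (klm (twR R X))) :
        K0 (MonoidAlgebra R F)[T;T⁻¹] →+ Km1 (MonoidAlgebra R F)) =
        Km1.mk.comp (K0.push (klm (twR R Y))) := by
      apply K0.hom_ext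
      intro e
      rw [AddMonoidHom.comp_apply, AddMonoidHom.comp_apply, K0.push_mk, K0.push_mk]
      refine mk_inter hR n hn (bdInt e.n a) (bdInt e.n b) ?_ ?_ _ _ _ _ ?_
      · rw [bdInt_mul, hab, bdInt_smul_one]
      · rw [bdInt_mul, hba, bdInt_smul_one]
      · exact flat_klm_tw_inter R a ha e.mat
    exact DFunLike.congr_fun h2 y
  rw [key]

end Pool.Agent.H95.KF

end

section

/-!
# Artin induction for `K₋₁(R[F])`
-/

set_option autoImplicit false

open Matrix
open scoped LaurentPolynomial Classical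

universe u v w

namespace Pool.Agent.H95.KF

open Pool.Agent.H71.FJ (lamR twR incl)
open Pool.Agent.H95.KM Pool.Agent.H95.WH

variable (R : Type u) [CommRing R] (F : Type v) [Group F]

/-- Families indexed by a finite type. -/
private theorem kart_enum {K : Type} [Fintype K] (D : K → Subgroup F)
    (y : ∀ i, Km1 (MonoidAlgebra R (D i))) (hD : ∀ i, IsCyclic (D i)) (z : Km1 (MonoidAlgebra R F))
    (hz : z = ∑ i, Km1.map (incl R (D i)) (y i)) :
    ∃ (r : ℕ) (D : Fin r → Subgroup F) (y : ∀ i, Km1 (MonoidAlgebra R (D i))),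
      (∀ i, IsCyclic (D i)) ∧ z = ∑ i, Km1.map (incl R (D i)) (y i) :=
  ⟨Fintype.card K, fun i => D ((Fintype.equivFin K).symm i),
    fun i => y ((Fintype.equivFin K).symm i), fun i => hD _, by
      rw [hz]
      exact (Equiv.sum_comp (Fintype.equivFin K).symm
        (fun i => Km1.map (incl R (D i)) (y i))).symm⟩

/-- the relation for the permutation modules -/
private theorem kart_rel [Finite F] (hR : FinMod (MonoidAlgebra R F))
    (x : Km1 (MonoidAlgebra R F)) :
    ∃ (I J : Type) (_ : Fintype I) (_ : Fintype J) (D : I → Subgroup F) (E : J → Subgroup F)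
      (_ : ∀ i, Fintype (F ⧸ D i)) (_ : ∀ j, Fintype (F ⧸ E j)),
      (∀ i, IsCyclic (D i)) ∧ (∀ j, IsCyclic (E j)) ∧
      Nat.card F • x + ∑ i : I, kpush (twR R (F ⧸ D i)) x =
        ∑ j : J, kpush (twR R (F ⧸ E j)) x := by
  obtain ⟨I, J, hI, hJ, D, E, hf1, hf2, a, b, n, hD, hE, hn, hab, hba, ha⟩ := exists_artin_rel F
  have hfD : ∀ H : Subgroup F, Fintype (F ⧸ H) := fun H => Fintype.ofFinite _
  have key := kpush_tw_inter R hR n hn a b hab hba ha x
  refine ⟨I, J, hI, hJ, D, E, fun _ => hfD _, fun _ => hfD _, hD, hE, ?_⟩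
  rw [kpush_tw_sigma R (fun i : Fin (Nat.card F) ⊕ I => (Sum.elim (fun _ => ⊤) D i : Subgroup F)),
    kpush_tw_sigma R E, Fintype.sum_sum_type] at key
  have h1 : ∑ i : Fin (Nat.card F), kpush (twR R (F ⧸ (⊤ : Subgroup F))) x = Nat.card F • x := by
    rw [Finset.sum_const, Finset.card_univ, Fintype.card_fin, kpush_tw_top]
  rw [← h1]
  exact key

/-- **Artin induction** for `K₋₁(R[F])`. -/
theorem artin_Km1 [Finite F] (hR : FinMod (MonoidAlgebra R F)) (x : Km1 (MonoidAlgebra R F)) :
    ∃ (m r : ℕ) (D : Fin r → Subgroup F) (y : ∀ i, Km1 (MonoidAlgebra R (D i))),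
      0 < m ∧ (∀ i, IsCyclic (D i)) ∧ m • x = ∑ i, Km1.map (incl R (D i)) (y i) := by
  obtain ⟨I, J, hI, hJ, D, E, hfD, hfE, hD, hE, key⟩ := kart_rel R F hR x
  obtain ⟨r, DD, y, h1, h2⟩ := kart_enum R F (K := J ⊕ I) (Sum.elim E D)
    (fun i => match i with
      | Sum.inl j => kpush (lamR R (E j)) x
      | Sum.inr i => -kpush (lamR R (D i)) x)
    (by
      rintro (i | i)
      · exact hE i
      · exact hD i) (Nat.card F • x) (by
      rw [Fintype.sum_sum_type]
      have h4 : ∀ j : J, Km1.map (incl R (E j)) (kpush (lamR R (E j)) x) =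
          kpush (twR R (F ⧸ E j)) x := fun j => ind_kres R _ x
      have h5 : ∀ j : I, Km1.map (incl R (D j)) (-kpush (lamR R (D j)) x) =
          -kpush (twR R (F ⧸ D j)) x := by
        intro j
        rw [map_neg, ind_kres]
      refine Eq.trans ?_ (congrArg₂ (· + ·) (Finset.sum_congr rfl (fun j _ => (h4 j).symm))
        (Finset.sum_congr rfl (fun j _ => (h5 j).symm)))
      rw [Finset.sum_neg_distrib, ← key]
      abel)
  exact ⟨Nat.card F, r, DD, y, Nat.card_pos, h1, h2⟩

end Pool.Agent.H95.KF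

end
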