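import Pool.Agent.H13.TFQ.H71.FQ.Asm
import Pool.Agent.H13.TFQ.M09
import Pool.Agent.H13.TFQ.M37
import Pool.Agent.H13.TFQ.M73

/-! The parts of this file: H8.KZ.RelS, H16.KN.GZ. -/

section

/-!
# KZ, module RelS: stable triviality of a block diagonal idempotent matrix; block matrices

`MatEquiv e f : ∃ x y, x * y = e ∧ y * x = f`; `K0_blockDiagonal`, `blockDiagonal_idem` :
`Pool/Agent/H95/KM/DetTwo.lean`; `exists_stab` : `Stab.lean`; `Coc.Phi`, `Coc.phi_one_left` :
`Pool/Agent/H71/DB/Coc.lean`; `evL` : `Ev.lean`.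

PROOFS.
* `exists_uv`: `∑ cls (H i) = ∑ cls 1`, both are classes of block diagonal matrices (`K0_blockDiagonal`,
  `blockDiagonal_one`), `exists_stab`, `fromBlocks_one`.
* `XY_one`, `YX_one`: block multiplication (`fromBlocks_multiply`); `Y X = v (H ⊕ 1) u = v u v u`.
* `map_evL`: `lau_ext`, `evL_single`, `lau_single`, on monomials (`MonoidAlgebra.induction_linear`).
* `Phi_diag`: block sums; off diagonal entries are zero; `phi 1 1 = 0`.
-/

set_option autoImplicit false

open Matrix
open scoped LaurentPolynomial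

universe u v w

namespace Pool.Agent.H8.KZ

open Pool.Agent.H71.FJ (K0 K0.cls)
open Pool.Agent.H95.KM
open Pool.Agent.H71.DB (comm_grp)
open Pool.Agent.H71.DO (grpUnit)

section uv

variable {A : Type u} [Ring A] {ι ν : Type} [Fintype ι] [DecidableEq ι] [Fintype ν] [DecidableEq ν]

variable {a : ℕ} {H : Matrix (ν × ι) (ν × ι) A}
  {u : Matrix ((ν × ι) ⊕ Fin a) ((Unit × ι) ⊕ Fin a) A}
  {v : Matrix ((Unit × ι) ⊕ Fin a) ((ν × ι) ⊕ Fin a) A}
  {X : Matrix (Unit × ι) (ν × ι) A} {Y : Matrix (ν × ι) (Unit × ι) A}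

end uv

theorem map_evL {R S : Type} [CommRing R] [CommRing S] (j : R →+* S) {C : Type v} [Group C]
    {G : Type w} [Group G] (f : C →* G) (z : G) (h : ∀ a, f a * z = z * f a)
    (x : (MonoidAlgebra R C)[T;T⁻¹]) :
    MonoidAlgebra.mapRingHom G j
      (evL (MonoidAlgebra.mapDomainRingHom R f) (grpUnit R G z) (comm_grp R f z h) x) =
      evL (MonoidAlgebra.mapDomainRingHom S f) (grpUnit S G z) (comm_grp S f z h)
        (lau (MonoidAlgebra.mapRingHom C j) x) := by
  have key : (MonoidAlgebra.mapRingHom G j).comp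
      (evL (MonoidAlgebra.mapDomainRingHom R f) (grpUnit R G z) (comm_grp R f z h)) =
      (evL (MonoidAlgebra.mapDomainRingHom S f) (grpUnit S G z) (comm_grp S f z h)).comp
        (lau (MonoidAlgebra.mapRingHom C j)) := by
    apply lau_ext
    intro k r
    rw [RingHom.comp_apply, RingHom.comp_apply, lau_single, evL_single, evL_single, map_mul]
    congr 1
    · induction r using MonoidAlgebra.induction_linear with
      | zero => simp
      | add a b ha hb => rw [map_add, map_add, ha, hb, map_add, map_add]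
      | single c r =>
        change MonoidAlgebra.mapRingHom G j (MonoidAlgebra.mapDomain f
            (MonoidAlgebra.single c r)) =
          MonoidAlgebra.mapDomain f (MonoidAlgebra.mapRingHom C j (MonoidAlgebra.single c r))
        rw [MonoidAlgebra.mapDomain_single, MonoidAlgebra.mapRingHom_single,
          MonoidAlgebra.mapRingHom_single, MonoidAlgebra.mapDomain_single]
    · rw [← map_zpow, ← map_zpow]
      change MonoidAlgebra.mapRingHom G j (MonoidAlgebra.single (z ^ k) 1) =
        MonoidAlgebra.single (z ^ k) 1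
      rw [MonoidAlgebra.mapRingHom_single, map_one]
  exact congrArg (fun g : (MonoidAlgebra R C)[T;T⁻¹] →+* MonoidAlgebra S G => g x) key

end Pool.Agent.H8.KZ

end

section

/-!
# Project KN: the Laurent polynomials over `B[C]` in `B[G × ℤ]`

PROOFS.  `gz_single`: `evL_single`, `grpUnit` is a homomorphism.  `map_gz`: `map_evL` of `KZ/RelS.lean`.
`gz_comm`, `gz_lau`: `lau_ext`, `MonoidAlgebra.induction_linear`.
-/

set_option autoImplicit false

open Matrix
open scoped LaurentPolynomial

universe u v w

namespace Pool.Agent.H16.KN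

open Pool.Agent.H95.KM (lau)
open Pool.Agent.H8.KZ (evL evL_single map_evL)
open Pool.Agent.H71.DB (comm_grp)
open Pool.Agent.H71.DO (grpUnit)
open Pool.Agent.H71.FQ (grpHom)

section

variable (B : Type) [CommRing B] {G : Type u} [Group G] {C : Type v} [Group C] {Γ : Type w}
  [Group Γ]

theorem inl_comm (f : C →* G) (a : C) :
    ((MonoidHom.inl G (Multiplicative ℤ)).comp f) a * ((1 : G), Multiplicative.ofAdd (1 : ℤ)) =
      ((1 : G), Multiplicative.ofAdd (1 : ℤ)) * ((MonoidHom.inl G (Multiplicative ℤ)).comp f) a := by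
  apply Prod.ext
  · change f a * 1 = 1 * f a
    rw [mul_one, one_mul]
  · exact mul_comm _ _

/-- the homomorphism `B[C][T;T⁻¹] → B[G × ℤ]`, `T ↦` the generator of `ℤ` -/
noncomputable def gz (f : C →* G) :
    (MonoidAlgebra B C)[T;T⁻¹] →+* MonoidAlgebra B (G × Multiplicative ℤ) :=
  evL (MonoidAlgebra.mapDomainRingHom B ((MonoidHom.inl G (Multiplicative ℤ)).comp f))
    (grpUnit B (G × Multiplicative ℤ) ((1 : G), Multiplicative.ofAdd (1 : ℤ)))
    (comm_grp B _ _ (inl_comm f))

/-- the elements of `G` as units of `B[G × ℤ]` -/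
noncomputable def gk (κ : Γ →* G) : Γ →* (MonoidAlgebra B (G × Multiplicative ℤ))ˣ :=
  (grpHom B (G × Multiplicative ℤ)).comp ((MonoidHom.inl G (Multiplicative ℤ)).comp κ)

theorem gz_single (f : C →* G) (k : ℤ) (a : C) (r : B) :
    gz B f (AddMonoidAlgebra.single k (MonoidAlgebra.single a r)) =
      MonoidAlgebra.single (f a, Multiplicative.ofAdd k) r := by
  unfold gz
  rw [evL_single, ← map_zpow]
  change MonoidAlgebra.mapDomain ((MonoidHom.inl G (Multiplicative ℤ)).comp f)
    (MonoidAlgebra.single a r) * MonoidAlgebra.single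
      (((1 : G), Multiplicative.ofAdd (1 : ℤ)) ^ k) (1 : B) = _
  rw [MonoidAlgebra.mapDomain_single, MonoidAlgebra.single_mul_single, mul_one]
  congr 1
  apply Prod.ext
  · change f a * (1 : G) ^ k = f a
    rw [_root_.one_zpow, mul_one]
  · change (1 : Multiplicative ℤ) * (Multiplicative.ofAdd (1 : ℤ)) ^ k = Multiplicative.ofAdd k
    rw [one_mul, ← ofAdd_zsmul, smul_eq_mul, mul_one]

theorem gk_val (κ : Γ →* G) (γ : Γ) :
    (gk B κ γ : MonoidAlgebra B (G × Multiplicative ℤ)) = MonoidAlgebra.single (κ γ, 1) 1 := rfl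

theorem gz_comm (f : C →* G) (κ : Γ →* G) (h : ∀ γ a, f a * κ γ = κ γ * f a) (γ : Γ)
    (b : (MonoidAlgebra B C)[T;T⁻¹]) :
    gz B f b * (gk B κ γ : MonoidAlgebra B (G × Multiplicative ℤ)) = gk B κ γ * gz B f b := by
  rw [gk_val]
  induction b using AddMonoidAlgebra.induction_linear with
  | zero => rw [map_zero, zero_mul, mul_zero]
  | add x y hx hy => rw [map_add, add_mul, mul_add, hx, hy]
  | single k r =>
    induction r using MonoidAlgebra.induction_linear with
    | zero => rw [AddMonoidAlgebra.single_zero, map_zero, zero_mul, mul_zero]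
    | add x y hx hy => rw [AddMonoidAlgebra.single_add, map_add, add_mul, mul_add, hx, hy]
    | single a r =>
      rw [gz_single, MonoidAlgebra.single_mul_single, MonoidAlgebra.single_mul_single, mul_one,
        one_mul]
      congr 1
      apply Prod.ext
      · exact h γ a
      · exact mul_comm _ _

variable {B} in
theorem map_gz {B' : Type} [CommRing B'] (j : B →+* B') (f : C →* G)
    (x : (MonoidAlgebra B C)[T;T⁻¹]) :
    MonoidAlgebra.mapRingHom (G × Multiplicative ℤ) j (gz B f x) =
      gz B' f (lau (MonoidAlgebra.mapRingHom C j) x) :=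
  map_evL j ((MonoidHom.inl G (Multiplicative ℤ)).comp f)
    ((1 : G), Multiplicative.ofAdd (1 : ℤ)) (inl_comm f) x

variable {B} in
theorem map_gk {B' : Type} [CommRing B'] (j : B →+* B') (κ : Γ →* G) (γ : Γ) :
    MonoidAlgebra.mapRingHom (G × Multiplicative ℤ) j
      (gk B κ γ : MonoidAlgebra B (G × Multiplicative ℤ)) = gk B' κ γ := by
  rw [gk_val, gk_val, MonoidAlgebra.mapRingHom_single, map_one]

theorem gz_lau (f : C →* G) :
    (gz B (MonoidHom.id G)).comp (lau (MonoidAlgebra.mapDomainRingHom B f)) = gz B f := by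
  apply Pool.Agent.H8.KZ.lau_ext
  intro k r
  rw [RingHom.comp_apply, Pool.Agent.H95.KM.lau_single]
  induction r using MonoidAlgebra.induction_linear with
  | zero => rw [map_zero, AddMonoidAlgebra.single_zero, AddMonoidAlgebra.single_zero, map_zero,
      map_zero]
  | add x y hx hy => rw [map_add, AddMonoidAlgebra.single_add, AddMonoidAlgebra.single_add,
      map_add, map_add, hx, hy]
  | single a r =>
    change gz B (MonoidHom.id G) (AddMonoidAlgebra.single k
      (MonoidAlgebra.mapDomain f (MonoidAlgebra.single a r))) = _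
    rw [MonoidAlgebra.mapDomain_single, gz_single, gz_single]
    rfl

end

end Pool.Agent.H16.KN

end
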