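import Pool.Agent.H13.TFQ.H71.FQ.HG
import Pool.Agent.H13.TFQ.M49
import Pool.Agent.H13.TFQ.M85

/-! The parts of this file: H16.KN.Coch, H16.KN.Deg. -/

section

/-!
# Project KN: products of cochains, the cochains of the measures

PROOFS.  `dl_pL`, `dl_pE`: split off the last (two) indices of the sum (`Fin.sum_univ_castSucc`).
`meas_of_exp`: `ν` from `exists_nu_tuple`, `H` from `exists_homotopy` for `A = ν`, `B v = μ • (point mass of π (v 0))`,
`b v = π (v 0)` (`μ = orderOf c * p ^ r`, as in `HG.ev_vmap` of `FQ/HG.lean`);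
`ψ v = linearCombination φ (tens ν (n + 1) v)`, `β v = linearCombination φ (H n (single v 1))`;
apply `linearCombination φ` to `bd (H (n+1) (single v)) + μ H n (bd (single v)) = vmap ν - vmap B`: the first term
vanishes (`φ` is a cocycle), so `μ dl β = ψ - μ ^ (n + 2) φ(π ..)`.
-/

set_option autoImplicit false

open Matrix

universe u v w

namespace Pool.Agent.H16.KN

open Pool.Agent.H71.FQ

section

variable {X : Type u} {B : Type v} [CommRing B] {k : ℕ}

/-- the product of `ψ` with a function of the last two variables -/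
def pL (ψ : (Fin (k + 1) → X) → B) (l : X → X → B) (v : Fin (k + 2) → X) : B :=
  ψ (fun j => v j.castSucc) * l (v (Fin.last k).castSucc) (v (Fin.last (k + 1)))

/-- the product of `ψ` with a function of the last variable -/
def pE (ψ : (Fin (k + 1) → X) → B) (e : X → B) (v : Fin (k + 1) → X) : B :=
  ψ v * e (v (Fin.last k))

private theorem sa_last {m : ℕ} (i : Fin (m + 1)) :
    (Fin.castSucc i).succAbove (Fin.last m) = Fin.last (m + 1) := by
  rw [Fin.succAbove_of_le_castSucc _ _ (Fin.castSucc_le_castSucc_iff.2 (Fin.le_last i)), Fin.succ_last]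

private theorem sa_cast {m : ℕ} (i : Fin (m + 1)) (j : Fin m) :
    (Fin.castSucc i).succAbove (Fin.castSucc j) = Fin.castSucc (i.succAbove j) :=
  (Fin.castSucc_succAbove_castSucc (i := i) (j := j))

theorem dl_pL (ψ : (Fin (k + 1) → X) → B) (l : X → X → B) (hl : ∀ a b c, l a b + l b c = l a c)
    (v : Fin (k + 3) → X) : dl (pL ψ l) v = pL (dl ψ) l v := by
  have h1 : ∀ i : Fin (k + 2), pL ψ l (fun j => v ((Fin.castSucc i).succAbove j)) =
      ψ (fun j => v (Fin.castSucc (i.succAbove j))) *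
        l (v (Fin.castSucc (i.succAbove (Fin.last k)))) (v (Fin.last (k + 2))) := by
    intro i
    unfold pL
    simp only [sa_cast, sa_last]
  have h2 : pL ψ l (fun j => v ((Fin.last (k + 2)).succAbove j)) =
      ψ (fun j => v (Fin.castSucc (Fin.castSucc j))) *
        l (v (Fin.castSucc (Fin.castSucc (Fin.last k)))) (v (Fin.castSucc (Fin.last (k + 1)))) := by
    unfold pL
    simp only [Fin.succAbove_last]
  have h3 : dl (pL ψ l) v = (∑ i : Fin (k + 1), (-1 : ℤ) ^ (i : ℕ) •
      (ψ (fun j => v (Fin.castSucc ((Fin.castSucc i).succAbove j))) *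
        l (v (Fin.castSucc (Fin.last (k + 1)))) (v (Fin.last (k + 2))))) +
      (-1 : ℤ) ^ (k + 1) • (ψ (fun j => v (Fin.castSucc (Fin.castSucc j))) *
        l (v (Fin.castSucc (Fin.castSucc (Fin.last k)))) (v (Fin.last (k + 2)))) +
      (-1 : ℤ) ^ (k + 2) • (ψ (fun j => v (Fin.castSucc (Fin.castSucc j))) *
        l (v (Fin.castSucc (Fin.castSucc (Fin.last k)))) (v (Fin.castSucc (Fin.last (k + 1))))) := by
    unfold dl
    rw [Fin.sum_univ_castSucc, h2]
    have h4 : ∀ i : Fin (k + 2), (-1 : ℤ) ^ ((Fin.castSucc i : Fin (k + 3)) : ℕ) •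
        pL ψ l (fun j => v ((Fin.castSucc i).succAbove j)) = (-1 : ℤ) ^ (i : ℕ) •
        (ψ (fun j => v (Fin.castSucc (i.succAbove j))) *
        l (v (Fin.castSucc (i.succAbove (Fin.last k)))) (v (Fin.last (k + 2)))) := fun i => by
      rw [h1, Fin.val_castSucc]
    rw [Finset.sum_congr rfl fun i _ => h4 i, Fin.sum_univ_castSucc]
    congr 1
    congr 1
    · refine Finset.sum_congr rfl fun i _ => ?_
      rw [Fin.val_castSucc, sa_last]
    · simp only [Fin.succAbove_last, Fin.val_last]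
  have h5 : pL (dl ψ) l v = (∑ i : Fin (k + 1), (-1 : ℤ) ^ (i : ℕ) •
      (ψ (fun j => v (Fin.castSucc ((Fin.castSucc i).succAbove j))) *
        l (v (Fin.castSucc (Fin.last (k + 1)))) (v (Fin.last (k + 2))))) +
      (-1 : ℤ) ^ (k + 1) • (ψ (fun j => v (Fin.castSucc (Fin.castSucc j))) *
        l (v (Fin.castSucc (Fin.last (k + 1)))) (v (Fin.last (k + 2)))) := by
    show (∑ i : Fin (k + 2), (-1 : ℤ) ^ (i : ℕ) • ψ (fun j => v (Fin.castSucc (i.succAbove j)))) *
      l (v (Fin.castSucc (Fin.last (k + 1)))) (v (Fin.last (k + 2))) = _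
    rw [Finset.sum_mul, Fin.sum_univ_castSucc]
    congr 1
    · refine Finset.sum_congr rfl fun i _ => ?_
      rw [Fin.val_castSucc, smul_mul_assoc]
    · rw [smul_mul_assoc]
      simp only [Fin.succAbove_last, Fin.val_last]
  rw [h3, h5, add_assoc]
  congr 1
  rw [← hl (v (Fin.castSucc (Fin.castSucc (Fin.last k)))) (v (Fin.castSucc (Fin.last (k + 1))))
    (v (Fin.last (k + 2)))]
  simp only [zsmul_eq_mul, Int.cast_pow, Int.cast_neg, Int.cast_one]
  ring

theorem dl_pE (ψ : (Fin (k + 1) → X) → B) (e : X → B) (v : Fin (k + 2) → X) :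
    dl (pE ψ e) v = dl ψ v * e (v (Fin.last (k + 1))) +
      (-1) ^ (k + 1) * pL ψ (fun a b => e a - e b) v := by
  have h1 : dl (pE ψ e) v = (∑ i : Fin (k + 1), (-1 : ℤ) ^ (i : ℕ) •
      (ψ (fun j => v ((Fin.castSucc i).succAbove j)) * e (v (Fin.last (k + 1))))) +
      (-1 : ℤ) ^ (k + 1) • (ψ (fun j => v (Fin.castSucc j)) * e (v (Fin.castSucc (Fin.last k)))) := by
    unfold dl pE
    rw [Fin.sum_univ_castSucc]
    congr 1
    · refine Finset.sum_congr rfl fun i _ => ?_
      rw [Fin.val_castSucc]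
      show _ • (_ * e (v ((Fin.castSucc i).succAbove (Fin.last k)))) = _
      rw [sa_last]
    · simp only [Fin.succAbove_last, Fin.val_last]
  have h2 : dl ψ v * e (v (Fin.last (k + 1))) = (∑ i : Fin (k + 1), (-1 : ℤ) ^ (i : ℕ) •
      (ψ (fun j => v ((Fin.castSucc i).succAbove j)) * e (v (Fin.last (k + 1))))) +
      (-1 : ℤ) ^ (k + 1) • (ψ (fun j => v (Fin.castSucc j)) * e (v (Fin.last (k + 1)))) := by
    unfold dl
    rw [Finset.sum_mul, Fin.sum_univ_castSucc]
    congr 1
    · refine Finset.sum_congr rfl fun i _ => ?_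
      rw [Fin.val_castSucc, smul_mul_assoc]
    · rw [smul_mul_assoc]
      simp only [Fin.succAbove_last, Fin.val_last]
  rw [h1, h2, add_assoc]
  congr 1
  unfold pL
  simp only [zsmul_eq_mul, Int.cast_pow, Int.cast_neg, Int.cast_one]
  ring

end

section

variable {G : Type u} [Group G] {B : Type v} [CommRing B] {n : ℕ}

/-- equivariant maps to the centralizer -/
theorem exists_pi (c : G) : ∃ π : G → Subgroup.centralizer ({c} : Set G),
    ∀ (z : Subgroup.centralizer ({c} : Set G)) (g : G), π (z * g) = z * π g := by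
  classical
  have h0 : ∀ g : G, g * (Quotient.out (Quotient.mk
      (QuotientGroup.rightRel (Subgroup.centralizer ({c} : Set G))) g))⁻¹ ∈
      Subgroup.centralizer ({c} : Set G) := by
    intro g
    have h1 := Quotient.mk_out (s := QuotientGroup.rightRel (Subgroup.centralizer ({c} : Set G))) g
    exact QuotientGroup.rightRel_apply.1 h1
  refine ⟨fun g => ⟨_, h0 g⟩, fun z g => ?_⟩
  apply Subtype.ext
  show (z : G) * g * (Quotient.out (Quotient.mk
      (QuotientGroup.rightRel (Subgroup.centralizer ({c} : Set G))) ((z : G) * g)))⁻¹ =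
    (z : G) * (g * (Quotient.out (Quotient.mk
      (QuotientGroup.rightRel (Subgroup.centralizer ({c} : Set G))) g))⁻¹)
  have h2 : Quotient.mk (QuotientGroup.rightRel (Subgroup.centralizer ({c} : Set G))) ((z : G) * g) =
      Quotient.mk (QuotientGroup.rightRel (Subgroup.centralizer ({c} : Set G))) g := by
    refine Quotient.sound (QuotientGroup.rightRel_apply.2 ?_)
    rw [_root_.mul_inv_rev, mul_inv_cancel_left]
    exact Subgroup.inv_mem _ z.2
  rw [h2, mul_assoc]

private theorem lc_smul_bd {X : Type*} {Z : Type*} (φ : (Fin (n + 2) → Z) → B) (f : (Fin (n + 1) → Z) → B)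
    (hf : ∀ x : Fin (n + 2) → Z, ∑ i : Fin (n + 2), (-1 : ℤ) ^ (i : ℕ) • f (fun j => x (i.succAbove j)) = φ x)
    (ν : X → Z →₀ ℤ) (μ : ℤ) (hμ : ∀ x, mass (ν x) = μ) (c : Cx ℤ X (n + 2)) :
    Finsupp.linearCombination ℤ φ (vmap ν (n + 1) (bd ℤ X (n + 1) c)) = 0 := by
  have h1 : ∀ d : Cx ℤ Z (n + 1), Finsupp.linearCombination ℤ φ d =
      Finsupp.linearCombination ℤ f (bd ℤ Z n d) := by
    intro d
    rw [lc_bd]
    congr 1
    congr 1
    funext x
    exact (hf x).symm
  rw [h1, bd_vmap ν μ hμ, bd_bd, map_zero, smul_zero, map_zero]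

private theorem lc_single_bd {X : Type*} {m : ℕ} (ψ : (Fin (m + 1) → X) → B) (v : Fin (m + 2) → X) :
    Finsupp.linearCombination ℤ ψ (bd ℤ X m (Finsupp.single v 1)) = dl ψ v := by
  rw [lc_bd, Finsupp.linearCombination_single, one_smul]
  rfl

/-- The cochains of the measures: for all `m` the cochain of `φ` on the first coordinates is cohomologous, up to `μ`,
to a rotation invariant cocycle. -/
def Meas (p : ℕ) (c : G) (π : G → Subgroup.centralizer ({c} : Set G))
    (φ : (Fin (n + 2) → Subgroup.centralizer ({c} : Set G)) → B) : Prop :=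
  ∃ μ : ℕ, μ ≠ 0 ∧ ∀ m, ∃ (ψ : (Fin (n + 2) → Fin (p ^ m) → G) → B)
    (β : (Fin (n + 1) → Fin (p ^ m) → G) → B),
    (∀ g : G, g * c = c * g → ∀ v, ψ (fun j b => g * v j b) = ψ v) ∧
    (∀ v, ψ (fun j => sig (p ^ m) c (v j)) = ψ v) ∧ (∀ v, dl ψ v = 0) ∧
    (∀ g : G, g * c = c * g → ∀ v, β (fun j b => g * v j b) = β v) ∧
    ∀ (h0 : 0 < p ^ m) v, (μ : B) ^ (n + 2) * φ (fun j => π (v j ⟨0, h0⟩)) = ψ v - (μ : B) * dl β v

theorem meas_of_exp {p : ℕ} (hp : p.Prime) (r : ℕ)
    (hG : ∀ g : G, (∃ j : ℕ, g ^ p ^ j = 1) → g ^ p ^ r = 1) {c : G} (hc : IsOfFinOrder c)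
    (π : G → Subgroup.centralizer ({c} : Set G))
    (hπ : ∀ (z : Subgroup.centralizer ({c} : Set G)) (g : G), π (z * g) = z * π g)
    {φ : (Fin (n + 2) → Subgroup.centralizer ({c} : Set G)) → B}
    (hφ : IsCoc (Subgroup.centralizer ({c} : Set G)) n φ) : Meas p c π φ := by
  refine ⟨orderOf c * p ^ r, Nat.mul_ne_zero hc.orderOf_pos.ne' (pow_ne_zero _ hp.ne_zero), fun m => ?_⟩
  obtain ⟨ν, hν1, hν2, hν3⟩ := exists_nu_tuple hp r hG m c hc
  set μ : ℤ := ((orderOf c * p ^ r : ℕ) : ℤ) with hμ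
  have h0 : 0 < p ^ m := Nat.pow_pos hp.pos
  obtain ⟨H, h1, h2⟩ := exists_homotopy (R := ℤ) ν
    (fun v : Fin (p ^ m) → G => Finsupp.single (π (v ⟨0, h0⟩)) μ) μ hν1
    (fun v => mass_single' _ _) (fun v => π (v ⟨0, h0⟩))
  have hlc : ∀ (k : ℕ) (φ' : (Fin (k + 1) → Subgroup.centralizer ({c} : Set G)) → B)
      (hφ' : ∀ (z : Subgroup.centralizer ({c} : Set G)) x, φ' (fun j => z * x j) = φ' x)
      (z : Subgroup.centralizer ({c} : Set G)) (d : Cx ℤ (Subgroup.centralizer ({c} : Set G)) k),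
      Finsupp.linearCombination ℤ φ' (push ℤ (fun y => z * y) k d) =
        Finsupp.linearCombination ℤ φ' d := by
    intro k φ' hφ' z d
    rw [lc_push]
    congr 1
    congr 1
    funext x
    exact hφ' z x
  refine ⟨fun v => Finsupp.linearCombination ℤ φ (tens ν (n + 1) v),
    fun v => Finsupp.linearCombination ℤ φ (H n (Finsupp.single v 1)), ?_, ?_, ?_, ?_, ?_⟩
  · intro g hg v
    have hz : g ∈ Subgroup.centralizer ({c} : Set G) := Subgroup.mem_centralizer_singleton_iff.2 hg
    show Finsupp.linearCombination ℤ φ (tens ν (n + 1) (fun j => lmul g (v j))) =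
      Finsupp.linearCombination ℤ φ (tens ν (n + 1) v)
    have h3 : tens ν (n + 1) (fun j => lmul g (v j)) =
        push ℤ (fun y => (⟨g, hz⟩ : Subgroup.centralizer ({c} : Set G)) * y) (n + 1)
          (tens ν (n + 1) v) := by
      rw [← vmap_single ν (n + 1) v, push_vmap, vmap_single, tens_eq_tenf, tens_eq_tenf]
      congr 1
      funext j
      exact hν2 ⟨g, hz⟩ (v j)
    rw [h3, hlc _ φ hφ.inv]
  · intro v
    show Finsupp.linearCombination ℤ φ (tens ν (n + 1) (fun j => sig (p ^ m) c (v j))) =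
      Finsupp.linearCombination ℤ φ (tens ν (n + 1) v)
    congr 1
    rw [tens_eq_tenf, tens_eq_tenf]
    congr 1
    funext j
    exact hν3 (v j)
  · intro v
    rw [← lc_single_bd, ← lc_vmap]
    refine lc_smul_bd φ (fun x => φ (Fin.cons 1 x)) ?_ ν μ hν1 _
    intro x
    have h3 := hφ.coc (Fin.cons 1 x)
    rw [Fin.sum_univ_succ] at h3
    have h4 : (fun j => (Fin.cons 1 x : Fin (n + 3) → Subgroup.centralizer ({c} : Set G))
        ((0 : Fin (n + 3)).succAbove j)) = x := by
      funext j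
      rw [Fin.succAbove_zero, Fin.cons_succ]
    have h5 : ∀ i : Fin (n + 2), (fun j => (Fin.cons 1 x : Fin (n + 3) → Subgroup.centralizer ({c} : Set G))
        (i.succ.succAbove j)) = Fin.cons 1 fun j => x (i.succAbove j) := by
      intro i
      funext j
      refine Fin.cases ?_ (fun j => ?_) j
      · rw [Fin.succ_succAbove_zero, Fin.cons_zero, Fin.cons_zero]
      · rw [Fin.succ_succAbove_succ, Fin.cons_succ, Fin.cons_succ]
    rw [h4] at h3
    simp only [h5, Fin.val_zero, pow_zero, one_smul, Fin.val_succ, pow_succ, mul_neg, mul_one,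
      neg_smul, Finset.sum_neg_distrib] at h3
    exact (sub_eq_zero.1 (by rw [sub_eq_add_neg]; exact h3)).symm
  · intro g hg v
    have hz : g ∈ Subgroup.centralizer ({c} : Set G) := Subgroup.mem_centralizer_singleton_iff.2 hg
    show Finsupp.linearCombination ℤ φ (H n (Finsupp.single (fun j => lmul g (v j)) 1)) =
      Finsupp.linearCombination ℤ φ (H n (Finsupp.single v 1))
    have h3 := h2 (fun y => lmul g y) (fun y => (⟨g, hz⟩ : Subgroup.centralizer ({c} : Set G)) * y)
      (fun y => (hν2 ⟨g, hz⟩ y).symm) (fun y => by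
        show (Finsupp.single (π (y ⟨0, h0⟩)) μ).mapDomain _ = Finsupp.single (π (g * y ⟨0, h0⟩)) μ
        rw [Finsupp.mapDomain_single]
        congr 1
        exact (hπ ⟨g, hz⟩ _).symm) (fun y => (hπ ⟨g, hz⟩ _).symm) n (Finsupp.single v 1)
    rw [push_single] at h3
    rw [h3, hlc _ φ hφ.inv]
  · intro h0' v
    have h3 := congrArg (Finsupp.linearCombination ℤ φ) (h1 n (Finsupp.single v 1))
    rw [map_add, map_smul, map_sub, lc_bd, vmap_single, vmap_smul_point, push_single, map_smul,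
      Finsupp.linearCombination_single, one_smul] at h3
    have h4 : (fun x : Fin (n + 3) → Subgroup.centralizer ({c} : Set G) =>
        ∑ i : Fin (n + 3), (-1 : ℤ) ^ (i : ℕ) • φ (fun j => x (i.succAbove j))) = fun _ => 0 :=
      funext fun x => hφ.coc x
    have h5 : ∀ d : Cx ℤ (Subgroup.centralizer ({c} : Set G)) (n + 2), Finsupp.linearCombination ℤ
        (fun _ : Fin (n + 3) → Subgroup.centralizer ({c} : Set G) => (0 : B)) d = 0 := fun d => by
      simp [Finsupp.linearCombination_apply]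
    have h6 : Finsupp.linearCombination ℤ φ (H n (bd ℤ (Fin (p ^ m) → G) n (Finsupp.single v 1))) =
        dl (fun v => Finsupp.linearCombination ℤ φ (H n (Finsupp.single v 1))) v := by
      rw [bd_single, map_sum, map_sum]
      refine Finset.sum_congr rfl fun i _ => ?_
      rw [map_smul, map_smul]
    rw [h4, h5, zero_add, h6, hμ] at h3
    simp only [zsmul_eq_mul, Int.cast_pow, Int.cast_natCast] at h3
    show _ = Finsupp.linearCombination ℤ φ (tens ν (n + 1) v) - _
    rw [h3]
    ring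

end

end Pool.Agent.H16.KN

end

section

/-!
# Project KN: degrees in `G × ℤ`

`QC0 G B k` is generated by the tuples `x` with all `x_i⁻¹ x_j` supported in degrees `≥ 0`, or all in degrees `≤ 0`.

PROOF of `TT_half`.  `TM_eq`: for a word `g` with non-zero coefficients all `dg (g j) ≥ 0` (or all `≤ 0`) and
`u (∏ g) u⁻¹ = (c, 1)` gives `∑ dg (g j) = 0`, so all `dg (g j) = 0` and the vertices have the same degree; the value of
`φ` is zero.  `TQ_half`, `TR_half`: `QC.induction`-like on the closure; the letters of a half tuple are `x_j⁻¹ x_{j+1}`,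
the letters of `rep q x` are letters of `x`.
-/

set_option autoImplicit false

open Matrix

universe u v w

namespace Pool.Agent.H16.KN

open Pool.Agent.H71.FQ

section

variable {G : Type u} [Group G] {B : Type v} [CommRing B]

/-- the degree -/
def dg (x : G × Multiplicative ℤ) : ℤ := Multiplicative.toAdd x.2

/-- supported in degrees `≥ 0` -/
def DP {N : ℕ} (a : Matrix (Fin N) (Fin N) (MonoidAlgebra B (G × Multiplicative ℤ))) : Prop :=
  ∀ x, cof a x ≠ 0 → 0 ≤ dg x

/-- supported in degrees `≤ 0` -/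
def DN {N : ℕ} (a : Matrix (Fin N) (Fin N) (MonoidAlgebra B (G × Multiplicative ℤ))) : Prop :=
  ∀ x, cof a x ≠ 0 → dg x ≤ 0

omit [CommRing B] in
private theorem dg_mul (x y : G × Multiplicative ℤ) : dg (x * y) = dg x + dg y := rfl

private theorem dg_inv (x : G × Multiplicative ℤ) : dg x⁻¹ = -dg x := rfl

private theorem dg_prod (L : List (G × Multiplicative ℤ)) : dg L.prod = (L.map dg).sum := by
  induction L with
  | nil => rfl
  | cons a L ih => rw [List.prod_cons, dg_mul, ih, List.map_cons, List.sum_cons]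

/-- half tuples -/
def Half {N k : ℕ} (x : Fin (k + 1) → GLm N (MonoidAlgebra B (G × Multiplicative ℤ))) : Prop :=
  (∀ i j, DP ((x i)⁻¹ * x j).val) ∨ ∀ i j, DN ((x i)⁻¹ * x j).val

variable (G B) in
/-- the subgroup generated by the half tuples -/
noncomputable def QC0 (k : ℕ) : AddSubgroup (QC (MonoidAlgebra B (G × Multiplicative ℤ)) k) :=
  AddSubgroup.closure {w | ∃ (N : ℕ) (x : Fin (k + 1) → GLm N _), Half x ∧ w = QC.t N x}

private theorem vtx_const {K : ℕ} (u : G × Multiplicative ℤ) (g : Fin K → G × Multiplicative ℤ)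
    (hg : ∀ j, dg (g j) = 0) (j : Fin K) : dg (vtx u g j) = dg u := by
  rw [vtx, dg_mul, dg_prod]
  have h : (List.map dg (List.take (j : ℕ) (List.ofFn g))).sum = 0 := by
    apply List.sum_eq_zero
    intro z hz
    rw [List.mem_map] at hz
    obtain ⟨w, hw, rfl⟩ := hz
    have hw' := List.mem_of_mem_take hw
    rw [List.mem_ofFn] at hw'
    obtain ⟨i, rfl⟩ := hw'
    exact hg i
  rw [h, add_zero]

private theorem wv_half {K : ℕ} {c : G} {φ : (Fin K → G × Multiplicative ℤ) → B}
    (h0 : ∀ v, (∀ i j, dg (v i) = dg (v j)) → φ v = 0) (g : Fin K → G × Multiplicative ℤ)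
    (hg : (∀ j, 0 ≤ dg (g j)) ∨ ∀ j, dg (g j) ≤ 0) :
    wv ((c, 1) : G × Multiplicative ℤ) φ g = 0 := by
  classical
  rw [wv]
  split_ifs with h
  · apply h0
    have h1 := h.choose_spec
    have h2 : ∑ j, dg (g j) = 0 := by
      have h3 := congrArg dg h1
      rw [dg_mul, dg_mul, dg_inv, dg_prod, List.map_ofFn, List.sum_ofFn] at h3
      have h4 : dg ((c, 1) : G × Multiplicative ℤ) = 0 := rfl
      rw [h4] at h3
      have h5 : ∑ i, (dg ∘ g) i = ∑ j, dg (g j) := rfl
      rw [h5] at h3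
      omega
    have h3 : ∀ j, dg (g j) = 0 := by
      rcases hg with hg | hg
      · intro j
        exact (Finset.sum_eq_zero_iff_of_nonneg fun i _ => hg i).1 h2 j (Finset.mem_univ j)
      · intro j
        exact (Finset.sum_eq_zero_iff_of_nonpos fun i _ => hg i).1 h2 j (Finset.mem_univ j)
    intro i j
    rw [vtx_const _ _ h3, vtx_const _ _ h3]
  · rfl

theorem TT_half {K N : ℕ} [NeZero K] {c : G} {φ : (Fin K → G × Multiplicative ℤ) → B}
    (hφ : CI ((c, 1) : G × Multiplicative ℤ) φ) (h0 : ∀ v, (∀ i j, dg (v i) = dg (v j)) → φ v = 0)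
    (x : Fin K → GLm N (MonoidAlgebra B (G × Multiplicative ℤ)))
    (hx : (∀ j, DP (lts x j)) ∨ ∀ j, DN (lts x j)) :
    TT ((c, 1) : G × Multiplicative ℤ) φ x = 0 := by
  classical
  obtain ⟨S, hS⟩ := exists_supp (lts x)
  rw [TT, TM_eq hφ _ S hS]
  refine Finset.sum_eq_zero fun g _ => ?_
  by_cases hg : ∀ j, cof (lts x j) (g j : G × Multiplicative ℤ) ≠ 0
  · rw [wv_half h0, mul_zero]
    rcases hx with hx | hx
    · exact Or.inl fun j => hx j _ (hg j)
    · exact Or.inr fun j => hx j _ (hg j)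
  · push Not at hg
    obtain ⟨j, hj⟩ := hg
    have h1 : (List.ofFn fun j => cof (lts x j) (g j : G × Multiplicative ℤ)).prod = 0 := by
      apply List.prod_eq_zero
      rw [List.mem_ofFn]
      exact ⟨j, hj⟩
    rw [h1, Matrix.trace_zero, zero_mul]

theorem TQ_half {k : ℕ} {c : G} {φ : (Fin (k + 1) → G × Multiplicative ℤ) → B}
    (hφ : CI ((c, 1) : G × Multiplicative ℤ) φ) (h0 : ∀ v, (∀ i j, dg (v i) = dg (v j)) → φ v = 0)
    {w : QC (MonoidAlgebra B (G × Multiplicative ℤ)) k} (hw : w ∈ QC0 G B k) :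
    TQ ((c, 1) : G × Multiplicative ℤ) φ w = 0 := by
  have h1 : QC0 G B k ≤ (TQ ((c, 1) : G × Multiplicative ℤ) φ).ker := by
    rw [QC0, AddSubgroup.closure_le]
    rintro _ ⟨N, x, hx, rfl⟩
    rw [SetLike.mem_coe, AddMonoidHom.mem_ker, TQ_t]
    apply TT_half hφ h0
    rcases hx with hx | hx
    · exact Or.inl fun j => hx j (j + 1)
    · exact Or.inr fun j => hx j (j + 1)
  exact h1 hw

theorem TR_half {k : ℕ} (q : ℕ) [NeZero q] {c : G}
    {Φ : (Fin (k + 1) → Fin q → G × Multiplicative ℤ) → B}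
    (hΦ : CIq ((c, 1) : G × Multiplicative ℤ) q Φ)
    (h0 : ∀ v, (∀ i j b b', dg (v i b) = dg (v j b')) → Φ v = 0)
    {w : QC (MonoidAlgebra B (G × Multiplicative ℤ)) k} (hw : w ∈ QC0 G B k) :
    TR q ((c, 1) : G × Multiplicative ℤ) Φ w = 0 := by
  have h1 : QC0 G B k ≤ (TR q ((c, 1) : G × Multiplicative ℤ) Φ).ker := by
    rw [QC0, AddSubgroup.closure_le]
    rintro _ ⟨N, x, hx, rfl⟩
    rw [SetLike.mem_coe, AddMonoidHom.mem_ker, TR_t]
    apply TT_half
    · intro g hg y
      exact hΦ g hg fun j b => y (finProdFinEquiv (b, j))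
    · intro v hv
      exact h0 _ fun i j b b' => hv _ _
    · rcases hx with hx | hx
      · exact Or.inl fun j => hx _ _
      · exact Or.inr fun j => hx _ _
  exact h1 hw

private theorem cof_map_ne {B' : Type w} [CommRing B'] (f : B →+* B') {N : ℕ}
    (a : Matrix (Fin N) (Fin N) (MonoidAlgebra B (G × Multiplicative ℤ)))
    {x : G × Multiplicative ℤ}
    (hx : cof (a.map (MonoidAlgebra.mapRingHom (G × Multiplicative ℤ) f)) x ≠ 0) :
    cof a x ≠ 0 := by
  intro h
  apply hx
  ext i j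
  have h1 : (a i j).coeff x = 0 := congrFun (congrFun h i) j
  simp only [cof, Matrix.map_apply, Matrix.zero_apply]
  simp [h1]

/-- ring homomorphisms of the coefficients respect the half tuples -/
theorem QC0_map {B' : Type w} [CommRing B'] (f : B →+* B') {k : ℕ}
    {w : QC (MonoidAlgebra B (G × Multiplicative ℤ)) k} (hw : w ∈ QC0 G B k) :
    QC.map (MonoidAlgebra.mapRingHom (G × Multiplicative ℤ) f) w ∈ QC0 G B' k := by
  have h1 : QC0 G B k ≤
      (QC0 G B' k).comap (QC.map (MonoidAlgebra.mapRingHom (G × Multiplicative ℤ) f)) := by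
    rw [QC0, AddSubgroup.closure_le]
    rintro _ ⟨N, x, hx, rfl⟩
    rw [SetLike.mem_coe, AddSubgroup.mem_comap, QC.map_t]
    apply AddSubgroup.subset_closure
    refine ⟨N, _, ?_, rfl⟩
    have h2 : ∀ i j, ((mapGL (MonoidAlgebra.mapRingHom (G × Multiplicative ℤ) f) N (x i))⁻¹ *
        mapGL (MonoidAlgebra.mapRingHom (G × Multiplicative ℤ) f) N (x j)).val =
        ((x i)⁻¹ * x j).val.map (MonoidAlgebra.mapRingHom (G × Multiplicative ℤ) f) := by
      intro i j
      rw [← map_inv, ← map_mul]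
      rfl
    rcases hx with hx | hx
    · refine Or.inl fun i j y hy => ?_
      rw [h2] at hy
      exact hx i j y (cof_map_ne f _ hy)
    · refine Or.inr fun i j y hy => ?_
      rw [h2] at hy
      exact hx i j y (cof_map_ne f _ hy)
  exact h1 hw

end

end Pool.Agent.H16.KN

end
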