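import Pool.Agent.H13.TFQ.H71.FQ.KQ_1
import Pool.Agent.H13.TFQ.M11
import Pool.Agent.H13.TFQ.M24
import Pool.Agent.H13.TFQ.M75

/-! The parts of this file: H16.KN.QC_1, H16.KN.DefsA, H16.KN.SymN. -/

section

/-!
# Project KN: chains of tuples of invertible matrices modulo block sums

`QC A k` : integral combinations of tuples `(N; x_0, …, x_k)` of matrices in `GL_N(A)`, modulo
`(g x_0, …, g x_k) = (x_0, …, x_k)` and `(blk x y) = (x) + (y)`; `qbd` is the boundary.  `ofKQ` maps `KQ A n` to the
homology of degree `n + 1` of this complex.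

PROOFS.  `qbd`: lift of `∑ (-1)^i • t (x without x_i)`; `blk` of the faces is the face of `blk`.
`ofKQ`: `KQ.lift (fun N => ..)`; on `HG (GLm N A) n` the class of a cycle `z` goes to the class of `ch N (n+1) z`
(`ch` sends `coi` to `0` and commutes with the boundaries); the block relation holds for every single tuple.
-/

set_option autoImplicit false

open Matrix

universe u v w

namespace Pool.Agent.H16.KN

open Pool.Agent.H71.FQ

section

variable (A : Type u) [Ring A] (k : ℕ)

variable {A k}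

theorem QC.map_map {A' : Type v} [Ring A'] {A'' : Type w} [Ring A''] (f : A →+* A') (g : A' →+* A'')
    (w : QC A k) : QC.map g (QC.map f w) = QC.map (g.comp f) w := by
  have h : (QC.map g).comp (QC.map f) = (QC.map (g.comp f) : QC A k →+ QC A'' k) := by
    refine QC.hom_ext fun N x => ?_
    rw [AddMonoidHom.comp_apply, QC.map_t, QC.map_t, QC.map_t]
    rfl
  exact DFunLike.congr_fun h w

theorem QC.map_bd {A' : Type v} [Ring A'] (f : A →+* A') (w : QC A (k + 1)) :
    QC.map f (qbd w) = qbd (QC.map f w) := by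
  have h : (QC.map f).comp (qbd : QC A (k + 1) →+ QC A k) = qbd.comp (QC.map f) := by
    refine QC.hom_ext fun N x => ?_
    rw [AddMonoidHom.comp_apply, AddMonoidHom.comp_apply, QC.map_t, qbd_t, qbd_t, map_sum]
    refine Finset.sum_congr rfl fun i _ => ?_
    rw [map_zsmul, QC.map_t]
  exact DFunLike.congr_fun h w

/-- chains of `GL_N(A)` -/
noncomputable def ch (N : ℕ) : Cx ℤ (GLm N A) k →+ QC A k :=
  (Finsupp.linearCombination ℤ fun x : Fin (k + 1) → GLm N A => QC.t N x).toAddMonoidHom

theorem ch_single (N : ℕ) (x : Fin (k + 1) → GLm N A) :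
    ch N (Finsupp.single x 1) = QC.t N x := by
  show Finsupp.linearCombination ℤ (fun x : Fin (k + 1) → GLm N A => QC.t N x)
    (Finsupp.single x 1) = QC.t N x
  rw [Finsupp.linearCombination_single, one_smul]

theorem ch_coi (N : ℕ) {c : Cx ℤ (GLm N A) k} (hc : c ∈ coi (GLm N A) k) : ch N c = 0 :=
  inv_coi (φ := fun x : Fin (k + 1) → GLm N A => QC.t N x) (QC.t_inv N) hc

/-- homomorphisms on chains which agree on the tuples agree -/
private theorem qc_ext {X : Type*} {M : Type*} [AddCommGroup M] {m : ℕ} {f g : Cx ℤ X m →+ M}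
    (h : ∀ x, f (Finsupp.single x 1) = g (Finsupp.single x 1)) (c : Cx ℤ X m) : f c = g c :=
  cx_ext (f := f.toIntLinearMap) (g := g.toIntLinearMap) h c

theorem ch_bd (N : ℕ) (c : Cx ℤ (GLm N A) (k + 1)) :
    qbd (ch N c) = ch N (bd ℤ (GLm N A) k c) := by
  refine qc_ext (f := qbd.comp (ch N)) (g := (ch N).comp (bd ℤ (GLm N A) k).toAddMonoidHom) ?_ c
  intro x
  show qbd (ch N (Finsupp.single x 1)) = ch N (bd ℤ (GLm N A) k (Finsupp.single x 1))
  rw [ch_single, qbd_t, bd_single, map_sum]
  refine Finset.sum_congr rfl fun i _ => ?_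
  rw [map_zsmul, ch_single]

theorem map_ch {A' : Type v} [Ring A'] (f : A →+* A') (N : ℕ) (c : Cx ℤ (GLm N A) k) :
    QC.map f (ch N c) = ch N (push ℤ (mapGL f N) k c) := by
  refine qc_ext (f := (QC.map f).comp (ch N))
    (g := (ch N).comp (push ℤ (mapGL f N) k).toAddMonoidHom) ?_ c
  intro x
  show QC.map f (ch N (Finsupp.single x 1)) = ch N (push ℤ (mapGL f N) k (Finsupp.single x 1))
  rw [ch_single, QC.map_t, push_single, ch_single]

/-- a functional on `ch` -/
theorem lift_ch {M : Type*} [AddCommGroup M] (F : ∀ N, (Fin (k + 1) → GLm N A) → M)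
    (hinv : ∀ N (g : GLm N A) x, F N (fun j => g * x j) = F N x)
    (hblk : ∀ N M' (x : Fin (k + 1) → GLm N A) (y : Fin (k + 1) → GLm M' A),
      F (N + M') (fun j => blk N M' A (x j, y j)) = F N x + F M' y) (N : ℕ)
    (c : Cx ℤ (GLm N A) k) :
    QC.lift F hinv hblk (ch N c) = Finsupp.linearCombination ℤ (F N) c := by
  refine qc_ext (f := (QC.lift F hinv hblk).comp (ch N))
    (g := (Finsupp.linearCombination ℤ (F N)).toAddMonoidHom) ?_ c
  intro x
  show QC.lift F hinv hblk (ch N (Finsupp.single x 1)) =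
    Finsupp.linearCombination ℤ (F N) (Finsupp.single x 1)
  rw [ch_single, QC.lift_t, Finsupp.linearCombination_single, one_smul]

end

section

variable (A : Type u) [Ring A] (n : ℕ)

/-- the quotient of the chains of degree `n + 1` by the boundaries -/
def QH : Type u := QC A (n + 1) ⧸ (qbd : QC A (n + 2) →+ QC A (n + 1)).range

noncomputable instance instQH : AddCommGroup (QH A n) :=
  QuotientAddGroup.Quotient.addCommGroup (qbd : QC A (n + 2) →+ QC A (n + 1)).range

variable {A n}

/-- the class of a chain -/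
noncomputable def QH.mk : QC A (n + 1) →+ QH A n :=
  QuotientAddGroup.mk' (qbd : QC A (n + 2) →+ QC A (n + 1)).range

theorem QH.mk_eq_zero {w : QC A (n + 1)} : QH.mk w = 0 ↔ ∃ v, qbd v = w := by
  have h := QuotientAddGroup.eq_zero_iff (N := (qbd : QC A (n + 2) →+ QC A (n + 1)).range) w
  exact h.trans AddMonoidHom.mem_range

private theorem qc_bnd (N : ℕ) {c : Cx ℤ (GLm N A) (n + 1)} (hc : c ∈ bnd (GLm N A) n) :
    QH.mk (ch N c) = 0 := by
  obtain ⟨_, ⟨b, rfl⟩, d, hd, rfl⟩ := Submodule.mem_sup.1 hc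
  rw [map_add, ch_coi N hd, add_zero, QH.mk_eq_zero]
  exact ⟨ch N b, ch_bd N b⟩

/-- the class of a cycle of `GL_N(A)` goes to the class of its image -/
private noncomputable def qc_hom (N : ℕ) : HG (GLm N A) n →+ QH A n :=
  (Submodule.liftQ ((bnd (GLm N A) n).comap (cyc (GLm N A) n).subtype)
    ((QH.mk.comp (ch N)).toIntLinearMap.comp (cyc (GLm N A) n).subtype)
    fun _ hc => qc_bnd N hc).toAddMonoidHom

private theorem qc_hom_mk (N : ℕ) (z : cyc (GLm N A) n) :
    qc_hom N (HG.mk z) = QH.mk (ch N (z : Cx ℤ (GLm N A) (n + 1))) := rfl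

private theorem qc_hom_blk (N M' : ℕ) (w : HG (GLm N A × GLm M' A) n) :
    qc_hom (N + M') (HG.map n (blk N M' A) w) =
      qc_hom N (HG.map n (MonoidHom.fst (GLm N A) (GLm M' A)) w) +
        qc_hom M' (HG.map n (MonoidHom.snd (GLm N A) (GLm M' A)) w) := by
  obtain ⟨z, rfl⟩ := HG.mk_surjective w
  rw [HG.map_mk, HG.map_mk, HG.map_mk, qc_hom_mk, qc_hom_mk, qc_hom_mk, ← map_add]
  congr 1
  refine qc_ext
    (f := (ch (N + M')).comp (push ℤ (blk N M' A) (n + 1)).toAddMonoidHom)
    (g := (ch N).comp (push ℤ (MonoidHom.fst (GLm N A) (GLm M' A)) (n + 1)).toAddMonoidHom +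
      (ch M').comp (push ℤ (MonoidHom.snd (GLm N A) (GLm M' A)) (n + 1)).toAddMonoidHom) ?_
    (z : Cx ℤ (GLm N A × GLm M' A) (n + 1))
  intro x
  show ch (N + M') (push ℤ (blk N M' A) (n + 1) (Finsupp.single x 1)) =
    ch N (push ℤ (MonoidHom.fst (GLm N A) (GLm M' A)) (n + 1) (Finsupp.single x 1)) +
      ch M' (push ℤ (MonoidHom.snd (GLm N A) (GLm M' A)) (n + 1) (Finsupp.single x 1))
  rw [push_single, push_single, push_single, ch_single, ch_single, ch_single]
  exact QC.t_blk N M' (fun j => (x j).1) fun j => (x j).2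

/-- the map on homology -/
noncomputable def ofKQ : KQ A n →+ QH A n :=
  KQ.lift (fun N => qc_hom N) qc_hom_blk

theorem ofKQ_cls (N : ℕ) (z : cyc (GLm N A) n) :
    ofKQ (KQ.cls A n N (HG.mk z)) = QH.mk (ch N (z : Cx ℤ (GLm N A) (n + 1))) :=
  KQ.lift_cls _ _ N (HG.mk z)

private theorem qc_sum {A' : Type v} [Ring A'] (f : A →+* A') (G : SumH A n →+ QH A' n)
    (h : ∀ N x, ∃ a : QC A (n + 1), G (incH A n N x) = QH.mk (QC.map f a)) (y : SumH A n) :
    ∃ a : QC A (n + 1), G y = QH.mk (QC.map f a) := by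
  induction y using DirectSum.induction_on with
  | zero => exact ⟨0, (map_zero G).trans (by rw [map_zero, map_zero])⟩
  | of N x => exact h N x
  | add a b iha ihb =>
    obtain ⟨c, hc⟩ := iha
    obtain ⟨d, hd⟩ := ihb
    exact ⟨c + d, (map_add G a b).trans ((congrArg₂ (fun u v => u + v) hc hd).trans
      (by rw [map_add, map_add]))⟩

/-- every element of `KQ A n` is represented by a chain, compatibly with ring homomorphisms -/
theorem ofKQ_map {A' : Type v} [Ring A'] (f : A →+* A') (x : KQ A n) :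
    ∃ a : QC A (n + 1), ofKQ (KQ.map f x) = QH.mk (QC.map f a) := by
  obtain ⟨y, rfl⟩ := QuotientAddGroup.mk'_surjective (blkRel A n) x
  refine qc_sum f ((ofKQ.comp (KQ.map f)).comp (QuotientAddGroup.mk' (blkRel A n))) ?_ y
  intro N h
  obtain ⟨z, rfl⟩ := HG.mk_surjective h
  refine ⟨ch N (z : Cx ℤ (GLm N A) (n + 1)), ?_⟩
  rw [map_ch, ← ofKQ_cls N ⟨push ℤ (mapGL f N) (n + 1) z, push_cyc (mapGL f N) z.2⟩,
    ← HG.map_mk, ← KQ.map_cls]
  rfl

end

end Pool.Agent.H16.KN

end

section

/-!
# Project KN: the `K₋₁`-part of the rational source of the assembly map in degree `n`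

For a ring `R`, a group `G` and `n`, `HnKm1 R G n` is the abelian group generated by the symbols `[F, x, z]` with
`F` a finite subgroup of `G`, `x ∈ K₋₁(R[F])` and `z ∈ H_{n+1}(Z_G(F); ℤ)`, modulo additivity in `x` and in `z` and
`[F', c_g(x), z'] = [F, x, c_{g⁻¹}(z')]` for `g F g⁻¹ ⊆ F'`, `z' ∈ H_{n+1}(Z_G(F'); ℤ)`.
-/

set_option autoImplicit false

universe u v w

namespace Pool.Agent.H16.KN

open Pool.Agent.H95.KM (Km1 ind)
open Pool.Agent.H95.WH (FamSub conjHom FinSub)
open Pool.Agent.H71.FQ (HG HG.map centConj)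

variable (R : Type u) [Ring R] (G : Type v) [Group G] (n : ℕ)

/-- The symbols `[F, x, z]`. -/
structure SymN where
  /-- a finite subgroup -/
  F : FamSub G FinSub
  /-- a class in `K₋₁` of its group ring -/
  x : Km1 (MonoidAlgebra R F.1)
  /-- a homology class of its centralizer -/
  z : HG (Subgroup.centralizer (F.1 : Set G)) n

/-- The symbol `[F, x, z]`. -/
noncomputable def symOf (F : FamSub G FinSub) (x : Km1 (MonoidAlgebra R F.1))
    (z : HG (Subgroup.centralizer (F.1 : Set G)) n) : FreeAbelianGroup (SymN R G n) :=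
  FreeAbelianGroup.of ⟨F, x, z⟩

/-- The relation of additivity in `x`. -/
noncomputable def symX (F : FamSub G FinSub) (x y : Km1 (MonoidAlgebra R F.1))
    (z : HG (Subgroup.centralizer (F.1 : Set G)) n) : FreeAbelianGroup (SymN R G n) :=
  symOf R G n F (x + y) z - (symOf R G n F x z + symOf R G n F y z)

/-- The relation of additivity in `z`. -/
noncomputable def symZ (F : FamSub G FinSub) (x : Km1 (MonoidAlgebra R F.1))
    (z z' : HG (Subgroup.centralizer (F.1 : Set G)) n) : FreeAbelianGroup (SymN R G n) :=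
  symOf R G n F x (z + z') - (symOf R G n F x z + symOf R G n F x z')

/-- The relation `[F', c_g(x), z'] = [F, x, c_{g⁻¹}(z')]`. -/
noncomputable def symC (F F' : FamSub G FinSub) (g : G) (h : ∀ x ∈ F.1, g * x * g⁻¹ ∈ F'.1)
    (x : Km1 (MonoidAlgebra R F.1)) (z : HG (Subgroup.centralizer (F'.1 : Set G)) n) :
    FreeAbelianGroup (SymN R G n) :=
  symOf R G n F' (ind R (conjHom g F.1 F'.1 h) x) z -
    symOf R G n F x (HG.map n (centConj g F.1 F'.1 h) z)

/-- The relations. -/
noncomputable def SymRel : AddSubgroup (FreeAbelianGroup (SymN R G n)) :=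
  AddSubgroup.closure
    ({w | ∃ F x y z, w = symX R G n F x y z} ∪ {w | ∃ F x z z', w = symZ R G n F x z z'} ∪
      {w | ∃ F F' g h x z, w = symC R G n F F' g h x z})

/-- The group generated by the symbols `[F, x, z]`. -/
def HnKm1 : Type (max u v) := FreeAbelianGroup (SymN R G n) ⧸ SymRel R G n

noncomputable instance instHnKm1 : AddCommGroup (HnKm1 R G n) :=
  QuotientAddGroup.Quotient.addCommGroup (SymRel R G n)

end Pool.Agent.H16.KN

end

section

/-!
# Project KN: the symbols
-/

set_option autoImplicit false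

universe u v w

namespace Pool.Agent.H16.KN

open Pool.Agent.H95.KM (Km1 ind)
open Pool.Agent.H95.WH (FamSub conjHom FinSub)
open Pool.Agent.H71.FQ (HG HG.map centConj)

variable {k : Type u} [Ring k] {G : Type v} [Group G] {n : ℕ}

/-- The projection. -/
noncomputable def toHn (k : Type u) [Ring k] (G : Type v) [Group G] (n : ℕ) :
    FreeAbelianGroup (SymN k G n) →+ HnKm1 k G n := QuotientAddGroup.mk' (SymRel k G n)

/-- The symbol `[F, x, z]`. -/
noncomputable def sym (F : FamSub G FinSub) (x : Km1 (MonoidAlgebra k F.1))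
    (z : HG (Subgroup.centralizer (F.1 : Set G)) n) : HnKm1 k G n :=
  QuotientAddGroup.mk (FreeAbelianGroup.of ⟨F, x, z⟩)

theorem toHn_eq_zero {w : FreeAbelianGroup (SymN k G n)} (h : w ∈ SymRel k G n) :
    toHn k G n w = 0 :=
  (QuotientAddGroup.eq_zero_iff _).2 h

theorem sym_add (F : FamSub G FinSub) (x y : Km1 (MonoidAlgebra k F.1))
    (z : HG (Subgroup.centralizer (F.1 : Set G)) n) :
    sym F (x + y) z = sym F x z + sym F y z := by
  have h : toHn k G n (symX k G n F x y z) = 0 :=
    toHn_eq_zero (AddSubgroup.subset_closure (Or.inl (Or.inl ⟨F, x, y, z, rfl⟩)))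
  unfold symX at h
  rw [map_sub, map_add, sub_eq_zero] at h
  exact h

theorem sym_addz (F : FamSub G FinSub) (x : Km1 (MonoidAlgebra k F.1))
    (z z' : HG (Subgroup.centralizer (F.1 : Set G)) n) :
    sym F x (z + z') = sym F x z + sym F x z' := by
  have h : toHn k G n (symZ k G n F x z z') = 0 :=
    toHn_eq_zero (AddSubgroup.subset_closure (Or.inl (Or.inr ⟨F, x, z, z', rfl⟩)))
  unfold symZ at h
  rw [map_sub, map_add, sub_eq_zero] at h
  exact h

theorem sym_conj (F F' : FamSub G FinSub) (g : G) (h : ∀ x ∈ F.1, g * x * g⁻¹ ∈ F'.1)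
    (x : Km1 (MonoidAlgebra k F.1)) (z : HG (Subgroup.centralizer (F'.1 : Set G)) n) :
    sym F' (ind k (conjHom g F.1 F'.1 h) x) z = sym F x (HG.map n (centConj g F.1 F'.1 h) z) := by
  have h' : toHn k G n (symC k G n F F' g h x z) = 0 :=
    toHn_eq_zero (AddSubgroup.subset_closure (Or.inr ⟨F, F', g, h, x, z, rfl⟩))
  unfold symC at h'
  rw [map_sub, sub_eq_zero] at h'
  exact h'

/-- the symbol as a homomorphism in the `K₋₁`-variable -/
noncomputable def symH (F : FamSub G FinSub) (z : HG (Subgroup.centralizer (F.1 : Set G)) n) :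
    Km1 (MonoidAlgebra k F.1) →+ HnKm1 k G n :=
  AddMonoidHom.mk' (fun x => sym F x z) (fun x y => sym_add F x y z)

theorem symH_apply (F : FamSub G FinSub) (x : Km1 (MonoidAlgebra k F.1))
    (z : HG (Subgroup.centralizer (F.1 : Set G)) n) : symH F z x = sym F x z := rfl

/-- the symbol as a homomorphism in the homology variable -/
noncomputable def symHz (F : FamSub G FinSub) (x : Km1 (MonoidAlgebra k F.1)) :
    HG (Subgroup.centralizer (F.1 : Set G)) n →+ HnKm1 k G n :=
  AddMonoidHom.mk' (fun z => sym F x z) (fun z z' => sym_addz F x z z')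

theorem sym_induction {P : HnKm1 k G n → Prop} (h0 : P 0)
    (h1 : ∀ (F : FamSub G FinSub) (x : Km1 (MonoidAlgebra k F.1))
      (z : HG (Subgroup.centralizer (F.1 : Set G)) n), P (sym F x z))
    (h2 : ∀ a b, P a → P b → P (a + b)) (h3 : ∀ a, P a → P (-a)) (w : HnKm1 k G n) : P w := by
  obtain ⟨y, rfl⟩ : ∃ y, toHn k G n y = w := QuotientAddGroup.mk_surjective w
  induction y using FreeAbelianGroup.induction_on with
  | zero => rw [map_zero]; exact h0
  | of s => exact h1 s.F s.x s.z
  | neg s _ =>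
    rw [map_neg]
    exact h3 _ (h1 s.F s.x s.z)
  | add x y hx hy => rw [map_add]; exact h2 _ _ hx hy

/-- Homomorphisms out of `HnKm1`. -/
noncomputable def HnKm1.lift {M : Type w} [AddCommGroup M]
    (f : ∀ F : FamSub G FinSub, Km1 (MonoidAlgebra k F.1) →+
      HG (Subgroup.centralizer (F.1 : Set G)) n →+ M)
    (hf : ∀ (F F' : FamSub G FinSub) (g : G) (h : ∀ x ∈ F.1, g * x * g⁻¹ ∈ F'.1)
      (x : Km1 (MonoidAlgebra k F.1)) (z : HG (Subgroup.centralizer (F'.1 : Set G)) n),
      f F' (ind k (conjHom g F.1 F'.1 h) x) z = f F x (HG.map n (centConj g F.1 F'.1 h) z)) :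
    HnKm1 k G n →+ M :=
  QuotientAddGroup.lift (SymRel k G n) (FreeAbelianGroup.lift fun s : SymN k G n => f s.F s.x s.z)
    (by
      rw [SymRel, AddSubgroup.closure_le]
      rintro w ((⟨F, x, y, z, rfl⟩ | ⟨F, x, z, z', rfl⟩) | ⟨F, F', g, h, x, z, rfl⟩)
      · change FreeAbelianGroup.lift _ _ = 0
        rw [symX, symOf, symOf, symOf, map_sub, map_add, FreeAbelianGroup.lift_apply_of,
          FreeAbelianGroup.lift_apply_of, FreeAbelianGroup.lift_apply_of, map_add,
          AddMonoidHom.add_apply, sub_self]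
      · change FreeAbelianGroup.lift _ _ = 0
        rw [symZ, symOf, symOf, symOf, map_sub, map_add, FreeAbelianGroup.lift_apply_of,
          FreeAbelianGroup.lift_apply_of, FreeAbelianGroup.lift_apply_of, map_add, sub_self]
      · change FreeAbelianGroup.lift _ _ = 0
        rw [symC, symOf, symOf, map_sub, FreeAbelianGroup.lift_apply_of,
          FreeAbelianGroup.lift_apply_of, sub_eq_zero]
        exact hf F F' g h x z)

theorem HnKm1.lift_sym {M : Type w} [AddCommGroup M]
    (f : ∀ F : FamSub G FinSub, Km1 (MonoidAlgebra k F.1) →+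
      HG (Subgroup.centralizer (F.1 : Set G)) n →+ M)
    (hf : ∀ (F F' : FamSub G FinSub) (g : G) (h : ∀ x ∈ F.1, g * x * g⁻¹ ∈ F'.1)
      (x : Km1 (MonoidAlgebra k F.1)) (z : HG (Subgroup.centralizer (F'.1 : Set G)) n),
      f F' (ind k (conjHom g F.1 F'.1 h) x) z = f F x (HG.map n (centConj g F.1 F'.1 h) z))
    (F : FamSub G FinSub) (x : Km1 (MonoidAlgebra k F.1))
    (z : HG (Subgroup.centralizer (F.1 : Set G)) n) :
    HnKm1.lift f hf (sym F x z) = f F x z := by
  have h : FreeAbelianGroup.lift (fun s : SymN k G n => f s.F s.x s.z)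
      (FreeAbelianGroup.of ⟨F, x, z⟩) = f F x z := FreeAbelianGroup.lift_apply_of _ _
  exact h

/-- the inclusion of the centralizers for `D ≤ F` -/
def centIncl (D F : Subgroup G) (h : D ≤ F) :
    Subgroup.centralizer (F : Set G) →* Subgroup.centralizer (D : Set G) :=
  Subgroup.inclusion (Subgroup.centralizer_le h)

/-- Restriction to a subgroup. -/
theorem sym_incl (F D : FamSub G FinSub) (h : D.1 ≤ F.1) (x : Km1 (MonoidAlgebra k D.1))
    (z : HG (Subgroup.centralizer (F.1 : Set G)) n) :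
    sym F (ind k (Subgroup.inclusion h) x) z = sym D x (HG.map n (centIncl D.1 F.1 h) z) := by
  have h1 : ∀ x ∈ D.1, (1 : G) * x * (1 : G)⁻¹ ∈ F.1 := by
    intro x hx
    rw [one_mul, inv_one, mul_one]
    exact h hx
  have h2 := sym_conj (k := k) D F 1 h1 x z
  have h3 : conjHom (1 : G) D.1 F.1 h1 = Subgroup.inclusion h := by
    apply MonoidHom.ext
    intro a
    apply Subtype.ext
    change (1 : G) * a * (1 : G)⁻¹ = a
    rw [one_mul, inv_one, mul_one]
  have h4 : centConj (1 : G) D.1 F.1 h1 = centIncl D.1 F.1 h := by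
    apply MonoidHom.ext
    intro z'
    apply Subtype.ext
    change (1 : G)⁻¹ * z' * 1 = z'
    rw [inv_one, one_mul, mul_one]
  rw [h3, h4] at h2
  exact h2

end Pool.Agent.H16.KN

end
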