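import Pool.Agent.H13.TFQ.H71.FQ.KQ_1
import Pool.Agent.H13.TFQ.M13
import Pool.Agent.H13.TFQ.M24
import Pool.Agent.H13.TFQ.M41
import Pool.Agent.H13.TFQ.M73
import Pool.Agent.H13.TFQ.M85

/-! The parts of this file: H39.KL.LamE, H8.KL.ElimS, H16.KN.LinDN. -/

section

/-!
# Project KL: the functional on `(1, U)`: the value for `U = 1 + ε A`, `ε ^ 2 = 0`

PROOF of `lamQ_eps`: `ε` with `ε ^ 2 = 0`, `U = 1 + ε A`, so `U⁻¹ = 1 - ε A`.  By `TM_eq` with `S = univ` (`C` finite) the value is the sum over
the words `α : Fin (2 q) → C` of the trace of the product of the coefficients `[α_t = 1] ± ε A_{α_t}` (`+` for `t` even, `-`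
for `t` odd) times `wv`; the product is `∏ [α_t = 1] ± ε ∑_t (…)`, so only the words with at most one letter `≠ 1` contribute;
the product of the word must be `d ≠ 1` (`C` is commutative, `p ∣ orderOf d`): so exactly one letter is `d`.
For `t = 2 b` the vertices (`u = 1`) are `v_0 = (1, …, 1, d, …, d)` (`1` for the indices `≤ b`) and `v_1 = (1, …, 1, d, …, d)` (`1`
for the indices `< b`), i.e. `v_1 = sig q d v_0`, and `tl = val (p ^ r) = p ^ r` (`r < m`).  For `t = 2 b + 1` `v_1 = v_0` and `tl = 0`.
The sum over `b` gives `q * p ^ r * ε * tr (A_d)`.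
-/

set_option autoImplicit false

open Matrix

universe u v w

namespace Pool.Agent.H39.KL

open Pool.Agent.H71.FQ Pool.Agent.H16.KN

section

/-- the product of factors `c_t + ε X_t` -/
private theorem prod_eps {B : Type v} [CommRing B] {R : Type w} [Ring R] [Algebra B R] {ε : B}
    (hε : ε ^ 2 = 0) {n : ℕ} (c : Fin n → B) (X : Fin n → R) :
    (List.ofFn fun t => c t • (1 : R) + ε • X t).prod =
      (∏ t, c t) • (1 : R) + ε • ∑ t, (∏ s, if s = t then 1 else c s) • X t := by
  induction n with
  | zero => simp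
  | succ n ih =>
    rw [List.ofFn_succ, List.prod_cons, ih (fun t => c t.succ) (fun t => X t.succ),
      Fin.prod_univ_succ, Fin.sum_univ_succ]
    have h0 : (∏ s : Fin (n + 1), if s = 0 then 1 else c s) = ∏ s : Fin n, c s.succ := by
      rw [Fin.prod_univ_succ, if_pos rfl, one_mul]
      refine Finset.prod_congr rfl fun s _ => ?_
      rw [if_neg (Fin.succ_ne_zero s)]
    have h1 : ∀ t : Fin n, (∏ s : Fin (n + 1), if s = t.succ then 1 else c s) =
        c 0 * ∏ s : Fin n, if s = t then 1 else c s.succ := by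
      intro t
      rw [Fin.prod_univ_succ, if_neg (Fin.succ_ne_zero t).symm]
      congr 1
      refine Finset.prod_congr rfl fun s _ => ?_
      simp only [Fin.succ_inj]
    rw [h0]
    have h2 : (∑ t : Fin n, (∏ s : Fin (n + 1), if s = t.succ then 1 else c s) • X t.succ) =
        c 0 • ∑ t : Fin n, (∏ s : Fin n, if s = t then 1 else c s.succ) • X t.succ := by
      rw [Finset.smul_sum]
      refine Finset.sum_congr rfl fun t _ => ?_
      rw [h1 t, mul_smul]
    rw [h2]
    set S := ∑ t : Fin n, (∏ s : Fin n, if s = t then 1 else c s.succ) • X t.succ with hS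
    set P := ∏ s : Fin n, c s.succ with hP
    have he : ε * ε = 0 := by rw [← sq]; exact hε
    rw [add_mul, mul_add, mul_add, smul_mul_smul_comm, smul_mul_smul_comm, smul_mul_smul_comm,
      smul_mul_smul_comm, he, zero_smul, one_mul, one_mul, mul_one]
    module

variable {C : Type u} [Group C] {B : Type v} [CommRing B]

private theorem TM_eq' {K : ℕ} [Fintype C] {c : C} {φ : (Fin K → C) → B} (hφ : CI c φ) {N : ℕ}
    (b : Fin K → Matrix (Fin N) (Fin N) (MonoidAlgebra B C)) :
    TM c φ b = ∑ g : Fin K → C,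
      ((List.ofFn fun j => cof (b j) (g j)).prod).trace * wv c φ g := by
  rw [TM_eq hφ b Finset.univ fun _ _ _ => Finset.mem_univ _]
  exact Fintype.sum_equiv (Equiv.arrowCongr (Equiv.refl _)
    (Equiv.subtypeUnivEquiv fun x => Finset.mem_univ x)) _ _ fun g => rfl

open Classical in
private theorem cof_one_add {N : ℕ} (A : Matrix (Fin N) (Fin N) (MonoidAlgebra B C)) (ε : B)
    (a : C) : cof (1 + ε • A) a = (if a = 1 then (1 : B) else 0) •
      (1 : Matrix (Fin N) (Fin N) B) + ε • cof A a := by
  ext i j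
  show ((1 : Matrix (Fin N) (Fin N) (MonoidAlgebra B C)) i j + ε • A i j).coeff a = _
  rw [MonoidAlgebra.coeff_add, Finsupp.add_apply, Matrix.add_apply, Matrix.smul_apply,
    Matrix.smul_apply]
  congr 1
  by_cases hij : i = j
  · subst hij
    rw [Matrix.one_apply_eq, Matrix.one_apply_eq, MonoidAlgebra.one_def,
      MonoidAlgebra.coeff_single]
    by_cases ha : a = 1
    · rw [if_pos ha, ha, Finsupp.single_eq_same, smul_eq_mul, mul_one]
    · rw [if_neg ha, Finsupp.single_eq_of_ne ha, zero_smul]
  · rw [Matrix.one_apply_ne hij, Matrix.one_apply_ne hij, smul_zero]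
    rfl

private theorem take_update {K : ℕ} (t : Fin K) (a : C) (s : ℕ) (hs : s ≤ K) :
    ((List.ofFn (Function.update (fun _ : Fin K => (1 : C)) t a)).take s).prod =
      if s ≤ (t : ℕ) then 1 else a := by
  induction s with
  | zero => rw [List.take_zero, List.prod_nil, if_pos (Nat.zero_le _)]
  | succ s ih =>
    have hl : s < (List.ofFn (Function.update (fun _ : Fin K => (1 : C)) t a)).length := by
      rw [List.length_ofFn]
      omega
    rw [List.take_succ_eq_append_getElem hl, List.prod_append, List.prod_singleton,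
      List.getElem_ofFn, ih (by omega)]
    rcases lt_trichotomy s (t : ℕ) with h | h | h
    · rw [if_pos h.le, if_pos (by omega), one_mul,
        Function.update_of_ne (fun h1 => h.ne (congrArg Fin.val h1))]
    · rw [if_pos h.le, if_neg (by omega), one_mul,
        show (⟨s, by omega⟩ : Fin K) = t from Fin.ext h, Function.update_self]
    · rw [if_neg (by omega), if_neg (by omega),
        Function.update_of_ne (fun h1 => h.ne' (congrArg Fin.val h1)), mul_one]

/-- words with one letter `≠ 1` -/
theorem TM_eps {K : ℕ} [Finite C] (hC : ∀ a b : C, a * b = b * a) {d : C} (hd : d ≠ 1)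
    {φ : (Fin K → C) → B} (hφ : CI d φ) {N : ℕ} {ε : B} (hε : ε ^ 2 = 0)
    (A : Fin K → Matrix (Fin N) (Fin N) (MonoidAlgebra B C)) :
    TM d φ (fun t => 1 + ε • A t) = ∑ t, ε * (cof (A t) d).trace *
      φ (fun s => if s ≤ t then 1 else d) := by
  classical
  have := Fintype.ofFinite C
  have hone : ∀ g : Fin K → C, (List.ofFn g).prod ≠ d → wv d φ g = 0 := by
    intro g hg
    refine wv_zero d φ g fun u hu => hg ?_
    rw [hC u, mul_assoc, mul_inv_cancel, mul_one] at hu
    exact hu
  rw [TM_eq' hφ]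
  have h1 : ∀ g : Fin K → C, ((List.ofFn fun j => cof (1 + ε • A j) (g j)).prod).trace * wv d φ g =
      ∑ t, (∏ s, if s = t then 1 else if g s = 1 then (1 : B) else 0) *
        (ε * (cof (A t) (g t)).trace) * wv d φ g := by
    intro g
    have h2 : (List.ofFn fun j => cof (1 + ε • A j) (g j)) = List.ofFn fun j =>
        (if g j = 1 then (1 : B) else 0) • (1 : Matrix (Fin N) (Fin N) B) + ε • cof (A j) (g j) := by
      congr 1
      funext j
      exact cof_one_add (A j) ε (g j)
    rw [h2, prod_eps hε, Matrix.trace_add, Matrix.trace_smul, Matrix.trace_smul,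
      Matrix.trace_sum, add_mul]
    have h3 : (∏ t, if g t = 1 then (1 : B) else 0) • (1 : Matrix (Fin N) (Fin N) B).trace *
        wv d φ g = 0 := by
      by_cases hg : ∀ t, g t = 1
      · rw [hone g, mul_zero]
        have h4 : g = fun _ => 1 := funext hg
        rw [h4]
        intro h5
        apply hd
        rw [← h5]
        refine List.prod_eq_one fun x hx => ?_
        rw [List.mem_ofFn] at hx
        obtain ⟨i, rfl⟩ := hx
        rfl
      · push Not at hg
        obtain ⟨t, ht⟩ := hg
        rw [Finset.prod_eq_zero (Finset.mem_univ t) (if_neg ht), zero_smul, zero_mul]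
    rw [h3, zero_add, smul_eq_mul, Finset.mul_sum, Finset.sum_mul]
    refine Finset.sum_congr rfl fun t _ => ?_
    rw [Matrix.trace_smul, smul_eq_mul]
    ring
  rw [Finset.sum_congr rfl fun g _ => h1 g, Finset.sum_comm]
  refine Finset.sum_congr rfl fun t _ => ?_
  have hprod : ∀ a : C, (List.ofFn (Function.update (fun _ : Fin K => (1 : C)) t a)).prod = a := by
    intro a
    have h2 := take_update t a K le_rfl
    rw [List.take_of_length_le (by rw [List.length_ofFn]), if_neg (not_le.2 t.2)] at h2
    exact h2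
  rw [Finset.sum_eq_single (Function.update (fun _ => (1 : C)) t d)]
  · rw [Function.update_self]
    have h2 : (∏ s, if s = t then 1 else
        if Function.update (fun _ => (1 : C)) t d s = 1 then (1 : B) else 0) = 1 := by
      refine Finset.prod_eq_one fun s _ => ?_
      by_cases hs : s = t
      · rw [if_pos hs]
      · rw [if_neg hs, Function.update_of_ne hs, if_pos rfl]
    rw [h2, one_mul]
    congr 1
    rw [wv_eq hφ _ 1 (by rw [hprod, one_mul, inv_one, mul_one])]
    congr 1
    funext s
    unfold vtx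
    rw [take_update t d s s.2.le, one_mul]
    rfl
  · intro g _ hg
    by_cases hs : ∀ s, s ≠ t → g s = 1
    · have hgt : g = Function.update (fun _ => (1 : C)) t (g t) := by
        funext s
        by_cases hst : s = t
        · rw [hst, Function.update_self]
        · rw [Function.update_of_ne hst, hs s hst]
      rw [hone g, mul_zero]
      rw [hgt, hprod]
      intro h5
      apply hg
      rw [hgt, h5]
    · push Not at hs
      obtain ⟨s, hst, hs⟩ := hs
      rw [Finset.prod_eq_zero (Finset.mem_univ s) (by rw [if_neg hst, if_neg hs]), zero_mul,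
        zero_mul]
  · intro h
    exact absurd (Finset.mem_univ _) h

end

end Pool.Agent.H39.KL

end

section

/-!
# Project KL, module ElimS: elimination with `p`-integral functionals

`elim_sep` : `β : X → H → E` biadditive, `T : X → V` additive, `V` a vector space over `ℚ`, with torsion kernel, and `H`
`p`-separated.  If `∑ j, f (h j) T (x j) = 0` for all `p`-integral `f : H → ℚ` then `∑ j, β (x j) (h j)` is torsion.
-/

set_option autoImplicit false

universe u v w t

namespace Pool.Agent.H8.KL

open Pool.Agent.H71.DB (elim' exists_common_denom)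
open Pool.Agent.H16.KN (PSepA sep_homA)

theorem elim_sep {p : ℕ} {X : Type u} [AddCommGroup X] {H : Type v} [AddCommGroup H] {E : Type w}
    [AddCommGroup E] {V : Type t} [AddCommGroup V] [Module ℚ V] (β : X →+ H →+ E) (T : X →+ V)
    (hT : ∀ x, T x = 0 → ∃ m : ℤ, m ≠ 0 ∧ m • x = 0) (hsep : PSepA p H) {ι : Type*} [Fintype ι]
    (x : ι → X) (h : ι → H)
    (h0 : ∀ f : H →+ ℚ, (∀ y, ¬ p ∣ (f y).den) → ∑ j, f (h j) • T (x j) = 0) :
    ∃ m : ℤ, m ≠ 0 ∧ m • ∑ j, β (x j) (h j) = 0 := by
  classical
  refine elim' β x h fun μ m a hm ha => ?_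
  apply hT
  -- the relation for `μ`
  have h1 : ∑ j, μ (h j) • T (x j) = 0 := by
    let b := Module.Basis.ofVectorSpace ℚ V
    apply b.repr.injective
    ext i
    have h2 := sep_homA (L := ℚ) hsep (fun j => b.repr (T (x j)) i) h (fun lam hlam => by
      have h3 := congrArg (fun v => b.repr v i) (h0 lam hlam)
      simp only [map_sum, map_smul, map_zero, Finsupp.coe_zero, Pi.zero_apply,
        Finsupp.finsetSum_apply, Finsupp.smul_apply, smul_eq_mul] at h3
      rw [← h3]
      refine Finset.sum_congr rfl fun j _ => ?_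
      rw [Rat.cast_id, mul_comm]) μ
    simp only [map_sum, map_smul, map_zero, Finsupp.coe_zero, Pi.zero_apply,
      Finsupp.finsetSum_apply, Finsupp.smul_apply, smul_eq_mul]
    rw [← h2]
    refine Finset.sum_congr rfl fun j _ => ?_
    rw [mul_comm]
  have h3 := congrArg (fun v => (m : ℚ) • v) h1
  simp only [Finset.smul_sum, smul_smul, smul_zero] at h3
  rw [map_sum, ← h3]
  refine Finset.sum_congr rfl fun j _ => ?_
  rw [map_zsmul, ha j, Int.cast_smul_eq_zsmul]

end Pool.Agent.H8.KL

end

section

/-!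
# Project KN, module LinDN: functionals on the symbols, definitions

`FunN` : rational functionals on the symbols `[D, Θ(n), z]`, `z ∈ H_{k+1}(Z_G(D); ℤ)`.
`cnj c x D h` : the homomorphism `Z_G(D) → Z_G(c)`, `z ↦ x⁻¹ z x`, for `x c x⁻¹ ∈ D`.
`trc k c D d` : the homomorphism `H_{k+1}(Z_G(D)) → H_{k+1}(Z_G(c))` induced by it for `x c x⁻¹ = d`, zero if `d` is
not conjugate to `c`.
-/

set_option autoImplicit false

open NumberField

universe u v w

namespace Pool.Agent.H16.KN

open Pool.Agent.H95.KM
open Pool.Agent.H95.WH (conjHom)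
open Pool.Agent.H71.DB (xc)
open Pool.Agent.H71.FQ (HG HG.map)

section cnj

variable {G : Type v} [Group G]

theorem cnj_mem (c x : G) (D : Subgroup G) (h : x * c * x⁻¹ ∈ D)
    (z : Subgroup.centralizer (D : Set G)) :
    x⁻¹ * z * x ∈ Subgroup.centralizer ({c} : Set G) := by
  rw [Subgroup.mem_centralizer_iff]
  intro a ha
  rw [Set.mem_singleton_iff] at ha
  subst ha
  have h1 := Subgroup.mem_centralizer_iff.1 z.2 _ h
  calc a * (x⁻¹ * z * x) = x⁻¹ * (x * a * x⁻¹ * z) * x := by group
    _ = x⁻¹ * (z * (x * a * x⁻¹)) * x := by rw [h1]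
    _ = _ := by group

/-- The homomorphism `Z_G(D) → Z_G(c)`, `z ↦ x⁻¹ z x`, for `x c x⁻¹ ∈ D`. -/
def cnj (c x : G) (D : Subgroup G) (h : x * c * x⁻¹ ∈ D) :
    Subgroup.centralizer (D : Set G) →* Subgroup.centralizer ({c} : Set G) where
  toFun z := ⟨x⁻¹ * z * x, cnj_mem c x D h z⟩
  map_one' := by
    apply Subtype.ext
    change x⁻¹ * 1 * x = 1
    group
  map_mul' a b := by
    apply Subtype.ext
    change x⁻¹ * (a * b : G) * x = x⁻¹ * a * x * (x⁻¹ * b * x)
    group

@[simp] theorem cnj_coe (c x : G) (D : Subgroup G) (h : x * c * x⁻¹ ∈ D)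
    (z : Subgroup.centralizer (D : Set G)) : (cnj c x D h z : G) = x⁻¹ * z * x := rfl

/-- the induced map in homology depends on `x c x⁻¹` only -/
theorem map_cnj_eq (k : ℕ) (c x y : G) (D : Subgroup G) (h : x * c * x⁻¹ ∈ D)
    (h' : y * c * y⁻¹ ∈ D) (hxy : x * c * x⁻¹ = y * c * y⁻¹)
    (z : HG (Subgroup.centralizer (D : Set G)) k) :
    HG.map k (cnj c x D h) z = HG.map k (cnj c y D h') z := by
  have h1 : x⁻¹ * y ∈ Subgroup.centralizer ({c} : Set G) := by
    rw [Subgroup.mem_centralizer_iff]
    intro a ha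
    rw [Set.mem_singleton_iff] at ha
    subst ha
    calc a * (x⁻¹ * y) = x⁻¹ * (x * a * x⁻¹) * y := by group
      _ = x⁻¹ * (y * a * y⁻¹) * y := by rw [hxy]
      _ = _ := by group
  refine Pool.Agent.H71.FQ.HG.map_conj (cnj c y D h') (cnj c x D h) ⟨x⁻¹ * y, h1⟩ ?_ z
  intro a
  apply Subtype.ext
  change x⁻¹ * (a : G) * x = x⁻¹ * y * (y⁻¹ * (a : G) * y) * (x⁻¹ * y)⁻¹
  group

theorem cnj_mem_of_isConj {c : G} {D : Subgroup G} (d : D) (h : IsConj c (d : G)) :
    xc c (d : G) * c * (xc c (d : G))⁻¹ ∈ D := by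
  rw [Pool.Agent.H71.DB.xc_spec c h]
  exact d.2

open Classical in
/-- The transport `H_{k+1}(Z_G(D)) → H_{k+1}(Z_G(c))` along `x c x⁻¹ = d`; zero if there is no such `x`. -/
noncomputable def trc (k : ℕ) (c : G) (D : Subgroup G) (d : D) :
    HG (Subgroup.centralizer (D : Set G)) k →+ HG (Subgroup.centralizer ({c} : Set G)) k :=
  if h : IsConj c (d : G) then HG.map k (cnj c (xc c (d : G)) D (cnj_mem_of_isConj d h)) else 0

theorem trc_of_not {k : ℕ} {c : G} {D : Subgroup G} {d : D} (h : ¬ IsConj c (d : G)) :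
    trc k c D d = 0 := by
  unfold trc
  rw [dif_neg h]

theorem trc_eq {k : ℕ} {c : G} {D : Subgroup G} {d : D} (x : G) (hx : x * c * x⁻¹ = d)
    (hm : x * c * x⁻¹ ∈ D) (z : HG (Subgroup.centralizer (D : Set G)) k) :
    trc k c D d z = HG.map k (cnj c x D hm) z := by
  have h : IsConj c (d : G) := isConj_iff.2 ⟨x, hx⟩
  unfold trc
  rw [dif_pos h]
  refine map_cnj_eq k c _ x D _ hm ?_ z
  rw [Pool.Agent.H71.DB.xc_spec c h, hx]

end cnj

end Pool.Agent.H16.KN

end
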