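import Pool.Agent.H13.TFQ.H71.FJ.Group
import Pool.Agent.H13.TFQ.M47
import Pool.Agent.H13.TFQ.M89

/-! The parts of this file: H16.KN.Key, H95.WH.Push_1. -/

section

/-!
# Project KN: the key claim

`fL π φ` is the cochain `(x_0, …, x_{n+2}) ↦ φ (π x_0, …, π x_{n+1}) (deg x_{n+2} - deg x_{n+1})` of `G × ℤ`.

PROOF of `key`.  By `hmeas` get `μ`.  Let `a : ℕ`; `TR_dvd_ev` (for `(c, 1)` in `G × Multiplicative ℤ`) gives `m`, `q = p ^ m`;
`ψ, β` from `hmeas`.  With `v̄ = fun j b => (v j b).1`, `λ0 a b = deg (b 0) - deg (a 0)`, `mn a = min over the coordinates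
of deg`, `λm a b = mn b - mn a`, `e a = deg (a 0) - mn a` on `Fin q → G × Multiplicative ℤ`:
`μ ^ (n + 2) • (fL on the first coordinates) = pL ψ̄ λm + (-1) ^ (n + 1) dl (pE ψ̄ e) - μ dl (pL β̄ λ0)` by `dl_pL`, `dl_pE`
(`dl ψ = 0`, `λ0 a b - λm a b = e b - e a`).  `TR_first`, `TR_add`, `TR_smul`, `TR_bd`: the last two terms give `TR` of
`pE ψ̄ e`, `pL β̄ λ0` on `qbd w ∈ QC0`, which vanish by `TR_half`; the first one is divisible by `p ^ (a + 1)` (`mn` is
invariant under `sig q (c, 1)`).  So `p ^ (a + 1) ∣ μ ^ (n + 2) * TQ (fL) w` for all `a`; `hsep`.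
-/

set_option autoImplicit false

open Matrix

universe u v w

namespace Pool.Agent.H16.KN

open Pool.Agent.H71.FQ

section

variable {G : Type u} [Group G] {B : Type v} [CommRing B] {n : ℕ} {c : G}

/-- the difference of the degrees -/
def ldg (B : Type v) [CommRing B] (a b : G × Multiplicative ℤ) : B := ((dg b - dg a : ℤ) : B)

private theorem dg_mul (g x : G × Multiplicative ℤ) : dg (g * x) = dg g + dg x := rfl

private theorem ldg_mul (g a b : G × Multiplicative ℤ) : ldg B (g * a) (g * b) = ldg B a b := by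
  unfold ldg
  rw [dg_mul, dg_mul]
  congr 1
  ring

theorem comm_fst {g : G × Multiplicative ℤ}
    (hg : g * ((c, 1) : G × Multiplicative ℤ) = ((c, 1) : G × Multiplicative ℤ) * g) :
    g.1 * c = c * g.1 := congrArg Prod.fst hg

private theorem pi_fst {π : G → Subgroup.centralizer ({c} : Set G)}
    (hπ : ∀ (z : Subgroup.centralizer ({c} : Set G)) (g : G), π (z * g) = z * π g)
    {g : G} (hg : g * c = c * g) (x : G) :
    π (g * x) = (⟨g, Subgroup.mem_centralizer_singleton_iff.2 hg⟩ :
      Subgroup.centralizer ({c} : Set G)) * π x := hπ ⟨g, _⟩ x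

/-- the cochain of `G × ℤ` defined by a cochain of the centralizer -/
def fL (π : G → Subgroup.centralizer ({c} : Set G))
    (φ : (Fin (n + 2) → Subgroup.centralizer ({c} : Set G)) → B) :
    (Fin (n + 3) → G × Multiplicative ℤ) → B :=
  pL (fun v : Fin (n + 2) → G × Multiplicative ℤ => φ fun j => π (v j).1) (ldg B)

/-- products of invariant cochains with the degree are invariant -/
theorem CI_pL {k : ℕ} {π : G → Subgroup.centralizer ({c} : Set G)}
    (hπ : ∀ (z : Subgroup.centralizer ({c} : Set G)) (g : G), π (z * g) = z * π g)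
    {φ : (Fin (k + 1) → Subgroup.centralizer ({c} : Set G)) → B}
    (hφ : ∀ (g : Subgroup.centralizer ({c} : Set G)) x, φ (fun j => g * x j) = φ x) :
    CI ((c, 1) : G × Multiplicative ℤ)
      (pL (fun v : Fin (k + 1) → G × Multiplicative ℤ => φ fun j => π (v j).1) (ldg B)) := by
  intro g hg v
  unfold pL
  rw [ldg_mul]
  congr 1
  have h1 : (fun j : Fin (k + 1) => π (g * v j.castSucc).1) = fun j : Fin (k + 1) =>
      (⟨g.1, Subgroup.mem_centralizer_singleton_iff.2 (comm_fst hg)⟩ :
        Subgroup.centralizer ({c} : Set G)) * π (v j.castSucc).1 := by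
    funext j
    exact pi_fst hπ (comm_fst hg) (v j.castSucc).1
  show φ (fun j : Fin (k + 1) => π (g * v j.castSucc).1) = φ fun j => π (v j.castSucc).1
  rw [h1]
  exact hφ _ _

theorem CI_fL {π : G → Subgroup.centralizer ({c} : Set G)}
    (hπ : ∀ (z : Subgroup.centralizer ({c} : Set G)) (g : G), π (z * g) = z * π g)
    {φ : (Fin (n + 2) → Subgroup.centralizer ({c} : Set G)) → B}
    (hφ : ∀ (g : Subgroup.centralizer ({c} : Set G)) x, φ (fun j => g * x j) = φ x) :
    CI ((c, 1) : G × Multiplicative ℤ) (fL π φ) := CI_pL hπ hφ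

/-- the minimum of the degrees -/
noncomputable def mn {q : ℕ} [NeZero q] (a : Fin q → G × Multiplicative ℤ) : ℤ :=
  Finset.univ.inf' ⟨0, Finset.mem_univ _⟩ fun t => dg (a t)

theorem mn_le {q : ℕ} [NeZero q] (a : Fin q → G × Multiplicative ℤ) (t : Fin q) :
    mn a ≤ dg (a t) := Finset.inf'_le _ (Finset.mem_univ t)

theorem le_mn {q : ℕ} [NeZero q] {a : Fin q → G × Multiplicative ℤ} {d : ℤ}
    (h : ∀ t, d ≤ dg (a t)) : d ≤ mn a := (Finset.le_inf'_iff _ _).2 fun t _ => h t

theorem mn_mul {q : ℕ} [NeZero q] (g : G × Multiplicative ℤ)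
    (a : Fin q → G × Multiplicative ℤ) : mn (fun t => g * a t) = dg g + mn a := by
  refine le_antisymm ?_ (le_mn fun t => ?_)
  · have h1 : mn (fun t => g * a t) - dg g ≤ mn a := by
      refine le_mn fun t => ?_
      have h2 := mn_le (fun t => g * a t) t
      rw [dg_mul] at h2
      linarith
    linarith
  · rw [dg_mul]
    have h2 := mn_le a t
    linarith

theorem mn_sig_ge {q : ℕ} [NeZero q] (a : Fin q → G × Multiplicative ℤ) :
    mn a ≤ mn (sig q ((c, 1) : G × Multiplicative ℤ) a) := by
  refine le_mn fun t => ?_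
  unfold sig
  by_cases h : (t : ℕ) + 1 < q
  · rw [dif_pos h]
    exact mn_le a _
  · rw [dif_neg h, dg_mul]
    have h1 : dg ((c, 1) : G × Multiplicative ℤ) = 0 := rfl
    rw [h1, zero_add]
    exact mn_le a _

section aux

variable {q : ℕ} [NeZero q]

def l0 (B : Type v) [CommRing B] (a b : Fin q → G × Multiplicative ℤ) : B :=
  ((dg (b 0) - dg (a 0) : ℤ) : B)

noncomputable def ee (B : Type v) [CommRing B] (a : Fin q → G × Multiplicative ℤ) : B :=
  ((dg (a 0) - mn a : ℤ) : B)

theorem l0_mul (g : G × Multiplicative ℤ) (a b : Fin q → G × Multiplicative ℤ) :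
    l0 B (fun t => g * a t) (fun t => g * b t) = l0 B a b := by
  unfold l0
  rw [dg_mul, dg_mul]
  congr 1
  ring

theorem ee_mul (g : G × Multiplicative ℤ) (a : Fin q → G × Multiplicative ℤ) :
    ee B (fun t => g * a t) = ee B a := by
  unfold ee
  rw [mn_mul, dg_mul]
  congr 1
  ring

end aux

end

end Pool.Agent.H16.KN

end

section

/-!
# Push-forward along a homomorphism to a matrix ring

For `φ : R →+* Matrix J J S` the homomorphism `K1.push φ : K₁(R) → K₁(S)` sends `[U]` to the class of
the matrix over `S` obtained by replacing every entry of `U` by its image (a `J × J` block).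
`flat`, `flat_mul` are in `Pool/Agent/H71/FJ/K0.lean`, `lamR`, `twR`, `incl` in
`Pool/Agent/H71/FJ/Group.lean`.

## Paper proofs

`push`: additivity by `cls_mul` and `flat_mul`; stability: `flat φ (diag(U, 1))` is, after the
reindexing `(Fin n ⊕ Fin 1) × J ≃ (Fin n × J) ⊕ (Fin 1 × J)`, `fromBlocks (flat φ U) 0 0 1` (`cls_reindex`,
`cls_stab`).
`push_congr`: `flat φ U = (1 ⊗ P) (flat φ' U) (1 ⊗ Q)` (`cls_conj`).
`push_sigma`: block diagonal homomorphisms.
`push_one`: a one-element index type.
`ind_res1`: same proof as `ind_res` in `Pool/Agent/H71/FJ/Group.lean`.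
-/

set_option autoImplicit false

open Matrix
open scoped Classical

universe u v w

namespace Pool.Agent.H95.WH

open Pool.Agent.H71.FJ (lamR twR incl)
open Pool.Agent.H71.FJ (tw lam tw_single lam_single out_mem_iff)

variable {R : Type u} [Ring R] {S : Type v} [Ring S] {T : Type w} [Ring T]
  {J : Type*} [Fintype J] [DecidableEq J]

namespace K1

section PushBlk

end PushBlk

end K1

variable {F : Type v} [Group F]

theorem push_tw_sigma {I : Type} [Fintype I] (D : I → Subgroup F) [∀ i, Fintype (F ⧸ D i)]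
    [Fintype (Σ i, F ⧸ D i)] [DecidableEq (Σ i, F ⧸ D i)] (x : K1 (MonoidAlgebra ℤ F)) :
    K1.push (twR ℤ (Σ i, F ⧸ D i)) x = ∑ i, K1.push (twR ℤ (F ⧸ D i)) x := by
  apply K1.push_blk
  intro r
  induction r using MonoidAlgebra.induction_linear with
  | zero =>
    simp only [map_zero]
    exact (Matrix.blockDiagonal'_zero).symm
  | add a b ha hb =>
    simp only [map_add]
    rw [ha, hb]
    exact (Matrix.blockDiagonal'_add _ _).symm
  | single h r =>
    ext ⟨i, x⟩ ⟨j, y⟩ : 1
    change tw ℤ (Σ i, F ⧸ D i) (MonoidAlgebra.single h r) ⟨i, x⟩ ⟨j, y⟩ = _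
    rw [tw_single]
    by_cases hij : i = j
    · subst hij
      rw [Matrix.blockDiagonal'_apply_eq]
      change _ = tw ℤ (F ⧸ D i) (MonoidAlgebra.single h r) x y
      rw [tw_single]
      by_cases hxy : x = h • y
      · rw [if_pos hxy, if_pos]
        rw [hxy]
        rfl
      · rw [if_neg hxy, if_neg]
        intro e
        apply hxy
        have e2 : (⟨i, x⟩ : Σ i, F ⧸ D i) = ⟨i, h • y⟩ := e
        exact eq_of_heq (Sigma.mk.inj e2).2
    · rw [Matrix.blockDiagonal'_apply_ne _ _ _ hij, if_neg]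
      intro e
      exact hij (congrArg Sigma.fst e)

theorem push_tw_top [Fintype (F ⧸ (⊤ : Subgroup F))] (x : K1 (MonoidAlgebra ℤ F)) :
    K1.push (twR ℤ (F ⧸ (⊤ : Subgroup F))) x = x := by
  have key : (K1.push (twR ℤ (F ⧸ (⊤ : Subgroup F))) :
      K1 (MonoidAlgebra ℤ F) →+ K1 (MonoidAlgebra ℤ F)) = AddMonoidHom.id _ := by
    apply K1.hom_ext
    intro n U
    rw [K1.push_mk, AddMonoidHom.id_apply, ← K1.cls_mk]
    have hsub : Subsingleton (F ⧸ (⊤ : Subgroup F)) := QuotientGroup.subsingleton_quotient_top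
    let u0 : F ⧸ (⊤ : Subgroup F) := ((1 : F) : F ⧸ (⊤ : Subgroup F))
    let e : Fin n × (F ⧸ (⊤ : Subgroup F)) ≃ Fin n :=
      { toFun := Prod.fst
        invFun := fun i => (i, u0)
        left_inv := fun x => Prod.ext rfl (Subsingleton.elim _ _)
        right_inv := fun i => rfl }
    have hval : ∀ (r : MonoidAlgebra ℤ F) (x y : F ⧸ (⊤ : Subgroup F)),
        twR ℤ (F ⧸ (⊤ : Subgroup F)) r x y = r := by
      intro r x y
      induction r using MonoidAlgebra.induction_linear with
      | zero => rw [map_zero]; rfl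
      | add a b ha hb => rw [map_add, Matrix.add_apply, ha, hb]
      | single h r =>
        change tw ℤ (F ⧸ (⊤ : Subgroup F)) (MonoidAlgebra.single h r) x y = _
        rw [tw_single, if_pos (Subsingleton.elim _ _)]
    rw [← K1.cls_reindex e]
    congr 1
    apply Units.ext
    rw [reU_val]
    refine Matrix.ext fun i j => ?_
    exact hval _ _ _
  rw [key]
  rfl

theorem ind_res1 (D : Subgroup F) [Fintype (F ⧸ D)] (x : K1 (MonoidAlgebra ℤ F)) :
    ind D.subtype (K1.push (lamR ℤ D) x) = K1.push (twR ℤ (F ⧸ D)) x := by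
  rw [ind, K1.map_push]
  symm
  refine K1.push_congr _ _ (diagonal fun x : F ⧸ D => MonoidAlgebra.single x.out (1 : ℤ))
    (diagonal fun x : F ⧸ D => MonoidAlgebra.single x.out⁻¹ (1 : ℤ)) ?_ ?_ ?_ x
  · rw [diagonal_mul_diagonal]
    simp only [MonoidAlgebra.single_mul_single, mul_inv_cancel, one_mul, ← MonoidAlgebra.one_def]
    exact diagonal_one
  · rw [diagonal_mul_diagonal]
    simp only [MonoidAlgebra.single_mul_single, inv_mul_cancel, one_mul, ← MonoidAlgebra.one_def]
    exact diagonal_one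
  · intro r
    induction r using MonoidAlgebra.induction_linear with
    | zero => simp
    | add a b ha hb => rw [map_add, map_add, Matrix.mul_add, Matrix.add_mul, ha, hb]
    | single h r =>
      ext x y : 1
      rw [Matrix.diagonal_mul, Matrix.mul_diagonal]
      change tw ℤ (F ⧸ D) (MonoidAlgebra.single h r) x y * _ =
        _ * (incl ℤ D) (lam ℤ D (MonoidAlgebra.single h r) x y)
      rw [lam_single, tw_single]
      by_cases hh : x.out⁻¹ * h * y.out ∈ D
      · rw [dif_pos hh, if_pos ((out_mem_iff D h x y).1 hh)]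
        simp only [incl, MonoidAlgebra.mapDomainRingHom_apply, MonoidAlgebra.mapDomain_single,
          MonoidAlgebra.single_mul_single, Subgroup.coe_subtype, one_mul, mul_one]
        congr 1
        group
      · rw [dif_neg hh, if_neg (fun h' => hh ((out_mem_iff D h x y).2 h')), map_zero, mul_zero,
          zero_mul]

end Pool.Agent.H95.WH

end
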