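import Pool.Agent.H13.TFQ.M26
import Pool.Agent.H13.TFQ.M85

/-! The parts of this file: H16.KN.TTb, H16.KN.TTc_1. -/

section

/-!
# Project KN: omission of vertices

`TT_face`: `TB_merge_zero` (`i = 0`) and `TB_merge_succ` of `FQ/TB.lean` with `q = 1` (`IsInv` for `q = 1`:
`sig 1 c v = lmul c v`, so `rot` follows from `CI` with `g = c`), and the product of the letters `x_i⁻¹ x_{i+1}`,
`x_{i+1}⁻¹ x_{i+2}`.
`TT_comp`: induction on `K'`: if `δ` is not the identity there is `i` not in the range, `δ = i.succAbove ∘ δ'`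
with `δ'` strictly monotone.
-/

set_option autoImplicit false

open Matrix

universe u v w

namespace Pool.Agent.H16.KN

open Pool.Agent.H71.FQ

section

variable {G : Type u} [Group G] {B : Type v} [CommRing B] {N : ℕ}

omit [CommRing B] in
private theorem isInv_one {K : ℕ} {c : G} {φ : (Fin K → G) → B} (hφ : CI c φ) :
    IsInv c (fun v : Fin K → Fin 1 → G => φ fun j => v j 0) := by
  refine ⟨fun g hg v => hφ g hg _, fun v => ?_⟩
  have h := hφ c rfl fun j => v j 0
  rw [← h]
  congr 1

theorem TT_face {k : ℕ} {c : G} {φ : (Fin (k + 1) → G) → B} (hφ : CI c φ)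
    (x : Fin (k + 2) → GLm N (MonoidAlgebra B G)) (i : Fin (k + 2)) :
    TT c (fun v : Fin (k + 2) → G => φ fun j => v (i.succAbove j)) x =
      TT c φ fun j => x (i.succAbove j) := by
  have hI := isInv_one hφ
  unfold TT TM
  induction i using Fin.cases with
  | zero =>
    simp only [Fin.zero_succAbove]
    refine (TB_merge_zero Nat.one_pos hI (lts x)).trans ?_
    congr 1
    funext j
    unfold lts
    beta_reduce
    by_cases hj : j = Fin.last k
    · rw [if_pos hj, ← Units.val_mul, hj, Fin.last_add_one,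
        Fin.last_add_one, Fin.succ_last, zero_add, mul_assoc, mul_inv_cancel_left]
      rfl
    · have h1 : (j + 1).succ = j.succ + 1 := by
        apply Fin.ext
        rw [Fin.val_succ, Fin.val_add_one, if_neg hj, Fin.val_add_one,
          if_neg (fun hc => hj (Fin.succ_injective _ (by rw [hc, Fin.succ_last]))), Fin.val_succ]
      rw [if_neg hj, h1]
  | succ i =>
    refine (TB_merge_succ Nat.one_pos hI (lts x) i).trans ?_
    congr 1
    funext j
    unfold lts
    beta_reduce
    rcases lt_trichotomy j i with hj | hj | hj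
    · rw [if_pos hj, succAbove_add_one_of_lt hj,
        Fin.succAbove_of_castSucc_lt _ _ (by
          rw [Fin.lt_def, Fin.val_castSucc, Fin.val_succ]
          have := Fin.lt_def.mp hj
          omega)]
    · subst hj
      rw [if_neg (lt_irrefl _), if_pos rfl, ← Units.val_mul,
        succAbove_add_one_of_le le_rfl, Fin.coeSucc_eq_succ, mul_assoc, mul_inv_cancel_left,
        Fin.succAbove_of_castSucc_lt _ _ Fin.castSucc_lt_succ]
    · rw [if_neg (not_lt.mpr hj.le), if_neg hj.ne', succAbove_add_one_of_le hj.le,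
        Fin.succAbove_of_le_castSucc _ _ (by
          rw [Fin.le_def, Fin.val_castSucc, Fin.val_succ]
          have := Fin.lt_def.mp hj
          omega)]

omit [CommRing B] in
private theorem CI.comp {K K' : ℕ} {c : G} {φ : (Fin K → G) → B} (hφ : CI c φ)
    (δ : Fin K → Fin K') : CI c (fun v : Fin K' → G => φ fun j => v (δ j)) :=
  fun g hg x => hφ g hg fun j => x (δ j)

private theorem exists_fac {K k : ℕ} (δ : Fin K → Fin (k + 2)) (hδ : StrictMono δ)
    (i : Fin (k + 2)) (hi : ∀ j, δ j ≠ i) :
    ∃ δ' : Fin K → Fin (k + 1), StrictMono δ' ∧ ∀ j, i.succAbove (δ' j) = δ j := by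
  have h : ∀ j, ∃ y, i.succAbove y = δ j := fun j => Fin.exists_succAbove_eq (hi j)
  choose δ' hδ' using h
  refine ⟨δ', fun a b hab => ?_, hδ'⟩
  have h1 := hδ hab
  rw [← hδ' a, ← hδ' b] at h1
  exact (Fin.strictMono_succAbove i).lt_iff_lt.1 h1

private theorem eq_id_of_surj {K K' : ℕ} (δ : Fin K → Fin K') (hδ : StrictMono δ)
    (hs : Function.Surjective δ) : ∃ h : K = K', δ = Fin.cast h := by
  have h : K = K' := by
    have h1 := Fintype.card_of_bijective ⟨hδ.injective, hs⟩
    rwa [Fintype.card_fin, Fintype.card_fin] at h1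
  subst h
  refine ⟨rfl, ?_⟩
  have h2 : (hδ.orderIsoOfSurjective δ hs) = OrderIso.refl (Fin K) := Subsingleton.elim _ _
  funext j
  have h3 := congrArg (fun e : Fin K ≃o Fin K => e j) h2
  exact h3

theorem TT_comp {K K' : ℕ} [NeZero K] [NeZero K'] {c : G} {φ : (Fin K → G) → B} (hφ : CI c φ)
    (δ : Fin K → Fin K') (hδ : StrictMono δ) (x : Fin K' → GLm N (MonoidAlgebra B G)) :
    TT c (fun v : Fin K' → G => φ fun j => v (δ j)) x = TT c φ fun j => x (δ j) := by
  by_cases hs : Function.Surjective δ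
  · obtain ⟨h, rfl⟩ := eq_id_of_surj δ hδ hs
    subst h
    rfl
  · unfold Function.Surjective at hs
    push Not at hs
    obtain ⟨i, hi⟩ := hs
    obtain ⟨k, rfl⟩ : ∃ k, K' = k + 2 := by
      have h1 : 0 < K := Nat.pos_of_ne_zero (NeZero.ne K)
      have h2 : K < K' := by
        have h3 : Fintype.card (Fin K) < Fintype.card (Fin K') :=
          Fintype.card_lt_of_injective_of_notMem δ hδ.injective (b := i)
            (by rintro ⟨j, hj⟩; exact hi j hj)
        rwa [Fintype.card_fin, Fintype.card_fin] at h3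
      exact ⟨K' - 2, by omega⟩
    obtain ⟨δ', hδ', hf⟩ := exists_fac δ hδ i hi
    have ih := TT_comp hφ δ' hδ' fun j => x (i.succAbove j)
    have hface := TT_face (CI.comp hφ δ') x i
    simp only [hf] at ih hface
    exact hface.trans ih
termination_by K'

end

end Pool.Agent.H16.KN

end

section

/-!
# Project KN: the trace functionals on `QC`

`TQ c φ : QC (B[G]) k → B` is the functional of a cochain `φ` of `k + 1` variables.  For a function `Φ` of `k + 1`
tuples of length `q` (vertex `j` in the blocks `0, …, q - 1`) `TR c q Φ` is the value of `Φ` on the tuple repeated `q`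
times: `rep q x t = x (t mod (k + 1))`, `t < q (k + 1)`; `finProdFinEquiv (b, j) = j + (k + 1) b`.

PROOFS.  `TQ_bd`, `TR_bd`: `TT_face`, `TT_comp` (the block face `(b, j) ↦ (b, i.succAbove j)` is strictly monotone and
`rep q x` composed with it is `rep q (x ∘ i.succAbove)`), `TM_sum`.  `TR_first`: `TT_comp` for `j ↦ (0, j)`.
-/

set_option autoImplicit false

open Matrix

universe u v w

namespace Pool.Agent.H16.KN

open Pool.Agent.H71.FQ

section

variable {G : Type u} [Group G] {B : Type v} [CommRing B] {k : ℕ}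

theorem TQ_bd {c : G} {φ : (Fin (k + 1) → G) → B} (hφ : CI c φ)
    (w : QC (MonoidAlgebra B G) (k + 1)) : TQ c φ (qbd w) = TQ c (dl φ) w := by
  refine ext_fun ((TQ c φ).comp qbd) (TQ c (dl φ)) (fun N x => ?_) w
  rw [AddMonoidHom.comp_apply, qbd_t, map_sum, TQ_t]
  refine Eq.trans ?_ (TM_sum Finset.univ (fun i : Fin (k + 2) => (-1 : ℤ) ^ (i : ℕ)) c
    (fun (i : Fin (k + 2)) (v : Fin (k + 2) → G) => φ fun j => v (i.succAbove j)) (lts x)).symm
  refine Finset.sum_congr rfl fun i _ => ?_
  rw [map_zsmul, TQ_t]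
  congr 1
  exact (TT_face hφ x i).symm

omit [CommRing B] in
private theorem CI_flat {c : G} {q : ℕ} {Φ : (Fin (k + 1) → Fin q → G) → B} (hΦ : CIq c q Φ) :
    CI c (flat q Φ) := fun g hg _ => hΦ g hg _

variable (q : ℕ) [NeZero q]

theorem TR_bd {c : G} {Φ : (Fin (k + 1) → Fin q → G) → B} (hΦ : CIq c q Φ)
    (w : QC (MonoidAlgebra B G) (k + 1)) : TR q c Φ (qbd w) = TR q c (dl Φ) w := by
  refine ext_fun ((TR q c Φ).comp qbd) (TR q c (dl Φ)) (fun N x => ?_) w
  rw [AddMonoidHom.comp_apply, qbd_t, map_sum, TR_t, flat_dl]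
  refine Eq.trans ?_ (TM_sum Finset.univ (fun i : Fin (k + 2) => (-1 : ℤ) ^ (i : ℕ)) c
    (fun (i : Fin (k + 2)) (y : Fin (q * (k + 1 + 1)) → G) => flat q Φ fun t => y (bf q i t))
    (lts (rep q x))).symm
  refine Finset.sum_congr rfl fun i _ => ?_
  rw [map_zsmul, TR_t]
  congr 1
  have h := TT_comp (CI_flat hΦ) (bf q i) (bf_mono q i) (rep q x)
  simp only [rep_bf] at h
  exact h.symm

/-- **The first block.** -/
theorem TR_first {c : G} {φ : (Fin (k + 1) → G) → B} (hφ : CI c φ)
    (w : QC (MonoidAlgebra B G) k) :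
    TR q c (fun v => φ fun j => v j 0) w = TQ c φ w := by
  refine ext_fun (TR q c (fun v => φ fun j => v j 0)) (TQ c φ) (fun N x => ?_) w
  rw [TR_t, TQ_t]
  have hm : StrictMono fun j : Fin (k + 1) => (finProdFinEquiv ((0 : Fin q), j)) := by
    intro s t hst
    simp only [Fin.lt_def, finProdFinEquiv_apply_val] at hst ⊢
    omega
  have h := TT_comp hφ (fun j : Fin (k + 1) => (finProdFinEquiv ((0 : Fin q), j))) hm (rep q x)
  have h2 : (fun j : Fin (k + 1) => rep q x (finProdFinEquiv ((0 : Fin q), j))) = x := by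
    funext j
    rw [rep, Equiv.symm_apply_apply]
  rw [h2] at h
  exact h

end

end Pool.Agent.H16.KN

end
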