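import Pool.Agent.H13.TFQ.H16.KN.Defs2
import Pool.Agent.H13.TFQ.H16.KN.Pris
import Pool.Agent.H13.TFQ.H16.KN.Sy
import Pool.Agent.H13.TFQ.M100
import Pool.Agent.H13.TFQ.M92
import Pool.Agent.H13.TFQ.M97

/-! The parts of this file: H16.KN.EvA, H16.KN.Chn, H16.KN.GZ_1. -/

section

/-!
# Project KN: evaluation of the prisms

PROOFS.
`TQ_fL_bd`: `TQ_bd` (`CI_fL`), `dl_pL`, `dl φ = 0`.
`TT_fL_zero`: `TM_eq`; in a word with non-zero coefficients the letter of the index `n + 1` has degree `0`, so the last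
two vertices have the same degree and `ldg = 0`.
`TQ_prism`: `TQ` of `ch` is a `linearCombination` of `TT c' (fL π φ)` (`lift_ch`); `prism_last`.
`TQ_const`: by `TQ_prism` with `a = 1`, `b = D` (the letter is `D⁻¹ * D = 1`) the value is
`msl z • TT c' (fL π φ) (1, …, 1, D)`.  If `n` is odd `msl z = 0` (`msl_cyc`).  If `n` is even `φ` vanishes on constant
tuples (cocycle identity for the constant tuple) and `TM_eq`: in the words `(1, …, 1, g, g')` the first `n + 2` vertices are
equal.
-/

set_option autoImplicit false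

open Matrix

universe u v w

namespace Pool.Agent.H16.KN

open Pool.Agent.H71.FQ

section

variable {G : Type u} [Group G] {B : Type v} [CommRing B] {n : ℕ} {c : G}
  {π : G → Subgroup.centralizer ({c} : Set G)}
  {φ : (Fin (n + 2) → Subgroup.centralizer ({c} : Set G)) → B}

omit [CommRing B] in
private theorem evA_dg_mul (x y : G × Multiplicative ℤ) : dg (x * y) = dg x + dg y := rfl

private theorem evA_vtx_succ {K : ℕ} (u : G) (g : Fin K → G) (i j : Fin K)
    (h : (j : ℕ) = (i : ℕ) + 1) : vtx u g j = vtx u g i * g i := by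
  unfold vtx
  have h1 : (i : ℕ) < (List.ofFn g).length := by
    rw [List.length_ofFn]
    exact i.2
  rw [h, List.prod_take_succ _ _ h1, List.getElem_ofFn, mul_assoc]

private theorem evA_dl_fL (hφ : IsCoc (Subgroup.centralizer ({c} : Set G)) n φ)
    (v : Fin (n + 4) → G × Multiplicative ℤ) : dl (fL π φ) v = 0 := by
  unfold fL
  rw [dl_pL _ _ (fun a b d => by
    unfold ldg
    push_cast
    ring)]
  have h1 : dl (fun v : Fin (n + 2) → G × Multiplicative ℤ => φ fun j => π (v j).1)
      (fun j => v j.castSucc) = 0 := hφ.coc fun j => π (v j.castSucc).1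
  unfold pL
  rw [h1, zero_mul]

theorem TQ_fL_bd (hπ : ∀ (z : Subgroup.centralizer ({c} : Set G)) (g : G), π (z * g) = z * π g)
    (hφ : IsCoc (Subgroup.centralizer ({c} : Set G)) n φ)
    (v : QC (MonoidAlgebra B (G × Multiplicative ℤ)) (n + 3)) :
    TQ ((c, 1) : G × Multiplicative ℤ) (fL π φ) (qbd v) = 0 := by
  rw [TQ_bd (CI_fL hπ hφ.inv)]
  have h1 : dl (fL π φ) = fun v : Fin (n + 4) → G × Multiplicative ℤ => (0 : B) * 0 := by
    funext v
    rw [evA_dl_fL hφ, mul_zero]
  rw [h1, TQ_smul, zero_mul]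

theorem TT_fL_zero (hπ : ∀ (z : Subgroup.centralizer ({c} : Set G)) (g : G), π (z * g) = z * π g)
    (hφ : IsCoc (Subgroup.centralizer ({c} : Set G)) n φ) {N : ℕ}
    (x : Fin (n + 3) → GLm N (MonoidAlgebra B (G × Multiplicative ℤ)))
    (hx : ∀ g, cof ((x (Fin.last (n + 1)).castSucc)⁻¹ * x (Fin.last (n + 2))).val g ≠ 0 →
      dg g = 0) :
    TT ((c, 1) : G × Multiplicative ℤ) (fL π φ) x = 0 := by
  obtain ⟨S, hS⟩ := exists_supp (lts x)
  rw [TT, TM_eq (CI_fL hπ hφ.inv) _ S hS]
  refine Finset.sum_eq_zero fun g _ => ?_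
  have hlt : lts x (Fin.last (n + 1)).castSucc =
      ((x (Fin.last (n + 1)).castSucc)⁻¹ * x (Fin.last (n + 2))).val := by
    unfold lts
    rw [Fin.coeSucc_eq_succ, Fin.succ_last]
  by_cases hg : cof (lts x (Fin.last (n + 1)).castSucc)
      (g (Fin.last (n + 1)).castSucc : G × Multiplicative ℤ) = 0
  · have h1 : (List.ofFn fun j => cof (lts x j) (g j : G × Multiplicative ℤ)).prod = 0 := by
      apply List.prod_eq_zero
      rw [List.mem_ofFn]
      exact ⟨_, hg⟩
    rw [h1, Matrix.trace_zero, zero_mul]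
  · rw [hlt] at hg
    have h2 := hx _ hg
    have h3 : wv ((c, 1) : G × Multiplicative ℤ) (fL π φ)
        (fun j => (g j : G × Multiplicative ℤ)) = 0 := by
      rw [wv]
      split_ifs with h
      · unfold fL pL ldg
        rw [evA_vtx_succ _ _ (Fin.last (n + 1)).castSucc (Fin.last (n + 2)) rfl, evA_dg_mul, h2,
          add_zero, sub_self, Int.cast_zero, mul_zero]
      · rfl
    rw [h3, mul_zero]

variable {X : Type w}

theorem TQ_prism (hπ : ∀ (z : Subgroup.centralizer ({c} : Set G)) (g : G), π (z * g) = z * π g)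
    (hφ : IsCoc (Subgroup.centralizer ({c} : Set G)) n φ) {N : ℕ}
    (a b : X → GLm N (MonoidAlgebra B (G × Multiplicative ℤ)))
    (hb : ∀ x y g, cof ((b x)⁻¹ * b y).val g ≠ 0 → dg g = 0) (z : Cx ℤ X (n + 1)) :
    TQ ((c, 1) : G × Multiplicative ℤ) (fL π φ) (ch N (prism a b (n + 1) z)) =
      (-1 : ℤ) ^ (n + 1) • Finsupp.linearCombination ℤ (fun x : Fin (n + 2) → X =>
        TT ((c, 1) : G × Multiplicative ℤ) (fL π φ)
          (Fin.snoc (α := fun _ => GLm N (MonoidAlgebra B (G × Multiplicative ℤ)))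
            (fun j => a (x j)) (b (x (Fin.last (n + 1)))))) z := by
  have h1 : TQ ((c, 1) : G × Multiplicative ℤ) (fL π φ) (ch N (prism a b (n + 1) z)) =
      Finsupp.linearCombination ℤ (fun x : Fin (n + 3) → GLm N _ =>
        TT ((c, 1) : G × Multiplicative ℤ) (fL π φ) x) (prism a b (n + 1) z) :=
    lift_ch _ _ _ N _
  rw [h1]
  refine prism_last a b (n + 1) _ ?_ z
  rintro y ⟨x, hx⟩ ⟨x', hx'⟩
  refine TT_fL_zero hπ hφ y ?_
  rw [hx, hx']
  exact hb x x'

private theorem evA_cof_one {N : ℕ} {g : G × Multiplicative ℤ}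
    (hg : cof (1 : Matrix (Fin N) (Fin N) (MonoidAlgebra B (G × Multiplicative ℤ))) g ≠ 0) :
    g = 1 := by
  classical
  by_contra h
  apply hg
  ext i j
  simp only [cof, Matrix.map_apply, Matrix.zero_apply]
  by_cases hij : i = j
  · rw [hij, Matrix.one_apply_eq, MonoidAlgebra.one_def, MonoidAlgebra.coeff_single,
      Finsupp.single_eq_of_ne h]
  · rw [Matrix.one_apply_ne hij]
    rfl

private theorem evA_phi_const (hφ : IsCoc (Subgroup.centralizer ({c} : Set G)) n φ)
    (hn : Even n) (z : Subgroup.centralizer ({c} : Set G)) : φ (fun _ => z) = 0 := by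
  have h3 := hφ.coc fun _ => z
  rw [← Finset.sum_smul, alt_sum, if_neg, one_smul] at h3
  · exact h3
  · rw [Nat.not_even_iff_odd]
    exact (hn.add_odd (by decide : Odd 3))

private theorem evA_TT_const
    (hπ : ∀ (z : Subgroup.centralizer ({c} : Set G)) (g : G), π (z * g) = z * π g)
    (hφ : IsCoc (Subgroup.centralizer ({c} : Set G)) n φ) (hn : Even n) {N : ℕ}
    (D : GLm N (MonoidAlgebra B (G × Multiplicative ℤ))) :
    TT ((c, 1) : G × Multiplicative ℤ) (fL π φ)
      (Fin.snoc (α := fun _ => GLm N (MonoidAlgebra B (G × Multiplicative ℤ)))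
        (fun _ : Fin (n + 2) => 1) D) = 0 := by
  generalize hx : (Fin.snoc (α := fun _ => GLm N (MonoidAlgebra B (G × Multiplicative ℤ)))
        (fun _ : Fin (n + 2) => 1) D) = x
  have hx1 : ∀ j : Fin (n + 2), x j.castSucc = 1 := by
    intro j
    rw [← hx, Fin.snoc_castSucc]
  obtain ⟨S, hS⟩ := exists_supp (lts x)
  rw [TT, TM_eq (CI_fL hπ hφ.inv) _ S hS]
  refine Finset.sum_eq_zero fun g _ => ?_
  by_cases hg : ∀ j : Fin (n + 3), cof (lts x j) (g j : G × Multiplicative ℤ) ≠ 0
  · have h1 : ∀ j : Fin (n + 1), (g j.castSucc.castSucc : G × Multiplicative ℤ) = 1 := by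
      intro j
      apply evA_cof_one (B := B) (N := N)
      have h2 := hg j.castSucc.castSucc
      unfold lts at h2
      rw [Fin.coeSucc_eq_succ, hx1] at h2
      have h3 : (j.castSucc).succ = (j.succ).castSucc := rfl
      rw [h3, hx1, inv_one, one_mul, Units.val_one] at h2
      exact h2
    have h2 : ∀ (u : G × Multiplicative ℤ) (k : ℕ) (hk : k < n + 2),
        vtx u (fun j => (g j : G × Multiplicative ℤ)) (⟨k, by omega⟩ : Fin (n + 3)) = u := by
      intro u k
      induction k with
      | zero =>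
        intro _
        unfold vtx
        rw [List.take_zero, List.prod_nil, mul_one]
      | succ k ih =>
        intro hk
        rw [evA_vtx_succ u _ (⟨k, by omega⟩ : Fin (n + 3)) ⟨k + 1, by omega⟩ rfl,
          ih (by omega)]
        have h4 := h1 ⟨k, by omega⟩
        have h5 : ((⟨k, by omega⟩ : Fin (n + 1)).castSucc.castSucc : Fin (n + 3)) =
            ⟨k, by omega⟩ := rfl
        rw [h5] at h4
        rw [h4, mul_one]
    have h3 : wv ((c, 1) : G × Multiplicative ℤ) (fL π φ)
        (fun j => (g j : G × Multiplicative ℤ)) = 0 := by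
      rw [wv]
      split_ifs with h
      · unfold fL pL
        have h4 : (fun j : Fin (n + 2) => π (vtx h.choose
            (fun j => (g j : G × Multiplicative ℤ)) j.castSucc).1) =
            fun _ => π (h.choose).1 := by
          funext j
          rw [show vtx h.choose (fun j => (g j : G × Multiplicative ℤ)) j.castSucc = h.choose from
            h2 _ j j.2]
        beta_reduce
        rw [h4, evA_phi_const hφ hn, zero_mul]
      · rfl
    rw [h3, mul_zero]
  · push Not at hg
    obtain ⟨j, hj⟩ := hg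
    have h1 : (List.ofFn fun j => cof (lts x j) (g j : G × Multiplicative ℤ)).prod = 0 := by
      apply List.prod_eq_zero
      rw [List.mem_ofFn]
      exact ⟨j, hj⟩
    rw [h1, Matrix.trace_zero, zero_mul]

theorem TQ_const {Γ : Type w} [Group Γ]
    (hπ : ∀ (z : Subgroup.centralizer ({c} : Set G)) (g : G), π (z * g) = z * π g)
    (hφ : IsCoc (Subgroup.centralizer ({c} : Set G)) n φ) {N : ℕ}
    (D : GLm N (MonoidAlgebra B (G × Multiplicative ℤ))) (z : cyc Γ n) :
    TQ ((c, 1) : G × Multiplicative ℤ) (fL π φ)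
      (ch N (prism (fun _ => 1) (fun _ => D) (n + 1) (z : Cx ℤ Γ (n + 1)))) = 0 := by
  rw [TQ_prism hπ hφ _ _ (fun _ _ g hg => ?_)]
  · have h1 : ∀ y : Cx ℤ Γ (n + 1), Finsupp.linearCombination ℤ (fun _ : Fin (n + 2) → Γ =>
        TT ((c, 1) : G × Multiplicative ℤ) (fL π φ)
          (Fin.snoc (α := fun _ => GLm N (MonoidAlgebra B (G × Multiplicative ℤ)))
            (fun _ => 1) D)) y = msl (n + 1) y •
        TT ((c, 1) : G × Multiplicative ℤ) (fL π φ)
          (Fin.snoc (α := fun _ => GLm N (MonoidAlgebra B (G × Multiplicative ℤ)))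
            (fun _ => 1) D) := by
      intro y
      generalize TT ((c, 1) : G × Multiplicative ℤ) (fL π φ)
          (Fin.snoc (α := fun _ => GLm N (MonoidAlgebra B (G × Multiplicative ℤ)))
            (fun _ => 1) D) = m
      have h2 : Finsupp.linearCombination ℤ (fun _ : Fin (n + 2) → Γ => m) =
          (msl (n + 1)).smulRight m := by
        refine Finsupp.lhom_ext' fun x => LinearMap.ext_ring ?_
        simp only [LinearMap.comp_apply, Finsupp.lsingle_apply, LinearMap.smulRight_apply]
        rw [Finsupp.linearCombination_single, msl_single]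
      rw [h2]
      rfl
    rw [h1]
    rcases Nat.even_or_odd n with he | ho
    · rw [evA_TT_const hπ hφ he D, smul_zero, smul_zero]
    · rw [msl_cyc ho z.2, zero_smul, smul_zero]
  · rw [inv_mul_cancel, Units.val_one] at hg
    rw [evA_cof_one hg]
    rfl

end

end Pool.Agent.H16.KN

end

section

/-!
# Project KN: a relation in `LKQ` gives a chain

`map_pos_mem`: `KQ_map_map`, `ofKQ_map` for `(gz B id).comp (posHom _)`; `QC.map` of this homomorphism has values
in `QC0` (for a tuple `x` over `B[G][T]` the matrices `(x i)⁻¹ * x j` are matrices over `B[G][T]`, their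
images are supported in degrees `≥ 0`).  `map_neg_mem` similarly.
`exists_chain`: `LKQ.mk_eq_zero_iff`; apply `KQ.map (gz B id)` and `ofKQ`; `map_asm`, `asm_congr'`, `gz_lau`, `gz_lgrp`,
`ofKQ_asm`; `QH.mk_eq_zero`.
-/

set_option autoImplicit false

open Matrix
open scoped LaurentPolynomial

universe u v w

namespace Pool.Agent.H16.KN

open Pool.Agent.H71.FQ
open Pool.Agent.H95.KM (lau posHom negHom)
open Pool.Agent.H71.FJ (K0 K0.mk IdemMat)

section

variable {B : Type} [CommRing B] {G : Type u} [Group G] {k : ℕ}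

/-- the chain of the symbol `[C, E, z]` -/
noncomputable def syC (B : Type) [CommRing B] (C : Subgroup G)
    (E : IdemMat (MonoidAlgebra B C)[T;T⁻¹])
    (z : Cx ℤ (Subgroup.centralizer (C : Set G)) k) :
    QC (MonoidAlgebra B (G × Multiplicative ℤ)) k :=
  sy (gz B C.subtype) (gk B (Subgroup.centralizer (C : Set G)).subtype)
    (gz_comm B C.subtype (Subgroup.centralizer (C : Set G)).subtype (cent_comm C)) E z

theorem map_syC {B' : Type} [CommRing B'] (j : B →+* B') (C : Subgroup G)
    (E : IdemMat (MonoidAlgebra B C)[T;T⁻¹])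
    (z : Cx ℤ (Subgroup.centralizer (C : Set G)) k) :
    QC.map (MonoidAlgebra.mapRingHom (G × Multiplicative ℤ) j) (syC B C E z) =
      syC B' C (E.map (lau (MonoidAlgebra.mapRingHom C j))) z :=
  map_sy _ _ _ _ _ _ (lau (MonoidAlgebra.mapRingHom C j)) _ (fun b => map_gz j C.subtype b)
    (fun γ => map_gk j (Subgroup.centralizer (C : Set G)).subtype γ) E z

end

end Pool.Agent.H16.KN

end

section

/-!
# Project KN: the Laurent polynomials over `B[C]` in `B[G × ℤ]`

PROOFS.  `gz_single`: `evL_single`, `grpUnit` is a homomorphism.  `map_gz`: `map_evL` of `KZ/RelS.lean`.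
`gz_comm`, `gz_lau`: `lau_ext`, `MonoidAlgebra.induction_linear`.
-/

set_option autoImplicit false

open Matrix
open scoped LaurentPolynomial

universe u v w

namespace Pool.Agent.H16.KN

open Pool.Agent.H95.KM (lau)
open Pool.Agent.H8.KZ (evL evL_single map_evL)
open Pool.Agent.H71.DB (comm_grp)
open Pool.Agent.H71.DO (grpUnit)
open Pool.Agent.H71.FQ (grpHom)

section

variable (B : Type) [CommRing B] {G : Type u} [Group G] {C : Type v} [Group C] {Γ : Type w}
  [Group Γ]

theorem gz_lgrp (κ : Γ →* G) :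
    (Units.map ((gz B (MonoidHom.id G) : (MonoidAlgebra B G)[T;T⁻¹] →+*
      MonoidAlgebra B (G × Multiplicative ℤ)) : (MonoidAlgebra B G)[T;T⁻¹] →*
        MonoidAlgebra B (G × Multiplicative ℤ))).comp ((lgrp B G).comp κ) = gk B κ := by
  refine MonoidHom.ext fun γ => Units.ext ?_
  change gz B (MonoidHom.id G) (lgrp B G (κ γ) : (MonoidAlgebra B G)[T;T⁻¹]) = _
  rw [lgrp_val, gz_single]
  rfl

end

end Pool.Agent.H16.KN

end
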