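import Pool.Agent.H13.TFQ.H71.FJ.K0_1
import Pool.Agent.H13.TFQ.M76
import Pool.Agent.H13.TFQ.M82
import Pool.Agent.H13.TFQ.M89

/-! The parts of this file: H16.KN.RelA, H8.KZ.Loc2, H95.KM.Main, H95.KM.Trans. -/

section

/-!
# Project KN: auxiliary statements for the relations

PROOFS.  `const_mem`: `ch N (push (fun _ => 1) z)` is an integral combination of the constant tuple `1`, which is a half
tuple (`1⁻¹ * 1 = 1` is supported in degree `0`).
`exists_lift_lam`: `lam y = num / den`, `p ∤ den`: `lam' y = num * (unit of den)⁻¹`; additivity because `j` is injective.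
`exists_VD`: `X Y' = X Y v = v` (a `1 × 1` matrix); the inverse of `1 - E + Y X'` is `1 - E + Y' X` (`Y X' = Y v' X`,
`E Y = Y`, `X E = X`, `X' E = X'`, `E Y' = Y'`).
-/

set_option autoImplicit false

open Matrix

universe u v w

namespace Pool.Agent.H16.KN

open Pool.Agent.H71.FQ
open Pool.Agent.H71.FJ (K0 K0.mk IdemMat)

theorem const_mem {B : Type u} [CommRing B] {G : Type v} [Group G] {X : Type w} {k : ℕ} (N : ℕ)
    (z : Cx ℤ X k) : (ch N (push ℤ (fun _ => 1) k z) :
      QC (MonoidAlgebra B (G × Multiplicative ℤ)) k) ∈ QC0 G B k := by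
  classical
  have h1 : (QC.t N (fun _ : Fin (k + 1) => (1 : GLm N (MonoidAlgebra B (G × Multiplicative ℤ))))) ∈
      QC0 G B k := by
    refine AddSubgroup.subset_closure ⟨N, _, Or.inl fun i j => ?_, rfl⟩
    intro x hx
    have h2 : (((1 : GLm N (MonoidAlgebra B (G × Multiplicative ℤ)))⁻¹ * 1 :
      GLm N (MonoidAlgebra B (G × Multiplicative ℤ)))).val = 1 := by
      rw [inv_one, one_mul]
      rfl
    rw [h2] at hx
    by_contra hlt
    apply hx
    ext i j
    change ((1 : Matrix (Fin N) (Fin N) (MonoidAlgebra B (G × Multiplicative ℤ))) i j).coeff x = 0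
    by_cases hij : i = j
    · subst hij
      rw [Matrix.one_apply_eq, MonoidAlgebra.one_def, MonoidAlgebra.coeff_single,
        Finsupp.single_apply, if_neg]
      rintro rfl
      exact hlt le_rfl
    · rw [Matrix.one_apply_ne hij]
      rfl
  induction z using Finsupp.induction_linear with
  | zero => rw [map_zero, map_zero]; exact AddSubgroup.zero_mem _
  | add a b ha hb => rw [map_add, map_add]; exact AddSubgroup.add_mem _ ha hb
  | single x r =>
    have h3 : Finsupp.single x r = r • (Finsupp.single x 1 : Cx ℤ X k) := by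
      rw [Finsupp.smul_single, smul_eq_mul, mul_one]
    rw [h3, map_zsmul, map_zsmul, push_single, ch_single]
    exact AddSubgroup.zsmul_mem _ h1 r

/-- `p`-integral homomorphisms to `ℚ` lift to `Om` -/
theorem exists_lift_lam {X : Type u} [AddCommGroup X] {Om : Type v} [CommRing Om] {L : Type w}
    [Field L] [CharZero L] (j : Om →+* L) (hj : Function.Injective j) {p : ℕ}
    (hunit : ∀ q : ℕ, ¬ p ∣ q → IsUnit (q : Om)) (lam : X →+ ℚ) (h : ∀ y, ¬ p ∣ (lam y).den) :
    ∃ lam' : X →+ Om, ∀ y, j (lam' y) = ((lam y : ℚ) : L) := by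
  have h1 : ∀ y, ∃ a : Om, j a = ((lam y : ℚ) : L) := by
    intro y
    obtain ⟨u, hu⟩ := hunit _ (h y)
    refine ⟨((lam y).num : Om) * (u⁻¹ : Omˣ), ?_⟩
    rw [map_mul, map_intCast]
    have h2 : j ((u⁻¹ : Omˣ) : Om) * ((lam y).den : L) = 1 := by
      rw [← map_natCast j, ← hu, ← map_mul, Units.inv_mul, map_one]
    have h3 : ((lam y).den : L) ≠ 0 := Nat.cast_ne_zero.2 (lam y).den_ne_zero
    rw [Rat.cast_def, eq_div_iff h3, mul_assoc, h2, mul_one]
  choose f hf using h1
  refine ⟨AddMonoidHom.mk' f fun x y => ?_, hf⟩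
  apply hj
  rw [map_add, hf, hf, hf, map_add, Rat.cast_add]

private theorem vd_mul {P : Type u} [Ring P] {N : ℕ} {e : Matrix (Fin N) (Fin N) P}
    (he : e * e = e) {X X' : Matrix (Fin 1) (Fin N) P} {Y Y' : Matrix (Fin N) (Fin 1) P}
    (hYX : Y * X = e) (hXY' : X' * Y' = 1) (hYX' : Y' * X' = e) :
    (1 - e + Y * X') * (1 - e + Y' * X) = 1 := by
  have h1 : (1 - e) * Y' = 0 := by
    rw [Matrix.sub_mul, Matrix.one_mul, ← hYX', Matrix.mul_assoc, hXY', Matrix.mul_one, sub_self]
  have h2 : X' * (1 - e) = 0 := by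
    rw [Matrix.mul_sub, Matrix.mul_one, ← hYX', ← Matrix.mul_assoc, hXY', Matrix.one_mul, sub_self]
  have h3 : (1 - e) * (1 - e) = 1 - e := by
    rw [mul_sub, mul_one, sub_mul, one_mul, he, sub_self, sub_zero]
  rw [Matrix.add_mul, Matrix.mul_add, Matrix.mul_add, h3, ← Matrix.mul_assoc (1 - e), h1,
    Matrix.zero_mul, Matrix.mul_assoc Y X' (1 - e), h2, Matrix.mul_zero,
    Matrix.mul_assoc Y X' (Y' * X), ← Matrix.mul_assoc X' Y' X, hXY', Matrix.one_mul, hYX]
  abel

/-- the matrices of the comparison -/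
theorem exists_VD {P : Type u} [Ring P] {A : Type v} [Ring A] (φ : P →+* A) (E : IdemMat P)
    (X X' : Matrix (Fin 1) (Fin E.n) P) (Y Y' : Matrix (Fin E.n) (Fin 1) P)
    (hXY : X * Y = 1) (hYX : Y * X = E.mat) (hXY' : X' * Y' = 1) (hYX' : Y' * X' = E.mat)
    (v v' : P) (hv : v * v' = 1) (hv' : v' * v = 1) (hX : ∀ i k, X' i k = v' * X i k)
    (hY : ∀ k i, Y' k i = Y k i * v) :
    ∃ (V : GLm 1 A) (D : GLm E.n A), V.val = (X * Y').map φ ∧ (∀ i j, V.val i j = φ v) ∧
      (∀ i j, (V⁻¹).val i j = φ v') ∧ D.val = (1 - E.mat + Y * X').map φ := by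
  have hone : ∀ i j : Fin 1, (1 : Matrix (Fin 1) (Fin 1) P) i j = 1 := by
    intro i j
    rw [Subsingleton.elim i j, Matrix.one_apply_eq]
  have h1 : ∀ a b : A, a * b = 1 → (Matrix.of fun _ _ : Fin 1 => a) * (Matrix.of fun _ _ : Fin 1 => b) =
      1 := by
    intro a b hab
    ext i j
    rw [Matrix.mul_apply, Fin.sum_univ_one, Matrix.of_apply, Matrix.of_apply, hab,
      Subsingleton.elim i j, Matrix.one_apply_eq]
  refine ⟨⟨Matrix.of fun _ _ => φ v, Matrix.of fun _ _ => φ v', h1 _ _ (by rw [← map_mul, hv, map_one]),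
    h1 _ _ (by rw [← map_mul, hv', map_one])⟩,
    ⟨(1 - E.mat + Y * X').map φ, (1 - E.mat + Y' * X).map φ, ?_, ?_⟩, ?_, fun _ _ => rfl,
    fun _ _ => rfl, rfl⟩
  · rw [← Matrix.map_mul, vd_mul E.idem hYX hXY' hYX', Matrix.map_one φ (map_zero φ) (map_one φ)]
  · rw [← Matrix.map_mul, vd_mul E.idem hYX' hXY hYX, Matrix.map_one φ (map_zero φ) (map_one φ)]
  · ext i j
    change φ v = φ ((X * Y') i j)
    congr 1
    have h2 : (X * Y') i j = (X * Y) i j * v := by
      rw [Matrix.mul_apply, Matrix.mul_apply, Finset.sum_mul]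
      refine Finset.sum_congr rfl fun k _ => ?_
      rw [hY, mul_assoc]
    rw [h2, hXY, hone, one_mul]

end Pool.Agent.H16.KN

end

section

/-!
# KZ, module Loc2: localization at a prime dividing `N`, with the universal property

This is `exists_loc` (`Pool/Agent/H95/KM/Loc.lean`; copy the proof) with three additional statements on
`f : O → Om`: elements outside of `m` become units; the universal property of the localization; ring
homomorphisms from `Om` are determined by their composites with `f` (`IsLocalization.lift`,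
`IsLocalization.ringHom_ext`).
-/

set_option autoImplicit false

open Matrix

universe u v w

namespace Pool.Agent.H8.KZ

open Pool.Agent.H95.KM

open Classical in
theorem exists_loc2 {O : Type} [CommRing O] [IsDomain O] [IsNoetherianRing O] [CharZero O] (N : ℕ)
    [NeZero N] [Finite (Amod O N)] {L : Type} [Field L] (fL : O →+* L)
    (hfL : Function.Injective fL) (m : Pr O N) :
    ∃ (Om : Type) (_ : CommRing Om) (_ : IsDomain Om) (_ : CharZero Om) (f : O →+* Om)
      (j : Om →+* L), j.comp f = fL ∧ Function.Injective j ∧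
      (∀ p : ℕ, (p : Amod O N) ∈ m.asIdeal → ∀ a : Om, (∀ k : ℕ, (p : Om) ^ k ∣ a) → a = 0) ∧
      (∀ (m' : Pr O N) (r : O), Ideal.Quotient.mk (Ideal.span {(N : O)}) r = kappa O N m' →
        Ideal.Quotient.mk (Ideal.span {(N : Om)}) (f r) = if m' = m then 1 else 0) ∧
      (∀ s : O, Ideal.Quotient.mk (Ideal.span {(N : O)}) s ∉ m.asIdeal → IsUnit (f s)) ∧
      (∀ (E : Type) [CommRing E] (g : O →+* E),
        (∀ s : O, Ideal.Quotient.mk (Ideal.span {(N : O)}) s ∉ m.asIdeal → IsUnit (g s)) →
        ∃ h : Om →+* E, h.comp f = g) ∧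
      (∀ (E : Type) [CommRing E] (h h' : Om →+* E), h.comp f = h'.comp f → h = h') := by
  set q : O →+* Amod O N := Ideal.Quotient.mk (Ideal.span {(N : O)}) with hq
  have hm : m.asIdeal.IsPrime := m.isMaximal.isPrime
  set 𝔭 : Ideal O := m.asIdeal.comap q with h𝔭
  have hp : 𝔭.IsPrime := Ideal.comap_isPrime q m.asIdeal
  set Om : Type := Localization.AtPrime 𝔭 with hOm
  set f : O →+* Om := algebraMap O Om with hf
  have hu : ∀ y : 𝔭.primeCompl, IsUnit (fL y) := by
    intro y
    apply IsUnit.mk0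
    intro h0
    have : (y : O) = 0 := hfL (by rw [h0, map_zero])
    exact y.2 (by rw [this]; exact 𝔭.zero_mem)
  set j : Om →+* L := IsLocalization.lift (M := 𝔭.primeCompl) (S := Om) (g := fL) hu with hj
  have hjf : j.comp f = fL := IsLocalization.lift_comp hu
  have hjf' : ∀ a, j (f a) = fL a := fun a => RingHom.congr_fun hjf a
  have hfu : ∀ a : O, a ∉ 𝔭 → IsUnit (f a) := fun a ha =>
    IsLocalization.map_units Om (⟨a, ha⟩ : 𝔭.primeCompl)
  have hjinj : Function.Injective j := by
    rw [injective_iff_map_eq_zero]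
    intro x hx
    obtain ⟨⟨a, s⟩, h⟩ := IsLocalization.surj 𝔭.primeCompl x
    simp only at h
    have h1 := congrArg j h
    rw [map_mul, hx, zero_mul] at h1
    have h2 : fL a = 0 := by
      rw [← hjf']
      exact h1.symm
    have h3 : a = 0 := hfL (by rw [h2, map_zero])
    rw [h3, map_zero] at h
    exact ((hfu s s.2).mul_left_eq_zero).1 h
  have hfinj : Function.Injective f := by
    intro a b hab
    apply hfL
    rw [← hjf', ← hjf', hab]
  have hdom : IsDomain Om := hjinj.isDomain j
  have hchar : CharZero Om := charZero_of_injective_ringHom hfinj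
  have hnoeth : IsNoetherianRing Om := IsLocalization.isNoetherianRing 𝔭.primeCompl Om inferInstance
  refine ⟨Om, inferInstance, hdom, hchar, f, j, hjf, hjinj, ?_, ?_, ?_, ?_, ?_⟩
  · intro p hpm a ha
    have h1 : ((p : ℕ) : O) ∈ 𝔭 := by
      change q ((p : ℕ) : O) ∈ m.asIdeal
      rw [map_natCast]
      exact hpm
    have h2 : (p : Om) ∈ IsLocalRing.maximalIdeal Om := by
      have := (IsLocalization.AtPrime.to_map_mem_maximal_iff Om 𝔭 (p : O)).2 h1
      rwa [map_natCast] at this
    have h3 : a ∈ ⨅ k : ℕ, (IsLocalRing.maximalIdeal Om) ^ k := by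
      rw [Ideal.mem_iInf]
      intro k
      exact Ideal.mem_of_dvd _ (ha k) (Ideal.pow_mem_pow h2 k)
    rw [Ideal.iInf_pow_eq_bot_of_isLocalRing _ (IsLocalRing.maximalIdeal.isMaximal Om).ne_top]
      at h3
    exact h3
  · intro m' r hr
    have key : ∀ a b c : O, b ∉ 𝔭 → b * a = N * c →
        f a ∈ Ideal.span {(N : Om)} := by
      intro a b c hb habc
      rw [Ideal.mem_span_singleton]
      have h1 : f b * f a = N * f c := by
        rw [← map_mul, habc, map_mul, map_natCast]
      obtain ⟨u, hu⟩ := hfu b hb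
      refine ⟨↑u⁻¹ * f c, ?_⟩
      rw [← hu] at h1
      calc f a = ↑u⁻¹ * (↑u * f a) := by rw [← mul_assoc, Units.inv_mul, one_mul]
        _ = ↑u⁻¹ * (N * f c) := by rw [h1]
        _ = _ := by ring
    split_ifs with hmm
    · subst hmm
      have hr1 : r ∉ 𝔭 := by
        intro h
        apply kappa_notMem O N m'
        rw [← hr]
        exact h
      have h2 : q (r * (r - 1)) = 0 := by
        rw [map_mul, map_sub, map_one, hr, mul_sub, mul_one, kappa_mul, if_pos rfl, sub_self]
      rw [hq, Ideal.Quotient.eq_zero_iff_mem, Ideal.mem_span_singleton] at h2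
      obtain ⟨c, hc⟩ := h2
      have h3 := key (r - 1) r c hr1 hc
      rw [map_sub, map_one] at h3
      rw [← sub_eq_zero, ← map_one (Ideal.Quotient.mk (Ideal.span {(N : Om)})), ← map_sub]
      exact Ideal.Quotient.eq_zero_iff_mem.2 h3
    · obtain ⟨r₀, hr₀⟩ := Ideal.Quotient.mk_surjective (kappa O N m)
      have hr1 : r₀ ∉ 𝔭 := by
        intro h
        apply kappa_notMem O N m
        rw [← hr₀]
        exact h
      have h2 : q (r₀ * r) = 0 := by
        rw [map_mul, hr, hq, hr₀, kappa_mul, if_neg (Ne.symm hmm)]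
      rw [hq, Ideal.Quotient.eq_zero_iff_mem, Ideal.mem_span_singleton] at h2
      obtain ⟨c, hc⟩ := h2
      exact Ideal.Quotient.eq_zero_iff_mem.2 (key r r₀ c hr1 hc)
  · intro s hs
    exact hfu s hs
  · intro E _ g hg
    exact ⟨IsLocalization.lift (M := 𝔭.primeCompl) (S := Om) (g := g) fun y => hg y.1 y.2,
      IsLocalization.lift_comp _⟩
  · intro E _ h h' hh
    exact IsLocalization.ringHom_ext 𝔭.primeCompl hh

end Pool.Agent.H8.KZ

end

section

/-!
# Rational injectivity of the assembly map in degree `-1`, finite cyclic subgroups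
-/

set_option autoImplicit false

open Matrix
open scoped LaurentPolynomial

universe u v w

namespace Pool.Agent.H95.KM

open Pool.Agent.H71.FJ

theorem lTensor_injective {A B : Type*} [AddCommGroup A] [AddCommGroup B] (f : A →+ B)
    (hf : ∀ a, f a = 0 → ∃ m : ℤ, m ≠ 0 ∧ m • a = 0) :
    Function.Injective (LinearMap.lTensor ℚ f.toIntLinearMap) := by
  rw [injective_iff_map_eq_zero]
  intro y hy
  obtain ⟨⟨z, m⟩, hz⟩ := IsLocalizedModule.surj (nonZeroDivisors ℤ)
    (TensorProduct.mk ℤ ℚ A 1) y
  have h1 : TensorProduct.mk ℤ ℚ B 1 (f z) = 0 := by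
    have h2 : LinearMap.lTensor ℚ f.toIntLinearMap (TensorProduct.mk ℤ ℚ A 1 z) = 0 := by
      have h3 := congrArg (LinearMap.lTensor ℚ f.toIntLinearMap) hz
      rw [Submonoid.smul_def, map_smul, hy, smul_zero] at h3
      exact h3.symm
    exact h2
  obtain ⟨M, hM⟩ := (IsLocalizedModule.eq_zero_iff (nonZeroDivisors ℤ)
    (TensorProduct.mk ℤ ℚ B 1)).1 h1
  obtain ⟨m', hm', h4⟩ := hf ((M : ℤ) • z) (by rw [map_zsmul]; exact hM)
  have h5 : TensorProduct.mk ℤ ℚ A 1 z = 0 :=
    (IsLocalizedModule.eq_zero_iff (nonZeroDivisors ℤ)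
      (TensorProduct.mk ℤ ℚ A 1)).2
      ⟨⟨m' * M, mem_nonZeroDivisors_of_ne_zero
        (mul_ne_zero hm' (nonZeroDivisors.coe_ne_zero M))⟩, by
        rw [Submonoid.smul_def]
        change (m' * (M : ℤ)) • z = 0
        rw [mul_smul, h4]⟩
  have h6 : m • y = m • 0 := by rw [hz, h5, smul_zero]
  exact IsLocalizedModule.smul_injective (TensorProduct.mk ℤ ℚ A 1) m h6

section Represent

variable (R : Type u) [Ring R] (G : Type v) [Group G] (𝓕 : Subgroup G → Prop)

end Represent

section Number

open NumberField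

theorem enough_roots (N : ℕ) [NeZero N] :
    HasEnoughRootsOfUnity (𝓞 (CyclotomicField N ℚ)) N := by
  have : IsCyclotomicExtension {N} ℚ (CyclotomicField N ℚ) :=
    CyclotomicField.isCyclotomicExtension N ℚ
  have h := IsCyclotomicExtension.zeta_spec N ℚ (CyclotomicField N ℚ)
  exact ⟨⟨h.toInteger, h.toInteger_isPrimitiveRoot⟩, inferInstance⟩

theorem finite_Amod (O : Type) [CommRing O] [IsDomain O] [CharZero O] [Module.Free ℤ O]
    [Module.Finite ℤ O] (N : ℕ) [NeZero N] : Finite (Amod O N) := by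
  apply Ideal.finiteQuotientOfFreeOfNeBot
  rw [Ne, Ideal.span_singleton_eq_bot]
  exact_mod_cast NeZero.ne N

end Number

section Kernel

variable {G : Type v} [Group G]

theorem comm_of_cyclic {D : Subgroup G} (h : IsCyclic D) (a b : D) : a * b = b * a := by
  have := h
  exact (IsCyclic.commGroup (α := D)).mul_comm a b

end Kernel

end Pool.Agent.H95.KM

end

section

/-!
# Project KM, module Trans: transfer from `O[H]` to `ℤ[H]`

`O` is a commutative ring which is free of finite rank `d > 0` as a `ℤ`-module.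

PROOF.  Let `b` be a `ℤ`-basis of `O` (index `J = Fin d` or `Module.Free.ChooseBasisIndex`), and
`λ : O → Mat_J(ℤ)` the regular representation (`Algebra.leftMulMatrix b`).  For a group `H` it gives
`λ_H : O[H] → Mat_J(ℤ[H])`, `single h r ↦ (single h (λ r i j))_{ij}` and
`λ'_H : O[H][t,t⁻¹] → Mat_J(ℤ[H][t,t⁻¹])`, `single k a ↦ (single k (λ_H a i j))_{ij}`, ring
homomorphisms.  (A general construction: for `φ : R → Mat_J(S)` there is
`φ' : R[T;T⁻¹] →+* Matrix J J S[T;T⁻¹]`, `single k r ↦ (single k (φ r i j))`, and similarly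
`R[X] →+* Matrix J J S[X]`; compatible with `posHom`, `negHom`.)
`K0.push λ'_H : K₀(O[H][t,t⁻¹]) → K₀(ℤ[H][t,t⁻¹])` (`Pool/Agent/H71/FJ/K0.lean`: `push`, `push_map`,
`map_push`, `push_congr`) maps the images of `K₀(O[H][t])`, `K₀(O[H][t⁻¹])` to the corresponding
images (`push_map`, `map_push`), so `Km1.lift` gives `res H : K₋₁(O[H]) →+ K₋₁(ℤ[H])`.
* `res (map x) = d • x`: the composite `ℤ[H][t,t⁻¹] → O[H][t,t⁻¹] → Mat_J(ℤ[H][t,t⁻¹])` is
  `a ↦ diagonal (fun _ => a)` (on `ℤ` the regular representation is scalar), and pushing along the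
  diagonal homomorphism is multiplication by `|J|` (`flat` of a diagonal homomorphism is a block
  diagonal matrix, `|J|` copies of the matrix).
* naturality in `H`: `push_map` and `map_push` and the equality of the two ring homomorphisms
  `O[H][t,t⁻¹] → Mat_J(ℤ[H'][t,t⁻¹])`.
-/

set_option autoImplicit false

open Matrix
open scoped LaurentPolynomial

universe u v w

namespace Pool.Agent.H95.KM

open Pool.Agent.H71.FJ

namespace Trans

section General

variable {R : Type u} [Ring R] {S : Type v} [Ring S] {T : Type w} [Ring T]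
variable {J : Type} [Fintype J] [DecidableEq J]

/-- the homomorphism `R[t, t⁻¹] → Mat_J(S[t, t⁻¹])` -/
noncomputable def lm (φ : R →+* Matrix J J S) : R[T;T⁻¹] →+* Matrix J J S[T;T⁻¹] :=
  AddMonoidAlgebra.liftNCRingHom ((cst S).mapMatrix.comp φ)
    (((Matrix.scalar J : S[T;T⁻¹] →+* Matrix J J S[T;T⁻¹]) : S[T;T⁻¹] →* Matrix J J S[T;T⁻¹]).comp
      (AddMonoidAlgebra.of S ℤ))
    (fun r k => by
      change (φ r).map (cst S) * Matrix.scalar J (AddMonoidAlgebra.single k.toAdd 1) =
        Matrix.scalar J (AddMonoidAlgebra.single k.toAdd 1) * (φ r).map (cst S)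
      rw [Matrix.scalar_apply]
      ext1 i j
      rw [Matrix.mul_diagonal, Matrix.diagonal_mul, Matrix.map_apply, cst_apply,
        AddMonoidAlgebra.single_mul_single, AddMonoidAlgebra.single_mul_single, add_zero, zero_add,
        one_mul, mul_one])

theorem lm_single (φ : R →+* Matrix J J S) (k : ℤ) (r : R) :
    lm φ (AddMonoidAlgebra.single k r) = Matrix.of fun i j => AddMonoidAlgebra.single k (φ r i j) := by
  change AddMonoidAlgebra.liftNC _ _ _ = _
  rw [AddMonoidAlgebra.liftNC_single]
  change (φ r).map (cst S) * Matrix.scalar J (AddMonoidAlgebra.single k 1) = _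
  rw [Matrix.scalar_apply]
  ext1 i j
  rw [Matrix.mul_diagonal, Matrix.map_apply, cst_apply,
    AddMonoidAlgebra.single_mul_single, zero_add, mul_one, Matrix.of_apply]

theorem lm_ext {M : Type*} [Ring M] {f g : R[T;T⁻¹] →+* M}
    (h : ∀ k r, f (AddMonoidAlgebra.single k r) = g (AddMonoidAlgebra.single k r)) : f = g := by
  apply RingHom.ext
  intro x
  induction x using AddMonoidAlgebra.induction_linear with
  | zero => rw [map_zero, map_zero]
  | add x y hx hy => rw [map_add, map_add, hx, hy]
  | single k r => exact h k r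

theorem pm_ext {M : Type*} [Ring M] {f g : Polynomial R →+* M}
    (h : ∀ k r, f (Polynomial.monomial k r) = g (Polynomial.monomial k r)) : f = g := by
  apply RingHom.ext
  intro p
  induction p using Polynomial.induction_on' with
  | add p q hp hq => rw [map_add, map_add, hp, hq]
  | monomial k r => exact h k r

theorem am_ext {H : Type*} [Group H] {M : Type*} [Ring M] {f g : MonoidAlgebra R H →+* M}
    (h : ∀ k r, f (MonoidAlgebra.single k r) = g (MonoidAlgebra.single k r)) : f = g := by
  apply RingHom.ext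
  intro x
  induction x using MonoidAlgebra.induction_linear with
  | zero => rw [map_zero, map_zero]
  | add x y hx hy => rw [map_add, map_add, hx, hy]
  | single k r => exact h k r

/-- the homomorphism `R[X] → Mat_J(S[X])` -/
noncomputable def pm (φ : R →+* Matrix J J S) : Polynomial R →+* Matrix J J (Polynomial S) :=
  Polynomial.eval₂RingHom' ((Polynomial.C : S →+* Polynomial S).mapMatrix.comp φ)
    (Matrix.scalar J Polynomial.X)
    (fun r => by
      change (φ r).map Polynomial.C * Matrix.scalar J Polynomial.X =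
        Matrix.scalar J Polynomial.X * (φ r).map Polynomial.C
      rw [Matrix.scalar_apply]
      ext1 i j
      rw [Matrix.mul_diagonal, Matrix.diagonal_mul, Matrix.map_apply, Polynomial.X_mul_C])

theorem pm_monomial (φ : R →+* Matrix J J S) (k : ℕ) (r : R) :
    pm φ (Polynomial.monomial k r) = Matrix.of fun i j => Polynomial.monomial k (φ r i j) := by
  change Polynomial.eval₂ _ _ _ = _
  rw [Polynomial.eval₂_monomial]
  change (φ r).map Polynomial.C * Matrix.scalar J Polynomial.X ^ k = _
  rw [← map_pow, Matrix.scalar_apply]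
  ext1 i j
  rw [Matrix.mul_diagonal, Matrix.map_apply, Matrix.of_apply, Polynomial.C_mul_X_pow_eq_monomial]

theorem lm_posHom (φ : R →+* Matrix J J S) :
    (lm φ).comp (posHom R) = (posHom S).mapMatrix.comp (pm φ) := by
  apply pm_ext
  intro k r
  rw [RingHom.comp_apply, RingHom.comp_apply, posHom_monomial, lm_single, pm_monomial]
  ext1 i j
  rw [RingHom.mapMatrix_apply, Matrix.map_apply, Matrix.of_apply, Matrix.of_apply, posHom_monomial]

theorem lm_negHom (φ : R →+* Matrix J J S) :
    (lm φ).comp (negHom R) = (negHom S).mapMatrix.comp (pm φ) := by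
  apply pm_ext
  intro k r
  rw [RingHom.comp_apply, RingHom.comp_apply, negHom_monomial, lm_single, pm_monomial]
  ext1 i j
  rw [RingHom.mapMatrix_apply, Matrix.map_apply, Matrix.of_apply, Matrix.of_apply, negHom_monomial]

theorem lm_lau (φ : S →+* Matrix J J T) (f : R →+* S) : (lm φ).comp (lau f) = lm (φ.comp f) := by
  apply lm_ext
  intro k r
  rw [RingHom.comp_apply, lau_single, lm_single, lm_single, RingHom.comp_apply]

theorem lau_lm (f : S →+* T) (φ : R →+* Matrix J J S) :
    (lau f).mapMatrix.comp (lm φ) = lm (f.mapMatrix.comp φ) := by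
  apply lm_ext
  intro k r
  rw [RingHom.comp_apply, lm_single, lm_single]
  ext1 i j
  rw [RingHom.mapMatrix_apply, Matrix.map_apply, Matrix.of_apply, Matrix.of_apply, lau_single]
  rfl

/-- the homomorphism `K₋₁(R) → K₋₁(S)` induced by `R → Mat_J(S)` -/
noncomputable def kres (φ : R →+* Matrix J J S) : Km1 R →+ Km1 S :=
  Km1.lift (Km1.mk.comp (K0.push (lm φ)))
    (fun x => by
      rw [AddMonoidHom.comp_apply, K0.push_map, lm_posHom, ← K0.map_push, Km1.mk_pos])
    (fun x => by
      rw [AddMonoidHom.comp_apply, K0.push_map, lm_negHom, ← K0.map_push, Km1.mk_neg])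

theorem kres_mk (φ : R →+* Matrix J J S) (x : K0 R[T;T⁻¹]) :
    kres φ (Km1.mk x) = Km1.mk (K0.push (lm φ) x) := rfl

theorem kres_map (φ : S →+* Matrix J J T) (f : R →+* S) (x : Km1 R) :
    kres φ (Km1.map f x) = kres (φ.comp f) x := by
  obtain ⟨y, rfl⟩ := Km1.mk_surjective x
  rw [Km1.map_mk, kres_mk, kres_mk, K0.push_map, lm_lau]

theorem map_kres (f : S →+* T) (φ : R →+* Matrix J J S) (x : Km1 R) :
    Km1.map f (kres φ x) = kres (f.mapMatrix.comp φ) x := by
  obtain ⟨y, rfl⟩ := Km1.mk_surjective x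
  rw [kres_mk, kres_mk, Km1.map_mk, K0.map_push, lau_lm]

/-- the homomorphism `R[H] → Mat_J(S[H])` -/
noncomputable def am (φ : R →+* Matrix J J S) (H : Type*) [Group H] :
    MonoidAlgebra R H →+* Matrix J J (MonoidAlgebra S H) :=
  MonoidAlgebra.liftNCRingHom
    ((MonoidAlgebra.singleOneRingHom : S →+* MonoidAlgebra S H).mapMatrix.comp φ)
    (((Matrix.scalar J : MonoidAlgebra S H →+* Matrix J J (MonoidAlgebra S H)) :
      MonoidAlgebra S H →* Matrix J J (MonoidAlgebra S H)).comp (MonoidAlgebra.of S H))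
    (fun r k => by
      change (φ r).map (MonoidAlgebra.single 1) * Matrix.scalar J (MonoidAlgebra.single k 1) =
        Matrix.scalar J (MonoidAlgebra.single k 1) * (φ r).map (MonoidAlgebra.single 1)
      rw [Matrix.scalar_apply]
      ext1 i j
      rw [Matrix.mul_diagonal, Matrix.diagonal_mul, Matrix.map_apply,
        MonoidAlgebra.single_mul_single, MonoidAlgebra.single_mul_single, mul_one, one_mul,
        one_mul, mul_one])

theorem am_single (φ : R →+* Matrix J J S) (H : Type*) [Group H] (k : H) (r : R) :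
    am φ H (MonoidAlgebra.single k r) =
      Matrix.of fun i j => MonoidAlgebra.single k (φ r i j) := by
  change MonoidAlgebra.liftNC _ _ _ = _
  rw [MonoidAlgebra.liftNC_single]
  change (φ r).map (MonoidAlgebra.single 1) * Matrix.scalar J (MonoidAlgebra.single k 1) = _
  rw [Matrix.scalar_apply]
  ext1 i j
  rw [Matrix.mul_diagonal, Matrix.map_apply, MonoidAlgebra.single_mul_single, one_mul, mul_one,
    Matrix.of_apply]

end General

section Diagonal

variable {R : Type u} [Ring R]

/-- the block diagonal matrix -/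
def bd {ι : Type*} (e : Matrix ι ι R) (n : ℕ) : Matrix (ι × Fin n) (ι × Fin n) R :=
  Matrix.of fun p q => if p.2 = q.2 then e p.1 q.1 else 0

theorem bd_idem {ι : Type*} [Fintype ι] {e : Matrix ι ι R} (he : e * e = e) (n : ℕ) :
    bd e n * bd e n = bd e n := by
  ext ⟨i, a⟩ ⟨j, b⟩
  have h := congrFun (congrFun he i) j
  simp only [Matrix.mul_apply] at h
  simp only [bd, Matrix.mul_apply, Matrix.of_apply, Fintype.sum_prod_type, mul_ite, ite_mul,
    zero_mul, mul_zero]
  by_cases hab : a = b
  · subst hab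
    simp [h]
  · simp [hab]

/-- the reindexing -/
noncomputable def bdEquiv (ι : Type*) (n : ℕ) : (ι × Fin n) ⊕ ι ≃ ι × Fin (n + 1) :=
  Equiv.ofBijective (Sum.elim (fun p => (p.1, p.2.castSucc)) (fun i => (i, Fin.last n))) (by
    constructor
    · rintro (⟨i, a⟩ | i) (⟨j, b⟩ | j) h
      · simpa using h
      · simp only [Sum.elim_inl, Sum.elim_inr, Prod.mk.injEq] at h
        exact absurd h.2 (Fin.castSucc_ne_last a)
      · simp only [Sum.elim_inl, Sum.elim_inr, Prod.mk.injEq] at h
        exact absurd h.2.symm (Fin.castSucc_ne_last b)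
      · simpa using h
    · rintro ⟨i, a⟩
      induction a using Fin.lastCases with
      | last => exact ⟨Sum.inr i, rfl⟩
      | cast a => exact ⟨Sum.inl (i, a), rfl⟩)

theorem cls_bd {ι : Type*} [Fintype ι] [DecidableEq ι] (e : Matrix ι ι R) (he : e * e = e)
    (n : ℕ) : K0.cls (bd e n) (bd_idem he n) = n • K0.cls e he := by
  induction n with
  | zero =>
    rw [zero_smul]
    have h : K0.cls (bd e 0) (bd_idem he 0) + K0.cls (bd e 0) (bd_idem he 0) =
        K0.cls (bd e 0) (bd_idem he 0) := by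
      rw [← K0.cls_fromBlocks]
      apply K0.cls_congr
      refine ⟨0, 0, ?_, ?_⟩
      · ext1 i j
        rcases i with ⟨_, i⟩ | ⟨_, i⟩ <;> exact i.elim0
      · ext1 i j
        exact i.2.elim0
    simpa using h
  | succ n ih =>
    rw [succ_nsmul, ← ih, ← K0.cls_fromBlocks]
    apply K0.cls_congr
    have h : fromBlocks (bd e n) 0 0 e =
        (bd e (n + 1)).submatrix (bdEquiv ι n) (bdEquiv ι n) := by
      ext1 i j
      rcases i with ⟨i, a⟩ | i <;> rcases j with ⟨j, b⟩ | j <;>
        simp [bd, bdEquiv, Fin.castSucc_ne_last, (Fin.castSucc_ne_last _).symm]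
    rw [h]
    exact K0.matEquiv_symm (K0.matEquiv_submatrix _ (bd_idem he _) _)

theorem push_scalar (n : ℕ) (x : K0 R) :
    K0.push (Matrix.scalar (Fin n) : R →+* Matrix (Fin n) (Fin n) R) x = n • x := by
  have : K0.push (Matrix.scalar (Fin n) : R →+* Matrix (Fin n) (Fin n) R) =
      n • AddMonoidHom.id (K0 R) := by
    apply K0.hom_ext
    intro a
    rw [K0.push_mk, AddMonoidHom.smul_apply, AddMonoidHom.id_apply, K0.mk_eq_cls a,
      ← cls_bd a.mat a.idem n]
    apply K0.cls_congr
    rw [show K0.flat (Matrix.scalar (Fin n) : R →+* Matrix (Fin n) (Fin n) R) a.mat =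
      bd a.mat n from rfl]
    exact K0.matEquiv_refl (bd_idem a.idem n)
  rw [this]
  rfl

theorem kres_scalar (n : ℕ) (x : Km1 R) :
    kres (Matrix.scalar (Fin n) : R →+* Matrix (Fin n) (Fin n) R) x = n • x := by
  obtain ⟨y, rfl⟩ := Km1.mk_surjective x
  rw [kres_mk, ← map_nsmul, ← push_scalar]
  congr 3
  apply lm_ext
  intro k r
  rw [lm_single]
  ext1 i j
  simp only [Matrix.of_apply, Matrix.scalar_apply, Matrix.diagonal_apply]
  split_ifs
  · rfl
  · rw [AddMonoidAlgebra.single_zero]

end Diagonal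

end Trans

open Pool.Agent.H95.KM.Trans in
theorem exists_transfer (O : Type) [CommRing O] [Nontrivial O] [Module.Free ℤ O]
    [Module.Finite ℤ O] :
    ∃ (d : ℕ) (res : ∀ (H : Type v) [Group H],
      Km1 (MonoidAlgebra O H) →+ Km1 (MonoidAlgebra ℤ H)), 0 < d ∧
      (∀ (H : Type v) [Group H] (x : Km1 (MonoidAlgebra ℤ H)),
        res H (Km1.map (MonoidAlgebra.mapRingHom H (Int.castRingHom O)) x) = d • x) ∧
      (∀ (H H' : Type v) [Group H] [Group H'] (f : H →* H') (x : Km1 (MonoidAlgebra O H)),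
        res H' (ind O f x) = ind ℤ f (res H x)) := by
  obtain ⟨d, b, hd⟩ : ∃ (d : ℕ) (_ : Module.Basis (Fin d) ℤ O), 0 < d := by
    refine ⟨_, Module.finBasis ℤ O, ?_⟩
    rw [Module.finrank_pos_iff]
    infer_instance
  let lam : O →+* Matrix (Fin d) (Fin d) ℤ := (Algebra.leftMulMatrix b : O →+* _)
  have hlam : ∀ n : ℤ, lam (n : O) = Matrix.scalar (Fin d) n := by
    intro n
    rw [map_intCast lam n]
    exact (map_intCast (Matrix.scalar (Fin d) : ℤ →+* Matrix (Fin d) (Fin d) ℤ) n).symm
  refine ⟨d, fun H _ => kres (am lam H), hd, ?_, ?_⟩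
  · intro H _ x
    rw [kres_map, ← kres_scalar]
    congr 2
    apply am_ext
    intro k r
    rw [RingHom.comp_apply, MonoidAlgebra.mapRingHom_single, am_single]
    ext1 i j
    have h1 := hlam r
    change _ = Matrix.scalar (Fin d) (MonoidAlgebra.single k r) i j
    rw [Matrix.of_apply]
    change MonoidAlgebra.single k (lam (r : O) i j) = _
    rw [h1]
    simp only [Matrix.scalar_apply, Matrix.diagonal_apply]
    split_ifs
    · rfl
    · rw [MonoidAlgebra.single_zero]
  · intro H H' _ _ f x
    rw [ind, ind, kres_map, map_kres]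
    congr 2
    apply am_ext
    intro k r
    rw [RingHom.comp_apply, RingHom.comp_apply, am_single]
    change am lam H' (MonoidAlgebra.mapDomain f (MonoidAlgebra.single k r)) = _
    rw [MonoidAlgebra.mapDomain_single, am_single]
    ext1 i j
    rw [RingHom.mapMatrix_apply, Matrix.map_apply, Matrix.of_apply, Matrix.of_apply]
    change _ = MonoidAlgebra.mapDomain f (MonoidAlgebra.single k _)
    rw [MonoidAlgebra.mapDomain_single]

end Pool.Agent.H95.KM

end
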