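import Pool.Agent.H13.TFQ.H16.KN.Defs2
import Pool.Agent.H13.TFQ.M37
import Pool.Agent.H13.TFQ.M83
import Pool.Agent.H13.TFQ.M88
import Pool.Agent.H13.TFQ.M90

/-! The parts of this file: H16.KN.MainA, H39.KL.RelC. -/

section

/-!
# Project KN, module MainA: the kernel of the assembly map on the `K₋₁`-part is a torsion group, if the relations hold

The version of `asm_torsion` (`Pool/Agent/H8/KZ/MainZ.lean`) for symbols with homology classes; `HasRel G k` is the
statement on the relations which is proved in `MainN`.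
-/

set_option autoImplicit false

open NumberField

universe u v w

namespace Pool.Agent.H16.KN

open Pool.Agent.H95.KM hiding FamSub
open Pool.Agent.H95.WH (FamSub FinSub)
open Pool.Agent.H71.FQ (HG HG.map centConj cent_comm)

/-- The relations: if the sum of the values of the assembly map (over the ring of integers of the `N`-th cyclotomic
field) on the symbols `[C i, Θ(n i), z i]` vanishes then for every `c` of finite order there is one class
`W = ∑ w s • a s` such that for all `m` above the divisors of the order of `c` the sum of the values of the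
coefficient functions on the transports of the `z i` is `W`, as far as `p`-integral homomorphisms can see. -/
def HasRel (G : Type v) [Group G] (k : ℕ) : Prop :=
  ∀ (N : ℕ) [NeZero N] [HasEnoughRootsOfUnity (𝓞 (CyclotomicField N ℚ)) N]
    [Finite (Amod (𝓞 (CyclotomicField N ℚ)) N)] (ι : Type) [Fintype ι] (C : ι → Good G N)
    [∀ i, Fintype (C i).1] [∀ i, Fintype ((C i).1 →* (𝓞 (CyclotomicField N ℚ))ˣ)]
    (n : ∀ i, ((C i).1 →* (𝓞 (CyclotomicField N ℚ))ˣ) → Pr (𝓞 (CyclotomicField N ℚ)) N → ℤ)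
    (z : ∀ i, HG (Subgroup.centralizer ((C i).1 : Set G)) k),
    haveI : ∀ i, Finite (C i).1 := fun i => (C i).2.1.1
    ∑ i, pr (𝓞 (CyclotomicField N ℚ)) k (C i).1.subtype
      (Subgroup.centralizer ((C i).1 : Set G)).subtype (cent_comm (C i).1)
      (Theta N (C i).1 (comm_of_cyclic (C i).2.1.2) (C i).2.2 (n i)) (z i) = 0 →
    ∀ c : G, IsOfFinOrder c → ∃ (r : ℕ) (w : Fin r → CyclotomicField N ℚ)
      (a : Fin r → HG (Subgroup.centralizer ({c} : Set G)) k),
      ∀ m : Pr (𝓞 (CyclotomicField N ℚ)) N,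
        ringChar (Amod (𝓞 (CyclotomicField N ℚ)) N ⧸ m.asIdeal) ∣ orderOf c →
        ∃ p : ℕ, PSepA p (HG (Subgroup.centralizer ({c} : Set G)) k) ∧
          ∀ lam : HG (Subgroup.centralizer ({c} : Set G)) k →+ ℚ,
            (∀ y, ¬ p ∣ (lam y).den) →
            ∑ i, ∑ χ : (C i).1 →* (𝓞 (CyclotomicField N ℚ))ˣ,
              (n i χ m : CyclotomicField N ℚ) *
              ((Fintype.card (C i).1 : CyclotomicField N ℚ)⁻¹ * ∑ d : (C i).1,
                algebraMap (𝓞 (CyclotomicField N ℚ)) (CyclotomicField N ℚ)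
                  (((χ d)⁻¹ : (𝓞 (CyclotomicField N ℚ))ˣ) : 𝓞 (CyclotomicField N ℚ)) *
                  ((lam (trc k c (C i).1 d (z i)) : ℚ) : CyclotomicField N ℚ)) =
            ∑ s, w s * ((lam (a s) : ℚ) : CyclotomicField N ℚ)

end Pool.Agent.H16.KN

end

section

/-!
# Project KL: the relation of the logarithms over `ℤ`

`Kill p G j W` says that the value of the assembly map on `W : HnKm1 ℤ G j` becomes torsion over some domain `B` of
characteristic zero with `⋂ p ^ a B = 0` in which the natural numbers prime to `p` are invertible (it is proved in another module,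
with `B` a localization of the ring of integers of a cyclotomic field).

PROOF of `relC`.  `B`, `M'` from `Kill`.  Apply `LKQ.map (MonoidAlgebra.mapRingHom G (Int.castRingHom B))` to `hrel` and multiply by
`M'`: the `K₋₁`-part disappears.  `LKQ.map_mk`, `map_tp`, `map_mono1`, `map_assembly1` or `map_gasm1`
(`assembly1 ℤ k G (sy1 F x z) = gasm1 ..`, `asm1_sy1`; `K1.map (K1.unit u) = K1.unit (Units.map u)`, `K1.map_unit`) give the
hypothesis of `relB` with `M * M'`, the units `Units.map u i` of `B[C i]` (`hu`: all coefficients of `u i - 1` are divisible by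
`p ^ 2`, so `u i = 1 + p ^ 2 a`) and `y`.
The homomorphism `f : HG .. →+ ℚ` has `p`-integral values, and these are in `B`: `L = FractionRing B` has characteristic zero,
the image of `(q : ℚ)` in `L` comes from `B` if `¬ p ∣ q.den` (`q.den` is a unit of `B`); so there is `fB : HG .. →+ B` with
`algebraMap B L (fB y) = ((f y : ℚ) : L)`.  `exists_cocycle'` (`KN/UctF.lean`) gives a cocycle `φ` with `HG.ev hφ = fB`;
`exists_pi`, `meas_of_exp` (`KN/Coch.lean`) give `π`, `hmeas`.  `relB` gives `K`.  For every `l` the sum `S` is the image of the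
rational number `s = ∑ ∑ f (trc ..) * coeff`, which is `p`-integral, and `p ^ (2 l)` divides `K * S` in `B`: then it divides
`K * s` in `ℤ_(p)` (write `K * s = p ^ a * s'`, `s'` a unit of `ℤ_(p)` or `s = 0`; `s'` is a unit of `B`; if `a < 2 l` then `p` is a unit
of `B`, which contradicts `hsep` for `b = 1`).  Finally the prime to `p` part of `K` is a unit of `ℤ_(p)`: replace `K` by `p ^ K'`.
-/

set_option autoImplicit false

open Matrix
open scoped LaurentPolynomial

universe u v w

namespace Pool.Agent.H39.KL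

open Pool.Agent.H71.FQ Pool.Agent.H16.KN
open Pool.Agent.H95.WH (K1 K1.unit FamSub FinSub)

section Aux

variable {p : ℕ}

private theorem nd_add [Fact p.Prime] {a b : ℚ} (ha : ¬ p ∣ a.den) (hb : ¬ p ∣ b.den) : ¬ p ∣ (a + b).den := by
  intro h
  rcases (Nat.Prime.dvd_mul (Fact.out : p.Prime)).1 (h.trans (Rat.add_den_dvd a b)) with h | h
  · exact ha h
  · exact hb h

theorem nd_mul [Fact p.Prime] {a b : ℚ} (ha : ¬ p ∣ a.den) (hb : ¬ p ∣ b.den) : ¬ p ∣ (a * b).den := by
  intro h
  rcases (Nat.Prime.dvd_mul (Fact.out : p.Prime)).1 (h.trans (Rat.mul_den_dvd a b)) with h | h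
  · exact ha h
  · exact hb h

theorem nd_int [Fact p.Prime] (n : ℤ) : ¬ p ∣ ((n : ℚ)).den := by
  rw [Rat.den_intCast]
  exact (Fact.out : p.Prime).one_lt.ne' ∘ Nat.dvd_one.1

theorem nd_sum [Fact p.Prime] {ι : Type*} (s : Finset ι) (f : ι → ℚ) (h : ∀ i ∈ s, ¬ p ∣ (f i).den) :
    ¬ p ∣ (∑ i ∈ s, f i).den := by
  classical
  induction s using Finset.induction_on with
  | empty =>
    rw [Finset.sum_empty]
    exact nd_int 0
  | insert a s ha ih =>
    rw [Finset.sum_insert ha]
    exact nd_add (h a (Finset.mem_insert_self a s))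
      (ih fun i hi => h i (Finset.mem_insert_of_mem hi))

variable {B : Type*} [CommRing B] [IsDomain B] [CharZero B]

/-- divisibility by powers of `p` in `B` and in `ℤ` -/
theorem dvd_int [Fact p.Prime] (hsep : ∀ b : B, (∀ a : ℕ, (p : B) ^ a ∣ b) → b = 0)
    (hun : ∀ q : ℕ, ¬ p ∣ q → IsUnit (q : B)) (j : ℕ) (n : ℤ) (h : (p : B) ^ j ∣ (n : B)) :
    (p : ℤ) ^ j ∣ n := by
  have hp : p.Prime := Fact.out
  have hpu : ¬ IsUnit (p : B) := by
    intro hu
    have h1 : (1 : B) = 0 := hsep 1 fun a => (hu.pow a).dvd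
    exact one_ne_zero h1
  by_cases hn : n = 0
  · rw [hn]
    exact dvd_zero _
  obtain ⟨v, m, hm, e⟩ := Nat.exists_eq_pow_mul_and_not_dvd (Int.natAbs_ne_zero.2 hn) p hp.ne_one
  by_contra hj
  have hvj : v < j := by
    by_contra hvj
    apply hj
    rw [← Int.natCast_pow, Int.natCast_dvd, e]
    exact Dvd.dvd.mul_right (pow_dvd_pow p (not_lt.1 hvj)) m
  have h2 : (p : B) ^ j ∣ ((n.natAbs : ℕ) : B) := by
    rcases Int.natAbs_eq n with h3 | h3
    · have h4 : (n : B) = ((n.natAbs : ℕ) : B) := by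
        conv_lhs => rw [h3]
        exact Int.cast_natCast _
      rw [← h4]
      exact h
    · have h4 : (n : B) = -((n.natAbs : ℕ) : B) := by
        conv_lhs => rw [h3]
        rw [Int.cast_neg, Int.cast_natCast]
      rw [h4, dvd_neg] at h
      exact h
  rw [e, Nat.cast_mul, Nat.cast_pow] at h2
  obtain ⟨b, hb⟩ := h2
  have hp0 : (p : B) ≠ 0 := Nat.cast_ne_zero.2 hp.ne_zero
  obtain ⟨d, rfl⟩ := Nat.exists_eq_add_of_lt hvj
  have h5 : (m : B) = (p : B) ^ (d + 1) * b := by
    apply mul_left_cancel₀ (pow_ne_zero v hp0)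
    rw [hb, ← mul_assoc, ← pow_add, add_assoc]
  apply hpu
  refine isUnit_of_dvd_unit ?_ (hun m hm)
  rw [h5, pow_succ']
  exact ⟨(p : B) ^ d * b, by ring⟩

/-- `p`-integral rational numbers as elements of `B` -/
theorem exists_B (hun : ∀ q : ℕ, ¬ p ∣ q → IsUnit (q : B)) (q : ℚ) (hq : ¬ p ∣ q.den) :
    ∃ b : B, algebraMap B (FractionRing B) b = ((q : ℚ) : FractionRing B) := by
  obtain ⟨u, hu⟩ := hun q.den hq
  refine ⟨(q.num : B) * (u⁻¹ : Bˣ), ?_⟩
  have h0 : ((q.den : ℕ) : FractionRing B) ≠ 0 := Nat.cast_ne_zero.2 q.den_ne_zero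
  rw [Rat.cast_def, eq_div_iff h0, map_mul, map_intCast, mul_assoc]
  have h1 : (algebraMap B (FractionRing B)) ((u⁻¹ : Bˣ) : B) * ((q.den : ℕ) : FractionRing B) = 1 := by
    rw [← map_natCast (algebraMap B (FractionRing B)), ← hu, ← map_mul, Units.inv_mul, map_one]
  rw [h1, mul_one]

end Aux

section

/-- the `K₋₁`-part becomes torsion over a `p`-local domain -/
def Kill (p : ℕ) (G : Type u) [Group G] (j : ℕ) (W : HnKm1 ℤ G j) : Prop :=
  ∃ (B : Type) (_ : CommRing B) (_ : IsDomain B) (_ : CharZero B),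
    (∀ b : B, (∀ a : ℕ, (p : B) ^ a ∣ b) → b = 0) ∧ (∀ q : ℕ, ¬ p ∣ q → IsUnit (q : B)) ∧
    ∃ M : ℤ, M ≠ 0 ∧
      M • LKQ.map (MonoidAlgebra.mapRingHom G (Int.castRingHom B)) (asmKm1 ℤ j G W) = 0

end

end Pool.Agent.H39.KL

end
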