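import Pool.Agent.H13.TFQ.M21
import Pool.Agent.H13.TFQ.M74
import Pool.Agent.H13.TFQ.M80
import Pool.Agent.H13.TFQ.M92

/-! The parts of this file: H39.KL.Supp, H95.KM.Joint, H95.KM.Const, H95.KM.LinDefs. -/

section

/-!
# Project KL: the trace cochains on tuples of a special form

`TT_congr`: the value depends only on the values of the cochain on the vertices of the words with non-zero coefficients.
`TT_dup`: tuples with repeated vertices.

PROOFS.  `TT_congr`: `TM_eq` for both (with a finite set `S` containing all supports, `exists_supp`): in each term either a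
coefficient matrix is zero, or `wv_eq` / `wv_zero` and the hypothesis.
`TT_dup`: let `δ` be a strictly monotone section of `s` (the least element of each fibre); by `TT_congr`
`φ v = φ (v ∘ δ ∘ s)` on the vertices of the words with non-zero coefficients (the letters inside a fibre are `1`, whose
only non-zero coefficient is at `1`); then `TT_comp` for `δ`.
-/

set_option autoImplicit false

open Matrix

universe u v w

namespace Pool.Agent.H39.KL

open Pool.Agent.H71.FQ Pool.Agent.H16.KN

section

variable {G : Type u} [Group G] {B : Type v} [CommRing B] {K : ℕ} [NeZero K]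

/-- **The value depends only on the words with non-zero coefficients.** -/
theorem TT_congr {c : G} {φ ψ : (Fin K → G) → B} (hφ : CI c φ) (hψ : CI c ψ) {N : ℕ}
    (x : Fin K → GLm N (MonoidAlgebra B G))
    (h : ∀ (g : Fin K → G) (u : G), (∀ j, cof (lts x j) (g j) ≠ 0) →
      u * (List.ofFn g).prod * u⁻¹ = c → φ (vtx u g) = ψ (vtx u g)) :
    TT c φ x = TT c ψ x := by
  classical
  obtain ⟨S, hS⟩ := exists_supp (lts x)
  unfold TT
  rw [TM_eq hφ (lts x) S hS, TM_eq hψ (lts x) S hS]
  refine Finset.sum_congr rfl fun g _ => ?_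
  by_cases hg : ∀ j, cof (lts x j) (g j : G) ≠ 0
  · congr 1
    by_cases hu : ∃ u : G, u * (List.ofFn fun j => (g j : G)).prod * u⁻¹ = c
    · obtain ⟨u, hu⟩ := hu
      rw [wv_eq hφ _ u hu, wv_eq hψ _ u hu]
      exact h _ u hg hu
    · rw [wv_zero c φ _ fun u h' => hu ⟨u, h'⟩, wv_zero c ψ _ fun u h' => hu ⟨u, h'⟩]
  · push Not at hg
    obtain ⟨j, hj⟩ := hg
    have h0 : (List.ofFn fun j => cof (lts x j) (g j : G)).prod = 0 := by
      refine List.prod_eq_zero ?_
      rw [List.mem_ofFn]
      exact ⟨j, hj⟩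
    rw [h0, Matrix.trace_zero, zero_mul, zero_mul]

omit [Group G] [NeZero K] in
private theorem cof_one [Group G] {N : ℕ} {g : G}
    (h : cof (1 : Matrix (Fin N) (Fin N) (MonoidAlgebra B G)) g ≠ 0) : g = 1 := by
  classical
  by_contra hg
  apply h
  ext i j
  show ((1 : Matrix (Fin N) (Fin N) (MonoidAlgebra B G)) i j).coeff g = 0
  by_cases hij : i = j
  · subst hij
    rw [Matrix.one_apply_eq, MonoidAlgebra.one_def, MonoidAlgebra.coeff_single,
      Finsupp.single_eq_of_ne hg]
  · rw [Matrix.one_apply_ne hij]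
    rfl

private theorem take_prod {G : Type u} [Group G] {n : ℕ} (g : Fin n → G) (a b : ℕ) (hab : a ≤ b)
    (hb : b ≤ n) (h : ∀ t : Fin n, a ≤ (t : ℕ) → (t : ℕ) < b → g t = 1) :
    ((List.ofFn g).take a).prod = ((List.ofFn g).take b).prod := by
  induction b with
  | zero =>
    obtain rfl : a = 0 := Nat.le_zero.1 hab
    rfl
  | succ b ih =>
    rcases Nat.eq_or_lt_of_le hab with h1 | h1
    · rw [h1]
    · rw [ih (Nat.lt_succ_iff.1 h1) (by omega) fun t h2 h3 => h t h2 (by omega)]
      have hbl : b < (List.ofFn g).length := by rw [List.length_ofFn]; omega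
      rw [List.take_succ_eq_append_getElem hbl, List.prod_append, List.prod_singleton,
        List.getElem_ofFn, h ⟨b, by omega⟩ (Nat.lt_succ_iff.1 h1) (Nat.lt_succ_self b), mul_one]

private theorem val_add_one' {n : ℕ} [NeZero n] (t : Fin n) (h : (t : ℕ) + 1 < n) :
    ((t + 1 : Fin n) : ℕ) = (t : ℕ) + 1 := by
  rw [Fin.val_add, Fin.val_one', Nat.mod_eq_of_lt (by omega : 1 < n), Nat.mod_eq_of_lt h]

/-- **Repeated vertices.** -/
theorem TT_dup {K' : ℕ} [NeZero K'] {c : G} {φ : (Fin K' → G) → B} (hφ : CI c φ)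
    (s : Fin K' → Fin K) (hs : Monotone s) (hs' : Function.Surjective s) {N : ℕ}
    (x : Fin K → GLm N (MonoidAlgebra B G)) :
    TT c φ (fun t => x (s t)) = TT c (fun v : Fin K → G => φ fun t => v (s t)) x := by
  have hδ : ∀ i, s (Function.surjInv hs' i) = i := Function.surjInv_eq hs'
  have hmono : StrictMono (Function.surjInv hs') := by
    intro i i' h
    by_contra h1
    have h2 := hs (not_lt.1 h1)
    rw [hδ, hδ] at h2
    exact absurd h (not_lt.2 h2)
  have hφ' : CI c (fun v : Fin K → G => φ fun t => v (s t)) := fun g hg v =>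
    hφ g hg fun t => v (s t)
  have hψ : CI c (fun v : Fin K' → G => φ fun t => v (Function.surjInv hs' (s t))) :=
    fun g hg v => hφ g hg fun t => v (Function.surjInv hs' (s t))
  have key : ∀ (g : Fin K' → G) (u : G),
      (∀ j, cof (lts (fun t => x (s t)) j) (g j) ≠ 0) →
      ∀ a b : Fin K', a ≤ b → s a = s b → vtx u g a = vtx u g b := by
    intro g u hg a b hab hsab
    unfold vtx
    congr 1
    refine take_prod g a b hab b.2.le ?_
    intro t hat htb
    have h1 : (t : ℕ) + 1 < K' := by omega
    have h2 : s t = s a := by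
      refine le_antisymm ?_ (hs (Fin.le_def.2 hat))
      rw [hsab]
      exact hs (Fin.le_def.2 htb.le)
    have h3 : s (t + 1) = s a := by
      refine le_antisymm ?_ (hs (Fin.le_def.2 ?_))
      · rw [hsab]
        refine hs (Fin.le_def.2 ?_)
        rw [val_add_one' t h1]
        exact htb
      · rw [val_add_one' t h1]
        omega
    have h4 : lts (fun t => x (s t)) t = (1 : Matrix (Fin N) (Fin N) (MonoidAlgebra B G)) := by
      unfold lts
      beta_reduce
      rw [h2, h3, inv_mul_cancel]
      rfl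
    have h5 := hg t
    rw [h4] at h5
    exact cof_one h5
  have h1 : TT c φ (fun t => x (s t)) =
      TT c (fun v : Fin K' → G => φ fun t => v (Function.surjInv hs' (s t)))
        (fun t => x (s t)) := by
    refine TT_congr hφ hψ _ ?_
    intro g u hg _
    congr 1
    funext t
    have h2 : s (Function.surjInv hs' (s t)) = s t := hδ (s t)
    rcases le_total t (Function.surjInv hs' (s t)) with h3 | h3
    · exact key g u hg t _ h3 h2.symm
    · exact (key g u hg _ t h3 h2).symm
  rw [h1]
  have h2 := TT_comp hφ' (Function.surjInv hs') hmono (fun t => x (s t))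
  refine h2.trans ?_
  congr 1
  funext j
  rw [hδ]

end

end Pool.Agent.H39.KL

end

section

/-!
# Project KM, module Joint: `K₀` and finite products; principal ideal domains

`NilKer`, `K0.map_injective` are in `Pool/Agent/H71/FJ/Nil.lean`; `exists_stab`,
`matEquiv_stab_mono`, `exists_sub_one` in `Pool/Agent/H95/KM/Stab.lean`.

PROOF of `K0_pi`.  `x = [H] - [1_m]` by `exists_sub_one`.  For each `i` the image in `K₀(Λ' i)` is
zero, so by `exists_stab` the images of `H` and `1_m` over `Λ' i` become equivalent after adding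
`1_{k i}`; by `matEquiv_stab_mono` one `k` works for all `i` (`ι` finite).  The matrices `X i`,
`Y i` realizing the equivalences over `Λ' i` combine to matrices over `∀ i, Λ' i`.
(`fromBlocks_map`; `K0.map_cls`; `K0.cls_fromBlocks`.)
PROOF of `K0_joint`.  `RingHom.pi p : Λ → ∀ i, Λ' i` is surjective with nilpotent kernel, so
`K0.map (RingHom.pi p)` is injective; its value at `x` vanishes by `K0_pi`.
PROOF of `K0_pid`.  As `K0.exists_matEquiv_one` in `Pool/Agent/H71/FJ/Rank.lean` (there for division
rings): for an idempotent matrix `e` over a principal ideal domain `P` the range of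
`e.toLinearMapRight'` (or `Matrix.toLin'`) is a submodule of a free module of finite rank, hence
free of finite rank (`Submodule.nonempty_basis_of_pid`, `Module.free_of_finite_type_torsion_free'`,
...), and a basis gives `MatEquiv e (1 : Matrix (Fin r) (Fin r) P)`.  Then use `K0.exists_sub`,
`K0.cls_one_fin`, `K0.mk_eq_cls`.
PROOF of `laurent_pid`.  `LaurentPolynomial.isLocalization` and: a localization of a principal
ideal ring is a principal ideal ring (search Mathlib; or directly: for an ideal `I` of `k[t,t⁻¹]`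
let `J = comap toLaurent I = (f)`; every element of `I` is `t^{-n}` times an element of `J`).
-/

set_option autoImplicit false

open Matrix
open scoped LaurentPolynomial

universe u v w

namespace Pool.Agent.H95.KM

open Pool.Agent.H71.FJ

theorem K0_pi {ι : Type w} [Finite ι] {Λ' : ι → Type v} [∀ i, Ring (Λ' i)]
    (x : K0 (∀ i, Λ' i)) (hx : ∀ i, K0.map (Pi.evalRingHom Λ' i) x = 0) : x = 0 := by
  classical
  cases nonempty_fintype ι
  obtain ⟨n, m, H, hH, rfl⟩ := exists_sub_one x
  have h1 : ∀ i, (1 : Matrix (Fin m) (Fin m) (∀ i, Λ' i)).map (Pi.evalRingHom Λ' i) = 1 :=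
    fun i => Matrix.map_one _ (map_zero _) (map_one _)
  have hH' : ∀ i, H.map (Pi.evalRingHom Λ' i) * H.map (Pi.evalRingHom Λ' i) =
      H.map (Pi.evalRingHom Λ' i) := fun i => K0.map_idem _ hH
  have hst : ∀ i, ∃ k : ℕ, MatEquiv
      (fromBlocks (H.map (Pi.evalRingHom Λ' i)) 0 0 (1 : Matrix (Fin k) (Fin k) (Λ' i)))
      (fromBlocks (1 : Matrix (Fin m) (Fin m) (Λ' i)) 0 0
        (1 : Matrix (Fin k) (Fin k) (Λ' i))) := by
    intro i
    apply exists_stab _ _ (hH' i) one_idem
    have h2 := hx i
    rw [map_sub, sub_eq_zero, K0.map_cls, K0.map_cls] at h2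
    rw [h2]
    apply K0.cls_congr
    rw [h1]
    exact K0.matEquiv_refl one_idem
  choose k hk using hst
  obtain ⟨K, hK⟩ : ∃ K, ∀ i, k i ≤ K := ⟨Finset.univ.sup k, fun i =>
    Finset.le_sup (f := k) (Finset.mem_univ i)⟩
  have hk' := fun i => matEquiv_stab_mono _ _ (hH' i) one_idem (hK i) (hk i)
  choose X Y hXY hYX using hk'
  have hF : MatEquiv (fromBlocks H 0 0 (1 : Matrix (Fin K) (Fin K) (∀ i, Λ' i)))
      (fromBlocks (1 : Matrix (Fin m) (Fin m) (∀ i, Λ' i)) 0 0
        (1 : Matrix (Fin K) (Fin K) (∀ i, Λ' i))) := by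
    have hmap : ∀ {a b : Type} [Fintype a] [Fintype b] {A B : Matrix a b (∀ i, Λ' i)},
        (∀ i, A.map (Pi.evalRingHom Λ' i) = B.map (Pi.evalRingHom Λ' i)) → A = B := by
      intro a b _ _ A B h
      ext p q i
      exact congrFun (congrFun (h i) p) q
    refine ⟨Matrix.of fun p q i => X i p q, Matrix.of fun p q i => Y i p q, ?_, ?_⟩
    · apply hmap
      intro i
      rw [Matrix.map_mul, fromBlocks_map, Matrix.map_zero _ (map_zero _),
        Matrix.map_zero _ (map_zero _), Matrix.map_one _ (map_zero _) (map_one _)]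
      exact hXY i
    · apply hmap
      intro i
      rw [Matrix.map_mul, fromBlocks_map, Matrix.map_zero _ (map_zero _),
        Matrix.map_zero _ (map_zero _), Matrix.map_one _ (map_zero _) (map_one _),
        Matrix.map_one _ (map_zero _) (map_one _)]
      exact hYX i
  have h3 := K0.cls_congr (K0.fromBlocks_idem hH one_idem)
    (K0.fromBlocks_idem one_idem one_idem) hF
  rw [K0.cls_fromBlocks hH one_idem, K0.cls_fromBlocks one_idem one_idem] at h3
  rw [sub_eq_zero]
  exact add_right_cancel h3

theorem K0_joint {Λ : Type u} [Ring Λ] {ι : Type w} [Finite ι] {Λ' : ι → Type v}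
    [∀ i, Ring (Λ' i)] (p : ∀ i, Λ →+* Λ' i)
    (hs : Function.Surjective (RingHom.pi p : Λ →+* ∀ i, Λ' i)) (hn : NilKer (RingHom.pi p))
    (x : K0 Λ) (hx : ∀ i, K0.map (p i) x = 0) : x = 0 := by
  apply K0.map_injective hs hn
  rw [map_zero]
  apply K0_pi
  intro i
  rw [K0.map_map]
  exact hx i

theorem joint_exists_one {P : Type u} [CommRing P] [IsDomain P] [IsPrincipalIdealRing P]
    {ι : Type*} [Fintype ι] [DecidableEq ι] (e : Matrix ι ι P) (he : e * e = e) :
    ∃ r : ℕ, MatEquiv e (1 : Matrix (Fin r) (Fin r) P) := by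
  set f : (ι → P) →ₗ[P] (ι → P) := e.toLinearMapRight' with hf
  have hff : ∀ v, f (f v) = f v := by
    intro v
    rw [hf, ← Matrix.toLinearMapRight'_mul_apply, he]
  have hM : LinearMap.toMatrixRight' f = e := by
    rw [hf]
    exact LinearMap.toMatrixRight'.apply_symm_apply e
  obtain ⟨r, ⟨b⟩⟩ := Submodule.nonempty_basis_of_pid (Pi.basisFun P ι) (LinearMap.range f)
  let ψ : LinearMap.range f ≃ₗ[P] (Fin r → P) := b.equivFun
  let X : (ι → P) →ₗ[P] (Fin r → P) := ψ.toLinearMap ∘ₗ f.rangeRestrict
  let Y : (Fin r → P) →ₗ[P] (ι → P) := (LinearMap.range f).subtype ∘ₗ ψ.symm.toLinearMap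
  have hYX : Y ∘ₗ X = f := by
    refine LinearMap.ext fun v => ?_
    simp only [X, Y, LinearMap.comp_apply, LinearEquiv.coe_coe, LinearEquiv.symm_apply_apply]
    rfl
  have hXY : X ∘ₗ Y = LinearMap.id := by
    refine LinearMap.ext fun v => ?_
    simp only [X, Y, LinearMap.comp_apply, LinearEquiv.coe_coe, LinearMap.id_apply]
    obtain ⟨w, hw⟩ : ∃ w, ψ w = v := ψ.surjective v
    rw [← hw, LinearEquiv.symm_apply_apply]
    congr 1
    obtain ⟨z, t, rfl⟩ := w
    apply Subtype.ext
    exact hff t
  refine ⟨r, LinearMap.toMatrixRight' X, LinearMap.toMatrixRight' Y, ?_, ?_⟩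
  · rw [← LinearMap.toMatrixRight'_comp, hYX, hM]
  · rw [← LinearMap.toMatrixRight'_comp, hXY, LinearMap.toMatrixRight'_id]

theorem K0_pid {P : Type u} [CommRing P] [IsDomain P] [IsPrincipalIdealRing P] (x : K0 P) :
    ∃ r : ℤ, x = r • K0.one P := by
  obtain ⟨a, b, rfl⟩ := K0.exists_sub x
  obtain ⟨r, hr⟩ := joint_exists_one a.mat a.idem
  obtain ⟨s, hs⟩ := joint_exists_one b.mat b.idem
  refine ⟨(r : ℤ) - s, ?_⟩
  rw [sub_smul, natCast_zsmul, natCast_zsmul, ← K0.cls_one_fin, ← K0.cls_one_fin, K0.mk_eq_cls,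
    K0.mk_eq_cls, K0.cls_congr a.idem one_idem hr, K0.cls_congr b.idem one_idem hs]

theorem laurent_pid (k : Type u) [Field k] :
    IsDomain k[T;T⁻¹] ∧ IsPrincipalIdealRing k[T;T⁻¹] := by
  refine ⟨IsLocalization.isDomain_of_le_nonZeroDivisors (M := Submonoid.powers
    (Polynomial.X : Polynomial k)) k[T;T⁻¹]
    (powers_le_nonZeroDivisors_of_noZeroDivisors Polynomial.X_ne_zero), ⟨fun I => ?_⟩⟩
  obtain ⟨⟨f, hf⟩⟩ := IsPrincipalIdealRing.principal
    (I.comap (algebraMap (Polynomial k) k[T;T⁻¹]))
  have h : Ideal.map (algebraMap (Polynomial k) k[T;T⁻¹])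
      (I.comap (algebraMap (Polynomial k) k[T;T⁻¹])) = I :=
    IsLocalization.map_under (Submonoid.powers (Polynomial.X : Polynomial k)) k[T;T⁻¹] I
  refine ⟨⟨algebraMap (Polynomial k) k[T;T⁻¹] f, ?_⟩⟩
  rw [← h, hf]
  change Ideal.map _ (Ideal.span {f}) = Ideal.span _
  rw [Ideal.map_span, Set.image_singleton]

end Pool.Agent.H95.KM

end

section

/-!
# Project KM, module Const: rings with `K₀(R) = K₀(R[t, t⁻¹])`

`cst R : R → R[t, t⁻¹]`, `ev1 R : R[t, t⁻¹] → R` (`t ↦ 1`), `nilKer_lau`, `lau_surjective`, ... are in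
`Pool/Agent/H95/KM/Lau.lean`; `K0_joint`, `K0_pid`, `laurent_pid` in
`Pool/Agent/H95/KM/Joint.lean`.

PROOF of `const_field`.  `y = r • [1]` by `K0_pid`, `laurent_pid`, and `K0.map_one'` gives
`K0.map (cst k) (K0.map (ev1 k) y) = r • [1]`.
PROOF of `const_joint`.  For `y ∈ K₀(R[t,t⁻¹])` put `z = y - K0.map (cst R) (K0.map (ev1 R) y)`.
For each `i` the image of `z` under `K0.map (lau (p i))` is `y_i - K0.map cst (K0.map ev1 y_i) = 0`
with `y_i` the image of `y` (`lau_cst`, `ev1_lau`, `K0.map_map`).  Apply `K0_joint` to the maps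
`lau (p i) : R[t,t⁻¹] → (R' i)[t,t⁻¹]`: joint surjectivity coefficientwise (build preimages with
`eq_sum_single` / `exists_lau`; e.g. compare `(∀ i, R' i)[t,t⁻¹]` with `∀ i, (R' i)[t,t⁻¹]`: given
`y i ∈ (R' i)[t,t⁻¹]` choose `r k ∈ R` with `p i (r k) = (y i).coeff k` for all `i` and sum
`single k (r k)` over the union of the supports), nilpotent kernel from that of `RingHom.pi p` by
`nilKer_lau` and `NilKer.mono` (an element killed by all `lau (p i)` is killed by
`lau (RingHom.pi p)`, coefficientwise).
PROOF of `const_finite`.  A finite commutative ring `R` is artinian; the maximal ideals `m` are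
finitely many, `p m : R → R / m` are jointly surjective (Chinese remainder,
`Ideal.quotientInfRingEquivPiQuotient` or `IsArtinianRing...`), and the joint kernel is the
Jacobson radical, a nilpotent ideal (`IsArtinianRing.isNilpotent_jacobson_bot` or so), which gives
`NilKer`: with `J j = (jacobson ⊥) ^ j` as additive subgroups.
-/

set_option autoImplicit false

open Matrix
open scoped LaurentPolynomial

universe u v w

namespace Pool.Agent.H95.KM

open Pool.Agent.H71.FJ

/-- `K₀(R) = K₀(R[t, t⁻¹])`. -/
def Const (R : Type u) [Ring R] : Prop :=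
  ∀ y : K0 R[T;T⁻¹], y = K0.map (cst R) (K0.map (ev1 R) y)

theorem const_field (k : Type u) [Field k] : Const k := by
  intro y
  obtain ⟨h1, h2⟩ := laurent_pid k
  obtain ⟨r, hr⟩ := K0_pid y
  rw [hr, map_zsmul, map_zsmul, K0.map_one', K0.map_one']

/-- Joint surjectivity passes to Laurent polynomials. -/
theorem lau_pi_surjective {R : Type u} [Ring R] {ι : Type w} [Finite ι] {R' : ι → Type v}
    [∀ i, Ring (R' i)] (p : ∀ i, R →+* R' i)
    (hs : Function.Surjective (RingHom.pi p : R →+* ∀ i, R' i)) :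
    Function.Surjective (RingHom.pi (fun i => lau (p i)) : R[T;T⁻¹] →+* ∀ i, (R' i)[T;T⁻¹]) := by
  classical
  have : Fintype ι := Fintype.ofFinite ι
  intro y
  choose g hg using fun k : ℤ => hs (fun i => (y i).coeff k)
  refine ⟨∑ k ∈ Finset.univ.biUnion (fun i => (y i).coeff.support),
    AddMonoidAlgebra.single k (g k), ?_⟩
  funext i
  change lau (p i) _ = y i
  rw [map_sum]
  have h1 : ∀ k, lau (p i) (AddMonoidAlgebra.single k (g k)) =
      AddMonoidAlgebra.single k ((y i).coeff k) := by
    intro k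
    rw [lau_single]
    congr 1
    exact congrFun (hg k) i
  simp only [h1]
  conv_rhs => rw [eq_sum_single (y i)]
  symm
  apply Finset.sum_subset
  · intro k hk
    exact Finset.mem_biUnion.2 ⟨i, Finset.mem_univ _, hk⟩
  · intro k _ hk
    rw [Finsupp.notMem_support_iff.1 hk, AddMonoidAlgebra.single_zero]

theorem lau_pi_nilKer {R : Type u} [Ring R] {ι : Type w} {R' : ι → Type v}
    [∀ i, Ring (R' i)] (p : ∀ i, R →+* R' i) (hn : NilKer (RingHom.pi p)) :
    NilKer (RingHom.pi (fun i => lau (p i)) : R[T;T⁻¹] →+* ∀ i, (R' i)[T;T⁻¹]) := by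
  apply (nilKer_lau hn).mono
  intro x hx
  apply ext_coeff
  intro k
  rw [lau_coeff]
  funext i
  have h1 : lau (p i) x = 0 := congrFun hx i
  have h2 := lau_coeff (p i) x k
  rw [h1] at h2
  change p i (x.coeff k) = _
  rw [← h2]
  simp

theorem const_joint {R : Type u} [Ring R] {ι : Type w} [Finite ι] {R' : ι → Type v}
    [∀ i, Ring (R' i)] (p : ∀ i, R →+* R' i)
    (hs : Function.Surjective (RingHom.pi p : R →+* ∀ i, R' i)) (hn : NilKer (RingHom.pi p))
    (h : ∀ i, Const (R' i)) : Const R := by
  intro y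
  rw [← sub_eq_zero]
  apply K0_joint (fun i => lau (p i)) (lau_pi_surjective p hs) (lau_pi_nilKer p hn)
  intro i
  rw [map_sub, K0.map_map, lau_cst, ← K0.map_map, K0.map_map (p i), ← ev1_lau, ← K0.map_map,
    ← h i, sub_self]

theorem const_pi {ι : Type w} [Finite ι] {R' : ι → Type v} [∀ i, Ring (R' i)]
    (h : ∀ i, Const (R' i)) : Const (∀ i, R' i) := by
  apply const_joint (fun i => Pi.evalRingHom R' i) _ _ h
  · intro y
    exact ⟨y, rfl⟩
  · refine ⟨1, fun j => if j = 0 then ⊤ else ⊥, ?_, ?_, ?_⟩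
    · intro x
      simp
    · intro x hx
      simpa using hx
    · intro j x y hx hy
      have : x = 0 := hx
      rw [this, zero_mul]
      exact AddSubgroup.zero_mem _

theorem const_finite (R : Type u) [CommRing R] [Finite R] : Const R := by
  apply const_joint (fun m : MaximalSpectrum R => Ideal.Quotient.mk m.asIdeal)
    (resPi_surjective R) (resPi_nilKer R)
  intro m
  have := m.isMaximal
  let _ : Field (R ⧸ m.asIdeal) := Ideal.Quotient.field m.asIdeal
  exact const_field (R ⧸ m.asIdeal)

end Pool.Agent.H95.KM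

end

section

/-!
# Project KM: monomial matrices and the units `t e + 1 - e`
-/

set_option autoImplicit false

open Matrix
open scoped LaurentPolynomial

universe u v w

namespace Pool.Agent.H95.KM

open Pool.Agent.H71.FJ

variable {B : Type u} [Ring B]

/-- The matrix `X t^k`. -/
noncomputable def mono (k : ℤ) {m n : Type*} (X : Matrix m n B) : Matrix m n B[T;T⁻¹] :=
  X.map (AddMonoidAlgebra.single k)

theorem mono_add (k : ℤ) {m n : Type*} (X Y : Matrix m n B) :
    mono k (X + Y) = mono k X + mono k Y := by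
  ext i j : 1
  exact AddMonoidAlgebra.single_add _ _ _

theorem mono_zero (k : ℤ) {m n : Type*} : mono k (0 : Matrix m n B) = 0 := by
  ext i j : 1
  exact AddMonoidAlgebra.single_zero _

theorem mono_sub (k : ℤ) {m n : Type*} (X Y : Matrix m n B) :
    mono k (X - Y) = mono k X - mono k Y := by
  rw [eq_sub_iff_add_eq, ← mono_add, sub_add_cancel]

theorem mono_mul (k l : ℤ) {m n p : Type*} [Fintype n] (X : Matrix m n B) (Y : Matrix n p B) :
    mono k X * mono l Y = mono (k + l) (X * Y) := by
  ext i j : 1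
  simp only [mono, Matrix.mul_apply, Matrix.map_apply, AddMonoidAlgebra.single_mul_single]
  exact (map_sum (AddMonoidAlgebra.singleAddHom (k + l)) _ _).symm

theorem mono_one {m : Type*} [Fintype m] [DecidableEq m] :
    mono 0 (1 : Matrix m m B) = 1 := by
  have : mono 0 (1 : Matrix m m B) = (1 : Matrix m m B).map (cst B) := rfl
  rw [this, Matrix.map_one _ (map_zero _) (map_one _)]

/-- The unit `t^k e + (1 - e)` for an idempotent matrix `e`. -/
noncomputable def tU (k : ℤ) {m : Type} [Fintype m] [DecidableEq m] (e : Matrix m m B)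
    (he : e * e = e) : (Matrix m m B[T;T⁻¹])ˣ where
  val := mono k e + mono 0 (1 - e)
  inv := mono (-k) e + mono 0 (1 - e)
  val_inv := by
    rw [add_mul, mul_add, mul_add, mono_mul, mono_mul, mono_mul, mono_mul, he, sub_idem he,
      mul_sub, sub_mul, he, mul_one, one_mul, sub_self, mono_zero, mono_zero, add_zero, zero_add,
      add_neg_cancel, add_zero, ← mono_add, add_sub_cancel, mono_one]
  inv_val := by
    rw [add_mul, mul_add, mul_add, mono_mul, mono_mul, mono_mul, mono_mul, he, sub_idem he,
      mul_sub, sub_mul, he, mul_one, one_mul, sub_self, mono_zero, mono_zero, add_zero, zero_add,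
      neg_add_cancel, add_zero, ← mono_add, add_sub_cancel, mono_one]

theorem tU_val (k : ℤ) {m : Type} [Fintype m] [DecidableEq m] (e : Matrix m m B)
    (he : e * e = e) : ((tU k e he : (Matrix m m B[T;T⁻¹])ˣ) : Matrix m m B[T;T⁻¹]) =
      mono k e + mono 0 (1 - e) := rfl

end Pool.Agent.H95.KM

end
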