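import Pool.Agent.H13.TFQ.M82
import Pool.Agent.H13.TFQ.M89
import Pool.Agent.H13.TFQ.M93

/-! The parts of this file: H16.KN.Meas0, H95.KM.Kap, H95.KM.GenK0. -/

section

/-!
# Project KN: the cochains of the measures in degree one, without a bound for the torsion

PROOF. `φ (x, y) = h y - h x` with `h : Z → B` a homomorphism, which kills the elements of finite order. If an
element of the centralizer `Z` of `c` acts on a tuple of length `q` as a power of the shift `σ = sig q c`, its
order divides `q * orderOf c` (`pow_of_shift`); so `h` extends to a function `l` of the tuples with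
`l (z v) = h z + l v`, `l (σ v) = l v` (`exists_lam`). Take `μ = 1`, `ψ (v, w) = l w - l v`,
`β v = l v - h (π (v 0))`.
-/

set_option autoImplicit false

open Matrix

universe u v w

namespace Pool.Agent.H16.KN

open Pool.Agent.H71.FQ

private theorem zp_smul {X : Type v} {Z : Type w} [Group Z] [MulAction Z X] (σ : Equiv.Perm X)
    (hσ : ∀ (z : Z) (x : X), σ (z • x) = z • σ x) (z : Z) (j : ℤ) (y : X) :
    (σ ^ j) (z • y) = z • (σ ^ j) y := by
  have hcomm : Commute (MulAction.toPermHom Z X z) σ := by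
    ext y
    exact (hσ z y).symm
  have h1 := (hcomm.zpow_right j).eq
  exact (congrArg (fun f : Equiv.Perm X => f y) h1).symm

private theorem zp_add {X : Type v} (σ : Equiv.Perm X) (i j : ℤ) (y : X) :
    (σ ^ (i + j)) y = (σ ^ i) ((σ ^ j) y) := by
  rw [_root_.zpow_add, Equiv.Perm.mul_apply]

/-- a homomorphism which kills the stabilisers extends to the orbits -/
private theorem exists_lam {X : Type v} {Z : Type w} [Group Z] [MulAction Z X] (σ : Equiv.Perm X)
    (hσ : ∀ (z : Z) (x : X), σ (z • x) = z • σ x) {B : Type u} [AddCommGroup B] (h : Z → B)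
    (hmul : ∀ a b, h (a * b) = h a + h b)
    (hst : ∀ (z : Z) (x : X) (j : ℤ), z • x = (σ ^ j) x → h z = 0) :
    ∃ l : X → B, (∀ z x, l (z • x) = h z + l x) ∧ ∀ x, l (σ x) = l x := by
  classical
  have key : ∀ (z₁ z₂ : Z) (j₁ j₂ : ℤ) (r : X), z₁ • (σ ^ j₁) r = z₂ • (σ ^ j₂) r → h z₁ = h z₂ := by
    intro z₁ z₂ j₁ j₂ r h1
    have h2 : (z₂⁻¹ * z₁) • r = (σ ^ (j₂ - j₁)) r := by
      have h3 := congrArg (fun y => z₂⁻¹ • (σ ^ (-j₁)) y) h1
      simp only [zp_smul σ hσ, ← zp_add, inv_smul_smul] at h3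
      rw [neg_add_cancel, zpow_zero, ← mul_smul, neg_add_eq_sub] at h3
      exact h3
    have h3 := hst _ _ _ h2
    have h4 := hmul z₂ (z₂⁻¹ * z₁)
    rw [mul_inv_cancel_left, h3, add_zero] at h4
    exact h4
  let s : Setoid X :=
    { r := fun x y => ∃ (z : Z) (j : ℤ), y = z • (σ ^ j) x
      iseqv :=
        { refl := fun x => ⟨1, 0, by rw [zpow_zero, one_smul]; rfl⟩
          symm := by
            rintro x y ⟨z, j, rfl⟩
            refine ⟨z⁻¹, -j, ?_⟩
            rw [zp_smul σ hσ, inv_smul_smul, ← zp_add, neg_add_cancel, zpow_zero]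
            rfl
          trans := by
            rintro x y w ⟨z, j, rfl⟩ ⟨z', j', rfl⟩
            refine ⟨z' * z, j' + j, ?_⟩
            rw [zp_smul σ hσ, ← zp_add, mul_smul] } }
  have hr : ∀ x : X, ∃ (z : Z) (j : ℤ), x = z • (σ ^ j) (Quotient.out (Quotient.mk s x)) := fun x =>
    Quotient.exact (Quotient.out_eq (Quotient.mk s x))
  choose zz jj hzj using hr
  refine ⟨fun x => h (zz x), fun z x => ?_, fun x => ?_⟩
  · have h1 : Quotient.mk s (z • x) = Quotient.mk s x :=
      (Quotient.sound ⟨z, 0, by rw [zpow_zero]; rfl⟩ : Quotient.mk s x = Quotient.mk s (z • x)).symm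
    have h2 := hzj (z • x)
    rw [h1] at h2
    have h3 := hzj x
    have h4 : (z * zz x) • (σ ^ jj x) (Quotient.out (Quotient.mk s x)) =
        zz (z • x) • (σ ^ jj (z • x)) (Quotient.out (Quotient.mk s x)) := by
      rw [mul_smul, ← h3]
      exact h2
    show h (zz (z • x)) = h z + h (zz x)
    rw [← hmul]
    exact (key _ _ _ _ _ h4).symm
  · have h1 : Quotient.mk s (σ x) = Quotient.mk s x :=
      (Quotient.sound ⟨1, 1, by rw [zpow_one, one_smul]⟩ : Quotient.mk s x = Quotient.mk s (σ x)).symm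
    have h2 := hzj (σ x)
    rw [h1] at h2
    have h3 := hzj x
    have h4 : zz x • (σ ^ (1 + jj x)) (Quotient.out (Quotient.mk s x)) =
        zz (σ x) • (σ ^ jj (σ x)) (Quotient.out (Quotient.mk s x)) := by
      rw [zp_add, ← zp_smul σ hσ, ← h3, zpow_one]
      exact h2
    exact (key _ _ _ _ _ h4).symm

/-- elements which act as a power of the shift have finite order -/
private theorem pow_of_shift {G : Type u} [Group G] {q : ℕ} (hq : 0 < q) {c : G} (z : Subgroup.centralizer ({c} : Set G))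
    (σ : Equiv.Perm (Fin q → G)) (hσa : ∀ v, σ v = sig q c v) (v : Fin q → G) (j : ℤ)
    (h1 : z • v = (σ ^ j) v) : z ^ (q * orderOf c) = 1 := by
  have hsmul : ∀ (z : Subgroup.centralizer ({c} : Set G)) (v : Fin q → G), z • v = lmul (z : G) v := fun z v => rfl
  have hσ : ∀ (z : Subgroup.centralizer ({c} : Set G)) (v : Fin q → G), σ (z • v) = z • σ v := by
    intro z v
    rw [hsmul, hsmul, hσa, hσa]
    exact sig_lmul c z (Subgroup.mem_centralizer_singleton_iff.1 z.2) v
  have hσq : ∀ v, (σ ^ (q : ℤ)) v = lmul c v := by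
    intro v
    rw [zpow_natCast, ← Equiv.Perm.iterate_eq_pow]
    have h2 : (σ : (Fin q → G) → (Fin q → G)) = sig q c := funext hσa
    rw [h2]
    exact sig_iterate _ c v
  have hit : ∀ n : ℕ, (z ^ n) • v = (σ ^ (j * n)) v := by
    intro n
    induction n with
    | zero =>
      rw [pow_zero, one_smul, Nat.cast_zero, mul_zero, zpow_zero]
      rfl
    | succ n ih =>
      rw [pow_succ, mul_smul, h1, ← zp_smul σ hσ, ih, ← zp_add]
      push_cast
      rw [mul_add, mul_one, add_comm]
  have h2 : ∀ (k : ℤ) (w : Fin q → G), (σ ^ ((q : ℤ) * k)) w = lmul (c ^ k) w := by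
    have h11 : σ ^ (q : ℤ) = MulAction.toPermHom G (Fin q → G) c := by
      ext1 w
      exact hσq w
    intro k w
    rw [_root_.zpow_mul, h11, ← map_zpow]
    rfl
  have h3 := hit (q * orderOf c)
  have h4 : j * ((q * orderOf c : ℕ) : ℤ) = (q : ℤ) * ((orderOf c : ℤ) * j) := by
    push_cast
    ring
  rw [h4, h2, _root_.zpow_mul, zpow_natCast, pow_orderOf_eq_one, _root_.one_zpow] at h3
  have h5 : ((z ^ (q * orderOf c) : Subgroup.centralizer ({c} : Set G)) : G) * v ⟨0, hq⟩ = 1 * v ⟨0, hq⟩ :=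
    congrFun h3 ⟨0, hq⟩
  exact Subtype.ext (mul_right_cancel h5)

theorem meas_zero {G : Type u} [Group G] {B : Type v} [CommRing B] [IsDomain B] [CharZero B] {p : ℕ}
    (hp : p.Prime) {c : G} (hc : IsOfFinOrder c) (π : G → Subgroup.centralizer ({c} : Set G))
    (hπ : ∀ (z : Subgroup.centralizer ({c} : Set G)) (g : G), π (z * g) = z * π g)
    {φ : (Fin (0 + 2) → Subgroup.centralizer ({c} : Set G)) → B}
    (hφ : IsCoc (Subgroup.centralizer ({c} : Set G)) 0 φ) : Meas p c π φ := by
  -- the homomorphism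
  have h3 : ∀ x y z : Subgroup.centralizer ({c} : Set G), φ ![y, z] - φ ![x, z] + φ ![x, y] = 0 := by
    intro x y z
    have h1 := hφ.coc ![x, y, z]
    rw [Fin.sum_univ_three] at h1
    have e0 : (fun j : Fin (0 + 2) => (![x, y, z] : Fin (0 + 3) → _) ((0 : Fin (0 + 3)).succAbove j)) = ![y, z] := by
      funext j
      fin_cases j <;> rfl
    have e1 : (fun j : Fin (0 + 2) => (![x, y, z] : Fin (0 + 3) → _) ((1 : Fin (0 + 3)).succAbove j)) = ![x, z] := by
      funext j
      fin_cases j <;> rfl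
    have e2 : (fun j : Fin (0 + 2) => (![x, y, z] : Fin (0 + 3) → _) ((2 : Fin (0 + 3)).succAbove j)) = ![x, y] := by
      funext j
      fin_cases j <;> rfl
    have h2 : (-1 : ℤ) ^ 0 • φ ![y, z] + (-1 : ℤ) ^ 1 • φ ![x, z] + (-1 : ℤ) ^ 2 • φ ![x, y] = 0 := by
      rw [← e0, ← e1, ← e2]
      exact h1
    rw [pow_zero, pow_one, one_smul, neg_one_smul, neg_one_sq, one_smul] at h2
    rw [sub_eq_add_neg]
    exact h2
  have hinv : ∀ g x y : Subgroup.centralizer ({c} : Set G), φ ![g * x, g * y] = φ ![x, y] := by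
    intro g x y
    have h1 := hφ.inv g ![x, y]
    have e0 : (fun j : Fin (0 + 2) => g * (![x, y] : Fin (0 + 2) → _) j) = ![g * x, g * y] := by
      funext j
      fin_cases j <;> rfl
    rw [← e0]
    exact h1
  set h : Subgroup.centralizer ({c} : Set G) → B := fun z => φ ![1, z] with hh
  have hmul : ∀ a b, h (a * b) = h a + h b := by
    intro a b
    have h1 := h3 1 a (a * b)
    have h2 := hinv a 1 b
    rw [mul_one] at h2
    rw [h2] at h1
    show φ ![1, a * b] = φ ![1, a] + φ ![1, b]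
    linear_combination -h1
  have hone : h 1 = 0 := by
    have h1 := hmul 1 1
    rw [mul_one] at h1
    linear_combination -h1
  have hpow : ∀ (z : Subgroup.centralizer ({c} : Set G)) (n : ℕ), h (z ^ n) = n * h z := by
    intro z n
    induction n with
    | zero => rw [pow_zero, hone, Nat.cast_zero, zero_mul]
    | succ n ih =>
      rw [pow_succ, hmul, ih]
      push_cast
      ring
  have hdif : ∀ x y : Subgroup.centralizer ({c} : Set G), φ ![x, y] = h y - h x := by
    intro x y
    have h1 := hinv x 1 (x⁻¹ * y)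
    rw [mul_one, mul_inv_cancel_left] at h1
    have h2 := hmul x (x⁻¹ * y)
    rw [mul_inv_cancel_left] at h2
    rw [h1]
    show h (x⁻¹ * y) = h y - h x
    rw [h2]
    ring
  have hdif' : ∀ w : Fin (0 + 2) → Subgroup.centralizer ({c} : Set G), φ w = h (w 1) - h (w 0) := by
    intro w
    have e0 : w = ![w 0, w 1] := by
      funext j
      fin_cases j <;> rfl
    rw [e0, hdif]
    rfl
  have hord : ∀ (z : Subgroup.centralizer ({c} : Set G)) (N : ℕ), N ≠ 0 → z ^ N = 1 → h z = 0 := by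
    intro z N hN hz
    have h1 := hpow z N
    rw [hz, hone] at h1
    exact (mul_eq_zero.1 h1.symm).resolve_left (Nat.cast_ne_zero.2 hN)
  refine ⟨1, one_ne_zero, fun m => ?_⟩
  have hq : 0 < p ^ m := Nat.pow_pos hp.pos
  let σ : Equiv.Perm (Fin (p ^ m) → G) := Equiv.ofBijective (sig (p ^ m) c) (sig_bijective _ c)
  have hσa : ∀ v, σ v = sig (p ^ m) c v := fun v => rfl
  have hsmul : ∀ (z : Subgroup.centralizer ({c} : Set G)) (v : Fin (p ^ m) → G), z • v = lmul (z : G) v :=
    fun z v => rfl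
  have hσ : ∀ (z : Subgroup.centralizer ({c} : Set G)) (v : Fin (p ^ m) → G), σ (z • v) = z • σ v := by
    intro z v
    rw [hsmul, hsmul, hσa, hσa]
    exact sig_lmul c z (Subgroup.mem_centralizer_singleton_iff.1 z.2) v
  obtain ⟨l, hl1, hl2⟩ := exists_lam σ hσ h hmul (fun z x j hz => hord z (p ^ m * orderOf c)
    (Nat.mul_ne_zero hq.ne' hc.orderOf_pos.ne') (pow_of_shift hq z σ hσa x j hz))
  have hl1' : ∀ (g : G) (hg : g * c = c * g) (w : Fin (p ^ m) → G), l (fun b => g * w b) =
      h ⟨g, Subgroup.mem_centralizer_singleton_iff.2 hg⟩ + l w := fun g hg w => hl1 ⟨g, _⟩ w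
  refine ⟨fun v => l (v 1) - l (v 0), fun v => l (v 0) - h (π (v 0 ⟨0, hq⟩)), ?_, ?_, ?_, ?_, ?_⟩
  · intro g hg v
    show l (fun b => g * v 1 b) - l (fun b => g * v 0 b) = l (v 1) - l (v 0)
    rw [hl1' g hg, hl1' g hg]
    ring
  · intro v
    show l (sig (p ^ m) c (v 1)) - l (sig (p ^ m) c (v 0)) = l (v 1) - l (v 0)
    rw [← hσa, ← hσa, hl2, hl2]
  · intro v
    unfold dl
    rw [Fin.sum_univ_three]
    show (-1 : ℤ) ^ 0 • (l (v 2) - l (v 1)) + (-1 : ℤ) ^ 1 • (l (v 2) - l (v 0)) +
      (-1 : ℤ) ^ 2 • (l (v 1) - l (v 0)) = 0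
    rw [pow_zero, pow_one, one_smul, neg_one_smul, neg_one_sq, one_smul]
    ring
  · intro g hg v
    show l (fun b => g * v 0 b) - h (π (g * v 0 ⟨0, hq⟩)) = l (v 0) - h (π (v 0 ⟨0, hq⟩))
    have h1 := hπ ⟨g, Subgroup.mem_centralizer_singleton_iff.2 hg⟩ (v 0 ⟨0, hq⟩)
    rw [hl1' g hg, show π (g * v 0 ⟨0, hq⟩) = _ from h1, hmul]
    ring
  · intro h0 v
    unfold dl
    rw [Fin.sum_univ_two, hdif']
    show ((1 : ℕ) : B) ^ (0 + 2) * (h (π (v 1 ⟨0, h0⟩)) - h (π (v 0 ⟨0, h0⟩))) = (l (v 1) - l (v 0)) -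
      ((1 : ℕ) : B) * ((-1 : ℤ) ^ 0 • (l (v 1) - h (π (v 1 ⟨0, hq⟩))) +
        (-1 : ℤ) ^ 1 • (l (v 0) - h (π (v 0 ⟨0, hq⟩))))
    rw [pow_zero, pow_one, one_smul, neg_one_smul, Nat.cast_one, one_pow, one_mul, one_mul]
    ring

end Pool.Agent.H16.KN

end

section

/-!
# Project KM, module Kap: the homomorphism `K₀(B) → M`, `[e] ↦ Δ(t e + 1 - e)`

`StabHom`, `blk`, `rei`, `mapU` are in `Pool/Agent/H95/KM/SqDefs.lean`, `mono`, `tU` in
`Pool/Agent/H95/KM/LinDefs.lean`; `K0.lift` in `Pool/Agent/H71/FJ/K0.lean`.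
`Δ : StabHom B[T;T⁻¹] M` kills constant units (`hc`).

PROOF of `D_tU_congr`.  Let `x y = e`, `y x = f` (`e : m × m`, `f : n × n`); replacing `x` by
`e x f` and `y` by `f y e` we may assume `e x = x = x f`, `f y = y = y e` (still `x y = e`,
`y x = f`).  Put `w = [[1 - e, x], [y, 1 - f]]` (size `m ⊕ n`, over `B`).  `w w = 1`, and
`w · diag(e, 0) · w = diag(0, f)`.  Hence `w (t diag(e, 0) + 1 - diag(e, 0)) w
= t diag(0, f) + 1 - diag(0, f)`, i.e. `blk (tU e) 1` and `blk 1 (tU f)` differ by conjugation with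
the constant unit `w`; so `Δ.D (tU e) = Δ.D (blk (tU e) 1) = 2 Δ.D w + .. = Δ.D (blk 1 (tU f))
= Δ.D (tU f)` by `map_mul`, `hc`, `map_blk`, `map_one`.
-/

set_option autoImplicit false

open Matrix
open scoped LaurentPolynomial

universe u v w

namespace Pool.Agent.H95.KM

open Pool.Agent.H71.FJ

variable {B : Type u} [Ring B] {M : Type v} [AddCommGroup M] (Δ : StabHom B[T;T⁻¹] M)
  (hc : ∀ {m : Type} [Fintype m] [DecidableEq m] (g : (Matrix m m B)ˣ),
    Δ.D (mapU (cst B) g) = 0)

theorem mono_fromBlocks (k : ℤ) {l m n o : Type*} (P : Matrix l n B) (Q : Matrix l o B)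
    (R : Matrix m n B) (S : Matrix m o B) :
    mono k (fromBlocks P Q R S) = fromBlocks (mono k P) (mono k Q) (mono k R) (mono k S) :=
  fromBlocks_map _ _ _ _ _

theorem blk_tU_one {m n : Type} [Fintype m] [DecidableEq m] [Fintype n] [DecidableEq n]
    {e : Matrix m m B} {f : Matrix n n B} (he : e * e = e) (hf : f * f = f) :
    blk (tU 1 e he) (tU 1 f hf) =
      tU 1 (fromBlocks e 0 0 f) (K0.fromBlocks_idem he hf) := by
  apply Units.ext
  change fromBlocks (mono 1 e + mono 0 (1 - e)) 0 0 (mono 1 f + mono 0 (1 - f)) =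
    mono 1 (fromBlocks e 0 0 f) + mono 0 (1 - fromBlocks e 0 0 f)
  have h : (1 : Matrix (m ⊕ n) (m ⊕ n) B) - fromBlocks e 0 0 f =
      fromBlocks (1 - e) 0 0 (1 - f) := by
    rw [sub_eq_iff_eq_add, fromBlocks_add, ← fromBlocks_one]
    simp
  rw [h, mono_fromBlocks, mono_fromBlocks, fromBlocks_add]
  simp [mono_zero]

theorem zero_idem {m : Type} [Fintype m] : (0 : Matrix m m B) * 0 = 0 := mul_zero _

theorem tU_zero {m : Type} [Fintype m] [DecidableEq m] :
    tU 1 (0 : Matrix m m B) zero_idem = 1 := by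
  apply Units.ext
  change mono 1 (0 : Matrix m m B) + mono 0 (1 - 0) = 1
  rw [mono_zero, sub_zero, mono_one, zero_add]

theorem D_tU_blk {m n : Type} [Fintype m] [DecidableEq m] [Fintype n] [DecidableEq n]
    {e : Matrix m m B} {f : Matrix n n B} (he : e * e = e) (hf : f * f = f) :
    Δ.D (tU 1 (fromBlocks e 0 0 f) (K0.fromBlocks_idem he hf)) =
      Δ.D (tU 1 e he) + Δ.D (tU 1 f hf) := by
  rw [← blk_tU_one he hf, Δ.map_blk]

include hc in
/-- conjugation by a constant involution -/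
theorem D_tU_conj {m : Type} [Fintype m] [DecidableEq m] {e f : Matrix m m B}
    (he : e * e = e) (hf : f * f = f) (w : Matrix m m B) (hw : w * w = 1)
    (h : w * e * w = f) : Δ.D (tU 1 e he) = Δ.D (tU 1 f hf) := by
  let W : (Matrix m m B)ˣ := ⟨w, w, hw, hw⟩
  have h1 : mapU (cst B) W * tU 1 e he * mapU (cst B) W = tU 1 f hf := by
    apply Units.ext
    have h2 : w.map (cst B) = mono 0 w := rfl
    change w.map (cst B) * (mono 1 e + mono 0 (1 - e)) * w.map (cst B) =
      mono 1 f + mono 0 (1 - f)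
    rw [h2, mul_add, add_mul, mono_mul, mono_mul, mono_mul, mono_mul, zero_add, add_zero, add_zero,
      add_zero, h, mul_sub, mul_one, sub_mul, hw, h]
  rw [← h1, Δ.map_mul, Δ.map_mul, hc, zero_add, add_zero]

include hc in
theorem D_tU_congr {m n : Type} [Fintype m] [DecidableEq m] [Fintype n] [DecidableEq n]
    {e : Matrix m m B} {f : Matrix n n B} (he : e * e = e) (hf : f * f = f) (h : MatEquiv e f) :
    Δ.D (tU 1 e he) = Δ.D (tU 1 f hf) := by
  obtain ⟨x₀, y₀, h1, h2⟩ := h
  obtain ⟨x, hx⟩ : ∃ x, x = e * x₀ * f := ⟨_, rfl⟩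
  obtain ⟨y, hy⟩ : ∃ y, y = f * y₀ * e := ⟨_, rfl⟩
  have hex : e * x = x := by rw [hx, ← Matrix.mul_assoc, ← Matrix.mul_assoc, he]
  have hxf : x * f = x := by rw [hx, Matrix.mul_assoc, hf]
  have hfy : f * y = y := by rw [hy, ← Matrix.mul_assoc, ← Matrix.mul_assoc, hf]
  have hye : y * e = y := by rw [hy, Matrix.mul_assoc, he]
  have hxy : x * y = e := by
    calc x * y = e * x₀ * (f * f) * y₀ * e := by rw [hx, hy]; simp only [Matrix.mul_assoc]
      _ = e * (x₀ * y₀) * (x₀ * y₀) * e := by rw [hf, ← h2]; simp only [Matrix.mul_assoc]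
      _ = e := by rw [h1, he, he, he]
  have hyx : y * x = f := by
    calc y * x = f * y₀ * (e * e) * x₀ * f := by rw [hx, hy]; simp only [Matrix.mul_assoc]
      _ = f * (y₀ * x₀) * (y₀ * x₀) * f := by rw [he, ← h1]; simp only [Matrix.mul_assoc]
      _ = f := by rw [h2, hf, hf, hf]
  have key := D_tU_conj Δ hc (K0.fromBlocks_idem he (zero_idem (m := n)))
    (K0.fromBlocks_idem (zero_idem (m := m)) hf) (fromBlocks (1 - e) x y (1 - f))
    (by
      rw [fromBlocks_multiply, sub_idem he, sub_idem hf, hxy, hyx, ← fromBlocks_one,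
        Matrix.sub_mul, Matrix.one_mul, hex, Matrix.mul_sub, Matrix.mul_one, hxf, Matrix.mul_sub,
        Matrix.mul_one, hye, Matrix.sub_mul, Matrix.one_mul, hfy]
      simp)
    (by
      rw [fromBlocks_multiply, fromBlocks_multiply]
      have e1 : (1 - e) * e = 0 := by rw [sub_mul, one_mul, he, sub_self]
      have e2 : y * (1 - e) = 0 := by rw [Matrix.mul_sub, Matrix.mul_one, hye, sub_self]
      simp [e1, hye, e2, hyx])
  rw [D_tU_blk Δ he (zero_idem (m := n)), D_tU_blk Δ (zero_idem (m := m)) hf, tU_zero, tU_zero,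
    Δ.map_one, Δ.map_one, add_zero, zero_add] at key
  exact key

include hc in
/-- There is a homomorphism `K₀(B) → M` with `[e] ↦ Δ(t e + 1 - e)`. -/
theorem exists_kap : ∃ κ : K0 B →+ M, ∀ {m : Type} [Fintype m] [DecidableEq m]
    (e : Matrix m m B) (he : e * e = e), κ (K0.cls e he) = Δ.D (tU 1 e he) := by
  refine ⟨K0.lift (fun a => Δ.D (tU 1 a.mat a.idem))
    (fun a b h => D_tU_congr Δ hc a.idem b.idem h) (fun a b => ?_), ?_⟩
  · rw [← D_tU_blk Δ a.idem b.idem]
    exact D_tU_congr Δ hc (a.sum b).idem _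
      (K0.matEquiv_submatrix _ (K0.fromBlocks_idem a.idem b.idem) _)
  · intro m _ _ e he
    rw [K0.cls, K0.lift_mk]
    exact D_tU_congr Δ hc _ he (K0.toFin_equiv e he)

end Pool.Agent.H95.KM

end

section

/-!
# Project KM, module GenK0: generators of `K₀((X → O / N))`

PROOF.  For `(χ, m) ∈ X × Pr O N` let `p (χ, m) : (X → O / N) → (O / N) / m` be evaluation at `χ`
followed by the residue map.  Together they are surjective with nilpotent kernel
(`resPi_surjective`, `resPi_nilKer` in `Pool/Agent/H95/KM/FinRing.lean`; for the nilpotent kernel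
take the filtration `J j` of functions with all values in the `j`-th step of the filtration for
`O / N`).  The rings `(O / N) / m` are fields, so `K0.map (p (χ, m)) x = r χ m • [1]`
(`K0_pid` or `K0.eq_rk_smul_one`).  The `1 × 1` idempotent matrix `Pi.single χ (kappa m)` has image
`[1]` in `K₀` at `(χ, m)` and `0` at the other places (`kappa m ∉ m`, idempotent, so its image in the
field `(O/N)/m` is `1`; `kappa m * kappa m' = 0` and `kappa m' ∉ m'` give `kappa m ∈ m'`).
Now `K0_joint` applied to `x - ∑ ...` gives the claim.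
-/

set_option autoImplicit false

open Matrix
open scoped LaurentPolynomial

universe u v w

namespace Pool.Agent.H95.KM

open Pool.Agent.H71.FJ

/-- the `1 × 1` matrix with entry `kappa m` at the component `χ` -/
noncomputable def kapMat {O : Type} [CommRing O] {N : ℕ} [Finite (Amod O N)] {X : Type v}
    [DecidableEq X] (χ : X) (m : Pr O N) : Matrix Unit Unit (X → Amod O N) :=
  Matrix.of fun _ _ => Pi.single χ (kappa O N m)

theorem kapMat_idem {O : Type} [CommRing O] {N : ℕ} [Finite (Amod O N)] {X : Type v}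
    [DecidableEq X] (χ : X) (m : Pr O N) :
    (kapMat χ m : Matrix Unit Unit (X → Amod O N)) * kapMat χ m = kapMat χ m := by
  classical
  ext i j : 1
  simp only [kapMat, Matrix.mul_apply, Finset.univ_unique, Finset.sum_singleton, Matrix.of_apply,
    ← Pi.single_mul, kappa_mul, if_true]

private theorem genk0_cls_zero {R : Type*} [Ring R] {n : Type*} [Fintype n] [DecidableEq n]
    (h : (0 : Matrix n n R) * 0 = 0) : K0.cls (0 : Matrix n n R) h = 0 := by
  have h0 := K0.cls_one_fin (R := R) 0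
  rw [zero_smul] at h0
  rw [← h0]
  apply K0.cls_congr
  refine ⟨0, 0, ?_, ?_⟩
  · simp
  · ext i
    exact i.elim0

private theorem genk0_surj {O : Type} [CommRing O] {N : ℕ} [Finite (Amod O N)] {X : Type v} :
    Function.Surjective (RingHom.pi (fun i : X × Pr O N =>
      (Ideal.Quotient.mk i.2.asIdeal).comp (Pi.evalRingHom (fun _ : X => Amod O N) i.1)) :
      (X → Amod O N) →+* ∀ i : X × Pr O N, Amod O N ⧸ i.2.asIdeal) := by
  intro y
  choose g hg using fun χ : X => resPi_surjective (Amod O N) (fun m => y (χ, m))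
  refine ⟨g, ?_⟩
  funext i
  obtain ⟨χ, m⟩ := i
  exact congrFun (hg χ) m

private theorem genk0_nil {O : Type} [CommRing O] {N : ℕ} [Finite (Amod O N)] {X : Type v} :
    NilKer (RingHom.pi (fun i : X × Pr O N =>
      (Ideal.Quotient.mk i.2.asIdeal).comp (Pi.evalRingHom (fun _ : X => Amod O N) i.1)) :
      (X → Amod O N) →+* ∀ i : X × Pr O N, Amod O N ⧸ i.2.asIdeal) := by
  obtain ⟨k, J, h0, hN, hJ⟩ := resPi_nilKer (Amod O N)
  refine ⟨k, fun j =>
    { carrier := {x | ∀ χ, x χ ∈ J j}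
      add_mem' := fun {a b} ha hb i => (J j).add_mem (ha i) (hb i)
      zero_mem' := fun i => (J j).zero_mem
      neg_mem' := fun {a} ha i => (J j).neg_mem (ha i) }, ?_, ?_, ?_⟩
  · intro x χ
    exact h0 _
  · intro x hx
    funext χ
    exact hN _ (hx χ)
  · intro j x y hx hy χ
    refine hJ j (x χ) (y χ) ?_ (hy χ)
    funext m
    exact congrFun hx (χ, m)

private theorem genk0_map {O : Type} [CommRing O] {N : ℕ} [Finite (Amod O N)] {X : Type v}
    [DecidableEq X] [DecidableEq (Pr O N)] (χ χ' : X) (m m' : Pr O N) :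
    K0.map ((Ideal.Quotient.mk m'.asIdeal).comp (Pi.evalRingHom (fun _ : X => Amod O N) χ'))
      (K0.cls (kapMat χ m) (kapMat_idem χ m)) =
      if χ = χ' ∧ m = m' then K0.one (Amod O N ⧸ m'.asIdeal) else 0 := by
  have hmax := m'.isMaximal
  have hprime : m'.asIdeal.IsPrime := hmax.isPrime
  rw [K0.map_cls]
  split_ifs with h
  · obtain ⟨rfl, rfl⟩ := h
    have h1 : (kapMat χ m).map ((Ideal.Quotient.mk m.asIdeal).comp
        (Pi.evalRingHom (fun _ : X => Amod O N) χ)) = 1 := by
      ext i j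
      simp only [kapMat, Matrix.map_apply, Matrix.of_apply, RingHom.comp_apply,
        Pi.evalRingHom_apply, Pi.single_eq_same]
      rw [Subsingleton.elim i j, Matrix.one_apply_eq, ← map_one (Ideal.Quotient.mk m.asIdeal),
        Ideal.Quotient.eq]
      have h2 : kappa O N m * (kappa O N m - 1) ∈ m.asIdeal := by
        rw [mul_sub, kappa_mul, if_pos rfl, mul_one, sub_self]
        exact m.asIdeal.zero_mem
      exact (hprime.mem_or_mem h2).resolve_left (kappa_notMem O N m)
    rw [K0.one]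
    apply K0.cls_congr
    rw [h1]
    exact K0.matEquiv_one_one (Equiv.ofUnique Unit (Fin 1))
  · have h1 : (kapMat χ m).map ((Ideal.Quotient.mk m'.asIdeal).comp
        (Pi.evalRingHom (fun _ : X => Amod O N) χ')) = 0 := by
      ext i j
      simp only [kapMat, Matrix.map_apply, Matrix.of_apply, RingHom.comp_apply,
        Pi.evalRingHom_apply, Matrix.zero_apply]
      by_cases hχ : χ' = χ
      · subst hχ
        rw [Pi.single_eq_same, Ideal.Quotient.eq_zero_iff_mem]
        have hm : m ≠ m' := fun hm => h ⟨rfl, hm⟩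
        have h2 : kappa O N m * kappa O N m' ∈ m'.asIdeal := by
          rw [kappa_mul, if_neg hm]
          exact m'.asIdeal.zero_mem
        exact (hprime.mem_or_mem h2).resolve_right (kappa_notMem O N m')
      · rw [Pi.single_eq_of_ne hχ, map_zero]
    have h2 : ∀ (e : Matrix Unit Unit (Amod O N ⧸ m'.asIdeal)) (he : e * e = e), e = 0 →
        K0.cls e he = 0 := by
      rintro e he rfl
      exact genk0_cls_zero he
    exact h2 _ _ h1

private theorem genk0_field {A : Type*} [CommRing A] (I : Ideal A) (hI : I.IsMaximal)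
    (x : K0 (A ⧸ I)) : ∃ r : ℤ, x = r • K0.one (A ⧸ I) := by
  have h1 : IsDomain (A ⧸ I) := Ideal.Quotient.isDomain I
  have h2 : IsPrincipalIdealRing (A ⧸ I) := by
    have hf : IsField (A ⧸ I) := (Ideal.Quotient.maximal_ideal_iff_isField_quotient I).1 hI
    let _ := hf.toField
    infer_instance
  exact K0_pid x

theorem K0_gen {O : Type} [CommRing O] {N : ℕ} [Finite (Amod O N)] {X : Type v} [Fintype X]
    [DecidableEq X] (x : K0 (X → Amod O N)) :
    ∃ r : X → Pr O N → ℤ, x = ∑ χ, ∑ m, r χ m • K0.cls (kapMat χ m) (kapMat_idem χ m) := by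
  classical
  choose r hr using fun i : X × Pr O N => genk0_field i.2.asIdeal i.2.isMaximal
    (K0.map ((Ideal.Quotient.mk i.2.asIdeal).comp (Pi.evalRingHom (fun _ : X => Amod O N) i.1)) x)
  refine ⟨fun χ m => r (χ, m), ?_⟩
  rw [← sub_eq_zero]
  refine K0_joint (fun i : X × Pr O N =>
      (Ideal.Quotient.mk i.2.asIdeal).comp (Pi.evalRingHom (fun _ : X => Amod O N) i.1))
      genk0_surj genk0_nil _ ?_
  rintro ⟨χ', m'⟩
  rw [map_sub, hr (χ', m'), map_sum, sub_eq_zero, Finset.sum_eq_single χ']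
  · rw [map_sum, Finset.sum_eq_single m']
    · rw [map_zsmul, genk0_map, if_pos ⟨rfl, rfl⟩]
    · intro m _ hm
      rw [map_zsmul, genk0_map, if_neg (fun h => hm h.2), smul_zero]
    · intro h
      exact absurd (Finset.mem_univ _) h
  · intro χ _ hχ
    rw [map_sum]
    apply Finset.sum_eq_zero
    intro m _
    rw [map_zsmul, genk0_map, if_neg (fun h => hχ h.1), smul_zero]
  · intro h
    exact absurd (Finset.mem_univ _) h

end Pool.Agent.H95.KM

end
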