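import Pool.Agent.H13.TFQ.H95.KM.DetOne
import Pool.Agent.H13.TFQ.M21
import Pool.Agent.H13.TFQ.M50
import Pool.Agent.H13.TFQ.M75

/-! The parts of this file: H16.KN.UctF, H95.KM.SqEx, H16.KN.DetL_1. -/

section

/-!
# Project KN: homomorphisms from homology to any group come from cocycles

PROOFS.  `free_sub`: well-order `X` (`exists_wellOrder`).  For `x : X` let `I x ⊆ ℤ` be the ideal of the coefficients at
`x` of the elements of `D` supported in `{y | y ≤ x}`; `I x = (a x)`, choose `d x ∈ D` with coefficient `a x` at `x`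
and supported in `{y ≤ x}`, for the `x` with `a x ≠ 0`.  The `d x` are a basis: linearly independent (look at the
largest index), spanning by well-founded induction on the largest element of the support of `d ∈ D`
(`Finset.max'`).
`exists_extension'`: `C ⧸ Z` embeds in a free abelian group, hence is free, so `Z → C` splits.
`exists_cocycle'`: copy of `exists_cocycle` in `FQ/Uct.lean` with `exists_extension'`: `bd` followed by the projection
to the chains of degree `n` modulo `coi`, which embed in `Cx ℤ Γ n` by `nrm`.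
-/

set_option autoImplicit false

universe u v w

namespace Pool.Agent.H16.KN

open Pool.Agent.H71.FQ

/-- leading coefficients at `x` of the elements of `D` supported below `x` -/
private def leadIdeal {X : Type u} [LinearOrder X] (D : Submodule ℤ (X →₀ ℤ)) (x : X) : Ideal ℤ where
  carrier := {m | ∃ d ∈ D, (∀ y, x < y → d y = 0) ∧ d x = m}
  zero_mem' := ⟨0, D.zero_mem, fun _ _ => rfl, rfl⟩
  add_mem' := by
    rintro a b ⟨d, hd, hd1, rfl⟩ ⟨e, he, he1, rfl⟩
    refine ⟨d + e, D.add_mem hd he, fun y hy => ?_, rfl⟩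
    rw [Finsupp.add_apply, hd1 y hy, he1 y hy, add_zero]
  smul_mem' := by
    rintro k a ⟨d, hd, hd1, rfl⟩
    refine ⟨k • d, D.smul_mem k hd, fun y hy => ?_, rfl⟩
    rw [Finsupp.smul_apply, hd1 y hy, smul_zero]

/-- subgroups of free abelian groups (of any rank) are free -/
theorem free_sub (X : Type u) (D : Submodule ℤ (X →₀ ℤ)) : Module.Free ℤ D := by
  classical
  obtain ⟨_, _⟩ := exists_wellFoundedLT X
  have hprin : ∀ x : X, ∃ d : X →₀ ℤ, d ∈ D ∧ (∀ y, x < y → d y = 0) ∧
      leadIdeal D x = Ideal.span {d x} := by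
    intro x
    obtain ⟨a, ha⟩ := (IsPrincipalIdealRing.principal (leadIdeal D x)).principal
    have hmem : a ∈ leadIdeal D x := by
      rw [ha]
      exact Submodule.mem_span_singleton_self a
    obtain ⟨d, hd, hd1, hd2⟩ := hmem
    refine ⟨d, hd, hd1, ?_⟩
    rw [hd2]
    exact ha
  choose d hdD hd1 hd2 using hprin
  let J : Set X := {x | d x x ≠ 0}
  let v : J → D := fun x => ⟨d x, hdD x⟩
  have hli : LinearIndependent ℤ v := by
    rw [linearIndependent_iff]
    intro l hl
    by_contra hne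
    have hsupp : l.support.Nonempty := Finsupp.support_nonempty_iff.2 hne
    let x0 : J := l.support.max' hsupp
    have hx0 : x0 ∈ l.support := Finset.max'_mem _ _
    have hle : ∀ x ∈ l.support, x ≤ x0 := fun x hx => Finset.le_max' _ _ hx
    have h1 : ((Finsupp.linearCombination ℤ v l : D) : X →₀ ℤ) (x0 : X) = 0 := by
      rw [hl]
      rfl
    rw [Finsupp.linearCombination_apply, Finsupp.sum] at h1
    rw [AddSubmonoidClass.coe_finsetSum, Finsupp.finsetSum_apply] at h1
    rw [Finset.sum_eq_single x0] at h1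
    · have h2 : l x0 * d x0 x0 = 0 := h1
      rcases mul_eq_zero.1 h2 with h3 | h3
      · exact (Finsupp.mem_support_iff.1 hx0) h3
      · exact x0.2 h3
    · intro b hb hb0
      have hlt : b < x0 := lt_of_le_of_ne (hle b hb) hb0
      show l b * d b x0 = 0
      rw [hd1 b x0 hlt, mul_zero]
    · intro h
      exact absurd hx0 h
  have hspan : ∀ x : X, ∀ e : D, (∀ y, x < y → (e : X →₀ ℤ) y = 0) →
      e ∈ Submodule.span ℤ (Set.range v) := by
    intro x
    induction x using WellFoundedLT.induction with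
    | ind x ih =>
      have key : ∀ e : D, (∀ y, x ≤ y → (e : X →₀ ℤ) y = 0) →
          e ∈ Submodule.span ℤ (Set.range v) := by
        intro e he
        by_cases h0 : (e : X →₀ ℤ) = 0
        · have : e = 0 := Subtype.ext h0
          rw [this]
          exact Submodule.zero_mem _
        · have hs : (e : X →₀ ℤ).support.Nonempty := Finsupp.support_nonempty_iff.2 h0
          have hm := Finset.max'_mem _ hs
          refine ih ((e : X →₀ ℤ).support.max' hs) ?_ e ?_
          · by_contra hlt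
            exact (Finsupp.mem_support_iff.1 hm) (he _ (not_lt.1 hlt))
          · intro y hy
            by_contra hne
            exact absurd (Finset.le_max' _ y (Finsupp.mem_support_iff.2 hne)) (not_le.2 hy)
      intro e he
      have hmem : (e : X →₀ ℤ) x ∈ leadIdeal D x := ⟨e, e.2, he, rfl⟩
      rw [hd2 x, Ideal.mem_span_singleton'] at hmem
      obtain ⟨k, hk⟩ := hmem
      by_cases hx : d x x = 0
      · refine key e ?_
        intro y hy
        rcases hy.eq_or_lt with rfl | hy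
        · rw [← hk, hx, mul_zero]
        · exact he y hy
      · have hv : (v ⟨x, hx⟩ : D) ∈ Submodule.span ℤ (Set.range v) :=
          Submodule.subset_span ⟨⟨x, hx⟩, rfl⟩
        have h1 : e - k • v ⟨x, hx⟩ ∈ Submodule.span ℤ (Set.range v) := by
          refine key _ ?_
          intro y hy
          show (e : X →₀ ℤ) y - k * d x y = 0
          rcases hy.eq_or_lt with rfl | hy
          · rw [hk, sub_self]
          · rw [he y hy, hd1 x y hy, mul_zero, sub_zero]
        have h2 := Submodule.add_mem _ h1 (Submodule.smul_mem _ k hv)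
        rwa [sub_add_cancel] at h2
  have htop : ⊤ ≤ Submodule.span ℤ (Set.range v) := by
    intro e _
    by_cases h0 : (e : X →₀ ℤ) = 0
    · have : e = 0 := Subtype.ext h0
      rw [this]
      exact Submodule.zero_mem _
    · have hs : (e : X →₀ ℤ).support.Nonempty := Finsupp.support_nonempty_iff.2 h0
      refine hspan ((e : X →₀ ℤ).support.max' hs) e ?_
      intro y hy
      by_contra hne
      exact absurd (Finset.le_max' _ y (Finsupp.mem_support_iff.2 hne)) (not_le.2 hy)
  exact Module.Free.of_basis (Module.Basis.mk hli htop)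

/-- extension of homomorphisms from the kernel of a homomorphism to a free group -/
theorem exists_extension' {C : Type u} [AddCommGroup C] {X : Type v} (g : C →+ (X →₀ ℤ))
    {A : Type w} [AddCommGroup A] (f : g.ker →+ A) : ∃ F : C →+ A, ∀ z : g.ker, F z = f z := by
  let G : C →ₗ[ℤ] (X →₀ ℤ) := g.toIntLinearMap
  have hfree : Module.Free ℤ (LinearMap.range G) := free_sub X _
  obtain ⟨s, hs⟩ := Module.projective_lifting_property G.rangeRestrict LinearMap.id
    G.surjective_rangeRestrict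
  have hs' : ∀ e : LinearMap.range G, G.rangeRestrict (s e) = e := fun e => LinearMap.congr_fun hs e
  have hmem : ∀ c : C, c - s (G.rangeRestrict c) ∈ g.ker := by
    intro c
    have h1 : G.rangeRestrict (c - s (G.rangeRestrict c)) = 0 := by
      rw [map_sub, hs', sub_self]
    exact congrArg Subtype.val h1
  refine ⟨AddMonoidHom.mk' (fun c => f ⟨c - s (G.rangeRestrict c), hmem c⟩) ?_, ?_⟩
  · intro a b
    rw [← map_add]
    congr 1
    apply Subtype.ext
    show a + b - s (G.rangeRestrict (a + b)) =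
      (a - s (G.rangeRestrict a)) + (b - s (G.rangeRestrict b))
    rw [map_add, map_add]
    abel
  · intro z
    show f ⟨(z : C) - s (G.rangeRestrict z), hmem z⟩ = f z
    congr 1
    apply Subtype.ext
    have h0 : G.rangeRestrict (z : C) = 0 := Subtype.ext z.2
    show (z : C) - s (G.rangeRestrict z) = z
    rw [h0, map_zero, sub_zero]

/-- **Every homomorphism from `H_{n+1}(Γ; ℤ)` to an abelian group is the evaluation of a cocycle.** -/
theorem exists_cocycle' {Γ : Type v} [Group Γ] {n : ℕ} {A : Type w} [AddCommGroup A]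
    (f : HG Γ n →+ A) :
    ∃ (φ : (Fin (n + 2) → Γ) → A) (hφ : IsCoc Γ n φ), ∀ x, HG.ev hφ x = f x := by
  let g : Cx ℤ Γ (n + 1) →+ ((Fin (n + 1) → Γ) →₀ ℤ) :=
    ((nrm Γ n).comp (bd ℤ Γ n)).toAddMonoidHom
  have hker : ∀ c : Cx ℤ Γ (n + 1), c ∈ g.ker ↔ c ∈ cyc Γ n := by
    intro c
    constructor
    · intro h
      have h1 : nrm Γ n (bd ℤ Γ n c) = 0 := h
      have h2 := sub_nrm_mem (bd ℤ Γ n c)
      rw [h1, sub_zero] at h2
      exact h2
    · intro h
      exact nrm_coi (show bd ℤ Γ n c ∈ coi Γ n from h)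
  let f0 : g.ker →+ A := AddMonoidHom.mk' (fun z => f (HG.mk ⟨z.1, (hker z.1).1 z.2⟩)) (by
    intro a b
    rw [← map_add, ← HG.mk_add]
    rfl)
  have hf0 : ∀ z : g.ker, f0 z = f (HG.mk ⟨z.1, (hker z.1).1 z.2⟩) := fun z => rfl
  obtain ⟨F, hF⟩ := exists_extension' g f0
  have hF' : ∀ (c : Cx ℤ Γ (n + 1)) (hc : c ∈ cyc Γ n), F c = f (HG.mk ⟨c, hc⟩) :=
    fun c hc => hF ⟨c, (hker c).2 hc⟩
  have hF0 : ∀ c : Cx ℤ Γ (n + 1), c ∈ bnd Γ n → F c = 0 := by
    intro c hc
    rw [hF' c (bnd_le_cyc hc)]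
    have h0 : (0 : HG Γ n) = HG.mk 0 := rfl
    have h1 : HG.mk ⟨c, bnd_le_cyc hc⟩ = (0 : HG Γ n) := by
      rw [h0, HG.mk_eq_iff]
      show c - 0 ∈ bnd Γ n
      rw [sub_zero]
      exact hc
    rw [h1, map_zero]
  have hcoc : IsCoc Γ n fun x => F (Finsupp.single x 1) := by
    constructor
    · intro g x
      rw [← sub_eq_zero, ← map_sub]
      exact hF0 _ (Submodule.mem_sup_right (Submodule.subset_span ⟨g, x, rfl⟩))
    · intro x
      have h1 := hF0 (bd ℤ Γ (n + 1) (Finsupp.single x 1))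
        (Submodule.mem_sup_left (LinearMap.mem_range_self _ _))
      rw [bd_single, map_sum] at h1
      simp only [map_zsmul] at h1
      exact h1
  refine ⟨_, hcoc, ?_⟩
  intro x
  obtain ⟨z, rfl⟩ := HG.mk_surjective x
  rw [HG.ev_mk, lc_addHom]
  exact hF' z z.2

end Pool.Agent.H16.KN

end

section

/-!
# Project KM, module SqEx: exactness at `K₀(Γ)`

Definitions in `Pool/Agent/H95/KM/SqDefs.lean`; `exists_stab`, `matEquiv_stab_mono`,
`exists_sub_one` in `Pool/Agent/H95/KM/Stab.lean`.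

Besides the square `Q` there is a ring `Gb` with a surjection `s : Γ → Gb` and a homomorphism
`ι : Gb → B` with `ι s = π φ` (think of `Gb = Γ / φ⁻¹(ker π)`).

PROOF of `exists_dl_of_matEquiv`.  `H` an idempotent matrix over `Γ` (index `n`); `x y = 1`,
`y x = φ(H)` over `𝓜` (`x : m × n`, `y : n × m`), `u v = 1`, `v u = s(H)` over `Gb`.
Choose `u₀ : m × n`, `v₀ : n × m` over `Γ` with `s(u₀) = u`, `s(v₀) = v` and put `ũ = u₀ H`,
`ṽ = H v₀`.  `s(ũ) = u v u = u`, `s(ṽ) = v u v = v`.
Put `a = x φ(ṽ)`, `b = φ(ũ) y` (`m × m` over `𝓜`).  Then (with `r = π φ = ι s`)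
`π(a) π(b) = π(x) r(ṽ) r(ũ) π(y) = π(x) ι(v u) π(y) = π(x) r(H) π(y) = π(x y x y) = 1` and
`π(b) π(a) = r(ũ) π(y x) r(ṽ) = r(ũ H ṽ) = ι(u (v u) v) = 1`.  So `g = π(a)` is a unit with inverse
`π(b)`.  `(x, y, H)` represents `g`:
`π(x) = π(x y x) = π(x) r(H) = π(x) ι(v u) = π(x) r(ṽ) r(ũ) = g r(ũ)` and
`π(y) = r(H) π(y) = ι(v u) π(y) = r(ṽ) r(ũ) π(y) = r(ṽ) g⁻¹`.
Hence `dl g = [H] - [1_m]` by `Sq.dl_eq`.

PROOF of `exact`.  By `exists_sub_one` `z = [H] - [1_m]`.  The hypotheses give
`[φ(H)] = [1_m]` in `K₀(𝓜)` and `[s(H)] = [1_m]` in `K₀(Gb)`, so for some common `k`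
`φ(H) ⊕ 1_k ≈ 1_m ⊕ 1_k` over `𝓜` and `s(H) ⊕ 1_k ≈ 1_m ⊕ 1_k` over `Gb`
(`exists_stab`, `matEquiv_stab_mono`; `fromBlocks 1 0 0 1 = 1`).
Apply `exists_dl_of_matEquiv` to `H ⊕ 1_k`.
-/

set_option autoImplicit false

open Matrix
open scoped LaurentPolynomial

universe u v w t

namespace Pool.Agent.H95.KM

open Pool.Agent.H71.FJ

namespace Sq

variable {Γ : Type u} {𝓜 : Type v} {B : Type w} [Ring Γ] [Ring 𝓜] [Ring B] (Q : Sq Γ 𝓜 B)
  {Gb : Type t} [Ring Gb] (s : Γ →+* Gb) (ι : Gb →+* B)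

theorem exists_dl_of_matEquiv (hs : Function.Surjective s) (hι : ι.comp s = Q.π.comp Q.φ)
    {m n : Type} [Fintype m] [DecidableEq m] [Fintype n] [DecidableEq n]
    (H : Matrix n n Γ) (hH : H * H = H)
    (h1 : MatEquiv (H.map Q.φ) (1 : Matrix m m 𝓜))
    (h2 : MatEquiv (H.map s) (1 : Matrix m m Gb)) :
    ∃ g : (Matrix m m B)ˣ,
      Q.dl g = K0.cls H hH - K0.cls (1 : Matrix m m Γ) one_idem := by
  obtain ⟨y, x, hyx, hxy⟩ := h1
  obtain ⟨v, u, hvu, huv⟩ := h2
  obtain ⟨u₀, hu₀⟩ := exists_matrix_lift s u (fun i j => hs _)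
  obtain ⟨v₀, hv₀⟩ := exists_matrix_lift s v (fun i j => hs _)
  set r : Γ →+* B := Q.π.comp Q.φ with hr
  have hcomp : ∀ {a b : Type} (Z : Matrix a b Γ), (Z.map Q.φ).map Q.π = Z.map r := by
    intro a b Z; ext i j; rfl
  have hcomp' : ∀ {a b : Type} (Z : Matrix a b Γ), (Z.map s).map ι = Z.map r := by
    intro a b Z
    ext i j
    exact congrArg (fun f : Γ →+* B => f (Z i j)) hι
  -- products
  have hU : (u₀ * H).map s = u := by
    rw [Matrix.map_mul, hu₀, ← hvu, ← Matrix.mul_assoc, huv, Matrix.one_mul]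
  have hV : (H * v₀).map s = v := by
    rw [Matrix.map_mul, hv₀, ← hvu, Matrix.mul_assoc, huv, Matrix.mul_one]
  have hVU : (H * v₀).map r * (u₀ * H).map r = H.map r := by
    rw [← hcomp', ← hcomp', hU, hV, ← Matrix.map_mul, hvu, hcomp']
  have hUV : (u₀ * H).map r * (H * v₀).map r = 1 := by
    rw [← hcomp', ← hcomp', hU, hV, ← Matrix.map_mul, huv,
      Matrix.map_one _ (map_zero ι) (map_one ι)]
  have hyxr : y.map Q.π * x.map Q.π = H.map r := by
    rw [← Matrix.map_mul, hyx, hcomp]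
  have hxyr : x.map Q.π * y.map Q.π = 1 := by
    rw [← Matrix.map_mul, hxy, Matrix.map_one _ (map_zero Q.π) (map_one Q.π)]
  have hHH : H.map r * H.map r = H.map r := by rw [← Matrix.map_mul, hH]
  have hxH : x.map Q.π * H.map r = x.map Q.π := by
    rw [← hyxr, ← Matrix.mul_assoc, hxyr, Matrix.one_mul]
  have hHy : H.map r * y.map Q.π = y.map Q.π := by
    rw [← hyxr, Matrix.mul_assoc, hxyr, Matrix.mul_one]
  have hgg : x.map Q.π * (H * v₀).map r * ((u₀ * H).map r * y.map Q.π) = 1 := by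
    rw [Matrix.mul_assoc, ← Matrix.mul_assoc ((H * v₀).map r), hVU, hHy, hxyr]
  have hgg' : (u₀ * H).map r * y.map Q.π * (x.map Q.π * (H * v₀).map r) = 1 := by
    rw [Matrix.mul_assoc, ← Matrix.mul_assoc (y.map Q.π), hyxr, ← Matrix.map_mul,
      ← Matrix.mul_assoc, hH, hUV]
  let g : (Matrix m m B)ˣ := ⟨x.map Q.π * (H * v₀).map r, (u₀ * H).map r * y.map Q.π, hgg, hgg'⟩
  refine ⟨g, ?_⟩
  have hrep : Q.IsRep g x y H := by
    refine ⟨hxy, hyx, ⟨u₀ * H, ?_⟩, ⟨H * v₀, ?_⟩⟩
    · change x.map Q.π = x.map Q.π * (H * v₀).map r * (u₀ * H).map r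
      rw [Matrix.mul_assoc, hVU, hxH]
    · change y.map Q.π = (H * v₀).map r * ((u₀ * H).map r * y.map Q.π)
      rw [← Matrix.mul_assoc, hVU, hHy]
  rw [dl_eq hrep]

private theorem sqex_stab {R : Type*} [Ring R] {m n : Type} [Fintype m] [DecidableEq m]
    [Fintype n] [DecidableEq n] (E : Matrix n n R) (hE : E * E = E)
    (h : K0.cls E hE = K0.cls (1 : Matrix m m R) one_idem) :
    ∃ k : ℕ, ∀ l, k ≤ l → MatEquiv (fromBlocks E 0 0 (1 : Matrix (Fin l) (Fin l) R))
      (1 : Matrix (m ⊕ Fin l) (m ⊕ Fin l) R) := by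
  obtain ⟨k, hk⟩ := exists_stab E (1 : Matrix m m R) hE one_idem h
  refine ⟨k, fun l hl => ?_⟩
  have := matEquiv_stab_mono E (1 : Matrix m m R) hE one_idem hl hk
  rwa [fromBlocks_one] at this

theorem exact (hs : Function.Surjective s) (hι : ι.comp s = Q.π.comp Q.φ) (z : K0 Γ)
    (h1 : K0.map Q.φ z = 0) (h2 : K0.map s z = 0) :
    ∃ (m : ℕ) (g : (Matrix (Fin m) (Fin m) B)ˣ), z = Q.dl g := by
  obtain ⟨n, m, H, hH, rfl⟩ := exists_sub_one z
  rw [map_sub, sub_eq_zero, K0.map_cls, K0.map_cls] at h1 h2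
  have h1' : K0.cls (H.map Q.φ) (K0.map_idem Q.φ hH) =
      K0.cls (1 : Matrix (Fin m) (Fin m) 𝓜) one_idem := by
    rw [h1]
    congr 1
    exact Matrix.map_one _ (map_zero Q.φ) (map_one Q.φ)
  have h2' : K0.cls (H.map s) (K0.map_idem s hH) =
      K0.cls (1 : Matrix (Fin m) (Fin m) Gb) one_idem := by
    rw [h2]
    congr 1
    exact Matrix.map_one _ (map_zero s) (map_one s)
  obtain ⟨k1, hk1⟩ := sqex_stab _ _ h1'
  obtain ⟨k2, hk2⟩ := sqex_stab _ _ h2'
  set k := max k1 k2 with hk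
  have e1 := hk1 k (le_max_left _ _)
  have e2 := hk2 k (le_max_right _ _)
  have f1 : MatEquiv ((fromBlocks H 0 0 (1 : Matrix (Fin k) (Fin k) Γ)).map Q.φ)
      (1 : Matrix (Fin (m + k)) (Fin (m + k)) 𝓜) := by
    rw [fromBlocks_map, Matrix.map_one _ (map_zero Q.φ) (map_one Q.φ),
      Matrix.map_zero _ (map_zero Q.φ), Matrix.map_zero _ (map_zero Q.φ)]
    refine K0.matEquiv_trans (K0.fromBlocks_idem (K0.map_idem Q.φ hH) one_idem) one_idem e1 ?_
    have := K0.matEquiv_submatrix (1 : Matrix (Fin m ⊕ Fin k) (Fin m ⊕ Fin k) 𝓜) one_idem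
      finSumFinEquiv.symm
    rw [submatrix_one_equiv] at this
    exact K0.matEquiv_symm this
  have f2 : MatEquiv ((fromBlocks H 0 0 (1 : Matrix (Fin k) (Fin k) Γ)).map s)
      (1 : Matrix (Fin (m + k)) (Fin (m + k)) Gb) := by
    rw [fromBlocks_map, Matrix.map_one _ (map_zero s) (map_one s),
      Matrix.map_zero _ (map_zero s), Matrix.map_zero _ (map_zero s)]
    refine K0.matEquiv_trans (K0.fromBlocks_idem (K0.map_idem s hH) one_idem) one_idem e2 ?_
    have := K0.matEquiv_submatrix (1 : Matrix (Fin m ⊕ Fin k) (Fin m ⊕ Fin k) Gb) one_idem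
      finSumFinEquiv.symm
    rw [submatrix_one_equiv] at this
    exact K0.matEquiv_symm this
  obtain ⟨g, hg⟩ := Q.exists_dl_of_matEquiv s ι hs hι (fromBlocks H 0 0 1)
    (K0.fromBlocks_idem hH one_idem) f1 f2
  refine ⟨m + k, g, ?_⟩
  rw [hg, K0.cls_fromBlocks hH one_idem]
  have h3 : K0.cls (1 : Matrix (Fin (m + k)) (Fin (m + k)) Γ) one_idem =
      K0.cls (1 : Matrix (Fin m) (Fin m) Γ) one_idem +
        K0.cls (1 : Matrix (Fin k) (Fin k) Γ) one_idem := by
    rw [← K0.cls_fromBlocks]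
    apply K0.cls_congr
    rw [fromBlocks_one]
    have := K0.matEquiv_submatrix (1 : Matrix (Fin m ⊕ Fin k) (Fin m ⊕ Fin k) Γ) one_idem
      finSumFinEquiv.symm
    rwa [submatrix_one_equiv] at this
  rw [h3]
  abel

end Sq

end Pool.Agent.H95.KM

end

section

/-!
# Project KN: the trivializations of `KM/DetOne.lean`, in the form used here

`exists_triv` is `det_one` of `Pool/Agent/H95/KM/DetOne.lean` for the representation of `uN n` given by
`exists_isRep_repH` (index `Unit ⊕ Unit`), reindexed to `Fin 1`, `Fin E.n`, with two additions: the value of `dl (uN n)`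
(`Sq.dl_eq`, `K0.cls_congr`, `K0.mk_eq_cls`) and `yA * xA = E` over `L` (apply the injective `F = lau (fou fL C)`
and `matrix_map_injective`: `F(yA) F(xA)` is the image of `y * x = H.map φ`; model: `hxA`, `hyA` and the use of
`fou_mapRing` in the proof of `det_one`; copy that proof).
-/

set_option autoImplicit false

open Matrix
open scoped LaurentPolynomial

universe u v w

namespace Pool.Agent.H16.KN

open Pool.Agent.H71.FJ (K0 K0.mk K0.cls IdemMat)
open Pool.Agent.H95.KM

open Classical in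
theorem detL_one {O : Type} [CommRing O] [IsDomain O] [CharZero O] (N : ℕ) [NeZero N]
    [HasEnoughRootsOfUnity O N] [Finite (Amod O N)] {L : Type} [Field L] [CharZero L]
    (fL : O →+* L) (hfL : Function.Injective fL)
    (C : Type v) [Group C] [Fintype C] [Fintype (C →* Oˣ)] (hC : ∀ a b : C, a * b = b * a)
    (hN : Nat.card C ∣ N) (n : (C →* Oˣ) → Pr O N → ℤ) {ν : Type} [Fintype ν] [DecidableEq ν]
    {x : Matrix Unit ν ((C →* Oˣ) → O)[T;T⁻¹]} {y : Matrix ν Unit ((C →* Oˣ) → O)[T;T⁻¹]}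
    {H : Matrix ν ν (MonoidAlgebra O C)[T;T⁻¹]}
    (h : (sqC (RingHom.id O) N C hC hN).lauSq.IsRep (uN n) x y H) :
    ∃ (xA : Matrix Unit ν (MonoidAlgebra L C)[T;T⁻¹])
      (yA : Matrix ν Unit (MonoidAlgebra L C)[T;T⁻¹]), xA * yA = 1 ∧
      yA * xA = H.map (lau (MonoidAlgebra.mapRingHom C fL)) ∧
      ∀ (m : Pr O N) (Om : Type) [CommRing Om] [IsDomain Om] [CharZero Om] (f : O →+* Om)
        (j : Om →+* L), j.comp f = fL → Function.Injective j →
        (∀ (m' : Pr O N) (r : O), Ideal.Quotient.mk (Ideal.span {(N : O)}) r = kappa O N m' →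
          Ideal.Quotient.mk (Ideal.span {(N : Om)}) (f r) = if m' = m then 1 else 0) →
        ∃ (xB : Matrix Unit ν (MonoidAlgebra Om C)[T;T⁻¹])
          (yB : Matrix ν Unit (MonoidAlgebra Om C)[T;T⁻¹]), xB * yB = 1 ∧
          yB * xB = H.map (lau (MonoidAlgebra.mapRingHom C f)) ∧
          (∀ i k, (xB.map (lau (MonoidAlgebra.mapRingHom C j))) i k =
            vL fL (fun χ => - n χ m) * xA i k) ∧
          (∀ k i, (yB.map (lau (MonoidAlgebra.mapRingHom C j))) k i =
            yA k i * vL fL (fun χ => n χ m)) := by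
  have hinj : Function.Injective (lau (fou fL C)) := lau_injective (detOne_inj fL hC hN)
  have hsurj : Function.Surjective (lau (fou fL C)) := by
    apply lau_surjective
    intro F
    obtain ⟨z, hz⟩ := exists_fou fL (C := C) (fun χ => (Nat.card C : L)⁻¹ * F χ)
    refine ⟨z, ?_⟩
    rw [hz]
    funext χ
    have hcard : (Nat.card C : L) ≠ 0 := by exact_mod_cast Nat.card_pos.ne'
    rw [mul_inv_cancel_left₀ hcard]
  obtain ⟨xA, hxA⟩ := exists_matrix_lift (lau (fou fL C)) (x.map (lau (fL.compLeft (C →* Oˣ))))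
    (fun i j => hsurj _)
  obtain ⟨yA, hyA⟩ := exists_matrix_lift (lau (fou fL C)) (y.map (lau (fL.compLeft (C →* Oˣ))))
    (fun i j => hsurj _)
  refine ⟨xA, yA, ?_, ?_, ?_⟩
  · apply matrix_map_injective hinj
    rw [Matrix.map_mul, hxA, hyA, ← Matrix.map_mul, h.1,
      Matrix.map_one _ (map_zero _) (map_one _), Matrix.map_one _ (map_zero _) (map_one _)]
  · apply matrix_map_injective hinj
    rw [Matrix.map_mul, hxA, hyA, ← Matrix.map_mul, h.2.1]
    ext i l : 1
    rw [Matrix.map_apply, Matrix.map_apply, Matrix.map_apply, Matrix.map_apply]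
    change lau (fL.compLeft (C →* Oˣ)) (lau (fou (RingHom.id O) C) (H i l)) =
      lau (fou fL C) (lau (MonoidAlgebra.mapRingHom C fL) (H i l))
    rw [← RingHom.comp_apply, ← lau_comp, ← RingHom.comp_apply, ← lau_comp,
      detOne_fou_comp (RingHom.id O) fL fL (RingHom.comp_id fL) C]
  intro m Om _ _ _ f j hjf hj hκ
  have h' := Sq.IsRep.map (detOneHom N f C hC hN) h
  set k : (C →* Oˣ) → ℤ := fun χ => n χ m with hk
  have hk0 : k + -k = 0 := add_neg_cancel k
  have hk1 : -k + k = 0 := neg_add_cancel k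
  have hvv' : (Matrix.of fun _ _ : Unit => detOneW Om k) * (Matrix.of fun _ _ : Unit => detOneW Om (-k)) = 1 := by
    ext i l : 1
    simp [Matrix.mul_apply, detOne_W_mul, detOne_W_zero, Matrix.one_apply, Subsingleton.elim i l]
  have hv'v : (Matrix.of fun _ _ : Unit => detOneW Om (-k)) * (Matrix.of fun _ _ : Unit => detOneW Om k) = 1 := by
    ext i l : 1
    simp [Matrix.mul_apply, detOne_W_mul, detOne_W_zero, Matrix.one_apply, Subsingleton.elim i l]
  have hv : (Matrix.of fun _ _ : Unit => detOneW Om k).map (sqC f N C hC hN).lauSq.π =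
      ((mapU (detOneHom N f C hC hN).c (uN n) : (Matrix Unit Unit _)ˣ) : Matrix Unit Unit _) := by
    ext i l : 1
    change lau (sqC f N C hC hN).π (detOneW Om k) =
      lau ((Ideal.quotientMap (Ideal.span {(N : Om)}) f (detOne_N_le N f)).compLeft (C →* Oˣ)) (un n)
    apply cmp_ext
    intro χ
    rw [detOne_cmp_lau, cmp_un]
    have e1 : cmp χ (lau (sqC f N C hC hN).π (detOneW Om k)) =
        lau (Ideal.Quotient.mk (Ideal.span {(N : Om)})) (cmp χ (detOneW Om k)) := by
      apply ext_coeff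
      intro l
      rw [cmp_coeff, lau_coeff, lau_coeff, cmp_coeff]
      rfl
    rw [e1, detOne_cmp_W, lau_single, map_one]
    unfold unComp
    rw [map_sum, Finset.sum_eq_single m]
    · rw [lau_single]
      obtain ⟨r, hr⟩ := Ideal.Quotient.mk_surjective (kappa O N m)
      rw [← hr, Ideal.quotientMap_mk, hκ m r hr, if_pos rfl]
    · intro m' _ hm'
      rw [lau_single]
      obtain ⟨r, hr⟩ := Ideal.Quotient.mk_surjective (kappa O N m')
      rw [← hr, Ideal.quotientMap_mk, hκ m' r hr, if_neg hm', AddMonoidAlgebra.single_zero]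
    · intro hm
      exact absurd (Finset.mem_univ _) hm
  obtain ⟨xB, yB, hxB, hyB, hxy, hyx⟩ := Sq.loc_rep h' _ _ hvv' hv'v hv
  have hcomp : ∀ z : (MonoidAlgebra Om C)[T;T⁻¹], lau (fou fL C) (lau (MonoidAlgebra.mapRingHom C j) z) =
      lau (j.compLeft (C →* Oˣ)) (lau (fou f C) z) := by
    intro z
    rw [← RingHom.comp_apply, ← lau_comp, ← RingHom.comp_apply, ← lau_comp,
      detOne_fou_comp f j fL hjf C]
  have hfl : ∀ z : ((C →* Oˣ) → O)[T;T⁻¹], lau (j.compLeft (C →* Oˣ)) (lau (f.compLeft (C →* Oˣ)) z) =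
      lau (fL.compLeft (C →* Oˣ)) z := by
    intro z
    rw [← RingHom.comp_apply, ← lau_comp]
    congr 2
    rw [← hjf]
    rfl
  refine ⟨xB, yB, hxy, hyx, ?_, ?_⟩
  · intro i l
    apply hinj
    rw [Matrix.map_apply, hcomp, map_mul, show (fun χ => - n χ m) = -k from rfl, detOne_fou_vL]
    have e1 : lau (fou f C) (xB i l) = detOneW Om (-k) * lau (f.compLeft (C →* Oˣ)) (x i l) := by
      have t := congrFun (congrFun hxB i) l
      rw [Matrix.mul_apply, Finset.univ_unique, Finset.sum_singleton] at t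
      exact t
    have e2 : lau (fou fL C) (xA i l) = lau (fL.compLeft (C →* Oˣ)) (x i l) :=
      congrFun (congrFun hxA i) l
    rw [e1, e2, map_mul, detOne_lau_W, hfl]
  · intro l i
    apply hinj
    rw [Matrix.map_apply, hcomp, map_mul, detOne_fou_vL]
    have e1 : lau (fou f C) (yB l i) = lau (f.compLeft (C →* Oˣ)) (y l i) * detOneW Om k := by
      have t := congrFun (congrFun hyB l) i
      rw [Matrix.mul_apply, Finset.univ_unique, Finset.sum_singleton] at t
      exact t
    have e2 : lau (fou fL C) (yA l i) = lau (fL.compLeft (C →* Oˣ)) (y l i) :=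
      congrFun (congrFun hyA l) i
    rw [e1, e2, map_mul, detOne_lau_W, hfl]

open Classical in
theorem exists_triv {O : Type} [CommRing O] [IsDomain O] [CharZero O] (N : ℕ) [NeZero N]
    [HasEnoughRootsOfUnity O N] [Finite (Amod O N)] {L : Type} [Field L] [CharZero L]
    (fL : O →+* L) (hfL : Function.Injective fL)
    (C : Type v) [Group C] [Fintype C] [Fintype (C →* Oˣ)] (hC : ∀ a b : C, a * b = b * a)
    (hN : Nat.card C ∣ N) (n : (C →* Oˣ) → Pr O N → ℤ) :
    ∃ (E : IdemMat (MonoidAlgebra O C)[T;T⁻¹])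
      (xA : Matrix (Fin 1) (Fin E.n) (MonoidAlgebra L C)[T;T⁻¹])
      (yA : Matrix (Fin E.n) (Fin 1) (MonoidAlgebra L C)[T;T⁻¹]),
      (sqC (RingHom.id O) N C hC hN).lauSq.dl (uN n) = K0.mk E - K0.mk (oneE _) ∧
      xA * yA = 1 ∧ yA * xA = E.mat.map (lau (MonoidAlgebra.mapRingHom C fL)) ∧
      ∀ (m : Pr O N) (Om : Type) [CommRing Om] [IsDomain Om] [CharZero Om] (f : O →+* Om)
        (j : Om →+* L), j.comp f = fL → Function.Injective j →
        (∀ (m' : Pr O N) (r : O), Ideal.Quotient.mk (Ideal.span {(N : O)}) r = kappa O N m' →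
          Ideal.Quotient.mk (Ideal.span {(N : Om)}) (f r) = if m' = m then 1 else 0) →
        ∃ (xB : Matrix (Fin 1) (Fin E.n) (MonoidAlgebra Om C)[T;T⁻¹])
          (yB : Matrix (Fin E.n) (Fin 1) (MonoidAlgebra Om C)[T;T⁻¹]), xB * yB = 1 ∧
          yB * xB = E.mat.map (lau (MonoidAlgebra.mapRingHom C f)) ∧
          (∀ i k, (xB.map (lau (MonoidAlgebra.mapRingHom C j))) i k =
            vL fL (fun χ => - n χ m) * xA i k) ∧
          (∀ k i, (yB.map (lau (MonoidAlgebra.mapRingHom C j))) k i =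
            yA k i * vL fL (fun χ => n χ m)) := by
  obtain ⟨x, y, h⟩ := (sqC (RingHom.id O) N C hC hN).lauSq.exists_isRep_repH (uN n)
  set H := (sqC (RingHom.id O) N C hC hN).lauSq.repH (uN n) with hH
  obtain ⟨xA, yA, hxy, hyx, hloc⟩ := detL_one N fL hfL C hC hN n h
  set e := Fintype.equivFin (Unit ⊕ Unit) with he
  set o : Fin 1 ≃ Unit := Equiv.ofUnique (Fin 1) Unit with ho
  refine ⟨K0.toFin H h.idem, xA.submatrix o e.symm, yA.submatrix e.symm o, ?_, ?_, ?_, ?_⟩
  · rw [Sq.dl_eq h]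
    congr 1
    rw [K0.mk_eq_cls]
    apply K0.cls_congr
    exact detL_matEquiv_one
  · have t : xA.submatrix o e.symm * yA.submatrix e.symm o = (xA * yA).submatrix o o :=
      Matrix.submatrix_mul_equiv xA yA o e.symm o
    rw [hxy, Matrix.submatrix_one_equiv o] at t
    exact t
  · have t : yA.submatrix e.symm o * xA.submatrix o e.symm = (yA * xA).submatrix e.symm e.symm :=
      Matrix.submatrix_mul_equiv yA xA e.symm o e.symm
    rw [hyx] at t
    exact t
  · intro m Om _ _ _ f j hjf hj hκ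
    obtain ⟨xB, yB, hxyB, hyxB, h1, h2⟩ := hloc m Om f j hjf hj hκ
    refine ⟨xB.submatrix o e.symm, yB.submatrix e.symm o, ?_, ?_, ?_, ?_⟩
    · have t : xB.submatrix o e.symm * yB.submatrix e.symm o = (xB * yB).submatrix o o :=
        Matrix.submatrix_mul_equiv xB yB o e.symm o
      rw [hxyB, Matrix.submatrix_one_equiv o] at t
      exact t
    · have t : yB.submatrix e.symm o * xB.submatrix o e.symm = (yB * xB).submatrix e.symm e.symm :=
        Matrix.submatrix_mul_equiv yB xB e.symm o e.symm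
      rw [hyxB] at t
      exact t
    · intro i k
      exact h1 (o i) (e.symm k)
    · intro k i
      exact h2 (e.symm k) (o i)

end Pool.Agent.H16.KN

end
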