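import Pool.Agent.H13.TFQ.H95.KM.Ded
import Pool.Agent.H13.TFQ.H95.KM.Lin
import Pool.Agent.H13.TFQ.H95.WH.ArtK
import Pool.Agent.H13.TFQ.M84
import Pool.Agent.H13.TFQ.M94
import Pool.Agent.H13.TFQ.M95
import Pool.Agent.H13.TFQ.M96

/-! The parts of this file: H95.KM.Gen, H8.KL.Prim_1. -/

section

/-!
# Project KM, module Gen: every element of `K₋₁(O[C])` is some `Θ(n)`

PROOF.  Let `Q = sqC (RingHom.id O) N C` (`Γ = O[C]`, `𝓜 = (C →* Oˣ) → O`,
`B = (C →* Oˣ) → O / N`, a finite commutative ring).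
`X = Km1.mk y`.  Put `y₀ = y - K0.map cst (K0.map ev1 y)`; `Km1.mk y₀ = X` (`mk_cst`).
(1) `K0.map (lau Q.φ) y₀ = 0`: `Const 𝓜` (`const_pi`, `const_dedekind`) for
    `y' = K0.map (lau Q.φ) y` and naturality (`lau_cst`, `ev1_lau`, `K0.map_map`).
(2) Let `Gb = (Q.π.comp Q.φ).range`, a finite commutative ring (subring of `B`),
    `s = (Q.π.comp Q.φ).rangeRestrict`, `ι` the inclusion.  `K0.map (lau s) y₀ = 0` by
    `const_finite`.
(3) `Sq.exact` for `Q.lauSq`, `lau s`, `lau ι` (`lau_surjective`, `lau_comp`): `y₀ = Q.lauSq.dl g`,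
    so `X = Q.DD.D g`.
(4) `linearize` for `Q.DD` (`DD_pos`, `DD_neg`; `hT` by `DD_lift`: `tU 1 1` over `B` is the image of
    `tU 1 1` over `𝓜`): `X = Q.DD.D (tU 1 e)`.
(5) `exists_kap` (`hc` by `DD_pos`, `isPos_cst`) gives `κ : K₀(B) →+ K₋₁(Γ)`, `X = κ [e]`; by
    `K0_gen` `[e] = ∑ r χ m • [kapMat χ m]`, so `X = ∑ r χ m • Q.DD.D (tU 1 (kapMat χ m))`.
(6) `tU 1 (kapMat χ m) = uN (δ_{(χ, m)})` (compare components with `cmp_ext`, `cmp_un`:
    at `χ`: `t kappa m + 1 - kappa m = ∑_{m'} t^{δ} kappa m'`, at the other components `1`), so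
    `X = ∑ r χ m • Θ(δ_{(χ,m)}) = Θ(r)` by additivity (`Theta_add`, `Theta_zero`).
-/

set_option autoImplicit false

open Matrix
open scoped LaurentPolynomial

universe u v w

namespace Pool.Agent.H95.KM

open Pool.Agent.H71.FJ

theorem mk_sub_const {R : Type u} [Ring R] (y : K0 R[T;T⁻¹]) :
    Km1.mk (y - K0.map (cst R) (K0.map (ev1 R) y)) = Km1.mk y := by
  rw [map_sub, mk_cst, sub_zero]

theorem map_lau_sub_const {R : Type u} [Ring R] {S : Type v} [Ring S] (f : R →+* S)
    (hS : Const S) (y : K0 R[T;T⁻¹]) :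
    K0.map (lau f) (y - K0.map (cst R) (K0.map (ev1 R) y)) = 0 := by
  rw [map_sub, K0.map_map, lau_cst, ← K0.map_map, K0.map_map f, ← ev1_lau, ← K0.map_map,
    ← hS (K0.map (lau f) y), sub_self]

theorem mono_map_lau {R : Type u} [Ring R] {S : Type v} [Ring S] (f : R →+* S) (k : ℤ)
    {m n : Type*} (X : Matrix m n R) : (mono k X).map (lau f) = mono k (X.map f) := by
  ext i j : 1
  exact lau_single f k (X i j)

theorem DD_tU_one {Γ : Type u} {𝓜 : Type v} {B : Type w} [Ring Γ] [Ring 𝓜] [Ring B]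
    (Q : Sq Γ 𝓜 B) {m : Type} [Fintype m] [DecidableEq m] :
    Q.DD.D (tU 1 (1 : Matrix m m B) one_idem) = 0 := by
  apply Q.DD_lift (tU 1 (1 : Matrix m m 𝓜) one_idem)
  rw [tU_val, tU_val, sub_self, sub_self, mono_zero, mono_zero, add_zero, add_zero,
    mono_map_lau, Matrix.map_one _ (map_zero _) (map_one _)]

theorem DD_cst {Γ : Type u} {𝓜 : Type v} {B : Type w} [Ring Γ] [Ring 𝓜] [Ring B]
    (Q : Sq Γ 𝓜 B) {m : Type} [Fintype m] [DecidableEq m] (g : (Matrix m m B)ˣ) :
    Q.DD.D (mapU (cst B) g) = 0 :=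
  Q.DD_pos _ (fun _ _ => isPos_cst _) (fun _ _ => isPos_cst _)

theorem uN_single {O : Type} [CommRing O] {N : ℕ} [Finite (Amod O N)] {X : Type v} [Finite X]
    [DecidableEq X] [DecidableEq (Pr O N)] (χ : X) (m : Pr O N) :
    tU 1 (kapMat χ m) (kapMat_idem χ m) =
      uN (Pi.single χ (Pi.single m 1) : X → Pr O N → ℤ) := by
  apply Units.ext
  ext i j : 1
  change mono 1 (kapMat χ m) i j + mono 0 (1 - kapMat χ m) i j = un _
  have h1 : mono 1 (kapMat χ m : Matrix Unit Unit (X → Amod O N)) i j =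
      AddMonoidAlgebra.single 1 (Pi.single χ (kappa O N m)) := rfl
  have h0 : mono 0 (1 - kapMat χ m : Matrix Unit Unit (X → Amod O N)) i j =
      AddMonoidAlgebra.single 0 (1 - Pi.single χ (kappa O N m)) := by
    change AddMonoidAlgebra.single 0 ((1 : Matrix Unit Unit (X → Amod O N)) i j - _) = _
    rw [Subsingleton.elim i j, Matrix.one_apply_eq]
    rfl
  rw [h1, h0]
  apply cmp_ext
  intro ψ
  rw [cmp_un, map_add, cmp, lau_single, lau_single, Pi.evalRingHom_apply, Pi.evalRingHom_apply,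
    Pi.sub_apply, Pi.one_apply]
  by_cases hψ : ψ = χ
  · subst hψ
    rw [Pi.single_eq_same, Pi.single_eq_same, unComp, ← Finset.add_sum_erase _ _ (Finset.mem_univ m),
      Pi.single_eq_same]
    congr 1
    have h2 : (1 : Amod O N) - kappa O N m = ∑ m' ∈ Finset.univ.erase m, kappa O N m' := by
      rw [sub_eq_iff_eq_add', Finset.add_sum_erase _ _ (Finset.mem_univ m), sum_kappa]
    rw [h2]
    have h3 : (AddMonoidAlgebra.single 0 (∑ m' ∈ Finset.univ.erase m, kappa O N m') :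
        (Amod O N)[T;T⁻¹]) = ∑ m' ∈ Finset.univ.erase m, AddMonoidAlgebra.single 0 (kappa O N m') :=
      map_sum (AddMonoidAlgebra.singleAddHom 0) _ _
    rw [h3]
    apply Finset.sum_congr rfl
    intro m' hm'
    rw [Pi.single_eq_of_ne (Finset.ne_of_mem_erase hm')]
  · rw [Pi.single_eq_of_ne hψ, Pi.single_eq_of_ne hψ, unComp_zero, sub_zero,
      AddMonoidAlgebra.single_zero, zero_add]
    rfl

theorem Theta_sum_smul {O : Type} [CommRing O] [IsDomain O] [CharZero O] (N : ℕ) [NeZero N]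
    [HasEnoughRootsOfUnity O N] [Finite (Amod O N)]
    (C : Type v) [Group C] [Finite C] (hC : ∀ a b : C, a * b = b * a) (hN : Nat.card C ∣ N) :
    ∃ θ : ((C →* Oˣ) → Pr O N → ℤ) →+ Km1 (MonoidAlgebra O C), ∀ n, θ n = Theta N C hC hN n :=
  ⟨{ toFun := Theta N C hC hN
     map_zero' := Theta_zero N C hC hN
     map_add' := Theta_add N C hC hN }, fun _ => rfl⟩

theorem Theta_surj {O : Type} [CommRing O] [IsDedekindDomain O] [CharZero O] (N : ℕ) [NeZero N]
    [HasEnoughRootsOfUnity O N] [Finite (Amod O N)]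
    (C : Type v) [Group C] [Finite C] (hC : ∀ a b : C, a * b = b * a) (hN : Nat.card C ∣ N)
    (X : Km1 (MonoidAlgebra O C)) : ∃ n, X = Theta N C hC hN n := by
  classical
  have := finite_dual (O := O) N hC hN
  have : Fintype (C →* Oˣ) := Fintype.ofFinite _
  obtain ⟨y, rfl⟩ := Km1.mk_surjective X
  obtain ⟨Q, hQ⟩ : ∃ Q, Q = sqC (RingHom.id O) N C hC hN := ⟨_, rfl⟩
  -- the element `y₀`
  obtain ⟨y₀, hy₀⟩ : ∃ y₀, y₀ = y - K0.map (cst _) (K0.map (ev1 _) y) := ⟨_, rfl⟩
  have hmk : Km1.mk y₀ = Km1.mk y := by rw [hy₀, mk_sub_const]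
  have hconst : Const ((C →* Oˣ) → O) := const_pi fun _ => const_dedekind O
  have h1 : K0.map (lau Q.φ) y₀ = 0 := by
    rw [hy₀]
    exact map_lau_sub_const Q.φ hconst y
  have h2 : K0.map (lau (Q.π.comp Q.φ).rangeRestrict) y₀ = 0 := by
    rw [hy₀]
    exact map_lau_sub_const _ (const_finite _) y
  obtain ⟨k, g, hg⟩ := Sq.exact Q.lauSq (lau (Q.π.comp Q.φ).rangeRestrict)
    (lau (Q.π.comp Q.φ).range.subtype)
    (lau_surjective (Q.π.comp Q.φ).rangeRestrict_surjective)
    (by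
      rw [← lau_comp]
      exact lau_comp Q.π Q.φ) y₀ h1 h2
  have hX : Km1.mk y = Q.DD.D g := by rw [← hmk, hg]; rfl
  obtain ⟨n', i1, i2, e, he, hge⟩ := linearize Q.DD (fun g => Q.DD_pos g) (fun g => Q.DD_neg g)
    (DD_tU_one Q) g
  obtain ⟨κ, hκ⟩ := exists_kap Q.DD (DD_cst Q)
  obtain ⟨r, hr⟩ := K0_gen (O := O) (N := N) (X := C →* Oˣ) (K0.cls e he)
  obtain ⟨θ, hθ⟩ := Theta_sum_smul (O := O) N C hC hN
  refine ⟨r, ?_⟩
  rw [hX, hge, ← hκ, hr, ← hθ]
  have h3 : ∀ (χ : C →* Oˣ) (m : Pr O N), κ (K0.cls (kapMat χ m) (kapMat_idem χ m)) =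
      θ (Pi.single χ (Pi.single m 1)) := by
    intro χ m
    rw [hκ, uN_single, hθ, hQ]
    rfl
  simp only [map_sum, map_zsmul, h3]
  simp only [← map_zsmul, ← map_sum]
  congr 1
  funext χ m
  simp only [Finset.sum_apply, Pi.smul_apply]
  rw [Finset.sum_eq_single χ, Finset.sum_eq_single m]
  · rw [Pi.single_eq_same, Pi.single_eq_same, smul_eq_mul, mul_one]
  · intro m' _ hm'
    rw [Pi.single_eq_same, Pi.single_eq_of_ne (Ne.symm hm'), smul_zero]
  · intro h
    exact absurd (Finset.mem_univ _) h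
  · intro χ' _ hχ'
    apply Finset.sum_eq_zero
    intro m' _
    rw [Pi.single_eq_of_ne (Ne.symm hχ'), Pi.zero_apply, smul_zero]
  · intro h
    exact absurd (Finset.mem_univ _) h

end Pool.Agent.H95.KM

end

section

/-!
# Project KL, module Prim: decomposition of the symbols into primitive symbols

`Prim C v` : the logarithms of the unit `v` of `ℤ[C]` vanish at the elements that do not generate `C`.
`iK h` : the map `K₁(ℤ[D]) → K₁(ℤ[C])` for `D ≤ C`.

* `low` : `m [u] = [w] + ∑ [v_a]`, `v_a` units of `ℤ[D a]`, `D a < C`, `w` primitive;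
* `mem_closure_prim` : a multiple of every element of `HnK1 ℤ G k` is a sum of symbols `[C, v, z]` with `C` finite
  cyclic and `v` primitive (`Tr`, `Tr.val`).
-/

set_option autoImplicit false

open Matrix

universe u v w

namespace Pool.Agent.H8.KL

open Pool.Agent.H95.WH (K1 K1.mk K1.map K1.unit K1.map_unit K1.unit_mul FamSub conjHom FinSub uH unit_pow exists_unit artin_K1 ind)
open Pool.Agent.H71.FQ (HG HG.map centConj)
open Pool.Agent.H16.FU (HnK1 sy1 sy1_add sy1_addz sy1_conj syB1 syB1_apply hnk1_induction)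

section K

end K

section Tr

variable {G : Type v} [Group G] {k : ℕ}

/-- **A multiple of every element is a sum of primitive symbols.** -/
theorem MP_all (x : HnK1 ℤ G k) : MP x := by
  induction x using hnk1_induction with
  | h0 => exact MP.zero
  | h2 a b ha hb => exact ha.add hb
  | h3 a ha => exact ha.neg
  | h1 F x z =>
    have : Finite F.1 := F.2
    obtain ⟨m, r, D, y, hm, hcyc, h⟩ := artin_K1 F.1 x
    apply MP.of_smul hm
    have e1 : m • sy1 F x z = syB1 F (m • x) z := by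
      rw [map_nsmul, AddMonoidHom.coe_smul, Pi.smul_apply, syB1_apply]
    rw [e1, h, map_sum, AddMonoidHom.finsetSum_apply]
    refine MP.sum _ _ fun i _ => ?_
    have hfin : Finite ((D i).map F.1.subtype) :=
      Finite.of_equiv _ ((D i).equivMapOfInjective F.1.subtype F.1.subtype_injective).toEquiv
    have hcyc' : IsCyclic ((D i).map F.1.subtype) := by
      have := hcyc i
      exact isCyclic_of_surjective
        ((D i).equivMapOfInjective F.1.subtype F.1.subtype_injective)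
        ((D i).equivMapOfInjective F.1.subtype F.1.subtype_injective).surjective
    obtain ⟨z', hz'⟩ := sy1_ind F (D i) (y i) hfin z
    rw [syB1_apply, hz']
    obtain ⟨m', u, hm', h'⟩ := exists_unit (C := (D i).map F.1.subtype)
      (fun a b => (IsCyclic.commGroup (α := (D i).map F.1.subtype)).mul_comm a b)
      (K1.map (MonoidAlgebra.mapDomainRingHom ℤ
        ((D i).equivMapOfInjective F.1.subtype F.1.subtype_injective).toMonoidHom) (y i))
    apply MP.of_smul hm'
    rw [← syB1_apply, ← AddMonoidHom.smul_apply, ← map_nsmul, h', syB1_apply]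
    exact MP_unit _ ⟨(D i).map F.1.subtype, hfin, hcyc', u, z'⟩ le_rfl

/-- **A multiple of every element is a finite sum of primitive symbols.** -/
theorem exists_prim (x : HnK1 ℤ G k) :
    ∃ (m n : ℕ) (t : Fin n → Tr G k), 0 < m ∧ (∀ i, Prim (t i).C (t i).u) ∧
      m • x = ∑ i, (t i).val := by
  obtain ⟨m, hm, h⟩ := MP_all x
  obtain ⟨l, h1, h2⟩ := exists_list h
  refine ⟨m, l.length, fun i => l.get i, hm, fun i => h1 _ (List.get_mem l i), ?_⟩
  rw [h2]
  clear h h1 h2
  induction l with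
  | nil => simp
  | cons t l ih =>
    rw [List.map_cons, List.sum_cons, ih]
    exact (Fin.sum_univ_succ (n := l.length) fun i => ((t :: l).get i).val).symm

end Tr

end Pool.Agent.H8.KL

end
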