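import Pool.Agent.H13.TFQ.H16.KN.Chn_1
import Pool.Agent.H13.TFQ.H16.KN.Cmp_1
import Pool.Agent.H13.TFQ.H16.KN.EvB
import Pool.Agent.H13.TFQ.M107

/-! The parts of this file: H16.KN.EvB_1, H16.KN.Chn_2. -/

section

/-!
# Project KN: evaluation of the prism of a unit of `B[C][T;T⁻¹]`

`wq c φ C d` is the cochain of `Z_G(C)` given by the transport along `c ~ d` (`trc` of `KN/LinDN.lean`).

PROOFS.
`lc_wq`: `trc`, `HG.map_mk`, `HG.ev_mk`, `lc_push`.
`TT_unit`: the letters are `κ (y_j⁻¹ y_{j+1})` (`j ≤ n`), `V`, `V⁻¹ κ (y_{n+1}⁻¹ y_0)`.  Both sides are bilinear in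
`(v, v')` if the letters `V`, `V⁻¹ κ` are replaced by the `1 × 1` matrices `gz v`, `gz v' * κ` (prove this general form
by linearity, e.g. from the explicit formula `TM_eq` with a common support); for `v = T ^ k a`, `v' = T ^ l b` there
is one word, its product is `(a b, k + l)` (`C` commutes with `Z_G(C)`); it is conjugate to `(c, 1)` iff `k + l = 0` and
`a b ~ c`; for `d = a b ~ c` take `u = (cx π d)⁻¹`, `π u = 1`, `u d u⁻¹ = c` (`wv_eq`); the first `n + 2` vertices are
`u y_0⁻¹ y_j = (ζ_0⁻¹ ζ_j) u` with `ζ_j = u y_j u⁻¹ = cnj c (cx π d) C _ (y_j)`, so `π` of them is `ζ_0⁻¹ ζ_j`, and `φ` is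
invariant; the difference of the degrees of the last two vertices is `k`.
`TQ_unit`: `TQ_prism`, `TT_unit`, `lc_wq`.
`der_coeff_vL`: `der_vL` of `KM/DetOne.lean` for `-k`, `oneChi`.
-/

set_option autoImplicit false

open Matrix
open scoped LaurentPolynomial

universe u v w

namespace Pool.Agent.H16.KN

open Pool.Agent.H71.FQ
open Pool.Agent.H95.KM (lau der oneChi vL cst cst_apply der_vL)
open Pool.Agent.H71.FJ (K0 K0.mk IdemMat)
open Pool.Agent.H71.DB (xc xc_spec)

section tools

end tools

section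

variable {G : Type u} [Group G] {B : Type} [CommRing B] {n : ℕ} {c : G}
  {π : G → Subgroup.centralizer ({c} : Set G)}
  {φ : (Fin (n + 2) → Subgroup.centralizer ({c} : Set G)) → B}

/-- the elements of the centralizer of `C` as `1 × 1` matrices -/
noncomputable def kC (B : Type) [CommRing B] (C : Subgroup G) :
    Subgroup.centralizer (C : Set G) →* GLm 1 (MonoidAlgebra B (G × Multiplicative ℤ)) :=
  kp (gz B C.subtype) (gk B (Subgroup.centralizer (C : Set G)).subtype)
    (gz_comm B C.subtype (Subgroup.centralizer (C : Set G)).subtype (cent_comm C))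

private theorem ub_kC (C : Subgroup G) (z : Subgroup.centralizer (C : Set G)) :
    (kC B C z).val = ub_m (MonoidAlgebra.single (ub_i C z) 1) := by
  ext i j
  unfold kC
  rw [kp_val, gk_val]
  rfl

private theorem ub_lts (C : Subgroup G) (y : Fin (n + 2) → Subgroup.centralizer (C : Set G))
    (V : GLm 1 (MonoidAlgebra B (G × Multiplicative ℤ)))
    (v v' : MonoidAlgebra B (G × Multiplicative ℤ))
    (hV : ∀ i j, V.val i j = v) (hV' : ∀ i j, (V⁻¹).val i j = v') :
    lts (Fin.snoc (α := fun _ => GLm 1 (MonoidAlgebra B (G × Multiplicative ℤ)))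
        (fun j => kC B C (y j)) (kC B C (y (Fin.last (n + 1))) * V)) =
      ub_l (fun i => ub_m (MonoidAlgebra.single
        ((ub_i C (y i.castSucc))⁻¹ * ub_i C (y i.succ)) (1 : B))) (ub_m v)
        (ub_m (v' * MonoidAlgebra.single ((ub_i C (y (Fin.last (n + 1))))⁻¹ * ub_i C (y 0)) (1 : B))) := by
  have hk : ∀ z z' : Subgroup.centralizer (C : Set G), ((kC B C z)⁻¹ * kC B C z').val =
      ub_m (MonoidAlgebra.single ((ub_i C z)⁻¹ * ub_i C z') (1 : B)) := by
    intro z z'
    rw [← map_inv, ← map_mul, ub_kC, map_mul, map_inv]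
  refine ub_l_ext _ _ _ _ ?_ ?_ ?_
  · intro i
    unfold lts
    have h1 : (i.castSucc.castSucc + 1 : Fin (n + 3)) = i.succ.castSucc := by
      apply Fin.ext
      rw [Fin.val_add_one, if_neg]
      · rfl
      · intro h
        have := congrArg Fin.val h
        have h2 := i.2
        rw [Fin.val_castSucc, Fin.val_castSucc, Fin.val_last] at this
        omega
    rw [h1, Fin.snoc_castSucc, Fin.snoc_castSucc, hk]
  · unfold lts
    have h1 : ((Fin.last (n + 1)).castSucc + 1 : Fin (n + 3)) = Fin.last (n + 2) := by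
      apply Fin.ext
      rw [Fin.val_add_one, if_neg]
      · rfl
      · intro h
        have := congrArg Fin.val h
        rw [Fin.val_castSucc, Fin.val_last, Fin.val_last] at this
        omega
    rw [h1, Fin.snoc_castSucc, Fin.snoc_last, inv_mul_cancel_left]
    funext i j
    exact hV i j
  · unfold lts
    have h1 : (Fin.last (n + 2) + 1 : Fin (n + 3)) = (0 : Fin (n + 2)).castSucc := by
      rw [Fin.last_add_one]
      rfl
    rw [h1, Fin.snoc_castSucc, Fin.snoc_last, _root_.mul_inv_rev, mul_assoc, Units.val_mul, hk]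
    funext i j
    rw [Matrix.mul_apply, Fin.sum_univ_one, hV']
    rfl

theorem TT_unit (hπ : ∀ (z : Subgroup.centralizer ({c} : Set G)) (g : G), π (z * g) = z * π g)
    (hφ : IsCoc (Subgroup.centralizer ({c} : Set G)) n φ) (C : Subgroup G) [Fintype C]
    (v v' : (MonoidAlgebra B C)[T;T⁻¹])
    (V : GLm 1 (MonoidAlgebra B (G × Multiplicative ℤ)))
    (hV : ∀ i j, V.val i j = gz B C.subtype v) (hV' : ∀ i j, (V⁻¹).val i j = gz B C.subtype v')
    (y : Fin (n + 2) → Subgroup.centralizer (C : Set G)) :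
    TT ((c, 1) : G × Multiplicative ℤ) (fL π φ)
      (Fin.snoc (α := fun _ => GLm 1 (MonoidAlgebra B (G × Multiplicative ℤ)))
        (fun j => kC B C (y j)) (kC B C (y (Fin.last (n + 1))) * V)) =
      ∑ d : C, ((der _ v * v').coeff 0).coeff d * wq π φ C d y := by
  unfold TT
  rw [ub_lts C y V _ _ hV hV']
  exact ub_F_eq hπ hφ C y v v'

theorem TQ_unit (hπ : ∀ (z : Subgroup.centralizer ({c} : Set G)) (g : G), π (z * g) = z * π g)
    (hφ : IsCoc (Subgroup.centralizer ({c} : Set G)) n φ) (C : Subgroup G) [Fintype C]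
    (v v' : (MonoidAlgebra B C)[T;T⁻¹])
    (V : GLm 1 (MonoidAlgebra B (G × Multiplicative ℤ)))
    (hV : ∀ i j, V.val i j = gz B C.subtype v) (hV' : ∀ i j, (V⁻¹).val i j = gz B C.subtype v')
    (z : cyc (Subgroup.centralizer (C : Set G)) n) :
    TQ ((c, 1) : G × Multiplicative ℤ) (fL π φ)
      (ch 1 (prism (fun y => kC B C y) (fun y => kC B C y * V) (n + 1)
        (z : Cx ℤ (Subgroup.centralizer (C : Set G)) (n + 1)))) =
      (-1 : ℤ) ^ (n + 1) • ∑ d : C, ((der _ v * v').coeff 0).coeff d *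
        HG.ev hφ (trc n c C d (HG.mk z)) := by
  classical
  have hVk : ∀ w : Subgroup.centralizer (C : Set G), V * kC B C w = kC B C w * V := by
    intro w
    apply Units.ext
    rw [Units.val_mul, Units.val_mul]
    funext i j
    rw [Matrix.mul_apply, Matrix.mul_apply, Fin.sum_univ_one, Fin.sum_univ_one, hV, hV]
    unfold kC
    rw [kp_val, kp_val]
    exact gz_comm B C.subtype (Subgroup.centralizer (C : Set G)).subtype (cent_comm C) w v
  have hb : ∀ (x y : Subgroup.centralizer (C : Set G)) (g : G × Multiplicative ℤ),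
      cof ((kC B C x * V)⁻¹ * (kC B C y * V)).val g ≠ 0 → dg g = 0 := by
    intro x y g hg
    have h1 : (kC B C x * V)⁻¹ * (kC B C y * V) = kC B C (x⁻¹ * y) := by
      rw [← hVk x, ← hVk y, _root_.mul_inv_rev, mul_assoc, inv_mul_cancel_left, map_mul, map_inv]
    rw [h1, ub_kC] at hg
    have h2 : g = ub_i C (x⁻¹ * y) := by
      by_contra hne
      apply hg
      ext i j
      show (MonoidAlgebra.single (ub_i C (x⁻¹ * y)) (1 : B) :
        MonoidAlgebra B (G × Multiplicative ℤ)).coeff g = 0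
      rw [MonoidAlgebra.coeff_single, Finsupp.single_eq_of_ne hne]
    rw [h2]
    rfl
  rw [TQ_prism hπ hφ (fun y => kC B C y) (fun y => kC B C y * V) hb]
  congr 1
  have h2 : (fun x : Fin (n + 2) → Subgroup.centralizer (C : Set G) =>
      TT ((c, 1) : G × Multiplicative ℤ) (fL π φ)
        (Fin.snoc (α := fun _ => GLm 1 (MonoidAlgebra B (G × Multiplicative ℤ)))
          (fun j => kC B C (x j)) (kC B C (x (Fin.last (n + 1))) * V))) =
      fun x => ∑ d : C, ((der _ v * v').coeff 0).coeff d * wq π φ C d x := by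
    funext x
    exact TT_unit hπ hφ C v v' V hV hV' x
  rw [h2, Finsupp.linearCombination_apply, Finsupp.sum]
  simp only [Finset.smul_sum]
  rw [Finset.sum_comm]
  refine Finset.sum_congr rfl fun d _ => ?_
  rw [← lc_wq hφ C d z, Finsupp.linearCombination_apply, Finsupp.sum, Finset.mul_sum]
  refine Finset.sum_congr rfl fun x _ => ?_
  rw [mul_smul_comm]

end

section

end

end Pool.Agent.H16.KN

end

section

/-!
# Project KN: a relation in `LKQ` gives a chain

`map_pos_mem`: `KQ_map_map`, `ofKQ_map` for `(gz B id).comp (posHom _)`; `QC.map` of this homomorphism has values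
in `QC0` (for a tuple `x` over `B[G][T]` the matrices `(x i)⁻¹ * x j` are matrices over `B[G][T]`, their
images are supported in degrees `≥ 0`).  `map_neg_mem` similarly.
`exists_chain`: `LKQ.mk_eq_zero_iff`; apply `KQ.map (gz B id)` and `ofKQ`; `map_asm`, `asm_congr'`, `gz_lau`, `gz_lgrp`,
`ofKQ_asm`; `QH.mk_eq_zero`.
-/

set_option autoImplicit false

open Matrix
open scoped LaurentPolynomial

universe u v w

namespace Pool.Agent.H16.KN

open Pool.Agent.H71.FQ
open Pool.Agent.H95.KM (lau posHom negHom)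
open Pool.Agent.H71.FJ (K0 K0.mk IdemMat)

section

variable {B : Type} [CommRing B] {G : Type u} [Group G] {k : ℕ}

private theorem chn_asm (C : Subgroup G) (E : IdemMat (MonoidAlgebra B C)[T;T⁻¹])
    (z : cyc (Subgroup.centralizer (C : Set G)) k) :
    ofKQ (KQ.map (gz B (MonoidHom.id G)) (asm k (lau (MonoidAlgebra.mapDomainRingHom B C.subtype))
      ((lgrp B G).comp (Subgroup.centralizer (C : Set G)).subtype)
      (lgrp_comm B C.subtype (Subgroup.centralizer (C : Set G)).subtype (cent_comm C))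
      (K0.mk E - K0.mk (oneE _)) (HG.mk z))) =
      QH.mk (syC B C E (z : Cx ℤ _ (k + 1))) := by
  have h1 : ∀ γ b, ((gz B (MonoidHom.id G)).comp (lau (MonoidAlgebra.mapDomainRingHom B C.subtype))) b *
      (((Units.map ((gz B (MonoidHom.id G) : (MonoidAlgebra B G)[T;T⁻¹] →+*
      MonoidAlgebra B (G × Multiplicative ℤ)) : (MonoidAlgebra B G)[T;T⁻¹] →*
        MonoidAlgebra B (G × Multiplicative ℤ))).comp ((lgrp B G).comp
          (Subgroup.centralizer (C : Set G)).subtype)) γ : MonoidAlgebra B (G × Multiplicative ℤ)) =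
      ((Units.map ((gz B (MonoidHom.id G) : (MonoidAlgebra B G)[T;T⁻¹] →+*
      MonoidAlgebra B (G × Multiplicative ℤ)) : (MonoidAlgebra B G)[T;T⁻¹] →*
        MonoidAlgebra B (G × Multiplicative ℤ))).comp ((lgrp B G).comp
          (Subgroup.centralizer (C : Set G)).subtype)) γ *
        ((gz B (MonoidHom.id G)).comp (lau (MonoidAlgebra.mapDomainRingHom B C.subtype))) b := by
    intro γ b
    rw [gz_lau, gz_lgrp]
    exact gz_comm B C.subtype _ (cent_comm C) γ b
  rw [map_asm _ _ _ _ h1, asm_congr' (gz_lau B C.subtype) (gz_lgrp B _) h1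
    (gz_comm B C.subtype (Subgroup.centralizer (C : Set G)).subtype (cent_comm C))]
  exact ofKQ_asm _ _ _ E z

theorem exists_chain {ι : Type} [Fintype ι] (C : ι → Subgroup G)
    (E : ∀ i, IdemMat (MonoidAlgebra B (C i))[T;T⁻¹])
    (z : ∀ i, cyc (Subgroup.centralizer (C i : Set G)) k)
    (h : LKQ.mk (∑ i, asm k (lau (MonoidAlgebra.mapDomainRingHom B (C i).subtype))
      ((lgrp B G).comp (Subgroup.centralizer (C i : Set G)).subtype)
      (lgrp_comm B (C i).subtype (Subgroup.centralizer (C i : Set G)).subtype (cent_comm (C i)))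
      (K0.mk (E i) - K0.mk (oneE _)) (HG.mk (z i))) = 0) :
    ∃ w : QC (MonoidAlgebra B (G × Multiplicative ℤ)) (k + 2),
      qbd w - ∑ i, syC B (C i) (E i) (z i : Cx ℤ _ (k + 1)) ∈ QC0 G B (k + 1) := by
  obtain ⟨a, b, hab⟩ := LKQ.mk_eq_zero_iff.1 h
  obtain ⟨a', ha', ha⟩ := map_pos_mem (B := B) (G := G) a
  obtain ⟨b', hb', hb⟩ := map_neg_mem (B := B) (G := G) b
  have h1 := congrArg (fun x => ofKQ (KQ.map (gz B (MonoidHom.id G)) x)) hab
  simp only [map_add, map_sum] at h1
  rw [ha, hb] at h1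
  simp only [chn_asm] at h1
  have h2 : QH.mk ((∑ i, syC B (C i) (E i) (z i : Cx ℤ _ (k + 1))) - (a' + b')) = 0 := by
    rw [map_sub, map_add, map_sum, h1, sub_self]
  obtain ⟨v, hv⟩ := QH.mk_eq_zero.1 h2
  refine ⟨v, ?_⟩
  rw [hv, sub_sub_cancel_left]
  exact neg_mem (add_mem ha' hb')

end

end Pool.Agent.H16.KN

end
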