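import Pool.Agent.H13.TFQ.M106
import Pool.Agent.H13.TFQ.M108
import Pool.Agent.H13.TFQ.M95

/-! The parts of this file: H16.KN.J2, H39.KL.YPart. -/

section

/-!
# Project KN, joint part: the value of the functional of the unit element

PROOF of `TQ_yt`.  `TQ_prism` (`c = 1`; `(b x)⁻¹ * b y = kG (x⁻¹ y)`, degree `0`) and the value of
`TT ((1, 1)) (fL π φ)` on `(kG x_0, …, kG x_{n+1}, kG x_{n+1} * tG)`: by `TM_eq` there is one word, its product is `1`, and with
`u = (π 1)⁻¹ x_0` (`π u = (π 1)⁻¹ x_0 (π 1)`, choose `u` such that `π u = x_0`) the value is `φ (i x_0, …, i x_{n+1})`,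
`i : G → Z_G(1)`, up to right multiplication; or apply `TQ_unit` for `C = ⊥`, `v = T`, `v' = T⁻¹`
(`der v * v' = 1`), `trc n 1 ⊥ 1 = HG.map n ..` (`trc_eq`), and the isomorphism of `G` with the centralizer of `⊥`
(`push_prism`, `prism_push`).
-/

set_option autoImplicit false

open Matrix
open scoped LaurentPolynomial

universe u v w

namespace Pool.Agent.H16.KN

open Pool.Agent.H71.FQ Pool.Agent.H16.FU Pool.Agent.H39.KL

section

variable {G : Type u} [Group G]

/-- the inclusion of `G` in the centralizer of `1` -/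
def toC1 (G : Type u) [Group G] : G →* Subgroup.centralizer ({1} : Set G) where
  toFun g := ⟨g, by
    rw [Subgroup.mem_centralizer_iff]
    intro a ha
    rw [Set.mem_singleton_iff.1 ha, one_mul, mul_one]⟩
  map_one' := rfl
  map_mul' _ _ := rfl

private def j2_c (G : Type u) [Group G] : G →* Subgroup.centralizer ((⊥ : Subgroup G) : Set G) where
  toFun g := ⟨g, by
    rw [Subgroup.mem_centralizer_iff]
    intro a ha
    have h : a = 1 := Subgroup.mem_bot.1 ha
    rw [h, one_mul, mul_one]⟩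
  map_one' := rfl
  map_mul' _ _ := rfl

private theorem j2_prism_zero {X : Type*} {Y : Type*} (a b : X → Y) (x : Fin 1 → X) :
    prism a b 0 (Finsupp.single x 1) = Finsupp.single ![a (x 0), b (x 0)] 1 := by
  rw [prism, Finsupp.linearCombination_single, one_smul]

private theorem j2_prism_succ {X : Type*} {Y : Type*} (a b : X → Y) (k : ℕ) (x : Fin (k + 2) → X) :
    prism a b (k + 1) (Finsupp.single x 1) =
      cone ℤ (a (x 0)) (k + 1) (Finsupp.single (fun j => b (x j)) 1) -
        cone ℤ (a (x 0)) (k + 1) (prism a b k (Finsupp.single (fun j => x j.succ) 1)) := by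
  rw [prism, Finsupp.linearCombination_single, one_smul]

private theorem j2_prism_pre {W : Type*} {X : Type*} {Y : Type*} (a b : X → Y) (s : W → X) (k : ℕ)
    (c : Cx ℤ W k) :
    prism a b k (push ℤ s k c) = prism (fun x => a (s x)) (fun x => b (s x)) k c := by
  induction k with
  | zero =>
    refine cx_ext (f := (prism a b 0).comp (push ℤ s 0))
      (g := prism (fun x => a (s x)) (fun x => b (s x)) 0) ?_ c
    intro x
    rw [LinearMap.comp_apply, push_single, j2_prism_zero, j2_prism_zero]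
  | succ k ih =>
    refine cx_ext (f := (prism a b (k + 1)).comp (push ℤ s (k + 1)))
      (g := prism (fun x => a (s x)) (fun x => b (s x)) (k + 1)) ?_ c
    intro x
    rw [LinearMap.comp_apply, push_single, j2_prism_succ, j2_prism_succ, ← ih, push_single]

private theorem j2_eq {X : Type*} {Y : Type*} (a a' b b' : X → Y) (ha : ∀ x, a x = a' x)
    (hb : ∀ x, b x = b' x) (k : ℕ) (c : Cx ℤ X k) : prism a b k c = prism a' b' k c := by
  have h1 : a = a' := funext ha
  have h2 : b = b' := funext hb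
  subst h1
  subst h2
  rfl

section

variable (B : Type) [CommRing B]

private theorem j2_kC (x : G) : kC B (⊥ : Subgroup G) (j2_c G x) = kG B G x := by
  apply Units.ext
  refine Matrix.ext fun i j => ?_
  rw [kC, kp_val, gk_val, Subsingleton.elim i j]
  exact (diagonal_apply_eq (fun _ : Fin 1 => (MonoidAlgebra.single (x, 1) 1 :
    MonoidAlgebra B (G × Multiplicative ℤ))) j).symm

private theorem j2_tG (i j : Fin 1) : (tG B G).val i j =
    gz B (⊥ : Subgroup G).subtype (AddMonoidAlgebra.single 1 (MonoidAlgebra.single 1 1)) := by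
  rw [gz_single, Subsingleton.elim i j]
  exact diagonal_apply_eq (fun _ : Fin 1 => (MonoidAlgebra.single ((1 : G),
    Multiplicative.ofAdd (1 : ℤ)) 1 : MonoidAlgebra B (G × Multiplicative ℤ))) j

private theorem j2_tG_inv (i j : Fin 1) : ((tG B G)⁻¹).val i j =
    gz B (⊥ : Subgroup G).subtype (AddMonoidAlgebra.single (-1) (MonoidAlgebra.single 1 1)) := by
  rw [gz_single, Subsingleton.elim i j, tG, ← map_inv]
  have h : (((1 : G), Multiplicative.ofAdd (1 : ℤ)) : G × Multiplicative ℤ)⁻¹ =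
      ((⊥ : Subgroup G).subtype 1, Multiplicative.ofAdd (-1 : ℤ)) := by
    refine Prod.ext ?_ rfl
    exact inv_one
  rw [h]
  exact diagonal_apply_eq (fun _ : Fin 1 => (MonoidAlgebra.single
    ((⊥ : Subgroup G).subtype 1, Multiplicative.ofAdd (-1 : ℤ)) 1 :
      MonoidAlgebra B (G × Multiplicative ℤ))) j

private theorem j2_der (d : (⊥ : Subgroup G)) :
    ((Pool.Agent.H95.KM.der _ (AddMonoidAlgebra.single 1 (MonoidAlgebra.single 1 1) :
      (MonoidAlgebra B (⊥ : Subgroup G))[T;T⁻¹]) *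
      AddMonoidAlgebra.single (-1) (MonoidAlgebra.single 1 1)).coeff 0).coeff d = 1 := by
  rw [Pool.Agent.H95.KM.der_single, one_smul, AddMonoidAlgebra.single_mul_single,
    MonoidAlgebra.single_mul_single, mul_one, mul_one, add_neg_cancel]
  rw [Subsingleton.elim d 1]
  simp

end

variable {B : Type} [CommRing B] {n : ℕ} {π : G → Subgroup.centralizer ({1} : Set G)}
  {φ : (Fin (n + 2) → Subgroup.centralizer ({1} : Set G)) → B}

theorem TQ_yt (hπ : ∀ (z : Subgroup.centralizer ({1} : Set G)) (g : G), π (z * g) = z * π g)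
    (hφ : IsCoc (Subgroup.centralizer ({1} : Set G)) n φ) (y : cyc G n) :
    TQ ((1, 1) : G × Multiplicative ℤ) (fL π φ)
      (ch 1 (prism (fun x => kG B G x) (fun x => kG B G x * tG B G) (n + 1)
        (y : Cx ℤ G (n + 1)))) =
      (-1 : ℤ) ^ (n + 1) • HG.ev hφ (HG.map n (toC1 G) (HG.mk y)) := by
  have h := TQ_unit hπ hφ (⊥ : Subgroup G) _ _ (tG B G) (j2_tG B) (j2_tG_inv B)
    ⟨push ℤ (j2_c G) (n + 1) (y : Cx ℤ G (n + 1)), push_cyc (j2_c G) y.2⟩
  have h1 : (ch 1 (prism (fun x => kG B G x) (fun x => kG B G x * tG B G) (n + 1)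
      (y : Cx ℤ G (n + 1))) : QC (MonoidAlgebra B (G × Multiplicative ℤ)) (n + 2)) =
      ch 1 (prism (fun y => kC B (⊥ : Subgroup G) y) (fun y => kC B (⊥ : Subgroup G) y * tG B G)
        (n + 1) (push ℤ (j2_c G) (n + 1) (y : Cx ℤ G (n + 1)))) := by
    refine congrArg (ch 1) ?_
    rw [j2_prism_pre]
    exact j2_eq _ _ _ _ (fun x => (j2_kC B x).symm)
      (fun x => congrArg (fun z => z * tG B G) (j2_kC B x).symm) _ _
  rw [h1]
  refine h.trans ?_
  congr 1
  rw [Fintype.sum_subsingleton _ (1 : (⊥ : Subgroup G)), j2_der, one_mul]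
  have hm : (1 : G) * 1 * (1 : G)⁻¹ ∈ (⊥ : Subgroup G) := by
    rw [mul_one, one_mul, inv_one]
    exact Subgroup.one_mem _
  rw [trc_eq (1 : G) (by rw [mul_one, one_mul, inv_one]; rfl) hm, ← HG.map_mk]
  have h3 : (cnj (1 : G) 1 (⊥ : Subgroup G) hm).comp (j2_c G) = toC1 G := by
    refine MonoidHom.ext fun g => Subtype.ext ?_
    change (1 : G)⁻¹ * g * 1 = g
    rw [inv_one, one_mul, mul_one]
  rw [← h3]
  rw [HG.map_map]

end

end Pool.Agent.H16.KN

end

section

/-!
# Project KL: the part `H_{n+1}(G; ℤ)`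

If a multiple of the class of the product of `y ∈ H_{n+1}(G)` with `t` vanishes in `LKQ (L[G]) (n + 1)` for a field `L` of
characteristic zero then `y` has finite order.
-/

set_option autoImplicit false

open Matrix
open scoped LaurentPolynomial

universe u v w

namespace Pool.Agent.H39.KL

open Pool.Agent.H71.FQ Pool.Agent.H16.KN Pool.Agent.H16.FU
open Pool.Agent.H95.KM (posHom negHom)

section

variable {G : Type u} [Group G] {n : ℕ} {L : Type} [Field L] [CharZero L]

private theorem fL_zero {B : Type} [CommRing B] {c : G} {π : G → Subgroup.centralizer ({c} : Set G)}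
    {φ : (Fin (n + 2) → Subgroup.centralizer ({c} : Set G)) → B}
    (v : Fin (n + 3) → G × Multiplicative ℤ) (hv : ∀ i j, dg (v i) = dg (v j)) :
    fL π φ v = 0 := by
  unfold fL pL ldg
  rw [hv (Fin.last (n + 2)) (Fin.last (n + 1)).castSucc, sub_self, Int.cast_zero, mul_zero]

/-- **The part `H_{n+1}(G; ℤ)`.** -/
theorem y_tor (y : HG G n) (M : ℤ) (hM : M ≠ 0)
    (h : M • LKQ.mk (tp (MonoidAlgebra L G) n (mono1 L G n y)) = 0) :
    ∃ m : ℤ, m ≠ 0 ∧ m • y = 0 := by
  by_contra hcon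
  push Not at hcon
  obtain ⟨f, hf⟩ := Pool.Agent.H71.DB.exists_hom_rat y hcon
  obtain ⟨y', rfl⟩ := HG.mk_surjective y
  let sub : Subgroup.centralizer ({1} : Set G) →* G := Subgroup.subtype _
  let F : HG (Subgroup.centralizer ({1} : Set G)) n →+ L :=
    (((algebraMap ℚ L : ℚ →+* L) : ℚ →+ L).comp f).comp (HG.map n sub)
  obtain ⟨φ, hφ, hev⟩ := exists_cocycle' F
  obtain ⟨π, hπ⟩ := exists_pi (1 : G)
  have h1 : LKQ.mk (M • tp (MonoidAlgebra L G) n (mono1 L G n (HG.mk y'))) = 0 := by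
    rw [map_zsmul]
    exact h
  obtain ⟨a, b, hab⟩ := LKQ.mk_eq_zero_iff.1 h1
  obtain ⟨a', ha', ea⟩ := map_pos_mem (B := L) (G := G) a
  obtain ⟨b', hb', eb⟩ := map_neg_mem (B := L) (G := G) b
  have h2 := congrArg (fun x => ofKQ (KQ.map (gz L (MonoidHom.id G)) x)) hab
  simp only [map_add, map_zsmul] at h2
  rw [ea, eb, ofKQ_tp_mono1, ← map_add, ← map_zsmul, ← sub_eq_zero, ← map_sub] at h2
  obtain ⟨v, hv⟩ := QH.mk_eq_zero.1 h2
  have h3 := congrArg (TQ ((1, 1) : G × Multiplicative ℤ) (fL π φ)) hv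
  rw [TQ_fL_bd hπ hφ, map_sub, map_add, map_zsmul,
    TQ_half (CI_fL hπ hφ.1) fL_zero ha', TQ_half (CI_fL hπ hφ.1) fL_zero hb', TQ_yt hπ hφ,
    hev, zero_add, zero_sub, eq_comm, neg_eq_zero] at h3
  have h4 : F (HG.map n (toC1 G) (HG.mk y')) = ((f (HG.mk y') : ℚ) : L) := by
    change algebraMap ℚ L (f (HG.map n sub (HG.map n (toC1 G) (HG.mk y')))) = _
    rw [HG.map_map]
    have e : sub.comp (toC1 G) = MonoidHom.id G := MonoidHom.ext fun g => rfl
    rw [e, HG.map_id]
    rfl
  rw [h4, zsmul_eq_mul, zsmul_eq_mul] at h3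
  have hM' : (M : L) ≠ 0 := Int.cast_ne_zero.2 hM
  have hs : (((-1 : ℤ) ^ (n + 1) : ℤ) : L) ≠ 0 :=
    Int.cast_ne_zero.2 (pow_ne_zero _ (by decide))
  rcases mul_eq_zero.1 h3 with h5 | h5
  · exact hM' h5
  · rcases mul_eq_zero.1 h5 with h6 | h6
    · exact hs h6
    · exact hf (Rat.cast_eq_zero.1 h6)

end

end Pool.Agent.H39.KL

end
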