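import Pool.Agent.H13.TFQ.M102
import Pool.Agent.H13.TFQ.M50
import Pool.Agent.H13.TFQ.M97

/-! The parts of this file: H16.KN.Rot2, H16.KN.Key_1, H16.KN.WW. -/

section

/-!
# Project KN: divisibility of the functionals of rotation invariant functions, second part

PROOF of `TR_dvd_ev`.  `QC.induction`; for a tuple, `S` from `exists_supp`; the set of the products of
`p ^ a (k + 1)` elements of `S` is finite; if `u h ^ (p ^ (m - a)) u⁻¹ = c` then `h` has finite order and
`p ^ (m - a + 1) ∣ orderOf h` (`p ∣ orderOf (h ^ (p ^ (m - a)))`), impossible for large `m`.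
-/

set_option autoImplicit false

open Matrix

universe u v w

namespace Pool.Agent.H16.KN

open Pool.Agent.H71.FQ

/-- if `p` divides the order of `h ^ (p ^ s)`, the order of `h` is at least `p ^ (s + 1)` -/
private theorem le_orderOf {G : Type u} [Group G] {p : ℕ} (hp : p.Prime) {h : G} {s : ℕ}
    (hf : IsOfFinOrder (h ^ p ^ s)) (hd : p ∣ orderOf (h ^ p ^ s)) :
    IsOfFinOrder h ∧ p ^ (s + 1) ≤ orderOf h := by
  have hne : p ^ s ≠ 0 := pow_ne_zero _ hp.ne_zero
  have hh : IsOfFinOrder h := by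
    obtain ⟨n, hn, hn1⟩ := isOfFinOrder_iff_pow_eq_one.1 hf
    refine isOfFinOrder_iff_pow_eq_one.2 ⟨p ^ s * n, Nat.mul_pos (Nat.pos_of_ne_zero hne) hn, ?_⟩
    rw [pow_mul]
    exact hn1
  refine ⟨hh, ?_⟩
  have ho : 0 < orderOf h := hh.orderOf_pos
  rw [orderOf_pow' h hne] at hd
  obtain ⟨t, ht, h1⟩ := (Nat.dvd_prime_pow hp).1 (Nat.gcd_dvd_right (orderOf h) (p ^ s))
  rw [h1] at hd
  have h2 : p ^ t ∣ orderOf h := by
    rw [← h1]
    exact Nat.gcd_dvd_left _ _
  have h3 : p ^ (t + 1) ∣ orderOf h := by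
    obtain ⟨e, he⟩ := h2
    rw [he, Nat.mul_div_cancel_left _ (pow_pos hp.pos t)] at hd
    rw [he, pow_succ]
    exact Nat.mul_dvd_mul_left _ hd
  rcases Nat.lt_or_ge t s with h4 | h4
  · have h5 : p ^ (t + 1) ∣ p ^ t := by
      rw [← h1]
      exact Nat.dvd_gcd h3 (pow_dvd_pow p h4)
    have h6 := Nat.le_of_dvd (pow_pos hp.pos t) h5
    have h7 : p ^ t < p ^ (t + 1) := Nat.pow_lt_pow_right hp.one_lt (Nat.lt_succ_self t)
    exact absurd h6 (not_le.2 h7)
  · have h5 : t = s := le_antisymm ht h4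
    rw [← h5]
    exact Nat.le_of_dvd ho h3

section

variable {G : Type u} [Group G] {B : Type v} [CommRing B] {k : ℕ}

theorem TR_dvd_ev {p : ℕ} [Fact p.Prime] {c : G} (hc : IsOfFinOrder c) (hpc : p ∣ orderOf c)
    (w : QC (MonoidAlgebra B G) k) (a : ℕ) :
    ∃ m0 : ℕ, ∀ m, m0 ≤ m → ∀ Φ : (Fin (k + 1) → Fin (p ^ m) → G) → B, CIq c (p ^ m) Φ →
      RIq c (p ^ m) Φ → (p : B) ^ (a + 1) ∣ TR (p ^ m) c Φ w := by
  classical
  have hp : p.Prime := Fact.out
  induction w using QC.induction with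
  | h0 =>
    refine ⟨0, fun m _ Φ _ _ => ?_⟩
    rw [map_zero]
    exact dvd_zero _
  | ha x y hx hy =>
    obtain ⟨m1, h1⟩ := hx
    obtain ⟨m2, h2⟩ := hy
    refine ⟨max m1 m2, fun m hm Φ hΦ hr => ?_⟩
    rw [map_add]
    exact dvd_add (h1 m ((le_max_left _ _).trans hm) Φ hΦ hr) (h2 m ((le_max_right _ _).trans hm) Φ hΦ hr)
  | hn x hx =>
    obtain ⟨m1, h1⟩ := hx
    refine ⟨m1, fun m hm Φ hΦ hr => ?_⟩
    rw [map_neg]
    exact (dvd_neg).2 (h1 m hm Φ hΦ hr)
  | ht N x =>
    obtain ⟨S, hS⟩ := exists_supp (lts x)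
    -- the products of `p ^ a (k + 1)` elements
    obtain ⟨M, hM⟩ : ∃ M : ℕ, ∀ l : List G, (∀ g ∈ l, g ∈ S) → l.length = p ^ a * (k + 1) →
        orderOf l.prod ≤ M := by
      have hfin : (Set.range fun f : Fin (p ^ a * (k + 1)) → S => orderOf (List.ofFn fun i => (f i : G)).prod).Finite :=
        Set.finite_range _
      obtain ⟨M, hM⟩ := hfin.bddAbove
      refine ⟨M, fun l hl hlen => hM ⟨fun i => ⟨l.get (i.cast hlen.symm), hl _ (List.get_mem _ _)⟩, ?_⟩⟩
      have h1 : (List.ofFn fun i : Fin (p ^ a * (k + 1)) => l.get (i.cast hlen.symm)) = l := by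
        apply List.ext_get
        · rw [List.length_ofFn, hlen]
        · intro n h1 h2
          simp
      show orderOf (List.ofFn fun i : Fin (p ^ a * (k + 1)) => l.get (i.cast hlen.symm)).prod = _
      rw [h1]
    refine ⟨a + M, fun m hm Φ hΦ hr => ?_⟩
    refine TR_dvd m a (le_of_add_le_left hm) hΦ hr x S hS fun l hl hlen u hu => ?_
    have h1 : l.prod ^ p ^ (m - a) = u⁻¹ * c * u := by
      rw [← hu]
      group
    have h2 : orderOf (u⁻¹ * c * u) = orderOf c := by
      have h3 : u⁻¹ * c * u = MulAut.conj u⁻¹ c := by simp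
      rw [h3]
      exact MulEquiv.orderOf_eq (MulAut.conj u⁻¹) c
    have h3 : IsOfFinOrder (l.prod ^ p ^ (m - a)) := by
      rw [← orderOf_pos_iff, h1, h2]
      exact hc.orderOf_pos
    have h4 := le_orderOf hp h3 (by rw [h1, h2]; exact hpc)
    have h5 := hM l hl hlen
    have h6 : m - a + 1 < p ^ (m - a + 1) := Nat.lt_pow_self hp.one_lt
    omega

end

end Pool.Agent.H16.KN

end

section

/-!
# Project KN: the key claim

`fL π φ` is the cochain `(x_0, …, x_{n+2}) ↦ φ (π x_0, …, π x_{n+1}) (deg x_{n+2} - deg x_{n+1})` of `G × ℤ`.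

PROOF of `key`.  By `hmeas` get `μ`.  Let `a : ℕ`; `TR_dvd_ev` (for `(c, 1)` in `G × Multiplicative ℤ`) gives `m`, `q = p ^ m`;
`ψ, β` from `hmeas`.  With `v̄ = fun j b => (v j b).1`, `λ0 a b = deg (b 0) - deg (a 0)`, `mn a = min over the coordinates
of deg`, `λm a b = mn b - mn a`, `e a = deg (a 0) - mn a` on `Fin q → G × Multiplicative ℤ`:
`μ ^ (n + 2) • (fL on the first coordinates) = pL ψ̄ λm + (-1) ^ (n + 1) dl (pE ψ̄ e) - μ dl (pL β̄ λ0)` by `dl_pL`, `dl_pE`
(`dl ψ = 0`, `λ0 a b - λm a b = e b - e a`).  `TR_first`, `TR_add`, `TR_smul`, `TR_bd`: the last two terms give `TR` of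
`pE ψ̄ e`, `pL β̄ λ0` on `qbd w ∈ QC0`, which vanish by `TR_half`; the first one is divisible by `p ^ (a + 1)` (`mn` is
invariant under `sig q (c, 1)`).  So `p ^ (a + 1) ∣ μ ^ (n + 2) * TQ (fL) w` for all `a`; `hsep`.
-/

set_option autoImplicit false

open Matrix

universe u v w

namespace Pool.Agent.H16.KN

open Pool.Agent.H71.FQ

section

variable {G : Type u} [Group G] {B : Type v} [CommRing B] {n : ℕ} {c : G}

private theorem mn_const {q : ℕ} [NeZero q] {a : Fin q → G × Multiplicative ℤ} {d : ℤ}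
    (h : ∀ t, dg (a t) = d) : mn a = d := by
  refine le_antisymm ?_ (le_mn fun t => (h t).ge)
  exact (mn_le a 0).trans (h 0).le

private theorem mn_iter_ge {q : ℕ} [NeZero q] (a : Fin q → G × Multiplicative ℤ) (k : ℕ) :
    mn a ≤ mn ((sig q ((c, 1) : G × Multiplicative ℤ))^[k] a) := by
  induction k with
  | zero => exact le_rfl
  | succ k ih =>
    rw [Function.iterate_succ_apply']
    exact ih.trans (mn_sig_ge _)

private theorem mn_sig {q : ℕ} [NeZero q] (a : Fin q → G × Multiplicative ℤ) :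
    mn (sig q ((c, 1) : G × Multiplicative ℤ) a) = mn a := by
  refine le_antisymm ?_ (mn_sig_ge a)
  obtain ⟨k, hk⟩ : ∃ k, q = k + 1 := ⟨q - 1, by have := NeZero.pos q; omega⟩
  have h1 := mn_iter_ge (c := c) (sig q ((c, 1) : G × Multiplicative ℤ) a) k
  rw [← Function.iterate_succ_apply] at h1
  have h2 : (sig q ((c, 1) : G × Multiplicative ℤ))^[k.succ] a = lmul ((c, 1) : G × Multiplicative ℤ) a := by
    rw [← sig_iterate q ((c, 1) : G × Multiplicative ℤ) a]
    have h3 : k.succ = q := hk.symm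
    rw [h3]
  rw [h2] at h1
  have h4 : mn (lmul ((c, 1) : G × Multiplicative ℤ) a) = mn a := by
    have h5 := mn_mul ((c, 1) : G × Multiplicative ℤ) a
    have h6 : dg ((c, 1) : G × Multiplicative ℤ) = 0 := rfl
    rw [h6, zero_add] at h5
    exact h5
  rw [h4] at h1
  exact h1

private theorem fst_sig {q : ℕ} (a : Fin q → G × Multiplicative ℤ) (t : Fin q) :
    (sig q ((c, 1) : G × Multiplicative ℤ) a t).1 = sig q c (fun b => (a b).1) t := by
  unfold sig
  by_cases h : (t : ℕ) + 1 < q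
  · rw [dif_pos h, dif_pos h]
  · rw [dif_neg h, dif_neg h]
    rfl

private theorem orderOf_c1 : orderOf ((c, 1) : G × Multiplicative ℤ) = orderOf c := by
  rw [Prod.orderOf_mk, orderOf_one, Nat.lcm_one_right]

section aux

variable {q : ℕ} [NeZero q]

/-- a cochain of tuples of `G` as a cochain of tuples of `G × ℤ` -/
private def up {k : ℕ} (ψ : (Fin k → Fin q → G) → B) (v : Fin k → Fin q → G × Multiplicative ℤ) : B :=
  ψ fun j b => (v j b).1

private noncomputable def lm (B : Type v) [CommRing B] (a b : Fin q → G × Multiplicative ℤ) : B :=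
  ((mn b - mn a : ℤ) : B)

private theorem l0_add (a b d : Fin q → G × Multiplicative ℤ) : l0 B a b + l0 B b d = l0 B a d := by
  unfold l0
  push_cast
  ring

private theorem l0_eq (x y : Fin q → G × Multiplicative ℤ) :
    l0 B x y = lm B x y + (ee B y - ee B x) := by
  unfold l0 lm ee
  push_cast
  ring

private theorem lm_mul (g : G × Multiplicative ℤ) (a b : Fin q → G × Multiplicative ℤ) :
    lm B (fun t => g * a t) (fun t => g * b t) = lm B a b := by
  unfold lm
  rw [mn_mul, mn_mul]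
  congr 1
  ring

private theorem lm_sig (a b : Fin q → G × Multiplicative ℤ) :
    lm B (sig q ((c, 1) : G × Multiplicative ℤ) a) (sig q ((c, 1) : G × Multiplicative ℤ) b) =
      lm B a b := by
  unfold lm
  rw [mn_sig, mn_sig]

private theorem up_mul {k : ℕ} {ψ : (Fin k → Fin q → G) → B}
    (hψ : ∀ g : G, g * c = c * g → ∀ v, ψ (fun j b => g * v j b) = ψ v)
    {g : G × Multiplicative ℤ}
    (hg : g * ((c, 1) : G × Multiplicative ℤ) = ((c, 1) : G × Multiplicative ℤ) * g)
    (v : Fin k → Fin q → G × Multiplicative ℤ) : up ψ (fun j b => g * v j b) = up ψ v :=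
  hψ g.1 (comm_fst hg) fun j b => (v j b).1

private theorem up_sig {k : ℕ} {ψ : (Fin k → Fin q → G) → B}
    (hψ : ∀ v, ψ (fun j => sig q c (v j)) = ψ v) (v : Fin k → Fin q → G × Multiplicative ℤ) :
    up ψ (fun j => sig q ((c, 1) : G × Multiplicative ℤ) (v j)) = up ψ v := by
  unfold up
  have h1 : (fun (j : Fin k) (b : Fin q) => (sig q ((c, 1) : G × Multiplicative ℤ) (v j) b).1) =
      fun j => sig q c fun b => (v j b).1 := by
    funext j b
    exact fst_sig (v j) b
  rw [h1]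
  exact hψ fun j b => (v j b).1

private theorem split {μ : ℕ} {π : G → Subgroup.centralizer ({c} : Set G)}
    {φ : (Fin (n + 2) → Subgroup.centralizer ({c} : Set G)) → B}
    {ψ : (Fin (n + 2) → Fin q → G) → B} {β : (Fin (n + 1) → Fin q → G) → B}
    (hψc : ∀ v, dl ψ v = 0)
    (heq : ∀ v, (μ : B) ^ (n + 2) * φ (fun j => π (v j 0)) = ψ v - (μ : B) * dl β v)
    (v : Fin (n + 3) → Fin q → G × Multiplicative ℤ) :
    (μ : B) ^ (n + 2) * fL π φ (fun j => v j 0) =
      pL (up ψ) (lm B) v + ((-(-1) ^ (n + 2)) * dl (pE (up ψ) (ee B)) v +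
        (-(μ : B)) * dl (pL (up β) (l0 B)) v) := by
  have h1 := heq fun j b => (v j.castSucc b).1
  have h2 := dl_pL (up β) (l0 B) l0_add v
  have h3 := dl_pE (up ψ) (ee B) v
  have h0 : dl (up ψ) v = 0 := hψc fun j b => (v j b).1
  rw [h0, zero_mul, zero_add] at h3
  rw [h2, h3]
  have h4 : fL π φ (fun j => v j 0) = φ (fun j => π (v j.castSucc 0).1) *
      l0 B (v (Fin.last (n + 1)).castSucc) (v (Fin.last (n + 2))) := rfl
  have h5 : pL (up ψ) (lm B) v = ψ (fun j b => (v j.castSucc b).1) *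
      lm B (v (Fin.last (n + 1)).castSucc) (v (Fin.last (n + 2))) := rfl
  have h6 : pL (up ψ) (fun a b => ee B a - ee B b) v = ψ (fun j b => (v j.castSucc b).1) *
      (ee B (v (Fin.last (n + 1)).castSucc) - ee B (v (Fin.last (n + 2)))) := rfl
  have h7 : pL (dl (up β)) (l0 B) v = dl β (fun j b => (v j.castSucc b).1) *
      l0 B (v (Fin.last (n + 1)).castSucc) (v (Fin.last (n + 2))) := rfl
  have h9 : ((-1 : B) ^ (n + 2)) * (-1) ^ (n + 2) = 1 := by
    rw [← mul_pow, neg_one_mul, neg_neg, one_pow]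
  have h10 : (-(-1 : B) ^ (n + 2)) * ((-1) ^ (n + 1 + 1) * pL (up ψ) (fun a b => ee B a - ee B b) v) =
      -pL (up ψ) (fun a b => ee B a - ee B b) v := by
    have h11 : (-(-1 : B) ^ (n + 2)) *
        ((-1) ^ (n + 1 + 1) * pL (up ψ) (fun a b => ee B a - ee B b) v) =
      -((((-1 : B) ^ (n + 2)) * (-1) ^ (n + 2)) * pL (up ψ) (fun a b => ee B a - ee B b) v) := by ring
    rw [h11, h9, one_mul]
  rw [h10, h4, h5, h6, h7, ← mul_assoc, h1,
    l0_eq (v (Fin.last (n + 1)).castSucc) (v (Fin.last (n + 2)))]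
  ring

private theorem TQ_eq {μ : ℕ} {π : G → Subgroup.centralizer ({c} : Set G)}
    (hπ : ∀ (z : Subgroup.centralizer ({c} : Set G)) (g : G), π (z * g) = z * π g)
    {φ : (Fin (n + 2) → Subgroup.centralizer ({c} : Set G)) → B}
    (hφ : ∀ (g : Subgroup.centralizer ({c} : Set G)) x, φ (fun j => g * x j) = φ x)
    {ψ : (Fin (n + 2) → Fin q → G) → B} {β : (Fin (n + 1) → Fin q → G) → B}
    (hψi : ∀ g : G, g * c = c * g → ∀ v, ψ (fun j b => g * v j b) = ψ v)
    (hβi : ∀ g : G, g * c = c * g → ∀ v, β (fun j b => g * v j b) = β v)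
    (hψc : ∀ v, dl ψ v = 0)
    (heq : ∀ v, (μ : B) ^ (n + 2) * φ (fun j => π (v j 0)) = ψ v - (μ : B) * dl β v)
    {w : QC (MonoidAlgebra B (G × Multiplicative ℤ)) (n + 2)} (hw : qbd w ∈ QC0 G B (n + 1)) :
    (μ : B) ^ (n + 2) * TQ ((c, 1) : G × Multiplicative ℤ) (fL π φ) w =
      TR q ((c, 1) : G × Multiplicative ℤ) (pL (up ψ) (lm B)) w := by
  rw [← TR_first q (CI_fL hπ hφ) w, ← TR_smul q]
  have h1 : (fun v : Fin (n + 3) → Fin q → G × Multiplicative ℤ =>
      (μ : B) ^ (n + 2) * fL π φ (fun j => v j 0)) = fun v =>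
      pL (up ψ) (lm B) v + ((-(-1) ^ (n + 2)) * dl (pE (up ψ) (ee B)) v +
        (-(μ : B)) * dl (pL (up β) (l0 B)) v) := funext (split hψc heq)
  have hpE : CIq ((c, 1) : G × Multiplicative ℤ) q (pE (up ψ) (ee B)) := by
    intro g hg v
    unfold pE
    rw [up_mul hψi hg, ee_mul]
  have hpL : CIq ((c, 1) : G × Multiplicative ℤ) q (pL (up β) (l0 B)) := by
    intro g hg v
    unfold pL
    rw [up_mul hβi hg, l0_mul]
  rw [h1, TR_add q, TR_add q, TR_smul q, TR_smul q, ← TR_bd q hpE, ← TR_bd q hpL,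
    TR_half q hpE (fun v hv => ?_) hw, TR_half q hpL (fun v hv => ?_) hw, mul_zero, mul_zero,
    add_zero, add_zero]
  · unfold pL l0
    rw [hv (Fin.last (n + 1)) (Fin.last n).castSucc 0 0, sub_self, Int.cast_zero, mul_zero]
  · unfold pE ee
    rw [mn_const fun t => hv (Fin.last (n + 1)) (Fin.last (n + 1)) t 0, sub_self, Int.cast_zero,
      mul_zero]

end aux

theorem key {p : ℕ} [Fact p.Prime] [IsDomain B] [CharZero B]
    (hsep : ∀ b : B, (∀ a : ℕ, (p : B) ^ a ∣ b) → b = 0) (hc : IsOfFinOrder c)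
    (hpc : p ∣ orderOf c) {π : G → Subgroup.centralizer ({c} : Set G)}
    (hπ : ∀ (z : Subgroup.centralizer ({c} : Set G)) (g : G), π (z * g) = z * π g)
    {φ : (Fin (n + 2) → Subgroup.centralizer ({c} : Set G)) → B}
    (hφ : IsCoc (Subgroup.centralizer ({c} : Set G)) n φ) (hmeas : Meas p c π φ)
    {w : QC (MonoidAlgebra B (G × Multiplicative ℤ)) (n + 2)} (hw : qbd w ∈ QC0 G B (n + 1)) :
    TQ ((c, 1) : G × Multiplicative ℤ) (fL π φ) w = 0 := by
  obtain ⟨μ, hμ, hM⟩ := hmeas
  have hc1 : IsOfFinOrder ((c, 1) : G × Multiplicative ℤ) := by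
    rw [← orderOf_pos_iff, orderOf_c1]
    exact hc.orderOf_pos
  have hpc1 : p ∣ orderOf ((c, 1) : G × Multiplicative ℤ) := by
    rw [orderOf_c1]
    exact hpc
  have main : ∀ a : ℕ, (p : B) ^ (a + 1) ∣
      (μ : B) ^ (n + 2) * TQ ((c, 1) : G × Multiplicative ℤ) (fL π φ) w := by
    intro a
    obtain ⟨m, hm⟩ := TR_dvd_ev hc1 hpc1 w a
    obtain ⟨ψ, β, hψi, hψr, hψc, hβi, heq⟩ := hM m
    have heq' : ∀ v : Fin (n + 2) → Fin (p ^ m) → G,
        (μ : B) ^ (n + 2) * φ (fun j => π (v j 0)) = ψ v - (μ : B) * dl β v := fun v =>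
      heq (NeZero.pos (p ^ m)) v
    rw [TQ_eq hπ hφ.inv hψi hβi hψc heq' hw]
    refine hm m le_rfl _ (fun g hg v => ?_) fun v => ?_
    · unfold pL
      rw [up_mul hψi hg, lm_mul]
    · unfold pL
      rw [up_sig hψr, lm_sig]
  have h0 : (μ : B) ^ (n + 2) * TQ ((c, 1) : G × Multiplicative ℤ) (fL π φ) w = 0 :=
    hsep _ fun a => (pow_dvd_pow _ (Nat.le_succ a)).trans (main a)
  rcases mul_eq_zero.1 h0 with h | h
  · exact absurd h (pow_ne_zero _ (Nat.cast_ne_zero.2 hμ))
  · exact h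

/-- `fL` of a coboundary vanishes if the boundary is in `QC0` -/
theorem TQ_fL_dl {π : G → Subgroup.centralizer ({c} : Set G)}
    (hπ : ∀ (z : Subgroup.centralizer ({c} : Set G)) (g : G), π (z * g) = z * π g)
    {ψ : (Fin (n + 1) → Subgroup.centralizer ({c} : Set G)) → B}
    (hψ : ∀ (g : Subgroup.centralizer ({c} : Set G)) x, ψ (fun j => g * x j) = ψ x)
    {w : QC (MonoidAlgebra B (G × Multiplicative ℤ)) (n + 2)} (hw : qbd w ∈ QC0 G B (n + 1)) :
    TQ ((c, 1) : G × Multiplicative ℤ) (fL π (dl ψ)) w = 0 := by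
  have h1 : fL π (dl ψ) = dl (pL (fun v : Fin (n + 1) → G × Multiplicative ℤ =>
      ψ fun j => π (v j).1) (ldg B)) := by
    funext v
    rw [dl_pL _ _ (fun a b d => by
      show ((dg b - dg a : ℤ) : B) + ((dg d - dg b : ℤ) : B) = ((dg d - dg a : ℤ) : B)
      push_cast
      ring)]
    rfl
  have h2 : CI ((c, 1) : G × Multiplicative ℤ)
      (pL (fun v : Fin (n + 1) → G × Multiplicative ℤ => ψ fun j => π (v j).1) (ldg B)) :=
    CI_pL hπ hψ
  rw [h1, ← TQ_bd h2]
  refine TQ_half h2 (fun v hv => ?_) hw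
  unfold pL ldg
  rw [hv (Fin.last (n + 1)) (Fin.last n).castSucc, sub_self, Int.cast_zero, mul_zero]

end

end Pool.Agent.H16.KN

end

section

/-!
# Project KN: the value on the chains with boundary in `QC0` is a homology class with coefficients in `L`

PROOFS.
`exists_comb`: `QC.induction`; for a tuple `TQ_t`, `TT`, `TM_eq` (`CI_fL`), `exists_supp`: the value is
`∑ g, trace * wv (c, 1) (fL π φ) g`, and `wv` is `φ` of the tuple `fun j => π (vtx u g j.castSucc).1` times `ldg`, or `0`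
(`u` does not depend on `φ`).
`exists_basis`: the `ℤ`-span of the values of `b` is finitely generated and torsion free; take a basis
(`LinearIndependent.iff_fractionRing`).
`cyc_of_kill`: for a tuple `y` the function `ψ x = nrm x y` is invariant, its value on `bd c` is the coefficient of `y` in
`nrm (bd c)`; `lc_bd`, `sub_nrm_mem`.
`exists_class`: `b` from `exists_comb`, `ω`, `c` from `exists_basis`; for an invariant `ψ` with rational values `TQ_fL_dl`
(for `fun x => (ψ x : L)`) gives `∑ s, ω s * (linearCombination (dl ψ) (c s) : L) = 0`, so all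
`linearCombination (dl ψ) (c s) = 0` by the linear independence: `c s ∈ cyc`; `a s = HG.mk (c s)`, `HG.ev_mk`.
-/

set_option autoImplicit false

open Matrix

universe u v w

namespace Pool.Agent.H16.KN

open Pool.Agent.H71.FQ

section

variable {G : Type u} [Group G] {L : Type} [Field L] [CharZero L] {n : ℕ} {c : G}

omit [CharZero L] in
private theorem ww_tuple {π : G → Subgroup.centralizer ({c} : Set G)}
    (hπ : ∀ (z : Subgroup.centralizer ({c} : Set G)) (g : G), π (z * g) = z * π g)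
    {N : ℕ} (x : Fin (n + 2 + 1) → GLm N (MonoidAlgebra L (G × Multiplicative ℤ))) :
    ∃ b : (Fin (n + 2) → Subgroup.centralizer ({c} : Set G)) →₀ L,
      ∀ φ : (Fin (n + 2) → Subgroup.centralizer ({c} : Set G)) → L,
        (∀ (g : Subgroup.centralizer ({c} : Set G)) x, φ (fun j => g * x j) = φ x) →
        TT ((c, 1) : G × Multiplicative ℤ) (fL π φ) x = Finsupp.linearCombination L φ b := by
  classical
  obtain ⟨S, hS⟩ := exists_supp (lts x)
  have key : ∀ g : Fin (n + 2 + 1) → S,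
      ∃ b : (Fin (n + 2) → Subgroup.centralizer ({c} : Set G)) →₀ L,
        ∀ φ : (Fin (n + 2) → Subgroup.centralizer ({c} : Set G)) → L,
          wv ((c, 1) : G × Multiplicative ℤ) (fL π φ) (fun j => (g j : G × Multiplicative ℤ)) =
            Finsupp.linearCombination L φ b := by
    intro g
    by_cases h : ∃ u : G × Multiplicative ℤ,
        u * (List.ofFn fun j => (g j : G × Multiplicative ℤ)).prod * u⁻¹ =
          ((c, 1) : G × Multiplicative ℤ)
    · refine ⟨Finsupp.single (fun j : Fin (n + 2) =>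
        π (vtx h.choose (fun j => (g j : G × Multiplicative ℤ)) j.castSucc).1)
        (ldg L (vtx h.choose (fun j => (g j : G × Multiplicative ℤ)) (Fin.last (n + 1)).castSucc)
          (vtx h.choose (fun j => (g j : G × Multiplicative ℤ)) (Fin.last (n + 1 + 1)))), ?_⟩
      intro φ
      rw [wv, dif_pos h, Finsupp.linearCombination_single, smul_eq_mul, mul_comm]
      rfl
    · refine ⟨0, ?_⟩
      intro φ
      rw [wv, dif_neg h, map_zero]
  choose bb hbb using key
  refine ⟨∑ g : Fin (n + 2 + 1) → S,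
    ((List.ofFn fun j => cof (lts x j) (g j : G × Multiplicative ℤ)).prod).trace • bb g, ?_⟩
  intro φ hφ
  unfold TT
  rw [TM_eq (CI_fL hπ hφ) (lts x) S hS, map_sum]
  refine Finset.sum_congr rfl fun g _ => ?_
  rw [map_smul, hbb, smul_eq_mul]

theorem exists_comb {π : G → Subgroup.centralizer ({c} : Set G)}
    (hπ : ∀ (z : Subgroup.centralizer ({c} : Set G)) (g : G), π (z * g) = z * π g)
    (w : QC (MonoidAlgebra L (G × Multiplicative ℤ)) (n + 2)) :
    ∃ b : (Fin (n + 2) → Subgroup.centralizer ({c} : Set G)) →₀ L,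
      ∀ φ : (Fin (n + 2) → Subgroup.centralizer ({c} : Set G)) → L,
        (∀ (g : Subgroup.centralizer ({c} : Set G)) x, φ (fun j => g * x j) = φ x) →
        TQ ((c, 1) : G × Multiplicative ℤ) (fL π φ) w = b.sum fun x r => r * φ x := by
  have main : ∃ b : (Fin (n + 2) → Subgroup.centralizer ({c} : Set G)) →₀ L,
      ∀ φ : (Fin (n + 2) → Subgroup.centralizer ({c} : Set G)) → L,
        (∀ (g : Subgroup.centralizer ({c} : Set G)) x, φ (fun j => g * x j) = φ x) →
        TQ ((c, 1) : G × Multiplicative ℤ) (fL π φ) w = Finsupp.linearCombination L φ b := by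
    refine QC.induction (P := fun w => ∃ b : (Fin (n + 2) → Subgroup.centralizer ({c} : Set G)) →₀ L,
      ∀ φ : (Fin (n + 2) → Subgroup.centralizer ({c} : Set G)) → L,
        (∀ (g : Subgroup.centralizer ({c} : Set G)) x, φ (fun j => g * x j) = φ x) →
        TQ ((c, 1) : G × Multiplicative ℤ) (fL π φ) w = Finsupp.linearCombination L φ b) ?_ ?_ ?_ ?_ w
    · refine ⟨0, fun φ _ => ?_⟩
      rw [map_zero, map_zero]
    · intro N x
      obtain ⟨b, hb⟩ := ww_tuple hπ x
      refine ⟨b, fun φ hφ => ?_⟩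
      rw [TQ_t]
      exact hb φ hφ
    · rintro a a' ⟨b, hb⟩ ⟨b', hb'⟩
      refine ⟨b + b', fun φ hφ => ?_⟩
      rw [map_add, map_add, hb φ hφ, hb' φ hφ]
    · rintro a ⟨b, hb⟩
      refine ⟨-b, fun φ hφ => ?_⟩
      rw [map_neg, map_neg, hb φ hφ]
  obtain ⟨b, hb⟩ := main
  exact ⟨b, fun φ hφ => hb φ hφ⟩

theorem exists_basis {X : Type u} (b : X →₀ L) :
    ∃ (r : ℕ) (ω : Fin r → L) (c : Fin r → X →₀ ℤ),
      (∀ q : Fin r → ℚ, ∑ s, ω s * ((q s : ℚ) : L) = 0 → ∀ s, q s = 0) ∧
      ∀ φ : X → L, b.sum (fun x a => a * φ x) =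
        ∑ s, ω s * Finsupp.linearCombination ℤ φ (c s) := by
  classical
  let M : Submodule ℤ L := Submodule.span ℤ ((fun x => b x) '' (b.support : Set X))
  have hfin : Module.Finite ℤ M :=
    Module.Finite.span_of_finite ℤ (b.support.finite_toSet.image _)
  have htf : Module.IsTorsionFree ℤ M := inferInstance
  have hfree : Module.Free ℤ M := Module.free_of_finite_type_torsion_free'
  let e : Module.Basis (Fin (Module.finrank ℤ M)) ℤ M := Module.finBasis ℤ M
  have hmem : ∀ x, b x ∈ M := by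
    intro x
    by_cases hx : b x = 0
    · rw [hx]
      exact M.zero_mem
    · exact Submodule.subset_span ⟨x, Finsupp.mem_support_iff.2 hx, rfl⟩
  let cc : Fin (Module.finrank ℤ M) → X →₀ ℤ := fun s =>
    Finsupp.onFinset b.support (fun x => e.repr ⟨b x, hmem x⟩ s) (by
      intro x hx
      rw [Finsupp.mem_support_iff]
      intro h0
      apply hx
      have h1 : (⟨b x, hmem x⟩ : M) = 0 := Subtype.ext h0
      rw [h1, map_zero]
      rfl)
  refine ⟨Module.finrank ℤ M, fun s => (e s : L), cc, ?_, ?_⟩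
  · intro q hq
    have hli : LinearIndependent ℤ (fun s => (e s : L)) :=
      e.linearIndependent.map' M.subtype (Submodule.ker_subtype M)
    have hli' : LinearIndependent ℚ (fun s => (e s : L)) :=
      (LinearIndependent.iff_fractionRing ℤ ℚ).1 hli
    rw [Fintype.linearIndependent_iff] at hli'
    refine hli' q ?_
    rw [← hq]
    refine Finset.sum_congr rfl fun s _ => ?_
    rw [Rat.smul_def, mul_comm]
  · intro φ
    have h1 : ∀ s, Finsupp.linearCombination ℤ φ (cc s) =
        ∑ x ∈ b.support, ((e.repr ⟨b x, hmem x⟩ s : ℤ) : L) * φ x := by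
      intro s
      rw [Finsupp.linearCombination_apply, Finsupp.onFinset_sum _ (fun x => zero_smul ℤ (φ x))]
      refine Finset.sum_congr rfl fun x _ => ?_
      rw [zsmul_eq_mul]
    have h2 : ∀ x, b x = ∑ s, (e s : L) * ((e.repr ⟨b x, hmem x⟩ s : ℤ) : L) := by
      intro x
      have h3 := congrArg (M.subtype) (e.sum_repr ⟨b x, hmem x⟩)
      rw [map_sum] at h3
      refine Eq.trans h3.symm ?_
      refine Finset.sum_congr rfl fun s _ => ?_
      rw [map_smul, zsmul_eq_mul, mul_comm]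
      rfl
    simp only [h1, Finset.mul_sum]
    rw [Finset.sum_comm, Finsupp.sum]
    refine Finset.sum_congr rfl fun x _ => ?_
    conv_lhs => rw [h2 x]
    rw [Finset.sum_mul]
    refine Finset.sum_congr rfl fun s _ => ?_
    ring

theorem cyc_of_kill {Γ : Type u} [Group Γ] {c : Cx ℤ Γ (n + 1)}
    (h : ∀ ψ : (Fin (n + 1) → Γ) → ℚ, (∀ (g : Γ) x, ψ (fun j => g * x j) = ψ x) →
      Finsupp.linearCombination ℤ (dl ψ) c = 0) : c ∈ cyc Γ n := by
  have h0 : nrm Γ n (bd ℤ Γ n c) = 0 := by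
    refine Finsupp.ext fun y => ?_
    let ψ : (Fin (n + 1) → Γ) → ℚ := fun x => ((nrm Γ n (Finsupp.single x 1) y : ℤ) : ℚ)
    have hψ : ∀ (g : Γ) x, ψ (fun j => g * x j) = ψ x := by
      intro g x
      show ((nrm Γ n (Finsupp.single (fun j => g * x j) 1) y : ℤ) : ℚ) =
        ((nrm Γ n (Finsupp.single x 1) y : ℤ) : ℚ)
      rw [nrm_single, nrm_single]
      have e : (fun j => (g * x 0)⁻¹ * (g * x j)) = fun j => (x 0)⁻¹ * x j := by
        funext j
        group
      rw [e]
    have h1 : ∀ d : Cx ℤ Γ n, Finsupp.linearCombination ℤ ψ d = ((nrm Γ n d y : ℤ) : ℚ) := by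
      intro d
      let F : Cx ℤ Γ n →ₗ[ℤ] ℚ :=
        ((Int.castAddHom ℚ).comp ((Finsupp.applyAddHom y).comp
          (nrm Γ n).toAddMonoidHom)).toIntLinearMap
      refine cx_ext (f := Finsupp.linearCombination ℤ ψ) (g := F) ?_ d
      intro x
      rw [Finsupp.linearCombination_single, one_smul]
      rfl
    have h2 := h ψ hψ
    have h3 : Finsupp.linearCombination ℤ (dl ψ) c =
        Finsupp.linearCombination ℤ ψ (bd ℤ Γ n c) := (lc_bd ψ c).symm
    rw [h3, h1] at h2
    exact Int.cast_eq_zero.1 h2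
  have h1 := sub_nrm_mem (bd ℤ Γ n c)
  rw [h0, sub_zero] at h1
  exact h1

/-- **The class.** -/
theorem exists_class {π : G → Subgroup.centralizer ({c} : Set G)}
    (hπ : ∀ (z : Subgroup.centralizer ({c} : Set G)) (g : G), π (z * g) = z * π g)
    {w : QC (MonoidAlgebra L (G × Multiplicative ℤ)) (n + 2)} (hw : qbd w ∈ QC0 G L (n + 1)) :
    ∃ (r : ℕ) (ω : Fin r → L) (a : Fin r → HG (Subgroup.centralizer ({c} : Set G)) n),
      ∀ (φ : (Fin (n + 2) → Subgroup.centralizer ({c} : Set G)) → L)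
        (hφ : IsCoc (Subgroup.centralizer ({c} : Set G)) n φ),
        TQ ((c, 1) : G × Multiplicative ℤ) (fL π φ) w = ∑ s, ω s * HG.ev hφ (a s) := by
  obtain ⟨b, hb⟩ := exists_comb (c := c) hπ w
  obtain ⟨r, ω, cc, hω, hcc⟩ := exists_basis b
  have hcyc : ∀ s, cc s ∈ cyc (Subgroup.centralizer ({c} : Set G)) n := by
    intro s
    refine cyc_of_kill fun ψ hψ => ?_
    let ψL : (Fin (n + 1) → Subgroup.centralizer ({c} : Set G)) → L := fun x => ((ψ x : ℚ) : L)
    have hψL : ∀ (g : Subgroup.centralizer ({c} : Set G)) x,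
        ψL (fun j => g * x j) = ψL x := fun g x => congrArg (fun t : ℚ => (t : L)) (hψ g x)
    have hdl : ∀ (g : Subgroup.centralizer ({c} : Set G)) x,
        dl ψL (fun j => g * x j) = dl ψL x := by
      intro g x
      unfold dl
      refine Finset.sum_congr rfl fun i _ => ?_
      rw [hψL g fun j => x (i.succAbove j)]
    have h1 := TQ_fL_dl hπ hψL hw
    rw [hb _ hdl, hcc] at h1
    have h2 : ∀ s, Finsupp.linearCombination ℤ (dl ψL) (cc s) =
        ((Finsupp.linearCombination ℤ (dl ψ) (cc s) : ℚ) : L) := by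
      intro s
      let F : Cx ℤ (Subgroup.centralizer ({c} : Set G)) (n + 1) →ₗ[ℤ] L :=
        ((Rat.castHom L).toAddMonoidHom.comp
          (Finsupp.linearCombination ℤ (dl ψ)).toAddMonoidHom).toIntLinearMap
      refine cx_ext (f := Finsupp.linearCombination ℤ (dl ψL)) (g := F) ?_ (cc s)
      intro x
      have h3 : F (Finsupp.single x 1) =
          ((Finsupp.linearCombination ℤ (dl ψ) (Finsupp.single x 1) : ℚ) : L) := rfl
      rw [h3, Finsupp.linearCombination_single, Finsupp.linearCombination_single, one_smul, one_smul]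
      unfold dl
      rw [Rat.cast_sum]
      refine Finset.sum_congr rfl fun i _ => ?_
      rw [zsmul_eq_mul, zsmul_eq_mul, Rat.cast_mul, Rat.cast_intCast]
    simp only [h2] at h1
    exact hω _ h1 s
  refine ⟨r, ω, fun s => HG.mk ⟨cc s, hcyc s⟩, ?_⟩
  intro φ hφ
  rw [hb φ hφ.inv, hcc φ]
  exact Finset.sum_congr rfl fun s _ => by rw [HG.ev_mk]

end

end Pool.Agent.H16.KN

end
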