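import Pool.Agent.H13.TFQ.H16.KN.Rel_2
import Pool.Agent.H13.TFQ.M108
import Pool.Agent.H13.TFQ.M110
import Pool.Agent.H13.TFQ.M91
import Pool.Agent.H13.TFQ.M94
import Pool.Agent.H13.TFQ.M95

/-! The parts of this file: H16.KN.Rel_1, H16.KN.MainN. -/

section

/-!
# Project KN: the relations

Model of the statement: `rel_two` in `Pool/Agent/H8/KZ/RelD.lean`.

PROOF of `relN`.  `choose` `E i, xA i, yA i` from `exists_triv`; `z i = HG.mk (ζ i)`; `exists_chain` (over `O`) gives `w`.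
`Lw = QC.map (mapRingHom (G × ℤ) fL) w`; for `R = O, Om, L` let `syC R ..` be the chains of the symbols (`map_syC`).
(1) Over `L`: `WL = Lw + ∑ i, PM (gz L ..) (gk L ..) _ ((E i).map (lau ..fL)) (xA i) (yA i) .. (ζ i)` has `qbd WL ∈ QC0 G L` by
    `qbd_PM`, `QC0_map`, `QC.map_bd` and `const_mem` (`ch N (push (fun _ => 1) ζ) ∈ QC0`).  `exists_class` (for a fixed `π` from
    `exists_pi c`) gives `r, ω, a`.  Take `w s = (-1) ^ k * ω s` (`k` the degree).
(2) Let `m, Om, f, j, p, ..` be given, `xB i, yB i` from `exists_triv`.  `WB = QC.map (mapRingHom .. f) w +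
    ∑ i, PM (gz Om ..) .. ((E i).map (lau ..f)) (xB i) (yB i) .. (ζ i)` has `qbd WB ∈ QC0 G Om`.
(3) `lam' : HG Z_c k →+ Om` with `j (lam' y) = lam y` (`exists_lift_lam`: numerator times the inverse of the denominator,
    additive because `j` is injective); `exists_cocycle'` gives a cocycle `φ` with values in `Om`, `HG.ev φ = lam'`.
    `key`: `TQ (fL π φ) WB = 0`; apply `j` (`TQ_map`, `QC.map_map`, `map_PM`, `map_syC`): with `φL = fun x => j (φ x)`,
    `TQ (fL π φL) (Lw + ∑ i, PM .. (xB i).map j (yB i).map j ..) = 0`.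
(4) `PM_cmp` for `X = xA i, Y = yA i`, `X' = (xB i).map (lau ..j)`, `Y' = (yB i).map (lau ..j)`:
    `X Y' = xA yA vL(n) = vL(n)`, so `V = gz (vL n)` with inverse `gz (vL (-n))`, and `D = 1 - E + Y X'` with inverse
    `1 - E + Y' X` (`exists_VD`); `TQ_fL_bd`, `TQ_const`, `TQ_unit`, `der_coeff_vL`:
    `TQ (PM') - TQ (PM) = (-1) ^ (k + 1) * ∑ d, (∑ χ, n χ m * (|C|⁻¹ * fL (χ d)⁻¹)) * lam (trc .. d (z i))`.
(5) Sum over `i`: `0 = TQ (fL π φL) WL + (-1) ^ (k + 1) * (left side)`, and `TQ (fL π φL) WL = ∑ s, ω s * lam (a s)`.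
-/

set_option autoImplicit false

open Matrix
open scoped LaurentPolynomial

universe u v w

namespace Pool.Agent.H16.KN

open Pool.Agent.H71.FQ
open Pool.Agent.H95.KM
open Pool.Agent.H71.FJ (K0 K0.mk IdemMat)

section aux

variable {R : Type} [CommRing R] {G : Type v} [Group G] {k : ℕ}

/-- the comparison of two trivializations -/
private theorem rl_cmp {c : G} {π : G → Subgroup.centralizer ({c} : Set G)}
    (hπ : ∀ (z : Subgroup.centralizer ({c} : Set G)) (g : G), π (z * g) = z * π g)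
    {φ : (Fin (k + 2) → Subgroup.centralizer ({c} : Set G)) → R}
    (hφ : IsCoc (Subgroup.centralizer ({c} : Set G)) k φ) (C : Subgroup G) [Fintype C]
    (E : IdemMat (MonoidAlgebra R C)[T;T⁻¹])
    (X X' : Matrix (Fin 1) (Fin E.n) (MonoidAlgebra R C)[T;T⁻¹])
    (Y Y' : Matrix (Fin E.n) (Fin 1) (MonoidAlgebra R C)[T;T⁻¹]) (hXY : X * Y = 1)
    (hYX : Y * X = E.mat) (hXY' : X' * Y' = 1) (hYX' : Y' * X' = E.mat)
    (v v' : (MonoidAlgebra R C)[T;T⁻¹]) (hv : v * v' = 1) (hv' : v' * v = 1)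
    (hX : ∀ i l, X' i l = v' * X i l) (hY : ∀ l i, Y' l i = Y l i * v)
    (z : cyc (Subgroup.centralizer (C : Set G)) k) :
    TQ ((c, 1) : G × Multiplicative ℤ) (fL π φ) (rlP C E X' Y' hXY' hYX'
        (z : Cx ℤ (Subgroup.centralizer (C : Set G)) (k + 1))) =
      TQ ((c, 1) : G × Multiplicative ℤ) (fL π φ) (rlP C E X Y hXY hYX
        (z : Cx ℤ (Subgroup.centralizer (C : Set G)) (k + 1))) +
      (-1 : ℤ) ^ (k + 1) • ∑ d : C, ((der _ v * v').coeff 0).coeff d *
        HG.ev hφ (trc k c C d (HG.mk z)) := by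
  obtain ⟨V, D, hV, hV1, hV2, hD⟩ := exists_VD (gz R C.subtype) E X X' Y Y' hXY hYX hXY' hYX'
    v v' hv hv' hX hY
  obtain ⟨y, hy⟩ := PM_cmp (gz R C.subtype) (gk R (Subgroup.centralizer (C : Set G)).subtype)
    (gz_comm R C.subtype (Subgroup.centralizer (C : Set G)).subtype (cent_comm C)) E X Y hXY hYX
    X' Y' hXY' hYX' V hV D hD z
  have h1 := congrArg (TQ ((c, 1) : G × Multiplicative ℤ) (fL π φ)) hy
  rw [TQ_fL_bd hπ hφ, map_sub, map_sub, map_sub, TQ_const hπ hφ, sub_zero] at h1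
  have h2 := TQ_unit hπ hφ C v v' V hV1 hV2 z
  have h3 : TQ ((c, 1) : G × Multiplicative ℤ) (fL π φ) (rlP C E X' Y' hXY' hYX'
        (z : Cx ℤ (Subgroup.centralizer (C : Set G)) (k + 1))) -
      TQ ((c, 1) : G × Multiplicative ℤ) (fL π φ) (rlP C E X Y hXY hYX
        (z : Cx ℤ (Subgroup.centralizer (C : Set G)) (k + 1))) -
      TQ ((c, 1) : G × Multiplicative ℤ) (fL π φ)
      (ch 1 (prism (fun y => kC R C y) (fun y => kC R C y * V) (k + 1)
        (z : Cx ℤ (Subgroup.centralizer (C : Set G)) (k + 1)))) = 0 := h1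
  rw [h2] at h3
  rw [← sub_eq_zero, ← sub_sub]
  exact h3

end aux

open Classical in
/-- **The relations.** -/
theorem relN {O : Type} [CommRing O] [IsDomain O] [CharZero O] (N : ℕ) [NeZero N]
    [HasEnoughRootsOfUnity O N] [Finite (Amod O N)] {L : Type} [Field L] [CharZero L]
    (fL : O →+* L) (hfL : Function.Injective fL) {G : Type v} [Group G] {k : ℕ}
    {ι : Type} [Fintype ι] (C : ι → Subgroup G) [∀ i, Fintype (C i)]
    [∀ i, Fintype (C i →* Oˣ)] (hC : ∀ i, ∀ a b : C i, a * b = b * a)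
    (hN : ∀ i, Nat.card (C i) ∣ N) (z : ∀ i, HG (Subgroup.centralizer (C i : Set G)) k)
    (n : ∀ i, (C i →* Oˣ) → Pr O N → ℤ)
    (h : LKQ.mk (∑ i, asm k (lau (MonoidAlgebra.mapDomainRingHom O (C i).subtype))
      ((lgrp O G).comp (Subgroup.centralizer (C i : Set G)).subtype)
      (lgrp_comm O (C i).subtype (Subgroup.centralizer (C i : Set G)).subtype (cent_comm (C i)))
      ((sqC (RingHom.id O) N (C i) (hC i) (hN i)).lauSq.dl (uN (n i))) (z i)) = 0)
    (c : G) (hc : IsOfFinOrder c) :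
    ∃ (r : ℕ) (w : Fin r → L) (a : Fin r → HG (Subgroup.centralizer ({c} : Set G)) k),
      ∀ (m : Pr O N) (Om : Type) [CommRing Om] [IsDomain Om] [CharZero Om] (f : O →+* Om)
        (j : Om →+* L), j.comp f = fL → Function.Injective j →
        (∀ (m' : Pr O N) (r : O), Ideal.Quotient.mk (Ideal.span {(N : O)}) r = kappa O N m' →
          Ideal.Quotient.mk (Ideal.span {(N : Om)}) (f r) = if m' = m then 1 else 0) →
        ∀ (p : ℕ) [Fact p.Prime], (∀ b : Om, (∀ e : ℕ, (p : Om) ^ e ∣ b) → b = 0) →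
          (∀ q : ℕ, ¬ p ∣ q → IsUnit (q : Om)) → p ∣ orderOf c →
          (∀ π : G → Subgroup.centralizer ({c} : Set G),
            (∀ (y : Subgroup.centralizer ({c} : Set G)) (g : G), π (y * g) = y * π g) →
            ∀ φ : (Fin (k + 2) → Subgroup.centralizer ({c} : Set G)) → Om,
              IsCoc (Subgroup.centralizer ({c} : Set G)) k φ → Meas p c π φ) →
          ∀ lam : HG (Subgroup.centralizer ({c} : Set G)) k →+ ℚ,
            (∀ y, ¬ p ∣ (lam y).den) →
            ∑ i, ∑ χ : C i →* Oˣ, (n i χ m : L) * ((Fintype.card (C i) : L)⁻¹ *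
              ∑ d : C i, fL (((χ d)⁻¹ : Oˣ) : O) * ((lam (trc k c (C i) d (z i)) : ℚ) : L)) =
            ∑ s, w s * ((lam (a s) : ℚ) : L) := by
  choose E xA yA hdl hxyA hyxA hloc using fun i =>
    exists_triv N fL hfL (C i) (hC i) (hN i) (n i)
  choose ζ hζ using fun i => HG.mk_surjective (z i)
  obtain ⟨π, hπ⟩ := exists_pi c
  have h' : LKQ.mk (∑ i, asm k (lau (MonoidAlgebra.mapDomainRingHom O (C i).subtype))
      ((lgrp O G).comp (Subgroup.centralizer (C i : Set G)).subtype)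
      (lgrp_comm O (C i).subtype (Subgroup.centralizer (C i : Set G)).subtype (cent_comm (C i)))
      (K0.mk (E i) - K0.mk (oneE _)) (HG.mk (ζ i))) = 0 := by
    rw [← h]
    congr 1
    refine Finset.sum_congr rfl fun i _ => ?_
    rw [hdl i, hζ i]
  obtain ⟨w, hw⟩ := exists_chain C E ζ h'
  have hWL := rl_mem fL C E ζ hw xA yA hxyA hyxA
  obtain ⟨r, ω, a, hωa⟩ := exists_class hπ hWL
  refine ⟨r, fun s => (-1) ^ k * ω s, a, ?_⟩
  intro m Om _ _ _ f j hjf hj hkap p _ hsep hunit hpc hmeas lam hlam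
  choose xB yB hxyB hyxB hxBA hyBA using fun i => hloc i m Om f j hjf hj hkap
  have hWB := rl_mem f C E ζ hw xB yB hxyB hyxB
  obtain ⟨lam', hlam'⟩ := exists_lift_lam j hj hunit lam hlam
  obtain ⟨φ, hφ, hev⟩ := exists_cocycle' lam'
  have hkey := key hsep hc hpc hπ hφ (hmeas π hπ φ hφ) hWB
  -- the cocycle over `L`
  have hφL : IsCoc (Subgroup.centralizer ({c} : Set G)) k fun x => j (φ x) := rl_coc j hφ
  have hevL : ∀ y, HG.ev hφL y = ((lam y : ℚ) : L) := by
    intro y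
    rw [HG.ev_comp hφ j.toAddMonoidHom hφL y, hev]
    exact hlam' y
  have h1 := congrArg j hkey
  rw [← TQ_map j (CI_fL hπ hφ.inv), map_zero, rl_fL] at h1
  -- the comparison
  have hX : ∀ i, ((xB i).map (lau (MonoidAlgebra.mapRingHom (C i) j))) *
      ((yB i).map (lau (MonoidAlgebra.mapRingHom (C i) j))) = 1 := by
    intro i
    rw [← Matrix.map_mul, hxyB i, Matrix.map_one _ (map_zero _) (map_one _)]
  have hY : ∀ i, ((yB i).map (lau (MonoidAlgebra.mapRingHom (C i) j))) *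
      ((xB i).map (lau (MonoidAlgebra.mapRingHom (C i) j))) =
        (((E i).map (lau (MonoidAlgebra.mapRingHom (C i) f))).map
          (lau (MonoidAlgebra.mapRingHom (C i) j))).mat := by
    intro i
    rw [← Matrix.map_mul, hyxB i]
    rfl
  have hEE : ∀ i, (((E i).map (lau (MonoidAlgebra.mapRingHom (C i) f))).map
      (lau (MonoidAlgebra.mapRingHom (C i) j))).mat =
        ((E i).map (lau (MonoidAlgebra.mapRingHom (C i) fL))).mat := fun i =>
    rl_map_map f j hjf (C i) (E i)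
  have hYL : ∀ i, ((yB i).map (lau (MonoidAlgebra.mapRingHom (C i) j))) *
      ((xB i).map (lau (MonoidAlgebra.mapRingHom (C i) j))) =
        ((E i).map (lau (MonoidAlgebra.mapRingHom (C i) fL))).mat := fun i =>
    (hY i).trans (hEE i)
  have hmap : QC.map (MonoidAlgebra.mapRingHom (G × Multiplicative ℤ) j)
      (QC.map (MonoidAlgebra.mapRingHom (G × Multiplicative ℤ) f) w +
        ∑ i, rlP (C i) ((E i).map (lau (MonoidAlgebra.mapRingHom (C i) f))) (xB i) (yB i)
          (hxyB i) (hyxB i) (ζ i : Cx ℤ (Subgroup.centralizer (C i : Set G)) (k + 1))) =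
      QC.map (MonoidAlgebra.mapRingHom (G × Multiplicative ℤ) fL) w +
        ∑ i, rlP (C i) ((E i).map (lau (MonoidAlgebra.mapRingHom (C i) fL)))
          ((xB i).map (lau (MonoidAlgebra.mapRingHom (C i) j)))
          ((yB i).map (lau (MonoidAlgebra.mapRingHom (C i) j))) (hX i) (hYL i)
          (ζ i : Cx ℤ (Subgroup.centralizer (C i : Set G)) (k + 1)) := by
    rw [map_add, map_sum, QC.map_map, ← MonoidAlgebra.mapRingHom_comp, hjf]
    congr 1
    refine Finset.sum_congr rfl fun i _ => ?_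
    rw [rlP_map j (C i) ((E i).map (lau (MonoidAlgebra.mapRingHom (C i) f))) (xB i) (yB i)
      (hxyB i) (hyxB i) (hX i) (hY i)]
    exact rlP_congr (C i) (((E i).map (lau (MonoidAlgebra.mapRingHom (C i) f))).map
      (lau (MonoidAlgebra.mapRingHom (C i) j))).idem
      ((E i).map (lau (MonoidAlgebra.mapRingHom (C i) fL))).idem (hEE i) rfl rfl (hX i) (hY i)
      (hX i) (hYL i) _
  rw [hmap, map_add, map_sum] at h1
  have hcmp : ∀ i, TQ ((c, 1) : G × Multiplicative ℤ)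
      (Pool.Agent.H16.KN.fL π fun x => j (φ x))
      (rlP (C i) ((E i).map (lau (MonoidAlgebra.mapRingHom (C i) fL)))
          ((xB i).map (lau (MonoidAlgebra.mapRingHom (C i) j)))
          ((yB i).map (lau (MonoidAlgebra.mapRingHom (C i) j))) (hX i) (hYL i)
          (ζ i : Cx ℤ (Subgroup.centralizer (C i : Set G)) (k + 1))) =
      TQ ((c, 1) : G × Multiplicative ℤ) (Pool.Agent.H16.KN.fL π fun x => j (φ x))
        (rlP (C i) ((E i).map (lau (MonoidAlgebra.mapRingHom (C i) fL))) (xA i) (yA i)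
          (hxyA i) (hyxA i) (ζ i : Cx ℤ (Subgroup.centralizer (C i : Set G)) (k + 1))) +
      (-1 : ℤ) ^ (k + 1) • ∑ d : C i, (∑ χ : C i →* Oˣ, (n i χ m : L) *
        ((Fintype.card (C i) : L)⁻¹ * fL (((χ d)⁻¹ : Oˣ) : O))) *
          ((lam (trc k c (C i) d (z i)) : ℚ) : L) := by
    intro i
    have hv : vL fL (fun χ : C i →* Oˣ => n i χ m) * vL fL (-fun χ : C i →* Oˣ => n i χ m) = 1 := by
      rw [vL_mul fL (hC i) (hN i), add_neg_cancel, vL_zero fL (hC i) (hN i)]
    have hv' : vL fL (-fun χ : C i →* Oˣ => n i χ m) * vL fL (fun χ : C i →* Oˣ => n i χ m) = 1 := by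
      rw [vL_mul fL (hC i) (hN i), neg_add_cancel, vL_zero fL (hC i) (hN i)]
    rw [rl_cmp hπ hφL (C i) ((E i).map (lau (MonoidAlgebra.mapRingHom (C i) fL))) (xA i)
      ((xB i).map (lau (MonoidAlgebra.mapRingHom (C i) j))) (yA i)
      ((yB i).map (lau (MonoidAlgebra.mapRingHom (C i) j))) (hxyA i) (hyxA i) (hX i) (hYL i)
      (vL fL (fun χ : C i →* Oˣ => n i χ m)) (vL fL (-fun χ : C i →* Oˣ => n i χ m)) hv hv'
      (hxBA i) (hyBA i) (ζ i)]
    congr 2
    refine Finset.sum_congr rfl fun d _ => ?_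
    rw [hevL, hζ i]
    congr 1
    first
      | exact der_coeff_vL N fL (hC i) (hN i) _ _
      | exact der_coeff_vL fL (hC i) (hN i) _ _
      | exact der_coeff_vL fL _ _
  rw [Finset.sum_congr rfl fun i _ => hcmp i, Finset.sum_add_distrib, ← add_assoc, ← map_sum,
    ← map_add, hωa _ hφL, ← Finset.smul_sum] at h1
  have h2 : ∑ s, ω s * HG.ev hφL (a s) = ∑ s, ω s * ((lam (a s) : ℚ) : L) :=
    Finset.sum_congr rfl fun s _ => by rw [hevL]
  rw [h2, zsmul_eq_mul, Int.cast_pow, Int.cast_neg, Int.cast_one] at h1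
  have h3 : ∑ i, ∑ χ : C i →* Oˣ, (n i χ m : L) * ((Fintype.card (C i) : L)⁻¹ *
      ∑ d : C i, fL (((χ d)⁻¹ : Oˣ) : O) * ((lam (trc k c (C i) d (z i)) : ℚ) : L)) =
      ∑ i, ∑ d : C i, (∑ χ : C i →* Oˣ, (n i χ m : L) *
        ((Fintype.card (C i) : L)⁻¹ * fL (((χ d)⁻¹ : Oˣ) : O))) *
          ((lam (trc k c (C i) d (z i)) : ℚ) : L) := by
    refine Finset.sum_congr rfl fun i _ => ?_
    simp only [Finset.sum_mul, Finset.mul_sum]
    rw [Finset.sum_comm]
    refine Finset.sum_congr rfl fun d _ => Finset.sum_congr rfl fun χ _ => ?_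
    ring
  have h4 : ∑ s, (-1 : L) ^ k * ω s * ((lam (a s) : ℚ) : L) =
      (-1) ^ k * ∑ s, ω s * ((lam (a s) : ℚ) : L) := by
    rw [Finset.mul_sum]
    exact Finset.sum_congr rfl fun s _ => mul_assoc _ _ _
  rw [h3, h4]
  exact rl_sign k _ _ h1

end Pool.Agent.H16.KN

end

section

/-!
# Project KN, module MainN: rational injectivity of the assembly map on the `K₋₁`-part in all degrees

PROOF of `hasRel_of`.  `relN` for the symbols (`pr_Theta_eq`, `map_sum`) gives `r, w, a`.  For `m` with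
`ringChar (Amod O N ⧸ m.asIdeal) ∣ orderOf c`: `p = ringChar ..` is a prime in `m` (as in `mainz_rel`);
`exists_loc2` gives `Om, f, j, ..`; the measures are `meas_of_exp` (if the `p`-torsion has bounded exponent) and
`meas_zero` (`k = 0`).
-/

set_option autoImplicit false

open NumberField

universe u v w

namespace Pool.Agent.H16.KN

open Pool.Agent.H95.KM
open Pool.Agent.H71.FQ (HG HG.map centConj cent_comm)
open Pool.Agent.H8.KZ (exists_loc2)

open Classical in
theorem hasRel_of {G : Type v} [Group G] (k : ℕ)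
    (hexp : k = 0 ∨ ∀ p : ℕ, p.Prime →
      ∃ r : ℕ, ∀ g : G, (∃ j : ℕ, g ^ p ^ j = 1) → g ^ p ^ r = 1)
    (hG : ∀ (p : ℕ) (c : G), p.Prime → IsOfFinOrder c → p ∣ orderOf c →
      PSepA p (HG (Subgroup.centralizer ({c} : Set G)) k)) : HasRel G k := by
  intro N _ _ _ ι _ C _ _ n z h c hc
  have hfL : Function.Injective (algebraMap (𝓞 (CyclotomicField N ℚ)) (CyclotomicField N ℚ)) :=
    FaithfulSMul.algebraMap_injective _ _
  have hfin : ∀ i, Finite (C i).1 := fun i => (C i).2.1.1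
  have h' : LKQ.mk (∑ i, Pool.Agent.H71.FQ.asm k
      (lau (MonoidAlgebra.mapDomainRingHom (𝓞 (CyclotomicField N ℚ)) (C i).1.subtype))
      ((lgrp (𝓞 (CyclotomicField N ℚ)) G).comp
        (Subgroup.centralizer ((C i).1 : Set G)).subtype)
      (lgrp_comm (𝓞 (CyclotomicField N ℚ)) (C i).1.subtype
        (Subgroup.centralizer ((C i).1 : Set G)).subtype (cent_comm (C i).1))
      ((sqC (RingHom.id (𝓞 (CyclotomicField N ℚ))) N (C i).1 (comm_of_cyclic (C i).2.1.2)
        (C i).2.2).lauSq.dl (uN (n i))) (z i)) = 0 := by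
    rw [map_sum]
    exact h
  obtain ⟨r, w, a, hwa⟩ := relN N (algebraMap (𝓞 (CyclotomicField N ℚ)) (CyclotomicField N ℚ))
    hfL (fun i => (C i).1) (fun i => comm_of_cyclic (C i).2.1.2) (fun i => (C i).2.2) z n h' c hc
  refine ⟨r, w, a, ?_⟩
  intro m hm
  have hmax := m.isMaximal
  have hp : (ringChar (Amod (𝓞 (CyclotomicField N ℚ)) N ⧸ m.asIdeal)).Prime := by
    have hfin : Finite (Amod (𝓞 (CyclotomicField N ℚ)) N ⧸ m.asIdeal) :=
      Finite.of_surjective _ Ideal.Quotient.mk_surjective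
    have hne : ringChar (Amod (𝓞 (CyclotomicField N ℚ)) N ⧸ m.asIdeal) ≠ 0 := by
      intro h0
      rw [h0, zero_dvd_iff] at hm
      exact hc.orderOf_pos.ne' hm
    have : CharP (Amod (𝓞 (CyclotomicField N ℚ)) N ⧸ m.asIdeal)
        (ringChar (Amod (𝓞 (CyclotomicField N ℚ)) N ⧸ m.asIdeal)) := ringChar.charP _
    rcases CharP.char_is_prime_or_zero (Amod (𝓞 (CyclotomicField N ℚ)) N ⧸ m.asIdeal)
      (ringChar (Amod (𝓞 (CyclotomicField N ℚ)) N ⧸ m.asIdeal)) with h | h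
    · exact h
    · exact absurd h hne
  have hpm : ((ringChar (Amod (𝓞 (CyclotomicField N ℚ)) N ⧸ m.asIdeal) : ℕ) :
      Amod (𝓞 (CyclotomicField N ℚ)) N) ∈ m.asIdeal := by
    rw [← Ideal.Quotient.eq_zero_iff_mem, map_natCast]
    exact ringChar.Nat.cast_ringChar
  obtain ⟨p, hpe⟩ : ∃ p, p = ringChar (Amod (𝓞 (CyclotomicField N ℚ)) N ⧸ m.asIdeal) := ⟨_, rfl⟩
  rw [← hpe] at hp hpm hm
  have : Fact p.Prime := ⟨hp⟩
  obtain ⟨Om, i1, i2, i3, f, j, hjf, hj, hsepa, hk, hunit, -, -⟩ := exists_loc2 N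
    (algebraMap (𝓞 (CyclotomicField N ℚ)) (CyclotomicField N ℚ)) hfL m
  refine ⟨p, hG p c hp hc hm, ?_⟩
  intro lam hlam
  have hu : ∀ q : ℕ, ¬ p ∣ q → IsUnit (q : Om) := by
    intro q hq
    rw [← map_natCast f q]
    apply hunit
    intro hqm
    apply hmax.ne_top
    rw [Ideal.eq_top_iff_one]
    have hcop : Nat.Coprime p q := (Nat.Prime.coprime_iff_not_dvd hp).2 hq
    obtain ⟨a, b, hab⟩ : IsCoprime (p : ℤ) (q : ℤ) := Nat.isCoprime_iff_coprime.2 hcop
    have h1 : (a : Amod (𝓞 (CyclotomicField N ℚ)) N) * p + b * q = 1 := by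
      exact_mod_cast congrArg (fun x : ℤ => (x : Amod (𝓞 (CyclotomicField N ℚ)) N)) hab
    rw [← h1]
    refine m.asIdeal.add_mem (m.asIdeal.mul_mem_left _ hpm) (m.asIdeal.mul_mem_left _ ?_)
    rw [map_natCast] at hqm
    exact hqm
  refine hwa m Om f j hjf hj hk p (hsepa p hpm) hu hm ?_ lam hlam
  intro π hπ φ hφ
  rcases hexp with rfl | hexp
  · exact meas_zero hp hc π hπ hφ
  · obtain ⟨e, he⟩ := hexp p hp
    exact meas_of_exp hp e he hc π hπ hφ

end Pool.Agent.H16.KN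

end
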