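import Pool.Agent.H13.TFQ.H16.KN.ArtN
import Pool.Agent.H13.TFQ.H16.KN.LinAN
import Pool.Agent.H13.TFQ.M91
import Pool.Agent.H13.TFQ.M98

/-! The parts of this file: H16.KN.LinBN, H16.KN.ThN, H16.KN.MainA_1. -/

section

/-!
# Project KN, module LinBN: the functionals vanish on the relations

The version of `Pool/Agent/H8/KZ/LinB.lean` for symbols with homology classes `z ∈ H_{k+1}(Z_G(D); ℤ)`.
`linalgN` : general form (a set `T` of Galois automorphisms); `linalgN'` : the form used in KN (`T` one element).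
-/

set_option autoImplicit false

open NumberField

universe u v w

namespace Pool.Agent.H16.KN

open Pool.Agent.H95.KM
open Pool.Agent.H8.KZ (galN gO permPr)
open Pool.Agent.H71.FQ (HG HG.map centConj)

section linBaux

/-- the coefficient of the element `d` of `C i` -/
private noncomputable def linBu {L : Type} [Field L] [NumberField L] {N : ℕ} [NeZero N]
    {G : Type v} [Group G] {ι : Type} (C : ι → Good G N) [∀ i, Fintype (C i).1]
    (n : ∀ i, ((C i).1 →* (𝓞 L)ˣ) → Pr (𝓞 L) N → ℤ) (c : G)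
    (j : Σ i, ((C i).1 →* (𝓞 L)ˣ) × (C i).1) (m : Pr (𝓞 L) N) : L :=
  open Classical in
  if IsConj c (j.2.2 : G) then (n j.1 j.2.1 m : L) * ((Fintype.card (C j.1).1 : L)⁻¹ *
    algebraMap (𝓞 L) L (((j.2.1 j.2.2)⁻¹ : (𝓞 L)ˣ) : 𝓞 L)) else 0

private theorem linB_class {L : Type} [Field L] [NumberField L] (N : ℕ) [NeZero N]
    {G : Type v} [Group G] {k : ℕ} (pr : Pr (𝓞 L) N → ℕ)
    [Fintype (Pr (𝓞 L) N)] {ι : Type} [Fintype ι] (C : ι → Good G N)
    [∀ i, Fintype (C i).1] [∀ i, Fintype ((C i).1 →* (𝓞 L)ˣ)] [Fintype (L ≃ₐ[ℚ] L)]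
    (n : ∀ i, ((C i).1 →* (𝓞 L)ˣ) → Pr (𝓞 L) N → ℤ)
    (z : ∀ i, HG (Subgroup.centralizer ((C i).1 : Set G)) k) (c : G)
    (hh : Pr (𝓞 L) N → (HG (Subgroup.centralizer ({c} : Set G)) k →+ L))
    (hgal : ∀ m (σ : L ≃ₐ[ℚ] L) y, permPr (gO σ) N m = m → σ (hh m y) = hh m y)
    (hvan : ∀ m, ¬ pr m ∣ orderOf c → ∀ y, hh m y = 0)
    (hsum : ∀ y, ∑ m, hh m y = 0)
    (hrel : ∃ (r : ℕ) (w : Fin r → L)
      (a : Fin r → HG (Subgroup.centralizer ({c} : Set G)) k), ∀ m : Pr (𝓞 L) N,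
        pr m ∣ orderOf c →
        ∃ (p : ℕ) (T : Type) (_ : Fintype T) (_ : Nonempty T) (σ : T → (L ≃ₐ[ℚ] L)),
          PSepA p (HG (Subgroup.centralizer ({c} : Set G)) k) ∧
          (∀ t, permPr (gO (σ t)) N m = m) ∧
          ∀ lam : HG (Subgroup.centralizer ({c} : Set G)) k →+ ℚ,
            (∀ y, ¬ p ∣ (lam y).den) →
            ∑ t, σ t (∑ i, ∑ χ : (C i).1 →* (𝓞 L)ˣ, (n i χ m : L) *
              ((Fintype.card (C i).1 : L)⁻¹ * ∑ d : (C i).1,
                algebraMap (𝓞 L) L (((χ d)⁻¹ : (𝓞 L)ˣ) : 𝓞 L) *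
                  ((lam (trc k c (C i).1 d (z i)) : ℚ) : L))) =
            ∑ t, σ t (∑ s, w s * ((lam (a s) : ℚ) : L))) :
    ∑ g : L ≃ₐ[ℚ] L, g (∑ m, ∑ j : (Σ i, ((C i).1 →* (𝓞 L)ˣ) × (C i).1),
      linBu C n c j m * hh m (trc k c (C j.1).1 j.2.2 (z j.1))) = 0 := by
  classical
  obtain ⟨r, w, a, hrel⟩ := hrel
  refine class_zeroA (X := HG (Subgroup.centralizer ({c} : Set G)) k) (L := L)
    (Γ := L ≃ₐ[ℚ] L)
    (fun g => (g : L ≃ₐ[ℚ] L).toRingEquiv.toRingHom) (fun g g' x => rfl) hh hsum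
    (K := Σ i, ((C i).1 →* (𝓞 L)ˣ) × (C i).1) (linBu C n c)
    (fun j => trc k c (C j.1).1 j.2.2 (z j.1)) w a ?_
  intro m
  by_cases hm : pr m ∣ orderOf c
  · right
    obtain ⟨p, T, iT, nT, σ, hp, hσ, hl⟩ := hrel m hm
    refine ⟨p, T, iT, nT, σ, hp, fun t y => hgal m (σ t) y (hσ t), ?_⟩
    intro lam hlam
    have h2 := hl lam hlam
    have h3 : (∑ j : (Σ i, ((C i).1 →* (𝓞 L)ˣ) × (C i).1),
        linBu C n c j m * ((lam (trc k c (C j.1).1 j.2.2 (z j.1)) : ℚ) : L)) =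
        ∑ i, ∑ χ : (C i).1 →* (𝓞 L)ˣ, (n i χ m : L) *
            ((Fintype.card (C i).1 : L)⁻¹ * ∑ d : (C i).1,
              algebraMap (𝓞 L) L (((χ d)⁻¹ : (𝓞 L)ˣ) : 𝓞 L) *
                ((lam (trc k c (C i).1 d (z i)) : ℚ) : L)) := by
      rw [Fintype.sum_sigma]
      refine Finset.sum_congr rfl fun i _ => ?_
      rw [Fintype.sum_prod_type]
      refine Finset.sum_congr rfl fun χ _ => ?_
      rw [Finset.mul_sum, Finset.mul_sum]
      refine Finset.sum_congr rfl fun d _ => ?_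
      unfold linBu
      by_cases hcd : IsConj c (d : G)
      · rw [if_pos hcd]
        ring
      · rw [if_neg hcd, trc_of_not hcd]
        simp
    rw [← h3] at h2
    exact h2
  · left
    exact hvan m hm

end linBaux

open Classical in
theorem linalgN {L : Type} [Field L] [NumberField L] (N : ℕ) [NeZero N]
    [HasEnoughRootsOfUnity (𝓞 L) N] {G : Type v} [Group G] {k : ℕ} (pr : Pr (𝓞 L) N → ℕ)
    [Fintype (Pr (𝓞 L) N)] (Λ : FunN L N G k pr) {ι : Type} [Fintype ι] (C : ι → Good G N)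
    [∀ i, Fintype (C i).1] [∀ i, Fintype ((C i).1 →* (𝓞 L)ˣ)]
    (n : ∀ i, ((C i).1 →* (𝓞 L)ˣ) → Pr (𝓞 L) N → ℤ)
    (z : ∀ i, HG (Subgroup.centralizer ((C i).1 : Set G)) k)
    (hrel : ∀ (c : G), IsOfFinOrder c → ∃ (r : ℕ) (w : Fin r → L)
      (a : Fin r → HG (Subgroup.centralizer ({c} : Set G)) k), ∀ m : Pr (𝓞 L) N,
        pr m ∣ orderOf c →
        ∃ (p : ℕ) (T : Type) (_ : Fintype T) (_ : Nonempty T) (σ : T → (L ≃ₐ[ℚ] L)),
          PSepA p (HG (Subgroup.centralizer ({c} : Set G)) k) ∧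
          (∀ t, permPr (gO (σ t)) N m = m) ∧
          ∀ lam : HG (Subgroup.centralizer ({c} : Set G)) k →+ ℚ,
            (∀ y, ¬ p ∣ (lam y).den) →
            ∑ t, σ t (∑ i, ∑ χ : (C i).1 →* (𝓞 L)ˣ, (n i χ m : L) *
              ((Fintype.card (C i).1 : L)⁻¹ * ∑ d : (C i).1,
                algebraMap (𝓞 L) L (((χ d)⁻¹ : (𝓞 L)ˣ) : 𝓞 L) *
                  ((lam (trc k c (C i).1 d (z i)) : ℚ) : L))) =
            ∑ t, σ t (∑ s, w s * ((lam (a s) : ℚ) : L))) :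
    ∑ i, Λ.F (C i) (n i) (z i) = 0 := by
  classical
  let _ : Fintype (L ≃ₐ[ℚ] L) := Fintype.ofFinite _
  obtain ⟨hh, hgal, hvan, hsum, hexp⟩ := exists_hhN N pr Λ
  -- the finite set of classes
  obtain ⟨Q, hQ⟩ : ∃ Q : Finset (ConjClasses G), Q = Finset.univ.biUnion fun i =>
      Finset.univ.image fun d : (C i).1 => ConjClasses.mk (d : G) := ⟨_, rfl⟩
  have hmemQ : ∀ (i : ι) (d : (C i).1), ConjClasses.mk (d : G) ∈ Q := by
    intro i d
    rw [hQ, Finset.mem_biUnion]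
    exact ⟨i, Finset.mem_univ i, Finset.mem_image_of_mem _ (Finset.mem_univ d)⟩
  have hrep : ∀ γ : ConjClasses G, ∃ c : G, ConjClasses.mk c = γ := fun γ => γ.exists_rep
  choose rp hrp using hrep
  have hconj : ∀ (γ : ConjClasses G) (x : G), IsConj (rp γ) x ↔ γ = ConjClasses.mk x := by
    intro γ x
    rw [← ConjClasses.mk_eq_mk_iff_isConj, hrp]
  have hmain : ((∑ i, Λ.F (C i) (n i) (z i) : ℚ) : L) = ∑ γ ∈ Q,
      ∑ m, ∑ j : (Σ i, ((C i).1 →* (𝓞 L)ˣ) × (C i).1),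
        linBu C n (rp γ) j m * hh (rp γ) m (trc k (rp γ) (C j.1).1 j.2.2 (z j.1)) := by
    rw [Rat.cast_sum, Finset.sum_comm]
    have h1 : ∀ i, (Λ.F (C i) (n i) (z i) : L) = ∑ m, ∑ χ : (C i).1 →* (𝓞 L)ˣ, ∑ d : (C i).1,
        ∑ γ ∈ Q, linBu C n (rp γ) ⟨i, χ, d⟩ m *
          hh (rp γ) m (trc k (rp γ) (C i).1 d (z i)) := by
      intro i
      rw [hexp (fun d => rp (ConjClasses.mk d)) (fun d => (hconj _ _).2 rfl) (C i) (n i) (z i)]
      refine Finset.sum_congr rfl fun m _ => Finset.sum_congr rfl fun χ _ => ?_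
      rw [Finset.mul_sum, Finset.mul_sum]
      refine Finset.sum_congr rfl fun d _ => ?_
      rw [Finset.sum_eq_single (ConjClasses.mk (d : G))]
      · unfold linBu
        have h3 : IsConj (rp (ConjClasses.mk (d : G))) (d : G) := (hconj _ _).2 rfl
        rw [if_pos h3]
        ring
      · intro γ _ hγ
        unfold linBu
        rw [if_neg (fun h3 => hγ ((hconj _ _).1 h3)), zero_mul]
      · intro h3
        exact absurd (hmemQ i d) h3
    rw [Finset.sum_congr rfl fun i _ => h1 i, Finset.sum_comm]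
    refine Finset.sum_congr rfl fun m _ => ?_
    rw [Finset.sum_comm (s := Q), Fintype.sum_sigma]
    refine Finset.sum_congr rfl fun i _ => ?_
    rw [Fintype.sum_prod_type]
  -- the sum over the Galois group
  have hz : ∑ g : L ≃ₐ[ℚ] L, g ((∑ i, Λ.F (C i) (n i) (z i) : ℚ) : L) = 0 := by
    rw [hmain]
    simp only [map_sum (_ : L ≃ₐ[ℚ] L) _ Q]
    rw [Finset.sum_comm]
    refine Finset.sum_eq_zero fun γ hγ => ?_
    rw [hQ, Finset.mem_biUnion] at hγ
    obtain ⟨i₀, -, hγ⟩ := hγ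
    obtain ⟨d₀, -, hd₀⟩ := Finset.mem_image.1 hγ
    have hcd : IsConj (rp γ) (d₀ : G) := (hconj _ _).2 hd₀.symm
    have hord : orderOf (rp γ) = orderOf (d₀ : G) := by
      obtain ⟨g, hg⟩ := isConj_iff.1 hcd
      have h4 : SemiconjBy g (rp γ) (d₀ : G) := by
        unfold SemiconjBy
        rw [← hg]; group
      exact h4.orderOf_eq
    have hpos : 0 < orderOf (rp γ) := by
      rw [hord, Subgroup.orderOf_coe]
      exact orderOf_pos d₀
    have hfin : IsOfFinOrder (rp γ) := orderOf_pos_iff.1 hpos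
    have h5 := linB_class N pr C n z (rp γ) (hh (rp γ)) ?_ (hvan (rp γ)) (hsum (rp γ))
      (hrel (rp γ) hfin)
    · exact h5
    · intro m σ y hm
      rw [← hgal (rp γ) m σ y, hm]
  have h6 : (Fintype.card (L ≃ₐ[ℚ] L) : L) * ((∑ i, Λ.F (C i) (n i) (z i) : ℚ) : L) = 0 := by
    rw [← hz, ← nsmul_eq_mul, ← Finset.card_univ, ← Finset.sum_const]
    refine Finset.sum_congr rfl fun g _ => ?_
    rw [map_ratCast]
  have h7 : (Fintype.card (L ≃ₐ[ℚ] L) : L) ≠ 0 := by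
    have : Fintype.card (L ≃ₐ[ℚ] L) ≠ 0 := Fintype.card_ne_zero
    exact_mod_cast this
  have h8 := (mul_eq_zero.1 h6).resolve_left h7
  exact_mod_cast h8

theorem permPr_refl' {O : Type} [CommRing O] (N : ℕ) (m : Pr O N) :
    permPr (RingEquiv.refl O) N m = m := by
  apply MaximalSpectrum.ext
  apply Ideal.ext
  intro x
  obtain ⟨a, rfl⟩ := Ideal.Quotient.mk_surjective x
  exact Pool.Agent.H8.KZ.mem_permPr_mk (RingEquiv.refl O) N m a

/-- The form without Galois automorphisms: for every `c` of finite order one class `W = ∑ w s • a s` in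
`H_{k+1}(Z_G(c)) ⊗ L` for all `m` above the prime divisors of the order of `c`. -/
theorem linalgN' {L : Type} [Field L] [NumberField L] (N : ℕ) [NeZero N]
    [HasEnoughRootsOfUnity (𝓞 L) N] {G : Type v} [Group G] {k : ℕ} (pr : Pr (𝓞 L) N → ℕ)
    [Fintype (Pr (𝓞 L) N)] (Λ : FunN L N G k pr) {ι : Type} [Fintype ι] (C : ι → Good G N)
    [∀ i, Fintype (C i).1] [∀ i, Fintype ((C i).1 →* (𝓞 L)ˣ)]
    (n : ∀ i, ((C i).1 →* (𝓞 L)ˣ) → Pr (𝓞 L) N → ℤ)
    (z : ∀ i, HG (Subgroup.centralizer ((C i).1 : Set G)) k)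
    (hrel : ∀ (c : G), IsOfFinOrder c → ∃ (r : ℕ) (w : Fin r → L)
      (a : Fin r → HG (Subgroup.centralizer ({c} : Set G)) k), ∀ m : Pr (𝓞 L) N,
        pr m ∣ orderOf c →
        ∃ p : ℕ, PSepA p (HG (Subgroup.centralizer ({c} : Set G)) k) ∧
          ∀ lam : HG (Subgroup.centralizer ({c} : Set G)) k →+ ℚ,
            (∀ y, ¬ p ∣ (lam y).den) →
            ∑ i, ∑ χ : (C i).1 →* (𝓞 L)ˣ, (n i χ m : L) *
              ((Fintype.card (C i).1 : L)⁻¹ * ∑ d : (C i).1,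
                algebraMap (𝓞 L) L (((χ d)⁻¹ : (𝓞 L)ˣ) : 𝓞 L) *
                  ((lam (trc k c (C i).1 d (z i)) : ℚ) : L)) =
            ∑ s, w s * ((lam (a s) : ℚ) : L)) :
    ∑ i, Λ.F (C i) (n i) (z i) = 0 := by
  refine linalgN N pr Λ C n z ?_
  intro c hc
  obtain ⟨r, w, a, h⟩ := hrel c hc
  refine ⟨r, w, a, fun m hm => ?_⟩
  obtain ⟨p, hp, hl⟩ := h m hm
  refine ⟨p, Unit, inferInstance, inferInstance, fun _ => 1, hp, fun _ => ?_, ?_⟩
  · have h1 : gO (1 : L ≃ₐ[ℚ] L) = RingEquiv.refl (𝓞 L) := by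
      apply RingEquiv.ext
      intro x
      apply RingOfIntegers.ext
      rfl
    rw [h1]
    exact permPr_refl' N m
  · intro lam hlam
    simp only [Finset.univ_unique, Finset.sum_singleton, AlgEquiv.one_apply]
    exact hl lam hlam

end Pool.Agent.H16.KN

end

section

/-!
# Project KN, module ThN: the functionals given by the classes `Θ(n)` and the transfer

The version of `Pool/Agent/H8/KZ/ThZ.lean` for symbols with homology classes.
-/

set_option autoImplicit false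

open NumberField

universe u v w

namespace Pool.Agent.H16.KN

open Pool.Agent.H95.KM
open Pool.Agent.H95.WH (conjHom FinSub)
open Pool.Agent.H8.KZ (galN gO permPr mem_permPr permPr_trans Theta_gal_ext)
open Pool.Agent.H71.FQ (HG HG.map centConj)

private theorem thz_galN_add {O : Type} [CommRing O] (N : ℕ) {C : Type v} [Group C] (σ : O ≃+* O)
    (n n' : (C →* Oˣ) → Pr O N → ℤ) : galN N σ (n + n') = galN N σ n + galN N σ n' := rfl

private theorem thz_galN_comp {O : Type} [CommRing O] (N : ℕ) {C C' : Type v} [Group C] [Group C']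
    (σ : O ≃+* O) (c : C →* C') (n : (C →* Oˣ) → Pr O N → ℤ) :
    galN N σ (fun (χ : C' →* Oˣ) m => n (χ.comp c) m) = fun χ m => galN N σ n (χ.comp c) m := rfl

private theorem thz_galN_const {O : Type} [CommRing O] (N : ℕ) {C : Type v} [Group C]
    (σ : O ≃+* O) (f : (C →* Oˣ) → ℤ) :
    galN N σ (fun χ (_ : Pr O N) => f χ) =
      fun χ (_ : Pr O N) => f ((Units.map (σ.symm : O →* O)).comp χ) := rfl

private theorem thz_galN_van {O : Type} [CommRing O] (N : ℕ) {C : Type v} [Group C]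
    (σ : O ≃+* O) (n : (C →* Oˣ) → Pr O N → ℤ) (c : ℕ)
    (h : ∀ χ m, n χ m ≠ 0 → (c : Amod O N) ∉ m.asIdeal) :
    ∀ χ m, galN N σ n χ m ≠ 0 → (c : Amod O N) ∉ m.asIdeal := by
  intro χ m hne hmem
  apply h _ _ hne
  rw [← mem_permPr σ N, map_natCast, Equiv.apply_symm_apply]
  exact hmem

private theorem thz_gO_mul {L : Type} [Field L] [NumberField L] (σ τ : L ≃ₐ[ℚ] L) :
    gO (σ * τ) = (gO τ).trans (gO σ) := by
  apply RingEquiv.ext
  intro x
  apply RingOfIntegers.ext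
  rfl

private theorem thz_galN_mul {L : Type} [Field L] [NumberField L] (N : ℕ) {C : Type v} [Group C]
    (σ τ : L ≃ₐ[ℚ] L) (n : (C →* (𝓞 L)ˣ) → Pr (𝓞 L) N → ℤ) :
    galN N (gO σ) (galN N (gO τ) n) = galN N (gO (σ * τ)) n := by
  funext χ m
  have h1 : (permPr (gO (σ * τ)) N).symm m =
      (permPr (gO τ) N).symm ((permPr (gO σ) N).symm m) := by
    rw [Equiv.symm_apply_eq, thz_gO_mul, permPr_trans, Equiv.apply_symm_apply,
      Equiv.apply_symm_apply]
  have h2 : (Units.map ((gO (σ * τ)).symm : 𝓞 L →* 𝓞 L)).comp χ =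
      (Units.map ((gO τ).symm : 𝓞 L →* 𝓞 L)).comp
        ((Units.map ((gO σ).symm : 𝓞 L →* 𝓞 L)).comp χ) := by
    rw [thz_gO_mul]
    rfl
  unfold galN
  rw [h1, h2]

section term

variable {L : Type} [Field L] [NumberField L] (N : ℕ) [NeZero N]
  [HasEnoughRootsOfUnity (𝓞 L) N] [Finite (Amod (𝓞 L) N)] {G : Type v} [Group G] {k : ℕ}
  (φ : HnKm1 ℤ G k →+ ℚ)
  (res : ∀ (H : Type v) [Group H], Km1 (MonoidAlgebra (𝓞 L) H) →+ Km1 (MonoidAlgebra ℤ H))

/-- the term of the sum -/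
private noncomputable def thz_tm (D : Good G N) (n : (D.1 →* (𝓞 L)ˣ) → Pr (𝓞 L) N → ℤ)
    (z : HG (Subgroup.centralizer (D.1 : Set G)) k) : ℚ :=
  haveI : Finite D.1 := D.2.1.1
  φ (sym (⟨D.1, D.2.1.1⟩ : Pool.Agent.H95.WH.FamSub G FinSub)
    (res D.1 (Theta N D.1 (comm_of_cyclic D.2.1.2) D.2.2 n)) z)

private theorem thz_tm_add (D : Good G N) (n n' : (D.1 →* (𝓞 L)ˣ) → Pr (𝓞 L) N → ℤ)
    (z : HG (Subgroup.centralizer (D.1 : Set G)) k) :
    thz_tm N φ res D (n + n') z = thz_tm N φ res D n z + thz_tm N φ res D n' z := by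
  have : Finite D.1 := D.2.1.1
  unfold thz_tm
  rw [Theta_add, map_add, sym_add, map_add]

private theorem thz_tm_mul (D : Good G N) (n : (D.1 →* (𝓞 L)ˣ) → Pr (𝓞 L) N → ℤ)
    (z z' : HG (Subgroup.centralizer (D.1 : Set G)) k) :
    thz_tm N φ res D n (z + z') = thz_tm N φ res D n z + thz_tm N φ res D n z' := by
  unfold thz_tm
  rw [sym_addz, map_add]

private theorem thz_tm_zero (D : Good G N) (n : (D.1 →* (𝓞 L)ˣ) → Pr (𝓞 L) N → ℤ)
    (z : HG (Subgroup.centralizer (D.1 : Set G)) k) (h : haveI : Finite D.1 := D.2.1.1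
      Theta N D.1 (comm_of_cyclic D.2.1.2) D.2.2 n = 0) :
    thz_tm N φ res D n z = 0 := by
  have : Finite D.1 := D.2.1.1
  unfold thz_tm
  rw [h, map_zero]
  change φ (symH (⟨D.1, D.2.1.1⟩ : Pool.Agent.H95.WH.FamSub G FinSub) z 0) = 0
  rw [map_zero, map_zero]

private theorem thz_tm_nat
    (hnat : ∀ (H H' : Type v) [Group H] [Group H'] (f : H →* H')
      (x : Km1 (MonoidAlgebra (𝓞 L) H)), res H' (ind (𝓞 L) f x) = ind ℤ f (res H x))
    (D D' : Good G N) (g : G) (h : ∀ x ∈ D.1, g * x * g⁻¹ ∈ D'.1)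
    (n : (D.1 →* (𝓞 L)ˣ) → Pr (𝓞 L) N → ℤ) (z : HG (Subgroup.centralizer (D'.1 : Set G)) k) :
    thz_tm N φ res D' (fun χ m => n (χ.comp (conjHom g D.1 D'.1 h)) m) z =
      thz_tm N φ res D n (HG.map k (centConj g D.1 D'.1 h) z) := by
  have : Finite D.1 := D.2.1.1
  have : Finite D'.1 := D'.2.1.1
  unfold thz_tm
  rw [Theta_map N D.1 (comm_of_cyclic D.2.1.2) D.2.2 D'.1, hnat]
  congr 1
  exact sym_conj (⟨D.1, D.2.1.1⟩ : Pool.Agent.H95.WH.FamSub G FinSub) ⟨D'.1, D'.2.1.1⟩ g h _ z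

private theorem thz_tm_val (d : ℕ)
    (hres : ∀ (H : Type v) [Group H] (x : Km1 (MonoidAlgebra ℤ H)),
      res H (Km1.map (MonoidAlgebra.mapRingHom H (Int.castRingHom (𝓞 L))) x) = d • x)
    (D : Good G N) (hD : Finite D.1) (n : (D.1 →* (𝓞 L)ˣ) → Pr (𝓞 L) N → ℤ)
    (z : HG (Subgroup.centralizer (D.1 : Set G)) k) (x : Km1 (MonoidAlgebra ℤ D.1))
    (hx : Km1.map (MonoidAlgebra.mapRingHom D.1 (Int.castRingHom (𝓞 L))) x =
      Theta N D.1 (comm_of_cyclic D.2.1.2) D.2.2 n) :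
    thz_tm N φ res D n z =
      (d : ℚ) * φ (sym (⟨D.1, hD⟩ : Pool.Agent.H95.WH.FamSub G FinSub) x z) := by
  unfold thz_tm
  rw [← hx, hres]
  change φ (symH (⟨D.1, hD⟩ : Pool.Agent.H95.WH.FamSub G FinSub) z (d • x)) = _
  rw [map_nsmul, map_nsmul, nsmul_eq_mul]
  rfl

end term

theorem exists_funN {L : Type} [Field L] [NumberField L] (N : ℕ) [NeZero N]
    [HasEnoughRootsOfUnity (𝓞 L) N] [Finite (Amod (𝓞 L) N)] {G : Type v} [Group G] {k : ℕ}
    (φ : HnKm1 ℤ G k →+ ℚ) (d : ℕ)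
    (res : ∀ (H : Type v) [Group H], Km1 (MonoidAlgebra (𝓞 L) H) →+ Km1 (MonoidAlgebra ℤ H))
    (hres : ∀ (H : Type v) [Group H] (x : Km1 (MonoidAlgebra ℤ H)),
      res H (Km1.map (MonoidAlgebra.mapRingHom H (Int.castRingHom (𝓞 L))) x) = d • x)
    (hnat : ∀ (H H' : Type v) [Group H] [Group H'] (f : H →* H')
      (x : Km1 (MonoidAlgebra (𝓞 L) H)), res H' (ind (𝓞 L) f x) = ind ℤ f (res H x)) :
    ∃ Λ : FunN L N G k (fun m => ringChar (Amod (𝓞 L) N ⧸ m.asIdeal)),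
      ∀ (D : Good G N) (hD : Finite D.1) (n : (D.1 →* (𝓞 L)ˣ) → Pr (𝓞 L) N → ℤ)
        (z : HG (Subgroup.centralizer (D.1 : Set G)) k) (x : Km1 (MonoidAlgebra ℤ D.1)),
        Km1.map (MonoidAlgebra.mapRingHom D.1 (Int.castRingHom (𝓞 L))) x =
          Theta N D.1 (comm_of_cyclic D.2.1.2) D.2.2 n →
        Λ.F D n z = (Fintype.card (L ≃ₐ[ℚ] L) : ℚ) * d *
          φ (sym (⟨D.1, hD⟩ : Pool.Agent.H95.WH.FamSub G FinSub) x z) := by
  refine ⟨{ F := fun D n z => ∑ σ : L ≃ₐ[ℚ] L, thz_tm N φ res D (galN N (gO σ) n) z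
            add := ?_
            addz := ?_
            nat := ?_
            const := ?_
            van := ?_
            gal := ?_ }, ?_⟩
  · intro D n n' z
    rw [← Finset.sum_add_distrib]
    apply Finset.sum_congr rfl
    intro σ _
    rw [thz_galN_add, thz_tm_add]
  · intro D n z z'
    rw [← Finset.sum_add_distrib]
    apply Finset.sum_congr rfl
    intro σ _
    rw [thz_tm_mul]
  · intro D D' g h n z
    apply Finset.sum_congr rfl
    intro σ _
    rw [thz_galN_comp]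
    exact thz_tm_nat N φ res hnat D D' g h (galN N (gO σ) n) z
  · intro D k z
    apply Finset.sum_eq_zero
    intro σ _
    have : Finite D.1 := D.2.1.1
    rw [thz_galN_const]
    exact thz_tm_zero N φ res D _ z (Theta_const N D.1 _ _ _)
  · intro D n z h
    apply Finset.sum_eq_zero
    intro σ _
    have : Finite D.1 := D.2.1.1
    refine thz_tm_zero N φ res D _ z (Theta_vanish N D.1 _ _ _ (thz_galN_van N (gO σ) n _ ?_))
    intro χ m hne hmem
    apply h χ m hne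
    rw [← ringChar.spec, ← map_natCast (Ideal.Quotient.mk m.asIdeal)]
    exact Ideal.Quotient.eq_zero_iff_mem.2 hmem
  · intro D τ n z
    have h1 : ∀ σ : L ≃ₐ[ℚ] L, thz_tm N φ res D (galN N (gO σ) (galN N (gO τ) n)) z =
        thz_tm N φ res D (galN N (gO (Equiv.mulRight τ σ)) n) z := by
      intro σ
      rw [thz_galN_mul]
      rfl
    change ∑ σ : L ≃ₐ[ℚ] L, thz_tm N φ res D (galN N (gO σ) (galN N (gO τ) n)) z =
      ∑ σ : L ≃ₐ[ℚ] L, thz_tm N φ res D (galN N (gO σ) n) z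
    rw [Finset.sum_congr rfl (fun σ _ => h1 σ)]
    exact Equiv.sum_comp (Equiv.mulRight τ)
      (fun σ : L ≃ₐ[ℚ] L => thz_tm N φ res D (galN N (gO σ) n) z)
  · intro D hD n z x hx
    have h1 : ∀ σ : L ≃ₐ[ℚ] L, thz_tm N φ res D (galN N (gO σ) n) z =
        (d : ℚ) * φ (sym (⟨D.1, hD⟩ : Pool.Agent.H95.WH.FamSub G FinSub) x z) := fun σ =>
      thz_tm_val N φ res d hres D hD _ z x
        (Theta_gal_ext D.1 (comm_of_cyclic D.2.1.2) D.2.2 (gO σ) n x hx)
    change ∑ σ : L ≃ₐ[ℚ] L, thz_tm N φ res D (galN N (gO σ) n) z = _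
    rw [Finset.sum_congr rfl (fun σ _ => h1 σ), Finset.sum_const, Finset.card_univ, nsmul_eq_mul,
      mul_assoc]

end Pool.Agent.H16.KN

end

section

/-!
# Project KN, module MainA: the kernel of the assembly map on the `K₋₁`-part is a torsion group, if the relations hold

The version of `asm_torsion` (`Pool/Agent/H8/KZ/MainZ.lean`) for symbols with homology classes; `HasRel G k` is the
statement on the relations which is proved in `MainN`.
-/

set_option autoImplicit false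

open NumberField

universe u v w

namespace Pool.Agent.H16.KN

open Pool.Agent.H95.KM hiding FamSub
open Pool.Agent.H95.WH (FamSub FinSub)
open Pool.Agent.H71.FQ (HG HG.map centConj cent_comm)

theorem asm_torsionN (G : Type v) [Group G] (k : ℕ) (hrel : HasRel G k)
    (w : HnKm1 ℤ G k) (h : asmKm1 ℤ k G w = 0) : ∃ m : ℤ, m ≠ 0 ∧ m • w = 0 := by
  classical
  by_contra hcon
  push Not at hcon
  obtain ⟨M, r, C, hf, x, z, hM, hcyc, hMw⟩ := exists_cycN w
  obtain ⟨φ, hφ⟩ := Pool.Agent.H71.DB.exists_hom_rat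
    (∑ i, sym (⟨C i, hf i⟩ : FamSub G FinSub) (x i) (z i)) (by
      intro m hm h0
      rw [← hMw, ← mul_smul] at h0
      exact hcon (m * M) (mul_ne_zero hm hM) h0)
  obtain ⟨N, hN⟩ : ∃ N : ℕ, N = ∏ i, Nat.card (C i) := ⟨_, rfl⟩
  have hN0 : NeZero N := ⟨by
    rw [hN, Finset.prod_ne_zero_iff]
    intro i _
    exact Nat.card_pos.ne'⟩
  have hdvd : ∀ i, Nat.card (C i) ∣ N := fun i => by
    rw [hN]
    exact Finset.dvd_prod_of_mem _ (Finset.mem_univ i)
  have h1 : HasEnoughRootsOfUnity (𝓞 (CyclotomicField N ℚ)) N := enough_roots N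
  have h2 : Finite (Amod (𝓞 (CyclotomicField N ℚ)) N) := finite_Amod (𝓞 (CyclotomicField N ℚ)) N
  obtain ⟨d, res, hd, hres, hnat⟩ := exists_transfer.{v} (𝓞 (CyclotomicField N ℚ))
  obtain ⟨Λ, hΛ⟩ := exists_funN (L := CyclotomicField N ℚ) N φ d res hres hnat
  have hsurj : ∀ i, ∃ n, Km1.map (MonoidAlgebra.mapRingHom (C i)
      (Int.castRingHom (𝓞 (CyclotomicField N ℚ)))) (x i) =
      Theta N (C i) (comm_of_cyclic (hcyc i)) (hdvd i) n := fun i => Theta_surj N _ _ _ _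
  choose n hn using hsurj
  have : ∀ i, Fintype (C i) := fun i => Fintype.ofFinite _
  have hdual : ∀ i, Finite ((C i) →* (𝓞 (CyclotomicField N ℚ))ˣ) := fun i =>
    finite_dual (O := 𝓞 (CyclotomicField N ℚ)) N (comm_of_cyclic (hcyc i)) (hdvd i)
  have : ∀ i, Fintype ((C i) →* (𝓞 (CyclotomicField N ℚ))ˣ) := fun i => Fintype.ofFinite _
  have hsum : ∑ i, pr (𝓞 (CyclotomicField N ℚ)) k (C i).subtype
      (Subgroup.centralizer (C i : Set G)).subtype (cent_comm (C i))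
      (Theta N (C i) (comm_of_cyclic (hcyc i)) (hdvd i) (n i)) (z i) = 0 := by
    have h3 : ∑ i, pr ℤ k (C i).subtype (Subgroup.centralizer (C i : Set G)).subtype
        (cent_comm (C i)) (x i) (z i) = 0 := by
      have h4 : asmKm1 ℤ k G (M • w) = 0 := by rw [map_zsmul, h, smul_zero]
      rw [hMw, map_sum] at h4
      rw [← h4]
      refine Finset.sum_congr rfl fun i _ => ?_
      exact (asmKm1_sym ℤ k G (⟨C i, hf i⟩ : FamSub G FinSub) (x i) (z i)).symm
    have h5 := congrArg (LKQ.map (n := k) (MonoidAlgebra.mapRingHom G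
      (Int.castRingHom (𝓞 (CyclotomicField N ℚ))))) h3
    rw [map_sum, map_zero] at h5
    rw [← h5]
    refine Finset.sum_congr rfl fun i _ => ?_
    rw [map_pr, hn i]
  have key := linalgN' N (fun m => ringChar (Amod (𝓞 (CyclotomicField N ℚ)) N ⧸ m.asIdeal)) Λ
    (fun i => (⟨C i, ⟨hf i, hcyc i⟩, hdvd i⟩ : Good G N)) n z
    (hrel N (Fin r) (fun i => (⟨C i, ⟨hf i, hcyc i⟩, hdvd i⟩ : Good G N)) n z hsum)
  have h6 : ∀ i, Λ.F (⟨C i, ⟨hf i, hcyc i⟩, hdvd i⟩ : Good G N) (n i) (z i) =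
      (Fintype.card (CyclotomicField N ℚ ≃ₐ[ℚ] CyclotomicField N ℚ) : ℚ) * d *
        φ (sym (⟨C i, hf i⟩ : FamSub G FinSub) (x i) (z i)) := fun i =>
    hΛ (⟨C i, ⟨hf i, hcyc i⟩, hdvd i⟩ : Good G N) (hf i) (n i) (z i) (x i) (hn i)
  rw [Finset.sum_congr rfl fun i _ => h6 i, ← Finset.mul_sum, ← map_sum] at key
  rcases mul_eq_zero.1 key with h7 | h7
  · rcases mul_eq_zero.1 h7 with h8 | h8
    · exact Fintype.card_ne_zero (Nat.cast_eq_zero.1 h8)
    · exact hd.ne' (Nat.cast_eq_zero.1 h8)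
  · exact hφ h7

end Pool.Agent.H16.KN

end
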