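import Pool.Agent.H13.TFQ.H16.KN.Defs2
import Pool.Agent.H13.TFQ.H39.KL.Tp
import Pool.Agent.H13.TFQ.H71.FQ.St3
import Pool.Agent.H13.TFQ.M23
import Pool.Agent.H13.TFQ.M29
import Pool.Agent.H13.TFQ.M51
import Pool.Agent.H13.TFQ.M73
import Pool.Agent.H13.TFQ.M74

/-! The parts of this file: H39.KL.Tp_1, H71.FQ.StK, H8.KL.LocL. -/

section

/-!
# Project KL: the product with the class of `t`

`tp A n : KQ A n → KQ (A[t, t⁻¹]) (n + 1)` is the product with the class of the unit `t`: the class of `z ∈ H_{n+1}(GL_N(A))`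
goes to the class of the product (`HG.cr`) of its image in the homology of `GL_N(A[t, t⁻¹])` with the scalar matrix `t`.

PROOFS.  `tp`: `KQ.lift`; the block relation is `cls_cr_blk` of `FU/Asm1.lean` (private there, copy it): for
`w ∈ H(GL_N × GL_M)` `HG.cr` for `blk (mapGL pr₁ , mapGL pr₂)` and the element `blk (t, t)` (`HG.map_cr`, `KQ.cls_blk`,
`HG.cr_comp`).  `map_tp`: `HG.map_cr`.  `tp_pos`, `tp_neg` are not needed.
`mono1`: the class of the image of `H_{n+1}(G)` under `G → GL_1(R[G])`.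
-/

set_option autoImplicit false

open Matrix
open scoped LaurentPolynomial

universe u v w

namespace Pool.Agent.H39.KL

open Pool.Agent.H71.FQ Pool.Agent.H16.KN Pool.Agent.H16.FU
open Pool.Agent.H95.KM (lau lau_single)

section

variable (A : Type u) [Ring A]

private theorem cr_congr {Γ : Type w} [Group Γ] {n : ℕ} {Λ : Type*} [Group Λ] {f f' : Γ →* Λ}
    {u u' : Λ} (e : f = f') (e' : u = u') (hu : ∀ γ, f γ * u = u * f γ)
    (hu' : ∀ γ, f' γ * u' = u' * f' γ) (z : HG Γ n) : HG.cr f u hu z = HG.cr f' u' hu' z := by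
  subst e
  subst e'
  rfl

variable {A}

theorem map_tp {A' : Type v} [Ring A'] (f : A →+* A') (n : ℕ) (x : KQ A n) :
    KQ.map (lau f) (tp A n x) = tp A' n (KQ.map f x) := by
  suffices h : (KQ.map (lau f)).comp (tp A n) = (tp A' n).comp (KQ.map f) from
    DFunLike.congr_fun h x
  apply KQ.hom_ext
  intro N z
  have e1 : (mapGL (lau f) N).comp (cS A N) = (cS A' N).comp (mapGL f N) := by
    refine MonoidHom.ext fun γ => Units.ext (Matrix.ext fun i j => ?_)
    exact lau_single f 0 (γ.val i j)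
  have e2 : mapGL (lau f) N (tS A N) = tS A' N := by
    refine Units.ext ?_
    change (diagonal fun _ : Fin N => (LaurentPolynomial.T 1 : A[T;T⁻¹])).map (lau f) =
      diagonal fun _ : Fin N => (LaurentPolynomial.T 1 : A'[T;T⁻¹])
    rw [Matrix.diagonal_map (map_zero (lau f))]
    congr 1
    funext i
    exact (lau_single f 1 (1 : A)).trans (congrArg _ (map_one f))
  have hc : ∀ γ, ((mapGL (lau f) N).comp (cS A N)) γ * mapGL (lau f) N (tS A N) =
      mapGL (lau f) N (tS A N) * ((mapGL (lau f) N).comp (cS A N)) γ := by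
    intro γ
    rw [MonoidHom.comp_apply, ← map_mul, ← map_mul, tS_comm]
  rw [AddMonoidHom.comp_apply, AddMonoidHom.comp_apply, tp_cls, KQ.map_cls, KQ.map_cls, tp_cls,
    HG.map_cr (cS A N) (mapGL (lau f) N) (tS A N) (tS_comm A N) hc z,
    ← HG.cr_comp (cS A' N) (mapGL f N) (tS A' N) (tS_comm A' N) (fun γ => tS_comm A' N _) z]
  exact congrArg _ (cr_congr e1 e2 _ _ z)

end

section

theorem map_mono1 {R : Type u} [Ring R] {R' : Type w} [Ring R'] (f : R →+* R') (G : Type v)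
    [Group G] (n : ℕ) (y : HG G n) :
    KQ.map (MonoidAlgebra.mapRingHom G f) (mono1 R G n y) = mono1 R' G n y := by
  have e : (mapGL (MonoidAlgebra.mapRingHom G f) 1).comp (scal 1 (grpHom R G)) =
      scal 1 (grpHom R' G) := by
    refine MonoidHom.ext fun γ => Units.ext ?_
    change (diagonal fun _ : Fin 1 => (MonoidAlgebra.single γ 1 : MonoidAlgebra R G)).map
        (MonoidAlgebra.mapRingHom G f) =
      diagonal fun _ : Fin 1 => (MonoidAlgebra.single γ 1 : MonoidAlgebra R' G)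
    rw [Matrix.diagonal_map (map_zero (MonoidAlgebra.mapRingHom G f))]
    congr 1
    funext i
    change MonoidAlgebra.mapRingHom G f (MonoidAlgebra.single γ 1) = MonoidAlgebra.single γ 1
    rw [MonoidAlgebra.mapRingHom_single, map_one]
  rw [mono1, mono1, AddMonoidHom.comp_apply, AddMonoidHom.comp_apply, KQ.map_cls, HG.map_map, e]

/-- **The assembly map** on the parts `H_{k+2}(G; ℤ)`, `K₁` and `K₋₁` of the rational source in degree `k + 2`. -/
noncomputable def asmAll (G : Type v) [Group G] (k : ℕ) :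
    HG G (k + 1) × HnK1 ℤ G k × HnKm1 ℤ G (k + 2) →+ LKQ (MonoidAlgebra ℤ G) (k + 2) :=
  ((LKQ.mk.comp (tp (MonoidAlgebra ℤ G) (k + 1))).comp (mono1 ℤ G (k + 1))).coprod
    (((LKQ.mk.comp (tp (MonoidAlgebra ℤ G) (k + 1))).comp (assembly1 ℤ k G)).coprod
      (asmKm1 ℤ (k + 2) G))

end

end Pool.Agent.H39.KL

end

section

/-!
# Comparison of the definitions over `ℤ`: the target and the homology groups
-/

set_option autoImplicit false

open Matrix
open scoped LaurentPolynomial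

universe u v w

namespace Pool.Agent.H71.FQ3

open Pool.Agent.H71.FQS (Ch bd push coi bnd Cyc GLm blkM RF Cent KQ toHG toHG_surjective fromK fromK_cls toK toK_mk toK_fromK map_toHG map_toHG' toHG_add toHG_bnd)
open Pool.Agent.H71.FQ1 (pri IsCyc HSym1 HnK1)
open Pool.Agent.H71.FQ (HG mapGL)
open Pool.Agent.H95.KM (posHom negHom posHom_monomial negHom_monomial lau)
open Pool.Agent.H16.KN (LKQ LKQ.mk LKQ.lift LKQ.mk_pos LKQ.mk_neg LKQ.mk_surjective PSepA)

section

variable {A : Type u} [Ring A] {n : ℕ}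

theorem pol_one (f : Polynomial A) : (pol 1 f : Lau A) = posHom A f := by
  conv_rhs => rw [f.as_sum_support, map_sum]
  rw [pol, Polynomial.sum_def]
  refine Finset.sum_congr rfl fun i _ => ?_
  rw [posHom_monomial, one_mul]
  rfl

theorem pol_neg (f : Polynomial A) : (pol (-1) f : Lau A) = negHom A f := by
  conv_rhs => rw [f.as_sum_support, map_sum]
  rw [pol, Polynomial.sum_def]
  refine Finset.sum_congr rfl fun i _ => ?_
  rw [negHom_monomial, neg_one_mul]
  rfl

/-- the class in the quotient -/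
noncomputable def qmk : KQ (Lau A) n →+ LQ A n := QuotientAddGroup.mk' _

theorem fromK_map (f : Polynomial A →+* Lau A) (ε : ℤ) (hε : ε = 1 ∨ ε = -1)
    (hf : ∀ x, pol ε x = f x) (x : FQ.KQ (Polynomial A) n) :
    qmk (fromK (A := Lau A) (FQ.KQ.map f x)) = 0 := by
  suffices h : ((qmk (A := A) (n := n)).comp (fromK (A := Lau A))).comp (FQ.KQ.map f) = 0 from
    DFunLike.congr_fun h x
  apply FQ.KQ.hom_ext
  intro N x
  obtain ⟨z, rfl⟩ := toHG_surjective x
  rw [AddMonoidHom.comp_apply, AddMonoidHom.comp_apply, FQ.KQ.map_cls, map_toHG']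
  rw [AddMonoidHom.zero_apply]
  refine (congrArg qmk (fromK_cls (A := Lau A) N (z.map (mapGL f N)))).trans ?_
  refine (QuotientAddGroup.eq_zero_iff _).2 (AddSubgroup.subset_closure
    ⟨ε, N, z, mapGL f N, z.map (mapGL f N), hε, fun u i j => ?_, rfl, rfl⟩)
  exact (hf _).symm

variable (A n) in
/-- the comparison homomorphism of the targets -/
noncomputable def fromLQ : LKQ A n →+ LQ A n :=
  LKQ.lift (qmk.comp (fromK (A := Lau A)))
    (fromK_map (posHom A) 1 (Or.inl rfl) pol_one)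
    (fromK_map (negHom A) (-1) (Or.inr rfl) pol_neg)

theorem fromLQ_mk (x : FQ.KQ A[T;T⁻¹] n) : fromLQ A n (LKQ.mk x) = qmk (fromK (A := Lau A) x) :=
  rfl

theorem fromLQ_cls (N : ℕ) (z : Cyc (GLm N (Lau A)) n) :
    fromLQ A n (LKQ.mk (FQ.KQ.cls A[T;T⁻¹] n N (toHG z))) = LQ.mk N z :=
  congrArg qmk (fromK_cls (A := Lau A) N z)

theorem toK_rel {y : KQ (Lau A) n} (h : y ∈ lRel A n) :
    LKQ.mk (A := A) (toK (A := Lau A) y) = 0 := by
  obtain ⟨ε, N, z, β, z', hε, hβ, hz, rfl⟩ := h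
  refine (congrArg (LKQ.mk (A := A)) (toK_mk (A := Lau A) N z')).trans ?_
  rcases hε with rfl | rfl
  · have h1 : β = mapGL (A' := Lau A) (posHom A) N := funext fun u => Units.ext
      (Matrix.ext fun i j => (hβ u i j).trans (pol_one _))
    subst h1
    refine (congrArg (LKQ.mk (A := A)) ?_).trans (LKQ.mk_pos (FQ.KQ.cls (Polynomial A) n N (toHG z)))
    exact (congrArg (FQ.KQ.cls (Lau A) n N) (map_toHG (mapGL (A' := Lau A) (posHom A) N)
      hz).symm).trans (FQ.KQ.map_cls (posHom A) N (toHG z)).symm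
  · have h1 : β = mapGL (A' := Lau A) (negHom A) N := funext fun u => Units.ext
      (Matrix.ext fun i j => (hβ u i j).trans (pol_neg _))
    subst h1
    refine (congrArg (LKQ.mk (A := A)) ?_).trans (LKQ.mk_neg (FQ.KQ.cls (Polynomial A) n N (toHG z)))
    exact (congrArg (FQ.KQ.cls (Lau A) n N) (map_toHG (mapGL (A' := Lau A) (negHom A) N)
      hz).symm).trans (FQ.KQ.map_cls (negHom A) N (toHG z)).symm

variable (A n) in
/-- the comparison homomorphism in the other direction -/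
noncomputable def toLQ : LQ A n →+ LKQ A n :=
  QuotientAddGroup.lift _ ((LKQ.mk (A := A)).comp (toK (A := Lau A))) (by
    rw [AddSubgroup.closure_le]
    exact fun y hy => toK_rel hy)

theorem toLQ_fromLQ (x : LKQ A n) : toLQ A n (fromLQ A n x) = x := by
  obtain ⟨x, rfl⟩ := LKQ.mk_surjective x
  rw [fromLQ_mk]
  exact congrArg LKQ.mk (toK_fromK (A := Lau A) x)

end

section

variable {Γ : Type v} [Group Γ] {n : ℕ}

theorem isCyc_iff (c : Ch Γ (n + 1)) : IsCyc Γ (n + 1) c ↔ c ∈ FQ.cyc Γ n := by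
  change bd Γ n c ∈ coi Γ n ↔ FQ.bd ℤ Γ n c ∈ FQ.coi Γ n
  rw [FQS.bd_eq, FQS.mem_coi]

theorem mem_Zn {c : Ch Γ (n + 1)} : c ∈ Zn Γ (n + 1) ↔ c ∈ FQ.cyc Γ n := by
  constructor
  · intro h
    have h1 : Zn Γ (n + 1) ≤ (FQ.cyc Γ n).toAddSubgroup := by
      rw [Zn, AddSubgroup.closure_le]
      exact fun x hx => (isCyc_iff x).1 hx
    exact h1 h
  · exact fun h => AddSubgroup.subset_closure ((isCyc_iff c).2 h)

theorem Hn.mk_surjective (x : Hn Γ (n + 1)) : ∃ z : Cyc Γ n, Hn.mk z.ch z.2 = x := by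
  obtain ⟨⟨c, hc⟩, rfl⟩ := QuotientAddGroup.mk_surjective x
  exact ⟨Cyc.of c (mem_Zn.1 hc), rfl⟩

theorem Hn.mk_eq {c c' : Ch Γ n} {h : IsCyc Γ n c} {h' : IsCyc Γ n c'} :
    Hn.mk c h = Hn.mk c' h' ↔ c - c' ∈ bnd Γ n := by
  refine (QuotientAddGroup.eq_iff_sub_mem).trans ?_
  rfl

theorem Hn.mk_add' {c c' c'' : Ch Γ n} {h : IsCyc Γ n c} {h' : IsCyc Γ n c'}
    {h'' : IsCyc Γ n c''} (e : c'' = c + c') : Hn.mk c'' h'' = Hn.mk c h + Hn.mk c' h' := by
  subst e
  rfl

theorem Hn.mk_bnd {c : Ch Γ n} {h : IsCyc Γ n c} (hc : c ∈ bnd Γ n) : Hn.mk c h = 0 :=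
  (QuotientAddGroup.eq_zero_iff _).2 hc

theorem exists_hnHG : ∃ f : Hn Γ (n + 1) →+ HG Γ n, ∀ z : Cyc Γ n, f (Hn.mk z.ch z.2) = toHG z := by
  choose g hg using Hn.mk_surjective (Γ := Γ) (n := n)
  have h3 : ∀ z z' : Cyc Γ n, Hn.mk z.ch z.2 = Hn.mk z'.ch z'.2 → toHG z = toHG z' :=
    fun z z' h => FQS.toHG_eq_iff.2 (Hn.mk_eq.1 h)
  refine ⟨AddMonoidHom.mk' (fun x => toHG (g x)) fun x y => ?_, fun z => h3 _ _ (hg _)⟩
  rw [← toHG_add (z'' := Cyc.of ((g x).ch + (g y).ch) (Submodule.add_mem _ (g x).mem (g y).mem))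
    rfl]
  apply h3
  rw [hg]
  refine Eq.trans (congrArg₂ (· + ·) (hg x).symm (hg y).symm) ?_
  rfl

/-- the comparison homomorphism of the homology groups -/
noncomputable def hnHG : Hn Γ (n + 1) →+ HG Γ n := (exists_hnHG (Γ := Γ) (n := n)).choose

theorem hnHG_mk (z : Cyc Γ n) : hnHG (Hn.mk z.ch z.2) = toHG z :=
  (exists_hnHG (Γ := Γ) (n := n)).choose_spec z

theorem exists_hgHn : ∃ f : HG Γ n →+ Hn Γ (n + 1), ∀ z : Cyc Γ n, f (toHG z) = Hn.mk z.ch z.2 :=
  FQS.exists_lift (fun z => Hn.mk z.ch z.2) (fun z z' z'' h => Hn.mk_add' h)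
    fun z h => Hn.mk_bnd h

/-- the comparison homomorphism in the other direction -/
noncomputable def hgHn : HG Γ n →+ Hn Γ (n + 1) := (exists_hgHn (Γ := Γ) (n := n)).choose

theorem hgHn_toHG (z : Cyc Γ n) : hgHn (toHG z) = Hn.mk z.ch z.2 :=
  (exists_hgHn (Γ := Γ) (n := n)).choose_spec z

theorem hgHn_hnHG (x : Hn Γ (n + 1)) : hgHn (hnHG x) = x := by
  obtain ⟨z, rfl⟩ := Hn.mk_surjective x
  rw [hnHG_mk, hgHn_toHG]

theorem hnHG_hgHn (x : HG Γ n) : hnHG (hgHn x) = x := by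
  obtain ⟨z, rfl⟩ := toHG_surjective x
  rw [hgHn_toHG, hnHG_mk]

theorem psepA_of {p : ℕ} (h : LSep p Γ (n + 1)) : PSepA p (HG Γ n) := by
  intro x hx
  obtain ⟨m, hm, h1⟩ := h (hgHn x) fun f hf => hx (f.comp hgHn) fun y => hf _
  refine ⟨m.natAbs, Int.natAbs_ne_zero.2 hm, ?_⟩
  have h2 : m • x = 0 := by
    rw [← hnHG_hgHn (m • x), map_zsmul hgHn, h1, map_zero]
  rcases Int.natAbs_eq m with h3 | h3
  · rw [h3, natCast_zsmul] at h2
    exact h2
  · rw [h3, neg_smul, natCast_zsmul, neg_eq_zero] at h2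
    exact h2

end

section

variable {Γ : Type v} [Group Γ]

/-- the class of the base point -/
noncomputable def ptH (Γ : Type v) [Group Γ] : Hn Γ 0 :=
  Hn.mk (Finsupp.single (fun _ => 1) 1) trivial

end

end Pool.Agent.H71.FQ3

end

section

/-!
# Project KN/KL: classes of `LKQ A n` which die over a larger ring

A class of `LKQ A' n` which dies in `LKQ A n` dies in `LKQ A'' n` for every ring `A''` between `A'` and `A` which
contains a finite set.
-/

set_option autoImplicit false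

open Matrix
open scoped LaurentPolynomial

universe u v w w'

namespace Pool.Agent.H8.KL

open Pool.Agent.H71.FQ (HG HG.map KQ KQ.map KQ.cls KQ.mk KQ.mk_surjective KQ.map_mk KQ.mk_eq_zero KQ.exists_zero SumH SumH.map incH prS exists_sum exists_mapGL_finset mapGL mapGL_injective exists_factor GLm)
open Pool.Agent.H16.KN
open Pool.Agent.H95.KM (posHom negHom lau lau_posHom lau_negHom lau_comp lau_single lau_injective exists_lau)

section

variable {A : Type u} [Ring A] {A' : Type v} [Ring A'] {n : ℕ}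

/-- **Every class of `KQ A n` comes from the rings which contain a finite set.** -/
theorem KQ_exists_lift (y : KQ A n) :
    ∃ S : Finset A, ∀ {A'' : Type w} [Ring A''] (g : A'' →+* A),
      Function.Injective g → (∀ a ∈ S, a ∈ Set.range g) → ∃ y' : KQ A'' n, KQ.map g y' = y := by
  classical
  obtain ⟨s, rfl⟩ := KQ.mk_surjective y
  obtain ⟨T, hT⟩ := exists_sum s
  choose S0 h0 using fun N => Pool.Agent.H71.FQ.HG.exists_lift'.{u, w} (prS A n N s)
  choose S1 h1 using fun N => exists_mapGL_finset.{u, w} (S0 N)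
  refine ⟨T.biUnion S1, ?_⟩
  intro A'' _ g hg h
  have h2 : ∀ N, ∃ y : HG (GLm N A'') n, N ∈ T → HG.map n (mapGL g N) y = prS A n N s := by
    intro N
    by_cases hN : N ∈ T
    · obtain ⟨y, hy⟩ := h0 N (mapGL g N) (mapGL_injective hg N)
        (h1 N g hg fun a ha => h a (Finset.mem_biUnion.2 ⟨N, hN, ha⟩))
      exact ⟨y, fun _ => hy⟩
    · exact ⟨0, fun h' => absurd h' hN⟩
  choose y hy using h2
  refine ⟨KQ.mk A'' n (∑ N ∈ T, incH A'' n N (y N)), ?_⟩
  rw [KQ.map_mk, map_sum]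
  congr 1
  conv_rhs => rw [hT]
  refine Finset.sum_congr rfl fun N hN => ?_
  rw [Pool.Agent.H71.FQ.SumH.map_incH, hy N hN]

theorem mem_range_pol {A : Type u} [Ring A] {A'' : Type w} [Ring A''] (g : A'' →+* A)
    (p : Polynomial A) (h : ∀ i, p.coeff i ∈ Set.range g) :
    p ∈ Set.range (Polynomial.mapRingHom g) := by
  have h1 : p ∈ Polynomial.lifts g := by
    rw [Polynomial.lifts_iff_coeff_lifts]
    exact h
  rw [Polynomial.mem_lifts] at h1
  obtain ⟨q, hq⟩ := h1
  exact ⟨q, hq⟩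

/-- the coefficients of a finite set of polynomials -/
theorem exists_coeffs_pol {A : Type u} [Ring A] (S : Finset (Polynomial A)) : ∃ C : Finset A,
    ∀ {A'' : Type w} [Ring A''] (g : A'' →+* A), (∀ a ∈ C, a ∈ Set.range g) →
      ∀ p ∈ S, p ∈ Set.range (Polynomial.mapRingHom g) := by
  classical
  refine ⟨S.biUnion fun p => p.support.image p.coeff, ?_⟩
  intro A'' _ g h p hp
  refine mem_range_pol g p fun i => ?_
  by_cases hi : i ∈ p.support
  · exact h _ (Finset.mem_biUnion.2 ⟨p, hp, Finset.mem_image_of_mem _ hi⟩)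
  · rw [Polynomial.mem_support_iff, not_not] at hi
    exact ⟨0, by rw [map_zero, hi]⟩

/-- the coefficients of a finite set of Laurent polynomials -/
theorem exists_coeffs_lau {A : Type u} [Ring A] (S : Finset A[T;T⁻¹]) : ∃ C : Finset A,
    ∀ {A'' : Type w} [Ring A''] (g : A'' →+* A), (∀ a ∈ C, a ∈ Set.range g) →
      ∀ p ∈ S, p ∈ Set.range (lau g) := by
  classical
  refine ⟨S.biUnion fun p => p.coeff.support.image p.coeff, ?_⟩
  intro A'' _ g h p hp
  refine exists_lau p fun i => ?_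
  by_cases hi : i ∈ p.coeff.support
  · exact h _ (Finset.mem_biUnion.2 ⟨p, hp, Finset.mem_image_of_mem _ hi⟩)
  · rw [Finsupp.mem_support_iff, not_not] at hi
    exact ⟨0, by rw [map_zero, hi]⟩

theorem mapRingHom_injective {A : Type u} [Ring A] {A'' : Type w} [Ring A''] {g : A'' →+* A}
    (hg : Function.Injective g) : Function.Injective (Polynomial.mapRingHom g) :=
  Polynomial.map_injective g hg

/-- **A class of `LKQ A' n` which dies in `LKQ A n` dies over the rings which contain a finite set.** -/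
theorem LKQ_exists_zero (f : A' →+* A) (y : LKQ A' n) (hy : LKQ.map f y = 0) :
    ∃ S : Finset A, ∀ {A'' : Type w} [Ring A''] (g : A'' →+* A) (k : A' →+* A''),
      Function.Injective g → g.comp k = f → (∀ a ∈ S, a ∈ Set.range g) →
        LKQ.map k y = 0 := by
  classical
  obtain ⟨x, rfl⟩ := LKQ.mk_surjective y
  rw [LKQ.map_mk, LKQ.mk_eq_zero_iff] at hy
  obtain ⟨a, b, hab⟩ := hy
  obtain ⟨S1, h1⟩ := KQ_exists_lift.{u, u} a
  obtain ⟨S2, h2⟩ := KQ_exists_lift.{u, u} b
  obtain ⟨C1, c1⟩ := exists_coeffs_pol.{u, u} S1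
  obtain ⟨C2, c2⟩ := exists_coeffs_pol.{u, u} S2
  let B : Subring A := Subring.closure (Set.range f ∪ ((C1 ∪ C2 : Finset A) : Set A))
  have hfB : ∀ a, f a ∈ B := fun a => Subring.subset_closure (Or.inl ⟨a, rfl⟩)
  have hCB : ∀ a ∈ C1 ∪ C2, a ∈ Set.range B.subtype := fun a ha =>
    ⟨⟨a, Subring.subset_closure (Or.inr ha)⟩, rfl⟩
  let f1 : A' →+* B := f.codRestrict B hfB
  have hf1 : B.subtype.comp f1 = f := RingHom.ext fun a => rfl
  obtain ⟨a1, ha1⟩ := h1 (Polynomial.mapRingHom B.subtype)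
    (mapRingHom_injective Subtype.val_injective)
    (c1 B.subtype fun a ha => hCB a (Finset.mem_union_left _ ha))
  obtain ⟨b1, hb1⟩ := h2 (Polynomial.mapRingHom B.subtype)
    (mapRingHom_injective Subtype.val_injective)
    (c2 B.subtype fun a ha => hCB a (Finset.mem_union_right _ ha))
  have h3 : KQ.map (lau B.subtype) (KQ.map (lau f1) x -
      (KQ.map (posHom B) a1 + KQ.map (negHom B) b1)) = 0 := by
    rw [map_sub, map_add, KQ_map_map, KQ_map_map, KQ_map_map, lau_posHom, lau_negHom,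
      ← KQ_map_map (posHom A), ← KQ_map_map (negHom A), ha1, hb1, hab, ← lau_comp, hf1, sub_self]
  obtain ⟨S3, h4⟩ := KQ.exists_zero.{u, u, w} (lau B.subtype) _ h3
  obtain ⟨C3, c3⟩ := exists_coeffs_lau.{u, w} S3
  refine ⟨(C1 ∪ C2) ∪ C3, ?_⟩
  intro A'' _ g k hg hgk h
  have hB : B ≤ g.range := by
    rw [Subring.closure_le]
    rintro a (⟨b, rfl⟩ | ha)
    · exact ⟨k b, RingHom.congr_fun hgk b⟩
    · exact h a (Finset.mem_union_left _ ha)
  obtain ⟨k1, hk1⟩ := exists_factor g hg B hB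
  have h5 := h4 (lau g) (lau k1) (lau_injective hg) (by rw [← lau_comp, hk1])
    (c3 g fun a ha => h a (Finset.mem_union_right _ ha))
  have h6 : k1.comp f1 = k := by
    refine RingHom.ext fun a => hg ?_
    have h6 := RingHom.congr_fun hk1 (f1 a)
    have h7 := RingHom.congr_fun hgk a
    exact h6.trans h7.symm
  rw [map_sub, map_add, KQ_map_map, KQ_map_map, KQ_map_map, lau_posHom, lau_negHom,
      ← KQ_map_map (posHom A''), ← KQ_map_map (negHom A''), ← lau_comp, h6, sub_eq_zero] at h5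
  rw [LKQ.map_mk, LKQ.mk_eq_zero_iff]
  exact ⟨_, _, h5.symm⟩

end

end Pool.Agent.H8.KL

end
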