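import Pool.Agent.H13.TFQ.H16.KN.Chn_1
import Pool.Agent.H13.TFQ.H71.FQ.LocF
import Pool.Agent.H13.TFQ.M106
import Pool.Agent.H13.TFQ.M92
import Pool.Agent.H13.TFQ.M97

/-! The parts of this file: H8.KL.LocN, H16.KN.J5, H39.KL.Zero. -/

section

/-!
# Project KN/KL: functoriality of the source of the assembly map in the group, the `K₋₁`-part

As `Pool/Agent/H71/FU1/LocF1.lean` with `K₋₁` in place of `K₁`.
-/

set_option autoImplicit false

open Matrix

universe u v w

namespace Pool.Agent.H8.KL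

open Pool.Agent.H71.FQ (HG HG.map HG.map_map HG.map_id HG.exists_lift rangeF centRestrict centConj cent_comm comm_map KQ KQ.map grpHom grpHom_comm)
open Pool.Agent.H16.KN
open Pool.Agent.H95.KM (Km1 Km1.map Km1.map_map ind)
open Pool.Agent.H95.WH (FamSub conjHom FinSub)

theorem ind_ind (R : Type u) [Ring R] {F F' F'' : Type*} [Group F] [Group F'] [Group F'']
    (φ : F' →* F'') (ψ : F →* F') (x : Km1 (MonoidAlgebra R F)) :
    ind R φ (ind R ψ x) = ind R (φ.comp ψ) x := by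
  rw [ind, ind, ind, Km1.map_map, ← MonoidAlgebra.mapDomainRingHom_comp]

section

variable {R : Type u} [Ring R] {G : Type v} [Group G] {n : ℕ}

variable {H : Type*} [Group H] [Finite H] {Γ : Type w} [Group Γ]

/-- The class of a pair of commuting homomorphisms. -/
noncomputable def gsymN (f : H →* G) (κ : Γ →* G) (h : ∀ γ a, f a * κ γ = κ γ * f a)
    (x : Km1 (MonoidAlgebra R H)) (z : HG Γ n) : HnKm1 R G n :=
  sym (rangeF f) (ind R f.rangeRestrict x)
    (HG.map n (centRestrict f κ h) z)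

theorem gsymN_add_left (f : H →* G) (κ : Γ →* G) (h : ∀ γ a, f a * κ γ = κ γ * f a)
    (x y : Km1 (MonoidAlgebra R H)) (z : HG Γ n) :
    gsymN f κ h (x + y) z = gsymN f κ h x z + gsymN f κ h y z := by
  rw [gsymN, map_add, sym_add]
  rfl

theorem gsymN_add_right (f : H →* G) (κ : Γ →* G) (h : ∀ γ a, f a * κ γ = κ γ * f a)
    (x : Km1 (MonoidAlgebra R H)) (z z' : HG Γ n) :
    gsymN f κ h x (z + z') = gsymN f κ h x z + gsymN f κ h x z' := by
  rw [gsymN, map_add, sym_addz]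
  rfl

/-- the biadditive map -/
noncomputable def gsymBN (f : H →* G) (κ : Γ →* G) (h : ∀ γ a, f a * κ γ = κ γ * f a) :
    Km1 (MonoidAlgebra R H) →+ HG Γ n →+ HnKm1 R G n :=
  AddMonoidHom.mk' (fun x => AddMonoidHom.mk' (fun z => gsymN f κ h x z)
    (fun z z' => gsymN_add_right f κ h x z z')) (by
      intro x y
      ext z
      exact gsymN_add_left f κ h x y z)

theorem gsymN_comp {H' : Type*} [Group H'] [Finite H'] (f : H →* G) (ψ : H' →* H) (κ : Γ →* G)
    (h : ∀ γ a, f a * κ γ = κ γ * f a) (h' : ∀ γ a, (f.comp ψ) a * κ γ = κ γ * (f.comp ψ) a)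
    (x : Km1 (MonoidAlgebra R H')) (z : HG Γ n) :
    gsymN f κ h (ind R ψ x) z =
      gsymN (f.comp ψ) κ h' x z := by
  have hr : ∀ x ∈ (rangeF (f.comp ψ)).1, (1 : G) * x * (1 : G)⁻¹ ∈ (rangeF f).1 := by
    rintro _ ⟨a, rfl⟩
    rw [one_mul, inv_one, mul_one]
    exact ⟨ψ a, rfl⟩
  have e1 : f.rangeRestrict.comp ψ = (conjHom 1 (rangeF (f.comp ψ)).1 (rangeF f).1 hr).comp
        (f.comp ψ).rangeRestrict := by
    refine MonoidHom.ext fun a => Subtype.ext ?_
    change f (ψ a) = 1 * f (ψ a) * 1⁻¹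
    rw [one_mul, inv_one, mul_one]
  have e2 : (centConj 1 (rangeF (f.comp ψ)).1 (rangeF f).1 hr).comp (centRestrict f κ h) =
      centRestrict (f.comp ψ) κ h' := by
    refine MonoidHom.ext fun a => Subtype.ext ?_
    change (1 : G)⁻¹ * κ a * 1 = κ a
    rw [inv_one, one_mul, mul_one]
  rw [gsymN, gsymN, ind_ind, e1]
  change sym (rangeF f) (ind R ((conjHom 1 (rangeF (f.comp ψ)).1 (rangeF f).1 hr).comp
    (f.comp ψ).rangeRestrict) x) _ = _
  rw [← ind_ind, sym_conj, HG.map_map, e2]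

theorem gsymN_map {Γ' : Type*} [Group Γ'] (f : H →* G) (κ : Γ →* G) (ψ : Γ' →* Γ)
    (h : ∀ γ a, f a * κ γ = κ γ * f a) (h' : ∀ γ a, f a * (κ.comp ψ) γ = (κ.comp ψ) γ * f a)
    (x : Km1 (MonoidAlgebra R H)) (z : HG Γ' n) :
    gsymN f κ h x (HG.map n ψ z) = gsymN f (κ.comp ψ) h' x z := by
  rw [gsymN, gsymN, HG.map_map]
  rfl

theorem gsymN_conj (f f' : H →* G) (κ κ' : Γ →* G) (g : G) (h : ∀ γ a, f a * κ γ = κ γ * f a)
    (h' : ∀ γ a, f' a * κ' γ = κ' γ * f' a) (hf : ∀ a, f' a = g * f a * g⁻¹)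
    (hκ : ∀ γ, κ' γ = g * κ γ * g⁻¹) (x : Km1 (MonoidAlgebra R H)) (z : HG Γ n) :
    gsymN f' κ' h' x z = gsymN f κ h x z := by
  have hr : ∀ x ∈ (rangeF f).1, g * x * g⁻¹ ∈ (rangeF f').1 := by
    rintro _ ⟨a, rfl⟩
    exact ⟨a, hf a⟩
  have e1 : f'.rangeRestrict = (conjHom g (rangeF f).1 (rangeF f').1 hr).comp f.rangeRestrict :=
    MonoidHom.ext fun a => Subtype.ext (hf a)
  have e2 : (centConj g (rangeF f).1 (rangeF f').1 hr).comp (centRestrict f' κ' h') =
      centRestrict f κ h := by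
    refine MonoidHom.ext fun a => Subtype.ext ?_
    change g⁻¹ * κ' a * g = κ a
    rw [hκ]
    group
  rw [gsymN, gsymN, e1]
  change sym (rangeF f') (ind R ((conjHom g (rangeF f).1 (rangeF f').1 hr).comp
    f.rangeRestrict) x) _ = _
  rw [← ind_ind, sym_conj, HG.map_map, e2]

/-- the class of a symbol is the class of the inclusions -/
theorem sym_eq_gsymN (F : FamSub G FinSub) (x : Km1 (MonoidAlgebra R F.1))
    (z : HG (Subgroup.centralizer (F.1 : Set G)) n) (hF : Finite F.1) :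
    sym F x z = gsymN F.1.subtype (Subgroup.centralizer (F.1 : Set G)).subtype
      (cent_comm F.1) x z := by
  have hr : ∀ x ∈ F.1, (1 : G) * x * (1 : G)⁻¹ ∈ (rangeF F.1.subtype).1 := by
    intro a ha
    rw [one_mul, inv_one, mul_one]
    exact ⟨⟨a, ha⟩, rfl⟩
  have e1 : F.1.subtype.rangeRestrict = conjHom 1 F.1 (rangeF F.1.subtype).1 hr := by
    refine MonoidHom.ext fun a => Subtype.ext ?_
    change (a : G) = 1 * a * 1⁻¹
    rw [one_mul, inv_one, mul_one]
  have e2 : (centConj 1 F.1 (rangeF F.1.subtype).1 hr).comp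
      (centRestrict F.1.subtype (Subgroup.centralizer (F.1 : Set G)).subtype (cent_comm F.1)) =
      MonoidHom.id _ := by
    refine MonoidHom.ext fun a => Subtype.ext ?_
    change (1 : G)⁻¹ * a * 1 = a
    rw [inv_one, one_mul, mul_one]
  rw [gsymN, e1]
  change _ = sym (rangeF F.1.subtype) (ind R (conjHom 1 F.1 (rangeF F.1.subtype).1 hr) x) _
  rw [sym_conj, HG.map_map, e2, HG.map_id]

end

section

variable (R : Type u) [Ring R] (n : ℕ) {G : Type v} [Group G] {G' : Type w} [Group G']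

/-- the image of a symbol as a biadditive map -/
noncomputable def symFN (φ : G →* G') (F : FamSub G FinSub) : Km1 (MonoidAlgebra R F.1) →+
    HG (Subgroup.centralizer (F.1 : Set G)) n →+ HnKm1 R G' n :=
  have : Finite F.1 := F.2
  gsymBN (φ.comp F.1.subtype) (φ.comp (Subgroup.centralizer (F.1 : Set G)).subtype)
    (comm_map φ F.1)

theorem symFN_conj (φ : G →* G') (F F' : FamSub G FinSub) (g : G)
    (h : ∀ x ∈ F.1, g * x * g⁻¹ ∈ F'.1) (x : Km1 (MonoidAlgebra R F.1))
    (z : HG (Subgroup.centralizer (F'.1 : Set G)) n) :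
    symFN R n φ F' (ind R (conjHom g F.1 F'.1 h) x) z =
      symFN R n φ F x (HG.map n (centConj g F.1 F'.1 h) z) := by
  have : Finite F.1 := F.2
  have : Finite F'.1 := F'.2
  change gsymN (φ.comp F'.1.subtype) (φ.comp (Subgroup.centralizer (F'.1 : Set G)).subtype)
      (comm_map φ F'.1) (ind R (conjHom g F.1 F'.1 h) x) z =
    gsymN (φ.comp F.1.subtype) (φ.comp (Subgroup.centralizer (F.1 : Set G)).subtype)
      (comm_map φ F.1) x (HG.map n (centConj g F.1 F'.1 h) z)
  have h1 : ∀ (γ : Subgroup.centralizer (F'.1 : Set G)) (a : F.1),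
      ((φ.comp F'.1.subtype).comp (conjHom g F.1 F'.1 h)) a *
        (φ.comp (Subgroup.centralizer (F'.1 : Set G)).subtype) γ =
      (φ.comp (Subgroup.centralizer (F'.1 : Set G)).subtype) γ *
        ((φ.comp F'.1.subtype).comp (conjHom g F.1 F'.1 h)) a := fun γ a =>
    comm_map φ F'.1 γ (conjHom g F.1 F'.1 h a)
  have h2 : ∀ (γ : Subgroup.centralizer (F'.1 : Set G)) (a : F.1),
      (φ.comp F.1.subtype) a * ((φ.comp (Subgroup.centralizer (F.1 : Set G)).subtype).comp
        (centConj g F.1 F'.1 h)) γ =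
      ((φ.comp (Subgroup.centralizer (F.1 : Set G)).subtype).comp (centConj g F.1 F'.1 h)) γ *
        (φ.comp F.1.subtype) a := fun γ a => comm_map φ F.1 (centConj g F.1 F'.1 h γ) a
  rw [gsymN_comp (φ.comp F'.1.subtype) (conjHom g F.1 F'.1 h) _ (comm_map φ F'.1) h1,
    gsymN_map (φ.comp F.1.subtype) _ (centConj g F.1 F'.1 h) (comm_map φ F.1) h2]
  apply gsymN_conj _ _ _ _ (φ g)
  · intro a
    change φ (g * a * g⁻¹) = φ g * φ a * (φ g)⁻¹
    rw [map_mul, map_mul, map_inv]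
  · intro γ
    change φ γ = φ g * φ (g⁻¹ * γ * g) * (φ g)⁻¹
    rw [map_mul, map_mul, map_inv]
    group

/-- homomorphisms which agree on the symbols agree -/
theorem homN_ext {M : Type*} [AddCommGroup M] {f g : HnKm1 R G n →+ M}
    (h : ∀ (F : FamSub G FinSub) (x : Km1 (MonoidAlgebra R F.1))
      (z : HG (Subgroup.centralizer (F.1 : Set G)) n), f (sym F x z) = g (sym F x z)) : f = g := by
  apply QuotientAddGroup.addMonoidHom_ext (SymRel R G n)
  apply FreeAbelianGroup.lift_ext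
  rintro ⟨F, x, z⟩
  exact h F x z

/-- Functoriality of the source of the assembly map. -/
noncomputable def mapHN (φ : G →* G') : HnKm1 R G n →+ HnKm1 R G' n :=
  HnKm1.lift (symFN R n φ) (symFN_conj R n φ)

theorem mapHN_sym (φ : G →* G') (F : FamSub G FinSub) (x : Km1 (MonoidAlgebra R F.1))
    (z : HG (Subgroup.centralizer (F.1 : Set G)) n) (hF : Finite F.1) :
    mapHN R n φ (sym F x z) = gsymN (φ.comp F.1.subtype)
      (φ.comp (Subgroup.centralizer (F.1 : Set G)).subtype) (comm_map φ F.1) x z :=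
  HnKm1.lift_sym _ _ F x z

theorem mapHN_gsymN (φ : G →* G') {H : Type*} [Group H] [Finite H] {Γ : Type*} [Group Γ]
    (f : H →* G) (κ : Γ →* G) (h : ∀ γ a, f a * κ γ = κ γ * f a)
    (h' : ∀ γ a, (φ.comp f) a * (φ.comp κ) γ = (φ.comp κ) γ * (φ.comp f) a)
    (x : Km1 (MonoidAlgebra R H)) (z : HG Γ n) :
    mapHN R n φ (gsymN f κ h x z) = gsymN (φ.comp f) (φ.comp κ) h' x z := by
  have hfin : Finite (rangeF f).1 := (rangeF f).2
  rw [gsymN, mapHN_sym R n φ (rangeF f) _ _ hfin,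
    gsymN_comp (φ.comp (rangeF f).1.subtype) f.rangeRestrict _ (comm_map φ (rangeF f).1)
      (fun γ a => comm_map φ (rangeF f).1 γ (f.rangeRestrict a)),
    gsymN_map ((φ.comp (rangeF f).1.subtype).comp f.rangeRestrict)
      (φ.comp (Subgroup.centralizer ((rangeF f).1 : Set G)).subtype) (centRestrict f κ h) _
      (fun γ a => h' γ a)]
  rfl

theorem mapHN_mapHN {G'' : Type*} [Group G''] (φ : G →* G') (ψ : G' →* G'') (z : HnKm1 R G n) :
    mapHN R n ψ (mapHN R n φ z) = mapHN R n (ψ.comp φ) z := by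
  suffices H : (mapHN R n ψ).comp (mapHN R n φ) = mapHN R n (ψ.comp φ) from
    DFunLike.congr_fun H z
  refine homN_ext R n fun F x z => ?_
  have : Finite F.1 := F.2
  rw [AddMonoidHom.comp_apply, mapHN_sym R n φ F x z this,
    mapHN_sym R n (ψ.comp φ) F x z this]
  exact mapHN_gsymN R n ψ _ _ _ _ x z

theorem asmKm1_gsymN {H : Type*} [Group H] [Finite H] {Γ : Type*} [Group Γ]
    (f : H →* G) (κ : Γ →* G) (h : ∀ γ a, f a * κ γ = κ γ * f a)
    (x : Km1 (MonoidAlgebra R H)) (z : HG Γ n) :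
    asmKm1 R n G (gsymN f κ h x z) = pr R n f κ h x z := by
  rw [gsymN, asmKm1_sym, pr_comp R n (rangeF f).1.subtype f.rangeRestrict _
      (cent_comm (rangeF f).1) (fun γ a => cent_comm (rangeF f).1 γ (f.rangeRestrict a)),
    pr_map R n _ _ (centRestrict f κ h) _ h]
  rfl

theorem map_pr' (φ : G →* G') {H : Type*} [Group H] {Γ : Type*} [Group Γ]
    (f : H →* G) (κ : Γ →* G) (h : ∀ γ a, f a * κ γ = κ γ * f a)
    (h' : ∀ γ a, (φ.comp f) a * (φ.comp κ) γ = (φ.comp κ) γ * (φ.comp f) a)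
    (x : Km1 (MonoidAlgebra R H)) (z : HG Γ n) :
    LKQ.map (MonoidAlgebra.mapDomainRingHom R φ) (pr R n f κ h x z) =
      pr R n (φ.comp f) (φ.comp κ) h' x z := by
  have e1 : (MonoidAlgebra.mapDomainRingHom R φ).comp (MonoidAlgebra.mapDomainRingHom R f) =
      MonoidAlgebra.mapDomainRingHom R (φ.comp f) :=
    (MonoidAlgebra.mapDomainRingHom_comp _ _).symm
  have e2 : (Units.map ((MonoidAlgebra.mapDomainRingHom R φ :
      MonoidAlgebra R G →+* MonoidAlgebra R G') : MonoidAlgebra R G →* MonoidAlgebra R G')).comp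
      ((grpHom R G).comp κ) = (grpHom R G').comp (φ.comp κ) := by
    refine MonoidHom.ext fun γ => Units.ext ?_
    change MonoidAlgebra.mapDomain φ (MonoidAlgebra.single (κ γ) 1) =
      MonoidAlgebra.single (φ (κ γ)) 1
    rw [MonoidAlgebra.mapDomain_single]
  have hc : ∀ γ b, ((MonoidAlgebra.mapDomainRingHom R φ).comp
      (MonoidAlgebra.mapDomainRingHom R f)) b *
      (((Units.map ((MonoidAlgebra.mapDomainRingHom R φ :
        MonoidAlgebra R G →+* MonoidAlgebra R G') : MonoidAlgebra R G →*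
          MonoidAlgebra R G')).comp ((grpHom R G).comp κ)) γ : MonoidAlgebra R G') =
      ((Units.map ((MonoidAlgebra.mapDomainRingHom R φ :
        MonoidAlgebra R G →+* MonoidAlgebra R G') : MonoidAlgebra R G →*
          MonoidAlgebra R G')).comp ((grpHom R G).comp κ)) γ *
        ((MonoidAlgebra.mapDomainRingHom R φ).comp (MonoidAlgebra.mapDomainRingHom R f)) b := by
    rw [e1, e2]
    exact grpHom_comm R (φ.comp f) (φ.comp κ) h'
  exact (map_lasm _ _ _ _ hc x z).trans (lasm_congr e1 e2 _ _ x z)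

/-- **The assembly map is natural in the group.** -/
theorem asmKm1_map (φ : G →* G') (z : HnKm1 R G n) :
    asmKm1 R n G' (mapHN R n φ z) =
      LKQ.map (MonoidAlgebra.mapDomainRingHom R φ) (asmKm1 R n G z) := by
  suffices H : (asmKm1 R n G').comp (mapHN R n φ) =
      (LKQ.map (MonoidAlgebra.mapDomainRingHom R φ)).comp (asmKm1 R n G) from
    DFunLike.congr_fun H z
  refine homN_ext R n fun F x z => ?_
  have : Finite F.1 := F.2
  rw [AddMonoidHom.comp_apply, AddMonoidHom.comp_apply, mapHN_sym R n φ F x z this,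
    asmKm1_gsymN, asmKm1_sym]
  exact (map_pr' R n φ _ _ _ _ x z).symm

/-- **Every class comes from the subgroups which contain a finite set.** -/
theorem exists_liftN (z : HnKm1 R G n) :
    ∃ S : Finset G, ∀ G' : Subgroup G, (∀ s ∈ S, s ∈ G') →
      ∃ y : HnKm1 R G' n, mapHN R n G'.subtype y = z := by
  classical
  induction z using sym_induction with
  | h0 => exact ⟨∅, fun G' _ => ⟨0, map_zero _⟩⟩
  | h1 F x z =>
    have hfin : Finite F.1 := F.2
    have : Fintype F.1 := Fintype.ofFinite _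
    obtain ⟨S, hS⟩ := HG.exists_lift z
    refine ⟨(Finset.univ.image fun a : F.1 => (a : G)) ∪ S.image (Subgroup.centralizer (F.1 : Set G)).subtype, ?_⟩
    intro G' hG'
    have hF : ∀ a : F.1, (a : G) ∈ G' := fun a =>
      hG' _ (Finset.mem_union_left _ (Finset.mem_image_of_mem _ (Finset.mem_univ a)))
    obtain ⟨y, hy⟩ := hS (G'.subgroupOf (Subgroup.centralizer (F.1 : Set G))) fun s hs =>
      hG' _ (Finset.mem_union_right _ (Finset.mem_image_of_mem _ hs))
    let f1 : F.1 →* G' := F.1.subtype.codRestrict G' hF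
    let κ1 : G'.subgroupOf (Subgroup.centralizer (F.1 : Set G)) →* G' :=
      ((Subgroup.centralizer (F.1 : Set G)).subtype.comp
        (G'.subgroupOf (Subgroup.centralizer (F.1 : Set G))).subtype).codRestrict G' fun γ => γ.2
    have hc : ∀ γ a, f1 a * κ1 γ = κ1 γ * f1 a := fun γ a =>
      Subtype.ext (cent_comm F.1 γ.1 a)
    refine ⟨gsymN f1 κ1 hc x y, ?_⟩
    rw [mapHN_gsymN R n G'.subtype f1 κ1 hc (fun γ a => cent_comm F.1 γ.1 a)]
    rw [sym_eq_gsymN F x z hfin, ← hy, gsymN_map _ _ _ _ (fun γ a => cent_comm F.1 γ.1 a)]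
    rfl
  | h2 a b ha hb =>
    obtain ⟨S1, h1⟩ := ha
    obtain ⟨S2, h2⟩ := hb
    refine ⟨S1 ∪ S2, fun G' hG' => ?_⟩
    obtain ⟨y1, e1⟩ := h1 G' fun s hs => hG' s (Finset.mem_union_left _ hs)
    obtain ⟨y2, e2⟩ := h2 G' fun s hs => hG' s (Finset.mem_union_right _ hs)
    exact ⟨y1 + y2, by rw [map_add, e1, e2]⟩
  | h3 a ha =>
    obtain ⟨S, hS⟩ := ha
    refine ⟨S, fun G' hG' => ?_⟩
    obtain ⟨y, hy⟩ := hS G' hG'
    exact ⟨-y, by rw [map_neg, hy]⟩

end

end Pool.Agent.H8.KL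

end

section

/-!
# Project KN, joint part in degree zero: the class of `t`

PROOFS.  `ofKQ_tOne`: `tOne` is `KQ.cls .. 1 (e1 U)` (`kq1_mk`; `K1.unit` is `K1.mk` of the `1 × 1` matrix), `map_e1`, `e1` is
the class of the cycle `(1, U)` up to the convention in `FU0/E1.lean` (if the cycle there is `(1, U)` the representative is
`Finsupp.single ![1, U] 1`), `ofKQ_cls`, `ch_single`.
`TQ_one_bd`: `TQ_bd`, `dl_pL`, `dl (fun _ => 1) = 0` on two variables.  `TQ_tOne`: `TQ_t`, `TM_eq`: the only word is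
`(t, t⁻¹)`, its product is `1`, the difference of the degrees is `1`.
-/

set_option autoImplicit false

open Matrix
open scoped LaurentPolynomial

universe u v w

namespace Pool.Agent.H16.KN

open Pool.Agent.H71.FQ Pool.Agent.H16.FU Pool.Agent.H39.KL
open Pool.Agent.H71.FU0 (kq1 kq1_mk e1)
open Pool.Agent.H95.WH (K1 K1.unit K1.map)
open Pool.Agent.H95.KM (lau)

section

/-- the class of `t` in `KQ (A[t, t⁻¹]) 0` -/
noncomputable def tOne (A : Type u) [Ring A] : KQ A[T;T⁻¹] 0 :=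
  kq1 (K1.unit (Pool.Agent.H8.KZ.uT A))

theorem map_tOne {A : Type u} [Ring A] {A' : Type v} [Ring A'] (f : A →+* A') :
    KQ.map (lau f) (tOne A) = tOne A' := by
  rw [tOne, Pool.Agent.H71.FU0.map_kq1, K1.map_unit, tOne]
  congr 2
  apply Units.ext
  show lau f (AddMonoidAlgebra.single 1 1) = AddMonoidAlgebra.single 1 1
  rw [Pool.Agent.H95.KM.lau_single, map_one]

/-- **The assembly map** on the parts `H_0(G; ℤ)` and `K₋₁` of the rational source in degree zero. -/
noncomputable def asm0 (G : Type v) [Group G] : ℤ × HnKm1 ℤ G 0 →+ LKQ (MonoidAlgebra ℤ G) 0 :=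
  (zmultiplesHom (LKQ (MonoidAlgebra ℤ G) 0) (LKQ.mk (tOne (MonoidAlgebra ℤ G)))).coprod
    (asmKm1 ℤ 0 G)

variable (B : Type) [CommRing B] (G : Type u) [Group G]

theorem ofKQ_tOne :
    ofKQ (KQ.map (gz B (MonoidHom.id G)) (tOne (MonoidAlgebra B G))) =
      QH.mk (QC.t 1 ![1, tG B G]) := by
  rw [tOne, K1.unit, kq1_mk, KQ.map_cls, Pool.Agent.H71.FU0.map_e1]
  have e2 : mapGL (gz B (MonoidHom.id G)) 1
      (Units.map (Matrix.scalar (Fin 1) : (MonoidAlgebra B G)[T;T⁻¹] →+*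
        Matrix (Fin 1) (Fin 1) (MonoidAlgebra B G)[T;T⁻¹]).toMonoidHom
          (Pool.Agent.H8.KZ.uT (MonoidAlgebra B G))) = tG B G := by
    apply Units.ext
    refine Matrix.ext fun i j => ?_
    rw [mapGL_val, Matrix.map_apply]
    show gz B (MonoidHom.id G)
        ((diagonal fun _ : Fin 1 => (AddMonoidAlgebra.single 1 1 : (MonoidAlgebra B G)[T;T⁻¹])) i j) =
      (diagonal fun _ : Fin 1 => (MonoidAlgebra.single ((1 : G), Multiplicative.ofAdd (1 : ℤ)) 1 :
        MonoidAlgebra B (G × Multiplicative ℤ))) i j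
    rw [Subsingleton.elim i j, diagonal_apply_eq, diagonal_apply_eq]
    exact gz_single B (MonoidHom.id G) 1 1 1
  have e3 : (e1 (mapGL (gz B (MonoidHom.id G)) 1
      (Units.map (Matrix.scalar (Fin 1) : (MonoidAlgebra B G)[T;T⁻¹] →+*
        Matrix (Fin 1) (Fin 1) (MonoidAlgebra B G)[T;T⁻¹]).toMonoidHom
          (Pool.Agent.H8.KZ.uT (MonoidAlgebra B G)))) : HG (GLm 1 (MonoidAlgebra B
            (G × Multiplicative ℤ))) 0) =
      HG.mk ⟨Finsupp.single (![1, tG B G] : Fin (0 + 2) → _) 1, Pool.Agent.H71.FU0.cyc0 _⟩ := by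
    rw [← e2]
    rfl
  rw [e3, ofKQ_cls]
  show QH.mk (ch 1 (Finsupp.single (![1, tG B G] : Fin (0 + 2) → _) 1)) = _
  rw [ch_single]

variable {B G}

omit [CommRing B] in
private theorem j5_dg_mul (x y : G × Multiplicative ℤ) : dg (x * y) = dg x + dg y := rfl

private theorem j5_CI : CI ((1, 1) : G × Multiplicative ℤ)
    (pL (fun _ : Fin (0 + 1) → G × Multiplicative ℤ => (1 : B)) (ldg B)) := by
  intro g _ v
  unfold pL ldg
  rw [j5_dg_mul, j5_dg_mul]
  congr 2
  ring

omit [Group G] in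
private theorem j5_dl (v : Fin (0 + 3) → G × Multiplicative ℤ) :
    dl (pL (fun _ : Fin (0 + 1) → G × Multiplicative ℤ => (1 : B)) (ldg B)) v = 0 := by
  rw [dl_pL _ _ (fun a b d => by
    unfold ldg
    push_cast
    ring)]
  have h : ∀ w : Fin (0 + 2) → G × Multiplicative ℤ,
      dl (fun _ : Fin (0 + 1) → G × Multiplicative ℤ => (1 : B)) w = 0 := by
    intro w
    show ∑ i : Fin 2, (-1 : ℤ) ^ (i : ℕ) • (1 : B) = 0
    rw [Fin.sum_univ_two]
    simp
  unfold pL
  rw [h, zero_mul]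

theorem TQ_one_bd (v : QC (MonoidAlgebra B (G × Multiplicative ℤ)) 2) :
    TQ ((1, 1) : G × Multiplicative ℤ)
      (pL (fun _ : Fin (0 + 1) → G × Multiplicative ℤ => (1 : B)) (ldg B)) (qbd v) = 0 := by
  rw [TQ_bd j5_CI]
  have h : dl (pL (fun _ : Fin (0 + 1) → G × Multiplicative ℤ => (1 : B)) (ldg B)) =
      fun v : Fin (0 + 3) → G × Multiplicative ℤ => (0 : B) * (fun _ => 0) v := by
    funext v
    rw [j5_dl, zero_mul]
  rw [h]
  exact (TQ_smul _ (fun _ => (0 : B)) 0 v).trans (zero_mul _)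

private theorem j5_cof_self (x : G × Multiplicative ℤ) :
    cof (diagonal fun _ : Fin 1 => (MonoidAlgebra.single x 1 :
      MonoidAlgebra B (G × Multiplicative ℤ))) x = 1 := by
  refine Matrix.ext fun i j => ?_
  rw [Subsingleton.elim i j]
  show (diagonal (fun _ : Fin 1 => (MonoidAlgebra.single x 1 :
      MonoidAlgebra B (G × Multiplicative ℤ))) j j).coeff x = _
  rw [diagonal_apply_eq, MonoidAlgebra.coeff_single, Finsupp.single_eq_same, Matrix.one_apply_eq]

private theorem j5_cof_ne {x y : G × Multiplicative ℤ} (h : y ≠ x) :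
    cof (diagonal fun _ : Fin 1 => (MonoidAlgebra.single x 1 :
      MonoidAlgebra B (G × Multiplicative ℤ))) y = 0 := by
  refine Matrix.ext fun i j => ?_
  rw [Subsingleton.elim i j]
  show (diagonal (fun _ : Fin 1 => (MonoidAlgebra.single x 1 :
      MonoidAlgebra B (G × Multiplicative ℤ))) j j).coeff y = _
  rw [diagonal_apply_eq, MonoidAlgebra.coeff_single, Finsupp.single_eq_of_ne h]
  rfl

private theorem j5_wv
    {S : Finset (G × Multiplicative ℤ)} (h0 : ((1 : G), Multiplicative.ofAdd (1 : ℤ)) ∈ S)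
    (h1 : ((1 : G), Multiplicative.ofAdd (1 : ℤ))⁻¹ ∈ S) :
    wv ((1, 1) : G × Multiplicative ℤ)
      (pL (fun _ : Fin (0 + 1) → G × Multiplicative ℤ => (1 : B)) (ldg B))
      (fun j => ((![⟨_, h0⟩, ⟨_, h1⟩] : Fin (1 + 1) → S) j : G × Multiplicative ℤ)) = 1 := by
  rw [wv_eq j5_CI _ 1]
  · show (1 : B) * ldg B _ _ = 1
    rw [one_mul]
    show ((dg (1 * (((1 : G), Multiplicative.ofAdd (1 : ℤ)) * 1)) -
      dg ((1 : G × Multiplicative ℤ) * 1) : ℤ) : B) = 1
    rw [one_mul, mul_one, one_mul]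
    have h2 : dg ((1 : G), Multiplicative.ofAdd (1 : ℤ)) = 1 := rfl
    have h3 : dg (1 : G × Multiplicative ℤ) = 0 := rfl
    rw [h2, h3, sub_zero, Int.cast_one]
  · rw [List.ofFn_succ, List.ofFn_succ, List.ofFn_zero, List.prod_cons, List.prod_cons,
      List.prod_nil, mul_one]
    show 1 * (((1 : G), Multiplicative.ofAdd (1 : ℤ)) *
      ((1 : G), Multiplicative.ofAdd (1 : ℤ))⁻¹) * (1 : G × Multiplicative ℤ)⁻¹ = (1, 1)
    rw [mul_inv_cancel, one_mul, inv_one, one_mul]
    rfl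

theorem TQ_tOne :
    TQ ((1, 1) : G × Multiplicative ℤ)
      (pL (fun _ : Fin (0 + 1) → G × Multiplicative ℤ => (1 : B)) (ldg B))
      (QC.t 1 ![1, tG B G]) = 1 := by
  classical
  have ht : (tG B G).val = diagonal fun _ : Fin 1 =>
      (MonoidAlgebra.single ((1 : G), Multiplicative.ofAdd (1 : ℤ)) 1 :
        MonoidAlgebra B (G × Multiplicative ℤ)) := rfl
  have ht' : ((tG B G)⁻¹).val = diagonal fun _ : Fin 1 =>
      (MonoidAlgebra.single ((1 : G), Multiplicative.ofAdd (1 : ℤ))⁻¹ 1 :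
        MonoidAlgebra B (G × Multiplicative ℤ)) := by
    unfold tG
    rw [← map_inv]
    rfl
  have l0 : lts (![1, tG B G] : Fin (1 + 1) → GLm 1 (MonoidAlgebra B (G × Multiplicative ℤ))) 0 =
      (tG B G).val := by
    show ((1 : GLm 1 (MonoidAlgebra B (G × Multiplicative ℤ)))⁻¹ * tG B G).val = _
    rw [inv_one, one_mul]
  have l1 : lts (![1, tG B G] : Fin (1 + 1) → GLm 1 (MonoidAlgebra B (G × Multiplicative ℤ))) 1 =
      ((tG B G)⁻¹).val := by
    show ((tG B G)⁻¹ * (1 : GLm 1 (MonoidAlgebra B (G × Multiplicative ℤ)))).val = _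
    rw [mul_one]
  have c0 : ∀ y, y ≠ ((1 : G), Multiplicative.ofAdd (1 : ℤ)) →
      cof (lts (![1, tG B G] : Fin (1 + 1) → GLm 1 (MonoidAlgebra B (G × Multiplicative ℤ))) 0) y =
        0 := by
    intro y hy
    rw [l0, ht]
    exact j5_cof_ne hy
  have c1 : ∀ y, y ≠ ((1 : G), Multiplicative.ofAdd (1 : ℤ))⁻¹ →
      cof (lts (![1, tG B G] : Fin (1 + 1) → GLm 1 (MonoidAlgebra B (G × Multiplicative ℤ))) 1) y =
        0 := by
    intro y hy
    rw [l1, ht']
    exact j5_cof_ne hy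
  have d0 : cof (lts (![1, tG B G] : Fin (1 + 1) → GLm 1 (MonoidAlgebra B (G × Multiplicative ℤ))) 0)
      ((1 : G), Multiplicative.ofAdd (1 : ℤ)) = 1 := by
    rw [l0, ht]
    exact j5_cof_self _
  have d1 : cof (lts (![1, tG B G] : Fin (1 + 1) → GLm 1 (MonoidAlgebra B (G × Multiplicative ℤ))) 1)
      ((1 : G), Multiplicative.ofAdd (1 : ℤ))⁻¹ = 1 := by
    rw [l1, ht']
    exact j5_cof_self _
  have h0 : ((1 : G), Multiplicative.ofAdd (1 : ℤ)) ∈
      ({((1 : G), Multiplicative.ofAdd (1 : ℤ)), ((1 : G), Multiplicative.ofAdd (1 : ℤ))⁻¹} :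
        Finset (G × Multiplicative ℤ)) := Finset.mem_insert_self _ _
  have h1 : ((1 : G), Multiplicative.ofAdd (1 : ℤ))⁻¹ ∈
      ({((1 : G), Multiplicative.ofAdd (1 : ℤ)), ((1 : G), Multiplicative.ofAdd (1 : ℤ))⁻¹} :
        Finset (G × Multiplicative ℤ)) := Finset.mem_insert_of_mem (Finset.mem_singleton_self _)
  have hS : ∀ j, ∀ x, cof (lts (![1, tG B G] : Fin (1 + 1) →
      GLm 1 (MonoidAlgebra B (G × Multiplicative ℤ))) j) x ≠ 0 →
      x ∈ ({((1 : G), Multiplicative.ofAdd (1 : ℤ)), ((1 : G), Multiplicative.ofAdd (1 : ℤ))⁻¹} :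
        Finset (G × Multiplicative ℤ)) := by
    intro j x hx
    refine Fin.cases (motive := fun j => cof (lts (![1, tG B G] : Fin (1 + 1) →
      GLm 1 (MonoidAlgebra B (G × Multiplicative ℤ))) j) x ≠ 0 → _) (fun hx => ?_) (fun k hx => ?_)
      j hx
    · by_contra h
      refine hx (c0 x fun h' => h ?_)
      rw [h']
      exact h0
    · rw [Subsingleton.elim (α := Fin 1) k 0] at hx
      by_contra h
      refine hx (c1 x fun h' => h ?_)
      rw [h']
      exact h1
  rw [TQ_t]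
  unfold TT
  rw [TM_eq j5_CI _ _ hS]
  rw [Finset.sum_eq_single (![⟨_, h0⟩, ⟨_, h1⟩] : Fin (1 + 1) →
    ({((1 : G), Multiplicative.ofAdd (1 : ℤ)), ((1 : G), Multiplicative.ofAdd (1 : ℤ))⁻¹} :
        Finset (G × Multiplicative ℤ)))]
  · rw [List.ofFn_succ, List.ofFn_succ, List.ofFn_zero, List.prod_cons, List.prod_cons,
      List.prod_nil, mul_one]
    have e1 : cof (lts (![1, tG B G] : Fin (1 + 1) →
        GLm 1 (MonoidAlgebra B (G × Multiplicative ℤ))) 0)
          ((1 : G), Multiplicative.ofAdd (1 : ℤ)) *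
        cof (lts (![1, tG B G] : Fin (1 + 1) →
        GLm 1 (MonoidAlgebra B (G × Multiplicative ℤ))) 1)
          ((1 : G), Multiplicative.ofAdd (1 : ℤ))⁻¹ = 1 := by
      rw [d0, d1, one_mul]
    have e2 : Matrix.trace (1 : Matrix (Fin 1) (Fin 1) B) = 1 := by
      rw [Matrix.trace_one, Fintype.card_fin, Nat.cast_one]
    exact (congrArg₂ (fun a b => a * b) ((congrArg Matrix.trace e1).trans e2)
      (j5_wv h0 h1)).trans (mul_one (1 : B))
  · intro g _ hg
    rw [List.ofFn_succ, List.ofFn_succ, List.ofFn_zero, List.prod_cons, List.prod_cons,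
      List.prod_nil, mul_one]
    have hg' : (g 0 : G × Multiplicative ℤ) ≠ ((1 : G), Multiplicative.ofAdd (1 : ℤ)) ∨
        (g 1 : G × Multiplicative ℤ) ≠ ((1 : G), Multiplicative.ofAdd (1 : ℤ))⁻¹ := by
      by_contra hc
      rw [not_or, not_not, not_not] at hc
      apply hg
      funext j
      refine Fin.cases ?_ (fun k => ?_) j
      · exact Subtype.ext hc.1
      · rw [Subsingleton.elim (α := Fin 1) k 0]
        exact Subtype.ext hc.2
    rcases hg' with hg' | hg'
    · have := c0 _ hg'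
      rw [this, zero_mul, Matrix.trace_zero, zero_mul]
    · have := c1 _ hg'
      have h2 : (Fin.succ 0 : Fin (1 + 1)) = 1 := rfl
      rw [h2, this, mul_zero, Matrix.trace_zero, zero_mul]
  · intro h
    exact absurd (Finset.mem_univ _) h

end

end Pool.Agent.H16.KN

end

section

/-!
# Project KL: degree zero

The class of the unit `t` in `LKQ (L[G]) 0` has infinite order.
-/

set_option autoImplicit false

open Matrix
open scoped LaurentPolynomial

universe u v w

namespace Pool.Agent.H39.KL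

open Pool.Agent.H71.FQ Pool.Agent.H16.KN Pool.Agent.H16.FU
open Pool.Agent.H95.KM (posHom negHom lau)

section

theorem map_tOne' {A : Type u} [Ring A] {A' : Type v} [Ring A'] (f : A →+* A') :
    LKQ.map f (LKQ.mk (tOne A)) = LKQ.mk (tOne A') := by
  rw [LKQ.map_mk, map_tOne]

variable {G : Type u} [Group G] {L : Type} [Field L] [CharZero L]

private theorem CI_one : CI ((1, 1) : G × Multiplicative ℤ)
    (pL (fun _ : Fin (0 + 1) → G × Multiplicative ℤ => (1 : L)) (ldg L)) := by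
  intro g _ x
  unfold pL ldg
  have h : ∀ a : G × Multiplicative ℤ, dg (g * a) = dg g + dg a := fun a => rfl
  rw [h, h]
  congr 2
  ring

private theorem one_zero (v : Fin 2 → G × Multiplicative ℤ) (hv : ∀ i j, dg (v i) = dg (v j)) :
    pL (fun _ : Fin (0 + 1) → G × Multiplicative ℤ => (1 : L)) (ldg L) v = 0 := by
  unfold pL ldg
  rw [hv (Fin.last (0 + 1)) (Fin.last 0).castSucc, sub_self, Int.cast_zero, mul_zero]

/-- **The class of `t` has infinite order.** -/
theorem t_tor (M : ℤ) (h : M • LKQ.mk (tOne (MonoidAlgebra L G)) = 0) : M = 0 := by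
  have h1 : LKQ.mk (M • tOne (MonoidAlgebra L G)) = 0 := by
    rw [map_zsmul]
    exact h
  obtain ⟨a, b, hab⟩ := LKQ.mk_eq_zero_iff.1 h1
  obtain ⟨a', ha', ea⟩ := map_pos_mem (B := L) (G := G) a
  obtain ⟨b', hb', eb⟩ := map_neg_mem (B := L) (G := G) b
  have h2 := congrArg (fun x => ofKQ (KQ.map (gz L (MonoidHom.id G)) x)) hab
  simp only [map_add, map_zsmul] at h2
  rw [ea, eb, ofKQ_tOne, ← map_add, ← map_zsmul, ← sub_eq_zero, ← map_sub] at h2
  obtain ⟨v, hv⟩ := QH.mk_eq_zero.1 h2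
  have h3 := congrArg (TQ ((1, 1) : G × Multiplicative ℤ)
    (pL (fun _ : Fin (0 + 1) → G × Multiplicative ℤ => (1 : L)) (ldg L))) hv
  rw [TQ_one_bd, map_sub, map_add, map_zsmul, TQ_half CI_one one_zero ha',
    TQ_half CI_one one_zero hb', TQ_tOne, zero_add, zero_sub, eq_comm, neg_eq_zero,
    zsmul_eq_mul, mul_one] at h3
  exact Int.cast_eq_zero.1 h3

end

end Pool.Agent.H39.KL

end
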