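import Pool.Agent.H13.TFQ.H8.KL.ClsT
import Pool.Agent.H13.TFQ.H8.KL.PrimS
import Pool.Agent.H13.TFQ.M39
import Pool.Agent.H13.TFQ.M56
import Pool.Agent.H13.TFQ.M98

/-! The parts of this file: H8.KL.LinK1, H8.KL.ClsS, H8.KL.InstS. -/

section

/-!
# Project KL, module LinK1: the linear algebra of the `K₁`-part

`HasRel1 G k Q` : for every relation `∑ [C i, u i, z i] ∈ Q` with units `u i = 1` modulo `p ^ 2`, every `c` of finite
order divisible by `p` and every `p`-integral functional `f` on `H_{k+1}(Z_G(c))` the number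
`∑ i, ∑ d ∈ C i, f (trc c (C i) d (z i)) * coeff_d (u i ^ p ^ l - 1)` is divisible by `p ^ (2 l - K)`, `K` independent
of `l`.

`linK1` : if `HasRel1 G k Q` and for every finite cyclic `C ≠ 1` the group `H_{k+1}(Z_G(C))` is `p`-separated for one
prime `p` dividing the order of `C`, then all elements of `Q` have finite order.
-/

set_option autoImplicit false

open Matrix

universe u v w

namespace Pool.Agent.H8.KL

open Pool.Agent.H95.WH (K1 K1.mk K1.map K1.unit K1.map_unit K1.unit_mul FamSub conjHom FinSub uH unit_pow)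
open Pool.Agent.H71.FQ (HG HG.map centConj)
open Pool.Agent.H16.FU (HnK1 sy1 sy1_add sy1_addz sy1_conj syB1 syB1_apply)
open Pool.Agent.H16.KN (PSepA trc)

section Triv

/-- the units of `ℤ[1]` -/
theorem unit_sq_of_subsingleton {C : Type v} [Group C] [Subsingleton C]
    (u : (MonoidAlgebra ℤ C)ˣ) : u ^ 2 = 1 := by
  have hx : ∀ x : MonoidAlgebra ℤ C, x = MonoidAlgebra.single 1 (x.coeff 1) := by
    intro x
    apply MonoidAlgebra.coeff_injective
    ext g
    rw [Subsingleton.elim g 1, MonoidAlgebra.coeff_single, Finsupp.single_eq_same]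
  have h1 : (u : MonoidAlgebra ℤ C) * ((u⁻¹ : (MonoidAlgebra ℤ C)ˣ) : MonoidAlgebra ℤ C) = 1 :=
    u.mul_inv
  have h3 : (u : MonoidAlgebra ℤ C).coeff 1 * (((u⁻¹ : (MonoidAlgebra ℤ C)ˣ) :
      MonoidAlgebra ℤ C)).coeff 1 = 1 := by
    rw [hx (u : MonoidAlgebra ℤ C), hx ((u⁻¹ : (MonoidAlgebra ℤ C)ˣ) : MonoidAlgebra ℤ C),
      MonoidAlgebra.single_mul_single, MonoidAlgebra.one_def] at h1
    have h4 := congrArg (fun x : MonoidAlgebra ℤ C => x.coeff 1) h1
    simp only [MonoidAlgebra.coeff_single, mul_one, Finsupp.single_eq_same] at h4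
    exact h4
  have h5 : ((u : MonoidAlgebra ℤ C).coeff 1) * ((u : MonoidAlgebra ℤ C).coeff 1) = 1 := by
    rcases Int.eq_one_or_neg_one_of_mul_eq_one h3 with h | h <;> rw [h] <;> rfl
  apply Units.ext
  rw [Units.val_pow_eq_pow_val, pow_two, hx (u : MonoidAlgebra ℤ C),
    MonoidAlgebra.single_mul_single, h5, mul_one, Units.val_one, MonoidAlgebra.one_def]

variable {G : Type v} [Group G] {k : ℕ}

theorem val_tor_of_card {t : Tr G k} (h : Nat.card t.C = 1) : (2 : ℤ) • t.val = 0 := by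
  have h0 := t.fin
  have h1 : Subsingleton t.C := (Nat.card_eq_one_iff_unique.1 h).1
  have h2 : t.val = syB1 ⟨t.C, t.fin⟩ (K1.unit t.u) t.z := rfl
  have h3 : (2 : ℤ) • t.val = syB1 ⟨t.C, t.fin⟩ (2 • K1.unit t.u) t.z := by
    rw [h2, map_nsmul, AddMonoidHom.coe_smul, Pi.smul_apply, ← natCast_zsmul]
    rfl
  rw [h3, ← unit_pow, unit_sq_of_subsingleton, unit_one', map_zero, AddMonoidHom.zero_apply]

end Triv

section Tor

variable {E : Type u} [AddCommGroup E]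

/-- elements of finite order -/
def Tor (x : E) : Prop := ∃ m : ℤ, m ≠ 0 ∧ m • x = 0

theorem Tor.zero : Tor (0 : E) := ⟨1, one_ne_zero, smul_zero _⟩

theorem Tor.add {x y : E} (hx : Tor x) (hy : Tor y) : Tor (x + y) := by
  obtain ⟨m, hm, h⟩ := hx
  obtain ⟨n, hn, h'⟩ := hy
  refine ⟨m * n, mul_ne_zero hm hn, ?_⟩
  rw [smul_add, mul_smul m n y, h', smul_zero, add_zero, mul_comm, mul_smul, h, smul_zero]

theorem Tor.sum {ι : Type*} (s : Finset ι) (f : ι → E) (h : ∀ i ∈ s, Tor (f i)) :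
    Tor (∑ i ∈ s, f i) := by
  classical
  induction s using Finset.induction_on with
  | empty => rw [Finset.sum_empty]; exact Tor.zero
  | insert i s hi ih =>
    rw [Finset.sum_insert hi]
    exact (h i (Finset.mem_insert_self i s)).add
      (ih fun j hj => h j (Finset.mem_insert_of_mem hj))

end Tor

section Main

variable {G : Type v} [Group G] {k : ℕ}

theorem Cj.refl (C : Subgroup G) : Cj C C := ⟨1, by simp, by simp⟩

theorem Cj.symm {C C' : Subgroup G} (h : Cj C C') : Cj C' C := by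
  obtain ⟨g, h1, h2⟩ := h
  refine ⟨g⁻¹, h2, fun y hy => ?_⟩
  have h3 := h1 y hy
  rw [inv_inv]
  exact h3

theorem Cj.trans {C C' C'' : Subgroup G} (h : Cj C C') (h' : Cj C' C'') : Cj C C'' := by
  obtain ⟨g, h1, h2⟩ := h
  obtain ⟨g', h1', h2'⟩ := h'
  refine ⟨g' * g, fun y hy => ?_, fun y hy => ?_⟩
  · have h3 := h1' _ (h1 y hy)
    have h4 : g' * g * y * (g' * g)⁻¹ = g' * (g * y * g⁻¹) * g'⁻¹ := by group
    rw [h4]
    exact h3
  · have h3 := h2 _ (h2' y hy)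
    have h4 : (g' * g)⁻¹ * y * (g' * g)⁻¹⁻¹ = g⁻¹ * (g'⁻¹ * y * g'⁻¹⁻¹) * g⁻¹⁻¹ := by group
    rw [h4]
    exact h3

/-- the relations of the functionals, see the header -/
def HasRel1 (G : Type v) [Group G] (k : ℕ) (Q : AddSubgroup (HnK1 ℤ G k)) : Prop :=
  ∀ (p : ℕ), p.Prime → ∀ (n : ℕ) (C : Fin n → Subgroup G) (hC : ∀ i, Finite (C i)),
    (∀ i, IsCyclic (C i)) → ∀ [∀ i, Fintype (C i)] (u : ∀ i, (MonoidAlgebra ℤ (C i))ˣ)
    (z : ∀ i, HG (Subgroup.centralizer (C i : Set G)) k),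
    (∀ i, ∃ a, (u i : MonoidAlgebra ℤ (C i)) = 1 + (p : MonoidAlgebra ℤ (C i)) ^ 2 * a) →
    ∑ i, sy1 ⟨C i, hC i⟩ (K1.unit (u i)) (z i) ∈ Q →
    ∀ c : G, IsOfFinOrder c → p ∣ orderOf c →
    ∀ f : HG (Subgroup.centralizer ({c} : Set G)) k →+ ℚ, (∀ y, ¬ p ∣ (f y).den) →
    ∃ K : ℕ, ∀ l : ℕ, ¬ p ∣ ((p : ℚ) ^ K * (∑ i, ∑ d : C i, f (trc k c (C i) d (z i)) *
      ((((u i : MonoidAlgebra ℤ (C i)) ^ p ^ l - 1).coeff d : ℤ) : ℚ)) / (p : ℚ) ^ (2 * l)).den

/-- the relations in terms of the logarithm -/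
theorem rel_TU {Q : AddSubgroup (HnK1 ℤ G k)} (hQ : HasRel1 G k Q) {n : ℕ} (t : Fin n → Tr G k)
    [∀ i, Fintype (t i).C] (ht : ∑ i, (t i).val ∈ Q) (p : ℕ) [hp : Fact p.Prime] (c : G)
    (hc : IsOfFinOrder c) (hpc : p ∣ orderOf c)
    (f : HG (Subgroup.centralizer ({c} : Set G)) k →+ ℚ) (hf : ∀ y, ¬ p ∣ (f y).den) :
    ∑ i, ∑ d : (t i).C, f (trc k c (t i).C d (t i).z) • TU p (t i).u d = 0 := by
  classical
  have hfin : ∀ i, Finite (t i).C := fun i => (t i).fin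
  have h1 : ∀ i, ∃ m : ℕ, 0 < m ∧ One2 p (((t i).u ^ m : (MonoidAlgebra ℤ (t i).C)ˣ) :
      MonoidAlgebra ℤ (t i).C) := fun i => finP (C := (t i).C) p (t i).u
  choose m hm h1 using h1
  obtain ⟨M, hM⟩ : ∃ M, M = ∏ i, m i := ⟨_, rfl⟩
  have hM0 : 0 < M := by
    rw [hM]
    exact Finset.prod_pos fun i _ => hm i
  have h2 : ∀ i, One2 p (((t i).u ^ M : (MonoidAlgebra ℤ (t i).C)ˣ) :
      MonoidAlgebra ℤ (t i).C) := by
    intro i
    obtain ⟨q, hq⟩ : m i ∣ M := by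
      rw [hM]
      exact Finset.dvd_prod_of_mem _ (Finset.mem_univ i)
    rw [hq, pow_mul, Units.val_pow_eq_pow_val]
    exact (h1 i).pow p q
  have h3 : ∑ i, sy1 (k := ℤ) ⟨(t i).C, (t i).fin⟩ (K1.unit ((t i).u ^ M)) (t i).z ∈ Q := by
    have h4 : ∑ i, sy1 (k := ℤ) ⟨(t i).C, (t i).fin⟩ (K1.unit ((t i).u ^ M)) (t i).z =
        M • ∑ i, (t i).val := by
      rw [Finset.smul_sum]
      refine Finset.sum_congr rfl fun i _ => ?_
      have h5 : (t i).val = syB1 ⟨(t i).C, (t i).fin⟩ (K1.unit (t i).u) (t i).z := rfl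
      rw [unit_pow, ← syB1_apply, h5, map_nsmul, AddMonoidHom.coe_smul, Pi.smul_apply]
    rw [h4]
    exact AddSubgroup.nsmul_mem _ ht M
  obtain ⟨K, hK⟩ := hQ p hp.out n (fun i => (t i).C) (fun i => (t i).fin) (fun i => (t i).cyc)
    (fun i => (t i).u ^ M) (fun i => (t i).z) (fun i => h2 i) h3 c hc hpc f hf
  have h4 : ∑ i, ∑ d : (t i).C, f (trc k c (t i).C d (t i).z) •
      lg p (cf d) (((t i).u ^ M : (MonoidAlgebra ℤ (t i).C)ˣ) : MonoidAlgebra ℤ (t i).C) = 0 := by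
    unfold lg
    simp only [← map_smul, ← map_sum]
    rw [cA_eq_zero]
    refine ⟨K, fun l => ?_⟩
    have h5 := hK l
    rw [← mem_ZP] at h5
    have h6 : (∑ i, ∑ d : (t i).C, f (trc k c (t i).C d (t i).z) • fun l : ℕ =>
        ((cf d ((((t i).u ^ M : (MonoidAlgebra ℤ (t i).C)ˣ) : MonoidAlgebra ℤ (t i).C) ^ p ^ l - 1) :
          ℤ) : ℚ) / (p : ℚ) ^ l) l = (∑ i, ∑ d : (t i).C, f (trc k c (t i).C d (t i).z) *
      ((((((t i).u ^ M : (MonoidAlgebra ℤ (t i).C)ˣ) : MonoidAlgebra ℤ (t i).C) ^ p ^ l - 1).coeff d :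
        ℤ) : ℚ)) / (p : ℚ) ^ l := by
      rw [Finset.sum_apply, Finset.sum_div]
      refine Finset.sum_congr rfl fun i _ => ?_
      rw [Finset.sum_apply, Finset.sum_div]
      refine Finset.sum_congr rfl fun d _ => ?_
      rw [Pi.smul_apply, smul_eq_mul, mul_div_assoc]
      rfl
    rw [h6]
    have h7 : (p : ℚ) ^ (2 * l) = (p : ℚ) ^ l * (p : ℚ) ^ l := by
      rw [two_mul, pow_add]
    rw [h7, ← div_div, mul_div_assoc] at h5
    exact h5
  have hMq : (M : ℚ) ≠ 0 := Nat.cast_ne_zero.2 hM0.ne'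
  have h5 : (M : ℚ)⁻¹ • ∑ i, ∑ d : (t i).C, f (trc k c (t i).C d (t i).z) •
      lg p (cf d) (((t i).u ^ M : (MonoidAlgebra ℤ (t i).C)ˣ) : MonoidAlgebra ℤ (t i).C) = 0 := by
    rw [h4, smul_zero]
  rw [← h5, Finset.smul_sum]
  refine Finset.sum_congr rfl fun i _ => ?_
  rw [Finset.smul_sum]
  refine Finset.sum_congr rfl fun d _ => ?_
  rw [smul_comm]
  congr 1
  exact lgU_eq p (ma_comm (t i).comm) _ hM0 (h2 i)

open scoped Classical in
/-- **The linear algebra of the `K₁`-part.** -/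
theorem linK1 (Q : AddSubgroup (HnK1 ℤ G k)) (hQ : HasRel1 G k Q)
    (hsep : ∀ C : Subgroup G, Finite C → IsCyclic C → C ≠ ⊥ →
      ∃ p : ℕ, p.Prime ∧ p ∣ Nat.card C ∧ PSepA p (HG (Subgroup.centralizer (C : Set G)) k))
    (w : HnK1 ℤ G k) (hw : w ∈ Q) : ∃ m : ℤ, m ≠ 0 ∧ m • w = 0 := by
  obtain ⟨M, n, t, hM, hprim, hsum⟩ := exists_prim w
  have hfin : ∀ i, Finite (t i).C := fun i => (t i).fin
  let _ : ∀ i, Fintype (t i).C := fun i => Fintype.ofFinite _
  have ht : ∑ i, (t i).val ∈ Q := by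
    rw [← hsum]
    exact AddSubgroup.nsmul_mem _ hw M
  let s : Setoid (Fin n) :=
    { r := fun i j => Cj (t i).C (t j).C
      iseqv := ⟨fun i => Cj.refl _, fun h => h.symm, fun h h' => h.trans h'⟩ }
  have htor : Tor (∑ i, (t i).val) := by
    rw [← Finset.sum_fiberwise Finset.univ (fun i => (Quotient.mk s i))]
    refine Tor.sum _ _ fun q _ => ?_
    obtain ⟨j, rfl⟩ := Quotient.exists_rep q
    rw [Finset.sum_subtype (p := fun i => Cj (t i).C (t j).C) _ (by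
      intro i
      rw [Finset.mem_filter]
      constructor
      · rintro ⟨_, h⟩
        exact Quotient.exact h
      · intro h
        exact ⟨Finset.mem_univ _, Quotient.sound h⟩)]
    by_cases hb : (t j).C = ⊥
    · refine Tor.sum _ _ fun i _ => ⟨2, two_ne_zero, val_tor_of_card ?_⟩
      rw [i.2.card_eq, hb]
      exact Subgroup.card_bot
    · obtain ⟨p, hp, hpC, hsp⟩ := hsep (t j).C (t j).fin (t j).cyc hb
      have : Fact p.Prime := ⟨hp⟩
      exact cls_tor t hprim (fun c hc hpc f hf => rel_TU hQ t ht p c hc hpc f hf) (t j).C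
        (t j).fin (t j).cyc hpC hsp
  obtain ⟨m, hm, h⟩ := htor
  refine ⟨m * M, mul_ne_zero hm (by exact_mod_cast hM.ne'), ?_⟩
  rw [mul_smul, natCast_zsmul, hsum, h]

end Main

end Pool.Agent.H8.KL

end

section

/-!
# Project KL, module ClsS: the linear algebra of the `K₁`-part with abstract coefficients

The versions of `cls_tor`, `rel_TU`, `linK1` for a system of coefficients `S : CoefS G`.
-/

set_option autoImplicit false

open Matrix

universe u v w w' w''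

namespace Pool.Agent.H8.KL

open Pool.Agent.H95.WH (K1 K1.mk K1.map K1.unit K1.map_unit K1.unit_mul FamSub conjHom FinSub uH conjHom_injective unit_pow)
open Pool.Agent.H16.KN (PSepA)

section Cls

variable {G : Type v} [Group G] {S : CoefS G}

/-- transport of a symbol by a conjugation -/
theorem valS_eq (t : TrS S) {C₀ : Subgroup G} (hC₀ : FinSub C₀) (x : G)
    (h2 : ∀ y ∈ C₀, x * y * x⁻¹ ∈ t.C) (h1 : ∀ y ∈ t.C, x⁻¹ * y * x⁻¹⁻¹ ∈ C₀) :
    t.val = S.sy ⟨C₀, hC₀⟩ (K1.unit (mU (conjHom x⁻¹ t.C C₀ h1) t.u))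
      (S.tr x C₀ t.C h2 t.z) := by
  have h3 := S.sy_conj ⟨C₀, hC₀⟩ ⟨t.C, t.fin⟩ x h2
    (K1.unit (mU (conjHom x⁻¹ t.C C₀ h1) t.u)) t.z
  refine Eq.trans ?_ h3
  rw [K1.map_unit]
  unfold TrS.val
  congr 3
  have h4 : (conjHom x C₀ t.C h2).comp (conjHom x⁻¹ t.C C₀ h1) = MonoidHom.id t.C := by
    ext y
    change x * (x⁻¹ * (y : G) * x⁻¹⁻¹) * x⁻¹ = y
    group
  apply Units.ext
  change (t.u : MonoidAlgebra ℤ t.C) = (MonoidAlgebra.mapDomainRingHom ℤ (conjHom x C₀ t.C h2))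
    ((MonoidAlgebra.mapDomainRingHom ℤ (conjHom x⁻¹ t.C C₀ h1)) t.u)
  rw [← RingHom.comp_apply, ← MonoidAlgebra.mapDomainRingHom_comp, h4,
    MonoidAlgebra.mapDomainRingHom_id]
  rfl

open scoped Classical in
theorem clsS_tor {p : ℕ} [hp : Fact p.Prime] {J : Type} [Fintype J] (t : J → TrS S)
    [∀ j, Fintype (t j).C] (hprim : ∀ j, Prim (t j).C (t j).u)
    (hrel : ∀ c : G, IsOfFinOrder c → p ∣ orderOf c →
      ∀ f : S.N c →+ ℚ, (∀ y, ¬ p ∣ (f y).den) →
        ∑ j, ∑ d : (t j).C, f (S.trc c (t j).C d (t j).z) • TU p (t j).u d = 0)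
    (C₀ : Subgroup G) (hf : Finite C₀) (hcyc : IsCyclic C₀) (hpC : p ∣ Nat.card C₀)
    (hsep : PSepA p (S.M C₀)) :
    ∃ m : ℤ, m ≠ 0 ∧ m • ∑ j : {j // Cj (t j).C C₀}, (t j.1).val = 0 := by
  have hfin : ∀ j, Finite (t j).C := fun j => (t j).fin
  have hcom : ∀ a b : C₀, a * b = b * a := (IsCyclic.commGroup (α := C₀)).mul_comm
  let _ : ∀ j, Fintype {φ : C₀ →* (t j).C // CI C₀ (t j).C φ} := fun j => Fintype.ofFinite _
  let _ : Fintype {φ : C₀ →* C₀ // CI C₀ C₀ φ} := Fintype.ofFinite _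
  let _ : Fintype C₀ := Fintype.ofFinite _
  let _ : AddCommGroup (Additive (MonoidAlgebra ℤ C₀)ˣ) :=
    { (inferInstance : AddGroup (Additive (MonoidAlgebra ℤ C₀)ˣ)) with
      add_comm := fun a b => Units.ext (ma_comm hcom _ _) }
  -- the elements that give the conjugations
  have hx : ∀ (j : {j // Cj (t j).C C₀}) (φ : {φ : C₀ →* (t j.1).C // CI C₀ (t j.1).C φ}),
      ∃ x : G, (∀ y : C₀, (φ.1 y : G) = x * y * x⁻¹) ∧ (∀ y ∈ C₀, x * y * x⁻¹ ∈ (t j.1).C) ∧
        (∀ y ∈ (t j.1).C, x⁻¹ * y * x⁻¹⁻¹ ∈ C₀) := by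
    intro j φ
    obtain ⟨x, hx⟩ := φ.2
    have h2 : ∀ y ∈ C₀, x * y * x⁻¹ ∈ (t j.1).C := by
      intro y hy
      have h3 := hx ⟨y, hy⟩
      rw [← h3]
      exact (φ.1 ⟨y, hy⟩).2
    exact ⟨x, hx, h2, inv_mem_of_card j.2.card_eq h2⟩
  choose x hx1 hx2 hx3 using hx
  -- the elimination
  let I : Type v := Σ j : {j // Cj (t j).C C₀}, {φ : C₀ →* (t j.1).C // CI C₀ (t j.1).C φ}
  let ue : I → Additive (MonoidAlgebra ℤ C₀)ˣ := fun i =>
    Additive.ofMul (mU (conjHom (x i.1 i.2)⁻¹ (t i.1.1).C C₀ (hx3 i.1 i.2)) (t i.1.1).u)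
  let ze : I → S.M C₀ := fun i => S.tr (x i.1 i.2) C₀ (t i.1.1).C (hx2 i.1 i.2) (t i.1.1).z
  have key : ∀ f : S.M C₀ →+ ℚ, (∀ y, ¬ p ∣ (f y).den) →
      ∑ i : I, f (ze i) • TH hcom p (ue i) = 0 := by
    intro f hfp
    funext e
    rw [Finset.sum_apply]
    -- the value of the logarithm at `e`
    have hval : ∀ i : I, (f (ze i) • TH hcom p (ue i)) e =
        f (ze i) • TU p (t i.1.1).u (i.2.1 e) := by
      intro i
      rw [Pi.smul_apply]
      congr 1
      have h4 := TU_map (t i.1.1).comm hcom (conjHom (x i.1 i.2)⁻¹ (t i.1.1).C C₀ (hx3 i.1 i.2))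
        (conjHom_injective _ _ _ _) p (t i.1.1).u (i.2.1 e)
      have h5 : conjHom (x i.1 i.2)⁻¹ (t i.1.1).C C₀ (hx3 i.1 i.2) (i.2.1 e) = e := by
        apply Subtype.ext
        change (x i.1 i.2)⁻¹ * (i.2.1 e : G) * (x i.1 i.2)⁻¹⁻¹ = e
        rw [hx1 i.1 i.2 e]
        group
      rw [h5] at h4
      exact h4
    rw [Finset.sum_congr rfl fun i _ => hval i, Pi.zero_apply, Fintype.sum_sigma]
    by_cases he : Subgroup.zpowers (e : G) = C₀
    · -- a generator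
      have hoe : orderOf (e : G) = Nat.card C₀ := by rw [← Nat.card_zpowers, he]
      have hfo : IsOfFinOrder (e : G) := by
        rw [← orderOf_pos_iff, hoe]
        exact Nat.card_pos
      have h4 := hrel e hfo (hoe ▸ hpC) (f.comp (S.kap C₀ e he)) fun y => hfp _
      -- the subgroups that are not conjugate to `C₀` do not contribute
      have h5 : ∀ j, ¬ Cj (t j).C C₀ → ∑ d : (t j).C,
          (f.comp (S.kap C₀ e he)) (S.trc (e : G) (t j).C d (t j).z) •
            TU p (t j).u d = 0 := by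
        intro j hj
        refine Finset.sum_eq_zero fun d _ => ?_
        by_cases hd : IsConj (e : G) (d : G)
        · rw [hprim j p d, smul_zero]
          intro hdd
          apply hj
          obtain ⟨y, hy⟩ := isConj_iff.1 hd
          refine ⟨y⁻¹, ?_, ?_⟩
          · intro a ha
            rw [← hdd] at ha
            obtain ⟨i, rfl⟩ := Subgroup.mem_zpowers_iff.1 ha
            rw [← conj_zpow, ← hy]
            have h6 : y⁻¹ * (y * (e : G) * y⁻¹) * y⁻¹⁻¹ = e := by group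
            rw [h6]
            exact C₀.zpow_mem e.2 i
          · intro a ha
            rw [← he] at ha
            obtain ⟨i, rfl⟩ := Subgroup.mem_zpowers_iff.1 ha
            rw [inv_inv, ← conj_zpow, hy]
            exact (t j).C.zpow_mem d.2 i
        · rw [S.trc_of_not hd]
          simp
      have h6 := Fintype.sum_subtype_add_sum_subtype (fun j => Cj (t j).C C₀) fun j =>
        ∑ d : (t j).C, (f.comp (S.kap C₀ e he)) (S.trc (e : G) (t j).C d (t j).z) •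
          TU p (t j).u d
      rw [h4, Fintype.sum_eq_zero (fun j : {j // ¬ Cj (t j).C C₀} => _) fun j => h5 j.1 j.2,
        add_zero] at h6
      rw [← h6]
      refine Finset.sum_congr rfl fun j _ => ?_
      refine Fintype.sum_of_injective
        (fun φ : {φ : C₀ →* (t j.1).C // CI C₀ (t j.1).C φ} => φ.1 e) ?_ _ _ ?_ ?_
      · -- injectivity
        intro φ ψ hφψ
        apply Subtype.ext
        ext y
        have h7 : y ∈ Subgroup.zpowers e := by
          have h8 : (y : G) ∈ Subgroup.zpowers (e : G) := by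
            rw [he]
            exact y.2
          obtain ⟨i, hi⟩ := Subgroup.mem_zpowers_iff.1 h8
          exact Subgroup.mem_zpowers_iff.2 ⟨i, Subtype.ext hi⟩
        obtain ⟨i, rfl⟩ := Subgroup.mem_zpowers_iff.1 h7
        rw [map_zpow, map_zpow]
        have h9 : φ.1 e = ψ.1 e := hφψ
        rw [h9]
      · -- the elements that are not conjugate to `e`
        intro d hd
        rw [S.trc_of_not]
        · simp
        · intro hde
          apply hd
          obtain ⟨y, hy⟩ := isConj_iff.1 hde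
          have h7 : ∀ a ∈ C₀, y * a * y⁻¹ ∈ (t j.1).C := by
            intro a ha
            rw [← he] at ha
            obtain ⟨i, rfl⟩ := Subgroup.mem_zpowers_iff.1 ha
            rw [← conj_zpow, hy]
            exact (t j.1).C.zpow_mem d.2 i
          exact ⟨⟨conjHom y C₀ (t j.1).C h7, y, fun _ => rfl⟩, Subtype.ext hy⟩
      · -- the values
        intro φ
        congr 1
        change f (ze ⟨j, φ⟩) = f (S.kap C₀ e he _)
        congr 1
        exact (S.kap_trc C₀ e he (t j.1).C (x j φ) (hx2 j φ) (φ.1 e) (hx1 j φ e).symm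
          (t j.1).z).symm
    · -- not a generator
      refine Finset.sum_eq_zero fun j _ => Finset.sum_eq_zero fun φ _ => ?_
      rw [hprim j.1 p (φ.1 e), smul_zero]
      intro h4
      apply he
      apply zpowers_eq_of_card e.2
      rw [← j.2.card_eq, ← h4, Nat.card_zpowers, hx1 j φ e, orderOf_conj']
  let β : Additive (MonoidAlgebra ℤ C₀)ˣ →+ S.M C₀ →+ S.E :=
    (S.sy ⟨C₀, hf⟩).comp (uH (MonoidAlgebra ℤ C₀))
  let T : Additive (MonoidAlgebra ℤ C₀)ˣ →+ (C₀ → Ap p) := TH hcom p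
  obtain ⟨m, hm, h⟩ := elim_sep (V := C₀ → Ap p) β T (fun u hu => by
      obtain ⟨m, hm, h⟩ := TU_detect hcom p u.toMul fun d => congrFun hu d
      exact ⟨m, by exact_mod_cast hm.ne', by
        rw [natCast_zsmul]
        exact h⟩) hsep ue ze key
  refine ⟨m * (Nat.card {φ : C₀ →* C₀ // CI C₀ C₀ φ} : ℤ), mul_ne_zero hm ?_, ?_⟩
  · have : Nonempty {φ : C₀ →* C₀ // CI C₀ C₀ φ} := ⟨⟨MonoidHom.id _, 1, fun y => by
      rw [one_mul, inv_one, mul_one]
      rfl⟩⟩
    exact_mod_cast Nat.card_pos.ne'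
  · rw [mul_smul, ← h, natCast_zsmul, Finset.smul_sum]
    congr 1
    rw [Fintype.sum_sigma]
    refine Finset.sum_congr rfl fun j _ => ?_
    rw [← card_CI j.2, Nat.card_eq_fintype_card, ← Finset.card_univ, ← Finset.sum_const]
    refine Finset.sum_congr rfl fun φ _ => ?_
    exact valS_eq (t j.1) hf (x j φ) (hx2 j φ) (hx3 j φ)

end Cls

section Main

variable {G : Type v} [Group G] {S : CoefS G}

theorem valS_tor_of_card {t : TrS S} (h : Nat.card t.C = 1) : (2 : ℤ) • t.val = 0 := by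
  have h0 := t.fin
  have h1 : Subsingleton t.C := (Nat.card_eq_one_iff_unique.1 h).1
  have h2 : t.val = S.sy ⟨t.C, t.fin⟩ (K1.unit t.u) t.z := rfl
  have h3 : (2 : ℤ) • t.val = S.sy ⟨t.C, t.fin⟩ (2 • K1.unit t.u) t.z := by
    rw [h2, map_nsmul, AddMonoidHom.coe_smul, Pi.smul_apply, ← natCast_zsmul]
    rfl
  rw [h3, ← unit_pow, unit_sq_of_subsingleton, unit_one', map_zero, AddMonoidHom.zero_apply]

/-- the relations of the functionals, see the header -/
def HasRelS (S : CoefS G) (P : S.E → Prop) : Prop :=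
  ∀ (p : ℕ), p.Prime → ∀ (n : ℕ) (C : Fin n → Subgroup G) (hC : ∀ i, Finite (C i)),
    (∀ i, IsCyclic (C i)) → ∀ [∀ i, Fintype (C i)] (u : ∀ i, (MonoidAlgebra ℤ (C i))ˣ)
    (z : ∀ i, S.M (C i)),
    (∀ i, ∃ a, (u i : MonoidAlgebra ℤ (C i)) = 1 + (p : MonoidAlgebra ℤ (C i)) ^ 2 * a) →
    P (∑ i, S.sy ⟨C i, hC i⟩ (K1.unit (u i)) (z i)) →
    ∀ c : G, IsOfFinOrder c → p ∣ orderOf c →
    ∀ f : S.N c →+ ℚ, (∀ y, ¬ p ∣ (f y).den) →
    ∃ K : ℕ, ∀ l : ℕ, ¬ p ∣ ((p : ℚ) ^ K * (∑ i, ∑ d : C i, f (S.trc c (C i) d (z i)) *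
      ((((u i : MonoidAlgebra ℤ (C i)) ^ p ^ l - 1).coeff d : ℤ) : ℚ)) / (p : ℚ) ^ (2 * l)).den

/-- the relations in terms of the logarithm -/
theorem relS_TU {P : S.E → Prop} (hP : ∀ (m : ℕ) (x : S.E), P x → P (m • x)) (hQ : HasRelS S P)
    {n : ℕ} (t : Fin n → TrS S) [∀ i, Fintype (t i).C] (ht : P (∑ i, (t i).val)) (p : ℕ)
    [hp : Fact p.Prime] (c : G) (hc : IsOfFinOrder c) (hpc : p ∣ orderOf c)
    (f : S.N c →+ ℚ) (hf : ∀ y, ¬ p ∣ (f y).den) :
    ∑ i, ∑ d : (t i).C, f (S.trc c (t i).C d (t i).z) • TU p (t i).u d = 0 := by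
  classical
  have hfin : ∀ i, Finite (t i).C := fun i => (t i).fin
  have h1 : ∀ i, ∃ m : ℕ, 0 < m ∧ One2 p (((t i).u ^ m : (MonoidAlgebra ℤ (t i).C)ˣ) :
      MonoidAlgebra ℤ (t i).C) := fun i => finP (C := (t i).C) p (t i).u
  choose m hm h1 using h1
  obtain ⟨M, hM⟩ : ∃ M, M = ∏ i, m i := ⟨_, rfl⟩
  have hM0 : 0 < M := by
    rw [hM]
    exact Finset.prod_pos fun i _ => hm i
  have h2 : ∀ i, One2 p (((t i).u ^ M : (MonoidAlgebra ℤ (t i).C)ˣ) :
      MonoidAlgebra ℤ (t i).C) := by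
    intro i
    obtain ⟨q, hq⟩ : m i ∣ M := by
      rw [hM]
      exact Finset.dvd_prod_of_mem _ (Finset.mem_univ i)
    rw [hq, pow_mul, Units.val_pow_eq_pow_val]
    exact (h1 i).pow p q
  have h3 : P (∑ i, S.sy ⟨(t i).C, (t i).fin⟩ (K1.unit ((t i).u ^ M)) (t i).z) := by
    have h4 : ∑ i, S.sy ⟨(t i).C, (t i).fin⟩ (K1.unit ((t i).u ^ M)) (t i).z =
        M • ∑ i, (t i).val := by
      rw [Finset.smul_sum]
      refine Finset.sum_congr rfl fun i _ => ?_
      have h5 : (t i).val = S.sy ⟨(t i).C, (t i).fin⟩ (K1.unit (t i).u) (t i).z := rfl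
      rw [unit_pow, h5, map_nsmul, AddMonoidHom.coe_smul, Pi.smul_apply]
    rw [h4]
    exact hP M _ ht
  obtain ⟨K, hK⟩ := hQ p hp.out n (fun i => (t i).C) (fun i => (t i).fin) (fun i => (t i).cyc)
    (fun i => (t i).u ^ M) (fun i => (t i).z) (fun i => h2 i) h3 c hc hpc f hf
  have h4 : ∑ i, ∑ d : (t i).C, f (S.trc c (t i).C d (t i).z) •
      lg p (cf d) (((t i).u ^ M : (MonoidAlgebra ℤ (t i).C)ˣ) : MonoidAlgebra ℤ (t i).C) = 0 := by
    unfold lg
    simp only [← map_smul, ← map_sum]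
    rw [cA_eq_zero]
    refine ⟨K, fun l => ?_⟩
    have h5 := hK l
    rw [← mem_ZP] at h5
    have h6 : (∑ i, ∑ d : (t i).C, f (S.trc c (t i).C d (t i).z) • fun l : ℕ =>
        ((cf d ((((t i).u ^ M : (MonoidAlgebra ℤ (t i).C)ˣ) : MonoidAlgebra ℤ (t i).C) ^ p ^ l - 1) :
          ℤ) : ℚ) / (p : ℚ) ^ l) l = (∑ i, ∑ d : (t i).C, f (S.trc c (t i).C d (t i).z) *
      ((((((t i).u ^ M : (MonoidAlgebra ℤ (t i).C)ˣ) : MonoidAlgebra ℤ (t i).C) ^ p ^ l - 1).coeff d :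
        ℤ) : ℚ)) / (p : ℚ) ^ l := by
      rw [Finset.sum_apply, Finset.sum_div]
      refine Finset.sum_congr rfl fun i _ => ?_
      rw [Finset.sum_apply, Finset.sum_div]
      refine Finset.sum_congr rfl fun d _ => ?_
      rw [Pi.smul_apply, smul_eq_mul, mul_div_assoc]
      rfl
    rw [h6]
    have h7 : (p : ℚ) ^ (2 * l) = (p : ℚ) ^ l * (p : ℚ) ^ l := by
      rw [two_mul, pow_add]
    rw [h7, ← div_div, mul_div_assoc] at h5
    exact h5
  have hMq : (M : ℚ) ≠ 0 := Nat.cast_ne_zero.2 hM0.ne'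
  have h5 : (M : ℚ)⁻¹ • ∑ i, ∑ d : (t i).C, f (S.trc c (t i).C d (t i).z) •
      lg p (cf d) (((t i).u ^ M : (MonoidAlgebra ℤ (t i).C)ˣ) : MonoidAlgebra ℤ (t i).C) = 0 := by
    rw [h4, smul_zero]
  rw [← h5, Finset.smul_sum]
  refine Finset.sum_congr rfl fun i _ => ?_
  rw [Finset.smul_sum]
  refine Finset.sum_congr rfl fun d _ => ?_
  rw [smul_comm]
  congr 1
  exact lgU_eq p (ma_comm (t i).comm) _ hM0 (h2 i)

open scoped Classical in
/-- **The linear algebra of the `K₁`-part.** -/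
theorem linS (P : S.E → Prop) (hP : ∀ (m : ℕ) (x : S.E), P x → P (m • x)) (hQ : HasRelS S P)
    (hsep : ∀ C : Subgroup G, Finite C → IsCyclic C → C ≠ ⊥ →
      ∃ p : ℕ, p.Prime ∧ p ∣ Nat.card C ∧ PSepA p (S.M C))
    (w : S.E) (hw : P w) : ∃ m : ℤ, m ≠ 0 ∧ m • w = 0 := by
  obtain ⟨M, n, t, hM, hprim, hsum⟩ := exists_primS w
  have hfin : ∀ i, Finite (t i).C := fun i => (t i).fin
  let _ : ∀ i, Fintype (t i).C := fun i => Fintype.ofFinite _
  have ht : P (∑ i, (t i).val) := by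
    rw [← hsum]
    exact hP M _ hw
  let s : Setoid (Fin n) :=
    { r := fun i j => Cj (t i).C (t j).C
      iseqv := ⟨fun i => Cj.refl _, fun h => h.symm, fun h h' => h.trans h'⟩ }
  have htor : Tor (∑ i, (t i).val) := by
    rw [← Finset.sum_fiberwise Finset.univ (fun i => (Quotient.mk s i))]
    refine Tor.sum _ _ fun q _ => ?_
    obtain ⟨j, rfl⟩ := Quotient.exists_rep q
    rw [Finset.sum_subtype (p := fun i => Cj (t i).C (t j).C) _ (by
      intro i
      rw [Finset.mem_filter]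
      constructor
      · rintro ⟨_, h⟩
        exact Quotient.exact h
      · intro h
        exact ⟨Finset.mem_univ _, Quotient.sound h⟩)]
    by_cases hb : (t j).C = ⊥
    · refine Tor.sum _ _ fun i _ => ⟨2, two_ne_zero, valS_tor_of_card ?_⟩
      rw [i.2.card_eq, hb]
      exact Subgroup.card_bot
    · obtain ⟨p, hp, hpC, hsp⟩ := hsep (t j).C (t j).fin (t j).cyc hb
      have : Fact p.Prime := ⟨hp⟩
      exact clsS_tor t hprim (fun c hc hpc f hf => relS_TU hP hQ t ht p c hc hpc f hf) (t j).C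
        (t j).fin (t j).cyc hpC hsp
  obtain ⟨m, hm, h⟩ := htor
  refine ⟨m * M, mul_ne_zero hm (by exact_mod_cast hM.ne'), ?_⟩
  rw [mul_smul, natCast_zsmul, hsum, h]

end Main

end Pool.Agent.H8.KL

end

section

/-!
# Project KL, module InstS: the two systems of coefficients

`hgS G k` : `M C = H_{k+1}(Z_G(C); ℤ)`, symbols in `HnK1 ℤ G k`.
`zS G` : `M C = ℤ`, symbols in the colimit `H0K1 ℤ G` of the groups `K₁(ℤ[F])`.

`linHG`, `linZ` : the theorem `linS` for them.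
-/

set_option autoImplicit false

open Matrix

universe u v w

namespace Pool.Agent.H8.KL

open Pool.Agent.H95.WH (K1 K1.mk K1.map K1.unit K1.map_unit K1.unit_mul FamSub conjHom FinSub uH conjHom_injective unit_pow)
open Pool.Agent.H71.FQ (HG HG.map centConj)
open Pool.Agent.H16.FU (HnK1 sy1 sy1_conj syB1 syB1_apply hnk1_induction)
open Pool.Agent.H16.KN (PSepA trc trc_of_not trc_eq)
open Pool.Agent.H71.FU0 (H0K1 cl cl_conj h0k1_induction)

section HG

variable (G : Type v) [Group G] (k : ℕ)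

variable {G k}

end HG

section Z

variable (G : Type v) [Group G]

open scoped Classical in
/-- the coefficients `ℤ` -/
noncomputable def zS : CoefS.{v, 0, 0, v} G where
  M _ := ℤ
  tr _ _ _ _ := AddMonoidHom.id ℤ
  N _ := ℤ
  trc c C d := if IsConj c (d : G) then AddMonoidHom.id ℤ else 0
  kap _ _ _ := AddMonoidHom.id ℤ
  trc_of_not h := if_neg h
  kap_trc C₀ e he C x h2 d hd z := by
    rw [if_pos (isConj_iff.2 ⟨x, hd⟩)]
    rfl
  E := H0K1 ℤ G
  sy F := AddMonoidHom.mk' (fun x => zmultiplesHom (H0K1 ℤ G) (cl F x)) (fun x y => by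
    ext
    rw [map_add, AddMonoidHom.add_apply, zmultiplesHom_apply, zmultiplesHom_apply,
      zmultiplesHom_apply, one_smul, one_smul, one_smul])
  sy_conj F F' g h x z := by
    change z • cl F' _ = z • cl F x
    rw [cl_conj]
  gen := by
    rw [eq_top_iff]
    rintro x -
    induction x using h0k1_induction with
    | h0 => exact zero_mem _
    | h1 F x =>
      refine AddSubgroup.subset_closure ⟨F, x, (1 : ℤ), ?_⟩
      change cl F x = (1 : ℤ) • cl F x
      rw [one_smul]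
    | h2 a b ha hb => exact add_mem ha hb
    | h3 a ha => exact neg_mem ha

theorem PSepA_int {p : ℕ} (hp : p.Prime) : PSepA p ℤ := by
  intro x hx
  refine ⟨1, one_ne_zero, ?_⟩
  have h := hx (Int.castAddHom ℚ) fun y => by
    change ¬ p ∣ ((y : ℚ)).den
    rw [Rat.den_intCast]
    exact fun h => hp.one_lt.ne' (Nat.dvd_one.1 h)
  rw [one_smul]
  have h1 : ((x : ℤ) : ℚ) = 0 := h
  exact_mod_cast h1

variable {G}

open scoped Classical in
/-- **The linear algebra of the `K₁`-part, coefficients `ℤ`.** -/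
theorem linZ (P : H0K1 ℤ G → Prop) (hP : ∀ (m : ℕ) (x : H0K1 ℤ G), P x → P (m • x))
    (hQ : ∀ (p : ℕ), p.Prime → ∀ (n : ℕ) (C : Fin n → Subgroup G) (hC : ∀ i, Finite (C i)),
      (∀ i, IsCyclic (C i)) → ∀ [∀ i, Fintype (C i)] (u : ∀ i, (MonoidAlgebra ℤ (C i))ˣ)
      (z : Fin n → ℤ),
      (∀ i, ∃ a, (u i : MonoidAlgebra ℤ (C i)) = 1 + (p : MonoidAlgebra ℤ (C i)) ^ 2 * a) →
      P (∑ i, z i • cl ⟨C i, hC i⟩ (K1.unit (u i))) →
      ∀ c : G, IsOfFinOrder c → p ∣ orderOf c →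
      ∃ K : ℕ, ∀ l : ℕ, ¬ p ∣ ((p : ℚ) ^ K * (∑ i, ∑ d : C i, (if IsConj c (d : G) then
        (z i : ℚ) * ((((u i : MonoidAlgebra ℤ (C i)) ^ p ^ l - 1).coeff d : ℤ) : ℚ) else 0)) /
          (p : ℚ) ^ (2 * l)).den)
    (w : H0K1 ℤ G) (hw : P w) : ∃ m : ℤ, m ≠ 0 ∧ m • w = 0 := by
  refine linS (S := zS G) P hP ?_ ?_ w hw
  · intro p hp n C hC hcyc iF u z hu hPs c hc hpc f hf
    have key : ∀ (z : Fin n → ℤ) (f : ℤ →+ ℚ), (∀ y, ¬ p ∣ (f y).den) →
        P (∑ i, z i • cl ⟨C i, hC i⟩ (K1.unit (u i))) →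
        ∃ K : ℕ, ∀ l : ℕ, ¬ p ∣ ((p : ℚ) ^ K * (∑ i, ∑ d : C i,
          f ((if IsConj c (d : G) then AddMonoidHom.id ℤ else 0) (z i)) *
          ((((u i : MonoidAlgebra ℤ (C i)) ^ p ^ l - 1).coeff d : ℤ) : ℚ)) /
            (p : ℚ) ^ (2 * l)).den := by
      clear hf hPs
      intro z f hf hPs
      obtain ⟨K, hK⟩ := hQ p hp n C hC hcyc u z hu hPs c hc hpc
      have : Fact p.Prime := ⟨hp⟩
      refine ⟨K, fun l => ?_⟩
      have h1 := (ZP p).mul_mem (mem_ZP.2 (hf (1 : ℤ))) (mem_ZP.2 (hK l))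
      rw [← mem_ZP]
      have h3 : ∑ i, ∑ d : C i, f ((if IsConj c (d : G) then AddMonoidHom.id ℤ else 0) (z i)) *
          ((((u i : MonoidAlgebra ℤ (C i)) ^ p ^ l - 1).coeff d : ℤ) : ℚ) =
          f (1 : ℤ) * ∑ i, ∑ d : C i, (if IsConj c (d : G) then
          (z i : ℚ) * ((((u i : MonoidAlgebra ℤ (C i)) ^ p ^ l - 1).coeff d : ℤ) : ℚ) else 0) := by
        rw [Finset.mul_sum]
        refine Finset.sum_congr rfl fun i _ => ?_
        rw [Finset.mul_sum]
        refine Finset.sum_congr rfl fun d _ => ?_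
        by_cases hcd : IsConj c (d : G)
        · have h5 : f (z i) = (z i : ℚ) * f (1 : ℤ) := by
            have h6 := map_zsmul f (z i) (1 : ℤ)
            rw [smul_eq_mul, mul_one, zsmul_eq_mul] at h6
            exact h6
          rw [if_pos hcd, if_pos hcd, AddMonoidHom.id_apply, h5]
          ring
        · rw [if_neg hcd, if_neg hcd, AddMonoidHom.zero_apply, map_zero, zero_mul, mul_zero]
      rw [h3]
      have h2 : (p : ℚ) ^ K * (f (1 : ℤ) * ∑ i, ∑ d : C i, (if IsConj c (d : G) then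
          (z i : ℚ) * ((((u i : MonoidAlgebra ℤ (C i)) ^ p ^ l - 1).coeff d : ℤ) : ℚ) else 0)) /
          (p : ℚ) ^ (2 * l) =
          f (1 : ℤ) * ((p : ℚ) ^ K * (∑ i, ∑ d : C i, (if IsConj c (d : G) then
          (z i : ℚ) * ((((u i : MonoidAlgebra ℤ (C i)) ^ p ^ l - 1).coeff d : ℤ) : ℚ) else 0)) /
            (p : ℚ) ^ (2 * l)) := by
        ring
      rw [h2]
      exact h1
    exact key z f hf hPs
  · intro C hfin hcyc hC
    have h1 : Nat.card C ≠ 1 := fun h => hC (Subgroup.card_eq_one.1 h)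
    obtain ⟨p, hp, hpC⟩ := Nat.exists_prime_and_dvd h1
    exact ⟨p, hp, hpC, PSepA_int hp⟩

end Z

end Pool.Agent.H8.KL

end
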