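import Pool.Agent.H13.TFQ.M101
import Pool.Agent.H13.TFQ.M73
import Pool.Agent.H13.TFQ.M89
import Pool.Agent.H13.TFQ.M92

/-! The parts of this file: H16.KN.Rot, H39.KL.Coch1. -/

section

/-!
# Project KN: divisibility of the functionals of rotation invariant functions

PROOF of `TR_dvd`.  The letters of `rep q x` are those of `x` repeated: `lts (rep q x) t = lts x (t mod (k + 1))`.  By
`TM_eq` the value is the sum over `w : Fin q → (Fin (k + 1) → S)` of `F w`, the trace of the product of the coefficients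
times `wv c (flat q Φ) g`, `g` the word of `w`.  `F` is invariant under `rotF 1`: cyclic invariance of the trace, and for
`u g u⁻¹ = c`, `A` the product of the first block: `(u A) (rotated g) (u A)⁻¹ = c` and the vertices of the rotated word
are `sig q c` of the vertices (`RIq`).  If `rotF (p ^ a) w = w` then the product of `g` is
(the product of the first `p ^ a` blocks) ^ `p ^ (m - a)`, so `wv = 0` by `hroot`.  `cyc_sum_dvd`.
-/

set_option autoImplicit false

open Matrix

universe u v w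

namespace Pool.Agent.H16.KN

open Pool.Agent.H71.FQ

section

variable {G : Type u} [Group G] {B : Type v} [CommRing B] {k : ℕ}

/-- rotation invariance -/
def RIq (c : G) (q : ℕ) (Φ : (Fin (k + 1) → Fin q → G) → B) : Prop :=
  ∀ v, Φ (fun j => sig q c (v j)) = Φ v

instance instNZp (p m : ℕ) [Fact p.Prime] : NeZero (p ^ m) :=
  ⟨pow_ne_zero m (Fact.out : p.Prime).ne_zero⟩

/-! ### Words of blocks -/

/-- the word of the blocks `w 0, …, w (q - 1)` -/
private def wd {X : Type w} (q : ℕ) (w : Fin q → Fin (k + 1) → X) (t : Fin (q * (k + 1))) : X :=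
  w (finProdFinEquiv.symm t).1 (finProdFinEquiv.symm t).2

private theorem ofFn_wd {X : Type w} (q : ℕ) (w : Fin q → Fin (k + 1) → X) :
    List.ofFn (wd q w) = (List.ofFn fun b => List.ofFn (w b)).flatten := by
  rw [List.ofFn_mul]
  congr 1
  congr 1
  funext i
  congr 1
  funext j
  have h : (finProdFinEquiv.symm (⟨(i : ℕ) * (k + 1) + j, by
      have h1 : ((i : ℕ) + 1) * (k + 1) ≤ q * (k + 1) := Nat.mul_le_mul_right _ i.2
      have h2 := j.2
      have h3 : ((i : ℕ) + 1) * (k + 1) = (i : ℕ) * (k + 1) + (k + 1) := by ring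
      omega⟩ : Fin (q * (k + 1)))) = (i, j) := by
    rw [Equiv.symm_apply_eq]
    apply Fin.ext
    rw [finProdFinEquiv_apply_val]
    show (i : ℕ) * (k + 1) + j = (j : ℕ) + (k + 1) * i
    ring
  rw [wd, h]

private theorem wd_rot {X : Type w} (n : ℕ) (w : Fin (n + 1) → Fin (k + 1) → X) :
    ∃ L : List X, List.ofFn (wd (n + 1) w) = List.ofFn (w 0) ++ L ∧
      List.ofFn (wd (n + 1) (rotF 1 w)) = L ++ List.ofFn (w 0) := by
  refine ⟨(List.ofFn fun i : Fin n => List.ofFn (w i.succ)).flatten, ?_, ?_⟩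
  · rw [ofFn_wd, List.ofFn_succ, List.flatten_cons]
  · rw [ofFn_wd, List.ofFn_succ', List.concat_eq_append, List.flatten_append]
    have h1 : ∀ i : Fin n, rotF 1 w i.castSucc = w i.succ := by
      intro i
      show w (finRotate (n + 1) i.castSucc) = w i.succ
      congr 1
      rw [finRotate_apply]
      exact Fin.coeSucc_eq_succ
    have h2 : rotF 1 w (Fin.last n) = w 0 := by
      show w (finRotate (n + 1) (Fin.last n)) = w 0
      rw [finRotate_last]
    simp only [h1, h2, List.flatten_cons, List.flatten_nil, List.append_nil]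

/-! ### Rotation of the words -/

omit [CommRing B] in
private theorem CI_flat {c : G} {q : ℕ} {Φ : (Fin (k + 1) → Fin q → G) → B} (hΦ : CIq c q Φ) :
    CI c (flat q Φ) := fun g hg _ => hΦ g hg _

private theorem wv_rot {q : ℕ} (hq : q ≠ 0) {c : G} {Φ : (Fin (k + 1) → Fin q → G) → B}
    (hΦ : CIq c q Φ) (hr : RIq c q Φ) (w : Fin q → Fin (k + 1) → G) :
    wv c (flat q Φ) (wd q (rotF 1 w)) = wv c (flat q Φ) (wd q w) := by
  obtain ⟨n, rfl⟩ := Nat.exists_eq_succ_of_ne_zero hq
  obtain ⟨L, h1, h2⟩ := wd_rot n w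
  have hA : (List.ofFn (w 0)).length = k + 1 := List.length_ofFn
  have hL : L.length = (k + 1) * n := by
    have h3 := congrArg List.length h1
    rw [List.length_ofFn, List.length_append, hA] at h3
    have h4 : (n + 1) * (k + 1) = (k + 1) + (k + 1) * n := by ring
    omega
  generalize List.ofFn (w 0) = A at *
  by_cases h : ∃ u, u * (List.ofFn (wd (n + 1) w)).prod * u⁻¹ = c
  · obtain ⟨u, hu⟩ := h
    have hu' : (u * A.prod) * (List.ofFn (wd (n + 1) (rotF 1 w))).prod * (u * A.prod)⁻¹ = c := by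
      rw [h2, List.prod_append, ← hu, h1, List.prod_append]
      group
    rw [wv_eq (CI_flat hΦ) _ _ hu', wv_eq (CI_flat hΦ) _ _ hu]
    have hcu : u * (A.prod * L.prod) = c * u := by
      rw [← hu, h1, List.prod_append]
      group
    show Φ _ = Φ _
    rw [← hr fun (j : Fin (k + 1)) (b : Fin (n + 1)) => vtx u (wd (n + 1) w) (finProdFinEquiv (b, j))]
    congr 1
    funext j b
    show vtx (u * A.prod) (wd (n + 1) (rotF 1 w)) (finProdFinEquiv (b, j)) =
      sig (n + 1) c (fun b => vtx u (wd (n + 1) w) (finProdFinEquiv (b, j))) b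
    have hj : (j : ℕ) < k + 1 := j.2
    unfold vtx sig
    rw [h1, h2]
    simp only [finProdFinEquiv_apply_val]
    by_cases hb : (b : ℕ) + 1 < n + 1
    · have h5 : (k + 1) * ((b : ℕ) + 1) ≤ (k + 1) * n := Nat.mul_le_mul_left _ (by omega)
      have h6 : (k + 1) * ((b : ℕ) + 1) = (k + 1) * b + (k + 1) := by ring
      have h7 : (A ++ L).take ((j : ℕ) + (k + 1) * ((b : ℕ) + 1)) =
          A ++ L.take ((j : ℕ) + (k + 1) * b) := by
        rw [List.take_append, List.take_of_length_le (by rw [hA]; omega), hA]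
        congr 2
        omega
      rw [dif_pos hb, List.take_append_of_le_length (by rw [hL]; omega), h7, List.prod_append,
        mul_assoc]
    · have h5 : (b : ℕ) = n := by have := b.2; omega
      have h7 : (L ++ A).take ((j : ℕ) + (k + 1) * n) = L ++ A.take (j : ℕ) := by
        rw [List.take_append, List.take_of_length_le (by rw [hL]; omega), hL]
        congr 2
        omega
      have h8 : (A ++ L).take ((j : ℕ) + (k + 1) * 0) = A.take (j : ℕ) := by
        rw [mul_zero, add_zero, List.take_append_of_le_length (by rw [hA]; omega)]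
      rw [dif_neg hb, h5, h7]
      show _ = c * (u * ((A ++ L).take ((j : ℕ) + (k + 1) * 0)).prod)
      rw [h8, List.prod_append, ← mul_assoc, mul_assoc u, hcu, mul_assoc]
  · rw [wv_zero c _ (wd (n + 1) w) fun u hu => h ⟨u, hu⟩, wv_zero c]
    intro u hu
    apply h
    refine ⟨u * A.prod⁻¹, ?_⟩
    rw [← hu, h1, h2, List.prod_append, List.prod_append]
    group

private theorem trace_rot {q : ℕ} (hq : q ≠ 0) {N : ℕ}
    (w : Fin q → Fin (k + 1) → Matrix (Fin N) (Fin N) B) :
    (List.ofFn (wd q (rotF 1 w))).prod.trace = (List.ofFn (wd q w)).prod.trace := by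
  obtain ⟨n, rfl⟩ := Nat.exists_eq_succ_of_ne_zero hq
  obtain ⟨L, h1, h2⟩ := wd_rot n w
  rw [h1, h2, List.prod_append, List.prod_append, Matrix.trace_mul_comm]

/-! ### Periodic words -/

private theorem prod_periodic {M : Type w} [Monoid M] (f : ℕ → M) (r s : ℕ)
    (hf : ∀ i, f (i + r) = f i) :
    ((List.range (s * r)).map f).prod = ((List.range r).map f).prod ^ s := by
  induction s with
  | zero => simp
  | succ s ih =>
    have h : (s + 1) * r = r + s * r := by ring
    rw [h, List.range_add, List.map_append, List.prod_append, pow_succ', List.map_map]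
    congr 1
    rw [← ih]
    congr 2
    funext i
    show f (r + i) = f i
    rw [add_comm, hf]

private theorem rot_iter (n k : ℕ) (i : Fin (n + 1)) :
    (((finRotate (n + 1))^[k] i : Fin (n + 1)) : ℕ) = ((i : ℕ) + k) % (n + 1) := by
  induction k with
  | zero => simp [Nat.mod_eq_of_lt i.2]
  | succ k ih =>
    rw [Function.iterate_succ_apply', finRotate_apply, Fin.val_add, ih, Fin.val_one', ← Nat.add_mod,
      add_assoc]

private theorem periodic {q r s : ℕ} (hq : q ≠ 0) (hrs : q = s * r) (S : Finset G)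
    (w : Fin q → Fin (k + 1) → G) (hw : rotF r w = w) (hS : ∀ b j, w b j ∈ S) :
    ∃ l : List G, (∀ g ∈ l, g ∈ S) ∧ l.length = r * (k + 1) ∧
      (List.ofFn (wd q w)).prod = l.prod ^ s := by
  obtain ⟨n, rfl⟩ := Nat.exists_eq_succ_of_ne_zero hq
  have hm : ∀ i : ℕ, i % (n + 1) < n + 1 := fun i => Nat.mod_lt _ n.succ_pos
  obtain ⟨v, hv⟩ : ∃ v : ℕ → Fin (k + 1) → G, v = fun i => w ⟨i % (n + 1), hm i⟩ := ⟨_, rfl⟩
  have hvr : ∀ i, v (i + r) = v i := by
    intro i
    rw [hv]
    have h := congrFun hw ⟨i % (n + 1), hm i⟩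
    show w ⟨(i + r) % (n + 1), hm _⟩ = w ⟨i % (n + 1), hm i⟩
    rw [← h]
    show _ = w ((finRotate (n + 1))^[r] ⟨i % (n + 1), hm i⟩)
    congr 1
    apply Fin.ext
    rw [rot_iter]
    show (i + r) % (n + 1) = (i % (n + 1) + r) % (n + 1)
    rw [Nat.mod_add_mod]
  refine ⟨((List.range r).map fun i => List.ofFn (v i)).flatten, ?_, ?_, ?_⟩
  · intro g hg
    obtain ⟨l, hl, hgl⟩ := List.mem_flatten.1 hg
    obtain ⟨i, -, rfl⟩ := List.mem_map.1 hl
    obtain ⟨j, rfl⟩ := List.mem_ofFn.1 hgl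
    rw [hv]
    exact hS _ _
  · rw [List.length_flatten, List.map_map]
    have h : (List.length ∘ fun i => List.ofFn (v i)) = fun _ : ℕ => k + 1 := by
      funext i
      exact List.length_ofFn
    rw [h, List.map_const', List.sum_replicate, List.length_range, smul_eq_mul]
  · rw [ofFn_wd, List.prod_flatten, List.prod_flatten, List.map_map]
    have h := prod_periodic (fun i => (List.ofFn (v i)).prod) r s fun i => by rw [hvr]
    have h2 : (List.map List.prod (List.ofFn fun b => List.ofFn (w b))) =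
        (List.range (s * r)).map fun i => (List.ofFn (v i)).prod := by
      rw [← hrs, List.map_ofFn]
      refine List.ext_getElem (by simp) fun i h3 h4 => ?_
      rw [List.getElem_ofFn, List.getElem_map, List.getElem_range]
      have h5 : i < n + 1 := by simpa using h3
      rw [hv]
      show (List.ofFn (w ⟨i, _⟩)).prod = (List.ofFn (w ⟨i % (n + 1), _⟩)).prod
      simp only [Nat.mod_eq_of_lt h5]
    rw [h2, h]
    rfl

/-! ### The letters of the repeated tuple -/

private theorem lts_rep (q : ℕ) [NeZero q] {N : ℕ} (x : Fin (k + 1) → GLm N (MonoidAlgebra B G))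
    (t : Fin (q * (k + 1))) : lts (rep q x) t = lts x (finProdFinEquiv.symm t).2 := by
  have h : (finProdFinEquiv.symm (t + 1)).2 = (finProdFinEquiv.symm t).2 + 1 := by
    apply Fin.ext
    show ((t + 1 : Fin (q * (k + 1))) : ℕ) % (k + 1) = _
    rw [Fin.val_add, Fin.val_add, Fin.val_one', Fin.val_one', Nat.add_mod_mod, Nat.add_mod_mod,
      Nat.mod_mul_left_mod]
    show ((t : ℕ) + 1) % (k + 1) = ((t : ℕ) % (k + 1) + 1) % (k + 1)
    rw [Nat.mod_add_mod]
  unfold lts rep
  rw [h]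

theorem TR_dvd {p : ℕ} [Fact p.Prime] (m a : ℕ) (ha : a ≤ m) {c : G}
    {Φ : (Fin (k + 1) → Fin (p ^ m) → G) → B} (hΦ : CIq c (p ^ m) Φ) (hr : RIq c (p ^ m) Φ) {N : ℕ}
    (x : Fin (k + 1) → GLm N (MonoidAlgebra B G)) (S : Finset G)
    (hS : ∀ j, ∀ g, cof (lts x j) g ≠ 0 → g ∈ S)
    (hroot : ∀ l : List G, (∀ g ∈ l, g ∈ S) → l.length = p ^ a * (k + 1) →
      ∀ u : G, u * l.prod ^ p ^ (m - a) * u⁻¹ ≠ c) :
    (p : B) ^ (a + 1) ∣ TR (p ^ m) c Φ (QC.t N x) := by
  have hq : p ^ m ≠ 0 := pow_ne_zero m (Fact.out : p.Prime).ne_zero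
  rw [TR_t]
  unfold TT
  rw [TM_eq (CI_flat hΦ) _ S fun t g hg => hS _ g (by rw [← lts_rep (p ^ m) x t]; exact hg)]
  have h1 : (∑ g : Fin (p ^ m * (k + 1)) → S,
      ((List.ofFn fun j => cof (lts (rep (p ^ m) x) j) (g j : G)).prod).trace *
        wv c (flat (p ^ m) Φ) (fun j => (g j : G))) =
      ∑ w : Fin (p ^ m) → Fin (k + 1) → S,
        (List.ofFn (wd (p ^ m) fun b j => cof (lts x j) (w b j : G))).prod.trace *
          wv c (flat (p ^ m) Φ) (wd (p ^ m) fun b j => (w b j : G)) := by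
    rw [← ((Equiv.arrowCongr finProdFinEquiv (Equiv.refl S)).symm.trans
      (Equiv.curry (Fin (p ^ m)) (Fin (k + 1)) S)).symm.sum_comp]
    refine Finset.sum_congr rfl fun w _ => ?_
    refine congrArg₂ (fun (L : List (Matrix (Fin N) (Fin N) B)) (t : B) => L.prod.trace * t) ?_ rfl
    refine congrArg List.ofFn (funext fun t => ?_)
    rw [lts_rep]
    rfl
  rw [h1]
  refine cyc_sum_dvd (Fact.out : p.Prime) m a ha _ (fun w => ?_) fun w hw => ?_
  · have h2 := wv_rot hq hΦ hr fun b j => (w b j : G)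
    have h3 := trace_rot hq fun b j => cof (lts x j) (w b j : G)
    exact congrArg₂ (fun s t : B => s * t) h3 h2
  · obtain ⟨l, hl, hlen, hp⟩ := periodic (r := p ^ a) (s := p ^ (m - a)) hq
      (by rw [← pow_add, Nat.sub_add_cancel ha]) S (fun b j => (w b j : G))
      (by
        funext b j
        exact congrArg Subtype.val (congrFun (congrFun hw b) j)) (fun b j => (w b j).2)
    rw [wv_zero, mul_zero]
    intro u
    rw [hp]
    exact hroot l hl hlen u

end

end Pool.Agent.H16.KN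

end

section

/-!
# Project KL: the cochains of the rotation

`tl τ a b` is the representative in `{0, …, M - 1}` of `τ b - τ a`, `τ` with values in `ZMod M`; `M * ep τ a b c` is its
coboundary.

PROOFS.  `tl_add`: `ZMod.val_add`, `Nat.div_add_mod`.  `dl_pL_tl`: split off the last two indices of the sum
(`Fin.sum_univ_castSucc`), as for `dl_pL` of `KN/Coch.lean`, and `tl_add`.
`TR_dvd_exp`: `QC.induction`; for a tuple `TR_dvd` (`KN/Rot.lean`) with `a = m - r`, `S` from `exists_supp`; `hroot`: if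
`u h ^ (p ^ r) u⁻¹ = c` then `h` has finite order divisible by `p ^ (r + 1)` (`p ∣ orderOf c = orderOf (h ^ p ^ r)`), so `G`
contains an element of order `p ^ (r + 1)`, which contradicts `hG`.
`bd_dvd`: `TR_bd`, `dl_pL` (`KN/Coch.lean`), `dl_pL_tl`, `hψ`: `dl (pL (pL ψ (tl τ)) (lmin ..)) = ± p ^ m • pL (pLL ψ (ep τ)) lmin`,
and `TR_dvd_exp` for the last cochain, for the element `(c, 1)` of `G × Multiplicative ℤ` (`orderOf (c, 1) = orderOf c`; an
element of `G × Multiplicative ℤ` of `p`-power order has second component `1`).  The invariance of `lmin` under `sig`: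
the degrees of `sig q (c, 1) v` are a cyclic permutation of those of `v`.
-/

set_option autoImplicit false

open Matrix

universe u v w

namespace Pool.Agent.H39.KL

open Pool.Agent.H71.FQ Pool.Agent.H16.KN

section

variable {X : Type u} {B : Type v} [CommRing B] {k M : ℕ}

/-- the representative of `τ b - τ a` -/
def tl (B : Type v) [CommRing B] (τ : X → ZMod M) (a b : X) : B := ((τ b - τ a).val : B)

/-- the carry -/
def ep (B : Type v) [CommRing B] (τ : X → ZMod M) (a b c : X) : B :=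
  ((((τ b - τ a).val + (τ c - τ b).val) / M : ℕ) : B)

theorem tl_add [NeZero M] (τ : X → ZMod M) (a b c : X) :
    tl B τ a b + tl B τ b c = tl B τ a c + (M : B) * ep B τ a b c := by
  unfold tl ep
  have h : (τ c - τ a).val = ((τ b - τ a).val + (τ c - τ b).val) % M := by
    rw [← ZMod.val_add]
    congr 1
    ring
  rw [h, ← Nat.cast_add, ← Nat.cast_mul, ← Nat.cast_add, Nat.mod_add_div]

private theorem sa_last {n : ℕ} (i : Fin (n + 1)) :
    i.castSucc.succAbove (Fin.last n) = Fin.last (n + 1) := by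
  rw [Fin.succAbove_of_le_castSucc _ _ (Fin.castSucc_le_castSucc_iff.2 (Fin.le_last i)),
    Fin.succ_last]

private theorem dl_pL_gen (ψ : (Fin (k + 1) → X) → B) (l : X → X → B) (v : Fin (k + 3) → X) :
    dl (pL ψ l) v = pL (dl ψ) l v + (-1) ^ (k + 1) * (ψ (fun j => v j.castSucc.castSucc) *
      (l (v (Fin.last k).castSucc.castSucc) (v (Fin.last (k + 2))) -
        l (v (Fin.last k).castSucc.castSucc) (v (Fin.last (k + 1)).castSucc) -
        l (v (Fin.last (k + 1)).castSucc) (v (Fin.last (k + 2))))) := by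
  have hL : dl (pL ψ l) v = (∑ i : Fin (k + 1), (-1 : B) ^ (i : ℕ) *
      (ψ (fun j => v ((i.castSucc.succAbove j).castSucc)) *
        l (v (Fin.last (k + 1)).castSucc) (v (Fin.last (k + 2))))) +
      (-1 : B) ^ (k + 1) * (ψ (fun j => v j.castSucc.castSucc) *
        l (v (Fin.last k).castSucc.castSucc) (v (Fin.last (k + 2)))) +
      (-1 : B) ^ (k + 2) * (ψ (fun j => v j.castSucc.castSucc) *
        l (v (Fin.last k).castSucc.castSucc) (v (Fin.last (k + 1)).castSucc)) := by
    unfold dl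
    rw [Fin.sum_univ_castSucc, Fin.sum_univ_castSucc]
    congr 1
    · congr 1
      · refine Finset.sum_congr rfl fun i _ => ?_
        rw [zsmul_eq_mul]
        unfold pL
        have e1 : ∀ j : Fin (k + 1), (i.castSucc.castSucc).succAbove j.castSucc =
            (i.castSucc.succAbove j).castSucc := fun j => by
          rw [Fin.castSucc_succAbove_castSucc]
        have e2 : (i.castSucc.castSucc).succAbove (Fin.last k).castSucc =
            (Fin.last (k + 1)).castSucc := by
          rw [Fin.castSucc_succAbove_castSucc, sa_last]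
        have e3 : (i.castSucc.castSucc).succAbove (Fin.last (k + 1)) = Fin.last (k + 2) := by
          rw [sa_last]
        simp only [e1, e3, Fin.val_castSucc]
        rw [sa_last i]
        push_cast
        rfl
      · rw [zsmul_eq_mul]
        unfold pL
        have e1 : ∀ j : Fin (k + 1), ((Fin.last (k + 1)).castSucc).succAbove j.castSucc =
            j.castSucc.castSucc := fun j => by
          rw [Fin.castSucc_succAbove_castSucc, Fin.succAbove_last]
        have e3 : ((Fin.last (k + 1)).castSucc).succAbove (Fin.last (k + 1)) = Fin.last (k + 2) := by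
          rw [sa_last]
        simp only [e1, e3, Fin.val_castSucc, Fin.val_last]
        push_cast
        rfl
    · rw [zsmul_eq_mul]
      unfold pL
      simp only [Fin.succAbove_last, Fin.val_last]
      push_cast
      rfl
  have hR : dl ψ (fun j => v j.castSucc) = (∑ i : Fin (k + 1), (-1 : B) ^ (i : ℕ) *
      ψ (fun j => v ((i.castSucc.succAbove j).castSucc))) +
      (-1 : B) ^ (k + 1) * ψ (fun j => v j.castSucc.castSucc) := by
    unfold dl
    rw [Fin.sum_univ_castSucc]
    congr 1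
    · refine Finset.sum_congr rfl fun i _ => ?_
      rw [zsmul_eq_mul, Fin.val_castSucc]
      push_cast
      rfl
    · rw [zsmul_eq_mul]
      simp only [Fin.succAbove_last, Fin.val_last]
      push_cast
      rfl
  have hR' : pL (dl ψ) l v = dl ψ (fun j => v j.castSucc) *
      l (v (Fin.last (k + 1)).castSucc) (v (Fin.last (k + 2))) := rfl
  rw [hL, hR', hR, add_mul, Finset.sum_mul]
  have hs : ∑ i : Fin (k + 1), (-1 : B) ^ (i : ℕ) *
      (ψ (fun j => v ((i.castSucc.succAbove j).castSucc)) *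
        l (v (Fin.last (k + 1)).castSucc) (v (Fin.last (k + 2)))) =
      ∑ i : Fin (k + 1), (-1 : B) ^ (i : ℕ) *
      ψ (fun j => v ((i.castSucc.succAbove j).castSucc)) *
        l (v (Fin.last (k + 1)).castSucc) (v (Fin.last (k + 2))) :=
    Finset.sum_congr rfl fun i _ => by ring
  rw [hs]
  ring

/-- the product of `ψ` with a function of the last three variables -/
def pLL (ψ : (Fin (k + 1) → X) → B) (e : X → X → X → B) (v : Fin (k + 3) → X) : B :=
  ψ (fun j => v j.castSucc.castSucc) *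
    e (v (Fin.last k).castSucc.castSucc) (v (Fin.last (k + 1)).castSucc) (v (Fin.last (k + 2)))

theorem dl_pL_tl [NeZero M] (τ : X → ZMod M) (ψ : (Fin (k + 1) → X) → B) (v : Fin (k + 3) → X) :
    dl (pL ψ (tl B τ)) v = pL (dl ψ) (tl B τ) v + (-1) ^ k * ((M : B) * pLL ψ (ep B τ) v) := by
  rw [dl_pL_gen]
  unfold pLL
  have h := tl_add (B := B) τ (v (Fin.last k).castSucc.castSucc) (v (Fin.last (k + 1)).castSucc)
    (v (Fin.last (k + 2)))
  have h' : tl B τ (v (Fin.last k).castSucc.castSucc) (v (Fin.last (k + 2))) =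
      tl B τ (v (Fin.last k).castSucc.castSucc) (v (Fin.last (k + 1)).castSucc) +
      tl B τ (v (Fin.last (k + 1)).castSucc) (v (Fin.last (k + 2))) -
      (M : B) * ep B τ (v (Fin.last k).castSucc.castSucc) (v (Fin.last (k + 1)).castSucc)
        (v (Fin.last (k + 2))) := by
    rw [h]
    ring
  rw [h']
  ring

end

section

variable {G : Type u} [Group G] {B : Type v} [CommRing B] {k : ℕ}

private theorem no_root {p r : ℕ} (hp : p.Prime)
    (hG : ∀ g : G, (∃ j : ℕ, g ^ p ^ j = 1) → g ^ p ^ r = 1) {c : G} (hc : IsOfFinOrder c)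
    (hpc : p ∣ orderOf c) {u h : G} (hu : u * h ^ p ^ r * u⁻¹ = c) : False := by
  have hpr : 0 < p ^ r := pow_pos hp.pos r
  have hg : (u * h * u⁻¹) ^ p ^ r = c := by rw [conj_pow, hu]
  have hgf : IsOfFinOrder (u * h * u⁻¹) :=
    (isOfFinOrder_pow.1 (hg ▸ hc)).resolve_right hpr.ne'
  set g := u * h * u⁻¹ with hgdef
  have hn : 0 < orderOf g := hgf.orderOf_pos
  have ho : orderOf c = orderOf g / Nat.gcd (orderOf g) (p ^ r) := by
    rw [← hg, orderOf_pow' g hpr.ne']
  have hd : p ^ (r + 1) ∣ orderOf g := by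
    obtain ⟨j, hj, hje⟩ := (Nat.dvd_prime_pow hp).1 (Nat.gcd_dvd_right (orderOf g) (p ^ r))
    have h1 : p ^ (j + 1) ∣ orderOf g := by
      rw [ho, hje] at hpc
      have h2 : p ^ j ∣ orderOf g := hje ▸ Nat.gcd_dvd_left (orderOf g) (p ^ r)
      have h3 := Nat.mul_dvd_mul_left (p ^ j) hpc
      rw [Nat.mul_div_cancel' h2] at h3
      rwa [pow_succ]
    rcases Nat.lt_or_ge j r with hlt | hge
    · exfalso
      have h4 : p ^ (j + 1) ∣ Nat.gcd (orderOf g) (p ^ r) :=
        Nat.dvd_gcd h1 (pow_dvd_pow p hlt)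
      rw [hje] at h4
      have h5 := (Nat.pow_dvd_pow_iff_le_right hp.one_lt).1 h4
      omega
    · have : j = r := le_antisymm hj hge
      rwa [this] at h1
  obtain ⟨t, ht⟩ := hd
  have ht0 : t ≠ 0 := by
    rintro rfl
    rw [ht, mul_zero] at hn
    exact lt_irrefl _ hn
  have h6 : (g ^ t) ^ p ^ r = 1 := by
    apply hG
    refine ⟨r + 1, ?_⟩
    rw [← pow_mul, mul_comm, ← ht, pow_orderOf_eq_one]
  rw [← pow_mul] at h6
  have h7 := Nat.le_of_dvd (Nat.mul_pos (Nat.pos_of_ne_zero ht0) hpr) (orderOf_dvd_of_pow_eq_one h6)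
  rw [ht, pow_succ, mul_comm t, mul_assoc] at h7
  have h8 := Nat.le_of_mul_le_mul_left h7 hpr
  have h9 : 2 * t ≤ p * t := Nat.mul_le_mul_right t hp.two_le
  omega

/-- **Divisibility for bounded torsion.** -/
theorem TR_dvd_exp {p : ℕ} [Fact p.Prime] (m r : ℕ) (hrm : r ≤ m)
    (hG : ∀ g : G, (∃ j : ℕ, g ^ p ^ j = 1) → g ^ p ^ r = 1) {c : G} (hc : IsOfFinOrder c)
    (hpc : p ∣ orderOf c) {Φ : (Fin (k + 1) → Fin (p ^ m) → G) → B} (hΦ : CIq c (p ^ m) Φ)
    (hr : RIq c (p ^ m) Φ) (w : QC (MonoidAlgebra B G) k) :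
    (p : B) ^ (m - r + 1) ∣ TR (p ^ m) c Φ w := by
  induction w using QC.induction with
  | h0 => rw [map_zero]; exact dvd_zero _
  | ha a b h1 h2 => rw [map_add]; exact dvd_add h1 h2
  | hn a h1 => rw [map_neg]; exact (dvd_neg).2 h1
  | ht N x =>
    obtain ⟨S, hS⟩ := exists_supp (lts x)
    refine TR_dvd m (m - r) (Nat.sub_le m r) hΦ hr x S hS ?_
    intro l _ _ u hu
    exact no_root (Fact.out : p.Prime) hG hc hpc (Nat.sub_sub_self hrm ▸ hu)

/-- the smallest degree -/
def mnd {q : ℕ} [NeZero q] (v : Fin q → G × Multiplicative ℤ) : ℤ :=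
  Finset.univ.inf' ⟨0, Finset.mem_univ 0⟩ fun b => dg (v b)

/-- the difference of the smallest degrees -/
def lmin (B : Type v) [CommRing B] {q : ℕ} [NeZero q] (a b : Fin q → G × Multiplicative ℤ) : B :=
  ((mnd b - mnd a : ℤ) : B)

theorem mnd_sig {q : ℕ} [NeZero q] (c : G) (v : Fin q → G × Multiplicative ℤ) :
    mnd (sig q ((c, 1) : G × Multiplicative ℤ) v) = mnd v := by
  have hq : 0 < q := Nat.pos_of_ne_zero (NeZero.ne q)
  have h1 : ∀ (b : Fin q) (h : (b : ℕ) + 1 < q),
      dg (sig q ((c, 1) : G × Multiplicative ℤ) v b) = dg (v ⟨(b : ℕ) + 1, h⟩) := by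
    intro b h
    unfold sig
    rw [dif_pos h]
  have h2 : ∀ (b : Fin q) (_ : ¬ (b : ℕ) + 1 < q),
      dg (sig q ((c, 1) : G × Multiplicative ℤ) v b) = dg (v ⟨0, hq⟩) := by
    intro b h
    unfold sig
    rw [dif_neg h]
    unfold dg
    rw [Prod.snd_mul, one_mul]
  apply le_antisymm
  · refine Finset.le_inf' _ _ fun b _ => ?_
    rcases Nat.eq_zero_or_pos (b : ℕ) with h0 | h0
    · have hb : b = ⟨0, hq⟩ := Fin.ext h0
      have hl : ¬ ((⟨q - 1, Nat.sub_lt hq Nat.one_pos⟩ : Fin q) : ℕ) + 1 < q := by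
        show ¬ (q - 1 + 1 < q)
        omega
      rw [hb, ← h2 ⟨q - 1, Nat.sub_lt hq Nat.one_pos⟩ hl]
      exact Finset.inf'_le _ (Finset.mem_univ _)
    · have hlt : (b : ℕ) - 1 < q := lt_of_le_of_lt (Nat.sub_le _ _) b.2
      have hlt' : ((⟨(b : ℕ) - 1, hlt⟩ : Fin q) : ℕ) + 1 < q := by
        show (b : ℕ) - 1 + 1 < q
        have := b.2
        omega
      have hb : b = ⟨((⟨(b : ℕ) - 1, hlt⟩ : Fin q) : ℕ) + 1, hlt'⟩ := by
        apply Fin.ext
        show (b : ℕ) = (b : ℕ) - 1 + 1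
        omega
      have h3 := h1 ⟨(b : ℕ) - 1, hlt⟩ hlt'
      rw [← hb] at h3
      rw [← h3]
      exact Finset.inf'_le _ (Finset.mem_univ _)
  · refine Finset.le_inf' _ _ fun b _ => ?_
    by_cases h : (b : ℕ) + 1 < q
    · rw [h1 b h]
      exact Finset.inf'_le (fun b => dg (v b)) (Finset.mem_univ _)
    · rw [h2 b h]
      exact Finset.inf'_le (fun b => dg (v b)) (Finset.mem_univ _)

theorem mnd_lmul {q : ℕ} [NeZero q] (g : G × Multiplicative ℤ) (v : Fin q → G × Multiplicative ℤ) :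
    mnd (lmul g v) = dg g + mnd v := by
  have h1 : ∀ b, dg (lmul g v b) = dg g + dg (v b) := by
    intro b
    unfold lmul dg
    rw [Prod.snd_mul, toAdd_mul]
  have hne : (Finset.univ : Finset (Fin q)).Nonempty := ⟨0, Finset.mem_univ 0⟩
  apply le_antisymm
  · obtain ⟨b, -, hb⟩ := Finset.exists_mem_eq_inf' hne fun b => dg (v b)
    have hb' : mnd v = dg (v b) := hb
    rw [hb', ← h1 b]
    exact Finset.inf'_le _ (Finset.mem_univ _)
  · refine Finset.le_inf' _ _ fun b _ => ?_
    rw [h1 b]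
    have h2 : mnd v ≤ dg (v b) := Finset.inf'_le (fun b => dg (v b)) (Finset.mem_univ _)
    exact add_le_add_right h2 (dg g)

/-- the cochain of the functional on the group ring of `G × ℤ` -/
def phiT {q : ℕ} [NeZero q] (ψ : (Fin (k + 1) → Fin q → G) → B)
    (τ : (Fin q → G) → ZMod q) : (Fin (k + 3) → Fin q → G × Multiplicative ℤ) → B :=
  pL (pL (fun v => ψ fun j b => (v j b).1) (tl B fun v => τ fun b => (v b).1)) (lmin B)

/-- the cochain of the functional on the group ring of `G` -/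
def phiG {q : ℕ} (ψ : (Fin (k + 1) → Fin q → G) → B) (τ : (Fin q → G) → ZMod q) :
    (Fin (k + 2) → Fin q → G) → B := pL ψ (tl B τ)

private theorem comm_fst {c : G} {g : G × Multiplicative ℤ}
    (hg : g * ((c, 1) : G × Multiplicative ℤ) = ((c, 1) : G × Multiplicative ℤ) * g) :
    g.1 * c = c * g.1 := congrArg Prod.fst hg

private theorem lmin_mul {q : ℕ} [NeZero q] (g : G × Multiplicative ℤ)
    (v w : Fin q → G × Multiplicative ℤ) :
    lmin B (fun b => g * v b) (fun b => g * w b) = lmin B v w := by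
  have h1 := mnd_lmul g v
  have h2 := mnd_lmul g w
  unfold lmul at h1 h2
  unfold lmin
  rw [h1, h2, add_sub_add_left_eq_sub]

private theorem lmin_sig {q : ℕ} [NeZero q] (c : G) (v w : Fin q → G × Multiplicative ℤ) :
    lmin B (sig q ((c, 1) : G × Multiplicative ℤ) v) (sig q ((c, 1) : G × Multiplicative ℤ) w) =
      lmin B v w := by
  unfold lmin
  rw [mnd_sig, mnd_sig]

omit [Group G] in
private theorem lmin_add {q : ℕ} [NeZero q] (a b c : Fin q → G × Multiplicative ℤ) :
    lmin B a b + lmin B b c = lmin B a c := by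
  unfold lmin
  rw [← Int.cast_add]
  congr 1
  ring

private theorem sig_fst {q : ℕ} (c : G) (v : Fin q → G × Multiplicative ℤ) :
    (fun b => (sig q ((c, 1) : G × Multiplicative ℤ) v b).1) = sig q c fun b => (v b).1 := by
  funext b
  unfold sig
  by_cases h : (b : ℕ) + 1 < q
  · rw [dif_pos h, dif_pos h]
  · rw [dif_neg h, dif_neg h]
    rfl

private theorem tau_mul {p m r : ℕ} {c : G} {τ : (Fin (p ^ m) → G) → ZMod (p ^ m)}
    (hτ : IsTau p m r c τ) {g : G} (hg : g * c = c * g) (v : Fin (p ^ m) → G) :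
    τ (fun b => g * v b) = τ v := hτ.inv g hg v

theorem CIq_phiT {p m r : ℕ} [Fact p.Prime] {c : G} {ψ : (Fin (k + 1) → Fin (p ^ m) → G) → B}
    (h1 : CIq c (p ^ m) ψ) {τ : (Fin (p ^ m) → G) → ZMod (p ^ m)} (hτ : IsTau p m r c τ) :
    CIq ((c, 1) : G × Multiplicative ℤ) (p ^ m) (phiT ψ τ) := by
  intro g hg v
  have hg1 := comm_fst hg
  have e1 := h1 g.1 hg1 fun j b => (v j.castSucc.castSucc b).1
  have e2 := tau_mul hτ hg1 fun b => (v (Fin.last k).castSucc.castSucc b).1
  have e3 := tau_mul hτ hg1 fun b => (v (Fin.last (k + 1)).castSucc b).1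
  have e4 := lmin_mul (B := B) g (v (Fin.last (k + 1)).castSucc) (v (Fin.last (k + 2)))
  show ψ (fun j b => g.1 * (v j.castSucc.castSucc b).1) *
      ((τ (fun b => g.1 * (v (Fin.last (k + 1)).castSucc b).1) -
        τ (fun b => g.1 * (v (Fin.last k).castSucc.castSucc b).1)).val : B) *
      lmin B (fun b => g * v (Fin.last (k + 1)).castSucc b) (fun b => g * v (Fin.last (k + 2)) b) = _
  rw [e1, e2, e3, e4]
  rfl

theorem CIq_phiG {p m r : ℕ} [Fact p.Prime] {c : G} {ψ : (Fin (k + 1) → Fin (p ^ m) → G) → B}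
    (h1 : CIq c (p ^ m) ψ) {τ : (Fin (p ^ m) → G) → ZMod (p ^ m)} (hτ : IsTau p m r c τ) :
    CIq c (p ^ m) (phiG ψ τ) := by
  intro g hg v
  have e1 := h1 g hg fun j => v j.castSucc
  have e2 := tau_mul hτ hg (v (Fin.last k).castSucc)
  have e3 := tau_mul hτ hg (v (Fin.last (k + 1)))
  show ψ (fun j b => g * v j.castSucc b) *
      ((τ (fun b => g * v (Fin.last (k + 1)) b) -
        τ (fun b => g * v (Fin.last k).castSucc b)).val : B) = _
  rw [e1, e2, e3]
  rfl

/-- the cochain of the boundary values on `G` -/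
private def psG {q : ℕ} (ψ : (Fin (k + 1) → Fin q → G) → B) (τ : (Fin q → G) → ZMod q) :
    (Fin (k + 3) → Fin q → G) → B := pLL ψ (ep B τ)

private theorem CIq_psG {p m r : ℕ} {c : G} {ψ : (Fin (k + 1) → Fin (p ^ m) → G) → B}
    (h1 : CIq c (p ^ m) ψ) {τ : (Fin (p ^ m) → G) → ZMod (p ^ m)} (hτ : IsTau p m r c τ) :
    CIq c (p ^ m) (psG ψ τ) := by
  intro g hg v
  have e1 := h1 g hg fun j => v j.castSucc.castSucc
  have e2 := tau_mul hτ hg (v (Fin.last k).castSucc.castSucc)
  have e3 := tau_mul hτ hg (v (Fin.last (k + 1)).castSucc)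
  have e4 := tau_mul hτ hg (v (Fin.last (k + 2)))
  unfold psG pLL ep
  rw [e1, e2, e3, e4]

private theorem RIq_psG {p m r : ℕ} {c : G} {ψ : (Fin (k + 1) → Fin (p ^ m) → G) → B}
    (h2 : RIq c (p ^ m) ψ) {τ : (Fin (p ^ m) → G) → ZMod (p ^ m)} (hτ : IsTau p m r c τ) :
    RIq c (p ^ m) (psG ψ τ) := by
  intro v
  have e1 := h2 fun j => v j.castSucc.castSucc
  unfold psG pLL ep
  rw [e1, hτ.rot, hτ.rot, hτ.rot, add_sub_add_right_eq_sub, add_sub_add_right_eq_sub]

private theorem dl_zero_pL {X : Type*} {M : ℕ} [NeZero M] (τ : X → ZMod M)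
    (ψ : (Fin (k + 1) → X) → B) (h3 : ∀ v, dl ψ v = 0) (v : Fin (k + 3) → X) :
    dl (pL ψ (tl B τ)) v = (-1) ^ k * (M : B) * pLL ψ (ep B τ) v := by
  rw [dl_pL_tl]
  unfold pL
  rw [h3]
  ring

/-- **The values on boundaries.** -/
theorem bd_dvd {p : ℕ} [Fact p.Prime] (m r : ℕ) (hrm : r ≤ m)
    (hG : ∀ g : G, (∃ j : ℕ, g ^ p ^ j = 1) → g ^ p ^ r = 1) {c : G} (hc : IsOfFinOrder c)
    (hpc : p ∣ orderOf c) {ψ : (Fin (k + 1) → Fin (p ^ m) → G) → B} (h1 : CIq c (p ^ m) ψ)
    (h2 : RIq c (p ^ m) ψ) (h3 : ∀ v, dl ψ v = 0) {τ : (Fin (p ^ m) → G) → ZMod (p ^ m)}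
    (hτ : IsTau p m r c τ) (w : QC (MonoidAlgebra B (G × Multiplicative ℤ)) (k + 3)) :
    (p : B) ^ (m + (m - r + 1)) ∣ TR (p ^ m) ((c, 1) : G × Multiplicative ℤ) (phiT ψ τ) (qbd w) := by
  rw [TR_bd (p ^ m) (CIq_phiT h1 hτ)]
  have h4 : dl (phiT ψ τ) = fun v : Fin (k + 4) → Fin (p ^ m) → G × Multiplicative ℤ =>
      (-1) ^ k * ((p ^ m : ℕ) : B) * (psG ψ τ (fun j b => (v j.castSucc b).1) *
        lmin B (v (Fin.last (k + 2)).castSucc) (v (Fin.last (k + 3)))) := by
    funext v
    unfold phiT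
    rw [dl_pL _ (lmin B) lmin_add]
    unfold pL
    have h5 := dl_zero_pL (B := B) (M := p ^ m)
      (fun v : Fin (p ^ m) → G × Multiplicative ℤ => τ fun b => (v b).1)
      (fun v : Fin (k + 1) → Fin (p ^ m) → G × Multiplicative ℤ => ψ fun j b => (v j b).1)
      (fun v => h3 fun j b => (v j b).1) (fun j => v j.castSucc)
    unfold pL at h5
    rw [h5]
    unfold psG pLL ep
    ring
  rw [h4, TR_smul, pow_add, Nat.cast_pow]
  refine mul_dvd_mul (Dvd.intro_left _ rfl) ?_
  have hG' : ∀ g : G × Multiplicative ℤ, (∃ j : ℕ, g ^ p ^ j = 1) → g ^ p ^ r = 1 := by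
    rintro ⟨g, t⟩ ⟨j, hj⟩
    have hj1 : g ^ p ^ j = 1 := congrArg Prod.fst hj
    have hj2 : t ^ p ^ j = 1 := congrArg Prod.snd hj
    have hp0 : p ^ j ≠ 0 := pow_ne_zero j (Fact.out : p.Prime).ne_zero
    have ht : t = 1 := by
      have h6 := congrArg Multiplicative.toAdd hj2
      rw [toAdd_pow, toAdd_one, smul_eq_zero] at h6
      rcases h6 with h6 | h6
      · exact absurd h6 hp0
      · exact h6
    rw [Prod.pow_mk, hG g ⟨j, hj1⟩, ht, one_pow]
    rfl
  have hc' : IsOfFinOrder ((c, 1) : G × Multiplicative ℤ) := by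
    obtain ⟨n, hn, hcn⟩ := isOfFinOrder_iff_pow_eq_one.1 hc
    refine isOfFinOrder_iff_pow_eq_one.2 ⟨n, hn, ?_⟩
    rw [Prod.pow_mk, hcn, one_pow]
    rfl
  have hpc' : p ∣ orderOf ((c, 1) : G × Multiplicative ℤ) := by
    rw [Prod.orderOf_mk, orderOf_one, Nat.lcm_one_right]
    exact hpc
  refine TR_dvd_exp m r hrm hG' hc' hpc' ?_ ?_ w
  · intro g hg v
    have e1 := CIq_psG h1 hτ g.1 (comm_fst hg) fun j b => (v j.castSucc b).1
    have e2 := lmin_mul (B := B) g (v (Fin.last (k + 2)).castSucc) (v (Fin.last (k + 3)))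
    show psG ψ τ (fun j b => g.1 * (v j.castSucc b).1) *
      lmin B (fun b => g * v (Fin.last (k + 2)).castSucc b) (fun b => g * v (Fin.last (k + 3)) b) = _
    rw [e1, e2]
  · intro v
    have e1 := RIq_psG h2 hτ fun j b => (v j.castSucc b).1
    have e2 : (fun (j : Fin (k + 3)) b => (sig (p ^ m) ((c, 1) : G × Multiplicative ℤ)
        (v j.castSucc) b).1) = fun j => sig (p ^ m) c fun b => (v j.castSucc b).1 :=
      funext fun j => sig_fst c (v j.castSucc)
    show psG ψ τ (fun (j : Fin (k + 3)) b => (sig (p ^ m) ((c, 1) : G × Multiplicative ℤ)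
        (v j.castSucc) b).1) * lmin B (sig (p ^ m) ((c, 1) : G × Multiplicative ℤ)
        (v (Fin.last (k + 2)).castSucc)) (sig (p ^ m) ((c, 1) : G × Multiplicative ℤ)
        (v (Fin.last (k + 3)))) = _
    rw [e2, e1, lmin_sig]

/-- the same on the group ring of `G` -/
theorem bd_dvdG {p : ℕ} [Fact p.Prime] (m r : ℕ) (hrm : r ≤ m)
    (hG : ∀ g : G, (∃ j : ℕ, g ^ p ^ j = 1) → g ^ p ^ r = 1) {c : G} (hc : IsOfFinOrder c)
    (hpc : p ∣ orderOf c) {ψ : (Fin (k + 1) → Fin (p ^ m) → G) → B} (h1 : CIq c (p ^ m) ψ)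
    (h2 : RIq c (p ^ m) ψ) (h3 : ∀ v, dl ψ v = 0) {τ : (Fin (p ^ m) → G) → ZMod (p ^ m)}
    (hτ : IsTau p m r c τ) (w : QC (MonoidAlgebra B G) (k + 2)) :
    (p : B) ^ (m + (m - r + 1)) ∣ TR (p ^ m) c (phiG ψ τ) (qbd w) := by
  rw [TR_bd (p ^ m) (CIq_phiG h1 hτ)]
  have h4 : dl (phiG ψ τ) = fun v => (-1) ^ k * ((p ^ m : ℕ) : B) * psG ψ τ v :=
    funext fun v => dl_zero_pL τ ψ h3 v
  rw [h4, TR_smul, pow_add, Nat.cast_pow]
  exact mul_dvd_mul (Dvd.intro_left _ rfl)
    (TR_dvd_exp m r hrm hG hc hpc (CIq_psG h1 hτ) (RIq_psG h2 hτ) w)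

/-- the values on `QC0` -/
theorem half_zero {p : ℕ} [Fact p.Prime] {m r : ℕ} {c : G}
    {ψ : (Fin (k + 1) → Fin (p ^ m) → G) → B} (h1 : CIq c (p ^ m) ψ)
    {τ : (Fin (p ^ m) → G) → ZMod (p ^ m)} (hτ : IsTau p m r c τ)
    {w : QC (MonoidAlgebra B (G × Multiplicative ℤ)) (k + 2)} (hw : w ∈ QC0 G B (k + 2)) :
    TR (p ^ m) ((c, 1) : G × Multiplicative ℤ) (phiT ψ τ) w = 0 := by
  refine TR_half (p ^ m) (CIq_phiT h1 hτ) (fun v h0 => ?_) hw
  have h4 : mnd (v (Fin.last (k + 2))) = mnd (v (Fin.last (k + 1)).castSucc) := by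
    unfold mnd
    congr 1
    funext b
    exact h0 _ _ _ _
  have h5 : lmin B (v (Fin.last (k + 1)).castSucc) (v (Fin.last (k + 2))) = 0 := by
    unfold lmin
    rw [h4, sub_self, Int.cast_zero]
  show _ * lmin B (v (Fin.last (k + 1)).castSucc) (v (Fin.last (k + 2))) = 0
  rw [h5, mul_zero]

end

end Pool.Agent.H39.KL

end
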