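import Pool.Agent.H13.TFQ.H16.FU.Asm1
import Pool.Agent.H13.TFQ.H71.FQ.Asm
import Pool.Agent.H13.TFQ.M102
import Pool.Agent.H13.TFQ.M76
import Pool.Agent.H13.TFQ.M93

/-! The parts of this file: H39.KL.ValT, H39.KL.ValT_1. -/

section

/-!
# Project KL: the value of the functional of `G × ℤ` on the products `{T} × x`; monomial chains

`inG : B[G] → B[G × ℤ]` is the inclusion, `uT` the element `T` of `B[G × ℤ]`.

PROOF of `TT_inG`.  Words with non-zero coefficients have all letters in `G × 1`; `TM_eq` for both sides (with the finite set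
`S ↪ G × ℤ`), or `TT_congr` and the naturality `wf_map` / `lam_map` of `FQ/TB.lean`.
PROOF of `val_T`.  Both sides are additive; for a tuple `x = (x_0, …, x_{k+1})` `pri_single` gives the sum over `i ≤ k + 1` of
`(-1) ^ i` times the tuple `(x_0, …, x_i, x_i T, …, x_{k+1} T)`.  `TR_t`, `TT_congr` (`CIq_phiT`): in a word with non-zero
coefficients (of the repeated tuple) the letter between the last two vertices of a block has degree `0` if `i ≤ k`, so
`dg (v_{k+2} b) = dg (v_{k+1} b)` for all `b`, so `lmin B v_{k+1} v_{k+2} = 0` and the value is `0`.  For `i = k + 1` the letters inside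
`(x_0, …, x_{k+1})` have degree `0`, the letter from `x_{k+1}` to `x_{k+1} T` degree `1`, the closing letter from `x_{k+1} T` to `x_0` degree
`-1`: the degree of `v_j b`, `j ≤ k + 1`, is a constant and that of `v_{k+2} b` is this constant plus `1`, so `lmin = 1` and the
cochain is the cochain of `phiG ψ τ` of the first components of the vertices `v_0, …, v_{k+1}`; `TT_comp` (omission of the last
vertex of each block, strictly monotone), and `TT_inG`.
PROOF of `val_mono`.  The repeated tuple of a tuple of `1 × 1` matrices `g_j ∈ G`: the letters are `g_j⁻¹ g_{j+1}`, the product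
of a word with non-zero coefficients is `1`, which is not conjugate to `c ≠ 1`: `TM_eq`, `wv_zero` (or `TT_congr` with `0`).
-/

set_option autoImplicit false

open Matrix

universe u v w

namespace Pool.Agent.H39.KL

open Pool.Agent.H71.FQ Pool.Agent.H16.KN Pool.Agent.H16.FU

section

/-- the inclusion `B[G] → B[G × ℤ]` -/
noncomputable def inG (B : Type v) [CommRing B] (G : Type u) [Group G] :
    MonoidAlgebra B G →+* MonoidAlgebra B (G × Multiplicative ℤ) :=
  MonoidAlgebra.mapDomainRingHom B (MonoidHom.inl G (Multiplicative ℤ))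

/-- the element `T` as an invertible scalar matrix over `B[G × ℤ]` -/
noncomputable def uT (B : Type v) [CommRing B] (G : Type u) [Group G] (N : ℕ) :
    GLm N (MonoidAlgebra B (G × Multiplicative ℤ)) :=
  scal N (grpHom B (G × Multiplicative ℤ)) ((1, Multiplicative.ofAdd 1) : G × Multiplicative ℤ)

variable {G : Type u} [Group G] {B : Type v} [CommRing B] {k : ℕ}

private theorem prod_fst {G : Type u} [Group G] (L : List G) :
    (L.map fun g => ((g, 1) : G × Multiplicative ℤ)).prod = (L.prod, 1) := by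
  induction L with
  | nil => rfl
  | cons a L ih =>
    rw [List.map_cons, List.prod_cons, ih, List.prod_cons]
    exact Prod.ext rfl (mul_one 1)

private theorem coeff_inG (a : MonoidAlgebra B G) (x : G × Multiplicative ℤ) :
    (inG B G a).coeff x = if x.2 = 1 then a.coeff x.1 else 0 := by
  classical
  induction a using MonoidAlgebra.induction_linear with
  | zero => simp
  | add a b ha hb =>
    rw [map_add, MonoidAlgebra.coeff_add, Finsupp.add_apply, ha, hb]
    split_ifs
    · rw [MonoidAlgebra.coeff_add, Finsupp.add_apply]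
    · rw [add_zero]
  | single β r =>
    rw [inG, MonoidAlgebra.mapDomainRingHom_apply, MonoidAlgebra.mapDomain_single,
      MonoidAlgebra.coeff_single, MonoidAlgebra.coeff_single, Finsupp.single_apply, Finsupp.single_apply]
    obtain ⟨x1, x2⟩ := x
    rw [MonoidHom.inl_apply]
    by_cases h2 : x2 = 1
    · subst h2
      by_cases h1 : β = x1
      · subst h1
        simp
      · simp [h1]
    · simp [Ne.symm h2, h2]

theorem cof_inG {N : ℕ} (a : Matrix (Fin N) (Fin N) (MonoidAlgebra B G))
    (x : G × Multiplicative ℤ) :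
    cof (a.map (inG B G)) x = if x.2 = 1 then cof a x.1 else 0 := by
  ext i j
  rw [cof, Matrix.map_apply, Matrix.map_apply, coeff_inG]
  split_ifs
  · rfl
  · rfl

omit [CommRing B] in
theorem CI_fst {K : ℕ} {c : G} {φ : (Fin K → G) → B} (hφ : CI c φ) :
    CI ((c, 1) : G × Multiplicative ℤ) (fun v : Fin K → G × Multiplicative ℤ => φ fun j => (v j).1) :=
  fun g hg v => hφ g.1 (congrArg Prod.fst hg) fun j => (v j).1

private theorem wv_fst {K : ℕ} {c : G} {φ : (Fin K → G) → B} (hφ : CI c φ) (g : Fin K → G) :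
    wv ((c, 1) : G × Multiplicative ℤ) (fun v => φ fun j => (v j).1) (fun j => (g j, 1)) =
      wv c φ g := by
  have hl : List.ofFn (fun j => ((g j, 1) : G × Multiplicative ℤ)) =
      (List.ofFn g).map fun g => ((g, 1) : G × Multiplicative ℤ) := by
    rw [List.map_ofFn]
    rfl
  by_cases h : ∃ u : G, u * (List.ofFn g).prod * u⁻¹ = c
  · obtain ⟨u, hu⟩ := h
    rw [wv_eq hφ g u hu, wv_eq (CI_fst hφ) _ ((u, 1) : G × Multiplicative ℤ)]
    · congr 1
      funext j
      show u * ((List.ofFn fun j => ((g j, 1) : G × Multiplicative ℤ)).take j).prod.1 = vtx u g j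
      rw [hl, ← List.map_take, prod_fst]
      rfl
    · rw [hl, prod_fst]
      refine Prod.ext hu ?_
      show (1 : Multiplicative ℤ) * 1 * 1⁻¹ = 1
      rw [mul_one, inv_one, mul_one]
  · rw [wv_zero c φ g fun u hu => h ⟨u, hu⟩, wv_zero]
    intro u hu
    apply h
    refine ⟨u.1, ?_⟩
    rw [hl, prod_fst] at hu
    exact congrArg Prod.fst hu

theorem TT_inG {K N : ℕ} [NeZero K] {c : G} {φ : (Fin K → G) → B} (hφ : CI c φ)
    (x : Fin K → GLm N (MonoidAlgebra B G)) :
    TT ((c, 1) : G × Multiplicative ℤ) (fun v => φ fun j => (v j).1)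
      (fun j => mapGL (inG B G) N (x j)) = TT c φ x := by
  classical
  have hx : lts (fun j => mapGL (inG B G) N (x j)) = fun j => (lts x j).map (inG B G) := by
    funext j
    unfold lts
    rw [← map_inv, ← map_mul, mapGL_val]
  obtain ⟨S, hS⟩ := exists_supp (lts x)
  let em : G ↪ G × Multiplicative ℤ := ⟨fun g => (g, 1), fun a b h => congrArg Prod.fst h⟩
  let eq : S ≃ S.map em := Equiv.ofBijective
    (fun s : S => (⟨em s, Finset.mem_map_of_mem em s.2⟩ : S.map em)) (by
      constructor
      · intro s t h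
        exact Subtype.ext (em.injective (congrArg Subtype.val h))
      · rintro ⟨y, hy⟩
        obtain ⟨g, hg, rfl⟩ := Finset.mem_map.1 hy
        exact ⟨⟨g, hg⟩, rfl⟩)
  unfold TT
  rw [hx, TM_eq (CI_fst hφ) (fun j => (lts x j).map (inG B G)) (S.map em), TM_eq hφ (lts x) S hS]
  · refine (Fintype.sum_equiv (Equiv.arrowCongr (Equiv.refl (Fin K)) eq) _ _ ?_).symm
    intro g
    have h1 : ∀ j, (((Equiv.arrowCongr (Equiv.refl (Fin K)) eq) g j :
        (S.map em)) : G × Multiplicative ℤ) = ((g j : G), 1) := fun j => rfl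
    simp only [h1]
    rw [wv_fst hφ]
    congr 3
    refine congrArg _ (funext fun j => ?_)
    rw [cof_inG, if_pos rfl]
  · intro j y hy
    rw [cof_inG] at hy
    by_cases h2 : y.2 = 1
    · rw [if_pos h2] at hy
      rw [Finset.mem_map]
      exact ⟨y.1, hS j y.1 hy, Prod.ext rfl h2.symm⟩
    · rw [if_neg h2] at hy
      exact absurd rfl hy

theorem CI_zero {G : Type u} [Group G] {K : ℕ} (c : G) :
    CI c (fun _ : Fin K → G => (0 : B)) := fun _ _ _ => rfl

theorem vtx_succ {G : Type u} [Group G] {K : ℕ} (u : G) (g : Fin K → G) (j t : Fin K)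
    (h : (t : ℕ) = (j : ℕ) + 1) : vtx u g t = vtx u g j * g j := by
  unfold vtx
  rw [h, List.take_succ_eq_append_getElem (by rw [List.length_ofFn]; exact j.2), List.prod_append,
    List.prod_singleton, List.getElem_ofFn, mul_assoc]

/-- the letters inside a block -/
theorem blk_val {q k : ℕ} (b : Fin q) (a a' : Fin (k + 1)) (h : (a' : ℕ) = (a : ℕ) + 1) :
    ((finProdFinEquiv (b, a') : Fin (q * (k + 1))) : ℕ) =
      ((finProdFinEquiv (b, a) : Fin (q * (k + 1))) : ℕ) + 1 := by
  rw [finProdFinEquiv_apply_val, finProdFinEquiv_apply_val]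
  change (a' : ℕ) + (k + 1) * (b : ℕ) = (a : ℕ) + (k + 1) * (b : ℕ) + 1
  omega

theorem cof_diag {G : Type u} [Group G] {N : ℕ} (z g : G)
    (h : cof (diagonal fun _ : Fin N => (MonoidAlgebra.single z (1 : B))) g ≠ 0) : g = z := by
  classical
  by_contra hg
  apply h
  ext i j
  show ((diagonal fun _ : Fin N => (MonoidAlgebra.single z (1 : B))) i j).coeff g = 0
  by_cases hij : i = j
  · subst hij
    rw [Matrix.diagonal_apply_eq, MonoidAlgebra.coeff_single, Finsupp.single_eq_of_ne hg]
  · rw [Matrix.diagonal_apply_ne _ hij]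
    rfl

/-- `T` is central -/
theorem uT_comm {N : ℕ} (x : GLm N (MonoidAlgebra B G)) :
    uT B G N * mapGL (inG B G) N x = mapGL (inG B G) N x * uT B G N := by
  refine scal_comm (inG B G)
    ((grpHom B (G × Multiplicative ℤ)).comp (MonoidHom.inr G (Multiplicative ℤ))) ?_ x
    (Multiplicative.ofAdd 1)
  intro γ b
  change inG B G b * MonoidAlgebra.single ((1, γ) : G × Multiplicative ℤ) (1 : B) =
    MonoidAlgebra.single ((1, γ) : G × Multiplicative ℤ) (1 : B) * inG B G b
  induction b using MonoidAlgebra.induction_linear with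
  | zero => rw [map_zero, zero_mul, mul_zero]
  | add a b ha hb => rw [map_add, add_mul, mul_add, ha, hb]
  | single β r =>
    rw [inG, MonoidAlgebra.mapDomainRingHom_apply, MonoidAlgebra.mapDomain_single,
      MonoidAlgebra.single_mul_single, MonoidAlgebra.single_mul_single, mul_one, one_mul]
    congr 1
    exact Prod.ext ((mul_one β).trans (one_mul β).symm) ((one_mul γ).trans (mul_one γ).symm)

theorem conj_aux {Λ : Type*} [Group Λ] (u X Y : Λ) (h1 : u * X = X * u)
    (h2 : u * Y = Y * u) : (X * u)⁻¹ * (Y * u) = X⁻¹ * Y := by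
  rw [← h1, ← h2, _root_.mul_inv_rev, mul_assoc, inv_mul_cancel_left]

/-- the omission of the last vertex of each block -/
def lastf (q k : ℕ) (t : Fin (q * (k + 1))) : Fin (q * (k + 1 + 1)) :=
  finProdFinEquiv ((finProdFinEquiv.symm t).1, (finProdFinEquiv.symm t).2.castSucc)

theorem lastf_mono (q k : ℕ) : StrictMono (lastf q k) := by
  intro s t hst
  obtain ⟨⟨b, j⟩, rfl⟩ := finProdFinEquiv.surjective s
  obtain ⟨⟨b', j'⟩, rfl⟩ := finProdFinEquiv.surjective t
  rw [lastf, lastf, Equiv.symm_apply_apply, Equiv.symm_apply_apply]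
  simp only [Fin.lt_def, finProdFinEquiv_apply_val, Fin.val_castSucc] at hst ⊢
  have h1 : (j : ℕ) < k + 1 := j.2
  have h2 : (j' : ℕ) < k + 1 := j'.2
  rcases lt_trichotomy (b : ℕ) (b' : ℕ) with h | h | h
  · have h4 : (k + 1 + 1) * ((b : ℕ) + 1) ≤ (k + 1 + 1) * (b' : ℕ) := Nat.mul_le_mul_left _ h
    have h5 : (k + 1 + 1) * ((b : ℕ) + 1) = (k + 1 + 1) * (b : ℕ) + (k + 2) := by ring
    omega
  · rw [h] at hst ⊢
    omega
  · exfalso
    have h4 : (k + 1) * ((b' : ℕ) + 1) ≤ (k + 1) * (b : ℕ) := Nat.mul_le_mul_left _ h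
    have h5 : (k + 1) * ((b' : ℕ) + 1) = (k + 1) * (b' : ℕ) + (k + 1) := by ring
    omega

/-- cyclic products telescope -/
theorem prod_cyc {G : Type u} [Group G] {K : ℕ} [NeZero K] (y : Fin K → G) :
    (List.ofFn fun j => (y j)⁻¹ * y (j + 1)).prod = 1 := by
  have h : ∀ t, t ≤ K → ((List.ofFn fun j => (y j)⁻¹ * y (j + 1)).take t).prod =
      (y 0)⁻¹ * y (Fin.ofNat K t) := by
    intro t
    induction t with
    | zero =>
      intro _
      have h0 : (Fin.ofNat K 0 : Fin K) = 0 := rfl
      rw [List.take_zero, List.prod_nil, h0, inv_mul_cancel]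
    | succ t ih =>
      intro ht
      have ht' : t < K := ht
      rw [List.take_succ_eq_append_getElem (by rw [List.length_ofFn]; exact ht'), List.prod_append,
        List.prod_singleton, List.getElem_ofFn, ih ht'.le]
      have h1 : (Fin.ofNat K t : Fin K) = ⟨t, ht'⟩ := Fin.ext (Nat.mod_eq_of_lt ht')
      have h2 : (Fin.ofNat K (t + 1) : Fin K) = ⟨t, ht'⟩ + 1 := by
        apply Fin.ext
        rw [Fin.val_add]
        change (t + 1) % K = (t + 1 % K) % K
        rw [Nat.add_mod_mod]
      rw [h1, h2]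
      group
  have h0 : (Fin.ofNat K K : Fin K) = 0 := Fin.ext (by
    change K % K = 0 % K
    rw [Nat.mod_self, Nat.zero_mod])
  have h2 := h K le_rfl
  rw [List.take_of_length_le (by rw [List.length_ofFn]), h0, inv_mul_cancel] at h2
  exact h2

end

end Pool.Agent.H39.KL

end

section

/-!
# Project KL: the value of the functional of `G × ℤ` on the products `{T} × x`; monomial chains

`inG : B[G] → B[G × ℤ]` is the inclusion, `uT` the element `T` of `B[G × ℤ]`.

PROOF of `TT_inG`.  Words with non-zero coefficients have all letters in `G × 1`; `TM_eq` for both sides (with the finite set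
`S ↪ G × ℤ`), or `TT_congr` and the naturality `wf_map` / `lam_map` of `FQ/TB.lean`.
PROOF of `val_T`.  Both sides are additive; for a tuple `x = (x_0, …, x_{k+1})` `pri_single` gives the sum over `i ≤ k + 1` of
`(-1) ^ i` times the tuple `(x_0, …, x_i, x_i T, …, x_{k+1} T)`.  `TR_t`, `TT_congr` (`CIq_phiT`): in a word with non-zero
coefficients (of the repeated tuple) the letter between the last two vertices of a block has degree `0` if `i ≤ k`, so
`dg (v_{k+2} b) = dg (v_{k+1} b)` for all `b`, so `lmin B v_{k+1} v_{k+2} = 0` and the value is `0`.  For `i = k + 1` the letters inside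
`(x_0, …, x_{k+1})` have degree `0`, the letter from `x_{k+1}` to `x_{k+1} T` degree `1`, the closing letter from `x_{k+1} T` to `x_0` degree
`-1`: the degree of `v_j b`, `j ≤ k + 1`, is a constant and that of `v_{k+2} b` is this constant plus `1`, so `lmin = 1` and the
cochain is the cochain of `phiG ψ τ` of the first components of the vertices `v_0, …, v_{k+1}`; `TT_comp` (omission of the last
vertex of each block, strictly monotone), and `TT_inG`.
PROOF of `val_mono`.  The repeated tuple of a tuple of `1 × 1` matrices `g_j ∈ G`: the letters are `g_j⁻¹ g_{j+1}`, the product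
of a word with non-zero coefficients is `1`, which is not conjugate to `c ≠ 1`: `TM_eq`, `wv_zero` (or `TT_congr` with `0`).
-/

set_option autoImplicit false

open Matrix

universe u v w

namespace Pool.Agent.H39.KL

open Pool.Agent.H71.FQ Pool.Agent.H16.KN Pool.Agent.H16.FU

section

variable {G : Type u} [Group G] {B : Type v} [CommRing B] {k : ℕ}

/-- a cochain which vanishes -/
private theorem TT_zero {G : Type u} [Group G] {K N : ℕ} [NeZero K] (c : G)
    (x : Fin K → GLm N (MonoidAlgebra B G)) : TT c (fun _ => (0 : B)) x = 0 := by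
  have h := TM_smul c (fun _ : Fin K → G => (0 : B)) 0 (lts x)
  simp only [zero_mul] at h
  exact h

omit [CommRing B] in
private theorem CI_flat' {G : Type u} [Group G] {k : ℕ} {c : G} {q : ℕ}
    {Φ : (Fin (k + 1) → Fin q → G) → B} (hΦ : CIq c q Φ) :
    CI c (flat q Φ) := fun g hg _ => hΦ g hg _

private theorem dg_mul' (x y : G × Multiplicative ℤ) : dg (x * y) = dg x + dg y := rfl

private theorem mnd_le {q : ℕ} [NeZero q] (a b : Fin q → G × Multiplicative ℤ) (e : ℤ)
    (h : ∀ t, dg (b t) = dg (a t) + e) : mnd b ≤ mnd a + e := by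
  unfold mnd
  obtain ⟨t, -, ht⟩ := Finset.exists_mem_eq_inf' (s := (Finset.univ : Finset (Fin q)))
    ⟨0, Finset.mem_univ 0⟩ fun b => dg (a b)
  rw [ht, ← h t]
  exact Finset.inf'_le _ (Finset.mem_univ t)

private theorem mnd_eq {q : ℕ} [NeZero q] (a b : Fin q → G × Multiplicative ℤ) (e : ℤ)
    (h : ∀ t, dg (b t) = dg (a t) + e) : mnd b = mnd a + e := by
  have h1 := mnd_le a b e h
  have h2 := mnd_le b a (-e) fun t => by rw [h t]; ring
  omega

private theorem lmin_eq {q : ℕ} [NeZero q] (a b : Fin q → G × Multiplicative ℤ) (e : ℤ)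
    (h : ∀ t, dg (b t) = dg (a t) + e) : lmin B a b = (e : B) := by
  unfold lmin
  rw [mnd_eq a b e h]
  congr 1
  ring

private theorem val_add_one' {n : ℕ} [NeZero n] (t : Fin n) (h : (t : ℕ) + 1 < n) :
    ((t + 1 : Fin n) : ℕ) = (t : ℕ) + 1 := by
  rw [Fin.val_add, Fin.val_one', Nat.mod_eq_of_lt (by omega : 1 < n), Nat.mod_eq_of_lt h]

private theorem lts_rep {G : Type u} [Group G] {q k N : ℕ} [NeZero q]
    (X : Fin (k + 1) → GLm N (MonoidAlgebra B G))
    (b : Fin q) (a a' : Fin (k + 1)) (h : (a' : ℕ) = (a : ℕ) + 1) :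
    lts (rep q X) (finProdFinEquiv (b, a)) = ((X a)⁻¹ * X a').val := by
  have h1 : (finProdFinEquiv (b, a) : Fin (q * (k + 1))) + 1 = finProdFinEquiv (b, a') := by
    apply Fin.ext
    have h2 := blk_val b a a' h
    rw [val_add_one' _ (by rw [← h2]; exact (finProdFinEquiv (b, a')).2), h2]
  unfold lts
  rw [h1, rep, rep, Equiv.symm_apply_apply, Equiv.symm_apply_apply]

/-- the terms of the prism with `i ≤ k` -/
private theorem term_zero {p m r : ℕ} [Fact p.Prime] {c : G} {ψ : (Fin (k + 1) → Fin (p ^ m) → G) → B}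
    (h1 : CIq c (p ^ m) ψ) {τ : (Fin (p ^ m) → G) → ZMod (p ^ m)} (hτ : IsTau p m r c τ) (N : ℕ)
    (x : Fin (k + 2) → GLm N (MonoidAlgebra B G)) (i : Fin (k + 2)) (hi : (i : ℕ) < k + 1) :
    TT ((c, 1) : G × Multiplicative ℤ) (flat (p ^ m) (phiT ψ τ))
      (rep (p ^ m) (priT (uT B G N) (fun j => mapGL (inG B G) N (x j)) i)) = 0 := by
  rw [← TT_zero (B := B) ((c, 1) : G × Multiplicative ℤ)
    (rep (p ^ m) (priT (uT B G N) (fun j => mapGL (inG B G) N (x j)) i))]
  refine TT_congr (CI_flat' (CIq_phiT h1 hτ)) (CI_zero _) _ ?_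
  intro g u hg _
  have ha : (((Fin.last (k + 2) : Fin (k + 3)) : ℕ)) = ((Fin.last (k + 1)).castSucc : Fin (k + 3)) + 1 := by
    rw [Fin.val_last, Fin.val_castSucc, Fin.val_last]
  have key : ∀ b : Fin (p ^ m),
      dg (vtx u g (finProdFinEquiv (b, (Fin.last (k + 2) : Fin (k + 3))))) =
        dg (vtx u g (finProdFinEquiv (b, ((Fin.last (k + 1)).castSucc : Fin (k + 3))))) + 0 := by
    intro b
    rw [vtx_succ u g (finProdFinEquiv (b, ((Fin.last (k + 1)).castSucc : Fin (k + 3))))
      (finProdFinEquiv (b, (Fin.last (k + 2) : Fin (k + 3)))) (blk_val b _ _ ha), dg_mul']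
    congr 1
    have h2 := hg (finProdFinEquiv (b, ((Fin.last (k + 1)).castSucc : Fin (k + 3))))
    rw [lts_rep _ b _ _ ha] at h2
    have h3 : (priT (uT B G N) (fun j => mapGL (inG B G) N (x j)) i (Fin.last (k + 1)).castSucc)⁻¹ *
        priT (uT B G N) (fun j => mapGL (inG B G) N (x j)) i (Fin.last (k + 2)) =
        mapGL (inG B G) N ((x (i.predAbove (Fin.last (k + 1)).castSucc))⁻¹ *
          x (i.predAbove (Fin.last (k + 2)))) := by
      unfold priT
      rw [if_pos (by rw [Fin.lt_def]; exact hi), if_pos (by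
        rw [Fin.lt_def]
        show (i : ℕ) < k + 2
        omega)]
      rw [conj_aux _ _ _ (uT_comm _) (uT_comm _), map_mul, map_inv]
    rw [h3, mapGL_val, cof_inG] at h2
    by_cases h4 : (g (finProdFinEquiv (b, ((Fin.last (k + 1)).castSucc : Fin (k + 3))))).2 = 1
    · unfold dg
      rw [h4]
      rfl
    · rw [if_neg h4] at h2
      exact absurd rfl h2
  show phiT ψ τ (fun j b => vtx u g (finProdFinEquiv (b, j))) = 0
  unfold phiT
  rw [pL, lmin_eq _ _ 0 key, Int.cast_zero, mul_zero]

/-- the last term of the prism -/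
private theorem term_last {p m r : ℕ} [Fact p.Prime] {c : G} {ψ : (Fin (k + 1) → Fin (p ^ m) → G) → B}
    (h1 : CIq c (p ^ m) ψ) {τ : (Fin (p ^ m) → G) → ZMod (p ^ m)} (hτ : IsTau p m r c τ) (N : ℕ)
    (x : Fin (k + 2) → GLm N (MonoidAlgebra B G)) :
    TT ((c, 1) : G × Multiplicative ℤ) (flat (p ^ m) (phiT ψ τ))
      (rep (p ^ m) (priT (uT B G N) (fun j => mapGL (inG B G) N (x j)) (Fin.last (k + 1)))) =
      TT c (flat (p ^ m) (phiG ψ τ)) (rep (p ^ m) x) := by
  have hG := CI_flat' (CIq_phiG h1 hτ)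
  have hG' := CI_fst hG
  have hX : ∀ j : Fin (k + 2), priT (uT B G N) (fun j => mapGL (inG B G) N (x j)) (Fin.last (k + 1))
      j.castSucc = mapGL (inG B G) N (x j) := by
    intro j
    unfold priT
    rw [if_neg (by rw [Fin.lt_def]; have := j.2; rw [Fin.val_castSucc, Fin.val_castSucc, Fin.val_last]; omega),
      Fin.predAbove_last_castSucc]
  have hX' : priT (uT B G N) (fun j => mapGL (inG B G) N (x j)) (Fin.last (k + 1))
      (Fin.last (k + 2)) = mapGL (inG B G) N (x (Fin.last (k + 1))) * uT B G N := by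
    unfold priT
    rw [if_pos (by rw [Fin.lt_def]; show k + 1 < k + 2; omega)]
    congr 3
    apply Fin.ext
    simp [Fin.predAbove]
  have hstep : TT ((c, 1) : G × Multiplicative ℤ) (flat (p ^ m) (phiT ψ τ))
      (rep (p ^ m) (priT (uT B G N) (fun j => mapGL (inG B G) N (x j)) (Fin.last (k + 1)))) =
      TT ((c, 1) : G × Multiplicative ℤ)
        (fun v => (fun y : Fin (p ^ m * (k + 1 + 1)) → G × Multiplicative ℤ =>
          flat (p ^ m) (phiG ψ τ) fun t => (y t).1) fun t => v (lastf (p ^ m) (k + 1) t))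
      (rep (p ^ m) (priT (uT B G N) (fun j => mapGL (inG B G) N (x j)) (Fin.last (k + 1)))) := by
    refine TT_congr (CI_flat' (CIq_phiT h1 hτ)) (fun g hg v => hG' g hg _) _ ?_
    intro g u hg _
    have ha : (((Fin.last (k + 2) : Fin (k + 3)) : ℕ)) =
        ((Fin.last (k + 1)).castSucc : Fin (k + 3)) + 1 := by
      rw [Fin.val_last, Fin.val_castSucc, Fin.val_last]
    have key : ∀ b : Fin (p ^ m),
        dg (vtx u g (finProdFinEquiv (b, (Fin.last (k + 2) : Fin (k + 3))))) =
          dg (vtx u g (finProdFinEquiv (b, ((Fin.last (k + 1)).castSucc : Fin (k + 3))))) + 1 := by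
      intro b
      rw [vtx_succ u g (finProdFinEquiv (b, ((Fin.last (k + 1)).castSucc : Fin (k + 3))))
        (finProdFinEquiv (b, (Fin.last (k + 2) : Fin (k + 3)))) (blk_val b _ _ ha), dg_mul']
      congr 1
      have h2 := hg (finProdFinEquiv (b, ((Fin.last (k + 1)).castSucc : Fin (k + 3))))
      rw [lts_rep _ b _ _ ha, hX, hX', inv_mul_cancel_left, uT, scal_val] at h2
      rw [cof_diag _ _ h2]
      rfl
    show phiT ψ τ (fun j b => vtx u g (finProdFinEquiv (b, j))) = phiG ψ τ _
    unfold phiT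
    rw [pL, lmin_eq _ _ 1 key, Int.cast_one, mul_one]
    unfold phiG
    rw [pL, pL]
    simp only [lastf, Equiv.symm_apply_apply]
    rfl
  rw [hstep, TT_comp hG' (lastf (p ^ m) (k + 1)) (lastf_mono _ _)]
  have hr : (fun t => rep (p ^ m)
      (priT (uT B G N) (fun j => mapGL (inG B G) N (x j)) (Fin.last (k + 1)))
      (lastf (p ^ m) (k + 1) t)) = fun t => mapGL (inG B G) N (rep (p ^ m) x t) := by
    funext t
    rw [rep, lastf, Equiv.symm_apply_apply, hX, rep]
  rw [hr]
  exact TT_inG hG (rep (p ^ m) x)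

/-- **The value on `{T} × x`.** -/
theorem val_T {p m r : ℕ} [Fact p.Prime] {c : G} {ψ : (Fin (k + 1) → Fin (p ^ m) → G) → B}
    (h1 : CIq c (p ^ m) ψ) {τ : (Fin (p ^ m) → G) → ZMod (p ^ m)} (hτ : IsTau p m r c τ) (N : ℕ)
    (x : Cx ℤ (GLm N (MonoidAlgebra B G)) (k + 1)) :
    TR (p ^ m) ((c, 1) : G × Multiplicative ℤ) (phiT ψ τ)
        (ch N (pri (uT B G N) (k + 1) (push ℤ (mapGL (inG B G) N) (k + 1) x))) =
      (-1) ^ (k + 1) * TR (p ^ m) c (phiG ψ τ) (ch N x) := by
  refine cx_ext
    (f := ((TR (p ^ m) ((c, 1) : G × Multiplicative ℤ) (phiT ψ τ)).comp (ch N)).toIntLinearMap.comp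
      ((pri (uT B G N) (k + 1)).comp (push ℤ (mapGL (inG B G) N) (k + 1))))
    (g := ((AddMonoidHom.mulLeft ((-1 : B) ^ (k + 1))).comp
      ((TR (p ^ m) c (phiG ψ τ)).comp (ch N))).toIntLinearMap) ?_ x
  intro x
  show TR (p ^ m) ((c, 1) : G × Multiplicative ℤ) (phiT ψ τ)
        (ch N (pri (uT B G N) (k + 1) (push ℤ (mapGL (inG B G) N) (k + 1) (Finsupp.single x 1)))) =
      (-1) ^ (k + 1) * TR (p ^ m) c (phiG ψ τ) (ch N (Finsupp.single x 1))
  rw [push_single, pri_single, map_sum, map_sum, ch_single, TR_t, Fin.sum_univ_castSucc]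
  rw [Finset.sum_eq_zero, zero_add]
  · rw [map_zsmul, map_zsmul, ch_single, TR_t, term_last h1 hτ, Fin.val_last, zsmul_eq_mul]
    push_cast
    rfl
  · intro i _
    rw [map_zsmul, map_zsmul, ch_single, TR_t, term_zero h1 hτ N x i.castSucc i.2, smul_zero]

/-- **The value on monomial chains.** -/
theorem val_mono {p m r : ℕ} [Fact p.Prime] {c : G} (hc : c ≠ 1)
    {ψ : (Fin (k + 1) → Fin (p ^ m) → G) → B}
    (h1 : CIq c (p ^ m) ψ) {τ : (Fin (p ^ m) → G) → ZMod (p ^ m)} (hτ : IsTau p m r c τ)
    (N : ℕ) (y : Cx ℤ G (k + 1)) :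
    TR (p ^ m) c (phiG ψ τ) (ch N (push ℤ (scal N (grpHom B G)) (k + 1) y)) = 0 := by
  refine cx_ext
    (f := ((TR (p ^ m) c (phiG ψ τ)).comp (ch N)).toIntLinearMap.comp
      (push ℤ (scal N (grpHom B G)) (k + 1)))
    (g := 0) ?_ y
  intro x
  show TR (p ^ m) c (phiG ψ τ) (ch N (push ℤ (scal N (grpHom B G)) (k + 1) (Finsupp.single x 1))) = 0
  rw [push_single, ch_single, TR_t, ← TT_zero (B := B) c
    (rep (p ^ m) fun j => scal N (grpHom B G) (x j))]
  refine TT_congr (CI_flat' (CIq_phiG h1 hτ)) (CI_zero _) _ ?_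
  intro g u hg hu
  exfalso
  have h2 : g = fun t => (rep (p ^ m) x t)⁻¹ * rep (p ^ m) x (t + 1) := by
    funext t
    have h3 := hg t
    have h4 : lts (rep (p ^ m) fun j => scal N (grpHom B G) (x j)) t =
        diagonal fun _ : Fin N =>
          (MonoidAlgebra.single ((rep (p ^ m) x t)⁻¹ * rep (p ^ m) x (t + 1)) (1 : B)) := by
      unfold lts
      have h5 : ∀ s, rep (p ^ m) (fun j => scal N (grpHom B G) (x j)) s =
          scal N (grpHom B G) (rep (p ^ m) x s) := fun s => rfl
      rw [h5, h5, ← map_inv, ← map_mul, scal_val]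
      rfl
    rw [h4] at h3
    exact cof_diag _ _ h3
  rw [h2, prod_cyc, mul_one, mul_inv_cancel] at hu
  exact hc hu.symm

end

end Pool.Agent.H39.KL

end
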