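import Pool.Agent.H13.TFQ.H71.FJ.Group
import Pool.Agent.H13.TFQ.M21

/-! The parts of this file: H71.FJ.Artin_1, H71.FJ.Artin2. -/

section

/-!
# Artin type induction theorem for `K₀(k[F]) ⊗ ℚ`, `F` finite
-/

set_option autoImplicit false

open Matrix
open scoped Classical

universe u v w

namespace Pool.Agent.H71.FJ

section Sum

end Sum

section Vanish

variable {B : Type u} [CommRing B] {K : Type w} [Field K] {F : Type v} [Group F] [Fintype F]

theorem psi_functional (c : F) (h : F) (r : B) :
    ((clsFun (dlt B (⟨c, Subgroup.mem_zpowers c⟩ : Subgroup.zpowers c))).comp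
      ((traceAddMonoidHom _ _).comp (lamR B (Subgroup.zpowers c)).toAddMonoidHom))
      (MonoidAlgebra.single h r) = r * psi B c h := by
  simp only [AddMonoidHom.comp_apply, traceAddMonoidHom_apply]
  change clsFun _ (trace (lam B (Subgroup.zpowers c) (MonoidAlgebra.single h r))) = _
  simp only [trace, diag, lam_single, map_sum, psi, Finset.mul_sum]
  apply Finset.sum_congr rfl
  intro x _
  by_cases hx : x.out⁻¹ * h * x.out = c
  · have hm : x.out⁻¹ * h * x.out ∈ Subgroup.zpowers c := by
      rw [hx]
      exact Subgroup.mem_zpowers c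
    rw [dif_pos hm, clsFun_single, if_pos hx]
    congr 1
    have : (⟨x.out⁻¹ * h * x.out, hm⟩ : Subgroup.zpowers c) = ⟨c, Subgroup.mem_zpowers c⟩ :=
      Subtype.ext hx
    rw [this, dlt_self]
  · rw [if_neg hx, mul_zero]
    by_cases hm : x.out⁻¹ * h * x.out ∈ Subgroup.zpowers c
    · rw [dif_pos hm, clsFun_single, dlt_ne, mul_zero]
      intro h1
      exact hx (congrArg Subtype.val h1)
    · rw [dif_neg hm, map_zero]

theorem psi_comm (c x y : F) : psi B c (x * y) = psi B c (y * x) := by
  have h1 := psi_functional (B := B) c (x * y) 1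
  have h2 := psi_functional (B := B) c (y * x) 1
  rw [one_mul] at h1 h2
  rw [← h1, ← h2]
  have e1 : MonoidAlgebra.single (x * y) (1 : B) = MonoidAlgebra.single x 1 *
    MonoidAlgebra.single y 1 := by rw [MonoidAlgebra.single_mul_single, one_mul]
  have e2 : MonoidAlgebra.single (y * x) (1 : B) = MonoidAlgebra.single y 1 *
    MonoidAlgebra.single x 1 := by rw [MonoidAlgebra.single_mul_single, one_mul]
  rw [e1, e2]
  exact K0.trace_push_aux _ (clsFun_comm _ (fun a b => by rw [zc_comm c a b])) _ _ _

theorem T_psi {φ : B →+* K} (hn : NilKer φ) (c : F) (hc : (orderOf c : K) = 0)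
    (x : K0 (MonoidAlgebra B F)) : T (psi B c) (psi_comm c) x = 0 := by
  have hcomm : ∀ a b : Subgroup.zpowers c,
      dlt B (⟨c, Subgroup.mem_zpowers c⟩ : Subgroup.zpowers c) (a * b) =
      dlt B (⟨c, Subgroup.mem_zpowers c⟩ : Subgroup.zpowers c) (b * a) :=
    fun a b => by rw [zc_comm c a b]
  have h1 : T (dlt B (⟨c, Subgroup.mem_zpowers c⟩ : Subgroup.zpowers c)) hcomm
      (K0.push (lamR B (Subgroup.zpowers c)) x) = T (psi B c) (psi_comm c) x := by
    rw [T, K0.tr_push]
    refine K0.tr_congr _ _ ?_ x
    ext h r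
    simp only [AddMonoidHom.comp_apply, MonoidAlgebra.singleAddHom_apply]
    rw [clsFun_single, ← psi_functional]
    rfl
  rw [← h1]
  let _ := zcComm c
  have h2 : (orderOf (⟨c, Subgroup.mem_zpowers c⟩ : Subgroup.zpowers c) : K) = 0 := by
    rw [Subgroup.orderOf_mk]
    exact hc
  exact @abelian_vanish B _ K _ (Subgroup.zpowers c) (zcComm c) _ φ hn _ h2 _ hcomm

theorem sing_vanish {φ : B →+* K} (hn : NilKer φ) (x : K0 (MonoidAlgebra B F)) :
    T (fun h => (Nat.card F : B) * sing B K h) (fun x y => by rw [sing_comm]) x = 0 := by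
  have hid : ∀ h : F, (Nat.card F : B) * sing B K h =
      ∑ c ∈ Finset.univ.filter (fun c : F => (orderOf c : K) = 0),
        (Nat.card (Subgroup.zpowers c) : B) * psi B c h := by
    intro h
    simp only [card_mul_psi]
    rw [Finset.sum_comm]
    have : ∀ y : F, ∑ c ∈ Finset.univ.filter (fun c : F => (orderOf c : K) = 0),
        (if y⁻¹ * h * y = c then (1 : B) else 0) = sing B K h := by
      intro y
      rw [Finset.sum_ite_eq]
      unfold sing
      simp only [Finset.mem_filter, Finset.mem_univ, true_and, orderOf_conj']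
    simp only [this, Finset.sum_const, Finset.card_univ, nsmul_eq_mul, Nat.card_eq_fintype_card]
  rw [T_congr _ (fun x y => by simp only [psi_comm]) hid,
    T_sum _ _ (fun c => psi B c) (fun c => psi_comm c)]
  apply Finset.sum_eq_zero
  intro c hc
  rw [T_psi hn c (Finset.mem_filter.1 hc).2, mul_zero]

end Vanish

section Rank

theorem T_add {B : Type u} [CommRing B] {G : Type v} [Group G] (f g : G → B)
    (hf : ∀ x y, f (x * y) = f (y * x)) (hg : ∀ x y, g (x * y) = g (y * x))
    (hfg : ∀ x y, f (x * y) + g (x * y) = f (y * x) + g (y * x)) (x : K0 (MonoidAlgebra B G)) :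
    T (fun a => f a + g a) hfg x = T f hf x + T g hg x := by
  have : T (fun a => f a + g a) hfg = T f hf + T g hg := by
    apply K0.hom_ext
    intro a
    simp only [T, K0.tr_mk, AddMonoidHom.add_apply]
    exact clsFun_add f g _
  rw [this]
  rfl

theorem T_mul {B : Type u} [CommRing B] {G : Type v} [Group G] (m : B) (f : G → B)
    (hf : ∀ x y, f (x * y) = f (y * x)) (hf' : ∀ x y, m * f (x * y) = m * f (y * x))
    (x : K0 (MonoidAlgebra B G)) : T (fun a => m * f a) hf' x = m * T f hf x := by
  have : T (fun a => m * f a) hf' = (AddMonoidHom.mulLeft m).comp (T f hf) := by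
    apply K0.hom_ext
    intro a
    simp only [T, K0.tr_mk, AddMonoidHom.comp_apply, AddMonoidHom.coe_mulLeft]
    exact clsFun_mul m f _
  rw [this]
  rfl

theorem tr_aug (R : Type u) [CommRing R] {F : Type v} [Group F] (x : K0 (MonoidAlgebra R F)) :
    K0.tr (AddMonoidHom.id R) (fun x y => mul_comm x y) (K0.map (aug R F).toRingHom x) =
      T (fun _ => 1) (fun _ _ => rfl) x := by
  rw [K0.tr_map]
  refine K0.tr_congr _ _ ?_ x
  ext h r
  simp only [AddMonoidHom.comp_apply, MonoidAlgebra.singleAddHom_apply]
  rw [clsFun_single, mul_one]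
  exact aug_single R h r

variable {F : Type v} [Group F] [Fintype F]

theorem card_mul_fixN (D : Subgroup F) (h : F) : Nat.card D * fixN D h =
    ∑ y : F, if y⁻¹ * h * y ∈ D then 1 else 0 := by
  rw [sum_out D (fun y => if y⁻¹ * h * y ∈ D then 1 else 0), smul_eq_mul, fixN,
    Finset.card_filter]
  · congr 1
    apply Finset.sum_congr rfl
    intro x _
    by_cases hx : x = h • x
    · rw [if_pos hx, if_pos ((out_mem_iff D h x x).2 hx)]
    · rw [if_neg hx, if_neg (fun hh => hx ((out_mem_iff D h x x).1 hh))]
  · intro y d hd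
    have : (y * d)⁻¹ * h * (y * d) ∈ D ↔ y⁻¹ * h * y ∈ D := by
      have e : (y * d)⁻¹ * h * (y * d) = d⁻¹ * (y⁻¹ * h * y) * d := by group
      rw [e]
      constructor
      · intro h1
        have h2 : y⁻¹ * h * y = d * (d⁻¹ * (y⁻¹ * h * y) * d) * d⁻¹ := by group
        rw [h2]
        exact D.mul_mem (D.mul_mem hd h1) (D.inv_mem hd)
      · intro h1
        exact D.mul_mem (D.mul_mem (D.inv_mem hd) h1) hd
    simp only [this]

theorem perm_comm {R : Type u} [CommRing R] (D : Subgroup F) (x y : F) :
    (fixN D (x * y) : R) = fixN D (y * x) := by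
  have := trace_rep_comm R (perm R (F ⧸ D)) x y
  rw [trace_perm, trace_perm] at this
  exact this

theorem tr_perm {R : Type u} [CommRing R] (D : Subgroup F) (x : K0 (MonoidAlgebra R F)) :
    K0.tr (AddMonoidHom.id R) (fun x y => mul_comm x y) (K0.push (permR R (F ⧸ D)) x) =
      T (fun h => (fixN D h : R)) (perm_comm D) x := by
  rw [show K0.push (permR R (F ⧸ D)) x = K0.push ((perm R (F ⧸ D) :
    MonoidAlgebra R F →ₐ[R] Matrix (F ⧸ D) (F ⧸ D) R) :
    MonoidAlgebra R F →+* Matrix (F ⧸ D) (F ⧸ D) R) x from rfl,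
    tr_push_rep R (perm R (F ⧸ D)) (trace_rep_comm R _) x]
  apply T_congr
  intro h
  rw [trace_perm]
  rfl

theorem fix_identity {B : Type u} [CommRing B] {K : Type w} [Field K]
    (s : Finset (Subgroup F)) (ν : Subgroup F → ℤ)
    (h1 : ∀ D ∈ s, ∀ h ∈ D, (orderOf h : K) ≠ 0)
    (h2 : ∀ h : F, (orderOf h : K) ≠ 0 → ∑ D ∈ s.filter (fun D => h ∈ D), ν D = 1) (h : F) :
    (Nat.card F : B) * 1 = (Nat.card F : B) * sing B K h +
      ∑ D ∈ s, ((ν D : B) * Nat.card D) * fixN D h := by
  have e1 : ∀ D ∈ s, ((ν D : B) * Nat.card D) * fixN D h =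
      ∑ y : F, if y⁻¹ * h * y ∈ D then (ν D : B) else 0 := by
    intro D _
    have := card_mul_fixN D h
    rw [mul_assoc, ← Nat.cast_mul, this, Nat.cast_sum, Finset.mul_sum]
    apply Finset.sum_congr rfl
    intro y _
    split_ifs <;> simp
  rw [Finset.sum_congr rfl e1, Finset.sum_comm]
  have e2 : ∀ y : F, ∑ D ∈ s, (if y⁻¹ * h * y ∈ D then (ν D : B) else 0) =
      1 - sing B K h := by
    intro y
    rw [← Finset.sum_filter]
    by_cases hy : (orderOf h : K) = 0
    · have : s.filter (fun D => y⁻¹ * h * y ∈ D) = ∅ := by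
        rw [Finset.filter_eq_empty_iff]
        intro D hD hmem
        apply h1 D hD _ hmem
        rw [orderOf_conj']
        exact hy
      rw [this, Finset.sum_empty, sing, if_pos hy, sub_self]
    · have := h2 (y⁻¹ * h * y) (by rw [orderOf_conj']; exact hy)
      rw [sing, if_neg hy, sub_zero]
      have h3 : ((∑ D ∈ s.filter (fun D => y⁻¹ * h * y ∈ D), ν D : ℤ) : B) = 1 := by
        rw [this, Int.cast_one]
      rw [← h3, Int.cast_sum]
  simp only [e2, Finset.sum_const, Finset.card_univ, nsmul_eq_mul, Nat.card_eq_fintype_card]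
  ring

theorem rank_identity {K : Type w} [Field K] (L : LiftSys K)
    (s : Finset (Subgroup F)) (ν : Subgroup F → ℤ)
    (h1 : ∀ D ∈ s, ∀ h ∈ D, (orderOf h : K) ≠ 0)
    (h2 : ∀ h : F, (orderOf h : K) ≠ 0 → ∑ D ∈ s.filter (fun D => h ∈ D), ν D = 1)
    (x : K0 (MonoidAlgebra K F)) :
    (Nat.card F : ℤ) * K0.rk (K0.map (aug K F).toRingHom x) =
      ∑ D ∈ s, ν D * Nat.card D * K0.rk (K0.push (permR K (F ⧸ D)) x) := by
  rw [← sub_eq_zero]
  apply L.int
  intro n
  have hs : Function.Surjective (MonoidAlgebra.mapRingHom F (L.π n)) := by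
    intro a
    induction a using MonoidAlgebra.induction_linear with
    | zero => exact ⟨0, map_zero _⟩
    | add a b ha hb =>
      obtain ⟨a', rfl⟩ := ha
      obtain ⟨b', rfl⟩ := hb
      exact ⟨a' + b', map_add _ _ _⟩
    | single g r =>
      obtain ⟨r', rfl⟩ := L.surj n r
      exact ⟨MonoidAlgebra.single g r', MonoidAlgebra.mapRingHom_single _ _ _⟩
  have hnil := (L.nil n).monoidAlgebra F
  obtain ⟨y, hy⟩ : ∃ y, y = K0.nilLift hs hnil x := ⟨_, rfl⟩
  have hyx : K0.map (MonoidAlgebra.mapRingHom F (L.π n)) y = x := by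
    rw [hy, K0.map_nilLift]
  have e1 : (K0.rk (K0.map (aug K F).toRingHom x) : L.B n) = T (fun _ => 1) (fun _ _ => rfl) y := by
    rw [← tr_aug, K0.tr_eq_rk (L.surj n) (L.nil n), K0.map_map, ← hyx, K0.map_map]
    congr 3
    have : (aug K F).toRingHom.comp (MonoidAlgebra.mapRingHom F (L.π n)) =
        (L.π n).comp (aug (L.B n) F).toRingHom := by
      apply RingHom.ext
      intro a
      induction a using MonoidAlgebra.induction_linear with
      | zero => simp
      | add a b ha hb => rw [map_add, map_add, ha, hb]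
      | single g r =>
        change aug K F (MonoidAlgebra.mapRingHom F (L.π n) (MonoidAlgebra.single g r)) =
          L.π n (aug (L.B n) F (MonoidAlgebra.single g r))
        rw [MonoidAlgebra.mapRingHom_single, aug_single, aug_single]
    rw [this]
  have e2 : ∀ D : Subgroup F, (K0.rk (K0.push (permR K (F ⧸ D)) x) : L.B n) =
      T (fun h => (fixN D h : L.B n)) (perm_comm D) y := by
    intro D
    rw [← tr_perm, K0.tr_eq_rk (L.surj n) (L.nil n), K0.map_push, ← hyx, K0.push_map]
    congr 3
    have : (permR K (F ⧸ D)).comp (MonoidAlgebra.mapRingHom F (L.π n)) =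
        (L.π n).mapMatrix.comp (permR (L.B n) (F ⧸ D)) := by
      apply RingHom.ext
      intro a
      induction a using MonoidAlgebra.induction_linear with
      | zero => simp
      | add a b ha hb => rw [map_add, map_add, ha, hb]
      | single g r =>
        ext p q : 1
        change perm K (F ⧸ D) (MonoidAlgebra.mapRingHom F (L.π n) (MonoidAlgebra.single g r)) p q =
          L.π n (perm (L.B n) (F ⧸ D) (MonoidAlgebra.single g r) p q)
        rw [MonoidAlgebra.mapRingHom_single, perm_single, perm_single]
        split_ifs <;> simp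
    rw [this]
  push_cast
  rw [e1]
  simp only [e2]
  have hcomm1 : ∀ a b : F, (Nat.card F : L.B n) * sing (L.B n) K (a * b) =
    (Nat.card F : L.B n) * sing (L.B n) K (b * a) := fun a b => by rw [sing_comm]
  have hcomm2 : ∀ a b : F, ∑ D ∈ s, ((ν D : L.B n) * Nat.card D) * fixN D (a * b) =
      ∑ D ∈ s, ((ν D : L.B n) * Nat.card D) * fixN D (b * a) :=
    fun a b => Finset.sum_congr rfl (fun D _ => by rw [perm_comm])
  rw [← T_mul (Nat.card F : L.B n) (fun _ => 1) (fun _ _ => rfl) (fun _ _ => rfl),
    T_congr (g := fun h => (Nat.card F : L.B n) * sing (L.B n) K h +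
      ∑ D ∈ s, ((ν D : L.B n) * Nat.card D) * fixN D h) (fun _ _ => rfl)
      (fun a b => by rw [hcomm1, hcomm2]) (fix_identity (K := K) s ν h1 h2),
    T_add _ _ hcomm1 hcomm2, sing_vanish (L.nil n),
    T_sum s (fun D => (ν D : L.B n) * Nat.card D) (fun D h => (fixN D h : L.B n))
      (fun D => perm_comm D) hcomm2, zero_add, sub_self]

end Rank

end Pool.Agent.H71.FJ

end

section

/-!
# Artin type induction theorem for `K₀(k[F])`, `F` finite (conclusion)
-/

set_option autoImplicit false

open Matrix
open scoped Classical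

universe u v w

namespace Pool.Agent.H71.FJ

variable {F : Type v} [Group F] [Fintype F]

theorem rank_identity' {k : Type w} [Field k]
    (s : Finset (Subgroup F)) (ν : Subgroup F → ℤ)
    (h1 : ∀ D ∈ s, ∀ h ∈ D, (orderOf h : k) ≠ 0)
    (h2 : ∀ h : F, (orderOf h : k) ≠ 0 → ∑ D ∈ s.filter (fun D => h ∈ D), ν D = 1)
    (x : K0 (MonoidAlgebra k F)) :
    (Nat.card F : ℤ) * K0.rk (K0.map (aug k F).toRingHom x) =
      ∑ D ∈ s, ν D * Nat.card D * K0.rk (K0.push (permR k (F ⧸ D)) x) := by
  let K := AlgebraicClosure k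
  obtain ⟨L⟩ := exists_liftSys K
  have hcast : ∀ n : ℕ, (n : K) ≠ 0 ↔ (n : k) ≠ 0 := by
    intro n
    rw [← map_natCast (algebraMap k K) n, ne_eq, ne_eq,
      map_eq_zero_iff _ (algebraMap k K).injective]
  have key := rank_identity L s ν (fun D hD h hh => (hcast _).2 (h1 D hD h hh))
    (fun h hh => h2 h ((hcast _).1 hh)) (K0.map (MonoidAlgebra.mapRingHom F (algebraMap k K)) x)
  have e1 : K0.rk (K0.map (aug K F).toRingHom
      (K0.map (MonoidAlgebra.mapRingHom F (algebraMap k K)) x)) =
      K0.rk (K0.map (aug k F).toRingHom x) := by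
    rw [K0.map_map, ← K0.rk_map (algebraMap k K) (K0.map (aug k F).toRingHom x), K0.map_map]
    congr 2
    have : (aug K F).toRingHom.comp (MonoidAlgebra.mapRingHom F (algebraMap k K)) =
        (algebraMap k K).comp (aug k F).toRingHom := by
      apply RingHom.ext
      intro a
      induction a using MonoidAlgebra.induction_linear with
      | zero => simp
      | add a b ha hb => rw [map_add, map_add, ha, hb]
      | single g r =>
        change aug K F (MonoidAlgebra.mapRingHom F (algebraMap k K) (MonoidAlgebra.single g r)) =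
          algebraMap k K (aug k F (MonoidAlgebra.single g r))
        rw [MonoidAlgebra.mapRingHom_single, aug_single, aug_single]
    rw [this]
  have e2 : ∀ D : Subgroup F, K0.rk (K0.push (permR K (F ⧸ D))
      (K0.map (MonoidAlgebra.mapRingHom F (algebraMap k K)) x)) =
      K0.rk (K0.push (permR k (F ⧸ D)) x) := by
    intro D
    rw [K0.push_map, ← K0.rk_map (algebraMap k K) (K0.push (permR k (F ⧸ D)) x), K0.map_push]
    congr 2
    have : (permR K (F ⧸ D)).comp (MonoidAlgebra.mapRingHom F (algebraMap k K)) =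
        (algebraMap k K).mapMatrix.comp (permR k (F ⧸ D)) := by
      apply RingHom.ext
      intro a
      induction a using MonoidAlgebra.induction_linear with
      | zero => simp
      | add a b ha hb => rw [map_add, map_add, ha, hb]
      | single g r =>
        ext p q : 1
        change perm K (F ⧸ D) (MonoidAlgebra.mapRingHom F (algebraMap k K)
          (MonoidAlgebra.single g r)) p q =
          algebraMap k K (perm k (F ⧸ D) (MonoidAlgebra.single g r) p q)
        rw [MonoidAlgebra.mapRingHom_single, perm_single, perm_single]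
        split_ifs <;> simp
    rw [this]
  rw [e1] at key
  simp only [e2] at key
  exact key

namespace K0

theorem push_reindex {R : Type u} [Ring R] {S : Type w} [Ring S] {J J' : Type*} [Fintype J]
    [DecidableEq J] [Fintype J'] [DecidableEq J'] (φ : R →+* Matrix J J S)
    (φ' : R →+* Matrix J' J' S) (σ : J ≃ J') (h : ∀ r a b, φ r a b = φ' r (σ a) (σ b))
    (x : K0 R) : push φ x = push φ' x := by
  have : push φ = push φ' := by
    apply hom_ext
    intro a
    rw [push_mk, push_mk]
    apply cls_congr
    have h1 : flat φ a.mat = (flat φ' a.mat).submatrix ((Equiv.refl _).prodCongr σ)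
        ((Equiv.refl _).prodCongr σ) := by
      ext ⟨i, p⟩ ⟨j, q⟩
      exact h _ _ _
    rw [h1]
    exact matEquiv_submatrix _ (flat_idem _ a.idem) _
  rw [this]

end K0

/-- The twist of a representation. -/
noncomputable def twRep {k : Type w} [Field k] {J : Type*} [Fintype J] [DecidableEq J]
    (ρ : MonoidAlgebra k F →ₐ[k] Matrix J J k) :
    MonoidAlgebra k F →ₐ[k] Matrix J J (MonoidAlgebra k F) :=
  MonoidAlgebra.lift k _ F
    { toFun := fun h => Matrix.of fun a b =>
        MonoidAlgebra.single h (ρ (MonoidAlgebra.single h 1) a b)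
      map_one' := by
        ext a b : 1
        rw [of_apply, Matrix.one_apply, ← MonoidAlgebra.one_def, map_one, Matrix.one_apply]
        split_ifs
        · rw [MonoidAlgebra.one_def]
        · rw [MonoidAlgebra.single_zero]
      map_mul' := by
        intro h h'
        ext a b : 1
        have e1 : MonoidAlgebra.single (h * h') (1 : k) = MonoidAlgebra.single h 1 *
          MonoidAlgebra.single h' 1 := by rw [MonoidAlgebra.single_mul_single, one_mul]
        rw [Matrix.mul_apply, of_apply, e1, map_mul, Matrix.mul_apply]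
        simp only [of_apply, MonoidAlgebra.single_mul_single]
        induction (Finset.univ : Finset J) using Finset.induction_on with
        | empty => simp
        | insert i t hi ih =>
          rw [Finset.sum_insert hi, Finset.sum_insert hi, MonoidAlgebra.single_add, ih] }

omit [Fintype F] in
theorem twRep_single {k : Type w} [Field k] {J : Type*} [Fintype J] [DecidableEq J]
    (ρ : MonoidAlgebra k F →ₐ[k] Matrix J J k) (h : F) (r : k) (a b : J) :
    twRep ρ (MonoidAlgebra.single h r) a b =
      MonoidAlgebra.single h (r * ρ (MonoidAlgebra.single h 1) a b) := by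
  rw [twRep, MonoidAlgebra.lift_single]
  change r • MonoidAlgebra.single h (ρ (MonoidAlgebra.single h 1) a b) = _
  rw [MonoidAlgebra.smul_single, smul_eq_mul]

omit [Fintype F] in
theorem rep_single {k : Type w} [Field k] {J : Type*} [Fintype J] [DecidableEq J]
    (ρ : MonoidAlgebra k F →ₐ[k] Matrix J J k) (h : F) (r : k) (a b : J) :
    ρ (MonoidAlgebra.single h r) a b = r * ρ (MonoidAlgebra.single h 1) a b := by
  have : MonoidAlgebra.single h r = r • MonoidAlgebra.single h (1 : k) := by
    rw [MonoidAlgebra.smul_single, smul_eq_mul, mul_one]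
  rw [this, map_smul]
  rfl

theorem artin_aux {k : Type w} [Field k]
    (s : Finset (Subgroup F)) (ν : Subgroup F → ℤ)
    (h1 : ∀ D ∈ s, ∀ h ∈ D, (orderOf h : k) ≠ 0)
    (h2 : ∀ h : F, (orderOf h : k) ≠ 0 → ∑ D ∈ s.filter (fun D => h ∈ D), ν D = 1)
    (x : K0 (MonoidAlgebra k F)) :
    (Nat.card F : ℤ) • x =
      ∑ D ∈ s, (ν D * Nat.card D) • K0.map (incl k D) (K0.push (lamR k D) x) := by
  rw [← sub_eq_zero]
  apply K0.eq_zero_of_rk_push (k := k)
  intro J _ _ ρ
  rw [map_sub, map_sub, map_zsmul, map_zsmul, map_sum, map_sum]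
  simp only [map_zsmul, ind_res]
  have key := rank_identity' s ν h1 h2 (K0.push (twRep ρ).toRingHom x)
  have e1 : K0.map (aug k F).toRingHom (K0.push (twRep ρ).toRingHom x) =
      K0.push (ρ : MonoidAlgebra k F →+* Matrix J J k) x := by
    rw [K0.map_push]
    have : (aug k F).toRingHom.mapMatrix.comp (twRep ρ).toRingHom =
        (ρ : MonoidAlgebra k F →+* Matrix J J k) := by
      apply RingHom.ext
      intro a
      induction a using MonoidAlgebra.induction_linear with
      | zero => simp
      | add a b ha hb => rw [map_add, map_add, ha, hb]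
      | single g r =>
        ext p q : 1
        change aug k F (twRep ρ (MonoidAlgebra.single g r) p q) = ρ (MonoidAlgebra.single g r) p q
        rw [twRep_single, aug_single]
        exact (rep_single ρ g r p q).symm
    rw [this]
  have e2 : ∀ D : Subgroup F, K0.push (permR k (F ⧸ D)) (K0.push (twRep ρ).toRingHom x) =
      K0.push (ρ : MonoidAlgebra k F →+* Matrix J J k) (K0.push (twR k (F ⧸ D)) x) := by
    intro D
    rw [K0.push_push, K0.push_push]
    refine K0.push_reindex _ _ (Equiv.prodComm _ _) ?_ x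
    intro r
    induction r using MonoidAlgebra.induction_linear with
    | zero =>
      intro a b
      rw [map_zero, map_zero]
      rfl
    | add a b ha hb =>
      intro p q
      rw [map_add, map_add, Matrix.add_apply, Matrix.add_apply, ha, hb]
    | single g r =>
      rintro ⟨a, p⟩ ⟨b, q⟩
      change perm k (F ⧸ D) (twRep ρ (MonoidAlgebra.single g r) a b) p q =
        ρ (tw k (F ⧸ D) (MonoidAlgebra.single g r) p q) a b
      rw [twRep_single, perm_single, tw_single]
      split_ifs
      · rw [← rep_single]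
      · rw [map_zero]
        rfl
  rw [e1] at key
  simp only [e2] at key
  simp only [smul_eq_mul]
  rw [key, sub_self]

theorem orderOf_dvd_ne {k : Type w} [Field k] {G : Type v} [Group G] {g h : G}
    (hg : (orderOf g : k) ≠ 0) (hd : orderOf h ∣ orderOf g) : (orderOf h : k) ≠ 0 := by
  obtain ⟨m, hm⟩ := hd
  intro h0
  apply hg
  rw [hm, Nat.cast_mul, h0, zero_mul]

/-- **Artin induction** for projective modules over `k[F]`, `F` finite: up to the factor `|F|`, every
class is a combination of classes induced from cyclic subgroups of order invertible in `k`. -/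
theorem exists_artin (k : Type w) [Field k] (F : Type v) [Group F] [Fintype F] :
    ∃ (s : Finset (Subgroup F)) (c : Subgroup F → ℤ),
      (∀ D ∈ s, IsCyclic D ∧ ∀ h ∈ D, (orderOf h : k) ≠ 0) ∧
      ∀ x : K0 (MonoidAlgebra k F), (Nat.card F : ℤ) • x =
        ∑ D ∈ s, c D • K0.map (incl k D) (K0.push (lamR k D) x) := by
  let s : Finset (Subgroup F) := Finset.univ.filter
    (fun D => IsCyclic D ∧ ∀ h ∈ D, (orderOf h : k) ≠ 0)
  obtain ⟨ν, hν⟩ := exists_nu s (fun _ => 1)
  refine ⟨s, fun D => ν D * Nat.card D, fun D hD => (Finset.mem_filter.1 hD).2, fun x => ?_⟩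
  apply artin_aux s ν
  · intro D hD
    exact (Finset.mem_filter.1 hD).2.2
  · intro h hh
    have hmem : Subgroup.zpowers h ∈ s := by
      rw [Finset.mem_filter]
      refine ⟨Finset.mem_univ _, inferInstance, ?_⟩
      intro g hg
      exact orderOf_dvd_ne hh (orderOf_dvd_of_mem_zpowers hg)
    rw [← hν _ hmem]
    apply Finset.sum_congr _ (fun _ _ => rfl)
    ext D
    simp only [Finset.mem_filter, Subgroup.zpowers_le]

end Pool.Agent.H71.FJ

end
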