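import Pool.Agent.H13.TFQ.M09
import Pool.Agent.H13.TFQ.M10

/-! The parts of this file: H71.WH.Skew_2, H71.WH.Skew2_2. -/

section

/-!
# The skew ring and the homomorphism `Lam`

Let `s` be an involutive automorphism of a ring `M` and `κ : M → ℤ` with `κ (a b) = κ (b s(a))`. For
a unit `g = 1 + z + s(z)` of `M` the element `v = 1 + z (1 + σ)` of the skew ring `M * C₂` is a unit
and `v⁻¹ θ(v)` is congruent to `1` modulo `2`, where `θ(σ) = - σ`.
-/

set_option autoImplicit false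

open Matrix

universe u v

namespace Pool.Agent.H71.WH

namespace TwTr

variable {M : Type u} [Ring M] (t : TwTr M)

theorem lam_mul (v w : t.skewˣ) : t.lam (v * w) = t.lam v + t.lam w := by
  have h1 : (((v * w)⁻¹ : t.skewˣ) : t.skew) * t.θ (v * w : t.skewˣ) =
      ((w⁻¹ : t.skewˣ) * (((v⁻¹ : t.skewˣ) : t.skew) * t.θ v) * w) *
        (((w⁻¹ : t.skewˣ) : t.skew) * t.θ w) := by
    rw [_root_.mul_inv_rev, Units.val_mul, Units.val_mul, map_mul]
    calc ((w⁻¹ : t.skewˣ) : t.skew) * (v⁻¹ : t.skewˣ) * (t.θ v * t.θ w)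
        = (w⁻¹ : t.skewˣ) * ((v⁻¹ : t.skewˣ) * t.θ v) * 1 * t.θ w := by
          rw [mul_one]; simp only [mul_assoc]
      _ = (w⁻¹ : t.skewˣ) * ((v⁻¹ : t.skewˣ) * t.θ v) * (w * (w⁻¹ : t.skewˣ)) * t.θ w := by
          rw [Units.mul_inv]
      _ = _ := by simp only [mul_assoc]
  rw [lam, h1, L_mul t.τ t.τ_comm ((t.cong_θ v).conj w) (t.cong_θ w),
    L_conj t.τ t.τ_comm, mul_add]
  rfl

theorem lam_one : t.lam 1 = 0 := by
  have := t.lam_mul 1 1
  rw [mul_one] at this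
  exact (add_eq_left.1 this.symm)

theorem lam_conj (v w : t.skewˣ) : t.lam (w⁻¹ * v * w) = t.lam v := by
  have h1 : t.lam w⁻¹ + t.lam w = 0 := by rw [← lam_mul, inv_mul_cancel, lam_one]
  rw [lam_mul, lam_mul]
  linear_combination h1

end TwTr

end Pool.Agent.H71.WH

end

section

/-!
# Independence of the choice of `z`
-/

set_option autoImplicit false

open Matrix

universe u v

namespace Pool.Agent.H71.WH

namespace TwTr

variable {M : Type u} [Ring M] (t : TwTr M)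

theorem lamY_add {y y' : M} (hy : y + t.s y = 0) (hy' : y' + t.s y' = 0)
    (h : (y + y') + t.s (y + y') = 0) : t.lamY (y + y') h = t.lamY y hy + t.lamY y' hy' := by
  rw [lamY, lamY, lamY, ← lam_mul,
    t.vU_mul (t.cond_one hy) (t.cond_one hy') (t.mul_add_cond (t.cond_one hy) (t.cond_one hy'))]
  apply t.lam_congr
  rw [Units.val_one, mul_one]

theorem lamY_pow {y : M} (hy : y + t.s y = 0) (k : ℕ) :
    t.lamY (2 ^ k * y) (t.pow_cond hy k) = 2 ^ k * t.lamY y hy := by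
  induction k with
  | zero =>
    have e : t.lamY (2 ^ 0 * y) (t.pow_cond hy 0) = t.lamY y hy := by
      rw [lamY, lamY]
      apply t.lam_congr
      rw [pow_zero, one_mul]
    rw [e, pow_zero, one_mul]
  | succ k ih =>
    have e : (2 : M) ^ (k + 1) * y = 2 ^ k * y + 2 ^ k * y := by
      rw [pow_succ', mul_assoc, two_mul]
    have h2 : (2 ^ k * y + 2 ^ k * y) + t.s (2 ^ k * y + 2 ^ k * y) = 0 := by
      rw [← e]; exact t.pow_cond hy (k + 1)
    have h3 : t.lamY (2 ^ (k + 1) * y) (t.pow_cond hy (k + 1)) =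
        t.lamY (2 ^ k * y + 2 ^ k * y) h2 := by
      rw [lamY, lamY]
      exact t.lam_congr _ _ e
    rw [h3, t.lamY_add (t.pow_cond hy k) (t.pow_cond hy k), ih]
    ring

theorem lamY_eq_zero {y : M} (hy : y + t.s y = 0) : t.lamY y hy = 0 := by
  rw [← norm_eq_zero]
  by_contra hne
  have hpos : 0 < ‖t.lamY y hy‖ := lt_of_le_of_ne (norm_nonneg _) (Ne.symm hne)
  have h1 : ∀ k : ℕ, ‖t.lamY y hy‖ ≤ 2 * ((1 : ℝ) / 2) ^ k := by
    intro k
    have h2 := t.norm_lamY_pow hy k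
    rw [t.lamY_pow hy k, norm_mul, norm_two_pow] at h2
    have hp : (0 : ℝ) < 2 ^ k := by positivity
    have h3 : ((2 : ℝ) ^ k) * (((2 : ℝ) ^ k)⁻¹ * ‖t.lamY y hy‖) ≤
        (2 : ℝ) ^ k * (2 * ((2 : ℝ) ^ (2 * k))⁻¹) := mul_le_mul_of_nonneg_left h2 hp.le
    rw [← mul_assoc, mul_inv_cancel₀ hp.ne', one_mul] at h3
    refine h3.trans (le_of_eq ?_)
    have e : (2 : ℝ) ^ (2 * k) = 2 ^ k * 2 ^ k := by rw [two_mul, pow_add]
    rw [e, mul_inv, one_div, inv_pow]
    field_simp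
  obtain ⟨k, hk⟩ := exists_pow_lt_of_lt_one (show 0 < ‖t.lamY y hy‖ / 2 by positivity)
    (show (1 : ℝ) / 2 < 1 by norm_num)
  have := h1 k
  linarith

/-- `lam (1 + z (1 + σ))` does not depend on `z` -/
theorem lam_indep {z z' : M} {g g' : Mˣ} (h : (g : M) = 1 + z + t.s z)
    (h' : (g' : M) = 1 + z' + t.s z') (hg : g = g') : t.lam (t.vU z g h) = t.lam (t.vU z' g' h') := by
  subst hg
  have hs : t.s ((g⁻¹ : Mˣ) : M) = (g⁻¹ : Mˣ) := t.s_inv (by rw [h]; exact t.s_self z)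
  set y := (z' - z) * ((g⁻¹ : Mˣ) : M) with hy
  have hy0 : y + t.s y = 0 := by
    rw [hy, map_mul, map_sub, hs, ← add_mul]
    have : z' - z + (t.s z' - t.s z) = 0 := by
      have e : z' - z + (t.s z' - t.s z) = (1 + z' + t.s z') - (1 + z + t.s z) := by abel
      rw [e, ← h, ← h', sub_self]
    rw [this, zero_mul]
  have h1 := t.vU_mul (t.cond_one hy0) h (t.mul_add_cond (t.cond_one hy0) h)
  have h2 : t.lam (t.vU z' g h') = t.lam (t.vU (y * g + z) (1 * g)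
      (t.mul_add_cond (t.cond_one hy0) h)) := by
    apply t.lam_congr
    rw [hy, mul_assoc, Units.inv_mul, mul_one]
    abel
  rw [h2, ← h1, lam_mul]
  have h3 := t.lamY_eq_zero hy0
  rw [lamY] at h3
  rw [h3, zero_add]

theorem Lam_eq {z : M} {g : Mˣ} (h : (g : M) = 1 + z + t.s z) : t.Lam g = t.lam (t.vU z g h) := by
  have h' : t.Adm g := ⟨z, h⟩
  rw [Lam, dif_pos h']
  exact t.lam_indep _ _ rfl

theorem Lam_mul {g g' : Mˣ} (h : t.Adm g) (h' : t.Adm g') :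
    t.Lam (g * g') = t.Lam g + t.Lam g' := by
  obtain ⟨z, hz⟩ := h
  obtain ⟨z', hz'⟩ := h'
  rw [t.Lam_eq (t.mul_add_cond hz hz'), ← t.vU_mul hz hz', lam_mul, t.Lam_eq hz, t.Lam_eq hz']

theorem Lam_conj {g w : Mˣ} (h : t.Adm g) (hw : t.s w = w) : t.Lam (w⁻¹ * g * w) = t.Lam g := by
  obtain ⟨z, hz⟩ := h
  rw [t.Lam_eq (t.conj_cond hz hw), t.Lam_eq hz, ← t.lam_conj (t.vU z g hz) (t.ofU w)]
  congr 1
  apply Units.ext
  rw [Units.val_mul, Units.val_mul, vU_val, vU_val]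
  change _ = t.el ((w⁻¹ : Mˣ) : M) 0 * t.el (1 + z) z * t.el (w : M) 0
  rw [el_mul, el_mul, hw]
  congr 1
  · rw [zero_mul, add_zero, map_zero, mul_zero, add_zero]
    have : ((w⁻¹ : Mˣ) : M) * (1 + z) * w = (w⁻¹ : Mˣ) * w + (w⁻¹ : Mˣ) * z * w := by noncomm_ring
    rw [this, Units.inv_mul]
  · simp

end TwTr

end Pool.Agent.H71.WH

end
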