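import Pool.Agent.H13.TFQ.M13
import Pool.Agent.H13.TFQ.M49

/-! The parts of this file: H39.KL.Tau, H39.KL.ValA. -/

section

/-!
# Project KL: the position of a tuple in its rotation orbit

`c` of finite order divisible by `p`, the `p`-power torsion of `G` of exponent `p ^ r`, `q = p ^ m`.  `IsTau p m r c τ`:
`τ` is a function on the tuples `Fin q → G` with values in `ZMod q`, invariant under the left multiplications by the
centralizer of `c`, and the rotation `sig q c` adds `p ^ r`.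

PROOF of `exists_tau`.  Let `Z` be the centralizer of `c` (acting by `lmul`) and `σ = sig q c`, a bijection commuting with
it, `σ^[q] = lmul c`.  Choose a representative `ρ` of each orbit of `Z × ⟨σ⟩` (e.g. of the quotient by the setoid
`∃ z ∈ Z, ∃ j : ℕ, w = lmul z (σ^[j] v)`; `j : ℕ` is enough because `σ^[q]` is `lmul c`), and put `τ v = p ^ r * j` if
`v = lmul z (σ^[j] ρ)`.  Well defined: if `lmul z (σ^[j] ρ) = lmul z' (σ^[j'] ρ)` with `j ≤ j'` then
`σ^[j' - j] ρ = lmul z'' ρ`, `z'' ∈ Z` (`σ` injective, commutes with `lmul`), and `stab_dvd` gives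
`p ^ m ∣ p ^ r * (j' - j)`.

PROOF of `stab_dvd`.  Let `σ^[k] v = lmul z v` and suppose `p ^ m ∤ p ^ r * k`; so `r ≤ m` fails or the `p`-adic valuation
`a` of `k` is `< m - r`; anyway `k = p ^ a * k'`, `p ∤ k'`, `a + r < m`.  Iterating, `σ^[k j] v = lmul (z ^ j) v`.  Choose
`j` with `k j ≡ p ^ a (mod q)` (`k'` is a unit mod `q`); `σ^[q] = lmul c` is central: so `σ^[p ^ a] v = lmul w v` with
`w ∈ Z`, `w = z ^ j * c ^ (-t)`.  Iterating `p ^ (m - a)` times: `lmul c v = lmul (w ^ p ^ (m - a)) v`, so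
`c = w ^ p ^ (m - a)`.  Then `w` has finite order divisible by `p ^ (m - a + 1)` (`p ∣ orderOf c`), so `G` contains an
element of order `p ^ (m - a + 1)`, hence `m - a + 1 ≤ r` by `hG`: contradiction to `a + r < m`.
-/

set_option autoImplicit false

universe u

namespace Pool.Agent.H39.KL

open Pool.Agent.H71.FQ

section

variable {G : Type u} [Group G]

/-- the position in the rotation orbit, times `p ^ r` -/
structure IsTau (p m r : ℕ) (c : G) (τ : (Fin (p ^ m) → G) → ZMod (p ^ m)) : Prop where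
  inv : ∀ z : G, z * c = c * z → ∀ v, τ (lmul z v) = τ v
  rot : ∀ v, τ (sig (p ^ m) c v) = τ v + (p : ZMod (p ^ m)) ^ r

private theorem lmul_lmul {q : ℕ} (g h : G) (v : Fin q → G) : lmul g (lmul h v) = lmul (g * h) v :=
  funext fun t => (mul_assoc g h (v t)).symm

private theorem lmul_one {q : ℕ} (v : Fin q → G) : lmul (1 : G) v = v :=
  funext fun t => one_mul (v t)

private theorem lmul_inj {q : ℕ} (hq : 0 < q) {g h : G} {v : Fin q → G} (e : lmul g v = lmul h v) : g = h :=
  mul_right_cancel (show g * v ⟨0, hq⟩ = h * v ⟨0, hq⟩ from congrFun e ⟨0, hq⟩)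

private theorem iter_lmul {q : ℕ} {c g : G} (h : g * c = c * g) (n : ℕ) (v : Fin q → G) :
    (sig q c)^[n] (lmul g v) = lmul g ((sig q c)^[n] v) := by
  induction n with
  | zero => rfl
  | succ n ih => rw [Function.iterate_succ_apply', ih, sig_lmul c g h, Function.iterate_succ_apply']

private theorem pow_comm_of {c g : G} (h : g * c = c * g) (j : ℕ) : g ^ j * c = c * g ^ j :=
  (Commute.pow_left (show Commute g c from h) j).eq

private theorem iter_pow {q : ℕ} {c g : G} (h : g * c = c * g) {n : ℕ} {v : Fin q → G}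
    (e : (sig q c)^[n] v = lmul g v) (j : ℕ) : (sig q c)^[n * j] v = lmul (g ^ j) v := by
  induction j with
  | zero => rw [pow_zero, lmul_one]; rfl
  | succ j ih =>
    rw [show n * (j + 1) = n + n * j by ring, Function.iterate_add_apply, ih, iter_lmul (pow_comm_of h j), e,
      lmul_lmul, pow_succ]

private theorem iter_q {q : ℕ} (c : G) (v : Fin q → G) (t : ℕ) : (sig q c)^[q * t] v = lmul (c ^ t) v :=
  iter_pow rfl (sig_iterate q c v) t

theorem stab_dvd {p : ℕ} (hp : p.Prime) (m r : ℕ)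
    (hG : ∀ g : G, (∃ j : ℕ, g ^ p ^ j = 1) → g ^ p ^ r = 1) {c : G} (hc : IsOfFinOrder c)
    (hpc : p ∣ orderOf c) {z : G} (hz : z * c = c * z) {k : ℕ} {v : Fin (p ^ m) → G}
    (h : (sig (p ^ m) c)^[k] v = lmul z v) : p ^ m ∣ p ^ r * k := by
  rcases Nat.eq_zero_or_pos k with hk | hk
  · subst hk
    exact dvd_zero _
  by_contra hcon
  obtain ⟨a, k', hk', hkk⟩ := Nat.exists_eq_pow_mul_and_not_dvd hk.ne' p hp.ne_one
  have har : a + r < m := by
    by_contra h1
    apply hcon
    rw [hkk, ← mul_assoc, ← pow_add]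
    exact Dvd.dvd.mul_right (pow_dvd_pow p (by omega)) _
  have hq : 0 < p ^ m := Nat.pow_pos hp.pos
  -- the inverse of `k'` modulo `q`
  obtain ⟨j, t, hj⟩ : ∃ j t : ℕ, k' * j = 1 + p ^ m * t := by
    have hco : Nat.Coprime k' (p ^ m) := (Nat.Coprime.pow_right m ((hp.coprime_iff_not_dvd.2 hk').symm))
    obtain ⟨j, -, hj⟩ := Nat.exists_mul_mod_eq_one_of_coprime hco (Nat.one_lt_pow (by omega) hp.one_lt)
    exact ⟨j, k' * j / p ^ m, by have := Nat.mod_add_div (k' * j) (p ^ m); omega⟩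
  have hkj : k * j = p ^ a + p ^ m * (p ^ a * t) := by
    rw [hkk, mul_assoc, hj]
    ring
  have h1 := iter_pow hz h j
  have hcz : z ^ j * c = c * z ^ j := pow_comm_of hz j
  rw [hkj, add_comm, Function.iterate_add_apply, iter_q] at h1
  -- `σ ^ (p ^ a) v = w v`
  have h2 : (sig (p ^ m) c)^[p ^ a] v = lmul ((c ^ (p ^ a * t))⁻¹ * z ^ j) v := by
    rw [← lmul_lmul, ← h1, lmul_lmul, inv_mul_cancel, lmul_one]
  have hw : ((c ^ (p ^ a * t))⁻¹ * z ^ j) * c = c * ((c ^ (p ^ a * t))⁻¹ * z ^ j) :=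
    (Commute.mul_left (((Commute.refl c).pow_left (p ^ a * t)).inv_left) (show Commute (z ^ j) c from hcz)).eq
  generalize (c ^ (p ^ a * t))⁻¹ * z ^ j = w at h2 hw
  have h3 := iter_pow hw h2 (p ^ (m - a))
  rw [← pow_add, show a + (m - a) = m by omega, sig_iterate] at h3
  have h4 : c = w ^ p ^ (m - a) := lmul_inj hq h3
  have hwf : IsOfFinOrder w := by
    rw [h4] at hc
    exact (isOfFinOrder_pow.1 hc).resolve_right (pow_pos hp.pos _).ne'
  obtain ⟨e, s, hs, hes⟩ := Nat.exists_eq_pow_mul_and_not_dvd hwf.orderOf_pos.ne' p hp.ne_one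
  have h5 : (w ^ s) ^ p ^ e = 1 := by
    rw [← pow_mul, mul_comm, ← hes, pow_orderOf_eq_one]
  have h6 : (w ^ s) ^ p ^ r = 1 := hG _ ⟨e, h5⟩
  have h7 : c ^ s = 1 := by
    rw [h4, ← pow_mul, mul_comm, pow_mul, show m - a = r + (m - a - r) by omega, pow_add, pow_mul, h6, one_pow]
  exact hs (hpc.trans (orderOf_dvd_of_pow_eq_one h7))

/-- the orbits of the centralizer and the rotation -/
private def orb {q : ℕ} (hq : 0 < q) (c : G) : Setoid (Fin q → G) where
  r w v := ∃ z : G, z * c = c * z ∧ ∃ j : ℕ, w = lmul z ((sig q c)^[j] v)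
  iseqv := by
    refine ⟨fun v => ⟨1, by simp, 0, (lmul_one v).symm⟩, ?_, ?_⟩
    · rintro w v ⟨z, hz, j, rfl⟩
      have hz' : (z * c ^ j) * c = c * (z * c ^ j) :=
        (Commute.mul_left (show Commute z c from hz) ((Commute.refl c).pow_left j)).eq
      refine ⟨(z * c ^ j)⁻¹, (Commute.inv_left (show Commute (z * c ^ j) c from hz')).eq, q * j - j, ?_⟩
      rw [iter_lmul hz, ← Function.iterate_add_apply,
        Nat.sub_add_cancel (Nat.le_mul_of_pos_left j hq), iter_q, lmul_lmul z, lmul_lmul, inv_mul_cancel, lmul_one]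
    · rintro u w v ⟨z, hz, j, rfl⟩ ⟨z', hz', j', rfl⟩
      refine ⟨z * z', (Commute.mul_left (show Commute z c from hz) (show Commute z' c from hz')).eq, j + j', ?_⟩
      rw [iter_lmul hz', lmul_lmul, ← Function.iterate_add_apply]

theorem exists_tau {p : ℕ} (hp : p.Prime) (m r : ℕ)
    (hG : ∀ g : G, (∃ j : ℕ, g ^ p ^ j = 1) → g ^ p ^ r = 1) {c : G} (hc : IsOfFinOrder c)
    (hpc : p ∣ orderOf c) : ∃ τ : (Fin (p ^ m) → G) → ZMod (p ^ m), IsTau p m r c τ := by
  classical
  have hq : 0 < p ^ m := Nat.pow_pos hp.pos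
  have hinj : ∀ j : ℕ, Function.Injective ((sig (p ^ m) c)^[j]) := fun j =>
    Function.Injective.iterate (sig_bijective (p ^ m) c).1 j
  -- well definedness
  have hwd1 : ∀ (ρ : Fin (p ^ m) → G) (z z' : G), z * c = c * z → z' * c = c * z' → ∀ j j' : ℕ, j ≤ j' →
      lmul z ((sig (p ^ m) c)^[j] ρ) = lmul z' ((sig (p ^ m) c)^[j'] ρ) →
      (p : ZMod (p ^ m)) ^ r * (j : ZMod (p ^ m)) = (p : ZMod (p ^ m)) ^ r * (j' : ZMod (p ^ m)) := by
    intro ρ z z' hz hz' j j' hjj e
    obtain ⟨d, rfl⟩ := Nat.exists_eq_add_of_le hjj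
    rw [Function.iterate_add_apply, ← iter_lmul hz, ← iter_lmul hz'] at e
    have e1 := hinj j e
    have hzz : (z'⁻¹ * z) * c = c * (z'⁻¹ * z) :=
      (Commute.mul_left (Commute.inv_left (show Commute z' c from hz')) (show Commute z c from hz)).eq
    have e2 : (sig (p ^ m) c)^[d] ρ = lmul (z'⁻¹ * z) ρ := by
      rw [← lmul_lmul, e1, lmul_lmul, inv_mul_cancel, lmul_one]
    have e3 : ((p ^ r * d : ℕ) : ZMod (p ^ m)) = 0 :=
      (ZMod.natCast_eq_zero_iff _ _).2 (stab_dvd hp m r hG hc hpc hzz e2)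
    push_cast at e3 ⊢
    rw [mul_add, e3, add_zero]
  have hwd : ∀ (ρ : Fin (p ^ m) → G) (z z' : G), z * c = c * z → z' * c = c * z' → ∀ j j' : ℕ,
      lmul z ((sig (p ^ m) c)^[j] ρ) = lmul z' ((sig (p ^ m) c)^[j'] ρ) →
      (p : ZMod (p ^ m)) ^ r * (j : ZMod (p ^ m)) = (p : ZMod (p ^ m)) ^ r * (j' : ZMod (p ^ m)) := by
    intro ρ z z' hz hz' j j' e
    rcases le_total j j' with h | h
    · exact hwd1 ρ z z' hz hz' j j' h e
    · exact (hwd1 ρ z' z hz' hz j' j h e.symm).symm
  have hrep : ∀ v : Fin (p ^ m) → G, ∃ z : G, z * c = c * z ∧ ∃ j : ℕ,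
      v = lmul z ((sig (p ^ m) c)^[j] (Quotient.out (Quotient.mk (orb hq c) v))) := fun v =>
    (orb hq c).symm (Quotient.exact (Quotient.out_eq (Quotient.mk (orb hq c) v)))
  choose zz hzz jj hjj using hrep
  -- the value can be computed with any expression
  have key : ∀ (v w : Fin (p ^ m) → G) (z : G) (j : ℕ), z * c = c * z → w = lmul z ((sig (p ^ m) c)^[j] v) →
      (p : ZMod (p ^ m)) ^ r * (jj w : ZMod (p ^ m)) =
        (p : ZMod (p ^ m)) ^ r * (jj v : ZMod (p ^ m)) + (p : ZMod (p ^ m)) ^ r * (j : ZMod (p ^ m)) := by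
    intro v w z j hz e
    have e1 : Quotient.mk (orb hq c) w = Quotient.mk (orb hq c) v := Quotient.sound ⟨z, hz, j, e⟩
    have e2 := hjj w
    rw [e1] at e2
    have e3 := hjj v
    have e4 : w = lmul (z * zz v) ((sig (p ^ m) c)^[j + jj v] (Quotient.out (Quotient.mk (orb hq c) v))) := by
      rw [Function.iterate_add_apply, ← lmul_lmul, ← iter_lmul (hzz v), ← e3]
      exact e
    have e5 := hwd _ _ _ (hzz w)
      (Commute.mul_left (show Commute z c from hz) (show Commute (zz v) c from hzz v)).eq _ _ (e2.symm.trans e4)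
    rw [e5]
    push_cast
    ring
  refine ⟨fun v => (p : ZMod (p ^ m)) ^ r * (jj v : ZMod (p ^ m)), ⟨?_, ?_⟩⟩
  · intro z hz v
    have := key v (lmul z v) z 0 hz rfl
    rw [Nat.cast_zero, mul_zero, add_zero] at this
    exact this
  · intro v
    have := key v (sig (p ^ m) c v) 1 1 (by simp) (by rw [lmul_one]; rfl)
    rw [Nat.cast_one, mul_one] at this
    exact this

/-- transport to a subgroup: `f : C → G` a homomorphism, `u f(d) u⁻¹ = c` -/
theorem IsTau.comp {p m r : ℕ} {c : G} {τ : (Fin (p ^ m) → G) → ZMod (p ^ m)} (hτ : IsTau p m r c τ)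
    {C : Type*} [Group C] (f : C →* G) (u : G) (d : C) (hu : u * f d * u⁻¹ = c) :
    IsTau p m r d fun v => τ fun b => u * f (v b) := by
  constructor
  · intro z hz v
    have h1 : (u * f z * u⁻¹) * c = c * (u * f z * u⁻¹) := by
      have h2 : f z * f d = f d * f z := by rw [← map_mul, hz, map_mul]
      rw [← hu]
      calc u * f z * u⁻¹ * (u * f d * u⁻¹) = u * (f z * f d) * u⁻¹ := by group
        _ = u * (f d * f z) * u⁻¹ := by rw [h2]
        _ = u * f d * u⁻¹ * (u * f z * u⁻¹) := by group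
    have h3 := hτ.inv _ h1 fun b => u * f (v b)
    rw [← h3]
    congr 1
    funext b
    show u * f (z * v b) = u * f z * u⁻¹ * (u * f (v b))
    rw [map_mul]
    group
  · intro v
    have h3 := hτ.rot fun b => u * f (v b)
    show τ (fun b => u * f (sig (p ^ m) d v b)) = _
    rw [← h3]
    congr 1
    funext b
    unfold sig
    by_cases hb : (b : ℕ) + 1 < p ^ m
    · rw [dif_pos hb, dif_pos hb]
    · rw [dif_neg hb, dif_neg hb, map_mul, ← hu]
      group

end

end Pool.Agent.H39.KL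

end

section

/-!
# Project KL: the value of the functional on the products `U × z`, formula for chains

PROOF of `val_chain`.  Both sides are additive in `z`, so let `z = (y_0, …, y_k)` be a tuple.  The prism `pri U` is the sum
over `i ≤ k` of `(-1) ^ i` times the tuple `x^(i) = (y_0, …, y_i, y_i U, …, y_k U)` (`pri_single`, `priT`; `U` stands for the
matrix over the group ring of `G`, the `y_j` for the scalar matrices, which commute with it, `scal_comm`).  `TR_t`; the
repeated tuple `rep q x^(i)` has the form of `TT_mono` with `f = D.subtype`, `A = rep q (1, …, 1, U, …, U)` and the elements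
`y = rep q (y_0, …, y_i, y_i, …, y_k)` of `G`, so the value is `∑ d, TT d (mph ..) A`.  If `d` is not conjugate to `c` then
`mph .. = 0`.  Otherwise `mph_eq` with `u = uc c d`, and `TT_dup` (`s (b, j) = (b, 0)` if `j ≤ i`, `(b, 1)` if `j > i`) gives
`TR q d Ψ_i (QC.t N ![1, U])` with `Ψ_i (δ, δ') = phiG ψ τ v`, `v_j b = u * δ b * y_j` for `j ≤ i`, `v_j b = u * δ' b * y_{j-1}` for
`j > i`.  Since `u * δ b * y = (u * y * u⁻¹) * (u * δ b)` and `u * y * u⁻¹` commutes with `c = u * d * u⁻¹`, `IsTau.inv` gives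
`τ v_j = tauC τ c d δ` for `j ≤ i` and `= tauC τ c d δ'` for `j > i`.  So for `i < k` the factor `tl B τ v_k v_{k+1}` is `0`, and for
`i = k` it is `tl B (tauC τ c d) δ δ'`, the other factor is `psC ψ c d δ y`.
-/

set_option autoImplicit false

open Matrix

universe u v w

namespace Pool.Agent.H39.KL

open Pool.Agent.H71.FQ

section

variable {G : Type u} [Group G]

/-- an element which conjugates `d` to `c` -/
noncomputable def uc (c : G) {D : Subgroup G} (d : D) : G :=
  (Pool.Agent.H71.DB.xc c (d : G))⁻¹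

theorem uc_spec (c : G) {D : Subgroup G} (d : D) (h : IsConj c (d : G)) :
    uc c d * d * (uc c d)⁻¹ = c := by
  have h1 := Pool.Agent.H71.DB.xc_spec c h
  unfold uc
  calc (Pool.Agent.H71.DB.xc c (d : G))⁻¹ * (d : G) * ((Pool.Agent.H71.DB.xc c (d : G))⁻¹)⁻¹ =
      (Pool.Agent.H71.DB.xc c (d : G))⁻¹ * (Pool.Agent.H71.DB.xc c (d : G) * c *
        (Pool.Agent.H71.DB.xc c (d : G))⁻¹) * ((Pool.Agent.H71.DB.xc c (d : G))⁻¹)⁻¹ := by rw [h1]
    _ = c := by group

/-- the transport of `τ` -/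
noncomputable def tauC {q : ℕ} (τ : (Fin q → G) → ZMod q) (c : G) {D : Subgroup G} (d : D)
    (δ : Fin q → D) : ZMod q := τ fun b => uc c d * δ b

theorem isTau_tauC {p m r : ℕ} {c : G} {τ : (Fin (p ^ m) → G) → ZMod (p ^ m)}
    (hτ : IsTau p m r c τ) {D : Subgroup G} (d : D) (h : IsConj c (d : G)) :
    IsTau p m r d (tauC τ c d) := IsTau.comp hτ D.subtype (uc c d) d (uc_spec c d h)

variable {B : Type v} [CommRing B] {k : ℕ}

/-- the transport of `ψ` -/
noncomputable def psC {q : ℕ} (ψ : (Fin (k + 1) → Fin q → G) → B) (c : G) {D : Subgroup G} (d : D)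
    (δ : Fin q → D) (y : Fin (k + 1) → Subgroup.centralizer (D : Set G)) : B :=
  ψ fun j b => uc c d * δ b * y j

/-- the block degeneracy -/
def sI (q : ℕ) (i : Fin (k + 1)) (t : Fin (q * (k + 1 + 1))) : Fin (q * (1 + 1)) :=
  finProdFinEquiv ((finProdFinEquiv.symm t).1,
    if i.castSucc < (finProdFinEquiv.symm t).2 then 1 else 0)

theorem sI_mono (q : ℕ) (i : Fin (k + 1)) : Monotone (sI q i) := by
  intro s t hst
  obtain ⟨⟨b, j⟩, rfl⟩ := finProdFinEquiv.surjective s
  obtain ⟨⟨b', j'⟩, rfl⟩ := finProdFinEquiv.surjective t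
  rw [sI, sI, Equiv.symm_apply_apply, Equiv.symm_apply_apply]
  simp only [Fin.le_def, finProdFinEquiv_apply_val] at hst ⊢
  have h1 : (j : ℕ) < k + 1 + 1 := j.2
  have h2 : (j' : ℕ) < k + 1 + 1 := j'.2
  have h3 : ((if i.castSucc < j then (1 : Fin (1 + 1)) else 0 : Fin (1 + 1)) : ℕ) < 1 + 1 :=
    (if i.castSucc < j then (1 : Fin (1 + 1)) else 0 : Fin (1 + 1)).2
  rcases lt_trichotomy (b : ℕ) (b' : ℕ) with h | h | h
  · have h4 : (1 + 1) * ((b : ℕ) + 1) ≤ (1 + 1) * (b' : ℕ) := Nat.mul_le_mul_left _ h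
    omega
  · rw [h] at hst ⊢
    have h6 : j ≤ j' := by
      rw [Fin.le_def]
      omega
    by_cases h7 : i.castSucc < j
    · rw [if_pos h7, if_pos (lt_of_lt_of_le h7 h6)]
    · rw [if_neg h7]
      show 0 + _ ≤ _
      omega
  · exfalso
    have h4 : (k + 1 + 1) * ((b' : ℕ) + 1) ≤ (k + 1 + 1) * (b : ℕ) := Nat.mul_le_mul_left _ h
    have h5 : (k + 1 + 1) * ((b' : ℕ) + 1) = (k + 1 + 1) * (b' : ℕ) + (k + 1 + 1) := by ring
    omega

theorem sI_surj (q : ℕ) (i : Fin (k + 1)) : Function.Surjective (sI q i) := by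
  intro t
  obtain ⟨⟨b, e⟩, rfl⟩ := finProdFinEquiv.surjective t
  have he : e = 0 ∨ e = 1 := by
    rcases e with ⟨e, he⟩
    rcases Nat.lt_succ_iff_lt_or_eq.1 he with h | h
    · left
      ext
      show e = 0
      omega
    · right
      ext
      exact h
  rcases he with rfl | rfl
  · refine ⟨finProdFinEquiv (b, 0), ?_⟩
    rw [sI, Equiv.symm_apply_apply]
    show finProdFinEquiv (b, if i.castSucc < 0 then (1 : Fin (1 + 1)) else 0) = _
    rw [if_neg (Fin.not_lt_zero _)]
  · refine ⟨finProdFinEquiv (b, Fin.last (k + 1)), ?_⟩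
    rw [sI, Equiv.symm_apply_apply]
    show finProdFinEquiv (b, if i.castSucc < Fin.last (k + 1) then (1 : Fin (1 + 1)) else 0) = _
    rw [if_pos (Fin.castSucc_lt_last i)]

/-- the values of `τ` -/
theorem tau_val {p m r : ℕ} {D : Subgroup G} {c : G}
    {τ : (Fin (p ^ m) → G) → ZMod (p ^ m)} (hτ : IsTau p m r c τ) (d : D) (hd : IsConj c (d : G))
    (y : Subgroup.centralizer (D : Set G)) (w : Fin (p ^ m) → D) :
    τ (fun b => uc c d * w b * y) = tauC τ c d w := by
  have h1 : ((uc c d * y * (uc c d)⁻¹) * c : G) = c * (uc c d * y * (uc c d)⁻¹) := by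
    have h2 : (d : G) * y = y * d := Subgroup.mem_centralizer_iff.1 y.2 d d.2
    have h3 := uc_spec c d hd
    generalize uc c d = u at h3 ⊢
    rw [← h3]
    calc u * y * u⁻¹ * (u * d * u⁻¹) = u * (y * d) * u⁻¹ := by group
      _ = u * (d * y) * u⁻¹ := by rw [h2]
      _ = u * d * u⁻¹ * (u * y * u⁻¹) := by group
  have h3 := hτ.inv _ h1 fun b => uc c d * w b
  show _ = τ fun b => uc c d * w b
  rw [← h3]
  congr 1
  funext b
  have h2 : (w b : G) * y = y * w b := Subgroup.mem_centralizer_iff.1 y.2 (w b) (w b).2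
  show uc c d * w b * y = uc c d * y * (uc c d)⁻¹ * (uc c d * w b)
  calc uc c d * w b * y = uc c d * (w b * y) := by group
    _ = uc c d * (y * w b) := by rw [h2]
    _ = uc c d * y * (uc c d)⁻¹ * (uc c d * w b) := by group

end

end Pool.Agent.H39.KL

end
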