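import Pool.Agent.H13.TFQ.H16.FU.Asm1_1
import Pool.Agent.H13.TFQ.H39.KL.RelA
import Pool.Agent.H13.TFQ.H39.KL.ValA_1
import Pool.Agent.H13.TFQ.M104
import Pool.Agent.H13.TFQ.M77
import Pool.Agent.H13.TFQ.M91
import Pool.Agent.H13.TFQ.M95

/-! The parts of this file: H39.KL.ValB, H39.KL.RelB, H39.KL.RelC_1. -/

section

/-!
# Project KL: the value of the functional on the products `U × z`

PROOF of `lc_psC`.  By `hrel` `ψ v = μ ^ (n + 2) * φ (π (v_j 0)) + μ * dl β v`.  For `v j b = u * δ b * y j`, `u = uc c d`, the function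
`y ↦ dl β v` is the coboundary of the function `y ↦ β (fun j b => u * δ b * y j)` of `n + 1` variables, which is invariant
(`u * δ b * (g * y) = (u * g * u⁻¹) * (u * δ b * y)` for `g ∈ Z_G(D)`, and `u * g * u⁻¹` commutes with `c`), so its sum over the cycle
`z` vanishes (`HG.ev_cob`).  With `hπ`: `π (u * δ 0 * y_j) = ζ_j * g`, `ζ_j = u * y_j * u⁻¹` in the centralizer of `c`,
`g = π (u * δ 0)`; `φ (ζ_j g) = φ (g⁻¹ ζ_j g)` by invariance, and the sum over `z` is `HG.ev hφ` of the image of `z` under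
`y ↦ g⁻¹ (u y u⁻¹) g`, which is the image under `y ↦ u y u⁻¹` by `HG.map_conj`; this is `trc n c D d (HG.mk z)` (`trc_eq` with
`x = u⁻¹`).  (`HG.ev_map`, `IsCoc.comp`, `HG.ev_mk`, `lc_push`.)
PROOF of `val_unit`: `val_chain`, `lc_psC`, `TR_smul`; for `d` not conjugate to `c` `trc_of_not`.
-/

set_option autoImplicit false

open Matrix

universe u v w

namespace Pool.Agent.H39.KL

open Pool.Agent.H71.FQ Pool.Agent.H16.KN Pool.Agent.H16.FU

section

variable {G : Type u} [Group G] {B : Type v} [CommRing B] {n : ℕ}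

theorem lc_psC {p m : ℕ} [Fact p.Prime] (D : Subgroup G) {c : G}
    {π : G → Subgroup.centralizer ({c} : Set G)}
    (hπ : ∀ (z : Subgroup.centralizer ({c} : Set G)) (g : G), π (z * g) = z * π g)
    {φ : (Fin (n + 2) → Subgroup.centralizer ({c} : Set G)) → B}
    (hφ : IsCoc (Subgroup.centralizer ({c} : Set G)) n φ) {μ : ℕ}
    {ψ : (Fin (n + 2) → Fin (p ^ m) → G) → B} {β : (Fin (n + 1) → Fin (p ^ m) → G) → B}
    (h2 : CIq c (p ^ m) β)
    (hrel : ∀ (h0 : 0 < p ^ m) v,
      (μ : B) ^ (n + 2) * φ (fun j => π (v j ⟨0, h0⟩)) = ψ v - (μ : B) * dl β v)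
    (d : D) (hd : IsConj c (d : G)) (δ : Fin (p ^ m) → D)
    (z : cyc (Subgroup.centralizer (D : Set G)) n) :
    Finsupp.linearCombination ℤ (psC ψ c d δ)
        (z : Cx ℤ (Subgroup.centralizer (D : Set G)) (n + 1)) =
      (μ : B) ^ (n + 2) * HG.ev hφ (trc n c D d (HG.mk z)) := by
  have h0 : 0 < p ^ m := pow_pos (Fact.out : p.Prime).pos m
  have hu := uc_spec c d hd
  have hcomm : ∀ (g : Subgroup.centralizer (D : Set G)) (x : D), (x : G) * g = g * x :=
    fun g x => Subgroup.mem_centralizer_iff.1 g.2 _ x.2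
  -- the conjugates of the elements of the centralizer of `D`
  have hcj : ∀ g : Subgroup.centralizer (D : Set G),
      (uc c d * g * (uc c d)⁻¹) * c = c * (uc c d * g * (uc c d)⁻¹) := by
    intro g
    have h := hcomm g d
    calc (uc c d * g * (uc c d)⁻¹) * c
        = (uc c d * g * (uc c d)⁻¹) * (uc c d * d * (uc c d)⁻¹) := by rw [hu]
      _ = uc c d * (g * d) * (uc c d)⁻¹ := by group
      _ = uc c d * (d * g) * (uc c d)⁻¹ := by rw [h]
      _ = (uc c d * d * (uc c d)⁻¹) * (uc c d * g * (uc c d)⁻¹) := by group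
      _ = _ := by rw [hu]
  have hmem : ∀ g : Subgroup.centralizer (D : Set G),
      uc c d * g * (uc c d)⁻¹ ∈ Subgroup.centralizer ({c} : Set G) := by
    intro g
    rw [Subgroup.mem_centralizer_iff]
    intro a ha
    rw [Set.mem_singleton_iff] at ha
    subst ha
    exact (hcj g).symm
  have hshift : ∀ (g : Subgroup.centralizer (D : Set G)) (x : D) (y : G),
      uc c d * x * (g * y) = (uc c d * g * (uc c d)⁻¹) * (uc c d * x * y) := by
    intro g x y
    calc uc c d * x * (g * y) = uc c d * (x * g) * y := by group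
      _ = uc c d * (g * x) * y := by rw [hcomm g x]
      _ = _ := by group
  -- the coboundary part
  have hcob : Finsupp.linearCombination ℤ
      (fun y : Fin (n + 2) → Subgroup.centralizer (D : Set G) =>
        dl β fun j b => uc c d * δ b * y j) (z : Cx ℤ (Subgroup.centralizer (D : Set G)) (n + 1)) =
      0 := by
    have h := lc_bd (fun y : Fin (n + 1) → Subgroup.centralizer (D : Set G) =>
      β fun j b => uc c d * δ b * y j) (z : Cx ℤ (Subgroup.centralizer (D : Set G)) (n + 1))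
    rw [inv_coi (fun g y => ?_) z.2] at h
    · exact h.symm
    · have e := h2 _ (hcj g) fun j b => uc c d * δ b * (y j : G)
      rw [← e]
      congr 1
      funext j b
      exact hshift g (δ b) (y j)
  -- the homomorphism
  have hm : (uc c d)⁻¹ * c * ((uc c d)⁻¹)⁻¹ = (d : G) := by
    conv_lhs => rw [← hu]
    rw [hu]
    nth_rewrite 2 [← hu]
    group
  have hm' : (uc c d)⁻¹ * c * ((uc c d)⁻¹)⁻¹ ∈ D := by
    rw [hm]
    exact d.2
  let g0 : Subgroup.centralizer ({c} : Set G) := π (uc c d * δ ⟨0, h0⟩)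
  let f : Subgroup.centralizer (D : Set G) →* Subgroup.centralizer ({c} : Set G) :=
    (MulAut.conj g0⁻¹).toMonoidHom.comp (cnj c (uc c d)⁻¹ D hm')
  have hval : ∀ y : Fin (n + 2) → Subgroup.centralizer (D : Set G),
      φ (fun j => π (uc c d * δ ⟨0, h0⟩ * y j)) = φ fun j => f (y j) := by
    intro y
    have e := hφ.inv g0 fun j => f (y j)
    rw [← e]
    congr 1
    funext j
    have e1 : uc c d * δ ⟨0, h0⟩ * (y j : G) =
        (⟨uc c d * (y j : G) * (uc c d)⁻¹, hmem (y j)⟩ : Subgroup.centralizer ({c} : Set G)) *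
          (uc c d * δ ⟨0, h0⟩) := by
      have e2 := hshift (y j) (δ ⟨0, h0⟩) 1
      rw [mul_one, mul_one] at e2
      exact e2
    have e3 : (cnj c (uc c d)⁻¹ D hm') (y j) =
        (⟨uc c d * (y j : G) * (uc c d)⁻¹, hmem (y j)⟩ : Subgroup.centralizer ({c} : Set G)) := by
      apply Subtype.ext
      rw [cnj_coe, inv_inv]
    rw [e1, hπ, ← e3]
    show (cnj c (uc c d)⁻¹ D hm') (y j) * g0 =
      g0 * (g0⁻¹ * (cnj c (uc c d)⁻¹ D hm') (y j) * (g0⁻¹)⁻¹)
    generalize (cnj c (uc c d)⁻¹ D hm') (y j) = x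
    group
  have hsum : ∀ y : Fin (n + 2) → Subgroup.centralizer (D : Set G), psC ψ c d δ y =
      (μ : B) ^ (n + 2) * φ (fun j => f (y j)) +
        (μ : B) * dl β fun j b => uc c d * δ b * y j := by
    intro y
    have e := hrel h0 fun j b => uc c d * δ b * y j
    rw [← hval y, e]
    unfold psC
    ring
  have hlin : ∀ (a b : B) (F H : (Fin (n + 2) → Subgroup.centralizer (D : Set G)) → B)
      (x : Cx ℤ (Subgroup.centralizer (D : Set G)) (n + 1)),
      Finsupp.linearCombination ℤ (fun y => a * F y + b * H y) x =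
        a * Finsupp.linearCombination ℤ F x + b * Finsupp.linearCombination ℤ H x := by
    intro a b F H x
    have e : Finsupp.linearCombination ℤ (fun y => a * F y + b * H y) =
        (AddMonoidHom.mulLeft a).toIntLinearMap.comp (Finsupp.linearCombination ℤ F) +
          (AddMonoidHom.mulLeft b).toIntLinearMap.comp (Finsupp.linearCombination ℤ H) := by
      refine Finsupp.lhom_ext' fun y => LinearMap.ext_ring ?_
      simp only [LinearMap.comp_apply, Finsupp.lsingle_apply, LinearMap.add_apply]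
      rw [Finsupp.linearCombination_single, Finsupp.linearCombination_single,
        Finsupp.linearCombination_single, one_smul, one_smul, one_smul]
      rfl
    exact LinearMap.congr_fun e x
  rw [show psC ψ c d δ = fun y => (μ : B) ^ (n + 2) * φ (fun j => f (y j)) +
        (μ : B) * dl β fun j b => uc c d * δ b * y j from funext hsum, hlin, hcob, mul_zero,
    add_zero]
  congr 1
  rw [trc_eq (uc c d)⁻¹ hm hm', ← HG.map_conj (cnj c (uc c d)⁻¹ D hm') f g0⁻¹ (fun a => rfl),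
    HG.ev_map, HG.ev_mk]

/-- **The value on `U × z`.** -/
theorem val_unit {p m r : ℕ} [Fact p.Prime] (D : Subgroup G) [Fintype D]
    (hD : ∀ a b : D, a * b = b * a) {c : G} {π : G → Subgroup.centralizer ({c} : Set G)}
    (hπ : ∀ (z : Subgroup.centralizer ({c} : Set G)) (g : G), π (z * g) = z * π g)
    {φ : (Fin (n + 2) → Subgroup.centralizer ({c} : Set G)) → B}
    (hφ : IsCoc (Subgroup.centralizer ({c} : Set G)) n φ) {μ : ℕ}
    {ψ : (Fin (n + 2) → Fin (p ^ m) → G) → B} {β : (Fin (n + 1) → Fin (p ^ m) → G) → B}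
    (h1 : CIq c (p ^ m) ψ) (h2 : CIq c (p ^ m) β)
    (hrel : ∀ (h0 : 0 < p ^ m) v,
      (μ : B) ^ (n + 2) * φ (fun j => π (v j ⟨0, h0⟩)) = ψ v - (μ : B) * dl β v)
    {τ : (Fin (p ^ m) → G) → ZMod (p ^ m)} (hτ : IsTau p m r c τ) (N : ℕ)
    (U : GLm N (MonoidAlgebra B D)) (z : cyc (Subgroup.centralizer (D : Set G)) n) :
    TR (p ^ m) c (phiG ψ τ)
        (ch N (prUz B D U (z : Cx ℤ (Subgroup.centralizer (D : Set G)) (n + 1)))) =
      (-1) ^ (n + 1) * ((μ : B) ^ (n + 2) *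
        ∑ d : D, HG.ev hφ (trc n c D d (HG.mk z)) * lamQ p m d (tauC τ c d) U) := by
  classical
  rw [val_chain D hD h1 hτ N U]
  congr 1
  rw [Finset.mul_sum]
  refine Finset.sum_congr rfl fun d _ => ?_
  by_cases hd : IsConj c (d : G)
  · rw [if_pos hd]
    have e : (fun v : Fin 2 → Fin (p ^ m) → D =>
        (Finsupp.linearCombination ℤ (psC ψ c d (v 0))
          (z : Cx ℤ (Subgroup.centralizer (D : Set G)) (n + 1)) : B) *
            tl B (tauC τ c d) (v 0) (v 1)) =
        fun v : Fin 2 → Fin (p ^ m) → D =>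
          ((μ : B) ^ (n + 2) * HG.ev hφ (trc n c D d (HG.mk z))) *
            phiG (k := 0) (fun _ => (1 : B)) (tauC τ c d) v := by
      funext v
      rw [lc_psC D hπ hφ h2 hrel d hd (v 0) z]
      congr 1
      show _ = (1 : B) * tl B (tauC τ c d) (v 0) (v 1)
      rw [one_mul]
    rw [e, TR_smul, mul_assoc]
    rfl
  · rw [if_neg hd, trc_of_not hd, AddMonoidHom.zero_apply, map_zero, zero_mul, mul_zero]

end

end Pool.Agent.H39.KL

end

section

/-!
# Project KL: the relation of the logarithms over `B`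

`B` is a commutative domain of characteristic zero with `⋂ p ^ a B = 0`.

PROOF of `relB`.  Let `μ` from `hmeas : Meas p c π φ`, `e₀ = r`.  Fix `l` and take `m = 2 l + r + 1`; `ψ, β` from `hmeas` for this
`m`, `τ` from `exists_tau`.  `X = M • (mono1 y + ∑ i, gasm1 (K1.unit (u i)) (z i))`, `hX` from `h`.  Representatives:
`ofKQ (mono1 B G (n + 1) y) = QH.mk (ch 1 (push (scal 1 (grpHom B G)) y'))`, `y = HG.mk y'`;
`ofKQ (gasm1 B n .. (K1.unit (u i)) (z i)) = QH.mk (ch 1 (prUz B (C i) (U i) z'))`, `z i = HG.mk z'`, `U i` the `1 × 1` matrix of the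
unit (`asm1_mk`, `HG.cr_mk`, `ofKQ_cls`).  `relA`, `val_mono` (`c ≠ 1` as `p ∣ orderOf c`), `val_unit`:
`p ^ (m + (m - r + 1)) ∣ M * (-1) ^ (n + 1) * μ ^ (n + 2) * ∑ i, ∑ d, HG.ev hφ (trc n c (C i) d (z i)) * lamQ p m d τ_d (U i)`.
(Only the `d` conjugate to `c` matter, for them `orderOf d = orderOf c`, `IsTau` for `tauC τ c d`.)  Multiply by `p ^ l` and insert
`lamQ_log` (`(cof (U ^ p ^ l - 1) d).trace` is the coefficient at `d` of `u ^ p ^ l - 1`):
`M * μ ^ (n + 2) * p ^ (m + r) * S ∈ p ^ (2 l + (m - r + 1)) B + p ^ (m + (m - r + 1)) B`, `S` the sum in the statement; multiply by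
`p ^ r` and cancel `p ^ m` (`B` is a domain of characteristic zero): `M * μ ^ (n + 2) * p ^ (2 r) * S ∈ p ^ (2 l) B`, `m ≥ 2 l`.
So `K = |M| * μ ^ (n + 2) * p ^ (2 r)`.
-/

set_option autoImplicit false

open Matrix
open scoped LaurentPolynomial

universe u v w

namespace Pool.Agent.H39.KL

open Pool.Agent.H71.FQ Pool.Agent.H16.KN Pool.Agent.H16.FU
open Pool.Agent.H95.WH (K1 K1.unit)

section

variable {G : Type u} [Group G] {B : Type} [CommRing B] {n : ℕ}

private theorem rb_arith [IsDomain B] [CharZero B] {p : ℕ} [Fact p.Prime] (r l : ℕ) (M : ℤ)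
    (μ k : ℕ) (S Λ x y : B)
    (h1 : (p : B) ^ l * Λ = (p : B) ^ (2 * l + r + 1 + r) * S +
      (p : B) ^ (2 * l + (2 * l + r + 1 - r + 1)) * x +
      (p : B) ^ (2 * l + r + 1 + (2 * l + r + 1 - r + 1)) * y)
    (h2 : (p : B) ^ (2 * l + r + 1 + (2 * l + r + 1 - r + 1)) ∣
      (M : B) * ((-1) ^ (k + 1) * ((μ : B) ^ (k + 2) * Λ))) :
    (p : B) ^ (2 * l) ∣ ((M.natAbs * μ ^ (k + 2) * p ^ (2 * r) : ℕ) : B) * S := by
  have hp0 : (p : B) ≠ 0 := Nat.cast_ne_zero.2 (Fact.out : p.Prime).ne_zero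
  rw [show 2 * l + r + 1 - r + 1 = 2 * l + 2 by omega] at h1 h2
  obtain ⟨q, hq⟩ := h2
  have hs : ((-1 : B) ^ (k + 1)) * (-1) ^ (k + 1) = 1 := by
    rw [← mul_pow, neg_one_mul, neg_neg, one_pow]
  have hT : (M : B) * ((μ : B) ^ (k + 2) * Λ) =
      (-1) ^ (k + 1) * ((p : B) ^ (2 * l + r + 1 + (2 * l + 2)) * q) := by
    rw [← hq]
    calc (M : B) * ((μ : B) ^ (k + 2) * Λ) =
        (((-1 : B) ^ (k + 1)) * (-1) ^ (k + 1)) * ((M : B) * ((μ : B) ^ (k + 2) * Λ)) := by
          rw [hs, one_mul]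
      _ = _ := by ring
  have hc : (p : B) ^ (2 * l + 1) * ((p : B) ^ (2 * r) * ((M : B) * ((μ : B) ^ (k + 2) * S))) =
      (p : B) ^ (2 * l + 1) * ((p : B) ^ (2 * l) * ((p : B) * ((p : B) ^ (l + r + 1) *
        ((-1) ^ (k + 1) * q) - (M : B) * (μ : B) ^ (k + 2) * x -
          (p : B) ^ (r + 1) * ((M : B) * (μ : B) ^ (k + 2) * y)))) := by
    have e1 : (p : B) ^ (2 * l + 1) * ((p : B) ^ (2 * r) * ((M : B) * ((μ : B) ^ (k + 2) * S))) =
        (M : B) * (μ : B) ^ (k + 2) * ((p : B) ^ (2 * l + r + 1 + r) * S) := by ring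
    have e2 : (p : B) ^ (2 * l + r + 1 + r) * S = (p : B) ^ l * Λ -
      (p : B) ^ (2 * l + (2 * l + 2)) * x -
      (p : B) ^ (2 * l + r + 1 + (2 * l + 2)) * y := by
      rw [h1]
      ring
    rw [e1, e2]
    calc (M : B) * (μ : B) ^ (k + 2) * ((p : B) ^ l * Λ -
          (p : B) ^ (2 * l + (2 * l + 2)) * x - (p : B) ^ (2 * l + r + 1 + (2 * l + 2)) * y) =
        (p : B) ^ l * ((M : B) * ((μ : B) ^ (k + 2) * Λ)) -
          (M : B) * (μ : B) ^ (k + 2) * ((p : B) ^ (2 * l + (2 * l + 2)) * x +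
            (p : B) ^ (2 * l + r + 1 + (2 * l + 2)) * y) := by ring
      _ = _ := by
        rw [hT]
        ring
  have hd : (p : B) ^ (2 * r) * ((M : B) * ((μ : B) ^ (k + 2) * S)) =
      (p : B) ^ (2 * l) * ((p : B) * ((p : B) ^ (l + r + 1) *
        ((-1) ^ (k + 1) * q) - (M : B) * (μ : B) ^ (k + 2) * x -
          (p : B) ^ (r + 1) * ((M : B) * (μ : B) ^ (k + 2) * y))) :=
    mul_left_cancel₀ (pow_ne_zero _ hp0) hc
  have he : (p : B) ^ (2 * l) ∣ (M : B) * (((μ : B) ^ (k + 2) * (p : B) ^ (2 * r)) * S) :=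
    ⟨_, by rw [← hd]; ring⟩
  have hf : (p : B) ^ (2 * l) ∣ ((M.natAbs : ℕ) : B) *
      (((μ : B) ^ (k + 2) * (p : B) ^ (2 * r)) * S) := by
    rcases Int.natAbs_eq M with h | h
    · rw [h, Int.cast_natCast] at he
      exact he
    · rw [h, Int.cast_neg, Int.cast_natCast, neg_mul, dvd_neg] at he
      exact he
  push_cast
  rw [mul_assoc, mul_assoc, ← mul_assoc ((μ : B) ^ (k + 2))]
  exact hf

/-- the `1 × 1` matrix of a unit -/
private noncomputable def rb_U {R : Type*} [Ring R] (w : Rˣ) : GLm 1 R :=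
  Units.map (Matrix.scalar (Fin 1)).toMonoidHom w

private theorem rb_U_apply {R : Type*} [Ring R] (w : Rˣ) (i j : Fin 1) :
    (rb_U w).val i j = (w : R) := by
  rw [Subsingleton.elim j i]
  exact Matrix.diagonal_apply_eq _ i

private theorem rb_U_pow {R : Type*} [Ring R] (w : Rˣ) (k : ℕ) : rb_U w ^ k = rb_U (w ^ k) :=
  (map_pow (Units.map (Matrix.scalar (Fin 1) : R →+* Matrix (Fin 1) (Fin 1) R).toMonoidHom)
    w k).symm

private theorem rb_U_val {D : Type u} [Group D] (w : (MonoidAlgebra B D)ˣ) (q : B)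
    (a : MonoidAlgebra B D) (h : (w : MonoidAlgebra B D) = 1 + q • a) :
    (rb_U w).val = 1 + q • (Matrix.of fun _ _ : Fin 1 => a) := by
  refine Matrix.ext fun i j => ?_
  rw [rb_U_apply, h, Subsingleton.elim j i, Matrix.add_apply, Matrix.one_apply_eq,
    Matrix.smul_apply, Matrix.of_apply]

private theorem rb_trace {D : Type u} [Group D] (w : (MonoidAlgebra B D)ˣ) (k : ℕ) (d : D) :
    (cof ((rb_U w ^ k : GLm 1 (MonoidAlgebra B D)).val - 1) d).trace =
      ((w : MonoidAlgebra B D) ^ k - 1).coeff d := by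
  rw [rb_U_pow, Matrix.trace_fin_one]
  show (((rb_U (w ^ k)).val - 1) 0 0).coeff d = _
  rw [Matrix.sub_apply, rb_U_apply, Matrix.one_apply_eq, Units.val_pow_eq_pow_val]

private theorem rb_mono (y : HG G (n + 1)) : ∃ y' : Cx ℤ G (n + 1 + 1),
    ofKQ (mono1 B G (n + 1) y) =
      QH.mk (ch 1 (push ℤ (scal 1 (grpHom B G)) (n + 1 + 1) y')) := by
  obtain ⟨y', rfl⟩ := HG.mk_surjective y
  refine ⟨y', ?_⟩
  show ofKQ (KQ.cls (MonoidAlgebra B G) (n + 1) 1
    (HG.map (n + 1) (scal 1 (grpHom B G)) (HG.mk y'))) = _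
  rw [HG.map_mk, ofKQ_cls]

private theorem rb_gasm (D : Subgroup G) (w : (MonoidAlgebra B D)ˣ)
    (z : cyc (Subgroup.centralizer (D : Set G)) n) :
    ofKQ (gasm1 B n D.subtype (Subgroup.centralizer (D : Set G)).subtype (cent_comm D)
        (K1.unit w) (HG.mk z)) =
      QH.mk (ch 1 (prUz B D (rb_U w)
        (z : Cx ℤ (Subgroup.centralizer (D : Set G)) (n + 1)))) := by
  rw [gasm1, K1.unit, asm1_mk, HG.cr_mk, ofKQ_cls]
  rfl

private theorem rb_log {p : ℕ} [Fact p.Prime] (r l : ℕ)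
    (hG : ∀ g : G, (∃ j : ℕ, g ^ p ^ j = 1) → g ^ p ^ r = 1) {c : G}
    (hpc : p ∣ orderOf c) {φ : (Fin (n + 2) → Subgroup.centralizer ({c} : Set G)) → B}
    (hφ : IsCoc (Subgroup.centralizer ({c} : Set G)) n φ)
    {τ : (Fin (p ^ (2 * l + r + 1)) → G) → ZMod (p ^ (2 * l + r + 1))}
    (hτ : IsTau p (2 * l + r + 1) r c τ) (D : Subgroup G) [Fintype D]
    (hD : ∀ a b : D, a * b = b * a) (w : (MonoidAlgebra B D)ˣ)
    (hw : ∃ a : MonoidAlgebra B D, (w : MonoidAlgebra B D) = 1 + ((p : B) ^ 2) • a)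
    (z : HG (Subgroup.centralizer (D : Set G)) n) (d : D) :
    ∃ x y : B, (p : B) ^ l * (HG.ev hφ (trc n c D d z) *
        lamQ p (2 * l + r + 1) d (tauC τ c d) (rb_U w)) =
      (p : B) ^ (2 * l + r + 1 + r) * (HG.ev hφ (trc n c D d z) *
        (((w : MonoidAlgebra B D) ^ p ^ l - 1).coeff d)) +
      (p : B) ^ (2 * l + (2 * l + r + 1 - r + 1)) * x +
      (p : B) ^ (2 * l + r + 1 + (2 * l + r + 1 - r + 1)) * y := by
  by_cases hd : IsConj c (d : G)
  · obtain ⟨a, ha⟩ := hw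
    have hpd : p ∣ orderOf d := by
      rw [← orderOf_injective D.subtype D.subtype_injective d]
      obtain ⟨g, hg⟩ := isConj_iff.1 hd
      have e : (D.subtype d : G) = g * c * g⁻¹ := hg.symm
      rw [e, ← MulAut.conj_apply, ← MulEquiv.coe_toMonoidHom,
        orderOf_injective _ (MulAut.conj g).injective c]
      exact hpc
    have hGD : ∀ g : D, (∃ j : ℕ, g ^ p ^ j = 1) → g ^ p ^ r = 1 := by
      rintro g ⟨j, hj⟩
      apply Subtype.ext
      have e : (g : G) ^ p ^ j = 1 := by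
        rw [← Subgroup.coe_pow, hj, Subgroup.coe_one]
      rw [Subgroup.coe_pow, Subgroup.coe_one]
      exact hG _ ⟨j, e⟩
    obtain ⟨x, y, hxy⟩ := lamQ_log hD (by omega) hGD hpd (isTau_tauC hτ d hd)
      (Matrix.of fun _ _ : Fin 1 => a) (rb_U w) (rb_U_val w _ a ha) l
    rw [rb_trace] at hxy
    refine ⟨HG.ev hφ (trc n c D d z) * x, HG.ev hφ (trc n c D d z) * y, ?_⟩
    calc (p : B) ^ l * (HG.ev hφ (trc n c D d z) *
          lamQ p (2 * l + r + 1) d (tauC τ c d) (rb_U w)) =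
        HG.ev hφ (trc n c D d z) * ((p : B) ^ l *
          lamQ p (2 * l + r + 1) d (tauC τ c d) (rb_U w)) := by ring
      _ = _ := by
        rw [hxy]
        ring
  · refine ⟨0, 0, ?_⟩
    rw [trc_of_not hd, AddMonoidHom.zero_apply, map_zero]
    ring

/-- **The relation of the logarithms.** -/
theorem relB [IsDomain B] [CharZero B] {p : ℕ} [Fact p.Prime] (r : ℕ)
    (hG : ∀ g : G, (∃ j : ℕ, g ^ p ^ j = 1) → g ^ p ^ r = 1) {c : G} (hc : IsOfFinOrder c)
    (hpc : p ∣ orderOf c) {π : G → Subgroup.centralizer ({c} : Set G)}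
    (hπ : ∀ (z : Subgroup.centralizer ({c} : Set G)) (g : G), π (z * g) = z * π g)
    {φ : (Fin (n + 2) → Subgroup.centralizer ({c} : Set G)) → B}
    (hφ : IsCoc (Subgroup.centralizer ({c} : Set G)) n φ) (hmeas : Meas p c π φ)
    {ι : Type} [Fintype ι] (C : ι → Subgroup G) [∀ i, Fintype (C i)]
    (hC : ∀ i, ∀ a b : C i, a * b = b * a) (u : ∀ i, (MonoidAlgebra B (C i))ˣ)
    (hu : ∀ i, ∃ a : MonoidAlgebra B (C i),
      (u i : MonoidAlgebra B (C i)) = 1 + ((p : B) ^ 2) • a)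
    (z : ∀ i, HG (Subgroup.centralizer (C i : Set G)) n) (y : HG G (n + 1)) (M : ℤ) (hM : M ≠ 0)
    (h : M • LKQ.mk (tp (MonoidAlgebra B G) (n + 1) (mono1 B G (n + 1) y +
      ∑ i, gasm1 B n (C i).subtype (Subgroup.centralizer (C i : Set G)).subtype
        (cent_comm (C i)) (K1.unit (u i)) (z i))) = 0) :
    ∃ K : ℕ, K ≠ 0 ∧ ∀ l : ℕ, (p : B) ^ (2 * l) ∣ (K : B) *
      ∑ i, ∑ d : C i, HG.ev hφ (trc n c (C i) d (z i)) *
        (((u i : MonoidAlgebra B (C i)) ^ p ^ l - 1).coeff d) := by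
  classical
  have hp : p.Prime := Fact.out
  obtain ⟨μ, hμ, hm⟩ := hmeas
  refine ⟨M.natAbs * μ ^ (n + 2) * p ^ (2 * r), mul_ne_zero (mul_ne_zero
    (Int.natAbs_ne_zero.2 hM) (pow_ne_zero _ hμ)) (pow_ne_zero _ hp.ne_zero), fun l => ?_⟩
  obtain ⟨ψ, β, h1, h2, h3, h4, h5⟩ := hm (2 * l + r + 1)
  obtain ⟨τ, hτ⟩ := exists_tau hp (2 * l + r + 1) r hG hc hpc
  have hc1 : c ≠ 1 := by
    rintro rfl
    rw [orderOf_one] at hpc
    exact hp.one_lt.ne' (Nat.dvd_one.1 hpc)
  choose z' hz' using fun i => HG.mk_surjective (z i)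
  obtain ⟨y', hy'⟩ := rb_mono (B := B) y
  have hX : ofKQ (M • (mono1 B G (n + 1) y +
      ∑ i, gasm1 B n (C i).subtype (Subgroup.centralizer (C i : Set G)).subtype
        (cent_comm (C i)) (K1.unit (u i)) (z i))) =
      QH.mk (M • (ch 1 (push ℤ (scal 1 (grpHom B G)) (n + 1 + 1) y') +
        ∑ i, ch 1 (prUz B (C i) (rb_U (u i))
          (z' i : Cx ℤ (Subgroup.centralizer (C i : Set G)) (n + 1))))) := by
    rw [map_zsmul, map_zsmul, map_add, map_add, map_sum, map_sum, hy']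
    congr 2
    refine Finset.sum_congr rfl fun i _ => ?_
    rw [← hz' i, rb_gasm]
  have hX0 : LKQ.mk (tp (MonoidAlgebra B G) (n + 1) (M • (mono1 B G (n + 1) y +
      ∑ i, gasm1 B n (C i).subtype (Subgroup.centralizer (C i : Set G)).subtype
        (cent_comm (C i)) (K1.unit (u i)) (z i)))) = 0 := by
    rw [map_zsmul, map_zsmul]
    exact h
  have key := relA (2 * l + r + 1) r (by omega) hG hc hpc h1 h2 h3 hτ _ hX0 _ hX
  have hval : ∀ i, TR (p ^ (2 * l + r + 1)) c (phiG ψ τ) (ch 1 (prUz B (C i) (rb_U (u i))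
      (z' i : Cx ℤ (Subgroup.centralizer (C i : Set G)) (n + 1)))) =
      (-1) ^ (n + 1) * ((μ : B) ^ (n + 2) * ∑ d : C i, HG.ev hφ (trc n c (C i) d (z i)) *
        lamQ p (2 * l + r + 1) d (tauC τ c d) (rb_U (u i))) := by
    intro i
    rw [val_unit (C i) (hC i) hπ hφ h1 h4 h5 hτ 1 (rb_U (u i)) (z' i), hz' i]
  rw [map_zsmul, map_add, map_sum, val_mono hc1 h1 hτ 1 y', zero_add,
    Finset.sum_congr rfl fun i _ => hval i, ← Finset.mul_sum, ← Finset.mul_sum,
    zsmul_eq_mul] at key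
  choose x y hxy using fun i => rb_log r l hG hpc hφ hτ (C i) (hC i) (u i) (hu i) (z i)
  refine rb_arith r l M μ n _ _ (∑ i, ∑ d : C i, x i d) (∑ i, ∑ d : C i, y i d) ?_ key
  simp only [Finset.mul_sum, ← Finset.sum_add_distrib]
  refine Finset.sum_congr rfl fun i _ => ?_
  refine Finset.sum_congr rfl fun d _ => ?_
  exact hxy i d

end

end Pool.Agent.H39.KL

end

section

/-!
# Project KL: the relation of the logarithms over `ℤ`

`Kill p G j W` says that the value of the assembly map on `W : HnKm1 ℤ G j` becomes torsion over some domain `B` of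
characteristic zero with `⋂ p ^ a B = 0` in which the natural numbers prime to `p` are invertible (it is proved in another module,
with `B` a localization of the ring of integers of a cyclotomic field).

PROOF of `relC`.  `B`, `M'` from `Kill`.  Apply `LKQ.map (MonoidAlgebra.mapRingHom G (Int.castRingHom B))` to `hrel` and multiply by
`M'`: the `K₋₁`-part disappears.  `LKQ.map_mk`, `map_tp`, `map_mono1`, `map_assembly1` or `map_gasm1`
(`assembly1 ℤ k G (sy1 F x z) = gasm1 ..`, `asm1_sy1`; `K1.map (K1.unit u) = K1.unit (Units.map u)`, `K1.map_unit`) give the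
hypothesis of `relB` with `M * M'`, the units `Units.map u i` of `B[C i]` (`hu`: all coefficients of `u i - 1` are divisible by
`p ^ 2`, so `u i = 1 + p ^ 2 a`) and `y`.
The homomorphism `f : HG .. →+ ℚ` has `p`-integral values, and these are in `B`: `L = FractionRing B` has characteristic zero,
the image of `(q : ℚ)` in `L` comes from `B` if `¬ p ∣ q.den` (`q.den` is a unit of `B`); so there is `fB : HG .. →+ B` with
`algebraMap B L (fB y) = ((f y : ℚ) : L)`.  `exists_cocycle'` (`KN/UctF.lean`) gives a cocycle `φ` with `HG.ev hφ = fB`;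
`exists_pi`, `meas_of_exp` (`KN/Coch.lean`) give `π`, `hmeas`.  `relB` gives `K`.  For every `l` the sum `S` is the image of the
rational number `s = ∑ ∑ f (trc ..) * coeff`, which is `p`-integral, and `p ^ (2 l)` divides `K * S` in `B`: then it divides
`K * s` in `ℤ_(p)` (write `K * s = p ^ a * s'`, `s'` a unit of `ℤ_(p)` or `s = 0`; `s'` is a unit of `B`; if `a < 2 l` then `p` is a unit
of `B`, which contradicts `hsep` for `b = 1`).  Finally the prime to `p` part of `K` is a unit of `ℤ_(p)`: replace `K` by `p ^ K'`.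
-/

set_option autoImplicit false

open Matrix
open scoped LaurentPolynomial

universe u v w

namespace Pool.Agent.H39.KL

open Pool.Agent.H71.FQ Pool.Agent.H16.KN Pool.Agent.H16.FU
open Pool.Agent.H95.WH (K1 K1.unit FamSub FinSub)

section Aux

end Aux

section

variable {G : Type u} [Group G] {k : ℕ}

/-- **The relation of the logarithms over `ℤ`.** -/
theorem relC {p : ℕ} [Fact p.Prime] (r : ℕ)
    (hG : ∀ g : G, (∃ j : ℕ, g ^ p ^ j = 1) → g ^ p ^ r = 1) {c : G} (hc : IsOfFinOrder c)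
    (hpc : p ∣ orderOf c) {ι : Type} [Fintype ι] (C : ι → Subgroup G) [∀ i, Fintype (C i)]
    (hC : ∀ i, ∀ a b : C i, a * b = b * a) (u : ∀ i, (MonoidAlgebra ℤ (C i))ˣ)
    (hu : ∀ i, ∀ d : C i, (p : ℤ) ^ 2 ∣ ((u i : MonoidAlgebra ℤ (C i)) - 1).coeff d)
    (z : ∀ i, HG (Subgroup.centralizer (C i : Set G)) k) (y : HG G (k + 1))
    (W : HnKm1 ℤ G (k + 2)) (hW : Kill p G (k + 2) W) (M : ℤ) (hM : M ≠ 0)
    (hrel : M • asmAll G k (y, ∑ i, sy1 (⟨C i, Finite.of_fintype (C i)⟩ : FamSub G FinSub)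
      (K1.unit (u i)) (z i), W) = 0)
    (f : HG (Subgroup.centralizer ({c} : Set G)) k →+ ℚ) (hf : ∀ y, ¬ p ∣ (f y).den) :
    ∃ K : ℕ, ∀ l : ℕ, ∃ t : ℚ, ¬ p ∣ t.den ∧
      (p : ℚ) ^ K * ∑ i, ∑ d : C i, f (trc k c (C i) d (z i)) *
        ((((u i : MonoidAlgebra ℤ (C i)) ^ p ^ l - 1).coeff d : ℤ) : ℚ) =
      (p : ℚ) ^ (2 * l) * t := by
  classical
  obtain ⟨B, iB, iD, iC, hsep, hun, M', hM', hW'⟩ := hW
  have hp : p.Prime := Fact.out
  -- the homomorphism with values in B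
  choose! bB hbB using fun q : ℚ => exists_B (B := B) (p := p) hun q
  have hinj : Function.Injective (algebraMap B (FractionRing B)) := IsFractionRing.injective B _
  let fB : HG (Subgroup.centralizer ({c} : Set G)) k →+ B :=
    AddMonoidHom.mk' (fun y => bB (f y)) (fun a b => by
      apply hinj
      rw [map_add (algebraMap B (FractionRing B)), hbB _ (hf _), hbB _ (hf _), hbB _ (hf _),
        map_add f, Rat.cast_add])
  have hfB : ∀ y, algebraMap B (FractionRing B) (fB y) = ((f y : ℚ) : FractionRing B) :=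
    fun y => hbB _ (hf y)
  obtain ⟨φ, hφ, hev⟩ := exists_cocycle' fB
  obtain ⟨π, hπ⟩ := exists_pi c
  have hmeas : Meas p c π φ := meas_of_exp hp r hG hc π hπ hφ
  -- the relation over B
  have hrel' : (M * M') • LKQ.mk (tp (MonoidAlgebra B G) (k + 1) (mono1 B G (k + 1) y +
      ∑ i, gasm1 B k (C i).subtype (Subgroup.centralizer (C i : Set G)).subtype
        (cent_comm (C i)) (K1.unit (Units.map (MonoidAlgebra.mapRingHom (C i)
          (Int.castRingHom B)).toMonoidHom (u i))) (z i))) = 0 := by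
    have h1 := congrArg (fun x => M' • LKQ.map (MonoidAlgebra.mapRingHom G (Int.castRingHom B)) x)
      hrel
    simp only [map_zero, smul_zero, map_zsmul] at h1
    have h2 : LKQ.map (MonoidAlgebra.mapRingHom G (Int.castRingHom B))
        (asmAll G k (y, ∑ i, sy1 (⟨C i, Finite.of_fintype (C i)⟩ : FamSub G FinSub)
          (K1.unit (u i)) (z i), W)) =
        LKQ.mk (tp (MonoidAlgebra B G) (k + 1) (mono1 B G (k + 1) y +
          ∑ i, gasm1 B k (C i).subtype (Subgroup.centralizer (C i : Set G)).subtype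
            (cent_comm (C i)) (K1.unit (Units.map (MonoidAlgebra.mapRingHom (C i)
              (Int.castRingHom B)).toMonoidHom (u i))) (z i))) +
        LKQ.map (MonoidAlgebra.mapRingHom G (Int.castRingHom B)) (asmKm1 ℤ (k + 2) G W) := by
      have h3 : asmAll G k (y, ∑ i, sy1 (⟨C i, Finite.of_fintype (C i)⟩ : FamSub G FinSub)
          (K1.unit (u i)) (z i), W) =
          LKQ.mk (tp (MonoidAlgebra ℤ G) (k + 1) (mono1 ℤ G (k + 1) y)) +
          (LKQ.mk (tp (MonoidAlgebra ℤ G) (k + 1) (assembly1 ℤ k G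
            (∑ i, sy1 (⟨C i, Finite.of_fintype (C i)⟩ : FamSub G FinSub)
              (K1.unit (u i)) (z i)))) + asmKm1 ℤ (k + 2) G W) := rfl
      have h4 : KQ.map (MonoidAlgebra.mapRingHom G (Int.castRingHom B)) (assembly1 ℤ k G
            (∑ i, sy1 (⟨C i, Finite.of_fintype (C i)⟩ : FamSub G FinSub)
              (K1.unit (u i)) (z i))) =
          ∑ i, gasm1 B k (C i).subtype (Subgroup.centralizer (C i : Set G)).subtype
            (cent_comm (C i)) (K1.unit (Units.map (MonoidAlgebra.mapRingHom (C i)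
              (Int.castRingHom B)).toMonoidHom (u i))) (z i) := by
        rw [map_sum, map_sum]
        refine Finset.sum_congr rfl fun i _ => ?_
        rw [asm1_sy1, map_gasm1, Pool.Agent.H95.WH.K1.map_unit]
      rw [h3, map_add, map_add, ← add_assoc, LKQ.map_mk, LKQ.map_mk, map_tp, map_tp, map_mono1, h4,
        ← map_add, ← map_add]
    rw [h2, smul_add, smul_add, smul_comm M' M (LKQ.map _ _), hW', smul_zero, add_zero,
      ← mul_smul, mul_comm M' M] at h1
    exact h1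
  have hu' : ∀ i, ∃ a : MonoidAlgebra B (C i),
      ((Units.map (MonoidAlgebra.mapRingHom (C i) (Int.castRingHom B)).toMonoidHom (u i) :
        (MonoidAlgebra B (C i))ˣ) : MonoidAlgebra B (C i)) = 1 + ((p : B) ^ 2) • a := by
    intro i
    choose a ha using hu i
    refine ⟨MonoidAlgebra.ofCoeff (Finsupp.equivFunOnFinite.symm fun d => ((a d : ℤ) : B)), ?_⟩
    have h1 : (u i : MonoidAlgebra ℤ (C i)) = 1 + ((u i : MonoidAlgebra ℤ (C i)) - 1) := by
      rw [add_sub_cancel]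
    show MonoidAlgebra.mapRingHom (C i) (Int.castRingHom B) (u i : MonoidAlgebra ℤ (C i)) = _
    rw [h1, map_add, map_one]
    congr 1
    apply MonoidAlgebra.ext
    refine Finsupp.ext fun d => ?_
    rw [MonoidAlgebra.coeff_mapRingHom, ha d, MonoidAlgebra.coeff_smul_apply, smul_eq_mul]
    show ((((p : ℤ) ^ 2 * a d : ℤ)) : B) = (p : B) ^ 2 * ((a d : ℤ) : B)
    push_cast
    rfl
  obtain ⟨K, hK, hdvd⟩ := relB r hG hc hpc hπ hφ hmeas C hC
    (fun i => Units.map (MonoidAlgebra.mapRingHom (C i) (Int.castRingHom B)).toMonoidHom (u i))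
    hu' z y (M * M') (mul_ne_zero hM hM') hrel'
  obtain ⟨a, K0, hK0, eK⟩ := Nat.exists_eq_pow_mul_and_not_dvd hK p hp.ne_one
  refine ⟨a, fun l => ?_⟩
  set s : ℚ := ∑ i, ∑ d : C i, f (trc k c (C i) d (z i)) *
        ((((u i : MonoidAlgebra ℤ (C i)) ^ p ^ l - 1).coeff d : ℤ) : ℚ) with hs
  have hsd : ¬ p ∣ s.den := nd_sum _ _ fun i _ => nd_sum _ _ fun d _ => nd_mul (hf _) (nd_int _)
  have h1 := hdvd l
  set S : B := ∑ i, ∑ d : C i, HG.ev hφ (trc k c (C i) d (z i)) *
        ((((Units.map (MonoidAlgebra.mapRingHom (C i) (Int.castRingHom B)).toMonoidHom (u i) :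
          (MonoidAlgebra B (C i))ˣ) : MonoidAlgebra B (C i)) ^ p ^ l - 1).coeff d) with hS
  have h2 : algebraMap B (FractionRing B) S = ((s : ℚ) : FractionRing B) := by
    rw [hS, hs, map_sum, Rat.cast_sum]
    refine Finset.sum_congr rfl fun i _ => ?_
    rw [map_sum, Rat.cast_sum]
    refine Finset.sum_congr rfl fun d _ => ?_
    have h3 : (((Units.map (MonoidAlgebra.mapRingHom (C i) (Int.castRingHom B)).toMonoidHom (u i) :
          (MonoidAlgebra B (C i))ˣ) : MonoidAlgebra B (C i)) ^ p ^ l - 1) =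
        MonoidAlgebra.mapRingHom (C i) (Int.castRingHom B)
          ((u i : MonoidAlgebra ℤ (C i)) ^ p ^ l - 1) := by
      rw [map_sub, map_pow, map_one]
      rfl
    rw [map_mul, hev, hfB, h3, MonoidAlgebra.coeff_mapRingHom, Rat.cast_mul, eq_intCast, map_intCast,
      Rat.cast_intCast]
  have h3 : S * ((s.den : ℕ) : B) = ((s.num : ℤ) : B) := by
    apply hinj
    rw [map_mul, h2, map_natCast, map_intCast, Rat.cast_def,
      div_mul_cancel₀ _ (Nat.cast_ne_zero.2 s.den_ne_zero)]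
  have h4 : (p : B) ^ (2 * l) ∣ (((K : ℤ) * s.num : ℤ) : B) := by
    rw [Int.cast_mul, ← h3, Int.cast_natCast, ← mul_assoc]
    exact Dvd.dvd.mul_right h1 _
  have h5 := dvd_int hsep hun _ _ h4
  have h6 : (p : ℤ) ^ (2 * l) ∣ (p : ℤ) ^ a * s.num := by
    have h7 : IsCoprime ((p : ℤ) ^ (2 * l)) (K0 : ℤ) := by
      apply IsCoprime.pow_left
      rw [Nat.isCoprime_iff_coprime]
      exact (Nat.Prime.coprime_iff_not_dvd hp).2 hK0
    apply h7.dvd_of_dvd_mul_left
    have h8 : (K0 : ℤ) * ((p : ℤ) ^ a * s.num) = (K : ℤ) * s.num := by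
      rw [eK]
      push_cast
      ring
    rw [h8]
    exact h5
  obtain ⟨T, hT⟩ := h6
  refine ⟨(T : ℚ) / s.den, ?_, ?_⟩
  · intro h
    apply hsd
    refine h.trans ?_
    have h9 : ((T : ℚ) / s.den) = ((T : ℚ) / ((s.den : ℤ) : ℚ)) := by
      rw [Int.cast_natCast]
    rw [h9]
    have := Rat.den_dvd T s.den
    exact_mod_cast this
  · have h10 : (s.den : ℚ) ≠ 0 := Nat.cast_ne_zero.2 s.den_ne_zero
    rw [← mul_div_assoc, eq_div_iff h10, mul_assoc, Rat.mul_den_eq_num]
    exact_mod_cast hT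

end

end Pool.Agent.H39.KL

end
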