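import Pool.Agent.H13.TFQ.H39.KL.Main
import Pool.Agent.H13.TFQ.M105
import Pool.Agent.H13.TFQ.M99

/-! The parts of this file: H39.KL.RelD, H39.KL.Main_1. -/

section

/-!
# Project KL: the relations of the functionals hold on the kernel

`kerQ G k` is the subgroup of all elements `w` of the `K₁`-part such that a multiple of the value of the assembly map on
`(y, w, W)` vanishes for some `y` and `W`.
-/

set_option autoImplicit false

open Matrix
open scoped LaurentPolynomial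

universe u v w

namespace Pool.Agent.H39.KL

open Pool.Agent.H71.FQ Pool.Agent.H16.KN Pool.Agent.H16.FU
open Pool.Agent.H95.WH (K1 K1.unit FamSub FinSub)

section

/-- the elements of the `K₁`-part with torsion value modulo the other parts -/
def kerQ (G : Type v) [Group G] (k : ℕ) : AddSubgroup (HnK1 ℤ G k) where
  carrier := {w | ∃ (y : HG G (k + 1)) (W : HnKm1 ℤ G (k + 2)) (M : ℤ), M ≠ 0 ∧
    M • asmAll G k (y, w, W) = 0}
  zero_mem' := ⟨0, 0, 1, one_ne_zero, by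
    rw [one_smul]
    exact map_zero (asmAll G k)⟩
  add_mem' := by
    rintro w w' ⟨y, W, M, hM, h⟩ ⟨y', W', M', hM', h'⟩
    refine ⟨y + y', W + W', M * M', mul_ne_zero hM hM', ?_⟩
    have e : ((y + y', w + w', W + W') : HG G (k + 1) × HnK1 ℤ G k × HnKm1 ℤ G (k + 2)) =
      (y, w, W) + (y', w', W') := rfl
    rw [e, map_add, smul_add, mul_comm M M', mul_smul, h, smul_zero, zero_add, mul_comm M' M,
      mul_smul, h', smul_zero]
  neg_mem' := by
    rintro w ⟨y, W, M, hM, h⟩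
    refine ⟨-y, -W, M, hM, ?_⟩
    have e : ((-y, -w, -W) : HG G (k + 1) × HnK1 ℤ G k × HnKm1 ℤ G (k + 2)) = -(y, w, W) := rfl
    rw [e, map_neg, smul_neg, h, neg_zero]

theorem mem_kerQ {G : Type v} [Group G] {k : ℕ} {w : HnK1 ℤ G k} :
    w ∈ kerQ G k ↔ ∃ (y : HG G (k + 1)) (W : HnKm1 ℤ G (k + 2)) (M : ℤ), M ≠ 0 ∧
      M • asmAll G k (y, w, W) = 0 := Iff.rfl

private theorem dvd_coeff {C : Type v} [Group C] (p : ℕ) (u : (MonoidAlgebra ℤ C)ˣ)
    (h : ∃ a, (u : MonoidAlgebra ℤ C) = 1 + (p : MonoidAlgebra ℤ C) ^ 2 * a) (d : C) :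
    (p : ℤ) ^ 2 ∣ ((u : MonoidAlgebra ℤ C) - 1).coeff d := by
  obtain ⟨a, ha⟩ := h
  refine ⟨a.coeff d, ?_⟩
  have e : (u : MonoidAlgebra ℤ C) - 1 = ((p : ℤ) ^ 2) • a := by
    rw [ha, add_sub_cancel_left, ← Nat.cast_pow, ← nsmul_eq_mul, ← natCast_zsmul, Nat.cast_pow]
  rw [e]
  rfl

private theorem den_of_dvd {p : ℕ} (hp : p.Prime) {a t : ℚ} (l : ℕ) (ht : ¬ p ∣ t.den)
    (h : a = (p : ℚ) ^ (2 * l) * t) : ¬ p ∣ (a / (p : ℚ) ^ (2 * l)).den := by
  have hp0 : (p : ℚ) ^ (2 * l) ≠ 0 := pow_ne_zero _ (Nat.cast_ne_zero.2 hp.ne_zero)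
  rwa [h, mul_div_cancel_left₀ _ hp0]

/-- **The relations of the functionals.** -/
theorem hasRel1 (G : Type v) [Group G] (k : ℕ)
    (ha : ∀ p : ℕ, p.Prime → ∃ r : ℕ, ∀ g : G, (∃ j : ℕ, g ^ p ^ j = 1) → g ^ p ^ r = 1) :
    Pool.Agent.H8.KL.HasRel1 G k (kerQ G k) := by
  intro p hp n C hC hcyc inst u z hu hQ c hc hpc f hf
  have : Fact p.Prime := ⟨hp⟩
  obtain ⟨r, hr⟩ := ha p hp
  obtain ⟨y, W, M, hM, h⟩ := hQ
  have hcomm : ∀ i, ∀ a b : C i, a * b = b * a := by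
    intro i a b
    have := hcyc i
    obtain ⟨g, hg⟩ := IsCyclic.exists_generator (α := C i)
    obtain ⟨m, hm⟩ := Subgroup.mem_zpowers_iff.1 (hg a)
    obtain ⟨m', hm'⟩ := Subgroup.mem_zpowers_iff.1 (hg b)
    rw [← hm, ← hm', ← _root_.zpow_add, ← _root_.zpow_add, add_comm]
  obtain ⟨K, hK⟩ := relC (G := G) (k := k) (p := p) r hr hc hpc C hcomm u
    (fun i d => dvd_coeff p (u i) (hu i) d) z y W (kill_all p G (k + 2) W) M hM h f hf
  refine ⟨K, fun l => ?_⟩
  obtain ⟨t, ht, e⟩ := hK l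
  exact den_of_dvd hp l ht e

end

end Pool.Agent.H39.KL

end

section

/-!
# Project KL: rational injectivity of the assembly map over `ℤ` on the parts `H_n(G; ℤ)`, `K₁` and `K₋₁`

Let `G` be a group in which for every prime `p` the elements of `p`-power order have bounded order and such that
`PSepA p` holds for `H_{k+1}(Z_G(C))` and `H_{k+3}(Z_G(C))`, `C` finite cyclic, `p ∣ card C`.  Then the assembly map
`asmAll G k` in the degree `k + 2` is injective after tensoring with `ℚ`.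
-/

set_option autoImplicit false

open Matrix
open scoped LaurentPolynomial

universe u v w

namespace Pool.Agent.H39.KL

open Pool.Agent.H71.FQ Pool.Agent.H16.KN Pool.Agent.H16.FU
open Pool.Agent.H95.KM (posHom negHom lau)
open Pool.Agent.H95.WH (K1 K1.unit FamSub FinSub)

section

variable {G : Type u} [Group G]

variable {k : ℕ}

theorem asmAll_apply (y : HG G (k + 1)) (w : HnK1 ℤ G k) (W : HnKm1 ℤ G (k + 2)) :
    asmAll G k (y, w, W) = yPart ℤ G (k + 1) y +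
      (LKQ.mk (tp (MonoidAlgebra ℤ G) (k + 1) (assembly1 ℤ k G w)) +
        asmKm1 ℤ (k + 2) G W) := rfl

/-- The kernel of the assembly map is a torsion group. -/
theorem all_tor (hexp : BddT G) (h1 : SepC G k) (h2 : SepC G (k + 2))
    (w : HG G (k + 1) × HnK1 ℤ G k × HnKm1 ℤ G (k + 2)) (h : asmAll G k w = 0) :
    ∃ m : ℤ, m ≠ 0 ∧ m • w = 0 := by
  obtain ⟨y, w, W⟩ := w
  obtain ⟨m, hm, hmw⟩ := Pool.Agent.H8.KL.linK1 (kerQ G k) (hasRel1 G k hexp) (by
    intro C hC hcyc hne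
    have h3 : Nat.card C ≠ 1 := fun h4 => hne (Subgroup.card_eq_one.1 h4)
    exact ⟨(Nat.card C).minFac, Nat.minFac_prime h3, Nat.minFac_dvd _,
      h1 _ (Nat.minFac_prime h3) C hC hcyc (Nat.minFac_dvd _)⟩) w
    (mem_kerQ.2 ⟨y, W, 1, one_ne_zero, by rw [one_smul, h]⟩)
  have h4 := congrArg (fun x => m • x) h
  simp only [smul_zero] at h4
  rw [← map_zsmul] at h4
  have h5 : m • ((y, w, W) : HG G (k + 1) × HnK1 ℤ G k × HnKm1 ℤ G (k + 2)) =
    (m • y, m • w, m • W) := rfl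
  rw [h5, hmw, asmAll_apply, map_zero, map_zero, map_zero, zero_add] at h4
  obtain ⟨m', hm', h6, h7⟩ := joint_tor (k + 1) hexp h2 (m • y) (m • W) h4
  refine ⟨m' * m, mul_ne_zero hm' hm, ?_⟩
  have h8 : (m' * m) • ((y, w, W) : HG G (k + 1) × HnK1 ℤ G k × HnKm1 ℤ G (k + 2)) =
    ((m' * m) • y, (m' * m) • w, (m' * m) • W) := rfl
  rw [h8, mul_smul, h6, mul_smul, hmw, smul_zero, mul_smul, h7]
  rfl

/-- **Rational injectivity of the assembly map in the degree `k + 2`.** -/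
theorem ratInj_asmAll (hexp : BddT G) (h1 : SepC G k) (h2 : SepC G (k + 2)) :
    RatInj (asmAll G k) :=
  Pool.Agent.H95.KM.lTensor_injective _ fun w h => all_tor hexp h1 h2 w h

end

end Pool.Agent.H39.KL

end
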