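import Pool.Agent.H13.TFQ.H71.FQ.Loc
import Pool.Agent.H13.TFQ.H71.FQ.Main_1
import Pool.Agent.H13.TFQ.H71.FQ.Prod
import Pool.Agent.H13.TFQ.M64

/-! The parts of this file: H71.FQ.FinRings_1, H71.FQ.StE_1. -/

section

/-!
# Rational injectivity for finite rings and finite-dimensional algebras

`main_fd`: finite-dimensional algebras over fields of positive characteristic. `main_nil`: rings with a surjection with
nilpotent kernel onto a finite product of such algebras. `main_finite`: finite rings.
-/

set_option autoImplicit false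

open Matrix

universe u v

namespace Pool.Agent.H71.FQ

open Pool.Agent.H71.FJ (NilKer)

theorem main_field (p : ℕ) [Fact p.Prime] (k : Type u) [Field k] [CharP k p] (G : Type v) [Group G]
    (n : ℕ) (h : CondP p G n) : RatInj (assemblyN k n G) := by
  obtain ⟨r, hr⟩ := h.tors
  exact main p k G r hr n h.sep

/-- **Finite-dimensional algebras.** -/
theorem main_fd (p : ℕ) [Fact p.Prime] (k : Type u) [Field k] [CharP k p] (A : Type u) [Ring A]
    [Algebra k A] [Module.Finite k A] (G : Type v) [Group G] (n : ℕ) (h : CondP p G n) :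
    RatInj (assemblyN A n G) := by
  obtain ⟨L, _, _, _, m, r, φ, hr, hs, hn⟩ := exists_splitting k A
  have : CharP L p := charP_of_injective_algebraMap (algebraMap k L).injective p
  refine ratInj_finExt k L A (ratInj_of_nilKer n hs hn (ratInj_pi _ n fun i => ?_))
  exact ratInj_matrix (r i) (hr i) (main_field p L G n h)

end Pool.Agent.H71.FQ

end

section

/-!
# Rational injectivity: the classes of rings and groups
-/

set_option autoImplicit false

open Matrix

universe u v w

namespace Pool.Agent.H71.FQS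

open Pool.Agent.H71.FJ (IdemMat K0 K0.mk K0.lift K0.hom_ext NilKer)
open Pool.Agent.H95.WH (FamSub FinSub)

section

variable {R : Type u} [Ring R] {G : Type v} [Group G] {n : ℕ}

theorem condP_of {p : ℕ} [Fact p.Prime] {G' : Type v} [Group G']
    (h1 : ∃ r : ℕ, ∀ g : G', (∃ j : ℕ, g ^ p ^ j = 1) → g ^ p ^ r = 1)
    (h2 : ∀ C : Subgroup G', Finite C → IsCyclic C → ¬ p ∣ Nat.card C → PSep p (Cent C) n) :
    FQ.CondP p G' n :=
  ⟨h1, fun C hC hc hp => psep_of (Γ := Subgroup.centralizer (C : Set G')) (h2 C hC hc hp)⟩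

theorem ratInj_fd {p : ℕ} [Fact p.Prime] (k : Type u) [Field k] [CharP k p] (A : Type u) [Ring A]
    [Algebra k A] [Module.Finite k A] (h : LocGrp p G n) : FQ.RatInj (FQ.assemblyN A n G) := by
  refine FQ.ratInj_directed (fun G' : Subgroup G => FQ.CondP p G' n) (fun S => ?_)
    fun G' hG' => FQ.main_fd p k A G' n hG'
  obtain ⟨G', h1, h2, h3⟩ := h S
  exact ⟨G', condP_of h2 h3, h1⟩

theorem ratInj_subsingleton [Subsingleton R] : FQ.RatInj (FQ.assemblyN R n G) := by
  apply FQ.ratInj_of
  intro z M hM h
  exact ⟨1, one_ne_zero, by rw [hnK0_subsingleton z, smul_zero]⟩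

theorem ratInj_nilFin (h : NilFin R)
    (hG : ∀ (p : ℕ) [Fact p.Prime], p ∣ ringChar R → LocGrp p G n) :
    FQ.RatInj (FQ.assemblyN R n G) := by
  obtain ⟨m, A, hA, φ, hs, ⟨N, hN⟩, h⟩ := h
  refine FQ.ratInj_of_nilKer n hs (FQ.nilKer_of_ker_pow φ hN) (FQ.ratInj_pi _ n fun i => ?_)
  obtain ⟨p, k, _, _, hp, hk, hf⟩ := h i
  have : Fact p.Prime := ⟨hp⟩
  rcases subsingleton_or_nontrivial (A i) with hi | hi
  · exact ratInj_subsingleton
  · refine ratInj_fd k (A i) (hG p ?_)
    have h1 : ((ringChar R : ℕ) : A i) = 0 := by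
      have h2 : φ ((ringChar R : ℕ) : R) i = 0 := by
        rw [CharP.cast_eq_zero, map_zero]
        rfl
      rw [map_natCast] at h2
      exact h2
    have : CharP (A i) p := charP_of_injective_algebraMap (algebraMap k (A i)).injective p
    exact (CharP.cast_eq_zero_iff (A i) p _).1 h1

/-- **Rational injectivity of the assembly map.** -/
theorem ratInj_main (hR : LocRing R)
    (hG : ∀ (p : ℕ) [Fact p.Prime], p ∣ ringChar R → LocGrp p G n) :
    FQ.RatInj (FQ.assemblyN R n G) := by
  refine FQ.ratInj_directed_ring (fun R' : Subring R => Finite R' ∨ NilFin R') (fun S => ?_)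
    fun R' hR' => ?_
  · obtain ⟨R', h1, h2⟩ := hR S
    exact ⟨R', h2, h1⟩
  · have h1 : ringChar R' = ringChar R := by
      have h2 := ringChar.charP R
      have h3 : CharP R' (ringChar R) := inferInstance
      exact ringChar.eq R' (ringChar R)
    have h2 : NilFin R' := hR'.elim (fun h => nilFin_of_finite) id
    refine ratInj_nilFin h2 fun p hp hd => hG p ?_
    rw [← h1]
    exact hd

/-- **The main theorem.** -/
theorem main (hR : LocRing R)
    (hG : ∀ (p : ℕ) [Fact p.Prime], p ∣ ringChar R → LocGrp p G n) :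
    ∃ α : HnK0 R G n →+ KQ (MonoidAlgebra R G) n, IsAssembly α ∧ RatInj α :=
  transfer (ratInj_main hR hG)

end

end Pool.Agent.H71.FQS

end
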