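import Pool.Agent.H13.TFQ.M68
import Pool.Agent.H13.TFQ.M78

/-! The parts of this file: H71.FQ.StJ, H71.FQ.StM, H71.FQ.StO. -/

section

/-!
# Rational injectivity on the `K₀`-part and on the sum of the `K₀`-part and the `K₁`-part
-/

set_option autoImplicit false

universe u v

namespace Pool.Agent.H71.FQ1

open Pool.Agent.H71.FQS (KQ HnK0 IsAssembly RatInj LocRing asmS asmS_isAssembly fromK toK toK_fromK toH fromH fromH_toH ratInj_iff asmS1 asmS1_isAssembly1 toH1c fromH1 fromH1_toH1c)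
open Pool.Agent.H71.FU0 (H0K1 assembly10 assembly00)

section

theorem ratInj_compare {A A' B C : Type*} [AddCommGroup A] [AddCommGroup A'] [AddCommGroup B]
    [AddCommGroup C] {g : A →+ B} {f : A' →+ C} (i : A → A') (i' : A' →+ A)
    (hi : ∀ x, i' (i x) = x) (t : B →+ C) (h : ∀ x, t (g x) = f (i x)) (hf : FQ.RatInj f)
    (hs : ∀ (x : A) (m : ℤ), i (m • x) = m • i x) : RatInj g := by
  refine (ratInj_iff _).2 fun z M hM hz => ?_
  have h0 : ∀ (z : A') (M : ℤ), M ≠ 0 → M • f z = 0 → ∃ m : ℤ, m ≠ 0 ∧ m • z = 0 :=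
    (ratInj_iff _).1 hf
  have h1 : M • f (i z) = 0 := by rw [← h, ← map_zsmul, hz, map_zero]
  obtain ⟨m, hm, h3⟩ := h0 _ M hM h1
  refine ⟨m, hm, ?_⟩
  rw [← hi (m • z), hs, h3, map_zero]

variable {R : Type u} [Ring R] {G : Type v} [Group G] {n : ℕ}

variable (R G) in
/-- the assembly map on the `K₁`-part -/
noncomputable def asm1 : (n : ℕ) → HnK1 R G n →+ KQ (MonoidAlgebra R G) n
  | 0 => asmL R G
  | n + 1 => (asmS1 R G n).comp conv

theorem asm1_isAssembly1 : IsAssembly1 (R := R) (G := G) (n := n) (asm1 R G n) := by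
  rcases n with _ | n
  · exact asmL_isAssembly1
  · intro s σ u z' hσ hu hz
    change (asmS1 R G n) (conv (HnK1.mk s)) = _
    rw [conv_mk]
    exact asmS1_isAssembly1 ⟨s.F, s.fin, s.N, s.U, ⟨s.z, s.cyc⟩⟩ σ u z' hσ hu hz

end

end Pool.Agent.H71.FQ1

end

section

/-!
# Comparison of the definitions over `ℤ`: the assembly maps
-/

set_option autoImplicit false

open Matrix
open scoped LaurentPolynomial

universe u v w

namespace Pool.Agent.H71.FQ3

open Pool.Agent.H71.FQS (Ch bd push coi bnd Cyc GLm blkM RF Cent KQ MatEquiv Idem toHG toHG_surjective map_toHG map_toHG' toHG_add toHG_bnd fromK toK toK_mk toK_fromK pri_eq push_eq cr_toHG toH1c fromH1 fromH1_toH1c)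
open Pool.Agent.H71.FQ1 (pri IsCyc HSym1 HnK1 aug toHG_pri toL fromL fromL_toL conv vnoc vnoc_conv asm1 asm1_isAssembly1)
open Pool.Agent.H71.FQ (HG mapGL centConj grpHom)
open Pool.Agent.H71.FU0 (H0K1 assembly10 kq1 kq1_mk e1 cyc0)
open Pool.Agent.H71.FJ (IdemMat K0 K0.mk)
open Pool.Agent.H95.KM (posHom negHom lau Km1 ind)
open Pool.Agent.H95.WH (K1 K1.mk K1.unit FamSub conjHom FinSub)
open Pool.Agent.H16.FU (assembly1 scal)
open Pool.Agent.H16.KN (LKQ LKQ.mk sym asmKm1 asmKm1_sym)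
open Pool.Agent.H39.KL (tp tp_cls mono1 cS tS tS_comm)

section

variable {Γ : Type u} [Group Γ] {Λ : Type v} [Group Λ] {Λ' : Type w} [Group Λ']

theorem push_pri {m : ℕ} (f : Λ →* Λ') (u : Λ) (c : Ch Λ m) :
    push f (pri u c) = pri (f u) (push f c) := by
  have h1 : ∀ (c : Ch Λ m), pri u c = Pool.Agent.H16.FU.pri u m c := fun c => pri_eq u c
  have h2 : ∀ (c : Ch Λ' m), pri (f u) c = Pool.Agent.H16.FU.pri (f u) m c := fun c => pri_eq _ c
  rw [h1, h2, push_eq, push_eq]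
  exact Pool.Agent.H16.FU.push_pri f u m c

theorem push_push {X : Type u} {Y : Type v} {Z : Type w} {m : ℕ} (f : Y → Z) (g : X → Y)
    (c : Ch X m) : push f (push g c) = push (fun x => f (g x)) c := by
  rw [push, push, push, ← Finsupp.mapDomain_comp]
  rfl

/-- the prism over a cycle is a cycle -/
theorem exists_priCyc {m : ℕ} (f : Γ →* Λ) (u : Λ) (hu : ∀ γ, f γ * u = u * f γ) (c : Ch Γ m)
    (hc : IsCyc Γ m c) : ∃ z : Cyc Λ m, z.ch = pri u (push f c) := by
  rcases m with _ | m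
  · exact ⟨Cyc.of _ (cyc0 _), rfl⟩
  · refine ⟨Cyc.of (pri u (push f c)) ?_, rfl⟩
    have h1 : pri u (push f c) = Pool.Agent.H16.FU.pri u (m + 1) (FQ.push ℤ f (m + 1) c) :=
      (pri_eq u (push f c)).trans (congrArg _ (push_eq f c))
    rw [h1]
    exact Pool.Agent.H16.FU.cr_cyc f u hu ((isCyc_iff c).1 hc)

end

section

variable (A : Type u) [Ring A] (N : ℕ)

/-- the inclusion of the constants -/
noncomputable def cL : GLm N A →* GLm N (Lau A) := cS A N

/-- the scalar matrix `t` -/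
noncomputable def tL : GLm N (Lau A) := tS A N

theorem cL_val (x : GLm N A) (i j : Fin N) : (cL A N x).val i j = mon 0 (x.val i j) := rfl

theorem tL_val : (tL A N).val = Matrix.diagonal fun _ => mon 1 1 := rfl

variable {A N}

theorem eq_tL {t : GLm N (Lau A)} (h : t.val = Matrix.diagonal fun _ => mon 1 1) : t = tL A N :=
  Units.ext (h.trans (tL_val A N).symm)

theorem eq_cL {X : Type v} {σ : X → GLm N (Lau A)} {σ0 : X → GLm N A}
    (h : ∀ x i j, (σ x).val i j = mon 0 ((σ0 x).val i j)) : σ = fun x => cL A N (σ0 x) :=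
  funext fun x => Units.ext (Matrix.ext fun i j => (h x i j).trans (cL_val A N _ i j).symm)

/-- the value of the product with `t` -/
theorem tp_val {n : ℕ} (z : Cyc (GLm N A) n) (z' : Cyc (GLm N (Lau A)) (n + 1))
    (h : z'.ch = pri (tL A N) (push (cL A N) z.ch)) :
    fromLQ A (n + 1) (LKQ.mk (tp A n (FQ.KQ.cls A n N (toHG z)))) = LQ.mk N z' := by
  rw [tp_cls]
  refine (congrArg (fun x => fromLQ A (n + 1) (LKQ.mk (FQ.KQ.cls A[T;T⁻¹] (n + 1) N x)))
    (cr_toHG (cS A N) (tS A N) (tS_comm A N) (z := z) (z' := z') h)).trans ?_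
  exact fromLQ_cls N z'

theorem mon_diag (N : ℕ) (a : A) (i j : Fin N) :
    (Matrix.diagonal fun _ : Fin N => (mon 0 a : Lau A)) i j =
      mon 0 ((Matrix.diagonal fun _ : Fin N => a) i j) := by
  rw [Matrix.diagonal_apply, Matrix.diagonal_apply]
  split_ifs with hij
  · rfl
  · exact (AddMonoidAlgebra.single_zero 0).symm

end

section

variable (R : Type u) [Ring R] (G : Type v) [Group G]

/-- the assembly map on `H_{n+1}(G; ℤ)` -/
noncomputable def asH (n : ℕ) : Hn G (n + 1) →+ LQ (MonoidAlgebra R G) (n + 1) :=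
  (fromLQ _ _).comp (((LKQ.mk.comp (tp (MonoidAlgebra R G) n)).comp (mono1 R G n)).comp hnHG)

variable {R G}

theorem asH_isAssemblyH {n : ℕ} : IsAssemblyH (R := R) (G := G) (n := n + 1) (asH R G n) := by
  intro z hz σ t z' hσ ht h
  change fromLQ _ _ (LKQ.mk (tp (MonoidAlgebra R G) n (mono1 R G n (hnHG (Hn.mk z hz))))) = _
  have h1 : hnHG (Hn.mk z hz) = toHG (⟨z, hz⟩ : Cyc G n) := hnHG_mk (⟨z, hz⟩ : Cyc G n)
  rw [h1]
  have h2 : mono1 R G n (toHG (⟨z, hz⟩ : Cyc G n)) = FQ.KQ.cls (MonoidAlgebra R G) n 1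
      (toHG (Cyc.map (scal 1 (grpHom R G)) (⟨z, hz⟩ : Cyc G n))) :=
    congrArg (FQ.KQ.cls (MonoidAlgebra R G) n 1) (map_toHG' (scal 1 (grpHom R G)) _)
  rw [h2]
  refine tp_val _ z' ?_
  have h3 : σ = fun x => cL (MonoidAlgebra R G) 1 (scal 1 (grpHom R G) x) :=
    eq_cL fun x i j => (congrFun (congrFun (hσ x) i) j).trans (mon_diag 1 _ i j)
  have h4 : push (cL (MonoidAlgebra R G) 1) (Cyc.map (scal 1 (grpHom R G)) (⟨z, hz⟩ : Cyc G n)).ch =
      push σ z := by
    rw [h3]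
    exact push_push _ _ z
  rw [h4, h, eq_tL ht]

variable (R G) in
/-- the values on the `K₁`-part -/
noncomputable def U1 : (n : ℕ) → HnK1 R G n →+ FQ.KQ (MonoidAlgebra R G) n
  | 0 => (assembly10 R G).comp toL
  | n + 1 => (assembly1 R n G).comp (toH1c.comp conv)

theorem fromK_U1 {n : ℕ} (x : HnK1 R G n) : fromK (U1 R G n x) = asm1 R G n x := by
  rcases n with _ | n
  · rfl
  · rfl

variable (R G) in
/-- the assembly map on the `K₁`-part -/
noncomputable def asU : (n : ℕ) → K1Part R G n →+ LQ (MonoidAlgebra R G) n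
  | 0 => 0
  | n + 1 => (fromLQ _ _).comp ((LKQ.mk.comp (tp (MonoidAlgebra R G) n)).comp (U1 R G n))

theorem asU_isAssemblyU {n : ℕ} : IsAssemblyU (R := R) (G := G) (n := n) (asU R G n) := by
  rcases n with _ | n
  · trivial
  · rintro ⟨F, hF, N, U, z, hz⟩ σ u t z' hσ hu ht h
    change z'.ch = pri t (pri u (push σ z)) at h
    let σ0 : Cent F → GLm N (MonoidAlgebra R G) := fun γ =>
      scal N ((grpHom R G).comp (Subgroup.centralizer (F : Set G)).subtype) γ
    let u0 : GLm N (MonoidAlgebra R G) := mapGL (MonoidAlgebra.mapDomainRingHom R F.subtype) N U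
    obtain ⟨z1, hz1⟩ := exists_priCyc (Γ := Subgroup.centralizer (F : Set G))
      (scal N ((grpHom R G).comp (Subgroup.centralizer (F : Set G)).subtype)) u0
      (fun γ => Pool.Agent.H16.FU.scal_comm _ _ (FQ.grpHom_comm R F.subtype
        (Subgroup.centralizer (F : Set G)).subtype (FQ.cent_comm F)) _ _) z hz
    have h1 := asm1_isAssembly1 (R := R) (G := G) (n := n) ⟨F, hF, N, U, z, hz⟩ σ0 u0 z1
      (fun _ => rfl) (fun _ _ => rfl) hz1
    have h2 : U1 R G n (FQ1.HnK1.mk ⟨F, hF, N, U, z, hz⟩) =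
        FQ.KQ.cls (MonoidAlgebra R G) n N (toHG z1) := by
      rw [← toK_fromK (U1 R G n _), fromK_U1, h1]
      exact toK_mk N z1
    change fromLQ _ _ (LKQ.mk (tp (MonoidAlgebra R G) n (U1 R G n
      (FQ1.HnK1.mk ⟨F, hF, N, U, z, hz⟩)))) = _
    rw [h2]
    refine tp_val z1 z' ?_
    have h3 : u = cL (MonoidAlgebra R G) N u0 := Units.ext (Matrix.ext fun i j => hu i j)
    have h4 : σ = fun x => cL (MonoidAlgebra R G) N (σ0 x) :=
      eq_cL fun x i j => (congrFun (congrFun (hσ x) i) j).trans (mon_diag N _ i j)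
    have h5 : push (cL (MonoidAlgebra R G) N) z1.ch = pri u (push σ z) := by
      rw [hz1, h3, h4]
      exact (push_pri (cL (MonoidAlgebra R G) N) u0 _).trans (congrArg _ (push_push _ _ z))
    rw [h5]
    exact h.trans (congrArg (fun t => pri t (pri u (push σ z))) (eq_tL ht))

end

end Pool.Agent.H71.FQ3

end

section

/-!
# Comparison of the definitions over `ℤ`: the transfer of rational injectivity
-/

set_option autoImplicit false

open Matrix
open scoped LaurentPolynomial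

universe u v w

namespace Pool.Agent.H71.FQ3

open Pool.Agent.H71.FQS (Ch bd push coi bnd Cyc GLm blkM RF Cent KQ toHG RatInj toH1c fromH1 fromH1_toH1c)
open Pool.Agent.H71.FQ1 (pri IsCyc HSym1 HnK1 aug toHG_pri toL fromL fromL_toL conv vnoc vnoc_conv ratInj_compare)
open Pool.Agent.H71.FQ (HG mapGL centConj grpHom)
open Pool.Agent.H71.FU0 (H0K1 assembly10 kq1 kq1_mk e1)
open Pool.Agent.H95.WH (K1 K1.mk K1.unit FamSub conjHom FinSub)
open Pool.Agent.H16.FU (assembly1 scal)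
open Pool.Agent.H16.KN (LKQ LKQ.mk asmKm1)
open Pool.Agent.H39.KL (tp mono1)
open Pool.Agent.H8.KZ (uT)

section

variable (R : Type u) [Ring R] (G : Type v) [Group G]

/-- the assembly map on `H_0(G; ℤ)` -/
noncomputable def asH0 : Hn G 0 →+ LQ (MonoidAlgebra R G) 0 :=
  (fromLQ _ _).comp ((zmultiplesHom (LKQ (MonoidAlgebra R G) 0)
    (LKQ.mk (kq1 (K1.unit (uT (MonoidAlgebra R G)))))).comp hnZ)

variable {R G}

theorem asH0_isAssemblyH : IsAssemblyH (R := R) (G := G) (n := 0) (asH0 R G) := by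
  intro z hz σ t z' hσ ht h
  have h1 : hnZ (Hn.mk z hz) = aug G z := hnZ_mk z hz
  have h2 : t = Units.map (Matrix.scalar (Fin 1)).toMonoidHom (uT (MonoidAlgebra R G)) :=
    Units.ext (ht.trans rfl)
  have h3 : kq1 (K1.unit (uT (MonoidAlgebra R G))) = FQ.KQ.cls (MonoidAlgebra R G)[T;T⁻¹] 0 1
      (e1 (Units.map (Matrix.scalar (Fin 1)).toMonoidHom (uT (MonoidAlgebra R G)))) := kq1_mk _
  have h4 : toHG z' = aug G z • e1 t := toHG_pri σ t z z' h
  have h5 : asH0 R G (Hn.mk z hz) = fromLQ (MonoidAlgebra R G) 0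
      (LKQ.mk (FQ.KQ.cls (MonoidAlgebra R G)[T;T⁻¹] 0 1 (aug G z • e1 t))) := by
    change fromLQ _ _ (hnZ (Hn.mk z hz) • LKQ.mk (kq1 (K1.unit (uT (MonoidAlgebra R G))))) = _
    rw [h1, h3, ← map_zsmul, ← map_zsmul, h2]
    rfl
  refine h5.trans ?_
  refine (congrArg (fun x => fromLQ (MonoidAlgebra R G) 0
      (LKQ.mk (FQ.KQ.cls (MonoidAlgebra R G)[T;T⁻¹] 0 1 x))) h4.symm).trans ?_
  exact fromLQ_cls 1 z'

variable (R G) in
/-- the assembly map on `H_n(G; ℤ)` -/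
noncomputable def asHn : (n : ℕ) → Hn G n →+ LQ (MonoidAlgebra R G) n
  | 0 => asH0 R G
  | n + 1 => asH R G n

theorem asHn_isAssemblyH {n : ℕ} : IsAssemblyH (R := R) (G := G) (n := n) (asHn R G n) := by
  rcases n with _ | n
  · exact asH0_isAssemblyH
  · exact asH_isAssemblyH

theorem toLQ_asH0 (x : Hn G 0) : toLQ (MonoidAlgebra R G) 0 (asHn R G 0 x) =
    zmultiplesHom (LKQ (MonoidAlgebra R G) 0)
      (LKQ.mk (kq1 (K1.unit (uT (MonoidAlgebra R G))))) (hnZ x) := by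
  change toLQ (MonoidAlgebra R G) 0 (fromLQ (MonoidAlgebra R G) 0 (zmultiplesHom
    (LKQ (MonoidAlgebra R G) 0) (LKQ.mk (kq1 (K1.unit (uT (MonoidAlgebra R G))))) (hnZ x))) = _
  rw [toLQ_fromLQ]

theorem toLQ_asH {n : ℕ} (x : Hn G (n + 1)) :
    toLQ (MonoidAlgebra R G) (n + 1) (asHn R G (n + 1) x) =
      LKQ.mk (tp (MonoidAlgebra R G) n (mono1 R G n (hnHG x))) := by
  change toLQ (MonoidAlgebra R G) (n + 1) (fromLQ (MonoidAlgebra R G) (n + 1)
    (LKQ.mk (tp (MonoidAlgebra R G) n (mono1 R G n (hnHG x))))) = _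
  rw [toLQ_fromLQ]

theorem toLQ_asU {n : ℕ} (x : HnK1 R G n) :
    toLQ (MonoidAlgebra R G) (n + 1) (asU R G (n + 1) x) =
      LKQ.mk (tp (MonoidAlgebra R G) n (U1 R G n x)) := by
  change toLQ (MonoidAlgebra R G) (n + 1) (fromLQ (MonoidAlgebra R G) (n + 1)
    (LKQ.mk (tp (MonoidAlgebra R G) n (U1 R G n x)))) = _
  rw [toLQ_fromLQ]

theorem toLQ_asE {n : ℕ} (x : HnKm1 R G n) :
    toLQ (MonoidAlgebra R G) n (asE R G n x) = asmKm1 R n G (toHM x) := by
  change toLQ (MonoidAlgebra R G) n (fromLQ (MonoidAlgebra R G) n (asmKm1 R n G (toHM x))) = _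
  rw [toLQ_fromLQ]

/-- degree zero -/
theorem ratInj_zero (h : FQ.RatInj ((zmultiplesHom (LKQ (MonoidAlgebra R G) 0)
    (LKQ.mk (kq1 (K1.unit (uT (MonoidAlgebra R G)))))).coprod (asmKm1 R 0 G))) :
    RatInj ((asHn R G 0).coprod ((asU R G 0).coprod (asE R G 0))) := by
  refine ratInj_compare (fun z => (hnZ z.1, toHM z.2.2))
    (((zmultiplesHom (Hn G 0) (ptH G)).coprod 0).prod
      (AddMonoidHom.prod (0 : ℤ × _ →+ K1Part R G 0) (fromHM.comp (AddMonoidHom.snd _ _))))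
    (fun x => ?_) (toLQ _ _) (fun x => ?_) h
    fun x m => Prod.ext (map_zsmul hnZ m x.1) (map_zsmul toHM m x.2.2)
  · refine Prod.ext ?_ (Prod.ext rfl (fromHM_toHM x.2.2))
    change hnZ x.1 • ptH G + 0 = x.1
    rw [add_zero]
    exact smul_hnZ x.1
  · change toLQ _ _ (asHn R G 0 x.1 + (0 + asE R G 0 x.2.2)) =
      zmultiplesHom (LKQ (MonoidAlgebra R G) 0)
        (LKQ.mk (kq1 (K1.unit (uT (MonoidAlgebra R G))))) (hnZ x.1) + asmKm1 R 0 G (toHM x.2.2)
    rw [zero_add, map_add]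
    exact congrArg₂ (· + ·) (toLQ_asH0 x.1) (toLQ_asE x.2.2)

/-- degree one -/
theorem ratInj_one (h : FQ.RatInj (((LKQ.mk.comp (tp (MonoidAlgebra R G) 0)).comp
    (mono1 R G 0)).coprod (((LKQ.mk.comp (tp (MonoidAlgebra R G) 0)).comp
      (assembly10 R G)).coprod (asmKm1 R 1 G)))) :
    RatInj ((asHn R G 1).coprod ((asU R G 1).coprod (asE R G 1))) := by
  refine ratInj_compare (fun z => (hnHG z.1, toL z.2.1, toHM z.2.2))
    (AddMonoidHom.prodMap hgHn (AddMonoidHom.prodMap fromL fromHM))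
    (fun x => Prod.ext (hgHn_hnHG x.1) (Prod.ext (fromL_toL x.2.1) (fromHM_toHM x.2.2)))
    (toLQ _ _) (fun x => ?_) h
    fun x m => Prod.ext (map_zsmul hnHG m x.1) (Prod.ext (map_zsmul toL m x.2.1)
      (map_zsmul toHM m x.2.2))
  change toLQ _ _ (asHn R G 1 x.1 + (asU R G 1 x.2.1 + asE R G 1 x.2.2)) =
    LKQ.mk (tp (MonoidAlgebra R G) 0 (mono1 R G 0 (hnHG x.1))) +
      (LKQ.mk (tp (MonoidAlgebra R G) 0 (U1 R G 0 x.2.1)) + asmKm1 R 1 G (toHM x.2.2))
  rw [map_add, map_add, toLQ_asH, toLQ_asE]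
  exact congrArg (fun y => _ + (y + _)) (toLQ_asU x.2.1)

/-- the degrees `k + 2` -/
theorem ratInj_succ {k : ℕ} (h : FQ.RatInj (((LKQ.mk.comp (tp (MonoidAlgebra R G) (k + 1))).comp
    (mono1 R G (k + 1))).coprod (((LKQ.mk.comp (tp (MonoidAlgebra R G) (k + 1))).comp
      (assembly1 R k G)).coprod (asmKm1 R (k + 2) G)))) :
    RatInj ((asHn R G (k + 2)).coprod ((asU R G (k + 2)).coprod (asE R G (k + 2)))) := by
  refine ratInj_compare (fun z => (hnHG z.1, toH1c (conv z.2.1), toHM z.2.2))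
    (AddMonoidHom.prodMap hgHn (AddMonoidHom.prodMap (vnoc.comp fromH1) fromHM))
    (fun x => Prod.ext (hgHn_hnHG x.1) (Prod.ext ((congrArg vnoc (fromH1_toH1c (conv x.2.1))).trans
      (vnoc_conv x.2.1)) (fromHM_toHM x.2.2)))
    (toLQ _ _) (fun x => ?_) h
    fun x m => Prod.ext (map_zsmul hnHG m x.1) (Prod.ext
      ((congrArg toH1c (map_zsmul conv m x.2.1)).trans (map_zsmul toH1c m (conv x.2.1)))
      (map_zsmul toHM m x.2.2))
  change toLQ _ _ (asHn R G (k + 2) x.1 + (asU R G (k + 2) x.2.1 + asE R G (k + 2) x.2.2)) =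
    LKQ.mk (tp (MonoidAlgebra R G) (k + 1) (mono1 R G (k + 1) (hnHG x.1))) +
      (LKQ.mk (tp (MonoidAlgebra R G) (k + 1) (U1 R G (k + 1) x.2.1)) +
        asmKm1 R (k + 2) G (toHM x.2.2))
  rw [map_add, map_add, toLQ_asH, toLQ_asE]
  exact congrArg (fun y => _ + (y + _)) (toLQ_asU x.2.1)

/-- The form of the statement. -/
theorem exists_of_ratInj {n : ℕ}
    (h : RatInj ((asHn R G n).coprod ((asU R G n).coprod (asE R G n)))) :
    ∃ (α : Hn G n →+ LQ (MonoidAlgebra R G) n) (β : K1Part R G n →+ LQ (MonoidAlgebra R G) n)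
      (γ : HnKm1 R G n →+ LQ (MonoidAlgebra R G) n),
      IsAssemblyH α ∧ IsAssemblyU β ∧ IsAssemblyE γ ∧ RatInj (α.coprod (β.coprod γ)) :=
  ⟨asHn R G n, asU R G n, asE R G n, asHn_isAssemblyH, asU_isAssemblyU, asE_isAssemblyE, h⟩

end

end Pool.Agent.H71.FQ3

end
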