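import Pool.Agent.H13.TFQ.H39.KL.Main1
import Pool.Agent.H13.TFQ.H8.KL.LocM
import Pool.Agent.H13.TFQ.M113
import Pool.Agent.H13.TFQ.M65
import Pool.Agent.H13.TFQ.M79

/-! The parts of this file: H8.KL.LocZ, H71.FQ.StP. -/

section

/-!
# Project KL: rational injectivity of the joint assembly map for groups with the local condition

Every finite subset of `G` lies in a subgroup `G'` in which for every prime `p` the elements of `p`-power order have
bounded order (not needed in the degree zero) and the condition `SepC` on the centralizers holds.  Then the assembly maps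
`asmAll G k` (degree `k + 2`), `asmOne G` (degree one) and `asm0 G` (degree zero) are injective after tensoring with `ℚ`.
-/

set_option autoImplicit false

open Matrix
open scoped LaurentPolynomial

universe u v w

namespace Pool.Agent.H8.KL

open Pool.Agent.H71.FQ Pool.Agent.H16.KN Pool.Agent.H16.FU Pool.Agent.H39.KL

section

/-- the source of `asm0` -/
abbrev XZero (G : Type v) [Group G] : Type v := ℤ × HnKm1 ℤ G 0

/-- functoriality of the source of `asm0` -/
noncomputable def mapZero (G G' : Type v) [Group G] [Group G'] (φ : G →* G') :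
    XZero G →+ XZero G' :=
  (AddMonoidHom.id ℤ).prodMap (mapHN ℤ 0 φ)

theorem mapZero_mapZero (G G' G'' : Type v) [Group G] [Group G'] [Group G'']
    (φ : G →* G') (ψ : G' →* G'') (z : XZero G) :
    mapZero G' G'' ψ (mapZero G G' φ z) = mapZero G G'' (ψ.comp φ) z :=
  Prod.ext rfl (mapHN_mapHN ℤ 0 φ ψ z.2)

/-- **The joint assembly map in degree zero is natural in the group.** -/
theorem asm0_map (G G' : Type v) [Group G] [Group G'] (φ : G →* G') (z : XZero G) :
    asm0 G' (mapZero G G' φ z) =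
      LKQ.map (MonoidAlgebra.mapDomainRingHom ℤ φ) (asm0 G z) := by
  change z.1 • LKQ.mk (tOne (MonoidAlgebra ℤ G')) + asmKm1 ℤ 0 G' (mapHN ℤ 0 φ z.2) =
    LKQ.map (MonoidAlgebra.mapDomainRingHom ℤ φ)
      (z.1 • LKQ.mk (tOne (MonoidAlgebra ℤ G)) + asmKm1 ℤ 0 G z.2)
  rw [map_add, map_zsmul, LKQ.map_mk, map_tOne, asmKm1_map]

theorem exists_liftZero (G : Type v) [Group G] (z : XZero G) :
    ∃ S : Finset G, ∀ G' : Subgroup G, (∀ s ∈ S, s ∈ G') →
      ∃ y : XZero G', mapZero G' G G'.subtype y = z := by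
  obtain ⟨S, h⟩ := exists_liftN ℤ 0 z.2
  refine ⟨S, fun G' hG' => ?_⟩
  obtain ⟨y, e⟩ := h G' hG'
  exact ⟨(z.1, y), Prod.ext rfl e⟩

/-- **Rational injectivity of the joint assembly map in degree zero is a local property.** -/
theorem asm0_directed (G : Type v) [Group G] (P : Subgroup G → Prop)
    (hP : ∀ S : Finset G, ∃ G' : Subgroup G, P G' ∧ ∀ g ∈ S, g ∈ G')
    (h : ∀ G' : Subgroup G, P G' → RatInj (asm0 G')) : RatInj (asm0 G) := by
  refine @ratInj_local ℤ _ G _ 0 (fun H _ => XZero H) (fun H _ => Prod.instAddCommGroup)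
    (fun H H' _ _ φ => mapZero H H' φ) ?_ (fun H _ => asm0 H) ?_ ?_ P hP h
  · exact fun H H' H'' _ _ _ φ ψ z => mapZero_mapZero H H' H'' φ ψ z
  · exact fun H H' _ _ φ z => asm0_map H H' φ z
  · exact exists_liftZero G

end

section

variable (G : Type u) [Group G]

/-- **The joint assembly map in the degree `k + 2`, local condition.** -/
theorem loc_asmAll (k : ℕ) (h : ∀ S : Finset G, ∃ G' : Subgroup G,
    (BddT G' ∧ SepC G' k ∧ SepC G' (k + 2)) ∧ ∀ g ∈ S, g ∈ G') : RatInj (asmAll G k) :=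
  asmAll_directed G k (fun G' => BddT G' ∧ SepC G' k ∧ SepC G' (k + 2)) h
    fun _ h' => ratInj_asmAll h'.1 h'.2.1 h'.2.2

/-- **The joint assembly map in the degree one, local condition.** -/
theorem loc_asmOne (h : ∀ S : Finset G, ∃ G' : Subgroup G,
    (BddT G' ∧ SepC G' 1) ∧ ∀ g ∈ S, g ∈ G') : RatInj (asmOne G) :=
  asmOne_directed G (fun G' => BddT G' ∧ SepC G' 1) h fun _ h' => ratInj_asmOne h'.1 h'.2

/-- **The joint assembly map in the degree zero, local condition.** -/
theorem loc_asm0 (h : ∀ S : Finset G, ∃ G' : Subgroup G,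
    SepC G' 0 ∧ ∀ g ∈ S, g ∈ G') : RatInj (asm0 G) :=
  asm0_directed G (fun G' => SepC G' 0) h fun _ h' => ratInj_asmZero h'

end

end Pool.Agent.H8.KL

end

section

/-!
# Rational injectivity over `ℤ` on the `K₀`-, `K₁`- and `K₋₁`-parts: the final statement
-/

set_option autoImplicit false

universe u v

namespace Pool.Agent.H71.FQ3

open Pool.Agent.H71.FQS (RatInj)
open Pool.Agent.H39.KL (BddT SepC)
open Pool.Agent.H8.KL (loc_asmAll loc_asmOne loc_asm0)

section

variable {G : Type u} [Group G] {n : ℕ}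

theorem sepC_of {k : ℕ} (h : ∀ p : ℕ, p.Prime → ∀ C : Subgroup G, Finite C → IsCyclic C →
    p ∣ Nat.card C → LSep p (FQS.Cent C) (k + 1)) : SepC G k := fun p hp C hC hc hd =>
  psepA_of (Γ := Subgroup.centralizer (C : Set G)) (h p hp C hC hc hd)

/-- **The main theorem.** -/
theorem main (G : Type u) [Group G] (n : ℕ) (hG : LocGrpZ G n) :
    ∃ (α : Hn G n →+ LQ (MonoidAlgebra ℤ G) n) (β : K1Part ℤ G n →+ LQ (MonoidAlgebra ℤ G) n)
      (γ : HnKm1 ℤ G n →+ LQ (MonoidAlgebra ℤ G) n),
      IsAssemblyH α ∧ IsAssemblyU β ∧ IsAssemblyE γ ∧ RatInj (α.coprod (β.coprod γ)) := by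
  apply exists_of_ratInj
  rcases n with _ | _ | k
  · refine ratInj_zero (loc_asm0 G fun S => ?_)
    obtain ⟨G', h1, h2⟩ := hG S
    exact ⟨G', sepC_of fun p hp C hC hc hd => ((h2 p hp).2 C hC hc hd).2, h1⟩
  · refine ratInj_one (loc_asmOne G fun S => ?_)
    obtain ⟨G', h1, h2⟩ := hG S
    exact ⟨G', ⟨fun p hp => (h2 p hp).1.resolve_left one_ne_zero,
      sepC_of fun p hp C hC hc hd => ((h2 p hp).2 C hC hc hd).2⟩, h1⟩
  · refine ratInj_succ (loc_asmAll G k fun S => ?_)
    obtain ⟨G', h1, h2⟩ := hG S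
    exact ⟨G', ⟨fun p hp => (h2 p hp).1.resolve_left (Nat.succ_ne_zero _),
      sepC_of fun p hp C hC hc hd => ((h2 p hp).2 C hC hc hd).1,
      sepC_of fun p hp C hC hc hd => ((h2 p hp).2 C hC hc hd).2⟩, h1⟩

end

end Pool.Agent.H71.FQ3

end
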