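import Pool.Agent.H13.TFQ.H71.FQ.StG
import Pool.Agent.H13.TFQ.H71.FU0.Defs0_1
import Pool.Agent.H13.TFQ.H71.FU0.LocF0
import Pool.Agent.H13.TFQ.M62

/-! The parts of this file: H71.FU0.Field0, H71.FU0.Main0. -/

section

/-!
# Project FU, degree one: the fields

Comparison with the full assembly map in degree one of `DB/Defs.lean`.
-/

set_option autoImplicit false

open Matrix

universe u v w

namespace Pool.Agent.H71.FU0

open Pool.Agent.H71.FQ
open Pool.Agent.H71.FJ (IdemMat K0 K0.mk K0.map K0.hom_ext)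
open Pool.Agent.H95.WH (K1 K1.mk K1.map K1.map_map FamSub conjHom FinSub)

section

variable {k : Type u} [CommRing k] {G : Type v} [Group G]

/-- the symbol in the second variable -/
noncomputable def chiD (F : FamSub G FinSub) (x : K0 (MonoidAlgebra k F.1)) :
    Subgroup.centralizer (F.1 : Set G) →* Multiplicative (DB.H1K0 k G) where
  toFun z := Multiplicative.ofAdd (DB.sy F x z)
  map_one' := by
    have h := DB.sy_mul F x 1 1
    rw [mul_one] at h
    exact congrArg Multiplicative.ofAdd (left_eq_add.1 h)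
  map_mul' z z' := congrArg Multiplicative.ofAdd (DB.sy_mul F x z z')

/-- the biadditive map -/
noncomputable def bD (F : FamSub G FinSub) : K0 (MonoidAlgebra k F.1) →+
    HG (Subgroup.centralizer (F.1 : Set G)) 0 →+ DB.H1K0 k G :=
  AddMonoidHom.mk' (fun x => ev1 (chiD F x)) (by
    intro x y
    apply hg0_ext
    intro z
    rw [AddMonoidHom.add_apply, ev1_e1, ev1_e1, ev1_e1]
    exact DB.sy_add F x y z)

theorem bD_e1 (F : FamSub G FinSub) (x : K0 (MonoidAlgebra k F.1))
    (z : Subgroup.centralizer (F.1 : Set G)) : bD F x (e1 z) = DB.sy F x z := by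
  change ev1 (chiD F x) (e1 z) = _
  rw [ev1_e1]
  rfl

theorem bD_conj (F F' : FamSub G FinSub) (g : G) (h : ∀ x ∈ F.1, g * x * g⁻¹ ∈ F'.1)
    (x : K0 (MonoidAlgebra k F.1)) (z : HG (Subgroup.centralizer (F'.1 : Set G)) 0) :
    bD F' (K0.map (MonoidAlgebra.mapDomainRingHom k (conjHom g F.1 F'.1 h)) x) z =
      bD F x (HG.map 0 (centConj g F.1 F'.1 h) z) := by
  have h1 : bD F' (K0.map (MonoidAlgebra.mapDomainRingHom k (conjHom g F.1 F'.1 h)) x) =
      (bD F x).comp (HG.map 0 (centConj g F.1 F'.1 h)) := by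
    apply hg0_ext
    intro z
    rw [AddMonoidHom.comp_apply, map_e1, bD_e1, bD_e1]
    exact DB.sy_conj F F' g h x z
  exact DFunLike.congr_fun h1 z

/-- the homomorphism to `H1K0` -/
noncomputable def toD0 : HnK0 k G 0 →+ DB.H1K0 k G := Pool.Agent.H16.FU.lift0 (fun F => bD F) bD_conj

theorem toD0_sy (F : FamSub G FinSub) (x : K0 (MonoidAlgebra k F.1))
    (z : HG (Subgroup.centralizer (F.1 : Set G)) 0) : toD0 (sy F x z) = bD F x z :=
  Pool.Agent.H16.FU.lift0_sy _ _ F x z

/-- the homomorphism from `H1K0` -/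
noncomputable def fromD0 : DB.H1K0 k G →+ HnK0 k G 0 :=
  QuotientAddGroup.lift (DB.SymRel k G)
    (FreeAbelianGroup.lift fun s : DB.Sym k G => (sy s.F s.x (e1 s.z) : HnK0 k G 0)) (by
      rw [DB.SymRel, AddSubgroup.closure_le]
      rintro w ((⟨F, x, y, z, rfl⟩ | ⟨F, x, z, z', rfl⟩) | ⟨F, F', g, h, x, z, rfl⟩)
      · change FreeAbelianGroup.lift _ _ = 0
        rw [DB.symX, DB.symOf, DB.symOf, DB.symOf, map_sub, map_add,
          FreeAbelianGroup.lift_apply_of, FreeAbelianGroup.lift_apply_of,
          FreeAbelianGroup.lift_apply_of, sub_eq_zero]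
        exact sy_add F x y (e1 z)
      · change FreeAbelianGroup.lift _ _ = 0
        rw [DB.symZ, DB.symOf, DB.symOf, DB.symOf, map_sub, map_add,
          FreeAbelianGroup.lift_apply_of, FreeAbelianGroup.lift_apply_of,
          FreeAbelianGroup.lift_apply_of, sub_eq_zero]
        exact (congrArg (sy F x) (e1_mul z z')).trans (sy_addz F x _ _)
      · change FreeAbelianGroup.lift _ _ = 0
        rw [DB.symC, DB.symOf, DB.symOf, map_sub, FreeAbelianGroup.lift_apply_of,
          FreeAbelianGroup.lift_apply_of, sub_eq_zero]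
        refine (sy_conj F F' g h x (e1 z)).trans ?_
        rw [map_e1]
        rfl)

theorem fromD0_sy (F : FamSub G FinSub) (x : K0 (MonoidAlgebra k F.1))
    (z : Subgroup.centralizer (F.1 : Set G)) : fromD0 (DB.sy F x z) = sy F x (e1 z) :=
  FreeAbelianGroup.lift_apply_of (fun s : DB.Sym k G => (sy s.F s.x (e1 s.z) : HnK0 k G 0))
    ⟨F, x, z⟩

theorem fromD0_toD0 (w : HnK0 k G 0) : fromD0 (toD0 w) = w := by
  have h : (fromD0 (k := k) (G := G)).comp toD0 = AddMonoidHom.id _ := by
    apply hnk0_ext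
    intro F x z
    rw [AddMonoidHom.comp_apply, toD0_sy, AddMonoidHom.id_apply]
    induction z using hg0_induction with
    | h0 =>
      rw [map_zero, map_zero]
      have e : sy F x (0 : HG (Subgroup.centralizer (F.1 : Set G)) 0) +
          sy F x (0 : HG (Subgroup.centralizer (F.1 : Set G)) 0) =
          (sy F x (0 : HG (Subgroup.centralizer (F.1 : Set G)) 0) : HnK0 k G 0) := by
        rw [← sy_addz, add_zero]
      exact (left_eq_add.1 e.symm).symm
    | h1 a => rw [bD_e1, fromD0_sy]
    | h2 a b ha hb => rw [map_add, map_add, ha, hb, sy_addz]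
    | h3 a ha =>
      rw [map_neg, map_neg, ha]
      have e : sy F x a + sy F x (-a) = (0 : HnK0 k G 0) := by
        rw [← sy_addz, add_neg_cancel]
        have e : sy F x (0 : HG (Subgroup.centralizer (F.1 : Set G)) 0) +
            sy F x (0 : HG (Subgroup.centralizer (F.1 : Set G)) 0) =
            (sy F x (0 : HG (Subgroup.centralizer (F.1 : Set G)) 0) : HnK0 k G 0) := by
          rw [← sy_addz, add_zero]
        exact left_eq_add.1 e.symm
      exact neg_eq_of_add_eq_zero_right e
  exact DFunLike.congr_fun h w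

/-- the homomorphism to the colimit -/
noncomputable def toD1 : H0K1 k G →+ DB.ColimK1 k G :=
  lift10 (fun F => DB.cl1 k G F) (fun F F' g h x => DB.cl1_conj k G F F' g h x)

theorem toD1_cl (F : FamSub G FinSub) (x : K1 (MonoidAlgebra k F.1)) :
    toD1 (cl F x) = DB.cl1 k G F x := lift10_cl _ _ F x

/-- the homomorphism from the colimit -/
noncomputable def fromD1 : DB.ColimK1 k G →+ H0K1 k G :=
  QuotientAddGroup.lift (DB.colimRel1 k G)
    (DB.sumLift1 k G fun F => (cl F : K1 (MonoidAlgebra k F.1) →+ H0K1 k G)) (by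
      rw [DB.colimRel1, AddSubgroup.closure_le]
      rintro z ⟨F, F', g, h, x, rfl⟩
      change DB.sumLift1 k G _ _ = 0
      refine (map_sub (DB.sumLift1 k G fun F => (cl F : K1 (MonoidAlgebra k F.1) →+ H0K1 k G))
        _ _).trans ?_
      refine sub_eq_zero.2 ?_
      refine (DB.sumLift1_inc k G (fun F => (cl F : K1 (MonoidAlgebra k F.1) →+ H0K1 k G)) F'
        _).trans ?_
      refine Eq.trans ?_ (DB.sumLift1_inc k G
        (fun F => (cl F : K1 (MonoidAlgebra k F.1) →+ H0K1 k G)) F _).symm
      exact cl_conj F F' g h x)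

theorem fromD1_cl1 (F : FamSub G FinSub) (x : K1 (MonoidAlgebra k F.1)) :
    fromD1 (DB.cl1 k G F x) = cl F x :=
  DB.sumLift1_inc k G (fun F => (cl F : K1 (MonoidAlgebra k F.1) →+ H0K1 k G)) F x

theorem fromD1_toD1 (w : H0K1 k G) : fromD1 (toD1 w) = w := by
  have h : (fromD1 (k := k) (G := G)).comp toD1 = AddMonoidHom.id _ := by
    apply h0k1_ext
    intro F x
    rw [AddMonoidHom.comp_apply, toD1_cl, fromD1_cl1, AddMonoidHom.id_apply]
  exact DFunLike.congr_fun h w

theorem kap_asm0 (w : HnK0 k G 0) : kap (assemblyN k 0 G w) = DB.asmH k G (toD0 w) := by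
  have h : kap.comp (assemblyN k 0 G) = (DB.asmH k G).comp toD0 := by
    apply hnk0_ext
    intro F x z
    rw [AddMonoidHom.comp_apply, AddMonoidHom.comp_apply, toD0_sy, asmN_sy]
    have h1 : kap.comp (gasm k 0 F.1.subtype (Subgroup.centralizer (F.1 : Set G)).subtype
        (cent_comm F.1) x) = (DB.asmH k G).comp (bD F x) := by
      apply hg0_ext
      intro γ
      rw [AddMonoidHom.comp_apply, AddMonoidHom.comp_apply, bD_e1, DB.asmH_sy]
      have h4 : kap.comp ((AddMonoidHom.eval (e1 γ)).comp (gasm k 0 F.1.subtype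
          (Subgroup.centralizer (F.1 : Set G)).subtype (cent_comm F.1))) =
          DB.gbass k F.1.subtype (γ : G) (DB.cent_comm γ) := by
        apply K0.hom_ext
        intro a
        change kap (gasm k 0 F.1.subtype (Subgroup.centralizer (F.1 : Set G)).subtype
          (cent_comm F.1) (K0.mk a) (e1 γ)) = _
        rw [gasm, asm_mk, map_e1, kap_cls, DB.gbass, DB.bass_mk]
        congr 1
      exact DFunLike.congr_fun h4 x
    exact DFunLike.congr_fun h1 z
  exact DFunLike.congr_fun h w

theorem kap_asm1 (w : H0K1 k G) : kap (assembly10 k G w) = DB.asm1 k G (toD1 w) := by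
  have h : kap.comp (assembly10 k G) = (DB.asm1 k G).comp toD1 := by
    apply h0k1_ext
    intro F x
    rw [AddMonoidHom.comp_apply, AddMonoidHom.comp_apply, toD1_cl, assembly10_cl, kap_kq1,
      DB.asm1_cl]
  exact DFunLike.congr_fun h w

theorem kap_asm00 (w : HnK0 k G 0 × H0K1 k G) :
    kap (assembly00 k G w) = DB.asm1 k G (toD1 w.2) + DB.asmH k G (toD0 w.1) := by
  rw [assembly00_apply, map_add, kap_asm0, kap_asm1, add_comm]

theorem ratInj00_of_full (h : DB.RatInj (DB.fullAssembly k G)) : RatInj (assembly00 k G) := by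
  rw [ratInj_iff]
  intro z M hM hz
  have h1 : M • (DB.asm1 k G (toD1 z.2) + DB.asmH k G (toD0 z.1)) = 0 := by
    rw [← kap_asm00]
    have h2 : kap (M • assembly00 k G z) = 0 := by rw [hz, map_zero]
    rw [map_zsmul] at h2
    exact h2
  obtain ⟨m, hm, h2⟩ := (ratInj_iff (f := DB.fullAssembly k G)).1 h (toD1 z.2, toD0 z.1) M hM h1
  refine ⟨m, hm, ?_⟩
  have h3 : m • toD1 z.2 = 0 := congrArg Prod.fst h2
  have h4 : m • toD0 z.1 = 0 := congrArg Prod.snd h2
  refine Prod.ext ?_ ?_
  · change m • z.1 = 0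
    rw [← fromD0_toD0 z.1, ← map_zsmul, h4, map_zero]
  · change m • z.2 = 0
    rw [← fromD1_toD1 z.2, ← map_zsmul, h3, map_zero]

end

/-- separation in degree one -/
theorem padicSep_of {p : ℕ} [Fact p.Prime] {Γ : Type v} [Group Γ] (h : PSep p Γ 0) :
    DB.PadicSep p Γ := by
  intro z hz
  obtain ⟨m, hm, h1⟩ := h (e1 z) (fun f => by
    let χ : Γ →* Multiplicative ℤ_[p] :=
      { toFun := fun a => Multiplicative.ofAdd (f (e1 a))
        map_one' := by rw [e1_one, map_zero]; rfl
        map_mul' := fun a b => by rw [e1_mul, map_add]; rfl }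
    have h2 : Multiplicative.ofAdd (f (e1 z)) = 1 := hz χ
    exact Multiplicative.ofAdd.injective h2)
  let χ : Γ →* Multiplicative (Additive (Abelianization Γ)) :=
    { toFun := fun a => Multiplicative.ofAdd (Additive.ofMul (Abelianization.of a))
      map_one' := by rw [map_one]; rfl
      map_mul' := fun a b => by rw [map_mul]; rfl }
  have h2 : m • Additive.ofMul (Abelianization.of z) = 0 := by
    have h3 : ev1 χ (m • e1 z) = 0 := by rw [h1, map_zero]
    rw [map_zsmul, ev1_e1] at h3
    exact h3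
  have h3 : (Abelianization.of z) ^ m = 1 := h2
  have h4 : Abelianization.of (z ^ m.natAbs) = 1 := by
    rw [map_pow]
    rcases Int.natAbs_eq m with h5 | h5
    · rw [h5, zpow_natCast] at h3
      exact h3
    · rw [h5, _root_.zpow_neg, zpow_natCast, inv_eq_one] at h3
      exact h3
  refine ⟨m.natAbs, Int.natAbs_ne_zero.2 hm, ?_⟩
  exact (QuotientGroup.eq_one_iff _).1 h4

/-- **The fields of characteristic `p`.** -/
theorem ratInj00_field (p : ℕ) [Fact p.Prime] (k : Type u) [Field k] [hp : CharP k p] (G : Type v)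
    [Group G] (hsep : ∀ C : Subgroup G, Finite C → IsCyclic C → ¬ p ∣ Nat.card C →
      PSep p (Subgroup.centralizer (C : Set G)) 0) : RatInj (assembly00 k G) := by
  refine ratInj00_of_full (DB.full_injective k G ?_)
  intro q hq hk C h1 h2 h3
  have hqp : q = p := CharP.eq k hk hp
  subst hqp
  exact padicSep_of (hsep C h1 h2 h3)

end Pool.Agent.H71.FU0

end

section

/-!
# Project FU, degree one: the classes of rings and groups
-/

set_option autoImplicit false

open Matrix

universe u v w

namespace Pool.Agent.H71.FU0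

open Pool.Agent.H71.FJ (NilKer)
open Pool.Agent.H71.FQS (PSep Cent NilFin LocRing psep_of hnK0_subsingleton k1_subsingleton nilFin_of_finite)
open Pool.Agent.H95.WH (K1 FamSub FinSub)

section

variable {R : Type u} [Ring R] {G : Type v} [Group G]

/-- The condition on the group in degree one. -/
def LocGrp0 (p : ℕ) (G : Type v) [Group G] : Prop :=
  ∀ S : Finset G, ∃ G' : Subgroup G, (∀ g ∈ S, g ∈ G') ∧
    ∀ C : Subgroup G', Finite C → IsCyclic C → ¬ p ∣ Nat.card C → PSep p (Cent C) 0

theorem ratInj00_alg {p : ℕ} [Fact p.Prime] (k : Type u) [Field k]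
    [CharP k p] (A : Type u) [Ring A] [Algebra k A] [Module.Finite k A] (G' : Type v) [Group G']
    (h2 : ∀ C : Subgroup G', Finite C → IsCyclic C → ¬ p ∣ Nat.card C → PSep p (Cent C) 0) :
    FQ.RatInj (assembly00 A G') := by
  obtain ⟨L, _, _, _, m, r, φ, hr, hs, hn⟩ := FQ.exists_splitting k A
  have : CharP L p := charP_of_injective_algebraMap (algebraMap k L).injective p
  have hp : (p : TensorProduct k L A) = 0 := by
    have h3 : (algebraMap L (TensorProduct k L A)) (p : L) = (p : TensorProduct k L A) :=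
      map_natCast _ p
    rw [← h3, CharP.cast_eq_zero, map_zero]
  refine ratInj00_finExt k L A (ratInj00_of_nilKer hs hn (Fact.out : p.Prime).ne_zero hp
    (ratInj00_pi _ fun i => ?_))
  exact ratInj00_matrix (r i) (hr i) (ratInj00_field p L G' fun C h3 h4 h5 =>
    psep_of (Γ := Subgroup.centralizer (C : Set G')) (h2 C h3 h4 h5))

theorem ratInj00_fd {p : ℕ} [Fact p.Prime] (k : Type u) [Field k]
    [CharP k p] (A : Type u) [Ring A] [Algebra k A] [Module.Finite k A] (h : LocGrp0 p G) :
    FQ.RatInj (assembly00 A G) := by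
  refine ratInj00_directed (fun G' : Subgroup G =>
    ∀ C : Subgroup G', Finite C → IsCyclic C → ¬ p ∣ Nat.card C → PSep p (Cent C) 0) (fun S => ?_)
    fun G' hG' => ratInj00_alg k A G' hG'
  obtain ⟨G', h1, h2⟩ := h S
  exact ⟨G', h2, h1⟩

theorem h0K1_subsingleton [Subsingleton R] (x : H0K1 R G) : x = 0 := by
  induction x using h0k1_induction with
  | h0 => rfl
  | h1 F x =>
    have : Subsingleton (MonoidAlgebra R F.1) := inferInstance
    have h1 : x = 0 := k1_subsingleton x
    rw [h1, map_zero]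
  | h2 a b ha hb => rw [ha, hb, add_zero]
  | h3 a ha => rw [ha, neg_zero]

theorem ratInj00_subsingleton [Subsingleton R] : FQ.RatInj (assembly00 R G) := by
  apply FQ.ratInj_of
  intro z M hM h
  refine ⟨1, one_ne_zero, ?_⟩
  rw [one_smul]
  exact Prod.ext (hnK0_subsingleton z.1) (h0K1_subsingleton z.2)

theorem ratInj00_nilFin (h : NilFin R)
    (hG : ∀ (p : ℕ) [Fact p.Prime], p ∣ ringChar R → LocGrp0 p G) :
    FQ.RatInj (assembly00 R G) := by
  obtain ⟨m, A, hA, φ, hs, ⟨N, hN⟩, h⟩ := h
  have hq : ∃ M : ℕ, M ≠ 0 ∧ (M : R) = 0 := by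
    choose p k hk hka hp hc hf using h
    refine ⟨(∏ i, p i) ^ N, pow_ne_zero _ (Finset.prod_ne_zero_iff.2 fun i _ => (hp i).ne_zero), ?_⟩
    have h1 : ((∏ i, p i : ℕ) : R) ∈ RingHom.ker φ := by
      rw [RingHom.mem_ker, map_natCast]
      funext i
      have h2 : ((∏ i, p i : ℕ) : A i) = 0 := by
        rw [← Finset.mul_prod_erase Finset.univ p (Finset.mem_univ i), Nat.cast_mul]
        have h3 : ((p i : ℕ) : A i) = 0 := by
          let _ := hk i
          let _ := hka i
          have := hc i
          have h4 : (algebraMap (k i) (A i)) ((p i : ℕ) : k i) = ((p i : ℕ) : A i) :=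
            map_natCast _ _
          rw [← h4, CharP.cast_eq_zero, map_zero]
        rw [h3, zero_mul]
      rw [Pi.natCast_apply, h2]
      rfl
    have h5 : ((∏ i, p i : ℕ) : R) ^ N ∈ RingHom.ker φ ^ N := Ideal.pow_mem_pow h1 N
    rw [hN] at h5
    rw [Nat.cast_pow]
    exact (Submodule.mem_bot R).1 h5
  obtain ⟨M, hM, hM0⟩ := hq
  refine ratInj00_of_nilKer hs (FQ.nilKer_of_ker_pow φ hN) hM hM0 (ratInj00_pi _ fun i => ?_)
  obtain ⟨p, k, _, _, hp, hk, hf⟩ := h i
  have : Fact p.Prime := ⟨hp⟩
  rcases subsingleton_or_nontrivial (A i) with hi | hi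
  · exact ratInj00_subsingleton
  · refine ratInj00_fd k (A i) (hG p ?_)
    have h1 : ((ringChar R : ℕ) : A i) = 0 := by
      have h2 : φ ((ringChar R : ℕ) : R) i = 0 := by
        rw [CharP.cast_eq_zero, map_zero]
        rfl
      rw [map_natCast] at h2
      exact h2
    have : CharP (A i) p := charP_of_injective_algebraMap (algebraMap k (A i)).injective p
    exact (CharP.cast_eq_zero_iff (A i) p _).1 h1

/-- **Rational injectivity of the joint assembly map in degree one.** -/
theorem ratInj00_main (hR : LocRing R)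
    (hG : ∀ (p : ℕ) [Fact p.Prime], p ∣ ringChar R → LocGrp0 p G) :
    FQ.RatInj (assembly00 R G) := by
  refine ratInj00_of_local fun S => ?_
  obtain ⟨R', h1, h2⟩ := hR S
  refine ⟨R', inferInstance, R'.subtype, Subtype.val_injective,
    fun s hs => ⟨⟨s, h1 s hs⟩, rfl⟩, ?_⟩
  have h3 : ringChar R' = ringChar R := by
    have h4 := ringChar.charP R
    have h5 : CharP R' (ringChar R) := inferInstance
    exact ringChar.eq R' (ringChar R)
  have h4 : NilFin R' := h2.elim (fun h => nilFin_of_finite) id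
  refine ratInj00_nilFin h4 fun p hp hd => hG p ?_
  rw [← h3]
  exact hd

end

end Pool.Agent.H71.FU0

end
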