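import Pool.Agent.H13.TFQ.H16.FU.Fin2
import Pool.Agent.H13.TFQ.M65
import Pool.Agent.H13.TFQ.M71

/-! The parts of this file: H71.FQ.StH, H71.FQ.StI_4. -/

section

/-!
# Rational injectivity on the `K₀`-part and the `K₁`-part: the final statement
-/

set_option autoImplicit false

universe u v

namespace Pool.Agent.H71.FQS

section

variable {R : Type u} [Ring R] {G : Type v} [Group G] {n : ℕ}

theorem fieldCase : FieldCase.{u, v} := fun p _ k _ _ G _ r h1 n h2 =>
  Pool.Agent.H16.FU.main p k G r h1 n h2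

/-- **The main theorem in the degree `n + 2`.** -/
theorem main1 (hR : LocRing R)
    (hG : ∀ p : ℕ, p.Prime → p ∣ ringChar R → LocGrpD p G {n, n + 1}) :
    ∃ (α₀ : HnK0 R G (n + 1) →+ KQ (MonoidAlgebra R G) (n + 1))
      (α₁ : HnK1 R G n →+ KQ (MonoidAlgebra R G) (n + 1)),
      IsAssembly α₀ ∧ IsAssembly1 α₁ ∧ RatInj (α₀.coprod α₁) := by
  refine transfer1 (ratInj01_main fieldCase hR fun p hp hd S => ?_)
  obtain ⟨G', h1, h2, h3⟩ := hG p hp.out hd S
  exact ⟨G', h1, h2, fun C h4 h5 h6 =>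
    ⟨h3 C h4 h5 h6 n (Or.inl rfl), h3 C h4 h5 h6 (n + 1) (Or.inr rfl)⟩⟩

end

end Pool.Agent.H71.FQS

end

section

/-!
# Comparison of the definitions: the assembly map on the `K₁`-part in all degrees
-/

set_option autoImplicit false

open Matrix

universe u v w

namespace Pool.Agent.H71.FQ1

open Pool.Agent.H71.FQS (Ch bd push coi bnd Cyc PSep GLm blkM RF Cent KQ HnK0 IsAssembly RatInj LocRing toHG fromK fromK_cls toK toK_fromK asmS asmS_isAssembly ratInj_iff toH fromH_toH bd_eq push_eq mem_coi)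
open Pool.Agent.H71.FQ (Cx HG centConj grpHom)
open Pool.Agent.H71.FU0 (H0K1 cl cl_conj lift10 lift10_cl h0k1_ext e1 mk_single cyc0 kq1 kq1_mk assembly10 assembly10_cl assembly00 assembly00_apply ratInj00_main LocGrp0)
open Pool.Agent.H95.WH (K1 K1.mk K1.lift K1.lift_mk K1.hom_ext K1.mk_mul K1.mk_stab K1.map K1.map_mk K1.mapU FamSub conjHom FinSub stab)

section

end

/-! ### Degree one -/

section

end

section

end

section

variable {R : Type u} [Ring R] {G : Type v} [Group G]

/-- **The main theorem.** -/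
theorem main (hR : LocRing R) (n : ℕ)
    (hG : ∀ p : ℕ, p.Prime → p ∣ ringChar R → LocGrp p G {n - 1, n}) :
    ∃ (α₀ : HnK0 R G n →+ KQ (MonoidAlgebra R G) n)
      (α₁ : HnK1 R G n →+ KQ (MonoidAlgebra R G) n),
      IsAssembly α₀ ∧ IsAssembly1 α₁ ∧ RatInj (α₀.coprod α₁) := by
  rcases n with _ | n
  · refine transfer_zero (ratInj00_main hR fun p hp hd S => ?_)
    obtain ⟨G', h1, -, h3⟩ := hG p hp.out hd S
    exact ⟨G', h1, fun C h4 h5 h6 => h3 C h4 h5 h6 0 (Or.inr rfl)⟩
  · refine transfer_succ (FQS.main1 hR fun p hp hd => ?_)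
    exact hG p hp hd

end

end Pool.Agent.H71.FQ1

end
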